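import Pool.Agent.P.MP_daea48_ag.StA

/-! A meromorphic rectangle in a fibre deforms to local sections. -/

open Set Filter Topology Metric

namespace Pool.Agent.P.MP_daea48_ag

namespace AF

theorem continuous_aff (ζ₀ : ℂ) (a b : ℝ) : Continuous (aff ζ₀ a b) := by
  unfold aff; fun_prop

theorem isOpen_rect (ζ₀ : ℂ) {a b : ℝ} (ha : 0 < a) (hb : 0 < b) :
    IsOpen (aff ζ₀ a b '' ball 0 1) := by
  rw [image_eq_preimage_of_inverse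
    (g := fun ζ : ℂ => (((ζ - ζ₀).re / a, (ζ - ζ₀).im / b) : ℝ × ℝ))]
  · exact isOpen_ball.preimage (by fun_prop)
  · intro q
    ext
    · simp [aff]; field_simp
    · simp [aff]; field_simp
  · intro ζ
    apply Complex.ext
    · simp [aff]; field_simp; ring
    · simp [aff]; field_simp; ring

theorem isCompact_rect (ζ₀ : ℂ) (a b : ℝ) : IsCompact (rect ζ₀ a b) :=
  (isCompact_closedBall _ _).image (continuous_aff ζ₀ a b)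

theorem bd_mem (ζ₀ : ℂ) (a b : ℝ) {q : ℝ × ℝ} (hq : q ∈ bd) : aff ζ₀ a b q ∈ rect ζ₀ a b :=
  ⟨q, sphere_subset_closedBall hq, rfl⟩

theorem aff_scale (τ₀ ζ₀ : ℂ) (a b : ℝ) {t : ℝ} (ht : 0 < t) (q : ℝ × ℝ) :
    τ₀ + (aff ζ₀ (t * a) (t * b) q - ζ₀) / t = aff τ₀ a b q := by
  have : (t : ℂ) ≠ 0 := Complex.ofReal_ne_zero.2 ht.ne'
  simp only [aff]
  push_cast
  field_simp
  ring

end AF

open AF in
theorem AF_of (h1 : S_Sim) : S_AF := by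
  intro E _ _ _ E' _ _ _ G _ _ _ G' _ _ _ U pr TU A prA TA κ β τ₀ a b p Ψ O hκ ha hb hp hpa hpA hO
    hMF hΨ hU hbd
  set R := rect τ₀ a b with hR
  have hF : ContinuousOn (fun q => ((κ β, p (aff τ₀ a b q)), aff τ₀ a b q)) bd :=
    (continuousOn_const.prodMk (hp.comp (continuous_aff _ _ _).continuousOn
      fun q hq => bd_mem _ _ _ hq)).prodMk (continuous_aff _ _ _).continuousOn
  have hFm : ∀ q ∈ bd, ((κ β, p (aff τ₀ a b q)), aff τ₀ a b q) ∈ (A ×ˢ univ) ∩ O := fun q hq =>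
    ⟨⟨hpA _ (bd_mem _ _ _ hq), mem_univ _⟩, hbd q hq⟩
  refine (h1 E E' U pr TU κ β hκ).1 _ a b ha hb ⟨hΨ.comp hF hFm, fun q hq => hU _ (hFm q hq)⟩ ?_
  intro η hη
  obtain ⟨ρ, hρ, hρ'⟩ := TA.rho_lower (K := (fun τ => (κ β, p τ)) '' R)
    ((isCompact_rect _ _ _).image_of_continuousOn (continuousOn_const.prodMk hp)).isBounded
  set Γ : ℂ × ℂ → (ℂ × G) × ℂ := fun w =>
    ((w.1, TA.ex (κ β, p w.2) (w.1, prA (p w.2))), w.2) with hΓ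
  set D : Set (ℂ × ℂ) := ball (κ β) (ρ ^ 2) ×ˢ R with hD
  have hdom : ∀ w ∈ D, (κ β, p w.2) ∈ A ∧
      ‖(w.1, prA (p w.2)) - pj prA (κ β, p w.2)‖ < TA.rho (κ β, p w.2) ^ 2 := by
    intro w hw
    refine ⟨hpA _ hw.2, ?_⟩
    have e1 : ρ ^ 2 ≤ TA.rho (κ β, p w.2) ^ 2 :=
      pow_le_pow_left₀ hρ.le (hρ' _ ⟨w.2, hw.2, rfl⟩) 2
    have e2 : ‖w.1 - κ β‖ < ρ ^ 2 := mem_ball_iff_norm.1 hw.1
    simpa using e2.trans_le e1
  have hp2 : ContinuousOn (fun w : ℂ × ℂ => p w.2) D := hp.comp continuousOn_snd fun w hw => hw.2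
  have hΓc : ContinuousOn Γ D :=
    (continuousOn_fst.prodMk (TA.continuousOn_ex_comp (continuousOn_const.prodMk hp2)
      (continuousOn_fst.prodMk (prA.continuous.comp_continuousOn hp2)) hdom)).prodMk
      continuousOn_snd
  have hΓA : ∀ w ∈ D, Γ w ∈ A ×ˢ (univ : Set ℂ) := fun w hw =>
    ⟨TA.ex_mem (hdom w hw).1 (hdom w hw).2, mem_univ _⟩
  have hΓ0 : ∀ τ ∈ R, Γ (κ β, τ) = ((κ β, p τ), τ) := fun τ hτ => by
    have := TA.ex_self (hpA τ hτ)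
    simp only [hΓ]
    rw [show ((κ β, prA (p τ)) : ℂ × G') = pj prA (κ β, p τ) from rfl, this]
  have hb0 : κ β ∈ ball (κ β) (ρ ^ 2) := mem_ball_self (pow_pos hρ 2)
  have htube : ∀ᶠ z in 𝓝 (κ β), ∀ τ ∈ aff τ₀ a b '' bd, (z, τ) ∈ D →
      Γ (z, τ) ∈ O ∧ ‖Ψ (Γ (z, τ)) - Ψ ((κ β, p τ), τ)‖ < η := by
    refine ((isCompact_sphere _ _).image (continuous_aff _ _ _)).eventually_forall_of_forall_eventually
      (P := fun z τ => (z, τ) ∈ D → Γ (z, τ) ∈ O ∧ ‖Ψ (Γ (z, τ)) - Ψ ((κ β, p τ), τ)‖ < η) ?_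
    rintro _ ⟨q, hq, rfl⟩
    set τ := aff τ₀ a b q with hτ
    have hτR : τ ∈ R := bd_mem _ _ _ hq
    have e1 : Tendsto Γ (𝓝[D] (κ β, τ)) (𝓝 ((κ β, p τ), τ)) := by
      rw [← hΓ0 τ hτR]; exact hΓc _ ⟨hb0, hτR⟩
    have e2 : ∀ᶠ w in 𝓝[D] (κ β, τ), Γ w ∈ O := e1 (hO.mem_nhds (hbd q hq))
    have e3 : Tendsto (fun w => Ψ (Γ w)) (𝓝[D] (κ β, τ)) (𝓝 (Ψ ((κ β, p τ), τ))) :=
      (hΨ _ (hFm q hq)).tendsto.comp (tendsto_nhdsWithin_iff.2 ⟨e1, by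
        filter_upwards [e2, self_mem_nhdsWithin] with w h2 h3 using ⟨hΓA w h3, h2⟩⟩)
    have e4 : Tendsto (fun w : ℂ × ℂ => ((κ β, p w.2), w.2)) (𝓝[D] (κ β, τ))
        (𝓝 ((κ β, p τ), τ)) :=
      ((continuousOn_const.prodMk hp2).prodMk continuousOn_snd) _ ⟨hb0, hτR⟩
    have e5 : Tendsto (fun w : ℂ × ℂ => Ψ ((κ β, p w.2), w.2)) (𝓝[D] (κ β, τ))
        (𝓝 (Ψ ((κ β, p τ), τ))) :=
      (hΨ _ (hFm q hq)).tendsto.comp (tendsto_nhdsWithin_iff.2 ⟨e4, by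
        filter_upwards [e4 (hO.mem_nhds (hbd q hq)), self_mem_nhdsWithin] with w h2 h3
          using ⟨⟨hpA _ h3.2, mem_univ _⟩, h2⟩⟩)
    have e6 : ∀ᶠ w in 𝓝[D] (κ β, τ), ‖Ψ (Γ w) - Ψ ((κ β, p w.2), w.2)‖ < η :=
      (e3.sub e5).norm.eventually_lt tendsto_const_nhds (by simpa using hη)
    exact eventually_nhdsWithin_iff.1 (e2.and e6)
  obtain ⟨δ, hδ, hδ'⟩ := Metric.eventually_nhds_iff_ball.1 (hκ.eventually_analyticAt.and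
    (hκ.continuousAt.eventually (htube.and (isOpen_ball.eventually_mem hb0))))
  refine ⟨δ, hδ, fun ζ₀ t ht hsub => ?_⟩
  set R' := rect ζ₀ (t * a) (t * b) with hR'
  set V := aff ζ₀ (t * a) (t * b) '' ball 0 1 with hV
  have hVo : IsOpen V := isOpen_rect _ (mul_pos ht ha) (mul_pos ht hb)
  have hVR : V ⊆ R' := image_mono ball_subset_closedBall
  set τ : ℂ → ℂ := fun ζ => τ₀ + (ζ - ζ₀) / t with hτ
  have hτa : ∀ ζ, AnalyticAt ℂ τ ζ := fun ζ => by rw [hτ]; fun_prop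
  have hτq : ∀ q, τ (aff ζ₀ (t * a) (t * b) q) = aff τ₀ a b q := aff_scale τ₀ ζ₀ a b ht
  have hwD : ∀ ζ ∈ R', (κ ζ, τ ζ) ∈ D := by
    rintro _ ⟨q, hq, rfl⟩
    exact ⟨(hδ' _ (hsub ⟨q, hq, rfl⟩)).2.2, q, hq, (hτq q).symm⟩
  set γ : ℂ → (ℂ × G) × ℂ := fun ζ => Γ (κ ζ, τ ζ) with hγ
  have hγc : ContinuousOn γ R' := hΓc.comp (ContinuousOn.prodMk
    (fun ζ hζ => (hδ' _ (hsub hζ)).1.continuousAt.continuousWithinAt)
    fun ζ _ => (hτa ζ).continuousAt.continuousWithinAt) hwD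
  have hγA : ∀ ζ ∈ R', γ ζ ∈ A ×ˢ (univ : Set ℂ) := fun ζ hζ => hΓA _ (hwD ζ hζ)
  have hγb : ∀ q ∈ bd, γ (aff ζ₀ (t * a) (t * b) q) ∈ O ∧
      ‖Ψ (γ (aff ζ₀ (t * a) (t * b) q)) - Ψ ((κ β, p (aff τ₀ a b q)), aff τ₀ a b q)‖ < η := by
    intro q hq
    have e := (hδ' _ (hsub (bd_mem _ _ _ hq))).2.1 _ ⟨q, hq, rfl⟩
      (by rw [← hτq q]; exact hwD _ (bd_mem _ _ _ hq))
    simp only [hγ, hτq]
    exact e
  have hγa : ∀ l ∈ V, AnalyticAt ℂ γ l := by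
    intro l hl
    have e1 := (hδ' _ (hsub (hVR hl))).1
    have e2 : AnalyticAt ℂ (fun x => p (τ x)) l := by
      obtain ⟨q, hq, rfl⟩ := hl
      exact AnalyticAt.comp (g := p) (hpa _ ⟨q, hq, (hτq q).symm⟩) (hτa _)
    refine (e1.prod (TA.analyticAt_ex (u := fun x => (κ β, p (τ x)))
      (p := fun x => (κ x, prA (p (τ x)))) (continuousAt_const.prodMk e2.continuousAt)
      (e1.prod ((prA.analyticAt _).comp e2)) (hdom _ (hwD l (hVR hl))).2 ?_)).prod (hτa l)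
    exact (hVo.eventually_mem hl).mono fun x hx => (hdom _ (hwD x (hVR hx))).1
  have hnear : ∀ q ∈ bd, ∀ᶠ x in 𝓝[R'] aff ζ₀ (t * a) (t * b) q, γ x ∈ O := fun q hq =>
    hγc _ (bd_mem _ _ _ hq) (hO.mem_nhds (hγb q hq).1)
  obtain ⟨l₀, hl₀, hl₀O⟩ : ∃ l₀ ∈ V, γ l₀ ∈ O := by
    have hq : ((1, 0) : ℝ × ℝ) ∈ bd := by simp [bd, Prod.norm_def]
    have e1 : aff ζ₀ (t * a) (t * b) (1, 0) ∈ closure V :=
      image_closure_subset_closure_image (continuous_aff _ _ _) ⟨_, by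
        rw [closure_ball _ one_ne_zero]; exact sphere_subset_closedBall hq, rfl⟩
    have := mem_closure_iff_nhdsWithin_neBot.1 e1
    obtain ⟨x, h2, h3⟩ := (((hnear _ hq).filter_mono (nhdsWithin_mono _ hVR)).and
      self_mem_nhdsWithin).exists
    exact ⟨x, h3, h2⟩
  have hconn : ∀ l ∈ V, (∀ᶠ x in 𝓝[≠] l, γ x ∈ O) ∧ MeromorphicAt (fun x => Ψ (γ x)) l :=
    fun l hl => hMF.conn hVo
      ((convex_ball _ _).isPreconnected.image _ (continuous_aff _ _ _).continuousOn) hγa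
      (fun x hx => hγA x (hVR hx)) hl₀ hl₀O hl
  have hcase : ∀ x ∈ R', x ∈ V ∨ ∃ q ∈ bd, aff ζ₀ (t * a) (t * b) q = x := by
    rintro _ ⟨q, hq, rfl⟩
    rcases (mem_closedBall.1 hq).lt_or_eq with h | h
    · exact Or.inl ⟨q, h, rfl⟩
    · exact Or.inr ⟨q, h, rfl⟩
  have hfin := finite_of_punctured (isCompact_rect ζ₀ (t * a) (t * b))
    (p := fun x => x ∈ R' → γ x ∈ O) fun x hx => by
      rcases hcase x hx with h | ⟨q, hq, rfl⟩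
      · exact (hconn x h).1.mono fun _ h _ => h
      · exact nhdsWithin_le_nhds (eventually_nhdsWithin_iff.1 (hnear q hq))
  have hreg : ∀ ζ ∈ R' \ (hfin.toFinset : Set ℂ), γ ζ ∈ (A ×ˢ univ) ∩ O := fun ζ hζ => by
    refine ⟨hγA ζ hζ.1, ?_⟩
    by_contra h
    exact hζ.2 (hfin.mem_toFinset.2 ⟨hζ.1, fun h' => h (h' hζ.1)⟩)
  refine ⟨fun ζ => Ψ (γ ζ), ⟨hfin.toFinset, fun x hx => ?_,
    hΨ.comp (hγc.mono sdiff_subset) hreg, fun ζ hζ => hU _ (hreg ζ hζ)⟩, fun q hq => (hγb q hq).2⟩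
  obtain ⟨hx1, hx2⟩ := hfin.mem_toFinset.1 hx
  have hxV : x ∈ V := (hcase x hx1).resolve_right fun ⟨q, hq, e⟩ =>
    hx2 fun _ => e ▸ (hγb q hq).1
  refine ⟨hxV, (hconn x hxV).2, ?_⟩
  filter_upwards [(hconn x hxV).1, nhdsWithin_le_nhds (hVo.eventually_mem hxV)] with z h2 h3
  exact hU _ ⟨hγA z (hVR h3), h2⟩

end Pool.Agent.P.MP_daea48_ag
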