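import Pool.Agent.P.MP_daea48_ag.APS1

/-! Package `APS`: presentations of the derived systems. -/

open Set Filter Topology Metric Polynomial

namespace Pool.Agent.P.MP_daea48_ag

noncomputable section

namespace APSP

section ev
variable {E : Type} [NormedAddCommGroup E] [NormedSpace ℂ E]

/-- `ev v` as a continuous linear map. -/
def evL (d : ℕ) (E : Type) [NormedAddCommGroup E] [NormedSpace ℂ E] (v : ℂ) :
    (Fin d → E) →L[ℂ] E := ∑ l : Fin d, v ^ (l : ℕ) • ContinuousLinearMap.proj l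

theorem evL_apply {d : ℕ} (v : ℂ) (X : Fin d → E) : evL d E v X = ev v X := by
  simp [evL, ev]

theorem tame_ev {d : ℕ} {W : Type} [NormedAddCommGroup W] [NormedSpace ℂ W] {v : W → ℂ}
    {X : W → Fin d → E} (hv : Tame v) (hX : Tame X) : Tame fun w => ev (v w) (X w) :=
  Tame.sum _ fun l _ => (hv.pow l).smul (hX.apply l)

theorem norm_ev_le {d : ℕ} (v : ℂ) (X : Fin d → E) : ‖ev v X‖ ≤ d * (1 + ‖v‖) ^ d * ‖X‖ := by
  refine (norm_sum_le _ _).trans ?_
  have : ∀ l ∈ (Finset.univ : Finset (Fin d)), ‖v ^ (l : ℕ) • X l‖ ≤ (1 + ‖v‖) ^ d * ‖X‖ := by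
    intro l _
    rw [norm_smul, norm_pow]
    refine mul_le_mul ?_ (norm_le_pi_norm X l) (norm_nonneg _) (by positivity)
    calc ‖v‖ ^ (l : ℕ) ≤ (1 + ‖v‖) ^ (l : ℕ) := by gcongr; linarith
      _ ≤ _ := pow_le_pow_right₀ (one_le_opn v) l.2.le
  refine (Finset.sum_le_card_nsmul _ _ _ this).trans (le_of_eq ?_)
  simp [mul_assoc]

theorem pr_ev {E' : Type} [NormedAddCommGroup E'] [NormedSpace ℂ E'] (pr : E →L[ℂ] E') {d : ℕ}
    (v : ℂ) {X : Fin d → E} (h : ∀ l, pr (X l) = 0) : pr (ev v X) = 0 := by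
  simp [ev, h]

end ev

/-- Reduction of a polynomial in `T` modulo `Q` at a root. -/
theorem red_poly {Q : ℂ[X][X]} {d : ℕ} (hm : Q.Monic) (hd : Q.natDegree = d) (B : ℂ[X]) {z v : ℂ}
    (hv : Q.evalEval z v = 0) :
    B.eval v = ∑ l : Fin d, v ^ (l : ℕ) * ((B.map C %ₘ Q).coeff l).eval z := by
  have h1 : Q ≠ 1 := by
    rintro rfl
    simp at hv
  have h2 := natDegree_modByMonic_lt (B.map C) hm h1
  rw [hd] at h2
  have h3 : (B.map C %ₘ Q).evalEval z v = B.eval v := by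
    have := congrArg (evalEval z v) (modByMonic_add_div (B.map C) Q)
    simpa [evalEval_add, evalEval_mul, hv, evalEval_map_C] using this
  rw [← h3, Polynomial.evalEval, Polynomial.eval_eq_sum_range' h2, Polynomial.eval_finsetSum,
    Finset.sum_range]
  simp [mul_comm]

/-- A tame family, read at the roots of `Q`, is given by a tame coefficient vector. -/
theorem red (h1 : S_Mero) {W Y : Type} [NormedAddCommGroup W] [NormedSpace ℂ W]
    [NormedAddCommGroup Y] [NormedSpace ℂ Y] [FiniteDimensional ℂ Y] {Q : ℂ[X][X]} {d : ℕ}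
    (hm : Q.Monic) (hd : Q.natDegree = d) {P : W × ℂ → Y} (hP : Tame P) {z : W → ℂ}
    (hz : Tame z) : ∃ G : W → Fin d → Y, Tame G ∧
      ∀ u v, Q.evalEval (z u) v = 0 → ev v (G u) = P (u, v) := by
  obtain ⟨C₀, A, hC, h⟩ := hP.bound
  set bs : ℕ → ℂ[X] := fun k => Lagrange.basis (Finset.range (A + 1)) (fun n : ℕ => (n : ℂ)) k
    with hbs
  have key : ∀ u T, P (u, T) = ∑ k ∈ Finset.range (A + 1), (bs k).eval T • P (u, k) := by
    intro u
    refine h1.2.1 Y (fun T => P (u, T)) (C₀ * (1 + ‖u‖) ^ A) A (hP.1.comp (by fun_prop))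
      fun T => (h _).trans ?_
    have : 1 + ‖(u, T)‖ ≤ (1 + ‖u‖) * (1 + ‖T‖) := by
      have h2 : ‖(u, T)‖ ≤ ‖u‖ + ‖T‖ := by
        rw [Prod.norm_mk]
        exact max_le (by linarith [norm_nonneg T]) (by linarith [norm_nonneg u])
      nlinarith [mul_nonneg (norm_nonneg u) (norm_nonneg T)]
    calc C₀ * (1 + ‖(u, T)‖) ^ A ≤ C₀ * ((1 + ‖u‖) * (1 + ‖T‖)) ^ A := by gcongr
      _ = _ := by rw [mul_pow]; ring
  refine ⟨fun u l => ∑ k ∈ Finset.range (A + 1),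
    (((bs k).map C %ₘ Q).coeff l).eval (z u) • P (u, k), Tame.pi fun l => Tame.sum _ fun k _ =>
      (hz.polyEval _).smul (hP.comp (Tame.id'.prodMk (Tame.const _))), fun u v hv => ?_⟩
  rw [key u v, ev]
  simp only [Finset.smul_sum, smul_smul]
  rw [Finset.sum_comm]
  refine Finset.sum_congr rfl fun k _ => ?_
  rw [red_poly hm hd (bs k) hv, Finset.sum_smul]

section
variable {E E' : Type} [NormedAddCommGroup E] [NormedSpace ℂ E] [FiniteDimensional ℂ E]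
  [NormedAddCommGroup E'] [NormedSpace ℂ E'] [FiniteDimensional ℂ E']

theorem part5 (h1 : S_Mero) (h2 : S_Itp) (Q : ℂ[X][X]) (d : ℕ) (δ : ℂ[X])
    (U : Set (ℂ × ((ℂ × ℂ) × E))) (pr : E →L[ℂ] E') (hc : Cov Q d δ)
    (hU : HasFAPS (CV Q δ) U pr) : HasAPS (WU Q d δ U) (prW d pr) := by
  obtain ⟨E₂, j1, j2, j3, F, hF⟩ := hU
  obtain ⟨⟨C₁, A₁, -, hr⟩, -, -, -, hI, -⟩ := h2 Q d δ hc
  obtain ⟨-, hI2, hI3, -, -⟩ := hI E₂
  obtain ⟨-, hJ2, -, ⟨C₃, A₃, hC₃, hJ4⟩, -⟩ := hI E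
  have tw : Tame fun x : (ℂ × ((Fin d → E) × ℂ)) × ℂ =>
      (x.1.1, ((x.2, x.1.2.2), ev x.2 x.1.2.1)) :=
    Tame.fst'.fst.prodMk ((Tame.snd'.prodMk Tame.fst'.snd.snd).prodMk
      (tame_ev Tame.snd' Tame.fst'.snd.fst))
  obtain ⟨G, tG, hG⟩ := red h1 hc.monic hc.deg (hF.tame.comp tw) Tame.fst'
  dsimp only at hG
  have t2 : Tame fun u : ℂ × ((Fin d → E) × ℂ) => u.2.2 * δ.eval u.1 - 1 :=
    (Tame.snd'.snd.mul (Tame.fst'.polyEval δ)).sub (Tame.const 1)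
  have hne : ∀ {y z : ℂ}, y * δ.eval z = 1 → δ.eval z ≠ 0 := fun h => right_ne_zero_of_mul_eq_one h
  refine ⟨(Fin d → E₂) × ℂ, inferInstance, inferInstance, inferInstance,
    fun u => (G u, u.2.2 * δ.eval u.1 - 1), tG.prodMk t2, fun u => ?_, ?_, ?_⟩
  · rw [Prod.mk_eq_zero, sub_eq_zero]
    constructor
    · rintro ⟨hy, hu⟩
      refine ⟨?_, hy⟩
      rw [← hI2 u.1 (G u) (hne hy), hI3 u.1 _ (fun v => ev v (0 : Fin d → E₂)), hI2 _ _ (hne hy)]
      intro v hv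
      rw [hG u v hv, ((hF.zero _).1 (hu v hv)).2]
      simp [ev]
    · rintro ⟨hu, hy⟩
      refine ⟨hy, fun v hv => (hF.zero _).2 ⟨⟨hv, hy⟩, ?_⟩⟩
      rw [← hG u v hv, hu]
      simp [ev]
  · have := hF.dim
    simp only [Module.finrank_prod, Module.finrank_pi_fintype, Finset.sum_const, Finset.card_univ,
      Fintype.card_fin, smul_eq_mul, Module.finrank_self]
    rw [this]; ring
  · obtain ⟨C₂, A₂, hC₂, hj⟩ := jac_nonneg (fun _ _ => norm_nonneg _) hF.jac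
    -- tempered constants at the roots
    have s0 : TB (fun x : (ℂ × ((Fin d → E) × ℂ)) × ℂ => Q.evalEval x.1.1 x.2 = 0)
        (fun x => x.1) fun x => ‖x.1‖ := TB.self
    have s1 : TB (fun x : (ℂ × ((Fin d → E) × ℂ)) × ℂ => Q.evalEval x.1.1 x.2 = 0)
        (fun x => x.1) fun x => ‖x.2‖ :=
      ((s0.tame Tame.fst').shape C₁ A₁).norm_le fun x hx => hr _ _ hx
    have s2 := (s0.prod s1).tame tw
    have s3 := (s2.shape C₂ A₂).mul ((s1.shape d d).add ((s2.dtame hF.tame).mul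
      (s0.tame Tame.snd'.snd)))
    obtain ⟨C₄, A₄, hC₄, h4⟩ := s3.out
    have t0 : TB (fun x : ℂ × ((Fin d → E) × ℂ) => x ∈ WU Q d δ U) (fun x => x) fun x => ‖x‖ :=
      TB.self
    have t3 := t0.tame (Tame.fst' (X := ℂ) (Y := (Fin d → E) × ℂ))
    have t4 := t0.tame (Tame.snd'.snd (X := ℂ × ((Fin d → E) × ℂ)))
    have t5 := ((TB.const C₃).mul ((((TB.const 1).add t3).add t4).pow A₃)).mul (t0.shape C₄ A₄)
    refine jac_of (t5.add t4) (fun _ _ => norm_nonneg _) ?_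
    rintro ⟨z, X, y⟩ ⟨hy, hu⟩ ⟨Y, b⟩ hH
    dsimp only at hy hu ⊢
    have hY : ∀ l, pr (Y l) = 0 := fun l => congrFun hH l
    rw [dir_prod tG.1 t2.1]
    have e2 : fderiv ℂ (fun u : ℂ × ((Fin d → E) × ℂ) => u.2.2 * δ.eval u.1 - 1) (z, X, y)
        (0, (Y, b)) = b * δ.eval z := by
      refine dir_val t2.1 (g := fun t => (y + t * b) * δ.eval z - 1) (fun t => by simp) ?_
      simpa using ((((hasDerivAt_id (0 : ℂ)).mul_const b).const_add y).mul_const
        (δ.eval z)).sub_const 1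
    rw [e2]
    set N := ‖(fderiv ℂ G (z, X, y) (0, (Y, b)), b * δ.eval z)‖ with hN
    have n1 : ‖fderiv ℂ G (z, X, y) (0, (Y, b))‖ ≤ N := norm_fst_le
      (fderiv ℂ G (z, X, y) (0, (Y, b)), b * δ.eval z)
    have n2 : ‖b * δ.eval z‖ ≤ N := norm_snd_le (fderiv ℂ G (z, X, y) (0, (Y, b)), b * δ.eval z)
    have hN0 : 0 ≤ N := norm_nonneg _
    have hb : ‖b‖ ≤ ‖y‖ * N := by
      have eb : b = y * (b * δ.eval z) := by rw [mul_left_comm, hy, mul_one]
      conv_lhs => rw [eb, norm_mul]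
      gcongr
    have hroot : ∀ v, Q.evalEval z v = 0 → ‖ev v Y‖ ≤ C₄ * (1 + ‖(z, X, y)‖) ^ A₄ * N := by
      intro v hv
      have e1 : fderiv ℂ F (z, ((v, y), ev v X)) (0, ((0, b), ev v Y)) =
          ev v (fderiv ℂ G (z, X, y) (0, (Y, b))) := by
        refine dir_val hF.tame.1 (g := fun t => evL d E₂ v (G ((z, X, y) + t • (0, (Y, b)))))
          (fun t => ?_) ?_
        · rw [evL_apply, hG _ v (by simpa using hv)]
          simp [← evL_apply]
        · rw [← evL_apply]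
          exact (evL d E₂ v).hasFDerivAt.comp_hasDerivAt (0 : ℂ) (dir tG.1 _ _)
      have e3 : fderiv ℂ F (z, ((v, y), ev v X)) (0, (0, ev v Y)) =
          ev v (fderiv ℂ G (z, X, y) (0, (Y, b))) -
            fderiv ℂ F (z, ((v, y), ev v X)) (0, ((0, b), 0)) := by
        rw [← e1, ← map_sub]; simp
      have n3 : ‖fderiv ℂ F (z, ((v, y), ev v X)) (0, ((0, b), 0))‖ ≤
          ‖fderiv ℂ F (z, ((v, y), ev v X))‖ * (‖y‖ * N) := by
        refine ((fderiv ℂ F _).le_opNorm _).trans ?_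
        gcongr
        simpa using hb
      have n4 : ‖ev v (fderiv ℂ G (z, X, y) (0, (Y, b)))‖ ≤ d * (1 + ‖v‖) ^ d * N :=
        (norm_ev_le _ _).trans (by gcongr)
      have n5 := h4 ((z, X, y), v) hv
      dsimp only at n5
      refine (hj _ (hu v hv) _ (pr_ev pr v hY)).trans (le_trans ?_
        (mul_le_mul_of_nonneg_right n5 hN0))
      rw [mul_assoc _ _ N]
      refine mul_le_mul_of_nonneg_left ?_ (by positivity)
      rw [e3]
      refine (norm_sub_le _ _).trans ?_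
      nlinarith
    have hY' := hJ4 z y (fun v => ev v Y) _ (by positivity) hy hroot
    rw [hJ2 z Y (hne hy)] at hY'
    have p1 : 0 ≤ C₃ * (1 + ‖z‖ + ‖y‖) ^ A₃ * (C₄ * (1 + ‖(z, X, y)‖) ^ A₄ * N) := by positivity
    have p2 : 0 ≤ ‖y‖ * N := by positivity
    rw [Prod.norm_mk]
    refine max_le ?_ ?_ <;> nlinarith

end

end APSP

theorem APS_of (h1 : S_Mero) (h2 : S_Itp) : S_APS :=
  ⟨fun _ _ _ _ _ _ _ _ _ _ _ _ B U pr => APSP.part1 B U pr, APSP.part2, APSP.part3,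
    fun _ _ _ _ _ _ _ _ _ _ _ _ B m U pr => APSP.part4 B m U pr,
    fun _ _ _ _ _ _ _ _ Q d δ U pr => APSP.part5 h1 h2 Q d δ U pr⟩

end

end Pool.Agent.P.MP_daea48_ag
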