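import Pool.Agent.P.MP_daea48_ag.StA

/-! Package `APS`, part 1: tempered bounds, directional derivatives, conjuncts (1)-(4). -/

open Set Filter Topology Metric Polynomial

namespace Pool.Agent.P.MP_daea48_ag

noncomputable section

namespace APSP

/-- A real function with a tempered bound on the set `p`. -/
def TB {ι X : Type} [NormedAddCommGroup X] (p : ι → Prop) (u : ι → X) (f : ι → ℝ) : Prop :=
  ∃ (C : ℝ) (A : ℕ), 1 ≤ C ∧ ∀ i, p i → |f i| ≤ C * (1 + ‖u i‖) ^ A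

section tb
variable {ι X : Type} [NormedAddCommGroup X] {p : ι → Prop} {u : ι → X} {f g : ι → ℝ}

theorem TB.const (c : ℝ) : TB p u fun _ => c :=
  ⟨max |c| 1, 0, le_max_right _ _, fun i _ => by simp⟩

theorem TB.add (hf : TB p u f) (hg : TB p u g) : TB p u fun i => f i + g i := by
  obtain ⟨C, A, hC, h⟩ := hf
  obtain ⟨D, B, hD, h'⟩ := hg
  refine ⟨C + D, A + B, by linarith, fun i hi => ?_⟩
  have h1 : (1 + ‖u i‖) ^ A ≤ (1 + ‖u i‖) ^ (A + B) :=
    pow_le_pow_right₀ (one_le_opn _) (by omega)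
  have h2 : (1 + ‖u i‖) ^ B ≤ (1 + ‖u i‖) ^ (A + B) :=
    pow_le_pow_right₀ (one_le_opn _) (by omega)
  have h3 := abs_add_le (f i) (g i)
  nlinarith [h i hi, h' i hi]

theorem TB.mul (hf : TB p u f) (hg : TB p u g) : TB p u fun i => f i * g i := by
  obtain ⟨C, A, hC, h⟩ := hf
  obtain ⟨D, B, hD, h'⟩ := hg
  refine ⟨C * D, A + B, one_le_mul_of_one_le_of_one_le hC hD, fun i hi => ?_⟩
  rw [abs_mul, pow_add]
  calc |f i| * |g i| ≤ (C * (1 + ‖u i‖) ^ A) * (D * (1 + ‖u i‖) ^ B) :=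
        mul_le_mul (h i hi) (h' i hi) (abs_nonneg _) ((abs_nonneg _).trans (h i hi))
    _ = _ := by ring

theorem TB.pow (hf : TB p u f) (n : ℕ) : TB p u fun i => f i ^ n := by
  induction n with
  | zero => simpa using TB.const (p := p) (u := u) 1
  | succ n ih => simpa [pow_succ] using ih.mul hf

theorem TB.of_le (hg : TB p u g) (h : ∀ i, p i → |f i| ≤ g i) : TB p u f := by
  obtain ⟨D, B, hD, h'⟩ := hg
  exact ⟨D, B, hD, fun i hi => (h i hi).trans ((le_abs_self _).trans (h' i hi))⟩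

theorem TB.self : TB p u fun i => ‖u i‖ :=
  ⟨1, 1, le_rfl, fun i _ => by simp⟩

/-- The shape of all the bounds that occur. -/
theorem TB.shape (hf : TB p u f) (C : ℝ) (A : ℕ) : TB p u fun i => C * (1 + f i) ^ A :=
  (TB.const C).mul (((TB.const 1).add hf).pow A)

theorem TB.norm_le {Y : Type} [NormedAddCommGroup Y] {w : ι → Y} (hg : TB p u g)
    (h : ∀ i, p i → ‖w i‖ ≤ g i) : TB p u fun i => ‖w i‖ :=
  hg.of_le fun i hi => by rw [abs_norm]; exact h i hi

theorem TB.prod {Y Z : Type} [NormedAddCommGroup Y] [NormedAddCommGroup Z] {a : ι → Y}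
    {b : ι → Z} (ha : TB p u fun i => ‖a i‖) (hb : TB p u fun i => ‖b i‖) :
    TB p u fun i => ‖(a i, b i)‖ :=
  (ha.add hb).norm_le fun i _ => by
    rw [Prod.norm_mk]
    exact max_le (by linarith [norm_nonneg (b i)]) (by linarith [norm_nonneg (a i)])

theorem TB.tame {Y Z : Type} [NormedAddCommGroup Y] [NormedSpace ℂ Y] [NormedAddCommGroup Z]
    [NormedSpace ℂ Z] {F : Y → Z} (hF : Tame F) {w : ι → Y} (hw : TB p u fun i => ‖w i‖) :
    TB p u fun i => ‖F (w i)‖ := by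
  obtain ⟨C, A, h⟩ := hF.2
  exact (hw.shape C A).norm_le fun i _ => h _

theorem TB.dtame {Y Z : Type} [NormedAddCommGroup Y] [NormedSpace ℂ Y] [NormedAddCommGroup Z]
    [NormedSpace ℂ Z] [CompleteSpace Z] {F : Y → Z} (hF : Tame F) {w : ι → Y}
    (hw : TB p u fun i => ‖w i‖) : TB p u fun i => ‖fderiv ℂ F (w i)‖ := by
  obtain ⟨C, A, hC, h⟩ := hF.lip
  refine (hw.shape C A).norm_le fun i _ => norm_fderiv_le_of_lip' ℂ (by positivity) ?_
  filter_upwards [closedBall_mem_nhds (w i) one_pos] with y hy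
  exact h _ _ (by simpa [dist_eq_norm] using hy)

theorem TB.out (hf : TB p u f) :
    ∃ (C : ℝ) (A : ℕ), 1 ≤ C ∧ ∀ i, p i → f i ≤ C * (1 + ‖u i‖) ^ A := by
  obtain ⟨C, A, hC, h⟩ := hf
  exact ⟨C, A, hC, fun i hi => (le_abs_self _).trans (h i hi)⟩

end tb

/-- A tempered constant gives a Jacobian bound. -/
theorem jac_of {X H : Type} [NormedAddCommGroup X] [NormedAddCommGroup H] {U : Set X}
    {P : H → Prop} {N : X → H → ℝ} {K : X → ℝ} (hK : TB (fun x => x ∈ U) (fun x => x) K)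
    (hN : ∀ x h, 0 ≤ N x h) (h : ∀ x ∈ U, ∀ h, P h → ‖h‖ ≤ K x * N x h) :
    ∃ (C : ℝ) (A : ℕ), ∀ x ∈ U, ∀ h, P h → ‖h‖ ≤ C * (1 + ‖x‖) ^ A * N x h := by
  obtain ⟨C, A, -, h'⟩ := hK.out
  exact ⟨C, A, fun x hx y hy => (h x hx y hy).trans
    (mul_le_mul_of_nonneg_right (h' x hx) (hN _ _))⟩

/-- The constant of a Jacobian bound can be taken nonnegative. -/
theorem jac_nonneg {X H : Type} [NormedAddCommGroup X] [NormedAddCommGroup H] {U : Set X}
    {P : H → Prop} {N : X → H → ℝ} (hN : ∀ x h, 0 ≤ N x h)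
    (h : ∃ (C : ℝ) (A : ℕ), ∀ x ∈ U, ∀ h, P h → ‖h‖ ≤ C * (1 + ‖x‖) ^ A * N x h) :
    ∃ (C : ℝ) (A : ℕ), 0 ≤ C ∧ ∀ x ∈ U, ∀ h, P h → ‖h‖ ≤ C * (1 + ‖x‖) ^ A * N x h := by
  obtain ⟨C, A, h⟩ := h
  refine ⟨|C|, A, abs_nonneg _, fun x hx y hy => (h x hx y hy).trans ?_⟩
  have := hN x y
  have := pow_pos (opn_pos x) A
  gcongr
  exact le_abs_self _

section dir
variable {X Y Z : Type} [NormedAddCommGroup X] [NormedSpace ℂ X] [NormedAddCommGroup Y]
  [NormedSpace ℂ Y] [NormedAddCommGroup Z] [NormedSpace ℂ Z]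

/-- Directional derivative. -/
theorem dir {F : X → Y} (hF : Differentiable ℂ F) (x h : X) :
    HasDerivAt (fun t : ℂ => F (x + t • h)) (fderiv ℂ F x h) 0 := by
  have h1 : HasDerivAt (fun t : ℂ => x + t • h) h 0 := by
    simpa using ((hasDerivAt_id (0 : ℂ)).smul_const h).const_add x
  have h2 : HasFDerivAt F (fderiv ℂ F x) (x + (0 : ℂ) • h) := by
    simpa using (hF x).hasFDerivAt
  exact h2.comp_hasDerivAt (0 : ℂ) h1

/-- Transfer of directional derivatives along lines. -/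
theorem dir_eq {F : X → Z} {G : Y → Z} (hF : Differentiable ℂ F) (hG : Differentiable ℂ G)
    {x h : X} {y k : Y} (e : ∀ t : ℂ, F (x + t • h) = G (y + t • k)) :
    fderiv ℂ F x h = fderiv ℂ G y k := by
  have h1 := dir hF x h
  simp only [e] at h1
  exact h1.unique (dir hG y k)

theorem dir_prod {F : X → Y} {G : X → Z} (hF : Differentiable ℂ F) (hG : Differentiable ℂ G)
    (x h : X) : fderiv ℂ (fun x => (F x, G x)) x h = (fderiv ℂ F x h, fderiv ℂ G x h) := by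
  rw [(hF x).fderiv_prodMk (hG x)]; rfl

theorem dir_val {F : X → Y} (hF : Differentiable ℂ F) {x h : X} {g : ℂ → Y} {v : Y}
    (e : ∀ t : ℂ, F (x + t • h) = g t) (hg : HasDerivAt g v 0) : fderiv ℂ F x h = v := by
  have h1 := dir hF x h
  simp only [e] at h1
  exact h1.unique hg

end dir

section parts
variable {E E' L : Type} [NormedAddCommGroup E] [NormedSpace ℂ E] [FiniteDimensional ℂ E]
  [NormedAddCommGroup E'] [NormedSpace ℂ E'] [FiniteDimensional ℂ E']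
  [NormedAddCommGroup L] [NormedSpace ℂ L] [FiniteDimensional ℂ L]

omit [FiniteDimensional ℂ E] [FiniteDimensional ℂ L] in
theorem tame_base : Tame fun u : ℂ × (L × E) => (u.1, u.2.1) :=
  Tame.fst'.prodMk Tame.snd'.fst

omit [FiniteDimensional ℂ E'] in
theorem part1 (B : Set (ℂ × L)) (U : Set (ℂ × (L × E))) (pr : E →L[ℂ] E')
    (hB : HasAPS B (pr0 L)) (hU : HasFAPS B U pr) : HasAPS U (prB L pr) := by
  obtain ⟨E₁, i1, i2, i3, G, hG⟩ := hB
  obtain ⟨E₂, j1, j2, j3, F, hF⟩ := hU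
  have tG : Tame fun u : ℂ × (L × E) => G (u.1, u.2.1) := hG.tame.comp tame_base
  refine ⟨E₁ × E₂, inferInstance, inferInstance, inferInstance,
    fun u => (G (u.1, u.2.1), F u), tG.prodMk hF.tame, fun u => ?_, ?_, ?_⟩
  · rw [hF.zero, hG.zero, Prod.mk_eq_zero]
  · have h1 := hG.dim
    have h2 := hF.dim
    simp only [Module.finrank_prod, Module.finrank_fintype_fun_eq_card, Fintype.card_fin] at *
    omega
  · obtain ⟨C₁, A₁, hC₁, h1⟩ := jac_nonneg (fun _ _ => norm_nonneg _) hG.jac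
    obtain ⟨C₂, A₂, hC₂, h2⟩ := jac_nonneg (fun _ _ => norm_nonneg _) hF.jac
    have t0 : TB (fun x : ℂ × (L × E) => x ∈ U) (fun x => x) fun x => ‖x‖ := TB.self
    have t1 := (t0.tame tame_base).shape C₁ A₁
    have t2 := t0.shape C₂ A₂
    have t3 := t0.dtame hF.tame
    refine jac_of (t1.add (t2.mul ((TB.const 1).add (t3.mul t1)))) (fun _ _ => norm_nonneg _) ?_
    rintro u hu ⟨a, b⟩ hH
    have hb : pr b = 0 := hH
    rw [dir_prod tG.1 hF.tame.1]
    have e1 : fderiv ℂ (fun u : ℂ × (L × E) => G (u.1, u.2.1)) u (0, (a, b)) =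
        fderiv ℂ G (u.1, u.2.1) (0, a) := dir_eq tG.1 hG.tame.1 fun t => by simp
    rw [e1]
    set N := ‖(fderiv ℂ G (u.1, u.2.1) (0, a), fderiv ℂ F u (0, (a, b)))‖ with hN
    have n1 : ‖fderiv ℂ G (u.1, u.2.1) (0, a)‖ ≤ N := norm_fst_le
      (fderiv ℂ G (u.1, u.2.1) (0, a), fderiv ℂ F u (0, (a, b)))
    have n2 : ‖fderiv ℂ F u (0, (a, b))‖ ≤ N := norm_snd_le
      (fderiv ℂ G (u.1, u.2.1) (0, a), fderiv ℂ F u (0, (a, b)))
    have hN0 : 0 ≤ N := norm_nonneg _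
    set K₁ := C₁ * (1 + ‖(u.1, u.2.1)‖) ^ A₁ with hK₁
    set K₂ := C₂ * (1 + ‖u‖) ^ A₂ with hK₂
    have k1 : 0 ≤ K₁ := by positivity
    have k2 : 0 ≤ K₂ := by positivity
    have ha : ‖a‖ ≤ K₁ * N :=
      (h1 _ ((hF.zero u).1 hu).1 a rfl).trans (mul_le_mul_of_nonneg_left n1 k1)
    have e2 : fderiv ℂ F u (0, (0, b)) = fderiv ℂ F u (0, (a, b)) - fderiv ℂ F u (0, (a, 0)) := by
      rw [← map_sub]; simp
    have n3 : ‖fderiv ℂ F u (0, (a, 0))‖ ≤ ‖fderiv ℂ F u‖ * (K₁ * N) := by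
      refine ((fderiv ℂ F u).le_opNorm _).trans ?_
      gcongr
      simpa using ha
    have hb' : ‖b‖ ≤ K₂ * (N + ‖fderiv ℂ F u‖ * (K₁ * N)) := by
      refine (h2 u hu b hb).trans (mul_le_mul_of_nonneg_left ?_ k2)
      rw [e2]
      linarith [norm_sub_le (fderiv ℂ F u (0, (a, b))) (fderiv ℂ F u (0, (a, 0)))]
    have p1 : 0 ≤ K₁ * N := by positivity
    have p2 : 0 ≤ K₂ * (N + ‖fderiv ℂ F u‖ * (K₁ * N)) := by positivity
    rw [Prod.norm_mk]
    refine max_le ?_ ?_ <;> nlinarith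

theorem hasDerivAt_evalEval (Q : ℂ[X][X]) (z T : ℂ) :
    HasDerivAt (fun w => Q.evalEval z w) ((derivative Q).evalEval z T) T := by
  have := (Q.map (evalRingHom z)).hasDerivAt T
  simpa only [derivative_map, map_evalRingHom_eval] using this

theorem part2 (Q : ℂ[X][X]) (d : ℕ) (δ : ℂ[X]) (h : Cov Q d δ) :
    HasAPS (CV Q δ) (pr0 (ℂ × ℂ)) := by
  obtain ⟨a₀, b₀, hb⟩ := h.bez
  have t1 : Tame fun u : ℂ × (ℂ × ℂ) => Q.evalEval u.1 u.2.1 :=
    Tame.fst'.evalEval Tame.snd'.fst Q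
  have t2 : Tame fun u : ℂ × (ℂ × ℂ) => u.2.2 * δ.eval u.1 - 1 :=
    (Tame.snd'.snd.mul (Tame.fst'.polyEval δ)).sub (Tame.const 1)
  refine ⟨ℂ × ℂ, inferInstance, inferInstance, inferInstance,
    fun u => (Q.evalEval u.1 u.2.1, u.2.2 * δ.eval u.1 - 1), t1.prodMk t2, fun u => ?_, by simp,
    ?_⟩
  · rw [Prod.mk_eq_zero, sub_eq_zero]; rfl
  · have t0 : TB (fun x : ℂ × (ℂ × ℂ) => x ∈ CV Q δ) (fun x => x) fun x => ‖x‖ := TB.self
    have t3 := t0.tame (Tame.snd'.snd (X := ℂ × (ℂ × ℂ)))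
    have t4 := t0.tame (Tame.fst'.evalEval (Tame.snd'.fst (X := ℂ × (ℂ × ℂ))) b₀)
    refine jac_of (t3.mul ((TB.const 1).add t4)) (fun _ _ => norm_nonneg _) ?_
    rintro ⟨z, T, y⟩ ⟨hu1, hu2⟩ ⟨a, b⟩ -
    dsimp only at hu1 hu2 ⊢
    rw [dir_prod t1.1 t2.1]
    have e1 : fderiv ℂ (fun u : ℂ × (ℂ × ℂ) => Q.evalEval u.1 u.2.1) (z, T, y) (0, (a, b)) =
        (derivative Q).evalEval z T * a := by
      refine dir_val t1.1 (g := fun t => Q.evalEval z (T + t * a)) (fun t => by simp) ?_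
      have h1 : HasDerivAt (fun t : ℂ => T + t * a) a 0 := by
        simpa using ((hasDerivAt_id (0 : ℂ)).mul_const a).const_add T
      have h2 : HasDerivAt (fun w => Q.evalEval z w) ((derivative Q).evalEval z T) (T + 0 * a) := by
        simpa using hasDerivAt_evalEval Q z T
      exact h2.comp (0 : ℂ) h1
    have e2 : fderiv ℂ (fun u : ℂ × (ℂ × ℂ) => u.2.2 * δ.eval u.1 - 1) (z, T, y) (0, (a, b)) =
        b * δ.eval z := by
      refine dir_val t2.1 (g := fun t => (y + t * b) * δ.eval z - 1) (fun t => by simp) ?_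
      simpa using ((((hasDerivAt_id (0 : ℂ)).mul_const b).const_add y).mul_const
        (δ.eval z)).sub_const 1
    rw [e1, e2]
    set N := ‖((derivative Q).evalEval z T * a, b * δ.eval z)‖ with hN
    have n1 : ‖(derivative Q).evalEval z T * a‖ ≤ N := norm_fst_le
      ((derivative Q).evalEval z T * a, b * δ.eval z)
    have n2 : ‖b * δ.eval z‖ ≤ N := norm_snd_le ((derivative Q).evalEval z T * a, b * δ.eval z)
    have hbz : b₀.evalEval z T * (derivative Q).evalEval z T = δ.eval z := by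
      have := congrArg (evalEval z T) hb
      simpa [evalEval_add, evalEval_mul, evalEval_C, hu1] using this
    have ea : a = y * (b₀.evalEval z T * ((derivative Q).evalEval z T * a)) := by
      rw [← mul_assoc (b₀.evalEval z T), hbz, ← mul_assoc, hu2, one_mul]
    have eb : b = y * (b * δ.eval z) := by
      rw [mul_left_comm, hu2, mul_one]
    have ha : ‖a‖ ≤ ‖y‖ * (‖b₀.evalEval z T‖ * N) := by
      conv_lhs => rw [ea, norm_mul, norm_mul]
      gcongr
    have hb' : ‖b‖ ≤ ‖y‖ * N := by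
      conv_lhs => rw [eb, norm_mul]
      gcongr
    have p1 : 0 ≤ ‖y‖ * (‖b₀.evalEval z T‖ * N) := by positivity
    have p2 : 0 ≤ ‖y‖ * N := by positivity
    rw [Prod.norm_mk]
    refine max_le ?_ ?_ <;> nlinarith

theorem part3 (l : ℝ) (hl : 0 < l) : HasAPS (MB l) (pr0 ℂ) := by
  have t1 : Tame fun u : ℂ × ℂ => u.2 * (1 - u.1) - Complex.I * l * (1 + u.1) :=
    (Tame.snd'.mul ((Tame.const 1).sub Tame.fst')).sub
      ((Tame.const _).mul ((Tame.const 1).add Tame.fst'))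
  refine ⟨ℂ, inferInstance, inferInstance, inferInstance, _, t1, fun u => ?_, by simp, ?_⟩
  · rw [sub_eq_zero]; rfl
  · have t0 : TB (fun x : ℂ × ℂ => x ∈ MB l) (fun x => x) fun x => ‖x‖ := TB.self
    have t2 : Tame fun u : ℂ × ℂ => (2 * Complex.I * l)⁻¹ * (u.2 + Complex.I * l) :=
      (Tame.const _).mul (Tame.snd'.add (Tame.const _))
    refine jac_of (t0.tame t2) (fun _ _ => norm_nonneg _) ?_
    rintro ⟨z, t⟩ hu a -
    have hu' : t * (1 - z) = Complex.I * l * (1 + z) := hu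
    have e1 : fderiv ℂ (fun u : ℂ × ℂ => u.2 * (1 - u.1) - Complex.I * l * (1 + u.1)) (z, t)
        (0, a) = a * (1 - z) := by
      refine dir_val t1.1 (g := fun s => (t + s * a) * (1 - z) - Complex.I * l * (1 + z))
        (fun s => by simp) ?_
      simpa using ((((hasDerivAt_id (0 : ℂ)).mul_const a).const_add t).mul_const
        (1 - z)).sub_const (Complex.I * l * (1 + z))
    rw [e1, ← norm_mul]
    have hl' : (l : ℂ) ≠ 0 := by exact_mod_cast hl.ne'
    have e2 : (t + Complex.I * l) * (1 - z) = 2 * Complex.I * l := by linear_combination hu'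
    have e3 : (2 * Complex.I * l)⁻¹ * (t + Complex.I * l) * (a * (1 - z)) = a := by
      have : (2 * Complex.I * l : ℂ) ≠ 0 := by simp [hl']
      calc _ = (2 * Complex.I * l)⁻¹ * ((t + Complex.I * l) * (1 - z)) * a := by ring
        _ = a := by rw [e2, inv_mul_cancel₀ this, one_mul]
    exact (congrArg norm e3).ge

omit [FiniteDimensional ℂ E] [FiniteDimensional ℂ E'] [FiniteDimensional ℂ L] in
theorem part4 (B : Set (ℂ × L)) (m : ℂ × L → ℂ) (U : Set (ℂ × E)) (pr : E →L[ℂ] E')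
    (hm : Tame m) (hU : HasAPS U pr) : HasFAPS B (BU B m U) pr := by
  obtain ⟨E₂, j1, j2, j3, F, hF⟩ := hU
  have t1 : Tame fun u : ℂ × (L × E) => (m (u.1, u.2.1), u.2.2) :=
    (hm.comp tame_base).prodMk Tame.snd'.snd
  have tF := hF.tame.comp t1
  refine ⟨E₂, j1, j2, j3, _, tF, fun u => ?_, hF.dim, ?_⟩
  · rw [← hF.zero]; rfl
  · obtain ⟨C, A, h1⟩ := hF.jac
    have t0 : TB (fun x : ℂ × (L × E) => x ∈ BU B m U) (fun x => x) fun x => ‖x‖ := TB.self
    refine jac_of ((t0.tame t1).shape C A) (fun _ _ => norm_nonneg _) fun u hu H hH => ?_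
    have e1 : fderiv ℂ (fun u : ℂ × (L × E) => F (m (u.1, u.2.1), u.2.2)) u (0, (0, H)) =
        fderiv ℂ F (m (u.1, u.2.1), u.2.2) (0, H) := dir_eq tF.1 hF.tame.1 fun t => by simp
    rw [e1]
    exact h1 _ hu.2 H hH

end parts

end APSP

end

end Pool.Agent.P.MP_daea48_ag
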