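import Pool.Agent.P.MP_daea48_ag.Ap1

/-! Package Ap: holomorphic approximation of a section over a circle, with poles. -/

open Set Filter Topology Metric
open scoped ComplexConjugate

namespace Pool.Agent.P.MP_daea48_ag

noncomputable section

open Classical

namespace Ap

theorem num_est {c C M Q x s η η' e : ℝ} {A N k : ℕ} (hc : 0 < c) (hc1 : c ≤ 1) (hC : 0 < C)
    (hQ : 0 ≤ Q) (hQM : Q ≤ M) (hx : 0 ≤ x) (hs : Q ^ N * (1 + x) ≤ C) (hη' : 0 < η')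
    (h1 : η' ≤ η) (h2 : η' * M ^ k < 1) (hs' : s = c / C ^ A)
    (he : e ≤ η' * s ^ 2 * Q ^ (k + 2 * (N * A))) :
    e < rad c A x ^ 2 ∧ e ≤ η * Q ^ k * rad c A x := by
  have hρ := rad_pos hc A x
  have hρ1 : rad c A x ≤ 1 := (rad_le hc.le A x).trans hc1
  have h3 : s * Q ^ (N * A) ≤ rad c A x := by
    rw [hs', rad, Real.norm_of_nonneg hx, div_mul_eq_mul_div, div_le_div_iff₀ (by positivity)
      (by positivity), mul_assoc, pow_mul, ← mul_pow]
    gcongr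
  have h4 : e ≤ η' * Q ^ k * rad c A x ^ 2 := by
    refine he.trans ?_
    have hs0 : 0 ≤ s := by rw [hs']; positivity
    calc η' * s ^ 2 * Q ^ (k + 2 * (N * A)) = η' * Q ^ k * (s * Q ^ (N * A)) ^ 2 := by ring
      _ ≤ _ := by gcongr
  have h5 : η' * Q ^ k < 1 := lt_of_le_of_lt (by gcongr) h2
  refine ⟨h4.trans_lt (mul_lt_of_lt_one_left (pow_pos hρ 2) h5), h4.trans ?_⟩
  have hη : 0 ≤ η := hη'.le.trans h1
  have : rad c A x ^ 2 ≤ rad c A x := by nlinarith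
  gcongr

variable {E E' : Type} [NormedAddCommGroup E] [NormedSpace ℂ E] [NormedAddCommGroup E']
  [NormedSpace ℂ E'] {U : Set (ℂ × E)} {pr : E →L[ℂ] E'}

/-- A lower bound for the chart radius. -/
def rl (T : TC U pr) (r : ℝ) (ξ : E) : ℝ := rad T.c T.A (r + 1 + ‖ξ‖)

theorem rl_le (T : TC U pr) {r : ℝ} (hr : 0 < r) {y : ℂ} (hy : ‖y‖ ≤ r + 1) {ξ ξ' : E}
    (h : ‖ξ'‖ ≤ ‖ξ‖) : rl T r ξ ≤ T.rho (y, ξ') := by
  refine rad_anti T.c_pos.le _ ?_
  rw [Real.norm_of_nonneg (by positivity), Prod.norm_def]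
  have := norm_nonneg ξ
  exact max_le (by simp only; linarith) (by simp only; linarith)

/-- The estimate required of the coordinates `x` at the point `(z, ξ)`. -/
def Est (T : TC U pr) (r b : ℝ) (ξ : E) (x : E') : Prop :=
  ‖x - pr ξ‖ < rl T r ξ ^ 2 ∧ ‖x - pr ξ‖ ≤ b * rl T r ξ

theorem Est.use {T : TC U pr} {r b : ℝ} (hr : 0 < r) (_hb : 0 ≤ b) {ξ : E} {x : E'} {z : ℂ}
    (h : Est T r b ξ x) (hz : ‖z‖ ≤ r + 1) (hU : (z, ξ) ∈ U) :
    ‖((z, x) : ℂ × E') - pj pr (z, ξ)‖ < T.rho (z, ξ) ^ 2 ∧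
      ‖T.ex (z, ξ) (z, x) - ξ‖ ≤ b ∧ ‖T.ex (z, ξ) (z, x) - ξ‖ < rl T r ξ := by
  have h0 : 0 < rl T r ξ := rad_pos T.c_pos _ _
  have h1 : rl T r ξ ≤ T.rho (z, ξ) := rl_le T hr hz le_rfl
  have e : ‖((z, x) : ℂ × E') - pj pr (z, ξ)‖ = ‖x - pr ξ‖ := by simp
  have h2 : ‖((z, x) : ℂ × E') - pj pr (z, ξ)‖ < T.rho (z, ξ) ^ 2 := by
    rw [e]
    exact h.1.trans_le (by gcongr)
  have h3 := T.ex_dist' hU h2
  rw [e] at h3
  have h4 : rl T r ξ * ‖T.ex (z, ξ) (z, x) - ξ‖ ≤ ‖x - pr ξ‖ :=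
    (mul_le_mul_of_nonneg_right h1 (norm_nonneg _)).trans h3
  refine ⟨h2, le_of_mul_le_mul_left (h4.trans (h.2.trans_eq (mul_comm _ _))) h0,
    lt_of_mul_lt_mul_left (h4.trans_lt (h.1.trans_eq (sq _))) h0.le⟩

/-- The approximation with the estimates adapted to the chart radius. -/
theorem approx2 [CompleteSpace E] [FiniteDimensional ℂ E'] (hM : S_Mero) (T : TC U pr) {r : ℝ} (hr : 0 < r)
    {P : Finset ℂ} (hP : ∀ p ∈ P, ‖p‖ = r) {γ : ℂ → E} {σ : ℂ → ℂ → E}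
    (hγ : ContinuousOn γ (sphere 0 r \ P))
    (hσ : ∀ p ∈ P, MeromorphicAt (σ p) p ∧ ∀ᶠ z in 𝓝[sphere 0 r \ {p}] p, γ z = σ p z)
    {J : E →L⋆[ℂ] E} {J' : E' →L⋆[ℂ] E'} {re : Prop}
    (hre : re → r = 1 ∧ RealStr U pr J J' ∧ (∀ z ∈ sphere (0 : ℂ) r \ P, J (γ z) = γ z) ∧
      ∀ p ∈ P, ∀ᶠ z in 𝓝[≠] p, σ p (rfl1 z) = J (σ p z)) (k : ℕ) {η : ℝ} (hη : 0 < η) :
    ∃ g : ℂ → E', (∀ z, z ≠ 0 → z ∉ P → AnalyticAt ℂ g z) ∧
      (∀ z ∈ sphere (0 : ℂ) r \ P, Est T r (η * ‖qq P z‖ ^ k) (γ z) (g z)) ∧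
      (∀ p ∈ P, ∀ᶠ z in 𝓝[≠] p, Est T r (η * ‖qq P z‖ ^ k) (σ p z) (g z)) ∧
      (re → ∀ z, g (rfl1 z) = J' (g z)) := by
  obtain ⟨N, C₁, w1, w2⟩ := weight hP hγ hσ
  obtain ⟨M, hM'⟩ := (isCompact_closedBall (0 : ℂ) (r + 1)).exists_bound_of_continuousOn
    (f := qq P) fun z _ => (qq_an P z).continuousAt.continuousWithinAt
  have hM0 : 0 ≤ M := (norm_nonneg _).trans (hM' 0 (mem_closedBall_self (by positivity)))
  set C := M ^ N * (r + 2) + |C₁| + 1 with hC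
  have hC0 : 0 < C := by positivity
  set η' := min η (M ^ k + 1)⁻¹ with hη'
  have hη0 : 0 < η' := lt_min hη (by positivity)
  have hη2 : η' * M ^ k < 1 := by
    refine lt_of_le_of_lt (mul_le_mul_of_nonneg_right (min_le_right _ _) (by positivity)) ?_
    rw [inv_mul_lt_iff₀ (by positivity)]
    linarith
  have hcp := T.c_pos
  obtain ⟨g, g1, g2, g3, g4⟩ := approx_re hM hr hP (f := fun z => pr (γ z))
    (fp := fun p z => pr (σ p z)) (pr.continuous.comp_continuousOn hγ)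
    (fun p hp => ⟨(Tame.clm pr).mero (hσ p hp).1, (hσ p hp).2.mono fun z hz => by rw [hz]⟩) J' re
    (fun h => by
      obtain ⟨a1, a2, a3, a4⟩ := hre h
      refine ⟨a1, a2.norm', a2.inv', fun z hz => by rw [← a2.comm, a3 z hz],
        fun p hp => (a4 p hp).mono fun z hz => by rw [hz, a2.comm]⟩)
    (k + 2 * (N * T.A)) (η := η' * (T.c / C ^ T.A) ^ 2) (by positivity)
  have key : ∀ (z : ℂ) (ξ : E), ‖z‖ ≤ r + 1 → ‖qq P z‖ ^ N * ‖ξ‖ ≤ C₁ →
      ‖g z - pr ξ‖ ≤ η' * (T.c / C ^ T.A) ^ 2 * ‖qq P z‖ ^ (k + 2 * (N * T.A)) →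
      Est T r (η * ‖qq P z‖ ^ k) ξ (g z) := fun z ξ hz h1 h2 => by
    have hq := hM' z (by simpa using hz)
    refine num_est hcp T.c_le hC0 (norm_nonneg _) hq (by positivity) ?_ hη0 (min_le_left _ _) hη2
      rfl h2
    have : ‖qq P z‖ ^ N * (r + 2) ≤ M ^ N * (r + 2) := by gcongr
    have := le_abs_self C₁
    nlinarith
  refine ⟨g, g1, fun z hz => key z _ ?_ (w1 z hz) (g2 z hz), fun p hp => ?_, g4⟩
  · have : ‖z‖ = r := by simpa using hz.1
    linarith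
  · have h1 : ∀ᶠ z in 𝓝 p, ‖z‖ < r + 1 :=
      continuous_norm.continuousAt.eventually (gt_mem_nhds ((hP p hp).trans_lt (lt_add_one r)))
    filter_upwards [nhdsWithin_le_nhds h1, w2 p hp, g3 p hp] with z a1 a2 a3
    exact key z _ a1.le a2 a3

/-- Radial projection. -/
def rp (r : ℝ) (z : ℂ) : ℂ := ((r / ‖z‖ : ℝ) : ℂ) * z

theorem rp_mem {r : ℝ} (hr : 0 < r) {z : ℂ} (hz : z ≠ 0) : rp r z ∈ sphere (0 : ℂ) r := by
  have := norm_pos_iff.2 hz
  rw [mem_sphere_zero_iff_norm, rp, norm_mul, Complex.norm_real,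
    Real.norm_of_nonneg (by positivity)]
  field_simp

theorem rp_self {r : ℝ} (hr : 0 < r) {z : ℂ} (hz : ‖z‖ = r) : rp r z = z := by
  simp [rp, hz, hr.ne']

theorem rp_cont (r : ℝ) {z : ℂ} (hz : z ≠ 0) : ContinuousAt (rp r) z :=
  (Complex.continuous_ofReal.continuousAt.comp (continuousAt_const.div
    continuous_norm.continuousAt (norm_ne_zero_iff.2 hz))).mul continuousAt_id

theorem ann_sub {r δ : ℝ} (hr : 0 < r) (hδ : δ < r) :
    ann (r - δ) (r + δ) ⊆ thickening δ (sphere (0 : ℂ) r) := by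
  intro z hz
  have h0 : 0 < ‖z‖ := (sub_pos.2 hδ).trans hz.1
  refine mem_thickening_iff.2 ⟨rp r z, rp_mem hr (norm_pos_iff.1 h0), ?_⟩
  have e : z - rp r z = (((‖z‖ - r) / ‖z‖ : ℝ) : ℂ) * z := by
    have : (‖z‖ : ℂ) ≠ 0 := by exact_mod_cast h0.ne'
    rw [rp]; push_cast; field_simp
  rw [dist_eq_norm, e, norm_mul, Complex.norm_real, norm_div, norm_norm, div_mul_cancel₀ _ h0.ne',
    Real.norm_eq_abs, abs_lt]
  constructor <;> linarith [hz.1, hz.2]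

theorem isOpen_ann (r s : ℝ) : IsOpen (ann r s) :=
  (isOpen_lt continuous_const continuous_norm).inter (isOpen_lt continuous_norm continuous_const)

/-- A base point depending on `z`. -/
theorem base [CompleteSpace E] {r : ℝ} (hr : 0 < r) {P : Finset ℂ} {γ : ℂ → E} {σ : ℂ → ℂ → E}
    (hγ : CSec U γ (sphere 0 r \ P))
    (hσ : ∀ p ∈ P, Germ U id (σ p) p ∧ ∀ᶠ z in 𝓝[sphere 0 r \ {p}] p, γ z = σ p z) :
    ∃ u : ℂ → ℂ × E, (∀ w ∈ sphere (0 : ℂ) r \ P, ContinuousAt u w ∧ u w = (w, γ w) ∧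
      ∀ᶠ z in 𝓝 w, u z ∈ U) ∧ ∀ p ∈ P, ∀ᶠ z in 𝓝 p, u z = (z, σ p z) := by
  have h1 : ∀ p ∈ P, ∀ᶠ ε in 𝓝[>] (0 : ℝ), ∀ z ∈ closedBall p ε, z ≠ p →
      (z, σ p z) ∈ U ∧ ContinuousAt (σ p) z ∧ z ∉ P ∧ (z ∈ sphere (0 : ℂ) r → γ z = σ p z) := by
    intro p hp
    have a1 : ∀ᶠ z in 𝓝[≠] p, z ∈ sphere (0 : ℂ) r → γ z = σ p z := by
      have := eventually_nhdsWithin_iff.1 (hσ p hp).2
      refine eventually_nhdsWithin_iff.2 (this.mono fun z hz h1 h2 => hz ⟨h2, h1⟩)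
    have a2 : ∀ᶠ z in 𝓝[≠] p, (z, σ p z) ∈ U ∧ ContinuousAt (σ p) z ∧ z ∉ P ∧
        (z ∈ sphere (0 : ℂ) r → γ z = σ p z) := by
      filter_upwards [(hσ p hp).1.2, (hσ p hp).1.1.eventually_analyticAt, ev_notMem P p, a1]
        with z b1 b2 b3 b4 using ⟨b1, b2.continuousAt, b3, b4⟩
    exact nhdsWithin_le_nhds (eventually_closedBall_subset (eventually_nhdsWithin_iff.1 a2))
  obtain ⟨ε, h2, hε⟩ := (((eventually_all_finset P).2 h1).and self_mem_nhdsWithin).exists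
  have hε : 0 < ε := hε
  set u : ℂ → ℂ × E := fun z =>
    if h : ∃ p ∈ P, z ∈ ball p ε then (z, σ h.choose z) else (rp r z, γ (rp r z)) with hu
  have hcase : ∀ z, (∃ p ∈ P, z ∈ ball p ε ∧ u z = (z, σ p z)) ∨
      ((∀ p ∈ P, z ∉ ball p ε) ∧ u z = (rp r z, γ (rp r z))) := fun z => by
    by_cases h : ∃ p ∈ P, z ∈ ball p ε
    · exact Or.inl ⟨_, h.choose_spec.1, h.choose_spec.2, by simp only [hu, dif_pos h]⟩
    · exact Or.inr ⟨fun p hp hz => h ⟨p, hp, hz⟩, by simp only [hu, dif_neg h]⟩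
  refine ⟨u, fun w hw => ?_, fun p hp => ?_⟩
  · have hwr : ‖w‖ = r := by simpa using hw.1
    have hw0 : w ≠ 0 := norm_pos_iff.1 (hwr ▸ hr)
    have hne : ∀ p ∈ P, w ≠ p := fun p hp e => hw.2 (e ▸ hp)
    have e0 : u w = (w, γ w) := by
      rcases hcase w with ⟨p, hp, h3, h4⟩ | ⟨-, h4⟩
      · rw [h4, (h2 p hp w (ball_subset_closedBall h3) (hne p hp)).2.2.2 hw.1]
      · rw [h4, rp_self hr hwr]
    have t1 : Tendsto (rp r) (𝓝 w) (𝓝 w) := by
      have := rp_cont r hw0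
      rwa [ContinuousAt, rp_self hr hwr] at this
    have t2 : ∀ᶠ z in 𝓝 w, rp r z ∈ sphere (0 : ℂ) r \ P := by
      filter_upwards [eventually_ne_nhds hw0, t1.eventually (ev_notMem' hw.2)] with z b1 b2
      exact ⟨rp_mem hr b1, b2⟩
    have t3 : Tendsto (fun z => (rp r z, γ (rp r z))) (𝓝 w) (𝓝 (w, γ w)) :=
      t1.prodMk_nhds ((hγ.1 w hw).tendsto.comp (tendsto_nhdsWithin_iff.2 ⟨t1, t2⟩))
    refine ⟨?_, e0, ?_⟩
    · rw [ContinuousAt, e0]
      intro O hO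
      have t4 : ∀ p ∈ P, ∀ᶠ z in 𝓝 w, z ∈ ball p ε → (z, σ p z) ∈ O := fun p hp => by
        by_cases hb : w ∈ closedBall p ε
        · obtain ⟨-, b2, -, b4⟩ := h2 p hp w hb (hne p hp)
          have : Tendsto (fun z => (z, σ p z)) (𝓝 w) (𝓝 (w, γ w)) := by
            rw [b4 hw.1]
            exact continuousAt_id.prodMk b2
          exact (this.eventually hO).mono fun z hz _ => hz
        · filter_upwards [isClosed_closedBall.isOpen_compl.mem_nhds hb] with z hz hz'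
          exact absurd (ball_subset_closedBall hz') hz
      change ∀ᶠ z in 𝓝 w, u z ∈ O
      filter_upwards [(eventually_all_finset P).2 t4, t3.eventually hO] with z b1 b2
      rcases hcase z with ⟨p, hp, h3, h4⟩ | ⟨-, h4⟩
      · rw [h4]; exact b1 p hp h3
      · rw [h4]; exact b2
    · filter_upwards [t2, ev_notMem' hw.2] with z b1 b2
      rcases hcase z with ⟨p, hp, h3, h4⟩ | ⟨-, h4⟩
      · rw [h4]
        exact (h2 p hp z (ball_subset_closedBall h3) fun e => b2 (e ▸ hp)).1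
      · rw [h4]; exact hγ.2 _ b1
  · have t4 : ∀ p' ∈ P, ∀ᶠ z in 𝓝 p, z ∈ ball p' ε → p' = p := fun p' hp' => by
      by_cases e : p' = p
      · exact Eventually.of_forall fun _ _ => e
      · have hb : p ∉ closedBall p' ε := fun hb => (h2 p' hp' p hb (Ne.symm e)).2.2.1 hp
        filter_upwards [isClosed_closedBall.isOpen_compl.mem_nhds hb] with z hz hz'
        exact absurd (ball_subset_closedBall hz') hz
    filter_upwards [(eventually_all_finset P).2 t4, ball_mem_nhds p hε] with z b1 b2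
    rcases hcase z with ⟨p', hp', h3, h4⟩ | ⟨h3, -⟩
    · rw [h4, b1 p' hp' h3]
    · exact absurd b2 (h3 p hp)

end Ap

open Ap in
theorem Ap_of (hM : S_Mero) : S_Ap := by
  intro E _ _ _ E' _ _ _ U pr T r P γ σ J J' re hr hP hγ hσ hre k η hη
  obtain ⟨g, g1, g2, g3, g4⟩ := approx2 hM T hr hP hγ.1
    (fun p hp => ⟨(hσ p hp).1.1, (hσ p hp).2⟩) hre k hη
  obtain ⟨u, u1, u2⟩ := base hr hγ hσ
  set S : ℂ → E := fun z => T.ex (u z) (z, g z) with hS
  have hb : ∀ z, 0 ≤ η * ‖qq P z‖ ^ k := fun z => by positivity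
  have hn : ∀ w ∈ sphere (0 : ℂ) r, ‖w‖ ≤ r + 1 ∧ w ≠ 0 := fun w hw => by
    have : ‖w‖ = r := by simpa using hw
    exact ⟨by linarith, norm_pos_iff.1 (this ▸ hr)⟩
  -- on the circle
  have s1 : ∀ w ∈ sphere (0 : ℂ) r \ P, S w = T.ex (w, γ w) (w, g w) := fun w hw => by
    simp only [hS, (u1 w hw).2.1]
  -- near the poles
  have s2 : ∀ p ∈ P, ∀ᶠ z in 𝓝[≠] p, (z, σ p z) ∈ U ∧ ‖z‖ ≤ r + 1 ∧
      S z = T.ex (z, σ p z) (z, g z) ∧ Est T r (η * ‖qq P z‖ ^ k) (σ p z) (g z) := fun p hp => by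
    have h1 : ∀ᶠ z in 𝓝 p, ‖z‖ < r + 1 :=
      continuous_norm.continuousAt.eventually (gt_mem_nhds ((hP p hp).trans_lt (lt_add_one r)))
    filter_upwards [(hσ p hp).1.2, nhdsWithin_le_nhds h1, nhdsWithin_le_nhds (u2 p hp), g3 p hp]
      with z a1 a2 a3 a4
    exact ⟨a1, a2.le, by simp only [hS, a3], a4⟩
  have hp0 : ∀ p ∈ P, p ≠ 0 := fun p hp => norm_pos_iff.1 (hP p hp ▸ hr)
  have s3 : ∀ p ∈ P, Germ U id S p := fun p hp => by
    have h1 := T.germ_ex (hσ p hp).1 (a := fun z => g z - pr (σ p z)) (by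
      filter_upwards [s2 p hp, (hσ p hp).1.1.eventually_analyticAt, ev_notMem P p,
        nhdsWithin_le_nhds (eventually_ne_nhds (hp0 p hp))] with z a1 a2 a3 a4
      refine ⟨analyticAt_id, (g1 z a4 a3).sub ((pr.analyticAt _).comp a2), ?_⟩
      simpa using (a1.2.2.2.use hr (hb z) a1.2.1 a1.1).1)
    have e : (fun z => T.ex (id z, σ p z) (id z, pr (σ p z) + (g z - pr (σ p z)))) =ᶠ[𝓝[≠] p] S :=
      (s2 p hp).mono fun z hz => by simp [hz.2.2.1]
    exact ⟨h1.1.congr e, (h1.2.and e).mono fun z hz => by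
      have := hz.1
      rwa [hz.2] at this⟩
  have good : ∀ w ∈ sphere (0 : ℂ) r, ∀ᶠ z in 𝓝 w, z ∉ P →
      AnalyticAt ℂ S z ∧ (z, S z) ∈ U ∧ (re → S (rfl1 z) = J (S z)) := by
    intro w hw
    by_cases hwP : w ∈ P
    · have h1 : ∀ᶠ z in 𝓝[≠] w, re → S (rfl1 z) = J (S z) := by
        by_cases h : re
        swap
        · exact Eventually.of_forall fun _ h' => absurd h' h
        obtain ⟨rfl, a2, -, a4⟩ := hre h
        filter_upwards [s2 w hwP, (tendsto_rfl1' (hP w hwP)).eventually (s2 w hwP), a4 w hwP,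
          nhdsWithin_le_nhds (eventually_ne_nhds (hp0 w hwP))] with z b1 b2 b3 b4 _
        obtain ⟨c1, -, c3⟩ := b1.2.2.2.use hr (hb z) b1.2.1 b1.1
        rw [b2.2.2.1]
        refine T.ex_unique b2.1 (a2.mem z _ b4 (b1.2.2.1 ▸ T.ex_mem b1.1 c1)) ?_ ?_
        · have e : ‖((rfl1 z, J (S z)) : ℂ × E) - (rfl1 z, σ w (rfl1 z))‖ = ‖S z - σ w z‖ := by
            rw [b3, ← a2.norm (S z - σ w z), map_sub]
            simp
          rw [e, b1.2.2.1]
          exact c3.trans_le (rl_le T hr b2.2.1 (by rw [b3, a2.norm]))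
        · rw [a2.comm, b1.2.2.1, T.pr_ex b1.1 c1, g4 h]
      have h2 : ∀ᶠ z in 𝓝[≠] w,
          AnalyticAt ℂ S z ∧ (z, S z) ∈ U ∧ (re → S (rfl1 z) = J (S z)) := by
        filter_upwards [(s3 w hwP).1.eventually_analyticAt, (s3 w hwP).2, h1] with z a1 a2 a3
        exact ⟨a1, a2, a3⟩
      exact (eventually_nhdsWithin_iff.1 h2).mono fun z hz hzP => hz fun e => hzP (e ▸ hwP)
    · have hw' : w ∈ sphere (0 : ℂ) r \ P := ⟨hw, hwP⟩
      obtain ⟨a1, a2, a3⟩ := u1 w hw'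
      obtain ⟨c1, -, c3⟩ := (g2 w hw').use hr (hb w) (hn w hw).1 (hγ.2 w hw')
      have hg : AnalyticAt ℂ (fun z => (z, g z)) w := analyticAt_id.prod (g1 w (hn w hw).2 hwP)
      have h0 : ‖((w, g w) : ℂ × E') - pj pr (u w)‖ < T.rho (u w) ^ 2 := by rwa [a2]
      have hA : AnalyticAt ℂ S w := T.analyticAt_ex (p := fun z => (z, g z)) a1 hg h0 a3
      have h1 : ∀ᶠ z in 𝓝 w, ‖((z, g z) : ℂ × E') - pj pr (u z)‖ < T.rho (u z) ^ 2 :=
        ContinuousAt.eventually_lt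
          (hg.continuousAt.sub ((continuous_pj pr).continuousAt.comp a1)).norm
          ((T.continuous_rho.continuousAt.comp a1).pow 2) h0
      have h2 : ∀ᶠ z in 𝓝 w, (z, S z) ∈ U ∧ pr (S z) = g z :=
        (a3.and h1).mono fun z hz => ⟨T.ex_mem hz.1 hz.2, T.pr_ex hz.1 hz.2⟩
      have h3 : ∀ᶠ z in 𝓝 w, re → S (rfl1 z) = J (S z) := by
        by_cases h : re
        swap
        · exact Eventually.of_forall fun _ h' => absurd h' h
        obtain ⟨rfl, b2, b3, -⟩ := hre h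
        have hw1 : ‖w‖ = 1 := by simpa using hw
        have hr1 := rfl1_of_norm_one hw1
        have hSU := h2.self_of_nhds
        have hJ : S w = J (S w) := by
          have hm := b2.mem w _ (hn w hw).2 hSU.1
          rw [hr1] at hm
          refine (s1 w hw').trans (T.ex_unique (hγ.2 w hw') hm ?_ ?_)
          · have e : ‖((w, J (S w)) : ℂ × E) - (w, γ w)‖ = ‖S w - γ w‖ := by
              rw [← b2.norm (S w - γ w), map_sub, b3 w hw']
              simp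
            rw [e, s1 w hw']
            exact c3.trans_le (rl_le T hr (hn w hw).1 le_rfl)
          · rw [b2.comm, hSU.2, ← g4 h, hr1]
        have t1 := tendsto_rfl1 hw1
        have hρ := T.rho_pos (w, S w)
        have t2 : Tendsto (fun z => (rfl1 z, S (rfl1 z))) (𝓝 w) (𝓝 (w, S w)) :=
          t1.prodMk_nhds (hA.continuousAt.tendsto.comp t1)
        have t3 : Tendsto (fun z => (rfl1 z, J (S z))) (𝓝 w) (𝓝 (w, S w)) := by
          refine t1.prodMk_nhds ?_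
          have := J.continuous.continuousAt.tendsto.comp hA.continuousAt.tendsto
          rwa [← hJ] at this
        filter_upwards [h2, t1.eventually h2, t2.eventually (ball_mem_nhds _ hρ),
          t3.eventually (ball_mem_nhds _ hρ), eventually_ne_nhds (hn w hw).2]
          with z d1 d2 d3 d4 d5 _
        refine congrArg Prod.snd (T.inj hSU.1 d2.1 (b2.mem z _ d5 d1.1)
          (by rwa [← dist_eq_norm]) (by rwa [← dist_eq_norm]) ?_)
        rw [pj_mk, pj_mk, d2.2, b2.comm, d1.2, g4 h]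
      filter_upwards [hA.eventually_analyticAt, h2, h3] with z d1 d2 d3 _
      exact ⟨d1, d2.1, d3⟩
  obtain ⟨δ₀, hδ₀, hsub⟩ := (hasBasis_nhdsSet_thickening (isCompact_sphere (0 : ℂ) r)).eventually_iff.1
    (eventually_nhdsSet_iff_forall.2 good)
  have hδr : min δ₀ (r / 2) < r := (min_le_right _ _).trans_lt (half_lt_self hr)
  have hA : ∀ z ∈ ann (r - min δ₀ (r / 2)) (r + min δ₀ (r / 2)), z ∉ P →
      AnalyticAt ℂ S z ∧ (z, S z) ∈ U ∧ (re → S (rfl1 z) = J (S z)) := fun z hz =>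
    hsub (thickening_mono (min_le_left _ _) _ (ann_sub hr hδr hz))
  refine ⟨min δ₀ (r / 2), S, lt_min hδ₀ (half_pos hr), hδr, fun p hp => ?_,
    fun z hz hzP => (hA z hz hzP).1, fun z hz => ?_, fun p hp => ?_,
    fun h z hz hzP _ => (hA z hz hzP).2.2 h⟩
  · by_cases hpP : p ∈ P
    · exact s3 p hpP
    · refine ⟨(hA p hp hpP).1.meromorphicAt, ?_⟩
      filter_upwards [nhdsWithin_le_nhds ((isOpen_ann _ _).mem_nhds hp), ev_notMem P p]
        with z a1 a2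
      exact (hA z a1 a2).2.1
  · rw [s1 z hz]
    exact ((g2 z hz).use hr (hb z) (hn z hz.1).1 (hγ.2 z hz)).2.1
  · filter_upwards [s2 p hp] with z a1
    rw [a1.2.2.1]
    exact (a1.2.2.2.use hr (hb z) a1.2.1 a1.1).2.1

end

end Pool.Agent.P.MP_daea48_ag
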