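import Pool.Agent.P.MP_daea48_ag.StA

/-! Package Ap, part 1: approximation of the free coordinates. -/

open Set Filter Topology Metric
open scoped ComplexConjugate

namespace Pool.Agent.P.MP_daea48_ag

noncomputable section

open Classical

namespace Ap

variable {Y : Type} [NormedAddCommGroup Y] [NormedSpace ℂ Y]

/-- The polynomial vanishing on `P`. -/
def qq (P : Finset ℂ) (z : ℂ) : ℂ := ∏ p ∈ P, (z - p)

theorem qq_an (P : Finset ℂ) (z : ℂ) : AnalyticAt ℂ (qq P) z :=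
  Finset.analyticAt_fun_prod P fun _ _ => analyticAt_id.sub analyticAt_const

theorem qq_ne {P : Finset ℂ} {z : ℂ} (h : z ∉ P) : qq P z ≠ 0 :=
  Finset.prod_ne_zero_iff.2 fun _ hp => sub_ne_zero.2 fun e => h (e ▸ hp)

theorem ev_notMem (P : Finset ℂ) (w : ℂ) : ∀ᶠ z in 𝓝[≠] w, z ∉ P :=
  nhdsNE_le_cofinite w P.eventually_cofinite_notMem

theorem ev_notMem' {P : Finset ℂ} {w : ℂ} (h : w ∉ P) : ∀ᶠ z in 𝓝 w, z ∉ P :=
  P.finite_toSet.isClosed.isOpen_compl.mem_nhds h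

theorem le_ne (K : Set ℂ) (w : ℂ) : 𝓝[K \ {w}] w ≤ 𝓝[≠] w :=
  nhdsWithin_mono _ fun _ hz => hz.2

/-- Principal part of a quotient. -/
theorem pp_aux [CompleteSpace Y] (p : ℂ) (n : ℕ) : ∀ G : ℂ → Y, AnalyticAt ℂ G p →
    ∃ R a : ℂ → Y, (∀ z, z ≠ p → AnalyticAt ℂ R z) ∧ AnalyticAt ℂ a p ∧
      ∀ z, z ≠ p → ((z - p) ^ n)⁻¹ • G z = R z + a z := by
  induction n with
  | zero => exact fun G hG => ⟨fun _ => 0, G, fun _ _ => analyticAt_const, hG, fun z _ => by simp⟩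
  | succ n ih =>
    intro G hG
    obtain ⟨s, hs⟩ := hG
    obtain ⟨R, a, h1, h2, h3⟩ := ih (dslope G p) ⟨_, hs.has_fpower_series_dslope_fslope⟩
    refine ⟨fun z => ((z - p) ^ (n + 1))⁻¹ • G p + R z, a, fun z hz => ?_, h2, fun z hz => ?_⟩
    · refine AnalyticAt.add (AnalyticAt.smul (AnalyticAt.inv ?_ ?_) analyticAt_const) (h1 z hz)
      · exact (analyticAt_id.sub analyticAt_const).pow _
      · exact pow_ne_zero _ (sub_ne_zero.2 hz)
    · have e : G z = G p + (z - p) • dslope G p z := by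
        rw [sub_smul_dslope]; abel
      have h0 : z - p ≠ 0 := sub_ne_zero.2 hz
      rw [add_assoc, ← h3 z hz, e, smul_add, smul_smul]
      congr 2
      rw [pow_succ]; field_simp

/-- Principal part of a meromorphic germ. -/
theorem pp [CompleteSpace Y] {F : ℂ → Y} {p : ℂ} (h : MeromorphicAt F p) :
    ∃ R a : ℂ → Y, (∀ z, z ≠ p → AnalyticAt ℂ R z) ∧ AnalyticAt ℂ a p ∧
      ∀ z, z ≠ p → F z = R z + a z := by
  obtain ⟨n, hn⟩ := h
  obtain ⟨R, a, h1, h2, h3⟩ := pp_aux p n _ hn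
  refine ⟨R, a, h1, h2, fun z hz => ?_⟩
  rw [← h3 z hz, smul_smul, inv_mul_cancel₀ (pow_ne_zero _ (sub_ne_zero.2 hz)), one_smul]

omit [NormedSpace ℂ Y] in
/-- Continuous extension over the points of `P`. -/
theorem ext_cont {K : Set ℂ} {P : Finset ℂ} {F : ℂ → Y} {b : ℂ → ℂ → Y}
    (hF : ContinuousOn F (K \ P))
    (hb : ∀ p ∈ P, ContinuousAt (b p) p ∧ ∀ᶠ z in 𝓝[K \ {p}] p, F z = b p z) :
    ContinuousOn (fun z => if z ∈ P then b z z else F z) K := by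
  intro w hw
  by_cases hP : w ∈ P
  · rw [← continuousWithinAt_sdiff_self]
    refine ((hb w hP).1.continuousWithinAt (s := K \ {w})).congr_of_eventuallyEq ?_ (by simp [hP])
    filter_upwards [(hb w hP).2, le_ne K w (ev_notMem P w)] with z h1 h2
    simp [h2, h1]
  · have h1 : ContinuousWithinAt F K w :=
      (hF w ⟨hw, hP⟩).mono_of_mem_nhdsWithin (inter_mem_nhdsWithin K (ev_notMem' hP))
    refine h1.congr_of_eventuallyEq ?_ (by simp [hP])
    filter_upwards [nhdsWithin_le_nhds (ev_notMem' hP)] with z h2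
    simp [h2]

/-- Approximation with prescribed polar behaviour. -/
theorem approx [FiniteDimensional ℂ Y] (hM : S_Mero) {r : ℝ} (hr : 0 < r) {P : Finset ℂ}
    (hP : ∀ p ∈ P, ‖p‖ = r) {f : ℂ → Y} {fp : ℂ → ℂ → Y} (hf : ContinuousOn f (sphere 0 r \ P))
    (hfp : ∀ p ∈ P, MeromorphicAt (fp p) p ∧ ∀ᶠ z in 𝓝[sphere 0 r \ {p}] p, f z = fp p z)
    (k : ℕ) {η : ℝ} (hη : 0 < η) :
    ∃ g : ℂ → Y, (∀ z, z ≠ 0 → z ∉ P → AnalyticAt ℂ g z) ∧
      (∀ z ∈ sphere (0 : ℂ) r \ P, ‖g z - f z‖ ≤ η * ‖qq P z‖ ^ k) ∧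
      ∀ p ∈ P, ∀ᶠ z in 𝓝[≠] p, ‖g z - fp p z‖ ≤ η * ‖qq P z‖ ^ k := by
  have hm : ∀ p ∈ P, MeromorphicAt (fun z => (qq P z ^ k)⁻¹ • fp p z) p := fun p hp =>
    (((qq_an P p).meromorphicAt.fun_pow k).fun_inv).fun_smul (hfp p hp).1
  choose! R a hR ha hRa using fun p hp => pp (hm p hp)
  set Rs : ℂ → Y := fun z => ∑ p ∈ P, R p z with hRs
  set b : ℂ → ℂ → Y := fun p z => a p z - ∑ p' ∈ P.erase p, R p' z with hb
  have hRan : ∀ z, z ∉ P → AnalyticAt ℂ Rs z := fun z hz =>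
    Finset.analyticAt_fun_sum P fun p hp => hR p hp z fun e => hz (e ▸ hp)
  have hban : ∀ p ∈ P, AnalyticAt ℂ (b p) p := fun p hp =>
    (ha p hp).sub (Finset.analyticAt_fun_sum _ fun p' hp' =>
      hR p' (Finset.mem_of_mem_erase hp') p (Finset.ne_of_mem_erase hp').symm)
  have hbe : ∀ p ∈ P, ∀ z, z ≠ p → (qq P z ^ k)⁻¹ • fp p z - Rs z = b p z := fun p hp z hz => by
    rw [hRa p hp z hz]
    simp only [hRs, hb]
    rw [← Finset.add_sum_erase P (fun p => R p z) hp]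
    abel
  have hc : ContinuousOn (fun z => if z ∈ P then b z z else (qq P z ^ k)⁻¹ • f z - Rs z)
      (sphere 0 r) := by
    refine ext_cont (fun z hz => ?_) fun p hp => ⟨(hban p hp).continuousAt, ?_⟩
    · refine ContinuousWithinAt.sub (ContinuousWithinAt.smul ?_ (hf z hz))
        (hRan z hz.2).continuousAt.continuousWithinAt
      exact (((qq_an P z).continuousAt.pow k).inv₀
        (pow_ne_zero _ (qq_ne hz.2))).continuousWithinAt
    · filter_upwards [(hfp p hp).2, self_mem_nhdsWithin] with z h1 h2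
      rw [h1, hbe p hp z h2.2]
  obtain ⟨L, hL, hL'⟩ := hM.2.2.2 Y _ r η hr hη hc
  have key : ∀ z, z ∉ P → ∀ x : Y, ‖L z - ((qq P z ^ k)⁻¹ • x - Rs z)‖ < η →
      ‖qq P z ^ k • (Rs z + L z) - x‖ ≤ η * ‖qq P z‖ ^ k := fun z hz x hx => by
    have e : qq P z ^ k • (Rs z + L z) - x =
        qq P z ^ k • (L z - ((qq P z ^ k)⁻¹ • x - Rs z)) := by
      rw [smul_sub, smul_sub, smul_smul, mul_inv_cancel₀ (pow_ne_zero _ (qq_ne hz)), one_smul,
        smul_add]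
      abel
    rw [e, norm_smul, norm_pow, mul_comm]
    gcongr
  refine ⟨fun z => qq P z ^ k • (Rs z + L z), fun z h0 hz => ?_, fun z hz => ?_, fun p hp => ?_⟩
  · exact ((qq_an P z).pow k).smul ((hRan z hz).add (hL z h0))
  · refine key z hz.2 _ ?_
    have := hL' z hz.1
    rwa [if_neg (show z ∉ P from hz.2)] at this
  · have h0 : p ≠ 0 := by
      rintro rfl
      have := hP _ hp
      rw [norm_zero] at this
      exact hr.ne this
    have h1 := hL' p (by simpa using hP p hp)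
    rw [if_pos hp] at h1
    have h2 : ∀ᶠ z in 𝓝 p, ‖L z - b p z‖ < η :=
      ((hL p h0).continuousAt.sub (hban p hp).continuousAt).norm.eventually (gt_mem_nhds h1)
    filter_upwards [nhdsWithin_le_nhds h2, ev_notMem P p, self_mem_nhdsWithin] with z h3 h4 h5
    refine key z h4 _ ?_
    rwa [hbe p hp z h5]

theorem rfl1_ne {z : ℂ} (h : z ≠ 0) : rfl1 z ≠ 0 := by
  simpa [rfl1] using h

theorem rfl1_notMem {P : Finset ℂ} (hP : ∀ p ∈ P, ‖p‖ = 1) {z : ℂ} (h : z ∉ P) : rfl1 z ∉ P :=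
  fun h1 => h (by rw [← rfl1_rfl1 z, rfl1_of_norm_one (hP _ h1)]; exact h1)

theorem norm_rfl1_sub {p z : ℂ} (hp : ‖p‖ = 1) (hz : z ≠ 0) :
    ‖rfl1 z - p‖ = ‖z - p‖ * ‖z‖⁻¹ := by
  have h1 : conj z ≠ 0 := by simpa using hz
  have h2 : p * conj p = 1 := by
    rw [Complex.mul_conj', hp]; simp
  have e : rfl1 z - p = -(p * conj (z - p)) * (conj z)⁻¹ := by
    rw [rfl1, map_sub, mul_sub, h2]
    field_simp
    ring
  rw [e, norm_mul, norm_neg, norm_mul, hp, one_mul, norm_inv, Complex.norm_conj, Complex.norm_conj]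

theorem norm_qq_rfl1 {P : Finset ℂ} (hP : ∀ p ∈ P, ‖p‖ = 1) {z : ℂ} (hz : z ≠ 0) :
    ‖qq P (rfl1 z)‖ = ‖qq P z‖ * ‖z‖⁻¹ ^ P.card := by
  rw [qq, qq, norm_prod, norm_prod, ← Finset.prod_const, ← Finset.prod_mul_distrib]
  exact Finset.prod_congr rfl fun p hp => norm_rfl1_sub (hP p hp) hz

theorem tendsto_rfl1 {p : ℂ} (hp : ‖p‖ = 1) : Tendsto rfl1 (𝓝 p) (𝓝 p) := by
  have h0 : p ≠ 0 := by rintro rfl; simp at hp
  have := continuousAt_rfl1 h0
  rwa [ContinuousAt, rfl1_of_norm_one hp] at this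

theorem tendsto_rfl1' {p : ℂ} (hp : ‖p‖ = 1) : Tendsto rfl1 (𝓝[≠] p) (𝓝[≠] p) := by
  refine tendsto_nhdsWithin_iff.2 ⟨(tendsto_rfl1 hp).mono_left nhdsWithin_le_nhds, ?_⟩
  filter_upwards [self_mem_nhdsWithin] with z hz h1
  exact hz (by
    rw [mem_singleton_iff] at h1 ⊢
    rw [← rfl1_rfl1 z, h1, rfl1_of_norm_one hp])

/-- Approximation, symmetric in the real case. -/
theorem approx_re [FiniteDimensional ℂ Y] (hM : S_Mero) {r : ℝ} (hr : 0 < r) {P : Finset ℂ}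
    (hP : ∀ p ∈ P, ‖p‖ = r) {f : ℂ → Y} {fp : ℂ → ℂ → Y} (hf : ContinuousOn f (sphere 0 r \ P))
    (hfp : ∀ p ∈ P, MeromorphicAt (fp p) p ∧ ∀ᶠ z in 𝓝[sphere 0 r \ {p}] p, f z = fp p z)
    (J : Y →L⋆[ℂ] Y) (re : Prop)
    (hre : re → r = 1 ∧ (∀ x, ‖J x‖ = ‖x‖) ∧ (∀ x, J (J x) = x) ∧
      (∀ z ∈ sphere (0 : ℂ) r \ P, J (f z) = f z) ∧
      ∀ p ∈ P, ∀ᶠ z in 𝓝[≠] p, fp p (rfl1 z) = J (fp p z))
    (k : ℕ) {η : ℝ} (hη : 0 < η) :
    ∃ g : ℂ → Y, (∀ z, z ≠ 0 → z ∉ P → AnalyticAt ℂ g z) ∧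
      (∀ z ∈ sphere (0 : ℂ) r \ P, ‖g z - f z‖ ≤ η * ‖qq P z‖ ^ k) ∧
      (∀ p ∈ P, ∀ᶠ z in 𝓝[≠] p, ‖g z - fp p z‖ ≤ η * ‖qq P z‖ ^ k) ∧
      (re → ∀ z, g (rfl1 z) = J (g z)) := by
  by_cases h : re
  swap
  · obtain ⟨g, h1, h2, h3⟩ := approx hM hr hP hf hfp k hη
    exact ⟨g, h1, h2, h3, fun h' => absurd h' h⟩
  obtain ⟨rfl, j1, j2, j3, j4⟩ := hre h
  obtain ⟨g, h1, h2, h3⟩ := approx hM hr hP hf hfp k (half_pos hη)
  have key : ∀ x y w : Y, ‖(2⁻¹ : ℂ) • (x + J y) - w‖ ≤ 2⁻¹ * (‖x - w‖ + ‖y - J w‖) := by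
    intro x y w
    have e : (2⁻¹ : ℂ) • (x + J y) - w = (2⁻¹ : ℂ) • ((x - w) + J (y - J w)) := by
      rw [map_sub, j2]
      module
    rw [e, norm_smul, ← j1 (y - J w), norm_inv, Complex.norm_two]
    gcongr
    exact norm_add_le _ _
  refine ⟨fun z => (2⁻¹ : ℂ) • (g z + J (g (rfl1 z))), fun z h0 hz => ?_, fun z hz => ?_,
    fun p hp => ?_, fun _ z => ?_⟩
  · exact analyticAt_const.smul ((h1 z h0 hz).add
      (analyticAt_rfl1 J h0 (h1 _ (rfl1_ne h0) (rfl1_notMem hP hz))))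
  · refine (key _ _ _).trans ?_
    rw [rfl1_of_norm_one (by simpa using hz.1), j3 z hz]
    have := h2 z hz
    have : 0 ≤ η * ‖qq P z‖ ^ k := by positivity
    linarith
  · have h0 : p ≠ 0 := by
      rintro rfl
      simpa using hP _ hp
    have h5 : ∀ᶠ z in 𝓝 p, (‖z‖⁻¹ ^ P.card) ^ k < 2 := by
      have : ContinuousAt (fun z : ℂ => (‖z‖⁻¹ ^ P.card) ^ k) p :=
        ((continuous_norm.continuousAt.inv₀ (norm_ne_zero_iff.2 h0)).pow _).pow _
      exact this.eventually (gt_mem_nhds (by simp [hP p hp]))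
    filter_upwards [h3 p hp, (tendsto_rfl1' (hP p hp)).eventually (h3 p hp), j4 p hp,
      nhdsWithin_le_nhds h5, nhdsWithin_le_nhds (eventually_ne_nhds h0)] with z a1 a2 a3 a4 a5
    refine (key _ _ _).trans ?_
    rw [← a3]
    rw [norm_qq_rfl1 hP a5, mul_pow] at a2
    have h6 : 0 ≤ ‖qq P z‖ ^ k := by positivity
    have h7 : η / 2 * (‖qq P z‖ ^ k * (‖z‖⁻¹ ^ P.card) ^ k) ≤ η / 2 * (‖qq P z‖ ^ k * 2) := by
      gcongr
    have : 0 ≤ η * ‖qq P z‖ ^ k := by positivity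
    linarith
  · simp only [rfl1_rfl1]
    rw [J.map_smulₛₗ, map_add, j2, add_comm, map_inv₀, map_ofNat]

/-- A power of `qq` kills the poles. -/
theorem weight {r : ℝ} {P : Finset ℂ} (hP : ∀ p ∈ P, ‖p‖ = r) {f : ℂ → Y} {fp : ℂ → ℂ → Y}
    (hf : ContinuousOn f (sphere 0 r \ P))
    (hfp : ∀ p ∈ P, MeromorphicAt (fp p) p ∧ ∀ᶠ z in 𝓝[sphere 0 r \ {p}] p, f z = fp p z) :
    ∃ (N : ℕ) (C : ℝ), (∀ z ∈ sphere (0 : ℂ) r \ P, ‖qq P z‖ ^ N * ‖f z‖ ≤ C) ∧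
      ∀ p ∈ P, ∀ᶠ z in 𝓝[≠] p, ‖qq P z‖ ^ N * ‖fp p z‖ ≤ C := by
  choose! n hn using fun p hp => (hfp p hp).1
  set N := P.sup n with hN
  have hb : ∀ p ∈ P, ContinuousAt (fun z => qq P z ^ N • fp p z) p := fun p hp => by
    obtain ⟨m, hm⟩ := Nat.exists_eq_add_of_le (Finset.le_sup (f := n) hp)
    have e : (fun z => qq P z ^ N • fp p z) = fun z =>
        (qq (P.erase p) z ^ N * (z - p) ^ m) • ((z - p) ^ n p • fp p z) := by
      funext z
      rw [smul_smul, qq, ← Finset.prod_erase_mul _ _ hp, mul_pow, mul_assoc, ← pow_add, add_comm m,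
        ← hm]
      rfl
    rw [e]
    exact (((qq_an _ p).continuousAt.pow N).mul (by fun_prop)).smul (hn p hp).continuousAt
  have hc : ContinuousOn (fun z => if z ∈ P then qq P z ^ N • fp z z else qq P z ^ N • f z)
      (sphere 0 r) := by
    refine ext_cont (b := fun p z => qq P z ^ N • fp p z) (fun z hz => ?_)
      fun p hp => ⟨hb p hp, (hfp p hp).2.mono fun z hz => by rw [hz]⟩
    exact ((qq_an P z).continuousAt.pow N).continuousWithinAt.smul (hf z hz)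
  obtain ⟨C, hC⟩ := (isCompact_sphere (0 : ℂ) r).exists_bound_of_continuousOn hc
  refine ⟨N, C + 1, fun z hz => ?_, fun p hp => ?_⟩
  · have := hC z hz.1
    rw [if_neg (show z ∉ P from hz.2), norm_smul, norm_pow] at this
    linarith
  · have h1 := hC p (by simpa using hP p hp)
    rw [if_pos hp] at h1
    filter_upwards [nhdsWithin_le_nhds
      ((hb p hp).norm.eventually (gt_mem_nhds (h1.trans_lt (lt_add_one C))))] with z hz
    rw [norm_smul, norm_pow] at hz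
    exact hz.le

end Ap

end

end Pool.Agent.P.MP_daea48_ag
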