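import Pool.Agent.P.MP_daea48_ag.StK

/-! The charts of a cover form an atlas in the function field. -/

open Set CategoryTheory CategoryTheory.Limits AlgebraicGeometry
open scoped TensorProduct

namespace Pool.Agent.P.MP_daea48_ag

namespace AtlasA

variable {K : Type} [Field K] {X : Scheme.{0}} {s : X ⟶ Spec (CommRingCat.of K)}

theorem fromSpec_comp {W : X.Opens} (hW : IsAffineOpen W) :
    hW.fromSpec ≫ s =
      Spec.map ((Scheme.ΓSpecIso (CommRingCat.of K)).inv ≫ s.appLE ⊤ W le_top) := by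
  rw [← IsAffineOpen.SpecMap_appLE_fromSpec s (isAffineOpen_top _) hW le_top,
    IsAffineOpen.fromSpec_top, Scheme.isoSpec_Spec_inv, Spec.map_comp]

theorem e_comp_C (c : SCover s) (i : Fin (c.m + 1)) :
    CommRingCat.ofHom ((c.e i).comp MvPolynomial.C) =
      (Scheme.ΓSpecIso (CommRingCat.of K)).inv ≫ s.appLE ⊤ (c.W i) le_top := by
  ext k
  exact c.eC i k

theorem germ_appLE (W : X.Opens) (x : X) (hx : x ∈ W) :
    s.appLE ⊤ W le_top ≫ X.presheaf.germ W x hx =
      s.appTop ≫ X.presheaf.germ ⊤ x trivial := by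
  rw [Scheme.Hom.appLE, Category.assoc, TopCat.Presheaf.germ_res]
  rfl

variable [IsIntegral X]

theorem jF_eq (c : SCover s) (i : Fin (c.m + 1)) (k : K) :
    haveI := c.ne i
    c.jF k = (X.germToFunctionField (c.W i)).hom (c.e i (MvPolynomial.C k)) := by
  have := c.ne i
  have := c.ne 0
  change (X.germToFunctionField (c.W 0)).hom (c.e 0 (MvPolynomial.C k)) = _
  rw [c.eC, c.eC, ← CommRingCat.comp_apply, ← CommRingCat.comp_apply, Category.assoc,
    Category.assoc, germ_appLE, germ_appLE]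

theorem eval_eq (c : SCover s) (i : Fin (c.m + 1)) (G : MvPolynomial (c.V i).σ K) :
    haveI := c.ne i
    MvPolynomial.eval₂ c.jF (c.g i) G = (X.germToFunctionField (c.W i)).hom (c.e i G) := by
  have := c.ne i
  have : MvPolynomial.eval₂Hom c.jF (c.g i) =
      (X.germToFunctionField (c.W i)).hom.comp (c.e i) := by
    refine MvPolynomial.ringHom_ext (fun k => ?_) fun a => ?_
    · rw [MvPolynomial.eval₂Hom_C]
      exact jF_eq c i k
    · rw [MvPolynomial.eval₂Hom_X']
      rfl
  exact DFunLike.congr_fun this G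

theorem val [IsProper s] (c : SCover s) (O : ValuationSubring X.functionField)
    (hO : ∀ k, c.jF k ∈ O) : ∃ i, ∀ a, c.g i a ∈ O := by
  have hE : ValuativeCriterion.Existence s :=
    (UniversallyClosed.eq_valuativeCriterion.le _ _ _ inferInstance).1
  have := c.ne 0
  let jO : CommRingCat.of K ⟶ CommRingCat.of O :=
    CommRingCat.ofHom (c.jF.codRestrict O.toSubring hO)
  let ι : CommRingCat.of O ⟶ X.functionField :=
    CommRingCat.ofHom (algebraMap O X.functionField)
  have hg : ∀ i, genericPoint X ∈ c.W i := fun i =>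
    ((genericPoint_spec X).mem_open_set_iff (c.W i).isOpen).mpr (by simpa using c.ne i)
  have w : X.fromSpecStalk (genericPoint X) ≫ s = Spec.map ι ≫ Spec.map jO := by
    rw [← (c.aff 0).fromSpecStalk_eq_fromSpecStalk (hg 0), IsAffineOpen.fromSpecStalk,
      Category.assoc, fromSpec_comp, ← e_comp_C, ← Spec.map_comp, ← Spec.map_comp]
    rfl
  obtain ⟨l, hl₁, -⟩ := (hE { R := O, K := X.functionField, commSq := ⟨w⟩, .. }).exists_lift
  have hl : Spec.map ι ≫ l = X.fromSpecStalk (genericPoint X) := hl₁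
  have hx : l (IsLocalRing.closedPoint O) ∈ ⨆ i, c.W i := by
    rw [c.cov]; trivial
  obtain ⟨i, hi⟩ := TopologicalSpace.Opens.mem_iSup.1 hx
  have := c.ne i
  let φ : Γ(X, c.W i) ⟶ CommRingCat.of O :=
    X.presheaf.germ (c.W i) _ hi ≫ Scheme.stalkClosedPointTo l
  have h1 : Spec.map φ ≫ (c.aff i).fromSpec = l := by
    rw [Spec.map_comp, Category.assoc, ← IsAffineOpen.fromSpecStalk,
      IsAffineOpen.fromSpecStalk_eq_fromSpecStalk, Scheme.Spec_stalkClosedPointTo_fromSpecStalk]
  have h2 : φ ≫ ι = X.germToFunctionField (c.W i) := by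
    apply Spec.map_injective
    rw [← cancel_mono (c.aff i).fromSpec, Spec.map_comp, Category.assoc, h1, hl,
      ← (c.aff i).fromSpecStalk_eq_fromSpecStalk (hg i), IsAffineOpen.fromSpecStalk]
  refine ⟨i, fun a => ?_⟩
  have h3 : c.g i a = ι.hom (φ.hom (c.e i (MvPolynomial.X a))) := by
    rw [← CommRingCat.comp_apply, h2]
    rfl
  rw [h3]
  exact (φ.hom (c.e i (MvPolynomial.X a))).2

omit [IsIntegral X] in
theorem geo [GeometricallyIntegral s] (c : SCover s) (i : Fin (c.m + 1)) : AGeo (c.V i) := by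
  intro Λ _ _
  have := c.ne i
  let A := MvPolynomial (c.V i).σ K ⧸ (c.V i).I
  let e : A ≃+* Γ(X, c.W i) :=
    (Ideal.quotEquivOfEq (c.ker i).symm).trans (RingHom.quotientKerEquivOfSurjective (c.surj i))
  have : Nontrivial A := e.toEquiv.nontrivial
  let f : Spec (CommRingCat.of A) ⟶ X :=
    Spec.map (e.toCommRingCatIso.inv : Γ(X, c.W i) ⟶ CommRingCat.of A) ≫ (c.aff i).fromSpec
  have hf : Spec.map (CommRingCat.ofHom (algebraMap K A)) ≫ 𝟙 _ = f ≫ s := by
    rw [Category.comp_id, Category.assoc, fromSpec_comp, ← e_comp_C, ← Spec.map_comp]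
    congr 1
    ext k
    change algebraMap K A k = e.symm (c.e i (MvPolynomial.C k))
    rw [eq_comm, RingEquiv.symm_apply_eq]
    rfl
  let y : Spec (CommRingCat.of Λ) ⟶ Spec (CommRingCat.of K) :=
    Spec.map (CommRingCat.ofHom (algebraMap K Λ))
  have : IsIntegral (pullback y s) :=
    pullback_of_geometrically' GeometricallyIntegral.geometrically_isIntegral Λ y
  have : IsOpenImmersion f := inferInstance
  let p := pullback.map y (Spec.map (CommRingCat.ofHom (algebraMap K A))) y s (𝟙 _) f (𝟙 _)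
    (by simp) hf
  have : IsOpenImmersion p := inferInstance
  have : Nontrivial (Λ ⊗[K] A) := inferInstance
  have : Nonempty (Spec (CommRingCat.of (Λ ⊗[K] A))) :=
    inferInstanceAs (Nonempty (PrimeSpectrum (Λ ⊗[K] A)))
  have : IsIntegral (Spec (CommRingCat.of (Λ ⊗[K] A))) :=
    isIntegral_of_isOpenImmersion ((pullbackSpecIso K Λ A).inv ≫ p)
  exact (affine_isIntegral_iff (CommRingCat.of (Λ ⊗[K] A))).1 this

end AtlasA

open AtlasA

theorem AtlasA_of : S_AtlasA := by
  intro K _ X _ s _ _ c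
  refine ⟨fun i G => ?_, fun i x => ?_, val c, geo c 0⟩
  · have := c.ne i
    rw [eval_eq, ← c.ker i, RingHom.mem_ker]
    exact map_eq_zero_iff _ (X.germToFunctionField_injective (c.W i))
  · have := c.ne i
    have := functionField_isFractionRing_of_isAffineOpen X (c.W i) (c.aff i)
    obtain ⟨a, b, hb, rfl⟩ := IsFractionRing.div_surjective (A := Γ(X, c.W i)) x
    obtain ⟨a, rfl⟩ := c.surj i a
    obtain ⟨b, rfl⟩ := c.surj i b
    have hb' : (X.germToFunctionField (c.W i)).hom (c.e i b) ≠ 0 :=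
      IsFractionRing.to_map_ne_zero_of_mem_nonZeroDivisors (K := X.functionField) hb
    refine ⟨a, b, by rw [eval_eq]; exact hb', ?_⟩
    rw [eval_eq, eval_eq]
    exact div_mul_cancel₀ _ hb'

end Pool.Agent.P.MP_daea48_ag
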