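import Pool.Agent.P.MP_daea48_ag.StK

/-! Rational connectedness in coordinates. -/

open Set Polynomial CategoryTheory CategoryTheory.Limits AlgebraicGeometry

namespace Pool.Agent.P.MP_daea48_ag

noncomputable section

namespace AtlasB

theorem spc_comp {A B D : Type} [CommRing A] [CommRing B] [CommRing D] (f : A →+* B)
    (g : B →+* D) : spc g ≫ spc f = spc (g.comp f) := by
  simp [spc]

theorem spc_id {A : Type} [CommRing A] : spc (RingHom.id A) = 𝟙 _ := by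
  simp [spc]

theorem spc_apply {A B : Type} [CommRing A] [CommRing B] (f : A →+* B) (p : PrimeSpectrum B) :
    spc f p = PrimeSpectrum.comap f p := rfl

theorem mem_basic {A L : Type} [CommRing A] [Field L] (f : A →+* L) (a : A)
    (p : PrimeSpectrum L) : PrimeSpectrum.comap f p ∈ PrimeSpectrum.basicOpen a ↔ f a ≠ 0 := by
  rw [PrimeSpectrum.mem_basicOpen, PrimeSpectrum.comap_asIdeal, Ideal.mem_comap,
    Subsingleton.elim p ⊥, PrimeSpectrum.asIdeal_bot, Ideal.mem_bot]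

variable {K : Type} [Field K] {X : Scheme.{0}} {s : X ⟶ Spec (CommRingCat.of K)} (c : SCover s)
  {B D : Type} [CommRing B] [CommRing D]

/-- The morphism into the first chart given by a ring map. -/
def pt (φ : Γ(X, c.W 0) →+* B) : Spec (CommRingCat.of B) ⟶ X :=
  Spec.map (CommRingCat.ofHom φ) ≫ (c.aff 0).fromSpec

theorem spc_pt (φ : Γ(X, c.W 0) →+* B) (f : B →+* D) : spc f ≫ pt c φ = pt c (f.comp φ) := by
  simp [spc, pt]

theorem pt_inj {φ ψ : Γ(X, c.W 0) →+* B} (h : pt c φ = pt c ψ) : φ = ψ := by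
  have h1 := Spec.map_injective ((cancel_mono _).1 h)
  exact congrArg CommRingCat.Hom.hom h1

theorem pt_mem (φ : Γ(X, c.W 0) →+* B) (p : Spec (CommRingCat.of B)) : pt c φ p ∈ c.W 0 := by
  have : pt c φ p ∈ Set.range (c.aff 0).fromSpec := ⟨Spec.map (CommRingCat.ofHom φ) p, rfl⟩
  rwa [(c.aff 0).range_fromSpec] at this

theorem ex_pt (g : Spec (CommRingCat.of B) ⟶ X) (h : ∀ p, g p ∈ c.W 0) : ∃ φ, g = pt c φ := by
  have h1 : ⊤ ≤ g ⁻¹ᵁ c.W 0 := fun p _ => h p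
  have h2 := IsAffineOpen.SpecMap_appLE_fromSpec g (c.aff 0) (isAffineOpen_top _) h1
  rw [IsAffineOpen.fromSpec_top, Scheme.isoSpec_Spec_inv] at h2
  refine ⟨(g.appLE _ ⊤ h1 ≫ (Scheme.ΓSpecIso (CommRingCat.of B)).hom).hom, ?_⟩
  rw [pt, CommRingCat.ofHom_hom, Spec.map_comp, Category.assoc, h2, ← Category.assoc,
    ← Spec.map_comp, Iso.inv_hom_id, Spec.map_id, Category.id_comp]

theorem pt_s (φ : Γ(X, c.W 0) →+* B) :
    pt c φ ≫ s = spc (φ.comp ((c.e 0).comp MvPolynomial.C)) := by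
  have h2 := IsAffineOpen.SpecMap_appLE_fromSpec s (isAffineOpen_top _) (c.aff 0) le_top
  rw [IsAffineOpen.fromSpec_top, Scheme.isoSpec_Spec_inv] at h2
  rw [pt, Category.assoc, ← h2, ← Spec.map_comp, ← Spec.map_comp, spc]
  congr 1
  ext k
  simp [c.eC]

theorem ev_pt {φ : Γ(X, c.W 0) →+* B} {j : K →+* B} (h : pt c φ ≫ s = spc j)
    (G : MvPolynomial (c.V 0).σ K) :
    φ (c.e 0 G) = G.eval₂ j fun a => φ (c.e 0 (MvPolynomial.X a)) := by
  rw [pt_s] at h
  have h1 : φ.comp ((c.e 0).comp MvPolynomial.C) = j :=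
    congrArg CommRingCat.Hom.hom (Spec.map_injective h)
  rw [← h1]
  exact MvPolynomial.map_mvPolynomial_eq_eval₂ (φ.comp (c.e 0)) G

theorem pt_Pt {φ : Γ(X, c.W 0) →+* B} {j : K →+* B} (h : pt c φ ≫ s = spc j) :
    (c.V 0).Pt j fun a => φ (c.e 0 (MvPolynomial.X a)) := fun k => by
  have h1 : (c.V 0).F k ∈ RingHom.ker (c.e 0) := by
    rw [c.ker]
    exact Ideal.subset_span ⟨k, rfl⟩
  rw [← ev_pt c h, (RingHom.mem_ker).1 h1, map_zero]

theorem pt_ext {φ ψ : Γ(X, c.W 0) →+* B} {j : K →+* B} (h : pt c φ ≫ s = spc j)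
    (h' : pt c ψ ≫ s = spc j)
    (h1 : ∀ a, φ (c.e 0 (MvPolynomial.X a)) = ψ (c.e 0 (MvPolynomial.X a))) : φ = ψ := by
  ext a
  obtain ⟨G, rfl⟩ := c.surj 0 a
  rw [ev_pt c h, ev_pt c h']
  simp only [h1]

theorem ex_of_Pt {j : K →+* B} {x : (c.V 0).σ → B} (h : (c.V 0).Pt j x) :
    ∃ φ : Γ(X, c.W 0) →+* B, pt c φ ≫ s = spc j ∧ ∀ a, φ (c.e 0 (MvPolynomial.X a)) = x a := by
  have h1 : RingHom.ker (c.e 0) ≤ RingHom.ker (MvPolynomial.eval₂Hom j x) := by
    rw [c.ker, Pres.I, Ideal.span_le]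
    rintro _ ⟨k, rfl⟩
    exact h k
  have h2 := (c.e 0).liftOfSurjective_comp_apply (c.surj 0) ⟨_, h1⟩
  refine ⟨(c.e 0).liftOfSurjective (c.surj 0) ⟨_, h1⟩, ?_, fun a => (h2 _).trans (by simp)⟩
  rw [pt_s]
  congr 1
  ext k
  exact (h2 _).trans (by simp)

/-- A curve through two points of the chart, in coordinates. -/
theorem curve {L : Type} [Field L] {j : K →+* L} (g : Spec (CommRingCat.of L[X]) ⟶ X)
    (hg : g ≫ s = spc (C.comp j)) {φ ψ : Γ(X, c.W 0) →+* L}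
    (h0 : spc (evalRingHom 0) ≫ g = pt c φ) (h1 : spc (evalRingHom 1) ≫ g = pt c ψ) :
    ∃ (Den : L[X]) (Num : (c.V 0).σ → L[X]), Den.eval 0 ≠ 0 ∧ Den.eval 1 ≠ 0 ∧
      (∀ a, (Num a).eval 0 = Den.eval 0 * φ (c.e 0 (MvPolynomial.X a)) ∧
        (Num a).eval 1 = Den.eval 1 * ψ (c.e 0 (MvPolynomial.X a))) ∧
      ∀ w, Den.eval w ≠ 0 → (c.V 0).Pt j fun a => (Num a).eval w / Den.eval w := by
  obtain ⟨I, hI⟩ := (PrimeSpectrum.isClosed_iff_zeroLocus_ideal _).1
    (g ⁻¹ᵁ c.W 0).isOpen.isClosed_compl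
  obtain ⟨q, rfl⟩ := (IsPrincipalIdealRing.principal I).principal
  have hq : ∀ p : PrimeSpectrum L[X], g p ∈ c.W 0 ↔ p ∈ PrimeSpectrum.basicOpen q := fun p => by
    have h2 := Set.ext_iff.1 hI p
    rw [Ideal.submodule_span_eq, PrimeSpectrum.zeroLocus_span] at h2
    exact not_iff_not.1 (h2.trans (Set.singleton_subset_iff.trans not_not.symm))
  have hw : ∀ (w : L) (χ : Γ(X, c.W 0) →+* L), spc (evalRingHom w) ≫ g = pt c χ →
      q.eval w ≠ 0 := fun w χ h => by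
    refine (mem_basic (evalRingHom w) q ⊥).1 ((hq _).1 ?_)
    have h2 := pt_mem c χ (⊥ : PrimeSpectrum L)
    rwa [← h] at h2
  obtain ⟨χ, hχ⟩ := ex_pt c (spc (algebraMap L[X] (Localization.Away q)) ≫ g) fun p =>
    (hq _).2 (by
      have h2 := PrimeSpectrum.localization_away_comap_range (Localization.Away q) q
      exact h2.le ⟨p, rfl⟩)
  obtain ⟨b, hb⟩ := IsLocalization.exist_integer_multiples_of_finite (Submonoid.powers q)
    fun a => χ (c.e 0 (MvPolynomial.X a))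
  choose Num hNum using hb
  obtain ⟨b, n, rfl⟩ := b
  have key : ∀ w : L, q.eval w ≠ 0 → ∃ ξ : Γ(X, c.W 0) →+* L,
      spc (evalRingHom w) ≫ g = pt c ξ ∧
        ∀ a, (Num a).eval w = q.eval w ^ n * ξ (c.e 0 (MvPolynomial.X a)) := fun w h => by
    have hu : IsUnit (evalRingHom w q) := h.isUnit
    have h2 := IsLocalization.Away.lift_comp (S := Localization.Away q) q hu
    refine ⟨(IsLocalization.Away.lift q hu).comp χ, ?_, fun a => ?_⟩
    · rw [← spc_pt, ← hχ, ← Category.assoc, spc_comp, h2]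
    · have h3 := congrArg (IsLocalization.Away.lift q hu) (hNum a)
      rw [Algebra.smul_def, map_mul, IsLocalization.Away.lift_eq,
        IsLocalization.Away.lift_eq] at h3
      simpa using h3
  have q0 := hw 0 φ h0
  have q1 := hw 1 ψ h1
  refine ⟨q ^ n * q, fun a => Num a * q, by simp [q0], by simp [q1],
    fun a => ⟨?_, ?_⟩, fun w h => ?_⟩
  · obtain ⟨ξ, h2, h3⟩ := key 0 q0
    rw [eval_mul, h3, pt_inj c (h2.symm.trans h0), eval_mul, eval_pow]
    ring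
  · obtain ⟨ξ, h2, h3⟩ := key 1 q1
    rw [eval_mul, h3, pt_inj c (h2.symm.trans h1), eval_mul, eval_pow]
    ring
  · have h4 : q.eval w ≠ 0 := fun h4 => h (by rw [eval_mul, h4, mul_zero])
    obtain ⟨ξ, h2, h3⟩ := key w h4
    have h5 : pt c ξ ≫ s = spc j := by
      rw [← h2, Category.assoc, hg, spc_comp]
      congr 1
      ext k
      simp
    convert pt_Pt c h5 using 2 with a
    rw [eval_mul, h3, eval_mul, eval_pow]
    field_simp

theorem pair_eq {L : Type} [Field L] {j : K →+* L} {x y : Pts s j}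
    {ζ : Spec (CommRingCat.of L) ⟶ pullback (pullback.fst s s ≫ s) (spc j)}
    (h1 : ζ ≫ pullback.fst _ _ ≫ pullback.fst s s = x.1)
    (h2 : ζ ≫ pullback.fst _ _ ≫ pullback.snd s s = y.1)
    (h3 : ζ ≫ pullback.snd _ _ = 𝟙 _) : pair x y = ζ := by
  unfold MP_daea48_ag.pair
  refine pullback.hom_ext (pullback.hom_ext ?_ ?_) ?_
  · rw [pullback.lift_fst, pullback.lift_fst, Category.assoc, h1]
  · rw [pullback.lift_fst, pullback.lift_snd, Category.assoc, h2]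
  · rw [pullback.lift_snd, h3]

/-- A geometric point of an open subset of the square with both components in the chart. -/
theorem ex_pair [Smooth s] [GeometricallyIntegral s] {L : Type} [Field L] [IsAlgClosed L]
    (j : K →+* L) (W : (pullback (pullback.fst s s ≫ s) (spc j)).Opens) (hW : W ≠ ⊥) :
    ∃ (φ ψ : Γ(X, c.W 0) →+* L) (h : pt c φ ≫ s = spc j) (h' : pt c ψ ≫ s = spc j),
      ⊤ ≤ pair (s := s) ⟨_, h⟩ ⟨_, h'⟩ ⁻¹ᵁ W := by
  have : GeometricallyIrreducible (pullback.fst s s ≫ s) := GeometricallyIrreducible.comp _ _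
  let p₁ := pullback.fst (pullback.fst s s ≫ s) (spc j) ≫ pullback.fst s s
  let p₂ := pullback.fst (pullback.fst s s ≫ s) (spc j) ≫ pullback.snd s s
  have : Surjective (spc j) := ⟨fun x => ⟨(⊥ : PrimeSpectrum L), Subsingleton.elim _ _⟩⟩
  obtain ⟨x₀, hx₀⟩ := c.ne 0
  obtain ⟨z₁, hz₁⟩ := p₁.surjective x₀
  obtain ⟨z₂, hz₂⟩ := p₂.surjective x₀
  have hU₁ := (p₁ ⁻¹ᵁ c.W 0).isOpen
  have hU₂ := (p₂ ⁻¹ᵁ c.W 0).isOpen
  have h1 := nonempty_preirreducible_inter W.isOpen (hU₁.inter hU₂)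
    ((TopologicalSpace.Opens.ne_bot_iff_nonempty W).1 hW)
    (nonempty_preirreducible_inter hU₁ hU₂ ⟨z₁, by simpa [hz₁]⟩ ⟨z₂, by simpa [hz₂]⟩)
  have := LocallyOfFiniteType.jacobsonSpace (pullback.snd (pullback.fst s s ≫ s) (spc j))
  obtain ⟨z, ⟨hz, hz₁, hz₂⟩, hc⟩ := nonempty_inter_closedPoints h1
    (W.isOpen.inter (hU₁.inter hU₂)).isLocallyClosed
  let ζ := pointOfClosedPoint (pullback.snd (pullback.fst s s ≫ s) (spc j)) z hc
  have hζ : ∀ p, ζ p = z := pointOfClosedPoint_apply _ z hc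
  have hs : ζ ≫ pullback.snd _ _ = 𝟙 _ := pointOfClosedPoint_comp _ z hc
  obtain ⟨φ, hφ⟩ := ex_pt c (ζ ≫ p₁) fun p => by
    rw [Scheme.Hom.comp_apply, hζ]
    exact hz₁
  obtain ⟨ψ, hψ⟩ := ex_pt c (ζ ≫ p₂) fun p => by
    rw [Scheme.Hom.comp_apply, hζ]
    exact hz₂
  have h2 : pt c φ ≫ s = spc j := by
    rw [← hφ, Category.assoc, Category.assoc, pullback.condition (g := spc j), reassoc_of% hs]
  have h3 : pt c ψ ≫ s = spc j := by
    rw [← hψ, Category.assoc, Category.assoc, ← pullback.condition (f := s),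
      pullback.condition (g := spc j), reassoc_of% hs]
  refine ⟨φ, ψ, h2, h3, ?_⟩
  have h4 : pair (s := s) ⟨_, h2⟩ ⟨_, h3⟩ = ζ := pair_eq hφ hψ hs
  rw [h4]
  intro p _
  change ζ p ∈ W
  rwa [hζ]

end AtlasB

open AtlasB

theorem AtlasB_of : S_AtlasB := by
  intro K _ X s _ _ c ⟨W, hW, H⟩
  let j := algebraMap K (AlgebraicClosure K)
  let J : Ideal (MvPolynomial ((c.V 0).σ ⊕ (c.V 0).σ) (AlgebraicClosure K)) := Ideal.span
    (Set.range (fun k => ((c.V 0).F k).eval₂ (MvPolynomial.C.comp j)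
      fun a => MvPolynomial.X (Sum.inl a)) ∪
    Set.range fun k => ((c.V 0).F k).eval₂ (MvPolynomial.C.comp j)
      fun a => MvPolynomial.X (Sum.inr a))
  let π := Ideal.Quotient.mk J
  let i := π.comp MvPolynomial.C
  obtain ⟨φ₁, a₁, b₁⟩ := ex_of_Pt c (j := i.comp j) (x := fun a => π (MvPolynomial.X (Sum.inl a)))
    fun k => by
      have h := MvPolynomial.eval₂_comp_left π (MvPolynomial.C.comp j)
        (fun a => MvPolynomial.X (Sum.inl a)) ((c.V 0).F k)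
      exact h.symm.trans (Ideal.Quotient.eq_zero_iff_mem.2 (Ideal.subset_span (Or.inl ⟨k, rfl⟩)))
  obtain ⟨φ₂, a₂, b₂⟩ := ex_of_Pt c (j := i.comp j) (x := fun a => π (MvPolynomial.X (Sum.inr a)))
    fun k => by
      have h := MvPolynomial.eval₂_comp_left π (MvPolynomial.C.comp j)
        (fun a => MvPolynomial.X (Sum.inr a)) ((c.V 0).F k)
      exact h.symm.trans (Ideal.Quotient.eq_zero_iff_mem.2 (Ideal.subset_span (Or.inr ⟨k, rfl⟩)))
  let m : Spec (CommRingCat.of (_ ⧸ J)) ⟶ pullback (pullback.fst s s ≫ s) (spc j) :=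
    pullback.lift (pullback.lift (pt c φ₁) (pt c φ₂) (a₁.trans a₂.symm)) (spc i) (by
      rw [pullback.lift_fst_assoc, a₁, spc_comp])
  have key : ∀ (φ ψ : Γ(X, c.W 0) →+* AlgebraicClosure K) (h : pt c φ ≫ s = spc j)
      (h' : pt c ψ ≫ s = spc j), ∃ ε : (_ ⧸ J) →+* AlgebraicClosure K,
      pair (s := s) ⟨_, h⟩ ⟨_, h'⟩ = spc ε ≫ m ∧ ∀ G, ε (π G) = MvPolynomial.eval
        (Sum.elim (fun a => φ (c.e 0 (MvPolynomial.X a)))
          fun a => ψ (c.e 0 (MvPolynomial.X a))) G := by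
    intro φ ψ h h'
    let E := MvPolynomial.eval (Sum.elim (fun a => φ (c.e 0 (MvPolynomial.X a)))
      fun a => ψ (c.e 0 (MvPolynomial.X a)))
    have hC : E.comp (MvPolynomial.C.comp j) = j := by
      ext k
      simp [E]
    have hJ : J ≤ RingHom.ker E := by
      rw [Ideal.span_le]
      rintro _ (⟨k, rfl⟩ | ⟨k, rfl⟩)
      · refine (MvPolynomial.eval₂_comp_left E _ _ _).trans ?_
        rw [hC, ← pt_Pt c h k]
        congr 1
        ext a
        simp [E]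
      · refine (MvPolynomial.eval₂_comp_left E _ _ _).trans ?_
        rw [hC, ← pt_Pt c h' k]
        congr 1
        ext a
        simp [E]
    let ε := Ideal.Quotient.lift J E hJ
    have hε : ∀ G, ε (π G) = E G := fun G => rfl
    have hi : ε.comp i = RingHom.id _ := by
      ext k
      exact (hε _).trans (by simp [E])
    have h1 : ∀ χ, pt c χ ≫ s = spc (i.comp j) → pt c (ε.comp χ) ≫ s = spc j := fun χ hχ => by
      rw [← spc_pt, Category.assoc, hχ, spc_comp, ← RingHom.comp_assoc, hi, RingHom.id_comp]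
    have h2 : φ = ε.comp φ₁ := pt_ext c h (h1 _ a₁) fun a => by
      rw [RingHom.comp_apply, b₁, hε]
      simp [E]
    have h3 : ψ = ε.comp φ₂ := pt_ext c h' (h1 _ a₂) fun a => by
      rw [RingHom.comp_apply, b₂, hε]
      simp [E]
    refine ⟨ε, pair_eq ?_ ?_ ?_, hε⟩
    · rw [Category.assoc, pullback.lift_fst_assoc, pullback.lift_fst, spc_pt, ← h2]
    · rw [Category.assoc, pullback.lift_fst_assoc, pullback.lift_snd, spc_pt, ← h3]
    · rw [Category.assoc, pullback.lift_snd, spc_comp, hi, spc_id]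
  obtain ⟨φ, ψ, h, h', hp⟩ := ex_pair c j W hW
  obtain ⟨ε, hε, hE⟩ := key φ ψ h h'
  have h1 : PrimeSpectrum.comap ε ⊥ ∈ m ⁻¹ᵁ W := by
    rw [hε] at hp
    exact hp (x := (⊥ : PrimeSpectrum (AlgebraicClosure K))) trivial
  obtain ⟨_, ⟨d, rfl⟩, h2, h3⟩ :=
    PrimeSpectrum.isTopologicalBasis_basic_opens.exists_subset_of_mem_open h1 (m ⁻¹ᵁ W).isOpen
  obtain ⟨d, rfl⟩ := Ideal.Quotient.mk_surjective d
  refine ⟨d, ⟨_, _, pt_Pt c h, pt_Pt c h', hE d ▸ (mem_basic ε _ ⊥).1 h2⟩, fun x y hx hy hd => ?_⟩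
  obtain ⟨φ, h, hx⟩ := ex_of_Pt c hx
  obtain ⟨ψ, h', hy⟩ := ex_of_Pt c hy
  obtain ⟨ε, hε, hE⟩ := key φ ψ h h'
  obtain rfl := funext hx
  obtain rfl := funext hy
  obtain ⟨g, hg, h0, h1⟩ := H ⟨_, h⟩ ⟨_, h'⟩ (by
    rw [hε]
    intro p _
    exact h3 ((mem_basic ε _ p).2 (hE d ▸ hd)))
  exact curve c g hg h0 h1

end

end Pool.Agent.P.MP_daea48_ag
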