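import Pool.Agent.P.MP_daea48_ag.StK

/-! From weak approximation in coordinates to weak approximation on the scheme. -/

open Set Filter Topology CategoryTheory AlgebraicGeometry

namespace Pool.Agent.P.MP_daea48_ag

noncomputable section

namespace AtlasC

variable {X : Scheme.{0}}

/-- evaluation of functions at a point with values in a ring -/
def val {R : CommRingCat.{0}} (x : Spec R ⟶ X) (V : X.Opens) (h : ⊤ ≤ x ⁻¹ᵁ V) : Γ(X, V) ⟶ R :=
  x.appLE V ⊤ h ≫ (Scheme.ΓSpecIso R).hom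

theorem map_val {R : CommRingCat.{0}} (x : Spec R ⟶ X) {W : X.Opens} (hW : IsAffineOpen W)
    (h : ⊤ ≤ x ⁻¹ᵁ W) : Spec.map (val x W h) ≫ hW.fromSpec = x := by
  rw [val, Spec.map_comp, Category.assoc,
    IsAffineOpen.SpecMap_appLE_fromSpec x hW (isAffineOpen_top _) h, IsAffineOpen.fromSpec_top,
    Scheme.isoSpec_Spec_inv, ← Spec.map_comp_assoc, Iso.inv_hom_id, Spec.map_id, Category.id_comp]

theorem le_pre {R : CommRingCat.{0}} {W : X.Opens} (hW : IsAffineOpen W) (ψ : Γ(X, W) ⟶ R) :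
    ⊤ ≤ (Spec.map ψ ≫ hW.fromSpec) ⁻¹ᵁ W := by
  rw [Scheme.Hom.comp_preimage, hW.fromSpec_preimage_self]
  exact le_rfl

theorem val_map {R : CommRingCat.{0}} {W : X.Opens} (hW : IsAffineOpen W) (ψ : Γ(X, W) ⟶ R)
    {x : Spec R ⟶ X} (e : x = Spec.map ψ ≫ hW.fromSpec) :
    ∃ h : ⊤ ≤ x ⁻¹ᵁ W, val x W h = ψ := by
  subst e
  exact ⟨le_pre hW ψ, Spec.map_injective ((cancel_mono hW.fromSpec).1 (map_val _ hW _))⟩

theorem res_val {R : CommRingCat.{0}} (x : Spec R ⟶ X) {V V' : X.Opens} (i : V' ≤ V)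
    (h : ⊤ ≤ x ⁻¹ᵁ V') (h' : ⊤ ≤ x ⁻¹ᵁ V) (f : Γ(X, V)) :
    (val x V' h).hom ((X.presheaf.map (homOfLE i).op).hom f) = (val x V h').hom f := by
  rw [← CommRingCat.comp_apply, val, Scheme.Hom.map_appLE_assoc]
  rfl

theorem le_basic {R : CommRingCat.{0}} (x : Spec R ⟶ X) {W : X.Opens} (h : ⊤ ≤ x ⁻¹ᵁ W)
    (a : Γ(X, W)) (ha : IsUnit ((val x W h).hom a)) : ⊤ ≤ x ⁻¹ᵁ X.basicOpen a := by
  have h1 : IsUnit ((x.appLE W ⊤ h).hom a) := by
    have := ha.map (Scheme.ΓSpecIso R).inv.hom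
    rwa [← CommRingCat.comp_apply, val, Category.assoc, Iso.hom_inv_id, Category.comp_id] at this
  have h2 := Scheme.basicOpen_appLE x ⊤ W h a
  rw [Scheme.basicOpen_of_isUnit _ h1] at h2
  rw [h2]
  exact inf_le_right

variable {K : Type} [Field K] {s : X ⟶ Spec (CommRingCat.of K)}

/-- the structure map on sections -/
def cK (s : X ⟶ Spec (CommRingCat.of K)) (W : X.Opens) : CommRingCat.of K ⟶ Γ(X, W) :=
  (Scheme.ΓSpecIso (CommRingCat.of K)).inv ≫ s.appLE ⊤ W le_top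

theorem fromSpec_s {W : X.Opens} (hW : IsAffineOpen W) : hW.fromSpec ≫ s = Spec.map (cK s W) := by
  rw [cK, Spec.map_comp, ← IsAffineOpen.SpecMap_appLE_fromSpec s (isAffineOpen_top _) hW le_top,
    IsAffineOpen.fromSpec_top, Scheme.isoSpec_Spec_inv]

/-- the point `x` lies in chart `i` and has coordinates `y` -/
def Crd (c : SCover s) {L : Type} [Field L] (ι : K →+* L) (x : Spec (CommRingCat.of L) ⟶ X)
    (i : Fin (c.m + 1)) (y : (c.V i).σ → L) : Prop :=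
  ∃ h : ⊤ ≤ x ⁻¹ᵁ c.W i, ∀ G, (val x (c.W i) h).hom (c.e i G) = MvPolynomial.eval₂ ι y G

theorem crd_of (c : SCover s) {L : Type} [Field L] {ι : K →+* L} {x : Spec (CommRingCat.of L) ⟶ X}
    (hx : x ≫ s = spc ι) {i : Fin (c.m + 1)} (h : ⊤ ≤ x ⁻¹ᵁ c.W i) :
    Crd c ι x i fun a => (val x (c.W i) h).hom (c.e i (MvPolynomial.X a)) := by
  have h1 : cK s (c.W i) ≫ val x (c.W i) h = CommRingCat.ofHom ι := by
    apply Spec.map_injective
    rw [Spec.map_comp, ← fromSpec_s (c.aff i), ← Category.assoc, map_val, hx, spc]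
  refine ⟨h, fun G => ?_⟩
  induction G using MvPolynomial.induction_on with
  | C k =>
    rw [c.eC, MvPolynomial.eval₂_C]
    exact congrArg (fun φ : CommRingCat.of K ⟶ CommRingCat.of L => φ.hom k) h1
  | add p q hp hq => rw [map_add, map_add, hp, hq, MvPolynomial.eval₂_add]
  | mul_X p a hp => rw [map_mul, map_mul, hp, MvPolynomial.eval₂_mul, MvPolynomial.eval₂_X]

theorem top_le_iff {L : Type} [Field L] (x : Spec (CommRingCat.of L) ⟶ X) (V : X.Opens)
    (p : Spec (CommRingCat.of L)) : ⊤ ≤ x ⁻¹ᵁ V ↔ x p ∈ V := by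
  refine ⟨fun h => h (trivial : p ∈ (⊤ : (Spec (CommRingCat.of L)).Opens)), fun h q _ => ?_⟩
  obtain rfl : q = p := Subsingleton.elim (α := PrimeSpectrum L) q p
  exact h

theorem exists_crd (c : SCover s) {L : Type} [Field L] {ι : K →+* L} (x : Pts s ι) :
    ∃ i y, Crd c ι x.1 i y ∧ (c.V i).Pt ι y := by
  obtain ⟨p⟩ : Nonempty (Spec (CommRingCat.of L)) := inferInstance
  have h : x.1 p ∈ ⨆ i, c.W i := by rw [c.cov]; trivial
  obtain ⟨i, hi⟩ := TopologicalSpace.Opens.mem_iSup.1 h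
  have h2 := crd_of c x.2 ((top_le_iff x.1 _ p).2 hi)
  refine ⟨i, _, h2, fun k => ?_⟩
  obtain ⟨h3, h4⟩ := h2
  have h5 : c.e i ((c.V i).F k) = 0 := by
    rw [← RingHom.mem_ker, c.ker]
    exact Ideal.subset_span ⟨k, rfl⟩
  rw [← h4, h5, map_zero]

theorem cont_eval {L σ : Type} [Field L] [TopologicalSpace L] [IsTopologicalRing L] (ι : K →+* L)
    (G : MvPolynomial σ K) : Continuous fun y : σ → L => MvPolynomial.eval₂ ι y G := by
  simpa only [MvPolynomial.eval_map] using MvPolynomial.continuous_eval (MvPolynomial.map ι G)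

theorem nhd (c : SCover s) {L : Type} [Field L] [TopologicalSpace L] [IsTopologicalDivisionRing L]
    [T1Space L] {ι : K →+* L} {x : Pts s ι} {i : Fin (c.m + 1)} {η : (c.V i).σ → L}
    (hx : Crd c ι x.1 i η) {T : Set (Pts s ι)} (hT : T ∈ 𝓝 x) :
    ∃ N ∈ 𝓝 η, ∀ (x' : Pts s ι) (y : (c.V i).σ → L), Crd c ι x'.1 i y → y ∈ N → x' ∈ T := by
  have key : Tendsto (fun p : {p : Pts s ι × ((c.V i).σ → L) // Crd c ι p.1.1 i p.2} => p.1.1)
      (Filter.comap (fun p => p.1.2) (𝓝 η)) (𝓝 x) := by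
    refine TopologicalSpace.tendsto_nhds_generateFrom_iff.2 ?_
    rintro _ ⟨V, f, O, hO, rfl⟩ ⟨hV, hf⟩
    obtain ⟨hW, hη⟩ := hx
    obtain ⟨p⟩ : Nonempty (Spec (CommRingCat.of L)) := inferInstance
    obtain ⟨a, ha1, ha2⟩ := (c.aff i).exists_basicOpen_le (V := V)
      ⟨x.1 p, (top_le_iff x.1 _ p).1 hV⟩ ((top_le_iff x.1 _ p).1 hW)
    have hloc := (c.aff i).isLocalization_basicOpen a
    obtain ⟨n, b, hb⟩ := IsLocalization.Away.surj a ((X.presheaf.map (homOfLE ha1).op).hom f)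
    obtain ⟨A, rfl⟩ := c.surj i a
    obtain ⟨B, rfl⟩ := c.surj i b
    have hv : ∀ (x' : Pts s ι) (y : (c.V i).σ → L), Crd c ι x'.1 i y →
        ⊤ ≤ x'.1 ⁻¹ᵁ X.basicOpen (c.e i A) → MvPolynomial.eval₂ ι y A ≠ 0 ∧
        ∃ h : ⊤ ≤ x'.1 ⁻¹ᵁ V, value x'.1 V h f =
          MvPolynomial.eval₂ ι y B / MvPolynomial.eval₂ ι y A ^ n := by
      rintro x' y ⟨h1, h2⟩ h3
      have h4 : ⊤ ≤ x'.1 ⁻¹ᵁ V := fun q hq => ha1 (h3 hq)
      have h5 : ∀ g : Γ(X, c.W i), (val x'.1 _ h3).hom (algebraMap _ _ g) = (val x'.1 _ h1).hom g :=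
        fun g => res_val x'.1 (X.basicOpen_le _) h3 h1 g
      have h6 : MvPolynomial.eval₂ ι y A ≠ 0 := by
        rw [← h2, ← h5]
        exact ((IsLocalization.Away.algebraMap_isUnit (c.e i A)).map _).ne_zero
      refine ⟨h6, h4, ?_⟩
      have h7 := congrArg (val x'.1 _ h3).hom hb
      rw [map_mul, map_pow, h5, h5, h2, h2, res_val x'.1 ha1 h3 h4] at h7
      rw [eq_div_iff (pow_ne_zero n h6)]
      exact h7
    obtain ⟨h1, h2, h3⟩ := hv x η ⟨hW, hη⟩ ((top_le_iff x.1 _ p).2 ha2)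
    have h4 : ContinuousAt (fun y : (c.V i).σ → L =>
        MvPolynomial.eval₂ ι y B / MvPolynomial.eval₂ ι y A ^ n) η :=
      (cont_eval ι B).continuousAt.div ((cont_eval ι A).continuousAt.pow n) (pow_ne_zero n h1)
    have h5 := h4.preimage_mem_nhds (hO.mem_nhds (h3 ▸ hf))
    have h6 := (cont_eval ι A).continuousAt.eventually_ne h1
    refine Filter.mem_comap.2 ⟨_, inter_mem h5 h6, ?_⟩
    rintro ⟨⟨x', y⟩, h7⟩ ⟨h8, h9⟩
    obtain ⟨h10, h11⟩ := id h7
    obtain ⟨-, h12, h13⟩ := hv x' y h7 (le_basic _ h10 _ (by rw [h11]; exact Ne.isUnit h9))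
    exact ⟨h12, h13 ▸ h8⟩
  obtain ⟨N, hN, h⟩ := Filter.mem_comap.1 (Filter.mem_map.1 (key hT))
  exact ⟨N, hN, fun x' y h1 h2 => h (a := ⟨(x', y), h1⟩) h2⟩

theorem Crd.res {c : SCover s} {L : Type} [Field L] (ι : K →+* L) {x : Pts s (RingHom.id K)}
    {i : Fin (c.m + 1)} {y : (c.V i).σ → K} (h : Crd c (RingHom.id K) x.1 i y) :
    Crd c ι (x.res ι).1 i fun a => ι (y a) := by
  obtain ⟨h1, h2⟩ := h
  obtain ⟨h3, h4⟩ := val_map (c.aff i) (val x.1 _ h1 ≫ CommRingCat.ofHom ι) (x := (x.res ι).1) (by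
    rw [Spec.map_comp, Category.assoc, map_val]; rfl)
  refine ⟨h3, fun G => ?_⟩
  rw [h4, CommRingCat.comp_apply]
  erw [h2]
  exact (MvPolynomial.eval₂_comp_left ι (RingHom.id K) y G)

theorem common [IsIntegral X] [IsSeparated s] (c : SCover s) {x : ∀ i, (c.V i).σ → K}
    (h : CommonPt c.jF c.g x) : ∃ P : Pts s (RingHom.id K), ∀ i, Crd c (RingHom.id K) P.1 i (x i) := by
  obtain ⟨C, χ, h1, h2⟩ := h
  have hsep : X.IsSeparated := ⟨by rw [← Limits.terminal.comp_from s]; infer_instance⟩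
  let γ : ∀ i, Γ(X, c.W i) ⟶ X.functionField := fun i =>
    haveI := c.ne i
    X.germToFunctionField (c.W i)
  have hγ : ∀ i, Spec.map (γ i) ≫ (c.aff i).fromSpec = X.fromSpecStalk (genericPoint X) := fun i =>
    (c.aff i).fromSpecStalk_eq_fromSpecStalk _
  have hK : ∀ i k, (γ i).hom (c.e i (MvPolynomial.C k)) = c.jF k := fun i k => by
    have : cK s (c.W i) ≫ γ i = cK s (c.W 0) ≫ γ 0 := by
      apply Spec.map_injective
      rw [Spec.map_comp, Spec.map_comp, ← fromSpec_s (c.aff i), ← fromSpec_s (c.aff 0),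
        ← Category.assoc, ← Category.assoc, hγ, hγ]
    have h3 := congrArg (fun φ : CommRingCat.of K ⟶ X.functionField => φ.hom k) this
    change _ = (γ 0).hom (c.e 0 (MvPolynomial.C k))
    rw [c.eC, c.eC]
    exact h3
  have hG : ∀ i G, ∃ h : (γ i).hom (c.e i G) ∈ C,
      χ ⟨_, h⟩ = MvPolynomial.eval₂ (RingHom.id K) (x i) G := fun i G => by
    induction G using MvPolynomial.induction_on with
    | C k => simpa only [hK, MvPolynomial.eval₂_C, RingHom.id_apply] using h1 k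
    | add p q hp hq =>
      obtain ⟨a1, a2⟩ := hp
      obtain ⟨b1, b2⟩ := hq
      simp only [map_add, MvPolynomial.eval₂_add]
      exact ⟨C.add_mem a1 b1, by rw [← a2, ← b2]; exact χ.map_add ⟨_, a1⟩ ⟨_, b1⟩⟩
    | mul_X p a hp =>
      obtain ⟨a1, a2⟩ := hp
      obtain ⟨b1, b2⟩ := h2 i a
      simp only [map_mul, MvPolynomial.eval₂_mul, MvPolynomial.eval₂_X]
      exact ⟨C.mul_mem a1 b1, by rw [← a2, ← b2]; exact χ.map_mul ⟨_, a1⟩ ⟨_, b1⟩⟩
  have hC : ∀ i f, (γ i).hom f ∈ C := fun i f => by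
    obtain ⟨G, rfl⟩ := c.surj i f
    exact (hG i G).1
  let φ : ∀ i, Γ(X, c.W i) ⟶ CommRingCat.of C := fun i =>
    CommRingCat.ofHom ((γ i).hom.codRestrict C (hC i))
  let j : CommRingCat.of C ⟶ X.functionField := CommRingCat.ofHom C.subtype
  have hj : IsDominant (Spec.map j) := ⟨(PrimeSpectrum.denseRange_comap_iff_ker_le_nilRadical
    C.subtype).2 (by rw [(RingHom.injective_iff_ker_eq_bot _).1 C.subtype_injective]; exact bot_le)⟩
  have he : ∀ i, Spec.map (φ 0) ≫ (c.aff 0).fromSpec = Spec.map (φ i) ≫ (c.aff i).fromSpec :=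
    fun i => ext_of_isDominant (Spec.map j) (by
      rw [← Spec.map_comp_assoc, ← Spec.map_comp_assoc]
      exact (hγ 0).trans (hγ i).symm)
  let P : Spec (CommRingCat.of K) ⟶ X := Spec.map (φ 0 ≫ CommRingCat.ofHom χ) ≫ (c.aff 0).fromSpec
  refine ⟨⟨P, ?_⟩, fun i => ?_⟩
  · rw [Category.assoc, fromSpec_s, ← Spec.map_comp, spc]
    congr 1
    ext k
    obtain ⟨h3, h4⟩ := hG 0 (MvPolynomial.C k)
    rw [MvPolynomial.eval₂_C] at h4
    refine Eq.trans ?_ h4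
    simp only [c.eC]
    rfl
  · obtain ⟨h3, h4⟩ := val_map (c.aff i) (φ i ≫ CommRingCat.ofHom χ) (x := P) (by
      simp only [P, Spec.map_comp, Category.assoc, he i])
    refine ⟨h3, fun G => ?_⟩
    rw [h4]
    exact (hG i G).2

end AtlasC

open AtlasC

theorem AtlasC_of : S_AtlasC := by
  intro K _ _ X _ s _ c H
  constructor
  · obtain ⟨x, hx, -⟩ := H ∅ (by simp) (fun v => absurd v.2 (Finset.notMem_empty _))
      (fun v => absurd v.2 (Finset.notMem_empty _)) (fun v => absurd v.2 (Finset.notMem_empty _))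
      fun v => absurd v.2 (Finset.notMem_empty _)
    obtain ⟨P, -⟩ := common c hx
    exact ⟨P⟩
  · intro S hS z
    refine mem_closure_iff_nhds.2 fun t ht => ?_
    rw [nhds_pi, Filter.mem_pi] at ht
    obtain ⟨I, -, T, hT, h1⟩ := ht
    choose i η h2 h3 using fun v : S => exists_crd c (z v)
    choose N hN h4 using fun v : S => nhd c (h2 v) (hT v)
    obtain ⟨x, hx, h5⟩ := H S hS i η N fun v => ⟨h3 v, hN v⟩
    obtain ⟨P, hP⟩ := common c hx
    exact ⟨_, h1 fun v _ => h4 v _ _ ((hP (i v)).res (toCpl v.1)) (h5 v), P, rfl⟩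

end

end Pool.Agent.P.MP_daea48_ag
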