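import Pool.Agent.P.MP_daea48_ag.Defs

/-! Basic library 1: tame maps, removable singularities, `AC`, `MF`, iteration. -/

open Set Filter Topology Metric Polynomial Asymptotics

namespace Pool.Agent.P.MP_daea48_ag

noncomputable section

section
variable {X Y Z : Type} [NormedAddCommGroup X] [NormedSpace ℂ X] [NormedAddCommGroup Y]
  [NormedSpace ℂ Y] [NormedAddCommGroup Z] [NormedSpace ℂ Z]

scoped instance (priority := 50) fdProper [FiniteDimensional ℂ X] : ProperSpace X :=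
  FiniteDimensional.proper ℂ X

scoped instance (priority := 50) fdComplete [FiniteDimensional ℂ X] : CompleteSpace X :=
  FiniteDimensional.complete ℂ X

omit [NormedSpace ℂ X] in
theorem one_le_opn (x : X) : (1 : ℝ) ≤ 1 + ‖x‖ := by linarith [norm_nonneg x]

omit [NormedSpace ℂ X] in
theorem opn_pos (x : X) : (0 : ℝ) < 1 + ‖x‖ := by linarith [norm_nonneg x]

/-- The growth bound with a constant at least one. -/
theorem Tame.bound {f : X → Y} (hf : Tame f) :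
    ∃ (C : ℝ) (A : ℕ), 1 ≤ C ∧ ∀ x, ‖f x‖ ≤ C * (1 + ‖x‖) ^ A := by
  obtain ⟨C, A, h⟩ := hf.2
  refine ⟨max C 1, A, le_max_right _ _, fun x => (h x).trans ?_⟩
  have := pow_pos (opn_pos x) A
  gcongr; exact le_max_left _ _

theorem Tame.continuous {f : X → Y} (hf : Tame f) : Continuous f := hf.1.continuous

theorem Tame.const (y : Y) : Tame fun _ : X => y :=
  ⟨differentiable_const y, ‖y‖, 0, fun _ => by simp⟩

theorem Tame.clm (f : X →L[ℂ] Y) : Tame f :=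
  ⟨f.differentiable, ‖f‖, 1, fun x => by
    have := f.le_opNorm x
    have := norm_nonneg f
    nlinarith [norm_nonneg x]⟩

theorem Tame.id' : Tame fun x : X => x := Tame.clm (ContinuousLinearMap.id ℂ X)

theorem Tame.comp {g : Y → Z} {f : X → Y} (hg : Tame g) (hf : Tame f) : Tame fun x => g (f x) := by
  obtain ⟨C, A, hC, h⟩ := hf.bound
  obtain ⟨D, B, hD, h'⟩ := hg.bound
  refine ⟨hg.1.comp hf.1, D * (2 * C) ^ B, A * B, fun x => (h' _).trans ?_⟩
  have h1 : (1 : ℝ) ≤ (1 + ‖x‖) ^ A := one_le_pow₀ (one_le_opn x)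
  have h2 : 1 + ‖f x‖ ≤ 2 * C * (1 + ‖x‖) ^ A := by nlinarith [h x]
  calc D * (1 + ‖f x‖) ^ B ≤ D * (2 * C * (1 + ‖x‖) ^ A) ^ B := by gcongr
    _ = _ := by rw [mul_pow, ← pow_mul]; ring

theorem Tame.fst {f : X → Y × Z} (hf : Tame f) : Tame fun x => (f x).1 :=
  (Tame.clm (ContinuousLinearMap.fst ℂ Y Z)).comp hf

theorem Tame.snd {f : X → Y × Z} (hf : Tame f) : Tame fun x => (f x).2 :=
  (Tame.clm (ContinuousLinearMap.snd ℂ Y Z)).comp hf

theorem Tame.fst' : Tame fun x : X × Y => x.1 := Tame.id'.fst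

theorem Tame.snd' : Tame fun x : X × Y => x.2 := Tame.id'.snd

theorem Tame.prodMk {f : X → Y} {g : X → Z} (hf : Tame f) (hg : Tame g) :
    Tame fun x => (f x, g x) := by
  obtain ⟨C, A, hC, h⟩ := hf.bound
  obtain ⟨D, B, hD, h'⟩ := hg.bound
  refine ⟨hf.1.prodMk hg.1, C + D, A + B, fun x => ?_⟩
  have h1 : (1 + ‖x‖) ^ A ≤ (1 + ‖x‖) ^ (A + B) := pow_le_pow_right₀ (one_le_opn x) (by omega)
  have h2 : (1 + ‖x‖) ^ B ≤ (1 + ‖x‖) ^ (A + B) := pow_le_pow_right₀ (one_le_opn x) (by omega)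
  have h3 := pow_pos (opn_pos x) (A + B)
  rw [Prod.norm_mk]
  refine max_le ?_ ?_
  · nlinarith [h x]
  · nlinarith [h' x]

theorem Tame.add {f g : X → Y} (hf : Tame f) (hg : Tame g) : Tame fun x => f x + g x :=
  (Tame.clm (ContinuousLinearMap.fst ℂ Y Y + ContinuousLinearMap.snd ℂ Y Y)).comp (hf.prodMk hg)

theorem Tame.sub {f g : X → Y} (hf : Tame f) (hg : Tame g) : Tame fun x => f x - g x :=
  (Tame.clm (ContinuousLinearMap.fst ℂ Y Y - ContinuousLinearMap.snd ℂ Y Y)).comp (hf.prodMk hg)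

theorem Tame.neg {f : X → Y} (hf : Tame f) : Tame fun x => -f x :=
  (Tame.clm (-ContinuousLinearMap.id ℂ Y)).comp hf

theorem Tame.smul {f : X → ℂ} {g : X → Y} (hf : Tame f) (hg : Tame g) :
    Tame fun x => f x • g x := by
  obtain ⟨C, A, hC, h⟩ := hf.bound
  obtain ⟨D, B, hD, h'⟩ := hg.bound
  refine ⟨hf.1.smul hg.1, C * D, A + B, fun x => ?_⟩
  rw [norm_smul, pow_add]
  calc ‖f x‖ * ‖g x‖ ≤ (C * (1 + ‖x‖) ^ A) * (D * (1 + ‖x‖) ^ B) :=
        mul_le_mul (h x) (h' x) (norm_nonneg _) ((norm_nonneg _).trans (h x))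
    _ = _ := by ring

theorem Tame.mul {f g : X → ℂ} (hf : Tame f) (hg : Tame g) : Tame fun x => f x * g x :=
  hf.smul hg

theorem Tame.pow {f : X → ℂ} (hf : Tame f) (n : ℕ) : Tame fun x => f x ^ n := by
  induction n with
  | zero => simpa using Tame.const (X := X) (1 : ℂ)
  | succ n ih => simpa [pow_succ] using ih.mul hf

theorem Tame.sum {ι : Type} (s : Finset ι) {f : ι → X → Y} (hf : ∀ i ∈ s, Tame (f i)) :
    Tame fun x => ∑ i ∈ s, f i x := by
  classical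
  induction s using Finset.induction_on with
  | empty => simpa using Tame.const (X := X) (0 : Y)
  | insert a s ha ih =>
    simp only [Finset.sum_insert ha]
    exact (hf a (by simp)).add (ih fun i hi => hf i (by simp [hi]))

theorem Tame.apply {ι : Type} [Fintype ι] {f : X → ι → Y} (hf : Tame f) (i : ι) :
    Tame fun x => f x i :=
  (Tame.clm (ContinuousLinearMap.proj (R := ℂ) (φ := fun _ : ι => Y) i)).comp hf

theorem Tame.pi {ι : Type} [Fintype ι] {f : X → ι → Y} (hf : ∀ i, Tame fun x => f x i) :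
    Tame f := by
  classical
  have : f = fun x => ∑ i, (ContinuousLinearMap.single ℂ (fun _ : ι => Y) i) (f x i) := by
    funext x; simp [Finset.univ_sum_single]
  rw [this]
  exact Tame.sum _ fun i _ => (Tame.clm _).comp (hf i)

theorem Tame.polyEval {f : X → ℂ} (hf : Tame f) (q : ℂ[X]) : Tame fun x => q.eval (f x) := by
  simp only [Polynomial.eval_eq_sum_range]
  exact Tame.sum _ fun i _ => (Tame.const _).mul (hf.pow i)

theorem Tame.evalEval {f g : X → ℂ} (hf : Tame f) (hg : Tame g) (Q : ℂ[X][X]) :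
    Tame fun x => Q.evalEval (f x) (g x) := by
  have : (fun x => Q.evalEval (f x) (g x)) =
      fun x => ∑ i ∈ Finset.range (Q.natDegree + 1), (Q.coeff i).eval (f x) * g x ^ i := by
    funext x
    rw [Polynomial.evalEval, Polynomial.eval_eq_sum_range (p := Q), Polynomial.eval_finsetSum]
    simp
  rw [this]
  exact Tame.sum _ fun i _ => (hf.polyEval _).mul (hg.pow i)

theorem Tame.mvEval {σ : Type} {f : X → σ → ℂ} (hf : ∀ s, Tame fun x => f x s)
    (G : MvPolynomial σ ℂ) : Tame fun x => MvPolynomial.eval (f x) G := by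
  induction G using MvPolynomial.induction_on with
  | C a => simpa using Tame.const (X := X) a
  | add p q hp hq => simpa using hp.add hq
  | mul_X p s hp => simpa using hp.mul (hf s)

/-- A differentiable map composed with an analytic curve is analytic. -/
theorem an_comp [CompleteSpace X] [CompleteSpace Y] {f : X → Y} {γ : ℂ → X} {l : ℂ}
    (hf : ∀ᶠ x in 𝓝 (γ l), DifferentiableAt ℂ f x) (hγ : AnalyticAt ℂ γ l) :
    AnalyticAt ℂ (fun x => f (γ x)) l := by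
  rw [Complex.analyticAt_iff_eventually_differentiableAt]
  filter_upwards [hγ.continuousAt.eventually hf, hγ.eventually_analyticAt] with x h1 h2
  exact h1.comp x h2.differentiableAt

theorem diff_an_comp [CompleteSpace X] [CompleteSpace Y] {f : X → Y} {γ : ℂ → X} {l : ℂ}
    (hf : Differentiable ℂ f) (hγ : AnalyticAt ℂ γ l) : AnalyticAt ℂ (fun x => f (γ x)) l :=
  an_comp (Eventually.of_forall hf) hγ

/-- Schwarz estimate along a complex line. -/
theorem line_lip [CompleteSpace Y] {g : ℂ → Y} {r M : ℝ} (hg : DifferentiableOn ℂ g (ball 0 r))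
    (hM : ∀ l ∈ ball (0 : ℂ) r, ‖g l‖ ≤ M) {l : ℂ} (hl : ‖l‖ < r) :
    ‖g l - g 0‖ ≤ 2 * M / r * ‖l‖ := by
  have hr : 0 < r := (norm_nonneg l).trans_lt hl
  have h0 := hM 0 (mem_ball_self hr)
  have hmaps : MapsTo g (ball 0 r) (closedBall (g 0) (2 * M)) := fun x hx => by
    rw [mem_closedBall, dist_eq_norm]
    linarith [norm_sub_le (g x) (g 0), hM x hx]
  have := Complex.dist_le_div_mul_dist_of_mapsTo_ball hg hmaps (z := l) (by simpa using hl)
  simpa [dist_eq_norm] using this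

/-- Tempered Lipschitz bound. -/
theorem Tame.lip [CompleteSpace Y] {f : X → Y} (hf : Tame f) :
    ∃ (C : ℝ) (A : ℕ), 1 ≤ C ∧ ∀ x y, ‖y - x‖ ≤ 1 →
      ‖f y - f x‖ ≤ C * (1 + ‖x‖) ^ A * ‖y - x‖ := by
  obtain ⟨C, A, hC, h⟩ := hf.bound
  refine ⟨C * 3 ^ A, A, one_le_mul_of_one_le_of_one_le hC (one_le_pow₀ (by norm_num)),
    fun x y hxy => ?_⟩
  by_cases h0 : y = x
  · simp [h0]
  have hn : 0 < ‖y - x‖ := norm_pos_iff.2 (sub_ne_zero.2 h0)
  set v : X := ((‖y - x‖ : ℂ))⁻¹ • (y - x) with hv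
  have hv1 : ‖v‖ = 1 := by
    rw [hv, norm_smul, norm_inv, Complex.norm_real, Real.norm_eq_abs, abs_of_pos hn]
    field_simp
  have key := line_lip (g := fun l : ℂ => f (x + l • v)) (r := 2) (M := C * 3 ^ A * (1 + ‖x‖) ^ A)
    ((hf.1.comp (by fun_prop)).differentiableOn) (fun l hl => ?_) (l := (‖y - x‖ : ℂ))
    (by rw [Complex.norm_real, Real.norm_eq_abs, abs_of_pos hn]; linarith)
  · have e : x + (‖y - x‖ : ℂ) • v = y := by
      rw [hv, smul_smul, mul_inv_cancel₀ (by exact_mod_cast hn.ne'), one_smul]; abel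
    simp only [e, zero_smul, add_zero, Complex.norm_real, Real.norm_eq_abs, abs_of_pos hn] at key
    linarith
  · have hl' : ‖l‖ < 2 := by simpa using hl
    have : 1 + ‖x + l • v‖ ≤ 3 * (1 + ‖x‖) := by
      have := norm_add_le x (l • v)
      rw [norm_smul, hv1] at this
      linarith [norm_nonneg x]
    calc ‖f (x + l • v)‖ ≤ C * (1 + ‖x + l • v‖) ^ A := h _
      _ ≤ C * (3 * (1 + ‖x‖)) ^ A := by gcongr
      _ = _ := by rw [mul_pow]; ring

/-- Polynomially bounded isolated singularities are poles. -/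
theorem mero_of_bound [CompleteSpace Y] {f : ℂ → Y} {p : ℂ} {C : ℝ} {j : ℕ}
    (h : ∀ᶠ z in 𝓝[≠] p, DifferentiableAt ℂ f z ∧ ‖f z‖ ≤ C / ‖z - p‖ ^ j) :
    MeromorphicAt f p := by
  set g : ℂ → Y := fun z => (z - p) ^ (j + 1) • f z with hg
  have hgp : g p = 0 := by simp [hg]
  have hc : ContinuousAt g p := by
    rw [← continuousWithinAt_compl_self, ContinuousWithinAt, hgp]
    have h1 : Tendsto (fun z : ℂ => C * ‖z - p‖) (𝓝[≠] p) (𝓝 0) := by
      have : Continuous fun z : ℂ => C * ‖z - p‖ := by fun_prop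
      simpa using (this.tendsto p).mono_left nhdsWithin_le_nhds
    refine squeeze_zero_norm' ?_ h1
    filter_upwards [h, self_mem_nhdsWithin] with z hz hzp
    have hn : 0 < ‖z - p‖ := norm_pos_iff.2 (sub_ne_zero.2 hzp)
    rw [hg]; simp only [norm_smul, norm_pow]
    calc ‖z - p‖ ^ (j + 1) * ‖f z‖ ≤ ‖z - p‖ ^ (j + 1) * (C / ‖z - p‖ ^ j) := by gcongr; exact hz.2
      _ = _ := by rw [pow_succ]; field_simp
  refine ⟨j + 1, Complex.analyticAt_of_differentiable_on_punctured_nhds_of_continuousAt ?_ hc⟩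
  filter_upwards [h] with z hz
  exact DifferentiableAt.smul (by fun_prop) hz.1

/-- Meromorphic germs are polynomially bounded. -/
theorem mero_bound {f : ℂ → Y} {p : ℂ} (h : MeromorphicAt f p) :
    ∃ (C : ℝ) (j : ℕ), 1 ≤ C ∧ ∀ᶠ z in 𝓝[≠] p, ‖f z‖ ≤ C / ‖z - p‖ ^ j := by
  obtain ⟨n, hn⟩ := h
  have := hn.continuousAt.norm.eventually (gt_mem_nhds (lt_add_one _))
  refine ⟨‖(p - p) ^ n • f p‖ + 1, n, by linarith [norm_nonneg ((p - p) ^ n • f p)], ?_⟩
  filter_upwards [nhdsWithin_le_nhds this, self_mem_nhdsWithin] with z hz hzp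
  have hn : 0 < ‖z - p‖ := norm_pos_iff.2 (sub_ne_zero.2 hzp)
  rw [le_div_iff₀ (by positivity)]
  simp only [norm_smul, norm_pow] at hz ⊢
  linarith

/-- Tame maps preserve meromorphy. -/
theorem Tame.mero [CompleteSpace X] [CompleteSpace Y] {f : X → Y} (hf : Tame f) {g : ℂ → X}
    {p : ℂ} (hg : MeromorphicAt g p) : MeromorphicAt (fun z => f (g z)) p := by
  obtain ⟨C, A, hC, h⟩ := hf.bound
  obtain ⟨D, j, hD, h'⟩ := mero_bound hg
  refine mero_of_bound (C := C * (2 * D) ^ A) (j := j * A) ?_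
  have h1 : ∀ᶠ z in 𝓝[≠] p, ‖z - p‖ < 1 := by
    apply nhdsWithin_le_nhds
    filter_upwards [ball_mem_nhds p one_pos] with z hz using by simpa [dist_eq_norm] using hz
  filter_upwards [h', hg.eventually_analyticAt, h1, self_mem_nhdsWithin] with z h2 h3 h4 hzp
  have hn : 0 < ‖z - p‖ := norm_pos_iff.2 (sub_ne_zero.2 hzp)
  refine ⟨(hf.1 _).comp z h3.differentiableAt, (h _).trans ?_⟩
  have h5 : ‖z - p‖ ^ j ≤ 1 := pow_le_one₀ hn.le h4.le
  have h6 : 1 ≤ D / ‖z - p‖ ^ j := by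
    rw [le_div_iff₀ (by positivity)]; linarith
  calc C * (1 + ‖g z‖) ^ A ≤ C * (2 * (D / ‖z - p‖ ^ j)) ^ A := by gcongr; linarith
    _ = _ := by rw [pow_mul, mul_pow, mul_pow, div_pow]; ring

/-! ### `AC` -/

theorem AC.mono {D D' : Set X} {f : X → Y} (h : AC D f) (hD : D' ⊆ D) : AC D' f :=
  fun γ l h1 h2 => h γ l h1 (h2.mono fun _ hx => hD hx)

theorem AC.congr {D : Set X} {f g : X → Y} (h : AC D f) (e : EqOn f g D) : AC D g :=
  fun γ l h1 h2 => (h γ l h1 h2).congr (h2.mono fun _ hx => e hx)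

theorem AC.comp {D : Set X} {D' : Set Y} {f : X → Y} {g : Y → Z} (hg : AC D' g) (hf : AC D f)
    (hm : MapsTo f D D') : AC D fun x => g (f x) :=
  fun γ l h1 h2 => hg (fun x => f (γ x)) l (hf γ l h1 h2) (h2.mono fun _ hx => hm hx)

theorem AC.of_diff [CompleteSpace X] [CompleteSpace Y] {f : X → Y} (hf : Differentiable ℂ f) (D : Set X) :
    AC D f := fun _ _ h1 _ => diff_an_comp hf h1

theorem AC.of_diffOn [CompleteSpace X] [CompleteSpace Y] {f : X → Y} {O : Set X} (hO : IsOpen O)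
    (hf : DifferentiableOn ℂ f O) : AC O f := fun _ _ h1 h2 =>
  an_comp ((hO.eventually_mem h2.self_of_nhds).mono fun _ hx => hf.differentiableAt
    (hO.mem_nhds hx)) h1

theorem AC.const (D : Set X) (y : Y) : AC D fun _ => y := fun _ _ _ _ => analyticAt_const

theorem AC.id' (D : Set X) : AC D fun x => x := fun _ _ h _ => h

theorem AC.prodMk {D : Set X} {f : X → Y} {g : X → Z} (hf : AC D f) (hg : AC D g) :
    AC D fun x => (f x, g x) := fun γ l h1 h2 => (hf γ l h1 h2).prod (hg γ l h1 h2)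

theorem AC.clm {D : Set X} {f : X → Y} (hf : AC D f) (g : Y →L[ℂ] Z) : AC D fun x => g (f x) :=
  fun γ l h1 h2 => (g.analyticAt _).comp (hf γ l h1 h2)

theorem AC.fst {D : Set X} {f : X → Y × Z} (hf : AC D f) : AC D fun x => (f x).1 :=
  hf.clm (ContinuousLinearMap.fst ℂ Y Z)

theorem AC.snd {D : Set X} {f : X → Y × Z} (hf : AC D f) : AC D fun x => (f x).2 :=
  hf.clm (ContinuousLinearMap.snd ℂ Y Z)

theorem AC.add {D : Set X} {f g : X → Y} (hf : AC D f) (hg : AC D g) : AC D fun x => f x + g x :=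
  fun γ l h1 h2 => (hf γ l h1 h2).add (hg γ l h1 h2)

theorem AC.sub {D : Set X} {f g : X → Y} (hf : AC D f) (hg : AC D g) : AC D fun x => f x - g x :=
  fun γ l h1 h2 => (hf γ l h1 h2).sub (hg γ l h1 h2)

theorem AC.neg {D : Set X} {f : X → Y} (hf : AC D f) : AC D fun x => -f x :=
  fun γ l h1 h2 => (hf γ l h1 h2).neg

theorem AC.smul {D : Set X} {f : X → ℂ} {g : X → Y} (hf : AC D f) (hg : AC D g) :
    AC D fun x => f x • g x := fun γ l h1 h2 => (hf γ l h1 h2).smul (hg γ l h1 h2)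

theorem AC.inv {D : Set X} {f : X → ℂ} (hf : AC D f) (h0 : ∀ x ∈ D, f x ≠ 0) :
    AC D fun x => (f x)⁻¹ := fun γ l h1 h2 => (hf γ l h1 h2).inv (h0 _ h2.self_of_nhds)

/-- `AC` is local. -/
theorem AC.of_local {D : Set X} {f : X → Y} (h : ∀ x ∈ D, ∃ O ∈ 𝓝 x, AC (D ∩ O) f) : AC D f := by
  intro γ l h1 h2
  obtain ⟨O, hO, h3⟩ := h _ h2.self_of_nhds
  exact h3 γ l h1 (h2.and (h1.continuousAt.eventually hO))

theorem AC.analyticAt {O : Set ℂ} {f : ℂ → Y} (h : AC O f) {z : ℂ} (hz : O ∈ 𝓝 z) :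
    AnalyticAt ℂ f z := h (fun x => x) z analyticAt_id hz

theorem AC.limit [CompleteSpace X] [CompleteSpace Y] {D : Set X} {f : ℕ → X → Y} {g : X → Y} (hf : ∀ n, AC D (f n))
    (h : TendstoUniformlyOn f g atTop D) : AC D g := by
  intro γ l h1 h2
  obtain ⟨r, hr, h3⟩ := Metric.eventually_nhds_iff_ball.1
    (h1.eventually_analyticAt.and h2.eventually_nhds)
  have h4 : TendstoUniformlyOn (fun n x => f n (γ x)) (fun x => g (γ x)) atTop (ball l r) :=
    (h.comp γ).mono fun x hx => (h3 x hx).2.self_of_nhds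
  have h5 : DifferentiableOn ℂ (fun x => g (γ x)) (ball l r) :=
    h4.tendstoLocallyUniformlyOn.differentiableOn (Eventually.of_forall fun n x hx =>
      (hf n γ x (h3 x hx).1 (h3 x hx).2).differentiableAt.differentiableWithinAt) isOpen_ball
  exact h5.analyticAt (ball_mem_nhds l hr)

/-- Lipschitz estimate along a line contained in `D`. -/
theorem AC.lip [CompleteSpace Y] {D : Set X} {f : X → Y} (hf : AC D f) {M r : ℝ}
    (hM : ∀ x ∈ D, ‖f x‖ ≤ M) {x v : X} (hD : ∀ l : ℂ, ‖l‖ < r → x + l • v ∈ D) {l : ℂ}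
    (hl : ‖l‖ < r) : ‖f (x + l • v) - f x‖ ≤ 2 * M / r * ‖l‖ := by
  have := line_lip (g := fun l : ℂ => f (x + l • v)) (r := r) (M := M) (fun m hm =>
    (hf (fun l : ℂ => x + l • v) m (by fun_prop) ((isOpen_ball.eventually_mem hm).mono
      fun y hy => hD y (by simpa using hy))).differentiableAt.differentiableWithinAt)
    (fun m hm => hM _ (hD m (by simpa using hm))) hl
  simpa using this

/-- Lipschitz estimate on a smaller ball. -/
theorem AC.lip_ball [CompleteSpace Y] {f : X → Y} {ε M : ℝ} (hf : AC (ball 0 ε) f)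
    (hM : ∀ x ∈ ball (0 : X) ε, ‖f x‖ ≤ M) {x y : X} (hx : ‖x‖ ≤ 3 * ε / 4)
    (hy : ‖y‖ ≤ 3 * ε / 4) (hε : 0 < ε) : ‖f y - f x‖ ≤ 16 * M / ε * ‖y - x‖ := by
  have hx' : x ∈ ball (0 : X) ε := by simp; linarith
  have hy' : y ∈ ball (0 : X) ε := by simp; linarith
  have hM0 : 0 ≤ M := (norm_nonneg _).trans (hM x hx')
  by_cases h0 : y = x
  · simp [h0]
  have hn : 0 < ‖y - x‖ := norm_pos_iff.2 (sub_ne_zero.2 h0)
  by_cases h1 : ε / 8 ≤ ‖y - x‖
  · calc ‖f y - f x‖ ≤ 2 * M := by linarith [norm_sub_le (f y) (f x), hM x hx', hM y hy']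
      _ = 16 * M / ε * (ε / 8) := by field_simp; ring
      _ ≤ _ := by gcongr
  push Not at h1
  set v : X := ((‖y - x‖ : ℂ))⁻¹ • (y - x) with hv
  have hv1 : ‖v‖ = 1 := by
    rw [hv, norm_smul, norm_inv, Complex.norm_real, Real.norm_eq_abs, abs_of_pos hn]
    field_simp
  have e : x + (‖y - x‖ : ℂ) • v = y := by
    rw [hv, smul_smul, mul_inv_cancel₀ (by exact_mod_cast hn.ne'), one_smul]; abel
  have key := hf.lip hM (x := x) (v := v) (r := ε / 4) (fun l hl => by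
    have := norm_add_le x (l • v)
    rw [norm_smul, hv1] at this
    simp; linarith) (l := (‖y - x‖ : ℂ))
    (by rw [Complex.norm_real, Real.norm_eq_abs, abs_of_pos hn]; linarith)
  rw [e, Complex.norm_real, Real.norm_eq_abs, abs_of_pos hn] at key
  refine key.trans ?_
  have : 2 * M / (ε / 4) ≤ 16 * M / ε := by
    rw [div_div_eq_mul_div]; exact div_le_div_of_nonneg_right (by linarith) hε.le
  gcongr

/-! ### `MF` -/

theorem MF.mono {D D' Reg : Set X} {Ψ : X → Y} (h : MF D Reg Ψ) (hD : D' ⊆ D) : MF D' Reg Ψ :=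
  ⟨fun γ l h1 h2 => h.an γ l h1 (h2.mono fun _ hx => hD hx),
    fun γ l h1 h2 => h.dich γ l h1 (h2.mono fun _ hx => hD hx)⟩

theorem MF.congr {D Reg Reg' : Set X} {Ψ Ψ' : X → Y} (h : MF D Reg Ψ)
    (hR : ∀ x ∈ D, x ∈ Reg ↔ x ∈ Reg') (e : ∀ x ∈ D, x ∈ Reg → Ψ x = Ψ' x) : MF D Reg' Ψ' := by
  refine ⟨fun γ l h1 h2 h3 => ?_, fun γ l h1 h2 => ?_⟩
  · obtain ⟨h4, h5⟩ := h.an γ l h1 h2 ((hR _ h2.self_of_nhds).2 h3)
    exact ⟨(h2.and h4).mono fun x hx => (hR _ hx.1).1 hx.2,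
      h5.congr ((h2.and h4).mono fun x hx => e _ hx.1 hx.2)⟩
  · have h2' : ∀ᶠ x in 𝓝[≠] l, γ x ∈ D := nhdsWithin_le_nhds h2
    rcases h.dich γ l h1 h2 with h4 | ⟨h4, h5⟩
    · exact Or.inl ((h2'.and h4).mono fun x hx h6 => hx.2 ((hR _ hx.1).2 h6))
    · exact Or.inr ⟨(h2'.and h4).mono fun x hx => (hR _ hx.1).1 hx.2,
        h5.congr ((h2'.and h4).mono fun x hx => e _ hx.1 hx.2)⟩

theorem MF.of_AC {D : Set X} {Ψ : X → Y} (h : AC D Ψ) : MF D univ Ψ :=
  ⟨fun γ l h1 h2 _ => ⟨by simp, h γ l h1 h2⟩,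
    fun γ l h1 h2 => Or.inr ⟨by simp, (h γ l h1 h2).meromorphicAt⟩⟩

theorem MF.comp {W : Type} [NormedAddCommGroup W] [NormedSpace ℂ W] {D Reg : Set X} {Ψ : X → Y}
    (h : MF D Reg Ψ) {D' : Set W} {f : W → X} (hf : AC D' f) (hm : MapsTo f D' D) :
    MF D' (f ⁻¹' Reg) fun x => Ψ (f x) :=
  ⟨fun γ l h1 h2 h3 => h.an (fun x => f (γ x)) l (hf γ l h1 h2) (h2.mono fun _ hx => hm hx) h3,
    fun γ l h1 h2 => h.dich (fun x => f (γ x)) l (hf γ l h1 h2) (h2.mono fun _ hx => hm hx)⟩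

/-- `MF` is local. -/
theorem MF.of_local {D Reg : Set X} {Ψ : X → Y} (h : ∀ x ∈ D, ∃ O ∈ 𝓝 x, MF (D ∩ O) Reg Ψ) :
    MF D Reg Ψ := by
  refine ⟨fun γ l h1 h2 => ?_, fun γ l h1 h2 => ?_⟩
  · obtain ⟨O, hO, h3⟩ := h _ h2.self_of_nhds
    exact h3.an γ l h1 (h2.and (h1.continuousAt.eventually hO))
  · obtain ⟨O, hO, h3⟩ := h _ h2.self_of_nhds
    exact h3.dich γ l h1 (h2.and (h1.continuousAt.eventually hO))

theorem MF.ac {D Reg : Set X} {Ψ : X → Y} (h : MF D Reg Ψ) : AC (D ∩ Reg) Ψ :=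
  fun γ l h1 h2 => (h.an γ l h1 (h2.mono fun _ hx => hx.1) h2.self_of_nhds.2).2

/-- Pairing with an `AC` map. -/
theorem MF.prod_left {D Reg : Set X} {Ψ : X → Y} {f : X → Z} (h : MF D Reg Ψ) (hf : AC D f) :
    MF D Reg fun x => (f x, Ψ x) := by
  refine ⟨fun γ l h1 h2 h3 => ?_, fun γ l h1 h2 => ?_⟩
  · exact ⟨(h.an γ l h1 h2 h3).1, (hf γ l h1 h2).prod (h.an γ l h1 h2 h3).2⟩
  · refine (h.dich γ l h1 h2).imp id fun h4 => ⟨h4.1, ?_⟩
    obtain ⟨n, hn⟩ := h4.2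
    refine ⟨n, ?_⟩
    have := ((show AnalyticAt ℂ (fun z => (z - l) ^ n) l by fun_prop).smul (hf γ l h1 h2)).prod hn
    simpa using this

/-- Division: `h⁻¹ • ψ` for tame `h`, `ψ` of a meromorphic family. -/
theorem MF.div [CompleteSpace Y] [CompleteSpace Z] {D Reg : Set X} {Ψ : X → Y} (hΨ : MF D Reg Ψ)
    {h : Y → ℂ} {ψ : Y → Z} (hh : Tame h) (hψ : Tame ψ) :
    MF D (Reg ∩ {x | h (Ψ x) ≠ 0}) fun x => (h (Ψ x))⁻¹ • ψ (Ψ x) := by
  refine ⟨fun γ l h1 h2 h3 => ?_, fun γ l h1 h2 => ?_⟩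
  · obtain ⟨h4, h5⟩ := hΨ.an γ l h1 h2 h3.1
    have h6 := diff_an_comp hh.1 h5
    exact ⟨h4.and (h6.continuousAt.eventually_ne h3.2),
      (h6.inv h3.2).smul (diff_an_comp hψ.1 h5)⟩
  · rcases hΨ.dich γ l h1 h2 with h4 | ⟨h4, h5⟩
    · exact Or.inl (h4.mono fun x hx h6 => hx h6.1)
    · have h6 := hh.mero h5
      rcases h6.eventually_eq_zero_or_eventually_ne_zero with h7 | h7
      · exact Or.inl (h7.mono fun x hx h8 => h8.2 hx)
      · exact Or.inr ⟨h4.and h7, h6.inv.smul (hψ.mero h5)⟩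

/-- Quotient of `AC` maps. -/
theorem MF.quot [CompleteSpace Y] {D : Set X} {N : X → Y} {d : X → ℂ} (hN : AC D N)
    (hd : AC D d) : MF D {x | d x ≠ 0} fun x => (d x)⁻¹ • N x := by
  have := (MF.of_AC (hd.prodMk hN)).div (h := fun y : ℂ × Y => y.1) (ψ := fun y : ℂ × Y => y.2)
    Tame.fst' Tame.snd'
  simpa using this

/-- Along a connected curve that meets `Reg`, the family is meromorphic. -/
theorem MF.conn {D Reg : Set X} {Ψ : X → Y} (h : MF D Reg Ψ) {V : Set ℂ} (hV : IsOpen V)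
    (hc : IsPreconnected V) {γ : ℂ → X} (hγ : ∀ l ∈ V, AnalyticAt ℂ γ l) (hm : MapsTo γ V D)
    {l₀ : ℂ} (h0 : l₀ ∈ V) (h1 : γ l₀ ∈ Reg) {l : ℂ} (hl : l ∈ V) :
    (∀ᶠ x in 𝓝[≠] l, γ x ∈ Reg) ∧ MeromorphicAt (fun x => Ψ (γ x)) l := by
  have hD : ∀ l ∈ V, ∀ᶠ x in 𝓝 l, γ x ∈ D := fun l hl =>
    (hV.eventually_mem hl).mono fun _ hx => hm hx
  have op : ∀ p : ℂ → Prop, IsOpen {l | ∀ᶠ x in 𝓝[≠] l, p x} := fun p =>
    isOpen_setOfPred_eventually_nhdsWithin
  have hsub := hc.subset_left_of_subset_union (op fun x => γ x ∈ Reg) (op fun x => γ x ∉ Reg)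
    (Set.disjoint_left.2 fun l h2 h3 => by
      have h2' : ∀ᶠ x in 𝓝[≠] l, γ x ∈ Reg := h2
      have h3' : ∀ᶠ x in 𝓝[≠] l, γ x ∉ Reg := h3
      obtain ⟨x, h4, h5⟩ := (h2'.and h3').exists
      exact h5 h4)
    (fun l hl => (h.dich γ l (hγ l hl) (hD l hl)).symm.imp (fun h => h.1) id)
    ⟨l₀, h0, nhdsWithin_le_nhds (h.an γ l₀ (hγ l₀ h0) (hD l₀ h0) h1).1⟩
  rcases h.dich γ l (hγ l hl) (hD l hl) with h2 | h2
  · have h3 : ∀ᶠ x in 𝓝[≠] l, γ x ∈ Reg := hsub hl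
    obtain ⟨x, h4, h5⟩ := (h3.and h2).exists
    exact absurd h4 h5
  · exact h2

end

/-- Fixed points by iteration in the uniform norm on `D`. -/
theorem iter_fix {X Y : Type} [NormedAddCommGroup Y] [CompleteSpace Y] (D : Set X)
    (𝓢 : (X → Y) → Prop) (Φ : (X → Y) → X → Y)
    (hcl : ∀ (f : ℕ → X → Y) (g : X → Y), (∀ n, 𝓢 (f n)) → TendstoUniformlyOn f g atTop D → 𝓢 g)
    (hΦ : ∀ f, 𝓢 f → 𝓢 (Φ f))
    (hc : ∀ f g (M : ℝ), 𝓢 f → 𝓢 g → (∀ x ∈ D, ‖f x - g x‖ ≤ M) →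
      ∀ x ∈ D, ‖Φ f x - Φ g x‖ ≤ M / 2)
    {f₀ : X → Y} (h0 : 𝓢 f₀) {M : ℝ} (hM : ∀ x ∈ D, ‖Φ f₀ x - f₀ x‖ ≤ M) :
    ∃ f, 𝓢 f ∧ ∀ x ∈ D, Φ f x = f x := by
  set F : ℕ → X → Y := fun n => Φ^[n] f₀ with hF
  have hS : ∀ n, 𝓢 (F n) := fun n => by
    induction n with
    | zero => exact h0
    | succ n ih => simpa [hF, Function.iterate_succ_apply'] using hΦ _ ih
  have hs : ∀ n, F (n + 1) = Φ (F n) := fun n => by simp [hF, Function.iterate_succ_apply']
  have hd : ∀ n, ∀ x ∈ D, ‖F (n + 1) x - F n x‖ ≤ M / 2 ^ n := fun n => by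
    induction n with
    | zero => simpa [hs, hF] using hM
    | succ n ih =>
      intro x hx
      have := hc _ _ _ (hS (n + 1)) (hS n) ih x hx
      rw [← hs, ← hs] at this
      refine this.trans (le_of_eq ?_)
      rw [pow_succ]; field_simp
  have hd' : ∀ x ∈ D, ∀ n, dist (F n x) (F (n + 1) x) ≤ (2 * M) / 2 / 2 ^ n := fun x hx n => by
    rw [dist_comm, dist_eq_norm]; simpa using hd n x hx
  have hlim : ∀ x ∈ D, ∃ y, Tendsto (fun n => F n x) atTop (𝓝 y) := fun x hx =>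
    cauchySeq_tendsto_of_complete (cauchySeq_of_le_geometric_two (hd' x hx))
  choose! g hg using hlim
  have hb : ∀ n, ∀ x ∈ D, ‖F n x - g x‖ ≤ 2 * M / 2 ^ n := fun n x hx => by
    rw [← dist_eq_norm]
    exact dist_le_of_le_geometric_two_of_tendsto (hd' x hx) (hg x hx) n
  have ht : Tendsto (fun n : ℕ => 2 * M / 2 ^ n) atTop (𝓝 0) := by
    have := (tendsto_pow_atTop_nhds_zero_of_lt_one (r := (1 / 2 : ℝ)) (by norm_num)
      (by norm_num)).const_mul (2 * M)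
    simpa [div_eq_mul_inv] using this
  have hu : TendstoUniformlyOn F g atTop D := by
    rw [Metric.tendstoUniformlyOn_iff]
    intro ε hε
    filter_upwards [ht.eventually (gt_mem_nhds hε)] with n hn x hx
    rw [dist_comm, dist_eq_norm]
    exact (hb n x hx).trans_lt hn
  have hSg := hcl F g hS hu
  refine ⟨g, hSg, fun x hx => ?_⟩
  have h1 : Tendsto (fun n => F (n + 1) x) atTop (𝓝 (g x)) :=
    (hg x hx).comp (tendsto_add_atTop_nat 1)
  have h2 : Tendsto (fun n => F (n + 1) x) atTop (𝓝 (Φ g x)) := by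
    rw [tendsto_iff_norm_sub_tendsto_zero]
    refine squeeze_zero (fun _ => norm_nonneg _) (fun n => ?_) (by simpa using ht.div_const 2)
    rw [hs]
    exact hc _ _ _ (hS n) hSg (hb n) x hx
  exact tendsto_nhds_unique h2 h1

end

end Pool.Agent.P.MP_daea48_ag
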