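import Pool.Agent.P.MP_daea48_ag.B1

/-! Basic library 2: the chart map `TC.ex`, weights, reflection. -/

open Set Filter Topology Metric Polynomial Asymptotics
open scoped ComplexConjugate

namespace Pool.Agent.P.MP_daea48_ag

noncomputable section

theorem rad_pos {X : Type} [NormedAddCommGroup X] {c : ℝ} (hc : 0 < c) (A : ℕ) (u : X) :
    0 < rad c A u := div_pos hc (pow_pos (opn_pos u) A)

theorem rad_le {X : Type} [NormedAddCommGroup X] {c : ℝ} (hc : 0 ≤ c) (A : ℕ) (u : X) :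
    rad c A u ≤ c := div_le_self hc (one_le_pow₀ (one_le_opn u))

theorem continuous_rad {X : Type} [NormedAddCommGroup X] (c : ℝ) (A : ℕ) :
    Continuous fun u : X => rad c A u :=
  continuous_const.div (by fun_prop) fun u => (pow_pos (opn_pos u) A).ne'

theorem rad_anti {X Y : Type} [NormedAddCommGroup X] [NormedAddCommGroup Y] {c : ℝ} (hc : 0 ≤ c)
    (A : ℕ) {u : X} {v : Y} (h : ‖u‖ ≤ ‖v‖) : rad c A v ≤ rad c A u := by
  unfold rad
  have := opn_pos u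
  gcongr

section
variable {E E' : Type} [NormedAddCommGroup E] [NormedSpace ℂ E] [NormedAddCommGroup E']
  [NormedSpace ℂ E'] {U : Set (ℂ × E)} {pr : E →L[ℂ] E'}

theorem continuous_pj (pr : E →L[ℂ] E') : Continuous (pj pr) := by unfold pj; fun_prop

@[simp] theorem pj_mk (pr : E →L[ℂ] E') (z : ℂ) (ξ : E) : pj pr (z, ξ) = (z, pr ξ) := rfl

namespace TC
variable (T : TC U pr)

theorem rho_pos (u : ℂ × E) : 0 < T.rho u := rad_pos T.c_pos _ _

theorem rho_le_one (u : ℂ × E) : T.rho u ≤ 1 := (rad_le T.c_pos.le _ _).trans T.c_le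

theorem rho_sq_le (u : ℂ × E) : T.rho u ^ 2 ≤ T.rho u := by
  nlinarith [T.rho_pos u, T.rho_le_one u]

theorem continuous_rho : Continuous T.rho := continuous_rad _ _

/-- Two points of `U` near `u` with the same coordinates agree. -/
theorem inj {u u₁ u₂ : ℂ × E} (hu : u ∈ U) (h1 : u₁ ∈ U) (h2 : u₂ ∈ U) (d1 : ‖u₁ - u‖ < T.rho u)
    (d2 : ‖u₂ - u‖ < T.rho u) (e : pj pr u₁ = pj pr u₂) : u₁ = u₂ := by
  have := T.lip u hu u₁ h1 u₂ h2 d1 d2
  rw [e, sub_self, norm_zero] at this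
  have h3 := T.rho_pos u
  have : ‖u₁ - u₂‖ ≤ 0 := by
    by_contra h
    push Not at h
    have := mul_pos h3 h
    unfold rho at this; linarith
  exact sub_eq_zero.1 (norm_le_zero_iff.1 this)

theorem ex_spec {u : ℂ × E} (hu : u ∈ U) {p : ℂ × E'} (hp : ‖p - pj pr u‖ < T.rho u ^ 2) :
    (p.1, T.ex u p) ∈ U ∧ ‖(p.1, T.ex u p) - u‖ < T.rho u ∧ pr (T.ex u p) = p.2 := by
  have h : ∃ u₁ ∈ U, ‖u₁ - u‖ < T.rho u ∧ pj pr u₁ = p := T.surj u hu p hp
  have hs := h.choose_spec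
  have e : (p.1, T.ex u p) = h.choose := by
    unfold ex; rw [dif_pos h]
    exact Prod.ext (congrArg Prod.fst hs.2.2).symm rfl
  refine ⟨e ▸ hs.1, e ▸ hs.2.1, ?_⟩
  have := congrArg Prod.snd hs.2.2
  rw [← e] at this; exact this

theorem ex_mem {u : ℂ × E} (hu : u ∈ U) {p : ℂ × E'} (hp : ‖p - pj pr u‖ < T.rho u ^ 2) :
    (p.1, T.ex u p) ∈ U := (T.ex_spec hu hp).1

theorem pr_ex {u : ℂ × E} (hu : u ∈ U) {p : ℂ × E'} (hp : ‖p - pj pr u‖ < T.rho u ^ 2) :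
    pr (T.ex u p) = p.2 := (T.ex_spec hu hp).2.2

/-- Uniqueness: a point of `U` within the chart radius is given by `ex`. -/
theorem ex_unique {u : ℂ × E} (hu : u ∈ U) {z : ℂ} {ξ : E} (h1 : (z, ξ) ∈ U)
    (d : ‖(z, ξ) - u‖ < T.rho u) {p : ℂ × E'} (e : (z, pr ξ) = p) : T.ex u p = ξ := by
  have h : ∃ u₁ ∈ U, ‖u₁ - u‖ < T.rho u ∧ pj pr u₁ = p := ⟨_, h1, d, e⟩
  have hs := h.choose_spec
  unfold ex; rw [dif_pos h]
  exact congrArg Prod.snd (T.inj hu hs.1 h1 hs.2.1 d (hs.2.2.trans e.symm))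

theorem ex_self {u : ℂ × E} (hu : u ∈ U) : T.ex u (pj pr u) = u.2 :=
  T.ex_unique hu (z := u.1) (ξ := u.2) hu (by simpa using T.rho_pos u) rfl

theorem ex_dist {u : ℂ × E} (hu : u ∈ U) {p : ℂ × E'} (hp : ‖p - pj pr u‖ < T.rho u ^ 2) :
    T.rho u * ‖(p.1, T.ex u p) - u‖ ≤ ‖p - pj pr u‖ := by
  obtain ⟨h1, h2, h3⟩ := T.ex_spec hu hp
  have := T.lip u hu _ h1 u hu h2 (by rw [sub_self, norm_zero]; exact T.rho_pos u)
  rwa [pj_mk, h3] at this

theorem ex_dist' {u : ℂ × E} (hu : u ∈ U) {p : ℂ × E'} (hp : ‖p - pj pr u‖ < T.rho u ^ 2) :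
    T.rho u * ‖T.ex u p - u.2‖ ≤ ‖p - pj pr u‖ :=
  (mul_le_mul_of_nonneg_left (norm_snd_le ((p.1, T.ex u p) - u)) (T.rho_pos u).le).trans
    (T.ex_dist hu hp)

/-- Domain of `ex`. -/
def dom : Set ((ℂ × E) × (ℂ × E')) := {x | x.1 ∈ U ∧ ‖x.2 - pj pr x.1‖ < T.rho x.1 ^ 2}

/-- Near a point of the domain, `ex u p` is computed from the fixed base point `ex u₀ p₀`. -/
theorem ex_eventually_eq {x₀ : (ℂ × E) × (ℂ × E')} (h0 : x₀ ∈ T.dom) :
    ∀ᶠ x in 𝓝 x₀, x.1 ∈ U → T.ex x.1 x.2 = T.ex (x₀.2.1, T.ex x₀.1 x₀.2) x.2 ∧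
      T.rho (x₀.2.1, T.ex x₀.1 x₀.2) * ‖T.ex x.1 x.2 - T.ex x₀.1 x₀.2‖ ≤ ‖x.2 - x₀.2‖ := by
  obtain ⟨h1, h2, h3⟩ := T.ex_spec h0.1 h0.2
  set w : ℂ × E := (x₀.2.1, T.ex x₀.1 x₀.2) with hw
  have hpw : pj pr w = x₀.2 := by rw [hw, pj_mk, h3]
  have hr := T.rho_pos w
  have c1 : ∀ᶠ x in 𝓝 x₀, ‖x.2 - x₀.2‖ < T.rho w ^ 2 :=
    (show ContinuousAt (fun x : (ℂ × E) × (ℂ × E') => ‖x.2 - x₀.2‖) x₀ by fun_prop).eventually
      (gt_mem_nhds (by simpa using pow_pos hr 2))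
  have c2 : ∀ᶠ x in 𝓝 x₀, ‖x.2 - x₀.2‖ / T.rho w + ‖w - x.1‖ < T.rho x.1 := by
    refine ContinuousAt.eventually_lt (by fun_prop)
      ((T.continuous_rho.comp continuous_fst).continuousAt) ?_
    simpa using h2
  filter_upwards [c1, c2] with x hx1 hx2 hx
  rw [← hpw] at hx1
  obtain ⟨h4, -, h6⟩ := T.ex_spec h1 hx1
  have h7 := T.ex_dist h1 hx1
  have h8 := T.ex_dist' h1 hx1
  rw [hpw] at h7 h8
  have e : T.ex x.1 x.2 = T.ex w x.2 := by
    refine T.ex_unique hx h4 ?_ (by rw [h6])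
    have : ‖(x.2.1, T.ex w x.2) - w‖ ≤ ‖x.2 - x₀.2‖ / T.rho w := by
      rw [le_div_iff₀ hr]; linarith
    linarith [norm_sub_le_norm_sub_add_norm_sub (x.2.1, T.ex w x.2) w x.1]
  exact ⟨e, e ▸ h8⟩

theorem continuousOn_ex : ContinuousOn (fun x : (ℂ × E) × (ℂ × E') => T.ex x.1 x.2) T.dom := by
  intro x₀ h0
  have hr := T.rho_pos (x₀.2.1, T.ex x₀.1 x₀.2)
  rw [ContinuousWithinAt, tendsto_iff_norm_sub_tendsto_zero]
  have h1 : Tendsto (fun x : (ℂ × E) × (ℂ × E') => ‖x.2 - x₀.2‖ / T.rho (x₀.2.1, T.ex x₀.1 x₀.2))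
      (𝓝[T.dom] x₀) (𝓝 0) := by
    have : Continuous fun x : (ℂ × E) × (ℂ × E') =>
        ‖x.2 - x₀.2‖ / T.rho (x₀.2.1, T.ex x₀.1 x₀.2) := by fun_prop
    simpa using (this.tendsto x₀).mono_left nhdsWithin_le_nhds
  refine squeeze_zero' (Eventually.of_forall fun _ => norm_nonneg _) ?_ h1
  filter_upwards [nhdsWithin_le_nhds (T.ex_eventually_eq h0), self_mem_nhdsWithin] with x hx hx'
  rw [le_div_iff₀ hr]; linarith [(hx hx'.1).2]

/-- Continuity of `ex` along continuous data. -/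
theorem continuousOn_ex_comp {X : Type} [TopologicalSpace X] {D : Set X} {u : X → ℂ × E}
    {p : X → ℂ × E'} (hu : ContinuousOn u D) (hp : ContinuousOn p D)
    (h : ∀ x ∈ D, u x ∈ U ∧ ‖p x - pj pr (u x)‖ < T.rho (u x) ^ 2) :
    ContinuousOn (fun x => T.ex (u x) (p x)) D :=
  ContinuousOn.comp (g := fun x : (ℂ × E) × (ℂ × E') => T.ex x.1 x.2) (f := fun x => (u x, p x))
    T.continuousOn_ex (hu.prodMk hp) fun x hx => h x hx

theorem continuousWithinAt_ex {X : Type} [TopologicalSpace X] {D : Set X} {x₀ : X} {u : X → ℂ × E}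
    {p : X → ℂ × E'} (hu : ContinuousWithinAt u D x₀) (hp : ContinuousWithinAt p D x₀)
    (h0 : u x₀ ∈ U ∧ ‖p x₀ - pj pr (u x₀)‖ < T.rho (u x₀) ^ 2) (h : ∀ᶠ x in 𝓝[D] x₀, u x ∈ U) :
    ContinuousWithinAt (fun x => T.ex (u x) (p x)) D x₀ := by
  have h1 : ∀ᶠ x in 𝓝[D] x₀, ‖p x - pj pr (u x)‖ < T.rho (u x) ^ 2 := by
    have a1 : ContinuousWithinAt (fun x => ‖p x - pj pr (u x)‖) D x₀ :=
      (hp.sub ((continuous_pj pr).continuousAt.comp_continuousWithinAt hu)).norm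
    have a2 : ContinuousWithinAt (fun x => T.rho (u x) ^ 2) D x₀ :=
      (T.continuous_rho.continuousAt.comp_continuousWithinAt hu).pow 2
    exact Tendsto.eventually_lt a1 a2 h0.2
  have h2 : Tendsto (fun x => (u x, p x)) (𝓝[D] x₀) (𝓝[T.dom] (u x₀, p x₀)) :=
    tendsto_nhdsWithin_iff.2 ⟨hu.prodMk hp, (h.and h1).mono fun x hx => hx⟩
  have h3 : Tendsto (fun x : (ℂ × E) × (ℂ × E') => T.ex x.1 x.2) (𝓝[T.dom] (u x₀, p x₀))
      (𝓝 (T.ex (u x₀) (p x₀))) := T.continuousOn_ex (u x₀, p x₀) h0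
  exact Tendsto.comp (g := fun x : (ℂ × E) × (ℂ × E') => T.ex x.1 x.2)
    (f := fun x => (u x, p x)) h3 h2

/-- `ex` is analytic as soon as the target coordinates are: the base point only has to move
continuously. -/
theorem analyticAt_ex {u : ℂ → ℂ × E} {p : ℂ → ℂ × E'} {l : ℂ} (hu : ContinuousAt u l)
    (hp : AnalyticAt ℂ p l) (h0 : ‖p l - pj pr (u l)‖ < T.rho (u l) ^ 2)
    (h : ∀ᶠ x in 𝓝 l, u x ∈ U) : AnalyticAt ℂ (fun x => T.ex (u x) (p x)) l := by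
  have h1 : ∀ᶠ x in 𝓝 l, ‖p x - pj pr (u x)‖ < T.rho (u x) ^ 2 :=
    ContinuousAt.eventually_lt
      (hp.continuousAt.sub ((continuous_pj pr).continuousAt.comp hu)).norm
      ((T.continuous_rho.continuousAt.comp hu).pow 2) h0
  have hc : ContinuousAt (fun x => T.ex (u x) (p x)) l := by
    rw [← continuousWithinAt_univ]
    exact T.continuousWithinAt_ex hu.continuousWithinAt hp.continuousAt.continuousWithinAt
      ⟨h.self_of_nhds, h0⟩ (by simpa using h)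
  have := T.hol (fun x => ((p x).1, T.ex (u x) (p x))) l (hp.continuousAt.fst.prodMk hc)
    ((h.and h1).mono fun x hx => T.ex_mem hx.1 hx.2)
    (hp.congr ((h.and h1).mono fun x hx => by simp [T.pr_ex hx.1 hx.2]))
  exact analyticAt_snd.comp this

theorem ac_ex : AC T.dom fun x : (ℂ × E) × (ℂ × E') => T.ex x.1 x.2 := fun γ _ h1 h2 =>
  T.analyticAt_ex (u := fun x => (γ x).1) (p := fun x => (γ x).2) h1.continuousAt.fst
    (analyticAt_snd.comp h1) h2.self_of_nhds.2 (h2.mono fun _ hx => hx.1)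

include T in
/-- A continuous section with analytic coordinates is analytic. -/
theorem hol' {κ : ℂ → ℂ} {S : ℂ → E} {l : ℂ} (hκ : AnalyticAt ℂ κ l) (hS : ContinuousAt S l)
    (h : ∀ᶠ x in 𝓝 l, (κ x, S x) ∈ U) (hp : AnalyticAt ℂ (fun x => pr (S x)) l) :
    AnalyticAt ℂ S l :=
  analyticAt_snd.comp (T.hol (fun x => (κ x, S x)) l (hκ.continuousAt.prodMk hS) h (hκ.prod hp))

/-- Moving inside a fibre by `ex` keeps a label that takes finitely many values. -/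
theorem ex_lab {L : Type} [TopologicalSpace L] [T2Space L] {lab : E → L} {z : ℂ} {ξ : E}
    (hu : (z, ξ) ∈ U) (hl : ContinuousOn lab (fib U z)) (hf : (lab '' fib U z).Finite) {x : E'}
    (hx : ‖x - pr ξ‖ < T.rho (z, ξ) ^ 2) : lab (T.ex (z, ξ) (z, x)) = lab ξ := by
  have hd : ∀ t ∈ Icc (0 : ℝ) 1, ‖((z, pr ξ + t • (x - pr ξ)) : ℂ × E') - pj pr (z, ξ)‖ <
      T.rho (z, ξ) ^ 2 := fun t ht => by
    have : ‖t • (x - pr ξ)‖ ≤ ‖x - pr ξ‖ := by
      rw [norm_smul, Real.norm_eq_abs, abs_of_nonneg ht.1]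
      exact mul_le_of_le_one_left (norm_nonneg _) ht.2
    simpa using this.trans_lt hx
  have hc : ContinuousOn (fun t : ℝ => lab (T.ex (z, ξ) (z, pr ξ + t • (x - pr ξ)))) (Icc 0 1) :=
    hl.comp (T.continuousOn_ex_comp (u := fun _ => (z, ξ)) continuousOn_const (by fun_prop)
      fun t ht => ⟨hu, hd t ht⟩) fun t ht => T.ex_mem hu (hd t ht)
  have h1 := isPreconnected_Icc.constant_of_mapsTo hf.isDiscrete hc
    (fun t ht => ⟨_, T.ex_mem hu (hd t ht), rfl⟩) (x := 1) (y := 0) (by simp) (by simp)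
  simp only [one_smul, add_sub_cancel, zero_smul, add_zero] at h1
  rw [h1]; exact congrArg lab (T.ex_self hu)

/-- Uniform chart radius on bounded sets. -/
theorem rho_lower {K : Set (ℂ × E)} (hK : Bornology.IsBounded K) : ∃ r > 0, ∀ u ∈ K, r ≤ T.rho u := by
  obtain ⟨R, hR⟩ := hK.exists_norm_le
  refine ⟨rad T.c T.A R, rad_pos T.c_pos _ _, fun u hu => rad_anti T.c_pos.le _ ?_⟩
  exact (hR u hu).trans (le_abs_self R)

include T in
/-- The value of an analytic germ of a section lies in `U`. -/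
theorem mem_of_germ {κ : ℂ → ℂ} {S : ℂ → E} {p : ℂ} (hκ : ContinuousAt κ p) (h : Germ U κ S p)
    (hS : ContinuousAt S p) : (κ p, S p) ∈ U :=
  T.closed.mem_of_tendsto ((hκ.prodMk hS).mono_left nhdsWithin_le_nhds) h.2

/-- A small analytic perturbation of a meromorphic germ of a section is one. -/
theorem germ_ex [CompleteSpace E] {κ : ℂ → ℂ} {S : ℂ → E} {a : ℂ → E'} {p : ℂ}
    (h : Germ U κ S p) (ha : ∀ᶠ z in 𝓝[≠] p, AnalyticAt ℂ κ z ∧ AnalyticAt ℂ a z ∧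
      ‖a z‖ < T.rho (κ z, S z) ^ 2) :
    Germ U κ (fun z => T.ex (κ z, S z) (κ z, pr (S z) + a z)) p := by
  have hd : ∀ z, ‖a z‖ < T.rho (κ z, S z) ^ 2 →
      ‖((κ z, pr (S z) + a z) : ℂ × E') - pj pr (κ z, S z)‖ < T.rho (κ z, S z) ^ 2 :=
    fun z hz => by simpa using hz
  refine ⟨?_, (h.2.and ha).mono fun z hz => T.ex_mem hz.1 (hd z hz.2.2.2)⟩
  have : MeromorphicAt (fun z => T.ex (κ z, S z) (κ z, pr (S z) + a z) - S z) p := by
    refine mero_of_bound (C := 1) (j := 0) ?_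
    have h2 : ∀ᶠ z in 𝓝[≠] p, ∀ᶠ x in 𝓝 z, (κ x, S x) ∈ U := by
      have := eventually_eventually_nhdsWithin.2 h.2
      filter_upwards [this, self_mem_nhdsWithin] with z hz hzp
      rwa [nhdsWithin_eq_nhds.2 (isOpen_compl_singleton.mem_nhds hzp)] at hz
    filter_upwards [h2, ha, h.1.eventually_analyticAt] with z h3 h4 h5
    refine ⟨(T.analyticAt_ex (u := fun z => (κ z, S z)) (p := fun z => (κ z, pr (S z) + a z))
      (h4.1.continuousAt.prodMk h5.continuousAt)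
      (h4.1.prod (((pr.analyticAt _).comp h5).add h4.2.1)) (hd z h4.2.2) h3).differentiableAt.sub
      h5.differentiableAt, ?_⟩
    have h6 := (T.ex_spec h3.self_of_nhds (hd z h4.2.2)).2.1
    have h7 := norm_snd_le (((κ z, T.ex (κ z, S z) (κ z, pr (S z) + a z)) : ℂ × E) - (κ z, S z))
    simp only [Prod.snd_sub] at h7
    simp only [pow_zero, div_one]
    linarith [T.rho_le_one (κ z, S z)]
  exact (this.add h.1).congr (Eventually.of_forall fun z => by simp)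

/-- Local analytic section through a point, over an analytic `κ`. -/
theorem exists_local {κ : ℂ → ℂ} {β : ℂ} (hκ : AnalyticAt ℂ κ β) {ξ : E} (h : (κ β, ξ) ∈ U) :
    AnalyticAt ℂ (fun z => T.ex (κ β, ξ) (κ z, pr ξ)) β ∧ T.ex (κ β, ξ) (κ β, pr ξ) = ξ ∧
      ∀ᶠ z in 𝓝 β, (κ z, T.ex (κ β, ξ) (κ z, pr ξ)) ∈ U ∧ pr (T.ex (κ β, ξ) (κ z, pr ξ)) = pr ξ := by
  have h0 : ‖((κ β, pr ξ) : ℂ × E') - pj pr (κ β, ξ)‖ < T.rho (κ β, ξ) ^ 2 := by
    simpa using pow_pos (T.rho_pos (κ β, ξ)) 2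
  refine ⟨T.analyticAt_ex (u := fun _ => (κ β, ξ)) continuousAt_const (hκ.prod analyticAt_const)
    h0 (Eventually.of_forall fun _ => h), T.ex_self h, ?_⟩
  have : ∀ᶠ z in 𝓝 β, ‖((κ z, pr ξ) : ℂ × E') - pj pr (κ β, ξ)‖ < T.rho (κ β, ξ) ^ 2 :=
    ContinuousAt.eventually_lt
      ((hκ.continuousAt.prodMk continuousAt_const).sub continuousAt_const).norm
      continuousAt_const h0
  exact this.mono fun z hz => ⟨T.ex_mem h hz, T.pr_ex h hz⟩

end TC

omit [NormedSpace ℂ E] in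
/-- A compact neighbourhood in `U` of a bounded set. -/
theorem compact_nhd [ProperSpace E] (hU : IsClosed U) {K : Set (ℂ × E)}
    (hK : Bornology.IsBounded K) :
    ∃ K' ⊆ U, IsCompact K' ∧ ∀ u ∈ K, ∀ v ∈ U, ‖v - u‖ ≤ 1 → v ∈ K' := by
  obtain ⟨R, hR⟩ := hK.exists_norm_le
  refine ⟨U ∩ closedBall 0 (R + 1), inter_subset_left,
    (isCompact_closedBall _ _).inter_left hU, fun u hu v hv h => ⟨hv, ?_⟩⟩
  have := norm_sub_norm_le v u
  simp only [mem_closedBall, dist_zero_right]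
  linarith [hR u hu]

/-- On a compact set a meromorphic map has finitely many non-analytic points. -/
theorem finite_sing [CompleteSpace E] {S : ℂ → E} {K : Set ℂ} (hK : IsCompact K)
    (h : MeromorphicOn S K) : {z ∈ K | ¬ AnalyticAt ℂ S z}.Finite := by
  by_contra hinf
  obtain ⟨x, hx, hacc⟩ := Set.Infinite.exists_accPt_of_subset_isCompact hinf hK
    (fun _ hz => hz.1)
  rw [accPt_iff_frequently_nhdsNE] at hacc
  obtain ⟨z, h1, h2⟩ := (hacc.and_eventually (h x hx).eventually_analyticAt).exists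
  exact h1.2 h2

/-- A property that holds on a punctured neighbourhood of each point of a compact set fails at
finitely many points of it. -/
theorem finite_of_punctured {K : Set ℂ} (hK : IsCompact K) {p : ℂ → Prop}
    (h : ∀ x ∈ K, ∀ᶠ z in 𝓝[≠] x, p z) : {z ∈ K | ¬ p z}.Finite := by
  by_contra hinf
  obtain ⟨x, hx, hacc⟩ := Set.Infinite.exists_accPt_of_subset_isCompact hinf hK
    (fun _ hz => hz.1)
  rw [accPt_iff_frequently_nhdsNE] at hacc
  obtain ⟨z, h1, h2⟩ := (hacc.and_eventually (h x hx)).exists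
  exact h1.2 h2

/-- A polynomial weight killing the poles of a meromorphic map on a compact set. -/
theorem exists_weight [CompleteSpace E] {S : ℂ → E} {K : Set ℂ} (hK : IsCompact K)
    (h : MeromorphicOn S K) : ∃ (q : ℂ[X]) (C : ℝ), q ≠ 0 ∧
      (∀ z, q.eval z = 0 → z ∈ K ∧ ¬ AnalyticAt ℂ S z) ∧
      ∀ z ∈ K, AnalyticAt ℂ S z → ‖q.eval z‖ * ‖S z‖ ≤ C := by
  classical
  set P := (finite_sing hK h).toFinset with hP
  have hPm : ∀ z, z ∈ P ↔ z ∈ K ∧ ¬ AnalyticAt ℂ S z := fun z => by simp [hP]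
  choose! n hn using fun p (hp : p ∈ P) => h p ((hPm p).1 hp).1
  set q : ℂ[X] := ∏ p ∈ P, (X - C p) ^ n p with hq
  have hloc : ∀ x ∈ K, ∃ C : ℝ, ∀ᶠ z in 𝓝 x, AnalyticAt ℂ S z → ‖q.eval z‖ * ‖S z‖ ≤ C := by
    intro x hx
    have : ContinuousAt (fun z => q.eval z • S z) x := by
      by_cases hxP : x ∈ P
      · have e : (fun z => q.eval z • S z) = fun z =>
            (∏ p ∈ P.erase x, (X - C p) ^ n p).eval z • ((z - x) ^ n x • S z) := by
          funext z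
          rw [hq, ← Finset.prod_erase_mul _ _ hxP, eval_mul, smul_smul]; simp
        rw [e]
        exact (Polynomial.continuous _).continuousAt.smul (hn x hxP).continuousAt
      · have : AnalyticAt ℂ S x := by
          by_contra h1; exact hxP ((hPm x).2 ⟨hx, h1⟩)
        exact q.continuous.continuousAt.smul this.continuousAt
    refine ⟨‖q.eval x • S x‖ + 1, (this.norm.eventually (gt_mem_nhds (lt_add_one _))).mono
      fun z hz _ => ?_⟩
    rw [← norm_smul]; exact hz.le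
  choose! Cx hCx using hloc
  obtain ⟨t, ht, hcov⟩ := hK.elim_nhds_subcover _ hCx
  refine ⟨q, ∑ x ∈ t, |Cx x|, Finset.prod_ne_zero_iff.2 fun p _ => pow_ne_zero _
    (X_sub_C_ne_zero p), fun z hz => ?_, fun z hz ha => ?_⟩
  · rw [hq, eval_prod, Finset.prod_eq_zero_iff] at hz
    obtain ⟨p, hp, h0⟩ := hz
    have : z = p := by
      simp only [eval_pow, eval_sub, eval_X, eval_C] at h0
      exact sub_eq_zero.1 (pow_eq_zero_iff (by rintro h; simp [h] at h0) |>.1 h0)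
    exact this ▸ (hPm p).1 hp
  · obtain ⟨x, hx, hzx⟩ := mem_iUnion₂.1 (hcov hz)
    exact (hzx ha).trans ((le_abs_self _).trans
      (Finset.single_le_sum (f := fun x => |Cx x|) (fun _ _ => abs_nonneg _) hx))

end

/-! ### Reflection -/

@[simp] theorem rfl1_rfl1 (z : ℂ) : rfl1 (rfl1 z) = z := by simp [rfl1]

@[simp] theorem norm_rfl1 (z : ℂ) : ‖rfl1 z‖ = ‖z‖⁻¹ := by simp [rfl1]

theorem rfl1_of_norm_one {z : ℂ} (h : ‖z‖ = 1) : rfl1 z = z := by
  have h0 : z ≠ 0 := by rintro rfl; simp at h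
  have h1 : conj z ≠ 0 := by simpa using h0
  unfold rfl1
  field_simp
  rw [Complex.conj_mul', h]; simp

theorem continuousAt_rfl1 {z : ℂ} (h : z ≠ 0) : ContinuousAt rfl1 z :=
  Complex.continuous_conj.continuousAt.inv₀ (by simpa using h)

/-- Reflection principle. -/
theorem analyticAt_rfl {Y Y' : Type} [NormedAddCommGroup Y] [NormedSpace ℂ Y] [CompleteSpace Y]
    [NormedAddCommGroup Y'] [NormedSpace ℂ Y'] [CompleteSpace Y'] (J : Y →L⋆[ℂ] Y') {f : ℂ → Y}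
    {z : ℂ} (h : AnalyticAt ℂ f (conj z)) : AnalyticAt ℂ (fun x => J (f (conj x))) z := by
  rw [Complex.analyticAt_iff_eventually_differentiableAt]
  filter_upwards [Complex.continuous_conj.continuousAt.eventually h.eventually_analyticAt] with x hx
  exact DifferentiableAt.comp_semilinear₂ J (starL ℂ (A := ℂ)).toContinuousLinearMap
    (f := f) (z := x) hx.differentiableAt

theorem analyticAt_rfl1 {Y Y' : Type} [NormedAddCommGroup Y] [NormedSpace ℂ Y] [CompleteSpace Y]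
    [NormedAddCommGroup Y'] [NormedSpace ℂ Y'] [CompleteSpace Y'] (J : Y →L⋆[ℂ] Y') {f : ℂ → Y}
    {z : ℂ} (hz : z ≠ 0) (h : AnalyticAt ℂ f (rfl1 z)) :
    AnalyticAt ℂ (fun x => J (f (rfl1 x))) z :=
  analyticAt_rfl J (f := fun x => f x⁻¹)
    (AnalyticAt.comp (g := f) (f := fun x : ℂ => x⁻¹) h (analyticAt_inv (by simpa using hz)))

end

end Pool.Agent.P.MP_daea48_ag
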