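import Pool.Agent.P.MP_daea48_ag.StA

/-! Package `Ball`: loops in a small ball of a chart are fillable. -/

open Set Filter Topology Metric Polynomial Asymptotics
open scoped ComplexConjugate

namespace Pool.Agent.P.MP_daea48_ag

noncomputable section

open Classical

namespace Ball

theorem bd_mem {p : ℝ × ℝ} (hp : p ∈ bd) : (p.1 + 1) / 2 ∈ Icc (0 : ℝ) 1 := by
  have h1 : ‖p‖ = 1 := by simpa [bd] using hp
  have h2 : ‖p.1‖ ≤ 1 := h1 ▸ norm_fst_le p
  rw [Real.norm_eq_abs, abs_le] at h2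
  constructor <;> linarith [h2.1, h2.2]

theorem aff_norm {c b : ℝ} (hb : 0 < b) (hcb : |c| + b ≤ 1 / 2) {q : ℝ × ℝ}
    (hq : q ∈ closedBall (0 : ℝ × ℝ) 1) :
    aff (1 / 2 + c * Complex.I) (1 / 2) b q ∈ ball (0 : ℂ) 3 := by
  have h1 : ‖q‖ ≤ 1 := by simpa using hq
  have h2 : |q.1| ≤ 1 := (norm_fst_le q).trans h1
  have h3 : |q.2| ≤ 1 := (norm_snd_le q).trans h1
  rw [mem_ball_zero_iff]
  unfold aff
  have e1 : ‖(1 / 2 + c * Complex.I : ℂ)‖ ≤ 1 / 2 + |c| := by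
    refine (norm_add_le _ _).trans ?_
    simp
  have e2 : ‖(((1 / 2 : ℝ) * q.1 : ℝ) : ℂ)‖ ≤ 1 / 2 := by
    rw [Complex.norm_real, Real.norm_eq_abs, abs_mul]
    have : |(1 / 2 : ℝ)| = 1 / 2 := abs_of_pos (by norm_num)
    rw [this]; linarith
  have e3 : ‖((b * q.2 : ℝ) : ℂ) * Complex.I‖ ≤ b := by
    rw [norm_mul, Complex.norm_I, mul_one, Complex.norm_real, Real.norm_eq_abs, abs_mul,
      abs_of_pos hb]
    nlinarith
  have e4 := norm_add_le ((1 / 2 + c * Complex.I : ℂ) + (((1 / 2 : ℝ) * q.1 : ℝ) : ℂ))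
    (((b * q.2 : ℝ) : ℂ) * Complex.I)
  have e5 := norm_add_le (1 / 2 + c * Complex.I : ℂ) (((1 / 2 : ℝ) * q.1 : ℝ) : ℂ)
  linarith

/-- An analytic function on the disc of radius three that does not vanish at the origin has
finitely many zeros in the disc of radius two. -/
theorem fin_zeros {f : ℂ → ℂ} (hf : AnalyticOnNhd ℂ f (ball 0 3)) (h0 : f 0 ≠ 0) :
    {τ ∈ closedBall (0 : ℂ) 2 | f τ = 0}.Finite := by
  have h := finite_of_punctured (K := closedBall (0 : ℂ) 2) (isCompact_closedBall _ _)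
    (p := fun z => f z ≠ 0) (fun x hx => by
      have hx3 : x ∈ ball (0 : ℂ) 3 := closedBall_subset_ball (by norm_num) hx
      rcases (hf x hx3).eventually_eq_zero_or_eventually_ne_zero with h1 | h1
      · exact absurd (hf.eqOn_zero_of_preconnected_of_eventuallyEq_zero
          (convex_ball _ _).isPreconnected hx3 h1 (mem_ball_self (by norm_num))) h0
      · exact h1)
  simpa using h

end Ball

open Ball in
theorem Ball_of (hAF : S_AF) (hSim : S_Sim) (hFC3 : S_FC3) : S_Ball := by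
  intro E _ _ _ E' _ _ _ U pr TU c κ β hκ hsym x hx
  set b := κ β with hb
  have hρ := c.T.rho_pos (b, x)
  set ρ := c.T.rho (b, x) with hρdef
  have hN : 0 < ‖c.pr‖ + 1 := by positivity
  refine ⟨min ρ (ρ ^ 2 / (7 * (‖c.pr‖ + 1))), by positivity, fun α hα hclose => ?_⟩
  have hsys := (hSim E E' U pr TU κ β hκ).2
  set y : ℝ → c.G' := fun t => c.pr (c.φ (b, α t)) with hy
  have hαU : ∀ t ∈ Icc (0 : ℝ) 1, (b, α t) ∈ U := fun t ht => hα.1.2 ht
  have hyd : ∀ t ∈ Icc (0 : ℝ) 1, ‖y t - c.pr x‖ < ρ ^ 2 / 7 := fun t ht => by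
    have h1 := (hclose t ht).trans_le (min_le_right _ _)
    have h2 : ‖y t - c.pr x‖ ≤ ‖c.pr‖ * ‖c.φ (b, α t) - x‖ := by
      rw [hy]; simp only; rw [← map_sub]; exact c.pr.le_opNorm _
    have h3 : ‖c.pr‖ * ‖c.φ (b, α t) - x‖ ≤ (‖c.pr‖ + 1) * ‖c.φ (b, α t) - x‖ := by
      nlinarith [norm_nonneg (c.φ (b, α t) - x)]
    have h4 : (‖c.pr‖ + 1) * ‖c.φ (b, α t) - x‖ < ρ ^ 2 / 7 := by
      rw [lt_div_iff₀ (by positivity)] at h1
      linarith
    linarith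
  have h01 : (0 : ℝ) ∈ Icc (0 : ℝ) 1 := by simp
  have h11 : (1 : ℝ) ∈ Icc (0 : ℝ) 1 := by simp
  set P : ℝ × ℂ → ℂ × c.G' := fun s => (b, y 0 + s.2 • (y s.1 - y 0)) with hP
  have hdom : ∀ s ∈ Icc (0 : ℝ) 1 ×ˢ ball (0 : ℂ) 3,
      ‖P s - pj c.pr (b, x)‖ < c.T.rho (b, x) ^ 2 := fun s hs => by
    have h1 := hyd 0 h01
    have h2 := hyd s.1 hs.1
    have h3 : ‖s.2‖ < 3 := by simpa using hs.2
    have h4 : ‖y s.1 - y 0‖ ≤ ‖y s.1 - c.pr x‖ + ‖y 0 - c.pr x‖ := by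
      have := norm_sub_le (y s.1 - c.pr x) (y 0 - c.pr x)
      rwa [sub_sub_sub_cancel_right] at this
    have h5 : ‖y 0 + s.2 • (y s.1 - y 0) - c.pr x‖ ≤
        ‖y 0 - c.pr x‖ + ‖s.2‖ * ‖y s.1 - y 0‖ := by
      have := norm_add_le (y 0 - c.pr x) (s.2 • (y s.1 - y 0))
      rw [norm_smul] at this
      refine le_of_eq_of_le ?_ this
      congr 1; abel
    have h6 : ‖s.2‖ * ‖y s.1 - y 0‖ ≤ 3 * ‖y s.1 - y 0‖ :=
      mul_le_mul_of_nonneg_right h3.le (norm_nonneg _)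
    have h7 : ‖P s - pj c.pr (b, x)‖ = ‖y 0 + s.2 • (y s.1 - y 0) - c.pr x‖ := by
      simp [hP]
    rw [h7, ← hρdef]
    linarith
  set v : ℝ × ℂ → c.G := fun s => c.T.ex (b, x) (P s) with hv
  have hvV : ∀ s ∈ Icc (0 : ℝ) 1 ×ˢ ball (0 : ℂ) 3, (b, v s) ∈ c.V := fun s hs =>
    c.T.ex_mem hx (hdom s hs)
  have hyc : ContinuousOn y (Icc 0 1) :=
    (c.pr.continuous.comp c.tr.tφ.continuous).comp_continuousOn
      (continuousOn_const.prodMk hα.1.1)
  have hPc : ContinuousOn P (Icc (0 : ℝ) 1 ×ˢ ball (0 : ℂ) 3) := by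
    refine continuousOn_const.prodMk (continuousOn_const.add (continuousOn_snd.smul
      (ContinuousOn.sub ?_ continuousOn_const)))
    exact hyc.comp continuousOn_fst fun s hs => hs.1
  have hvc : ContinuousOn v (Icc (0 : ℝ) 1 ×ˢ ball (0 : ℂ) 3) :=
    c.T.continuousOn_ex_comp (u := fun _ => (b, x)) continuousOn_const hPc
      fun s hs => ⟨hx, hdom s hs⟩
  have hva : ∀ t ∈ Icc (0 : ℝ) 1, ∀ τ ∈ ball (0 : ℂ) 3,
      AnalyticAt ℂ (fun τ => v (t, τ)) τ := fun t ht τ hτ =>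
    c.T.analyticAt_ex (u := fun _ => (b, x)) (p := fun τ => P (t, τ)) continuousAt_const
      (by simp only [hP]; fun_prop) (hdom (t, τ) ⟨ht, hτ⟩) (Eventually.of_forall fun _ => hx)
  have hex : ∀ t ∈ Icc (0 : ℝ) 1, c.T.ex (b, x) (b, y t) = c.φ (b, α t) := fun t ht => by
    refine c.T.ex_unique hx (z := b) (c.tr.fw _ (hαU t ht)).1 ?_ rfl
    have h1 := (hclose t ht).trans_le (min_le_left _ _)
    simpa using h1
  have hv0 : ∀ t, v (t, 0) = c.φ (b, α 0) := fun t => by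
    rw [← hex 0 h01]; simp [hv, hP]
  have hv1 : ∀ t ∈ Icc (0 : ℝ) 1, v (t, 1) = c.φ (b, α t) := fun t ht => by
    rw [← hex t ht]; simp [hv, hP]
  have hv2 : ∀ τ, v (0, τ) = c.φ (b, α 0) := fun τ => by
    rw [← hex 0 h01]; simp [hv, hP]
  have hv3 : ∀ τ, v (1, τ) = c.φ (b, α 0) := fun τ => by
    have : y 1 = y 0 := by simp only [hy, hα.2]
    rw [← hex 0 h01]; simp [hv, hP, this]
  set hh : ℝ × ℂ → ℂ := fun s => c.h (b, v s) with hhh
  set G : ℝ × ℂ → E := fun s => (c.h (b, v s))⁻¹ • c.ψ (b, v s) with hG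
  have hfw := fun t ht => (c.tr.fw _ (hαU t ht)).2
  have hhc : ContinuousOn hh (Icc (0 : ℝ) 1 ×ˢ ball (0 : ℂ) 3) :=
    c.tr.th.continuous.comp_continuousOn (continuousOn_const.prodMk hvc)
  have key := hFC3 E (fib U b) (SFill U κ β) hsys hsym G hh (α 0) hhc ?_ ?_ ?_ ?_ ?_
  · refine hsys.congr _ _ (fun p hp => ?_) key
    have e : ∀ t ∈ Icc (0 : ℝ) 1, G (t, 1) = α t := fun t ht => by
      simp only [hG, hv1 t ht]; exact (hfw t ht).2
    unfold two
    split_ifs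
    · exact e 0 h01
    · exact e _ (bd_mem hp)
  · refine ContinuousOn.smul ((hhc.mono fun s hs => hs.1).inv₀ fun s hs => hs.2) ?_
    exact c.tr.tψ.continuous.comp_continuousOn
      (continuousOn_const.prodMk (hvc.mono fun s hs => hs.1))
  · exact fun s hs => (c.tr.bw _ (hvV s hs.1) hs.2).1
  · intro t ht
    have a0 : hh (t, 0) ≠ 0 := by simp only [hhh, hv0]; exact (hfw 0 h01).1
    refine ⟨fin_zeros (f := fun τ => hh (t, τ)) (fun τ hτ => ?_) a0, a0, ?_, ?_⟩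
    · exact diff_an_comp (f := c.h) (γ := fun τ => (b, v (t, τ))) c.tr.th.1
        (analyticAt_const.prod (hva t ht τ hτ))
    · simp only [hhh, hv1 t ht]; exact (hfw t ht).1
    · simp only [hG, hv0]; exact (hfw 0 h01).2
  · intro τ _
    refine ⟨?_, ?_, ?_, ?_⟩
    · simp only [hhh, hv2]; exact (hfw 0 h01).1
    · simp only [hhh, hv3]; exact (hfw 0 h01).1
    · simp only [hG, hv2]; exact (hfw 0 h01).2
    · simp only [hG, hv3]; exact (hfw 0 h01).2
  · intro t ht c' b' hb' hcb hq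
    have hsub : ∀ τ ∈ rect (1 / 2 + c' * Complex.I) (1 / 2) b', τ ∈ ball (0 : ℂ) 3 := by
      rintro τ ⟨q, hq, rfl⟩
      exact aff_norm hb' hcb hq
    have hfst : Continuous fun s : (ℂ × c.G) × ℂ => c.h s.1 :=
      c.tr.th.continuous.comp continuous_fst
    refine hAF E E' c.G c.G' U pr TU c.V c.pr c.T κ β (1 / 2 + c' * Complex.I) (1 / 2) b'
      (fun τ => v (t, τ)) (fun s => (c.h s.1)⁻¹ • c.ψ s.1) {s | c.h s.1 ≠ 0} hκ (by norm_num) hb'
      (fun τ hτ => (hva t ht τ (hsub τ hτ)).continuousAt.continuousWithinAt)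
      (fun τ hτ => hva t ht τ (hsub τ (image_mono ball_subset_closedBall hτ)))
      (fun τ hτ => hvV (t, τ) ⟨ht, hsub τ hτ⟩) (isOpen_ne_fun hfst continuous_const) ?_ ?_ ?_ hq
    · exact MF.quot (AC.of_diff (c.tr.tψ.1.comp differentiable_fst) _)
        (AC.of_diff (c.tr.th.1.comp differentiable_fst) _)
    · exact ContinuousOn.smul (hfst.continuousOn.inv₀ fun s hs => hs.2)
        (c.tr.tψ.continuous.comp continuous_fst).continuousOn
    · exact fun s hs => (c.tr.bw _ hs.1.1 hs.2).1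

end

end Pool.Agent.P.MP_daea48_ag
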