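import Pool.Agent.P.MP_daea48_ag.StA

/-! Bridges for base changes and Weil restrictions. -/

open Set Filter Topology Metric Polynomial Asymptotics
open scoped ComplexConjugate

namespace Pool.Agent.P.MP_daea48_ag

noncomputable section

open Classical

namespace BrW

variable {E E' : Type} [NormedAddCommGroup E] [NormedSpace ℂ E] [NormedAddCommGroup E']
  [NormedSpace ℂ E']

theorem base [FiniteDimensional ℂ E] [FiniteDimensional ℂ E'] {L L' L'' : Type}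
    [NormedAddCommGroup L] [NormedSpace ℂ L] [FiniteDimensional ℂ L]
    [NormedAddCommGroup L'] [NormedSpace ℂ L'] [NormedAddCommGroup L''] [NormedSpace ℂ L'']
    (B : Set (ℂ × L)) (m : ℂ × L → ℂ) (U : Set (ℂ × E))
    (pr : E →L[ℂ] E') (lab : E →L[ℂ] L') (hm : Differentiable ℂ m) (hU : Br U pr lab)
    (lab' : L × E →L[ℂ] L'') (hl : ∀ c ξ ξ', lab' (c, ξ) = lab' (c, ξ')) :
    Br (BU B m U) (prB L pr) lab' := by
  intro K hK hKc η₀ hη₀
  set f0 : ℂ × (L × E) → ℂ × E := fun u => (m (u.1, u.2.1), u.2.2) with hf0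
  have df0 : Differentiable ℂ f0 := by
    refine Differentiable.prodMk (hm.comp ?_) ?_ <;> fun_prop
  obtain ⟨ε, hε, h⟩ := hU (f0 '' K) (by rintro _ ⟨u, hu, rfl⟩; exact (hK hu).2)
    (hKc.image df0.continuous) η₀ hη₀
  refine ⟨ε, hε, fun η hη => ?_⟩
  obtain ⟨w₀, hw₀, Ψ, Reg, hd⟩ := h η hη
  set F : (ℂ × (L × E)) × E' × E' × ℂ → (ℂ × E) × E' × E' × ℂ := fun x => (f0 x.1, x.2) with hF
  have dF : Differentiable ℂ F := (df0.comp differentiable_fst).prodMk differentiable_snd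
  have hmap : MapsTo F (brD K E' ε) (brD (f0 '' K) E' ε) := fun x hx =>
    ⟨mem_image_of_mem _ hx.1, hx.2⟩
  refine ⟨w₀, hw₀, fun x => (x.1.2.1, Ψ (F x)), F ⁻¹' Reg, ?_, ?_, ?_, ?_⟩
  · exact (hd.mf.comp (AC.of_diff dF _) hmap).prod_left (AC.of_diff (by fun_prop) _)
  · intro x hx hr
    exact ⟨⟨(hK hx.1).1, (hd.mem _ (hmap hx) hr).1⟩, hl _ _ _⟩
  · intro x hx hw
    obtain ⟨h1, h2, h3⟩ := hd.near0 _ (hmap hx) hw
    refine ⟨h1, ?_, h3⟩
    rw [Prod.norm_def]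
    exact max_lt (by simpa using hη₀) h2
  · intro x hx hw
    obtain ⟨h1, h2, h3⟩ := hd.nearI _ (hmap hx) hw
    refine ⟨h1, ?_, h3⟩
    rw [Prod.norm_def]
    exact max_lt (by simpa using hη₀) h2

theorem itp_sub (Q : ℂ[X][X]) (d : ℕ) (z : ℂ) (f g : ℂ → E) :
    itp Q d z (fun v => f v - g v) = itp Q d z f - itp Q d z g := by
  funext l
  simp only [itp, Pi.sub_apply, smul_sub, Finset.sum_sub_distrib]

theorem itp_map (Q : ℂ[X][X]) (d : ℕ) (z : ℂ) (f : ℂ → E) (pr : E →L[ℂ] E') :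
    itp Q d z (fun v => pr (f v)) = fun l => pr (itp Q d z f l) := by
  funext l
  simp only [itp, map_sum, map_smul]

theorem ev_map {d : ℕ} (v : ℂ) (X : Fin d → E) (pr : E →L[ℂ] E') :
    ev v (fun l => pr (X l)) = pr (ev v X) := by
  simp only [ev, map_sum, map_smul]

theorem ev_norm {d : ℕ} (v : ℂ) (X : Fin d → E) {R : ℝ} (hv : ‖v‖ ≤ R) :
    ‖ev v X‖ ≤ (1 + ∑ l : Fin d, R ^ (l : ℕ)) * ‖X‖ := by
  unfold ev
  refine (norm_sum_le _ _).trans ?_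
  have h1 : ∑ l : Fin d, ‖v ^ (l : ℕ) • X l‖ ≤ ∑ l : Fin d, R ^ (l : ℕ) * ‖X‖ := by
    refine Finset.sum_le_sum fun l _ => ?_
    rw [norm_smul, norm_pow]
    exact mul_le_mul (pow_le_pow_left₀ (norm_nonneg _) hv _) (norm_le_pi_norm X l)
      (norm_nonneg _) (pow_nonneg ((norm_nonneg _).trans hv) _)
  rw [← Finset.sum_mul] at h1
  rw [add_mul, one_mul]
  linarith [norm_nonneg X]

theorem ev_diff {d : ℕ} {W : Type} [NormedAddCommGroup W] [NormedSpace ℂ W] {v : W → ℂ}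
    {X : W → Fin d → E} (hv : Differentiable ℂ v) (hX : Differentiable ℂ X) :
    Differentiable ℂ fun w => ev (v w) (X w) := by
  unfold ev
  refine Differentiable.fun_sum fun l _ => (hv.pow _).smul ?_
  exact (differentiable_apply l).comp hX

/-- The point of `U` above a root. -/
def gp {d : ℕ} (p : (ℂ × ((Fin d → E) × ℂ)) × ℂ) : ℂ × ((ℂ × ℂ) × E) :=
  (p.1.1, ((p.2, p.1.2.2), ev p.2 p.1.2.1))

/-- The parameter above a root. -/
def gq {d : ℕ} (p : ((ℂ × ((Fin d → E) × ℂ)) × (Fin d → E') × (Fin d → E') × ℂ) × ℂ) :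
    (ℂ × ((ℂ × ℂ) × E)) × E' × E' × ℂ :=
  (gp (p.1.1, p.2), ev p.2 p.1.2.1, ev p.2 p.1.2.2.1, p.1.2.2.2)

theorem gp_diff {d : ℕ} : Differentiable ℂ (gp (E := E) (d := d)) := by
  unfold gp
  refine Differentiable.prodMk (by fun_prop) (Differentiable.prodMk (by fun_prop) ?_)
  exact ev_diff (by fun_prop) (by fun_prop)

theorem gq_diff {d : ℕ} : Differentiable ℂ (gq (E := E) (E' := E') (d := d)) := by
  unfold gq
  have h0 : Differentiable ℂ fun p : ((ℂ × ((Fin d → E) × ℂ)) × (Fin d → E') × (Fin d → E') × ℂ) × ℂ =>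
      (p.1.1, p.2) := by fun_prop
  have h1 := (gp_diff (E := E) (d := d)).comp h0
  refine Differentiable.prodMk h1 (Differentiable.prodMk ?_
    (Differentiable.prodMk ?_ (by fun_prop)))
  · exact ev_diff (by fun_prop) (by fun_prop)
  · exact ev_diff (by fun_prop) (by fun_prop)

/-- Insert the second component in the slot `k`. -/
def tk {d : ℕ} (k : Fin d) : (ℂ × ℂ) × E →L[ℂ] (Fin d → E) × ℂ :=
  (ContinuousLinearMap.inl ℂ (Fin d → E) ℂ).comp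
    ((ContinuousLinearMap.single ℂ (fun _ : Fin d => E) k).comp
      (ContinuousLinearMap.snd ℂ (ℂ × ℂ) E))

theorem tk_sum {d : ℕ} (co : Fin d → Fin d → ℂ) (P : Fin d → (ℂ × ℂ) × E) (y : ℂ)
    (Y : Fin d → E) (hY : ∀ k, Y k = ∑ i, co i k • (P i).2) :
    (Y, y) = (∑ i, ∑ k, co i k • tk k (P i)) + ContinuousLinearMap.inr ℂ (Fin d → E) ℂ y := by
  refine Prod.ext ?_ ?_
  · funext k0
    simp only [tk, Prod.fst_add, Prod.fst_sum, Pi.add_apply, Finset.sum_apply, Prod.smul_fst,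
      Pi.smul_apply, ContinuousLinearMap.comp_apply, ContinuousLinearMap.inl_apply,
      ContinuousLinearMap.single_apply, ContinuousLinearMap.coe_snd',
      ContinuousLinearMap.inr_apply, Pi.zero_apply, add_zero, hY]
    refine Finset.sum_congr rfl fun i _ => ?_
    rw [Finset.sum_eq_single k0]
    · simp
    · intro k _ hk
      simp [Pi.single_eq_of_ne hk.symm]
    · simp
  · simp [tk, Prod.snd_sum]

theorem weil (hI : S_Itp) [FiniteDimensional ℂ E] [FiniteDimensional ℂ E'] (Q : ℂ[X][X]) (d : ℕ)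
    (δ : ℂ[X]) (U : Set (ℂ × ((ℂ × ℂ) × E))) (pr : E →L[ℂ] E') (hc : Cov Q d δ)
    (hU : Br U (prB _ pr) (labB _ E)) : Br (WU Q d δ U) (prW d pr) (lab0 _) := by
  obtain ⟨⟨C₁, A₁, hC₁, hroot⟩, -, -, -, h5, h6, -⟩ := hI Q d δ hc
  obtain ⟨h5a, h5b, -, ⟨C₂, A₂, hC₂, h5d⟩, -⟩ := h5 E
  obtain ⟨-, h5b', -, ⟨C₃, A₃, hC₃, h5d'⟩, -⟩ := h5 E'
  intro K hK hKc η₀ hη₀
  obtain ⟨R₀, hR₀⟩ := hKc.isBounded.exists_norm_le
  set R₁ := max R₀ 0 with hR₁
  have hR₁0 : 0 ≤ R₁ := le_max_right _ _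
  have hz : ∀ u ∈ K, ‖u.1‖ ≤ R₁ := fun u hu =>
    (norm_fst_le u).trans ((hR₀ u hu).trans (le_max_left _ _))
  have hy : ∀ u ∈ K, ‖u.2.2‖ ≤ R₁ := fun u hu =>
    (norm_snd_le u.2).trans ((norm_snd_le u).trans ((hR₀ u hu).trans (le_max_left _ _)))
  have hδ : ∀ u ∈ K, δ.eval u.1 ≠ 0 := fun u hu h0 => by
    have := (hK hu).1
    rw [h0, mul_zero] at this
    exact zero_ne_one this
  set R := C₁ * (1 + R₁) ^ A₁ with hR
  have hv : ∀ u ∈ K, ∀ v, Q.evalEval u.1 v = 0 → ‖v‖ ≤ R := fun u hu v h0 =>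
    (hroot _ _ h0).trans (by
      have := hz u hu
      rw [hR]
      gcongr)
  have hR0 : 0 ≤ R := by positivity
  set Z : Set ((ℂ × ((Fin d → E) × ℂ)) × ℂ) := {p | p.1 ∈ K ∧ Q.evalEval p.1.1 p.2 = 0} with hZ
  have hZc : IsCompact Z := by
    refine (hKc.prod (isCompact_closedBall (0 : ℂ) R)).of_isClosed_subset ?_ ?_
    · refine (hKc.isClosed.preimage continuous_fst).inter (isClosed_eq ?_ continuous_const)
      exact ((Tame.fst'.fst).evalEval Tame.snd' Q).continuous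
    · exact fun p hp => ⟨hp.1, mem_closedBall_zero_iff.2 (hv _ hp.1 _ hp.2)⟩
  set N₂ := C₂ * (1 + R₁ + R₁) ^ A₂ with hN₂
  set N₃ := C₃ * (1 + R₁ + R₁) ^ A₃ with hN₃
  have hN₂0 : 0 < N₂ := by positivity
  have hN₃0 : 0 < N₃ := by positivity
  have b2 : ∀ u ∈ K, ∀ (val : ℂ → E) (M : ℝ), 0 < M →
      (∀ v, Q.evalEval u.1 v = 0 → ‖val v‖ < M / (2 * N₂)) → ‖itp Q d u.1 val‖ < M := by
    intro u hu val M hM hval
    have h1 := h5d u.1 u.2.2 val (M / (2 * N₂)) (by positivity) (hK hu).1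
      fun v h0 => (hval v h0).le
    have h2 : C₂ * (1 + ‖u.1‖ + ‖u.2.2‖) ^ A₂ ≤ N₂ := by
      have := hz u hu
      have := hy u hu
      rw [hN₂]
      gcongr
    have h3 : N₂ * (M / (2 * N₂)) = M / 2 := by field_simp
    have h4 := mul_le_mul_of_nonneg_right h2 (show 0 ≤ M / (2 * N₂) by positivity)
    linarith
  have b3 : ∀ u ∈ K, ∀ (val : ℂ → E') (M : ℝ), 0 < M →
      (∀ v, Q.evalEval u.1 v = 0 → ‖val v‖ < M / (2 * N₃)) → ‖itp Q d u.1 val‖ < M := by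
    intro u hu val M hM hval
    have h1 := h5d' u.1 u.2.2 val (M / (2 * N₃)) (by positivity) (hK hu).1
      fun v h0 => (hval v h0).le
    have h2 : C₃ * (1 + ‖u.1‖ + ‖u.2.2‖) ^ A₃ ≤ N₃ := by
      have := hz u hu
      have := hy u hu
      rw [hN₃]
      gcongr
    have h3 : N₃ * (M / (2 * N₃)) = M / 2 := by field_simp
    have h4 := mul_le_mul_of_nonneg_right h2 (show 0 ≤ M / (2 * N₃) by positivity)
    linarith
  obtain ⟨ε', hε', h⟩ := hU (gp '' Z) (by rintro _ ⟨p, hp, rfl⟩; exact (hK hp.1).2 _ hp.2)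
    (hZc.image gp_diff.continuous) (η₀ / (2 * N₂)) (by positivity)
  set S := 1 + ∑ l : Fin d, R ^ (l : ℕ) with hS
  have hS0 : 0 < S := by positivity
  refine ⟨ε' / S, by positivity, fun η hη => ?_⟩
  obtain ⟨w₀, hw₀, Ψ, Reg, hd⟩ := h (η / (2 * N₃)) (by positivity)
  have hball : ∀ u ∈ K, ∀ v, Q.evalEval u.1 v = 0 → ∀ a : Fin d → E',
      a ∈ ball (0 : Fin d → E') (ε' / S) → ev v a ∈ ball (0 : E') ε' := by
    intro u hu v h0 a ha
    rw [mem_ball_zero_iff] at ha ⊢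
    refine (ev_norm v a (hv u hu v h0)).trans_lt ?_
    rw [lt_div_iff₀ hS0] at ha
    linarith
  have hmap : ∀ x ∈ brD K (Fin d → E') (ε' / S), ∀ v, Q.evalEval x.1.1 v = 0 →
      gq (x, v) ∈ brD (gp '' Z) E' ε' := fun x hx v h0 =>
    ⟨mem_image_of_mem _ ⟨hx.1, h0⟩, hball _ hx.1 v h0 _ hx.2.1, hball _ hx.1 v h0 _ hx.2.2.1,
      mem_univ _⟩
  have est : ∀ x ∈ brD K (Fin d → E') (ε' / S), ∀ a : Fin d → E',
      (∀ v, Q.evalEval x.1.1 v = 0 → ‖Ψ (gq (x, v)) - (gq (x, v)).1.2‖ < η₀ / (2 * N₂) ∧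
        ‖prB (ℂ × ℂ) pr (Ψ (gq (x, v))) - prB (ℂ × ℂ) pr (gq (x, v)).1.2 - ev v a‖ <
          η / (2 * N₃)) →
      ‖(itp Q d x.1.1 (fun v => (Ψ (gq (x, v))).2), x.1.2.2) - x.1.2‖ < η₀ ∧
        ‖prW d pr (itp Q d x.1.1 (fun v => (Ψ (gq (x, v))).2), x.1.2.2) - prW d pr x.1.2 - a‖ <
          η := by
    intro x hx a hb
    constructor
    · rw [Prod.norm_def]
      refine max_lt ?_ (by simpa using hη₀)
      have e : ((itp Q d x.1.1 (fun v => (Ψ (gq (x, v))).2), x.1.2.2) - x.1.2).1 =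
          itp Q d x.1.1 (fun v => (Ψ (gq (x, v))).2 - ev v x.1.2.1) := by
        rw [itp_sub, h5b _ _ (hδ _ hx.1)]
        rfl
      rw [e]
      exact b2 _ hx.1 _ _ hη₀ fun v h0 => (norm_snd_le _).trans_lt (hb v h0).1
    · have e : prW d pr (itp Q d x.1.1 (fun v => (Ψ (gq (x, v))).2), x.1.2.2) - prW d pr x.1.2 - a =
          itp Q d x.1.1 (fun v => pr (Ψ (gq (x, v))).2 - ev v (fun l => pr (x.1.2.1 l)) -
            ev v a) := by
        rw [itp_sub, itp_sub, h5b' _ _ (hδ _ hx.1), h5b' _ _ (hδ _ hx.1), itp_map]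
        rfl
      rw [e]
      refine b3 _ hx.1 _ _ hη fun v h0 => ?_
      rw [ev_map]
      exact (hb v h0).2
  have key : ∀ (γ : ℂ → (ℂ × ((Fin d → E) × ℂ)) × (Fin d → E') × (Fin d → E') × ℂ) (l : ℂ),
      AnalyticAt ℂ γ l → (∀ᶠ x in 𝓝 l, γ x ∈ brD K (Fin d → E') (ε' / S)) →
      ∃ (v : Fin d → ℂ → ℂ) (co : Fin d → Fin d → ℂ → ℂ),
        (∀ i, AnalyticAt ℂ (fun x => gq (γ x, v i x)) l) ∧ (∀ i k, AnalyticAt ℂ (co i k) l) ∧
        (∀ i, ∀ᶠ x in 𝓝 l, gq (γ x, v i x) ∈ brD (gp '' Z) E' ε') ∧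
        (∀ᶠ x in 𝓝 l, ∀ w, Q.evalEval (γ x).1.1 w = 0 ↔ ∃ i, v i x = w) ∧
        (fun x => (∑ i, ∑ k, co i k x • tk k (Ψ (gq (γ x, v i x)))) +
            ContinuousLinearMap.inr ℂ (Fin d → E) ℂ (γ x).1.2.2) =ᶠ[𝓝 l]
          fun x => (itp Q d (γ x).1.1 (fun v => (Ψ (gq (γ x, v))).2), (γ x).1.2.2) := by
    intro γ l hγ hD
    obtain ⟨v, co, hv, hco, hev⟩ := h6 (fun x => (γ x).1.1) l
      (diff_an_comp (f := fun p : (ℂ × ((Fin d → E) × ℂ)) × (Fin d → E') × (Fin d → E') × ℂ =>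
        p.1.1) (by fun_prop) hγ) (hδ _ hD.self_of_nhds.1)
    refine ⟨v, co, fun i => diff_an_comp gq_diff (hγ.prod (hv i)), hco, fun i => ?_,
      hev.mono fun x hx => hx.2.1, ?_⟩
    · filter_upwards [hD, hev] with x h1 h2
      exact hmap _ h1 _ ((h2.2.1 _).2 ⟨i, rfl⟩)
    · filter_upwards [hev] with x h2
      exact (tk_sum (fun i k => co i k x) (fun i => Ψ (gq (γ x, v i x))) _ _
        fun k => h2.2.2 E _ k).symm
  have hyan : ∀ (γ : ℂ → (ℂ × ((Fin d → E) × ℂ)) × (Fin d → E') × (Fin d → E') × ℂ) (l : ℂ),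
      AnalyticAt ℂ γ l →
      AnalyticAt ℂ (fun x => ContinuousLinearMap.inr ℂ (Fin d → E) ℂ (γ x).1.2.2) l :=
    fun γ l hγ => diff_an_comp
      (f := fun p : (ℂ × ((Fin d → E) × ℂ)) × (Fin d → E') × (Fin d → E') × ℂ =>
        ContinuousLinearMap.inr ℂ (Fin d → E) ℂ p.1.2.2) (by fun_prop) hγ
  refine ⟨w₀, hw₀, fun x => (itp Q d x.1.1 (fun v => (Ψ (gq (x, v))).2), x.1.2.2),
    {x | ∀ v, Q.evalEval x.1.1 v = 0 → gq (x, v) ∈ Reg}, ⟨?_, ?_⟩, ?_, ?_, ?_⟩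
  · intro γ l hγ hD hr
    obtain ⟨v, co, h1, h2, h3, h4, h5⟩ := key γ l hγ hD
    have h6 := fun i => hd.mf.an _ l (h1 i) (h3 i) (hr _ ((h4.self_of_nhds _).2 ⟨i, rfl⟩))
    constructor
    · filter_upwards [h4, eventually_all.2 fun i => (h6 i).1] with x hx1 hx2 w hw
      obtain ⟨i, rfl⟩ := (hx1 w).1 hw
      exact hx2 i
    · refine AnalyticAt.congr ?_ h5
      refine AnalyticAt.add ?_ (hyan γ l hγ)
      refine Finset.analyticAt_fun_sum _ fun i _ => Finset.analyticAt_fun_sum _ fun k _ => ?_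
      have h7 := diff_an_comp (tk (E := E) k).differentiable (h6 i).2
      exact (h2 i k).smul h7
  · intro γ l hγ hD
    obtain ⟨v, co, h1, h2, h3, h4, h5⟩ := key γ l hγ hD
    by_cases hex : ∃ i, ∀ᶠ x in 𝓝[≠] l, gq (γ x, v i x) ∉ Reg
    · left
      obtain ⟨i, hi⟩ := hex
      filter_upwards [hi, h4.filter_mono nhdsWithin_le_nhds] with x hx1 hx2 hx3
      exact hx1 (hx3 _ ((hx2 _).2 ⟨i, rfl⟩))
    · right
      have h6 := fun i => (hd.mf.dich _ l (h1 i) (h3 i)).resolve_left fun hh => hex ⟨i, hh⟩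
      constructor
      · filter_upwards [h4.filter_mono nhdsWithin_le_nhds, eventually_all.2 fun i => (h6 i).1]
          with x hx1 hx2 w hw
        obtain ⟨i, rfl⟩ := (hx1 w).1 hw
        exact hx2 i
      · refine MeromorphicAt.congr ?_ (h5.filter_mono nhdsWithin_le_nhds)
        refine MeromorphicAt.add ?_ (hyan γ l hγ).meromorphicAt
        refine MeromorphicAt.fun_sum fun i _ => MeromorphicAt.fun_sum fun k _ => ?_
        exact (h2 i k).meromorphicAt.smul ((Tame.clm (tk k)).mero (h6 i).2)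
  · intro x hx hr
    refine ⟨⟨(hK hx.1).1, fun v h0 => ?_⟩, rfl⟩
    obtain ⟨h1, h2⟩ := hd.mem _ (hmap x hx v h0) (hr v h0)
    have h3 : (Ψ (gq (x, v))).1 = (v, x.1.2.2) := h2
    have h4 : ev v (itp Q d x.1.1 (fun v => (Ψ (gq (x, v))).2)) = (Ψ (gq (x, v))).2 :=
      h5a _ _ v (hδ _ hx.1) h0
    change (x.1.1, ((v, x.1.2.2), ev v (itp Q d x.1.1 (fun v => (Ψ (gq (x, v))).2)))) ∈ U
    rw [h4, ← h3]
    exact h1
  · intro x hx hw
    have h1 := fun v h0 => hd.near0 _ (hmap x hx v h0) hw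
    exact ⟨fun v h0 => (h1 v h0).1, est x hx _ fun v h0 => (h1 v h0).2⟩
  · intro x hx hw
    have h1 := fun v h0 => hd.nearI _ (hmap x hx v h0) hw
    exact ⟨fun v h0 => (h1 v h0).1, est x hx _ fun v h0 => (h1 v h0).2⟩

end BrW

theorem BrW_of (h1 : S_Itp) : S_BrW := by
  refine ⟨fun E _ _ _ E' _ _ _ L _ _ _ L' _ _ _ B m U pr lab hm hU => ⟨?_, ?_⟩,
    fun E _ _ _ E' _ _ _ Q d δ U pr hc _ hU => BrW.weil h1 Q d δ U pr hc hU⟩
  · exact BrW.base B m U pr lab hm hU _ fun _ _ _ => rfl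
  · exact BrW.base B m U pr lab hm hU _ fun _ _ _ => rfl

end

end Pool.Agent.P.MP_daea48_ag
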