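import Pool.Agent.P.MP_daea48_ag.StA

/-! Two continuous sections near a circle are joined by a section with poles. -/

set_option linter.unusedSectionVars false

open Set Filter Topology Metric Complex

namespace Pool.Agent.P.MP_daea48_ag

noncomputable section

open Classical

namespace C2

theorem real_ind {W : ℝ → Prop} {a b : ℝ} (hab : a ≤ b)
    (h : ∀ t₀ ∈ Icc a b, ∃ δ > 0, ∀ t t', a ≤ t → t < t' → t' ≤ b → t₀ - δ < t → t' < t₀ + δ →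
      W t → W t') (ha : W a) : W b := by
  have hne : {t ∈ Icc a b | W t}.Nonempty := ⟨a, ⟨le_rfl, hab⟩, ha⟩
  have hbd : BddAbove {t ∈ Icc a b | W t} := ⟨b, fun t ht => ht.1.2⟩
  have hc : sSup {t ∈ Icc a b | W t} ∈ Icc a b :=
    ⟨le_csSup hbd ⟨⟨le_rfl, hab⟩, ha⟩, csSup_le hne fun t ht => ht.1.2⟩
  obtain ⟨δ, hδ, H⟩ := h _ hc
  obtain ⟨t, ht, ht'⟩ := exists_lt_of_lt_csSup hne (sub_lt_self _ hδ)
  have htc := le_csSup hbd ht
  rcases ht.1.2.lt_or_eq with hb | rfl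
  · have h1 : t < min b (sSup {t ∈ Icc a b | W t} + δ / 2) := lt_min hb (by linarith)
    have h2 := H t _ ht.1.1 h1 (min_le_left _ _) ht'
      ((min_le_right _ _).trans_lt (by linarith)) ht.2
    have h3 := le_csSup hbd (a := min b (sSup {t ∈ Icc a b | W t} + δ / 2))
      ⟨⟨ht.1.1.trans h1.le, min_le_left _ _⟩, h2⟩
    rcases min_le_iff.1 h3 with h4 | h4
    · rwa [min_eq_left (by linarith)] at h2
    · linarith
  · exact ht.2

/-- Descent of continuity along a continuous map from a compact set. -/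
theorem continuousOn_descend {X Y Z : Type} [TopologicalSpace X] [TopologicalSpace Y]
    [TopologicalSpace Z] [T2Space Y] {K : Set X} {A : Set Y} {f : X → Y} {g : X → Z} {S : Y → Z}
    (hK : IsCompact K) (hf : Continuous f) (hS : ∀ x ∈ K, S (f x) = g x)
    (hA : ∀ y ∈ A, ∃ x ∈ K, f x = y) (hg : ContinuousOn g (K ∩ f ⁻¹' A)) : ContinuousOn S A := by
  rw [continuousOn_iff_isClosed] at hg ⊢
  intro T hT
  obtain ⟨u, hu, e⟩ := hg T hT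
  refine ⟨f '' (K ∩ u), ((hK.inter_right hu).image hf).isClosed, ?_⟩
  ext y
  constructor
  · rintro ⟨h1, h2⟩
    obtain ⟨x, hx, rfl⟩ := hA y h2
    have : x ∈ g ⁻¹' T ∩ (K ∩ f ⁻¹' A) := ⟨by rwa [mem_preimage, ← hS x hx], hx, h2⟩
    rw [e] at this
    exact ⟨⟨x, ⟨hx, this.1⟩, rfl⟩, h2⟩
  · rintro ⟨⟨x, ⟨hx, hxu⟩, rfl⟩, h2⟩
    have : x ∈ u ∩ (K ∩ f ⁻¹' A) := ⟨hxu, hx, h2⟩
    rw [← e] at this
    exact ⟨by rw [mem_preimage, hS x hx]; exact this.1, h2⟩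

theorem continuousOn_ite {X Z : Type} [TopologicalSpace X] [TopologicalSpace Z] {s : Set X}
    {φ : X → ℝ} {m : ℝ} {f g : X → Z} (hφ : Continuous φ) (h : ∀ x ∈ s, φ x = m → f x = g x)
    (hf : ContinuousOn f (s ∩ {x | φ x ≤ m})) (hg : ContinuousOn g (s ∩ {x | m ≤ φ x})) :
    ContinuousOn (fun x => if φ x ≤ m then f x else g x) s := by
  refine ContinuousOn.if (fun x hx => h x hx.1 (frontier_le_subset_eq hφ continuous_const hx.2))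
    ?_ (hg.mono (inter_subset_inter_right _ ?_))
  · rwa [closure_le_eq hφ continuous_const]
  · simp only [not_le]
    exact closure_lt_subset_le continuous_const hφ

/-- Closed rectangle in logarithmic coordinates. -/
def R (x₀ h a b : ℝ) : Set ℂ := {ζ | x₀ ≤ ζ.re ∧ ζ.re ≤ x₀ + h ∧ a ≤ ζ.im ∧ ζ.im ≤ b}

theorem isCompact_R (x₀ h a b : ℝ) : IsCompact (R x₀ h a b) := by
  have : R x₀ h a b = Icc x₀ (x₀ + h) ×ℂ Icc a b := by
    ext ζ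
    simp only [R, mem_ofPred_eq, mem_reProdIm, mem_Icc, and_assoc]
  rw [this]
  exact isCompact_Icc.reProdIm isCompact_Icc

theorem aff_re (ζ₀ : ℂ) (a b : ℝ) (p : ℝ × ℝ) : (aff ζ₀ a b p).re = ζ₀.re + a * p.1 := by
  simp [aff]

theorem aff_im (ζ₀ : ℂ) (a b : ℝ) (p : ℝ × ℝ) : (aff ζ₀ a b p).im = ζ₀.im + b * p.2 := by
  simp [aff]

theorem continuous_aff (ζ₀ : ℂ) (a b : ℝ) : Continuous (aff ζ₀ a b) := by
  unfold aff; fun_prop

theorem abs_le_of_bd {p : ℝ × ℝ} (hp : p ∈ closedBall (0 : ℝ × ℝ) 1) : |p.1| ≤ 1 ∧ |p.2| ≤ 1 := by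
  rwa [mem_closedBall_zero_iff, Prod.norm_def, max_le_iff, Real.norm_eq_abs,
    Real.norm_eq_abs] at hp

theorem par_mem {p : ℝ × ℝ} (hp : p ∈ bd) : (p.1 + 1) / 2 ∈ Icc (0 : ℝ) 1 := by
  have := abs_le.1 (abs_le_of_bd (sphere_subset_closedBall hp)).1
  constructor <;> linarith [this.1, this.2]

theorem par_mid {p : ℝ × ℝ} (hp : p ∈ bd) (h : p.2 = 0) : (p.1 + 1) / 2 = 0 ∨ (p.1 + 1) / 2 = 1 := by
  rw [bd, mem_sphere_zero_iff_norm, Prod.norm_def, h, norm_zero, max_eq_left (norm_nonneg _),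
    Real.norm_eq_abs] at hp
  rcases abs_eq (zero_le_one' ℝ) |>.1 hp with h | h
  · right; rw [h]; norm_num
  · left; rw [h]; norm_num

/-- The centre of the rectangle. -/
def cen (x₀ h a b : ℝ) : ℂ := ⟨x₀ + h / 2, (a + b) / 2⟩

theorem aff_mem {x₀ h a b : ℝ} (hh : 0 < h) (hab : a < b) {p : ℝ × ℝ}
    (hp : p ∈ closedBall (0 : ℝ × ℝ) 1) :
    aff (cen x₀ h a b) (h / 2) ((b - a) / 2) p ∈ R x₀ h a b := by
  obtain ⟨h1, h2⟩ := abs_le_of_bd hp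
  rw [abs_le] at h1 h2
  simp only [R, mem_ofPred_eq, aff_re, aff_im, cen]
  refine ⟨?_, ?_, ?_, ?_⟩ <;> nlinarith [h1.1, h1.2, h2.1, h2.2]

theorem aff_int {x₀ h a b : ℝ} (hh : 0 < h) (hab : a < b) {p : ℝ × ℝ}
    (hp : p ∈ ball (0 : ℝ × ℝ) 1) {ζ : ℂ} (e : aff (cen x₀ h a b) (h / 2) ((b - a) / 2) p = ζ) :
    x₀ < ζ.re ∧ ζ.re < x₀ + h ∧ a < ζ.im ∧ ζ.im < b := by
  rw [mem_ball_zero_iff, Prod.norm_def, max_lt_iff, Real.norm_eq_abs, Real.norm_eq_abs, abs_lt,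
    abs_lt] at hp
  obtain ⟨h1, h2⟩ := hp
  subst e
  simp only [aff_re, aff_im, cen]
  refine ⟨?_, ?_, ?_, ?_⟩ <;> nlinarith [h1.1, h1.2, h2.1, h2.2]

theorem exists_par {x₀ h a b : ℝ} (hh : 0 < h) (hab : a < b) {ζ : ℂ} (hζ : ζ ∈ R x₀ h a b) :
    ∃ p : ℝ × ℝ, aff (cen x₀ h a b) (h / 2) ((b - a) / 2) p = ζ ∧ |p.1| ≤ 1 ∧ |p.2| ≤ 1 ∧
      ζ.re = x₀ + h / 2 * (p.1 + 1) ∧ ζ.im = a + (b - a) / 2 * (p.2 + 1) := by
  have hba : 0 < b - a := sub_pos.2 hab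
  obtain ⟨u, hu⟩ : ∃ u, ζ.re = x₀ + h / 2 * (u + 1) := ⟨(ζ.re - x₀) / (h / 2) - 1, by field_simp; ring⟩
  obtain ⟨v, hv⟩ : ∃ v, ζ.im = a + (b - a) / 2 * (v + 1) :=
    ⟨(ζ.im - a) / ((b - a) / 2) - 1, by field_simp; ring⟩
  obtain ⟨h1, h2, h3, h4⟩ := hζ
  refine ⟨(u, v), Complex.ext ?_ ?_, abs_le.2 ⟨?_, ?_⟩, abs_le.2 ⟨?_, ?_⟩, hu, hv⟩
  · rw [aff_re, hu]; simp only [cen]; ring
  · rw [aff_im, hv]; simp only [cen]; ring
  all_goals (dsimp only; by_contra hc; nlinarith [not_le.1 hc])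

theorem rect_eq {x₀ h a b : ℝ} (hh : 0 < h) (hab : a < b) :
    rect (cen x₀ h a b) (h / 2) ((b - a) / 2) = R x₀ h a b := by
  refine Subset.antisymm ?_ fun ζ hζ => ?_
  · rintro _ ⟨p, hp, rfl⟩
    exact aff_mem hh hab hp
  · obtain ⟨p, e, h1, h2, -⟩ := exists_par hh hab hζ
    exact ⟨p, by rw [mem_closedBall_zero_iff, Prod.norm_def]; exact max_le h1 h2, e⟩

variable {E : Type} [NormedAddCommGroup E] [NormedSpace ℂ E] {U : Set (ℂ × E)} {S₀ S₁ : ℂ → E}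
  {s s₁ : ℝ}

/-- A section over a rectangle with prescribed sides. -/
def Strip (U : Set (ℂ × E)) (S₀ S₁ : ℂ → E) (x₀ h a b : ℝ) (B T : ℂ → E) : Prop :=
  ∃ (P : Finset ℂ) (S : ℂ → E),
    (∀ p ∈ P, (x₀ < p.re ∧ p.re < x₀ + h ∧ a < p.im ∧ p.im < b) ∧ Germ U exp S p) ∧
    ContinuousOn S (R x₀ h a b \ P) ∧ (∀ ζ ∈ R x₀ h a b \ P, (exp ζ, S ζ) ∈ U) ∧
    ∀ ζ ∈ R x₀ h a b, (ζ.re = x₀ → S ζ = S₀ (exp ζ)) ∧ (ζ.re = x₀ + h → S ζ = S₁ (exp ζ)) ∧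
      (ζ.im = a → S ζ = B ζ) ∧ (ζ.im = b → S ζ = T ζ)

theorem germ_congr {κ : ℂ → ℂ} {S S' : ℂ → E} {p : ℂ} (h : Germ U κ S p) (e : S =ᶠ[𝓝 p] S') :
    Germ U κ S' p :=
  ⟨h.1.congr (e.filter_mono nhdsWithin_le_nhds), by
    filter_upwards [h.2, e.filter_mono nhdsWithin_le_nhds] with z h1 h2
    rwa [← h2]⟩

theorem Strip.glue {x₀ h a m b : ℝ} {B M T : ℂ → E} (ham : a ≤ m) (hmb : m ≤ b)
    (h1 : Strip U S₀ S₁ x₀ h a m B M) (h2 : Strip U S₀ S₁ x₀ h m b M T) :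
    Strip U S₀ S₁ x₀ h a b B T := by
  obtain ⟨P, S, hP, hc, hU, hb⟩ := h1
  obtain ⟨P', S', hP', hc', hU', hb'⟩ := h2
  have lo : ∀ ζ ∈ R x₀ h a b, ζ.im ≤ m → ζ ∈ R x₀ h a m := fun ζ hζ hm =>
    ⟨hζ.1, hζ.2.1, hζ.2.2.1, hm⟩
  have hi : ∀ ζ ∈ R x₀ h a b, m ≤ ζ.im → ζ ∈ R x₀ h m b := fun ζ hζ hm =>
    ⟨hζ.1, hζ.2.1, hm, hζ.2.2.2⟩
  have mid : ∀ ζ ∈ R x₀ h a b, ζ.im = m → S ζ = S' ζ := fun ζ hζ hm => by
    rw [(hb ζ (lo ζ hζ hm.le)).2.2.2 hm, (hb' ζ (hi ζ hζ hm.ge)).2.2.1 hm]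
  refine ⟨P ∪ P', fun ζ => if ζ.im ≤ m then S ζ else S' ζ, fun p hp => ?_, ?_, fun ζ hζ => ?_,
    fun ζ hζ => ?_⟩
  · rcases Finset.mem_union.1 hp with hp | hp
    · obtain ⟨⟨a1, a2, a3, a4⟩, hg⟩ := hP p hp
      refine ⟨⟨a1, a2, a3, a4.trans_le hmb⟩, germ_congr hg ?_⟩
      filter_upwards [continuous_im.continuousAt.eventually (gt_mem_nhds a4)] with z hz
      rw [if_pos hz.le]
    · obtain ⟨⟨a1, a2, a3, a4⟩, hg⟩ := hP' p hp
      refine ⟨⟨a1, a2, ham.trans_lt a3, a4⟩, germ_congr hg ?_⟩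
      filter_upwards [continuous_im.continuousAt.eventually (lt_mem_nhds a3)] with z hz
      rw [if_neg (not_le.2 hz)]
  · refine continuousOn_ite continuous_im (fun ζ hζ => mid ζ hζ.1) (hc.mono ?_) (hc'.mono ?_)
    · exact fun ζ hζ => ⟨lo ζ hζ.1.1 hζ.2, fun h => hζ.1.2 (by simp [Finset.mem_coe.1 h])⟩
    · exact fun ζ hζ => ⟨hi ζ hζ.1.1 hζ.2, fun h => hζ.1.2 (by simp [Finset.mem_coe.1 h])⟩
  · dsimp only
    split_ifs with hm
    · exact hU ζ ⟨lo ζ hζ.1 hm, fun h => hζ.2 (by simp [Finset.mem_coe.1 h])⟩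
    · exact hU' ζ ⟨hi ζ hζ.1 (not_le.1 hm).le, fun h => hζ.2 (by simp [Finset.mem_coe.1 h])⟩
  · dsimp only
    split_ifs with hm
    · obtain ⟨a1, a2, a3, -⟩ := hb ζ (lo ζ hζ hm)
      refine ⟨a1, a2, a3, fun h4 => ?_⟩
      have h5 : ζ.im = m := le_antisymm hm (h4 ▸ hmb)
      rw [mid ζ hζ h5]
      exact (hb' ζ (hi ζ hζ h5.ge)).2.2.2 h4
    · obtain ⟨a1, a2, -, a4⟩ := hb' ζ (hi ζ hζ (not_le.1 hm).le)
      exact ⟨a1, a2, fun h3 => absurd (h3 ▸ ham) hm, a4⟩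

/-- A family of paths from `S₀` to `S₁` near `b`. -/
def Fam (U : Set (ℂ × E)) (S₀ S₁ : ℂ → E) (D : Set ℂ) (b : ℂ) (C : ℂ × ℝ → E) : Prop :=
  ∃ δ > 0, ContinuousOn C ((D ∩ ball b δ) ×ˢ Icc 0 1) ∧
    ∀ z ∈ D ∩ ball b δ, C (z, 0) = S₀ z ∧ C (z, 1) = S₁ z ∧ ∀ t ∈ Icc (0 : ℝ) 1, (z, C (z, t)) ∈ U

theorem Fam.near {D : Set ℂ} {b : ℂ} {C : ℂ × ℝ → E} (h : Fam U S₀ S₁ D b C) :
    ∀ᶠ b' in 𝓝 b, Fam U S₀ S₁ D b' C := by
  obtain ⟨δ, hδ, hc, hm⟩ := h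
  filter_upwards [ball_mem_nhds b (half_pos hδ)] with b' hb'
  have hs : D ∩ ball b' (δ / 2) ⊆ D ∩ ball b δ := inter_subset_inter_right _
    (ball_subset_ball' (by linarith [mem_ball.1 hb']))
  exact ⟨δ / 2, half_pos hδ, hc.mono (prod_mono hs Subset.rfl), fun z hz => hm z (hs hz)⟩

theorem Fam.close {D : Set ℂ} (hD : IsClosed D) {b : ℂ} (hb : b ∈ D) {C : ℂ × ℝ → E}
    (h : Fam U S₀ S₁ D b C) {η : ℝ} (hη : 0 < η) :
    ∃ δ > 0, ContinuousOn C ((D ∩ ball b δ) ×ˢ Icc 0 1) ∧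
      ∀ z ∈ D ∩ ball b δ, C (z, 0) = S₀ z ∧ C (z, 1) = S₁ z ∧
        ∀ t ∈ Icc (0 : ℝ) 1, (z, C (z, t)) ∈ U ∧ ‖C (z, t) - C (b, t)‖ < η := by
  obtain ⟨δ, hδ, hc, hm⟩ := h
  have hK : IsCompact ((D ∩ closedBall b (δ / 2)) ×ˢ Icc (0 : ℝ) 1) :=
    ((isCompact_closedBall b (δ / 2)).inter_left hD).prod isCompact_Icc
  have hs : D ∩ closedBall b (δ / 2) ⊆ D ∩ ball b δ :=
    inter_subset_inter_right _ (closedBall_subset_ball (half_lt_self hδ))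
  obtain ⟨δ', hδ', hu⟩ := Metric.uniformContinuousOn_iff.1
    (hK.uniformContinuousOn_of_continuous (hc.mono (prod_mono hs Subset.rfl))) η hη
  have hs' : D ∩ ball b (min (δ / 2) δ') ⊆ D ∩ closedBall b (δ / 2) := inter_subset_inter_right _
    ((ball_subset_ball (min_le_left _ _)).trans ball_subset_closedBall)
  refine ⟨min (δ / 2) δ', lt_min (half_pos hδ) hδ', hc.mono (prod_mono (hs'.trans hs) Subset.rfl),
    fun z hz => ?_⟩
  obtain ⟨a1, a2, a3⟩ := hm z (hs (hs' hz))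
  refine ⟨a1, a2, fun t ht => ⟨a3 t ht, ?_⟩⟩
  rw [← dist_eq_norm]
  refine hu (z, t) ⟨hs' hz, ht⟩ (b, t) ⟨⟨hb, mem_closedBall_self (half_pos hδ).le⟩, ht⟩ ?_
  rw [Prod.dist_eq, dist_self, max_lt_iff]
  exact ⟨(mem_ball.1 hz.2).trans_le (min_le_right _ _), hδ'⟩

/-- The interpolating section of a family. -/
def I (x₀ h : ℝ) (C : ℂ × ℝ → E) (ζ : ℂ) : E := C (exp ζ, (ζ.re - x₀) / h)

theorem isClosed_cann (r s : ℝ) : IsClosed (cann r s) :=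
  (isClosed_le continuous_const continuous_norm).inter
    (isClosed_le continuous_norm continuous_const)

theorem exp_mem (hs : 0 < s) (hss : s < s₁) {h a b : ℝ} (hh : h ≤ Real.log s₁ - Real.log s)
    {ζ : ℂ} (hζ : ζ ∈ R (Real.log s) h a b) : exp ζ ∈ cann s s₁ := by
  constructor
  · rw [norm_exp, ← Real.log_le_iff_le_exp hs]
    exact hζ.1
  · rw [norm_exp, ← Real.le_log_iff_exp_le (hs.trans hss)]
    linarith [hζ.2.1]

theorem two_cont {C C' : ℂ × ℝ → E} {A : Set ℂ} {z : ℝ × ℝ → ℂ} (hz : Continuous z)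
    (hA : ∀ p ∈ bd, z p ∈ A) (hC : ContinuousOn C (A ×ˢ Icc 0 1))
    (hC' : ContinuousOn C' (A ×ˢ Icc 0 1))
    (he : ∀ w ∈ A, C (w, 0) = C' (w, 0) ∧ C (w, 1) = C' (w, 1)) :
    ContinuousOn (fun p : ℝ × ℝ => if p.2 ≤ 0 then C (z p, (p.1 + 1) / 2)
      else C' (z p, (p.1 + 1) / 2)) bd := by
  have hq : Continuous fun p : ℝ × ℝ => (z p, (p.1 + 1) / 2) := by fun_prop
  refine continuousOn_ite continuous_snd (fun p hp h0 => ?_)
    (hC.comp hq.continuousOn fun p hp => ⟨hA p hp.1, par_mem hp.1⟩)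
    (hC'.comp hq.continuousOn fun p hp => ⟨hA p hp.1, par_mem hp.1⟩)
  rcases par_mid hp h0 with h | h <;> rw [h]
  · exact (he _ (hA p hp)).1
  · exact (he _ (hA p hp)).2

theorem junction (hF : FillAll U) (hs : 0 < s) (hss : s < s₁) {θ : ℝ} {C C' : ℂ × ℝ → E}
    (h1 : Fam U S₀ S₁ (cann s s₁) (exp ⟨Real.log s, θ⟩) C)
    (h2 : Fam U S₀ S₁ (cann s s₁) (exp ⟨Real.log s, θ⟩) C') :
    ∃ ε > 0, ∀ h a b, 0 < h → h < ε → θ - ε < a → a < b → b < θ + ε →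
      Strip U S₀ S₁ (Real.log s) h a b (I (Real.log s) h C) (I (Real.log s) h C') := by
  set β : ℂ := ⟨Real.log s, θ⟩ with hβ
  have hl : 0 < Real.log s₁ - Real.log s := sub_pos.2 (Real.log_lt_log hs hss)
  have hb : exp β ∈ cann s s₁ :=
    exp_mem hs hss (h := 0) (a := θ) (b := θ) hl.le ⟨le_rfl, (add_zero _).ge, le_rfl, le_rfl⟩
  have hBd : BdMap (fib U (exp β)) (two (fun t => C (exp β, t)) fun t => C' (exp β, t)) := by
    obtain ⟨δ, hδ, hc, hm⟩ := h1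
    obtain ⟨δ', hδ', hc', hm'⟩ := h2
    have m1 := hm _ ⟨hb, mem_ball_self hδ⟩
    have m2 := hm' _ ⟨hb, mem_ball_self hδ'⟩
    refine ⟨two_cont (A := {exp β}) continuous_const (fun _ _ => rfl)
      (hc.mono (prod_mono (singleton_subset_iff.2 ⟨hb, mem_ball_self hδ⟩) Subset.rfl))
      (hc'.mono (prod_mono (singleton_subset_iff.2 ⟨hb, mem_ball_self hδ'⟩) Subset.rfl)) ?_,
      fun p hp => ?_⟩
    · rintro _ rfl
      exact ⟨m1.1.trans m2.1.symm, m1.2.1.trans m2.2.1.symm⟩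
    · unfold two
      split_ifs
      · exact m1.2.2 _ (par_mem hp)
      · exact m2.2.2 _ (par_mem hp)
  obtain ⟨η, hη, δ, hδ, fill⟩ := hF exp β analyticAt_cexp _ hBd
  obtain ⟨δ₁, hδ₁, hc, hm⟩ := h1.close (isClosed_cann _ _) hb hη
  obtain ⟨δ₂, hδ₂, hc', hm'⟩ := h2.close (isClosed_cann _ _) hb hη
  obtain ⟨δ₃, hδ₃, he⟩ := Metric.continuousAt_iff.1 (continuous_exp.continuousAt (x := β))
    (min δ₁ δ₂) (lt_min hδ₁ hδ₂)
  refine ⟨min (min δ δ₃ / 2) (Real.log s₁ - Real.log s), lt_min (half_pos (lt_min hδ hδ₃)) hl,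
    fun h a b hh hε ha hab hb' => ?_⟩
  have e1 := min_le_left (min δ δ₃ / 2) (Real.log s₁ - Real.log s)
  have e2 := min_le_right (min δ δ₃ / 2) (Real.log s₁ - Real.log s)
  have hR : ∀ ζ ∈ R (Real.log s) h a b, dist ζ β < min δ δ₃ := fun ζ hζ => by
    rw [dist_eq_norm]
    refine (norm_le_abs_re_add_abs_im _).trans_lt ?_
    have a1 : |(ζ - β).re| < min δ δ₃ / 2 := by
      rw [sub_re, hβ, abs_lt]
      constructor <;> linarith [hζ.1, hζ.2.1]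
    have a2 : |(ζ - β).im| < min δ δ₃ / 2 := by
      rw [sub_im, hβ, abs_lt]
      constructor <;> linarith [hζ.2.2.1, hζ.2.2.2]
    linarith
  have hA : ∀ ζ ∈ R (Real.log s) h a b,
      exp ζ ∈ cann s s₁ ∩ ball (exp β) δ₁ ∧ exp ζ ∈ cann s s₁ ∩ ball (exp β) δ₂ := fun ζ hζ => by
    have a1 := exp_mem hs hss (hε.le.trans e2) hζ
    have a2 := lt_min_iff.1 (he ((hR ζ hζ).trans_le (min_le_right _ _)))
    exact ⟨⟨a1, a2.1⟩, a1, a2.2⟩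
  have hbd : ∀ p ∈ bd, aff (cen (Real.log s) h a b) (h / 2) ((b - a) / 2) p ∈
      R (Real.log s) h a b := fun p hp => aff_mem hh hab (sphere_subset_closedBall hp)
  obtain ⟨S, ⟨P, hP, hSc, hSU⟩, hS⟩ := fill (cen (Real.log s) h a b) (h / 2) ((b - a) / 2)
    (half_pos hh) (half_pos (sub_pos.2 hab))
    (by rw [rect_eq hh hab]; exact fun ζ hζ => (hR ζ hζ).trans_le (min_le_left _ _))
    (fun p => if p.2 ≤ 0 then
      C (exp (aff (cen (Real.log s) h a b) (h / 2) ((b - a) / 2) p), (p.1 + 1) / 2)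
      else C' (exp (aff (cen (Real.log s) h a b) (h / 2) ((b - a) / 2) p), (p.1 + 1) / 2))
    (two_cont (A := (cann s s₁ ∩ ball (exp β) δ₁) ∩ (cann s s₁ ∩ ball (exp β) δ₂))
      (continuous_exp.comp (continuous_aff _ _ _)) (fun p hp => hA _ (hbd p hp))
      (hc.mono (prod_mono inter_subset_left Subset.rfl))
      (hc'.mono (prod_mono inter_subset_right Subset.rfl))
      fun w hw => ⟨(hm w hw.1).1.trans (hm' w hw.2).1.symm,
        (hm w hw.1).2.1.trans (hm' w hw.2).2.1.symm⟩)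
    (fun p hp => by
      unfold two
      dsimp only
      split_ifs
      · exact (hm _ (hA _ (hbd p hp)).1).2.2 _ (par_mem hp)
      · exact (hm' _ (hA _ (hbd p hp)).2).2.2 _ (par_mem hp))
  rw [rect_eq hh hab] at hSc hSU
  refine ⟨P, S, fun p hp => ?_, hSc, hSU, fun ζ hζ => ?_⟩
  · obtain ⟨⟨q, hq, e⟩, hg⟩ := hP p hp
    exact ⟨aff_int hh hab hq e, hg⟩
  obtain ⟨p, e, p1, p2, r1, r2⟩ := exists_par hh hab hζ
  have hba : 0 < b - a := sub_pos.2 hab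
  have ht : (ζ.re - Real.log s) / h = (p.1 + 1) / 2 := by rw [r1]; field_simp; ring
  have key : |p.1| = 1 ∨ |p.2| = 1 → S ζ = if p.2 ≤ 0 then C (exp ζ, (p.1 + 1) / 2)
      else C' (exp ζ, (p.1 + 1) / 2) := fun hp => by
    have hp' : p ∈ bd := by
      rw [bd, mem_sphere_zero_iff_norm, Prod.norm_def, Real.norm_eq_abs, Real.norm_eq_abs]
      rcases hp with hp | hp
      · rw [hp, max_eq_left p2]
      · rw [hp, max_eq_right p1]
    have := hS p hp'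
    rwa [e] at this
  refine ⟨fun h0 => ?_, fun h0 => ?_, fun h0 => ?_, fun h0 => ?_⟩
  · have q : p.1 = -1 := by nlinarith
    rw [key (Or.inl (by rw [q]; norm_num)), q, neg_add_cancel, zero_div, (hm _ (hA ζ hζ).1).1,
      (hm' _ (hA ζ hζ).2).1, ite_self]
  · have q : p.1 = 1 := by nlinarith
    rw [key (Or.inl (by rw [q]; norm_num)), q, add_self_div_two, (hm _ (hA ζ hζ).1).2.1,
      (hm' _ (hA ζ hζ).2).2.1, ite_self]
  · have q : p.2 = -1 := by nlinarith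
    rw [key (Or.inr (by rw [q]; norm_num)), if_pos (by rw [q]; norm_num), I, ht]
  · have q : p.2 = 1 := by nlinarith
    rw [key (Or.inr (by rw [q]; norm_num)), if_neg (by rw [q]; norm_num), I, ht]

/-- Eventual version of `Strip`. -/
def Link (U : Set (ℂ × E)) (S₀ S₁ : ℂ → E) (x₀ a b : ℝ) (C C' : ℂ × ℝ → E) : Prop :=
  ∀ᶠ h in 𝓝[>] (0 : ℝ), Strip U S₀ S₁ x₀ h a b (I x₀ h C) (I x₀ h C')

theorem Link.trans {x₀ a m b : ℝ} {C C' C'' : ℂ × ℝ → E} (ham : a ≤ m) (hmb : m ≤ b)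
    (h1 : Link U S₀ S₁ x₀ a m C C') (h2 : Link U S₀ S₁ x₀ m b C' C'') :
    Link U S₀ S₁ x₀ a b C C'' :=
  (h1.and h2).mono fun _ h => h.1.glue ham hmb h.2

theorem step (hF : FillAll U) (hs : 0 < s) (hss : s < s₁) {t₀ : ℝ} {C₀ : ℂ × ℝ → E}
    (h0 : Fam U S₀ S₁ (cann s s₁) (exp ⟨Real.log s, t₀⟩) C₀) :
    ∃ ε > 0, ∀ t t', t₀ - ε < t → t < t' → t' < t₀ + ε →
      Fam U S₀ S₁ (cann s s₁) (exp ⟨Real.log s, t'⟩) C₀ ∧
      ∀ C, Fam U S₀ S₁ (cann s s₁) (exp ⟨Real.log s, t⟩) C →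
        Link U S₀ S₁ (Real.log s) t t' C C₀ := by
  obtain ⟨ε₁, hε₁, j0⟩ := junction hF hs hss h0 h0
  have hc : Continuous fun t : ℝ => exp ⟨Real.log s, t⟩ := by
    have : (fun t : ℝ => exp ⟨Real.log s, t⟩) = fun t : ℝ => exp (Real.log s + t * Complex.I) := by
      ext t; rw [Complex.mk_eq_add_mul_I]
    rw [this]; fun_prop
  obtain ⟨ε₂, hε₂, hn⟩ := Metric.eventually_nhds_iff.1 (hc.continuousAt.eventually h0.near)
  have e1 := min_le_left ε₁ ε₂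
  have e2 := min_le_right ε₁ ε₂
  refine ⟨min ε₁ ε₂, lt_min hε₁ hε₂, fun t t' a1 a2 a3 => ⟨hn ?_, fun C hC => ?_⟩⟩
  · rw [Real.dist_eq, abs_lt]; constructor <;> linarith
  obtain ⟨ε₃, hε₃, j1⟩ := junction hF hs hss hC
    (hn (by rw [Real.dist_eq, abs_lt]; constructor <;> linarith))
  obtain ⟨m, m1, m2⟩ := exists_between (lt_min a2 (lt_add_of_pos_right t hε₃))
  rw [lt_min_iff] at m2
  refine Link.trans (C' := C₀) m1.le m2.1.le ?_ ?_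
  · filter_upwards [Ioo_mem_nhdsGT hε₃] with h hh
    exact j1 h t m hh.1 hh.2 (by linarith) m1 m2.2
  · filter_upwards [Ioo_mem_nhdsGT hε₁] with h hh
    exact j0 h m t' hh.1 hh.2 (by linarith) m2.1 (by linarith)

theorem around (hF : FillAll U) (hs : 0 < s) (hss : s < s₁)
    (hex : ∀ t : ℝ, ∃ C, Fam U S₀ S₁ (cann s s₁) (exp ⟨Real.log s, t⟩) C) :
    ∃ C, Link U S₀ S₁ (Real.log s) (-Real.pi) Real.pi C C := by
  obtain ⟨C₀, h0⟩ := hex (-Real.pi)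
  have h0' : Fam U S₀ S₁ (cann s s₁) (exp ⟨Real.log s, Real.pi⟩) C₀ := by
    have : (⟨Real.log s, Real.pi⟩ : ℂ) = ⟨Real.log s, -Real.pi⟩ + 2 * Real.pi * Complex.I :=
      Complex.ext (by simp) (by simp; ring)
    rwa [this, exp_periodic]
  obtain ⟨ε₁, hε₁, s1⟩ := step hF hs hss h0
  obtain ⟨ε₂, hε₂, s2⟩ := step hF hs hss h0'
  have hπ := Real.pi_pos
  obtain ⟨a, a1, a2⟩ := exists_between (lt_min (neg_lt_zero.2 hπ) (lt_add_of_pos_right _ hε₁))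
  obtain ⟨b, b1, b2⟩ := exists_between (max_lt hπ (sub_lt_self _ hε₂))
  rw [lt_min_iff] at a2
  rw [max_lt_iff] at b1
  obtain ⟨C, hC, hL⟩ : ∃ C, Fam U S₀ S₁ (cann s s₁) (exp ⟨Real.log s, b⟩) C ∧
      Link U S₀ S₁ (Real.log s) (-Real.pi) b C₀ C := by
    refine real_ind (W := fun t => ∃ C, Fam U S₀ S₁ (cann s s₁) (exp ⟨Real.log s, t⟩) C ∧
      Link U S₀ S₁ (Real.log s) (-Real.pi) t C₀ C) (a := a) (by linarith [a2.1, b1.1])
      (fun t₀ _ => ?_) ?_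
    · obtain ⟨C₁, h1⟩ := hex t₀
      obtain ⟨ε, hε, s3⟩ := step hF hs hss h1
      refine ⟨ε, hε, fun t t' c1 c2 _ c4 c5 ⟨C, hC, hL⟩ => ?_⟩
      obtain ⟨d1, d2⟩ := s3 t t' c4 c2 c5
      exact ⟨C₁, d1, hL.trans (a1.le.trans c1) c2.le (d2 C hC)⟩
    · obtain ⟨d1, d2⟩ := s1 _ a (sub_lt_self _ hε₁) a1 a2.2
      exact ⟨C₀, d1, d2 C₀ h0⟩
  exact ⟨C₀, hL.trans (by linarith [b1.1]) b2.le
    ((s2 b _ b1.2 b2 (lt_add_of_pos_right _ hε₂)).2 C hC)⟩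

theorem descend (hs : 0 < s) {h : ℝ} {C : ℂ × ℝ → E}
    (H : Strip U S₀ S₁ (Real.log s) h (-Real.pi) Real.pi (I (Real.log s) h C)
      (I (Real.log s) h C)) :
    ∃ (P : Finset ℂ) (S : ℂ → E), (∀ p ∈ P, p ∈ ann s (Real.exp (Real.log s + h)) ∧ Germ U id S p) ∧
      CSec U S (cann s (Real.exp (Real.log s + h)) \ P) ∧
      (0 ≤ h → EqOn S S₀ (sphere 0 s) ∧ EqOn S S₁ (sphere 0 (Real.exp (Real.log s + h)))) := by
  obtain ⟨P, S, hP, hc, hU, hb⟩ := H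
  have hlog : ∀ z ∈ cann s (Real.exp (Real.log s + h)),
      z ≠ 0 ∧ log z ∈ R (Real.log s) h (-Real.pi) Real.pi := fun z hz => by
    have h0 : 0 < ‖z‖ := hs.trans_le hz.1
    refine ⟨norm_pos_iff.1 h0, ?_, ?_, ?_, ?_⟩
    · rw [log_re]; exact Real.log_le_log hs hz.1
    · rw [log_re, Real.log_le_iff_le_exp h0]; exact hz.2
    · exact (neg_pi_lt_log_im z).le
    · exact log_im_le_pi z
  have hS : ∀ ζ ∈ R (Real.log s) h (-Real.pi) Real.pi, S (log (exp ζ)) = S ζ := fun ζ hζ => by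
    rcases hζ.2.2.1.lt_or_eq with h1 | h1
    · rw [log_exp h1 hζ.2.2.2]
    · have e1 : (ζ + 2 * Real.pi * Complex.I).re = ζ.re := by simp
      have e2 : (ζ + 2 * Real.pi * Complex.I).im = Real.pi := by simp [← h1]; ring
      have hm : ζ + 2 * Real.pi * Complex.I ∈ R (Real.log s) h (-Real.pi) Real.pi :=
        ⟨e1 ▸ hζ.1, e1 ▸ hζ.2.1, by rw [e2]; linarith [Real.pi_pos], e2.le⟩
      rw [← exp_periodic ζ, log_exp (by rw [e2]; linarith [Real.pi_pos]) e2.le,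
        (hb _ hm).2.2.2 e2, (hb ζ hζ).2.2.1 h1.symm, I, I, exp_periodic ζ, e1]
  refine ⟨P.image exp, fun z => S (log z), fun p hp => ?_, ⟨?_, fun z hz => ?_⟩, fun hh => ⟨?_, ?_⟩⟩
  · obtain ⟨q, hq, rfl⟩ := Finset.mem_image.1 hp
    obtain ⟨⟨a1, a2, a3, a4⟩, hg⟩ := hP q hq
    have e : log (exp q) = q := log_exp a3 a4.le
    have hsl : exp q ∈ slitPlane := by
      rw [mem_slitPlane_iff_arg]
      refine ⟨fun h1 => ?_, exp_ne_zero q⟩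
      rw [← log_im, e] at h1
      exact a4.ne h1
    have han : AnalyticAt ℂ log (exp q) := analyticAt_clog hsl
    refine ⟨⟨?_, ?_⟩, MeromorphicAt.comp_analyticAt (f := S) (g := log) (e.symm ▸ hg.1) han, ?_⟩
    · rw [norm_exp, ← Real.log_lt_iff_lt_exp hs]; exact a1
    · rw [norm_exp]; exact Real.exp_lt_exp.2 a2
    · have h0 : ∀ᶠ z in 𝓝[≠] exp q, z ≠ 0 :=
        (eventually_ne_nhds (exp_ne_zero q)).filter_mono nhdsWithin_le_nhds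
      have ht : Tendsto log (𝓝[≠] exp q) (𝓝[≠] q) := by
        refine tendsto_nhdsWithin_iff.2 ⟨?_, ?_⟩
        · have := han.continuousAt.tendsto.mono_left (nhdsWithin_le_nhds (s := {exp q}ᶜ))
          rwa [e] at this
        · filter_upwards [h0, self_mem_nhdsWithin] with z z0 hz h1
          exact hz (by rw [← mem_singleton_iff.1 h1, exp_log z0]; rfl)
      filter_upwards [h0, ht.eventually hg.2] with z z0 hz
      rwa [exp_log z0] at hz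
  · refine continuousOn_descend (isCompact_R _ _ _ _) continuous_exp hS
      (fun z hz => ⟨log z, (hlog z hz.1).2, exp_log (hlog z hz.1).1⟩) (hc.mono fun ζ hζ => ?_)
    exact ⟨hζ.1, fun h1 => hζ.2.2 (Finset.mem_coe.2 (Finset.mem_image_of_mem _ h1))⟩
  · have := hU (log z) ⟨(hlog z hz.1).2, fun h1 => hz.2 (Finset.mem_coe.2
      (Finset.mem_image.2 ⟨_, h1, exp_log (hlog z hz.1).1⟩))⟩
    rwa [exp_log (hlog z hz.1).1] at this
  · intro z hz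
    rw [mem_sphere_zero_iff_norm] at hz
    have hz' : z ∈ cann s (Real.exp (Real.log s + h)) :=
      ⟨hz.ge, by rw [hz, ← Real.log_le_iff_le_exp hs]; linarith⟩
    have := (hb _ (hlog z hz').2).1 (by rw [log_re, hz])
    rwa [exp_log (hlog z hz').1] at this
  · intro z hz
    rw [mem_sphere_zero_iff_norm] at hz
    have hz' : z ∈ cann s (Real.exp (Real.log s + h)) :=
      ⟨by rw [hz, ← Real.log_le_iff_le_exp hs]; linarith, hz.le⟩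
    have := (hb _ (hlog z hz').2).2.1 (by rw [log_re, hz, Real.log_exp])
    rwa [exp_log (hlog z hz').1] at this

end C2

theorem C2_of (hPF : S_PF) : S_C2 := by
  intro E _ _ _ E' _ _ _ U pr T hC hF s s₁ S₀ S₁ hs hss h0 h1
  have hl : 0 < Real.log s₁ - Real.log s := sub_pos.2 (Real.log_lt_log hs hss)
  obtain ⟨C, hL⟩ := C2.around (S₀ := S₀) (S₁ := S₁) hF hs hss fun t => by
    have hb : exp ⟨Real.log s, t⟩ ∈ cann s s₁ :=
      C2.exp_mem hs hss (h := 0) (a := t) (b := t) hl.le ⟨le_rfl, (add_zero _).ge, le_rfl, le_rfl⟩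
    obtain ⟨γ, hγ⟩ := hC _ _ _ (h0.2 _ hb) (h1.2 _ hb) rfl
    obtain ⟨δ, hδ, C, c1, -, c3, -⟩ := (hPF E E' U pr T).1 _ γ.extend _ S₀ S₁ hb
      ⟨γ.continuous_extend.continuousOn, fun t ht => by
        rw [γ.extend_apply ht]; exact (hγ _).1⟩ h0 h1 γ.extend_zero.symm γ.extend_one.symm
    exact ⟨C, δ, hδ, c1, c3⟩
  obtain ⟨h, hh, hS⟩ := (Filter.Eventually.and (Ioo_mem_nhdsGT hl) hL).exists
  obtain ⟨P, S, a1, a2, a3⟩ := C2.descend hs hS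
  refine ⟨_, P, S, ?_, ?_, a1, a2, a3 hh.1.le⟩
  · rw [← Real.log_lt_iff_lt_exp hs]; linarith [hh.1]
  · rw [← Real.lt_log_iff_exp_lt (hs.trans hss)]; linarith [hh.2]

end

end Pool.Agent.P.MP_daea48_ag
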