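import Pool.Agent.P.MP_daea48_ag.StA

/-! Smoothing of combs, part 2: Laurent splitting in families and the fixed point problem. -/

open Set Filter Topology Metric Polynomial Asymptotics

namespace Pool.Agent.P.MP_daea48_ag

noncomputable section

open Classical

namespace Comb

section
variable {X Y : Type} [NormedAddCommGroup X] [NormedSpace ℂ X] [NormedAddCommGroup Y]
  [NormedSpace ℂ Y]

/-- Inner part, in families. -/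
def PP (r s : ℝ) (f : X × ℂ → Y) (x : X × ℂ) : Y := Pp r s (fun z => f (x.1, z)) x.2

/-- Outer part, in families. -/
def PM (r s : ℝ) (f : X × ℂ → Y) (x : X × ℂ) : Y := Pm r s (fun z => f (x.1, z)) x.2

theorem isOpen_ann (r s : ℝ) : IsOpen (ann r s) :=
  (isOpen_lt continuous_const continuous_norm).inter (isOpen_lt continuous_norm continuous_const)

theorem slice_diff {Q : Set X} {O : Set ℂ} (hO : IsOpen O) {f : X × ℂ → Y} (hf : AC (Q ×ˢ O) f)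
    {x : X} (hx : x ∈ Q) : DifferentiableOn ℂ (fun z => f (x, z)) O := fun z hz =>
  (hf (fun z => (x, z)) z (by fun_prop)
    ((hO.eventually_mem hz).mono fun _ h => ⟨hx, h⟩)).differentiableAt.differentiableWithinAt

end

/-- The properties of the splitting operators with constant `C`. -/
def LSop (Y : Type) [NormedAddCommGroup Y] [NormedSpace ℂ Y] (r s C : ℝ) : Prop :=
  ∀ (X : Type) [NormedAddCommGroup X] [NormedSpace ℂ X] [FiniteDimensional ℂ X] (Q : Set X),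
  (∀ (f : X × ℂ → Y) (M : ℝ), AC (Q ×ˢ ann r s) f → (∀ x ∈ Q ×ˢ ann r s, ‖f x‖ ≤ M) →
    AC (Q ×ˢ ball 0 s) (PP r s f) ∧ AC (Q ×ˢ {z | r < ‖z‖}) (PM r s f) ∧
    (∀ x ∈ Q ×ˢ ann r s, PP r s f x + PM r s f x = f x) ∧
    (∀ x ∈ Q ×ˢ ball (0 : ℂ) s, ‖PP r s f x‖ ≤ C * M) ∧
    (∀ x ∈ Q ×ˢ {z : ℂ | r < ‖z‖}, ‖PM r s f x‖ ≤ C * M)) ∧
  (∀ (f g : X × ℂ → Y) (M : ℝ), AC (Q ×ˢ ann r s) f → AC (Q ×ˢ ann r s) g →
    (∀ x ∈ Q ×ˢ ann r s, ‖f x - g x‖ ≤ M) →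
    (∀ x ∈ Q ×ˢ ball (0 : ℂ) s, ‖PP r s f x - PP r s g x‖ ≤ C * M) ∧
    (∀ x ∈ Q ×ˢ {z : ℂ | r < ‖z‖}, ‖PM r s f x - PM r s g x‖ ≤ C * M))

theorem exists_LSop (h1 : S_LS) (Y : Type) [NormedAddCommGroup Y] [NormedSpace ℂ Y]
    [FiniteDimensional ℂ Y] {r s : ℝ} (hr : 0 < r) (hrs : r < s) : ∃ C > 0, LSop Y r s C := by
  obtain ⟨C, hC, a1, a2, -, a4⟩ := h1 Y r s hr hrs
  refine ⟨C, hC, fun X _ _ _ Q => ⟨fun f M hf hM => ?_, fun f g M hf hg hM => ?_⟩⟩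
  · have b := fun x (hx : x ∈ Q) => a1 (fun z => f (x, z)) M (slice_diff (isOpen_ann r s) hf hx)
      fun z hz => hM (x, z) ⟨hx, hz⟩
    exact ⟨(a4 X Q f M hf hM).1, (a4 X Q f M hf hM).2, fun x hx => (b _ hx.1).2.2.1 _ hx.2,
      fun x hx => (b _ hx.1).2.2.2.1 _ hx.2, fun x hx => (b _ hx.1).2.2.2.2 _ hx.2⟩
  · have b := fun x (hx : x ∈ Q) => a1 (fun z => f (x, z) - g (x, z)) M
      (slice_diff (isOpen_ann r s) (hf.sub hg) hx) fun z hz => hM (x, z) ⟨hx, hz⟩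
    have c := fun x (hx : x ∈ Q) => a2 (fun z => f (x, z)) (fun z => g (x, z))
      (slice_diff (isOpen_ann r s) hf hx).continuousOn
      (slice_diff (isOpen_ann r s) hg hx).continuousOn
    refine ⟨fun x hx => ?_, fun x hx => ?_⟩
    · have := (b _ hx.1).2.2.2.1 _ hx.2
      rwa [(c _ hx.1 x.2).1 (by simpa using hx.2)] at this
    · have := (b _ hx.1).2.2.2.2 _ hx.2
      rwa [(c _ hx.1 x.2).2 hx.2] at this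

theorem LSop.mono {Y : Type} [NormedAddCommGroup Y] [NormedSpace ℂ Y] {r s C C' : ℝ}
    (h : LSop Y r s C) (hrs : 0 ≤ r ∧ r < s) (hC : C ≤ C') : LSop Y r s C' := by
  intro X _ _ _ Q
  have key : ∀ (f : X × ℂ → Y) (M : ℝ) (x : X), x ∈ Q → (∀ x ∈ Q ×ˢ ann r s, ‖f x‖ ≤ M) →
      C * M ≤ C' * M := fun f M x hx hM => by
    have h0 : (((r + s) / 2 : ℝ) : ℂ) ∈ ann r s := by
      have : ‖(((r + s) / 2 : ℝ) : ℂ)‖ = (r + s) / 2 := by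
        rw [Complex.norm_real, Real.norm_eq_abs, abs_of_nonneg (by linarith [hrs.1, hrs.2])]
      constructor <;> rw [this] <;> linarith [hrs.2]
    exact mul_le_mul_of_nonneg_right hC ((norm_nonneg _).trans (hM (x, _) ⟨hx, h0⟩))
  refine ⟨fun f M hf hM => ?_, fun f g M hf hg hM => ?_⟩
  · obtain ⟨a1, a2, a3, a4, a5⟩ := (h X Q).1 f M hf hM
    exact ⟨a1, a2, a3, fun x hx => (a4 x hx).trans (key f M _ hx.1 hM),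
      fun x hx => (a5 x hx).trans (key f M _ hx.1 hM)⟩
  · obtain ⟨a4, a5⟩ := (h X Q).2 f g M hf hg hM
    exact ⟨fun x hx => (a4 x hx).trans (key (fun x => f x - g x) M _ hx.1 hM),
      fun x hx => (a5 x hx).trans (key (fun x => f x - g x) M _ hx.1 hM)⟩

section
variable {X Y S : Type} [NormedAddCommGroup X] [NormedSpace ℂ X] [NormedAddCommGroup Y]
  [NormedSpace ℂ Y] [NormedAddCommGroup S] [NormedSpace ℂ S]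

/-- Substitution of a small family into an error term. -/
theorem err [CompleteSpace Y] {D D' : Set X} (hD : D' ⊆ D) {F : X × S → Y} {ε η : ℝ} (hε : 0 < ε)
    (hF : AC (D' ×ˢ ball 0 ε) F) (hb : ∀ x ∈ D' ×ˢ ball (0 : S) ε, ‖F x‖ ≤ η) :
    (∀ s : X → S, AC D s → (∀ x ∈ D, ‖s x‖ ≤ ε / 2) →
      AC D' (fun x => F (x, s x)) ∧ ∀ x ∈ D', ‖F (x, s x)‖ ≤ η) ∧
    (∀ (s s' : X → S) (M : ℝ), (∀ x ∈ D, ‖s x‖ ≤ ε / 2) → (∀ x ∈ D, ‖s' x‖ ≤ ε / 2) →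
      (∀ x ∈ D, ‖s x - s' x‖ ≤ M) → ∀ x ∈ D', ‖F (x, s x) - F (x, s' x)‖ ≤ 16 * η / ε * M) := by
  have hm : ∀ s : X → S, (∀ x ∈ D, ‖s x‖ ≤ ε / 2) → ∀ x ∈ D', (x, s x) ∈ D' ×ˢ ball (0 : S) ε :=
    fun s hs x hx => ⟨hx, by simpa using (hs x (hD hx)).trans_lt (by linarith)⟩
  refine ⟨fun s h1 h2 => ⟨hF.comp ((AC.id' _).prodMk (h1.mono hD)) (hm s h2),
    fun x hx => hb _ (hm s h2 x hx)⟩, fun s s' M h1 h2 h3 x hx => ?_⟩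
  have a1 : AC (ball (0 : S) ε) fun t => F (x, t) :=
    hF.comp ((AC.const _ x).prodMk (AC.id' _)) fun t ht => ⟨hx, ht⟩
  have a2 := a1.lip_ball (M := η) (fun t ht => hb (x, t) ⟨hx, ht⟩) (x := s' x) (y := s x)
    (by linarith [h2 x (hD hx)]) (by linarith [h1 x (hD hx)]) hε
  have a3 : 0 ≤ η := (norm_nonneg _).trans (hb _ (hm s h1 x hx))
  exact a2.trans (mul_le_mul_of_nonneg_left (h3 x (hD hx)) (by positivity))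

end

/-- The outer annulus. -/
abbrev Ao : Set ℂ := ann 2 4
/-- The inner annulus. -/
abbrev Ai : Set ℂ := ann (1 / 4) (1 / 2)
/-- The large annulus. -/
abbrev Aw : Set ℂ := ann (1 / 4) 4
/-- The exterior domain. -/
abbrev Ae : Set ℂ := {z | 2 < ‖z‖}

theorem Ao_sub : Ao ⊆ Aw := fun _ h => ⟨by linarith [h.1], h.2⟩
theorem Ai_sub : Ai ⊆ Aw := fun _ h => ⟨h.1, by linarith [h.2]⟩

/-- The fixed point problem. -/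
theorem fixp {X Y : Type} [NormedAddCommGroup X] [NormedSpace ℂ X] [FiniteDimensional ℂ X]
    [NormedAddCommGroup Y] [NormedSpace ℂ Y] [FiniteDimensional ℂ Y] {C : ℝ} (hC : 0 < C)
    (Lo : LSop Y 2 4 C) (Li : LSop Y (1 / 4) (1 / 2) C) {Q : Set X}
    {F₁ F₂ : (X × ℂ) × (Y × Y) → Y} {g : X × ℂ → Y} {Λ : (X × ℂ → Y) → X × ℂ → Y} {ε η d : ℝ}
    (hε : 0 < ε) (hη : 0 ≤ η) (hd : 0 ≤ d) (hsm : (d + 1) * C * η ≤ ε / 32)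
    (a₁ : AC ((Q ×ˢ Ao) ×ˢ ball 0 ε) F₁) (b₁ : ∀ x ∈ (Q ×ˢ Ao) ×ˢ ball (0 : Y × Y) ε, ‖F₁ x‖ ≤ η)
    (a₂ : AC ((Q ×ˢ Ai) ×ˢ ball 0 ε) F₂) (b₂ : ∀ x ∈ (Q ×ˢ Ai) ×ˢ ball (0 : Y × Y) ε, ‖F₂ x‖ ≤ η)
    (ag : AC (Q ×ˢ Aw) g) (bg : ∀ x ∈ Q ×ˢ Aw, ‖g x‖ ≤ ε / 4)
    (aΛ : ∀ N, AC (Q ×ˢ Ae) N → AC (Q ×ˢ Aw) (Λ N))
    (bΛ : ∀ N M, 0 ≤ M → (∀ x ∈ Q ×ˢ Ae, ‖N x‖ ≤ M) → ∀ x ∈ Q ×ˢ Aw, ‖Λ N x‖ ≤ d * M)
    (cΛ : ∀ N N' M, 0 ≤ M → (∀ x ∈ Q ×ˢ Ae, ‖N x - N' x‖ ≤ M) →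
      ∀ x ∈ Q ×ˢ Aw, ‖Λ N x - Λ N' x‖ ≤ d * M) :
    ∃ (s : X × ℂ → Y × Y) (N A : X × ℂ → Y), AC (Q ×ˢ Aw) s ∧ (∀ x ∈ Q ×ˢ Aw, ‖s x‖ < ε) ∧
      AC (Q ×ˢ Ae) N ∧ (∀ x ∈ Q ×ˢ Ae, ‖N x‖ ≤ C * η) ∧
      AC (Q ×ˢ ball 0 (1 / 2)) A ∧ (∀ x ∈ Q ×ˢ ball (0 : ℂ) (1 / 2), ‖A x‖ ≤ C * η) ∧
      (∀ x ∈ Q ×ˢ Ao, (s x).1 + F₁ (x, s x) = g x + Λ N x + N x) ∧
      (∀ x ∈ Q ×ˢ Ai, (s x).2 + F₂ (x, s x) = A x) := by
  obtain ⟨e1, e2⟩ := err (D := Q ×ˢ Aw) (prod_mono_right Ao_sub) hε a₁ b₁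
  obtain ⟨e3, e4⟩ := err (D := Q ×ˢ Aw) (prod_mono_right Ai_sub) hε a₂ b₂
  have w1 : Q ×ˢ Aw ⊆ Q ×ˢ ball (0 : ℂ) 4 := prod_mono_right fun z hz => by simpa using hz.2
  have w2 : Q ×ˢ Aw ⊆ Q ×ˢ {z : ℂ | 1 / 4 < ‖z‖} := prod_mono_right fun z hz => hz.1
  have hCη : 0 ≤ C * η := by positivity
  have hs1 : C * η ≤ ε / 32 := by nlinarith [mul_nonneg hd hCη]
  have hs2 : d * (C * η) + C * η ≤ ε / 32 := by linarith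
  let Φ : (X × ℂ → Y × Y) → X × ℂ → Y × Y := fun s x =>
    (g x + Λ (PM 2 4 fun y => F₁ (y, s y)) x - PP 2 4 (fun y => F₁ (y, s y)) x,
      - PM (1 / 4) (1 / 2) (fun y => F₂ (y, s y)) x)
  have hΦ : ∀ s, (AC (Q ×ˢ Aw) s ∧ ∀ x ∈ Q ×ˢ Aw, ‖s x‖ ≤ ε / 2) →
      AC (Q ×ˢ Aw) (Φ s) ∧ ∀ x ∈ Q ×ˢ Aw, ‖Φ s x‖ ≤ ε / 2 := by
    rintro s ⟨h1, h2⟩
    obtain ⟨p1, p2, -, p4, p5⟩ := (Lo X Q).1 _ η (e1 s h1 h2).1 (e1 s h1 h2).2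
    obtain ⟨-, q2, -, -, q5⟩ := (Li X Q).1 _ η (e3 s h1 h2).1 (e3 s h1 h2).2
    refine ⟨((ag.add (aΛ _ p2)).sub (p1.mono w1)).prodMk (q2.mono w2).neg, fun x hx => ?_⟩
    rw [Prod.norm_mk]
    refine max_le ?_ ?_
    · have := bΛ _ _ hCη p5 x hx
      have := (norm_sub_le _ _).trans (add_le_add ((norm_add_le _ _).trans
        (add_le_add (bg x hx) this)) (p4 x (w1 hx)))
      linarith
    · rw [norm_neg]; linarith [q5 x (w2 hx)]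
  obtain ⟨s, ⟨h1, h2⟩, h3⟩ := iter_fix (Q ×ˢ Aw)
    (fun s => AC (Q ×ˢ Aw) s ∧ ∀ x ∈ Q ×ˢ Aw, ‖s x‖ ≤ ε / 2) Φ
    (fun f s hf ht => ⟨AC.limit (fun n => (hf n).1) ht, fun x hx =>
      le_of_tendsto' (ht.tendsto_at hx).norm fun n => (hf n).2 x hx⟩) hΦ
    (fun s s' M hs hs' hM x hx => by
      have hM0 : 0 ≤ M := (norm_nonneg _).trans (hM x hx)
      obtain ⟨p4, p5⟩ := (Lo X Q).2 _ _ _ (e1 s hs.1 hs.2).1 (e1 s' hs'.1 hs'.2).1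
        (e2 s s' M hs.2 hs'.2 hM)
      obtain ⟨-, q5⟩ := (Li X Q).2 _ _ _ (e3 s hs.1 hs.2).1 (e3 s' hs'.1 hs'.2).1
        (e4 s s' M hs.2 hs'.2 hM)
      have c0 : 0 ≤ C * (16 * η / ε * M) := by positivity
      have c1 := cΛ _ _ _ c0 p5 x hx
      have c2 : d * (C * (16 * η / ε * M)) + C * (16 * η / ε * M) ≤ M / 2 := by
        have : d * (C * (16 * η / ε * M)) + C * (16 * η / ε * M) =
          ((d + 1) * C * η) * (16 * M / ε) := by ring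
        rw [this]
        calc _ ≤ (ε / 32) * (16 * M / ε) := mul_le_mul_of_nonneg_right hsm (by positivity)
          _ = M / 2 := by field_simp; ring
      have c3 : 0 ≤ d * (C * (16 * η / ε * M)) := by positivity
      rw [Prod.norm_def]
      refine max_le ?_ ?_
      · have : (Φ s x - Φ s' x).1 = (Λ (PM 2 4 fun y => F₁ (y, s y)) x -
            Λ (PM 2 4 fun y => F₁ (y, s' y)) x) - (PP 2 4 (fun y => F₁ (y, s y)) x -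
            PP 2 4 (fun y => F₁ (y, s' y)) x) := by
          simp only [Φ, Prod.fst_sub]; abel
        rw [this]
        linarith [(norm_sub_le _ _).trans (add_le_add c1 (p4 x (w1 hx)))]
      · have : (Φ s x - Φ s' x).2 = -(PM (1 / 4) (1 / 2) (fun y => F₂ (y, s y)) x -
            PM (1 / 4) (1 / 2) (fun y => F₂ (y, s' y)) x) := by
          simp only [Φ, Prod.snd_sub]; abel
        rw [this, norm_neg]
        linarith [q5 x (w2 hx)])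
    (f₀ := fun _ => 0) ⟨AC.const _ _, fun x _ => by simp; linarith⟩ (M := ε / 2)
    (fun x hx => by
      simpa using (hΦ (fun _ => 0) ⟨AC.const _ _, fun x _ => by simp; linarith⟩).2 x hx)
  obtain ⟨-, p2, p3, -, p5⟩ := (Lo X Q).1 _ η (e1 s h1 h2).1 (e1 s h1 h2).2
  obtain ⟨q1, -, q3, q4, -⟩ := (Li X Q).1 _ η (e3 s h1 h2).1 (e3 s h1 h2).2
  refine ⟨s, _, _, h1, fun x hx => by linarith [h2 x hx], p2, p5, q1, q4, fun x hx => ?_,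
    fun x hx => ?_⟩
  · have := congrArg Prod.fst (h3 x (prod_mono_right Ao_sub hx))
    rw [← this, ← p3 x hx]
    simp only [Φ]; abel
  · have := congrArg Prod.snd (h3 x (prod_mono_right Ai_sub hx))
    rw [← this, ← q3 x hx]
    simp only [Φ]; abel

/-- Gluing of two meromorphic families. -/
theorem glue {X Y : Type} [NormedAddCommGroup X] [NormedSpace ℂ X] [NormedAddCommGroup Y]
    [NormedSpace ℂ Y] {D A₁ A₂ R₁ R₂ : Set X} {Ψ₁ Ψ₂ : X → Y} {p : X → Y → Prop}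
    (hc : ∀ (γ : ℂ → X) (l : ℂ), AnalyticAt ℂ γ l → (∀ᶠ x in 𝓝 l, γ x ∈ D) →
      (∀ᶠ x in 𝓝 l, γ x ∈ A₁) ∨ ∀ᶠ x in 𝓝 l, γ x ∈ A₂)
    (m₁ : MF (D ∩ A₁) R₁ Ψ₁) (m₂ : MF (D ∩ A₂) R₂ Ψ₂)
    (he : ∀ x ∈ D, x ∈ A₁ → x ∈ A₂ → x ∈ R₁ ∧ x ∈ R₂ ∧ Ψ₁ x = Ψ₂ x)
    (p₁ : ∀ x ∈ D, x ∈ A₁ → x ∈ R₁ → p x (Ψ₁ x)) (p₂ : ∀ x ∈ D, x ∈ A₂ → x ∈ R₂ → p x (Ψ₂ x)) :
    ∃ Ψ Reg, MF D Reg Ψ ∧ (∀ x ∈ D, x ∈ Reg → p x (Ψ x)) ∧
      (∀ x ∈ D, x ∈ A₁ → x ∈ R₁ → x ∈ Reg ∧ Ψ x = Ψ₁ x) ∧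
      (∀ x ∈ D, x ∈ A₂ → x ∈ R₂ → x ∈ Reg ∧ Ψ x = Ψ₂ x) := by
  set Ψ : X → Y := fun x => if x ∈ A₁ then Ψ₁ x else Ψ₂ x with hΨ
  set Reg : Set X := {x | (x ∈ A₁ → x ∈ R₁) ∧ (x ∉ A₁ → x ∈ R₂)} with hReg
  have r1 : ∀ x ∈ D ∩ A₁, (x ∈ R₁ ↔ x ∈ Reg) ∧ Ψ₁ x = Ψ x := fun x hx =>
    ⟨⟨fun h => ⟨fun _ => h, fun h' => absurd hx.2 h'⟩, fun h => h.1 hx.2⟩, by simp [hΨ, hx.2]⟩
  have r2 : ∀ x ∈ D ∩ A₂, (x ∈ R₂ ↔ x ∈ Reg) ∧ Ψ₂ x = Ψ x := fun x hx => by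
    by_cases h : x ∈ A₁
    · obtain ⟨a, b, c⟩ := he x hx.1 h hx.2
      exact ⟨⟨fun _ => ⟨fun _ => a, fun _ => b⟩, fun _ => b⟩, by simp [hΨ, h, c]⟩
    · exact ⟨⟨fun h' => ⟨fun h'' => absurd h'' h, fun _ => h'⟩, fun h' => h'.2 h⟩,
        by simp [hΨ, h]⟩
  have n₁ : MF (D ∩ A₁) Reg Ψ := m₁.congr (fun x hx => (r1 x hx).1) fun x hx _ => (r1 x hx).2
  have n₂ : MF (D ∩ A₂) Reg Ψ := m₂.congr (fun x hx => (r2 x hx).1) fun x hx _ => (r2 x hx).2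
  refine ⟨Ψ, Reg, ⟨fun γ l h1 h2 => ?_, fun γ l h1 h2 => ?_⟩, fun x hx hR => ?_,
    fun x hx h h' => ⟨(r1 x ⟨hx, h⟩).1.1 h', (r1 x ⟨hx, h⟩).2.symm⟩,
    fun x hx h h' => ⟨(r2 x ⟨hx, h⟩).1.1 h', (r2 x ⟨hx, h⟩).2.symm⟩⟩
  · rcases hc γ l h1 h2 with h | h
    · exact n₁.an γ l h1 (h2.and h)
    · exact n₂.an γ l h1 (h2.and h)
  · rcases hc γ l h1 h2 with h | h
    · exact n₁.dich γ l h1 (h2.and h)
    · exact n₂.dich γ l h1 (h2.and h)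
  · rcases hc (fun _ => x) 0 analyticAt_const (Eventually.of_forall fun _ => hx) with h | h
    · have h' : x ∈ A₁ := h.self_of_nhds
      rw [← (r1 x ⟨hx, h'⟩).2]
      exact p₁ x hx h' ((r1 x ⟨hx, h'⟩).1.2 hR)
    · have h' : x ∈ A₂ := h.self_of_nhds
      rw [← (r2 x ⟨hx, h'⟩).2]
      exact p₂ x hx h' ((r2 x ⟨hx, h'⟩).1.2 hR)

end Comb

end

end Pool.Agent.P.MP_daea48_ag
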