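import Pool.Agent.P.MP_daea48_ag.Comb1
import Pool.Agent.P.MP_daea48_ag.Comb2

/-! Smoothing of combs, part 4: the handle and the coordinates near a root. -/

open Set Filter Topology Metric Polynomial Asymptotics

namespace Pool.Agent.P.MP_daea48_ag

noncomputable section

open Classical

namespace Comb

section defs
variable {X Y : Type}

/-- Coordinates near the root `θ`. -/
def loc (κ : ℝ) (x : X × Y × Y × ℂ) (θ : ℂ) : ((X × ℂ) × (Y × Y)) × ℂ :=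
  (((x.1, θ), (x.2.1, x.2.2.1)), (κ : ℂ)⁻¹ * (x.2.2.2 - θ))

/-- Back to the global coordinate. -/
def glob (κ : ℝ) (q : ((X × ℂ) × (Y × Y)) × ℂ) : X × Y × Y × ℂ :=
  (q.1.1.1, q.1.2.1, q.1.2.2, q.1.1.2 + κ * q.2)

theorem glob_loc {κ : ℝ} (hκ : 0 < κ) (x : X × Y × Y × ℂ) (θ : ℂ) : glob κ (loc κ x θ) = x := by
  have : (κ : ℂ) ≠ 0 := by exact_mod_cast hκ.ne'
  simp [glob, loc, this]

theorem loc_glob {κ : ℝ} (hκ : 0 < κ) (q : ((X × ℂ) × (Y × Y)) × ℂ) :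
    loc κ (glob κ q) q.1.1.2 = q := by
  have : (κ : ℂ) ≠ 0 := by exact_mod_cast hκ.ne'
  simp [glob, loc, this]

theorem norm_loc {κ : ℝ} (hκ : 0 < κ) (x : X × Y × Y × ℂ) (θ : ℂ) :
    ‖(loc κ x θ).2‖ = ‖x.2.2.2 - θ‖ / κ := by
  simp [loc, abs_of_pos hκ, div_eq_inv_mul]

theorem norm_glob {κ : ℝ} (hκ : 0 < κ) (q : ((X × ℂ) × (Y × Y)) × ℂ) :
    ‖(glob κ q).2.2.2 - q.1.1.2‖ = κ * ‖q.2‖ := by
  simp [glob, abs_of_pos hκ]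

/-- Points far from all roots. -/
def far (P : X → ℂ[X]) (r : ℝ) : Set (X × Y × Y × ℂ) :=
  {x | ∀ θ, (P x.1).eval θ = 0 → r < ‖x.2.2.2 - θ‖}

/-- Points not too close to the roots. -/
def off (P : X → ℂ[X]) (r : ℝ) : Set (X × Y × Y × ℂ) :=
  {x | ∀ θ, (P x.1).eval θ = 0 → r ≤ ‖x.2.2.2 - θ‖}

/-- Points near some root. -/
def near (P : X → ℂ[X]) (r : ℝ) : Set (X × Y × Y × ℂ) :=
  {x | ∃ θ, (P x.1).eval θ = 0 ∧ ‖x.2.2.2 - θ‖ < r}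

variable [NormedAddCommGroup Y]

/-- Global parameter domain. -/
def DD (K : Set X) (Y : Type) [NormedAddCommGroup Y] (ε : ℝ) : Set (X × Y × Y × ℂ) :=
  K ×ˢ ball 0 ε ×ˢ ball 0 ε ×ˢ univ

/-- Local parameter domain. -/
def QQ (K : Set X) (P : X → ℂ[X]) (Y : Type) [NormedAddCommGroup Y] (ε : ℝ) :
    Set ((X × ℂ) × (Y × Y)) := {ζ : X × ℂ | ζ.1 ∈ K ∧ (P ζ.1).eval ζ.2 = 0} ×ˢ ball 0 ε

theorem loc_mem {K : Set X} {P : X → ℂ[X]} {ε : ℝ} (κ : ℝ) {x : X × Y × Y × ℂ}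
    (hx : x ∈ DD K Y ε) {θ : ℂ} (hθ : (P x.1).eval θ = 0) : (loc κ x θ).1 ∈ QQ K P Y ε := by
  refine ⟨⟨hx.1, hθ⟩, ?_⟩
  have h1 : ‖x.2.1‖ < ε := by simpa using hx.2.1
  have h2 : ‖x.2.2.1‖ < ε := by simpa using hx.2.2.1
  simp [loc, h1, h2]

theorem glob_mem {K : Set X} {P : X → ℂ[X]} {ε : ℝ} (κ : ℝ) {q : ((X × ℂ) × (Y × Y)) × ℂ}
    (hq : q.1 ∈ QQ K P Y ε) : glob κ q ∈ DD K Y ε := by
  have h : ‖q.1.2‖ < ε := by simpa using hq.2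
  exact ⟨hq.1.1, by simpa [glob] using (norm_fst_le _).trans_lt h,
    by simpa [glob] using (norm_snd_le _).trans_lt h, trivial⟩

/-- Contribution of the other teeth. -/
def Lam (P : X → ℂ[X]) (κ : ℝ) (N : ((X × ℂ) × (Y × Y)) × ℂ → Y) (q : ((X × ℂ) × (Y × Y)) × ℂ) :
    Y := rsum (P q.1.1.1) fun θ => if θ = q.1.1.2 then 0 else N (loc κ (glob κ q) θ)

/-- Contribution of all teeth. -/
def Sm (P : X → ℂ[X]) (κ : ℝ) (N : ((X × ℂ) × (Y × Y)) × ℂ → Y) (x : X × Y × Y × ℂ) : Y :=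
  rsum (P x.1) fun θ => N (loc κ x θ)

variable [NormedSpace ℂ Y]

/-- The rational part of the handle. -/
def Gf (P : X → ℂ[X]) (x : X × Y × Y × ℂ) : Y :=
  x.2.2.1 + (((P x.1).eval x.2.2.2)⁻¹ * (P x.1).eval 0) • (x.2.1 - x.2.2.1)

theorem norm_ab {K : Set X} {ε : ℝ} {x : X × Y × Y × ℂ} (hx : x ∈ DD K Y ε) {c : ℂ} {t : ℝ}
    (hc : ‖c‖ ≤ t) : ‖c • (x.2.1 - x.2.2.1)‖ ≤ t * (2 * ε) := by
  have h1 : ‖x.2.1‖ < ε := by simpa using hx.2.1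
  have h2 : ‖x.2.2.1‖ < ε := by simpa using hx.2.2.1
  rw [norm_smul]
  exact mul_le_mul hc (by linarith [norm_sub_le x.2.1 x.2.2.1]) (norm_nonneg _)
    ((norm_nonneg _).trans hc)

end defs

variable {X Y : Type} [NormedAddCommGroup X] [NormedSpace ℂ X] [NormedAddCommGroup Y]
  [NormedSpace ℂ Y]

theorem ac_loc (κ : ℝ) {W : Type} [NormedAddCommGroup W] [NormedSpace ℂ W] {D : Set W}
    {x : W → X × Y × Y × ℂ} {θ : W → ℂ} (hx : AC D x) (hθ : AC D θ) :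
    AC D fun w => loc κ (x w) (θ w) :=
  ((hx.fst.prodMk hθ).prodMk (hx.snd.fst.prodMk hx.snd.snd.fst)).prodMk
    ((AC.const D (κ : ℂ)⁻¹).smul (hx.snd.snd.snd.sub hθ))

theorem ac_glob (κ : ℝ) {W : Type} [NormedAddCommGroup W] [NormedSpace ℂ W] {D : Set W}
    {q : W → ((X × ℂ) × (Y × Y)) × ℂ} (hq : AC D q) : AC D fun w => glob κ (q w) :=
  hq.fst.fst.fst.prodMk (hq.fst.snd.fst.prodMk (hq.fst.snd.snd.prodMk
    (hq.fst.fst.snd.add ((AC.const D (κ : ℂ)).smul hq.snd))))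

namespace RD

variable {K : Set X} {P : X → ℂ[X]} {d : ℕ} {κ ε : ℝ} (h : RD K P d κ)
include h

omit [NormedSpace ℂ Y] in
theorem other_far {q : ((X × ℂ) × (Y × Y)) × ℂ} (hq : q ∈ QQ K P Y ε ×ˢ Aw) {θ : ℂ}
    (h1 : (P q.1.1.1).eval θ = 0) (h2 : θ ≠ q.1.1.2) : 6 * κ < ‖(glob κ q).2.2.2 - θ‖ := by
  have a1 : 10 * κ < ‖θ - q.1.1.2‖ := not_le.1 fun a => h2 (h.sep _ hq.1.1.1 _ _ h1 hq.1.1.2 a)
  have a2 := norm_glob h.pos q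
  have a3 := norm_sub_le_norm_sub_add_norm_sub θ (glob κ q).2.2.2 q.1.1.2
  have a4 := mul_lt_mul_of_pos_left hq.2.2 h.pos
  rw [norm_sub_rev θ (glob κ q).2.2.2] at a3
  linarith

omit [NormedSpace ℂ Y] in
theorem loc_far {x : X × Y × Y × ℂ} (hx : x ∈ DD K Y ε) {θ : ℂ} (h1 : (P x.1).eval θ = 0)
    (h2 : 2 * κ < ‖x.2.2.2 - θ‖) : loc κ x θ ∈ QQ K P Y ε ×ˢ Ae :=
  ⟨loc_mem κ hx h1, by
    change 2 < ‖(loc κ x θ).2‖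
    rwa [norm_loc h.pos, lt_div_iff₀ h.pos]⟩

omit [NormedSpace ℂ Y] in
theorem other_mem {q : ((X × ℂ) × (Y × Y)) × ℂ} (hq : q ∈ QQ K P Y ε ×ˢ Aw) {θ : ℂ}
    (h1 : (P q.1.1.1).eval θ = 0) (h2 : θ ≠ q.1.1.2) :
    loc κ (glob κ q) θ ∈ QQ K P Y ε ×ˢ Ae :=
  h.loc_far (glob_mem κ hq.1) h1 (by linarith [h.other_far hq h1 h2, h.pos])

omit [NormedSpace ℂ Y] in
theorem glob_off {q : ((X × ℂ) × (Y × Y)) × ℂ} (hq : q ∈ QQ K P Y ε ×ˢ Aw) :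
    glob κ q ∈ DD K Y ε ∩ off P (κ / 4) := by
  refine ⟨glob_mem κ hq.1, fun θ hθ => ?_⟩
  by_cases h2 : θ = q.1.1.2
  · rw [h2, norm_glob h.pos]
    linarith [mul_lt_mul_of_pos_left hq.2.1 h.pos]
  · linarith [h.other_far hq hθ h2, h.pos]

theorem ac_Lam [CompleteSpace X] (hR : S_Root) {N : ((X × ℂ) × (Y × Y)) × ℂ → Y}
    (hN : AC (QQ K P Y ε ×ˢ Ae) N) : AC (QQ K P Y ε ×ˢ Aw) (Lam P κ N) := by
  refine h.ac_rsum hR (π := fun q : ((X × ℂ) × (Y × Y)) × ℂ => q.1.1.1)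
    (f := fun z => if z.2 = z.1.1.1.2 then 0 else N (loc κ (glob κ z.1) z.2))
    (AC.id' _).fst.fst.fst (fun q hq => hq.1.1.1) (AC.of_local fun z hz => ?_)
  by_cases h2 : z.2 = z.1.1.1.2
  · refine ⟨{z | ‖z.2 - z.1.1.1.2‖ < 10 * κ}, (isOpen_lt (by fun_prop) continuous_const).mem_nhds
      (by simpa [h2] using h.pos), (AC.const _ 0).congr fun y hy => ?_⟩
    exact (if_pos (h.sep _ hy.1.1.1.1.1 _ _ hy.1.2 hy.1.1.1.1.2 (le_of_lt hy.2))).symm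
  · refine ⟨{z | z.2 ≠ z.1.1.1.2}, (isOpen_ne_fun (by fun_prop) (by fun_prop)).mem_nhds h2,
      (hN.comp (ac_loc κ (ac_glob κ (AC.id' _).fst) (AC.id' _).snd)
        fun y hy => h.other_mem hy.1.1 hy.1.2 hy.2).congr fun y hy => ?_⟩
    exact (if_neg hy.2).symm

omit [NormedSpace ℂ Y] in
theorem norm_Lam {N : ((X × ℂ) × (Y × Y)) × ℂ → Y} {M : ℝ} (hM : 0 ≤ M)
    (hN : ∀ x ∈ QQ K P Y ε ×ˢ Ae, ‖N x‖ ≤ M) {q : ((X × ℂ) × (Y × Y)) × ℂ}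
    (hq : q ∈ QQ K P Y ε ×ˢ Aw) : ‖Lam P κ N q‖ ≤ d * M := by
  rw [← (h.mon _ hq.1.1.1).2.1]
  refine norm_rsum_le (h.ne hq.1.1.1) hM fun θ hθ => ?_
  split_ifs with h2
  · simpa using hM
  · exact hN _ (h.other_mem hq hθ h2)

omit [NormedSpace ℂ Y] in
theorem norm_Lam_sub {N N' : ((X × ℂ) × (Y × Y)) × ℂ → Y} {M : ℝ} (hM : 0 ≤ M)
    (hN : ∀ x ∈ QQ K P Y ε ×ˢ Ae, ‖N x - N' x‖ ≤ M) {q : ((X × ℂ) × (Y × Y)) × ℂ}
    (hq : q ∈ QQ K P Y ε ×ˢ Aw) : ‖Lam P κ N q - Lam P κ N' q‖ ≤ d * M := by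
  have : Lam P κ N q - Lam P κ N' q = Lam P κ (fun x => N x - N' x) q := by
    unfold Lam
    rw [rsum_sub]
    congr 1; funext θ; split_ifs <;> simp
  rw [this]; exact h.norm_Lam hM hN hq

omit [NormedSpace ℂ Y] in
theorem Sm_eq (N : ((X × ℂ) × (Y × Y)) × ℂ → Y) {x : X × Y × Y × ℂ} (hx : x.1 ∈ K) {θ : ℂ}
    (hθ : (P x.1).eval θ = 0) : Sm P κ N x = Lam P κ N (loc κ x θ) + N (loc κ x θ) := by
  unfold Sm Lam
  rw [glob_loc h.pos]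
  exact rsum_split (h.ne hx) hθ _

theorem ac_Sm [CompleteSpace X] (hR : S_Root) {N : ((X × ℂ) × (Y × Y)) × ℂ → Y}
    (hN : AC (QQ K P Y ε ×ˢ Ae) N) : AC (DD K Y ε ∩ far P (2 * κ)) (Sm P κ N) :=
  h.ac_rsum hR (π := fun x : X × Y × Y × ℂ => x.1) (f := fun z => N (loc κ z.1 z.2))
    (AC.id' _).fst (fun _ hx => hx.1.1) (hN.comp (ac_loc κ (AC.id' _).fst (AC.id' _).snd)
      fun _ hy => h.loc_far hy.1.1 hy.2 (hy.1.2 _ hy.2))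

omit [NormedSpace ℂ Y] in
theorem norm_Sm {N : ((X × ℂ) × (Y × Y)) × ℂ → Y} {M : ℝ} (hM : 0 ≤ M)
    (hN : ∀ x ∈ QQ K P Y ε ×ˢ Ae, ‖N x‖ ≤ M) {x : X × Y × Y × ℂ}
    (hx : x ∈ DD K Y ε ∩ far P (2 * κ)) : ‖Sm P κ N x‖ ≤ d * M := by
  rw [← (h.mon _ hx.1.1).2.1]
  exact norm_rsum_le (h.ne hx.1.1) hM fun θ hθ => hN _ (h.loc_far hx.1 hθ (hx.2 θ hθ))

theorem Gf_spec [CompleteSpace X] {C₁ : ℝ} (hC : ∀ u ∈ K, ∀ w,
    (∀ θ, (P u).eval θ = 0 → κ / 4 ≤ ‖w - θ‖) →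
      (P u).eval w ≠ 0 ∧ ‖((P u).eval w)⁻¹ * (P u).eval 0‖ ≤ C₁) :
    AC (DD K Y ε ∩ off P (κ / 4)) (Gf P) ∧
      ∀ x ∈ DD K Y ε ∩ off P (κ / 4), ‖Gf P x‖ ≤ ε * (1 + 2 * C₁) := by
  have a0 := AC.id' (DD K Y ε ∩ off P (κ / 4))
  constructor
  · have a1 := h.ac_eval.comp (a0.fst.prodMk a0.snd.snd.snd) fun x hx => ⟨hx.1.1, trivial⟩
    have a2 := h.ac_eval.comp (a0.fst.prodMk (AC.const _ 0)) fun x hx => ⟨hx.1.1, trivial⟩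
    exact a0.snd.snd.fst.add (((a1.inv fun x hx => (hC _ hx.1.1 _ hx.2).1).smul a2).smul
      (a0.snd.fst.sub a0.snd.snd.fst))
  · intro x hx
    have h2 : ‖x.2.2.1‖ < ε := by simpa using hx.1.2.2.1
    have h3 := norm_ab hx.1 (hC _ hx.1.1 _ hx.2).2
    exact (norm_add_le _ _).trans (by linarith)

/-- The local coordinates at the nearest root. -/
theorem ac_locrt [CompleteSpace X] (hR : S_Root) :
    AC (DD K Y ε ∩ near P (4 * κ)) (fun x => loc κ x (rt (P x.1) κ x.2.2.2)) ∧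
      MapsTo (fun x => loc κ x (rt (P x.1) κ x.2.2.2)) (DD K Y ε ∩ near P (4 * κ))
        (QQ K P Y ε ×ˢ ball 0 4) := by
  have a0 := AC.id' (DD K Y ε ∩ near P (4 * κ))
  refine ⟨ac_loc κ a0 ((h.ac_rt hR).comp (a0.fst.prodMk a0.snd.snd.snd)
    fun x hx => ⟨hx.1.1, hx.2⟩), fun x hx => ⟨loc_mem κ hx.1 (rt_spec hx.2).1, ?_⟩⟩
  rw [mem_ball_zero_iff, norm_loc h.pos, div_lt_iff₀ h.pos]
  exact (rt_spec hx.2).2

omit [NormedSpace ℂ Y] in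
theorem locrt_Ao {x : X × Y × Y × ℂ} (hx : x ∈ DD K Y ε) (h1 : x ∈ far P (2 * κ))
    (h2 : x ∈ near P (4 * κ)) : loc κ x (rt (P x.1) κ x.2.2.2) ∈ QQ K P Y ε ×ˢ Ao := by
  refine ⟨loc_mem κ hx (rt_spec h2).1, ?_, ?_⟩
  · rw [norm_loc h.pos, lt_div_iff₀ h.pos]
    exact h1 _ (rt_spec h2).1
  · rw [norm_loc h.pos, div_lt_iff₀ h.pos]
    exact (rt_spec h2).2

end RD

end Comb

end

end Pool.Agent.P.MP_daea48_ag
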