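import Pool.Agent.P.MP_daea48_ag.Comb3
import Pool.Agent.P.MP_daea48_ag.Comb4

/-! Smoothing of combs: the handle with all teeth is a bridge. -/

open Set Filter Topology Metric Polynomial Asymptotics

namespace Pool.Agent.P.MP_daea48_ag

noncomputable section

open Classical

namespace Comb

variable {E E₀ E' G L : Type} [NormedAddCommGroup E] [NormedSpace ℂ E] [NormedAddCommGroup E₀]
  [NormedSpace ℂ E₀] [NormedAddCommGroup E'] [NormedSpace ℂ E'] [NormedAddCommGroup G]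
  [NormedSpace ℂ G] [NormedAddCommGroup L] [NormedSpace ℂ L] {U₀ : Set (ℂ × E₀)}
  {pr₀ : E₀ →L[ℂ] E'} {lab₀ : E₀ →L[ℂ] L}

/-- Gluing of the teeth to the handle. -/
theorem comb [FiniteDimensional ℂ E] (hR : S_Root) (T : TC U₀ pr₀)
    (fin₀ : ∀ z, (lab₀ '' fib U₀ z).Finite) {K : Set (ℂ × E)} {P : ℂ × E → ℂ[X]} {d : ℕ}
    {κ : ℝ} (h : RD K P d κ) {φ : ℂ × E → E₀} (aφ : AC K φ) {ρ η₀ ε η μ ν w₀ : ℝ} (hρ : 0 < ρ)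
    (hK : ∀ u ∈ K, (u.1, φ u) ∈ U₀ ∧ ρ ≤ T.rho (u.1, φ u))
    {N : (((ℂ × E) × ℂ) × (E' × E')) × ℂ → E'} {Ψ : (((ℂ × E) × ℂ) × (E' × E')) × ℂ → E₀}
    {Reg : Set ((((ℂ × E) × ℂ) × (E' × E')) × ℂ)}
    (aG : AC (DD K E' ε ∩ off P (κ / 4)) (Gf P))
    (bG : ∀ x ∈ DD K E' ε ∩ off P (κ / 4), ‖Gf P x‖ ≤ μ)
    (aN : AC (QQ K P E' ε ×ˢ Ae) N) (bN : ∀ x ∈ DD K E' ε ∩ far P (2 * κ), ‖Sm P κ N x‖ ≤ ν)
    (h1 : μ + ν < ρ ^ 2) (h2 : μ + ν < ρ * η₀) (h3 : ν ≤ η / 2) (hε : 0 < ε) (hη : 0 < η)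
    (mf : MF (QQ K P E' ε ×ˢ ball 0 4) Reg Ψ)
    (mem : ∀ x ∈ QQ K P E' ε ×ˢ ball (0 : ℂ) 4, x ∈ Reg →
      (x.1.1.1.1, Ψ x) ∈ U₀ ∧ lab₀ (Ψ x) = lab₀ (φ x.1.1.1))
    (hAo : ∀ x ∈ QQ K P E' ε ×ˢ Ao, x ∈ Reg ∧
      Ψ x = exf T (x.1.1.1.1, φ x.1.1.1) (Gf P (glob κ x) + Lam P κ N x + N x))
    (hw : ∀ u ∈ K, ∀ w : ℂ,
      (‖w‖ < w₀ → (∀ θ, (P u).eval θ = 0 → 2 * κ < ‖w - θ‖) ∧
        ‖((P u).eval w)⁻¹ * (P u).eval 0 - 1‖ < η / (8 * ε)) ∧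
      (w₀⁻¹ < ‖w‖ → (∀ θ, (P u).eval θ = 0 → 2 * κ < ‖w - θ‖) ∧
        ‖((P u).eval w)⁻¹ * (P u).eval 0‖ < η / (8 * ε))) :
    ∃ Ψ Reg, BrData U₀ pr₀ lab₀ φ φ K η₀ ε η w₀ Ψ Reg := by
  have i1 : DD K E' ε ∩ far P (2 * κ) ⊆ DD K E' ε ∩ off P (κ / 4) := fun x hx =>
    ⟨hx.1, fun θ hθ => by linarith [hx.2 θ hθ, h.pos]⟩
  have bH : ∀ x ∈ DD K E' ε ∩ far P (2 * κ), ‖Gf P x + Sm P κ N x‖ ≤ μ + ν := fun x hx =>
    (norm_add_le _ _).trans (add_le_add (bG x (i1 hx)) (bN x hx))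
  have sH := fun (x : (ℂ × E) × E' × E' × ℂ) (hx : x ∈ DD K E' ε ∩ far P (2 * κ)) =>
    exf_spec T fin₀ (hK _ hx.1.1).1 hρ (hK _ hx.1.1).2 ((bH x hx).trans_lt h1)
  have a0 := AC.id' (DD K E' ε ∩ far P (2 * κ))
  have mH := MF.of_AC (ac_exf T hρ (a0.fst.fst.prodMk (aφ.comp a0.fst fun x hx => hx.1.1))
    ((aG.mono i1).add (h.ac_Sm hR aN)) fun x hx =>
      ⟨(hK _ hx.1.1).1, (hK _ hx.1.1).2, (bH x hx).trans_lt h1⟩)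
  obtain ⟨l1, l2⟩ := h.ac_locrt (Y := E') (ε := ε) hR
  obtain ⟨Ψ', Reg', g1, g2, g3, -⟩ := glue (D := DD K E' ε) (A₁ := far P (2 * κ))
    (A₂ := near P (4 * κ)) (p := fun x y => (x.1.1, y) ∈ U₀ ∧ lab₀ y = lab₀ (φ x.1))
    (fun γ l a b => h.cover hR (analyticAt_fst.comp a) a.continuousAt.snd.snd.snd
      (b.mono fun _ hx => hx.1)) mH (mf.comp l1 l2)
    (fun x hx a b => by
      obtain ⟨c1, c2⟩ := hAo _ (h.locrt_Ao hx a b)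
      refine ⟨trivial, c1, ?_⟩
      rw [c2, glob_loc h.pos, add_assoc, ← h.Sm_eq N hx.1 (rt_spec b).1]
      rfl)
    (fun x hx a _ => ⟨(sH x ⟨hx, a⟩).1, (sH x ⟨hx, a⟩).2.1⟩)
    (fun x hx a b => mem _ (l2 ⟨hx, a⟩) b)
  have fin : ∀ x ∈ DD K E' ε, x ∈ far P (2 * κ) → ∀ (a : E') (c : ℂ), ‖c‖ < η / (8 * ε) →
      Gf P x - a = c • (x.2.1 - x.2.2.1) →
      x ∈ Reg' ∧ ‖Ψ' x - φ x.1‖ < η₀ ∧ ‖pr₀ (Ψ' x) - pr₀ (φ x.1) - a‖ < η := by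
    intro x hx hf a c hc e
    obtain ⟨c1, c2⟩ := g3 x hx hf trivial
    obtain ⟨-, -, c3, c4⟩ := sH x ⟨hx, hf⟩
    rw [c2]
    refine ⟨c1, lt_of_mul_lt_mul_left ((c4.trans (bH x ⟨hx, hf⟩)).trans_lt h2) hρ.le, ?_⟩
    have e1 : pr₀ (φ x.1) + (Gf P x + Sm P κ N x) - pr₀ (φ x.1) - a =
        (Gf P x - a) + Sm P κ N x := by abel
    rw [c3, e1, e]
    have e2 := norm_ab hx hc.le
    have e3 : η / (8 * ε) * (2 * ε) = η / 4 := by field_simp; ring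
    linarith [norm_add_le (c • (x.2.1 - x.2.2.1)) (Sm P κ N x), bN x ⟨hx, hf⟩]
  refine ⟨Ψ', Reg', g1, g2, fun x hx a => ?_, fun x hx a => ?_⟩
  · obtain ⟨c1, c2⟩ := (hw _ hx.1 _).1 a
    refine fin x hx c1 _ _ c2 ?_
    rw [Gf, sub_smul, one_smul]; abel
  · obtain ⟨c1, c2⟩ := (hw _ hx.1 _).2 a
    refine fin x hx c1 _ _ c2 ?_
    rw [Gf]; abel

end Comb

open Comb in
theorem Comb_of (h1 : S_LS) (h2 : S_Root) : S_Comb := by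
  intro E _ _ _ E' _ _ _ L _ _ _ E₀ _ _ _ EP _ _ _ U pr lab D hT K hKU hK η₀ hη₀
  obtain ⟨κ, h⟩ := exists_RD h2 (d := D.d₁) hK D.dPi₁ fun u hu =>
    ⟨(D.teeth u (hKU hu)).1, (D.teeth u (hKU hu)).2.1, (D.teeth u (hKU hu)).2.2.1,
      (D.teeth u (hKU hu)).2.2.2.1⟩
  obtain ⟨Co, hCo, Lo⟩ := exists_LSop h1 E' (r := 2) (s := 4) (by norm_num) (by norm_num)
  obtain ⟨Ci, -, Li⟩ := exists_LSop h1 E' (r := 1 / 4) (s := 1 / 2) (by norm_num) (by norm_num)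
  set C := max Co Ci with hCdef
  have hC : 0 < C := hCo.trans_le (le_max_left _ _)
  have Lo' : LSop E' 2 4 C := Lo.mono (by norm_num) (le_max_left _ _)
  have Li' : LSop E' (1 / 4) (1 / 2) C := Li.mono (by norm_num) (le_max_right _ _)
  obtain ⟨C₁, hC₁, hrat⟩ := h.ratio_le hK
  let p : (ℂ × E) × ℂ → ℂ × EP := fun ζ => (ζ.1.1, D.τ ζ)
  have dp : Differentiable ℂ p := (differentiable_fst.comp differentiable_fst).prodMk D.dτ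
  set KT := p '' {ζ | ζ.1 ∈ K ∧ (D.Pi₁ ζ.1).eval ζ.2 = 0} with hKT
  have cKT : IsCompact KT := (h.compact hK).image dp.continuous
  have KTM : KT ⊆ D.M := by
    rintro _ ⟨ζ, hζ, rfl⟩
    exact ((D.teeth _ (hKU hζ.1)).2.2.2.2 _ hζ.2).1
  have he₁ : ∀ ζ : (ℂ × E) × ℂ, ζ.1 ∈ K → (D.Pi₁ ζ.1).eval ζ.2 = 0 → D.e₁ (p ζ).2 = D.φ ζ.1 :=
    fun ζ a b => ((D.teeth _ (hKU a)).2.2.2.2 _ b).2
  obtain ⟨ρ, hρ, hρK⟩ := D.T₀.rho_lower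
    (((hK.image (f := fun u => (u.1, D.φ u)) (continuous_fst.prodMk D.tr.tφ.continuous)).union
      (cKT.image (f := fun q => (q.1, D.e₂ q.2)) (by fun_prop))).isBounded)
  have r1 : ∀ u ∈ K, ρ ≤ D.T₀.rho (u.1, D.φ u) := fun u hu => hρK _ (Or.inl ⟨u, hu, rfl⟩)
  obtain ⟨εT, hεT, hT⟩ := hT KT KTM cKT ρ hρ
  set μ := min (εT / 4) (min (ρ ^ 2 / 2) (ρ * η₀ / 2)) with hμ
  have hμ0 : 0 < μ := by positivity
  have μ1 : μ ≤ εT / 4 := min_le_left _ _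
  have μ2 : μ ≤ ρ ^ 2 / 2 := (min_le_right _ _).trans (min_le_left _ _)
  have μ3 : μ ≤ ρ * η₀ / 2 := (min_le_right _ _).trans (min_le_right _ _)
  set ε := μ / (1 + 2 * C₁) with hε
  have hε0 : 0 < ε := by positivity
  have eε : ε * (1 + 2 * C₁) = μ := by rw [hε]; field_simp
  refine ⟨ε, hε0, fun η hη => ?_⟩
  set ν := min (μ / 8) (η / 2) with hν
  have hν0 : 0 < ν := by positivity
  have ν1 : ν ≤ μ / 8 := min_le_left _ _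
  set ηT := ν / ((D.d₁ + 1) * C) with hηT
  have hηT0 : 0 < ηT := by positivity
  have eη : (D.d₁ + 1) * C * ηT = ν := by rw [hηT]; field_simp
  have hCη : 0 ≤ C * ηT := by positivity
  have hd0 : (0 : ℝ) ≤ D.d₁ := Nat.cast_nonneg _
  have η1 : D.d₁ * (C * ηT) + C * ηT = ν := by rw [← eη]; ring
  have η2 : 0 ≤ D.d₁ * (C * ηT) := by positivity
  obtain ⟨wT, hwT, ΨT, RegT, hB⟩ := hT ηT hηT0
  obtain ⟨aG, bG⟩ := h.Gf_spec (Y := E') (ε := ε) hrat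
  rw [eε] at bG
  obtain ⟨N, Ψ, Reg, aN, bN, mf, mem, hAo⟩ := tooth D.T₀ D.fin₀ hC Lo' Li' hB hwT (by fun_prop)
    (by fun_prop) (fun q hq => ⟨(D.ends q (KTM hq)).1, (D.ends q (KTM hq)).2.1,
      (D.ends q (KTM hq)).2.2.2, by
        obtain ⟨ζ, hζ, rfl⟩ := hq
        rw [he₁ ζ hζ.1 hζ.2]; exact r1 _ hζ.1, hρK _ (Or.inr ⟨q, hq, rfl⟩)⟩) hρ
    (by nlinarith) (Q := QQ K D.Pi₁ E' ε) (p := fun q => p q.1)
    ((AC.of_diff dp univ).comp (AC.id' _).fst (mapsTo_univ _ _)) (fun q hq => ⟨q.1, hq.1, rfl⟩)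
    (g := fun x => Gf D.Pi₁ (glob κ x)) (Λ := Lam D.Pi₁ κ) hεT hηT0.le hd0 (by linarith)
    (aG.comp (ac_glob κ (AC.id' _)) fun x hx => h.glob_off hx)
    (fun x hx => (bG _ (h.glob_off hx)).trans μ1) (fun N hN => h.ac_Lam h2 hN)
    (fun N M hM hN x hx => h.norm_Lam hM hN hx) (fun N N' M hM hN x hx => h.norm_Lam_sub hM hN hx)
  obtain ⟨w₀, hw₀, hw⟩ := h.ends hK D.d₁_pos (t := η / (8 * ε)) (by positivity)
  refine ⟨w₀, hw₀, comb h2 D.T₀ D.fin₀ h (AC.of_diff D.tr.tφ.1 K) hρ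
    (fun u hu => ⟨(D.tr.fw u (hKU hu)).1, r1 u hu⟩) aG bG aN (ν := ν)
    (fun x hx => (h.norm_Sm hCη bN hx).trans (by linarith)) (by nlinarith) (by nlinarith)
    (min_le_right _ _) hε0 hη mf (fun x hx hR => ?_) (fun x hx => ?_) hw⟩
  · have := mem x hx hR
    rwa [he₁ _ hx.1.1.1 hx.1.1.2] at this
  · have := hAo x hx
    rwa [he₁ _ hx.1.1.1 hx.1.1.2] at this

end

end Pool.Agent.P.MP_daea48_ag
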