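import Pool.Agent.P.MP_daea48_ag.StA

/-! Smoothing of combs, part 1: families of separable polynomials and sums over their roots. -/

open Set Filter Topology Metric Polynomial Asymptotics

namespace Pool.Agent.P.MP_daea48_ag

noncomputable section

open Classical

namespace Comb

/-- Sum over the roots. -/
def rsum {Y : Type} [AddCommMonoid Y] (p : ℂ[X]) (f : ℂ → Y) : Y := ∑ θ ∈ p.roots.toFinset, f θ

theorem mem_rts {p : ℂ[X]} (hp : p ≠ 0) {θ : ℂ} : θ ∈ p.roots.toFinset ↔ p.eval θ = 0 := by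
  simp [hp]

theorem rsum_eq {Y : Type} [AddCommMonoid Y] {p : ℂ[X]} (hp : p ≠ 0) {d : ℕ} {v : Fin d → ℂ}
    (hv : Function.Injective v) (h : ∀ w, p.eval w = 0 ↔ ∃ i, v i = w) (f : ℂ → Y) :
    rsum p f = ∑ i, f (v i) := by
  have : p.roots.toFinset = Finset.univ.image v := by
    ext w; rw [mem_rts hp, h]; simp
  rw [rsum, this, Finset.sum_image fun a _ b _ hab => hv hab]

theorem rsum_congr {Y : Type} [AddCommMonoid Y] {p : ℂ[X]} (hp : p ≠ 0) {f g : ℂ → Y}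
    (h : ∀ θ, p.eval θ = 0 → f θ = g θ) : rsum p f = rsum p g :=
  Finset.sum_congr rfl fun θ hθ => h θ ((mem_rts hp).1 hθ)

theorem norm_rsum_le {Y : Type} [NormedAddCommGroup Y] {p : ℂ[X]} (hp : p ≠ 0) {f : ℂ → Y}
    {M : ℝ} (hM : 0 ≤ M) (h : ∀ θ, p.eval θ = 0 → ‖f θ‖ ≤ M) :
    ‖rsum p f‖ ≤ p.natDegree * M := by
  refine (norm_sum_le _ _).trans ((Finset.sum_le_card_nsmul _ _ M
    fun θ hθ => h θ ((mem_rts hp).1 hθ)).trans ?_)
  rw [nsmul_eq_mul]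
  refine mul_le_mul_of_nonneg_right ?_ hM
  exact_mod_cast (Multiset.toFinset_card_le _).trans (card_roots' p)

theorem rsum_sub {Y : Type} [AddCommGroup Y] (p : ℂ[X]) (f g : ℂ → Y) :
    rsum p f - rsum p g = rsum p fun θ => f θ - g θ := by
  simp [rsum, Finset.sum_sub_distrib]

theorem rsum_split {Y : Type} [AddCommMonoid Y] {p : ℂ[X]} (hp : p ≠ 0) {θ : ℂ}
    (hθ : p.eval θ = 0) (f : ℂ → Y) :
    rsum p f = (rsum p fun θ' => if θ' = θ then 0 else f θ') + f θ := by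
  unfold rsum
  rw [← Finset.sum_erase_add _ _ ((mem_rts hp).2 hθ),
    ← Finset.sum_erase_add _ (fun θ' => if θ' = θ then 0 else f θ') ((mem_rts hp).2 hθ)]
  simp only [if_true, add_zero]
  congr 1
  exact Finset.sum_congr rfl fun x hx => by rw [if_neg (Finset.ne_of_mem_erase hx)]

/-- Lower bound away from the roots. -/
theorem eval_lower {p : ℂ[X]} (hp : p.Monic) {w : ℂ} {r : ℝ} (hr : 0 ≤ r)
    (h : ∀ θ, p.eval θ = 0 → r ≤ ‖w - θ‖) : r ^ p.natDegree ≤ ‖p.eval w‖ := by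
  have hs := IsAlgClosed.splits p
  rw [hs.eval_eq_prod_roots_of_monic hp, hs.natDegree_eq_card_roots]
  have : ∀ m : Multiset ℂ, (∀ θ ∈ m, r ≤ ‖w - θ‖) →
      r ^ m.card ≤ ‖(m.map fun θ => w - θ).prod‖ := by
    intro m
    induction m using Multiset.induction_on with
    | empty => simp
    | cons a m ih =>
      intro hm
      rw [Multiset.map_cons, Multiset.prod_cons, Multiset.card_cons, norm_mul, pow_succ']
      exact mul_le_mul (hm a (by simp)) (ih fun θ hθ => hm θ (by simp [hθ])) (by positivity)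
        (norm_nonneg _)
  exact this _ fun θ hθ => h θ ((mem_roots hp.ne_zero).1 hθ)

/-- The root near `w`. -/
def rt (p : ℂ[X]) (κ : ℝ) (w : ℂ) : ℂ :=
  if h : ∃ θ, p.eval θ = 0 ∧ ‖w - θ‖ < 4 * κ then h.choose else 0

theorem rt_spec {p : ℂ[X]} {κ : ℝ} {w : ℂ} (h : ∃ θ, p.eval θ = 0 ∧ ‖w - θ‖ < 4 * κ) :
    p.eval (rt p κ w) = 0 ∧ ‖w - rt p κ w‖ < 4 * κ := by
  unfold rt; rw [dif_pos h]; exact h.choose_spec

variable {X : Type} [NormedAddCommGroup X] [NormedSpace ℂ X]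

/-- A family of monic separable polynomials with well separated roots. -/
structure RD (K : Set X) (P : X → ℂ[X]) (d : ℕ) (κ : ℝ) : Prop where
  diff : ∀ k, Differentiable ℂ fun u => (P u).coeff k
  mon : ∀ u ∈ K, (P u).Monic ∧ (P u).natDegree = d ∧ (P u).Separable ∧ (P u).eval 0 ≠ 0
  pos : 0 < κ
  sep : ∀ u ∈ K, ∀ θ θ', (P u).eval θ = 0 → (P u).eval θ' = 0 → ‖θ - θ'‖ ≤ 10 * κ → θ = θ'
  bdd : ∀ u ∈ K, ∀ θ, (P u).eval θ = 0 → 10 * κ < ‖θ‖ ∧ ‖θ‖ < κ⁻¹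

theorem exists_RD (hR : S_Root) {K : Set X} {P : X → ℂ[X]} {d : ℕ} (hK : IsCompact K)
    (diff : ∀ k, Differentiable ℂ fun u => (P u).coeff k)
    (mon : ∀ u ∈ K, (P u).Monic ∧ (P u).natDegree = d ∧ (P u).Separable ∧ (P u).eval 0 ≠ 0) :
    ∃ κ, RD K P d κ := by
  let Good : ℝ → X → Prop := fun κ u =>
    (∀ θ θ', (P u).eval θ = 0 → (P u).eval θ' = 0 → ‖θ - θ'‖ ≤ 10 * κ → θ = θ') ∧
      ∀ θ, (P u).eval θ = 0 → 10 * κ < ‖θ‖ ∧ ‖θ‖ < κ⁻¹
  have hmono : ∀ κ κ' u, 0 < κ' → κ' ≤ κ → Good κ u → Good κ' u := fun κ κ' u h0 h1 h =>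
    ⟨fun θ θ' a b c => h.1 θ θ' a b (by linarith), fun θ a =>
      ⟨by linarith [(h.2 θ a).1], (h.2 θ a).2.trans_le (inv_anti₀ h0 h1)⟩⟩
  have : ∃ κ > 0, ∀ u ∈ K, Good κ u := by
    refine hK.induction_on (p := fun s => ∃ κ > 0, ∀ u ∈ s, Good κ u) ⟨1, one_pos, by simp⟩
      (fun s t hst ⟨κ, h0, h⟩ => ⟨κ, h0, fun u hu => h u (hst hu)⟩)
      (fun s t ⟨κ, h0, h⟩ ⟨κ', h0', h'⟩ => ⟨min κ κ', lt_min h0 h0', fun u hu => hu.elim
        (fun hu => hmono _ _ _ (lt_min h0 h0') (min_le_left _ _) (h u hu))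
        (fun hu => hmono _ _ _ (lt_min h0 h0') (min_le_right _ _) (h' u hu))⟩) fun u₀ hu₀ => ?_
    obtain ⟨v, hv, hev⟩ := hR.2.1 X K P u₀ d hu₀
      (eventually_nhdsWithin_of_forall fun u hu => ⟨(mon u hu).1, (mon u hu).2.1⟩)
      (fun k => (diff k).continuous.continuousWithinAt) (mon u₀ hu₀).2.2.1
    have h0 := hev.self_of_nhdsWithin hu₀
    have e1 : ∀ᶠ κ in 𝓝[>] (0 : ℝ), (∀ i j, i ≠ j → 10 * κ < ‖v i u₀ - v j u₀‖) ∧
        ∀ i, 10 * κ < ‖v i u₀‖ ∧ ‖v i u₀‖ < κ⁻¹ := by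
      have small : ∀ c : ℝ, 0 < c → ∀ᶠ κ in 𝓝[>] (0 : ℝ), 10 * κ < c := fun c hc =>
        nhdsWithin_le_nhds (ContinuousAt.eventually_lt (f := fun κ : ℝ => 10 * κ)
          (by fun_prop) continuousAt_const (by simpa using hc))
      refine Eventually.and (eventually_all.2 fun i => eventually_all.2 fun j => ?_)
        (eventually_all.2 fun i => Eventually.and (small _ ?_)
          (tendsto_inv_nhdsGT_zero.eventually_gt_atTop _))
      · by_cases hij : i = j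
        · simp [hij]
        · exact (small _ (norm_pos_iff.2 (sub_ne_zero.2 fun h => hij (h0.1 h)))).mono
            fun κ h _ => h
      · refine norm_pos_iff.2 fun h => (mon u₀ hu₀).2.2.2 ?_
        exact (h0.2 0).2 ⟨i, h⟩
    obtain ⟨κ, ⟨h1, h2⟩, hκ⟩ := (e1.and self_mem_nhdsWithin).exists
    have e2 : ∀ᶠ u in 𝓝[K] u₀, (∀ i j, i ≠ j → 10 * κ < ‖v i u - v j u‖) ∧
        ∀ i, 10 * κ < ‖v i u‖ ∧ ‖v i u‖ < κ⁻¹ := by
      refine Eventually.and (eventually_all.2 fun i => eventually_all.2 fun j => ?_)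
        (eventually_all.2 fun i => Eventually.and
          ((hv i).norm.eventually (lt_mem_nhds (h2 i).1))
          ((hv i).norm.eventually (gt_mem_nhds (h2 i).2)))
      by_cases hij : i = j
      · simp [hij]
      · exact (((hv i).sub (hv j)).norm.eventually (lt_mem_nhds (h1 i j hij))).mono
          fun u h _ => h
    refine ⟨_, hev.and e2, κ, hκ, fun u hu => ⟨fun θ θ' a b c => ?_, fun θ a => ?_⟩⟩
    · obtain ⟨i, rfl⟩ := (hu.1.2 θ).1 a
      obtain ⟨j, rfl⟩ := (hu.1.2 θ').1 b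
      by_cases hij : i = j
      · rw [hij]
      · exact absurd (hu.2.1 i j hij) (not_lt.2 c)
    · obtain ⟨i, rfl⟩ := (hu.1.2 θ).1 a
      exact hu.2.2 i
  obtain ⟨κ, h0, h⟩ := this
  exact ⟨κ, diff, mon, h0, fun u hu => (h u hu).1, fun u hu => (h u hu).2⟩

/-- The entire extension of the evaluation. -/
def evd (P : X → ℂ[X]) (d : ℕ) (x : X × ℂ) : ℂ :=
  ∑ k ∈ Finset.range (d + 1), (P x.1).coeff k * x.2 ^ k

namespace RD

variable {K : Set X} {P : X → ℂ[X]} {d : ℕ} {κ : ℝ} (h : RD K P d κ)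
include h

theorem ne {u : X} (hu : u ∈ K) : P u ≠ 0 := (h.mon u hu).1.ne_zero

theorem evd_diff : Differentiable ℂ (evd P d) := by
  unfold evd
  exact Differentiable.fun_sum fun k _ =>
    ((h.diff k).comp differentiable_fst).mul (differentiable_snd.pow k)

theorem evd_eq {u : X} (hu : u ∈ K) (w : ℂ) : evd P d (u, w) = (P u).eval w := by
  rw [eval_eq_sum_range, (h.mon u hu).2.1]; rfl

theorem ac_eval [CompleteSpace X] : AC (K ×ˢ univ) fun x : X × ℂ => (P x.1).eval x.2 :=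
  (AC.of_diff h.evd_diff _).congr fun x hx => h.evd_eq hx.1 x.2

theorem compact (hK : IsCompact K) : IsCompact {ζ : X × ℂ | ζ.1 ∈ K ∧ (P ζ.1).eval ζ.2 = 0} := by
  have : {ζ : X × ℂ | ζ.1 ∈ K ∧ (P ζ.1).eval ζ.2 = 0} =
      (K ×ˢ closedBall 0 κ⁻¹) ∩ {ζ | evd P d ζ = 0} := by
    ext ζ
    constructor
    · rintro ⟨h1, h2⟩
      exact ⟨⟨h1, by simpa using (h.bdd _ h1 _ h2).2.le⟩, (h.evd_eq h1 _).trans h2⟩
    · rintro ⟨h1, h2⟩
      exact ⟨h1.1, (h.evd_eq h1.1 _).symm.trans h2⟩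
  rw [this]
  exact (hK.prod (isCompact_closedBall _ _)).inter_right
    (isClosed_eq h.evd_diff.continuous continuous_const)

theorem branches [CompleteSpace X] (hR : S_Root) {u : ℂ → X} {l : ℂ} (hu : AnalyticAt ℂ u l)
    (hK : ∀ᶠ x in 𝓝 l, u x ∈ K) :
    ∃ v : Fin d → ℂ → ℂ, (∀ i, AnalyticAt ℂ (v i) l) ∧ ∀ᶠ x in 𝓝 l,
      Function.Injective (fun i => v i x) ∧ ∀ w, (P (u x)).eval w = 0 ↔ ∃ i, v i x = w :=
  hR.1 (fun x => P (u x)) l d (hK.mono fun _ hx => ⟨(h.mon _ hx).1, (h.mon _ hx).2.1⟩)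
    (fun k => diff_an_comp (h.diff k) hu) (h.mon _ hK.self_of_nhds).2.2.1

/-- Sums over the roots are analytic along curves. -/
theorem ac_rsum [CompleteSpace X] (hR : S_Root) {W Y : Type} [NormedAddCommGroup W]
    [NormedSpace ℂ W] [NormedAddCommGroup Y] [NormedSpace ℂ Y] {D : Set W} {π : W → X}
    (hπ : AC D π) (hm : MapsTo π D K) {f : W × ℂ → Y}
    (hf : AC {x | x.1 ∈ D ∧ (P (π x.1)).eval x.2 = 0} f) :
    AC D fun x => rsum (P (π x)) fun θ => f (x, θ) := by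
  intro γ l h1 h2
  obtain ⟨v, hv, hev⟩ := h.branches hR (hπ γ l h1 h2) (h2.mono fun _ hx => hm hx)
  have : AnalyticAt ℂ (fun x => ∑ i, f (γ x, v i x)) l :=
    Finset.analyticAt_fun_sum _ fun i _ => hf (fun x => (γ x, v i x)) l (h1.prod (hv i))
      ((h2.and hev).mono fun x hx => ⟨hx.1, (hx.2.2 _).2 ⟨i, rfl⟩⟩)
  refine this.congr ((h2.and hev).mono fun x hx => ?_)
  exact (rsum_eq (h.ne (hm hx.1)) hx.2.1 hx.2.2 fun θ => f (γ x, θ)).symm

theorem rt_eq {u : X} (hu : u ∈ K) {w θ : ℂ} (h1 : (P u).eval θ = 0) (h2 : ‖w - θ‖ < 4 * κ) :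
    rt (P u) κ w = θ := by
  obtain ⟨h3, h4⟩ := rt_spec ⟨θ, h1, h2⟩
  refine h.sep u hu _ _ h3 h1 ?_
  have := norm_sub_le_norm_sub_add_norm_sub (rt (P u) κ w) w θ
  rw [norm_sub_rev _ w] at this
  linarith [h.pos]

theorem ac_rt [CompleteSpace X] (hR : S_Root) :
    AC {x : X × ℂ | x.1 ∈ K ∧ ∃ θ, (P x.1).eval θ = 0 ∧ ‖x.2 - θ‖ < 4 * κ}
      fun x => rt (P x.1) κ x.2 := by
  intro γ l h1 h2
  obtain ⟨v, hv, hev⟩ := h.branches hR (analyticAt_fst.comp h1) (h2.mono fun _ hx => hx.1)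
  obtain ⟨θ, h3, h4⟩ := h2.self_of_nhds.2
  obtain ⟨i, rfl⟩ := (hev.self_of_nhds.2 θ).1 h3
  have h5 : ∀ᶠ x in 𝓝 l, ‖(γ x).2 - v i x‖ < 4 * κ :=
    (h1.continuousAt.snd.sub (hv i).continuousAt).norm.eventually (gt_mem_nhds h4)
  refine (hv i).congr ((h2.and (hev.and h5)).mono fun x hx => ?_)
  exact (h.rt_eq hx.1.1 ((hx.2.1.2 _).2 ⟨i, rfl⟩) hx.2.2).symm

/-- Along a curve one stays far from all roots or close to one of them. -/
theorem cover [CompleteSpace X] (hR : S_Root) {u : ℂ → X} {w : ℂ → ℂ} {l : ℂ}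
    (hu : AnalyticAt ℂ u l) (hw : ContinuousAt w l) (hK : ∀ᶠ x in 𝓝 l, u x ∈ K) :
    (∀ᶠ x in 𝓝 l, ∀ θ, (P (u x)).eval θ = 0 → 2 * κ < ‖w x - θ‖) ∨
      ∀ᶠ x in 𝓝 l, ∃ θ, (P (u x)).eval θ = 0 ∧ ‖w x - θ‖ < 4 * κ := by
  obtain ⟨v, hv, hev⟩ := h.branches hR hu hK
  by_cases hc : ∀ i, 2 * κ < ‖w l - v i l‖
  · left
    have : ∀ᶠ x in 𝓝 l, ∀ i, 2 * κ < ‖w x - v i x‖ := eventually_all.2 fun i =>
      (hw.sub (hv i).continuousAt).norm.eventually (lt_mem_nhds (hc i))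
    refine (hev.and this).mono fun x hx θ hθ => ?_
    obtain ⟨i, rfl⟩ := (hx.1.2 θ).1 hθ
    exact hx.2 i
  · right
    push Not at hc
    obtain ⟨i, hi⟩ := hc
    have : ∀ᶠ x in 𝓝 l, ‖w x - v i x‖ < 4 * κ :=
      (hw.sub (hv i).continuousAt).norm.eventually
        (gt_mem_nhds (hi.trans_lt (by linarith [h.pos])))
    exact (hev.and this).mono fun x hx => ⟨_, (hx.1.2 _).2 ⟨i, rfl⟩, hx.2⟩

theorem zero_bound (hK : IsCompact K) : ∃ C₀ > 0, ∀ u ∈ K, ‖(P u).eval 0‖ ≤ C₀ := by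
  obtain ⟨C, hC⟩ := hK.exists_bound_of_continuousOn (h.diff 0).continuous.continuousOn
  refine ⟨max C 1, by positivity, fun u hu => ?_⟩
  rw [← coeff_zero_eq_eval_zero]
  exact (hC u hu).trans (le_max_left _ _)

/-- The quotient `P 0 / P w` is bounded away from the roots. -/
theorem ratio_le (hK : IsCompact K) : ∃ C₁ > 0, ∀ u ∈ K, ∀ w,
    (∀ θ, (P u).eval θ = 0 → κ / 4 ≤ ‖w - θ‖) →
      (P u).eval w ≠ 0 ∧ ‖((P u).eval w)⁻¹ * (P u).eval 0‖ ≤ C₁ := by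
  obtain ⟨C₀, h0, hC⟩ := h.zero_bound hK
  have hκ := h.pos
  refine ⟨C₀ / (κ / 4) ^ d, by positivity, fun u hu w hw => ?_⟩
  have h1 := eval_lower (h.mon u hu).1 (by positivity) hw
  rw [(h.mon u hu).2.1] at h1
  have h2 : 0 < (κ / 4) ^ d := by positivity
  refine ⟨norm_pos_iff.1 (h2.trans_le h1), ?_⟩
  rw [norm_mul, norm_inv, mul_comm, ← div_eq_mul_inv]
  exact div_le_div₀ h0.le (hC u hu) h2 h1

/-- Behaviour of the quotient at zero and at infinity. -/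
theorem ends (hK : IsCompact K) (hd : 0 < d) {t : ℝ} (ht : 0 < t) : ∃ w₀ > 0, ∀ u ∈ K, ∀ w : ℂ,
    (‖w‖ < w₀ → (∀ θ, (P u).eval θ = 0 → 2 * κ < ‖w - θ‖) ∧
      ‖((P u).eval w)⁻¹ * (P u).eval 0 - 1‖ < t) ∧
    (w₀⁻¹ < ‖w‖ → (∀ θ, (P u).eval θ = 0 → 2 * κ < ‖w - θ‖) ∧
      ‖((P u).eval w)⁻¹ * (P u).eval 0‖ < t) := by
  obtain ⟨C₀, h0, hC⟩ := h.zero_bound hK
  have hκ := h.pos
  have c1 : Continuous fun z : ℂ × X => evd P d (z.2, z.1) :=
    h.evd_diff.continuous.comp continuous_swap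
  have c2 : Continuous fun z : ℂ × X => evd P d (z.2, 0) :=
    h.evd_diff.continuous.comp (by fun_prop)
  have := hK.eventually_forall_of_forall_eventually (x₀ := (0 : ℂ))
    (P := fun w u => ‖(evd P d (u, w))⁻¹ * evd P d (u, 0) - 1‖ < t) fun u hu => by
      have h1 : evd P d (u, 0) ≠ 0 := by rw [h.evd_eq hu]; exact (h.mon u hu).2.2.2
      refine ContinuousAt.eventually_lt
        ((((c1.continuousAt.inv₀ h1).mul c2.continuousAt).sub continuousAt_const).norm)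
        continuousAt_const ?_
      simp only [inv_mul_cancel₀ h1]
      simpa using ht
  obtain ⟨δ, hδ, h2⟩ := Metric.eventually_nhds_iff.mp this
  set T : ℝ := 1 + 2 * κ + C₀ / t with hT
  have hT0 : 0 < C₀ / t := by positivity
  refine ⟨min (min δ κ) (κ⁻¹ + T)⁻¹, by positivity, fun u hu w => ⟨fun hw => ⟨fun θ hθ => ?_, ?_⟩,
    fun hw => ?_⟩⟩
  · have a1 : ‖w‖ < κ := hw.trans_le ((min_le_left _ _).trans (min_le_right _ _))
    have a2 := (h.bdd u hu θ hθ).1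
    have a3 := norm_sub_norm_le θ w
    rw [norm_sub_rev]; linarith
  · have := h2 (y := w) (by simpa using hw.trans_le ((min_le_left _ _).trans (min_le_left _ _)))
      u hu
    rwa [h.evd_eq hu, h.evd_eq hu] at this
  · have a1 : κ⁻¹ + T < ‖w‖ := by
      refine lt_of_le_of_lt ?_ hw
      rw [le_inv_comm₀ (by positivity) (by positivity)]
      exact min_le_right _ _
    have a2 : ∀ θ, (P u).eval θ = 0 → T ≤ ‖w - θ‖ := fun θ hθ => by
      linarith [(h.bdd u hu θ hθ).2, norm_sub_norm_le w θ]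
    refine ⟨fun θ hθ => by linarith [a2 θ hθ], ?_⟩
    have a3 := eval_lower (h.mon u hu).1 (by positivity) a2
    rw [(h.mon u hu).2.1] at a3
    have a4 : T ≤ ‖(P u).eval w‖ := (le_self_pow₀ (by linarith) hd.ne').trans a3
    rw [norm_mul, norm_inv, mul_comm, ← div_eq_mul_inv, div_lt_iff₀ (by linarith)]
    have a5 : C₀ = t * (C₀ / t) := by field_simp
    nlinarith [hC u hu]

end RD

end Comb

end

end Pool.Agent.P.MP_daea48_ag
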