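import Pool.Agent.P.MP_daea48_ag.Comb2

/-! Smoothing of combs, part 3: one tooth with its cap. -/

open Set Filter Topology Metric Polynomial Asymptotics

namespace Pool.Agent.P.MP_daea48_ag

noncomputable section

open Classical

namespace Comb

variable {E₀ E' G L W : Type} [NormedAddCommGroup E₀] [NormedSpace ℂ E₀] [NormedAddCommGroup E']
  [NormedSpace ℂ E'] [NormedAddCommGroup G] [NormedSpace ℂ G] [NormedAddCommGroup L]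
  [NormedSpace ℂ L] [NormedAddCommGroup W] [NormedSpace ℂ W] {U₀ : Set (ℂ × E₀)}
  {pr₀ : E₀ →L[ℂ] E'} {lab₀ : E₀ →L[ℂ] L}

/-- The point of the fibre near `b` with coordinates shifted by `h`. -/
def exf (T : TC U₀ pr₀) (b : ℂ × E₀) (h : E') : E₀ := T.ex b (b.1, pr₀ b.2 + h)

theorem norm_shift (b : ℂ × E₀) (h : E') :
    ‖((b.1, pr₀ b.2 + h) : ℂ × E') - pj pr₀ b‖ = ‖h‖ := by simp [pj]

theorem exf_spec (T : TC U₀ pr₀) (fin₀ : ∀ z, (lab₀ '' fib U₀ z).Finite) {b : ℂ × E₀}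
    (hb : b ∈ U₀) {h : E'} {ρ : ℝ} (h0 : 0 < ρ) (h1 : ρ ≤ T.rho b) (h2 : ‖h‖ < ρ ^ 2) :
    (b.1, exf T b h) ∈ U₀ ∧ lab₀ (exf T b h) = lab₀ b.2 ∧ pr₀ (exf T b h) = pr₀ b.2 + h ∧
      ρ * ‖exf T b h - b.2‖ ≤ ‖h‖ := by
  have h3 : ‖h‖ < T.rho b ^ 2 := h2.trans_le (pow_le_pow_left₀ h0.le h1 2)
  have h4 : ‖((b.1, pr₀ b.2 + h) : ℂ × E') - pj pr₀ b‖ < T.rho b ^ 2 := by rwa [norm_shift]
  refine ⟨T.ex_mem hb h4, ?_, T.pr_ex hb h4, ?_⟩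
  · exact T.ex_lab (lab := lab₀) (z := b.1) (ξ := b.2) hb lab₀.continuous.continuousOn (fin₀ _)
      (by simpa using h3)
  · have := T.ex_dist' hb h4
    rw [norm_shift] at this
    exact (mul_le_mul_of_nonneg_right h1 (norm_nonneg _)).trans this

theorem exf_eq (T : TC U₀ pr₀) {b : ℂ × E₀} (hb : b ∈ U₀) {h : E'} {ξ : E₀} {ρ : ℝ}
    (h1 : ρ ≤ T.rho b) (h2 : (b.1, ξ) ∈ U₀) (h3 : ‖ξ - b.2‖ < ρ) (h4 : pr₀ ξ = pr₀ b.2 + h) :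
    exf T b h = ξ := by
  refine T.ex_unique hb h2 ?_ (by rw [h4])
  have : ((b.1, ξ) : ℂ × E₀) - b = (0, ξ - b.2) := by ext <;> simp
  rw [this]
  simpa using h3.trans_le h1

theorem ac_exf (T : TC U₀ pr₀) {D : Set W} {b : W → ℂ × E₀} {h : W → E'} {ρ : ℝ} (h0 : 0 < ρ)
    (ab : AC D b) (ah : AC D h) (hb : ∀ x ∈ D, b x ∈ U₀ ∧ ρ ≤ T.rho (b x) ∧ ‖h x‖ < ρ ^ 2) :
    AC D fun x => exf T (b x) (h x) :=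
  T.ac_ex.comp (ab.prodMk (ab.fst.prodMk ((ab.snd.clm pr₀).add ah))) fun x hx =>
    ⟨(hb x hx).1, by
      rw [norm_shift]
      exact (hb x hx).2.2.trans_le (pow_le_pow_left₀ h0.le (hb x hx).2.1 2)⟩

/-- The parameter of the tooth. -/
def nk (p : W → ℂ × G) (j : ℕ) (x : (W × ℂ) × (E' × E')) : (ℂ × G) × E' × E' × ℂ :=
  (p x.1.1, x.2.1, x.2.2, x.1.2⁻¹ ^ j)

theorem nk_ac {Q : Set W} {p : W → ℂ × G} (hp : AC Q p) (j : ℕ) (ε : ℝ) :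
    AC ((Q ×ˢ Aw) ×ˢ ball (0 : E' × E') ε) (nk p j) := by
  have a0 := AC.id' ((Q ×ˢ Aw) ×ˢ ball (0 : E' × E') ε)
  have a1 := a0.fst.snd.inv fun x hx => norm_pos_iff.1 (by linarith [hx.1.2.1])
  exact (hp.comp a0.fst.fst fun x hx => hx.1.1).prodMk (a0.snd.fst.prodMk
    (a0.snd.snd.prodMk fun γ l h1 h2 => (a1 γ l h1 h2).pow j))

omit [NormedAddCommGroup G] [NormedSpace ℂ G] [NormedSpace ℂ E'] [NormedAddCommGroup W]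
  [NormedSpace ℂ W] in
theorem nk_mem {Q : Set W} {p : W → ℂ × G} {KT : Set (ℂ × G)} (hm : MapsTo p Q KT) (j : ℕ)
    {ε : ℝ} {x : W × ℂ} (hx : x.1 ∈ Q) {s : E' × E'} (hs : ‖s‖ < ε) :
    nk p j (x, s) ∈ brD KT E' ε :=
  ⟨hm hx, by simpa [nk] using (norm_fst_le s).trans_lt hs,
    by simpa [nk] using (norm_snd_le s).trans_lt hs, trivial⟩

theorem small_o {j : ℕ} {w₀ : ℝ} (hj : (1 / 2 : ℝ) ^ j < w₀) {z : ℂ} (hz : z ∈ Ao) :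
    ‖z⁻¹ ^ j‖ < w₀ := by
  refine lt_of_le_of_lt ?_ hj
  rw [norm_pow, norm_inv, one_div]
  exact pow_le_pow_left₀ (by positivity) (inv_anti₀ (by norm_num) hz.1.le) j

theorem large_i {j : ℕ} {w₀ : ℝ} (hj : (1 / 2 : ℝ) ^ j < w₀) {z : ℂ} (hz : z ∈ Ai) :
    w₀⁻¹ < ‖z⁻¹ ^ j‖ := by
  have h0 : 0 < ‖z‖ := by linarith [hz.1]
  rw [norm_pow, norm_inv, inv_pow]
  exact inv_strictAnti₀ (by positivity) ((pow_le_pow_left₀ h0.le hz.2.le j).trans_lt hj)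

/-- The tooth, corrected so that it matches the handle, and closed up by a cap. -/
theorem tooth [FiniteDimensional ℂ E₀] [FiniteDimensional ℂ E'] [FiniteDimensional ℂ G]
    [FiniteDimensional ℂ W] (T : TC U₀ pr₀) (fin₀ : ∀ z, (lab₀ '' fib U₀ z).Finite) {C : ℝ}
    (hC : 0 < C) (Lo : LSop E' 2 4 C) (Li : LSop E' (1 / 4) (1 / 2) C) {φ₁ φ₂ : ℂ × G → E₀}
    {KT : Set (ℂ × G)} {ρ ε η w₀ : ℝ} {ΨT : (ℂ × G) × E' × E' × ℂ → E₀}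
    {RegT : Set ((ℂ × G) × E' × E' × ℂ)}
    (hB : BrData U₀ pr₀ lab₀ φ₁ φ₂ KT ρ ε η w₀ ΨT RegT) (hw₀ : 0 < w₀)
    (d₁ : Differentiable ℂ φ₁) (d₂ : Differentiable ℂ φ₂)
    (hK : ∀ p ∈ KT, (p.1, φ₁ p) ∈ U₀ ∧ (p.1, φ₂ p) ∈ U₀ ∧ lab₀ (φ₂ p) = lab₀ (φ₁ p) ∧
      ρ ≤ T.rho (p.1, φ₁ p) ∧ ρ ≤ T.rho (p.1, φ₂ p))
    (hρ : 0 < ρ) (hρη : C * η < ρ ^ 2) {Q : Set W} {p : W → ℂ × G} (hp : AC Q p)
    (hm : MapsTo p Q KT) {g : W × ℂ → E'} {Λ : (W × ℂ → E') → W × ℂ → E'} {d : ℝ}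
    (hε : 0 < ε) (hη : 0 ≤ η) (hd : 0 ≤ d) (hsm : (d + 1) * C * η ≤ ε / 32)
    (ag : AC (Q ×ˢ Aw) g) (bg : ∀ x ∈ Q ×ˢ Aw, ‖g x‖ ≤ ε / 4)
    (aΛ : ∀ N, AC (Q ×ˢ Ae) N → AC (Q ×ˢ Aw) (Λ N))
    (bΛ : ∀ N M, 0 ≤ M → (∀ x ∈ Q ×ˢ Ae, ‖N x‖ ≤ M) → ∀ x ∈ Q ×ˢ Aw, ‖Λ N x‖ ≤ d * M)
    (cΛ : ∀ N N' M, 0 ≤ M → (∀ x ∈ Q ×ˢ Ae, ‖N x - N' x‖ ≤ M) →
      ∀ x ∈ Q ×ˢ Aw, ‖Λ N x - Λ N' x‖ ≤ d * M) :
    ∃ (N : W × ℂ → E') (Ψ : W × ℂ → E₀) (Reg : Set (W × ℂ)), AC (Q ×ˢ Ae) N ∧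
      (∀ x ∈ Q ×ˢ Ae, ‖N x‖ ≤ C * η) ∧ MF (Q ×ˢ ball 0 4) Reg Ψ ∧
      (∀ x ∈ Q ×ˢ ball (0 : ℂ) 4, x ∈ Reg →
        ((p x.1).1, Ψ x) ∈ U₀ ∧ lab₀ (Ψ x) = lab₀ (φ₁ (p x.1))) ∧
      ∀ x ∈ Q ×ˢ Ao, x ∈ Reg ∧ Ψ x = exf T ((p x.1).1, φ₁ (p x.1)) (g x + Λ N x + N x) := by
  obtain ⟨j, hj⟩ := exists_pow_lt_of_lt_one hw₀ (show (1 / 2 : ℝ) < 1 by norm_num)
  have no := fun (x : W × ℂ) (hx : x ∈ Q ×ˢ Ao) (s : E' × E') (hs : ‖s‖ < ε) =>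
    hB.near0 _ (nk_mem hm j hx.1 hs) (small_o hj hx.2)
  have ni := fun (x : W × ℂ) (hx : x ∈ Q ×ˢ Ai) (s : E' × E') (hs : ‖s‖ < ε) =>
    hB.nearI _ (nk_mem hm j hx.1 hs) (large_i hj hx.2)
  have aφ : ∀ {φ : ℂ × G → E₀}, Differentiable ℂ φ → AC Q fun x => φ (p x) := fun hφ =>
    (AC.of_diff hφ univ).comp hp (mapsTo_univ _ _)
  have a₁ : AC ((Q ×ˢ Ao) ×ˢ ball (0 : E' × E') ε) fun x : (W × ℂ) × (E' × E') =>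
      pr₀ (ΨT (nk p j x)) - pr₀ (φ₁ (p x.1.1)) - x.2.1 := by
    have a0 := AC.id' ((Q ×ˢ Ao) ×ˢ ball (0 : E' × E') ε)
    refine (((hB.mf.ac.comp ((nk_ac hp j ε).mono (prod_mono_left (prod_mono_right Ao_sub)))
      fun x hx => ?_).clm pr₀).sub (((aφ d₁).comp a0.fst.fst fun x hx => hx.1.1).clm pr₀)).sub
      a0.snd.fst
    have hs : ‖x.2‖ < ε := by simpa using hx.2
    exact ⟨nk_mem hm j hx.1.1 hs, (no x.1 hx.1 x.2 hs).1⟩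
  have a₂ : AC ((Q ×ˢ Ai) ×ˢ ball (0 : E' × E') ε) fun x : (W × ℂ) × (E' × E') =>
      pr₀ (ΨT (nk p j x)) - pr₀ (φ₂ (p x.1.1)) - x.2.2 := by
    have a0 := AC.id' ((Q ×ˢ Ai) ×ˢ ball (0 : E' × E') ε)
    refine (((hB.mf.ac.comp ((nk_ac hp j ε).mono (prod_mono_left (prod_mono_right Ai_sub)))
      fun x hx => ?_).clm pr₀).sub (((aφ d₂).comp a0.fst.fst fun x hx => hx.1.1).clm pr₀)).sub
      a0.snd.snd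
    have hs : ‖x.2‖ < ε := by simpa using hx.2
    exact ⟨nk_mem hm j hx.1.1 hs, (ni x.1 hx.1 x.2 hs).1⟩
  obtain ⟨s, N, A, s1, s2, n1, n2, c1, c2, eo, ei⟩ := fixp hC Lo Li hε hη hd hsm a₁
    (fun x hx => (no x.1 hx.1 x.2 (by simpa using hx.2)).2.2.le) a₂
    (fun x hx => (ni x.1 hx.1 x.2 (by simpa using hx.2)).2.2.le) ag bg aΛ bΛ cΛ
  have mN : MF (Q ×ˢ Aw) ((fun x => nk p j (x, s x)) ⁻¹' RegT) fun x => ΨT (nk p j (x, s x)) :=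
    hB.mf.comp ((nk_ac hp j ε).comp ((AC.id' _).prodMk s1)
      fun x hx => ⟨hx, by simpa using s2 x hx⟩) fun x hx => nk_mem hm j hx.1 (s2 x hx)
  have ab : AC (Q ×ˢ ball (0 : ℂ) (1 / 2)) fun x : W × ℂ => ((p x.1).1, φ₂ (p x.1)) :=
    (hp.fst.prodMk (aφ d₂)).comp (AC.id' _).fst fun x hx => hx.1
  have mC := MF.of_AC (ac_exf T hρ ab c1 fun x hx =>
    ⟨(hK _ (hm hx.1)).2.1, (hK _ (hm hx.1)).2.2.2.2, (c2 x hx).trans_lt hρη⟩)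
  have i1 : ∀ x ∈ Q ×ˢ ball (0 : ℂ) 4, ‖x.2‖ < 1 / 2 → x ∈ Q ×ˢ ball (0 : ℂ) (1 / 2) :=
    fun x hx h => ⟨hx.1, by simpa using h⟩
  have i2 : ∀ x ∈ Q ×ˢ ball (0 : ℂ) 4, 1 / 4 < ‖x.2‖ → x ∈ Q ×ˢ Aw :=
    fun x hx h => ⟨hx.1, h, by simpa using hx.2⟩
  obtain ⟨Ψ, Reg, g1, g2, -, g4⟩ := glue (D := Q ×ˢ ball (0 : ℂ) 4)
    (A₁ := {x | ‖x.2‖ < 1 / 2}) (A₂ := {x | 1 / 4 < ‖x.2‖})
    (p := fun x y => ((p x.1).1, y) ∈ U₀ ∧ lab₀ y = lab₀ (φ₁ (p x.1)))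
    (fun γ l h1 _ => by
      have hc := h1.continuousAt.snd.norm
      by_cases h : ‖(γ l).2‖ < 1 / 2
      · exact Or.inl (hc.eventually (gt_mem_nhds h))
      · exact Or.inr (hc.eventually (lt_mem_nhds (show 1 / 4 < ‖(γ l).2‖ by linarith))))
    (mC.mono fun x hx => i1 x hx.1 hx.2) (mN.mono fun x hx => i2 x hx.1 hx.2)
    (fun x hx h1 h2 => by
      have hx' : x ∈ Q ×ˢ Ai := ⟨hx.1, h2, h1⟩
      have hs := s2 x (i2 x hx h2)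
      obtain ⟨b1, b2, -⟩ := ni x hx' _ hs
      refine ⟨trivial, b1, exf_eq T (hK _ (hm hx.1)).2.1 (hK _ (hm hx.1)).2.2.2.2
        (hB.mem _ (nk_mem hm j hx.1 hs) b1).1 b2 ?_⟩
      rw [← ei x hx']; abel)
    (fun x hx h1 _ => by
      obtain ⟨b1, b2, -⟩ := exf_spec T fin₀ (hK _ (hm hx.1)).2.1 hρ (hK _ (hm hx.1)).2.2.2.2
        ((c2 x (i1 x hx h1)).trans_lt hρη)
      exact ⟨b1, b2.trans (hK _ (hm hx.1)).2.2.1⟩)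
    (fun x hx h1 h2 => hB.mem _ (nk_mem hm j hx.1 (s2 x (i2 x hx h1))) h2)
  refine ⟨N, Ψ, Reg, n1, n2, g1, g2, fun x hx => ?_⟩
  have hs := s2 x (prod_mono_right Ao_sub hx)
  obtain ⟨b1, b2, -⟩ := no x hx _ hs
  obtain ⟨b3, b4⟩ := g4 x ⟨hx.1, by simpa using hx.2.2⟩ (Ao_sub hx.2).1 b1
  refine ⟨b3, b4.trans (exf_eq T (hK _ (hm hx.1)).1 (hK _ (hm hx.1)).2.2.2.1
    (hB.mem _ (nk_mem hm j hx.1 hs) b1).1 b2 ?_).symm⟩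
  rw [← eo x hx]; abel

end Comb

end

end Pool.Agent.P.MP_daea48_ag
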