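import Pool.Agent.P.MP_daea48_ag.StA

/-! Package ConnW: connectedness, nonemptiness and germs for base changes and Weil
restrictions. -/

open Set Filter Topology Metric Polynomial Asymptotics
open scoped ComplexConjugate unitInterval

namespace Pool.Agent.P.MP_daea48_ag

namespace ConnW

noncomputable section

open Classical

section
variable {E : Type} [NormedAddCommGroup E] [NormedSpace ℂ E]

theorem bu_joined {L : Type} [NormedAddCommGroup L] [NormedSpace ℂ L] {B : Set (ℂ × L)}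
    {m : ℂ × L → ℂ} {U : Set (ℂ × E)} (h : Conn U (lab0 E)) {z : ℂ} {ξ₁ ξ₂ : L × E}
    (h1 : (z, ξ₁) ∈ BU B m U) (h2 : (z, ξ₂) ∈ BU B m U) (e : ξ₁.1 = ξ₂.1) :
    JoinedIn {ξ | (z, ξ) ∈ BU B m U ∧ ξ.1 = ξ₁.1} ξ₁ ξ₂ := by
  obtain ⟨a, e₁⟩ := ξ₁
  obtain ⟨a', e₂⟩ := ξ₂
  obtain rfl : a = a' := e
  have h3 := (h (m (z, a)) e₁ e₂ h1.2 h2.2 rfl).map (f := fun e : E => (a, e)) (by fun_prop)
  refine h3.mono ?_
  rintro _ ⟨e, he, rfl⟩
  exact ⟨⟨h1.1, he.1⟩, rfl⟩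

theorem continuous_itp (Q : ℂ[X][X]) (d : ℕ) (z : ℂ) {γ : ℂ → I → E} (h : ∀ v, Continuous (γ v)) :
    Continuous fun s => itp Q d z fun v => γ v s := by
  refine continuous_pi fun l => ?_
  unfold itp
  exact continuous_finsetSum _ fun v _ => (h v).const_smul _

theorem joined_itp (Q : ℂ[X][X]) (d : ℕ) (z y : ℂ) {γ : ℂ → I → E} (h : ∀ v, Continuous (γ v))
    {S : Set ((Fin d → E) × ℂ)} {ξ₁ ξ₂ : (Fin d → E) × ℂ}
    (h0 : (itp Q d z fun v => γ v 0, y) = ξ₁) (h1 : (itp Q d z fun v => γ v 1, y) = ξ₂)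
    (hS : ∀ s, (itp Q d z fun v => γ v s, y) ∈ S) : JoinedIn S ξ₁ ξ₂ :=
  ⟨⟨⟨fun s => (itp Q d z fun v => γ v s, y), (continuous_itp Q d z h).prodMk continuous_const⟩,
    h0, h1⟩, hS⟩

/-- One path for every root. -/
theorem paths {Q : ℂ[X][X]} {d : ℕ} {δ : ℂ[X]} {U : Set (ℂ × ((ℂ × ℂ) × E))}
    (hU : Conn U (labB _ E)) {z y : ℂ} {X₁ X₂ : Fin d → E} (h1 : (z, (X₁, y)) ∈ WU Q d δ U)
    (h2 : (z, (X₂, y)) ∈ WU Q d δ U) :
    ∃ γ : ℂ → I → E, (∀ v, Continuous (γ v)) ∧ ∀ v, Q.evalEval z v = 0 →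
      γ v 0 = ev v X₁ ∧ γ v 1 = ev v X₂ ∧ ∀ s, (z, ((v, y), γ v s)) ∈ U := by
  have : ∀ v, ∃ γ : I → E, Continuous γ ∧ (Q.evalEval z v = 0 →
      γ 0 = ev v X₁ ∧ γ 1 = ev v X₂ ∧ ∀ s, (z, ((v, y), γ s)) ∈ U) := by
    intro v
    by_cases hv : Q.evalEval z v = 0
    · obtain ⟨γ, hγ⟩ := hU z _ _ (h1.2 v hv) (h2.2 v hv) rfl
      refine ⟨fun s => (γ s).2, γ.continuous.snd, fun _ => ⟨by simp, by simp, fun s => ?_⟩⟩
      have e : γ s = ((v, y), (γ s).2) := Prod.ext (hγ s).2 rfl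
      rw [← e]; exact (hγ s).1
    · exact ⟨fun _ => 0, continuous_const, fun h => absurd h hv⟩
  choose γ hγ using this
  exact ⟨γ, fun v => (hγ v).1, fun v => (hγ v).2⟩

/-- Mirror image of values given at the roots in the upper half plane. -/
def mir (J : E →L⋆[ℂ] E) (val : ℂ → E) (v : ℂ) : E :=
  if 0 < v.im then val v else J (val (conj v))

theorem mir_conj {J : E →L⋆[ℂ] E} (hJ : ∀ x, J (J x) = x) (val : ℂ → E) {v : ℂ} (hv : v.im ≠ 0) :
    J (mir J val (conj v)) = mir J val v := by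
  unfold mir
  rcases lt_or_gt_of_ne hv with h | h
  · rw [if_pos (by simpa using h), if_neg (by linarith)]
  · rw [if_neg (by simpa using h.le), if_pos h, hJ, Complex.conj_conj]

theorem ev_conj (J : E →L⋆[ℂ] E) {d : ℕ} {X : Fin d → E} (hX : (fun l => J (X l)) = X) (v : ℂ) :
    J (ev (conj v) X) = ev v X := by
  unfold ev
  rw [map_sum]
  refine Finset.sum_congr rfl fun l _ => ?_
  rw [J.map_smulₛₗ, congrFun hX l]
  simp

theorem eval_conj {δ : ℂ[X]} (h : δ.map (starRingEnd ℂ) = δ) (t : ℂ) :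
    δ.eval (conj t) = conj (δ.eval t) := by
  conv_lhs => rw [← h]
  rw [eval_map, eval₂_hom]

theorem evalEval_conj {Q : ℂ[X][X]} (h : Q.map (mapRingHom (starRingEnd ℂ)) = Q) (t v : ℂ) :
    Q.evalEval (conj t) (conj v) = conj (Q.evalEval t v) := by
  conv_lhs => rw [← h]
  exact map_mapRingHom_evalEval (starRingEnd ℂ) Q t v

theorem mero_pair {Y Z : Type} [NormedAddCommGroup Y] [NormedSpace ℂ Y] [NormedAddCommGroup Z]
    [NormedSpace ℂ Z] [CompleteSpace Y] [CompleteSpace Z] {f : ℂ → Y} {g : ℂ → Z} {p : ℂ}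
    (hf : MeromorphicAt f p) (hg : MeromorphicAt g p) : MeromorphicAt (fun z => (f z, g z)) p :=
  (((Tame.clm (ContinuousLinearMap.inl ℂ Y Z)).mero hf).add
    ((Tame.clm (ContinuousLinearMap.inr ℂ Y Z)).mero hg)).congr
      (Eventually.of_forall fun z => by simp)

end

end

end ConnW

open ConnW in
theorem ConnW_of (hItp : S_Itp) : S_ConnW := by
  refine ⟨fun E _ _ _ L _ _ _ B m U hU => ⟨fun z ξ₁ ξ₂ h1 h2 e => bu_joined hU h1 h2 e,
    fun hB z ξ₁ ξ₂ h1 h2 _ => (bu_joined hU h1 h2 (hB z _ _ h1.1 h2.1)).mono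
      fun ξ hξ => ⟨hξ.1, rfl⟩⟩, fun E _ _ _ Q d δ U hcov => ?_⟩
  obtain ⟨-, -, -, -, i5, i6, -⟩ := hItp Q d δ hcov
  obtain ⟨i5a, i5b, i5c, ⟨CI, AI, hCI, i5d⟩, i5e⟩ := i5 E
  have mem : ∀ (z y : ℂ) (val : ℂ → E), y * δ.eval z = 1 →
      (∀ v, Q.evalEval z v = 0 → (z, ((v, y), val v)) ∈ U) →
      (z, (itp Q d z val, y)) ∈ WU Q d δ U := by
    intro z y val hy h
    refine ⟨hy, fun v hv => ?_⟩
    change (z, ((v, y), ev v (itp Q d z val))) ∈ U
    rw [i5a z val v (right_ne_zero_of_mul_eq_one hy) hv]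
    exact h v hv
  have hrec : ∀ (z : ℂ) (val : ℂ → E) (X : Fin d → E), δ.eval z ≠ 0 →
      (∀ v, Q.evalEval z v = 0 → val v = ev v X) → itp Q d z val = X := by
    intro z val X hz h
    rw [i5c z val _ h, i5b z X hz]
  refine ⟨fun hU z ξ₁ ξ₂ h1 h2 _ => ?_, fun z hz h => ?_,
    fun J t hJ hQ hδ ht hT hU hC hN => ?_, fun κ p val C a hκ h => ?_⟩
  · obtain ⟨X₁, y⟩ := ξ₁
    obtain ⟨X₂, y'⟩ := ξ₂
    have hy : y * δ.eval z = 1 := h1.1
    have hz := right_ne_zero_of_mul_eq_one hy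
    obtain rfl : y = y' := mul_right_cancel₀ hz (hy.trans (show y' * δ.eval z = 1 from h2.1).symm)
    obtain ⟨γ, hγ, h3⟩ := paths hU h1 h2
    refine joined_itp Q d z y hγ ?_ ?_ fun s => ⟨mem z y _ hy fun v hv => (h3 v hv).2.2 s, rfl⟩
    · rw [hrec z _ X₁ hz fun v hv => (h3 v hv).1]
    · rw [hrec z _ X₂ hz fun v hv => (h3 v hv).2.1]
  · choose! val hval using h
    exact ⟨_, mem z _ val (inv_mul_cancel₀ hz) hval⟩
  · have ct : conj (t : ℂ) = t := Complex.conj_ofReal t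
    have him : ∀ v, Q.evalEval (t : ℂ) v = 0 → v.im ≠ 0 := by
      intro v hv h0
      apply hT v.re
      have : (v.re : ℂ) = v := Complex.ext (by simp) (by simp [h0])
      rw [this]; exact hv
    have hroot : ∀ v, Q.evalEval (t : ℂ) v = 0 → Q.evalEval (t : ℂ) (conj v) = 0 := by
      intro v hv
      have := evalEval_conj hQ t v
      rwa [ct, hv, map_zero] at this
    have key : ∀ (y : ℂ) (val : ℂ → E), y * δ.eval (t : ℂ) = 1 → conj y = y →
        (∀ v, Q.evalEval (t : ℂ) v = 0 → ((t : ℂ), ((v, y), val v)) ∈ U) →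
        ((t : ℂ), (itp Q d t (mir J val), y)) ∈ WU Q d δ U ∧
          ((fun l => J (itp Q d t (mir J val) l)), conj y) = (itp Q d t (mir J val), y) := by
      intro y val hy cy h
      refine ⟨mem _ y _ hy fun v hv => ?_, Prod.ext ?_ cy⟩
      · unfold mir
        split_ifs
        · exact h v hv
        · have := hU _ _ _ _ (h _ (hroot v hv))
          rwa [ct, cy, Complex.conj_conj] at this
      · have := i5e J t (mir J val) hQ
        rw [ct] at this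
        exact this.symm.trans (i5c _ _ _ fun v hv => mir_conj hJ val (him v hv))
    constructor
    · have h1 : ∀ v, Q.evalEval (t : ℂ) v = 0 → ∃ ξ, ((t : ℂ), ((v, (δ.eval (t : ℂ))⁻¹), ξ)) ∈ U :=
        fun v hv => hN _ _ ⟨hv, inv_mul_cancel₀ ht⟩
      choose! val hval using h1
      have cy : conj (δ.eval (t : ℂ))⁻¹ = (δ.eval (t : ℂ))⁻¹ := by
        rw [map_inv₀, ← eval_conj hδ, ct]
      exact ⟨_, key _ val (inv_mul_cancel₀ ht) cy hval⟩
    · rintro ⟨X₁, y⟩ ⟨X₂, y'⟩ h1 j1 h2 j2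
      have hy : y * δ.eval (t : ℂ) = 1 := h1.1
      obtain rfl : y = y' :=
        mul_right_cancel₀ ht (hy.trans (show y' * δ.eval (t : ℂ) = 1 from h2.1).symm)
      have cy : conj y = y := congrArg Prod.snd j1
      have jX₁ : (fun l => J (X₁ l)) = X₁ := congrArg Prod.fst j1
      have jX₂ : (fun l => J (X₂ l)) = X₂ := congrArg Prod.fst j2
      obtain ⟨γ, hγ, h3⟩ := paths hC h1 h2
      refine joined_itp Q d t y (γ := fun v s => mir J (fun v => γ v s) v) (fun v => ?_) ?_ ?_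
        fun s => key y _ hy cy fun v hv => (h3 v hv).2.2 s
      · unfold mir
        split_ifs
        · exact hγ v
        · exact J.continuous.comp (hγ _)
      · rw [hrec _ (fun v => mir J (fun v => γ v 0) v) X₁ ht fun v hv => ?_]
        unfold mir
        split_ifs
        · exact (h3 v hv).1
        · exact (congrArg J (h3 _ (hroot v hv)).1).trans (ev_conj J jX₁ v)
      · rw [hrec _ (fun v => mir J (fun v => γ v 1) v) X₂ ht fun v hv => ?_]
        unfold mir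
        split_ifs
        · exact (h3 v hv).2.1
        · exact (congrArg J (h3 _ (hroot v hv)).2.1).trans (ev_conj J jX₂ v)
  · have hy : MeromorphicAt (fun z => (δ.eval (κ z))⁻¹) p := ((Tame.id'.polyEval δ).mero hκ).inv
    refine ⟨mero_pair ?_ hy, h.mono fun z hz =>
      mem _ _ _ (inv_mul_cancel₀ hz.1) fun v hv => (hz.2.2 v hv).1⟩
    obtain ⟨C₁, j₁, hC₁, b1⟩ := mero_bound hκ
    obtain ⟨C₂, j₂, hC₂, b2⟩ := mero_bound hy
    refine mero_of_bound (C := CI * (1 + C₁ + C₂) ^ AI * |C|) (j := (j₁ + j₂) * AI + a) ?_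
    have h1 : ∀ᶠ z in 𝓝[≠] p, ‖z - p‖ < 1 := by
      apply nhdsWithin_le_nhds
      filter_upwards [ball_mem_nhds p one_pos] with z hz using by simpa [dist_eq_norm] using hz
    filter_upwards [h, b1, b2, h1, hκ.eventually_analyticAt, self_mem_nhdsWithin] with
      z h2 h3 h4 h5 h6 hzp
    have hn : 0 < ‖z - p‖ := norm_pos_iff.2 (sub_ne_zero.2 hzp)
    constructor
    · obtain ⟨v, co, hv, hco, h7⟩ := i6 κ z h6 h2.1
      refine AnalyticAt.differentiableAt (analyticAt_pi_iff.2 fun k => ?_)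
      have : AnalyticAt ℂ (fun x => ∑ i, co i k x • val x (v i x)) z :=
        Finset.analyticAt_fun_sum _ fun i _ => (hco i k).smul
          (h2.2.1 (v i) (hv i) (h7.mono fun x hx => (hx.2.1 _).2 ⟨i, rfl⟩))
      exact this.congr (h7.mono fun x hx => (hx.2.2 E (val x) k).symm)
    · refine (i5d _ _ _ (|C| / ‖z - p‖ ^ a) (by positivity) (inv_mul_cancel₀ h2.1) fun v hv =>
        (h2.2.2 v hv).2.trans (by gcongr; exact le_abs_self C)).trans ?_
      have a1 : ‖z - p‖ ^ (j₁ + j₂) ≤ ‖z - p‖ ^ j₁ := pow_le_pow_of_le_one hn.le h5.le (by omega)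
      have a2 : ‖z - p‖ ^ (j₁ + j₂) ≤ ‖z - p‖ ^ j₂ := pow_le_pow_of_le_one hn.le h5.le (by omega)
      have a3 : ‖z - p‖ ^ (j₁ + j₂) ≤ 1 := pow_le_one₀ hn.le h5.le
      have a4 : 1 + ‖κ z‖ + ‖(δ.eval (κ z))⁻¹‖ ≤ (1 + C₁ + C₂) / ‖z - p‖ ^ (j₁ + j₂) := by
        rw [add_div, add_div]
        refine add_le_add (add_le_add ?_ (h3.trans ?_)) (h4.trans ?_)
        · rw [le_div_iff₀ (by positivity)]; linarith
        · gcongr
        · gcongr
      calc CI * (1 + ‖κ z‖ + ‖(δ.eval (κ z))⁻¹‖) ^ AI * (|C| / ‖z - p‖ ^ a)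
          ≤ CI * ((1 + C₁ + C₂) / ‖z - p‖ ^ (j₁ + j₂)) ^ AI * (|C| / ‖z - p‖ ^ a) := by gcongr
        _ = _ := by rw [div_pow, ← pow_mul, pow_add]; field_simp

end Pool.Agent.P.MP_daea48_ag
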