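import Pool.Agent.P.MP_daea48_ag.StK

/-! A smooth quasi-compact scheme over a field has a finite cover by presented affine opens. -/

open Set CategoryTheory AlgebraicGeometry

namespace Pool.Agent.P.MP_daea48_ag

noncomputable section

open Classical

namespace Cover

theorem jac_of {K S σ κ : Type} [Field K] [CommRing S] [Algebra K S] [Fintype σ] [Fintype κ]
    (P : Algebra.SubmersivePresentation K S σ κ) (Λ : Type) [Field Λ] (j : K →+* Λ) (x : σ → Λ)
    (hx : ∀ k, MvPolynomial.eval₂ j x (P.relation k) = 0) (H : σ → Λ)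
    (hH : ∀ s, s ∉ range P.map → H s = 0)
    (hD : ∀ k, ∑ s, MvPolynomial.eval₂ j x (MvPolynomial.pderiv s (P.relation k)) * H s = 0) :
    H = 0 := by
  set ev : MvPolynomial σ K →+* Λ := MvPolynomial.eval₂Hom j x with hev
  have hker : ∀ G : MvPolynomial σ K, MvPolynomial.aeval P.val G = 0 → ev G = 0 := by
    intro G hG
    have h1 : G ∈ Ideal.span (range P.relation) := by
      rw [P.span_range_relation_eq_ker, P.ker_eq_ker_aeval_val]
      exact hG
    have h2 : Ideal.span (range P.relation) ≤ RingHom.ker ev := by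
      rw [Ideal.span_le]
      rintro _ ⟨k, rfl⟩
      exact hx k
    exact h2 h1
  have hdet : ev P.jacobiMatrix.det ≠ 0 := by
    obtain ⟨u, hu⟩ := P.jacobian_isUnit.exists_right_inv
    obtain ⟨G, rfl⟩ := P.aeval_val_surjective u
    rw [P.jacobian_eq_jacobiMatrix_det, P.algebraMap_apply] at hu
    have h3 := hker (P.jacobiMatrix.det * G - 1) (by rw [map_sub, map_mul, hu, map_one, sub_self])
    rw [map_sub, map_mul, map_one, sub_eq_zero] at h3
    exact left_ne_zero_of_mul_eq_one h3
  rw [RingHom.map_det] at hdet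
  have hv : Matrix.vecMul (fun i => H (P.map i)) (ev.mapMatrix P.jacobiMatrix) = 0 := by
    funext k
    have h4 := hD k
    rw [← Finset.sum_subset (Finset.subset_univ (Finset.univ.map ⟨P.map, P.map_inj⟩)),
      Finset.sum_map] at h4
    · simp only [Matrix.vecMul, dotProduct, RingHom.mapMatrix_apply, Matrix.map_apply,
        P.jacobiMatrix_apply, Pi.zero_apply]
      rw [← h4]
      refine Finset.sum_congr rfl fun i _ => ?_
      rw [mul_comm]
      rfl
    · intro s _ hs
      rw [hH s, mul_zero]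
      rintro ⟨i, rfl⟩
      exact hs (Finset.mem_map.2 ⟨i, Finset.mem_univ _, rfl⟩)
  have h0 := Matrix.eq_zero_of_vecMul_eq_zero hdet hv
  funext s
  by_cases hs : s ∈ range P.map
  · obtain ⟨i, rfl⟩ := hs
    exact congrFun h0 i
  · exact hH s hs

theorem exists_pres {K S : Type} [Field K] [CommRing S] (φ : K →+* S) (h : φ.IsStandardSmooth) :
    ∃ (V : Pres K) (e : MvPolynomial V.σ K →+* S), Function.Surjective e ∧
      RingHom.ker e = V.I ∧ ∀ k, e (MvPolynomial.C k) = φ k := by
  let := φ.toAlgebra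
  obtain ⟨σ, κ, hκ, hσ, ⟨P⟩⟩ := Algebra.IsStandardSmooth.out (R := K) (S := S) (self := h)
  let := Fintype.ofFinite σ
  let := Fintype.ofFinite κ
  let V : Pres K :=
    { σ := σ
      ι := {s : σ // s ∉ range P.map}
      κ := κ
      fr := Subtype.val
      F := P.relation
      card := by
        rw [Fintype.card_subtype_compl, Set.card_range_of_injective P.map_inj]
        have := Fintype.card_le_of_injective P.map P.map_inj
        omega
      jac := fun Λ _ j x hx H hH hD =>
        jac_of P Λ j x hx H (fun s hs => hH ⟨s, hs⟩) hD }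
  refine ⟨V, (MvPolynomial.aeval P.val : MvPolynomial σ K →ₐ[K] S).toRingHom,
    P.aeval_val_surjective, ?_, fun k => ?_⟩
  · change _ = Ideal.span (range P.relation)
    rw [P.span_range_relation_eq_ker, P.ker_eq_ker_aeval_val]
    rfl
  · exact MvPolynomial.aeval_C P.val k

theorem exists_chart {K : Type} [Field K] {X : Scheme.{0}} (s : X ⟶ Spec (CommRingCat.of K))
    [Smooth s] (x : X) : ∃ (W : X.Opens) (V : Pres K) (e : MvPolynomial V.σ K →+* Γ(X, W)),
      IsAffineOpen W ∧ x ∈ W ∧ Function.Surjective e ∧ RingHom.ker e = V.I ∧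
      ∀ k, e (MvPolynomial.C k) =
        ((Scheme.ΓSpecIso (CommRingCat.of K)).inv ≫ s.appLE ⊤ W le_top).hom k := by
  obtain ⟨U, -, W, hW, hx, e, hs⟩ := Smooth.exists_isStandardSmooth s x
  have hU : U = ⊤ := by
    refine top_le_iff.1 fun y _ => ?_
    have h1 : s x ∈ U := e hx
    have h2 : y = s x := Subsingleton.elim (α := PrimeSpectrum K) _ _
    rw [h2]
    exact h1
  subst hU
  have h3 : ((Scheme.ΓSpecIso (CommRingCat.of K)).inv ≫ s.appLE ⊤ W le_top).hom.IsStandardSmooth :=
    RingHom.isStandardSmooth_respectsIso.2 (s.appLE ⊤ W le_top).hom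
      (Scheme.ΓSpecIso (CommRingCat.of K)).symm.commRingCatIsoToRingEquiv hs
  obtain ⟨V, e', h4, h5, h6⟩ := exists_pres _ h3
  exact ⟨W, V, e', hW, hx, h4, h5, h6⟩

end Cover

theorem Cover_of : S_Cover := by
  intro K _ X s _ _ _
  choose W V e hW hx hs hk hC using Cover.exists_chart s
  have : CompactSpace X := QuasiCompact.compactSpace_of_compactSpace s
  obtain ⟨t, ht⟩ := isCompact_univ.elim_finite_subcover (fun x => (W x : Set X))
    (fun x => (W x).isOpen) (fun x _ => mem_iUnion.2 ⟨x, hx x⟩)
  have hne : t.Nonempty := by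
    obtain ⟨x⟩ := ‹Nonempty X›
    obtain ⟨y, hy, -⟩ := mem_iUnion₂.1 (ht (mem_univ x))
    exact ⟨y, hy⟩
  obtain ⟨m, hm⟩ : ∃ m, t.card = m + 1 := ⟨t.card - 1, by have := hne.card_pos; omega⟩
  let q : Fin (m + 1) ≃ t := (t.equivFinOfCardEq hm).symm
  refine ⟨{ m := m
            V := fun i => V (q i)
            W := fun i => W (q i)
            aff := fun i => hW _
            ne := fun i => ⟨⟨_, hx _⟩⟩
            cov := ?_
            e := fun i => e (q i)
            surj := fun i => hs _
            ker := fun i => hk _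
            eC := fun i => hC _ }⟩
  refine top_le_iff.1 fun x _ => ?_
  obtain ⟨y, hy, hxy⟩ := mem_iUnion₂.1 (ht (mem_univ x))
  refine TopologicalSpace.Opens.mem_iSup.2 ⟨q.symm ⟨y, hy⟩, ?_⟩
  rw [Equiv.apply_symm_apply]
  exact hxy

end

end Pool.Agent.P.MP_daea48_ag
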