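import Pool.Agent.P.MP_daea48_ag.CurveA

/-! The function field of a smooth proper curve without real points. -/

open Polynomial CategoryTheory CategoryTheory.Limits AlgebraicGeometry

namespace Pool.Agent.P.MP_daea48_ag

namespace Curve

noncomputable section

variable {C : Scheme.{0}} (c : C ⟶ Spec (CommRingCat.of ℝ))

/-- The structure map of an open. -/
def jW (W : C.Opens) : ℝ →+* Γ(C, W) :=
  ((Scheme.ΓSpecIso (CommRingCat.of ℝ)).inv ≫ c.appLE ⊤ W le_top).hom

theorem chart [SmoothOfRelativeDimension 1 c] (x : C) : ∃ (W : C.Opens) (_ : IsAffineOpen W)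
    (_ : x ∈ W) (g : ℝ[X] →+* Γ(C, W)), g.Etale ∧ g.comp Polynomial.C = jW c W := by
  obtain ⟨U, -, W, hW, hx, e, hs⟩ :=
    SmoothOfRelativeDimension.exists_isStandardSmoothOfRelativeDimension (n := 1) (f := c) x
  have hU : U = ⊤ := by
    refine top_le_iff.1 fun y _ => ?_
    have h1 : c x ∈ U := e hx
    have h2 : y = c x := Subsingleton.elim (α := PrimeSpectrum ℝ) _ _
    rw [h2]
    exact h1
  subst hU
  have h3 : (jW c W).IsStandardSmoothOfRelativeDimension 1 :=
    RingHom.isStandardSmoothOfRelativeDimension_respectsIso.2 (c.appLE ⊤ W le_top).hom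
      (Scheme.ΓSpecIso (CommRingCat.of ℝ)).symm.commRingCatIsoToRingEquiv hs
  obtain ⟨g, hg, hg'⟩ := h3.exists_etale_mvPolynomial
  let e1 := (MvPolynomial.uniqueAlgEquiv ℝ (Fin 1)).symm
  refine ⟨W, hW, hx, g.comp e1.toRingEquiv.toRingHom,
    RingHom.Etale.respectsIso.2 g e1.toRingEquiv hg', ?_⟩
  rw [← hg]
  ext r
  exact congrArg g (e1.commutes r)

variable [IsIntegral C]

/-- The structure map of the function field. -/
def jR : ℝ →+* C.functionField :=
  ((Scheme.ΓSpecIso (CommRingCat.of ℝ)).inv ≫ c.appTop ≫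
    C.presheaf.germ ⊤ (genericPoint C) trivial).hom

theorem jR_eq (W : C.Opens) [Nonempty W] (r : ℝ) :
    jR c r = (C.germToFunctionField W).hom (jW c W r) := by
  rw [jW, ← CommRingCat.comp_apply, Category.assoc, Scheme.Hom.appLE, Category.assoc,
    TopCat.Presheaf.germ_res]
  rfl

theorem gen_comp : C.fromSpecStalk (genericPoint C) ≫ c = Spec.map (CommRingCat.ofHom (jR c)) := by
  rw [← cancel_mono (Spec (CommRingCat.of ℝ)).toSpecΓ, Category.assoc, Scheme.toSpecΓ_naturality,
    Scheme.fromSpecStalk_toSpecΓ_assoc, ← SpecMap_ΓSpecIso_hom, ← Spec.map_comp, ← Spec.map_comp]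
  simp [jR]

theorem no_real [IsProper c] (h : IsEmpty (Pts c (RingHom.id ℝ)))
    (O : ValuationSubring C.functionField) (hO : ∀ r, jR c r ∈ O)
    (χ : O →+* ℝ) (hχ : ∀ r, χ ⟨_, hO r⟩ = r) : False := by
  have hE : ValuativeCriterion.Existence c :=
    (UniversallyClosed.eq_valuativeCriterion.le _ _ _ inferInstance).1
  let jO : CommRingCat.of ℝ ⟶ CommRingCat.of O :=
    CommRingCat.ofHom ((jR c).codRestrict O.toSubring hO)
  let ι : CommRingCat.of O ⟶ C.functionField :=
    CommRingCat.ofHom (algebraMap O C.functionField)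
  have w : C.fromSpecStalk (genericPoint C) ≫ c = Spec.map ι ≫ Spec.map jO := by
    rw [gen_comp, ← Spec.map_comp]
    rfl
  obtain ⟨l, -, hl₂⟩ := (hE { R := O, K := C.functionField, commSq := ⟨w⟩, .. }).exists_lift
  have hl : l ≫ c = Spec.map jO := hl₂
  refine h.elim ⟨Spec.map (CommRingCat.ofHom χ) ≫ l, ?_⟩
  rw [Category.assoc, hl, ← Spec.map_comp, spc]
  congr 1
  ext r
  exact hχ r

theorem exists_res {K : Type} [Field K] [Algebra ℝ K] {O : ValuationSubring K} (hO : IsPlace O)
    (h : RealResidue O) : ∃ χ : O →+* ℝ, ∀ r, χ ⟨_, hO.2 r⟩ = r := by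
  let j : ℝ →+* IsLocalRing.ResidueField O :=
    (IsLocalRing.residue O).comp ((algebraMap ℝ K).codRestrict O.toSubring hO.2)
  have hj : Function.Bijective j := by
    refine ⟨j.injective, fun y => ?_⟩
    obtain ⟨x, rfl⟩ := IsLocalRing.residue_surjective y
    obtain ⟨r, hr⟩ := h x x.2
    refine ⟨r, ?_⟩
    change IsLocalRing.residue O _ = _
    rw [eq_comm, ← sub_eq_zero, ← map_sub, IsLocalRing.residue_eq_zero_iff,
      ← ValuationSubring.coe_mem_nonunits_iff]
    exact hr
  exact ⟨(RingEquiv.ofBijective j hj).symm.toRingHom.comp (IsLocalRing.residue O),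
    fun r => (RingEquiv.ofBijective j hj).symm_apply_apply r⟩

theorem pointless [SmoothOfRelativeDimension 1 c] [IsProper c]
    (h : IsEmpty (Pts c (RingHom.id ℝ))) :
    letI := (jR c).toAlgebra
    PointlessFF C.functionField := by
  let := (jR c).toAlgebra
  obtain ⟨W, hW, hx, g, hg, hg'⟩ := chart c (genericPoint C)
  have : Nonempty W := ⟨⟨_, hx⟩⟩
  have := functionField_isFractionRing_of_isAffineOpen C W hW
  let := g.toAlgebra
  have : Algebra.Etale ℝ[X] Γ(C, W) := hg
  let := ((algebraMap Γ(C, W) C.functionField).comp g).toAlgebra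
  have : IsScalarTower ℝ[X] Γ(C, W) C.functionField := .of_algebraMap_eq' rfl
  have : IsScalarTower ℝ ℝ[X] C.functionField := .of_algebraMap_eq fun r => by
    change jR c r = (C.germToFunctionField W).hom ((g.comp Polynomial.C) r)
    rw [hg', jR_eq c W]
  refine ⟨?_, CurveA.trdeg Γ(C, W) _, fun O hO hr => ?_⟩
  · have : Algebra.EssFiniteType Γ(C, W) C.functionField :=
      .of_isLocalization _ (nonZeroDivisors Γ(C, W))
    have : Algebra.EssFiniteType ℝ[X] C.functionField := .comp _ Γ(C, W) _
    have : Algebra.EssFiniteType ℝ C.functionField := .comp _ ℝ[X] _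
    exact IntermediateField.fg_top_iff.2 this
  · obtain ⟨χ, hχ⟩ := exists_res hO hr
    exact no_real c h O hO.2 χ hχ

theorem place [SmoothOfRelativeDimension 1 c] (v : C) (hv : IsClosed ({v} : Set C)) :
    letI := (jR c).toAlgebra
    ∃ O : ValuationSubring C.functionField, O.toSubring = locRing v ∧ IsPlace O := by
  let := (jR c).toAlgebra
  obtain ⟨W, hW, hx, g, hg, hg'⟩ := chart c v
  have : Nonempty W := ⟨⟨_, hx⟩⟩
  let := g.toAlgebra
  have : Algebra.Etale ℝ[X] Γ(C, W) := hg
  let := C.presheaf.algebra_section_stalk ⟨v, hx⟩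
  have hl : IsLocalization.AtPrime (C.presheaf.stalk v) (hW.primeIdealOf ⟨v, hx⟩).asIdeal :=
    hW.isLocalization_stalk ⟨v, hx⟩
  have : ValuationRing (C.presheaf.stalk v) := CurveA.val Γ(C, W) (hW.primeIdealOf ⟨v, hx⟩).asIdeal _
  refine ⟨⟨locRing v, fun x => ValuationRing.isInteger_or_isInteger (C.presheaf.stalk v) x⟩, rfl,
    fun ht => ?_, fun r => ?_⟩
  · have hs : Function.Surjective (algebraMap (C.presheaf.stalk v) C.functionField) := fun x => by
      have : x ∈ (⊤ : ValuationSubring C.functionField) := trivial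
      rw [← ht] at this
      exact this
    have hF : IsField (C.presheaf.stalk v) :=
      (RingEquiv.ofBijective _ ⟨IsFractionRing.injective _ _, hs⟩).toMulEquiv.isField
        (Field.toIsField _)
    have hm := hW.primeIdealOf_isMaximal_of_isClosed ⟨v, hx⟩ hv
    have hb : (hW.primeIdealOf ⟨v, hx⟩).asIdeal = ⊥ := by
      by_contra hne
      exact IsLocalization.AtPrime.not_isField Γ(C, W) hne _ hF
    let := (g.comp Polynomial.C).toAlgebra
    have : IsScalarTower ℝ ℝ[X] Γ(C, W) := .of_algebraMap_eq' rfl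
    rw [hb] at hm
    exact CurveA.not_isField Γ(C, W) (Ring.isField_iff_maximal_bot.2 hm)
  · refine ⟨(C.presheaf.germ W v hx).hom (jW c W r), ?_⟩
    change _ = jR c r
    rw [jR_eq c W]
    exact Scheme.algebraMap_germ_eq_germToFunctionField _ _ _

theorem locRing_inj [IsSeparated c] {v w : C} (h : locRing v = locRing w) : v = w := by
  have : C.IsSeparated := ⟨by rw [← terminal.comp_from c]; infer_instance⟩
  let e : ∀ u : C, C.presheaf.stalk u ≃+* locRing u := fun u =>
    RingEquiv.ofBijective (algebraMap (C.presheaf.stalk u) C.functionField).rangeRestrict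
      ⟨fun a b hab => IsFractionRing.injective (C.presheaf.stalk u) C.functionField
        (congrArg Subtype.val hab), RingHom.rangeRestrict_surjective _⟩
  let φ : C.presheaf.stalk w ≃+* C.presheaf.stalk v :=
    ((e w).trans (RingEquiv.subringCongr h.symm)).trans (e v).symm
  let j : C.presheaf.stalk v ⟶ C.functionField :=
    C.presheaf.stalkSpecializes ((genericPoint_spec C).specializes trivial)
  have hj : IsDominant (Spec.map j) := ⟨(PrimeSpectrum.denseRange_comap_iff_ker_le_nilRadical
    j.hom).2 (((RingHom.injective_iff_ker_eq_bot _).1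
        (IsFractionRing.injective (C.presheaf.stalk v) C.functionField)).trans_le bot_le)⟩
  have hφ : CommRingCat.ofHom φ.toRingHom ≫ j =
      C.presheaf.stalkSpecializes ((genericPoint_spec C).specializes trivial) := by
    ext1
    refine RingHom.ext fun x => ?_
    exact congrArg Subtype.val ((e v).apply_symm_apply _)
  have he : Spec.map (CommRingCat.ofHom φ.toRingHom) ≫ C.fromSpecStalk w = C.fromSpecStalk v :=
    ext_of_isDominant (Spec.map j) (by
      rw [← Spec.map_comp_assoc, hφ, Scheme.SpecMap_stalkSpecializes_fromSpecStalk,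
        Scheme.SpecMap_stalkSpecializes_fromSpecStalk])
  have h1 := congrArg (fun f => f (IsLocalRing.closedPoint (C.presheaf.stalk v))) he
  have : IsLocalHom φ.toRingHom := IsLocalHom.of_surjective _ φ.surjective
  simp only [Scheme.Hom.comp_apply] at h1
  have h2 : (Spec.map (CommRingCat.ofHom φ.toRingHom)) (IsLocalRing.closedPoint _) =
      IsLocalRing.closedPoint (C.presheaf.stalk w) := IsLocalRing.comap_closedPoint φ.toRingHom
  rw [h2] at h1
  exact Scheme.fromSpecStalk_closedPoint.symm.trans
    (h1.symm.trans Scheme.fromSpecStalk_closedPoint)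

theorem weak [SmoothOfRelativeDimension 1 c] [IsSeparated c] {X : Scheme.{0}}
    (s : X ⟶ Spec (CommRingCat.of C.functionField))
    (h : letI := (jR c).toAlgebra; WeakApprox s) : WeakApproxC C s := by
  classical
  let := (jR c).toAlgebra
  intro S hS
  choose O hO hP using fun v : S => place c v.1 (hS v.1 v.2)
  have hi : Function.Injective O := fun v w e =>
    Subtype.ext (locRing_inj c (by rw [← hO, ← hO, e]))
  let S' := Finset.univ.image O
  have hd := h S' fun O' hO' => by
    obtain ⟨v, -, rfl⟩ := Finset.mem_image.1 hO'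
    exact hP v
  let e : S ≃ S' := Equiv.ofBijective (fun v => ⟨O v, Finset.mem_image_of_mem O (Finset.mem_univ v)⟩)
    ⟨fun v w e => hi (congrArg Subtype.val e), fun ⟨O', hO'⟩ => by
      obtain ⟨v, -, rfl⟩ := Finset.mem_image.1 hO'
      exact ⟨v, rfl⟩⟩
  let P : S' → Type := fun w => Pts s (toCpl w.1)
  refine ⟨O, hO, ?_⟩
  have hs : Function.Surjective fun (y : ∀ w, P w) (v : S) => y (e v) :=
    (Equiv.piCongrLeft P e).symm.surjective
  exact hs.denseRange.comp hd (continuous_pi fun v => continuous_apply (e v))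

end

end Curve

end Pool.Agent.P.MP_daea48_ag
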