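import Pool.Agent.P.MP_daea48_ag.Stm2

/-! Etale algebras over `ℝ[X]`. -/

open Polynomial

namespace Pool.Agent.P.MP_daea48_ag

namespace CurveA

variable (A : Type) [CommRing A] [IsDomain A] [Algebra ℝ[X] A] [Algebra.Etale ℝ[X] A]

theorem inj : Function.Injective (algebraMap ℝ[X] A) := by
  have : Module.Flat ℝ[X] A := Algebra.Smooth.flat _ _
  exact FaithfulSMul.algebraMap_injective _ _

theorem alg (K : Type) [Field K] [Algebra A K] [IsFractionRing A K] [Algebra ℝ[X] K]
    [IsScalarTower ℝ[X] A K] : Algebra.IsAlgebraic ℝ[X] K := by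
  have hi : Function.Injective (algebraMap ℝ[X] K) := by
    rw [IsScalarTower.algebraMap_eq ℝ[X] A K]
    exact (IsFractionRing.injective A K).comp (inj A)
  have : FaithfulSMul ℝ[X] K := (faithfulSMul_iff_algebraMap_injective _ _).2 hi
  let := FractionRing.liftAlgebra ℝ[X] K
  have : Algebra.FormallyUnramified A K := .of_isLocalization (nonZeroDivisors A)
  have : Algebra.FormallyUnramified ℝ[X] K := .comp _ A _
  have : Algebra.EssFiniteType A K := .of_isLocalization K (nonZeroDivisors A)
  have : Algebra.EssFiniteType ℝ[X] K := .comp _ A _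
  have : Algebra.FormallyUnramified (FractionRing ℝ[X]) K := .of_restrictScalars ℝ[X] _ _
  have : Algebra.EssFiniteType (FractionRing ℝ[X]) K := .of_comp ℝ[X] _ _
  have : Algebra.IsSeparable (FractionRing ℝ[X]) K := Algebra.FormallyUnramified.isSeparable _ _
  exact (IsFractionRing.comap_isAlgebraic_iff (K := FractionRing ℝ[X])).2 inferInstance

theorem val (q : Ideal A) [q.IsPrime] (S : Type) [CommRing S] [IsDomain S] [Algebra A S]
    [IsLocalization.AtPrime S q] : ValuationRing S := by
  have : IsNoetherianRing A := Algebra.FiniteType.isNoetherianRing ℝ[X] A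
  let p := q.under ℝ[X]
  let := Localization.AtPrime.algebraOfLiesOver p q
  have h := ((Algebra.isUnramifiedAt_iff_map_eq ℝ[X] p q).1 inferInstance).2
  have hp : (IsLocalRing.maximalIdeal (Localization.AtPrime q)).IsPrincipal := by
    rw [← h]
    obtain ⟨a, ha⟩ := (IsPrincipalIdealRing.principal p).principal
    rw [ha, Ideal.submodule_span_eq, Ideal.map_span, Set.image_singleton]
    exact ⟨_, rfl⟩
  have : ValuationRing (Localization.AtPrime q) :=
    ((tfae_of_isNoetherianRing_of_isLocalRing_of_isDomain (Localization.AtPrime q)).out 4 1).1 hp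
  exact (IsLocalization.algEquiv q.primeCompl (Localization.AtPrime q) S).surjective.valuationRing
    (f := (IsLocalization.algEquiv q.primeCompl (Localization.AtPrime q) S).toRingEquiv.toRingHom)

theorem not_isField [Algebra ℝ A] [IsScalarTower ℝ ℝ[X] A] : ¬ IsField A := by
  intro h
  let := h.toField
  have : Algebra.FiniteType ℝ A := .trans (S := ℝ[X]) inferInstance inferInstance
  have : Module.Finite ℝ A := finite_of_finite_type_of_isJacobsonRing ℝ A
  have h1 : IsAlgebraic ℝ (algebraMap ℝ[X] A X) := Algebra.IsAlgebraic.isAlgebraic _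
  exact transcendental_X ℝ ((isAlgebraic_algHom_iff (IsScalarTower.toAlgHom ℝ ℝ[X] A) (inj A)).1 h1)

theorem trdeg (K : Type) [Field K] [Algebra A K] [IsFractionRing A K] [Algebra ℝ[X] K]
    [IsScalarTower ℝ[X] A K] [Algebra ℝ K] [IsScalarTower ℝ ℝ[X] K] : Algebra.trdeg ℝ K = 1 := by
  have := alg A K
  have hi : Function.Injective (algebraMap ℝ[X] K) := by
    rw [IsScalarTower.algebraMap_eq ℝ[X] A K]
    exact (IsFractionRing.injective A K).comp (inj A)
  have : FaithfulSMul ℝ[X] K := (faithfulSMul_iff_algebraMap_injective _ _).2 hi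
  have h := trdeg_add_eq ℝ ℝ[X] (A := K)
  rw [trdeg_eq_zero (R := ℝ[X]) (A := K), Polynomial.trdeg_of_isDomain, add_zero] at h
  exact h.symm

end CurveA

end Pool.Agent.P.MP_daea48_ag
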