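import Pool.Agent.P.MP_daea48_ag.Stm

/-! Definitions of the proof (analytic layer). -/

open Set Filter Topology Metric Polynomial Asymptotics
open scoped ComplexConjugate

namespace Pool.Agent.P.MP_daea48_ag

noncomputable section

open Classical

/-! ### Tame maps, curves -/

section basic
variable {X Y : Type} [NormedAddCommGroup X] [NormedSpace ℂ X] [NormedAddCommGroup Y]
  [NormedSpace ℂ Y]

/-- Holomorphic of polynomial growth. -/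
def Tame (f : X → Y) : Prop :=
  Differentiable ℂ f ∧ ∃ (C : ℝ) (A : ℕ), ∀ x, ‖f x‖ ≤ C * (1 + ‖x‖) ^ A

/-- Analytic along analytic curves in `D`. -/
def AC (D : Set X) (f : X → Y) : Prop :=
  ∀ (γ : ℂ → X) (l : ℂ), AnalyticAt ℂ γ l → (∀ᶠ x in 𝓝 l, γ x ∈ D) →
    AnalyticAt ℂ (fun x => f (γ x)) l

/-- Meromorphic along analytic curves in `D`, regular on `Reg`. -/
structure MF (D Reg : Set X) (Ψ : X → Y) : Prop where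
  an : ∀ (γ : ℂ → X) (l : ℂ), AnalyticAt ℂ γ l → (∀ᶠ x in 𝓝 l, γ x ∈ D) → γ l ∈ Reg →
    (∀ᶠ x in 𝓝 l, γ x ∈ Reg) ∧ AnalyticAt ℂ (fun x => Ψ (γ x)) l
  dich : ∀ (γ : ℂ → X) (l : ℂ), AnalyticAt ℂ γ l → (∀ᶠ x in 𝓝 l, γ x ∈ D) →
    (∀ᶠ x in 𝓝[≠] l, γ x ∉ Reg) ∨
      ((∀ᶠ x in 𝓝[≠] l, γ x ∈ Reg) ∧ MeromorphicAt (fun x => Ψ (γ x)) l)

end basic

/-- Open annulus. -/
def ann (r s : ℝ) : Set ℂ := {z | r < ‖z‖ ∧ ‖z‖ < s}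

/-- Closed annulus. -/
def cann (r s : ℝ) : Set ℂ := {z | r ≤ ‖z‖ ∧ ‖z‖ ≤ s}

/-- Reflection in the unit circle. -/
def rfl1 (z : ℂ) : ℂ := (conj z)⁻¹

/-- The circle of radius `r`, period one. -/
def circ (r : ℝ) (t : ℝ) : ℂ := r * Complex.exp (2 * Real.pi * Complex.I * t)

section laurent
variable {Y : Type} [NormedAddCommGroup Y] [NormedSpace ℂ Y]

/-- Cauchy integral over the circle of radius `σ`. -/
def cauchy (σ : ℝ) (f : ℂ → Y) (z : ℂ) : Y :=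
  (2 * Real.pi * Complex.I : ℂ)⁻¹ • ∮ ζ in C(0, σ), (ζ - z)⁻¹ • f ζ

/-- The part of `f` on `ann r s` that extends to the disc of radius `s`. -/
def Pp (r s : ℝ) (f : ℂ → Y) (z : ℂ) : Y :=
  if ‖z‖ ≤ (r + s) / 2 then cauchy ((r + 3 * s) / 4) f z else f z + cauchy ((3 * r + s) / 4) f z

/-- The part of `f` on `ann r s` that extends to `r < ‖z‖`. -/
def Pm (r s : ℝ) (f : ℂ → Y) (z : ℂ) : Y :=
  if (r + s) / 2 ≤ ‖z‖ then - cauchy ((3 * r + s) / 4) f z else f z - cauchy ((r + 3 * s) / 4) f z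

end laurent

/-! ### Systems with tempered charts -/

section sys
variable {E E' : Type} [NormedAddCommGroup E] [NormedSpace ℂ E] [NormedAddCommGroup E']
  [NormedSpace ℂ E']

/-- The etale coordinates: `z` and `pr ξ`. -/
def pj (pr : E →L[ℂ] E') (u : ℂ × E) : ℂ × E' := (u.1, pr u.2)

/-- The radius `c / (1 + ‖u‖) ^ A`. -/
def rad {X : Type} [NormedAddCommGroup X] (c : ℝ) (A : ℕ) (u : X) : ℝ := c / (1 + ‖u‖) ^ A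

/-- `pj pr` is a local biholomorphism on `U` with tempered radius. -/
structure TC (U : Set (ℂ × E)) (pr : E →L[ℂ] E') where
  c : ℝ
  A : ℕ
  c_pos : 0 < c
  c_le : c ≤ 1
  closed : IsClosed U
  lip : ∀ u ∈ U, ∀ u₁ ∈ U, ∀ u₂ ∈ U, ‖u₁ - u‖ < rad c A u → ‖u₂ - u‖ < rad c A u →
    rad c A u * ‖u₁ - u₂‖ ≤ ‖pj pr u₁ - pj pr u₂‖
  surj : ∀ u ∈ U, ∀ p : ℂ × E', ‖p - pj pr u‖ < rad c A u ^ 2 →
    ∃ u₁ ∈ U, ‖u₁ - u‖ < rad c A u ∧ pj pr u₁ = p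
  hol : ∀ (γ : ℂ → ℂ × E) (l : ℂ), ContinuousAt γ l → (∀ᶠ x in 𝓝 l, γ x ∈ U) →
    AnalyticAt ℂ (fun x => pj pr (γ x)) l → AnalyticAt ℂ γ l

/-- Chart radius. -/
def TC.rho {U : Set (ℂ × E)} {pr : E →L[ℂ] E'} (T : TC U pr) (u : ℂ × E) : ℝ := rad T.c T.A u

/-- The point of `U` near `u` with coordinates `p`. -/
def TC.ex {U : Set (ℂ × E)} {pr : E →L[ℂ] E'} (T : TC U pr) (u : ℂ × E) (p : ℂ × E') : E :=
  if h : ∃ u₁ ∈ U, ‖u₁ - u‖ < T.rho u ∧ pj pr u₁ = p then h.choose.2 else u.2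

/-- Fibre. -/
def fib (U : Set (ℂ × E)) (b : ℂ) : Set E := {ξ | (b, ξ) ∈ U}

/-- `U` is the zero set of a tame map with tempered Jacobian bound. -/
structure APS {E'' : Type} [NormedAddCommGroup E''] [NormedSpace ℂ E''] (U : Set (ℂ × E))
    (pr : E →L[ℂ] E') (F : ℂ × E → E'') : Prop where
  tame : Tame F
  zero : ∀ u, u ∈ U ↔ F u = 0
  dim : Module.finrank ℂ E = Module.finrank ℂ E' + Module.finrank ℂ E''
  jac : ∃ (C : ℝ) (A : ℕ), ∀ u ∈ U, ∀ H : E, pr H = 0 →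
    ‖H‖ ≤ C * (1 + ‖u‖) ^ A * ‖fderiv ℂ F u (0, H)‖

/-- Existence of an `APS` presentation. -/
def HasAPS (U : Set (ℂ × E)) (pr : E →L[ℂ] E') : Prop :=
  ∃ (E'' : Type) (_ : NormedAddCommGroup E'') (_ : NormedSpace ℂ E'') (_ : FiniteDimensional ℂ E'')
    (F : ℂ × E → E''), APS U pr F

/-- Fibrewise presentation over a base curve `B ⊆ ℂ × L`. -/
structure FAPS {L E'' : Type} [NormedAddCommGroup L] [NormedSpace ℂ L] [NormedAddCommGroup E'']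
    [NormedSpace ℂ E''] (B : Set (ℂ × L)) (U : Set (ℂ × (L × E))) (pr : E →L[ℂ] E')
    (F : ℂ × (L × E) → E'') : Prop where
  tame : Tame F
  zero : ∀ u, u ∈ U ↔ (u.1, u.2.1) ∈ B ∧ F u = 0
  dim : Module.finrank ℂ E = Module.finrank ℂ E' + Module.finrank ℂ E''
  jac : ∃ (C : ℝ) (A : ℕ), ∀ u ∈ U, ∀ H : E, pr H = 0 →
    ‖H‖ ≤ C * (1 + ‖u‖) ^ A * ‖fderiv ℂ F u (0, (0, H))‖

/-- Existence of a fibrewise presentation. -/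
def HasFAPS {L : Type} [NormedAddCommGroup L] [NormedSpace ℂ L] (B : Set (ℂ × L))
    (U : Set (ℂ × (L × E))) (pr : E →L[ℂ] E') : Prop :=
  ∃ (E'' : Type) (_ : NormedAddCommGroup E'') (_ : NormedSpace ℂ E'') (_ : FiniteDimensional ℂ E'')
    (F : ℂ × (L × E) → E''), FAPS B U pr F

/-- The Jacobian bound at approximate solutions. -/
def JacP {L E'' : Type} [NormedAddCommGroup L] [NormedSpace ℂ L] [NormedAddCommGroup E'']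
    [NormedSpace ℂ E''] (B : Set (ℂ × L)) (pr : E →L[ℂ] E') (F : ℂ × (L × E) → E'') : Prop :=
  ∃ (c C : ℝ) (A : ℕ), 0 < c ∧ ∀ u : ℂ × (L × E), (u.1, u.2.1) ∈ B → ‖F u‖ ≤ rad c A u →
    ∀ H : E, pr H = 0 → ‖H‖ ≤ C * (1 + ‖u‖) ^ A * ‖fderiv ℂ F u (0, (0, H))‖

/-- Newton: approximate solutions are close to solutions with the same coordinates. -/
def Newt {L E'' : Type} [NormedAddCommGroup L] [NormedSpace ℂ L] [NormedAddCommGroup E'']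
    [NormedSpace ℂ E''] (B : Set (ℂ × L)) (U : Set (ℂ × (L × E))) (pr : E →L[ℂ] E')
    (F : ℂ × (L × E) → E'') : Prop :=
  ∃ (c : ℝ) (A : ℕ), 0 < c ∧ ∀ u : ℂ × (L × E), (u.1, u.2.1) ∈ B → ‖F u‖ ≤ rad c A u ^ 2 →
    ∃ ξ : E, (u.1, (u.2.1, ξ)) ∈ U ∧ pr ξ = pr u.2.2 ∧ rad c A u * ‖ξ - u.2.2‖ ≤ ‖F u‖

/-- The trivial projection, for curves. -/
def pr0 (L : Type) [NormedAddCommGroup L] [NormedSpace ℂ L] : L →L[ℂ] (Fin 0 → ℂ) := 0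

/-- The trivial label. -/
def lab0 (E : Type) [NormedAddCommGroup E] [NormedSpace ℂ E] : E →L[ℂ] ℂ := 0

/-- Projection of a system with extra coordinates in `L`. -/
def prB (L : Type) [NormedAddCommGroup L] [NormedSpace ℂ L] (pr : E →L[ℂ] E') :
    L × E →L[ℂ] E' := pr.comp (ContinuousLinearMap.snd ℂ L E)

/-- Label of a system with extra coordinates in `L`. -/
def labB (L E : Type) [NormedAddCommGroup L] [NormedSpace ℂ L] [NormedAddCommGroup E]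
    [NormedSpace ℂ E] : L × E →L[ℂ] L := ContinuousLinearMap.fst ℂ L E

/-- Base change along `m : B → ℂ`. -/
def BU {L : Type} (B : Set (ℂ × L)) (m : ℂ × L → ℂ) (U : Set (ℂ × E)) : Set (ℂ × (L × E)) :=
  {u | (u.1, u.2.1) ∈ B ∧ (m (u.1, u.2.1), u.2.2) ∈ U}

/-! ### Bridges -/

/-- Parameter domain of a bridge. -/
def brD {G : Type} (K : Set (ℂ × G)) (E' : Type) [NormedAddCommGroup E'] (ε : ℝ) :
    Set ((ℂ × G) × E' × E' × ℂ) := K ×ˢ ball 0 ε ×ˢ ball 0 ε ×ˢ univ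

/-- A family of rational curves `w ↦ Ψ (u, a, b, w)` from `φ₁ u + a` to `φ₂ u + b`. -/
structure BrData {G L : Type} [NormedAddCommGroup G] [NormedSpace ℂ G] [NormedAddCommGroup L]
    [NormedSpace ℂ L] (U : Set (ℂ × E)) (pr : E →L[ℂ] E') (lab : E →L[ℂ] L)
    (φ₁ φ₂ : ℂ × G → E) (K : Set (ℂ × G)) (η₀ ε η w₀ : ℝ)
    (Ψ : (ℂ × G) × E' × E' × ℂ → E) (Reg : Set ((ℂ × G) × E' × E' × ℂ)) : Prop where
  mf : MF (brD K E' ε) Reg Ψ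
  mem : ∀ x ∈ brD K E' ε, x ∈ Reg → (x.1.1, Ψ x) ∈ U ∧ lab (Ψ x) = lab (φ₁ x.1)
  near0 : ∀ x ∈ brD K E' ε, ‖x.2.2.2‖ < w₀ →
    x ∈ Reg ∧ ‖Ψ x - φ₁ x.1‖ < η₀ ∧ ‖pr (Ψ x) - pr (φ₁ x.1) - x.2.1‖ < η
  nearI : ∀ x ∈ brD K E' ε, w₀⁻¹ < ‖x.2.2.2‖ →
    x ∈ Reg ∧ ‖Ψ x - φ₂ x.1‖ < η₀ ∧ ‖pr (Ψ x) - pr (φ₂ x.1) - x.2.2.1‖ < η

/-- Bridges over every compact subset of the parameter set `M`. -/
def BrG {G L : Type} [NormedAddCommGroup G] [NormedSpace ℂ G] [NormedAddCommGroup L]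
    [NormedSpace ℂ L] (M : Set (ℂ × G)) (U : Set (ℂ × E)) (pr : E →L[ℂ] E') (lab : E →L[ℂ] L)
    (φ₁ φ₂ : ℂ × G → E) : Prop :=
  ∀ K ⊆ M, IsCompact K → ∀ η₀ > 0, ∃ ε > 0, ∀ η > 0, ∃ w₀ > 0, ∃ Ψ Reg,
    BrData U pr lab φ₁ φ₂ K η₀ ε η w₀ Ψ Reg

/-- Bridges between nearby points of `U`. -/
def Br {L : Type} [NormedAddCommGroup L] [NormedSpace ℂ L] (U : Set (ℂ × E)) (pr : E →L[ℂ] E')
    (lab : E →L[ℂ] L) : Prop := BrG U U pr lab Prod.snd Prod.snd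

/-- Points of a fibre with the same label are joined. -/
def Conn {L : Type} [NormedAddCommGroup L] [NormedSpace ℂ L] (U : Set (ℂ × E))
    (lab : E →L[ℂ] L) : Prop :=
  ∀ z ξ₁ ξ₂, (z, ξ₁) ∈ U → (z, ξ₂) ∈ U → lab ξ₁ = lab ξ₂ →
    JoinedIn {ξ | (z, ξ) ∈ U ∧ lab ξ = lab ξ₁} ξ₁ ξ₂

/-! ### Sections -/

/-- Meromorphic germ of a section over `κ`. -/
def Germ (U : Set (ℂ × E)) (κ : ℂ → ℂ) (S : ℂ → E) (p : ℂ) : Prop :=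
  MeromorphicAt S p ∧ ∀ᶠ z in 𝓝[≠] p, (κ z, S z) ∈ U

/-- Meromorphic section over `V`. -/
def Sec (U : Set (ℂ × E)) (S : ℂ → E) (V : Set ℂ) : Prop := ∀ p ∈ V, Germ U id S p

/-- Continuous section over `D`. -/
def CSec (U : Set (ℂ × E)) (S : ℂ → E) (D : Set ℂ) : Prop :=
  ContinuousOn S D ∧ ∀ z ∈ D, (z, S z) ∈ U

/-- Rational section. -/
def Rat (U : Set (ℂ × E)) (S : ℂ → E) : Prop :=
  MeromorphicOn S univ ∧ MeromorphicAt (fun z => S z⁻¹) 0 ∧ ∀ᶠ z in cofinite, (z, S z) ∈ U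

/-- `S` agrees with `σ` to order `k` at `p`. -/
def Jet (k : ℕ) (σ : ℂ → E) (p : ℂ) (S : ℂ → E) : Prop :=
  (fun z => S z - σ z) =O[𝓝[≠] p] fun z => (z - p) ^ k

/-- A condition on sections that survives small perturbations on the disc of radius `r`. -/
def Stable (r : ℝ) (𝒞 : (ℂ → E) → Prop) : Prop :=
  ∀ S, 𝒞 S → MeromorphicOn S (closedBall 0 r) → ∃ q : ℂ[X], q ≠ 0 ∧ ∀ S',
    (∀ z ∈ closedBall (0 : ℂ) r, AnalyticAt ℂ S z →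
      AnalyticAt ℂ S' z ∧ ‖S' z - S z‖ ≤ ‖q.eval z‖) → 𝒞 S'

/-- `γ` on the circle of radius `r` is a limit of sections on the disc satisfying `𝒞`. -/
def Reach (U : Set (ℂ × E)) (𝒞 : (ℂ → E) → Prop) (r : ℝ) (γ : ℂ → E) : Prop :=
  ∀ η > 0, ∃ R > r, ∃ S, Sec U S (ball 0 R) ∧ 𝒞 S ∧
    ∀ z ∈ sphere (0 : ℂ) r, AnalyticAt ℂ S z ∧ ‖S z - γ z‖ < η

/-- Real structure over the reflection in the unit circle. -/
structure RealStr (U : Set (ℂ × E)) (pr : E →L[ℂ] E') (J : E →L⋆[ℂ] E) (J' : E' →L⋆[ℂ] E') :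
    Prop where
  norm : ∀ x, ‖J x‖ = ‖x‖
  inv : ∀ x, J (J x) = x
  norm' : ∀ x, ‖J' x‖ = ‖x‖
  inv' : ∀ x, J' (J' x) = x
  mem : ∀ z ξ, z ≠ 0 → (z, ξ) ∈ U → (rfl1 z, J ξ) ∈ U
  comm : ∀ ξ, pr (J ξ) = J' (pr ξ)

/-- Real points over good points of the unit circle: nonempty and connected. -/
def ConnRe (U : Set (ℂ × E)) (J : E →L⋆[ℂ] E) (Bad : Finset ℂ) : Prop :=
  ∀ z ∈ sphere (0 : ℂ) 1, z ∉ Bad → (∃ ξ, (z, ξ) ∈ U ∧ J ξ = ξ) ∧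
    ∀ ξ₁ ξ₂, (z, ξ₁) ∈ U → J ξ₁ = ξ₁ → (z, ξ₂) ∈ U → J ξ₂ = ξ₂ →
      JoinedIn {ξ | (z, ξ) ∈ U ∧ J ξ = ξ} ξ₁ ξ₂

/-! ### Filling rectangles -/

/-- The boundary of the square `[-1, 1]²`. -/
def bd : Set (ℝ × ℝ) := sphere 0 1

/-- Affine map from the square to a rectangle of `ℂ`. -/
def aff (ζ₀ : ℂ) (a b : ℝ) (p : ℝ × ℝ) : ℂ := ζ₀ + (a * p.1 : ℝ) + (b * p.2 : ℝ) * Complex.I

/-- Affine map from the square to a rectangle of `ℝ × ℝ`. -/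
def raff (c : ℝ × ℝ) (a b : ℝ) (p : ℝ × ℝ) : ℝ × ℝ := (c.1 + a * p.1, c.2 + b * p.2)

/-- Closed rectangle. -/
def rect (ζ₀ : ℂ) (a b : ℝ) : Set ℂ := aff ζ₀ a b '' closedBall 0 1

/-- `S` is a continuous section over the rectangle with finitely many interior poles. -/
def Filled (U : Set (ℂ × E)) (κ : ℂ → ℂ) (ζ₀ : ℂ) (a b : ℝ) (S : ℂ → E) : Prop :=
  ∃ P : Finset ℂ, (∀ p ∈ P, p ∈ aff ζ₀ a b '' ball 0 1 ∧ Germ U κ S p) ∧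
    ContinuousOn S (rect ζ₀ a b \ P) ∧ ∀ ζ ∈ rect ζ₀ a b \ P, (κ ζ, S ζ) ∈ U

/-- Boundary sections close to `F` over small rectangles near `β` can be filled. -/
def SFill (U : Set (ℂ × E)) (κ : ℂ → ℂ) (β : ℂ) (F : ℝ × ℝ → E) : Prop :=
  ∃ η > 0, ∃ δ > 0, ∀ (ζ₀ : ℂ) (a b : ℝ), 0 < a → 0 < b → rect ζ₀ a b ⊆ ball β δ →
    ∀ σ : ℝ × ℝ → E, ContinuousOn σ bd →
      (∀ p ∈ bd, (κ (aff ζ₀ a b p), σ p) ∈ U ∧ ‖σ p - F p‖ < η) →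
      ∃ S, Filled U κ ζ₀ a b S ∧ ∀ p ∈ bd, S (aff ζ₀ a b p) = σ p

/-- Approximate filling for rectangles of one shape. -/
def AFill (U : Set (ℂ × E)) (κ : ℂ → ℂ) (β : ℂ) (F : ℝ × ℝ → E) (a₀ b₀ : ℝ) : Prop :=
  ∀ η > 0, ∃ δ > 0, ∀ (ζ₀ : ℂ) (t : ℝ), 0 < t → rect ζ₀ (t * a₀) (t * b₀) ⊆ ball β δ →
    ∃ S, Filled U κ ζ₀ (t * a₀) (t * b₀) S ∧
      ∀ p ∈ bd, ‖S (aff ζ₀ (t * a₀) (t * b₀) p) - F p‖ < η

/-- A continuous map from the boundary of the square to `Y`. -/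
def BdMap (Y : Set E) (F : ℝ × ℝ → E) : Prop := ContinuousOn F bd ∧ MapsTo F bd Y

/-- Every boundary map into a fibre can be filled. -/
def FillAll (U : Set (ℂ × E)) : Prop :=
  ∀ (κ : ℂ → ℂ) (β : ℂ), AnalyticAt ℂ κ β → ∀ F, BdMap (fib U (κ β)) F → SFill U κ β F

/-- The formal properties of fillability. -/
structure FillSys (Y : Set E) (𝓕 : (ℝ × ℝ → E) → Prop) : Prop where
  congr : ∀ F F', EqOn F F' bd → 𝓕 F → 𝓕 F'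
  glue : ∀ (n : ℕ) (c : Fin n → ℝ × ℝ) (a b : Fin n → ℝ) (H : ℝ × ℝ → E),
    (∀ j, 0 < a j ∧ 0 < b j ∧ raff (c j) (a j) (b j) '' closedBall 0 1 ⊆ closedBall 0 1) →
    (Pairwise fun i j => Disjoint (raff (c i) (a i) (b i) '' ball 0 1)
      (raff (c j) (a j) (b j) '' ball 0 1)) →
    ContinuousOn H (closedBall 0 1 \ ⋃ j, raff (c j) (a j) (b j) '' ball 0 1) →
    MapsTo H (closedBall 0 1 \ ⋃ j, raff (c j) (a j) (b j) '' ball 0 1) Y →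
    (∀ j, 𝓕 fun p => H (raff (c j) (a j) (b j) p)) → 𝓕 H

/-- Boundary map with bottom `α`, top `β` and constant sides. -/
def two (α β : ℝ → E) (p : ℝ × ℝ) : E :=
  if p.2 ≤ 0 then α ((p.1 + 1) / 2) else β ((p.1 + 1) / 2)

/-- Concatenation. -/
def cat (α β : ℝ → E) (t : ℝ) : E := if t ≤ 1 / 2 then α (2 * t) else β (2 * t - 1)

/-- A path in `Y`. -/
def PathIn (Y : Set E) (α : ℝ → E) : Prop := ContinuousOn α (Icc 0 1) ∧ MapsTo α (Icc 0 1) Y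

/-- A loop in `Y`. -/
def Loop (Y : Set E) (α : ℝ → E) : Prop := PathIn Y α ∧ α 0 = α 1

/-- Homotopy with fixed ends. -/
def Hom (Y : Set E) (α β : ℝ → E) : Prop :=
  ∃ H : ℝ × ℝ → E, ContinuousOn H (Icc 0 1 ×ˢ Icc 0 1) ∧ MapsTo H (Icc 0 1 ×ˢ Icc 0 1) Y ∧
    (∀ t ∈ Icc (0 : ℝ) 1, H (0, t) = α t ∧ H (1, t) = β t) ∧
    ∀ μ ∈ Icc (0 : ℝ) 1, H (μ, 0) = α 0 ∧ H (μ, 1) = α 1

/-- `α` can be changed into `β` across a rectangle. -/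
def Rel (Y : Set E) (𝓕 : (ℝ × ℝ → E) → Prop) (α β : ℝ → E) : Prop :=
  PathIn Y α ∧ PathIn Y β ∧ α 0 = β 0 ∧ α 1 = β 1 ∧ 𝓕 (two α β)

/-- The loop is fillable. -/
def LN (𝓕 : (ℝ × ℝ → E) → Prop) (α : ℝ → E) : Prop := 𝓕 (two (fun _ => α 0) α)

/-- The relation `Rel` is symmetric. -/
def Sym (Y : Set E) (𝓕 : (ℝ × ℝ → E) → Prop) : Prop := ∀ α β, Rel Y 𝓕 α β → Rel Y 𝓕 β α

/-- The hypotheses of the Oka principle. -/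
structure Oka (U : Set (ℂ × E)) (pr : E →L[ℂ] E') (Bad : Finset ℂ) : Prop where
  aps : HasAPS U pr
  br : Br U pr (lab0 E)
  conn : Conn U (lab0 E)
  fill : FillAll U
  ne : ∀ z, z ∉ Bad → ∃ ξ, (z, ξ) ∈ U

/-! ### Covers and Weil restriction -/

/-- A monic polynomial with a Bezout identity. -/
structure Cov (Q : ℂ[X][X]) (d : ℕ) (δ : ℂ[X]) : Prop where
  monic : Q.Monic
  deg : Q.natDegree = d
  ne : δ ≠ 0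
  bez : ∃ a b : ℂ[X][X], a * Q + b * derivative Q = C δ

/-- The curve `Q (z, T) = 0`, `y δ(z) = 1`. -/
def CV (Q : ℂ[X][X]) (δ : ℂ[X]) : Set (ℂ × (ℂ × ℂ)) :=
  {u | Q.evalEval u.1 u.2.1 = 0 ∧ u.2.2 * δ.eval u.1 = 1}

/-- The curve `t (1 - z) = i l (1 + z)`. -/
def MB (l : ℝ) : Set (ℂ × ℂ) := {u | u.2 * (1 - u.1) = Complex.I * l * (1 + u.1)}

/-- `t` as a function of `z`. -/
def zt (l : ℝ) (z : ℂ) : ℂ := Complex.I * l * (1 + z) / (1 - z)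

/-- Value at `v` of a coefficient vector. -/
def ev {d : ℕ} (v : ℂ) (X : Fin d → E) : E := ∑ l : Fin d, v ^ (l : ℕ) • X l

/-- Lagrange interpolation at the roots of `Q (z, ·)`. -/
def itp (Q : ℂ[X][X]) (d : ℕ) (z : ℂ) (val : ℂ → E) : Fin d → E := fun l =>
  ∑ v ∈ (Q.map (evalRingHom z)).roots.toFinset,
    (((Q.map (evalRingHom z)) /ₘ (X - C v)).coeff l / (derivative Q).evalEval z v) • val v

/-- Weil restriction. -/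
def WU (Q : ℂ[X][X]) (d : ℕ) (δ : ℂ[X]) (U : Set (ℂ × ((ℂ × ℂ) × E))) :
    Set (ℂ × ((Fin d → E) × ℂ)) :=
  {u | u.2.2 * δ.eval u.1 = 1 ∧
    ∀ v, Q.evalEval u.1 v = 0 → (u.1, ((v, u.2.2), ev v u.2.1)) ∈ U}

/-- Projection of the Weil restriction. -/
def prW (d : ℕ) (pr : E →L[ℂ] E') : (Fin d → E) × ℂ →L[ℂ] (Fin d → E') :=
  ContinuousLinearMap.pi fun l =>
    pr.comp ((ContinuousLinearMap.proj l).comp (ContinuousLinearMap.fst ℂ (Fin d → E) ℂ))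

/-- The system lies over the curve. -/
def OnCV (Q : ℂ[X][X]) (δ : ℂ[X]) (U : Set (ℂ × ((ℂ × ℂ) × E))) : Prop :=
  ∀ u ∈ U, (u.1, u.2.1) ∈ CV Q δ

/-- All fibres over the curve are nonempty. -/
def NECV (Q : ℂ[X][X]) (δ : ℂ[X]) (U : Set (ℂ × ((ℂ × ℂ) × E))) : Prop :=
  ∀ z c, (z, c) ∈ CV Q δ → ∃ ξ, (z, (c, ξ)) ∈ U

/-- Points of the Zariski closure of `U` with values in a `ℂ`-algebra. -/
def LPt (U : Set (ℂ × E)) {Λ : Type} [CommRing Λ] [Algebra ℂ Λ] (z : Λ)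
    (x : (E →L[ℂ] ℂ) → Λ) : Prop :=
  ∀ (s : ℕ) (ℓ : Fin s → (E →L[ℂ] ℂ)) (G : MvPolynomial (Option (Fin s)) ℂ),
    (∀ u ∈ U, MvPolynomial.eval (fun o => o.elim u.1 fun i => ℓ i u.2) G = 0) →
    MvPolynomial.aeval (fun o => o.elim z fun i => x (ℓ i)) G = 0

/-! ### Data coming from a rationally connected variety -/

/-- `U` is identified with the locus `h ≠ 0` of `V`. -/
structure Tr {G : Type} [NormedAddCommGroup G] [NormedSpace ℂ G] (U : Set (ℂ × E))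
    (V : Set (ℂ × G)) (φ : ℂ × E → G) (ψ : ℂ × G → E) (h : ℂ × G → ℂ) : Prop where
  tφ : Tame φ
  tψ : Tame ψ
  th : Tame h
  fw : ∀ u ∈ U, (u.1, φ u) ∈ V ∧ h (u.1, φ u) ≠ 0 ∧ (h (u.1, φ u))⁻¹ • ψ (u.1, φ u) = u.2
  bw : ∀ v ∈ V, h v ≠ 0 → (v.1, (h v)⁻¹ • ψ v) ∈ U ∧ φ (v.1, (h v)⁻¹ • ψ v) = v.2

/-- A smooth chart containing `U` as a principal open set. -/
structure Chart (U : Set (ℂ × E)) where
  G : Type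
  G' : Type
  [i1 : NormedAddCommGroup G]
  [i2 : NormedSpace ℂ G]
  [i3 : FiniteDimensional ℂ G]
  [i4 : NormedAddCommGroup G']
  [i5 : NormedSpace ℂ G']
  [i6 : FiniteDimensional ℂ G']
  V : Set (ℂ × G)
  pr : G →L[ℂ] G'
  T : TC V pr
  φ : ℂ × E → G
  ψ : ℂ × G → E
  h : ℂ × G → ℂ
  tr : Tr U V φ ψ h

attribute [instance] Chart.i1 Chart.i2 Chart.i3 Chart.i4 Chart.i5 Chart.i6

/-- Finitely many charts, one of which bounds each point of a fibre. -/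
def Cpt (U : Set (ℂ × E)) {m : ℕ} (ch : Fin m → Chart U) : Prop :=
  ∀ b : ℂ, ∃ R : ℝ, ∀ ξ ∈ fib U b, ∃ i, ‖(ch i).φ (b, ξ)‖ ≤ R

/-- Polynomial in `w` with coefficient functions `n`. -/
def pw {X Y : Type} [NormedAddCommGroup Y] [NormedSpace ℂ Y] {e : ℕ} (n : Fin (e + 1) → X → Y)
    (u : X) (w : ℂ) : Y := ∑ k : Fin (e + 1), w ^ (k : ℕ) • n k u

/-- Rational curves through two general points, and a multisection of them. -/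
structure Two (E₀ EP : Type) [NormedAddCommGroup E₀] [NormedSpace ℂ E₀] [NormedAddCommGroup EP]
    [NormedSpace ℂ EP] {L : Type} [NormedAddCommGroup L] [NormedSpace ℂ L] (U : Set (ℂ × E))
    (pr : E →L[ℂ] E') (lab : E →L[ℂ] L) where
  U₀ : Set (ℂ × E₀)
  pr₀ : E₀ →L[ℂ] E'
  lab₀ : E₀ →L[ℂ] L
  T₀ : TC U₀ pr₀
  φ : ℂ × E → E₀
  ψ : ℂ × E₀ → E
  h : ℂ × E₀ → ℂ
  tr : Tr U U₀ φ ψ h
  pr_φ : ∀ u ∈ U, pr₀ (φ u) = pr u.2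
  lab_φ : ∀ u ∈ U, lab₀ (φ u) = lab u.2
  fin₀ : ∀ z, (lab₀ '' fib U₀ z).Finite
  M : Set (ℂ × EP)
  prP : EP →L[ℂ] E' × E'
  TP : TC M prP
  e₁ : EP →L[ℂ] E₀
  e₂ : EP →L[ℂ] E₀
  ends : ∀ p ∈ M, (p.1, e₁ p.2) ∈ U₀ ∧ (p.1, e₂ p.2) ∈ U₀ ∧
    prP p.2 = (pr₀ (e₁ p.2), pr₀ (e₂ p.2)) ∧ lab₀ (e₂ p.2) = lab₀ (e₁ p.2)
  e : ℕ
  n : Fin (e + 1) → ℂ × EP → E₀
  d : Fin (e + 1) → ℂ × EP → ℂ
  tn : ∀ k, Tame (n k)
  td : ∀ k, Tame (d k)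
  at0 : ∀ p ∈ M, d 0 p ≠ 0 ∧ n 0 p = d 0 p • e₁ p.2
  atI : ∀ p ∈ M, d (Fin.last e) p ≠ 0 ∧ n (Fin.last e) p = d (Fin.last e) p • e₂ p.2
  curve : ∀ p ∈ M, ∀ w, pw d p w ≠ 0 →
    (p.1, (pw d p w)⁻¹ • pw n p w) ∈ U₀ ∧ lab₀ ((pw d p w)⁻¹ • pw n p w) = lab₀ (e₁ p.2)
  Nf : ℂ × L × E' × E' → ℂ
  dNf : Differentiable ℂ Nf
  Nf_ne : ∀ u ∈ U₀, ∃ x₁ x₂, Nf (u.1, lab₀ u.2, x₁, x₂) ≠ 0
  dd : ℕ
  dd_pos : 0 < dd
  Pi : ℂ × E₀ × E₀ → ℂ[X]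
  mk' : (ℂ × E₀ × E₀) × ℂ → EP
  Pi_cont : ∀ k, Continuous fun x => (Pi x).coeff k
  mk_cont : ContinuousOn mk' ({x | Nf (x.1, lab₀ x.2.1, pr₀ x.2.1, pr₀ x.2.2) ≠ 0 ∧
    (x.1, x.2.1) ∈ U₀ ∧ (x.1, x.2.2) ∈ U₀ ∧ lab₀ x.2.2 = lab₀ x.2.1} ×ˢ univ)
  cover : ∀ z ξ₁ ξ₂, (z, ξ₁) ∈ U₀ → (z, ξ₂) ∈ U₀ → lab₀ ξ₂ = lab₀ ξ₁ →
    Nf (z, lab₀ ξ₁, pr₀ ξ₁, pr₀ ξ₂) ≠ 0 →
    (Pi (z, ξ₁, ξ₂)).Monic ∧ (Pi (z, ξ₁, ξ₂)).natDegree = dd ∧ (Pi (z, ξ₁, ξ₂)).Separable ∧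
      ∀ θ, (Pi (z, ξ₁, ξ₂)).eval θ = 0 → (z, mk' ((z, ξ₁, ξ₂), θ)) ∈ M ∧
        e₁ (mk' ((z, ξ₁, ξ₂), θ)) = ξ₁ ∧ e₂ (mk' ((z, ξ₁, ξ₂), θ)) = ξ₂
  d₁ : ℕ
  d₁_pos : 0 < d₁
  Pi₁ : ℂ × E → ℂ[X]
  τ : (ℂ × E) × ℂ → EP
  dPi₁ : ∀ k, Differentiable ℂ fun u => (Pi₁ u).coeff k
  dτ : Differentiable ℂ τ
  teeth : ∀ u ∈ U, (Pi₁ u).Monic ∧ (Pi₁ u).natDegree = d₁ ∧ (Pi₁ u).Separable ∧
    (Pi₁ u).eval 0 ≠ 0 ∧ ∀ w, (Pi₁ u).eval w = 0 → (u.1, τ (u, w)) ∈ M ∧ e₁ (τ (u, w)) = φ u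

end sys

end

end Pool.Agent.P.MP_daea48_ag
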