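import Pool.Agent.P.MP_daea48_ag.B2

/-! Definitions of the proof (algebraic layer). -/

open Set Filter Topology Metric Polynomial CategoryTheory AlgebraicGeometry
open scoped ComplexConjugate TensorProduct

namespace Pool.Agent.P.MP_daea48_ag

noncomputable section

open Classical

/-- A smooth affine variety with etale coordinates `fr`. -/
structure Pres (K : Type) [Field K] where
  σ : Type
  ι : Type
  κ : Type
  [f1 : Fintype σ]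
  [f2 : Fintype ι]
  [f3 : Fintype κ]
  fr : ι → σ
  F : κ → MvPolynomial σ K
  card : Fintype.card σ = Fintype.card ι + Fintype.card κ
  jac : ∀ (Λ : Type) [Field Λ] (j : K →+* Λ) (x : σ → Λ),
    (∀ k, MvPolynomial.eval₂ j x (F k) = 0) → ∀ H : σ → Λ, (∀ i, H (fr i) = 0) →
    (∀ k, ∑ s, MvPolynomial.eval₂ j x (MvPolynomial.pderiv s (F k)) * H s = 0) → H = 0

attribute [instance] Pres.f1 Pres.f2 Pres.f3

/-- Points with values in a ring. -/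
def Pres.Pt {K : Type} [Field K] (V : Pres K) {Λ : Type} [CommRing Λ] (j : K →+* Λ)
    (x : V.σ → Λ) : Prop := ∀ k, MvPolynomial.eval₂ j x (V.F k) = 0

/-- The ideal of the presentation. -/
def Pres.I {K : Type} [Field K] (V : Pres K) : Ideal (MvPolynomial V.σ K) :=
  Ideal.span (range V.F)

/-- Monic polynomial with given lower coefficients. -/
def mon {Λ : Type} [CommRing Λ] {d : ℕ} (c : Fin d → Λ) : Λ[X] :=
  X ^ d + ∑ k : Fin d, C (c k) * X ^ (k : ℕ)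

/-- Geometric integrality. -/
def AGeo {K : Type} [Field K] (V : Pres K) : Prop :=
  ∀ (Λ : Type) [Field Λ] [Algebra K Λ], IsDomain (Λ ⊗[K] (MvPolynomial V.σ K ⧸ V.I))

/-- Rational connectedness in coordinates. -/
def ARc {K : Type} [Field K] (V : Pres K) : Prop :=
  ∃ d : MvPolynomial (V.σ ⊕ V.σ) (AlgebraicClosure K),
    (∃ x y, V.Pt (algebraMap K (AlgebraicClosure K)) x ∧ V.Pt (algebraMap K _) y ∧
      MvPolynomial.eval (Sum.elim x y) d ≠ 0) ∧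
    ∀ x y, V.Pt (algebraMap K (AlgebraicClosure K)) x → V.Pt (algebraMap K _) y →
      MvPolynomial.eval (Sum.elim x y) d ≠ 0 →
      ∃ (Den : (AlgebraicClosure K)[X]) (Num : V.σ → (AlgebraicClosure K)[X]),
        Den.eval 0 ≠ 0 ∧ Den.eval 1 ≠ 0 ∧
        (∀ s, (Num s).eval 0 = Den.eval 0 * x s ∧ (Num s).eval 1 = Den.eval 1 * y s) ∧
        ∀ w, Den.eval w ≠ 0 →
          V.Pt (algebraMap K (AlgebraicClosure K)) fun s => (Num s).eval w / Den.eval w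

/-- Charts with generic points `g i` in a common function field, covering all valuations. -/
structure Atlas {K 𝓕 : Type} [Field K] [Field 𝓕] (jF : K →+* 𝓕) {m : ℕ}
    (V : Fin (m + 1) → Pres K) (g : ∀ i, (V i).σ → 𝓕) : Prop where
  ker : ∀ i G, MvPolynomial.eval₂ jF (g i) G = 0 ↔ G ∈ (V i).I
  frac : ∀ i (x : 𝓕), ∃ a b : MvPolynomial (V i).σ K, MvPolynomial.eval₂ jF (g i) b ≠ 0 ∧
    x * MvPolynomial.eval₂ jF (g i) b = MvPolynomial.eval₂ jF (g i) a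
  val : ∀ O : ValuationSubring 𝓕, (∀ k, jF k ∈ O) → ∃ i, ∀ s, g i s ∈ O
  geo : AGeo (V 0)

/-- A `K`-point of the intersection of all charts, with coordinates `x i` in chart `i`. -/
def CommonPt {K 𝓕 : Type} [Field K] [Field 𝓕] (jF : K →+* 𝓕) {m : ℕ}
    {V : Fin (m + 1) → Pres K} (g : ∀ i, (V i).σ → 𝓕) (x : ∀ i, (V i).σ → K) : Prop :=
  ∃ (C : Subring 𝓕) (χ : C →+* K), (∀ k, ∃ h : jF k ∈ C, χ ⟨_, h⟩ = k) ∧
    ∀ i s, ∃ h : g i s ∈ C, χ ⟨_, h⟩ = x i s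

/-- Weak approximation in coordinates. -/
def ThmK {K 𝓕 : Type} [Field K] [Algebra ℝ K] [Field 𝓕] (jF : K →+* 𝓕) {m : ℕ}
    {V : Fin (m + 1) → Pres K} (g : ∀ i, (V i).σ → 𝓕) : Prop :=
  ∀ S : Finset (ValuationSubring K), (∀ O ∈ S, IsPlace O) →
    ∀ (i : S → Fin (m + 1)) (η : ∀ v : S, (V (i v)).σ → v.1.valuation.Completion)
      (N : ∀ v : S, Set ((V (i v)).σ → v.1.valuation.Completion)),
      (∀ v, (V (i v)).Pt (toCpl v.1) (η v) ∧ N v ∈ 𝓝 (η v)) →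
      ∃ x, CommonPt jF g x ∧ ∀ v, (fun s => toCpl v.1 (x (i v) s)) ∈ N v

/-- A finite cover of `X` by presented affine opens. -/
structure SCover {K : Type} [Field K] {X : Scheme.{0}} (s : X ⟶ Spec (CommRingCat.of K)) where
  m : ℕ
  V : Fin (m + 1) → Pres K
  W : Fin (m + 1) → X.Opens
  aff : ∀ i, IsAffineOpen (W i)
  ne : ∀ i, Nonempty (W i)
  cov : ⨆ i, W i = ⊤
  e : ∀ i, MvPolynomial (V i).σ K →+* Γ(X, W i)
  surj : ∀ i, Function.Surjective (e i)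
  ker : ∀ i, RingHom.ker (e i) = (V i).I
  eC : ∀ i k, e i (MvPolynomial.C k) =
    ((Scheme.ΓSpecIso (CommRingCat.of K)).inv ≫ s.appLE ⊤ (W i) le_top).hom k

/-- The generic point of chart `i` in the function field. -/
def SCover.g {K : Type} [Field K] {X : Scheme.{0}} [IsIntegral X]
    {s : X ⟶ Spec (CommRingCat.of K)} (c : SCover s) (i : Fin (c.m + 1)) (a : (c.V i).σ) :
    X.functionField :=
  haveI := c.ne i
  (X.germToFunctionField (c.W i)).hom (c.e i (MvPolynomial.X a))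

/-- The structure map to the function field. -/
def SCover.jF {K : Type} [Field K] {X : Scheme.{0}} [IsIntegral X]
    {s : X ⟶ Spec (CommRingCat.of K)} (c : SCover s) : K →+* X.functionField :=
  haveI := c.ne 0
  (X.germToFunctionField (c.W 0)).hom.comp ((c.e 0).comp MvPolynomial.C)

/-- Evaluation of a family of polynomials. -/
abbrev evs {K Λ σ τ : Type} [CommRing K] [CommRing Λ] (j : K →+* Λ) (x : σ → Λ)
    (φ : τ → MvPolynomial σ K) : τ → Λ := fun s => MvPolynomial.eval₂ j x (φ s)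

/-- A common principal open set `U` of the charts. -/
structure KU {K : Type} [Field K] {m : ℕ} (V : Fin (m + 1) → Pres K) where
  U : Pres K
  φ : ∀ i, (V i).σ → MvPolynomial U.σ K
  ψ : ∀ i, U.σ → MvPolynomial (V i).σ K
  h : ∀ i, MvPolynomial (V i).σ K
  fw : ∀ i (Λ : Type) [Field Λ] (j : K →+* Λ) (x : U.σ → Λ), U.Pt j x →
    (V i).Pt j (evs j x (φ i)) ∧ (h i).eval₂ j (evs j x (φ i)) ≠ 0 ∧
      ∀ s, (ψ i s).eval₂ j (evs j x (φ i)) = (h i).eval₂ j (evs j x (φ i)) * x s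
  bw : ∀ i (Λ : Type) [Field Λ] (j : K →+* Λ) (y : (V i).σ → Λ), (V i).Pt j y →
    (h i).eval₂ j y ≠ 0 → U.Pt j (fun s => (ψ i s).eval₂ j y / (h i).eval₂ j y) ∧
      evs j (fun s => (ψ i s).eval₂ j y / (h i).eval₂ j y) (φ i) = y
  eι : U.ι ≃ (V 0).ι
  φ_fr : ∀ a, φ 0 ((V 0).fr (eι a)) = MvPolynomial.X (U.fr a)
  dens : ∀ i, ∃ N : MvPolynomial (V i).ι K, N ≠ 0 ∧
    ∀ (Λ : Type) [Field Λ] (j : K →+* Λ) (y : (V i).σ → Λ), (V i).Pt j y →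
      N.eval₂ j (y ∘ (V i).fr) ≠ 0 → (h i).eval₂ j y ≠ 0
  cpt : ∀ l : ∀ i, (V i).σ, ∃ G : MvPolynomial (Fin (m + 1)) K,
    MvPolynomial.constantCoeff G = 0 ∧
    ∀ (Λ : Type) [Field Λ] (j : K →+* Λ) (x : U.σ → Λ) (u : Fin (m + 1) → Λ), U.Pt j x →
      (∀ i, u i * (φ i (l i)).eval₂ j x = 1) → G.eval₂ j u = 1
  ne : ∃ (d : ℕ) (c : Fin d → K) (Cf : U.σ → MvPolynomial Unit K), 0 < d ∧
    ∀ (Λ : Type) [Field Λ] (j : K →+* Λ) (θ : Λ), (mon (j ∘ c)).eval θ = 0 →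
      U.Pt j (evs j (fun _ => θ) Cf)

/-- `K`-points of `U` are common points of the charts. -/
def KU.Link {K 𝓕 : Type} [Field K] [Field 𝓕] (jF : K →+* 𝓕) {m : ℕ}
    {V : Fin (m + 1) → Pres K} (g : ∀ i, (V i).σ → 𝓕) (D : KU V) : Prop :=
  ∀ ξ, D.U.Pt (RingHom.id K) ξ → CommonPt jF g fun i => evs (RingHom.id K) ξ (D.φ i)

/-- A family `M` of rational curves, finite etale over an open subset of `V × V`. -/
structure KM {K : Type} [Field K] (V : Pres K) where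
  M : Pres K
  j₁ : V.σ → M.σ
  j₂ : V.σ → M.σ
  eP : V.ι ⊕ V.ι ≃ M.ι
  fr₁ : ∀ a, M.fr (eP (Sum.inl a)) = j₁ (V.fr a)
  fr₂ : ∀ a, M.fr (eP (Sum.inr a)) = j₂ (V.fr a)
  ends : ∀ (Λ : Type) [Field Λ] (j : K →+* Λ) (p : M.σ → Λ), M.Pt j p →
    V.Pt j (p ∘ j₁) ∧ V.Pt j (p ∘ j₂)
  e : ℕ
  n : Fin (e + 1) → V.σ → MvPolynomial M.σ K
  d : Fin (e + 1) → MvPolynomial M.σ K
  curve : ∀ (Λ : Type) [Field Λ] (j : K →+* Λ) (p : M.σ → Λ), M.Pt j p →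
    ((d 0).eval₂ j p ≠ 0 ∧ ∀ s, (n 0 s).eval₂ j p = (d 0).eval₂ j p * p (j₁ s)) ∧
    ((d (Fin.last e)).eval₂ j p ≠ 0 ∧
      ∀ s, (n (Fin.last e) s).eval₂ j p = (d (Fin.last e)).eval₂ j p * p (j₂ s)) ∧
    ∀ w : Λ, ∑ k, (d k).eval₂ j p * w ^ (k : ℕ) ≠ 0 →
      V.Pt j fun s => (∑ k, (n k s).eval₂ j p * w ^ (k : ℕ)) / ∑ k, (d k).eval₂ j p * w ^ (k : ℕ)
  D : MvPolynomial (V.σ ⊕ V.σ) K
  N : MvPolynomial (V.ι ⊕ V.ι) K
  N_ne : N ≠ 0
  D_ne : ∃ x y, V.Pt (algebraMap K (AlgebraicClosure K)) x ∧ V.Pt (algebraMap K _) y ∧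
    D.eval₂ (algebraMap K _) (Sum.elim x y) ≠ 0
  ND : ∀ (Λ : Type) [Field Λ] (j : K →+* Λ) (x y : V.σ → Λ), V.Pt j x → V.Pt j y →
    N.eval₂ j (Sum.elim (x ∘ V.fr) (y ∘ V.fr)) ≠ 0 → D.eval₂ j (Sum.elim x y) ≠ 0
  dd : ℕ
  dd_pos : 0 < dd
  c : Fin dd → MvPolynomial (V.σ ⊕ V.σ) K
  mk' : M.σ → MvPolynomial ((V.σ ⊕ V.σ) ⊕ Bool) K
  cover : ∀ (Λ : Type) [Field Λ] (j : K →+* Λ) (x y : V.σ → Λ) (u θ : Λ), V.Pt j x → V.Pt j y →
    u * D.eval₂ j (Sum.elim x y) = 1 → (mon (evs j (Sum.elim x y) c)).eval θ = 0 →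
    (derivative (mon (evs j (Sum.elim x y) c))).eval θ ≠ 0 ∧
    M.Pt j (evs j (Sum.elim (Sum.elim x y) fun b => cond b u θ) mk') ∧
    evs j (Sum.elim (Sum.elim x y) fun b => cond b u θ) mk' ∘ j₁ = x ∧
    evs j (Sum.elim (Sum.elim x y) fun b => cond b u θ) mk' ∘ j₂ = y

/-- Teeth: a multisection of `M → V` over the locus `H ≠ 0`; the variables are
`x`, `u = 1 / H` and the root `w`. -/
structure KT {K : Type} [Field K] {V : Pres K} (B : KM V) where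
  H : MvPolynomial V.σ K
  H_ne : H ∉ V.I
  d₁ : ℕ
  d₁_pos : 0 < d₁
  c : Fin d₁ → MvPolynomial V.σ K
  τ : B.M.σ → MvPolynomial (V.σ ⊕ Bool) K
  teeth : ∀ (Λ : Type) [Field Λ] (j : K →+* Λ) (x : V.σ → Λ) (u : Λ), V.Pt j x →
    u * H.eval₂ j x = 1 → (mon (evs j x c)).eval 0 ≠ 0 ∧ ∀ w, (mon (evs j x c)).eval w = 0 →
      (derivative (mon (evs j x c))).eval w ≠ 0 ∧
      B.M.Pt j (evs j (Sum.elim x fun b => cond b u w) τ) ∧
      evs j (Sum.elim x fun b => cond b u w) τ ∘ B.j₁ = x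

/-- `H` is invertible on `U`, with inverse `u`. -/
def KU.Inv {K : Type} [Field K] {m : ℕ} {V : Fin (m + 1) → Pres K} (D : KU V)
    (H : MvPolynomial (V 0).σ K) : Prop :=
  ∃ u : MvPolynomial D.U.σ K, ∀ (Λ : Type) [Field Λ] (j : K →+* Λ) (x : D.U.σ → Λ), D.U.Pt j x →
    u.eval₂ j x * H.eval₂ j (evs j x (D.φ 0)) = 1

/-! ### The function field of the curve -/

/-- Complexification. -/
def cx1 (q : ℝ[X]) : ℂ[X] := q.map (algebraMap ℝ ℂ)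

/-- Complexification. -/
def cx (Q : ℝ[X][X]) : ℂ[X][X] := Q.map (mapRingHom (algebraMap ℝ ℂ))

/-- `K = ℝ(t, T)` with `Q (t, T) = 0` and no real point. -/
structure FF (K : Type) [Field K] [Algebra ℝ K] where
  t : K
  T : K
  Q : ℝ[X][X]
  δ₀ : ℝ[X]
  monic : Q.Monic
  pos : 0 < Q.natDegree
  δ₀_ne : δ₀ ≠ 0
  bez : ∃ a b : ℝ[X][X], a * Q + b * derivative Q = C δ₀
  rep : ∀ a : K, ∃ sA : ℝ[X] × ℝ[X][X], sA.1 ≠ 0 ∧ sA.2.degree < Q.degree ∧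
    a * aeval t sA.1 = aevalAeval t T sA.2
  ker : ∀ A, aevalAeval t T A = 0 ↔ Q ∣ A
  noreal : ∀ t₀ T₀ : ℝ, δ₀.eval t₀ ≠ 0 → Q.evalEval t₀ T₀ ≠ 0

namespace FF
variable {K : Type} [Field K] [Algebra ℝ K] (F : FF K)

/-- Degree. -/
def d : ℕ := F.Q.natDegree

/-- Chosen denominator. -/
def den (a : K) : ℝ[X] := (F.rep a).choose.1

/-- Chosen numerator. -/
def num (a : K) : ℝ[X][X] := (F.rep a).choose.2

/-- Value of `a` at a complex point of the curve. -/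
def sp (a : K) (c : ℂ × ℂ) : ℂ := (cx (F.num a)).evalEval c.1 c.2 / (cx1 (F.den a)).eval c.1

/-- Coefficient of `T ^ l` in `a`, as a function of `t`. -/
def cf (l : ℕ) (a : K) (t₀ : ℂ) : ℂ := (cx1 ((F.num a).coeff l)).eval t₀ / (cx1 (F.den a)).eval t₀

/-- Specialisation of a polynomial. -/
def spP {σ : Type} (G : MvPolynomial σ K) (c : ℂ × ℂ) : MvPolynomial σ ℂ :=
  ∑ m ∈ G.support, MvPolynomial.monomial m (F.sp (G.coeff m) c)

/-- For all points of the curve outside finitely many fibres. -/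
def evF (p : ℂ × ℂ → Prop) : Prop :=
  ∃ δ₁ : ℝ[X], δ₁ ≠ 0 ∧ ∀ c : ℂ × ℂ, (cx F.Q).evalEval c.1 c.2 = 0 → (cx1 δ₁).eval c.1 ≠ 0 → p c

/-- The complex points of the spread of `V`. -/
def US (V : Pres K) (δ : ℝ[X]) : Set (ℂ × ((ℂ × ℂ) × (V.σ → ℂ))) :=
  {u | (u.1, u.2.1) ∈ CV (cx F.Q) (cx1 δ) ∧
    ∀ k, MvPolynomial.eval u.2.2 (F.spP (V.F k) (u.1, u.2.1.1)) = 0}

/-- The final system over the `z`-line. -/
def RR (l : ℝ) (V : Pres K) (δ : ℝ[X]) : Set (ℂ × (ℂ × ((Fin F.d → V.σ → ℂ) × ℂ))) :=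
  BU (MB l) Prod.snd (WU (cx F.Q) F.d (cx1 δ) (F.US V δ))

/-- The rational map defined by a vector of elements of `K`. -/
def X0 (l : ℝ) {σ : Type} (δ : ℝ[X]) (ξ : σ → K) (z : ℂ) : ℂ × ((Fin F.d → σ → ℂ) × ℂ) :=
  (zt l z, (fun i s => F.cf i (ξ s) (zt l z), ((cx1 δ).eval (zt l z))⁻¹))

/-- The place `O` lies over the point `z = p`. -/
def Over (l : ℝ) (p : ℂ) (O : ValuationSubring K) : Prop :=
  ∀ A s : ℝ[X], s ≠ 0 → (aeval F.t A / aeval F.t s ∈ O ↔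
    ∃ C : ℝ, ∀ᶠ z in 𝓝[≠] p, ‖(cx1 A).eval (zt l z) / (cx1 s).eval (zt l z)‖ ≤ C)

/-- A uniformiser at `z = p`. -/
def Unif (l : ℝ) (p : ℂ) (π : K) : Prop :=
  ∃ A s : ℝ[X], A ≠ 0 ∧ s ≠ 0 ∧ π = aeval F.t A / aeval F.t s ∧ ∃ c > 0, ∃ C : ℝ,
    ∀ᶠ z in 𝓝[≠] p, c * ‖z - p‖ ≤ ‖(cx1 A).eval (zt l z) / (cx1 s).eval (zt l z)‖ ∧
      ‖(cx1 A).eval (zt l z) / (cx1 s).eval (zt l z)‖ ≤ C * ‖z - p‖

/-- `|a| ≤ C |z - p| ^ n` on all branches near `p`. -/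
def Bd (l : ℝ) (p : ℂ) (n : ℤ) (a : K) : Prop :=
  ∃ C : ℝ, ∀ᶠ z in 𝓝[≠] p, ∀ T₀, (cx F.Q).evalEval (zt l z) T₀ = 0 →
    ‖F.sp a (zt l z, T₀)‖ ≤ C * ‖z - p‖ ^ n

end FF

/-- For all sufficiently divisible `δ`. -/
def evD (p : ℝ[X] → Prop) : Prop := ∃ δ₁ : ℝ[X], δ₁ ≠ 0 ∧ ∀ δ, δ ≠ 0 → δ₁ ∣ δ → p δ

/-- Free coordinates. -/
def prV {K : Type} [Field K] (V : Pres K) : (V.σ → ℂ) →L[ℂ] (V.ι → ℂ) :=
  ContinuousLinearMap.pi fun a => ContinuousLinearMap.proj (V.fr a)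

/-- Coordinatewise conjugation. -/
def stL (E : Type) [NormedAddCommGroup E] [NormedSpace ℂ E] [StarAddMonoid E] [StarModule ℂ E]
    [ContinuousStar E] : E →L⋆[ℂ] E := (starL ℂ (A := E)).toContinuousLinearMap

/-- `x` and `y` are congruent modulo `b` in the completion. -/
def Cl {K : Type} [Field K] (O : ValuationSubring K) (b : K) (x y : O.valuation.Completion) :
    Prop := Valued.v (x - y) ≤ Valued.v (toCpl O b)

end

end Pool.Agent.P.MP_daea48_ag
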