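import Pool.Agent.P.MP_daea48_ag.Ell1

/-! Package `Ell`: rational maps from the elliptic curves controlling a loop. -/

open Set Filter Topology Metric Polynomial

namespace Pool.Agent.P.MP_daea48_ag

noncomputable section

open Classical

namespace Ell

/-- The cubic. -/
def cc (ε : ℝ) : ℂ[X] := X * (X - 1) * (X - C (ε : ℂ))

/-- The equation of the curve. -/
def QQ (ε : ℝ) : ℂ[X][X] := X ^ 2 - C (cc ε)

/-- The discriminant factor. -/
def dd (ε : ℝ) : ℂ[X] := 2 * cc ε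

theorem eval_dd (ε : ℝ) (t : ℂ) : (dd ε).eval t = 2 * (t * (t - 1) * (t - ε)) := by
  simp [dd, cc]

theorem eval_QQ (ε : ℝ) (t v : ℂ) : (QQ ε).evalEval t v = v ^ 2 - t * (t - 1) * (t - ε) := by
  simp [QQ, cc, evalEval_sub, evalEval_pow, evalEval_C]

theorem cov (ε : ℝ) : Cov (QQ ε) 2 (dd ε) := by
  refine ⟨monic_X_pow_sub_C _ two_ne_zero, natDegree_X_pow_sub_C, ?_, -2, X, ?_⟩
  · intro h
    have h1 := eval_dd ε Complex.I
    rw [h, eval_zero] at h1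
    have h2 : ∀ a : ℝ, Complex.I - a ≠ 0 := fun a h => by simpa using congrArg Complex.im h
    exact mul_ne_zero two_ne_zero (mul_ne_zero (mul_ne_zero Complex.I_ne_zero
      (by simpa using h2 1)) (h2 ε)) h1.symm
  · simp only [QQ, dd, derivative_sub, derivative_X_pow, derivative_C, map_mul, map_ofNat,
      Nat.cast_ofNat, Nat.add_one_sub_one]
    ring

theorem ev_two {E : Type} [NormedAddCommGroup E] [NormedSpace ℂ E] (v : ℂ) (X : Fin 2 → E) :
    ev v X = X 0 + v • X 1 := by simp [ev, Fin.sum_univ_two]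

theorem LN_congr {E : Type} [NormedAddCommGroup E] [NormedSpace ℂ E] {Y : Set E}
    {𝓕 : (ℝ × ℝ → E) → Prop} (h : FillSys Y 𝓕) {α β : ℝ → E} (e : EqOn α β (Icc 0 1))
    (hα : LN 𝓕 α) : LN 𝓕 β := by
  refine h.congr _ _ (fun p hp => ?_) hα
  have h1 : |p.1| ≤ 1 := by
    have h2 : ‖p‖ = 1 := by simpa [bd] using hp
    exact h2 ▸ norm_fst_le p
  have h2 := abs_le.1 h1
  unfold two
  split_ifs
  · exact e (by simp)
  · exact e ⟨by linarith [h2.1], by linarith [h2.2]⟩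

/-- Close loops are freely homotopic. -/
theorem close_loops (hF : S_FC2) {E : Type} [NormedAddCommGroup E] [NormedSpace ℂ E]
    [FiniteDimensional ℂ E] {E' : Type} [NormedAddCommGroup E'] [NormedSpace ℂ E']
    {U : Set (ℂ × E)} {pr : E →L[ℂ] E'} (T : TC U pr) {b : ℂ} {𝓕 : (ℝ × ℝ → E) → Prop}
    (h : FillSys (fib U b) 𝓕) {α β : ℝ → E} (hα : Loop (fib U b) α) (hβ : Loop (fib U b) β)
    (hd : ∀ t ∈ Icc (0 : ℝ) 1, ‖β t - α t‖ < T.rho (b, α t) ∧
      ‖pr (β t) - pr (α t)‖ < T.rho (b, α t) ^ 2) (hl : LN 𝓕 β) : LN 𝓕 α := by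
  have hdom : ∀ x ∈ Icc (0 : ℝ) 1 ×ˢ Icc (0 : ℝ) 1, (b, α x.2) ∈ U ∧
      ‖((b, pr (α x.2) + (1 - x.1) • (pr (β x.2) - pr (α x.2))) : ℂ × E') - pj pr (b, α x.2)‖ <
        T.rho (b, α x.2) ^ 2 := fun x hx => by
    refine ⟨hα.1.2 hx.2, ?_⟩
    have : ‖(1 - x.1) • (pr (β x.2) - pr (α x.2))‖ ≤ ‖pr (β x.2) - pr (α x.2)‖ := by
      rw [norm_smul, Real.norm_eq_abs, abs_of_nonneg (by linarith [hx.1.2])]
      exact mul_le_of_le_one_left (norm_nonneg _) (by linarith [hx.1.1])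
    simpa using this.trans_lt (hd _ hx.2).2
  have ca : ContinuousOn (fun x : ℝ × ℝ => α x.2) (Icc 0 1 ×ˢ Icc 0 1) :=
    hα.1.1.comp continuousOn_snd fun _ hx => hx.2
  have cb : ContinuousOn (fun x : ℝ × ℝ => β x.2) (Icc 0 1 ×ˢ Icc 0 1) :=
    hβ.1.1.comp continuousOn_snd fun _ hx => hx.2
  have ca' := pr.continuous.comp_continuousOn ca
  have cb' := pr.continuous.comp_continuousOn cb
  have key := (hF E _ 𝓕 h).1 (fun x => T.ex (b, α x.2)
      (b, pr (α x.2) + (1 - x.1) • (pr (β x.2) - pr (α x.2))))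
    (T.continuousOn_ex_comp (continuousOn_const.prodMk ca) (continuousOn_const.prodMk
      (ca'.add ((continuousOn_const.sub continuousOn_fst).smul (cb'.sub ca')))) hdom)
    (fun x hx => T.ex_mem (hdom x hx).1 (hdom x hx).2)
    (fun μ _ => by simp only [hα.2, hβ.2])
    (LN_congr h (fun t ht => ?_) hl)
  · refine LN_congr h (fun t ht => ?_) key
    simp only [sub_self, zero_smul, add_zero]
    exact T.ex_self (u := (b, α t)) (hα.1.2 ht)
  · refine (T.ex_unique (u := (b, α t)) (hα.1.2 ht) (hβ.1.2 ht) ?_ (by simp)).symm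
    simpa using (hd t ht).1

/-- A rational map written with a denominator that vanishes only at poles. -/
theorem rat_form (hM : S_Mero) {Y : Type} [NormedAddCommGroup Y] [NormedSpace ℂ Y]
    [FiniteDimensional ℂ Y] {S : ℂ → Y} (h1 : MeromorphicOn S univ)
    (h2 : MeromorphicAt (fun z => S z⁻¹) 0) :
    ∃ (Den : ℂ[X]) (N : ℂ → Y), Den ≠ 0 ∧ Continuous N ∧
      (∀ ℓ : Y →L[ℂ] ℂ, ∃ p : ℂ[X], ∀ t, ℓ (N t) = p.eval t) ∧
      (∀ᶠ z in cofinite, S z = (Den.eval z)⁻¹ • N z) ∧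
      ∀ z, ContinuousAt S z → Den.eval z ≠ 0 ∧ S z = (Den.eval z)⁻¹ • N z := by
  have hex : ∃ n : ℕ, ∃ Den : ℂ[X], Den.natDegree = n ∧ Den ≠ 0 ∧ ∀ ℓ : Y →L[ℂ] ℂ, ∃ Num : ℂ[X],
      ∀ᶠ z in cofinite, Den.eval z * ℓ (S z) = Num.eval z := by
    obtain ⟨Den, h⟩ := hM.1 Y S h1 h2
    exact ⟨_, Den, rfl, h⟩
  obtain ⟨Den, hn, h0, hD⟩ := Nat.find_spec hex
  have hne : ∀ z, ContinuousAt S z → Den.eval z ≠ 0 := fun p hp hz => by
    obtain ⟨D', hD'⟩ := dvd_iff_isRoot.2 hz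
    have h0' : D' ≠ 0 := by rintro rfl; exact h0 (by simpa using hD')
    have hlt : D'.natDegree < Nat.find hex := by
      rw [← hn, hD', natDegree_mul (X_sub_C_ne_zero p) h0', natDegree_X_sub_C]; omega
    refine Nat.find_min hex hlt ⟨D', rfl, h0', fun ℓ => ?_⟩
    obtain ⟨Num, hN⟩ := hD ℓ
    have c1 : ContinuousAt (fun z => Den.eval z * ℓ (S z)) p :=
      Den.continuous.continuousAt.mul (ℓ.continuous.continuousAt.comp hp)
    have h3 : Num.eval p = 0 := by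
      have := tendsto_nhds_unique_of_eventuallyEq (l := 𝓝[≠] p)
        (c1.tendsto.mono_left nhdsWithin_le_nhds)
        (Num.continuous.continuousAt.tendsto.mono_left nhdsWithin_le_nhds)
        (nhdsNE_le_cofinite p hN)
      rw [← this, hz, zero_mul]
    obtain ⟨N', hN'⟩ := dvd_iff_isRoot.2 h3
    refine ⟨N', ?_⟩
    filter_upwards [hN, eventually_cofinite_ne p] with z hz1 hz2
    rw [hD', hN', eval_mul, eval_mul, mul_assoc] at hz1
    exact mul_left_cancel₀ (by simpa [sub_eq_zero] using hz2) hz1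
  set e := Module.finBasis ℂ Y
  choose Num hNum using fun i => hD (LinearMap.toContinuousLinearMap (e.coord i))
  have hc : Continuous fun z => ∑ i, (Num i).eval z • e i :=
    continuous_finsetSum _ fun i _ => (Num i).continuous.smul continuous_const
  have hcof : ∀ᶠ z in cofinite, S z = (Den.eval z)⁻¹ • ∑ i, (Num i).eval z • e i := by
    filter_upwards [eventually_all.2 hNum, eventually_cofinite.2 (show {z | ¬ Den.eval z ≠ 0}.Finite
      by simpa using Den.finite_setOfPred_isRoot h0)] with z hz hz0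
    rw [eq_inv_smul_iff₀ hz0]
    conv_lhs => rw [← e.sum_repr (S z), Finset.smul_sum]
    refine Finset.sum_congr rfl fun i _ => ?_
    rw [smul_smul, ← hz i]; rfl
  refine ⟨Den, fun z => ∑ i, (Num i).eval z • e i, h0, hc,
    fun ℓ => ⟨∑ i, Num i * C (ℓ (e i)), fun t => by simp [eval_finsetSum]⟩, hcof,
    fun z hz => ⟨hne z hz, ?_⟩⟩
  exact tendsto_nhds_unique_of_eventuallyEq (l := 𝓝[≠] z) (hz.tendsto.mono_left nhdsWithin_le_nhds)
    (((Den.continuous.continuousAt.inv₀ (hne z hz)).smul hc.continuousAt).tendsto.mono_left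
      nhdsWithin_le_nhds) (nhdsNE_le_cofinite z hcof)

theorem mero_pair {Y : Type} [NormedAddCommGroup Y] [NormedSpace ℂ Y] (y : Y) {f : ℂ → ℂ} {p : ℂ}
    (hf : MeromorphicAt f p) : MeromorphicAt (fun z => ((y, f z) : Y × ℂ)) p := by
  have := (MeromorphicAt.const ((y, 0) : Y × ℂ) p).add
    (hf.smul (MeromorphicAt.const ((0, 1) : Y × ℂ) p))
  exact this.congr (Eventually.of_forall fun z => by simp)

section main
variable {E : Type} [NormedAddCommGroup E] [NormedSpace ℂ E] [FiniteDimensional ℂ E]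

/-- The Weil restriction of the constant family. -/
def WW (U : Set (ℂ × E)) (b : ℂ) (ε : ℝ) : Set (ℂ × ((Fin 2 → E) × ℂ)) :=
  WU (QQ ε) 2 (dd ε) (BU (CV (QQ ε) (dd ε)) (fun _ => b) U)

/-- The model section. -/
def S0 (g : ℝ → E) (ε : ℝ) (t : ℂ) : (Fin 2 → E) × ℂ :=
  (itp (QQ ε) 2 t fun v => Fm g ε (t, v), ((dd ε).eval t)⁻¹)

/-- The branch points. -/
def PP (ε : ℝ) : Finset ℂ := {0, 1, (ε : ℂ)}

theorem dd_ne {ε : ℝ} {t : ℂ} (ht : t ∉ (PP ε : Set ℂ)) : (dd ε).eval t ≠ 0 ∧ t ≠ 0 := by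
  simp only [PP, Finset.coe_insert, Finset.coe_singleton, mem_insert_iff, mem_singleton_iff,
    not_or] at ht
  rw [eval_dd]
  exact ⟨mul_ne_zero two_ne_zero (mul_ne_zero (mul_ne_zero ht.1 (sub_ne_zero.2 ht.2.1))
    (sub_ne_zero.2 ht.2.2)), ht.1⟩

theorem ev_S0 (hI : S_Itp) (g : ℝ → E) {ε : ℝ} {t v : ℂ} (ht : t ∉ (PP ε : Set ℂ))
    (hv : (QQ ε).evalEval t v = 0) : ev v (S0 g ε t).1 = Fm g ε (t, v) :=
  ((hI _ _ _ (cov ε)).2.2.2.2.1 E).1 t (fun v => Fm g ε (t, v)) v (dd_ne ht).1 hv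

theorem csec_S0 (hI : S_Itp) {U : Set (ℂ × E)} {b : ℂ} {g : ℝ → E} (hg : Loop (fib U b) g)
    {ε : ℝ} (hε : 0 < ε) (hε1 : ε < 1 / 8) : CSec (WW U b ε) (S0 g ε) (PP ε : Set ℂ)ᶜ := by
  refine ⟨fun x hx => ContinuousWithinAt.prodMk ?_ ?_, fun z hz => ⟨inv_mul_cancel₀ (dd_ne hz).1,
    fun v hv => ⟨⟨hv, inv_mul_cancel₀ (dd_ne hz).1⟩, ?_⟩⟩⟩
  · obtain ⟨v, co, hv, hco, h⟩ := (hI _ _ _ (cov ε)).2.2.2.2.2.2 ℂ (PP ε : Set ℂ)ᶜ id x hx
      continuousWithinAt_id (dd_ne hx).1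
    have h0 := h.self_of_nhdsWithin hx
    refine continuousWithinAt_pi.2 fun k => ?_
    have hF : ∀ i, ContinuousWithinAt (fun z => Fm g ε (z, v i z)) (PP ε : Set ℂ)ᶜ x := fun i => by
      have h1 := (h0.2.1 (v i x)).2 ⟨i, rfl⟩
      rw [eval_QQ, sub_eq_zero] at h1
      exact ContinuousAt.comp_continuousWithinAt (g := Fm g ε) (f := fun z => (z, v i z))
        (continuousAt_Fm hg.1.1 hg.2 hε (by linarith) (dd_ne hx).2 h1)
        (continuousWithinAt_id.prodMk (hv i))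
    have hs : ContinuousWithinAt (fun z => ∑ i, co i k z • Fm g ε (z, v i z)) (PP ε : Set ℂ)ᶜ x :=
      tendsto_finsetSum _ fun i _ => (hco i k).smul (hF i)
    exact hs.congr_of_eventuallyEq (h.mono fun z hz => hz.2.2 E _ k) (h0.2.2 E _ k)
  · exact ((dd ε).continuous.continuousAt.inv₀ (dd_ne hx).1).continuousWithinAt
  · change (b, ev v (S0 g ε z).1) ∈ U
    rw [ev_S0 hI g hz hv]
    exact Fm_mem hg.1.2 ε _

theorem S0_out (hI : S_Itp) {g : ℝ → E} (hg : g 0 = g 1) {ε : ℝ} (hε : 0 < ε) {t : ℂ}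
    (ht : t ∉ (PP ε : Set ℂ)) (h : ‖1 - ε / t‖ ≤ 1 - 2 * ε / 3 ∨ 1 - ε / 3 ≤ ‖1 - ε / t‖) :
    S0 g ε t = (![g 0, 0], ((dd ε).eval t)⁻¹) := by
  refine Prod.ext ?_ rfl
  have h1 := (hI _ _ _ (cov ε)).2.2.2.2.1 E
  refine (h1.2.2.1 t _ _ fun v _ => ?_).trans (h1.2.1 t ![g 0, 0] (dd_ne ht).1)
  rw [Fm_out hg hε h, ev_two]; simp

theorem ev_notMem (ε : ℝ) (p : ℂ) : ∀ᶠ z in 𝓝[≠] p, z ∉ (PP ε : Set ℂ) :=
  nhdsNE_le_cofinite p (PP ε).finite_toSet.compl_mem_cofinite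

theorem germ_S0 (hI : S_Itp) {U : Set (ℂ × E)} {b : ℂ} {g : ℝ → E} (hg : Loop (fib U b) g)
    {ε : ℝ} (hε : 0 < ε) (hε1 : ε < 1 / 8) {p : ℂ} (hp : p ∈ PP ε) :
    Germ (WW U b ε) id (S0 g ε) p := by
  refine ⟨?_, (ev_notMem ε p).mono fun z hz => (csec_S0 hI hg hε hε1).2 z hz⟩
  have h1 : MeromorphicAt (fun z : ℂ => (2 * (z * (z - 1) * (z - ε)))⁻¹) p := by fun_prop
  refine (mero_pair (![g 0, 0] : Fin 2 → E) h1).congr ?_
  filter_upwards [ev_notMem ε p, out_near hε hε1 (p := p) (by simpa [PP] using hp)] with z h2 h3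
  rw [S0_out hI hg.2 hε h2 h3, eval_dd]

theorem germ_inf (hI : S_Itp) {U : Set (ℂ × E)} {b : ℂ} {g : ℝ → E} (hg : Loop (fib U b) g)
    {ε : ℝ} (hε : 0 < ε) (hε1 : ε < 1 / 8) :
    Germ (WW U b ε) (fun z => z⁻¹) (fun z => S0 g ε z⁻¹) 0 := by
  have h0 : ∀ᶠ z : ℂ in 𝓝[≠] 0, z⁻¹ ∉ (PP ε : Set ℂ) :=
    nhdsNE_le_cofinite 0 (inv_injective.tendsto_cofinite (PP ε).finite_toSet.compl_mem_cofinite)
  refine ⟨?_, h0.mono fun z hz => (csec_S0 hI hg hε hε1).2 _ hz⟩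
  have h1 : MeromorphicAt (fun z : ℂ => (2 * (z⁻¹ * (z⁻¹ - 1) * (z⁻¹ - ε)))⁻¹) 0 := by fun_prop
  refine (mero_pair (![g 0, 0] : Fin 2 → E) h1).congr ?_
  filter_upwards [h0, nhdsWithin_le_nhds (out_inf hε)] with z h2 h3
  rw [S0_out hI hg.2 hε h2 (Or.inr h3), eval_dd]

/-- Values of a rational section at all points of the curve off the poles. -/
theorem mem_closed (hI : S_Itp) {U : Set (ℂ × E)} (hU : IsClosed U) {b : ℂ} {ε : ℝ}
    {R : ℂ → (Fin 2 → E) × ℂ} (hR : ∀ᶠ z in cofinite, (z, R z) ∈ WW U b ε) {t v : ℂ}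
    (hc : ContinuousAt R t) (hv : v ^ 2 = t * (t - 1) * (t - ε)) : ev v (R t).1 ∈ fib U b := by
  choose w hw hw' using fun z => (hI _ _ _ (cov ε)).2.2.1 z v two_pos
  have h1 : Tendsto (fun z => ‖v - w z‖ ^ 2) (𝓝 t) (𝓝 0) := by
    refine squeeze_zero (fun _ => by positivity) hw' ?_
    simp only [eval_QQ]
    have : Continuous fun z : ℂ => ‖v ^ 2 - z * (z - 1) * (z - ε)‖ := by fun_prop
    simpa [hv] using this.tendsto t
  have h2 : Tendsto w (𝓝 t) (𝓝 v) := by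
    rw [tendsto_iff_norm_sub_tendsto_zero]
    have := h1.sqrt
    simpa [norm_sub_rev] using this
  have h3 : Tendsto (fun z => (b, ev (w z) (R z).1)) (𝓝 t) (𝓝 (b, ev v (R t).1)) := by
    simp only [ev_two]
    have h4 : ∀ i, Tendsto (fun z => (R z).1 i) (𝓝 t) (𝓝 ((R t).1 i)) := fun i =>
      ((continuous_apply i).continuousAt.comp hc.fst).tendsto
    exact tendsto_const_nhds.prodMk_nhds ((h4 0).add (h2.smul (h4 1)))
  exact hU.mem_of_tendsto (h3.mono_left (nhdsWithin_le_nhds (s := {t}ᶜ)))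
    ((hR.filter_mono (nhdsNE_le_cofinite t)).mono fun z hz => (hz.2 _ (hw z)).2)

end main

theorem norm_vbr {ε : ℝ} (hε : 0 < ε) (hε1 : ε < 1 / 8) {t : ℂ} (ht : ‖t‖ = 1 / 2) :
    ‖vbr ε t‖ ≤ 1 := by
  have ht0 : t ≠ 0 := by rintro rfl; norm_num at ht
  have h1 := congrArg norm (vbr_sq (ε := ε) ht0)
  rw [norm_pow, norm_mul, norm_mul, ht] at h1
  have h2 : ‖t - 1‖ ≤ 3 / 2 := by
    have := norm_sub_le t 1
    rw [ht, norm_one] at this; linarith
  have h3 : ‖t - ε‖ ≤ 1 := by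
    have := norm_sub_le t ε
    rw [ht, Complex.norm_real, Real.norm_eq_abs, abs_of_pos hε] at this; linarith
  have h4 : ‖t - 1‖ * ‖t - ε‖ ≤ 3 / 2 * 1 := mul_le_mul h2 h3 (norm_nonneg _) (by norm_num)
  nlinarith [norm_nonneg (vbr ε t)]

end Ell

open Ell in
theorem Ell_of (hG : S_Glob) (hA : S_APS) (hT : S_IFT) (hB : S_BrW) (hI : S_Itp) (hM : S_Mero)
    (hF : S_FC2) : S_Ell := by
  intro E _ _ _ E' _ _ _ L _ _ _ U pr lab b 𝓕 g ε hU hbr hfs hg hε hε1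
  obtain ⟨T⟩ := hT.1 E E' U pr hU
  obtain ⟨TW⟩ := hT.1 _ _ (WW U b ε) (prW 2 pr) (hA.2.2.2.2 E E' _ _ _ _ pr (cov ε)
    (hA.2.2.2.1 E E' _ _ _ U pr (Tame.const b) hU))
  have hW : Br (WW U b ε) (prW 2 pr) (lab0 _) := hB.2 E E' _ _ _ _ pr (cov ε) (fun u hu => hu.1)
    (hB.1 E E' _ L _ _ U pr lab (differentiable_const b) hbr).1
  have hgc := continuous_gcl hg.1.1
  have hα : Loop (fib U b) fun s => g (cl (ph ε s)) :=
    ⟨⟨(hgc.comp (continuous_ph ε)).continuousOn, fun s _ => hg.1.2 (cl_mem _)⟩, by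
      simp only
      rw [cl_of_le (ph_zero hε hε1), cl_of_ge (ph_ge hε (by norm_num)), hg.2]⟩
  obtain ⟨ρ, hρ, hρ'⟩ := T.rho_lower (K := (fun s => (b, g (cl (ph ε s)))) '' Icc 0 1)
    (isCompact_Icc.image (continuous_const.prodMk (hgc.comp (continuous_ph ε)))).isBounded
  have hp := norm_nonneg pr
  have hnP : ∀ t : ℂ, ‖t‖ = 1 / 2 → t ∉ (PP ε : Set ℂ) := fun t ht h => by
    simp only [PP, Finset.coe_insert, Finset.coe_singleton, mem_insert_iff, mem_singleton_iff] at h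
    rcases h with rfl | rfl | rfl
    · norm_num at ht
    · norm_num at ht
    · rw [Complex.norm_real, Real.norm_eq_abs, abs_of_pos hε] at ht; linarith
  obtain ⟨S, hS, hS'⟩ := hG.2.2 _ _ _ (WW U b ε) (prW 2 pr) TW (lab0 _) (PP ε) (S0 g ε) (1 / 2)
    (min ρ (ρ ^ 2) / (2 * (‖pr‖ + 1))) hW (by simp [PP]) (csec_S0 hI hg hε hε1)
    (fun p hp => ⟨fun h => hnP p h hp, germ_S0 hI hg hε hε1 hp⟩) (germ_inf hI hg hε hε1)
    (by norm_num) (by positivity)
  obtain ⟨Den, N, h0, hN, hpoly, hcof, hat⟩ := rat_form hM hS.1 hS.2.1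
  have hcR : ∀ t, Den.eval t ≠ 0 → ContinuousAt (fun z => (Den.eval z)⁻¹ • N z) t := fun t ht =>
    (Den.continuous.continuousAt.inv₀ ht).smul hN.continuousAt
  have hev : ∀ t v : ℂ, (Den.eval t)⁻¹ • ((N t).1 0 + v • (N t).1 1) =
      ev v ((Den.eval t)⁻¹ • N t).1 := fun t v => by
    rw [ev_two, smul_add, smul_comm]; rfl
  have hmem : ∀ t v : ℂ, v ^ 2 = t * (t - 1) * (t - ε) → Den.eval t ≠ 0 →
      (Den.eval t)⁻¹ • ((N t).1 0 + v • (N t).1 1) ∈ fib U b := fun t v hv ht => by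
    rw [hev]
    exact mem_closed hI T.closed (R := fun z => (Den.eval z)⁻¹ • N z)
      ((hS.2.2.and hcof).mono fun z hz => hz.2 ▸ hz.1) (hcR t ht) hv
  have hsp : ∀ t : ℂ, ‖t‖ = 1 / 2 → Den.eval t ≠ 0 ∧ S t = (Den.eval t)⁻¹ • N t := fun t ht =>
    hat t (hS' t (by simpa using ht)).1.continuousAt
  have hn : ∀ s, ‖circ (1 / 2) s‖ = 1 / 2 := norm_circ (by norm_num)
  have hn0 : ∀ s, circ (1 / 2) s ≠ 0 := fun s h => by
    have := hn s
    rw [h] at this; norm_num at this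
  refine ⟨Den, fun t => (N t).1 0, fun t => (N t).1 1, 1 / 2, h0, fun ℓ => ?_, hmem, by linarith,
    by norm_num, fun t ht => (hsp t ht).1, fun hl => ?_⟩
  · obtain ⟨p₀, h₀⟩ := hpoly (ℓ.comp ((ContinuousLinearMap.proj (0 : Fin 2)).comp
      (ContinuousLinearMap.fst ℂ (Fin 2 → E) ℂ)))
    obtain ⟨p₁, h₁⟩ := hpoly (ℓ.comp ((ContinuousLinearMap.proj (1 : Fin 2)).comp
      (ContinuousLinearMap.fst ℂ (Fin 2 → E) ℂ)))
    exact ⟨p₀, p₁, fun t => ⟨h₀ t, h₁ t⟩⟩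
  have hcc := continuous_circ (1 / 2)
  have hβ : Loop (fib U b) fun s => (Den.eval (circ (1 / 2) s))⁻¹ • ((N (circ (1 / 2) s)).1 0 +
      vbr ε (circ (1 / 2) s) • (N (circ (1 / 2) s)).1 1) := by
    refine ⟨⟨Continuous.continuousOn ?_, fun s _ => hmem _ _ (vbr_sq (hn0 s)) (hsp _ (hn s)).1⟩,
      by simp only [circ_one]⟩
    have c1 : Continuous fun s => vbr ε (circ (1 / 2) s) :=
      continuous_iff_continuousAt.2 fun s => ContinuousAt.comp (g := vbr ε) (f := circ (1 / 2))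
        (continuousAt_vbr hε hε1 (hn s)) hcc.continuousAt
    have c2 : ∀ i, Continuous fun s => (N (circ (1 / 2) s)).1 i := fun i =>
      (continuous_apply i).comp (hN.comp hcc).fst
    exact ((Den.continuous.comp hcc).inv₀ fun s => (hsp _ (hn s)).1).smul
      ((c2 0).add (c1.smul (c2 1)))
  have h1 := close_loops hF T hfs hα hβ (fun s hs => ?_) hl
  · have h2 := (hF E _ 𝓕 hfs).1 (fun x => g (cl ((1 - x.1) * ph ε x.2 + x.1 * x.2)))
      (hgc.comp (((continuous_const.sub continuous_fst).mul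
        ((continuous_ph ε).comp continuous_snd)).add (continuous_fst.mul continuous_snd))).continuousOn
      (fun x _ => hg.1.2 (cl_mem _)) (fun μ hμ => ?_) (by simpa using h1)
    · refine LN_congr hfs (fun s hs => ?_) h2
      simp [cl_of_mem hs]
    · have e1 := ph_zero hε hε1
      have e2 := ph_ge hε (s := 1) (by norm_num)
      simp only
      rw [cl_of_le (by nlinarith [hμ.2]), cl_of_ge (by nlinarith [hμ.2]), hg.2]
  · have hr := hρ' _ (mem_image_of_mem _ hs)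
    have hv : (QQ ε).evalEval (circ (1 / 2) s) (vbr ε (circ (1 / 2) s)) = 0 := by
      rw [eval_QQ, vbr_sq (hn0 s), sub_self]
    have e1 := Fm_loop hg.2 hε hε1 hs
    rw [← ev_S0 hI g (hnP _ (hn s)) hv] at e1
    have hd := (hS' (circ (1 / 2) s) (by simpa using hn s)).2
    rw [hev, ← (hsp _ (hn s)).2, ← map_sub]
    set m := min ρ (ρ ^ 2) with hm
    have hm0 : 0 < m := by positivity
    set D := S (circ (1 / 2) s) - S0 g ε (circ (1 / 2) s) with hD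
    have e2 : ‖ev (vbr ε (circ (1 / 2) s)) (S (circ (1 / 2) s)).1 - g (cl (ph ε s))‖ ≤ 2 * ‖D‖ := by
      have e3 : ev (vbr ε (circ (1 / 2) s)) (S (circ (1 / 2) s)).1 - g (cl (ph ε s)) =
          D.1 0 + vbr ε (circ (1 / 2) s) • D.1 1 := by
        rw [← e1, ev_two, ev_two, hD]
        simp only [Prod.fst_sub, Pi.sub_apply, smul_sub]
        abel
      have e4 : ∀ i, ‖D.1 i‖ ≤ ‖D‖ := fun i => (norm_le_pi_norm D.1 i).trans (norm_fst_le D)
      rw [e3]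
      refine (norm_add_le _ _).trans ?_
      rw [norm_smul]
      nlinarith [e4 0, e4 1, norm_vbr hε hε1 (hn s), norm_nonneg (D.1 1),
        norm_nonneg (vbr ε (circ (1 / 2) s))]
    rw [lt_div_iff₀ (by positivity)] at hd
    have hD0 := norm_nonneg D
    have m1 : m ≤ ρ := min_le_left _ _
    have m2 : m ≤ T.rho (b, g (cl (ph ε s))) ^ 2 :=
      (min_le_right _ _).trans (pow_le_pow_left₀ hρ.le hr 2)
    refine ⟨by nlinarith, (pr.le_opNorm _).trans_lt ?_⟩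
    nlinarith [mul_le_mul_of_nonneg_left e2 hp]

end

end Pool.Agent.P.MP_daea48_ag
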