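import Pool.Agent.P.MP_daea48_ag.StA

/-! Package `Ell`, part 1: a continuous map from the elliptic curve supported near a cycle. -/

open Set Filter Topology Metric Polynomial

namespace Pool.Agent.P.MP_daea48_ag

noncomputable section

open Classical

namespace Ell

/-- Clamp to the unit interval. -/
def cl (x : ℝ) : ℝ := max 0 (min 1 x)

theorem cl_mem (x : ℝ) : cl x ∈ Icc (0 : ℝ) 1 :=
  ⟨le_max_left _ _, max_le zero_le_one (min_le_left _ _)⟩

theorem cl_of_le {x : ℝ} (h : x ≤ 0) : cl x = 0 := max_eq_left ((min_le_right _ _).trans h)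

theorem cl_of_ge {x : ℝ} (h : 1 ≤ x) : cl x = 1 := by simp [cl, min_eq_left h]

theorem cl_of_mem {x : ℝ} (h : x ∈ Icc (0 : ℝ) 1) : cl x = x := by
  simp [cl, min_eq_right h.2, max_eq_right h.1]

theorem continuous_cl : Continuous cl := by unfold cl; fun_prop

/-- The collar coordinate. -/
def uu (ε : ℝ) (t : ℂ) : ℝ := (‖1 - ε / t‖ - (1 - 2 * ε / 3)) * (3 / ε)

theorem uu_le {ε : ℝ} (hε : 0 < ε) {t : ℂ} (h : ‖1 - ε / t‖ ≤ 1 - 2 * ε / 3) : uu ε t ≤ 0 :=
  mul_nonpos_of_nonpos_of_nonneg (by linarith) (by positivity)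

theorem uu_ge {ε : ℝ} (hε : 0 < ε) {t : ℂ} (h : 1 - ε / 3 ≤ ‖1 - ε / t‖) : 1 ≤ uu ε t := by
  have h1 : ε / 3 * (3 / ε) = 1 := by field_simp
  have h2 : ε / 3 ≤ ‖1 - ε / t‖ - (1 - 2 * ε / 3) := by linarith
  rw [← h1]
  exact mul_le_mul_of_nonneg_right h2 (by positivity)

theorem continuousAt_tau (ε : ℝ) {t : ℂ} (ht : t ≠ 0) :
    ContinuousAt (fun t : ℂ => ‖1 - ε / t‖) t :=
  (continuousAt_const.sub (continuousAt_const.div continuousAt_id ht)).norm

theorem continuousAt_uu (ε : ℝ) {t : ℂ} (ht : t ≠ 0) : ContinuousAt (uu ε) t :=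
  ((continuousAt_tau ε ht).sub continuousAt_const).mul continuousAt_const

theorem prod_rhp {p q : ℂ} (hp : 0 < p.re) (hq : 0 < q.re) {y : ℝ} (h : p * q = -(y : ℂ) ^ 2) :
    False := by
  have h1 := congrArg Complex.re h
  have h2 := congrArg Complex.im h
  simp only [Complex.mul_re, Complex.mul_im, pow_two, Complex.neg_re, Complex.neg_im,
    Complex.ofReal_re, Complex.ofReal_im, mul_zero, zero_mul, add_zero, sub_zero, neg_zero] at h1 h2
  have h3 : p.re * (p.re * q.re - p.im * q.im) = (p.re ^ 2 + p.im ^ 2) * q.re := by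
    linear_combination (-p.im) * h2
  have h4 : 0 < (p.re ^ 2 + p.im ^ 2) * q.re := by positivity
  rw [h1] at h3
  nlinarith [mul_nonneg hp.le (mul_self_nonneg y)]

/-- On the collar the two sheets are told apart by a sign. -/
theorem sheet {ε : ℝ} {t v : ℂ} (ht : t ≠ 0) (hv : v ^ 2 = t * (t - 1) * (t - ε))
    (h1 : 1 - ε < ‖1 - ε / t‖) (h2 : ‖1 - ε / t‖ < 1) (hε1 : ε < 1) :
    (v / (t * (t - ε))).re ≠ 0 := by
  intro h0
  have hτ : (1 - ε / t : ℂ) ≠ 0 := by
    intro h; rw [h, norm_zero] at h1; linarith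
  have hte : t - ε ≠ 0 := by
    intro h; apply hτ; rw [← sub_eq_zero.1 h]; simp [ht]
  have hp : 0 < (1 - (1 - ε / t : ℂ)).re := by
    have := (Complex.re_le_norm (1 - ε / t : ℂ)).trans_lt h2
    rw [Complex.sub_re, Complex.one_re]; linarith
  have hq : 0 < (1 - ((1 - ε : ℝ) : ℂ) / (1 - ε / t)).re := by
    have h3 : ‖((1 - ε : ℝ) : ℂ) / (1 - ε / t)‖ < 1 := by
      rw [norm_div, Complex.norm_real, Real.norm_eq_abs, abs_of_pos (by linarith),
        div_lt_one (by linarith)]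
      exact h1
    have := (Complex.re_le_norm _).trans_lt h3
    rw [Complex.sub_re, Complex.one_re]; linarith
  refine prod_rhp hp hq (y := ε * (v / (t * (t - ε))).im) ?_
  have e : v / (t * (t - ε)) = (v / (t * (t - ε))).im * Complex.I := by
    conv_lhs => rw [← Complex.re_add_im (v / (t * (t - ε))), h0]
    simp
  have e2 : (((v / (t * (t - ε))).im : ℝ) : ℂ) ^ 2 = -(v / (t * (t - ε))) ^ 2 := by
    conv_rhs => rw [e, mul_pow, Complex.I_sq]
    ring
  have e3 : (1 - ε / t : ℂ) = (t - ε) / t := by field_simp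
  rw [Complex.ofReal_mul, mul_pow, e2, div_pow, hv, e3]
  push_cast
  field_simp
  ring

theorem sqrt_facts {z : ℂ} (hz : 0 < z.re) :
    (z ^ (1 / 2 : ℂ)) ^ 2 = z ∧ |(z ^ (1 / 2 : ℂ)).im| < (z ^ (1 / 2 : ℂ)).re ∧
      2 * (z ^ (1 / 2 : ℂ)).re * (z ^ (1 / 2 : ℂ)).im = z.im := by
  have h1 : (z ^ (1 / 2 : ℂ)) ^ 2 = z := by rw [one_div]; exact Complex.cpow_ofNat_inv_pow z 2
  have h2 : 0 ≤ (z ^ (1 / 2 : ℂ)).re := by
    rw [one_div, Complex.cpow_inv_two_re]; exact Real.sqrt_nonneg _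
  set a := z ^ (1 / 2 : ℂ)
  have h3 := congrArg Complex.re h1
  have h4 := congrArg Complex.im h1
  simp only [pow_two, Complex.mul_re, Complex.mul_im] at h3 h4
  refine ⟨h1, abs_lt_of_sq_lt_sq (by nlinarith) h2, by linarith⟩

theorem re_one_sub {t : ℂ} (ht : ‖t‖ < 1) : 0 < (1 - t).re := by
  have := (Complex.re_le_norm t).trans_lt ht
  rw [Complex.sub_re, Complex.one_re]; linarith

theorem norm_eps_div {ε : ℝ} (hε : 0 < ε) {t : ℂ} (ht : ‖t‖ = 1 / 2) :
    ‖(ε : ℂ) / t‖ = 2 * ε := by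
  rw [norm_div, ht, Complex.norm_real, Real.norm_eq_abs, abs_of_pos hε]; ring

theorem vbr_sq {ε : ℝ} {t : ℂ} (ht : t ≠ 0) : vbr ε t ^ 2 = t * (t - 1) * (t - ε) := by
  have h1 : ∀ z : ℂ, (z ^ (1 / 2 : ℂ)) ^ 2 = z := fun z => by
    rw [one_div]; exact Complex.cpow_ofNat_inv_pow z 2
  unfold vbr
  rw [mul_pow, mul_pow, mul_pow, h1, h1, Complex.I_sq]
  field_simp
  ring

theorem continuousAt_vbr {ε : ℝ} (hε : 0 < ε) (hε1 : ε < 1 / 8) {t : ℂ} (ht : ‖t‖ = 1 / 2) :
    ContinuousAt (vbr ε) t := by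
  have ht0 : t ≠ 0 := by rintro rfl; norm_num at ht
  unfold vbr
  refine ((continuousAt_const.mul continuousAt_id).mul ?_).mul ?_
  · exact (continuousAt_const.sub continuousAt_id).cpow continuousAt_const
      (Or.inl (re_one_sub (t := t) (by rw [ht]; norm_num)))
  · exact (continuousAt_const.sub (continuousAt_const.div continuousAt_id ht0)).cpow
      continuousAt_const
      (Or.inl (re_one_sub (t := ε / t) (by rw [norm_eps_div hε ht]; linarith)))

/-- The sign of the branch `vbr` on the circle. -/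
theorem vbr_sign {ε : ℝ} (hε : 0 < ε) (hε1 : ε < 1 / 8) {t : ℂ} (ht : ‖t‖ = 1 / 2)
    (hre : 0 < t.re) : (0 < t.im → 0 < (vbr ε t / (t * (t - ε))).re) ∧
      (t.im < 0 → (vbr ε t / (t * (t - ε))).re < 0) := by
  have ht0 : t ≠ 0 := by rintro rfl; norm_num at ht
  obtain ⟨-, a2, a3⟩ := sqrt_facts (re_one_sub (t := t) (by rw [ht]; norm_num))
  obtain ⟨b1, b2, b3⟩ := sqrt_facts (re_one_sub (t := ε / t) (by rw [norm_eps_div hε ht]; linarith))
  unfold vbr
  set a := (1 - t) ^ (1 / 2 : ℂ)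
  set b := (1 - ε / t : ℂ) ^ (1 / 2 : ℂ)
  have ha : 0 < a.re := (abs_nonneg _).trans_lt a2
  have hb : 0 < b.re := (abs_nonneg _).trans_lt b2
  have hb0 : b ≠ 0 := by rintro h; rw [h] at hb; simp at hb
  have e : t - ε = t * b ^ 2 := by rw [b1]; field_simp
  have e2 : Complex.I * t * a * b / (t * (t - ε)) = Complex.I * a / (t * b) := by
    rw [e]; field_simp
  have hn : 0 < Complex.normSq (t * b) := Complex.normSq_pos.2 (mul_ne_zero ht0 hb0)
  have hnt : 0 < Complex.normSq t := Complex.normSq_pos.2 ht0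
  have e3 : (Complex.I * a / (t * b)).re = (t.re * (a.re * b.im - a.im * b.re) +
      t.im * (a.re * b.re + a.im * b.im)) / Complex.normSq (t * b) := by
    rw [Complex.div_re, ← add_div]
    congr 1
    simp only [Complex.mul_re, Complex.mul_im, Complex.I_re, Complex.I_im]
    ring
  have e4 : 0 < a.re * b.re + a.im * b.im := by
    have : |a.im * b.im| < a.re * b.re := by
      rw [abs_mul]; exact mul_lt_mul'' a2 b2 (abs_nonneg _) (abs_nonneg _)
    linarith [neg_abs_le (a.im * b.im)]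
  have e5 : (1 - t).im = -t.im := by simp
  have e6 : (1 - ε / t : ℂ).im = ε * t.im / Complex.normSq t := by
    simp [Complex.div_im]
  rw [e5] at a3
  rw [e6] at b3
  rw [e2, e3]
  refine ⟨fun h => div_pos ?_ hn, fun h => div_neg_of_neg_of_pos ?_ hn⟩
  · have h1 : a.im < 0 := by by_contra h'; push Not at h'; nlinarith [mul_nonneg ha.le h']
    have h2 : 0 < b.im := by
      by_contra h'; push Not at h'
      have : 0 < ε * t.im / Complex.normSq t := by positivity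
      nlinarith [mul_nonneg hb.le (neg_nonneg.2 h')]
    have h3 : 0 < a.re * b.im - a.im * b.re := by nlinarith [mul_pos ha h2, mul_pos (neg_pos.2 h1) hb]
    nlinarith [mul_pos hre h3, mul_pos h e4]
  · have h1 : 0 < a.im := by
      by_contra h'; push Not at h'; nlinarith [mul_nonneg ha.le (neg_nonneg.2 h')]
    have h2 : b.im < 0 := by
      by_contra h'; push Not at h'
      have : ε * t.im / Complex.normSq t < 0 :=
        div_neg_of_neg_of_pos (mul_neg_of_pos_of_neg hε h) hnt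
      nlinarith [mul_nonneg hb.le h']
    have h3 : 0 < a.im * b.re - a.re * b.im := by nlinarith [mul_pos h1 hb, mul_pos ha (neg_pos.2 h2)]
    nlinarith [mul_pos hre h3, mul_pos (neg_pos.2 h) e4]

theorem tau_left {ε : ℝ} (hε : 0 < ε) {t : ℂ} (h : t.re ≤ 0) : 1 ≤ ‖1 - ε / t‖ := by
  refine le_trans ?_ (Complex.re_le_norm _)
  have h1 : ((ε : ℂ) / t).re = ε * t.re / Complex.normSq t := by simp [Complex.div_re]
  have h2 : ε * t.re / Complex.normSq t ≤ 0 :=
    div_nonpos_of_nonpos_of_nonneg (mul_nonpos_of_nonneg_of_nonpos hε.le h) (Complex.normSq_nonneg _)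
  rw [Complex.sub_re, Complex.one_re, h1]; linarith

theorem tau_right {ε : ℝ} (hε : 0 < ε) (hε1 : ε < 1 / 8) {t : ℂ} (ht : ‖t‖ = 1 / 2)
    (hre : 0 < t.re) (him : t.im = 0) : ‖1 - ε / t‖ ≤ 1 - 2 * ε / 3 := by
  have e : t = (t.re : ℂ) := by apply Complex.ext <;> simp [him]
  have h1 : t.re = 1 / 2 := by
    rw [e, Complex.norm_real, Real.norm_eq_abs, abs_of_pos hre] at ht; exact ht
  have e2 : (1 - ε / t : ℂ) = ((1 - 2 * ε : ℝ) : ℂ) := by
    rw [e, h1]; push_cast; ring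
  rw [e2, Complex.norm_real, Real.norm_eq_abs, abs_of_pos (by linarith)]
  linarith

section
variable {E : Type} [NormedAddCommGroup E]

/-- The map from the curve. -/
def Fm (g : ℝ → E) (ε : ℝ) (x : ℂ × ℂ) : E :=
  if 0 < (x.2 / (x.1 * (x.1 - ε))).re then g (cl (uu ε x.1)) else g 0

omit [NormedAddCommGroup E] in
theorem Fm_mem {Y : Set E} {g : ℝ → E} (hg : MapsTo g (Icc 0 1) Y) (ε : ℝ) (x : ℂ × ℂ) :
    Fm g ε x ∈ Y := by
  unfold Fm
  split_ifs
  · exact hg (cl_mem _)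
  · exact hg (by simp)

omit [NormedAddCommGroup E] in
theorem g_out {g : ℝ → E} (hg : g 0 = g 1) {ε : ℝ} (hε : 0 < ε) {t : ℂ}
    (h : ‖1 - ε / t‖ ≤ 1 - 2 * ε / 3 ∨ 1 - ε / 3 ≤ ‖1 - ε / t‖) : g (cl (uu ε t)) = g 0 := by
  rcases h with h | h
  · rw [cl_of_le (uu_le hε h)]
  · rw [cl_of_ge (uu_ge hε h), hg]

omit [NormedAddCommGroup E] in
theorem Fm_out {g : ℝ → E} (hg : g 0 = g 1) {ε : ℝ} (hε : 0 < ε) {t : ℂ}
    (h : ‖1 - ε / t‖ ≤ 1 - 2 * ε / 3 ∨ 1 - ε / 3 ≤ ‖1 - ε / t‖) (v : ℂ) : Fm g ε (t, v) = g 0 := by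
  unfold Fm
  split_ifs
  · exact g_out hg hε h
  · rfl

theorem continuous_gcl {g : ℝ → E} (hg : ContinuousOn g (Icc 0 1)) :
    Continuous fun x => g (cl x) := hg.comp_continuous continuous_cl cl_mem

theorem continuousAt_Fm {g : ℝ → E} (hc : ContinuousOn g (Icc 0 1)) (hg : g 0 = g 1) {ε : ℝ}
    (hε : 0 < ε) (hε1 : ε < 1) {t v : ℂ} (ht : t ≠ 0) (hv : v ^ 2 = t * (t - 1) * (t - ε)) :
    ContinuousAt (Fm g ε) (t, v) := by
  have hτ : ContinuousAt (fun x : ℂ × ℂ => ‖1 - ε / x.1‖) (t, v) :=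
    ContinuousAt.comp (g := fun t : ℂ => ‖1 - ε / t‖) (f := Prod.fst) (continuousAt_tau ε ht)
      continuousAt_fst
  by_cases h1 : ‖1 - ε / t‖ < 1 - 2 * ε / 3
  · refine continuousAt_const.congr (f := fun _ => g 0) ?_
    filter_upwards [hτ.eventually (gt_mem_nhds h1)] with x hx
    exact (Fm_out hg hε (Or.inl hx.le) x.2).symm
  by_cases h2 : 1 - ε / 3 < ‖1 - ε / t‖
  · refine continuousAt_const.congr (f := fun _ => g 0) ?_
    filter_upwards [hτ.eventually (lt_mem_nhds h2)] with x hx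
    exact (Fm_out hg hε (Or.inr hx.le) x.2).symm
  push Not at h1 h2
  have h3 := sheet ht hv (by linarith) (by linarith) hε1
  have hte : t * (t - ε) ≠ 0 := by
    intro h; rw [h] at h3; simp at h3
  have hs : ContinuousAt (fun x : ℂ × ℂ => (x.2 / (x.1 * (x.1 - ε))).re) (t, v) :=
    Complex.continuous_re.continuousAt.comp (continuousAt_snd.div (by fun_prop) hte)
  rcases lt_or_gt_of_ne h3 with h4 | h4
  · refine continuousAt_const.congr (f := fun _ => g 0) ?_
    filter_upwards [hs.eventually (gt_mem_nhds h4)] with x hx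
    exact (if_neg (not_lt.2 hx.le)).symm
  · have hG : ContinuousAt (fun x : ℂ × ℂ => g (cl (uu ε x.1))) (t, v) :=
      (continuous_gcl hc).continuousAt.comp
        (ContinuousAt.comp (g := uu ε) (f := Prod.fst) (continuousAt_uu ε ht) continuousAt_fst)
    refine hG.congr ?_
    filter_upwards [hs.eventually (lt_mem_nhds h4)] with x hx
    exact (if_pos hx).symm

omit [NormedAddCommGroup E] in
theorem Fm_circle {g : ℝ → E} (hg : g 0 = g 1) {ε : ℝ} (hε : 0 < ε) (hε1 : ε < 1 / 8) {t : ℂ}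
    (ht : ‖t‖ = 1 / 2) : (0 ≤ t.im → Fm g ε (t, vbr ε t) = g (cl (uu ε t))) ∧
      (t.im ≤ 0 → Fm g ε (t, vbr ε t) = g 0) := by
  by_cases hre : t.re ≤ 0
  · have h := Or.inr (a := ‖1 - ε / t‖ ≤ 1 - 2 * ε / 3)
      (show 1 - ε / 3 ≤ ‖1 - ε / t‖ by linarith [tau_left hε hre])
    exact ⟨fun _ => by rw [Fm_out hg hε h, g_out hg hε h], fun _ => Fm_out hg hε h _⟩
  push Not at hre
  by_cases him : t.im = 0
  · have h := Or.inl (b := 1 - ε / 3 ≤ ‖1 - ε / t‖) (tau_right hε hε1 ht hre him)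
    exact ⟨fun _ => by rw [Fm_out hg hε h, g_out hg hε h], fun _ => Fm_out hg hε h _⟩
  obtain ⟨h1, h2⟩ := vbr_sign hε hε1 ht hre
  exact ⟨fun h => if_pos (h1 (lt_of_le_of_ne h (Ne.symm him))),
    fun h => if_neg (not_lt.2 (h2 (lt_of_le_of_ne h him)).le)⟩

end

theorem norm_circ {r : ℝ} (hr : 0 ≤ r) (s : ℝ) : ‖circ r s‖ = r := by
  have : (2 * Real.pi * Complex.I * s : ℂ) = ((2 * Real.pi * s : ℝ) : ℂ) * Complex.I := by
    push_cast; ring
  rw [circ, norm_mul, this, Complex.norm_exp_ofReal_mul_I, Complex.norm_real, Real.norm_eq_abs,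
    abs_of_nonneg hr, mul_one]

theorem circ_im (r s : ℝ) : (circ r s).im = r * Real.sin (2 * Real.pi * s) := by
  have : (2 * Real.pi * Complex.I * s : ℂ) = ((2 * Real.pi * s : ℝ) : ℂ) * Complex.I := by
    push_cast; ring
  rw [circ, this, Complex.im_ofReal_mul, Complex.exp_ofReal_mul_I_im]

theorem circ_re (r s : ℝ) : (circ r s).re = r * Real.cos (2 * Real.pi * s) := by
  have : (2 * Real.pi * Complex.I * s : ℂ) = ((2 * Real.pi * s : ℝ) : ℂ) * Complex.I := by
    push_cast; ring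
  rw [circ, this, Complex.re_ofReal_mul, Complex.exp_ofReal_mul_I_re]

theorem continuous_circ (r : ℝ) : Continuous (circ r) := by unfold circ; fun_prop

theorem circ_one (r : ℝ) : circ r 1 = circ r 0 := by
  simp [circ, Complex.exp_two_pi_mul_I]

/-- The parameter of the model loop. -/
def ph (ε s : ℝ) : ℝ := uu ε (circ (1 / 2) (min s (1 / 2)))

theorem continuous_ph (ε : ℝ) : Continuous (ph ε) := by
  refine continuous_iff_continuousAt.2 fun s => ?_
  refine ContinuousAt.comp (g := uu ε) (f := fun s => circ (1 / 2) (min s (1 / 2)))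
    (continuousAt_uu ε fun h => ?_) ((continuous_circ _).comp (by fun_prop)).continuousAt
  have := norm_circ (r := 1 / 2) (by norm_num) (min s (1 / 2))
  rw [h] at this; norm_num at this

theorem ph_zero {ε : ℝ} (hε : 0 < ε) (hε1 : ε < 1 / 8) : ph ε 0 ≤ 0 := by
  refine uu_le hε (tau_right hε hε1 (norm_circ (by norm_num) _) ?_ ?_)
  · rw [circ_re]; norm_num
  · rw [circ_im]; norm_num

theorem ph_ge {ε : ℝ} (hε : 0 < ε) {s : ℝ} (hs : 1 / 2 ≤ s) : 1 ≤ ph ε s := by
  unfold ph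
  rw [min_eq_right hs]
  refine uu_ge hε (le_trans (by linarith) (tau_left hε ?_))
  rw [circ_re, show 2 * Real.pi * (1 / 2) = Real.pi by ring, Real.cos_pi]; norm_num

theorem Fm_loop {E : Type} {g : ℝ → E} (hg : g 0 = g 1) {ε : ℝ}
    (hε : 0 < ε) (hε1 : ε < 1 / 8) {s : ℝ} (hs : s ∈ Icc (0 : ℝ) 1) :
    Fm g ε (circ (1 / 2) s, vbr ε (circ (1 / 2) s)) = g (cl (ph ε s)) := by
  obtain ⟨h1, h2⟩ := Fm_circle hg hε hε1 (norm_circ (r := 1 / 2) (by norm_num) s)
  have hπ := Real.pi_pos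
  rcases le_total s (1 / 2) with h | h
  · rw [ph, min_eq_left h]
    refine h1 ?_
    rw [circ_im]
    exact mul_nonneg (by norm_num) (Real.sin_nonneg_of_nonneg_of_le_pi
      (by nlinarith [hs.1]) (by nlinarith))
  · rw [cl_of_ge (ph_ge hε h), ← hg]
    refine h2 ?_
    rw [circ_im, ← Real.sin_sub_two_pi]
    exact mul_nonpos_of_nonneg_of_nonpos (by norm_num)
      (Real.sin_nonpos_of_nonpos_of_neg_pi_le (by nlinarith [hs.2]) (by nlinarith))

/-- Near the branch points and infinity the collar is not met. -/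
theorem out_near {ε : ℝ} (hε : 0 < ε) (hε1 : ε < 1 / 8) {p : ℂ} (hp : p = 0 ∨ p = 1 ∨ p = ε) :
    ∀ᶠ t : ℂ in 𝓝[≠] p, ‖1 - ε / t‖ ≤ 1 - 2 * ε / 3 ∨ 1 - ε / 3 ≤ ‖1 - ε / t‖ := by
  have hε0 : (ε : ℂ) ≠ 0 := by exact_mod_cast hε.ne'
  rcases hp with rfl | rfl | rfl
  · filter_upwards [nhdsWithin_le_nhds (ball_mem_nhds (0 : ℂ) (half_pos hε)),
      self_mem_nhdsWithin] with t h1 h2
    right
    have h3 : 0 < ‖t‖ := norm_pos_iff.2 h2
    have h4 : 2 ≤ ‖(ε : ℂ) / t‖ := by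
      rw [norm_div, Complex.norm_real, Real.norm_eq_abs, abs_of_pos hε, le_div_iff₀ h3]
      rw [mem_ball_zero_iff] at h1; linarith
    have h5 := norm_sub_norm_le ((ε : ℂ) / t) 1
    rw [norm_sub_rev, norm_one] at h5
    linarith
  · refine nhdsWithin_le_nhds (((continuousAt_tau ε one_ne_zero).eventually
      (gt_mem_nhds (a := 1 - 2 * ε / 3) ?_)).mono fun t ht => Or.inl ht.le)
    have : (1 - ε / 1 : ℂ) = ((1 - ε : ℝ) : ℂ) := by push_cast; ring
    simp only [this]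
    rw [Complex.norm_real, Real.norm_eq_abs, abs_of_pos (by linarith)]; linarith
  · refine nhdsWithin_le_nhds (((continuousAt_tau ε hε0).eventually
      (gt_mem_nhds (a := 1 - 2 * ε / 3) ?_)).mono fun t ht => Or.inl ht.le)
    simp only [div_self hε0, sub_self, norm_zero]; linarith

theorem out_inf {ε : ℝ} (hε : 0 < ε) : ∀ᶠ z : ℂ in 𝓝 0, 1 - ε / 3 ≤ ‖1 - ε / z⁻¹‖ := by
  have h : ContinuousAt (fun z : ℂ => ‖1 - ε * z‖) 0 := by fun_prop
  filter_upwards [h.eventually (lt_mem_nhds (a := 1 - ε / 3) (by simp; linarith))] with z hz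
  rw [div_inv_eq_mul]; exact hz.le

end Ell

end

end Pool.Agent.P.MP_daea48_ag
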