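import Pool.Agent.P.MP_daea48_ag.StA

/-! Path calculus, part 1. -/

open Set Filter Topology Metric

namespace Pool.Agent.P.MP_daea48_ag

noncomputable section

open Classical

namespace FC1

theorem cont_ite {X Z : Type} [TopologicalSpace X] [TopologicalSpace Z] {S : Set X} {g : X → ℝ}
    (hg : Continuous g) (c : ℝ) {f₁ f₂ : X → Z} (h1 : ContinuousOn f₁ (S ∩ {x | g x ≤ c}))
    (h2 : ContinuousOn f₂ (S ∩ {x | c ≤ g x})) (he : ∀ x ∈ S, g x = c → f₁ x = f₂ x) :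
    ContinuousOn (fun x => if g x ≤ c then f₁ x else f₂ x) S := by
  refine ContinuousOn.if (fun a ha => he a ha.1 (frontier_le_subset_eq hg continuous_const ha.2))
    ?_ (h2.mono (inter_subset_inter_right _ ?_))
  · rwa [closure_le_eq hg continuous_const]
  · simp only [not_le]
    exact closure_lt_subset_le continuous_const hg

theorem mem_cb {p : ℝ × ℝ} : p ∈ closedBall (0 : ℝ × ℝ) 1 ↔
    (-1 ≤ p.1 ∧ p.1 ≤ 1) ∧ (-1 ≤ p.2 ∧ p.2 ≤ 1) := by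
  rw [mem_closedBall_zero_iff, Prod.norm_def, max_le_iff, Real.norm_eq_abs, Real.norm_eq_abs,
    abs_le, abs_le]

theorem mem_b {p : ℝ × ℝ} : p ∈ ball (0 : ℝ × ℝ) 1 ↔
    (-1 < p.1 ∧ p.1 < 1) ∧ (-1 < p.2 ∧ p.2 < 1) := by
  rw [mem_ball_zero_iff, Prod.norm_def, max_lt_iff, Real.norm_eq_abs, Real.norm_eq_abs,
    abs_lt, abs_lt]

theorem mem_bd {p : ℝ × ℝ} : p ∈ bd ↔ ((-1 ≤ p.1 ∧ p.1 ≤ 1) ∧ (-1 ≤ p.2 ∧ p.2 ≤ 1)) ∧
    (p.1 = -1 ∨ p.1 = 1 ∨ p.2 = -1 ∨ p.2 = 1) := by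
  rw [bd, ← closedBall_sdiff_ball, Set.mem_sdiff, mem_cb, mem_b]
  refine and_congr_right fun ⟨⟨a, b⟩, c, d⟩ => ⟨fun h => ?_, fun h ⟨⟨a', b'⟩, c', d'⟩ => ?_⟩
  · by_contra hh
    push Not at hh
    exact h ⟨⟨lt_of_le_of_ne a hh.1.symm, lt_of_le_of_ne b hh.2.1⟩,
      lt_of_le_of_ne c hh.2.2.1.symm, lt_of_le_of_ne d hh.2.2.2⟩
  · rcases h with h | h | h | h <;> linarith

theorem mem_hole {c : ℝ × ℝ} {a b : ℝ} (ha : 0 < a) (hb : 0 < b) {q : ℝ × ℝ} :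
    q ∈ raff c a b '' ball 0 1 ↔
      (c.1 - a < q.1 ∧ q.1 < c.1 + a) ∧ (c.2 - b < q.2 ∧ q.2 < c.2 + b) := by
  constructor
  · rintro ⟨p, hp, rfl⟩
    obtain ⟨⟨h1, h2⟩, h3, h4⟩ := mem_b.1 hp
    simp only [raff]
    refine ⟨⟨?_, ?_⟩, ?_, ?_⟩ <;> nlinarith
  · rintro ⟨⟨h1, h2⟩, h3, h4⟩
    refine ⟨((q.1 - c.1) / a, (q.2 - c.2) / b), mem_b.2 ⟨⟨?_, ?_⟩, ?_, ?_⟩, ?_⟩
    · rw [lt_div_iff₀ ha]; linarith
    · rw [div_lt_iff₀ ha]; linarith
    · rw [lt_div_iff₀ hb]; linarith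
    · rw [div_lt_iff₀ hb]; linarith
    · simp only [raff]
      ext
      · field_simp; ring
      · field_simp; ring

theorem hole_sub {c : ℝ × ℝ} {a b : ℝ} (ha : 0 < a) (hb : 0 < b) (h1 : -1 ≤ c.1 - a)
    (h2 : c.1 + a ≤ 1) (h3 : -1 ≤ c.2 - b) (h4 : c.2 + b ≤ 1) :
    0 < a ∧ 0 < b ∧ raff c a b '' closedBall 0 1 ⊆ closedBall 0 1 := by
  refine ⟨ha, hb, ?_⟩
  rintro _ ⟨p, hp, rfl⟩
  obtain ⟨⟨a1, a2⟩, a3, a4⟩ := mem_cb.1 hp
  rw [mem_cb]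
  simp only [raff]
  refine ⟨⟨?_, ?_⟩, ?_, ?_⟩ <;> nlinarith

theorem nrm_mem {q : ℝ × ℝ} (h : q ≠ 0) : ‖q‖⁻¹ • q ∈ bd := by
  rw [bd, mem_sphere_zero_iff_norm, norm_smul, norm_inv, norm_norm,
    inv_mul_cancel₀ (norm_ne_zero_iff.2 h)]

theorem nrm_bd {q : ℝ × ℝ} (h : q ∈ bd) : ‖q‖⁻¹ • q = q := by
  rw [mem_sphere_zero_iff_norm.1 h, inv_one, one_smul]

variable {E : Type} [NormedAddCommGroup E] {Y : Set E} {𝓕 : (ℝ × ℝ → E) → Prop}

omit [NormedAddCommGroup E] in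
theorem cat_le (α β : ℝ → E) {t : ℝ} (h : t ≤ 1 / 2) : cat α β t = α (2 * t) := if_pos h

omit [NormedAddCommGroup E] in
theorem cat_ge {α β : ℝ → E} (e : α 1 = β 0) {t : ℝ} (h : 1 / 2 ≤ t) :
    cat α β t = β (2 * t - 1) := by
  rcases h.eq_or_lt with rfl | h
  · rw [cat_le _ _ le_rfl]; norm_num; exact e
  · exact if_neg (not_le.2 h)

omit [NormedAddCommGroup E] in
theorem cat_zero (α β : ℝ → E) : cat α β 0 = α 0 := by
  rw [cat_le _ _ (by norm_num), mul_zero]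

omit [NormedAddCommGroup E] in
theorem cat_one (α β : ℝ → E) : cat α β 1 = β 1 := by
  rw [cat, if_neg (by norm_num)]; norm_num

theorem cat_path {α β : ℝ → E} (ha : PathIn Y α) (hb : PathIn Y β) (e : α 1 = β 0) :
    PathIn Y (cat α β) := by
  refine ⟨cont_ite continuous_id (1 / 2) (ha.1.comp (by fun_prop) ?_) (hb.1.comp (by fun_prop) ?_)
    ?_, fun t ht => ?_⟩
  · rintro t ⟨⟨h1, h2⟩, h3 : t ≤ 1 / 2⟩
    constructor <;> linarith
  · rintro t ⟨⟨h1, h2⟩, h3 : 1 / 2 ≤ t⟩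
    constructor <;> linarith
  · rintro t - (rfl : t = 1 / 2)
    norm_num; exact e
  · obtain ⟨h1, h2⟩ := ht
    rcases le_total t (1 / 2) with h | h
    · rw [cat_le _ _ h]; exact ha.2 ⟨by linarith, by linarith⟩
    · rw [cat_ge e h]; exact hb.2 ⟨by linarith, by linarith⟩

theorem hx {p : ℝ × ℝ} (hp : p ∈ closedBall (0 : ℝ × ℝ) 1) : (p.1 + 1) / 2 ∈ Icc (0 : ℝ) 1 := by
  obtain ⟨⟨h1, h2⟩, -⟩ := mem_cb.1 hp
  constructor <;> linarith

theorem path_cont {α : ℝ → E} (ha : PathIn Y α) {S : Set (ℝ × ℝ)} (hS : S ⊆ closedBall 0 1) :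
    ContinuousOn (fun p : ℝ × ℝ => α ((p.1 + 1) / 2)) S :=
  ha.1.comp (by fun_prop) fun _ hp => hx (hS hp)

/-- two holes -/
theorem glue2 (h : FillSys Y 𝓕) (c c' : ℝ × ℝ) {a b : ℝ} (H : ℝ × ℝ → E)
    (h1 : 0 < a ∧ 0 < b ∧ raff c a b '' closedBall 0 1 ⊆ closedBall 0 1)
    (h2 : 0 < a ∧ 0 < b ∧ raff c' a b '' closedBall 0 1 ⊆ closedBall 0 1)
    (hd : Disjoint (raff c a b '' ball 0 1) (raff c' a b '' ball 0 1))
    (hc : ContinuousOn H {p ∈ closedBall 0 1 | p ∉ raff c a b '' ball 0 1 ∧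
      p ∉ raff c' a b '' ball 0 1}) (hm : MapsTo H (closedBall 0 1) Y)
    (f1 : 𝓕 fun p => H (raff c a b p)) (f2 : 𝓕 fun p => H (raff c' a b p)) : 𝓕 H := by
  refine h.glue 2 ![c, c'] (fun _ => a) (fun _ => b) H (Fin.forall_fin_two.2 ⟨h1, h2⟩) ?_
    (hc.mono fun p hp => ⟨hp.1, fun h => hp.2 (mem_iUnion.2 ⟨0, h⟩),
      fun h => hp.2 (mem_iUnion.2 ⟨1, h⟩)⟩) (hm.mono_left sdiff_subset)
    (Fin.forall_fin_two.2 ⟨f1, f2⟩)
  intro i j hij
  fin_cases i <;> fin_cases j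
  · exact (hij rfl).elim
  · exact hd
  · exact hd.symm
  · exact (hij rfl).elim

theorem homot (h : FillSys Y 𝓕) (Φ : ℝ × (ℝ × ℝ) → E) (hc : ContinuousOn Φ (Icc 0 1 ×ˢ bd))
    (hm : MapsTo Φ (Icc 0 1 ×ˢ bd) Y) (h0 : 𝓕 fun p => Φ (0, p)) : 𝓕 fun p => Φ (1, p) := by
  have key : ∀ q ∈ closedBall (0 : ℝ × ℝ) 1 \ ⋃ _ : Fin 1, raff 0 (1 / 2) (1 / 2) '' ball 0 1,
      q ≠ 0 ∧ (2 * ‖q‖ - 1, ‖q‖⁻¹ • q) ∈ Icc (0 : ℝ) 1 ×ˢ bd := by
    rintro q ⟨h1, h2⟩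
    have h3 : 1 / 2 ≤ ‖q‖ := by
      by_contra h3
      rw [not_le, Prod.norm_def, max_lt_iff, Real.norm_eq_abs, Real.norm_eq_abs, abs_lt,
        abs_lt] at h3
      refine h2 (mem_iUnion.2 ⟨0, (mem_hole (by norm_num) (by norm_num)).2 ?_⟩)
      simpa only [Prod.fst_zero, Prod.snd_zero, zero_sub, zero_add] using h3
    have h4 : q ≠ 0 := by
      rintro rfl
      norm_num at h3
    rw [mem_closedBall_zero_iff] at h1
    exact ⟨h4, ⟨by linarith, by linarith⟩, nrm_mem h4⟩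
  refine h.congr (fun q => Φ (2 * ‖q‖ - 1, ‖q‖⁻¹ • q)) _ (fun p hp => ?_) ?_
  · show Φ _ = Φ _
    rw [nrm_bd hp, mem_sphere_zero_iff_norm.1 hp]
    norm_num
  refine h.glue 1 (fun _ => 0) (fun _ => 1 / 2) (fun _ => 1 / 2) _
    (fun _ => hole_sub (by norm_num) (by norm_num) (by norm_num) (by norm_num) (by norm_num)
      (by norm_num)) (fun i j hij => (hij (Subsingleton.elim _ _)).elim)
    (hc.comp (ContinuousOn.prodMk (by fun_prop) ((continuous_norm.continuousOn.inv₀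
      fun q hq => norm_ne_zero_iff.2 (key q hq).1).smul continuousOn_id)) fun q hq => (key q hq).2)
    (fun q hq => hm (key q hq).2) fun _ => h.congr _ _ (fun p hp => ?_) h0
  have e : raff 0 (1 / 2) (1 / 2) p = (1 / 2 : ℝ) • p := by
    ext <;> simp [raff]
  show Φ _ = Φ _
  rw [e, norm_smul, mem_sphere_zero_iff_norm.1 hp, smul_smul]
  norm_num

theorem rel_of_hom (h : FillSys Y 𝓕) {α β : ℝ → E} (hH : Hom Y α β) : Rel Y 𝓕 α β := by
  obtain ⟨H, hc, hm, h1, h2⟩ := hH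
  have i0 : (0 : ℝ) ∈ Icc (0 : ℝ) 1 := left_mem_Icc.2 zero_le_one
  have i1 : (1 : ℝ) ∈ Icc (0 : ℝ) 1 := right_mem_Icc.2 zero_le_one
  have pa : ∀ μ ∈ Icc (0 : ℝ) 1, ∀ γ : ℝ → E, (∀ t ∈ Icc (0 : ℝ) 1, H (μ, t) = γ t) →
      PathIn Y γ := fun μ hμ γ e =>
    ⟨(hc.comp (by fun_prop : ContinuousOn (fun t : ℝ => (μ, t)) _) fun t ht => ⟨hμ, ht⟩).congr
      fun t ht => (e t ht).symm, fun t ht => e t ht ▸ hm ⟨hμ, ht⟩⟩
  have e0 : α 0 = β 0 := (h2 1 i1).1.symm.trans (h1 0 i0).2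
  have e1 : α 1 = β 1 := (h2 1 i1).2.symm.trans (h1 1 i1).2
  refine ⟨pa 0 i0 α fun t ht => (h1 t ht).1, pa 1 i1 β fun t ht => (h1 t ht).2, e0, e1, ?_⟩
  have key : ∀ p ∈ closedBall (0 : ℝ × ℝ) 1,
      ((p.2 + 1) / 2, (p.1 + 1) / 2) ∈ Icc (0 : ℝ) 1 ×ˢ Icc (0 : ℝ) 1 := fun p hp => by
    obtain ⟨⟨a1, a2⟩, a3, a4⟩ := mem_cb.1 hp
    exact ⟨⟨by linarith, by linarith⟩, hx hp⟩
  refine h.congr (fun p => H ((p.2 + 1) / 2, (p.1 + 1) / 2)) _ (fun p hp => ?_)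
    (h.glue 0 Fin.elim0 Fin.elim0 Fin.elim0 _ (fun j => j.elim0) (fun j => j.elim0)
      (hc.comp (by fun_prop) fun p hp => key p hp.1) (fun p hp => hm (key p hp.1))
      fun j => j.elim0)
  obtain ⟨k1, k2⟩ := key p (sphere_subset_closedBall hp)
  simp only [two]
  rcases (mem_bd.1 hp).2 with e | e | e | e
  · rw [e] at *
    norm_num
    rw [(h2 _ k1).1, ← e0, ite_self]
  · rw [e] at *
    norm_num
    rw [(h2 _ k1).2, ← e1, ite_self]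
  · rw [e]
    norm_num
    exact (h1 _ k2).1
  · rw [e]
    norm_num
    exact (h1 _ k2).2

theorem rel_trans (h : FillSys Y 𝓕) {α β γ : ℝ → E} (h1 : Rel Y 𝓕 α β) (h2 : Rel Y 𝓕 β γ) :
    Rel Y 𝓕 α γ := by
  obtain ⟨pa, pb, a0, a1, f1⟩ := h1
  obtain ⟨-, pc, b0, b1, f2⟩ := h2
  refine ⟨pa, pc, a0.trans b0, a1.trans b1, ?_⟩
  have s1 : ∀ x : ℝ, x = -1 ∨ x = 1 → α ((x + 1) / 2) = β ((x + 1) / 2) ∧
      β ((x + 1) / 2) = γ ((x + 1) / 2) := by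
    rintro x (rfl | rfl) <;> norm_num
    exacts [⟨a0, b0⟩, ⟨a1, b1⟩]
  have s2 : ∀ (p : ℝ × ℝ) (y : ℝ), p ∈ closedBall (0 : ℝ × ℝ) 1 →
      p ∉ raff (0, y) 1 (1 / 2) '' ball 0 1 → p.2 = y → p.1 = -1 ∨ p.1 = 1 := by
    intro p y hp hn e
    obtain ⟨⟨a1, a2⟩, -⟩ := mem_cb.1 hp
    by_contra hh
    push Not at hh
    refine hn ((mem_hole one_pos (by norm_num)).2 ⟨⟨?_, ?_⟩, ?_, ?_⟩)
    · simpa using lt_of_le_of_ne a1 hh.1.symm
    · simpa using lt_of_le_of_ne a2 hh.2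
    · simp [e]
    · simp [e]
  refine h.congr (fun p => if p.2 ≤ -1 / 2 then α ((p.1 + 1) / 2) else
    if p.2 ≤ 1 / 2 then β ((p.1 + 1) / 2) else γ ((p.1 + 1) / 2)) _ (fun p hp => ?_) ?_
  · simp only [two]
    have e : p.1 = -1 ∨ p.1 = 1 ∨ p.2 = -1 ∨ p.2 = 1 := (mem_bd.1 hp).2
    rw [← or_assoc] at e
    rcases e with e | e | e
    · rw [← (s1 _ e).2, ← (s1 _ e).1]
      simp only [ite_self]
    · rw [e]; norm_num
    · rw [e]; norm_num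
  refine glue2 h (0, -1 / 2) (0, 1 / 2) (a := 1) (b := 1 / 2) _
    (hole_sub (by norm_num) (by norm_num) (by norm_num) (by norm_num) (by norm_num) (by norm_num))
    (hole_sub (by norm_num) (by norm_num) (by norm_num) (by norm_num) (by norm_num) (by norm_num))
    ?_ ?_ (fun p hp => ?_) (h.congr _ _ (fun p hp => ?_) f1) (h.congr _ _ (fun p hp => ?_) f2)
  · refine disjoint_left.2 fun p a1 a2 => ?_
    rw [mem_hole one_pos (by norm_num)] at a1 a2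
    have := a1.2.2
    have := a2.2.1
    simp only at *
    linarith
  · refine cont_ite continuous_snd _ (path_cont pa fun p hp => hp.1.1)
      (cont_ite continuous_snd _ (path_cont pb fun p hp => hp.1.1.1)
        (path_cont pc fun p hp => hp.1.1.1) fun p hp e => (s1 _ (s2 p _ hp.1.1 hp.1.2.2 e)).2)
      fun p hp e => ?_
    rw [if_pos (by rw [e]; norm_num)]
    exact (s1 _ (s2 p _ hp.1 hp.2.1 e)).1
  · split_ifs
    exacts [pa.2 (hx hp), pb.2 (hx hp), pc.2 (hx hp)]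
  · obtain ⟨⟨-, a3, a4⟩, -⟩ := mem_bd.1 hp
    simp only [two, raff, zero_add, one_mul]
    by_cases e : p.2 ≤ 0
    · rw [if_pos e, if_pos (by linarith)]
    · rw [if_neg e, if_neg (by linarith), if_pos (by linarith)]
  · obtain ⟨⟨-, a3, a4⟩, -⟩ := mem_bd.1 hp
    simp only [two, raff, zero_add, one_mul]
    by_cases e : p.2 ≤ 0
    · rw [if_pos e, if_neg (by linarith), if_pos (by linarith)]
    · rw [if_neg e, if_neg (by linarith), if_neg (by linarith)]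

theorem rel_cat (h : FillSys Y 𝓕) {α β α' β' : ℝ → E} (h1 : Rel Y 𝓕 α β) (h2 : Rel Y 𝓕 α' β')
    (e : α 1 = α' 0) : Rel Y 𝓕 (cat α α') (cat β β') := by
  obtain ⟨pa, pb, a0, a1, f1⟩ := h1
  obtain ⟨pa', pb', b0, b1, f2⟩ := h2
  have e' : β 1 = β' 0 := a1.symm.trans (e.trans b0)
  have pc := cat_path pa pa' e
  have pd := cat_path pb pb' e'
  refine ⟨pc, pd, by rw [cat_zero, cat_zero, a0], by rw [cat_one, cat_one, b1], ?_⟩
  refine glue2 h (-1 / 2, 0) (1 / 2, 0) (a := 1 / 2) (b := 1) _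
    (hole_sub (by norm_num) (by norm_num) (by norm_num) (by norm_num) (by norm_num) (by norm_num))
    (hole_sub (by norm_num) (by norm_num) (by norm_num) (by norm_num) (by norm_num) (by norm_num))
    ?_ ?_ (fun p hp => ?_) (h.congr _ _ (fun p hp => ?_) f1) (h.congr _ _ (fun p hp => ?_) f2)
  · refine disjoint_left.2 fun p a1 a2 => ?_
    rw [mem_hole (by norm_num) one_pos] at a1 a2
    have := a1.1.2
    have := a2.1.1
    simp only at *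
    linarith
  · refine cont_ite continuous_snd _ (path_cont pc fun p hp => hp.1.1)
      (path_cont pd fun p hp => hp.1.1) fun p hp e0 => ?_
    obtain ⟨hp, n1, n2⟩ := hp
    obtain ⟨⟨c1, c2⟩, -⟩ := mem_cb.1 hp
    rw [mem_hole (by norm_num) one_pos, e0] at n1 n2
    have : p.1 = -1 ∨ p.1 = 0 ∨ p.1 = 1 := by
      by_contra hh
      push Not at hh
      rcases lt_or_gt_of_ne hh.2.1 with g | g
      · exact n1 ⟨⟨by have := lt_of_le_of_ne c1 hh.1.symm; simp only; linarith,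
          by simp only; linarith⟩, by norm_num⟩
      · exact n2 ⟨⟨by simp only; linarith,
          by have := lt_of_le_of_ne c2 hh.2.2; simp only; linarith⟩, by norm_num⟩
    rcases this with g | g | g <;> rw [g] <;> norm_num
    · rw [cat_zero, cat_zero, a0]
    · rw [cat_le _ _ (by norm_num), cat_le _ _ (by norm_num)]
      norm_num
      exact a1
    · rw [cat_one, cat_one, b1]
  · simp only [two]
    split_ifs
    exacts [pc.2 (hx hp), pd.2 (hx hp)]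
  · obtain ⟨⟨⟨a3, a4⟩, -⟩, -⟩ := mem_bd.1 hp
    simp only [two, raff, zero_add, one_mul]
    rw [cat_le _ _ (by linarith), cat_le _ _ (by linarith),
      show 2 * ((-1 / 2 + 1 / 2 * p.1 + 1) / 2) = (p.1 + 1) / 2 by ring]
  · obtain ⟨⟨⟨a3, a4⟩, -⟩, -⟩ := mem_bd.1 hp
    simp only [two, raff, zero_add, one_mul]
    rw [cat_ge e (by linarith), cat_ge e' (by linarith),
      show 2 * ((1 / 2 + 1 / 2 * p.1 + 1) / 2) - 1 = (p.1 + 1) / 2 by ring]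

/-- clamp to the interval -/
def cl (x : ℝ) : ℝ := max (-1) (min 1 x)

theorem cl_lo {x : ℝ} (h : x ≤ -1) : cl x = -1 := max_eq_left ((min_le_right _ _).trans h)

theorem cl_hi {x : ℝ} (h : 1 ≤ x) : cl x = 1 := by
  rw [cl, min_eq_left h]; norm_num

theorem cl_mid {x : ℝ} (h : -1 ≤ x) (h' : x ≤ 1) : cl x = x := by
  rw [cl, min_eq_right h', max_eq_right h]

/-- the self-map of the boundary of the square -/
def kk (p : ℝ × ℝ) : ℝ × ℝ := (cl (2 * p.1 - p.2), cl (2 * p.1 + p.2))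

theorem kk_cont : Continuous kk := by
  unfold kk cl
  fun_prop

theorem kk_val {p : ℝ × ℝ} (hp : p ∈ bd) :
    (p.2 = -1 ∧ p.1 ≤ 0 ∧ kk p = (2 * p.1 + 1, -1)) ∨ (p.2 = -1 ∧ 0 ≤ p.1 ∧ kk p = (1, 2 * p.1 - 1)) ∨
    (p.2 = 1 ∧ p.1 ≤ 0 ∧ kk p = (-1, 2 * p.1 + 1)) ∨ (p.2 = 1 ∧ 0 ≤ p.1 ∧ kk p = (2 * p.1 - 1, 1)) ∨
    (p.1 = -1 ∧ kk p = (-1, -1)) ∨ (p.1 = 1 ∧ kk p = (1, 1)) := by
  obtain ⟨⟨⟨a1, a2⟩, a3, a4⟩, e | e | e | e⟩ := mem_bd.1 hp
  · refine .inr (.inr (.inr (.inr (.inl ⟨e, ?_⟩))))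
    rw [kk, cl_lo (by linarith), cl_lo (by linarith)]
  · refine .inr (.inr (.inr (.inr (.inr ⟨e, ?_⟩))))
    rw [kk, cl_hi (by linarith), cl_hi (by linarith)]
  · rcases le_total p.1 0 with g | g
    · refine .inl ⟨e, g, ?_⟩
      rw [kk, cl_mid (by linarith) (by linarith), cl_lo (by linarith), e, sub_neg_eq_add]
    · refine .inr (.inl ⟨e, g, ?_⟩)
      rw [kk, cl_hi (by linarith), cl_mid (by linarith) (by linarith), e, ← sub_eq_add_neg]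
  · rcases le_total p.1 0 with g | g
    · refine .inr (.inr (.inl ⟨e, g, ?_⟩))
      rw [kk, cl_lo (by linarith), cl_mid (by linarith) (by linarith), e]
    · refine .inr (.inr (.inr (.inl ⟨e, g, ?_⟩)))
      rw [kk, cl_mid (by linarith) (by linarith), cl_hi (by linarith), e]

theorem kk_mem {p : ℝ × ℝ} (hp : p ∈ bd) : kk p ∈ bd := by
  obtain ⟨⟨⟨a1, a2⟩, a3, a4⟩, -⟩ := mem_bd.1 hp
  rcases kk_val hp with ⟨-, g, e⟩ | ⟨-, g, e⟩ | ⟨-, g, e⟩ | ⟨-, g, e⟩ | ⟨-, e⟩ | ⟨-, e⟩ <;>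
    rw [e, mem_bd] <;> refine ⟨⟨⟨?_, ?_⟩, ?_, ?_⟩, by simp⟩ <;> simp only <;> linarith

theorem kk_ne {p : ℝ × ℝ} (hp : p ∈ bd) {μ : ℝ} (hμ : μ ∈ Icc (0 : ℝ) 1) :
    (1 - μ) • p + μ • kk p ≠ 0 := by
  intro h
  obtain ⟨m0, m1⟩ := hμ
  have h1 := congrArg Prod.fst h
  have h2 := congrArg Prod.snd h
  rcases kk_val hp with ⟨e', g, e⟩ | ⟨e', g, e⟩ | ⟨e', g, e⟩ | ⟨e', g, e⟩ | ⟨e', e⟩ | ⟨e', e⟩ <;>
    simp only [e, Prod.fst_add, Prod.snd_add, Prod.smul_fst, Prod.smul_snd, smul_eq_mul,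
      Prod.fst_zero, Prod.snd_zero] at h1 h2
  · rw [e'] at h2; linarith
  · have : μ = 0 := by nlinarith
    rw [e', this] at h2; linarith
  · have : μ = 0 := by nlinarith
    rw [e', this] at h2; linarith
  · rw [e'] at h2; linarith
  · rw [e'] at h1; linarith
  · rw [e'] at h1; linarith

theorem fill_kk (h : FillSys Y 𝓕) {F : ℝ × ℝ → E} (hF : BdMap Y F) :
    𝓕 F ↔ 𝓕 fun p => F (kk p) := by
  let N : ℝ × (ℝ × ℝ) → ℝ × ℝ := fun x => (1 - x.1) • x.2 + x.1 • kk x.2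
  have cN : Continuous N := by
    have := kk_cont
    fun_prop
  have n0 : ∀ x ∈ Icc (0 : ℝ) 1 ×ˢ bd, N x ≠ 0 := fun x hx => kk_ne hx.2 hx.1
  have hc : ContinuousOn (fun x => F (‖N x‖⁻¹ • N x)) (Icc 0 1 ×ˢ bd) :=
    hF.1.comp ((cN.norm.continuousOn.inv₀ fun x hx => norm_ne_zero_iff.2 (n0 x hx)).smul
      cN.continuousOn) fun x hx => nrm_mem (n0 x hx)
  have hm : MapsTo (fun x => F (‖N x‖⁻¹ • N x)) (Icc 0 1 ×ˢ bd) Y := fun x hx =>
    hF.2 (nrm_mem (n0 x hx))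
  have e0 : EqOn F (fun p => F (‖N (0, p)‖⁻¹ • N (0, p))) bd := fun p hp => by
    simp only [N, sub_zero, one_smul, zero_smul, add_zero, nrm_bd hp]
  have e1 : EqOn (fun p => F (‖N (1, p)‖⁻¹ • N (1, p))) (fun p => F (kk p)) bd := fun p hp => by
    simp only [N, sub_self, one_smul, zero_smul, zero_add, nrm_bd (kk_mem hp)]
  refine ⟨fun f => h.congr _ _ e1 (homot h _ hc hm (h.congr _ _ e0 f)), fun f => ?_⟩
  have m : MapsTo (fun x : ℝ × (ℝ × ℝ) => (1 - x.1, x.2)) (Icc 0 1 ×ˢ bd) (Icc 0 1 ×ˢ bd) :=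
    fun x hx => ⟨⟨by linarith [hx.1.2], by linarith [hx.1.1]⟩, hx.2⟩
  have := homot h _ (hc.comp (by fun_prop) m) (hm.comp m) (h.congr _ _ (by
    simpa only [Function.comp_apply, sub_zero] using e1.symm) f)
  exact h.congr _ _ (by simpa only [Function.comp_apply, sub_self] using e0.symm) this

theorem fill_iff (h : FillSys Y 𝓕) {F : ℝ × ℝ → E} (hF : BdMap Y F) : 𝓕 F ↔ Rel Y 𝓕
    (cat (fun t => F (2 * t - 1, -1)) (fun t => F (1, 2 * t - 1)))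
    (cat (fun t => F (-1, 2 * t - 1)) (fun t => F (2 * t - 1, 1))) := by
  have pth : ∀ s : ℝ → ℝ × ℝ, Continuous s → (∀ x, -1 ≤ x → x ≤ 1 → s x ∈ bd) →
      PathIn Y fun t => F (s (2 * t - 1)) := fun s hs hb => by
    have : MapsTo (fun t : ℝ => s (2 * t - 1)) (Icc 0 1) bd := fun t ht =>
      hb _ (by linarith [ht.1]) (by linarith [ht.2])
    exact ⟨hF.1.comp (by fun_prop) this, hF.2.comp this⟩
  have p1 := pth (fun x => (x, -1)) (by fun_prop) fun x a b => mem_bd.2 (by simp [a, b])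
  have p2 := pth (fun x => (1, x)) (by fun_prop) fun x a b => mem_bd.2 (by simp [a, b])
  have p3 := pth (fun x => (-1, x)) (by fun_prop) fun x a b => mem_bd.2 (by simp [a, b])
  have p4 := pth (fun x => (x, 1)) (by fun_prop) fun x a b => mem_bd.2 (by simp [a, b])
  have e1 : (fun t : ℝ => F (2 * t - 1, -1)) 1 = (fun t : ℝ => F (1, 2 * t - 1)) 0 := by norm_num
  have e2 : (fun t : ℝ => F (-1, 2 * t - 1)) 1 = (fun t : ℝ => F (2 * t - 1, 1)) 0 := by norm_num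
  have e : EqOn (fun p => F (kk p)) (two
      (cat (fun t => F (2 * t - 1, -1)) (fun t => F (1, 2 * t - 1)))
      (cat (fun t => F (-1, 2 * t - 1)) (fun t => F (2 * t - 1, 1)))) bd := by
    intro p hp
    simp only [two]
    rcases kk_val hp with ⟨e', g, e⟩ | ⟨e', g, e⟩ | ⟨e', g, e⟩ | ⟨e', g, e⟩ | ⟨e', e⟩ | ⟨e', e⟩ <;>
      rw [e]
    · rw [if_pos (by rw [e']; norm_num), cat_le _ _ (by linarith)]
      congr 2; ring
    · rw [if_pos (by rw [e']; norm_num), cat_ge e1 (by linarith)]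
      congr 2; ring
    · rw [if_neg (by rw [e']; norm_num), cat_le _ _ (by linarith)]
      congr 2; ring
    · rw [if_neg (by rw [e']; norm_num), cat_ge e2 (by linarith)]
      congr 2; ring
    · rw [e', show ((-1 : ℝ) + 1) / 2 = 0 by norm_num, cat_zero, cat_zero]
      norm_num
    · rw [e', show ((1 : ℝ) + 1) / 2 = 1 by norm_num, cat_one, cat_one]
      norm_num
  rw [fill_kk h hF]
  refine ⟨fun f => ⟨cat_path p1 p2 e1, cat_path p3 p4 e2, ?_, ?_, h.congr _ _ e f⟩,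
    fun f => h.congr _ _ e.symm f.2.2.2.2⟩
  · rw [cat_zero, cat_zero]; norm_num
  · rw [cat_one, cat_one]; norm_num

end FC1

open FC1 in
theorem FC1_of : S_FC1 := by
  intro E _ _ _ Y
  refine ⟨fun Z _ _ D f a b hD hf hm ha hb ma mb e0 e1 => ?_, fun α β => cat_path,
    fun 𝓕 h => ⟨homot h, fun α β => rel_of_hom h, fun α β γ => rel_trans h,
      fun α β α' β' => rel_cat h, fun F => fill_iff h⟩⟩
  have m : MapsTo (fun x : ℝ × ℝ => (1 - x.1) • a x.2 + x.1 • b x.2) (Icc 0 1 ×ˢ Icc 0 1) D :=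
    fun x hx => hD (ma hx.2) (mb hx.2) (by linarith [hx.1.2]) hx.1.1 (by ring)
  refine ⟨fun x => f ((1 - x.1) • a x.2 + x.1 • b x.2), hf.comp ?_ m, hm.comp m,
    fun t _ => by simp, fun μ _ => ?_⟩
  · exact ((continuous_const.sub continuous_fst).continuousOn.smul
      (ha.comp continuous_snd.continuousOn fun x hx => hx.2)).add
      (continuous_fst.continuousOn.smul (hb.comp continuous_snd.continuousOn fun x hx => hx.2))
  · simp only [← e0, ← e1, ← add_smul, sub_add_cancel, one_smul, and_self]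

end

end Pool.Agent.P.MP_daea48_ag
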