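import Pool.Agent.P.MP_daea48_ag.StA

/-! Path calculus, part 2. -/

open Set Filter Topology Metric

namespace Pool.Agent.P.MP_daea48_ag

noncomputable section

open Classical

namespace FC2

/-- Reversed path. -/
def rev {Z : Type} (α : ℝ → Z) (t : ℝ) : Z := α (1 - t)

section gen
variable {Z W : Type}

theorem cat_zero (α β : ℝ → Z) : cat α β 0 = α 0 := by
  simp [cat]

theorem cat_one (α β : ℝ → Z) : cat α β 1 = β 1 := by
  have : ¬ ((1 : ℝ) ≤ 1 / 2) := by norm_num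
  simp only [cat, if_neg this]; norm_num

theorem rev_zero (α : ℝ → Z) : rev α 0 = α 1 := by simp [rev]

theorem rev_one (α : ℝ → Z) : rev α 1 = α 0 := by simp [rev]

theorem comp_cat (f : Z → W) (a b : ℝ → Z) (t : ℝ) :
    f (cat a b t) = cat (fun s => f (a s)) (fun s => f (b s)) t := by
  unfold cat; split_ifs <;> rfl

theorem cat_congr {α α' β β' : ℝ → Z} (h1 : EqOn α α' (Icc 0 1)) (h2 : EqOn β β' (Icc 0 1)) :
    EqOn (cat α β) (cat α' β') (Icc 0 1) := by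
  intro t ht
  unfold cat
  split_ifs with h
  · exact h1 ⟨by linarith [ht.1], by linarith⟩
  · exact h2 ⟨by linarith [not_le.1 h], by linarith [ht.2]⟩

theorem cat_maps {α β : ℝ → Z} {D : Set Z} (h1 : MapsTo α (Icc 0 1) D)
    (h2 : MapsTo β (Icc 0 1) D) : MapsTo (cat α β) (Icc 0 1) D := by
  intro t ht
  unfold cat
  split_ifs with h
  · exact h1 ⟨by linarith [ht.1], by linarith⟩
  · exact h2 ⟨by linarith [not_le.1 h], by linarith [ht.2]⟩

theorem cat_cont [TopologicalSpace Z] {α β : ℝ → Z} (h1 : ContinuousOn α (Icc 0 1))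
    (h2 : ContinuousOn β (Icc 0 1)) (h : α 1 = β 0) : ContinuousOn (cat α β) (Icc 0 1) := by
  unfold cat
  refine ContinuousOn.if (fun a ha => ?_) ?_ ?_
  · have : a = 1 / 2 := frontier_le_subset_eq continuous_id continuous_const ha.2
    subst this
    norm_num [h]
  · have hc : closure {a : ℝ | a ≤ 1 / 2} = {a : ℝ | a ≤ 1 / 2} :=
      closure_le_eq continuous_id continuous_const
    rw [hc]
    refine h1.comp (by fun_prop) fun t ht => ⟨by linarith [ht.1.1], ?_⟩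
    have : t ≤ 1 / 2 := ht.2
    linarith
  · refine h2.comp (by fun_prop) fun t ht => ⟨?_, by linarith [ht.1.2]⟩
    have h3 : t ∈ closure {a : ℝ | 1 / 2 < a} := by simpa only [not_le] using ht.2
    have : (1 / 2 : ℝ) ≤ t := closure_lt_subset_le continuous_const continuous_id h3
    linarith

theorem rev_maps {α : ℝ → Z} {D : Set Z} (h : MapsTo α (Icc 0 1) D) :
    MapsTo (rev α) (Icc 0 1) D :=
  fun t ht => h ⟨by linarith [ht.2], by linarith [ht.1]⟩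

end gen

theorem bd_of {x y : ℝ} (hx : |x| ≤ 1) (hy : |y| ≤ 1) (h : |x| = 1 ∨ |y| = 1) : (x, y) ∈ bd := by
  rw [bd, mem_sphere_zero_iff_norm, Prod.norm_def, Real.norm_eq_abs, Real.norm_eq_abs]
  rcases h with h | h
  · rw [h]; exact max_eq_left hy
  · rw [h]; exact max_eq_right hx

theorem bd_fst {p : ℝ × ℝ} (hp : p ∈ bd) : (p.1 + 1) / 2 ∈ Icc (0 : ℝ) 1 := by
  rw [bd, mem_sphere_zero_iff_norm, Prod.norm_def, Real.norm_eq_abs] at hp
  have : |p.1| ≤ 1 := hp ▸ le_max_left _ _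
  rw [abs_le] at this
  constructor <;> linarith [this.1, this.2]

theorem abs_aff {t : ℝ} (ht : t ∈ Icc (0 : ℝ) 1) : |2 * t - 1| ≤ 1 := by
  rw [abs_le]; constructor <;> linarith [ht.1, ht.2]

section main
variable {E : Type} [NormedAddCommGroup E] {Y : Set E}
  {𝓕 : (ℝ × ℝ → E) → Prop}

theorem path_rev {α : ℝ → E} (h : PathIn Y α) : PathIn Y (rev α) :=
  ⟨h.1.comp (by fun_prop) fun t ht => ⟨by linarith [ht.2], by linarith [ht.1]⟩, rev_maps h.2⟩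

theorem path_cat {α β : ℝ → E} (h1 : PathIn Y α) (h2 : PathIn Y β) (h : α 1 = β 0) :
    PathIn Y (cat α β) :=
  ⟨cat_cont h1.1 h2.1 h, cat_maps h1.2 h2.2⟩

theorem path_const {x : E} (hx : x ∈ Y) : PathIn Y fun _ => x :=
  ⟨continuousOn_const, fun _ _ => hx⟩

theorem path_congr {α α' : ℝ → E} (h : PathIn Y α) (e : EqOn α α' (Icc 0 1)) : PathIn Y α' :=
  ⟨h.1.congr e.symm, fun _ ht => e ht ▸ h.2 ht⟩

theorem z_mem : (0 : ℝ) ∈ Icc (0 : ℝ) 1 := ⟨le_rfl, zero_le_one⟩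

theorem o_mem : (1 : ℝ) ∈ Icc (0 : ℝ) 1 := ⟨zero_le_one, le_rfl⟩

theorem rel_congr (hF : FillSys Y 𝓕) {α α' β β' : ℝ → E} (h : Rel Y 𝓕 α β)
    (e1 : EqOn α α' (Icc 0 1)) (e2 : EqOn β β' (Icc 0 1)) : Rel Y 𝓕 α' β' := by
  obtain ⟨h1, h2, h3, h4, h5⟩ := h
  refine ⟨path_congr h1 e1, path_congr h2 e2, ?_, ?_, hF.congr _ _ (fun p hp => ?_) h5⟩
  · rw [← e1 z_mem, ← e2 z_mem, h3]
  · rw [← e1 o_mem, ← e2 o_mem, h4]
  · unfold two
    split_ifs
    · exact e1 (bd_fst hp)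
    · exact e2 (bd_fst hp)

theorem ln_iff {α : ℝ → E} (h : Loop Y α) : LN 𝓕 α ↔ Rel Y 𝓕 (fun _ => α 0) α :=
  ⟨fun hl => ⟨path_const (h.1.2 z_mem), h.1, rfl, h.2, hl⟩, fun hr => hr.2.2.2.2⟩

/-- The part of `S_FC1` that is used. -/
structure Ctx (Y : Set E) (𝓕 : (ℝ × ℝ → E) → Prop) : Prop where
  fs : FillSys Y 𝓕
  cvx : ∀ (Z : Type) [NormedAddCommGroup Z] [NormedSpace ℝ Z] (D : Set Z) (f : Z → E)
    (a b : ℝ → Z), Convex ℝ D → ContinuousOn f D → MapsTo f D Y → ContinuousOn a (Icc 0 1) →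
    ContinuousOn b (Icc 0 1) → MapsTo a (Icc 0 1) D → MapsTo b (Icc 0 1) D → a 0 = b 0 →
    a 1 = b 1 → Rel Y 𝓕 (fun t => f (a t)) (fun t => f (b t))
  tr : ∀ {α β γ}, Rel Y 𝓕 α β → Rel Y 𝓕 β γ → Rel Y 𝓕 α γ
  ct : ∀ {α β α' β'}, Rel Y 𝓕 α β → Rel Y 𝓕 α' β' → α 1 = α' 0 →
    Rel Y 𝓕 (cat α α') (cat β β')

namespace Ctx

variable (c : Ctx Y 𝓕)
include c

/-- Reparametrisation. -/
theorem rep {γ : ℝ → E} (hγ : PathIn Y γ) {a b : ℝ → ℝ} (ha : ContinuousOn a (Icc 0 1))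
    (hb : ContinuousOn b (Icc 0 1)) (ha' : MapsTo a (Icc 0 1) (Icc 0 1))
    (hb' : MapsTo b (Icc 0 1) (Icc 0 1)) (h0 : a 0 = b 0) (h1 : a 1 = b 1) {α β : ℝ → E}
    (e1 : ∀ t ∈ Icc (0 : ℝ) 1, γ (a t) = α t) (e2 : ∀ t ∈ Icc (0 : ℝ) 1, γ (b t) = β t) :
    Rel Y 𝓕 α β ∧ Rel Y 𝓕 β α :=
  ⟨rel_congr c.fs (c.cvx ℝ (Icc 0 1) γ a b (convex_Icc 0 1) hγ.1 hγ.2 ha hb ha' hb' h0 h1) e1 e2,
    rel_congr c.fs (c.cvx ℝ (Icc 0 1) γ b a (convex_Icc 0 1) hγ.1 hγ.2 hb ha hb' ha' h0.symm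
      h1.symm) e2 e1⟩

theorem rf {α : ℝ → E} (h : PathIn Y α) : Rel Y 𝓕 α α :=
  (c.rep h continuousOn_id continuousOn_id (mapsTo_id _) (mapsTo_id _) rfl rfl
    (fun _ _ => rfl) (fun _ _ => rfl)).1

theorem unitL {α : ℝ → E} (h : PathIn Y α) {x : E} (hx : α 0 = x) :
    Rel Y 𝓕 (cat (fun _ => x) α) α ∧ Rel Y 𝓕 α (cat (fun _ => x) α) := by
  subst hx
  refine c.rep h (a := cat (fun _ => 0) id) (b := id)
    (cat_cont continuousOn_const continuousOn_id rfl) continuousOn_id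
    (cat_maps (fun _ _ => z_mem) (mapsTo_id _)) (mapsTo_id _) (cat_zero _ _) (cat_one _ _)
    (fun t _ => comp_cat α _ _ t) (fun _ _ => rfl)

theorem unitR {α : ℝ → E} (h : PathIn Y α) {x : E} (hx : α 1 = x) :
    Rel Y 𝓕 (cat α (fun _ => x)) α ∧ Rel Y 𝓕 α (cat α (fun _ => x)) := by
  subst hx
  refine c.rep h (a := cat id (fun _ => 1)) (b := id)
    (cat_cont continuousOn_id continuousOn_const rfl) continuousOn_id
    (cat_maps (mapsTo_id _) (fun _ _ => o_mem)) (mapsTo_id _) (cat_zero _ _) (cat_one _ _)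
    (fun t _ => comp_cat α _ _ t) (fun _ _ => rfl)

theorem invR {α : ℝ → E} (h : PathIn Y α) {x : E} (hx : α 0 = x) :
    Rel Y 𝓕 (cat α (rev α)) (fun _ => x) ∧ Rel Y 𝓕 (fun _ => x) (cat α (rev α)) := by
  subst hx
  refine c.rep h (a := cat id (rev id)) (b := fun _ => 0)
    (cat_cont continuousOn_id (by unfold rev; fun_prop) (by simp [rev])) continuousOn_const
    (cat_maps (mapsTo_id _) (rev_maps (mapsTo_id _))) (fun _ _ => z_mem) (cat_zero _ _)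
    (by rw [cat_one, rev_one]; rfl) (fun t _ => comp_cat α _ _ t) (fun _ _ => rfl)

theorem invL {α : ℝ → E} (h : PathIn Y α) {x : E} (hx : α 1 = x) :
    Rel Y 𝓕 (cat (rev α) α) (fun _ => x) ∧ Rel Y 𝓕 (fun _ => x) (cat (rev α) α) := by
  subst hx
  refine c.rep h (a := cat (rev id) id) (b := fun _ => 1)
    (cat_cont (by unfold rev; fun_prop) continuousOn_id (by simp [rev])) continuousOn_const
    (cat_maps (rev_maps (mapsTo_id _)) (mapsTo_id _)) (fun _ _ => o_mem)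
    (by rw [cat_zero, rev_zero]; rfl) (cat_one _ _) (fun t _ => comp_cat α _ _ t)
    (fun _ _ => rfl)

theorem assoc {α β γ : ℝ → E} (h1 : PathIn Y α) (h2 : PathIn Y β) (h3 : PathIn Y γ)
    (e1 : α 1 = β 0) (e2 : β 1 = γ 0) :
    Rel Y 𝓕 (cat (cat α β) γ) (cat α (cat β γ)) ∧
      Rel Y 𝓕 (cat α (cat β γ)) (cat (cat α β) γ) := by
  have hp : PathIn Y (cat (cat α β) γ) :=
    path_cat (path_cat h1 h2 e1) h3 (by rw [cat_one, e2])
  have m1 : MapsTo (fun t : ℝ => t / 4) (Icc 0 1) (Icc 0 1) :=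
    fun t ht => ⟨by linarith [ht.1], by linarith [ht.2]⟩
  have m2 : MapsTo (fun t : ℝ => (t + 1) / 4) (Icc 0 1) (Icc 0 1) :=
    fun t ht => ⟨by linarith [ht.1], by linarith [ht.2]⟩
  have m3 : MapsTo (fun t : ℝ => (t + 1) / 2) (Icc 0 1) (Icc 0 1) :=
    fun t ht => ⟨by linarith [ht.1], by linarith [ht.2]⟩
  refine c.rep hp (a := id)
    (b := cat (fun t => t / 4) (cat (fun t => (t + 1) / 4) (fun t => (t + 1) / 2)))
    continuousOn_id (cat_cont (by fun_prop) (cat_cont (by fun_prop) (by fun_prop) (by norm_num))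
      (by rw [cat_zero]; norm_num)) (mapsTo_id _) (cat_maps m1 (cat_maps m2 m3))
    (by rw [cat_zero]; simp) (by rw [cat_one, cat_one]; simp) (fun _ _ => rfl) fun t ht => ?_
  rw [comp_cat (cat (cat α β) γ)]
  refine cat_congr (fun s hs => ?_) (fun s hs => ?_) ht
  · have a1 : s / 4 ≤ 1 / 2 := by linarith [hs.2]
    have a2 : 2 * (s / 4) ≤ 1 / 2 := by linarith [hs.2]
    simp only [cat, if_pos a1, if_pos a2]
    congr 1; ring
  · show cat (cat α β) γ (cat _ _ s) = _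
    rw [comp_cat (cat (cat α β) γ)]
    refine cat_congr (fun u hu => ?_) (fun u hu => ?_) hs
    · have a1 : (u + 1) / 4 ≤ 1 / 2 := by linarith [hu.2]
      simp only [cat, if_pos a1]
      split_ifs with a2
      · have : u = 0 := by linarith [hu.1]
        subst this
        rw [← e1]; congr 1; norm_num
      · congr 1; ring
    · simp only [cat]
      split_ifs with a1 a2
      · linarith [hu.1]
      · have : u = 0 := by linarith [hu.1]
        subst this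
        rw [← e2]; congr 1; norm_num
      · congr 1; ring

/-- Conjugation forwards. -/
theorem conjF {α β ν : ℝ → E} (hα : Loop Y α) (hβ : Loop Y β) (hν : PathIn Y ν)
    (e0 : α 0 = ν 0) (e1 : β 0 = ν 1) (h : Rel Y 𝓕 (cat α ν) (cat ν β)) (hl : LN 𝓕 α) :
    LN 𝓕 β := by
  rw [ln_iff hα] at hl
  rw [ln_iff hβ]
  have hr := path_rev hν
  have s1 : Rel Y 𝓕 ν (cat ν β) :=
    c.tr (c.tr (c.unitL hν e0.symm).2 (c.ct hl (c.rf hν) e0)) h
  have s2 : Rel Y 𝓕 (cat (rev ν) ν) (cat (rev ν) (cat ν β)) :=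
    c.ct (c.rf hr) s1 (rev_one ν)
  have s3 := (c.assoc hr hν hβ.1 (rev_one ν) e1.symm).2
  have s4 : Rel Y 𝓕 (cat (cat (rev ν) ν) β) (cat (fun _ => β 0) β) :=
    c.ct (c.invL hν e1.symm).1 (c.rf hβ.1) (by rw [cat_one, e1])
  exact c.tr (c.tr (c.tr (c.tr (c.invL hν e1.symm).2 s2) s3) s4) (c.unitL hβ.1 rfl).1

/-- Conjugation backwards. -/
theorem conjB {α β ν : ℝ → E} (hα : Loop Y α) (hβ : Loop Y β) (hν : PathIn Y ν)
    (e0 : α 0 = ν 0) (e1 : β 0 = ν 1) (h : Rel Y 𝓕 (cat ν β) (cat α ν)) (hl : LN 𝓕 β) :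
    LN 𝓕 α := by
  rw [ln_iff hβ] at hl
  rw [ln_iff hα]
  have hr := path_rev hν
  have e2 : α 1 = ν 0 := hα.2 ▸ e0
  have s1 : Rel Y 𝓕 ν (cat α ν) :=
    c.tr (c.tr (c.unitR hν e1.symm).2 (c.ct (c.rf hν) hl e1.symm)) h
  have s2 : Rel Y 𝓕 (cat ν (rev ν)) (cat (cat α ν) (rev ν)) :=
    c.ct s1 (c.rf hr) (rev_zero ν).symm
  have s3 := (c.assoc hα.1 hν hr e2 (rev_zero ν).symm).1
  have s4 : Rel Y 𝓕 (cat α (cat ν (rev ν))) (cat α (fun _ => α 0)) :=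
    c.ct (c.rf hα.1) (c.invR hν e0.symm).1 (by rw [cat_zero, e2])
  exact c.tr (c.tr (c.tr (c.tr (c.invR hν e0.symm).2 s2) s3) s4) (c.unitR hα.1 hα.2.symm).1

/-- If `β . α⁻¹` is fillable then `α` is related to `β`. -/
theorem of_ln {α β : ℝ → E} (hα : PathIn Y α) (hβ : PathIn Y β) (e0 : α 0 = β 0)
    (e1 : α 1 = β 1) (hl : Rel Y 𝓕 (fun _ => β 0) (cat β (rev α))) : Rel Y 𝓕 α β := by
  have hr := path_rev hα
  have s1 : Rel Y 𝓕 α (cat (cat β (rev α)) α) :=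
    c.tr (c.unitL hα e0).2 (c.ct hl (c.rf hα) e0.symm)
  have s2 := (c.assoc hβ hr hα (by rw [rev_zero, e1]) (rev_one α)).1
  have s3 : Rel Y 𝓕 (cat β (cat (rev α) α)) (cat β (fun _ => β 1)) :=
    c.ct (c.rf hβ) (c.invL hα e1).1 (by rw [cat_zero, rev_zero, e1])
  exact c.tr (c.tr (c.tr s1 s2) s3) (c.unitR hβ rfl).1

theorem free (H : ℝ × ℝ → E) (hc : ContinuousOn H (Icc 0 1 ×ˢ Icc 0 1))
    (hm : MapsTo H (Icc 0 1 ×ˢ Icc 0 1) Y) (hl : ∀ μ ∈ Icc (0 : ℝ) 1, H (μ, 0) = H (μ, 1))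
    (h0 : LN 𝓕 (fun t => H (0, t))) : LN 𝓕 (fun t => H (1, t)) := by
  have mv : ∀ x ∈ Icc (0 : ℝ) 1, MapsTo (fun t : ℝ => (x, t)) (Icc 0 1) (Icc 0 1 ×ˢ Icc 0 1) :=
    fun x hx t ht => ⟨hx, ht⟩
  have mh : ∀ x ∈ Icc (0 : ℝ) 1, MapsTo (fun t : ℝ => (t, x)) (Icc 0 1) (Icc 0 1 ×ˢ Icc 0 1) :=
    fun x hx t ht => ⟨ht, hx⟩
  have pv : ∀ x ∈ Icc (0 : ℝ) 1, PathIn Y fun t => H (x, t) := fun x hx =>
    ⟨hc.comp (by fun_prop) (mv x hx), hm.comp (mv x hx)⟩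
  have ph : PathIn Y fun t => H (t, 0) :=
    ⟨hc.comp (by fun_prop) (mh 0 z_mem), hm.comp (mh 0 z_mem)⟩
  refine c.conjF (ν := fun t => H (t, 0)) ⟨pv 0 z_mem, hl 0 z_mem⟩ ⟨pv 1 o_mem, hl 1 o_mem⟩ ph
    rfl rfl ?_ h0
  have := c.cvx (ℝ × ℝ) (Icc 0 1 ×ˢ Icc 0 1) H
    (cat (fun t : ℝ => ((0 : ℝ), t)) (fun t : ℝ => (t, (1 : ℝ))))
    (cat (fun t : ℝ => (t, (0 : ℝ))) (fun t : ℝ => ((1 : ℝ), t)))
    ((convex_Icc 0 1).prod (convex_Icc 0 1)) hc hm (cat_cont (by fun_prop) (by fun_prop) rfl)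
    (cat_cont (by fun_prop) (by fun_prop) rfl) (cat_maps (mv 0 z_mem) (mh 1 o_mem))
    (cat_maps (mh 0 z_mem) (mv 1 o_mem)) (by rw [cat_zero, cat_zero])
    (by rw [cat_one, cat_one])
  refine rel_congr c.fs this (fun t ht => ?_) (fun t _ => comp_cat H _ _ t)
  show H (cat _ _ t) = _
  rw [comp_cat H]
  exact cat_congr (fun _ _ => rfl) (fun s hs => (hl s hs).symm) ht

theorem sym (hp : ∀ α : ℝ → E, Continuous α → Function.Periodic α 1 → (∀ t, α t ∈ Y) →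
    ∃ k : ℕ, 0 < k ∧ LN 𝓕 fun t => α (k * t)) : Sym Y 𝓕 := by
  intro α β h
  obtain ⟨hα, hβ, e0, e1, -⟩ := id h
  have hr := path_rev hβ
  have e2 : α 1 = rev β 0 := by rw [rev_zero, e1]
  have hγ : PathIn Y (cat α (rev β)) := path_cat hα hr e2
  set γ := cat α (rev β) with hγd
  have g0 : γ 0 = α 0 := cat_zero _ _
  have g1 : γ 1 = α 0 := by rw [hγd, cat_one, rev_one, e0]
  have hγc : Rel Y 𝓕 γ (fun _ => α 0) := c.tr (c.ct h (c.rf hr) e2) (c.invR hβ e0.symm).1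
  set g : ℝ → E := fun t => γ (Int.fract t) with hg
  have gc : Continuous g := ContinuousOn.comp_fract'' hγ.1 (g0.trans g1.symm)
  have gp : Function.Periodic g 1 := fun t => by simp only [hg, Int.fract_add_one]
  have gY : ∀ t, g t ∈ Y := fun t => hγ.2 ⟨Int.fract_nonneg t, (Int.fract_lt_one t).le⟩
  have ge : EqOn g γ (Icc 0 1) := fun t ht => by
    rcases ht.2.eq_or_lt with h1 | h1
    · subst h1
      simp only [hg, Int.fract_one]
      rw [g0, g1]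
    · simp only [hg]
      rw [Int.fract_eq_self.2 ⟨ht.1, h1⟩]
  have gn : ∀ (k : ℕ) (t : ℝ), g (k + t) = g t := fun k t => by
    have := gp.nat_mul k t
    rwa [mul_one, add_comm] at this
  have gz : g 0 = α 0 := (ge z_mem).trans g0
  have pk : ∀ k : ℕ, PathIn Y fun t => g (k * t) := fun k =>
    ⟨(gc.comp (by fun_prop)).continuousOn, fun t _ => gY _⟩
  have ek : ∀ k : ℕ, g (k * 1) = α 0 := fun k => by
    have := gn k 0
    rw [add_zero] at this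
    rw [mul_one, this, gz]
  have step : ∀ k : ℕ, Rel Y 𝓕 (fun t => g ((k + 1 : ℕ) * t)) (cat (fun t => g (k * t)) γ) := by
    intro k
    have := c.cvx ℝ univ g (fun t => ((k + 1 : ℕ) : ℝ) * t)
      (cat (fun t => (k : ℝ) * t) (fun t => k + t)) convex_univ gc.continuousOn
      (fun t _ => gY t) (by fun_prop) (cat_cont (by fun_prop) (by fun_prop) (by simp))
      (mapsTo_univ _ _) (mapsTo_univ _ _) (by rw [cat_zero]; simp)
      (by rw [cat_one]; simp)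
    refine rel_congr c.fs this (fun _ _ => rfl) (fun t ht => ?_)
    show g (cat _ _ t) = _
    rw [comp_cat g]
    exact cat_congr (fun _ _ => rfl) (fun s hs => (gn k s).trans (ge hs)) ht
  have hx : PathIn Y fun _ : ℝ => α 0 := path_const (hα.2 z_mem)
  have down : ∀ k : ℕ, Rel Y 𝓕 (fun t => g (k * t)) (fun _ => α 0) := by
    intro k
    induction k with
    | zero => exact rel_congr c.fs (c.rf hx) (fun t _ => by simp [gz]) (fun _ _ => rfl)
    | succ k ih =>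
      exact c.tr (c.tr (step k) (c.ct ih hγc ((ek k).trans g0.symm))) (c.unitL hx rfl).1
  obtain ⟨k, hk, hl⟩ := hp g gc gp gY
  obtain ⟨k, rfl⟩ : ∃ j, k = j + 1 := ⟨k - 1, by omega⟩
  have hloop : Loop Y fun t => g ((k + 1 : ℕ) * t) :=
    ⟨pk _, by simp only [mul_zero]; rw [ek, gz]⟩
  rw [ln_iff hloop] at hl
  have s1 : Rel Y 𝓕 (fun _ => α 0) γ := by
    have s0 : Rel Y 𝓕 (fun _ => α 0) fun t => g ((k + 1 : ℕ) * t) :=
      rel_congr c.fs hl (fun t _ => by simp only [mul_zero]; exact gz) (fun _ _ => rfl)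
    exact c.tr (c.tr (c.tr s0 (step k)) (c.ct (down k) (c.rf hγ) ((ek k).trans g0.symm)))
      (c.unitL hγ g0).1
  exact c.of_ln hβ hα e0.symm e1.symm s1

end Ctx

theorem side_h {F : ℝ × ℝ → E} (hF : BdMap Y F) {y : ℝ} (hy : |y| = 1) :
    MapsTo (fun t : ℝ => (2 * t - 1, y)) (Icc 0 1) bd ∧ PathIn Y fun t => F (2 * t - 1, y) := by
  have m : MapsTo (fun t : ℝ => (2 * t - 1, y)) (Icc 0 1) bd :=
    fun t ht => bd_of (abs_aff ht) hy.le (Or.inr hy)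
  exact ⟨m, hF.1.comp (by fun_prop) m, hF.2.comp m⟩

theorem side_v {F : ℝ × ℝ → E} (hF : BdMap Y F) {x : ℝ} (hx : |x| = 1) :
    MapsTo (fun t : ℝ => (x, 2 * t - 1)) (Icc 0 1) bd ∧ PathIn Y fun t => F (x, 2 * t - 1) := by
  have m : MapsTo (fun t : ℝ => (x, 2 * t - 1)) (Icc 0 1) bd :=
    fun t ht => bd_of hx.le (abs_aff ht) (Or.inl hx)
  exact ⟨m, hF.1.comp (by fun_prop) m, hF.2.comp m⟩

end main

end FC2

open FC2 in
theorem FC2_of (h1 : S_FC1) : S_FC2 := by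
  intro E _ _ _ Y 𝓕 hF
  obtain ⟨a1, -, a3⟩ := h1 E Y
  obtain ⟨-, b2, b3, b4, b5⟩ := a3 𝓕 hF
  have c : Ctx Y 𝓕 :=
    ⟨hF, fun Z _ _ D f a b k1 k2 k3 k4 k5 k6 k7 k8 k9 =>
      b2 _ _ (a1 Z D f a b k1 k2 k3 k4 k5 k6 k7 k8 k9), fun {α β γ} => b3 α β γ,
      fun {α β α' β'} => b4 α β α' β'⟩
  have p1 : |(1 : ℝ)| = 1 := abs_one
  have n1 : |(-1 : ℝ)| = 1 := by simp
  refine ⟨c.free, fun x hx => (c.rf (path_const hx)).2.2.2.2, ?_, ?_, c.sym, ?_⟩
  · intro α β hα hβ e l1 l2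
    have e' : α 1 = β 0 := hα.2 ▸ e
    rw [ln_iff hα] at l1
    rw [ln_iff hβ] at l2
    have hx : PathIn Y fun _ : ℝ => α 0 := path_const (hα.1.2 z_mem)
    have l2' : Rel Y 𝓕 (fun _ => α 0) β := rel_congr hF l2 (fun _ _ => e.symm) (fun _ _ => rfl)
    have := c.tr (c.unitL hx rfl).2 (c.ct l1 l2' rfl)
    unfold LN
    rw [cat_zero]
    exact this.2.2.2.2
  · intro G hG he hf
    have hb := (side_h hG n1).2
    have ht := (side_h hG p1).2
    have hl := (side_v hG n1).2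
    have lb : Loop Y fun t => G (2 * t - 1, -1) :=
      ⟨hb, by norm_num; exact he (-1) ⟨le_rfl, by norm_num⟩⟩
    have lt : Loop Y fun t => G (2 * t - 1, 1) :=
      ⟨ht, by norm_num; exact he 1 ⟨by norm_num, le_rfl⟩⟩
    have hr : Rel Y 𝓕 (cat (fun t => G (2 * t - 1, -1)) (fun t => G (-1, 2 * t - 1)))
        (cat (fun t => G (-1, 2 * t - 1)) (fun t => G (2 * t - 1, 1))) :=
      rel_congr hF ((b5 G hG).1 hf) (cat_congr (fun _ _ => rfl)
        (fun s hs => (he _ (abs_le.1 (abs_aff hs))).symm)) (fun _ _ => rfl)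
    exact ⟨c.conjF lb lt hl (by norm_num) (by norm_num) hr,
      fun hs => c.conjB lb lt hl (by norm_num) (by norm_num) (hs _ _ hr)⟩
  · intro O hO F hF' hFO
    obtain ⟨mb, hb⟩ := side_h hF' n1
    obtain ⟨mt, ht⟩ := side_h hF' p1
    obtain ⟨ml, hl⟩ := side_v hF' n1
    obtain ⟨mr, hr⟩ := side_v hF' p1
    have hα := path_cat hb hr (by norm_num)
    have hβ := path_cat hl ht (by norm_num)
    have e0 : cat (fun t => F (2 * t - 1, -1)) (fun t => F (1, 2 * t - 1)) 0 =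
        cat (fun t => F (-1, 2 * t - 1)) (fun t => F (2 * t - 1, 1)) 0 := by
      rw [cat_zero, cat_zero]; norm_num
    have e1 : cat (fun t => F (2 * t - 1, -1)) (fun t => F (1, 2 * t - 1)) 1 =
        cat (fun t => F (-1, 2 * t - 1)) (fun t => F (2 * t - 1, 1)) 1 := by
      rw [cat_one, cat_one]; norm_num
    refine (b5 F hF').2 (c.of_ln hα hβ e0 e1 ?_)
    have hloop : Loop Y (cat (cat (fun t => F (-1, 2 * t - 1)) (fun t => F (2 * t - 1, 1)))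
        (rev (cat (fun t => F (2 * t - 1, -1)) (fun t => F (1, 2 * t - 1))))) :=
      ⟨path_cat hβ (path_rev hα) (by rw [rev_zero, e1]), by rw [cat_zero, cat_one, rev_one, e0]⟩
    have := (ln_iff hloop).1 (hO _ hloop (cat_maps (cat_maps (hFO.comp ml) (hFO.comp mt))
      (rev_maps (cat_maps (hFO.comp mb) (hFO.comp mr)))))
    rwa [cat_zero] at this

end

end Pool.Agent.P.MP_daea48_ag
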