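import Pool.Agent.P.MP_daea48_ag.StA

/-! Package FC3: contraction of a loop along complex lines. -/

open Set Filter Topology Metric

namespace Pool.Agent.P.MP_daea48_ag

namespace FC3

theorem cat_cont {Z : Type} [TopologicalSpace Z] {a b : ℝ → Z} (ha : ContinuousOn a (Icc 0 1))
    (hb : ContinuousOn b (Icc 0 1)) (h : a 1 = b 0) : ContinuousOn (cat a b) (Icc 0 1) := by
  rw [← Icc_union_Icc_eq_Icc (a := (0 : ℝ)) (b := 1 / 2) (c := 1) (by norm_num) (by norm_num)]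
  refine ContinuousOn.union_of_isClosed ?_ ?_ isClosed_Icc isClosed_Icc
  · have : ContinuousOn (fun t : ℝ => a (2 * t)) (Icc 0 (1 / 2)) :=
      ha.comp (by fun_prop) fun t ht => ⟨by linarith [ht.1], by linarith [ht.2]⟩
    refine this.congr fun t ht => ?_
    simp only [cat, if_pos ht.2]
  · have : ContinuousOn (fun t : ℝ => b (2 * t - 1)) (Icc (1 / 2) 1) :=
      hb.comp (by fun_prop) fun t ht => ⟨by linarith [ht.1], by linarith [ht.2]⟩
    refine this.congr fun t ht => ?_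
    simp only [cat]
    split_ifs with h1
    · have : t = 1 / 2 := le_antisymm h1 ht.1
      subst this
      norm_num [h]
    · rfl

theorem cat_maps {Z : Type} {D : Set Z} {a b : ℝ → Z} (ha : MapsTo a (Icc 0 1) D)
    (hb : MapsTo b (Icc 0 1) D) : MapsTo (cat a b) (Icc 0 1) D := by
  intro t ht
  simp only [cat]
  split_ifs with h1
  · exact ha ⟨by linarith [ht.1], by linarith⟩
  · exact hb ⟨by linarith, by linarith [ht.2]⟩

theorem cat_zero {Z : Type} (a b : ℝ → Z) : cat a b 0 = a 0 := by norm_num [cat]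

theorem cat_one {Z : Type} (a b : ℝ → Z) : cat a b 1 = b 1 := by norm_num [cat]

theorem cat_comp {Z W : Type} (f : Z → W) (a b : ℝ → Z) :
    (fun t => f (cat a b t)) = cat (fun t => f (a t)) (fun t => f (b t)) := by
  funext t
  simp only [cat]
  split_ifs <;> rfl

/-- Segment in the plane. -/
def seg (p q : ℝ × ℝ) (x : ℝ) : ℝ × ℝ := (p.1 + x * (q.1 - p.1), p.2 + x * (q.2 - p.2))

theorem seg_zero (p q : ℝ × ℝ) : seg p q 0 = p := by simp [seg]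

theorem seg_one (p q : ℝ × ℝ) : seg p q 1 = q := by simp [seg]

theorem seg_cont (p q : ℝ × ℝ) : Continuous (seg p q) := by unfold seg; fun_prop

theorem seg_maps {D : Set (ℝ × ℝ)} (hD : Convex ℝ D) {p q : ℝ × ℝ} (hp : p ∈ D) (hq : q ∈ D) :
    MapsTo (seg p q) (Icc 0 1) D := by
  intro x hx
  have e : seg p q x = p + x • (q - p) := by
    ext <;> simp [seg]
  rw [e]
  exact hD.add_smul_sub_mem hp hq hx

variable {E : Type} [NormedAddCommGroup E] [NormedSpace ℂ E] [FiniteDimensional ℂ E]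
  {Y : Set E} {𝓕 : (ℝ × ℝ → E) → Prop}

omit [NormedSpace ℂ E] [FiniteDimensional ℂ E] in
theorem path_cat {α β : ℝ → E} (ha : PathIn Y α) (hb : PathIn Y β) (h : α 1 = β 0) :
    PathIn Y (cat α β) := ⟨cat_cont ha.1 hb.1 h, cat_maps ha.2 hb.2⟩

omit [NormedSpace ℂ E] [FiniteDimensional ℂ E] in
theorem path_seg {D : Set (ℝ × ℝ)} (hD : Convex ℝ D) {f : ℝ × ℝ → E} (hf : ContinuousOn f D)
    (hY : MapsTo f D Y) {p q : ℝ × ℝ} (hp : p ∈ D) (hq : q ∈ D) :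
    PathIn Y fun x => f (seg p q x) :=
  ⟨hf.comp (seg_cont p q).continuousOn (seg_maps hD hp hq), hY.comp (seg_maps hD hp hq)⟩

section calculus

variable (H : S_FC1) (hF : FillSys Y 𝓕)
include H hF

theorem relEq {α β : ℝ → E} (ha : PathIn Y α) (h : EqOn α β (Icc 0 1)) : Rel Y 𝓕 α β := by
  refine ((H E Y).2.2 𝓕 hF).2.1 α β ⟨fun p => α p.2, ?_, ?_, ?_, ?_⟩
  · exact ha.1.comp continuous_snd.continuousOn fun p hp => hp.2
  · exact fun p hp => ha.2 hp.2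
  · exact fun t ht => ⟨rfl, h ht⟩
  · exact fun _ _ => ⟨rfl, rfl⟩

theorem rfl' {α : ℝ → E} (ha : PathIn Y α) : Rel Y 𝓕 α α := relEq H hF ha fun _ _ => rfl

theorem trans' {α β γ : ℝ → E} (h1 : Rel Y 𝓕 α β) (h2 : Rel Y 𝓕 β γ) : Rel Y 𝓕 α γ :=
  ((H E Y).2.2 𝓕 hF).2.2.1 α β γ h1 h2

theorem congr' {α β α' β' : ℝ → E} (h1 : Rel Y 𝓕 α β) (h2 : Rel Y 𝓕 α' β') (h : α 1 = α' 0) :
    Rel Y 𝓕 (cat α α') (cat β β') :=
  ((H E Y).2.2 𝓕 hF).2.2.2.1 α β α' β' h1 h2 h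

theorem conv {Z : Type} [NormedAddCommGroup Z] [NormedSpace ℝ Z] {D : Set Z} {f : Z → E}
    {a b : ℝ → Z} (hD : Convex ℝ D) (hf : ContinuousOn f D) (hY : MapsTo f D Y)
    (ha : ContinuousOn a (Icc 0 1)) (hb : ContinuousOn b (Icc 0 1)) (ha' : MapsTo a (Icc 0 1) D)
    (hb' : MapsTo b (Icc 0 1) D) (h0 : a 0 = b 0) (h1 : a 1 = b 1) :
    Rel Y 𝓕 (fun t => f (a t)) (fun t => f (b t)) :=
  ((H E Y).2.2 𝓕 hF).2.1 _ _ ((H E Y).1 Z D f a b hD hf hY ha hb ha' hb' h0 h1)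

theorem assoc {α β γ : ℝ → E} (ha : PathIn Y α) (hb : PathIn Y β) (hc : PathIn Y γ)
    (h1 : α 1 = β 0) (h2 : β 1 = γ 0) : Rel Y 𝓕 (cat (cat α β) γ) (cat α (cat β γ)) := by
  have hδ : PathIn Y (cat α (cat β γ)) := path_cat ha (path_cat hb hc h2) (by rw [cat_zero, h1])
  have hl : PathIn Y (cat (cat α β) γ) := path_cat (path_cat ha hb h1) hc (by rw [cat_one, h2])
  have k := conv H hF (D := Icc (0 : ℝ) 1) (f := cat α (cat β γ))
    (a := fun t => min (2 * t) (min (t + 1 / 4) ((t + 1) / 2))) (b := fun t => t)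
    (convex_Icc 0 1) hδ.1 hδ.2 (by fun_prop) (by fun_prop)
    (fun t ht => ⟨le_min (by linarith [ht.1]) (le_min (by linarith [ht.1]) (by linarith [ht.1])),
      (min_le_right _ _).trans ((min_le_right _ _).trans (by linarith [ht.2]))⟩)
    (fun t ht => ht) (by norm_num) (by norm_num)
  refine trans' H hF (relEq H hF hl fun t ht => ?_) k
  by_cases c1 : t ≤ 1 / 4
  · have e : min (2 * t) (min (t + 1 / 4) ((t + 1) / 2)) = 2 * t :=
      min_eq_left (le_min (by linarith) (by linarith))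
    simp only [e, cat]
    rw [if_pos (by linarith), if_pos (by linarith), if_pos (by linarith)]
  by_cases c2 : t ≤ 1 / 2
  · have e : min (2 * t) (min (t + 1 / 4) ((t + 1) / 2)) = t + 1 / 4 := by
      rw [min_eq_left (by linarith : t + 1 / 4 ≤ (t + 1) / 2), min_eq_right (by linarith)]
    simp only [e, cat]
    rw [if_pos c2, if_neg (by linarith), if_neg (by linarith), if_pos (by linarith)]
    congr 1
    ring
  · have e : min (2 * t) (min (t + 1 / 4) ((t + 1) / 2)) = (t + 1) / 2 := by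
      rw [min_eq_right (by linarith : (t + 1) / 2 ≤ t + 1 / 4), min_eq_right (by linarith)]
    simp only [e, cat]
    rw [if_neg c2, if_neg (by linarith), if_neg (by linarith)]
    congr 1
    ring

theorem back {α γ : ℝ → E} (ha : PathIn Y α) (hc : PathIn Y γ) (h : α 1 = γ 0) :
    Rel Y 𝓕 (cat (cat α γ) fun t => γ (1 - t)) α := by
  have hδ : PathIn Y (cat α γ) := path_cat ha hc h
  have hr : PathIn Y fun t => γ (1 - t) :=
    ⟨hc.1.comp (by fun_prop) fun t ht => ⟨by linarith [ht.2], by linarith [ht.1]⟩,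
      fun t ht => hc.2 ⟨by linarith [ht.2], by linarith [ht.1]⟩⟩
  have hl : PathIn Y (cat (cat α γ) fun t => γ (1 - t)) :=
    path_cat hδ hr (by rw [cat_one, sub_zero])
  have k := conv H hF (D := Icc (0 : ℝ) 1) (f := cat α γ)
    (a := fun t => min (2 * t) (3 / 2 - t)) (b := fun t => t / 2)
    (convex_Icc 0 1) hδ.1 hδ.2 (by fun_prop) (by fun_prop)
    (fun t ht => ⟨le_min (by linarith [ht.1]) (by linarith [ht.2]), by
      by_cases c : t ≤ 1 / 2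
      · exact (min_le_left _ _).trans (by linarith)
      · exact (min_le_right _ _).trans (by linarith)⟩)
    (fun t ht => ⟨by linarith [ht.1], by linarith [ht.2]⟩) (by norm_num) (by norm_num)
  refine trans' H hF (relEq H hF hl fun t ht => ?_) (trans' H hF k (relEq H hF k.2.1 ?_))
  · by_cases c1 : t ≤ 1 / 2
    · have e : min (2 * t) (3 / 2 - t) = 2 * t := min_eq_left (by linarith)
      simp only [e]
      rw [cat, if_pos c1]
    · have e : min (2 * t) (3 / 2 - t) = 3 / 2 - t := min_eq_right (by linarith)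
      simp only [e]
      rw [cat, if_neg c1, cat]
      split_ifs with c2
      · have : t = 1 := le_antisymm ht.2 (by linarith)
        subst this
        norm_num [h]
      · congr 1
        ring
  · intro t ht
    simp only [cat]
    rw [if_pos (by linarith [ht.2])]
    congr 1
    ring

theorem tri {D : Set (ℝ × ℝ)} (hD : Convex ℝ D) {f : ℝ × ℝ → E} (hf : ContinuousOn f D)
    (hY : MapsTo f D Y) {o p q : ℝ × ℝ} (ho : o ∈ D) (hp : p ∈ D) (hq : q ∈ D) :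
    Rel Y 𝓕 (cat (fun x => f (seg o p x)) fun x => f (seg p q x)) fun x => f (seg o q x) := by
  rw [← cat_comp f]
  exact conv H hF hD hf hY
    (cat_cont (seg_cont _ _).continuousOn (seg_cont _ _).continuousOn (by rw [seg_one, seg_zero]))
    (seg_cont _ _).continuousOn (cat_maps (seg_maps hD ho hp) (seg_maps hD hp hq))
    (seg_maps hD ho hq) (by rw [cat_zero, seg_zero, seg_zero]) (by rw [cat_one, seg_one, seg_one])

variable (hS : Sym Y 𝓕)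
include hS

theorem cancel {α β γ : ℝ → E} (ha : PathIn Y α) (hb : PathIn Y β) (hc : PathIn Y γ)
    (h1 : α 1 = γ 0) (h2 : β 1 = γ 0) (h : Rel Y 𝓕 (cat α γ) (cat β γ)) : Rel Y 𝓕 α β := by
  have hr : PathIn Y fun t => γ (1 - t) :=
    ⟨hc.1.comp (by fun_prop) fun t ht => ⟨by linarith [ht.2], by linarith [ht.1]⟩,
      fun t ht => hc.2 ⟨by linarith [ht.2], by linarith [ht.1]⟩⟩
  exact trans' H hF (hS _ _ (back H hF ha hc h1)) (trans' H hF
    (congr' H hF h (rfl' H hF hr) (by rw [cat_one, sub_zero])) (back H hF hb hc h2))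

theorem step {D : Set (ℝ × ℝ)} (hD : Convex ℝ D) {f₁ f₂ : ℝ × ℝ → E} (hf₁ : ContinuousOn f₁ D)
    (hY₁ : MapsTo f₁ D Y) (hf₂ : ContinuousOn f₂ D) (hY₂ : MapsTo f₂ D Y) {o p q : ℝ × ℝ}
    (ho : o ∈ D) (hp : p ∈ D) (hq : q ∈ D) {B B' : ℝ → E} (hB : PathIn Y B) (hB' : PathIn Y B')
    (e0 : B 0 = f₁ p) (e1 : B 1 = f₂ p) (e0' : B' 0 = f₁ q)
    (h : Rel Y 𝓕 (cat B fun x => f₂ (seg p q x)) (cat (fun x => f₁ (seg p q x)) B')) :
    Rel Y 𝓕 (cat (fun x => f₁ (seg o p x)) B) (fun x => f₂ (seg o p x)) ↔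
      Rel Y 𝓕 (cat (fun x => f₁ (seg o q x)) B') (fun x => f₂ (seg o q x)) := by
  have pa := path_seg hD hf₁ hY₁ ho hp
  have pv0 := path_seg hD hf₁ hY₁ hp hq
  have pq := path_seg hD hf₂ hY₂ ho hp
  have pv1 := path_seg hD hf₂ hY₂ hp hq
  have h1 := tri H hF hD hf₁ hY₁ ho hp hq
  have h2 := tri H hF hD hf₂ hY₂ ho hp hq
  have a1 : (fun x => f₁ (seg o p x)) 1 = B 0 := by simp only [seg_one, e0]
  have a2 : B 1 = (fun x => f₂ (seg p q x)) 0 := by simp only [seg_zero, e1]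
  have a3 : (fun x => f₁ (seg o p x)) 1 = (fun x => f₁ (seg p q x)) 0 := by
    simp only [seg_one, seg_zero]
  have a4 : (fun x => f₁ (seg p q x)) 1 = B' 0 := by simp only [seg_one, e0']
  have h3 : Rel Y 𝓕 (cat (cat (fun x => f₁ (seg o p x)) B) fun x => f₂ (seg p q x))
      (cat (fun x => f₁ (seg o q x)) B') :=
    trans' H hF (assoc H hF pa hB pv1 a1 a2) (trans' H hF
      (congr' H hF (rfl' H hF pa) h (by rw [cat_zero]; exact a1)) (trans' H hF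
        (hS _ _ (assoc H hF pa pv0 hB' a3 a4))
        (congr' H hF h1 (rfl' H hF hB') (by rw [cat_one]; exact a4))))
  constructor
  · intro W
    exact trans' H hF (hS _ _ h3) (trans' H hF
      (congr' H hF W (rfl' H hF pv1) (by rw [cat_one]; exact a2)) h2)
  · intro W
    exact cancel H hF hS (path_cat pa hB a1) pq pv1 (by rw [cat_one]; exact a2)
      (by simp only [seg_one, seg_zero]) (trans' H hF h3 (trans' H hF W (hS _ _ h2)))

end calculus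

theorem tube {S : Set (ℝ × ℂ)} {hh : ℝ × ℂ → ℂ} (hc : ContinuousOn hh S) {φ : ℝ × ℝ → ℝ × ℂ}
    (hφ : Continuous φ) {x₀ : ℝ} (h : ∀ k ∈ Icc (0 : ℝ) 1, φ (x₀, k) ∈ S ∧ hh (φ (x₀, k)) ≠ 0) :
    ∀ᶠ x in 𝓝 x₀, ∀ k ∈ Icc (0 : ℝ) 1, φ (x, k) ∈ S → hh (φ (x, k)) ≠ 0 := by
  refine isCompact_Icc.eventually_forall_of_forall_eventually fun k hk => ?_
  have h1 : ∀ᶠ y in 𝓝[S] φ (x₀, k), hh y ≠ 0 := (hc _ (h k hk).1).eventually_ne (h k hk).2
  rw [eventually_nhdsWithin_iff] at h1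
  exact hφ.continuousAt.eventually h1

theorem norm_lt (x y : ℝ) (hx : x ∈ Icc (0 : ℝ) 1) (hy : |y| ≤ 1) :
    ‖(x : ℂ) + y * Complex.I‖ ≤ 2 := by
  refine (norm_add_le _ _).trans ?_
  rw [norm_mul, Complex.norm_I, mul_one, Complex.norm_real, Complex.norm_real, Real.norm_eq_abs,
    Real.norm_eq_abs, abs_of_nonneg hx.1]
  linarith [hx.2]

theorem mem_ball3 (x y : ℝ) (hx : x ∈ Icc (0 : ℝ) 1) (hy : |y| ≤ 1) :
    (x : ℂ) + y * Complex.I ∈ ball (0 : ℂ) 3 := by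
  rw [mem_ball_zero_iff]
  linarith [norm_lt x y hx hy]

theorem bd_cases {q : ℝ × ℝ} (hq : q ∈ bd) :
    |q.1| ≤ 1 ∧ |q.2| ≤ 1 ∧ (q.1 = 1 ∨ q.1 = -1 ∨ q.2 = 1 ∨ q.2 = -1) := by
  have h : max |q.1| |q.2| = 1 := by
    have := mem_sphere_zero_iff_norm.mp hq
    rwa [Prod.norm_def, Real.norm_eq_abs, Real.norm_eq_abs] at this
  refine ⟨h ▸ le_max_left _ _, h ▸ le_max_right _ _, ?_⟩
  rcases max_choice |q.1| |q.2| with h1 | h1
  · rw [h1] at h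
    rcases (abs_eq zero_le_one).mp h with h2 | h2
    · exact Or.inl h2
    · exact Or.inr (Or.inl h2)
  · rw [h1] at h
    rcases (abs_eq zero_le_one).mp h with h2 | h2
    · exact Or.inr (Or.inr (Or.inl h2))
    · exact Or.inr (Or.inr (Or.inr h2))

end FC3

open FC3 in
theorem FC3_of (H : S_FC1) (_h : S_FC2) : S_FC3 := by
  intro E _ _ _ Y 𝓕 hF hS G hh y₀ hhc hGc hGY ht hτ hrect
  set S : Set (ℝ × ℂ) := {x ∈ Icc (0 : ℝ) 1 ×ˢ ball (0 : ℂ) 3 | hh x ≠ 0} with hSdef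
  -- the width of the two vertical strips
  obtain ⟨c₀, hc₀, hc₀', hstrip⟩ : ∃ c₀ : ℝ, 0 < c₀ ∧ c₀ ≤ 1 / 2 ∧ ∀ y ∈ Ico (0 : ℝ) c₀,
      ∀ t ∈ Icc (0 : ℝ) 1, hh (t, ((0 : ℝ) : ℂ) + y * Complex.I) ≠ 0 ∧
        hh (t, ((1 : ℝ) : ℂ) + y * Complex.I) ≠ 0 := by
    have k0 := tube hhc (φ := fun p => (p.2, ((0 : ℝ) : ℂ) + (p.1 : ℂ) * Complex.I)) (by fun_prop)
      (x₀ := 0) fun k hk => ⟨⟨hk, mem_ball3 0 0 ⟨le_rfl, zero_le_one⟩ (by simp)⟩, by
        simpa using (ht k hk).2.1⟩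
    have k1 := tube hhc (φ := fun p => (p.2, ((1 : ℝ) : ℂ) + (p.1 : ℂ) * Complex.I)) (by fun_prop)
      (x₀ := 0) fun k hk => ⟨⟨hk, mem_ball3 1 0 ⟨zero_le_one, le_rfl⟩ (by simp)⟩, by
        simpa using (ht k hk).2.2.1⟩
    obtain ⟨ε, hε, hb⟩ := Metric.eventually_nhds_iff.mp (k0.and k1)
    refine ⟨min ε (1 / 2), lt_min hε (by norm_num), min_le_right _ _, fun y hy t htt => ?_⟩
    have hy1 : y < ε := hy.2.trans_le (min_le_left _ _)
    have hy2 : y < 1 / 2 := hy.2.trans_le (min_le_right _ _)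
    have hy3 : |y| ≤ 1 := by rw [abs_of_nonneg hy.1]; linarith
    have := hb (y := y) (by rw [Real.dist_eq, sub_zero, abs_of_nonneg hy.1]; exact hy1)
    exact ⟨this.1 t htt ⟨htt, mem_ball3 0 y ⟨le_rfl, zero_le_one⟩ hy3⟩,
      this.2 t htt ⟨htt, mem_ball3 1 y ⟨zero_le_one, le_rfl⟩ hy3⟩⟩
  have habs : ∀ y ∈ Ico (0 : ℝ) c₀, |y| ≤ 1 := fun y hy => by
    rw [abs_of_nonneg hy.1]; linarith [hy.2]
  set D : Set (ℝ × ℝ) := Icc (0 : ℝ) 1 ×ˢ Ico (0 : ℝ) c₀ with hDdef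
  have hD : Convex ℝ D := (convex_Icc 0 1).prod (convex_Ico 0 c₀)
  set g : ℝ → ℝ → ℝ → E := fun t x y => G (t, (x : ℂ) + y * Complex.I) with hg
  have m0 : MapsTo (fun p : ℝ × ℝ => (p.1, ((0 : ℝ) : ℂ) + (p.2 : ℂ) * Complex.I)) D S :=
    fun p hp => ⟨⟨hp.1, mem_ball3 0 _ ⟨le_rfl, zero_le_one⟩ (habs _ hp.2)⟩,
      (hstrip _ hp.2 _ hp.1).1⟩
  have m1 : MapsTo (fun p : ℝ × ℝ => (p.1, ((1 : ℝ) : ℂ) + (p.2 : ℂ) * Complex.I)) D S :=
    fun p hp => ⟨⟨hp.1, mem_ball3 1 _ ⟨zero_le_one, le_rfl⟩ (habs _ hp.2)⟩,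
      (hstrip _ hp.2 _ hp.1).2⟩
  have hf₁ : ContinuousOn (fun p : ℝ × ℝ => g p.1 0 p.2) D := hGc.comp (by fun_prop) m0
  have hY₁ : MapsTo (fun p : ℝ × ℝ => g p.1 0 p.2) D Y := hGY.comp m0
  have hf₂ : ContinuousOn (fun p : ℝ × ℝ => g p.1 1 p.2) D := hGc.comp (by fun_prop) m1
  have hY₂ : MapsTo (fun p : ℝ × ℝ => g p.1 1 p.2) D Y := hGY.comp m1
  have ho : ((0 : ℝ), (0 : ℝ)) ∈ D := ⟨⟨le_rfl, zero_le_one⟩, le_rfl, hc₀⟩
  let Adm : ℝ → ℝ → Prop := fun t c =>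
    c ∈ Ico (0 : ℝ) c₀ ∧ ∀ x ∈ Icc (0 : ℝ) 1, hh (t, (x : ℂ) + c * Complex.I) ≠ 0
  let Wc : ℝ → ℝ → Prop := fun t c =>
    Rel Y 𝓕 (cat (fun x => (fun p : ℝ × ℝ => g p.1 0 p.2) (seg (0, 0) (t, c) x)) fun x => g t x c)
      (fun x => (fun p : ℝ × ℝ => g p.1 1 p.2) (seg (0, 0) (t, c) x))
  have hB : ∀ t ∈ Icc (0 : ℝ) 1, ∀ c, Adm t c → PathIn Y fun x => g t x c := by
    intro t htt c hc
    have m : MapsTo (fun x : ℝ => (t, (x : ℂ) + (c : ℂ) * Complex.I)) (Icc 0 1) S :=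
      fun x hx => ⟨⟨htt, mem_ball3 x c hx (habs c hc.1)⟩, hc.2 x hx⟩
    exact ⟨hGc.comp (by fun_prop) m, hGY.comp m⟩
  -- changing the height
  have hA : ∀ t ∈ Icc (0 : ℝ) 1, ∀ c c', Adm t c → Adm t c' → c < c' → (Wc t c ↔ Wc t c') := by
    intro t htt c c' hc hc' hlt
    refine step H hF hS hD hf₁ hY₁ hf₂ hY₂ ho (p := (t, c)) (q := (t, c')) ⟨htt, hc.1⟩
      ⟨htt, hc'.1⟩ (hB t htt c hc) (hB t htt c' hc') rfl rfl rfl ?_
    have haff : ∀ q : ℝ × ℝ, aff (1 / 2 + (((c + c') / 2 : ℝ) : ℂ) * Complex.I) (1 / 2)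
        ((c' - c) / 2) q = (((q.1 + 1) / 2 : ℝ) : ℂ) +
          ((c + (q.2 + 1) / 2 * (c' - c) : ℝ) : ℂ) * Complex.I := by
      intro q
      simp only [aff]
      push_cast
      ring
    have hin : ∀ q ∈ bd, (t, aff (1 / 2 + (((c + c') / 2 : ℝ) : ℂ) * Complex.I) (1 / 2)
        ((c' - c) / 2) q) ∈ S := by
      intro q hq
      obtain ⟨q1, q2, q3⟩ := bd_cases hq
      rw [abs_le] at q1 q2
      have hx : (q.1 + 1) / 2 ∈ Icc (0 : ℝ) 1 := ⟨by linarith [q1.1], by linarith [q1.2]⟩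
      have hy : c + (q.2 + 1) / 2 * (c' - c) ∈ Ico (0 : ℝ) c₀ := by
        constructor
        · nlinarith [hc.1.1, q2.1]
        · nlinarith [hc'.1.2, q2.2]
      rw [haff]
      refine ⟨⟨htt, mem_ball3 _ _ hx (habs _ hy)⟩, ?_⟩
      rcases q3 with h | h | h | h
      · have : (q.1 + 1) / 2 = 1 := by rw [h]; norm_num
        rw [this]
        exact (hstrip _ hy t htt).2
      · have : (q.1 + 1) / 2 = 0 := by rw [h]; norm_num
        rw [this]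
        exact (hstrip _ hy t htt).1
      · have : c + (q.2 + 1) / 2 * (c' - c) = c' := by rw [h]; ring
        rw [this]
        exact hc'.2 _ hx
      · have : c + (q.2 + 1) / 2 * (c' - c) = c := by rw [h]; ring
        rw [this]
        exact hc.2 _ hx
    have hfill := hrect t htt ((c + c') / 2) ((c' - c) / 2) (by linarith) (by
      rw [abs_of_nonneg (by linarith [hc.1.1])]
      linarith [hc'.1.2]) fun q hq => (hin q hq).2
    have hbd : BdMap Y fun q => G (t, aff (1 / 2 + (((c + c') / 2 : ℝ) : ℂ) * Complex.I) (1 / 2)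
        ((c' - c) / 2) q) :=
      ⟨hGc.comp (by unfold aff; fun_prop) hin, hGY.comp hin⟩
    have := (((H E Y).2.2 𝓕 hF).2.2.2.2 _ hbd).mp hfill
    simp only [haff] at this
    convert this using 3 with x x x x
    · simp only [hg]; congr 3 <;> ring_nf
    · simp only [hg, seg]; congr 3 <;> ring_nf
    · simp only [hg, seg]; congr 3 <;> ring_nf
    · simp only [hg]; congr 3 <;> ring_nf
  have hA' : ∀ t ∈ Icc (0 : ℝ) 1, ∀ c c', Adm t c → Adm t c' → Wc t c → Wc t c' := by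
    intro t htt c c' hc hc' h
    rcases lt_trichotomy c c' with h1 | h1 | h1
    · exact (hA t htt c c' hc hc' h1).mp h
    · rwa [← h1]
    · exact (hA t htt c' c hc' hc h1).mpr h
  -- moving the parameter
  have hloc : ∀ t₀ ∈ Icc (0 : ℝ) 1, ∃ c, Adm t₀ c ∧ ∀ᶠ t in 𝓝[Icc 0 1] t₀,
      Adm t c ∧ (Wc t₀ c ↔ Wc t c) := by
    intro t₀ ht₀
    obtain ⟨c, hc, hc2⟩ := (Ico_infinite hc₀).exists_notMem_finite ((ht t₀ ht₀).1.image Complex.im)
    have hadm : Adm t₀ c := by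
      refine ⟨hc, fun x hx h0 => hc2 ⟨(x : ℂ) + c * Complex.I, ⟨?_, h0⟩, by simp⟩⟩
      rw [mem_closedBall_zero_iff]
      exact norm_lt x c hx (habs c hc)
    refine ⟨c, hadm, ?_⟩
    have k := tube hhc (φ := fun p => (p.1, (p.2 : ℂ) + (c : ℂ) * Complex.I)) (by fun_prop)
      (x₀ := t₀) fun k hk => ⟨⟨ht₀, mem_ball3 k c hk (habs c hc)⟩, hadm.2 k hk⟩
    obtain ⟨ε, hε, hb⟩ := Metric.eventually_nhds_iff_ball.mp k
    have hall : ∀ s ∈ Icc (0 : ℝ) 1 ∩ ball t₀ ε, Adm s c := fun s hs =>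
      ⟨hc, fun x hx => hb s hs.2 x hx ⟨hs.1, mem_ball3 x c hx (habs c hc)⟩⟩
    filter_upwards [self_mem_nhdsWithin, mem_nhdsWithin_of_mem_nhds (ball_mem_nhds t₀ hε)]
      with t htt htb
    refine ⟨hall t ⟨htt, htb⟩, ?_⟩
    refine step H hF hS hD hf₁ hY₁ hf₂ hY₂ ho (p := (t₀, c)) (q := (t, c)) ⟨ht₀, hc⟩
      ⟨htt, hc⟩ (hB t₀ ht₀ c hadm) (hB t htt c (hall t ⟨htt, htb⟩)) rfl rfl rfl ?_
    have hD' : Convex ℝ ((Icc (0 : ℝ) 1 ∩ ball t₀ ε) ×ˢ Icc (0 : ℝ) 1) :=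
      ((convex_Icc 0 1).inter (convex_ball t₀ ε)).prod (convex_Icc 0 1)
    have m : MapsTo (fun p : ℝ × ℝ => (p.1, (p.2 : ℂ) + (c : ℂ) * Complex.I))
        ((Icc (0 : ℝ) 1 ∩ ball t₀ ε) ×ˢ Icc (0 : ℝ) 1) S :=
      fun p hp => ⟨⟨hp.1.1, mem_ball3 _ c hp.2 (habs c hc)⟩, (hall _ hp.1).2 _ hp.2⟩
    have hf : ContinuousOn (fun p : ℝ × ℝ => g p.1 p.2 c)
        ((Icc (0 : ℝ) 1 ∩ ball t₀ ε) ×ˢ Icc (0 : ℝ) 1) := hGc.comp (by fun_prop) m
    have hY : MapsTo (fun p : ℝ × ℝ => g p.1 p.2 c)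
        ((Icc (0 : ℝ) 1 ∩ ball t₀ ε) ×ˢ Icc (0 : ℝ) 1) Y := hGY.comp m
    have z0 : (0 : ℝ) ∈ Icc (0 : ℝ) 1 := ⟨le_rfl, zero_le_one⟩
    have z1 : (1 : ℝ) ∈ Icc (0 : ℝ) 1 := ⟨zero_le_one, le_rfl⟩
    have r1 := tri H hF hD' hf hY (o := (t₀, 0)) (p := (t₀, 1)) (q := (t, 1))
      ⟨⟨ht₀, mem_ball_self hε⟩, z0⟩ ⟨⟨ht₀, mem_ball_self hε⟩, z1⟩ ⟨⟨htt, htb⟩, z1⟩
    have r2 := tri H hF hD' hf hY (o := (t₀, 0)) (p := (t, 0)) (q := (t, 1))
      ⟨⟨ht₀, mem_ball_self hε⟩, z0⟩ ⟨⟨htt, htb⟩, z0⟩ ⟨⟨htt, htb⟩, z1⟩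
    have := trans' H hF r1 (hS _ _ r2)
    convert this using 3 with x x x x <;> simp [seg]
  let W : ℝ → Prop := fun t => ∀ c, Adm t c → Wc t c
  have hW : W 0 → W 1 := by
    refine isPreconnected_Icc.induction₂' (fun s t => W s → W t) (fun t₀ ht₀ => ?_)
      (fun _ _ _ _ _ _ h1 h2 h => h2 (h1 h)) ⟨le_rfl, zero_le_one⟩ ⟨zero_le_one, le_rfl⟩
    obtain ⟨c, hc, hev⟩ := hloc t₀ ht₀
    filter_upwards [hev, self_mem_nhdsWithin] with t h htt
    exact ⟨fun w c' hc' => hA' t htt c c' h.1 hc' (h.2.mp (w c hc)),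
      fun w c' hc' => hA' t₀ ht₀ c c' hc hc' (h.2.mpr (w c h.1))⟩
  have z0 : (0 : ℝ) ∈ Icc (0 : ℝ) 1 := ⟨le_rfl, zero_le_one⟩
  have z1 : (1 : ℝ) ∈ Icc (0 : ℝ) 1 := ⟨zero_le_one, le_rfl⟩
  have hW0 : W 0 := by
    intro c hc
    have hp : ((0 : ℝ), c) ∈ D := ⟨z0, hc.1⟩
    have g0 : ∀ x ∈ Icc (0 : ℝ) 1, ∀ y ∈ Ico (0 : ℝ) c₀, g 0 x y = y₀ := fun x hx y hy =>
      (hτ _ (mem_ball3 x y hx (habs y hy))).2.2.1
    have gs : ∀ a ∈ Icc (0 : ℝ) 1, ∀ x ∈ Icc (0 : ℝ) 1,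
        (fun p : ℝ × ℝ => g p.1 a p.2) (seg (0, 0) (0, c) x) = y₀ := by
      intro a ha x hx
      have h2 := (seg_maps hD ho hp hx).2
      have h1 : (seg (0, 0) (0, c) x).1 = 0 := by simp [seg]
      simp only [h1]
      exact g0 a ha _ h2
    refine relEq H hF (path_cat (path_seg hD hf₁ hY₁ ho hp) (hB 0 z0 c hc)
      (by simp only [seg_one])) fun x hx => ?_
    refine Eq.trans ?_ (gs 1 z1 x hx).symm
    exact cat_maps (D := {y₀}) (fun x hx => gs 0 z0 x hx) (fun x hx => g0 x hx c hc.1) hx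
  have hadm1 : Adm 1 0 :=
    ⟨⟨le_rfl, hc₀⟩, fun x hx => (hτ _ (mem_ball3 x 0 hx (by simp))).2.1⟩
  have hfin := (hW hW0 0 hadm1).2.2.2.2
  refine hF.congr _ _ (fun q hq => ?_) hfin
  obtain ⟨q1, -, -⟩ := bd_cases hq
  rw [abs_le] at q1
  have hx : (q.1 + 1) / 2 ∈ Icc (0 : ℝ) 1 := ⟨by linarith [q1.1], by linarith [q1.2]⟩
  simp only [two]
  split_ifs
  · rw [(hτ 1 (by simp)).2.2.1]
    refine cat_maps (D := {y₀}) (fun x hx => ?_) (fun x hx => ?_) hx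
    · simpa [seg, hg] using (ht x hx).2.2.2
    · exact (hτ _ (mem_ball3 x 0 hx (by simp))).2.2.2
  · simp [seg, hg]

end Pool.Agent.P.MP_daea48_ag
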