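import Pool.Agent.P.MP_daea48_ag.StK

/-! Package FF: a plane model of a function field without real place. -/

open Polynomial

namespace Pool.Agent.P.MP_daea48_ag

namespace FFaux

/-- An integral primitive element. -/
theorem core (R K : Type) [CommRing R] [IsDomain R] [CharZero R] [Field K] [Algebra R K]
    [FaithfulSMul R K] (halg : Algebra.IsAlgebraic R K) (s : Finset K)
    (hs : Subfield.closure (Set.range (algebraMap R K) ∪ (s : Set K)) = ⊤) :
    ∃ T : K, IsIntegral R T ∧ ∀ a : K, ∃ b : R, b ≠ 0 ∧ ∃ A : R[X],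
      a * algebraMap R K b = aeval T A := by
  let : Algebra (FractionRing R) K := FractionRing.liftAlgebra R K
  have : IsScalarTower R (FractionRing R) K := FractionRing.isScalarTower_liftAlgebra R K
  have hF : Algebra.IsAlgebraic (FractionRing R) K :=
    (IsFractionRing.comap_isAlgebraic_iff (A := R) (K := FractionRing R) (C := K)).mp halg
  have htop : IntermediateField.adjoin (FractionRing R) (s : Set K) = ⊤ := by
    apply IntermediateField.toSubfield_injective
    rw [IntermediateField.top_toSubfield, eq_top_iff, ← hs, Subfield.closure_le]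
    rintro x (⟨r, rfl⟩ | hx)
    · rw [IsScalarTower.algebraMap_apply R (FractionRing R) K]
      exact (IntermediateField.adjoin (FractionRing R) (s : Set K)).algebraMap_mem _
    · exact IntermediateField.subset_adjoin _ _ hx
  have hfin : FiniteDimensional (FractionRing R)
      (IntermediateField.adjoin (FractionRing R) (s : Set K)) :=
    IntermediateField.finiteDimensional_adjoin fun x _ => (hF.isAlgebraic x).isIntegral
  rw [htop] at hfin
  have : FiniteDimensional (FractionRing R) K :=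
    IntermediateField.topEquiv.toLinearEquiv.finiteDimensional
  have : CharZero (FractionRing R) := inferInstance
  obtain ⟨θ, hθ⟩ := Field.exists_primitive_element (FractionRing R) K
  obtain ⟨y, hy, hint⟩ := (halg.isAlgebraic θ).exists_integral_multiple
  refine ⟨y • θ, hint, fun a => ?_⟩
  have ha : a ∈ Algebra.adjoin (FractionRing R) {θ} := by
    rw [← IntermediateField.adjoin_simple_toSubalgebra_of_isAlgebraic (hF.isAlgebraic θ), hθ]
    trivial
  rw [Algebra.adjoin_singleton_eq_range_aeval] at ha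
  obtain ⟨p, rfl⟩ := ha
  have hy' : algebraMap R (FractionRing R) y ≠ 0 := by
    simpa using hy
  set q : (FractionRing R)[X] := p.comp (C (algebraMap R (FractionRing R) y)⁻¹ * X) with hq
  have hqp : aeval (y • θ) q = aeval θ p := by
    rw [hq, aeval_comp]
    congr 2
    rw [map_mul, aeval_C, aeval_X, Algebra.smul_def,
      IsScalarTower.algebraMap_apply R (FractionRing R) K, ← mul_assoc, ← map_mul,
      inv_mul_cancel₀ hy', map_one, one_mul]
  obtain ⟨b, hb, hbq⟩ := IsLocalization.integerNormalization_spec (nonZeroDivisors R) q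
  refine ⟨b, nonZeroDivisors.ne_zero hb, IsLocalization.integerNormalization (nonZeroDivisors R) q,
    ?_⟩
  rw [← aeval_map_algebraMap (FractionRing R), hbq,
    ← IsScalarTower.algebraMap_smul (FractionRing R) b q, map_smul, hqp, Algebra.smul_def, ← IsScalarTower.algebraMap_apply, mul_comm]
  rfl

/-- A transcendental element over which the field is algebraic. -/
theorem exists_t (K : Type) [Field K] [Algebra ℝ K] (h : Algebra.trdeg ℝ K = 1) :
    ∃ t : K, Transcendental ℝ t ∧ Algebra.IsAlgebraic (Algebra.adjoin ℝ {t}) K := by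
  have hT : Algebra.Transcendental ℝ K := trdeg_ne_zero_iff.mp (by rw [h]; exact one_ne_zero)
  obtain ⟨t, ht⟩ := hT.transcendental
  refine ⟨t, ht, ?_⟩
  have hi : AlgebraicIndependent ℝ (fun _ : Unit => t) :=
    algebraicIndependent_unique_type_iff.mpr ht
  have hb := hi.isTranscendenceBasis_of_trdeg_le_of_finite (by rw [h]; simp)
  have := hb.isAlgebraic
  rwa [Set.range_const] at this

section val

variable {K : Type} [Field K] [Algebra ℝ K] (t T : K) (t₀ T₀ : ℝ)

/-- Fractions whose denominator does not vanish at the point. -/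
def Loc (a : K) : Prop :=
  ∃ A B : ℝ[X][X], B.evalEval t₀ T₀ ≠ 0 ∧ a * aevalAeval t T B = aevalAeval t T A

theorem loc_poly (A : ℝ[X][X]) : Loc t T t₀ T₀ (aevalAeval t T A) :=
  ⟨A, 1, by simp, by simp⟩

variable {t T t₀ T₀}

theorem Loc.mul {a b : K} (ha : Loc t T t₀ T₀ a) (hb : Loc t T t₀ T₀ b) :
    Loc t T t₀ T₀ (a * b) := by
  obtain ⟨A, B, h1, h2⟩ := ha
  obtain ⟨A', B', h1', h2'⟩ := hb
  refine ⟨A * A', B * B', by rw [evalEval_mul]; exact mul_ne_zero h1 h1', ?_⟩
  rw [map_mul, map_mul, ← h2, ← h2']; ring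

theorem Loc.add {a b : K} (ha : Loc t T t₀ T₀ a) (hb : Loc t T t₀ T₀ b) :
    Loc t T t₀ T₀ (a + b) := by
  obtain ⟨A, B, h1, h2⟩ := ha
  obtain ⟨A', B', h1', h2'⟩ := hb
  refine ⟨A * B' + A' * B, B * B', by rw [evalEval_mul]; exact mul_ne_zero h1 h1', ?_⟩
  rw [map_add, map_mul, map_mul, map_mul, ← h2, ← h2']; ring

theorem Loc.neg {a : K} (ha : Loc t T t₀ T₀ a) : Loc t T t₀ T₀ (-a) := by
  obtain ⟨A, B, h1, h2⟩ := ha
  refine ⟨-A, B, h1, ?_⟩
  rw [map_neg, ← h2]; ring

theorem Loc.pow {a : K} (ha : Loc t T t₀ T₀ a) (n : ℕ) : Loc t T t₀ T₀ (a ^ n) := by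
  induction n with
  | zero => simpa using loc_poly t T t₀ T₀ 1
  | succ n ih => rw [pow_succ]; exact ih.mul ha

theorem split (A : ℝ[X][X]) (hA : A.evalEval t₀ T₀ = 0) :
    ∃ (A₁ : ℝ[X][X]) (r : ℝ[X]), A = (X - C (C T₀)) * A₁ + C ((X - C t₀) * r) := by
  have h1 : (X - C t₀) ∣ A.eval (C T₀) := dvd_iff_isRoot.mpr hA
  obtain ⟨r, hr⟩ := h1
  obtain ⟨A₁, hA₁⟩ := X_sub_C_dvd_sub_C_eval (a := C T₀) (p := A)
  refine ⟨A₁, r, ?_⟩
  rw [← hr, ← hA₁]; ring

variable {Q : ℝ[X][X]} (hker : ∀ A, aevalAeval t T A = 0 ↔ Q ∣ A) (hQ : Q.evalEval t₀ T₀ = 0)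
  (hQ' : (derivative Q).evalEval t₀ T₀ ≠ 0)

include hker hQ in
theorem ev_zero {A : ℝ[X][X]} (h : aevalAeval t T A = 0) : A.evalEval t₀ T₀ = 0 := by
  obtain ⟨c, rfl⟩ := (hker A).mp h
  rw [evalEval_mul, hQ, zero_mul]

include hker hQ in
theorem pi_inv (hπ : t - algebraMap ℝ K t₀ ≠ 0) :
    ¬ Loc t T t₀ T₀ (t - algebraMap ℝ K t₀)⁻¹ := by
  rintro ⟨A, B, h1, h2⟩
  have h3 : aevalAeval t T (B - C (X - C t₀) * A) = 0 := by
    rw [map_sub, map_mul, aevalAeval_C, ← h2, map_sub, aeval_X, aeval_C, ← mul_assoc,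
      mul_inv_cancel₀ hπ, one_mul, sub_self]
  have h4 := ev_zero hker hQ h3
  rw [evalEval_sub, evalEval_mul, evalEval_C] at h4
  simp at h4
  exact h1 h4

include hker hQ hQ' in
theorem div_pi (hπ : t - algebraMap ℝ K t₀ ≠ 0) {A : ℝ[X][X]} (hA : A.evalEval t₀ T₀ = 0) :
    Loc t T t₀ T₀ (aevalAeval t T A * (t - algebraMap ℝ K t₀)⁻¹) := by
  obtain ⟨Q₁, r, hr⟩ := split Q hQ
  obtain ⟨A₁, r', hr'⟩ := split A hA
  have hQ₁ : Q₁.evalEval t₀ T₀ ≠ 0 := by
    intro h0
    apply hQ'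
    rw [hr]
    simp only [derivative_add, derivative_mul, derivative_sub, derivative_X, derivative_C,
      evalEval_add, evalEval_mul, evalEval_sub, h0]
    simp [evalEval]
  have hQ0 : aevalAeval t T Q = 0 := (hker Q).mpr dvd_rfl
  have e1 : (T - algebraMap ℝ K T₀) * aevalAeval t T Q₁ +
      (t - algebraMap ℝ K t₀) * aeval t r = 0 := by
    rw [← hQ0]
    conv_rhs => rw [hr]
    rw [map_add, map_mul, map_sub, aevalAeval_Y, aevalAeval_C, aevalAeval_C, aeval_C, map_mul,
      map_sub, aeval_X, aeval_C]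
  have e2 : aevalAeval t T A = (T - algebraMap ℝ K T₀) * aevalAeval t T A₁ +
      (t - algebraMap ℝ K t₀) * aeval t r' := by
    conv_lhs => rw [hr']
    rw [map_add, map_mul, map_sub, aevalAeval_Y, aevalAeval_C, aevalAeval_C, aeval_C, map_mul,
      map_sub, aeval_X, aeval_C]
  refine ⟨C r' * Q₁ - C r * A₁, Q₁, hQ₁, ?_⟩
  rw [map_sub, map_mul, map_mul, aevalAeval_C, aevalAeval_C, e2]
  field_simp
  linear_combination aevalAeval t T A₁ * e1

include hker hQ hQ' in
theorem dich (hπ : t - algebraMap ℝ K t₀ ≠ 0) {a : K} (ha : Loc t T t₀ T₀ a) :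
    Loc t T t₀ T₀ (a * (t - algebraMap ℝ K t₀)⁻¹) ∨ (a ≠ 0 ∧ Loc t T t₀ T₀ a⁻¹) := by
  obtain ⟨A, B, h1, h2⟩ := ha
  by_cases hA : A.evalEval t₀ T₀ = 0
  · left
    obtain ⟨A', B', h1', h2'⟩ := div_pi hker hQ hQ' hπ hA
    refine ⟨A', B * B', by rw [evalEval_mul]; exact mul_ne_zero h1 h1', ?_⟩
    rw [map_mul, ← h2', ← h2]; ring
  · right
    have ha0 : a ≠ 0 := by
      rintro rfl
      exact hA (ev_zero hker hQ (by rw [← h2, zero_mul]))
    refine ⟨ha0, B, A, hA, ?_⟩
    rw [← h2, ← mul_assoc, inv_mul_cancel₀ ha0, one_mul]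

theorem loc_pi : Loc t T t₀ T₀ (t - algebraMap ℝ K t₀) := by
  have := loc_poly t T t₀ T₀ (C (X - C t₀))
  rwa [aevalAeval_C, map_sub, aeval_X, aeval_C] at this

include hker hQ hQ' in
theorem total (hπ : t - algebraMap ℝ K t₀ ≠ 0) (n : ℕ) : ∀ x : K,
    Loc t T t₀ T₀ ((t - algebraMap ℝ K t₀) ^ n * x) → Loc t T t₀ T₀ x ∨ Loc t T t₀ T₀ x⁻¹ := by
  induction n with
  | zero => intro x hx; left; simpa using hx
  | succ n ih =>
    intro x hx
    rcases dich hker hQ hQ' hπ hx with h | ⟨h0, h⟩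
    · apply ih
      convert h using 1
      field_simp
      ring
    · right
      have hx0 : x ≠ 0 := by rintro rfl; simp at h0
      convert (loc_pi.pow (n + 1)).mul h using 1
      field_simp

theorem pow_mul_loc (x : K) (s : ℝ[X]) (hs : s ≠ 0) (A : ℝ[X][X])
    (h : x * aeval t s = aevalAeval t T A) :
    ∃ n : ℕ, Loc t T t₀ T₀ ((t - algebraMap ℝ K t₀) ^ n * x) := by
  obtain ⟨q, hq, hq'⟩ := exists_eq_pow_rootMultiplicity_mul_and_not_dvd s hs t₀
  refine ⟨rootMultiplicity t₀ s, A, C q, ?_, ?_⟩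
  · rw [evalEval_C]
    intro h0
    exact hq' (dvd_iff_isRoot.mpr h0)
  · rw [← h, aevalAeval_C]
    conv_rhs => rw [hq]
    rw [map_mul, map_pow, map_sub, aeval_X, aeval_C]
    ring

include hker hQ hQ' in
theorem exists_place (hπ : t - algebraMap ℝ K t₀ ≠ 0)
    (hrep : ∀ x : K, ∃ s : ℝ[X], s ≠ 0 ∧ ∃ A : ℝ[X][X], x * aeval t s = aevalAeval t T A) :
    ∃ O : ValuationSubring K, IsPlace O ∧ RealResidue O := by
  let O : ValuationSubring K :=
    { carrier := {a | Loc t T t₀ T₀ a}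
      mul_mem' := fun ha hb => Loc.mul ha hb
      one_mem' := by simpa using loc_poly t T t₀ T₀ 1
      add_mem' := fun ha hb => Loc.add ha hb
      zero_mem' := by simpa using loc_poly t T t₀ T₀ 0
      neg_mem' := fun ha => Loc.neg ha
      mem_or_inv_mem' := fun x => by
        obtain ⟨s, hs, A, h⟩ := hrep x
        obtain ⟨n, hn⟩ := pow_mul_loc (t₀ := t₀) (T₀ := T₀) x s hs A h
        exact total hker hQ hQ' hπ n x hn }
  have hO : ∀ a, a ∈ O ↔ Loc t T t₀ T₀ a := fun a => Iff.rfl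
  refine ⟨O, ⟨?_, fun r => ?_⟩, ?_⟩
  · intro h
    apply pi_inv hker hQ hπ
    rw [← hO, h]
    trivial
  · rw [hO]
    have := loc_poly t T t₀ T₀ (C (C r))
    rwa [aevalAeval_C, aeval_C] at this
  · intro x hx
    obtain ⟨A, B, h1, h2⟩ := (hO x).mp hx
    set r : ℝ := A.evalEval t₀ T₀ / B.evalEval t₀ T₀ with hr
    refine ⟨r, ?_⟩
    rw [ValuationSubring.mem_nonunits_iff_or]
    by_cases h0 : x - algebraMap ℝ K r = 0
    · exact Or.inl h0
    right
    intro hinv
    have hA : (A - C (C r) * B).evalEval t₀ T₀ = 0 := by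
      rw [evalEval_sub, evalEval_mul, evalEval_C, eval_C, hr, div_mul_cancel₀ _ h1, sub_self]
    obtain ⟨A', B', h1', h2'⟩ := div_pi hker hQ hQ' hπ hA
    have h3 : Loc t T t₀ T₀ ((x - algebraMap ℝ K r) * (t - algebraMap ℝ K t₀)⁻¹) := by
      refine ⟨A', B * B', by rw [evalEval_mul]; exact mul_ne_zero h1 h1', ?_⟩
      rw [map_mul, ← h2', map_sub, map_mul, aevalAeval_C, aeval_C, ← h2]; ring
    apply pi_inv hker hQ hπ
    convert h3.mul ((hO _).mp hinv) using 1
    field_simp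

end val

end FFaux

open FFaux in
theorem FF_of : S_FF := by
  intro K _ _ hK
  obtain ⟨⟨s, hs⟩, htr, hno⟩ := hK
  obtain ⟨t, ht, halg⟩ := exists_t K htr
  let : Algebra ℝ[X] K := (aeval t : ℝ[X] →ₐ[ℝ] K).toRingHom.toAlgebra
  have hmap : ∀ p : ℝ[X], algebraMap ℝ[X] K p = aeval t p := fun p => rfl
  have hinj : Function.Injective (algebraMap ℝ[X] K) := transcendental_iff_injective.mp ht
  have : FaithfulSMul ℝ[X] K := (faithfulSMul_iff_algebraMap_injective _ _).mpr hinj
  have hev : ∀ (T : K) (A : ℝ[X][X]), aevalAeval t T A = aeval T A := by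
    intro T A
    induction A using Polynomial.induction_on' with
    | add p q hp hq => rw [map_add, map_add, hp, hq]
    | monomial n a =>
      rw [← C_mul_X_pow_eq_monomial, map_mul, map_mul, map_pow, map_pow, aevalAeval_C,
        aevalAeval_Y, aeval_C, aeval_X, hmap]
  have halg' : Algebra.IsAlgebraic ℝ[X] K := by
    let f : ℝ[X] →+* Algebra.adjoin ℝ {t} :=
      (aeval t : ℝ[X] →ₐ[ℝ] K).toRingHom.codRestrict (Algebra.adjoin ℝ {t}) fun p => by
        rw [Algebra.adjoin_singleton_eq_range_aeval]; exact ⟨p, rfl⟩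
    have hf : Function.Surjective f := by
      rintro ⟨x, hx⟩
      rw [Algebra.adjoin_singleton_eq_range_aeval] at hx
      obtain ⟨p, rfl⟩ := hx
      exact ⟨p, rfl⟩
    constructor
    intro a
    obtain ⟨p, hp, hpa⟩ := halg.isAlgebraic a
    obtain ⟨q, rfl⟩ := map_surjective f hf p
    refine ⟨q, fun h0 => hp (by rw [h0, Polynomial.map_zero]), ?_⟩
    rw [aeval_def, eval₂_map] at hpa
    exact hpa
  have hcl : Subfield.closure (Set.range (algebraMap ℝ[X] K) ∪ (s : Set K)) = ⊤ := by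
    rw [eq_top_iff, ← IntermediateField.top_toSubfield (F := ℝ), ← hs,
      IntermediateField.adjoin_toSubfield]
    apply Subfield.closure_mono
    apply Set.union_subset_union_left
    rintro _ ⟨r, rfl⟩
    exact ⟨C r, by rw [hmap, aeval_C]⟩
  obtain ⟨T, hT, hrep⟩ := core ℝ[X] K halg' s hcl
  have hker : ∀ A, aevalAeval t T A = 0 ↔ minpoly ℝ[X] T ∣ A := fun A => by
    rw [hev]; exact minpoly.isIntegrallyClosed_dvd_iff hT A
  have hmon : (minpoly ℝ[X] T).Monic := minpoly.monic hT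
  have hpos : 0 < (minpoly ℝ[X] T).natDegree := minpoly.natDegree_pos hT
  have hrep' : ∀ x : K, ∃ s : ℝ[X], s ≠ 0 ∧ ∃ A : ℝ[X][X], x * aeval t s = aevalAeval t T A :=
    fun x => by
      obtain ⟨b, hb, A, h⟩ := hrep x
      exact ⟨b, hb, A, by rw [hev, ← h, hmap]⟩
  have hd : aevalAeval t T (derivative (minpoly ℝ[X] T)) ≠ 0 := by
    intro h0
    have h1 := (hker _).mp h0
    have h2 : derivative (minpoly ℝ[X] T) ≠ 0 := fun h =>
      hpos.ne' (derivative_eq_zero.mp h)
    exact absurd (natDegree_le_of_dvd h1 h2) (not_le.mpr (natDegree_derivative_lt hpos.ne'))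
  obtain ⟨δ, hδ, A, hA⟩ := hrep' (aevalAeval t T (derivative (minpoly ℝ[X] T)))⁻¹
  have hbez : ∃ a b : ℝ[X][X], a * minpoly ℝ[X] T + b * derivative (minpoly ℝ[X] T) = C δ := by
    have : aevalAeval t T (C δ - A * derivative (minpoly ℝ[X] T)) = 0 := by
      rw [map_sub, map_mul, ← hA, aevalAeval_C]
      field_simp
      ring
    obtain ⟨c, hc⟩ := (hker _).mp this
    exact ⟨c, A, by linear_combination -hc⟩
  refine ⟨⟨t, T, minpoly ℝ[X] T, δ, hmon, hpos, hδ, hbez, fun a => ?_, hker, ?_⟩⟩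
  · obtain ⟨b, hb, B, h⟩ := hrep' a
    refine ⟨(b, B %ₘ minpoly ℝ[X] T), hb, degree_modByMonic_lt _ hmon, ?_⟩
    rw [h]
    conv_lhs => rw [← modByMonic_add_div B (minpoly ℝ[X] T)]
    rw [map_add, map_mul, (hker _).mpr dvd_rfl, zero_mul, add_zero]
  · intro t₀ T₀ h0 hQ
    have hQ' : (derivative (minpoly ℝ[X] T)).evalEval t₀ T₀ ≠ 0 := by
      intro h1
      obtain ⟨a, b, hab⟩ := hbez
      have := congrArg (evalEval t₀ T₀) hab
      rw [evalEval_add, evalEval_mul, evalEval_mul, hQ, h1, evalEval_C] at this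
      apply h0
      rw [← this]; ring
    have hπ : t - algebraMap ℝ K t₀ ≠ 0 := by
      intro h1
      apply ht
      rw [sub_eq_zero.mp h1]
      exact isAlgebraic_algebraMap t₀
    obtain ⟨O, hO, hR⟩ := exists_place hker hQ hQ' hπ hrep'
    exact hno O hO hR

end Pool.Agent.P.MP_daea48_ag
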