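import Pool.Agent.P.MP_daea48_ag.StK

/-! All loops are fillable. -/

open Set

namespace Pool.Agent.P.MP_daea48_ag

theorem Fill_of (hIFT : S_IFT) (hSim : S_Sim) (hFC2 : S_FC2) (hPow : S_Pow) (hBall : S_Ball)
    (hP2 : S_P2) (hEll : S_Ell) (hLim : S_Lim) : S_Fill := by
  intro E _ _ _ E' _ _ _ L _ _ _ E₀ _ _ _ EP _ _ _ U pr lab D m ch haps hc hbr κ β hκ F hF
  obtain ⟨T⟩ := hIFT.1 E E' U pr haps
  have hfs := (hSim E E' U pr T κ β hκ).2
  obtain ⟨-, -, -, -, h5, h6⟩ := hFC2 E _ _ hfs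
  have hsym := h5 (hPow E E' L E₀ EP U pr lab T D κ β hκ)
  have hb : ∀ i, BallOK (ch i) (κ β) (SFill U κ β) := fun i =>
    hBall E E' U pr T (ch i) κ β hκ hsym
  have ha := hP2 E U m ch (κ β) _ T.closed hc hfs hsym hb
  refine h6 univ (fun α hα _ => ?_) F hF (mapsTo_univ _ _)
  exact hLim E E' U pr m ch (κ β) _ α haps hc hfs hb ha fun ε h0 h1 =>
    hEll E E' L U pr lab (κ β) _ α ε haps hbr hfs hα h0 h1

end Pool.Agent.P.MP_daea48_ag
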