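import Pool.Agent.P.MP_daea48_ag.FillW1

/-! Filling for Weil restrictions. -/

open Set Filter Topology Metric Polynomial

namespace Pool.Agent.P.MP_daea48_ag

namespace FillW

noncomputable section

open Classical

variable {E E' : Type} [NormedAddCommGroup E] [NormedSpace ℂ E] [FiniteDimensional ℂ E]
  [NormedAddCommGroup E'] [NormedSpace ℂ E'] [FiniteDimensional ℂ E']
  {Q : ℂ[X][X]} {d : ℕ} {δ : ℂ[X]} {U : Set (ℂ × ((ℂ × ℂ) × E))} {pr : E →L[ℂ] E'}
  {κ : ℂ → ℂ} {β : ℂ} {v : Fin d → ℂ → ℂ} {co : Fin d → Fin d → ℂ → ℂ}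

/-- Interpolation with given coefficient functions. -/
def comb (co : Fin d → Fin d → ℂ → ℂ) (x : ℂ) (w : Fin d → E) : Fin d → E :=
  fun k => ∑ i, co i k x • w i

/-- The inverse of the discriminant. -/
def yy (δ : ℂ[X]) (κ : ℂ → ℂ) (x : ℂ) : ℂ := (δ.eval (κ x))⁻¹

/-- The branches describe the roots at `x`. -/
structure Good (E : Type) [NormedAddCommGroup E] [NormedSpace ℂ E] (Q : ℂ[X][X]) (δ : ℂ[X])
    (κ : ℂ → ℂ) (v : Fin d → ℂ → ℂ) (co : Fin d → Fin d → ℂ → ℂ) (x : ℂ) : Prop where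
  ne : δ.eval (κ x) ≠ 0
  inj : Function.Injective fun i => v i x
  root : ∀ w, Q.evalEval (κ x) w = 0 ↔ ∃ i, v i x = w
  ev_comb : ∀ (w : Fin d → E) i, ev (v i x) (comb co x w) = w i
  comb_ev : ∀ X : Fin d → E, comb co x (fun i => ev (v i x) X) = X
  aκ : AnalyticAt ℂ κ x
  av : ∀ i, AnalyticAt ℂ (v i) x
  aco : ∀ i k, AnalyticAt ℂ (co i k) x

theorem exists_good (hI : S_Itp) (hC : Cov Q d δ) (hκ : AnalyticAt ℂ κ β)
    (h0 : δ.eval (κ β) ≠ 0) : ∃ (v : Fin d → ℂ → ℂ) (co : Fin d → Fin d → ℂ → ℂ),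
      ∀ᶠ x in 𝓝 β, Good E Q δ κ v co x := by
  obtain ⟨-, -, -, -, h5, h6, -⟩ := hI Q d δ hC
  obtain ⟨ha, hb, -⟩ := h5 E
  obtain ⟨v, co, h1, h2, h3⟩ := h6 κ β hκ h0
  refine ⟨v, co, ?_⟩
  have h4 : ∀ᶠ x in 𝓝 β, δ.eval (κ x) ≠ 0 :=
    (δ.continuous.continuousAt.comp hκ.continuousAt).eventually_ne h0
  filter_upwards [h3, h4, hκ.eventually_analyticAt,
    eventually_all.2 fun i => (h1 i).eventually_analyticAt,
    eventually_all.2 fun i => eventually_all.2 fun k => (h2 i k).eventually_analyticAt]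
    with x ⟨h7, h8, h9⟩ h10 h11 h12 h13
  refine ⟨h10, h7, h8, fun w i => ?_, fun X => ?_, h11, h12, h13⟩
  · have e : comb co x w = itp Q d (κ x) (Function.extend (fun i => v i x) w 0) := by
      funext k
      rw [h9 E]
      exact Finset.sum_congr rfl fun i _ => by rw [h7.extend_apply]
    rw [e, ha _ _ _ h10 ((h8 _).2 ⟨i, rfl⟩), h7.extend_apply]
  · conv_rhs => rw [← hb _ X h10]
    funext k
    rw [h9 E]
    rfl

omit [FiniteDimensional ℂ E] in
theorem Good.ay {x : ℂ} (h : Good E Q δ κ v co x) : AnalyticAt ℂ (yy δ κ) x :=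
  ((δ.differentiable.analyticAt _).comp h.aκ).inv h.ne

omit [FiniteDimensional ℂ E] in
theorem Good.mem {x : ℂ} (h : Good E Q δ κ v co x) {w : Fin d → E}
    (hw : ∀ i, (κ x, ((v i x, yy δ κ x), w i)) ∈ U) :
    (κ x, (comb co x w, yy δ κ x)) ∈ WU Q d δ U := by
  refine ⟨inv_mul_cancel₀ h.ne, fun r hr => ?_⟩
  obtain ⟨i, rfl⟩ := (h.root r).1 hr
  simpa only [h.ev_comb] using hw i

omit [FiniteDimensional ℂ E] in
theorem Good.lab {x : ℂ} (h : Good E Q δ κ v co x) (hO : OnCV Q δ U) {u : (ℂ × ℂ) × E}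
    (hu : (κ x, u) ∈ U) : u.1.2 = yy δ κ x ∧ ∃ i, v i x = u.1.1 :=
  ⟨eq_inv_of_mul_eq_one_left (hO _ hu).2, (h.root _).1 (hO _ hu).1⟩

omit [FiniteDimensional ℂ E] in
theorem Good.mem_of {x : ℂ} (h : Good E Q δ κ v co x) (hO : OnCV Q δ U) {u : (ℂ × ℂ) × E}
    (hu : (κ x, u) ∈ U) {i : Fin d} (hi : u.1.1 = v i x) :
    (κ x, ((v i x, yy δ κ x), u.2)) ∈ U := by
  rw [← hi, ← (h.lab hO hu).1]
  exact hu

omit [FiniteDimensional ℂ E'] in
theorem sec (T : TC U (prB _ pr)) (hO : OnCV Q δ U) (hG : ∀ᶠ x in 𝓝 β, Good E Q δ κ v co x)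
    {u : (ℂ × ℂ) × E} (hu : (κ β, u) ∈ U) {i : Fin d} (hi : u.1.1 = v i β) :
    ∀ᶠ z in 𝓝 β, AnalyticAt ℂ (fun z => T.ex (κ β, u) (κ z, prB _ pr u)) z ∧
      (κ z, T.ex (κ β, u) (κ z, prB _ pr u)) ∈ U ∧
      (T.ex (κ β, u) (κ z, prB _ pr u)).1.1 = v i z := by
  have h0 := hG.self_of_nhds
  obtain ⟨h1, h2, h3⟩ := T.exists_local h0.aκ hu
  have h4 : ∀ i', ∀ᶠ z in 𝓝 β, i' ≠ i → v i' z ≠ (T.ex (κ β, u) (κ z, prB _ pr u)).1.1 := by
    intro i'
    by_cases e : i' = i
    · exact Eventually.of_forall fun z h => absurd e h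
    have h5 : ContinuousAt (fun z => v i' z - (T.ex (κ β, u) (κ z, prB _ pr u)).1.1) β :=
      (h0.av i').continuousAt.sub h1.continuousAt.fst.fst
    refine (h5.eventually_ne (y := 0) ?_).mono fun z hz _ => sub_ne_zero.1 hz
    simp only [h2, hi]
    exact sub_ne_zero.2 fun h => e (h0.inj h)
  filter_upwards [hG, h1.eventually_analyticAt, h3, eventually_all.2 h4] with z hz h6 h7 h8
  refine ⟨h6, h7.1, ?_⟩
  obtain ⟨i', hi'⟩ := (hz.lab hO h7.1).2
  by_cases e : i' = i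
  · rw [← hi', e]
  · exact absurd hi' (h8 i' e)

/-- The point of the Weil restriction with coordinate `j` equal to `e`. -/
def Psi (δ : ℂ[X]) (κ : ℂ → ℂ) (co : Fin d → Fin d → ℂ → ℂ) (t : Fin d → ℂ → E) (j : Fin d)
    (z : ℂ) (e : E) : (Fin d → E) × ℂ :=
  (comb co z fun i => if i = j then e else t i z, yy δ κ z)

omit [FiniteDimensional ℂ E] in
theorem cont_Psi {X : Type} [TopologicalSpace X] {D : Set X} {x₀ : X} {z : X → ℂ} {e : X → E}
    {t : Fin d → ℂ → E} (j : Fin d) (hz : ContinuousWithinAt z D x₀)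
    (he : ContinuousWithinAt e D x₀) (hG : Good E Q δ κ v co (z x₀))
    (ht : ∀ i, AnalyticAt ℂ (t i) (z x₀)) :
    ContinuousWithinAt (fun x => Psi δ κ co t j (z x) (e x)) D x₀ := by
  refine ContinuousWithinAt.prodMk (continuousWithinAt_pi.2 fun k => ?_)
    (hG.ay.continuousAt.comp_continuousWithinAt hz)
  refine tendsto_finsetSum _ fun i _ => ?_
  refine ContinuousWithinAt.smul ((hG.aco i k).continuousAt.comp_continuousWithinAt hz) ?_
  by_cases h : i = j
  · simpa only [if_pos h] using he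
  · simp only [if_neg h]
    exact (ht i).continuousAt.comp_continuousWithinAt hz

theorem mero_Psi {p : ℂ} {e : ℂ → E} {t : Fin d → ℂ → E} (j : Fin d) (he : MeromorphicAt e p)
    (hG : Good E Q δ κ v co p) (ht : ∀ i, AnalyticAt ℂ (t i) p) :
    MeromorphicAt (fun z => Psi δ κ co t j z (e z)) p := by
  refine mero_prod (mero_pi fun k => ?_) hG.ay.meromorphicAt
  refine MeromorphicAt.fun_sum fun i _ => ?_
  refine (hG.aco i k).meromorphicAt.smul ?_
  by_cases h : i = j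
  · simpa only [if_pos h] using he
  · simpa only [if_neg h] using (ht i).meromorphicAt

theorem core (hS : S_Sim) (T : TC U (prB _ pr)) (TW : TC (WU Q d δ U) (prW d pr))
    (hO : OnCV Q δ U) (hU : FillAll U) (hG : ∀ᶠ x in 𝓝 β, Good E Q δ κ v co x)
    {ξ : Fin d → E} (hξ : ∀ i, (κ β, ((v i β, yy δ κ β), ξ i)) ∈ U) (j : Fin d)
    {G : ℝ × ℝ → E} (hGc : ContinuousOn G bd)
    (hGm : ∀ p ∈ bd, (κ β, ((v j β, yy δ κ β), G p)) ∈ U) :
    SFill (WU Q d δ U) κ β
      fun p => (comb co β fun i => if i = j then G p else ξ i, yy δ κ β) := by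
  have h0 := hG.self_of_nhds
  let t : Fin d → ℂ → E := fun i z =>
    (T.ex (κ β, ((v i β, yy δ κ β), ξ i)) (κ z, prB _ pr ((v i β, yy δ κ β), ξ i))).2
  have ht0 : ∀ i, t i β = ξ i := fun i =>
    congrArg Prod.snd (T.exists_local h0.aκ (hξ i)).2.1
  have ht : ∀ᶠ z in 𝓝 β, ∀ i, AnalyticAt ℂ (t i) z ∧ (κ z, ((v i z, yy δ κ z), t i z)) ∈ U := by
    refine eventually_all.2 fun i => ?_
    filter_upwards [hG, sec T hO hG (hξ i) (i := i) rfl] with z hz h
    exact ⟨analyticAt_snd.comp h.1, hz.mem_of hO h.2.1 h.2.2⟩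
  have hF : (fun p => ((comb co β fun i => if i = j then G p else ξ i, yy δ κ β) :
      (Fin d → E) × ℂ)) = fun p => Psi δ κ co t j β (G p) := by
    funext p
    simp only [Psi, ht0]
  have hmem : ∀ z, Good E Q δ κ v co z → (∀ i, (κ z, ((v i z, yy δ κ z), t i z)) ∈ U) → ∀ e,
      (κ z, ((v j z, yy δ κ z), e)) ∈ U → (κ z, Psi δ κ co t j z e) ∈ WU Q d δ U :=
    fun z hz h1 e he => hz.mem fun i => by
      by_cases h : i = j
      · rw [if_pos h, h]; exact he
      · rw [if_neg h]; exact h1 i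
  rw [hF]
  refine (hS _ _ _ _ TW κ β h0.aκ).1 _ 1 1 one_pos one_pos ⟨fun p hp =>
    cont_Psi j continuousWithinAt_const (hGc p hp) h0 fun i => (ht.self_of_nhds i).1,
    fun p hp => hmem β h0 (fun i => (ht.self_of_nhds i).2) _ (hGm p hp)⟩ fun η hη => ?_
  let F : ℝ × ℝ → (ℂ × ℂ) × E := fun p => ((v j β, yy δ κ β), G p)
  have hFc : ContinuousOn F bd := continuousOn_const.prodMk hGc
  obtain ⟨η₁, hη₁, δ₁, hδ₁, H⟩ := hU κ β h0.aκ F ⟨hFc, hGm⟩
  let s : ℂ → ℝ × ℝ → (ℂ × ℂ) × E := fun z p => T.ex (κ β, F p) (κ z, prB _ pr (F p))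
  have hs0 : ∀ p ∈ bd, s β p = F p := fun p hp => (T.exists_local h0.aκ (hGm p hp)).2.1
  have hun : ∀ᶠ z in 𝓝 β, ∀ p ∈ bd, p ∈ bd →
      ‖((κ z, prB _ pr (F p)) : ℂ × E') - pj (prB _ pr) (κ β, F p)‖ < T.rho (κ β, F p) ^ 2 ∧
      ‖s z p - F p‖ < η₁ ∧ ‖Psi δ κ co t j z (s z p).2 - Psi δ κ co t j β (G p)‖ < η := by
    refine (isCompact_sphere _ _).eventually_forall_of_forall_eventually fun p hp => ?_
    have c0 : ContinuousWithinAt (fun x : ℂ × ℝ × ℝ => x.2) {x | x.2 ∈ bd} (β, p) :=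
      continuousWithinAt_snd
    have c1 : ContinuousWithinAt (fun x : ℂ × ℝ × ℝ => F x.2) {x | x.2 ∈ bd} (β, p) :=
      ContinuousWithinAt.comp (g := F) (t := bd) (hFc p hp) c0 fun x hx => hx
    have c2 : ContinuousWithinAt (fun x : ℂ × ℝ × ℝ => κ x.1) {x | x.2 ∈ bd} (β, p) :=
      ContinuousAt.comp_continuousWithinAt (f := Prod.fst) h0.aκ.continuousAt
        continuousWithinAt_fst
    have c3 : ContinuousWithinAt (fun x : ℂ × ℝ × ℝ => ((κ β, F x.2) : ℂ × (ℂ × ℂ) × E))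
        {x | x.2 ∈ bd} (β, p) := continuousWithinAt_const.prodMk c1
    have c4 : ContinuousWithinAt (fun x : ℂ × ℝ × ℝ => ((κ x.1, prB _ pr (F x.2)) : ℂ × E'))
        {x | x.2 ∈ bd} (β, p) :=
      c2.prodMk ((prB _ pr).continuous.continuousAt.comp_continuousWithinAt c1)
    have e0 : ‖((κ β, prB _ pr (F p)) : ℂ × E') - pj (prB _ pr) (κ β, F p)‖ <
        T.rho (κ β, F p) ^ 2 := by simpa using pow_pos (T.rho_pos (κ β, F p)) 2
    have c5 : ContinuousWithinAt (fun x : ℂ × ℝ × ℝ => s x.1 x.2) {x | x.2 ∈ bd} (β, p) :=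
      T.continuousWithinAt_ex c3 c4 ⟨hGm p hp, e0⟩
        (eventually_mem_nhdsWithin.mono fun x hx => hGm _ hx)
    have c6 : ContinuousWithinAt (fun x : ℂ × ℝ × ℝ => Psi δ κ co t j x.1 (s x.1 x.2).2)
        {x | x.2 ∈ bd} (β, p) :=
      cont_Psi j continuousWithinAt_fst c5.snd h0 fun i => (ht.self_of_nhds i).1
    have c7 : ContinuousWithinAt (fun x : ℂ × ℝ × ℝ => Psi δ κ co t j β (G x.2))
        {x | x.2 ∈ bd} (β, p) :=
      cont_Psi j continuousWithinAt_const c1.snd h0 fun i => (ht.self_of_nhds i).1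
    have e1 := (c4.sub ((continuous_pj _).continuousAt.comp_continuousWithinAt c3)).norm.eventually_lt
      ((T.continuous_rho.continuousAt.comp_continuousWithinAt c3).pow 2) e0
    have e2 := (c5.sub c1).norm.eventually_lt (g := fun _ => η₁) continuousWithinAt_const
      (by simpa [hs0 p hp] using hη₁)
    have e3 := (c6.sub c7).norm.eventually_lt (g := fun _ => η) continuousWithinAt_const
      (by simpa [hs0 p hp, F] using hη)
    exact eventually_nhdsWithin_iff.1 (e1.and (e2.and e3))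
  obtain ⟨δ₂, hδ₂, H'⟩ := Metric.eventually_nhds_iff_ball.1 (hG.and (ht.and (hun.and
    (sec T hO hG (hGm _ one_mem_bd) (i := j) rfl))))
  refine ⟨min δ₁ δ₂, lt_min hδ₁ hδ₂, fun ζ₀ τ hτ hr => ?_⟩
  have ha : 0 < τ * 1 := by linarith
  have hr1 := hr.trans (ball_subset_ball (min_le_left _ _))
  have hr2 := hr.trans (ball_subset_ball (min_le_right _ _))
  have hbd : ∀ p ∈ bd, aff ζ₀ (τ * 1) (τ * 1) p ∈ ball β δ₂ := fun p hp =>
    hr2 (mem_image_of_mem _ (sphere_subset_closedBall hp))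
  obtain ⟨S, ⟨P, hP, hSc, hSm⟩, hSb⟩ := H ζ₀ _ _ ha ha hr1 (fun p => s (aff ζ₀ (τ * 1) (τ * 1) p) p)
    (T.continuousOn_ex_comp (continuousOn_const.prodMk hFc)
      (ContinuousOn.prodMk (fun p hp => ContinuousAt.comp_continuousWithinAt
        (f := aff ζ₀ (τ * 1) (τ * 1)) (H' _ (hbd p hp)).1.aκ.continuousAt
          continuous_aff.continuousWithinAt) ((prB _ pr).continuous.comp_continuousOn hFc))
      fun p hp => ⟨hGm p hp, ((H' _ (hbd p hp)).2.2.1 p hp hp).1⟩)
    fun p hp => ⟨T.ex_mem (hGm p hp) ((H' _ (hbd p hp)).2.2.1 p hp hp).1,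
      ((H' _ (hbd p hp)).2.2.1 p hp hp).2.1⟩
  have hlab : ∀ z ∈ rect ζ₀ (τ * 1) (τ * 1) \ P, (S z).1.1 = v j z :=
    index_const (preconn ha ha fun p hp => (hP p hp).1) hSc.fst.fst
      (fun i z hz => ((H' z (hr2 hz.1)).1.av i).continuousAt.continuousWithinAt)
      (fun z hz => (H' z (hr2 hz.1)).1.inj)
      (fun z hz => ((H' z (hr2 hz.1)).1.lab hO (hSm z hz)).2)
      (bd_mem ha ha (fun p hp => (hP p hp).1) one_mem_bd)
      (by rw [hSb _ one_mem_bd]; exact (H' _ (hbd _ one_mem_bd)).2.2.2.2.2)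
  have hm : ∀ z ∈ rect ζ₀ (τ * 1) (τ * 1) \ P,
      (κ z, Psi δ κ co t j z (S z).2) ∈ WU Q d δ U := fun z hz =>
    hmem z (H' z (hr2 hz.1)).1 (fun i => ((H' z (hr2 hz.1)).2.1 i).2) _
      ((H' z (hr2 hz.1)).1.mem_of hO (hSm z hz) (hlab z hz))
  refine ⟨fun z => Psi δ κ co t j z (S z).2, ⟨P, fun p hp => ⟨(hP p hp).1, ?_, ?_⟩,
    fun z hz => ?_, hm⟩, fun p hp => ?_⟩
  · have h1 := H' p (hr2 (image_mono ball_subset_closedBall (hP p hp).1))
    exact mero_Psi j (mero_clm (ContinuousLinearMap.snd ℂ _ _) (hP p hp).2.1) h1.1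
      fun i => (h1.2.1 i).1
  · exact (eventually_rect ha ha P (hP p hp).1).mono hm
  · exact cont_Psi (z := fun z => z) j continuousWithinAt_id (hSc z hz).snd (H' z (hr2 hz.1)).1
      fun i => ((H' z (hr2 hz.1)).2.1 i).1
  · simp only [hSb p hp]
    exact ((H' _ (hbd p hp)).2.2.1 p hp hp).2.2

omit [NormedSpace ℂ E] [FiniteDimensional ℂ E] in
theorem two_cont {a : ℝ → E} (ha : ContinuousOn a (Icc 0 1)) (h01 : a 0 = a 1) :
    ContinuousOn (two (fun _ => a 0) a) bd := by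
  have e : bd = (bd ∩ {p | p.2 ≤ 0}) ∪ (bd ∩ {p | 0 ≤ p.2}) := by
    rw [← inter_union_distrib_left, eq_comm, inter_eq_left]
    exact fun p _ => le_total p.2 0
  rw [e]
  refine ContinuousOn.union_of_isClosed ?_ ?_
    (isClosed_sphere.inter (isClosed_le continuous_snd continuous_const))
    (isClosed_sphere.inter (isClosed_le continuous_const continuous_snd))
  · exact (continuousOn_const (c := a 0)).congr fun p hp => if_pos hp.2
  · refine (ha.comp (f := fun p : ℝ × ℝ => (p.1 + 1) / 2) (by fun_prop)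
      fun p hp => bd_le hp.1).congr fun p hp => ?_
    by_cases h : p.2 ≤ 0
    · have h1 : p.2 = 0 := le_antisymm h hp.2
      have h2 : ‖p‖ = 1 := mem_sphere_zero_iff_norm.1 hp.1
      rw [Prod.norm_def, h1, norm_zero, max_eq_left (norm_nonneg _), Real.norm_eq_abs] at h2
      simp only [two, if_pos h, Function.comp_apply]
      rcases abs_eq zero_le_one |>.1 h2 with h3 | h3
      · rw [h3, h01]; norm_num
      · rw [h3]; norm_num
    · exact if_neg h

omit [NormedSpace ℂ E] [FiniteDimensional ℂ E] in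
theorem LN_congr {Y : Set E} {𝓕 : (ℝ × ℝ → E) → Prop} (h : FillSys Y 𝓕) {α α' : ℝ → E}
    (e : EqOn α α' (Icc 0 1)) (hα : LN 𝓕 α) : LN 𝓕 α' := by
  refine h.congr _ _ (fun p hp => ?_) hα
  simp only [two, e (bd_le hp), e (left_mem_Icc.2 zero_le_one)]

omit [FiniteDimensional ℂ E] in
theorem cont_comb (x : ℂ) : Continuous fun w : Fin d → E => comb co x w := by
  unfold comb
  fun_prop

omit [FiniteDimensional ℂ E] in
theorem cont_ev (x : ℂ) : Continuous fun w : Fin d → E => ev x w := by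
  unfold ev
  fun_prop

theorem mem_unit {μ s t : ℝ} (hμ : μ ∈ Icc (0 : ℝ) 1) (hs : s ∈ Icc (0 : ℝ) 1)
    (ht : t ∈ Icc (0 : ℝ) 1) : (1 - μ) * s + μ * t ∈ Icc (0 : ℝ) 1 := by
  obtain ⟨h1, h2⟩ := hμ
  obtain ⟨h3, h4⟩ := hs
  obtain ⟨h5, h6⟩ := ht
  constructor <;> nlinarith

theorem loops (hS : S_Sim) (h2 : S_FC2) (T : TC U (prB _ pr))
    (TW : TC (WU Q d δ U) (prW d pr)) (hO : OnCV Q δ U) (hU : FillAll U)
    (hG : ∀ᶠ x in 𝓝 β, Good E Q δ κ v co x) {a : Fin d → ℝ → E}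
    (hac : ∀ i, ContinuousOn (a i) (Icc 0 1)) (ha01 : ∀ i, a i 0 = a i 1)
    (ham : ∀ i, ∀ t ∈ Icc (0 : ℝ) 1, (κ β, ((v i β, yy δ κ β), a i t)) ∈ U) (s : Finset (Fin d)) :
    LN (SFill (WU Q d δ U) κ β)
      fun t => (comb co β fun i => if i ∈ s then a i t else a i 0, yy δ κ β) := by
  have h0 := hG.self_of_nhds
  have hF := (hS _ _ _ _ TW κ β h0.aκ).2
  obtain ⟨f1, f2, f3, -⟩ := h2 _ _ _ hF
  have z0 : (0 : ℝ) ∈ Icc (0 : ℝ) 1 := left_mem_Icc.2 zero_le_one
  have loop : ∀ s : Finset (Fin d), Loop (fib (WU Q d δ U) (κ β))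
      fun t => (comb co β fun i => if i ∈ s then a i t else a i 0, yy δ κ β) := fun s => by
    refine ⟨⟨((cont_comb β).comp_continuousOn (continuousOn_pi.2 fun i => ?_)).prodMk
      continuousOn_const, fun t ht => h0.mem fun i => ?_⟩, by simp only [← ha01]⟩
    · by_cases h : i ∈ s
      · simpa only [if_pos h] using hac i
      · simpa only [if_neg h] using continuousOn_const
    · by_cases h : i ∈ s
      · simpa only [if_pos h] using ham i t ht
      · simpa only [if_neg h] using ham i 0 z0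
  induction s using Finset.induction_on with
  | empty =>
    simp only [Finset.notMem_empty, if_false]
    exact f2 _ (h0.mem fun i => ham i 0 z0)
  | insert j s hj ih =>
    have hj1 : LN (SFill (WU Q d δ U) κ β)
        fun t => (comb co β fun i => if i ∈ ({j} : Finset (Fin d)) then a i t else a i 0,
          yy δ κ β) := by
      refine hF.congr _ _ (fun p hp => ?_) (core hS T TW hO hU hG (fun i => ham i 0 z0) j
        (two_cont (hac j) (ha01 j)) fun p hp => ?_)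
      · by_cases h : p.2 ≤ 0
        · simp only [two, if_pos h, ite_self]
          congr 2
          funext i
          split_ifs with e
          · rw [e]
          · rfl
        · simp only [two, if_neg h, Finset.mem_singleton]
          congr 2
          funext i
          split_ifs with e
          · rw [e]
          · rfl
      · unfold two
        split_ifs
        · exact ham j 0 z0
        · exact ham j _ (bd_le hp)
    have hc := f3 _ _ (loop s) (loop {j}) (by simp only [ite_self]) ih hj1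
    let τ₁ : ℝ × ℝ → ℝ := fun x => (1 - x.1) * max (2 * x.2 - 1) 0 + x.1 * x.2
    let τ₂ : ℝ × ℝ → ℝ := fun x => (1 - x.1) * min (2 * x.2) 1 + x.1 * x.2
    have m1 : MapsTo τ₁ (Icc 0 1 ×ˢ Icc 0 1) (Icc 0 1) := fun x hx =>
      mem_unit hx.1 ⟨le_max_right _ _, max_le (by linarith [hx.2.2]) zero_le_one⟩ hx.2
    have m2 : MapsTo τ₂ (Icc 0 1 ×ˢ Icc 0 1) (Icc 0 1) := fun x hx =>
      mem_unit hx.1 ⟨le_min (by linarith [hx.2.1]) zero_le_one, min_le_right _ _⟩ hx.2
    have := f1 (fun x => (comb co β fun i => if i = j then a j (τ₁ x) else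
      if i ∈ s then a i (τ₂ x) else a i 0, yy δ κ β))
      (((cont_comb β).comp_continuousOn (continuousOn_pi.2 fun i => ?_)).prodMk
        continuousOn_const) (fun x hx => h0.mem fun i => ?_) (fun μ hμ => ?_)
      (LN_congr hF (fun t ht => ?_) hc)
    · refine LN_congr hF (fun t ht => ?_) this
      simp only [τ₁, τ₂, sub_self, zero_mul, one_mul, zero_add, Finset.mem_insert]
      congr 2
      funext i
      by_cases e : i = j
      · simp only [e, if_true, true_or]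
      · simp only [e, if_false, false_or]
    · by_cases e : i = j
      · simp only [if_pos e]
        exact (hac j).comp (by fun_prop) m1
      · by_cases h : i ∈ s
        · simp only [if_neg e, if_pos h]
          exact (hac i).comp (by fun_prop) m2
        · simpa only [if_neg e, if_neg h] using continuousOn_const
    · by_cases e : i = j
      · rw [if_pos e, e]
        exact ham j _ (m1 hx)
      · by_cases h : i ∈ s
        · rw [if_neg e, if_pos h]
          exact ham i _ (m2 hx)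
        · rw [if_neg e, if_neg h]
          exact ham i 0 z0
    · have e1 : τ₁ (μ, 0) = 0 := by simp [τ₁]
      have e2 : τ₁ (μ, 1) = 1 := by simp only [τ₁]; norm_num
      have e3 : τ₂ (μ, 0) = 0 := by simp [τ₂]
      have e4 : τ₂ (μ, 1) = 1 := by simp only [τ₂]; norm_num
      simp only [e1, e2, e3, e4, ← ha01]
    · simp only [cat, τ₁, τ₂, sub_zero, one_mul, zero_mul, add_zero]
      split_ifs with h
      · rw [max_eq_right (by linarith), min_eq_left (by linarith)]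
        congr 2
        funext i
        by_cases e : i = j
        · simp only [e, if_true, if_neg hj]
        · simp only [e, if_false]
      · rw [max_eq_left (by linarith), min_eq_right (by linarith)]
        congr 2
        funext i
        by_cases e : i = j
        · simp only [e, if_true, Finset.mem_singleton]
        · simp only [e, if_false, Finset.mem_singleton, ← ha01, ite_self]

theorem part2 (hS : S_Sim) (h2 : S_FC2) (hI : S_Itp) (T : TC U (prB _ pr))
    (TW : TC (WU Q d δ U) (prW d pr)) (hC : Cov Q d δ) (hO : OnCV Q δ U) (hU : FillAll U) :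
    FillAll (WU Q d δ U) := by
  intro κ β hκ F hF
  have hFS := (hS _ _ _ _ TW κ β hκ).2
  refine (h2 _ _ _ hFS).2.2.2.2.2 univ (fun α hα _ => ?_) F hF (mapsTo_univ _ _)
  have z0 : (0 : ℝ) ∈ Icc (0 : ℝ) 1 := left_mem_Icc.2 zero_le_one
  have h0 : δ.eval (κ β) ≠ 0 := right_ne_zero_of_mul_eq_one (hα.1.2 z0).1
  obtain ⟨v, co, hG⟩ := exists_good (E := E) hI hC hκ h0
  have hy : ∀ t ∈ Icc (0 : ℝ) 1, (α t).2 = yy δ κ β := fun t ht =>
    eq_inv_of_mul_eq_one_left (hα.1.2 ht).1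
  refine LN_congr hFS (fun t ht => ?_) (loops hS h2 T TW hO hU hG
    (a := fun i t => ev (v i β) (α t).1) (fun i => (cont_ev _).comp_continuousOn hα.1.1.fst)
    (fun i => by simp only [hα.2]) (fun i t ht => ?_) Finset.univ)
  · simp only [Finset.mem_univ, if_true, hG.self_of_nhds.comb_ev, ← hy t ht]
  · rw [← hy t ht]
    exact (hα.1.2 ht).2 _ ((hG.self_of_nhds.root _).2 ⟨i, rfl⟩)

end

end FillW

theorem FillW_of (h1 : S_Sim) (h2 : S_FC2) (h3 : S_Itp) : S_FillW :=
  ⟨fun _ _ _ _ _ _ _ _ _ T _ _ hm hU => FillW.part1 T hm hU,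
    fun _ _ _ _ _ _ _ _ _ _ _ _ _ T TW hC hO hU => FillW.part2 h1 h2 h3 T TW hC hO hU⟩

end Pool.Agent.P.MP_daea48_ag
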