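import Pool.Agent.P.MP_daea48_ag.StA

/-! Filling for base changes; plane geometry of rectangles. -/

open Set Filter Topology Metric Polynomial

namespace Pool.Agent.P.MP_daea48_ag

namespace FillW

noncomputable section

open Classical

/-- The inverse of `aff`. -/
def iaff (ζ₀ : ℂ) (a b : ℝ) (z : ℂ) : ℝ × ℝ := ((z.re - ζ₀.re) / a, (z.im - ζ₀.im) / b)

section geo

variable {ζ₀ : ℂ} {a b : ℝ}

theorem aff_iaff (ha : 0 < a) (hb : 0 < b) (z : ℂ) : aff ζ₀ a b (iaff ζ₀ a b z) = z := by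
  apply Complex.ext <;> simp [aff, iaff] <;> field_simp <;> ring

theorem iaff_aff (ha : 0 < a) (hb : 0 < b) (p : ℝ × ℝ) : iaff ζ₀ a b (aff ζ₀ a b p) = p := by
  ext <;> simp [aff, iaff] <;> field_simp

theorem aff_inj (ha : 0 < a) (hb : 0 < b) : Function.Injective (aff ζ₀ a b) :=
  Function.LeftInverse.injective (iaff_aff ha hb)

theorem image_aff (ha : 0 < a) (hb : 0 < b) (s : Set (ℝ × ℝ)) :
    aff ζ₀ a b '' s = iaff ζ₀ a b ⁻¹' s :=
  congrFun (image_eq_preimage_of_inverse (iaff_aff ha hb) (aff_iaff ha hb)) s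

theorem continuous_aff : Continuous (aff ζ₀ a b) := by unfold aff; fun_prop

theorem continuous_iaff : Continuous (iaff ζ₀ a b) := by unfold iaff; fun_prop

theorem eventually_rect (ha : 0 < a) (hb : 0 < b) (P : Finset ℂ) {p : ℂ}
    (hp : p ∈ aff ζ₀ a b '' ball 0 1) : ∀ᶠ z in 𝓝[≠] p, z ∈ rect ζ₀ a b \ P := by
  have h1 : aff ζ₀ a b '' ball 0 1 ∈ 𝓝 p := by
    refine IsOpen.mem_nhds ?_ hp
    rw [image_aff ha hb]
    exact isOpen_ball.preimage continuous_iaff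
  have h2 : ((P : Set ℂ) \ {p})ᶜ ∈ 𝓝 p :=
    (P.finite_toSet.subset sdiff_subset).isClosed.isOpen_compl.mem_nhds (by simp)
  filter_upwards [mem_nhdsWithin_of_mem_nhds h1, mem_nhdsWithin_of_mem_nhds h2,
    self_mem_nhdsWithin] with z hz1 hz2 hz3
  exact ⟨image_mono ball_subset_closedBall hz1, fun h => hz2 ⟨h, hz3⟩⟩

theorem bd_mem (ha : 0 < a) (hb : 0 < b) {P : Finset ℂ}
    (hP : ∀ p ∈ P, p ∈ aff ζ₀ a b '' ball 0 1) {q : ℝ × ℝ} (hq : q ∈ bd) :
    aff ζ₀ a b q ∈ rect ζ₀ a b \ P := by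
  refine ⟨mem_image_of_mem _ (sphere_subset_closedBall hq), fun h => ?_⟩
  obtain ⟨q', h1, h2⟩ := hP _ h
  rw [aff_inj ha hb h2] at h1
  exact (mem_ball.1 h1).ne hq

/-- Clamp to the square. -/
def cl (p : ℝ × ℝ) : ℝ × ℝ := (max (-1) (min 1 p.1), max (-1) (min 1 p.2))

theorem mem_closedBall_iff {p : ℝ × ℝ} :
    p ∈ closedBall (0 : ℝ × ℝ) 1 ↔ (-1 ≤ p.1 ∧ p.1 ≤ 1) ∧ -1 ≤ p.2 ∧ p.2 ≤ 1 := by
  rw [mem_closedBall_zero_iff, Prod.norm_def, max_le_iff, Real.norm_eq_abs, Real.norm_eq_abs,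
    abs_le, abs_le]

theorem mem_ball_iff {p : ℝ × ℝ} :
    p ∈ ball (0 : ℝ × ℝ) 1 ↔ (-1 < p.1 ∧ p.1 < 1) ∧ -1 < p.2 ∧ p.2 < 1 := by
  rw [mem_ball_zero_iff, Prod.norm_def, max_lt_iff, Real.norm_eq_abs, Real.norm_eq_abs,
    abs_lt, abs_lt]

theorem clamp_eq {x : ℝ} (h1 : -1 < max (-1) (min 1 x)) (h2 : max (-1) (min 1 x) < 1) :
    max (-1) (min 1 x) = x := by
  rcases le_total x 1 with h | h
  · rw [min_eq_right h] at h1 ⊢
    rcases le_total x (-1) with h' | h'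
    · rw [max_eq_left h'] at h1; exact absurd h1 (lt_irrefl _)
    · exact max_eq_right h'
  · rw [min_eq_left h, max_eq_right (by norm_num)] at h2
    exact absurd h2 (lt_irrefl _)

theorem rank_lt : 1 < Module.rank ℝ (ℝ × ℝ) := by
  simp [one_add_one_eq_two]

theorem preconn (ha : 0 < a) (hb : 0 < b) {P : Finset ℂ}
    (hP : ∀ p ∈ P, p ∈ aff ζ₀ a b '' ball 0 1) : IsPreconnected (rect ζ₀ a b \ P) := by
  have h1 : (aff ζ₀ a b ⁻¹' P).Countable :=
    (P.finite_toSet.preimage (aff_inj ha hb).injOn).countable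
  have h2 := (h1.isConnected_compl_of_one_lt_rank rank_lt).2
  have h3 : Continuous fun p => aff ζ₀ a b (cl p) := continuous_aff.comp (by unfold cl; fun_prop)
  convert h2.image _ h3.continuousOn using 1
  ext z
  constructor
  · rintro ⟨⟨q, hq, rfl⟩, hz⟩
    refine ⟨q, hz, ?_⟩
    obtain ⟨⟨h4, h5⟩, h6, h7⟩ := mem_closedBall_iff.1 hq
    simp only [cl, min_eq_right h5, min_eq_right h7, max_eq_right h4, max_eq_right h6]
  · rintro ⟨q, hq, rfl⟩
    refine ⟨mem_image_of_mem _ (mem_closedBall_iff.2 ⟨⟨le_max_left _ _,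
      max_le (by norm_num) (min_le_left _ _)⟩, le_max_left _ _,
      max_le (by norm_num) (min_le_left _ _)⟩), fun h => hq ?_⟩
    obtain ⟨q', h4, h5⟩ := hP _ h
    rw [aff_inj ha hb h5] at h4
    obtain ⟨⟨h6, h7⟩, h8, h9⟩ := mem_ball_iff.1 h4
    have : cl q = q := Prod.ext (clamp_eq h6 h7) (clamp_eq h8 h9)
    simp only [this] at h
    exact h

theorem bd_preconn : IsPreconnected bd := isPreconnected_sphere rank_lt _ _

theorem one_mem_bd : ((1, 1) : ℝ × ℝ) ∈ bd := by simp [bd, Prod.norm_def]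

theorem bd_le {p : ℝ × ℝ} (hp : p ∈ bd) : (p.1 + 1) / 2 ∈ Icc (0 : ℝ) 1 := by
  obtain ⟨⟨h1, h2⟩, -⟩ := mem_closedBall_iff.1 (sphere_subset_closedBall hp)
  constructor <;> linarith

theorem index_const {d : ℕ} {s : Set ℂ} (hs : IsPreconnected s) {g : ℂ → ℂ} {v : Fin d → ℂ → ℂ}
    (hg : ContinuousOn g s) (hv : ∀ i, ContinuousOn (v i) s)
    (hinj : ∀ z ∈ s, Function.Injective fun i => v i z) (hroot : ∀ z ∈ s, ∃ i, v i z = g z)
    {j : Fin d} {z₀ : ℂ} (hz₀ : z₀ ∈ s) (h0 : g z₀ = v j z₀) : ∀ z ∈ s, g z = v j z := by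
  have hne : ∀ z ∈ s, ∏ i ∈ Finset.univ.erase j, (v j z - v i z) ≠ 0 := fun z hz =>
    Finset.prod_ne_zero_iff.2 fun i hi =>
      sub_ne_zero.2 fun h => (Finset.ne_of_mem_erase hi) (hinj z hz h).symm
  let w : ℂ → ℂ := fun z => (∏ i ∈ Finset.univ.erase j, (g z - v i z)) /
    ∏ i ∈ Finset.univ.erase j, (v j z - v i z)
  have hw : ContinuousOn w s :=
    (continuousOn_finsetProd _ fun i _ => hg.sub (hv i)).div
      (continuousOn_finsetProd _ fun i _ => (hv j).sub (hv i)) hne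
  have h1 : ∀ z ∈ s, g z = v j z → w z = 1 := fun z hz h => by
    simp only [w, h]; exact div_self (hne z hz)
  have h2 : ∀ z ∈ s, g z ≠ v j z → w z = 0 := fun z hz h => by
    obtain ⟨i, hi⟩ := hroot z hz
    have hij : i ≠ j := fun e => h (by rw [← hi, e])
    simp only [w]
    rw [Finset.prod_eq_zero (Finset.mem_erase.2 ⟨hij, Finset.mem_univ i⟩) (by rw [hi, sub_self]),
      zero_div]
  intro z hz
  by_contra h
  have h3 := hs.constant_of_mapsTo (T := {0, 1}) (Set.toFinite _).isDiscrete hw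
    (fun x hx => by
      by_cases e : g x = v j x
      · exact Or.inr (h1 x hx e)
      · exact Or.inl (h2 x hx e)) hz hz₀
  rw [h2 z hz h, h1 z₀ hz₀ h0] at h3
  exact zero_ne_one h3

end geo

section mero

variable {X Y : Type} [NormedAddCommGroup X] [NormedSpace ℂ X] [FiniteDimensional ℂ X]
  [NormedAddCommGroup Y] [NormedSpace ℂ Y] [FiniteDimensional ℂ Y] {p : ℂ}

theorem mero_clm (L : X →L[ℂ] Y) {f : ℂ → X} (hf : MeromorphicAt f p) :
    MeromorphicAt (fun z => L (f z)) p := (Tame.clm L).mero hf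

theorem mero_prod {f : ℂ → X} {g : ℂ → Y} (hf : MeromorphicAt f p) (hg : MeromorphicAt g p) :
    MeromorphicAt (fun z => (f z, g z)) p := by
  have := (mero_clm (ContinuousLinearMap.inl ℂ X Y) hf).add
    (mero_clm (ContinuousLinearMap.inr ℂ X Y) hg)
  refine this.congr (Eventually.of_forall fun z => ?_)
  simp

theorem mero_pi {d : ℕ} {f : ℂ → Fin d → X} (hf : ∀ k, MeromorphicAt (fun z => f z k) p) :
    MeromorphicAt f p := by
  have := MeromorphicAt.fun_sum (s := Finset.univ) fun k _ =>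
    mero_clm (ContinuousLinearMap.single ℂ (fun _ : Fin d => X) k) (hf k)
  refine this.congr (Eventually.of_forall fun z => ?_)
  simp [Finset.univ_sum_single]

end mero

section base

variable {E L : Type} [NormedAddCommGroup E] [NormedSpace ℂ E] [FiniteDimensional ℂ E]
  [NormedAddCommGroup L] [NormedSpace ℂ L] [FiniteDimensional ℂ L] {B : Set (ℂ × L)}

omit [FiniteDimensional ℂ L] in
theorem fib_discrete (T : TC B (pr0 L)) (z : ℂ) : IsDiscrete (fib B z) := by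
  refine isDiscrete_iff_forall_mem_exists_isOpen.2 fun c hc =>
    ⟨ball c (T.rho (z, c)), isOpen_ball, subset_antisymm ?_ ?_⟩
  · rintro c' ⟨h1, h2⟩
    have := T.inj (u := (z, c)) (u₁ := (z, c')) (u₂ := (z, c)) hc h2 hc
      (by simpa [Prod.norm_def, dist_eq_norm] using h1) (by simpa using T.rho_pos _)
      (Prod.ext rfl (Subsingleton.elim _ _))
    exact congrArg Prod.snd this
  · rintro _ rfl
    exact ⟨mem_ball_self (T.rho_pos _), hc⟩

theorem part1 (T : TC B (pr0 L)) {m : ℂ × L → ℂ} {U : Set (ℂ × E)} (hm : Differentiable ℂ m)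
    (hU : FillAll U) : FillAll (BU B m U) := by
  intro κ β hκ F hF
  set c₀ := (F (1, 1)).1 with hc₀
  have hB : ∀ p ∈ bd, (F p).1 ∈ fib B (κ β) := fun p hp => (hF.2 hp).1
  have hc : ∀ p ∈ bd, (F p).1 = c₀ := fun p hp =>
    bd_preconn.constant_of_mapsTo (fib_discrete T _) hF.1.fst hB hp one_mem_bd
  have h0 : (κ β, c₀) ∈ B := hB _ one_mem_bd
  obtain ⟨h1, h2, h3⟩ := T.exists_local hκ h0
  set c : ℂ → L := fun z => T.ex (κ β, c₀) (κ z, pr0 L c₀) with hcd
  have hcβ : c β = c₀ := h2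
  have hκ' : AnalyticAt ℂ (fun z => m (κ z, c z)) β := diff_an_comp hm (hκ.prod h1)
  obtain ⟨η, hη, δ, hδ, H⟩ := hU _ β hκ' (fun p => (F p).2) ⟨hF.1.snd, fun p hp => by
    have := (hF.2 hp).2
    simp only [hc p hp] at this
    simpa only [fib, mem_ofPred_eq, hcβ] using this⟩
  have h4 : ∀ᶠ z in 𝓝 β, ‖κ z - κ β‖ < T.rho (κ β, c₀) :=
    ((hκ.continuousAt.sub continuousAt_const).norm).eventually_lt continuousAt_const
      (by simpa using T.rho_pos _)
  obtain ⟨δ', hδ', H'⟩ := Metric.eventually_nhds_iff_ball.1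
    (h4.and (h3.and h1.eventually_analyticAt))
  refine ⟨min η (T.rho (κ β, c₀)), lt_min hη (T.rho_pos _), min δ δ', lt_min hδ hδ',
    fun ζ₀ a b ha hb hr σ hσ hσ' => ?_⟩
  have hr1 : rect ζ₀ a b ⊆ ball β δ := hr.trans (ball_subset_ball (min_le_left _ _))
  have hr2 : rect ζ₀ a b ⊆ ball β δ' := hr.trans (ball_subset_ball (min_le_right _ _))
  have hlab : ∀ p ∈ bd, c (aff ζ₀ a b p) = (σ p).1 := fun p hp => by
    have h5 := H' _ (hr2 (mem_image_of_mem _ (sphere_subset_closedBall hp)))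
    refine T.ex_unique h0 (hσ' p hp).1.1 ?_ (Prod.ext rfl (Subsingleton.elim _ _))
    rw [Prod.norm_def, max_lt_iff]
    refine ⟨h5.1, ?_⟩
    have h6 := (norm_fst_le (σ p - F p)).trans_lt ((hσ' p hp).2.trans_le (min_le_right _ _))
    rwa [Prod.fst_sub, hc p hp] at h6
  obtain ⟨S, ⟨P, hP, hS, hS'⟩, hb'⟩ := H ζ₀ a b ha hb hr1 (fun p => (σ p).2) hσ.snd
    fun p hp => ⟨by
      have := (hσ' p hp).1.2
      simpa only [hlab p hp] using this,
      (norm_snd_le (σ p - F p)).trans_lt ((hσ' p hp).2.trans_le (min_le_left _ _))⟩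
  have hmem : ∀ z ∈ rect ζ₀ a b \ P, (κ z, (c z, S z)) ∈ BU B m U := fun z hz =>
    ⟨(H' z (hr2 hz.1)).2.1.1, hS' z hz⟩
  refine ⟨fun z => (c z, S z), ⟨P, fun p hp => ⟨(hP p hp).1, ?_, ?_⟩, ?_, hmem⟩, fun p hp => ?_⟩
  · exact mero_prod (H' p (hr2 (image_mono ball_subset_closedBall (hP p hp).1))).2.2.meromorphicAt
      (hP p hp).2.1
  · exact (eventually_rect ha hb P (hP p hp).1).mono hmem
  · exact ContinuousOn.prodMk
      (fun z hz => (H' z (hr2 hz.1)).2.2.continuousAt.continuousWithinAt) hS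
  · exact Prod.ext (hlab p hp) (hb' p hp)

end base

end

end FillW

end Pool.Agent.P.MP_daea48_ag
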