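import Pool.Agent.P.MP_daea48_ag.StK

/-! Package Final: from the system over the curve to the final system. -/

open Set Filter Topology Metric Polynomial
open scoped ComplexConjugate

namespace Pool.Agent.P.MP_daea48_ag

namespace Final

noncomputable section

open Classical

theorem conj_comp : (starRingEnd ℂ).comp (algebraMap ℝ ℂ) = algebraMap ℝ ℂ :=
  RingHom.ext fun x => Complex.conj_ofReal x

theorem cx1_map (q : ℝ[X]) : (cx1 q).map (starRingEnd ℂ) = cx1 q := by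
  rw [cx1, Polynomial.map_map, conj_comp]

theorem cx_map (Q : ℝ[X][X]) : (cx Q).map (mapRingHom (starRingEnd ℂ)) = cx Q := by
  rw [cx, Polynomial.map_map, mapRingHom_comp, conj_comp]

theorem cx1_conj (q : ℝ[X]) (t : ℂ) : (cx1 q).eval (conj t) = conj ((cx1 q).eval t) := by
  conv_lhs => rw [← cx1_map]
  rw [eval_map, eval₂_at_apply]

theorem cx_conj (Q : ℝ[X][X]) (t T : ℂ) :
    (cx Q).evalEval (conj t) (conj T) = conj ((cx Q).evalEval t T) := by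
  conv_lhs => rw [← cx_map]
  exact map_mapRingHom_evalEval _ _ _ _

theorem cx1_real (q : ℝ[X]) (t : ℝ) : (cx1 q).eval (t : ℂ) = (q.eval t : ℝ) := by
  rw [cx1, eval_map]
  exact eval₂_at_apply (algebraMap ℝ ℂ) t

theorem cx_real (Q : ℝ[X][X]) (t T : ℝ) :
    (cx Q).evalEval (t : ℂ) (T : ℂ) = (Q.evalEval t T : ℝ) :=
  map_mapRingHom_evalEval (algebraMap ℝ ℂ) Q t T

theorem exists_l {q : ℂ[X]} (hq : q ≠ 0) : ∃ l : ℝ, 0 < l ∧ q.eval (-(Complex.I * l)) ≠ 0 := by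
  have hinj : Function.Injective fun l : ℝ => -(Complex.I * (l : ℂ)) := fun a b h => by
    have := mul_left_cancel₀ Complex.I_ne_zero (neg_injective h)
    exact_mod_cast this
  have hfin : ((fun l : ℝ => -(Complex.I * (l : ℂ))) ⁻¹' {x | q.IsRoot x}).Finite :=
    (finite_setOfPred_isRoot hq).preimage hinj.injOn
  obtain ⟨l, hl, hl'⟩ := (Ioi_infinite (0 : ℝ)).exists_notMem_finite hfin
  exact ⟨l, hl, hl'⟩

theorem Il_ne {l : ℝ} (hl : 0 < l) : Complex.I * l ≠ 0 :=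
  mul_ne_zero Complex.I_ne_zero (by exact_mod_cast hl.ne')

theorem ne_one_of_MB {l : ℝ} (hl : 0 < l) {z t : ℂ} (h : (z, t) ∈ MB l) : z ≠ 1 := by
  rintro rfl
  have h' : t * (1 - 1) = Complex.I * l * (1 + 1) := h
  rw [sub_self, mul_zero] at h'
  exact mul_ne_zero (Il_ne hl) (by norm_num) h'.symm

theorem zt_mem (l : ℝ) {z : ℂ} (hz : z ≠ 1) : (z, zt l z) ∈ MB l :=
  div_mul_cancel₀ _ (sub_ne_zero.2 hz.symm)

theorem eq_zt {l : ℝ} (hl : 0 < l) {z t : ℂ} (h : (z, t) ∈ MB l) : t = zt l z :=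
  eq_div_of_mul_eq (sub_ne_zero.2 (ne_one_of_MB hl h).symm) h

theorem zt_inv {l : ℝ} (hl : 0 < l) {z : ℂ} (hz : z ≠ 1) :
    (zt l z - Complex.I * l) / (zt l z + Complex.I * l) = z := by
  have h1 : 1 - z ≠ 0 := sub_ne_zero.2 hz.symm
  have h2 := Il_ne hl
  have e1 : zt l z + Complex.I * l = 2 * (Complex.I * l) / (1 - z) := by
    rw [zt]; field_simp; ring
  have e2 : zt l z - Complex.I * l = z * (2 * (Complex.I * l) / (1 - z)) := by
    rw [zt]; field_simp; ring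
  rw [e1, e2, mul_div_cancel_right₀ _ (div_ne_zero (mul_ne_zero two_ne_zero h2) h1)]

theorem MB_conj {l : ℝ} {z t : ℂ} (hz : z ≠ 0) (h : (z, t) ∈ MB l) : (rfl1 z, conj t) ∈ MB l := by
  have h1 : t * (1 - z) = Complex.I * l * (1 + z) := h
  have h2 := congrArg conj h1
  simp only [map_mul, map_sub, map_add, map_one, Complex.conj_I, Complex.conj_ofReal] at h2
  have h3 : conj z ≠ 0 := by simpa using hz
  show conj t * (1 - (conj z)⁻¹) = Complex.I * l * (1 + (conj z)⁻¹)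
  field_simp
  linear_combination -h2

theorem star_ev {d : ℕ} {σ : Type} [Fintype σ] (v : ℂ) (X : Fin d → σ → ℂ) :
    star (ev (conj v) X) = ev v (star X) := by
  funext s
  simp [ev, Finset.sum_apply]

variable {K : Type} [Field K] [Algebra ℝ K] (F : FF K) (V : Pres K) (δ : ℝ[X])

theorem US_conj (hS : S_Spr) (z T y : ℂ) (ξ : V.σ → ℂ) (h : (z, ((T, y), ξ)) ∈ F.US V δ) :
    (conj z, ((conj T, conj y), star ξ)) ∈ F.US V δ := by
  obtain ⟨⟨h1, h2⟩, h3⟩ := h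
  obtain ⟨-, -, -, -, -, -, -, -, -, -, -, -, -, -, -, h16, -⟩ := hS K F
  refine ⟨⟨?_, ?_⟩, fun k => ?_⟩
  · show (cx F.Q).evalEval (conj z) (conj T) = 0
    rw [cx_conj, show (cx F.Q).evalEval z T = 0 from h1, map_zero]
  · show conj y * (cx1 δ).eval (conj z) = 1
    rw [cx1_conj, ← map_mul, show y * (cx1 δ).eval z = 1 from h2, map_one]
  · have := h16 V.σ (V.F k) (z, T) ξ
    rw [show MvPolynomial.eval ξ (F.spP (V.F k) (z, T)) = 0 from h3 k, map_zero] at this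
    exact this

theorem WU_conj (hS : S_Spr) (t : ℂ) (ξ : (Fin F.d → V.σ → ℂ) × ℂ)
    (h : (t, ξ) ∈ WU (cx F.Q) F.d (cx1 δ) (F.US V δ)) :
    (conj t, star ξ) ∈ WU (cx F.Q) F.d (cx1 δ) (F.US V δ) := by
  obtain ⟨h1, h2⟩ := h
  refine ⟨?_, fun v hv => ?_⟩
  · show conj ξ.2 * (cx1 δ).eval (conj t) = 1
    rw [cx1_conj, ← map_mul, show ξ.2 * (cx1 δ).eval t = 1 from h1, map_one]
  · have h3 : (cx F.Q).evalEval t (conj v) = 0 := by
      have := cx_conj F.Q (conj t) v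
      rw [show (cx F.Q).evalEval (conj t) v = 0 from hv, map_zero, Complex.conj_conj] at this
      exact this
    have h4 := US_conj F V δ hS _ _ _ _ (h2 _ h3)
    rw [star_ev, Complex.conj_conj] at h4
    exact h4

theorem realStr (hS : S_Spr) (l : ℝ) :
    RealStr (F.RR l V δ) (prB _ (prW F.d (prV V))) (stL _) (stL _) where
  norm x := norm_star x
  inv x := star_star x
  norm' x := norm_star x
  inv' x := star_star x
  mem _ ξ hz h := ⟨MB_conj hz h.1, WU_conj F V δ hS ξ.1 ξ.2 h.2⟩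
  comm _ := rfl

theorem zt_real {l : ℝ} (hl : 0 < l) {z : ℂ} (h : ‖z‖ = 1) (hz : z ≠ 1) :
    zt l z = ((zt l z).re : ℂ) := by
  have h0 : z ≠ 0 := by rintro rfl; simp at h
  have h1 := MB_conj h0 (zt_mem l hz)
  rw [rfl1_of_norm_one h] at h1
  exact (Complex.conj_eq_iff_re.1 (eq_zt hl h1)).symm

end

end Final

open Final in
theorem Final_of (h1 : S_APS) (h2 : S_IFT) (h3 : S_BrW) (h4 : S_ConnW) (h5 : S_FillW)
    (h6 : S_Spr) : S_Final := by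
  classical
  intro K _ _ F V δ hc hδ hF hB hC hFi hN
  obtain ⟨l, hl, hl'⟩ := exists_l hc.ne
  have hon : OnCV (cx F.Q) (cx1 δ) (F.US V δ) := fun u hu => hu.1
  have aW := h1.2.2.2.2 _ _ _ _ _ _ _ hc hF
  have aM := h1.2.2.1 l hl
  have aU := h1.1 _ _ _ _ _ _ (h1.2.1 _ _ _ hc) hF
  obtain ⟨TW⟩ := h2.1 _ _ _ _ aW
  obtain ⟨TM⟩ := h2.1 _ _ _ _ aM
  obtain ⟨TU⟩ := h2.1 _ _ _ _ aU
  obtain ⟨c1, c2, c3, -⟩ := h4.2 _ _ _ _ (F.US V δ) hc
  have neW : ∀ t, (cx1 δ).eval t ≠ 0 → ∃ ξ, (t, ξ) ∈ WU (cx F.Q) F.d (cx1 δ) (F.US V δ) :=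
    fun t ht => c2 t ht fun v hv => hN t _ ⟨hv, inv_mul_cancel₀ ht⟩
  let Bad : Finset ℂ := insert 1 ((cx1 δ).roots.toFinset.image fun t =>
    (t - Complex.I * l) / (t + Complex.I * l))
  have hBad : ∀ z, z ∉ Bad → z ≠ 1 ∧ (cx1 δ).eval (zt l z) ≠ 0 := by
    intro z hz
    have hz1 : z ≠ 1 := fun h => hz (h ▸ Finset.mem_insert_self _ _)
    refine ⟨hz1, fun h => hz (Finset.mem_insert_of_mem (Finset.mem_image.2
      ⟨zt l z, ?_, zt_inv hl hz1⟩))⟩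
    exact Multiset.mem_toFinset.2 ((mem_roots hc.ne).2 h)
  refine ⟨l, hl, Bad, Finset.mem_insert_self _ _, ⟨?_, ?_, ?_, ?_, fun z hz => ?_⟩,
    realStr F V δ h6 l, fun z hz hzB => ?_, ?_⟩
  · exact h1.1 _ _ _ _ _ _ aM (h1.2.2.2.1 _ _ _ _ _ _ _ Tame.snd' aW)
  · exact (h3.1 _ _ _ _ _ _ _ _ _ differentiable_snd (h3.2 _ _ _ _ _ _ _ hc hon hB)).2
  · exact (h4.1 _ _ _ _ _ (c1 hC)).2 fun z a a' ha ha' => (eq_zt hl ha).trans (eq_zt hl ha').symm
  · exact h5.1 _ _ _ TM _ _ differentiable_snd (h5.2 _ _ _ _ _ _ _ TU TW hc hon hFi)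
  · obtain ⟨ξ, hξ⟩ := neW _ (hBad z hz).2
    exact ⟨(zt l z, ξ), zt_mem l (hBad z hz).1, hξ⟩
  · obtain ⟨hz1, hz2⟩ := hBad z hzB
    have e := zt_real hl (mem_sphere_zero_iff_norm.1 hz) hz1
    set t := (zt l z).re with ht
    have hm : (z, (t : ℂ)) ∈ MB l := e ▸ zt_mem l hz1
    rw [e] at hz2
    have hno : ∀ T : ℝ, (cx F.Q).evalEval (t : ℂ) (T : ℂ) ≠ 0 := by
      intro T
      rw [cx_real, Ne, Complex.ofReal_eq_zero]
      refine F.noreal t T fun h0 => hz2 ?_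
      obtain ⟨e, rfl⟩ := hδ
      rw [cx1_real, eval_mul, h0, zero_mul, Complex.ofReal_zero]
    obtain ⟨⟨ξ, hξ, hξ'⟩, hj⟩ := c3 (stL _) t (fun x => star_star x) (cx_map _) (cx1_map _) hz2 hno
      (US_conj F V δ h6) hC hN
    refine ⟨⟨((t : ℂ), ξ), ⟨hm, hξ⟩, Prod.ext (Complex.conj_ofReal t) hξ'⟩, ?_⟩
    rintro ⟨t₁, ξ₁⟩ ⟨t₂, ξ₂⟩ m₁ s₁ m₂ s₂
    obtain rfl : t₁ = t := (eq_zt hl m₁.1).trans e
    obtain rfl : t₂ = t := (eq_zt hl m₂.1).trans e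
    have := (hj ξ₁ ξ₂ m₁.2 (congrArg Prod.snd s₁) m₂.2 (congrArg Prod.snd s₂)).map
      (f := fun ξ => ((t : ℂ), ξ)) (by fun_prop)
    refine this.mono ?_
    rintro _ ⟨ξ, hξ, rfl⟩
    exact ⟨⟨hm, hξ.1⟩, Prod.ext (Complex.conj_ofReal t) hξ.2⟩
  · let κ : ℂ → ℂ := fun x => Complex.I * l * (x + 1) / (x - 1)
    have hκ : AnalyticAt ℂ κ 0 :=
      (analyticAt_const.mul (analyticAt_id.add analyticAt_const)).div
        (analyticAt_id.sub analyticAt_const) (by simp)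
    have hκ0 : κ 0 = -(Complex.I * l) := by simp [κ, div_neg]
    obtain ⟨ξ, hξ⟩ := neW (κ 0) (hκ0 ▸ hl')
    obtain ⟨g1, -, g2⟩ := TW.exists_local hκ hξ
    refine ⟨fun x => (κ x, TW.ex (κ 0, ξ) (κ x, prW F.d (prV V) ξ)), (hκ.prod g1).meromorphicAt, ?_⟩
    have h01 : ∀ᶠ x in 𝓝 (0 : ℂ), x ≠ 1 := eventually_ne_nhds zero_ne_one
    filter_upwards [nhdsWithin_le_nhds g2, nhdsWithin_le_nhds h01, self_mem_nhdsWithin] with x
      hx hx1 hx0
    refine ⟨?_, hx.1⟩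
    have hx0' : x ≠ 0 := hx0
    have hx1' : x - 1 ≠ 0 := sub_ne_zero.2 hx1
    show Complex.I * l * (x + 1) / (x - 1) * (1 - x⁻¹) = Complex.I * l * (1 + x⁻¹)
    field_simp

end Pool.Agent.P.MP_daea48_ag
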