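import Pool.Agent.P.MP_daea48_ag.G1

/-! Package G: gluing along a circle. -/

open Set Filter Topology Metric

namespace Pool.Agent.P.MP_daea48_ag

namespace G

variable {E E' L : Type} [NormedAddCommGroup E] [NormedSpace ℂ E] [FiniteDimensional ℂ E]
  [NormedAddCommGroup E'] [NormedSpace ℂ E'] [FiniteDimensional ℂ E'] [NormedAddCommGroup L]
  [NormedSpace ℂ L] {U : Set (ℂ × E)} {pr : E →L[ℂ] E'}

omit [FiniteDimensional ℂ E] in
theorem germ_congr {S S' : ℂ → E} {p : ℂ} (h : Germ U id S p) (e : S =ᶠ[𝓝 p] S') :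
    Germ U id S' p := by
  have e' : S =ᶠ[𝓝[≠] p] S' := e.filter_mono nhdsWithin_le_nhds
  exact ⟨h.1.congr e', (h.2.and e').mono fun z hz => hz.2 ▸ hz.1⟩

omit [FiniteDimensional ℂ E'] in
/-- Perturbation of a section in the chart. -/
theorem pert (T : TC U pr) {V : Set ℂ} (hV : IsOpen V) {S S' : ℂ → E} {a : ℂ → E'} {ω : ℂ → ℂ}
    {θ : ℝ} (h0 : 0 ≤ θ) (h1 : θ < 1) (hS : Sec U S V) (ha : AnalyticOnNhd ℂ a V)
    (hb : ∀ z ∈ V, ‖a z‖ ≤ θ * ‖ω z‖)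
    (hω : ∀ z ∈ V, AnalyticAt ℂ S z → ‖ω z‖ ≤ T.rho (z, S z) ^ 2)
    (hS' : ∀ z ∈ V, S' z = T.ex (z, S z) (z, pr (S z) + a z)) :
    Sec U S' V ∧ ∀ z ∈ V, AnalyticAt ℂ S z → AnalyticAt ℂ S' z ∧
      T.rho (z, S z) * ‖S' z - S z‖ ≤ θ * ‖ω z‖ ∧ pr (S' z) = pr (S z) + a z := by
  have hlt : ∀ z ∈ V, AnalyticAt ℂ S z → ‖a z‖ < T.rho (z, S z) ^ 2 := fun z hz h => by
    have h2 := pow_pos (T.rho_pos (z, S z)) 2
    have h3 := mul_le_mul_of_nonneg_left (hω z hz h) h0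
    nlinarith [hb z hz]
  have he : ∀ p ∈ V, (fun z => T.ex (z, S z) (z, pr (S z) + a z)) =ᶠ[𝓝 p] S' := fun p hp =>
    (hV.eventually_mem hp).mono fun z hz => (hS' z hz).symm
  refine ⟨fun p hp => germ_congr (T.germ_ex (κ := id) (hS p hp) ?_) (he p hp), fun z hz h => ?_⟩
  · filter_upwards [(hS p hp).1.eventually_analyticAt,
      nhdsWithin_le_nhds (hV.eventually_mem hp)] with z h2 h3
    exact ⟨analyticAt_id, ha z h3, hlt z h3 h2⟩
  · have hU : (z, S z) ∈ U := T.mem_of_germ (κ := id) continuousAt_id (hS z hz) h.continuousAt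
    have hd : ‖((z, pr (S z) + a z) : ℂ × E') - pj pr (z, S z)‖ = ‖a z‖ := by simp
    have hd' := hd ▸ hlt z hz h
    have hev : ∀ᶠ x in 𝓝 z, (x, S x) ∈ U := by
      rw [← nhdsNE_sup_pure, eventually_sup]
      exact ⟨(hS z hz).2, hU⟩
    refine ⟨(T.analyticAt_ex (u := fun x => (x, S x)) (p := fun x => (x, pr (S x) + a x))
      (continuousAt_id.prodMk h.continuousAt)
      (analyticAt_id.prod (((pr.analyticAt _).comp h).add (ha z hz))) hd' hev).congr (he z hz),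
      ?_, ?_⟩
    · have := T.ex_dist' hU hd'
      rw [hd, ← hS' z hz] at this
      exact this.trans (hb z hz)
    · rw [hS' z hz, T.pr_ex hU hd']

/-- Dependence of a bridge on the two displacements. -/
theorem lipb {K : Set (ℂ × E)} {ε η : ℝ} {Ψ : (ℂ × E) × E' × E' × ℂ → E}
    {Reg : Set ((ℂ × E) × E' × E' × ℂ)} (h : MF (brD K E' ε) Reg Ψ) (hε : 0 < ε) {u : ℂ × E}
    (hu : u ∈ K) (w : ℂ) (ℓ : E' × E' →L[ℂ] E')
    (hb : ∀ v ∈ ball (0 : E' × E') ε, (u, v.1, v.2, w) ∈ Reg ∧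
      ‖pr (Ψ (u, v.1, v.2, w)) - pr u.2 - ℓ v‖ < η)
    {x y : E' × E'} (hx : ‖x‖ ≤ 3 * ε / 4) (hy : ‖y‖ ≤ 3 * ε / 4) :
    ‖(pr (Ψ (u, y.1, y.2, w)) - pr u.2 - ℓ y) - (pr (Ψ (u, x.1, x.2, w)) - pr u.2 - ℓ x)‖ ≤
      16 * η / ε * ‖y - x‖ := by
  have h1 : AC (ball (0 : E' × E') ε) fun v : E' × E' => Ψ (u, v.1, v.2, w) :=
    h.ac.comp (f := fun v : E' × E' => (u, v.1, v.2, w)) (AC.of_diff (by fun_prop) _) fun v hv => by
      have hv' := mem_ball_zero_iff.1 hv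
      exact ⟨⟨hu, mem_ball_zero_iff.2 ((norm_fst_le v).trans_lt hv'),
        mem_ball_zero_iff.2 ((norm_snd_le v).trans_lt hv'), mem_univ _⟩, (hb v hv).1⟩
  exact AC.lip_ball (f := fun v : E' × E' => pr (Ψ (u, v.1, v.2, w)) - pr u.2 - ℓ v)
    (((h1.clm pr).sub (AC.const _ _)).sub ((AC.id' _).clm ℓ)) (fun v hv => (hb v hv).2.le) hx hy hε

theorem exists_pow {s δ w : ℝ} (hδ : 0 < δ) (hs : δ < s) (hw : 0 < w) :
    ∃ m : ℕ, (∀ z : ℂ, ‖z‖ < s - δ / 2 → ‖(z / s) ^ m‖ < w) ∧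
      ∀ z : ℂ, s + δ / 2 < ‖z‖ → w⁻¹ < ‖(z / s) ^ m‖ := by
  have hs0 : 0 < s := hδ.trans hs
  have h1 := (tendsto_pow_atTop_nhds_zero_of_lt_one (r := (s - δ / 2) / s)
    (div_nonneg (by linarith) hs0.le) ((div_lt_one hs0).2 (by linarith))).eventually
    (gt_mem_nhds hw)
  have h2 := (tendsto_pow_atTop_atTop_of_one_lt (r := (s + δ / 2) / s)
    ((one_lt_div hs0).2 (by linarith))).eventually (eventually_gt_atTop w⁻¹)
  obtain ⟨m, h3, h4⟩ := (h1.and h2).exists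
  have hn : ∀ z : ℂ, ‖(z / s) ^ m‖ = (‖z‖ / s) ^ m := fun z => by
    rw [norm_pow, norm_div, Complex.norm_real, Real.norm_of_nonneg hs0.le]
  refine ⟨m, fun z hz => ?_, fun z hz => ?_⟩
  · rw [hn]
    refine lt_of_le_of_lt ?_ h3
    gcongr
  · rw [hn]
    refine h4.trans_le ?_
    have : 0 ≤ (s + δ / 2) / s := by positivity
    gcongr

end G

open G in
theorem G_of (hLS : S_LS) : S_G := by
  intro E _ _ _ E' _ _ _ L _ _ _ U pr T lab hBr K hKU hK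
  obtain ⟨K₁, -, hK₁, hK₁'⟩ := compact_nhd T.closed hK.isBounded
  obtain ⟨ρ, hρ, hρ'⟩ := T.rho_lower hK₁.isBounded
  obtain ⟨εB, hεB, hB⟩ := hBr K hKU hK (ρ / 4) (by positivity)
  have hpr : 0 < 1 + ‖pr‖ := by positivity
  refine ⟨min (ρ / 4) (min (εB / (4 * (1 + ‖pr‖))) 1), by positivity, ?_⟩
  intro s δ Ω S₀ S₁ ω₀ ω₁ Λ CΛ c hδ hs hΩ hsub hS₀ hS₁ hA hω₀ hω₁ hc hcl hr₀ hr₁ hΛ1 hΛ2 hΛ3 η hη
  set A := ann (s - δ) (s + δ) with hAd
  have sin : ann (s - δ) (s - δ / 2) ⊆ A := fun z hz => ⟨hz.1, by linarith [hz.2]⟩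
  have sout : ann (s + δ / 2) (s + δ) ⊆ A := fun z hz => ⟨by linarith [hz.1], hz.2⟩
  have hAb : ∀ z ∈ A, z ∈ ball (0 : ℂ) (s + δ) := fun z hz => by simpa using hz.2
  have hU₁ : ∀ z ∈ A, (z, S₁ z) ∈ U := fun z hz =>
    T.mem_of_germ (κ := id) continuousAt_id (hS₁ z ⟨hsub (hAb z hz), hz.1⟩)
      (hA z hz).2.1.continuousAt
  have hd1 : ∀ z ∈ A, ‖S₁ z - S₀ z‖ < ρ / 4 := fun z hz => (hA z hz).2.2.2.trans_le (min_le_left _ _)
  have hd2 : ∀ z ∈ A, ‖pr (S₁ z) - pr (S₀ z)‖ ≤ εB / 4 := fun z hz => by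
    have h1 : ‖S₁ z - S₀ z‖ ≤ εB / (4 * (1 + ‖pr‖)) :=
      (hA z hz).2.2.2.le.trans ((min_le_right _ _).trans (min_le_left _ _))
    rw [← map_sub]
    refine (pr.le_opNorm _).trans ?_
    rw [le_div_iff₀ (by positivity)] at h1
    nlinarith [norm_nonneg (S₁ z - S₀ z), norm_nonneg pr]
  have hρ₀ : ∀ z ∈ A, ρ ≤ T.rho (z, S₀ z) := fun z hz =>
    hρ' _ (hK₁' _ (hA z hz).2.2.1 _ (hKU (hA z hz).2.2.1) (by simp))
  have hρ₁ : ∀ z ∈ A, ρ ≤ T.rho (z, S₁ z) := fun z hz =>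
    hρ' _ (hK₁' _ (hA z hz).2.2.1 _ (hU₁ z hz) (by
      simpa using (hA z hz).2.2.2.le.trans ((min_le_right _ _).trans (min_le_right _ _))))
  obtain ⟨κ, hκ, hcore⟩ := core hLS (r₁ := s - δ) (r₂ := s - δ / 2) (r₃ := s + δ / 2)
    (r₄ := s + δ) (by linarith) (by linarith) (by linarith) (by linarith) hsub hω₀ hω₁ hc hcl
    (fun z hz => ⟨(hr₀ z (hAb z hz) (hA z hz).1).trans ((T.rho_sq_le _).trans (T.rho_le_one _)),
      (hr₁ z (hsub (hAb z hz)) hz.1 (hA z hz).2.1).trans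
        ((T.rho_sq_le _).trans (T.rho_le_one _))⟩) hΛ1 hΛ2 hΛ3
  set ηB := min (εB / 32) (min η (1 / 2)) / κ with hηB
  have hηB0 : 0 < ηB := by positivity
  have hκη : κ * ηB = min (εB / 32) (min η (1 / 2)) := mul_div_cancel₀ _ hκ.ne'
  have k1 : κ * ηB ≤ εB / 32 := hκη ▸ min_le_left _ _
  have k2 : κ * ηB ≤ η := hκη ▸ (min_le_right _ _).trans (min_le_left _ _)
  have k3 : κ * ηB ≤ 1 / 2 := hκη ▸ (min_le_right _ _).trans (min_le_right _ _)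
  obtain ⟨w₀, hw₀, Ψ, Reg, hD⟩ := hB ηB hηB0
  obtain ⟨m, hm1, hm2⟩ := exists_pow hδ hs hw₀
  set v : (ℂ → E' × E') → ℂ → E' × E' :=
    fun u z => ((u z).1, (u z).2 + (pr (S₁ z) - pr (S₀ z))) with hv
  set γ : (ℂ → E' × E') → ℂ → (ℂ × E) × E' × E' × ℂ :=
    fun u z => ((z, S₀ z), (v u z).1, (v u z).2, (z / s) ^ m) with hγ
  have hvb : ∀ u, Sm (s - δ) (s + δ) (εB / 4) u → ∀ z ∈ A, ‖v u z‖ ≤ 3 * εB / 4 := by
    intro u hu z hz
    have h1 := (norm_fst_le (u z)).trans (hu.2 z hz)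
    have h2 := (norm_snd_le (u z)).trans (hu.2 z hz)
    have h3 := norm_add_le (u z).2 (pr (S₁ z) - pr (S₀ z))
    rw [Prod.norm_def, max_le_iff]
    exact ⟨by simp only [hv]; linarith, by simp only [hv]; linarith [hd2 z hz]⟩
  have hbr : ∀ z ∈ A, ∀ y ∈ ball (0 : E' × E') εB, ∀ w : ℂ,
      (((z, S₀ z), y.1, y.2, w) : (ℂ × E) × E' × E' × ℂ) ∈ brD K E' εB := fun z hz y hy w =>
    ⟨(hA z hz).2.2.1, mem_ball_zero_iff.2 ((norm_fst_le y).trans_lt (mem_ball_zero_iff.1 hy)),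
      mem_ball_zero_iff.2 ((norm_snd_le y).trans_lt (mem_ball_zero_iff.1 hy)), mem_univ _⟩
  have hγD : ∀ u, Sm (s - δ) (s + δ) (εB / 4) u → ∀ z ∈ A, γ u z ∈ brD K E' εB :=
    fun u hu z hz => hbr z hz _ (mem_ball_zero_iff.2 (by linarith [hvb u hu z hz])) _
  have hua : ∀ u : ℂ → E' × E', Sm (s - δ) (s + δ) (εB / 4) u → ∀ z ∈ A, AnalyticAt ℂ u z :=
    fun u hu =>
    hu.1.analyticOnNhd (isOpen_ann _ _)
  have hγa : ∀ u, Sm (s - δ) (s + δ) (εB / 4) u → ∀ z ∈ A, AnalyticAt ℂ (γ u) z := by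
    intro u hu z hz
    have h1 := hua u hu z hz
    exact (analyticAt_id.prod (hA z hz).1).prod ((analyticAt_fst.comp h1).prod
      (((analyticAt_snd.comp h1).add (((pr.analyticAt _).comp (hA z hz).2.1).sub
        ((pr.analyticAt _).comp (hA z hz).1))).prod ((analyticAt_id.div_const).pow m)))
  have hBa : ∀ u, Sm (s - δ) (s + δ) (εB / 4) u → ∀ z ∈ A, γ u z ∈ Reg →
      AnalyticAt ℂ (fun z => Ψ (γ u z)) z := fun u hu z hz h =>
    (hD.mf.an (γ u) z (hγa u hu z hz)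
      (((isOpen_ann _ _).eventually_mem hz).mono fun x hx => hγD u hu x hx) h).2
  have hin := fun u hu z (hz : z ∈ ann (s - δ) (s - δ / 2)) =>
    hD.near0 (γ u z) (hγD u hu z (sin hz)) (hm1 z hz.2)
  have hout := fun u hu z (hz : z ∈ ann (s + δ / 2) (s + δ)) =>
    hD.nearI (γ u z) (hγD u hu z (sout hz)) (hm2 z hz.1)
  obtain ⟨u, α, β, hu, hα, hαb, hβ, hβb, hαe, hβe⟩ := hcore (εB / 4) ηB (16 * ηB / εB)
    (fun u z => pr (Ψ (γ u z)) - pr (S₀ z) - (v u z).1)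
    (fun u z => pr (Ψ (γ u z)) - pr (S₀ z) - (v u z).2) hηB0.le (by positivity) (by linarith)
    (by rw [← mul_div_assoc, div_le_iff₀ hεB]; linarith)
    (fun u hu => by
      refine ⟨fun z hz => ?_, fun z hz => (hin u hu z hz).2.2.le, fun z hz => ?_,
        fun z hz => (hout u hu z hz).2.2.le⟩
      · exact ((((pr.analyticAt _).comp (hBa u hu z (sin hz) (hin u hu z hz).1)).sub
          ((pr.analyticAt _).comp (hA z (sin hz)).1)).sub (analyticAt_fst.comp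
            (analyticAt_snd.comp (hγa u hu z (sin hz))))).differentiableAt.differentiableWithinAt
      · exact ((((pr.analyticAt _).comp (hBa u hu z (sout hz) (hout u hu z hz).1)).sub
          ((pr.analyticAt _).comp (hA z (sout hz)).1)).sub (analyticAt_fst.comp (analyticAt_snd.comp
            (analyticAt_snd.comp
              (hγa u hu z (sout hz)))))).differentiableAt.differentiableWithinAt)
    (fun u u' hu hu' => by
      have he : ∀ z, v u z - v u' z = u z - u' z := fun z => by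
        simp only [hv]; ext <;> simp
      refine ⟨fun z hz => ?_, fun z hz => ?_⟩
      · rw [← he]
        exact lipb (pr := pr) hD.mf hεB (hA z (sin hz)).2.2.1 ((z / s) ^ m)
          (ContinuousLinearMap.fst ℂ E' E') (fun y hy =>
            have := hD.near0 _ (hbr z (sin hz) y hy _) (hm1 z hz.2)
            ⟨this.1, this.2.2⟩) (hvb u' hu' z (sin hz)) (hvb u hu z (sin hz))
      · rw [← he]
        exact lipb (pr := pr) hD.mf hεB (hA z (sout hz)).2.2.1 ((z / s) ^ m)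
          (ContinuousLinearMap.snd ℂ E' E') (fun y hy =>
            have := hD.nearI _ (hbr z (sout hz) y hy _) (hm2 z hz.1)
            ⟨this.1, this.2.2⟩) (hvb u' hu' z (sout hz)) (hvb u hu z (sout hz)))
  have ein : ∀ z ∈ ann (s - δ) (s - δ / 2),
      T.ex (z, S₀ z) (z, pr (S₀ z) + α z) = Ψ (γ u z) := fun z hz => by
    obtain ⟨h1, h2, -⟩ := hin u hu z hz
    refine T.ex_unique (hKU (hA z (sin hz)).2.2.1) (hD.mem _ (hγD u hu z (sin hz)) h1).1 ?_ ?_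
    · have h3 := hρ₀ z (sin hz)
      have h4 : ‖Ψ (γ u z) - S₀ z‖ < ρ / 4 := h2
      simpa [hγ] using (show ‖Ψ (γ u z) - S₀ z‖ < T.rho (z, S₀ z) by linarith)
    · rw [hαe z hz]
      simp [hγ, hv]
  have eout : ∀ z ∈ ann (s + δ / 2) (s + δ),
      T.ex (z, S₁ z) (z, pr (S₁ z) + (β z + Λ β z)) = Ψ (γ u z) := fun z hz => by
    obtain ⟨h1, h2, -⟩ := hout u hu z hz
    refine T.ex_unique (hU₁ z (sout hz)) (hD.mem _ (hγD u hu z (sout hz)) h1).1 ?_ ?_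
    · have h3 := hρ₁ z (sout hz)
      have h4 : ‖Ψ (γ u z) - S₀ z‖ < ρ / 4 := h2
      have h5 := hd1 z (sout hz)
      have h6 := norm_sub_le_norm_sub_add_norm_sub (Ψ (γ u z)) (S₀ z) (S₁ z)
      rw [norm_sub_rev (S₀ z)] at h6
      simpa [hγ] using (show ‖Ψ (γ u z) - S₁ z‖ < T.rho (z, S₁ z) by linarith)
    · rw [hβe z hz]
      simp only [hγ, hv, Prod.mk.injEq, true_and]
      abel
  classical
  set S : ℂ → E := fun z => if ‖z‖ < s - δ / 2 then T.ex (z, S₀ z) (z, pr (S₀ z) + α z)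
    else if ‖z‖ ≤ s + δ / 2 then Ψ (γ u z)
    else T.ex (z, S₁ z) (z, pr (S₁ z) + (β z + Λ β z)) with hS
  have hSA : ∀ z ∈ A, Ψ (γ u z) = S z := fun z hz => by
    simp only [hS]
    split_ifs with h1 h2
    · exact (ein z ⟨hz.1, h1⟩).symm
    · rfl
    · exact (eout z ⟨not_le.1 h2, hz.2⟩).symm
  have sb : ball (0 : ℂ) (s - δ / 2) ⊆ ball 0 (s + δ) := ball_subset_ball (by linarith)
  obtain ⟨p1, p2⟩ := pert T (S' := S) isOpen_ball (by positivity : 0 ≤ κ * ηB) (by linarith)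
    (fun p hp => hS₀ p (sb hp)) hα hαb (fun z hz => hr₀ z (sb hz))
    (fun z hz => if_pos (mem_ball_zero_iff.1 hz))
  have so : ∀ z : ℂ, s + δ / 2 < ‖z‖ → s - δ < ‖z‖ := fun z hz => by linarith
  obtain ⟨q1, q2⟩ := pert T (S' := S) (a := fun z => β z + Λ β z)
    (hΩ.inter (isOpen_out (s + δ / 2))) (by positivity : 0 ≤ κ * ηB) (by linarith)
    (fun p hp => hS₁ p ⟨hp.1, so p hp.2⟩)
    (fun z hz => (hβ z hz.2).add (hΛ2 β hβ z ⟨hz.1, so z hz.2⟩)) (fun z hz => hβb z hz.1 hz.2)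
    (fun z hz => hr₁ z hz.1 (so z hz.2)) (fun z hz => by
      have h1 : s + δ / 2 < ‖z‖ := hz.2
      simp only [hS]
      rw [if_neg (by linarith), if_neg (by linarith)])
  refine ⟨S, β, fun p hp => ?_, fun z hz h => ⟨(p2 z hz h).1, (p2 z hz h).2.1.trans (by gcongr)⟩,
    fun z hz hz' h => ⟨(q2 z ⟨hz, hz'⟩ h).1, (q2 z ⟨hz, hz'⟩ h).2.1.trans (by gcongr),
      (q2 z ⟨hz, hz'⟩ h).2.2.trans (add_assoc _ _ _).symm⟩⟩
  by_cases h1 : ‖p‖ < s - δ / 2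
  · exact p1 p (mem_ball_zero_iff.2 h1)
  by_cases h2 : s + δ / 2 < ‖p‖
  · exact q1 p ⟨hp, h2⟩
  have hpA : p ∈ A := ⟨by linarith, by linarith⟩
  have h0 : ((s - 3 * δ / 4 : ℝ) : ℂ) ∈ ann (s - δ) (s - δ / 2) := by
    have : ‖((s - 3 * δ / 4 : ℝ) : ℂ)‖ = s - 3 * δ / 4 := by
      rw [Complex.norm_real, Real.norm_of_nonneg (by linarith)]
    exact ⟨by rw [this]; linarith, by rw [this]; linarith⟩
  obtain ⟨h3, h4⟩ := hD.mf.conn (isOpen_ann _ _) (isPreconnected_ann (by linarith : 0 < s - δ))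
    (hγa u hu) (hγD u hu) (sin h0) (hin u hu _ h0).1 hpA
  have h5 := (isOpen_ann (s - δ) (s + δ)).eventually_mem hpA
  refine germ_congr (S := fun z => Ψ (γ u z)) ⟨h4, ?_⟩ (h5.mono hSA)
  filter_upwards [h3, nhdsWithin_le_nhds h5] with z h6 h7
  exact (hD.mem _ (hγD u hu z h7) h6).1

end Pool.Agent.P.MP_daea48_ag
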