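import Pool.Agent.P.MP_daea48_ag.StA

/-! Package G, part 1: the weighted splitting and the fixed point. -/

open Set Filter Topology Metric

namespace Pool.Agent.P.MP_daea48_ag

namespace G

theorem isOpen_ann (r s : ℝ) : IsOpen (ann r s) :=
  (isOpen_lt continuous_const continuous_norm).inter (isOpen_lt continuous_norm continuous_const)

theorem isOpen_out (r : ℝ) : IsOpen {z : ℂ | r < ‖z‖} :=
  isOpen_lt continuous_const continuous_norm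

theorem isPreconnected_ann {r s : ℝ} (hr : 0 < r) : IsPreconnected (ann r s) := by
  have h : ann r s = (fun p : ℝ × ℝ => (p.1 : ℂ) * Complex.exp (p.2 * Complex.I)) ''
      (Ioo r s ×ˢ univ) := by
    ext z
    constructor
    · intro hz
      exact ⟨(‖z‖, z.arg), ⟨hz, mem_univ _⟩, Complex.norm_mul_exp_arg_mul_I z⟩
    · rintro ⟨p, ⟨hp, -⟩, rfl⟩
      have : ‖(p.1 : ℂ) * Complex.exp (p.2 * Complex.I)‖ = p.1 := by
        rw [norm_mul, Complex.norm_exp_ofReal_mul_I, mul_one, Complex.norm_real,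
          Real.norm_of_nonneg (hr.trans hp.1).le]
      exact ⟨this ▸ hp.1, this ▸ hp.2⟩
  rw [h]
  exact (isPreconnected_Ioo.prod isPreconnected_univ).image _ (by fun_prop)

variable {Y : Type} [NormedAddCommGroup Y] [NormedSpace ℂ Y] [FiniteDimensional ℂ Y]

/-- Laurent splitting with a weight. -/
theorem split (hLS : S_LS) (Y : Type) [NormedAddCommGroup Y] [NormedSpace ℂ Y]
    [FiniteDimensional ℂ Y] {r s c : ℝ} (hr : 0 < r) (hrs : r < s) {ω : ℂ → ℂ}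
    (hω : DifferentiableOn ℂ ω (ann r s)) (hc : 0 < c) (hcl : ∀ z ∈ ann r s, c ≤ ‖ω z‖) :
    ∃ C > 0, ∃ P Q : (ℂ → Y) → ℂ → Y,
      (∀ (e : ℂ → Y) (M : ℝ), DifferentiableOn ℂ e (ann r s) → (∀ z ∈ ann r s, ‖e z‖ ≤ M) →
        AnalyticOnNhd ℂ (P e) (ball 0 s) ∧ AnalyticOnNhd ℂ (Q e) {z | r < ‖z‖} ∧
        (∀ z ∈ ann r s, ω z • P e z + ω z • Q e z = e z) ∧
        (∀ z ∈ ball (0 : ℂ) s, ‖P e z‖ ≤ C * M) ∧ ∀ z, r < ‖z‖ → ‖Q e z‖ ≤ C * M) ∧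
      ∀ (e e' : ℂ → Y) (M : ℝ), DifferentiableOn ℂ e (ann r s) → DifferentiableOn ℂ e' (ann r s) →
        (∀ z ∈ ann r s, ‖e z - e' z‖ ≤ M) →
        (∀ z ∈ ball (0 : ℂ) s, ‖P e z - P e' z‖ ≤ C * M) ∧
          ∀ z, r < ‖z‖ → ‖Q e z - Q e' z‖ ≤ C * M := by
  obtain ⟨C, hC, h1, h2, -, -⟩ := hLS Y r s hr hrs
  have h0 : ∀ z ∈ ann r s, ω z ≠ 0 := fun z hz => norm_pos_iff.1 (hc.trans_le (hcl z hz))
  have hd : ∀ e : ℂ → Y, DifferentiableOn ℂ e (ann r s) →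
      DifferentiableOn ℂ (fun z => (ω z)⁻¹ • e z) (ann r s) := fun e he => (hω.inv h0).smul he
  have hb : ∀ z ∈ ann r s, ∀ (y : Y) (M : ℝ), ‖y‖ ≤ M → ‖(ω z)⁻¹ • y‖ ≤ M / c := by
    intro z hz y M hy
    rw [norm_smul, norm_inv, mul_comm, ← div_eq_mul_inv]
    have := hcl z hz
    have := (norm_nonneg y).trans hy
    gcongr
  have hCM : ∀ M : ℝ, C * (M / c) = C / c * M := fun M => by ring
  refine ⟨C / c, div_pos hC hc, fun e => Pp r s fun z => (ω z)⁻¹ • e z,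
    fun e => Pm r s fun z => (ω z)⁻¹ • e z, fun e M he hM => ?_, fun e e' M he he' hM => ?_⟩
  · obtain ⟨a1, a2, a3, a4, a5⟩ := h1 _ (M / c) (hd e he) fun z hz => hb z hz _ _ (hM z hz)
    refine ⟨a1, a2, fun z hz => ?_, fun z hz => hCM M ▸ a4 z hz, fun z hz => hCM M ▸ a5 z hz⟩
    rw [← smul_add, a3 z hz, smul_inv_smul₀ (h0 z hz)]
  · obtain ⟨-, -, -, a4, a5⟩ := h1 (fun z => (ω z)⁻¹ • e z - (ω z)⁻¹ • e' z) (M / c)
      ((hd e he).sub (hd e' he')) fun z hz => by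
        rw [← smul_sub]; exact hb z hz _ _ (hM z hz)
    have a6 := h2 _ _ (hd e he).continuousOn (hd e' he').continuousOn
    refine ⟨fun z hz => ?_, fun z hz => ?_⟩
    · have := a4 z hz
      rw [(a6 z).1 (by simpa using hz), hCM] at this
      exact this
    · have := a5 z hz
      rw [(a6 z).2 hz, hCM] at this
      exact this

/-- Small holomorphic pairs on an annulus. -/
def Sm (r s ε : ℝ) (u : ℂ → Y × Y) : Prop :=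
  DifferentiableOn ℂ u (ann r s) ∧ ∀ z ∈ ann r s, ‖u z‖ ≤ ε

theorem core (hLS : S_LS) {r₁ r₂ r₃ r₄ : ℝ} (h1 : 0 < r₁) (h12 : r₁ < r₂) (h23 : r₂ < r₃)
    (h34 : r₃ < r₄) {Ω : Set ℂ} (hΩ : ball 0 r₄ ⊆ Ω) {ω₀ ω₁ : ℂ → ℂ} {Λ : (ℂ → Y) → ℂ → Y}
    {CΛ c : ℝ} (hω₀ : Differentiable ℂ ω₀) (hω₁ : AnalyticOnNhd ℂ ω₁ {z | z ≠ 0}) (hc : 0 < c)
    (hcl : ∀ z ∈ ann r₁ r₄, c ≤ ‖ω₀ z‖ ∧ c ≤ ‖ω₁ z‖)
    (hcu : ∀ z ∈ ann r₁ r₄, ‖ω₀ z‖ ≤ 1 ∧ ‖ω₁ z‖ ≤ 1)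
    (hΛ1 : ∀ β β', AnalyticOnNhd ℂ β {z | r₃ < ‖z‖} → AnalyticOnNhd ℂ β' {z | r₃ < ‖z‖} →
      ∀ z ∈ Ω, r₁ < ‖z‖ → Λ (fun x => β x - β' x) z = Λ β z - Λ β' z)
    (hΛ2 : ∀ β, AnalyticOnNhd ℂ β {z | r₃ < ‖z‖} → AnalyticOnNhd ℂ (Λ β) (Ω ∩ {z | r₁ < ‖z‖}))
    (hΛ3 : ∀ β (M : ℝ), AnalyticOnNhd ℂ β {z | r₃ < ‖z‖} →
      (∀ z, r₃ < ‖z‖ → ‖β z‖ ≤ M * ‖ω₁ z‖) →
      ∀ z ∈ Ω, r₁ < ‖z‖ → ‖Λ β z‖ ≤ CΛ * M * ‖ω₁ z‖) :
    ∃ κ > 0, ∀ (ε η l : ℝ) (ein eout : (ℂ → Y × Y) → ℂ → Y), 0 ≤ η → 0 ≤ l → κ * η ≤ ε →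
      κ * l ≤ 1 / 2 →
      (∀ u, Sm r₁ r₄ ε u → DifferentiableOn ℂ (ein u) (ann r₁ r₂) ∧
        (∀ z ∈ ann r₁ r₂, ‖ein u z‖ ≤ η) ∧ DifferentiableOn ℂ (eout u) (ann r₃ r₄) ∧
        ∀ z ∈ ann r₃ r₄, ‖eout u z‖ ≤ η) →
      (∀ u u', Sm r₁ r₄ ε u → Sm r₁ r₄ ε u' →
        (∀ z ∈ ann r₁ r₂, ‖ein u z - ein u' z‖ ≤ l * ‖u z - u' z‖) ∧
        ∀ z ∈ ann r₃ r₄, ‖eout u z - eout u' z‖ ≤ l * ‖u z - u' z‖) →
      ∃ (u : ℂ → Y × Y) (α β : ℂ → Y), Sm r₁ r₄ ε u ∧ AnalyticOnNhd ℂ α (ball 0 r₂) ∧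
        (∀ z ∈ ball (0 : ℂ) r₂, ‖α z‖ ≤ κ * η * ‖ω₀ z‖) ∧ AnalyticOnNhd ℂ β {z | r₃ < ‖z‖} ∧
        (∀ z ∈ Ω, r₃ < ‖z‖ → ‖β z + Λ β z‖ ≤ κ * η * ‖ω₁ z‖) ∧
        (∀ z ∈ ann r₁ r₂, α z = (u z).1 + ein u z) ∧
        ∀ z ∈ ann r₃ r₄, β z + Λ β z = (u z).2 + eout u z := by
  have sin : ann r₁ r₂ ⊆ ann r₁ r₄ := fun z hz => ⟨hz.1, by linarith [hz.2]⟩
  have sout : ann r₃ r₄ ⊆ ann r₁ r₄ := fun z hz => ⟨by linarith [hz.1], hz.2⟩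
  have hne : ∀ z : ℂ, r₁ < ‖z‖ → z ≠ 0 := fun z hz => norm_pos_iff.1 (h1.trans hz)
  have hA : ∀ z ∈ ann r₁ r₄, z ∈ Ω := fun z hz => hΩ (by simpa using hz.2)
  obtain ⟨C₁, hC₁, P₁, Q₁, a1, b1⟩ := split hLS Y h1 h12 hω₀.differentiableOn hc
    fun z hz => (hcl z (sin hz)).1
  obtain ⟨C₂, hC₂, P₂, Q₂, a2, b2⟩ := split hLS Y (by linarith : 0 < r₃) h34 (ω := ω₁)
    (fun z hz => (hω₁ z (hne z (sout hz).1)).differentiableAt.differentiableWithinAt) hc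
    fun z hz => (hcl z (sout hz)).2
  set D := |CΛ| with hD
  have hD0 : 0 ≤ D := abs_nonneg _
  have hΛ4 : ∀ β (M : ℝ), 0 ≤ M → AnalyticOnNhd ℂ β {z | r₃ < ‖z‖} →
      (∀ z, r₃ < ‖z‖ → ‖β z‖ ≤ M * ‖ω₁ z‖) →
      ∀ z ∈ Ω, r₁ < ‖z‖ → ‖Λ β z‖ ≤ D * M * ‖ω₁ z‖ := fun β M hM h2 h3 z hz hz' =>
    (hΛ3 β M h2 h3 z hz hz').trans (by gcongr; exact le_abs_self _)
  have hk1 : C₁ ≤ C₁ + C₂ + D * C₂ := by nlinarith
  have hk2 : C₂ + D * C₂ ≤ C₁ + C₂ + D * C₂ := by linarith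
  refine ⟨C₁ + C₂ + D * C₂, by positivity, fun ε η l ein eout hη hl hε hκ H1 H2 => ?_⟩
  set κ := C₁ + C₂ + D * C₂ with hκd
  set β : (ℂ → Y × Y) → ℂ → Y := fun u z => ω₁ z • Q₂ (eout u) z with hβ
  have hβa : ∀ u, Sm r₁ r₄ ε u → AnalyticOnNhd ℂ (β u) {z | r₃ < ‖z‖} := fun u hu z hz =>
    (hω₁ z (hne z (by linarith [show r₃ < ‖z‖ from hz]))).smul
      ((a2 _ η (H1 u hu).2.2.1 (H1 u hu).2.2.2).2.1 z hz)
  have hβb : ∀ u, Sm r₁ r₄ ε u → ∀ z, r₃ < ‖z‖ → ‖β u z‖ ≤ C₂ * η * ‖ω₁ z‖ := fun u hu z hz => by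
    rw [hβ, norm_smul, mul_comm]
    gcongr
    exact (a2 _ η (H1 u hu).2.2.1 (H1 u hu).2.2.2).2.2.2.2 z hz
  have hsm : ∀ (a : ℂ) (y : Y) (M : ℝ), ‖a‖ ≤ 1 → ‖y‖ ≤ M → ‖a • y‖ ≤ M := fun a y M ha hy => by
    rw [norm_smul]
    nlinarith [norm_nonneg y, norm_nonneg a]
  have hΦ : ∀ u, Sm r₁ r₄ ε u → Sm r₁ r₄ ε
      (fun z => (-(ω₀ z • Q₁ (ein u) z), -(ω₁ z • P₂ (eout u) z) + Λ (β u) z)) := by
    intro u hu
    obtain ⟨-, c2, -, -, c5⟩ := a1 _ η (H1 u hu).1 (H1 u hu).2.1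
    obtain ⟨d1, -, -, d4, -⟩ := a2 _ η (H1 u hu).2.2.1 (H1 u hu).2.2.2
    refine ⟨fun z hz => DifferentiableAt.differentiableWithinAt ?_, fun z hz => ?_⟩
    · exact ((hω₀ z).smul (c2 z hz.1).differentiableAt).neg.prodMk
        (((hω₁ z (hne z hz.1)).smul (d1 z (by simpa using hz.2))).differentiableAt.neg.add
          (hΛ2 _ (hβa u hu) z ⟨hA z hz, hz.1⟩).differentiableAt)
    · have e1 := hsm _ _ _ (hcu z hz).1 (c5 z hz.1)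
      have e2 := hsm _ _ _ (hcu z hz).2 (d4 z (by simpa using hz.2))
      have e3 := hΛ4 _ _ (by positivity) (hβa u hu) (hβb u hu) z (hA z hz) hz.1
      have e4 : D * (C₂ * η) * ‖ω₁ z‖ ≤ D * (C₂ * η) :=
        mul_le_of_le_one_right (by positivity) (hcu z hz).2
      rw [Prod.norm_def, max_le_iff, norm_neg]
      refine ⟨by nlinarith, (norm_add_le _ _).trans ?_⟩
      rw [norm_neg]
      nlinarith
  have h0 : Sm r₁ r₄ ε (fun _ => (0 : Y × Y)) := ⟨differentiableOn_const _, fun z _ => by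
    rw [norm_zero]; exact le_trans (by positivity) hε⟩
  obtain ⟨u, hu, hfix⟩ := iter_fix (ann r₁ r₄) (Sm r₁ r₄ ε)
    (fun u z => (-(ω₀ z • Q₁ (ein u) z), -(ω₁ z • P₂ (eout u) z) + Λ (β u) z))
    (fun f g hf hfg => ⟨(hfg.tendstoLocallyUniformlyOn).differentiableOn
      (Eventually.of_forall fun n => (hf n).1) (isOpen_ann _ _), fun z hz =>
        le_of_tendsto' (hfg.tendsto_at hz).norm fun n => (hf n).2 z hz⟩)
    hΦ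
    (fun u u' M hu hu' hM z hz => by
      have hM0 : 0 ≤ M := (norm_nonneg _).trans (hM z hz)
      obtain ⟨-, c2⟩ := b1 _ _ (l * M) (H1 u hu).1 (H1 u' hu').1 fun x hx =>
        ((H2 u u' hu hu').1 x hx).trans (mul_le_mul_of_nonneg_left (hM x (sin hx)) hl)
      obtain ⟨d1, d2⟩ := b2 _ _ (l * M) (H1 u hu).2.2.1 (H1 u' hu').2.2.1 fun x hx =>
        ((H2 u u' hu hu').2 x hx).trans (mul_le_mul_of_nonneg_left (hM x (sout hx)) hl)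
      have e1 := hsm _ _ _ (hcu z hz).1 (c2 z hz.1)
      have e2 := hsm _ _ _ (hcu z hz).2 (d1 z (by simpa using hz.2))
      have e3 := hΛ4 (fun x => β u x - β u' x) (C₂ * (l * M)) (by positivity)
        ((hβa u hu).sub (hβa u' hu')) (fun x hx => by
          simp only [hβ]
          rw [← smul_sub, norm_smul, mul_comm]
          gcongr
          exact d2 x hx) z (hA z hz) hz.1
      rw [hΛ1 _ _ (hβa u hu) (hβa u' hu') z (hA z hz) hz.1] at e3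
      have e4 : D * (C₂ * (l * M)) * ‖ω₁ z‖ ≤ D * (C₂ * (l * M)) :=
        mul_le_of_le_one_right (by positivity) (hcu z hz).2
      have e5 : κ * (l * M) ≤ M / 2 := by nlinarith
      have e6 : 0 ≤ l * M := by positivity
      rw [Prod.norm_def, max_le_iff]
      constructor
      · have : -(ω₀ z • Q₁ (ein u) z) - -(ω₀ z • Q₁ (ein u') z) =
            -(ω₀ z • (Q₁ (ein u) z - Q₁ (ein u') z)) := by rw [smul_sub]; abel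
        simp only [Prod.fst_sub]
        rw [this, norm_neg]
        nlinarith
      · have : -(ω₁ z • P₂ (eout u) z) + Λ (β u) z - (-(ω₁ z • P₂ (eout u') z) + Λ (β u') z) =
            -(ω₁ z • (P₂ (eout u) z - P₂ (eout u') z)) + (Λ (β u) z - Λ (β u') z) := by
          rw [smul_sub]; abel
        simp only [Prod.snd_sub]
        rw [this]
        refine (norm_add_le _ _).trans ?_
        rw [norm_neg]
        nlinarith)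
    h0 (M := ε) (fun z hz => by rw [sub_zero]; exact (hΦ _ h0).2 z hz)
  obtain ⟨c1, -, c3, c4, -⟩ := a1 _ η (H1 u hu).1 (H1 u hu).2.1
  obtain ⟨-, -, d3, -, -⟩ := a2 _ η (H1 u hu).2.2.1 (H1 u hu).2.2.2
  refine ⟨u, fun z => ω₀ z • P₁ (ein u) z, β u, hu, fun z hz => (hω₀.analyticAt z).smul (c1 z hz),
    fun z hz => ?_, hβa u hu, fun z hz hz' => ?_, fun z hz => ?_, fun z hz => ?_⟩
  · rw [norm_smul, mul_comm]
    gcongr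
    exact (c4 z hz).trans (by gcongr)
  · have e3 := hΛ4 _ _ (by positivity) (hβa u hu) (hβb u hu) z hz (by linarith)
    have e4 : (C₂ + D * C₂) * η * ‖ω₁ z‖ ≤ κ * η * ‖ω₁ z‖ := by gcongr
    have e5 := hβb u hu z hz'
    refine (norm_add_le _ _).trans ?_
    nlinarith
  · rw [← hfix z (sin hz), ← c3 z hz]
    simp
  · rw [← hfix z (sout hz), ← d3 z hz]
    simp only [hβ]
    abel

end G

end Pool.Agent.P.MP_daea48_ag
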