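import Pool.Agent.P.MP_daea48_ag.GHS0

/-! Points of an Oka system over Laurent series. -/

open Set Filter Polynomial

namespace Pool.Agent.P.MP_daea48_ag

noncomputable section

namespace GHSP

variable {E : Type} [NormedAddCommGroup E] [NormedSpace ℂ E]

theorem equations (hM : S_Mero) {E' : Type} [NormedAddCommGroup E'] [NormedSpace ℂ E']
    {U : Set (ℂ × E)} {pr : E →L[ℂ] E'} (h : HasAPS U pr) {n : ℕ} (e : E ≃L[ℂ] (Fin n → ℂ)) :
    ∃ (m : ℕ) (G : Fin m → MvPolynomial (Option (Fin n)) ℂ), ∀ z ξ, (z, ξ) ∈ U ↔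
      ∀ k, MvPolynomial.aeval (fun o : Option (Fin n) => o.elim z (e ξ)) (G k) = 0 := by
  obtain ⟨E'', _, _, _, F, hF⟩ := h
  let e'' : E'' ≃L[ℂ] (Fin (Module.finrank ℂ E'') → ℂ) := (Module.finBasis ℂ E'').equivFunL
  have h1 : Tame fun x : Option (Fin n) → ℂ => e'' (F (x none, e.symm fun s => x (some s))) :=
    (Tame.clm (e'' : E'' →L[ℂ] (Fin (Module.finrank ℂ E'') → ℂ))).comp (hF.tame.comp ((Tame.id'.apply none).prodMk
      ((Tame.clm (e.symm : (Fin n → ℂ) →L[ℂ] E)).comp (Tame.pi fun s => Tame.id'.apply (some s)))))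
  choose G hG using fun k => hM.2.2.1 (Option (Fin n)) _ (h1.apply k)
  refine ⟨_, G, fun z ξ => ?_⟩
  simp only [MvPolynomial.aeval_eq_eval, ← hG, Option.elim_none, Option.elim_some]
  rw [hF.zero, ← map_eq_zero_iff _ e''.injective, funext_iff]
  simp

theorem lpt {U : Set (ℂ × E)} {n m : ℕ} (e : E ≃L[ℂ] (Fin n → ℂ))
    (G : Fin m → MvPolynomial (Option (Fin n)) ℂ) (hG : ∀ z ξ, (z, ξ) ∈ U ↔
      ∀ k, MvPolynomial.aeval (fun o : Option (Fin n) => o.elim z (e ξ)) (G k) = 0)
    {Λ : Type} [Field Λ] [Algebra ℂ Λ] (z : Λ) (ξ : Fin n → Λ)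
    (h : ∀ k, MvPolynomial.aeval (fun o : Option (Fin n) => o.elim z ξ) (G k) = 0) :
    LPt U z fun ℓ => ∑ s, algebraMap ℂ Λ (ℓ (e.symm (Pi.single s 1))) * ξ s := by
  intro s ℓ G' hG'
  let τ : Option (Fin s) → MvPolynomial (Option (Fin n)) ℂ := fun o => o.elim (MvPolynomial.X none)
    fun i => ∑ a, MvPolynomial.C (ℓ i (e.symm (Pi.single a 1))) * MvPolynomial.X (some a)
  have key : ∀ (B : Type) [CommRing B] [Algebra ℂ B] (x : Option (Fin n) → B),
      MvPolynomial.aeval x (MvPolynomial.aeval τ G') = MvPolynomial.aeval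
        (fun o : Option (Fin s) => o.elim (x none) fun i =>
          ∑ a, algebraMap ℂ B (ℓ i (e.symm (Pi.single a 1))) * x (some a)) G' := by
    intro B _ _ x
    rw [MvPolynomial.comp_aeval_apply]
    congr 2
    funext o
    cases o <;> simp [τ]
  have h1 : MvPolynomial.aeval τ G' ∈ (Ideal.span (range G)).radical := by
    rw [← MvPolynomial.vanishingIdeal_zeroLocus_eq_radical (K := ℂ), MvPolynomial.zeroLocus_span,
      MvPolynomial.mem_vanishingIdeal_iff]
    intro x hx
    have h2 := hG' (x none, e.symm fun a => x (some a)) ((hG _ _).2 fun k => by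
      rw [← hx _ ⟨k, rfl⟩]
      congr 2
      funext o
      cases o <;> simp)
    rw [key, MvPolynomial.aeval_eq_eval, ← h2]
    congr 2
    funext o
    cases o with
    | none => rfl
    | some i =>
      have : (fun a => x (some a)) = ∑ a, x (some a) • (Pi.single a 1 : Fin n → ℂ) := by
        funext b
        simp [Pi.single_apply]
      simp only [Option.elim_some]
      rw [this]
      simp [mul_comm]
  obtain ⟨N, hN⟩ := h1
  have h3 : Ideal.span (range G) ≤
      RingHom.ker (MvPolynomial.aeval (R := ℂ) fun o : Option (Fin n) => o.elim z ξ) :=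
    Ideal.span_le.2 (by rintro _ ⟨k, rfl⟩; exact h k)
  have h4 := h3 hN
  rw [RingHom.mem_ker, map_pow, key] at h4
  exact eq_zero_of_pow_eq_zero h4

theorem sep_of_cov {Q : ℂ[X][X]} {d : ℕ} {δ : ℂ[X]} (h : Cov Q d δ) {z : ℂ} (hz : δ.eval z ≠ 0) :
    (Q.map (evalRingHom z)).Separable := by
  obtain ⟨a, b, e⟩ := h.bez
  have h1 := congrArg (Polynomial.map (evalRingHom z)) e
  simp only [Polynomial.map_add, Polynomial.map_mul, map_C, coe_evalRingHom,
    ← derivative_map] at h1
  refine ⟨C (δ.eval z)⁻¹ * a.map (evalRingHom z), C (δ.eval z)⁻¹ * b.map (evalRingHom z), ?_⟩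
  rw [mul_assoc, mul_assoc, ← mul_add, h1, ← C_mul, inv_mul_cancel₀ hz, C_1]

theorem not_countable {s : Set ℂ} (h : sᶜ.Finite) : ¬ s.Countable := fun h' =>
  not_countable_complex (union_compl_self s ▸ h'.union h.countable)

end GHSP

open GHSP

theorem GHS_of (h1 : S_GHS1) (hSP : S_SP) (hSPP : S_SPP) (hM : S_Mero) : S_GHS := by
  intro E _ _ _ E' _ _ _ U pr Bad hO hσ L _ _ z hz
  let n := Module.finrank ℂ E
  let e : E ≃L[ℂ] (Fin n → ℂ) := (Module.finBasis ℂ E).equivFunL
  obtain ⟨m, G, hG⟩ := equations hM hO.aps e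
  choose! ξ hξ using hO.ne
  obtain ⟨-, -, Q, d, D, Cf, -, hc, hd, -, -, -, hΛ⟩ := hSP.2 (Fin n) (Fin m) G {z | z ∉ Bad}
    (fun ε => e (ξ ε)) (not_countable (by simp [compl_ofPred])) fun ε hε i => (hG _ _).1 (hξ ε hε) i
  obtain ⟨q, hq, H⟩ := h1 E E' U pr Bad Q d D (fun p => e.symm fun s => (Cf s).evalEval p.1 p.2)
    hO hσ hc hd ((Tame.clm (e.symm : (Fin n → ℂ) →L[ℂ] E)).comp
      (Tame.pi fun s => Tame.fst'.evalEval Tame.snd' _)) fun z W h2 h3 => (hG _ _).2 fun k => by
      have := hΛ ℂ z W (by rwa [coe_aevalAeval_eq_evalEval]) (by rwa [coe_aeval_eq_eval]) k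
      rw [← this]
      congr 2
      funext o
      cases o with
      | none => rfl
      | some s =>
        simp only [Option.elim_some, coe_aevalAeval_eq_evalEval, coe_aeval_eq_eval]
        simp [div_eq_inv_mul]
  let κ : PowerSeries L →ₐ[ℂ] LaurentSeries L :=
    { HahnSeries.ofPowerSeries ℤ L with commutes' := fun _ => rfl }
  obtain ⟨x, hx⟩ := core hSPP G hc.monic hc.deg hd hq (not_countable (mem_cofinite.1 H))
    (fun ε ⟨δ, S, h2, h3, h4, h5⟩ => by
      obtain ⟨Den, hD, hN⟩ := hM.1 _ S h3 h4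
      choose Num hNum using fun ls : Fin d × Fin n => hN
        ((ContinuousLinearMap.proj ls.2).comp ((e : E →L[ℂ] (Fin n → ℂ)).comp
          ((ContinuousLinearMap.proj ls.1).comp (ContinuousLinearMap.fst ℂ (Fin d → E) ℂ))))
      refine ⟨fun o => o.elim Den Num, hD, ?_⟩
      have h6 : ∀ᶠ z₀ in cofinite, Den.eval z₀ ≠ 0 :=
        Filter.eventually_cofinite.2 (by simpa using Den.finite_setOfPred_isRoot hD)
      filter_upwards [h5, h6, Filter.eventually_all.2 hNum] with z₀ h7 h8 h9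
      rw [← QG_Qe hc.monic]
      refine ⟨sep_of_cov h2 (right_ne_zero_of_mul_eq_one h7.1), fun v hv k => ?_⟩
      rw [← (hG _ _).1 (h7.2 v (by rwa [map_evalRingHom_eval] at hv)).2 k]
      congr 2
      funext o
      cases o with
      | none => rfl
      | some s =>
        simp only [Option.elim_some, Option.elim_none, ← h9, ev, map_sum, map_smul,
          Finset.sum_apply, Pi.smul_apply, smul_eq_mul, Finset.mul_sum]
        refine Finset.sum_congr rfl fun l _ => ?_
        simp only [ContinuousLinearMap.comp_apply, ContinuousLinearMap.proj_apply,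
          ContinuousLinearMap.coe_fst', ContinuousLinearEquiv.coe_coe]
        field_simp) hz κ HahnSeries.ofPowerSeries_injective
  exact ⟨_, lpt e G hG _ x hx⟩

end

end Pool.Agent.P.MP_daea48_ag
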