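import Pool.Agent.P.MP_daea48_ag.StK

/-! Algebraic core of the existence of local points: degeneration of a multisection. -/

open Set Filter Polynomial

namespace Pool.Agent.P.MP_daea48_ag

noncomputable section

namespace GHSP

variable {B B' : Type} [CommRing B] [Algebra ℂ B] [CommRing B'] [Algebra ℂ B']

/-- the degenerating cover over a `ℂ`-algebra -/
def QG (Q : ℂ[X][X]) (q : ℂ[X]) (z ε : B) : B[X] :=
  scaleRoots (Q.map (aeval z : ℂ[X] →ₐ[ℂ] B).toRingHom) ε +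
    C (aeval z (if Q.natDegree = 1 then 0 else q)) * X

theorem QG_map {Q : ℂ[X][X]} (hQ : Q.Monic) (q : ℂ[X]) [Nontrivial B'] (ψ : B →ₐ[ℂ] B') (z ε : B) :
    (QG Q q z ε).map ψ.toRingHom = QG Q q (ψ z) (ψ ε) := by
  have h : ψ.toRingHom.comp (aeval z : ℂ[X] →ₐ[ℂ] B).toRingHom =
      (aeval (ψ z) : ℂ[X] →ₐ[ℂ] B').toRingHom := by
    ext <;> simp
  rw [QG, QG, Polynomial.map_add, map_scaleRoots _ _ _ (by rw [(hQ.map _).leadingCoeff]; simp),
    Polynomial.map_map, h, Polynomial.map_mul, map_C, map_X, aeval_algHom_apply]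
  rfl

theorem QG_monic {Q : ℂ[X][X]} (hQ : Q.Monic) (hd : 0 < Q.natDegree) (q : ℂ[X]) [Nontrivial B]
    (z ε : B) : (QG Q q z ε).Monic ∧ (QG Q q z ε).degree = Q.natDegree := by
  have h1 : (scaleRoots (Q.map (aeval z : ℂ[X] →ₐ[ℂ] B).toRingHom) ε).degree = Q.natDegree := by
    rw [degree_scaleRoots, hQ.degree_map, degree_eq_natDegree hQ.ne_zero]
  have h2 : (C (aeval z (if Q.natDegree = 1 then 0 else q)) * X : B[X]).degree <
      (scaleRoots (Q.map (aeval z : ℂ[X] →ₐ[ℂ] B).toRingHom) ε).degree := by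
    rw [h1]
    split_ifs with h
    · simp
    · exact (degree_C_mul_X_le _).trans_lt (by exact_mod_cast (by omega : 1 < Q.natDegree))
  exact ⟨((monic_scaleRoots_iff ε).2 (hQ.map _)).add_of_left h2,
    (degree_add_eq_left_of_degree_lt h2).trans h1⟩

theorem QG_Qe {Q : ℂ[X][X]} (hQ : Q.Monic) (q : ℂ[X]) (z ε : ℂ) :
    (Qe Q q ε).map (evalRingHom z) = QG Q q z ε := by
  have h : (aeval z : ℂ[X] →ₐ[ℂ] ℂ).toRingHom = evalRingHom z := by
    ext <;> simp
  rw [QG, Qe, Polynomial.map_add, map_scaleRoots _ _ _ (by rw [hQ.leadingCoeff]; simp), h,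
    Polynomial.map_mul, map_C, map_X]
  simp

theorem QG_root {Q : ℂ[X][X]} (hQ : Q.Monic) (hd : 0 < Q.natDegree) {q : ℂ[X]} (hq : q ≠ 0)
    {L : Type} [Field L] [Algebra ℂ L] {z : L} (hz : Transcendental ℂ z) {ε : PowerSeries L}
    (hε : PowerSeries.constantCoeff ε = 0) :
    ∃ T, (QG Q q (PowerSeries.C z) ε).eval T = 0 := by
  obtain ⟨h1, h2⟩ := QG_monic hQ hd q (PowerSeries.C z) ε
  by_cases h : Q.natDegree = 1
  · refine ⟨-(QG Q q (PowerSeries.C z) ε).coeff 0, ?_⟩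
    have h3 := h1.eq_X_add_C (natDegree_eq_of_degree_eq_some (by rw [h2, h]))
    conv_lhs => rw [h3]
    simp
  · have hn : (Q.map (aeval (PowerSeries.C z) : ℂ[X] →ₐ[ℂ] PowerSeries L).toRingHom).natDegree =
        Q.natDegree := hQ.natDegree_map _
    obtain ⟨T, hT, -⟩ := HenselianRing.is_henselian (I := Ideal.span {PowerSeries.X}) _ h1 0 (by
      rw [Ideal.mem_span_singleton, PowerSeries.X_dvd_iff, ← coeff_zero_eq_eval_zero, QG]
      rw [coeff_add, coeff_scaleRoots, hn]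
      simp [hε, hd.ne']) (by
      refine IsUnit.map _ ?_
      rw [PowerSeries.isUnit_iff_constantCoeff, ← coeff_zero_eq_eval_zero, coeff_derivative, QG,
        if_neg h]
      have h4 : PowerSeries.constantCoeff (aeval (PowerSeries.C z) q) = aeval z q := by
        have : (PowerSeries.C z : PowerSeries L) = algebraMap L _ z := rfl
        rw [this, aeval_algebraMap_apply]
        simp
      have h5 : Q.natDegree - 1 ≠ 0 := by omega
      rw [coeff_add, coeff_scaleRoots, hn]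
      simpa [hε, h4, h5] using fun h6 => hz ⟨q, hq, h6⟩)
    exact ⟨T, hT⟩

theorem hom {σ : Type} (G : MvPolynomial (Option σ) ℂ) :
    ∃ (r : ℕ) (H : MvPolynomial (Option (Option σ)) ℂ), ∀ (B : Type) [CommRing B] [Algebra ℂ B]
      (a u z : B) (y : σ → B), a * u = 1 →
      MvPolynomial.aeval (fun o : Option (Option σ) => o.elim a fun o' => o'.elim z y) H =
        a ^ r * MvPolynomial.aeval (fun o : Option σ => o.elim z fun s => u * y s) G := by
  induction G using MvPolynomial.induction_on with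
  | C c => exact ⟨0, MvPolynomial.C c, fun B _ _ a u z y _ => by simp⟩
  | add p q hp hq =>
    obtain ⟨r, H, h⟩ := hp
    obtain ⟨r', H', h'⟩ := hq
    refine ⟨r + r', H * MvPolynomial.X none ^ r' + H' * MvPolynomial.X none ^ r,
      fun B _ _ a u z y e => ?_⟩
    simp only [map_add, map_mul, map_pow, MvPolynomial.aeval_X, h B a u z y e, h' B a u z y e,
      Option.elim_none]
    ring
  | mul_X p o hp =>
    obtain ⟨r, H, h⟩ := hp
    cases o with
    | none =>
      refine ⟨r, H * MvPolynomial.X (some none), fun B _ _ a u z y e => ?_⟩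
      simp only [map_mul, MvPolynomial.aeval_X, h B a u z y e, Option.elim_none, Option.elim_some]
      ring
    | some s =>
      refine ⟨r + 1, H * MvPolynomial.X (some (some s)), fun B _ _ a u z y e => ?_⟩
      simp only [map_mul, MvPolynomial.aeval_X, h B a u z y e, Option.elim_some]
      linear_combination (-a ^ r * y s *
        MvPolynomial.aeval (fun o : Option σ => o.elim z fun s => u * y s) p) * e

variable {σ : Type} {d : ℕ}

/-- the homogenised equation on the section with coefficients `p` -/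
def HT (H : MvPolynomial (Option (Option σ)) ℂ) (z : B) (p : Option (Fin d × σ) → B) : B[X] :=
  MvPolynomial.aeval (fun o : Option (Option σ) => o.elim (C (p none)) fun o' => o'.elim (C z)
    fun s => ∑ l : Fin d, C (p (some (l, s))) * X ^ (l : ℕ)) H

theorem HT_map (H : MvPolynomial (Option (Option σ)) ℂ) (ψ : B →ₐ[ℂ] B') (z : B)
    (p : Option (Fin d × σ) → B) : (HT H z p).map ψ.toRingHom = HT H (ψ z) fun o => ψ (p o) := by
  have := MvPolynomial.comp_aeval_apply (φ := Polynomial.mapAlgHom ψ) (p := H)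
    (f := fun o : Option (Option σ) => o.elim (C (p none)) fun o' => o'.elim (C z)
      fun s => ∑ l : Fin d, C (p (some (l, s))) * X ^ (l : ℕ))
  refine this.trans ?_
  rw [HT]
  congr 2
  funext o
  rcases o with _ | _ | s <;> simp

theorem HT_eval (H : MvPolynomial (Option (Option σ)) ℂ) (z T : B) (p : Option (Fin d × σ) → B) :
    (HT H z p).eval T = MvPolynomial.aeval (fun o : Option (Option σ) => o.elim (p none)
      fun o' => o'.elim z fun s => ∑ l : Fin d, p (some (l, s)) * T ^ (l : ℕ)) H := by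
  have := MvPolynomial.comp_aeval_apply (φ := (aeval T : B[X] →ₐ[B] B).restrictScalars ℂ) (p := H)
    (f := fun o : Option (Option σ) => o.elim (C (p none)) fun o' => o'.elim (C z)
      fun s => ∑ l : Fin d, C (p (some (l, s))) * X ^ (l : ℕ))
  rw [← coe_aeval_eq_eval]
  refine this.trans ?_
  congr 2
  funext o
  rcases o with _ | _ | s <;> simp

theorem dvd_of_roots {f g : ℂ[X]} (hf : f.Separable) (h : ∀ v, f.eval v = 0 → g.eval v = 0) :
    f ∣ g := by
  by_cases hg : g = 0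
  · simp [hg]
  refine (IsAlgClosed.splits f).dvd_of_roots_le_roots hf.ne_zero ?_
  rw [Multiset.le_iff_subset (nodup_roots hf)]
  intro v hv
  exact (mem_roots hg).2 (h v ((mem_roots hf.ne_zero).1 hv))

theorem ps_trans {ε : PowerSeries ℂ} (h0 : ε ≠ 0) (h1 : PowerSeries.constantCoeff ε = 0)
    {D : ℂ[X]} (hD : D ≠ 0) : aeval ε D ≠ 0 := by
  intro h
  have h2 : IsIntegral ℂ ε := IsAlgebraic.isIntegral ⟨D, hD, h⟩
  obtain ⟨c, rfl⟩ := minpoly.mem_range_of_degree_eq_one ℂ ε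
    (IsAlgClosed.degree_eq_one_of_irreducible ℂ (minpoly.irreducible h2))
  have h3 : c = 0 := by simpa using h1
  exact h0 (by simp [h3])

theorem ps_eval {L : Type} [Field L] [Algebra ℂ L] {z : L} (hz : Transcendental ℂ z)
    {P : (PowerSeries ℂ)[X]}
    (h : P.eval₂ (PowerSeries.map (algebraMap ℂ L)) (PowerSeries.C z) = 0) : P = 0 := by
  ext j n
  have h1 : aeval z (∑ i ∈ P.support, monomial i (PowerSeries.coeff n (P.coeff i))) = 0 := by
    have := congrArg (PowerSeries.coeff n) h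
    rw [eval₂_eq_sum, Polynomial.sum_def, map_sum] at this
    simp only [← map_pow, PowerSeries.coeff_mul_C, PowerSeries.coeff_map, map_zero] at this
    simpa [aeval_monomial] using this
  have h2 := congrArg (fun p : ℂ[X] => p.coeff j) (by_contra fun h2 => hz ⟨_, h2, h1⟩ :
    ∑ i ∈ P.support, monomial i (PowerSeries.coeff n (P.coeff i)) = 0)
  simp only [finsetSum_coeff, coeff_monomial, Finset.sum_ite_eq', mem_support_iff,
    coeff_zero] at h2
  by_cases h3 : P.coeff j = 0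
  · simp [h3]
  · simpa [h3] using h2

/-- the universal remainder -/
def RU (Q : ℂ[X][X]) (q : ℂ[X]) (H : MvPolynomial (Option (Option σ)) ℂ) :
    (MvPolynomial (Option (Fin d × σ) ⊕ Bool) ℂ)[X] :=
  HT H (MvPolynomial.X (Sum.inr false)) (fun o => MvPolynomial.X (Sum.inl o)) %ₘ
    QG Q q (MvPolynomial.X (Sum.inr false)) (MvPolynomial.X (Sum.inr true))

theorem RU_iff {Q : ℂ[X][X]} (hQ : Q.Monic) (hd : Q.natDegree = d) (hd0 : 0 < d) (q : ℂ[X])
    (H : MvPolynomial (Option (Option σ)) ℂ) [Nontrivial B'] (φ : B →ₐ[ℂ] B')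
    (p : Option (Fin d × σ) → B) (ε z : B) :
    (∀ j : Fin d, φ (MvPolynomial.aeval (Sum.elim p fun b => cond b ε z)
      ((RU (d := d) Q q H).coeff j)) = 0) ↔ QG Q q (φ z) (φ ε) ∣ HT H (φ z) fun o => φ (p o) := by
  subst hd
  have h1 := QG_map hQ q (φ.comp (MvPolynomial.aeval (Sum.elim p fun b => cond b ε z)))
    (MvPolynomial.X (Sum.inr false)) (MvPolynomial.X (Sum.inr true))
  have h2 := HT_map H (φ.comp (MvPolynomial.aeval (Sum.elim p fun b => cond b ε z)))
    (MvPolynomial.X (Sum.inr false)) (fun o => MvPolynomial.X (Sum.inl o))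
  simp only [AlgHom.comp_apply, MvPolynomial.aeval_X, Sum.elim_inr, Sum.elim_inl, cond_true,
    cond_false] at h1 h2
  rw [← modByMonic_eq_zero_iff_dvd (QG_monic hQ hd0 q _ _).1, ← h1, ← h2,
    ← map_modByMonic _ (QG_monic hQ hd0 q _ _).1]
  refine ⟨fun h => Polynomial.ext fun j => ?_, fun h j => ?_⟩
  · rw [coeff_map, coeff_zero]
    by_cases hj : j < Q.natDegree
    · exact h ⟨j, hj⟩
    · rw [coeff_eq_zero_of_degree_lt, map_zero]
      refine (degree_modByMonic_lt _ (QG_monic hQ hd0 q _ _).1).trans_le ?_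
      rw [(QG_monic hQ hd0 q _ _).2]
      exact_mod_cast not_lt.1 hj
  · have := congrArg (fun f : B'[X] => f.coeff j) h
    simp only [coeff_map, coeff_zero] at this
    exact this

theorem core2 {Q : ℂ[X][X]} {q : ℂ[X]} (hQ : Q.Monic) (hd : Q.natDegree = d) (hd0 : 0 < d)
    (hq : q ≠ 0) {J : Type} (Hm : J → MvPolynomial (Option (Option σ)) ℂ) {Q' : ℂ[X][X]}
    {D' : ℂ[X]} (hD' : D' ≠ 0) (P : Option (Fin d × σ) → ℂ[X][X][X]) {ε θ : PowerSeries ℂ}
    (hε0 : ε ≠ 0) (hε1 : PowerSeries.constantCoeff ε = 0) (hεθ : aevalAeval ε θ Q' = 0)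
    {L : Type} [Field L] [Algebra ℂ L] {z : L} (hz : Transcendental ℂ z)
    {Λ : Type} [Field Λ] [Algebra ℂ Λ] (κ : PowerSeries L →ₐ[ℂ] Λ) (hκ : Function.Injective κ)
    (hΛ : ∀ ε θ : Λ, aevalAeval ε θ Q' = 0 → aeval ε D' ≠ 0 →
      (P none).map (aevalAeval ε θ : ℂ[X][X] →ₐ[ℂ] Λ).toRingHom ≠ 0 ∧
      ∀ i : J × Fin d, MvPolynomial.aeval (Sum.elim
        (fun s => C (aeval ε D')⁻¹ * (P s).map (aevalAeval ε θ : ℂ[X][X] →ₐ[ℂ] Λ).toRingHom)
        fun b => cond b (C ε) X : Option (Fin d × σ) ⊕ Bool → Λ[X])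
          ((RU (d := d) Q q (Hm i.1)).coeff i.2) = 0) :
    ∃ (p : Option (Fin d × σ) → Λ) (T : Λ), p none ≠ 0 ∧
      ∀ k, (HT (Hm k) (κ (PowerSeries.C z)) p).eval T = 0 := by
  let μ : PowerSeries ℂ →ₐ[ℂ] PowerSeries L := PowerSeries.mapAlgHom (Algebra.ofId ℂ L)
  have hμ : Function.Injective μ := PowerSeries.map_injective _ (algebraMap ℂ L).injective
  let ι := κ.comp μ
  have hι : Function.Injective ι := hκ.comp hμ
  have he : (aevalAeval (ι ε) (ι θ) : ℂ[X][X] →ₐ[ℂ] Λ) = ι.comp (aevalAeval ε θ) := by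
    refine Polynomial.algHom_ext' (Polynomial.algHom_ext ?_) ?_ <;> simp
  have hD : aeval (ι ε) D' ≠ 0 := by
    rw [aeval_algHom_apply]
    exact (map_ne_zero_iff ι hι).2 (ps_trans hε0 hε1 hD')
  obtain ⟨h1, h2⟩ := hΛ (ι ε) (ι θ) (by rw [he, AlgHom.comp_apply, hεθ, map_zero]) hD
  obtain ⟨T, hT⟩ := QG_root hQ (hd ▸ hd0) hq hz (ε := μ ε) (by
    rw [← PowerSeries.coeff_zero_eq_constantCoeff_apply] at hε1 ⊢
    exact (PowerSeries.coeff_map (algebraMap ℂ L) 0 ε).trans (by rw [hε1, map_zero]))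
  have hT' : (QG Q q (κ (PowerSeries.C z)) (ι ε)).eval (κ T) = 0 := by
    rw [show ι ε = κ (μ ε) from rfl, ← QG_map hQ, eval_map]
    have := hom_eval₂ (QG Q q (PowerSeries.C z) (μ ε)) (RingHom.id _) κ.toRingHom T
    rw [eval₂_id, hT, map_zero, RingHom.comp_id] at this
    exact this.symm
  refine ⟨fun s => (C (aeval (ι ε) D')⁻¹ * (P s).map
    (aevalAeval (ι ε) (ι θ) : ℂ[X][X] →ₐ[ℂ] Λ).toRingHom).eval (κ (PowerSeries.C z)), κ T, ?_,
    fun k => ?_⟩
  · simp only [eval_mul, eval_C]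
    refine mul_ne_zero (inv_ne_zero hD) fun h3 => h1 ?_
    have h4 : (P none).map (aevalAeval (ι ε) (ι θ) : ℂ[X][X] →ₐ[ℂ] Λ).toRingHom =
        ((P none).map (aevalAeval ε θ : ℂ[X][X] →ₐ[ℂ] PowerSeries ℂ).toRingHom).map ι.toRingHom := by
      rw [Polynomial.map_map, he]; rfl
    rw [h4] at h3 ⊢
    rw [ps_eval hz (P := (P none).map _) (hκ ?_), Polynomial.map_zero]
    rw [map_zero, ← h3, eval_map]
    exact hom_eval₂ _ _ κ.toRingHom _
  · have h3 := (RU_iff hQ hd hd0 q (Hm k)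
      ((aeval (κ (PowerSeries.C z)) : Λ[X] →ₐ[Λ] Λ).restrictScalars ℂ) _ _ _).1 fun j => by
        rw [h2 (k, j), map_zero]
    simp only [AlgHom.restrictScalars_apply, coe_aeval_eq_eval, eval_X, eval_C] at h3
    exact eval_eq_zero_of_dvd_of_eval_eq_zero h3 hT'

theorem core (hSPP : S_SPP) {J : Type} [Finite σ] [Finite J] (G : J → MvPolynomial (Option σ) ℂ)
    {Q : ℂ[X][X]} {q : ℂ[X]} (hQ : Q.Monic) (hd : Q.natDegree = d) (hd0 : 0 < d) (hq : q ≠ 0)
    {𝓔 : Set ℂ} (h𝓔 : ¬ 𝓔.Countable)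
    (H : ∀ ε ∈ 𝓔, ∃ p : Option (Fin d × σ) → ℂ[X], p none ≠ 0 ∧ ∀ᶠ z in cofinite,
      (QG Q q z ε).Separable ∧ ∀ v, (QG Q q z ε).eval v = 0 → ∀ k,
        MvPolynomial.aeval (fun o : Option σ => o.elim z fun s => ((p none).eval z)⁻¹ *
          ∑ l : Fin d, (p (some (l, s))).eval z * v ^ (l : ℕ)) (G k) = 0)
    {L : Type} [Field L] [Algebra ℂ L] {z : L} (hz : Transcendental ℂ z)
    {Λ : Type} [Field Λ] [Algebra ℂ Λ] (κ : PowerSeries L →ₐ[ℂ] Λ) (hκ : Function.Injective κ) :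
    ∃ ξ : σ → Λ, ∀ k, MvPolynomial.aeval
      (fun o : Option σ => o.elim (κ (PowerSeries.C z)) ξ) (G k) = 0 := by
  choose r Hm hH using fun k => hom (G k)
  choose! p hp0 hp using H
  obtain ⟨ε₀, -, Q', d', D', P, θ₀, hc, hd', -, -, -, hΛ⟩ := hSPP.1 (Option (Fin d × σ))
    (J × Fin d) (fun kj => (RU (d := d) Q q (Hm kj.1)).coeff kj.2) 𝓔 p none h𝓔 fun ε hε => by
      refine ⟨hp0 ε hε, fun kj => ?_⟩
      apply Polynomial.eq_zero_of_infinite_isRoot
      refine Set.infinite_of_finite_compl (Filter.mem_cofinite.1 ?_)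
      have h1 : ∀ᶠ z₀ in cofinite, (p ε none).eval z₀ ≠ 0 :=
        Filter.eventually_cofinite.2 (by simpa using (p ε none).finite_setOfPred_isRoot (hp0 ε hε))
      filter_upwards [hp ε hε, h1] with z₀ h2 h3
      refine (RU_iff hQ hd hd0 q (Hm kj.1) (aeval z₀ : ℂ[X] →ₐ[ℂ] ℂ) (p ε) (C ε) X).2 ?_ kj.2
      simp only [coe_aeval_eq_eval, eval_X, eval_C]
      refine dvd_of_roots h2.1 fun v hv => ?_
      rw [HT_eval, hH kj.1 ℂ _ _ _ _ (mul_inv_cancel₀ h3), h2.2 v hv, mul_zero]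
  obtain ⟨ε, θ, hε0, hε1, hεθ⟩ := hSPP.2 Q' hc.monic (hc.deg ▸ hd')
  obtain ⟨p', T, h1, h2⟩ := core2 hQ hd hd0 hq Hm hc.ne P hε0 hε1 hεθ hz κ hκ (hΛ Λ)
  refine ⟨fun s => (p' none)⁻¹ * ∑ l : Fin d, p' (some (l, s)) * T ^ (l : ℕ), fun k => ?_⟩
  have h3 := h2 k
  rw [HT_eval, hH k _ _ _ _ _ (mul_inv_cancel₀ h1)] at h3
  exact (mul_eq_zero.1 h3).resolve_left (pow_ne_zero _ h1)

end GHSP

end

end Pool.Agent.P.MP_daea48_ag
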