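import Pool.Agent.P.MP_daea48_ag.StA

/-! Package GHS1: rational sections of the Weil restriction along the degenerating cover. -/

open Set Filter Topology Metric Polynomial Asymptotics

namespace Pool.Agent.P.MP_daea48_ag

noncomputable section

namespace GHS1

theorem monic_add {R : Type} [CommRing R] [Nontrivial R] {P : R[X]} {d : ℕ} (hP : P.Monic)
    (hd : P.natDegree = d) (h1 : 1 < d) (c : R) :
    (P + C c * X).Monic ∧ (P + C c * X).natDegree = d := by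
  have h : (C c * X : R[X]).natDegree < P.natDegree :=
    (natDegree_C_mul_le _ _).trans_lt (by rw [natDegree_X, hd]; exact h1)
  exact ⟨hP.add_of_left (degree_lt_degree h), by rw [natDegree_add_eq_left_of_natDegree_lt h, hd]⟩

theorem res_ne {d : ℕ} (h1 : 1 < d) {c : ℂ} (hc : c ≠ 0) :
    resultant (X ^ d + C c * X : ℂ[X]) (derivative (X ^ d + C c * X)) d (d - 1) ≠ 0 := by
  obtain ⟨-, hd⟩ := monic_add (monic_X_pow d) (natDegree_X_pow d) h1 c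
  have h := resultant_ne_zero (X ^ d + C c * X : ℂ[X]) (derivative (X ^ d + C c * X)) (by
    obtain ⟨e, rfl⟩ : ∃ e, d = e + 2 := ⟨d - 2, by omega⟩
    have h2 : ((e : ℂ) + 1) * c * c ≠ 0 :=
      mul_ne_zero (mul_ne_zero (Nat.cast_add_one_ne_zero e) hc) hc
    have h3 := congrArg (C : ℂ → ℂ[X]) (inv_mul_cancel₀ h2)
    simp only [map_mul, map_add, map_one, map_natCast] at h3
    refine ⟨-(C (((e : ℂ) + 1) * c * c)⁻¹ * (((e : ℂ[X]) + 2) * ((e : ℂ[X]) + 2) * X ^ e)),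
      C (((e : ℂ) + 1) * c * c)⁻¹ * (((e : ℂ[X]) + 1) * C c + ((e : ℂ[X]) + 2) * X ^ (e + 1)), ?_⟩
    simp only [derivative_add, derivative_mul, derivative_C, derivative_X, derivative_X_pow,
      map_natCast, zero_mul, zero_add, mul_one, Nat.add_succ_sub_one]
    push_cast
    linear_combination h3)
  rwa [natDegree_derivative, hd] at h

theorem cov_ev {Q : ℂ[X][X]} {d : ℕ} (hQ : Q.Monic) (hd : Q.natDegree = d) (h0 : 0 < d)
    {q : ℂ[X]} (hq : q ≠ 0) : ∀ᶠ ε in cofinite, ∃ δ, Cov (Qe Q q ε) d δ := by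
  by_cases h1 : d = 1
  · refine Eventually.of_forall fun ε => ⟨1, ?_⟩
    have e : Qe Q q ε = scaleRoots Q (C ε) := by simp [Qe, hd, h1]
    have hm : (scaleRoots Q (C ε)).Monic := (monic_scaleRoots_iff _).2 hQ
    have hn : (scaleRoots Q (C ε)).natDegree = 1 := by rw [natDegree_scaleRoots, hd, h1]
    rw [e]
    refine ⟨hm, hn.trans h1.symm, one_ne_zero, 0, 1, ?_⟩
    rw [hm.eq_X_add_C hn]
    simp
  have h1' : 1 < d := by omega
  obtain ⟨z₀, hz₀⟩ : ∃ z₀, q.eval z₀ ≠ 0 := by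
    by_contra hc
    push Not at hc
    exact hq (Polynomial.funext (by simpa using hc))
  let P : ℂ[X][X] := scaleRoots ((Q.map (evalRingHom z₀)).map C) X + C (C (q.eval z₀)) * X
  have hm0 : (Q.map (evalRingHom z₀)).Monic := hQ.map _
  have hP : ∀ ε : ℂ, P.map (evalRingHom ε) =
      scaleRoots (Q.map (evalRingHom z₀)) ε + C (q.eval z₀) * X := by
    intro ε
    have e : ((Q.map (evalRingHom z₀)).map C).map (evalRingHom ε) = Q.map (evalRingHom z₀) := by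
      rw [Polynomial.map_map]
      convert Polynomial.map_id
      ext; simp
    simp only [P, Polynomial.map_add, Polynomial.map_mul, map_C, map_X]
    rw [map_scaleRoots _ _ _ (by rw [(hm0.map C).leadingCoeff]; simp), e]
    simp
  have hR : ∀ ε : ℂ, (resultant P (derivative P) d (d - 1)).eval ε =
      resultant (P.map (evalRingHom ε)) (derivative (P.map (evalRingHom ε))) d (d - 1) := by
    intro ε
    rw [derivative_map, resultant_map_map]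
    rfl
  have hR0 : resultant P (derivative P) d (d - 1) ≠ 0 := by
    intro h
    have := hR 0
    rw [h, hP, scaleRoots_zero, hm0.leadingCoeff, one_smul, hQ.natDegree_map, hd] at this
    exact res_ne h1' hz₀ (this.symm.trans eval_zero)
  filter_upwards [(finite_setOfPred_isRoot hR0).compl_mem_cofinite] with ε hε
  have e : Qe Q q ε = scaleRoots Q (C ε) + C q * X := by simp [Qe, hd, h1]
  obtain ⟨hm, hn⟩ := monic_add ((monic_scaleRoots_iff (C ε)).2 hQ)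
    ((natDegree_scaleRoots _ _).trans hd) h1' q
  rw [← e] at hm hn
  obtain ⟨a, b, -, -, hab⟩ := exists_mul_add_mul_eq_C_resultant (m := d) (n := d - 1) (Qe Q q ε)
    (derivative (Qe Q q ε)) hn.le (natDegree_derivative_le _ |>.trans (by rw [hn])) (Or.inl h0.ne')
  refine ⟨_, hm, hn, fun h => hε ?_, a, b, by rw [← hab]; ring⟩
  have e2 : (Qe Q q ε).map (evalRingHom z₀) = P.map (evalRingHom ε) := by
    rw [hP, e, Polynomial.map_add, map_scaleRoots _ _ _ (by rw [hQ.leadingCoeff]; simp)]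
    simp
  change (resultant P (derivative P) d (d - 1)).eval ε = 0
  rw [hR, ← e2, derivative_map, resultant_map_map, h, map_zero]

theorem Cov.mul {Q : ℂ[X][X]} {d : ℕ} {δ δ' : ℂ[X]} (h : Cov Q d δ) (h' : δ' ≠ 0) :
    Cov Q d (δ * δ') := by
  obtain ⟨a, b, e⟩ := h.bez
  exact ⟨h.monic, h.deg, mul_ne_zero h.ne h', C δ' * a, C δ' * b, by
    rw [map_mul, ← e]; ring⟩

theorem qe_eval (Q : ℂ[X][X]) (q : ℂ[X]) {ε : ℂ} (hε : ε ≠ 0) (z T : ℂ)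
    (h : (Qe Q q ε).evalEval z T = 0) :
    ‖Q.evalEval z (T / ε)‖ ≤ ‖q.eval z‖ * ‖T‖ / ‖ε‖ ^ Q.natDegree := by
  have e := scaleRoots_eval₂_mul (p := Q) (evalRingHom z) (T / ε) (C ε)
  rw [eval₂_evalRingHom, coe_evalRingHom, eval_C, mul_div_cancel₀ _ hε] at e
  rw [Qe, evalEval_add, e, evalEval_mul, evalEval_C, evalEval_X] at h
  have hp : 0 < ‖ε‖ ^ Q.natDegree := pow_pos (norm_pos_iff.2 hε) _
  rw [le_div_iff₀ hp, ← norm_pow, ← norm_mul, mul_comm, eq_neg_of_add_eq_zero_left h, norm_neg,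
    norm_mul]
  gcongr
  split_ifs <;> simp

theorem ev_ne {δ : ℂ[X]} (hδ : δ ≠ 0) {κ : ℂ → ℂ} (hκ : Function.Injective κ) (p : ℂ) :
    ∀ᶠ z in 𝓝[≠] p, δ.eval (κ z) ≠ 0 :=
  nhdsNE_le_cofinite p ((finite_setOfPred_isRoot hδ).preimage hκ.injOn).compl_mem_cofinite

theorem an_eval (D : ℂ[X]) (z : ℂ) : AnalyticAt ℂ (fun x => D.eval x) z :=
  D.differentiable.analyticAt z

variable {E : Type} [NormedAddCommGroup E] [NormedSpace ℂ E] [FiniteDimensional ℂ E]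

theorem germ_const (hW : S_ConnW) {Q : ℂ[X][X]} {d : ℕ} {δ : ℂ[X]} (hc : Cov Q d δ)
    {U : Set (ℂ × E)} {κ : ℂ → ℂ} {σ : ℂ → E} {p : ℂ} (hκ : MeromorphicAt κ p)
    (hi : Function.Injective κ) (h : Germ U κ σ p) :
    ∃ S, Germ (WU Q d δ (BU (CV Q δ) Prod.fst U)) κ S p := by
  obtain ⟨C, j, -, hb⟩ := mero_bound h.1
  refine ⟨_, (hW.2 E Q d δ _ hc).2.2.2 κ p (fun z _ => σ z) C j hκ ?_⟩
  filter_upwards [ev_ne hc.ne hi p, h.1.eventually_analyticAt, h.2, hb] with z h1 h2 h3 h4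
  exact ⟨h1, fun _ _ _ => h2, fun v hv => ⟨⟨⟨hv, inv_mul_cancel₀ h1⟩, h3⟩, h4⟩⟩

theorem near_root (hI : S_Itp) {Q : ℂ[X][X]} {d : ℕ} {D : ℂ[X]} (hQ : Cov Q d D) (h0 : 0 < d)
    (b : ℂ[X]) {ε : ℂ} {δ : ℂ[X]} (hε : ε ≠ 0) (hc : Cov (Qe Q ((D * b) ^ (2 * d)) ε) d δ) {p : ℂ}
    (hp : (D * b).eval p = 0) {r : ℂ → ℝ} (hr : ContinuousAt r p) (hr0 : 0 < r p) :
    ∀ᶠ z in 𝓝[≠] p, ∀ T, (Qe Q ((D * b) ^ (2 * d)) ε).evalEval z T = 0 →
      ∃ W, Q.evalEval z W = 0 ∧ ‖T / ε - W‖ < r z * ‖D.eval z‖ := by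
  obtain ⟨-, -, h3, -⟩ := hI Q d D hQ
  obtain ⟨⟨C, A, hC, h1⟩, -⟩ := hI _ d δ hc
  set K : ℝ := max 1 (C * (1 + (‖p‖ + 1)) ^ A / ‖ε‖ ^ d) with hK
  have hK1 : 1 ≤ K := le_max_left _ _
  have e1 : ∀ᶠ z in 𝓝 p, K * ‖(D * b).eval z‖ * ‖b.eval z‖ < r z := by
    refine ContinuousAt.eventually_lt ?_ hr (by rw [hp]; simpa using hr0)
    exact (continuousAt_const.mul (D * b).continuous.continuousAt.norm).mul
      b.continuous.continuousAt.norm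
  have e2 : ∀ᶠ z in 𝓝 p, ‖z‖ < ‖p‖ + 1 :=
    continuous_norm.continuousAt.eventually (gt_mem_nhds (lt_add_one _))
  filter_upwards [ev_ne hQ.ne Function.injective_id p, e1.filter_mono nhdsWithin_le_nhds,
    e2.filter_mono nhdsWithin_le_nhds] with z hz k1 k2 T hT
  obtain ⟨W, hW, k3⟩ := h3 z (T / ε) h0
  refine ⟨W, hW, ?_⟩
  have k4 := qe_eval Q _ hε z T hT
  rw [hQ.deg, eval_pow, norm_pow, mul_div_assoc] at k4
  have k5 : ‖T‖ / ‖ε‖ ^ d ≤ K ^ d := by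
    refine le_trans ?_ ((le_max_right _ _).trans (le_self_pow₀ hK1 h0.ne'))
    refine div_le_div_of_nonneg_right ((h1 z T hT).trans ?_) (by positivity)
    gcongr
  have k6 : ‖T / ε - W‖ ^ d ≤ (K * ‖(D * b).eval z‖ ^ 2) ^ d := by
    refine k3.trans (k4.trans ?_)
    rw [mul_pow, ← pow_mul, mul_comm (K ^ d)]
    gcongr
  have k7 := (pow_le_pow_iff_left₀ (norm_nonneg _) (by positivity) h0.ne').1 k6
  have k8 : 0 < ‖D.eval z‖ := norm_pos_iff.2 hz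
  refine k7.trans_lt ?_
  calc K * ‖(D * b).eval z‖ ^ 2 = K * ‖(D * b).eval z‖ * ‖b.eval z‖ * ‖D.eval z‖ := by
        rw [eval_mul, norm_mul]; ring
    _ < r z * ‖D.eval z‖ := by gcongr

theorem germ_bad (hI : S_Itp) (hW : S_ConnW) {U : Set (ℂ × E)} {Q : ℂ[X][X]} {d : ℕ} {D : ℂ[X]}
    {Cf : ℂ × ℂ → E} (hQ : Cov Q d D) (h0 : 0 < d) (hCf : Tame Cf)
    (hU : ∀ z W, D.eval z ≠ 0 → Q.evalEval z W = 0 → (z, (D.eval z)⁻¹ • Cf (z, W)) ∈ U)
    (b : ℂ[X]) {ε : ℂ} {δ : ℂ[X]} (hε : ε ≠ 0) (hc : Cov (Qe Q ((D * b) ^ (2 * d)) ε) d δ) {p : ℂ}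
    (hp : (D * b).eval p = 0) :
    ∃ S, Germ (WU (Qe Q ((D * b) ^ (2 * d)) ε) d δ
      (BU (CV (Qe Q ((D * b) ^ (2 * d)) ε) δ) Prod.fst U)) id S p := by
  classical
  obtain ⟨⟨C, A, hC, h1⟩, ⟨c, A', hc0, h2⟩, -, -, -, h6, -⟩ := hI Q d D hQ
  obtain ⟨C₂, A₂, hC₂, hb⟩ := hCf.bound
  obtain ⟨C₃, j, hC₃, hD⟩ := mero_bound (an_eval D p).meromorphicAt.inv
  let r : ℂ → ℝ := fun z => rad c A' z / 2
  have hr : Continuous r := (continuous_rad c A').div_const 2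
  let Wf : ℂ → ℂ → ℂ := fun z w =>
    if h : ∃ W, Q.evalEval z W = 0 ∧ ‖w - W‖ < r z * ‖D.eval z‖ then h.choose else 0
  have uniq : ∀ z w W, Q.evalEval z W = 0 → ‖w - W‖ < r z * ‖D.eval z‖ → Wf z w = W := by
    intro z w W k1 k2
    have h : ∃ W, Q.evalEval z W = 0 ∧ ‖w - W‖ < r z * ‖D.eval z‖ := ⟨W, k1, k2⟩
    obtain ⟨k3, k4⟩ := h.choose_spec
    simp only [Wf, dif_pos h]
    by_contra hne
    have k5 := h2 z _ _ k3 k1 hne
    have k6 : ‖h.choose - W‖ ≤ ‖w - W‖ + ‖w - h.choose‖ := by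
      rw [show h.choose - W = (w - W) - (w - h.choose) by ring]
      exact norm_sub_le _ _
    simp only [r] at k2 k4
    linarith
  have e2 : ∀ᶠ z in 𝓝 p, ‖z‖ < ‖p‖ + 1 :=
    continuous_norm.continuousAt.eventually (gt_mem_nhds (lt_add_one _))
  refine ⟨_, (hW.2 E _ d δ _ hc).2.2.2 id p
    (fun z T => (D.eval z)⁻¹ • Cf (z, Wf z (T / ε)))
    (C₃ * (C₂ * (1 + (‖p‖ + 1 + C * (1 + (‖p‖ + 1)) ^ A)) ^ A₂)) j
    analyticAt_id.meromorphicAt ?_⟩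
  filter_upwards [ev_ne hc.ne Function.injective_id p, ev_ne hQ.ne Function.injective_id p,
    near_root hI hQ h0 b hε hc hp hr.continuousAt (half_pos (rad_pos hc0 _ _)),
    e2.filter_mono nhdsWithin_le_nhds, hD] with z k1 k2 k3 k4 k5
  refine ⟨k1, fun v hv hv0 => ?_, fun T hT => ?_⟩
  · obtain ⟨W, hW0, hW1⟩ := k3 (v z) hv0.self_of_nhds
    obtain ⟨u, co, hu, -, hu'⟩ := h6 id z analyticAt_id k2
    obtain ⟨i, rfl⟩ := (hu'.self_of_nhds.2.1 W).1 hW0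
    have e3 : ∀ᶠ x in 𝓝 z, ‖v x / ε - u i x‖ < r x * ‖D.eval x‖ :=
      ContinuousAt.eventually_lt
        ((hv.continuousAt.div_const ε).sub (hu i).continuousAt).norm
        (hr.continuousAt.mul D.continuous.continuousAt.norm) hW1
    have e4 : AnalyticAt ℂ (fun x => (D.eval x)⁻¹ • Cf (x, u i x)) z :=
      ((an_eval D z).inv k2).smul (diff_an_comp hCf.1 (analyticAt_id.prod (hu i)))
    refine e4.congr ?_
    filter_upwards [e3, hu'] with x m1 m2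
    rw [uniq x _ _ ((m2.2.1 _).2 ⟨i, rfl⟩) m1]
  · obtain ⟨W, hW0, hW1⟩ := k3 T hT
    simp only [uniq z _ _ hW0 hW1]
    refine ⟨⟨⟨hT, inv_mul_cancel₀ k1⟩, hU z W k2 hW0⟩, ?_⟩
    have m1 : ‖W‖ ≤ C * (1 + (‖p‖ + 1)) ^ A := (h1 z W hW0).trans (by gcongr)
    have m2 : ‖(z, W)‖ ≤ ‖p‖ + 1 + C * (1 + (‖p‖ + 1)) ^ A := by
      rw [Prod.norm_mk]
      refine max_le ?_ ?_ <;> linarith [norm_nonneg W, norm_nonneg p]
    rw [norm_smul, mul_div_right_comm]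
    refine mul_le_mul k5 ((hb _).trans ?_) (norm_nonneg _) ((norm_nonneg _).trans k5)
    gcongr

end GHS1

open GHS1 in
theorem GHS1_of (hG : S_Glob) (hA : S_APS) (hT : S_IFT) (hB : S_BrW) (hW : S_ConnW)
    (hF : S_FillW) (hI : S_Itp) : S_GHS1 := by
  classical
  intro E _ _ _ E' _ _ _ U pr Bad Q d D Cf hO hinf hQ h0 hCf hU
  let b : ℂ[X] := ∏ p ∈ Bad, (X - C p)
  have hb : ∀ z, b.eval z ≠ 0 ↔ z ∉ Bad := fun z => by
    simp only [b, eval_prod, eval_sub, eval_X, eval_C, Finset.prod_ne_zero_iff, sub_ne_zero]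
    exact ⟨fun h hz => h z hz rfl, fun h p hp e => h (e ▸ hp)⟩
  have hb0 : b ≠ 0 := (monic_prod_X_sub_C _ _).ne_zero
  have hDb : D * b ≠ 0 := mul_ne_zero hQ.ne hb0
  refine ⟨(D * b) ^ (2 * d), pow_ne_zero _ hDb, ?_⟩
  filter_upwards [cov_ev hQ.monic hQ.deg h0 (pow_ne_zero (2 * d) hDb),
    (finite_singleton (0 : ℂ)).compl_mem_cofinite] with ε ⟨δ₀, hc₀⟩ hε
  have hc := Cov.mul hc₀ hDb
  refine ⟨δ₀ * (D * b), ?_⟩
  generalize hδ : δ₀ * (D * b) = δ at hc ⊢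
  have hfa : HasFAPS (CV (Qe Q ((D * b) ^ (2 * d)) ε) δ)
      (BU (CV (Qe Q ((D * b) ^ (2 * d)) ε) δ) Prod.fst U) pr :=
    hA.2.2.2.1 E E' _ _ _ U pr Tame.fst' hO.aps
  have hcv := hA.2.1 _ d δ hc
  have hwu := hA.2.2.2.2 E E' _ d δ _ pr hc hfa
  have hon : OnCV (Qe Q ((D * b) ^ (2 * d)) ε) δ
      (BU (CV (Qe Q ((D * b) ^ (2 * d)) ε) δ) Prod.fst U) := fun u hu => hu.1
  obtain ⟨T⟩ := hT.1 E E' U pr hO.aps
  obtain ⟨T₁⟩ := hT.1 _ _ _ _ hcv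
  obtain ⟨T₂⟩ := hT.1 _ _ _ _ (hA.1 E E' _ _ _ pr hcv hfa)
  obtain ⟨T₃⟩ := hT.1 _ _ _ _ hwu
  have hroot : ∀ z, z ∈ δ.roots.toFinset ↔ δ.eval z = 0 := fun z => by
    rw [Multiset.mem_toFinset, mem_roots hc.ne, IsRoot.def]
  have hO' : Oka (WU (Qe Q ((D * b) ^ (2 * d)) ε) d δ
      (BU (CV (Qe Q ((D * b) ^ (2 * d)) ε) δ) Prod.fst U)) (prW d pr) δ.roots.toFinset := by
    refine ⟨hwu, hB.2 E E' _ d δ _ pr hc hon
      (hB.1 E E' _ _ _ _ U pr _ differentiable_fst hO.br).1,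
      (hW.2 E _ d δ _ hc).1 (hW.1 E _ _ _ U hO.conn).1,
      hF.2 E E' _ d δ _ pr T₂ T₃ hc hon (hF.1 E _ _ T₁ _ U differentiable_fst hO.fill),
      fun z hz => ?_⟩
    rw [hroot] at hz
    refine (hW.2 E _ d δ _ hc).2.1 z hz fun v hv => ?_
    obtain ⟨ξ, hξ⟩ := hO.ne z ((hb z).1 fun h => hz (by rw [← hδ]; simp [h]))
    exact ⟨ξ, ⟨hv, inv_mul_cancel₀ hz⟩, hξ⟩
  obtain ⟨σ, hσ⟩ := hinf
  obtain ⟨S, hS⟩ := hG.1 _ _ _ _ _ hO' (fun p _ => by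
      by_cases hp : (D * b).eval p = 0
      · exact germ_bad hI hW hQ h0 hCf hU b hε hc hp
      · obtain ⟨ξ, hξ⟩ := hO.ne p ((hb p).1 fun h => hp (by simp [h]))
        obtain ⟨k1, -, k2⟩ := T.exists_local (κ := id) (β := p) analyticAt_id hξ
        exact germ_const hW hc analyticAt_id.meromorphicAt Function.injective_id
          ⟨k1.meromorphicAt, (k2.mono fun _ h => h.1).filter_mono nhdsWithin_le_nhds⟩)
    (germ_const hW hc analyticAt_id.meromorphicAt.inv inv_injective hσ)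
  exact ⟨S, hc, hS⟩

end

end Pool.Agent.P.MP_daea48_ag
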