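import Pool.Agent.P.MP_daea48_ag.Germ1

/-! Package Germ: approximate solutions give germs of sections. -/

open Set Filter Topology Metric Polynomial Asymptotics
open scoped ComplexConjugate

namespace Pool.Agent.P.MP_daea48_ag

namespace GermP

noncomputable section

open Classical

theorem zt_inj {l : ℝ} (hl : 0 < l) : InjOn (zt l) {z | z ≠ 1} := by
  intro z hz w hw h
  have h1 : (1 : ℂ) - z ≠ 0 := sub_ne_zero.2 (Ne.symm hz)
  have h2 : (1 : ℂ) - w ≠ 0 := sub_ne_zero.2 (Ne.symm hw)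
  have h3 : Complex.I * l ≠ 0 := mul_ne_zero Complex.I_ne_zero (by exact_mod_cast hl.ne')
  unfold zt at h
  rw [div_eq_div_iff h1 h2, mul_assoc, mul_assoc (Complex.I * l)] at h
  have h4 := mul_left_cancel₀ h3 h
  linear_combination (1 / 2 : ℂ) * h4

theorem ev_ne_one (p : ℂ) : ∀ᶠ z in 𝓝[≠] p, z ≠ 1 :=
  nhdsNE_le_cofinite p (finite_singleton (1 : ℂ)).compl_mem_cofinite

theorem ev_zt {l : ℝ} (hl : 0 < l) (p : ℂ) {P : ℂ → Prop} (h : ∀ᶠ t in cofinite, P t) :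
    ∀ᶠ z in 𝓝[≠] p, P (zt l z) := by
  apply nhdsNE_le_cofinite p
  have h1 : {t | ¬ P t}.Finite := h
  have h2 : ({z | z ≠ 1} ∩ zt l ⁻¹' {t | ¬ P t}).Finite :=
    Finite.of_finite_image (h1.subset (by rintro _ ⟨z, hz, rfl⟩; exact hz.2))
      ((zt_inj hl).mono inter_subset_left)
  refine (h2.union (finite_singleton 1)).subset fun z hz => ?_
  by_cases h3 : z = 1
  · exact Or.inr h3
  · exact Or.inl ⟨h3, hz⟩

theorem ev_poly {q : ℂ[X]} (hq : q ≠ 0) : ∀ᶠ t in cofinite, q.eval t ≠ 0 :=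
  (q.roots.toFinset.finite_toSet).subset fun t ht => by
    simpa [hq] using ht

theorem cx1_ne {q : ℝ[X]} (hq : q ≠ 0) : cx1 q ≠ 0 :=
  (Polynomial.map_ne_zero_iff (algebraMap ℝ ℂ).injective).2 hq

theorem an_zt (l : ℝ) {z : ℂ} (hz : z ≠ 1) : AnalyticAt ℂ (zt l) z := by
  unfold zt
  exact AnalyticAt.div (f := fun z => Complex.I * l * (1 + z)) (g := fun z => 1 - z)
    (by fun_prop) (by fun_prop) (sub_ne_zero.2 (Ne.symm hz))

theorem mero_zt (l : ℝ) (p : ℂ) : MeromorphicAt (zt l) p := by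
  unfold zt
  exact MeromorphicAt.div (f := fun z => Complex.I * l * (1 + z)) (g := fun z => 1 - z)
    (AnalyticAt.meromorphicAt (by fun_prop)) (AnalyticAt.meromorphicAt (by fun_prop))

theorem zt_rfl1 (l : ℝ) {z : ℂ} (hz : z ≠ 0) : zt l (rfl1 z) = conj (zt l z) := by
  have h1 : conj z ≠ 0 := by simpa using hz
  unfold zt rfl1
  simp only [map_div₀, map_mul, map_add, map_sub, map_one, Complex.conj_I, Complex.conj_ofReal]
  by_cases h : conj z = 1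
  · simp [h]
  · have h2 : 1 - conj z ≠ 0 := sub_ne_zero.2 (Ne.symm h)
    have h3 : 1 - (conj z)⁻¹ ≠ 0 := by
      intro h4
      apply h
      have := sub_eq_zero.1 h4
      rw [eq_comm, inv_eq_one] at this
      exact this
    rw [div_eq_div_iff h3 h2]
    field_simp
    ring

theorem tendsto_rfl1 {p : ℂ} (hp : ‖p‖ = 1) : Tendsto rfl1 (𝓝[≠] p) (𝓝[≠] p) := by
  have h0 : p ≠ 0 := by rintro rfl; simp at hp
  have h1 := rfl1_of_norm_one hp
  refine tendsto_nhdsWithin_iff.2 ⟨?_, ?_⟩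
  · have := (continuousAt_rfl1 h0).tendsto
    rw [h1] at this
    exact this.mono_left nhdsWithin_le_nhds
  · filter_upwards [self_mem_nhdsWithin] with z hz h2
    apply hz
    have h3 : rfl1 z = p := h2
    rw [mem_singleton_iff, ← rfl1_rfl1 z, h3, h1]

theorem cx1_conj (q : ℝ[X]) : (cx1 q).map (starRingEnd ℂ) = cx1 q := by
  unfold cx1
  rw [Polynomial.map_map]
  congr 1
  ext x; simp

theorem cx_conj (Q : ℝ[X][X]) : (cx Q).map (mapRingHom (starRingEnd ℂ)) = cx Q := by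
  ext i : 1
  simp only [cx, coeff_map, coe_mapRingHom]
  exact cx1_conj _

theorem cx1_eval_conj (q : ℝ[X]) (t : ℂ) : (cx1 q).eval (conj t) = conj ((cx1 q).eval t) := by
  conv_lhs => rw [← cx1_conj q]
  rw [eval_map, eval₂_hom]

theorem cx_eval_conj (Q : ℝ[X][X]) (t v : ℂ) :
    (cx Q).evalEval (conj t) (conj v) = conj ((cx Q).evalEval t v) := by
  conv_lhs => rw [← cx_conj Q]
  exact map_mapRingHom_evalEval (starRingEnd ℂ) (cx Q) t v

theorem an_evalEval (Q : ℂ[X][X]) {κ v : ℂ → ℂ} {z : ℂ} (hκ : AnalyticAt ℂ κ z)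
    (hv : AnalyticAt ℂ v z) : AnalyticAt ℂ (fun z => Q.evalEval (κ z) (v z)) z :=
  diff_an_comp (f := fun u : ℂ × ℂ => Q.evalEval u.1 u.2) (γ := fun z => (κ z, v z))
    (Tame.evalEval Tame.fst' Tame.snd' Q).1 (hκ.prod hv)

theorem an_poly (q : ℂ[X]) {κ : ℂ → ℂ} {z : ℂ} (hκ : AnalyticAt ℂ κ z) :
    AnalyticAt ℂ (fun z => q.eval (κ z)) z :=
  diff_an_comp (f := fun u : ℂ => q.eval u) q.differentiable hκ

/-- Absorbing the constant of a meromorphic bound. -/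
theorem mero_bound' {f : ℂ → ℂ} {p : ℂ} (h : MeromorphicAt f p) :
    ∃ j : ℕ, ∀ᶠ z in 𝓝[≠] p, ‖f z‖ ≤ ‖z - p‖⁻¹ ^ j := by
  obtain ⟨C, j, -, hC⟩ := mero_bound h
  refine ⟨j + 1, ?_⟩
  filter_upwards [hC, ev_small p one_pos, ev_const p C] with z h1 h2 h3
  refine h1.trans (le_trans (le_of_eq ?_) (const_absorb h2.1 h3))
  rw [div_eq_mul_inv, inv_pow]

/-- Uniform bound for the point of the curve. -/
theorem base_bound {Q : ℂ[X][X]} {δ : ℂ[X]} {κ : ℂ → ℂ} {p : ℂ} (hκ : MeromorphicAt κ p)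
    (hQ : ∃ (C : ℝ) (A : ℕ), 1 ≤ C ∧ ∀ z v, Q.evalEval z v = 0 → ‖v‖ ≤ C * (1 + ‖z‖) ^ A) :
    ∃ b : ℕ, ∀ᶠ z in 𝓝[≠] p, 1 + ‖κ z‖ + ‖(δ.eval (κ z))⁻¹‖ ≤ ‖z - p‖⁻¹ ^ b ∧
      ∀ v, Q.evalEval (κ z) v = 0 →
        ‖((κ z, (v, (δ.eval (κ z))⁻¹)) : ℂ × ℂ × ℂ)‖ ≤ ‖z - p‖⁻¹ ^ b := by
  obtain ⟨C, A, hC, hQ⟩ := hQ
  obtain ⟨j₁, h1⟩ := mero_bound' hκ
  have hy : MeromorphicAt (fun z => (δ.eval (κ z))⁻¹) p :=
    ((Tame.id'.polyEval δ).mero hκ).inv
  obtain ⟨j₂, h2⟩ := mero_bound' hy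
  refine ⟨(j₁ + j₂ + 1) * (A + 1) + 1, ?_⟩
  filter_upwards [h1, h2, ev_small p (by norm_num : (0 : ℝ) < 1 / 4), ev_const p C] with
    z a1 a2 a3 a4
  set r := ‖z - p‖ with hr
  have hr0 : 0 < r := a3.1
  have hs : 4 ≤ r⁻¹ := by
    rw [← one_div, le_div_iff₀ hr0]; linarith [a3.2]
  have hs1 : 1 ≤ r⁻¹ := by linarith
  have b1 : 1 + ‖κ z‖ + ‖(δ.eval (κ z))⁻¹‖ ≤ r⁻¹ ^ (j₁ + j₂ + 1) := by
    have c1 : r⁻¹ ^ j₁ ≤ r⁻¹ ^ (j₁ + j₂) := pow_le_pow_right₀ hs1 (by omega)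
    have c2 : r⁻¹ ^ j₂ ≤ r⁻¹ ^ (j₁ + j₂) := pow_le_pow_right₀ hs1 (by omega)
    have c3 : 1 ≤ r⁻¹ ^ (j₁ + j₂) := one_le_pow₀ hs1
    rw [pow_succ]
    nlinarith
  have b2 : r⁻¹ ^ (j₁ + j₂ + 1) ≤ r⁻¹ ^ ((j₁ + j₂ + 1) * (A + 1) + 1) :=
    pow_le_pow_right₀ hs1 (by nlinarith)
  refine ⟨b1.trans b2, fun v hv => ?_⟩
  have n1 := norm_nonneg (κ z)
  have n2 := norm_nonneg (δ.eval (κ z))⁻¹
  simp only [Prod.norm_def, max_le_iff]
  refine ⟨by linarith, ?_, by linarith⟩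
  calc ‖v‖ ≤ C * (1 + ‖κ z‖) ^ A := hQ _ _ hv
    _ ≤ C * (r⁻¹ ^ (j₁ + j₂ + 1)) ^ A := by gcongr; linarith
    _ = C * r⁻¹ ^ ((j₁ + j₂ + 1) * A) := by rw [← pow_mul]
    _ ≤ r⁻¹ ^ ((j₁ + j₂ + 1) * A + 1) := const_absorb hr0 a4
    _ ≤ _ := pow_le_pow_right₀ hs1 (by nlinarith)

/-- Finitely many bounds with one constant. -/
theorem unif_bound {J : Type} [Fintype J] {p : ℂ} {R : ℂ → ℂ → Prop} {g : ℂ → ℂ → J → ℂ}
    {w : ℂ → ℝ} (hw : ∀ z, 0 ≤ w z)
    (h : ∀ i, ∃ C : ℝ, ∀ᶠ z in 𝓝[≠] p, ∀ v, R z v → ‖g z v i‖ ≤ C * w z) :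
    ∃ C : ℝ, 0 ≤ C ∧ ∀ᶠ z in 𝓝[≠] p, ∀ v, R z v → ‖g z v‖ ≤ C * w z := by
  choose C hC using h
  have h0 : 0 ≤ ∑ i, |C i| := Finset.sum_nonneg fun _ _ => abs_nonneg _
  refine ⟨∑ i, |C i|, h0, ?_⟩
  filter_upwards [eventually_all.2 hC] with z hz v hv
  refine (pi_norm_le_iff_of_nonneg (mul_nonneg h0 (hw z))).2 fun i => (hz i v hv).trans ?_
  refine mul_le_mul_of_nonneg_right ((le_abs_self _).trans ?_) (hw z)
  exact Finset.single_le_sum (f := fun i => |C i|) (fun _ _ => abs_nonneg _) (Finset.mem_univ i)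

end

end GermP

open GermP in
theorem Germ_of (hSpr : S_Spr) (hIFT : S_IFT) (hAPS : S_APS) (hW : S_ConnW) (hItp : S_Itp) :
    S_Germ := by
  intro K _ _ F V δ l f hl hcov hf p a k
  obtain ⟨-, -, -, s4, -, -, -, s8, -, -, -, -, -, -, s15, s16, -, -⟩ := hSpr K F
  obtain ⟨i1, -, -, -, i5, -, -⟩ := hItp _ _ _ hcov
  obtain ⟨-, i5b, i5c, ⟨CI, AI, hCI, i5d⟩, i5e⟩ := i5 (V.σ → ℂ)
  obtain ⟨T⟩ := hIFT.1 _ _ _ _ (hAPS.1 _ _ _ _ _ _ (hAPS.2.1 _ _ _ hcov)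
    ⟨_, inferInstance, inferInstance, inferInstance, f, hf.1⟩)
  have hN := hIFT.2 _ _ _ _ _ _ _ _ hf.1 hf.2.1
  have hκ := mero_zt l p
  obtain ⟨b₀, hb₀⟩ := base_bound (δ := cx1 δ) hκ i1
  have hδ : ∀ᶠ z in 𝓝[≠] p, (cx1 δ).eval (zt l z) ≠ 0 := ev_zt hl p (ev_poly hcov.ne)
  obtain ⟨N, m, b, hm, hcore⟩ := core T hN (κ := zt l) (p := p) (b₀ := b₀)
    ((hδ.and hb₀).mono fun z hz => ⟨hz.1, hz.2.2⟩) a (b₀ * AI + k)
  refine ⟨N, fun ξ hξ hF => ?_⟩
  set x : ℂ → ℂ → V.σ → ℂ := fun z v s => F.sp (ξ s) (zt l z, v) with hx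
  obtain ⟨C₁, hC₁, h1⟩ := unif_bound (p := p) (R := fun z v => (cx F.Q).evalEval (zt l z) v = 0)
    (g := x) (w := fun z => ‖z - p‖⁻¹ ^ a) (fun z => by positivity) fun s => by
      obtain ⟨C, hC⟩ := hξ s
      refine ⟨C, hC.mono fun z hz v hv => ?_⟩
      have := hz v hv
      rwa [zpow_neg, zpow_natCast, ← inv_pow] at this
  obtain ⟨C₂, hC₂, h2⟩ := unif_bound (p := p) (R := fun z v => (cx F.Q).evalEval (zt l z) v = 0)
    (g := fun z v => f (pt (cx1 δ) (zt l z) v (x z v))) (w := fun z => ‖z - p‖ ^ N)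
    (fun z => by positivity) fun i => by
      obtain ⟨C, hC⟩ := hF i
      refine ⟨C, ?_⟩
      filter_upwards [hC, hδ, ev_zt hl p ((s8 _).2 (s15 _ ξ (V.F i)))] with z hz h3 h4 v hv
      have := hz v hv
      rw [zpow_natCast, h4 v hv] at this
      rw [hf.2.2 (pt (cx1 δ) (zt l z) v (x z v)) ⟨hv, inv_mul_cancel₀ h3⟩ i]
      exact this
  obtain ⟨val, hval⟩ := hcore x (C₁ + C₂) (by
    filter_upwards [h1, h2] with z h3 h4 v hv
    have n1 : (0 : ℝ) ≤ ‖z - p‖⁻¹ ^ a := by positivity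
    have n2 : (0 : ℝ) ≤ ‖z - p‖ ^ N := by positivity
    exact ⟨(h3 v hv).trans (by nlinarith), (h4 v hv).trans (by nlinarith)⟩)
  have hden : ∀ᶠ z in 𝓝[≠] p, ∀ s, (cx1 (F.den (ξ s))).eval (zt l z) ≠ 0 :=
    eventually_all.2 fun s => ev_zt hl p (ev_poly (cx1_ne (F.rep (ξ s)).choose_spec.1))
  have hG := (hW.2 (V.σ → ℂ) (cx F.Q) F.d (cx1 δ) (F.US V δ) hcov).2.2.2 (zt l) p val 1 b hκ (by
    filter_upwards [hδ, eventually_nhdsNE_eventually_nhds_iff.2 hval, hden, ev_ne_one p] with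
      z h3 h4 h5 h6
    refine ⟨h3, fun v hv hr => ?_, fun v hv => ?_⟩
    · refine an_branch T (an_zt l h6) h3 (ε := fun z => ‖z - p‖ ^ m) (by fun_prop) h4 hv hr ?_
      refine analyticAt_pi_iff.2 fun s => ?_
      exact (an_evalEval _ (an_zt l h6) hv).div (an_poly _ (an_zt l h6)) (h5 s)
    · exact ⟨(h4.self_of_nhds v hv).mem, (h4.self_of_nhds v hv).bd⟩)
  refine ⟨fun z => (zt l z, (itp (cx F.Q) F.d (zt l z) (val z), ((cx1 δ).eval (zt l z))⁻¹)),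
    ⟨?_, ?_⟩, ?_, fun hp => ?_⟩
  · have a1 := (Tame.clm (ContinuousLinearMap.inl ℂ ℂ ((Fin F.d → V.σ → ℂ) × ℂ))).mero hκ
    have a2 := (Tame.clm (ContinuousLinearMap.inr ℂ ℂ ((Fin F.d → V.σ → ℂ) × ℂ))).mero hG.1
    exact (a1.add a2).congr (Eventually.of_forall fun z => by simp)
  · filter_upwards [hG.2, ev_ne_one p] with z h3 h4
    refine ⟨?_, h3⟩
    have h5 : (1 : ℂ) - z ≠ 0 := sub_ne_zero.2 (Ne.symm h4)
    change zt l z * (1 - z) = Complex.I * l * (1 + z)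
    unfold zt
    field_simp
  · refine IsBigO.of_bound CI ?_
    filter_upwards [hval, hδ, hb₀, ev_small p one_pos] with z h3 h4 h5 h6
    have e1 : (fun (i : Fin F.d) s => F.cf i (ξ s) (zt l z)) = itp (cx F.Q) F.d (zt l z) (x z) := by
      rw [← i5b (zt l z) (fun (i : Fin F.d) s => F.cf i (ξ s) (zt l z)) h4]
      congr 1
      funext v s
      simp only [ev, hx, Finset.sum_apply, Pi.smul_apply, smul_eq_mul]
      exact ((s4 (ξ s) (zt l z, v)).2).symm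
    have e2 : ‖((zt l z, (itp (cx F.Q) F.d (zt l z) (val z), ((cx1 δ).eval (zt l z))⁻¹)) :
        ℂ × ((Fin F.d → V.σ → ℂ) × ℂ)) - F.X0 l δ ξ z‖ =
        ‖itp (cx F.Q) F.d (zt l z) fun v => val z v - x z v‖ := by
      rw [← itp_sub, ← e1]
      simp [FF.X0, Prod.norm_def]
    rw [e2, norm_pow]
    refine (i5d _ _ _ (‖z - p‖ ^ m) (by positivity) (inv_mul_cancel₀ h4)
      fun v hv => (h3 v hv).near).trans ?_
    rw [mul_assoc]
    refine mul_le_mul_of_nonneg_left ?_ (by linarith)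
    have hr0 := h6.1
    calc (1 + ‖zt l z‖ + ‖((cx1 δ).eval (zt l z))⁻¹‖) ^ AI * ‖z - p‖ ^ m
        ≤ (‖z - p‖⁻¹ ^ b₀) ^ AI * ‖z - p‖ ^ (b₀ * AI + k) := by
          gcongr ?_ ^ AI * ?_
          · exact h5.1
          · exact pow_le_pow_of_le_one hr0.le h6.2 hm
      _ = ‖z - p‖ ^ k := by
          rw [← pow_mul, pow_add, inv_pow]; field_simp
  · have h0 : p ≠ 0 := by rintro rfl; simp at hp
    have hz0 : ∀ᶠ z in 𝓝[≠] p, z ≠ 0 := nhdsWithin_le_nhds (isOpen_ne.mem_nhds h0)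
    filter_upwards [hval, (tendsto_rfl1 hp).eventually hval, hz0] with z h3 h4 h5
    rw [zt_rfl1 l h5] at h4 ⊢
    have e1 : ∀ v, (cx F.Q).evalEval (conj (zt l z)) v = 0 →
        val (rfl1 z) v = stL (V.σ → ℂ) (val z (conj v)) := by
      intro v hv
      have hv' : (cx F.Q).evalEval (zt l z) (conj v) = 0 := by
        have := cx_eval_conj F.Q (conj (zt l z)) v
        rw [hv, map_zero, Complex.conj_conj] at this
        exact this
      have g1 := h3 _ hv'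
      have g2 := h4 _ hv
      have ex : x (rfl1 z) v = star (x z (conj v)) := by
        funext s
        have := (s4 (ξ s) (zt l z, conj v)).1
        simp only [Complex.conj_conj] at this
        simp only [hx, zt_rfl1 l h5, Pi.star_apply]
        exact this
      have hst : pt (cx1 δ) (conj (zt l z)) v (star (val z (conj v))) =
          star (pt (cx1 δ) (zt l z) (conj v) (val z (conj v))) := by
        refine Prod.ext rfl (Prod.ext (Prod.ext ?_ ?_) rfl)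
        · simp [pt]
        · simp [pt, cx1_eval_conj]
      have hmem : pt (cx1 δ) (conj (zt l z)) v (star (val z (conj v))) ∈ F.US V δ := by
        refine ⟨⟨hv, ?_⟩, fun i => ?_⟩
        · exact g2.mem.1.2
        · have a1 := s16 _ (V.F i) (zt l z, conj v) (val z (conj v))
          have a2 : MvPolynomial.eval (val z (conj v)) (F.spP (V.F i) (zt l z, conj v)) = 0 :=
            g1.mem.2 i
          rw [a2, map_zero] at a1
          simp only [Complex.conj_conj] at a1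
          exact a1
      have hρ : T.rho (pt (cx1 δ) (conj (zt l z)) v (star (val z (conj v)))) =
          T.rho (pt (cx1 δ) (zt l z) (conj v) (val z (conj v))) := by
        rw [hst]; unfold TC.rho rad; rw [norm_star]
      have key := inj2 T g2.mem hmem (by
        refine Prod.ext rfl ?_
        change prV V (val (rfl1 z) v) = prV V (star (val z (conj v)))
        rw [g2.pr_eq, ex]
        funext i
        have := congrFun g1.pr_eq i
        simp only [prV, ContinuousLinearMap.pi_apply, ContinuousLinearMap.proj_apply,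
          Pi.star_apply] at this ⊢
        rw [this]) (by
        rw [norm_pt_sub, hρ]
        have a1 := norm_sub_le_norm_sub_add_norm_sub (val (rfl1 z) v) (x (rfl1 z) v)
          (star (val z (conj v)))
        have a2 : ‖x (rfl1 z) v - star (val z (conj v))‖ = ‖val z (conj v) - x z (conj v)‖ := by
          rw [ex, ← star_sub, norm_star, norm_sub_rev]
        linarith [g1.near, g1.small, g2.near, g2.small])
      exact congrArg (fun u => u.2.2) key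
    rw [i5c _ _ _ e1, i5e (stL _) _ _ (cx_conj F.Q), cx1_eval_conj]
    refine Prod.ext rfl (Prod.ext rfl ?_)
    simp

end Pool.Agent.P.MP_daea48_ag
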