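import Pool.Agent.P.MP_daea48_ag.StK

/-! Package Germ, part 1: the abstract Newton step along the branches of a cover. -/

open Set Filter Topology Metric Polynomial Asymptotics
open scoped ComplexConjugate

namespace Pool.Agent.P.MP_daea48_ag

namespace GermP

noncomputable section

open Classical

theorem rad_lower {X : Type} [NormedAddCommGroup X] {c r : ℝ} {A b : ℕ} {w : X} (hr : 0 < r)
    (hc : r ≤ c) (hw : 1 + ‖w‖ ≤ r⁻¹ ^ b) : r ^ (b * A + 1) ≤ rad c A w := by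
  unfold rad
  have h1 := opn_pos w
  rw [le_div_iff₀ (pow_pos h1 A)]
  calc r ^ (b * A + 1) * (1 + ‖w‖) ^ A ≤ r ^ (b * A + 1) * (r⁻¹ ^ b) ^ A := by gcongr
    _ = r := by rw [← pow_mul, pow_succ, inv_pow]; field_simp
    _ ≤ c := hc

theorem ev_small (p : ℂ) {ε : ℝ} (hε : 0 < ε) : ∀ᶠ z in 𝓝[≠] p, 0 < ‖z - p‖ ∧ ‖z - p‖ ≤ ε := by
  have h1 : ∀ᶠ z in 𝓝[≠] p, ‖z - p‖ ≤ ε := by
    apply nhdsWithin_le_nhds
    filter_upwards [closedBall_mem_nhds p hε] with z hz using by simpa [dist_eq_norm] using hz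
  filter_upwards [h1, self_mem_nhdsWithin] with z h2 hzp
  exact ⟨norm_pos_iff.2 (sub_ne_zero.2 hzp), h2⟩

theorem ev_const (p : ℂ) (C : ℝ) : ∀ᶠ z in 𝓝[≠] p, C * ‖z - p‖ ≤ 1 := by
  have h0 : 0 < |C| + 1 := by positivity
  filter_upwards [ev_small p (inv_pos.2 h0)] with z hz
  have h1 : C * ‖z - p‖ ≤ (|C| + 1) * ‖z - p‖ := by
    have := le_abs_self C
    have := hz.1
    nlinarith
  calc C * ‖z - p‖ ≤ (|C| + 1) * ‖z - p‖ := h1
    _ ≤ (|C| + 1) * (|C| + 1)⁻¹ := by gcongr; exact hz.2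
    _ = 1 := mul_inv_cancel₀ h0.ne'

theorem const_absorb {C r : ℝ} {a : ℕ} (hr : 0 < r) (hC : C * r ≤ 1) :
    C * r⁻¹ ^ a ≤ r⁻¹ ^ (a + 1) := by
  have h1 : C ≤ r⁻¹ := by
    rw [← one_div, le_div_iff₀ hr]; exact hC
  rw [pow_succ, mul_comm (r⁻¹ ^ a)]
  gcongr

section
variable {E E' E'' : Type} [NormedAddCommGroup E] [NormedSpace ℂ E] [NormedAddCommGroup E']
  [NormedSpace ℂ E'] [NormedAddCommGroup E''] [NormedSpace ℂ E'']

/-- The point of the total space over the root `v`. -/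
def pt (δ : ℂ[X]) (t v : ℂ) (ξ : E) : ℂ × ((ℂ × ℂ) × E) := (t, ((v, (δ.eval t)⁻¹), ξ))

omit [NormedSpace ℂ E] in
theorem norm_pt_sub (δ : ℂ[X]) (t v : ℂ) (ξ ξ' : E) : ‖pt δ t v ξ - pt δ t v ξ'‖ = ‖ξ - ξ'‖ := by
  simp [pt, Prod.norm_def]

omit [NormedSpace ℂ E] in
theorem norm_pt_le (δ : ℂ[X]) (t v : ℂ) (ξ : E) {M : ℝ}
    (h1 : ‖((t, (v, (δ.eval t)⁻¹)) : ℂ × ℂ × ℂ)‖ ≤ M) (h2 : ‖ξ‖ ≤ M) : ‖pt δ t v ξ‖ ≤ M := by
  simp only [pt, Prod.norm_def, max_le_iff] at h1 ⊢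
  exact ⟨h1.1, h1.2, h2⟩

omit [NormedSpace ℂ E] in
theorem norm_le_pt (δ : ℂ[X]) (t v : ℂ) (ξ : E) : ‖ξ‖ ≤ ‖pt δ t v ξ‖ := by
  simp [pt, Prod.norm_def]

/-- The corrected point. -/
structure Good {U : Set (ℂ × ((ℂ × ℂ) × E))} {pr : E →L[ℂ] E'} (T : TC U (prB (ℂ × ℂ) pr))
    (δ : ℂ[X]) (t v : ℂ) (x y : E) (ε M : ℝ) : Prop where
  mem : pt δ t v y ∈ U
  pr_eq : pr y = pr x
  near : ‖y - x‖ ≤ ε
  small : ε ≤ T.rho (pt δ t v y) / 4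
  bd : ‖y‖ ≤ M

theorem core {Q : ℂ[X][X]} {δ : ℂ[X]} {U : Set (ℂ × ((ℂ × ℂ) × E))} {pr : E →L[ℂ] E'}
    {f : ℂ × ((ℂ × ℂ) × E) → E''} (T : TC U (prB (ℂ × ℂ) pr)) (hN : Newt (CV Q δ) U pr f)
    {κ : ℂ → ℂ} {p : ℂ} {b₀ : ℕ}
    (hb : ∀ᶠ z in 𝓝[≠] p, δ.eval (κ z) ≠ 0 ∧ ∀ v, Q.evalEval (κ z) v = 0 →
      ‖((κ z, (v, (δ.eval (κ z))⁻¹)) : ℂ × ℂ × ℂ)‖ ≤ ‖z - p‖⁻¹ ^ b₀) (a m₀ : ℕ) :
    ∃ N m b : ℕ, m₀ ≤ m ∧ ∀ (x : ℂ → ℂ → E) (C : ℝ),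
      (∀ᶠ z in 𝓝[≠] p, ∀ v, Q.evalEval (κ z) v = 0 → ‖x z v‖ ≤ C * ‖z - p‖⁻¹ ^ a ∧
        ‖f (pt δ (κ z) v (x z v))‖ ≤ C * ‖z - p‖ ^ N) →
      ∃ val : ℂ → ℂ → E, ∀ᶠ z in 𝓝[≠] p, ∀ v, Q.evalEval (κ z) v = 0 →
        Good T δ (κ z) v (x z v) (val z v) (‖z - p‖ ^ m) (1 / ‖z - p‖ ^ b) := by
  obtain ⟨c, A, hc, hN⟩ := hN
  set b : ℕ := b₀ + a + 2 with hbdef
  set m : ℕ := m₀ + (b * T.A + 2) + (b * A + 1) with hm
  refine ⟨m + (b * A + 1) + 1, m, b, by omega, fun x C hx => ?_⟩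
  have key : ∀ᶠ z in 𝓝[≠] p, ∀ v, Q.evalEval (κ z) v = 0 → ∃ y,
      Good T δ (κ z) v (x z v) y (‖z - p‖ ^ m) (1 / ‖z - p‖ ^ b) := by
    filter_upwards [hb, hx, ev_small p (by norm_num : (0 : ℝ) < 1 / 4), ev_small p hc,
      ev_small p T.c_pos, ev_const p C] with z h1 h2 h3 h4 h5 h6 v hv
    set r := ‖z - p‖ with hr
    have hr0 : 0 < r := h3.1
    have hr1 : r ≤ 1 := by linarith [h3.2]
    have hs : 4 ≤ r⁻¹ := by
      rw [← one_div, le_div_iff₀ hr0]; linarith [h3.2]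
    have hs1 : 1 ≤ r⁻¹ := by linarith
    obtain ⟨hx1, hx2⟩ := h2 v hv
    have hu : ‖pt δ (κ z) v (x z v)‖ ≤ r⁻¹ ^ (b₀ + a + 1) := by
      refine norm_pt_le δ _ _ _ ((h1.2 v hv).trans (pow_le_pow_right₀ hs1 (by omega))) ?_
      exact hx1.trans ((const_absorb hr0 h6).trans (pow_le_pow_right₀ hs1 (by omega)))
    have hu2 : 2 + ‖pt δ (κ z) v (x z v)‖ ≤ r⁻¹ ^ b := by
      have h7 : 1 ≤ r⁻¹ ^ (b₀ + a + 1) := one_le_pow₀ hs1
      have : r⁻¹ ^ b = r⁻¹ ^ (b₀ + a + 1) * r⁻¹ := by rw [hbdef, ← pow_succ]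
      rw [this]
      nlinarith
    have hf : ‖f (pt δ (κ z) v (x z v))‖ ≤ r ^ (m + (b * A + 1)) := by
      refine hx2.trans ?_
      rw [pow_succ, ← mul_assoc, mul_right_comm]
      exact mul_le_of_le_one_left (by positivity) h6
    have hrad : r ^ (b * A + 1) ≤ rad c A (pt δ (κ z) v (x z v)) :=
      rad_lower hr0 h4.2 (by linarith)
    have hcv : ((pt δ (κ z) v (x z v)).1, (pt δ (κ z) v (x z v)).2.1) ∈ CV Q δ :=
      ⟨hv, inv_mul_cancel₀ h1.1⟩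
    obtain ⟨y, hy1, hy2, hy3⟩ := hN (pt δ (κ z) v (x z v)) hcv (by
      refine hf.trans ?_
      calc r ^ (m + (b * A + 1)) ≤ r ^ ((b * A + 1) * 2) :=
            pow_le_pow_of_le_one hr0.le hr1 (by omega)
        _ = (r ^ (b * A + 1)) ^ 2 := pow_mul _ _ _
        _ ≤ _ := by gcongr)
    have hy4 : ‖y - x z v‖ ≤ r ^ m := by
      have h8 : r ^ (b * A + 1) * ‖y - x z v‖ ≤ r ^ (b * A + 1) * r ^ m := by
        calc r ^ (b * A + 1) * ‖y - x z v‖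
            ≤ rad c A (pt δ (κ z) v (x z v)) * ‖y - x z v‖ := by gcongr
          _ ≤ _ := hy3
          _ ≤ _ := hf
          _ = _ := by rw [← pow_add, add_comm]
      exact le_of_mul_le_mul_left h8 (by positivity)
    have hw : 1 + ‖pt δ (κ z) v y‖ ≤ r⁻¹ ^ b := by
      have h9 := norm_sub_norm_le (pt δ (κ z) v y) (pt δ (κ z) v (x z v))
      rw [norm_pt_sub] at h9
      have : r ^ m ≤ 1 := pow_le_one₀ hr0.le hr1
      linarith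
    refine ⟨y, hy1, hy2, hy4, ?_, ?_⟩
    · have h10 : r ^ (b * T.A + 1) ≤ T.rho (pt δ (κ z) v y) := rad_lower hr0 h5.2 hw
      calc r ^ m ≤ r ^ (b * T.A + 1 + 1) := pow_le_pow_of_le_one hr0.le hr1 (by omega)
        _ = r ^ (b * T.A + 1) * r := pow_succ _ _
        _ ≤ T.rho (pt δ (κ z) v y) * (1 / 4) := by
            gcongr
            · exact (T.rho_pos _).le
            · exact h3.2
        _ = _ := by ring
    · have := norm_le_pt δ (κ z) v y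
      rw [one_div, ← inv_pow]
      linarith
  refine ⟨fun z v => if h : ∃ y, Good T δ (κ z) v (x z v) y (‖z - p‖ ^ m) (1 / ‖z - p‖ ^ b)
    then h.choose else 0, key.mono fun z hz v hv => ?_⟩
  have h := hz v hv
  simp only [dif_pos h]
  exact h.choose_spec

/-- Two close points with the same coordinates agree. -/
theorem inj2 {U : Set (ℂ × E)} {pr : E →L[ℂ] E'} (T : TC U pr) {u₁ u₂ : ℂ × E} (h1 : u₁ ∈ U)
    (h2 : u₂ ∈ U) (e : pj pr u₁ = pj pr u₂) (hd : ‖u₁ - u₂‖ ≤ T.rho u₁ / 4 + T.rho u₂ / 4) :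
    u₁ = u₂ := by
  have p1 := T.rho_pos u₁
  have p2 := T.rho_pos u₂
  rcases le_total (T.rho u₁) (T.rho u₂) with h | h
  · exact T.inj h2 h1 h2 (by linarith) (by simpa using p2) e
  · exact T.inj h1 h1 h2 (by simpa using p1) (by rw [norm_sub_rev]; linarith) e

/-- The corrected points are analytic along branches. -/
theorem an_branch {Q : ℂ[X][X]} {δ : ℂ[X]} {U : Set (ℂ × ((ℂ × ℂ) × E))} {pr : E →L[ℂ] E'}
    (T : TC U (prB (ℂ × ℂ) pr)) {κ : ℂ → ℂ} {z₀ : ℂ} {x val : ℂ → ℂ → E} {ε M : ℂ → ℝ}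
    (hκ : AnalyticAt ℂ κ z₀) (hδ : δ.eval (κ z₀) ≠ 0) (hε : ContinuousAt ε z₀)
    (hg : ∀ᶠ z in 𝓝 z₀, ∀ v, Q.evalEval (κ z) v = 0 →
      Good T δ (κ z) v (x z v) (val z v) (ε z) (M z))
    {v : ℂ → ℂ} (hv : AnalyticAt ℂ v z₀) (hr : ∀ᶠ z in 𝓝 z₀, Q.evalEval (κ z) (v z) = 0)
    (hx : AnalyticAt ℂ (fun z => x z (v z)) z₀) : AnalyticAt ℂ (fun z => val z (v z)) z₀ := by
  have g0 := hg.self_of_nhds _ hr.self_of_nhds
  set w₀ := pt δ (κ z₀) (v z₀) (val z₀ (v z₀)) with hw₀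
  have hp : AnalyticAt ℂ (fun z => ((κ z, pr (x z (v z))) : ℂ × E')) z₀ :=
    hκ.prod ((pr.analyticAt _).comp hx)
  have hρ := T.rho_pos w₀
  have h1 : AnalyticAt ℂ (fun z => T.ex w₀ (κ z, pr (x z (v z)))) z₀ := by
    refine T.analyticAt_ex (u := fun _ => w₀) continuousAt_const hp ?_
      (Eventually.of_forall fun _ => g0.mem)
    have : pj (prB (ℂ × ℂ) pr) w₀ = (κ z₀, pr (x z₀ (v z₀))) := by
      rw [← g0.pr_eq]; rfl
    rw [this, sub_self, norm_zero]; positivity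
  have hc : ContinuousAt (fun z => pt δ (κ z) (v z) (x z (v z))) z₀ := by
    refine hκ.continuousAt.prodMk ((hv.continuousAt.prodMk ?_).prodMk hx.continuousAt)
    exact (δ.continuous.continuousAt.comp hκ.continuousAt).inv₀ hδ
  have h2 : ∀ᶠ z in 𝓝 z₀, ε z + ‖pt δ (κ z) (v z) (x z (v z)) - pt δ (κ z₀) (v z₀) (x z₀ (v z₀))‖
      + ε z₀ < T.rho w₀ := by
    refine ContinuousAt.eventually_lt
      ((hε.add (hc.sub continuousAt_const).norm).add continuousAt_const) continuousAt_const ?_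
    have := g0.small
    simp only [sub_self, norm_zero]
    linarith
  refine (analyticAt_snd.comp h1).congr ?_
  filter_upwards [hg, hr, h2] with z h3 h4 h5
  have g1 := h3 _ h4
  have h6 : T.ex w₀ (κ z, pr (x z (v z))) = ((v z, (δ.eval (κ z))⁻¹), val z (v z)) := by
    refine T.ex_unique g0.mem g1.mem ?_ (by rw [← g1.pr_eq]; rfl)
    have a1 := norm_sub_le_norm_sub_add_norm_sub (pt δ (κ z) (v z) (val z (v z)))
      (pt δ (κ z) (v z) (x z (v z))) w₀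
    have a2 := norm_sub_le_norm_sub_add_norm_sub (pt δ (κ z) (v z) (x z (v z)))
      (pt δ (κ z₀) (v z₀) (x z₀ (v z₀))) w₀
    rw [norm_pt_sub] at a1
    rw [hw₀, norm_pt_sub, norm_sub_rev (x z₀ (v z₀))] at a2
    have := g0.near
    have := g1.near
    change ‖pt δ (κ z) (v z) (val z (v z)) - w₀‖ < _
    linarith
  simp only [Function.comp, h6]

theorem itp_sub (Q : ℂ[X][X]) (d : ℕ) (t : ℂ) (val val' : ℂ → E) :
    itp Q d t val - itp Q d t val' = itp Q d t fun v => val v - val' v := by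
  funext l
  simp [itp, smul_sub, Finset.sum_sub_distrib]

end

end

end GermP

end Pool.Agent.P.MP_daea48_ag
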