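import Pool.Agent.P.MP_daea48_ag.StA

/-! The three global theorems. -/

open Set Filter Topology Metric Polynomial Asymptotics
open scoped ComplexConjugate

namespace Pool.Agent.P.MP_daea48_ag

namespace Glob

open Classical

section
variable {E : Type} [NormedAddCommGroup E] [NormedSpace ℂ E] [FiniteDimensional ℂ E]
  {E' : Type} [NormedAddCommGroup E'] [NormedSpace ℂ E'] [FiniteDimensional ℂ E']
  {L : Type} [NormedAddCommGroup L] [NormedSpace ℂ L] [FiniteDimensional ℂ L]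
  {U : Set (ℂ × E)} {pr : E →L[ℂ] E'}

theorem exists_btw (P : Finset ℂ) {a b : ℝ} (hab : a < b) :
    ∃ r, a < r ∧ r < b ∧ ∀ p ∈ P, ‖p‖ < b → ‖p‖ < r := by
  induction P using Finset.induction_on with
  | empty => exact ⟨(a + b) / 2, by linarith, by linarith, by simp⟩
  | insert q P _ ih =>
    obtain ⟨r, h1, h2, h3⟩ := ih
    by_cases hq : ‖q‖ < b
    · refine ⟨max r ((‖q‖ + b) / 2), lt_max_of_lt_left h1, max_lt h2 (by linarith), ?_⟩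
      intro p hp hb
      rcases Finset.mem_insert.1 hp with rfl | hp
      · exact lt_max_of_lt_right (by linarith)
      · exact lt_max_of_lt_left (h3 p hp hb)
    · refine ⟨r, h1, h2, fun p hp hb => ?_⟩
      rcases Finset.mem_insert.1 hp with rfl | hp
      · exact absurd hb hq
      · exact h3 p hp hb

theorem exists_big (P : Finset ℂ) (a : ℝ) : ∃ r, a < r ∧ ∀ p ∈ P, ‖p‖ < r := by
  obtain ⟨R, hR⟩ := (P.finite_toSet.isBounded).subset_ball 0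
  exact ⟨max (a + 1) R, lt_max_of_lt_left (by linarith),
    fun p hp => lt_max_of_lt_right (by simpa using hR hp)⟩

theorem ev_notMem (P : Finset ℂ) (p : ℂ) : ∀ᶠ z in 𝓝[≠] p, z ∉ P := by
  have h : ((P : Set ℂ) \ {p})ᶜ ∈ 𝓝 p :=
    (P.finite_toSet.subset diff_subset).isClosed.isOpen_compl.mem_nhds (by simp)
  filter_upwards [nhdsWithin_le_nhds h, self_mem_nhdsWithin] with z h1 h2 h3
  exact h1 ⟨h3, h2⟩

omit [FiniteDimensional ℂ E] in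
theorem sec_of_an {S : ℂ → E} {V : Set ℂ} (hV : IsOpen V)
    (h : ∀ z ∈ V, AnalyticAt ℂ S z ∧ (z, S z) ∈ U) : Sec U S V := fun p hp =>
  ⟨(h p hp).1.meromorphicAt, nhdsWithin_le_nhds ((hV.eventually_mem hp).mono fun z hz => (h z hz).2)⟩

theorem germ_ball {κ : ℂ → ℂ} {S : ℂ → E} (h : Germ U κ S 0) :
    ∃ ρ > 0, ∀ z, z ≠ 0 → ‖z‖ < ρ → AnalyticAt ℂ S z ∧ (κ z, S z) ∈ U := by
  have h1 := h.1.eventually_analyticAt.and h.2
  rw [eventually_nhdsWithin_iff, Metric.eventually_nhds_iff] at h1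
  obtain ⟨ρ, h2, h3⟩ := h1
  exact ⟨ρ, h2, fun z hz hρ => h3 (by simpa using hρ) hz⟩

theorem inf_an {τ : ℂ → E} (h : Germ U (fun z => z⁻¹) τ 0) :
    ∃ ra > 0, ∀ z, ra < ‖z‖ → AnalyticAt ℂ (fun z => τ z⁻¹) z ∧ (z, τ z⁻¹) ∈ U := by
  obtain ⟨ρ, h1, h2⟩ := germ_ball h
  refine ⟨ρ⁻¹, by positivity, fun z hz => ?_⟩
  have h0 : 0 < ‖z‖ := (inv_pos.2 h1).trans hz
  have hz0 : z ≠ 0 := norm_pos_iff.1 h0
  obtain ⟨h3, h4⟩ := h2 z⁻¹ (inv_ne_zero hz0) (by rw [norm_inv]; exact inv_lt_of_inv_lt₀ h1 hz)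
  exact ⟨AnalyticAt.comp (g := τ) (f := fun x : ℂ => x⁻¹) h3 (analyticAt_inv hz0), by simpa using h4⟩

omit [FiniteDimensional ℂ E] in
theorem reach_mono {𝒞 𝒞' : (ℂ → E) → Prop} {r : ℝ} {γ : ℂ → E} (h : Reach U 𝒞 r γ)
    (hc : ∀ S, 𝒞 S → 𝒞' S) : Reach U 𝒞' r γ := fun η hη => by
  obtain ⟨R, h1, S, h2, h3, h4⟩ := h η hη
  exact ⟨R, h1, S, h2, hc S h3, h4⟩

/-- The last two gluing steps, from a reached section. -/
theorem step' (hS : S_Step) (T : TC U pr) (lab : E →L[ℂ] L) (hB : Br U pr lab)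
    {𝒞 : (ℂ → E) → Prop} {r ra : ℝ} {S₁ : ℂ → E} (h0 : 0 < ra) (h1 : ra < r) (hst : Stable r 𝒞)
    (hre : Reach U 𝒞 r S₁)
    (han : ∀ z ∈ sphere (0 : ℂ) r, AnalyticAt ℂ S₁ z ∧ (z, S₁ z) ∈ U) :
    (Sec U S₁ {z | ra < ‖z‖} → Germ U (fun z => z⁻¹) (fun z => S₁ z⁻¹) 0 → ∃ S, Rat U S ∧ 𝒞 S) ∧
    (∀ (J : E →L⋆[ℂ] E) (J' : E' →L⋆[ℂ] E') (P : Finset ℂ) (k : ℕ), RealStr U pr J J' → r < 1 →
      (∀ p ∈ P, ‖p‖ = 1) → Sec U S₁ (ann ra ra⁻¹) →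
      (∀ z ∈ ann ra ra⁻¹, z ∉ P → AnalyticAt ℂ S₁ z ∧ S₁ (rfl1 z) = J (S₁ z)) →
      ∃ r'' S, r < r'' ∧ r'' < 1 ∧ Sec U S (ball 0 r''⁻¹) ∧ 𝒞 S ∧ (∀ p ∈ P, Jet k S₁ p S) ∧
        ∀ z ∈ ann r'' r''⁻¹, z ∉ P → S (rfl1 z) = J (S z)) := by
  have hc : IsCompact ((fun z => (z, S₁ z)) '' sphere (0 : ℂ) r) :=
    (isCompact_sphere 0 r).image_of_continuousOn fun z hz =>
      (continuousAt_id.prodMk (han z hz).1.continuousAt).continuousWithinAt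
  obtain ⟨K, hKU, hK, hK'⟩ := compact_nhd T.closed hc.isBounded
  obtain ⟨ε, hε, h⟩ := hS E E' L U pr T lab hB K hKU hK
  obtain ⟨R, hR, S₀, s1, s2, s3⟩ := hre (min ε 1) (lt_min hε one_pos)
  refine (h 𝒞 r R ra S₀ S₁ h0 h1 hR hst s1 s2 fun z hz => ?_).2
  obtain ⟨a1, a2⟩ := s3 z hz
  have hz' : z ∈ ball (0 : ℂ) R := by
    rw [mem_sphere_zero_iff_norm] at hz
    rw [mem_ball_zero_iff, hz]; exact hR
  refine ⟨a1, (han z hz).1, hK' (z, S₁ z) ⟨z, hz, rfl⟩ _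
    (T.mem_of_germ continuousAt_id (s1 z hz') a1.continuousAt) ?_, ?_⟩
  · simpa using (a2.trans_le (min_le_right _ _)).le
  · rw [norm_sub_rev]; exact a2.trans_le (min_le_left _ _)

theorem m3' (hM : S_M3) (T : TC U pr) (lab : E →L[ℂ] L) (hB : Br U pr lab)
    {𝒞 : (ℂ → E) → Prop} {r r' : ℝ} {S : ℂ → E} {P : Finset ℂ} (h0 : 0 < r) (h1 : r ≤ r')
    (hst : Stable r 𝒞) (hS : CSec U S (P : Set ℂ)ᶜ)
    (hP : ∀ p ∈ P, ‖p‖ ≠ r ∧ ‖p‖ ≠ r' ∧ Germ U id S p) (hre : Reach U 𝒞 r S) :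
    Reach U 𝒞 r' S := by
  have hsub : cann r r' \ (P.filter fun p => p ∈ ann r r' : Finset ℂ) ⊆ (P : Set ℂ)ᶜ := by
    rintro z ⟨hz, hz'⟩ hzP
    refine hz' ?_
    simp only [Finset.coe_filter, mem_setOf_eq]
    exact ⟨hzP, lt_of_le_of_ne hz.1 (hP z hzP).1.symm, lt_of_le_of_ne hz.2 (hP z hzP).2.1⟩
  refine reach_mono (hM E E' L U pr T lab hB 𝒞 r r' S (P.filter fun p => p ∈ ann r r') 0 h0 h1 hst
    (fun p hp => ?_) ⟨hS.1.mono hsub, fun z hz => hS.2 z (hsub hz)⟩ hre) fun _ h => h.1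
  rw [Finset.mem_filter] at hp
  exact ⟨hp.2, (hP p hp.1).2.2⟩

theorem mero_conj (J : E →L⋆[ℂ] E) {f : ℂ → E} {p : ℂ} (h : MeromorphicAt f (conj p)) :
    MeromorphicAt (fun z => J (f (conj z))) p := by
  obtain ⟨n, hn⟩ := h
  refine ⟨n, (analyticAt_rfl J hn).congr (Eventually.of_forall fun z => ?_)⟩
  simp only [map_smulₛₗ]
  simp

theorem mero_rfl1 (J : E →L⋆[ℂ] E) {f : ℂ → E} {p : ℂ} (hp : p ≠ 0)
    (h : MeromorphicAt f (rfl1 p)) : MeromorphicAt (fun z => J (f (rfl1 z))) p :=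
  mero_conj J (f := fun x => f x⁻¹)
    (MeromorphicAt.comp_analyticAt (f := f) (g := fun x : ℂ => x⁻¹) h
      (analyticAt_inv (by simpa using hp)))

omit [FiniteDimensional ℂ E] in
theorem jet_congr {k : ℕ} {σ S S' : ℂ → E} {p : ℂ} (h : Jet k σ p S) (e : S' =ᶠ[𝓝[≠] p] S) :
    Jet k σ p S' :=
  IsBigO.congr' h (e.mono fun z hz => by simp only [hz]) EventuallyEq.rfl

omit [FiniteDimensional ℂ E] in
theorem jet_trans {k : ℕ} {σ S₁ S : ℂ → E} {p : ℂ} (h : Jet k σ p S₁) (h' : Jet k S₁ p S) :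
    Jet k σ p S :=
  (IsBigO.add h' h).congr_left fun z => by simp

omit [FiniteDimensional ℂ E] in
theorem jet_of_bound {k : ℕ} {σ S : ℂ → E} {p : ℂ} {P : Finset ℂ} (hp : p ∈ P)
    (h : ∀ᶠ z in 𝓝[≠] p, ‖S z - σ z‖ ≤ 1 * ‖∏ q ∈ P, (z - q)‖ ^ k) : Jet k σ p S := by
  have h1 : DifferentiableAt ℂ (fun z : ℂ => ∏ q ∈ P, (z - q)) p := by fun_prop
  have h2 := h1.isBigO_sub
  rw [Finset.prod_eq_zero hp (sub_self p)] at h2
  simp only [sub_zero] at h2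
  refine IsBigO.trans (IsBigO.of_bound 1 ?_) ((h2.mono nhdsWithin_le_nhds).pow k)
  filter_upwards [h] with z hz
  rwa [norm_pow]

/-- Extension by reflection. -/
theorem reflect {J : E →L⋆[ℂ] E} {J' : E' →L⋆[ℂ] E'} (hJ : RealStr U pr J J') {r : ℝ}
    (h0 : 0 < r) (h1 : r < 1) {S : ℂ → E} {P : Finset ℂ} (hS : Sec U S (ball 0 r⁻¹))
    (hsym : ∀ z ∈ ann r r⁻¹, z ∉ P → S (rfl1 z) = J (S z)) :
    ∃ S', Rat U S' ∧ (∀ᶠ z in cofinite, S' (rfl1 z) = J (S' z)) ∧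
      ∀ p, ‖p‖ ≤ 1 → S' =ᶠ[𝓝[≠] p] S := by
  have hr : 1 < r⁻¹ := (one_lt_inv₀ h0).2 h1
  set S' : ℂ → E := fun z => if ‖z‖ ≤ 1 then S z else J (S (rfl1 z)) with hS'
  have e1 : ∀ z, ‖z‖ ≤ 1 → S' z = S z := fun z hz => if_pos hz
  have e2 : ∀ z, 1 < ‖z‖ → S' z = J (S (rfl1 z)) := fun z hz => if_neg (not_le.2 hz)
  have e3 : ∀ p, ‖p‖ ≤ 1 → S' =ᶠ[𝓝[≠] p] S := fun p hp => by
    have hb : ball (0 : ℂ) r⁻¹ ∈ 𝓝 p := isOpen_ball.mem_nhds (by simpa using hp.trans_lt hr)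
    filter_upwards [nhdsWithin_le_nhds hb, ev_notMem P p] with z hz hzP
    rcases le_or_gt ‖z‖ 1 with h | h
    · exact e1 z h
    · rw [e2 z h, hsym z ⟨h1.trans h, by simpa using hz⟩ hzP, hJ.inv]
  have hin : ∀ p, ‖p‖ ≤ 1 → Germ U id S p := fun p hp =>
    hS p (by simpa using hp.trans_lt hr)
  have hout : ∀ z : ℂ, 1 < ‖z‖ → ‖rfl1 z‖ ≤ 1 := fun z hz => by
    rw [norm_rfl1]; exact inv_le_one_of_one_le₀ hz.le
  refine ⟨S', ⟨fun p _ => ?_, ?_, ?_⟩, ?_, e3⟩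
  · rcases le_or_gt ‖p‖ 1 with h | h
    · exact (hin p h).1.congr (e3 p h).symm
    · have hp : p ≠ 0 := norm_pos_iff.1 (one_pos.trans h)
      refine (mero_rfl1 J hp (hin _ (hout p h)).1).congr (nhdsWithin_le_nhds ?_)
      filter_upwards [(isOpen_lt continuous_const continuous_norm).mem_nhds h] with z hz
      exact (e2 z hz).symm
  · refine (mero_conj J (f := S) (p := 0) (by simpa using (hin 0 (by simp)).1)).congr ?_
    filter_upwards [nhdsWithin_le_nhds (ball_mem_nhds (0 : ℂ) one_pos), self_mem_nhdsWithin]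
      with z hz hz0
    have h2 : 1 < ‖z⁻¹‖ := by
      rw [norm_inv]; exact (one_lt_inv₀ (norm_pos_iff.2 hz0)).2 (by simpa using hz)
    rw [e2 _ h2]
    simp [rfl1]
  · have hF := finite_of_punctured (isCompact_closedBall (0 : ℂ) 1) (p := fun z => (z, S z) ∈ U)
      fun x hx => (hin x (by simpa using hx)).2
    refine (hF.union (hF.image rfl1)).subset fun z hz => ?_
    rcases le_or_gt ‖z‖ 1 with h | h
    · exact Or.inl ⟨by simpa using h, fun h' => hz (by rw [mem_setOf_eq, e1 z h]; exact h')⟩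
    · refine Or.inr ⟨rfl1 z, ⟨mem_closedBall_zero_iff.2 (hout z h), fun h' => hz ?_⟩, rfl1_rfl1 z⟩
      have hz0 : rfl1 z ≠ 0 := by
        rw [← norm_pos_iff, norm_rfl1]; exact inv_pos.2 (one_pos.trans h)
      have := hJ.mem _ _ hz0 h'
      rw [rfl1_rfl1] at this
      rw [mem_setOf_eq, e2 z h]
      exact this
  · refine ((insert (0 : ℂ) P).finite_toSet).subset fun z hz => ?_
    by_contra hn
    simp only [Finset.coe_insert, mem_insert_iff, Finset.mem_coe, not_or] at hn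
    refine hz ?_
    rw [mem_setOf_eq]
    rcases lt_trichotomy ‖z‖ 1 with h | h | h
    · have h2 : 1 < ‖rfl1 z‖ := by
        rw [norm_rfl1]; exact (one_lt_inv₀ (norm_pos_iff.2 hn.1)).2 h
      rw [e2 _ h2, rfl1_rfl1, e1 z h.le]
    · have := hsym z ⟨by rw [h]; exact h1, by rw [h]; exact hr⟩ hn.2
      rw [rfl1_of_norm_one h] at this ⊢
      rw [e1 z h.le]
      exact this
    · rw [e1 _ (hout z h), e2 z h, hJ.inv]

end

end Glob

open Glob Classical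

theorem Glob_of (hIFT : S_IFT) (hSw : S_Sweep) (hSt : S_Step) (hM1 : S_M1) (hM3 : S_M3)
    (hPF : S_PF) (hAp : S_Ap) : S_Glob := by
  refine ⟨?_, ?_, ?_⟩
  · rintro E _ _ _ E' _ _ _ U pr Bad hO hg ⟨τ, hτ⟩
    obtain ⟨T⟩ := hIFT.1 E E' U pr hO.aps
    obtain ⟨ra, h0, h1⟩ := inf_an hτ
    have hσ : ∀ p ∈ insert (0 : ℂ) Bad, ∃ σ, Germ U id σ p := fun p _ => by
      by_cases hp : p ∈ Bad
      · exact hg p hp
      · obtain ⟨ξ, hξ⟩ := hO.ne p hp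
        obtain ⟨a1, -, a3⟩ := T.exists_local (κ := id) (β := p) analyticAt_id hξ
        exact ⟨_, a1.meromorphicAt, nhdsWithin_le_nhds (a3.mono fun _ h => h.1)⟩
    choose! σ hσ using hσ
    obtain ⟨r, r1, r2⟩ := exists_big (insert (0 : ℂ) Bad) ra
    have han : ∀ z ∈ sphere (0 : ℂ) r, AnalyticAt ℂ (fun z => τ z⁻¹) z ∧ (z, τ z⁻¹) ∈ U :=
      fun z hz => h1 z (by rw [mem_sphere_zero_iff_norm.1 hz]; exact r1)
    have hre := hSw E E' U pr Bad (insert 0 Bad) σ 0 r (fun z => τ z⁻¹) hO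
      (Finset.subset_insert _ _) (Finset.mem_insert_self _ _) (h0.trans r1)
      (fun p hp => ⟨(r2 p hp).ne, fun _ => hσ p hp⟩)
      ⟨fun z hz => (han z hz).1.continuousAt.continuousWithinAt, fun z hz => (han z hz).2⟩
    obtain ⟨S, hS, -⟩ := (step' hSt T (lab0 E) hO.br h0 r1 ((hM1.2 E).2.2.1 r 0 _ σ) hre han).1
      (sec_of_an (isOpen_lt continuous_const continuous_norm) h1) (by simpa using hτ)
    exact ⟨S, hS⟩
  · intro E _ _ _ E' _ _ _ U pr Bad P σ k J J' hO hJ hC hB h0 h1 hg hs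
    obtain ⟨T⟩ := hIFT.1 E E' U pr hO.aps
    set P₁ := P.filter fun p => ‖p‖ = 1 with hP₁
    have m1 : ∀ p, p ∈ P₁ ↔ p ∈ P ∧ ‖p‖ = 1 := fun p => Finset.mem_filter
    have g1 : ∀ p ∈ P₁, ‖p‖ = 1 ∧ Germ U id (σ p) p := fun p hp =>
      ⟨((m1 p).1 hp).2, hg p ((m1 p).1 hp).1 ((m1 p).1 hp).2.le⟩
    have g2 : ∀ p ∈ P₁, ∀ᶠ z in 𝓝[≠] p, σ p (rfl1 z) = J (σ p z) := fun p hp =>
      hs p ((m1 p).1 hp).1 ((m1 p).1 hp).2
    obtain ⟨γ, c1, c2, c3⟩ := (hPF E E' U pr T).2.2 1 P₁ σ J J' True one_pos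
      ⟨1, (m1 1).2 ⟨h1, norm_one⟩⟩ g1 (fun _ => ⟨rfl, hJ, g2⟩) (fun z hz => by
        have := hC z hz.1 fun hb => hz.2 ((m1 z).2 ⟨hB hb, mem_sphere_zero_iff_norm.1 hz.1⟩)
        simpa using this)
    obtain ⟨δ, S₁, d0, d1, d2, d3, -, d4, d5⟩ := hAp E E' U pr T 1 P₁ γ σ J J' True one_pos
      (fun p hp => (g1 p hp).1) c1 (fun p hp => ⟨(g1 p hp).2, c2 p hp⟩)
      (fun _ => ⟨rfl, hJ, c3 trivial, g2⟩) k 1 one_pos
    set ra := (1 + δ)⁻¹ with hra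
    have a0 : 0 < ra := by positivity
    have a1 : ra < 1 := inv_lt_one_of_one_lt₀ (by linarith)
    have a2 : 1 - δ ≤ ra := by
      rw [hra, ← one_div, le_div_iff₀ (by linarith)]; nlinarith
    have a3 : ann ra ra⁻¹ ⊆ ann (1 - δ) (1 + δ) := fun z hz =>
      ⟨a2.trans_lt hz.1, by simpa [hra] using hz.2⟩
    have a4 : ∀ z ∈ ann ra ra⁻¹, rfl1 z ∈ ann ra ra⁻¹ := fun z hz => by
      have hz0 : 0 < ‖z‖ := a0.trans hz.1
      refine ⟨?_, ?_⟩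
      · rw [norm_rfl1]; exact lt_inv_of_lt_inv₀ hz0 hz.2
      · rw [norm_rfl1]; exact (inv_lt_inv₀ hz0 a0).2 hz.1
    obtain ⟨r, r1, r2, r3⟩ := exists_btw P a1
    have han : ∀ z ∈ sphere (0 : ℂ) r, AnalyticAt ℂ S₁ z ∧ (z, S₁ z) ∈ U := fun z hz => by
      rw [mem_sphere_zero_iff_norm] at hz
      have hz' : z ∈ ann (1 - δ) (1 + δ) := ⟨by rw [hz]; linarith, by rw [hz]; linarith⟩
      have := d3 z hz' fun h => r2.ne (hz.symm.trans (g1 z h).1)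
      exact ⟨this, T.mem_of_germ continuousAt_id (d2 z hz') this.continuousAt⟩
    have hre := hSw E E' U pr Bad P σ k r S₁ hO hB h0 (a0.trans r1)
      (fun p hp => ⟨fun h => (r3 p hp (h.trans_lt r2)).ne h, fun h => hg p hp (h.trans r2).le⟩)
      ⟨fun z hz => (han z hz).1.continuousAt.continuousWithinAt, fun z hz => (han z hz).2⟩
    obtain ⟨r'', S, s1, s2, s3, s4, s5, s6⟩ :=
      (step' hSt T (lab0 E) hO.br a0 r1 ((hM1.2 E).2.2.1 r k P σ) hre han).2 J J' P₁ k hJ r2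
        (fun p hp => (g1 p hp).1) (fun p hp => d2 p (a3 hp))
        fun z hz hzP => ⟨d3 z (a3 hz) hzP, d5 trivial z (a3 hz) hzP (a3 (a4 z hz))⟩
    obtain ⟨S', t1, t2, t3⟩ := reflect hJ ((a0.trans r1).trans s1) s2 s3 s6
    refine ⟨S', t1, t2, fun p hp hp1 => jet_congr ?_ (t3 p hp1)⟩
    rcases hp1.lt_or_eq with h | h
    · exact s4 p hp (r3 p hp h)
    · have hp' := (m1 p).2 ⟨hp, h⟩
      exact jet_trans (jet_of_bound hp' (d4 p hp')) (s5 p hp')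
  · intro E _ _ _ E' _ _ _ L _ _ _ U pr T lab P S₀ r η hB h0 hS hP hI hr hη
    obtain ⟨ρ, ρ0, ρ1⟩ := germ_ball (hP 0 h0).2
    obtain ⟨ρ', ρ2, ρ3⟩ : ∃ ρ' > 0, ∀ z : ℂ, z ≠ 0 → ‖z‖ < ρ' → z ∉ P := by
      have h1 := ev_notMem P 0
      rw [eventually_nhdsWithin_iff, Metric.eventually_nhds_iff] at h1
      obtain ⟨ρ', h2, h3⟩ := h1
      exact ⟨ρ', h2, fun z hz h => h3 (by simpa using h) hz⟩
    set r₁ := min r (min ρ ρ') / 2 with hr₁
    have m0 : 0 < min r (min ρ ρ') := lt_min hr (lt_min ρ0 ρ2)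
    have m1 : min r (min ρ ρ') ≤ r := min_le_left _ _
    have m2 : min r (min ρ ρ') ≤ ρ := (min_le_right _ _).trans (min_le_left _ _)
    have m3 : min r (min ρ ρ') ≤ ρ' := (min_le_right _ _).trans (min_le_right _ _)
    have r0 : 0 < r₁ := by positivity
    have re1 : Reach U (fun _ => True) r₁ S₀ := fun η' hη' => by
      refine ⟨ρ, by linarith, S₀, fun p hp => ?_, trivial, fun z hz => ?_⟩
      · by_cases hp0 : p = 0
        · rw [hp0]; exact (hP 0 h0).2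
        · exact sec_of_an (V := ball 0 ρ ∩ {0}ᶜ) (isOpen_ball.inter isOpen_compl_singleton)
            (fun z hz => ρ1 z hz.2 (by simpa using hz.1)) p ⟨hp, hp0⟩
      · rw [mem_sphere_zero_iff_norm] at hz
        exact ⟨(ρ1 z (norm_pos_iff.1 (by rw [hz]; exact r0)) (by linarith)).1, by simpa using hη'⟩
    have re2 : Reach U (fun _ => True) r S₀ :=
      m3' hM3 T lab hB r0 (by linarith) (fun _ _ _ => ⟨1, one_ne_zero, fun _ _ => trivial⟩) hS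
        (fun p hp => ⟨fun h => ρ3 p (norm_pos_iff.1 (by rw [h]; exact r0)) (by linarith) hp,
          hP p hp⟩) re1
    have re3 : Reach U (fun S => ∀ z ∈ sphere (0 : ℂ) r, AnalyticAt ℂ S z ∧ ‖S z - S₀ z‖ < η)
        r S₀ := fun η' hη' => by
      obtain ⟨R, h1, S, h2, -, h4⟩ := re2 (min η η') (lt_min hη hη')
      exact ⟨R, h1, S, h2, fun z hz => ⟨(h4 z hz).1, (h4 z hz).2.trans_le (min_le_left _ _)⟩,
        fun z hz => ⟨(h4 z hz).1, (h4 z hz).2.trans_le (min_le_right _ _)⟩⟩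
    have st := (hM1.2 E).2.2.2 r η S₀ hr (hS.1.mono fun z hz hzP =>
      (hP z hzP).1 (mem_sphere_zero_iff_norm.1 hz))
    obtain ⟨ra, a0, a1⟩ := inf_an hI
    simp only [inv_inv] at a1
    obtain ⟨r₂, b1, b2⟩ := exists_big P (max r ra)
    have b3 : r ≤ r₂ := (le_max_left _ _).trans b1.le
    have b4 : ra < r₂ := (le_max_right _ _).trans_lt b1
    have re4 := m3' hM3 T lab hB hr b3 st hS
      (fun p hp => ⟨(hP p hp).1, (b2 p hp).ne, (hP p hp).2⟩) re3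
    exact (step' hSt T lab hB a0 b4 ((hM1.2 E).1 r r₂ _ b3 st) re4
      fun z hz => a1 z (by rw [mem_sphere_zero_iff_norm.1 hz]; exact b4)).1
      (sec_of_an (isOpen_lt continuous_const continuous_norm) a1) hI

end Pool.Agent.P.MP_daea48_ag
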