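import Pool.Agent.P.MP_daea48_ag.StA

/-! Quantitative implicit function theorem for tame maps. -/

open Set Filter Topology Metric

namespace Pool.Agent.P.MP_daea48_ag

noncomputable section

namespace IFT

variable {X X' Y : Type} [NormedAddCommGroup X] [NormedSpace ℂ X] [NormedAddCommGroup X']
  [NormedSpace ℂ X'] [NormedAddCommGroup Y] [NormedSpace ℂ Y]

/-- Tempered bounds for the derivative of a tame map. -/
theorem tame2 [CompleteSpace Y] {F : X → Y} (hF : Tame F) :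
    ∃ (C : ℝ) (A : ℕ), 1 ≤ C ∧ ∀ u, ‖fderiv ℂ F u‖ ≤ C * (1 + ‖u‖) ^ A ∧
      ∀ x, ‖x - u‖ ≤ 1 → ‖fderiv ℂ F x - fderiv ℂ F u‖ ≤ C * (1 + ‖u‖) ^ A * ‖x - u‖ := by
  obtain ⟨C, A, hC, h⟩ := hF.lip
  have h3 : (1 : ℝ) ≤ 3 ^ A := one_le_pow₀ (by norm_num)
  refine ⟨C * 3 ^ A, A, one_le_mul_of_one_le_of_one_le hC h3, fun u => ⟨?_, fun x hx => ?_⟩⟩
  · have hp := pow_pos (opn_pos u) A
    refine (hF.1 u).hasFDerivAt.le_of_lip' (by positivity) ?_
    filter_upwards [closedBall_mem_nhds u one_pos] with y hy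
    rw [mem_closedBall, dist_eq_norm] at hy
    refine (h u y hy).trans ?_
    have : C * (1 + ‖u‖) ^ A ≤ C * 3 ^ A * (1 + ‖u‖) ^ A := by
      rw [mul_assoc]
      exact mul_le_mul_of_nonneg_left (le_mul_of_one_le_left hp.le h3) (by linarith)
    exact mul_le_mul_of_nonneg_right this (norm_nonneg _)
  · have hp := pow_pos (opn_pos u) A
    by_cases h0 : x = u
    · simp [h0]
    have hn : 0 < ‖x - u‖ := norm_pos_iff.2 (sub_ne_zero.2 h0)
    set v : X := ((‖x - u‖ : ℂ))⁻¹ • (x - u) with hv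
    have hv1 : ‖v‖ = 1 := by
      rw [hv, norm_smul, norm_inv, Complex.norm_real, Real.norm_eq_abs, abs_of_pos hn]
      field_simp
    have e : u + (‖x - u‖ : ℂ) • v = x := by
      rw [hv, smul_smul, mul_inv_cancel₀ (by exact_mod_cast hn.ne'), one_smul]; abel
    have hd : HasFDerivAt (fun w => F (x + w) - F (u + w)) (fderiv ℂ F x - fderiv ℂ F u) 0 := by
      have a1 : HasFDerivAt (fun w => F (x + w)) (fderiv ℂ F x) 0 := by
        have := (hF.1 (x + 0)).hasFDerivAt.comp (0 : X) ((hasFDerivAt_id (0 : X)).const_add x)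
        simpa [Function.comp_def] using this
      have a2 : HasFDerivAt (fun w => F (u + w)) (fderiv ℂ F u) 0 := by
        have := (hF.1 (u + 0)).hasFDerivAt.comp (0 : X) ((hasFDerivAt_id (0 : X)).const_add u)
        simpa [Function.comp_def] using this
      exact a1.sub a2
    refine hd.le_of_lip' (by positivity) ?_
    filter_upwards [closedBall_mem_nhds (0 : X) one_pos] with w hw
    rw [mem_closedBall, dist_zero_right] at hw
    have key := line_lip (g := fun l : ℂ => F (u + l • v + w) - F (u + l • v)) (r := 2)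
      (M := C * 3 ^ A * (1 + ‖u‖) ^ A * ‖w‖)
      (((hF.1.comp (by fun_prop)).sub (hF.1.comp (by fun_prop))).differentiableOn)
      (fun l hl => ?_) (l := (‖x - u‖ : ℂ))
      (by rw [Complex.norm_real, Real.norm_eq_abs, abs_of_pos hn]; linarith)
    · simp only [e, zero_smul, add_zero, Complex.norm_real, Real.norm_eq_abs, abs_of_pos hn] at key
      have e2 : F (x + w) - F (u + w) - (F (x + 0) - F (u + 0)) =
          F (x + w) - F x - (F (u + w) - F u) := by simp only [add_zero]; abel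
      rw [e2, sub_zero]
      linarith
    · have hl' : ‖l‖ < 2 := by simpa using hl
      have h1 : 1 + ‖u + l • v‖ ≤ 3 * (1 + ‖u‖) := by
        have := norm_add_le u (l • v)
        rw [norm_smul, hv1] at this
        linarith [norm_nonneg u]
      have h2 := h (u + l • v) (u + l • v + w) (by simpa using hw)
      rw [add_sub_cancel_left] at h2
      calc _ ≤ C * (1 + ‖u + l • v‖) ^ A * ‖w‖ := h2
        _ ≤ C * (3 * (1 + ‖u‖)) ^ A * ‖w‖ := by gcongr
        _ = _ := by rw [mul_pow]; ring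

/-- Distance to the kernel. -/
theorem gen_inv [FiniteDimensional ℂ X'] (P : X →L[ℂ] X') :
    ∃ K : ℝ, 1 ≤ K ∧ ∀ H, ∃ H₁, P H₁ = P H ∧ ‖H₁‖ ≤ K * ‖P H‖ := by
  obtain ⟨g, hg⟩ := (P : X →ₗ[ℂ] X').rangeRestrict.exists_rightInverse_of_surjective
    (LinearMap.range_rangeRestrict _)
  let g' := LinearMap.toContinuousLinearMap g
  refine ⟨max ‖g'‖ 1, le_max_right _ _, fun H => ⟨g' ((P : X →ₗ[ℂ] X').rangeRestrict H), ?_, ?_⟩⟩
  · have := congrArg Subtype.val (LinearMap.congr_fun hg ((P : X →ₗ[ℂ] X').rangeRestrict H))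
    exact this
  · exact (g'.le_opNorm _).trans (mul_le_mul_of_nonneg_right (le_max_left _ _) (norm_nonneg _))

/-- The local statement. -/
theorem loc [FiniteDimensional ℂ X] [FiniteDimensional ℂ X'] [FiniteDimensional ℂ Y]
    (P : X →L[ℂ] X')
    (hdim : Module.finrank ℂ X = Module.finrank ℂ X' + Module.finrank ℂ Y) :
    ∃ K : ℝ, 1 ≤ K ∧ ∀ (G : X → Y) (x₀ : X) (W ρ : ℝ), Differentiable ℂ G → 1 ≤ W →
      (∀ H, P H = 0 → ‖H‖ ≤ W * ‖fderiv ℂ G x₀ H‖) → ‖fderiv ℂ G x₀‖ ≤ W →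
      (∀ x, ‖x - x₀‖ ≤ 1 → ‖fderiv ℂ G x - fderiv ℂ G x₀‖ ≤ W * ‖x - x₀‖) →
      0 < ρ → ρ * (K * W ^ 3) ≤ 1 →
      (∃ e : X ≃L[ℂ] X' × Y, (e : X →L[ℂ] X' × Y) = P.prod (fderiv ℂ G x₀)) ∧
      (∀ x y, ‖x - x₀‖ ≤ ρ → ‖y - x₀‖ ≤ ρ → ρ * ‖x - y‖ ≤ ‖(P x, G x) - (P y, G y)‖) ∧
      ∀ (ε : ℝ) (p : X' × Y), 0 ≤ ε → ε ≤ ρ → ‖p - (P x₀, G x₀)‖ ≤ ρ * ε →
        ∃ x, ‖x - x₀‖ ≤ ε ∧ (P x, G x) = p := by
  obtain ⟨K, hK, hg⟩ := gen_inv P
  refine ⟨6 * K, by linarith, fun G x₀ W ρ hG hW hj hb hl hρ hρ' => ?_⟩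
  set D := fderiv ℂ G x₀ with hD
  set N : ℝ := 3 * K * W ^ 2 with hN
  have hW2 : 1 ≤ W ^ 2 := one_le_pow₀ hW
  have hN1 : 1 ≤ N := by rw [hN]; nlinarith
  have hN0 : 0 < N := by linarith
  have hlin : ∀ H, ‖H‖ ≤ N * ‖P.prod D H‖ := by
    intro H
    obtain ⟨H₁, h1, h2⟩ := hg H
    set t := ‖P.prod D H‖ with ht
    have t0 : 0 ≤ t := norm_nonneg _
    have t1 : ‖P H‖ ≤ t := norm_fst_le (P.prod D H)
    have t2 : ‖D H‖ ≤ t := norm_snd_le (P.prod D H)
    have h3 : ‖H₁‖ ≤ K * t := h2.trans (by gcongr)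
    have h4 := hj (H - H₁) (by rw [map_sub, h1, sub_self])
    have h5 : ‖D H₁‖ ≤ W * (K * t) := (D.le_opNorm _).trans (by gcongr)
    have h6 : ‖D (H - H₁)‖ ≤ t + W * (K * t) := by
      rw [map_sub]; linarith [norm_sub_le (D H) (D H₁)]
    have h7 : ‖H - H₁‖ ≤ W * (t + W * (K * t)) := h4.trans (by gcongr)
    have h8 : ‖H‖ ≤ ‖H - H₁‖ + ‖H₁‖ := by simpa using norm_add_le (H - H₁) H₁
    have h9 : W * t ≤ K * W ^ 2 * t := by
      have : W ≤ K * W ^ 2 := by nlinarith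
      gcongr
    have h10 : K * t ≤ K * W ^ 2 * t := by
      have : K ≤ K * W ^ 2 := by nlinarith
      gcongr
    rw [hN]; nlinarith
  have hinj : Function.Injective (P.prod D : X →ₗ[ℂ] X' × Y) := by
    rw [injective_iff_map_eq_zero]
    intro H hH
    have := hlin H
    rw [show P.prod D H = 0 from hH, norm_zero, mul_zero] at this
    exact norm_le_zero_iff.1 this
  let e : X ≃L[ℂ] X' × Y := ((P.prod D : X →ₗ[ℂ] X' × Y).linearEquivOfInjective hinj
    (by rw [Module.finrank_prod, hdim])).toContinuousLinearEquiv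
  have he : ∀ H, e H = P.prod D H := fun _ => rfl
  have hρN : ρ * (2 * N * W) ≤ 1 := by
    rw [hN]; nlinarith
  have hρ2 : ρ * (2 * N) ≤ 1 := by
    refine le_trans ?_ hρN
    have : 2 * N ≤ 2 * N * W := le_mul_of_one_le_right (by linarith) hW
    gcongr
  have hρ1 : ρ ≤ 1 := by nlinarith
  have hρ3 : ρ ≤ 1 / (2 * N) := by rw [le_div_iff₀ (by linarith)]; exact hρ2
  have happ : ∀ x ∈ closedBall x₀ ρ, ∀ y ∈ closedBall x₀ ρ,
      ‖(P x, G x) - (P y, G y) - P.prod D (x - y)‖ ≤ 1 / (2 * N) * ‖x - y‖ := by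
    intro x hx y hy
    have h1 := (convex_closedBall x₀ ρ).norm_image_sub_le_of_norm_fderiv_le' (𝕜 := ℂ) (f := G)
      (φ := D) (C := 1 / (2 * N)) (fun z _ => hG z) (fun z hz => ?_) hy hx
    · have e1 : (P x, G x) - (P y, G y) - P.prod D (x - y) = (0, G x - G y - D (x - y)) := by
        ext
        · simp
        · simp
      rw [e1, Prod.norm_mk, norm_zero, max_eq_right (norm_nonneg _)]
      exact h1
    · rw [mem_closedBall, dist_eq_norm] at hz
      refine (hl z (hz.trans hρ1)).trans ?_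
      rw [le_div_iff₀ (by linarith)]
      have : W * ‖z - x₀‖ * (2 * N) ≤ W * ρ * (2 * N) := by gcongr
      linarith
  refine ⟨⟨e, by ext1 H; exact he H⟩, fun x y hx hy => ?_, fun ε p h0 h1 h2 => ?_⟩
  · have h1 := happ x (by rwa [mem_closedBall, dist_eq_norm]) y
      (by rwa [mem_closedBall, dist_eq_norm])
    have h2 := hlin (x - y)
    set a := (P x, G x) - (P y, G y)
    have h3 : ‖P.prod D (x - y)‖ ≤ ‖a‖ + 1 / (2 * N) * ‖x - y‖ := by
      have := norm_sub_le a (a - P.prod D (x - y))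
      rw [sub_sub_cancel] at this
      linarith
    have h4 : ‖x - y‖ ≤ N * (‖a‖ + 1 / (2 * N) * ‖x - y‖) := h2.trans (by gcongr)
    have h5 : N * (‖a‖ + 1 / (2 * N) * ‖x - y‖) = N * ‖a‖ + ‖x - y‖ / 2 := by field_simp
    have h6 : ‖x - y‖ ≤ 2 * N * ‖a‖ := by linarith
    calc ρ * ‖x - y‖ ≤ ρ * (2 * N * ‖a‖) := by gcongr
      _ = ρ * (2 * N) * ‖a‖ := by ring
      _ ≤ 1 * ‖a‖ := by gcongr
      _ = _ := one_mul _
  · have hA : ApproximatesLinearOn (fun x => (P x, G x)) (P.prod D) (closedBall x₀ ρ)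
        ⟨1 / (2 * N), by positivity⟩ := happ
    let ri : (P.prod D).NonlinearRightInverse :=
      { toFun := e.symm
        nnnorm := ⟨N, hN0.le⟩
        bound' := fun y => by
          have := hlin (e.symm y)
          rwa [← he, e.apply_symm_apply] at this
        right_inv' := fun y => by rw [← he, e.apply_symm_apply] }
    obtain ⟨x, hx, hx'⟩ := hA.surjOn_closedBall_of_nonlinearRightInverse ri (b := x₀) h0
      (closedBall_subset_closedBall h1) (a := p) (by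
        rw [mem_closedBall, dist_eq_norm]
        refine h2.trans (mul_le_mul_of_nonneg_right (hρ3.trans (le_of_eq ?_)) h0)
        change 1 / (2 * N) = N⁻¹ - 1 / (2 * N)
        field_simp
        norm_num)
    exact ⟨x, by rwa [mem_closedBall, dist_eq_norm] at hx, hx'⟩

theorem rad_mul_le {Z : Type} [NormedAddCommGroup Z] {K C c : ℝ} {A A' : ℕ} (hK : 0 < K)
    (hC : 0 < C) (hc : c ≤ 1 / (K * C ^ 3)) (hA : 3 * A ≤ A') (u : Z) :
    rad c A' u * (K * (C * (1 + ‖u‖) ^ A) ^ 3) ≤ 1 := by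
  have h1 := one_le_opn u
  have h2 : ((1 + ‖u‖) ^ A) ^ 3 ≤ (1 + ‖u‖) ^ A' := by
    rw [← pow_mul]; exact pow_le_pow_right₀ h1 (by omega)
  have h3 : 0 < (1 + ‖u‖) ^ A' := by positivity
  rw [le_div_iff₀ (by positivity)] at hc
  unfold rad
  rw [div_mul_eq_mul_div, div_le_one h3, mul_pow]
  calc c * (K * (C ^ 3 * ((1 + ‖u‖) ^ A) ^ 3)) = c * (K * C ^ 3) * ((1 + ‖u‖) ^ A) ^ 3 := by ring
    _ ≤ 1 * (1 + ‖u‖) ^ A' := by gcongr
    _ = _ := one_mul _

theorem w_mono {Z : Type} [NormedAddCommGroup Z] {C C' : ℝ} {A A' : ℕ} (hC : C ≤ C') (h0 : 0 ≤ C')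
    (hA : A ≤ A') (u : Z) : C * (1 + ‖u‖) ^ A ≤ C' * (1 + ‖u‖) ^ A' := by
  have h1 := one_le_opn u
  calc C * (1 + ‖u‖) ^ A ≤ C' * (1 + ‖u‖) ^ A := by gcongr
    _ ≤ _ := mul_le_mul_of_nonneg_left (pow_le_pow_right₀ h1 hA) h0

theorem contDiff_of_tame [CompleteSpace Y] {F : X → Y} (hF : Tame F) : ContDiff ℂ 1 F := by
  obtain ⟨C, A, hC, h⟩ := tame2 hF
  rw [contDiff_one_iff_fderiv]
  refine ⟨hF.1, continuous_iff_continuousAt.2 fun u => ?_⟩
  rw [ContinuousAt, tendsto_iff_norm_sub_tendsto_zero]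
  have h1 : Tendsto (fun x : X => C * (1 + ‖u‖) ^ A * ‖x - u‖) (𝓝 u) (𝓝 0) := by
    have : Continuous fun x : X => C * (1 + ‖u‖) ^ A * ‖x - u‖ := by fun_prop
    simpa using this.tendsto u
  refine squeeze_zero' (Eventually.of_forall fun _ => norm_nonneg _) ?_ h1
  filter_upwards [closedBall_mem_nhds u one_pos] with y hy
  rw [mem_closedBall, dist_eq_norm] at hy
  exact (h u).2 y hy

theorem part1 [FiniteDimensional ℂ X] [FiniteDimensional ℂ X'] [FiniteDimensional ℂ Y]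
    (U : Set (ℂ × X)) (pr : X →L[ℂ] X') (F : ℂ × X → Y) (h : APS U pr F) : Nonempty (TC U pr) := by
  let P : ℂ × X →L[ℂ] ℂ × X' :=
    (ContinuousLinearMap.fst ℂ ℂ X).prod (pr.comp (ContinuousLinearMap.snd ℂ ℂ X))
  have hP : ∀ u, P u = pj pr u := fun _ => rfl
  obtain ⟨K, hK, hloc⟩ := loc (Y := Y) P (by
    rw [Module.finrank_prod, Module.finrank_prod, h.dim, add_assoc])
  obtain ⟨C₁, A₁, hC₁, h1⟩ := tame2 h.tame
  obtain ⟨C₂, A₂, h2⟩ := h.jac
  set C := max C₁ C₂ with hC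
  set A := max A₁ A₂ with hA
  have hC1 : 1 ≤ C := hC₁.trans (le_max_left _ _)
  set c := 1 / (K * C ^ 3) with hc
  have hKC : 1 ≤ K * C ^ 3 := one_le_mul_of_one_le_of_one_le hK (one_le_pow₀ hC1)
  have hc0 : 0 < c := by positivity
  have key := fun u (hu : u ∈ U) => hloc F u (C * (1 + ‖u‖) ^ A) (rad c (3 * A) u) h.tame.1
    (one_le_mul_of_one_le_of_one_le hC1 (one_le_pow₀ (one_le_opn u)))
    (fun H hH => by
      obtain ⟨z, ξ⟩ := H
      have a1 : z = 0 := congrArg Prod.fst hH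
      have a2 : pr ξ = 0 := congrArg Prod.snd hH
      subst a1
      rw [Prod.norm_mk, norm_zero, max_eq_right (norm_nonneg _)]
      exact (h2 u hu ξ a2).trans (mul_le_mul_of_nonneg_right
        (w_mono (le_max_right _ _) (by linarith) (le_max_right _ _) u) (norm_nonneg _)))
    ((h1 u).1.trans (w_mono (le_max_left _ _) (by linarith) (le_max_left _ _) u))
    (fun x hx => ((h1 u).2 x hx).trans (mul_le_mul_of_nonneg_right
      (w_mono (le_max_left _ _) (by linarith) (le_max_left _ _) u) (norm_nonneg _)))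
    (rad_pos hc0 _ u) (rad_mul_le (by linarith) (by linarith) le_rfl le_rfl u)
  refine ⟨{ c := c
            A := 3 * A
            c_pos := hc0
            c_le := by rw [hc, div_le_one (by linarith)]; exact hKC
            closed := ?_
            lip := fun u hu u₁ hu₁ u₂ hu₂ d1 d2 => ?_
            surj := fun u hu p hp => ?_
            hol := fun γ l hγ hU han => ?_ }⟩
  · have : U = F ⁻¹' {0} := Set.ext fun u => h.zero u
    rw [this]
    exact isClosed_singleton.preimage h.tame.continuous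
  · have := (key u hu).2.1 u₁ u₂ d1.le d2.le
    rwa [(h.zero _).1 hu₁, (h.zero _).1 hu₂, Prod.mk_sub_mk (P u₁), sub_self, Prod.norm_mk (P u₁ - P u₂),
      norm_zero, max_eq_left (norm_nonneg _)] at this
  · have hr := rad_pos hc0 (3 * A) u
    have hlt : ‖p - pj pr u‖ / rad c (3 * A) u < rad c (3 * A) u := by
      rw [div_lt_iff₀ hr, ← sq]; exact hp
    obtain ⟨x, hx, hx'⟩ := (key u hu).2.2 (‖p - pj pr u‖ / rad c (3 * A) u) (p, 0) (by positivity)
      hlt.le (by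
        rw [(h.zero _).1 hu, Prod.mk_sub_mk, sub_self, Prod.norm_mk, norm_zero,
          max_eq_left (norm_nonneg _), mul_div_cancel₀ _ hr.ne', hP])
    exact ⟨x, (h.zero _).2 (congrArg Prod.snd hx'), hx.trans_lt hlt, congrArg Prod.fst hx'⟩
  · obtain ⟨e, he⟩ := (key _ hU.self_of_nhds).1
    have hcd : ContDiffAt ℂ 1 (fun u => (P u, F u)) (γ l) :=
      (P.contDiff.prodMk (contDiff_of_tame h.tame)).contDiffAt
    have hfd : HasFDerivAt (fun u => (P u, F u)) (e : ℂ × X →L[ℂ] (ℂ × X') × Y) (γ l) := by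
      rw [he]; exact P.hasFDerivAt.prodMk (h.tame.1 _).hasFDerivAt
    have hi := hcd.to_localInverse hfd one_ne_zero
    have hi2 : ∀ᶠ y in 𝓝 (P (γ l), F (γ l)),
        DifferentiableAt ℂ (hcd.localInverse hfd one_ne_zero) y :=
      (hi.eventually (by simp)).mono fun y hy => hy.differentiableAt one_ne_zero
    have ha : AnalyticAt ℂ (fun x => (P (γ x), F (γ x))) l :=
      (han.prod (analyticAt_const (v := (0 : Y)))).congr
        (hU.mono fun x hx => by simp only [(h.zero _).1 hx, hP])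
    have hb := an_comp (γ := fun x => (P (γ x), F (γ x))) hi2 ha
    exact hb.congr
      (hγ.eventually (hcd.hasStrictFDerivAt' hfd one_ne_zero).eventually_left_inverse)

theorem part2 {L : Type} [NormedAddCommGroup L] [NormedSpace ℂ L] [FiniteDimensional ℂ X]
    [FiniteDimensional ℂ X'] [FiniteDimensional ℂ Y] (B : Set (ℂ × L)) (U : Set (ℂ × (L × X)))
    (pr : X →L[ℂ] X') (F : ℂ × (L × X) → Y) (h : FAPS B U pr F) (hJ : JacP B pr F) :
    Newt B U pr F := by
  obtain ⟨K, hK, hloc⟩ := loc (Y := Y) pr h.dim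
  obtain ⟨C₁, A₁, hC₁, h1⟩ := tame2 h.tame
  obtain ⟨c₀, C₂, A₂, hc₀, h2⟩ := hJ
  set C := max C₁ C₂ with hC
  set A := max A₁ A₂ with hA
  have hC1 : 1 ≤ C := hC₁.trans (le_max_left _ _)
  set c := min c₀ (1 / (K * C ^ 3)) with hc
  have hKC : 1 ≤ K * C ^ 3 := one_le_mul_of_one_le_of_one_le hK (one_le_pow₀ hC1)
  have hc0 : 0 < c := lt_min hc₀ (by positivity)
  have hc1 : c ≤ 1 := (min_le_right _ _).trans (by rw [div_le_one (by linarith)]; exact hKC)
  refine ⟨c, 3 * A, hc0, fun u hu hF => ?_⟩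
  have hr := rad_pos hc0 (3 * A) u
  have hr1 : rad c (3 * A) u ≤ 1 := (rad_le hc0.le _ _).trans hc1
  have hr2 : rad c (3 * A) u ≤ rad c₀ A₂ u := by
    unfold rad
    have a1 := one_le_opn u
    have a2 : (1 + ‖u‖) ^ A₂ ≤ (1 + ‖u‖) ^ (3 * A) :=
      pow_le_pow_right₀ a1 ((le_max_right A₁ A₂).trans (by omega))
    have a3 : c ≤ c₀ := min_le_left _ _
    gcongr
  let I : X →L[ℂ] ℂ × (L × X) := (0 : X →L[ℂ] ℂ).prod (ContinuousLinearMap.inr ℂ L X)
  have hI : ∀ H, I H = (0, (0, H)) := fun _ => rfl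
  have hIn : ‖I‖ ≤ 1 := I.opNorm_le_bound zero_le_one fun H => by simp [hI]
  have hG : ∀ ξ, HasFDerivAt (fun ξ => F (u.1, (u.2.1, ξ)))
      ((fderiv ℂ F (u.1, (u.2.1, ξ))).comp I) ξ := fun ξ =>
    (h.tame.1 _).hasFDerivAt.comp ξ ((hasFDerivAt_const u.1 ξ).prodMk (hasFDerivAt_prodMk_right _ ξ))
  have hw := w_mono (le_max_left C₁ C₂) (by linarith) (le_max_left A₁ A₂) u
  have key := hloc (fun ξ => F (u.1, (u.2.1, ξ))) u.2.2 (C * (1 + ‖u‖) ^ A) (rad c (3 * A) u)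
    (fun ξ => (hG ξ).differentiableAt)
    (one_le_mul_of_one_le_of_one_le hC1 (one_le_pow₀ (one_le_opn u)))
    (fun H hH => by
      rw [(hG _).fderiv]
      exact (h2 u hu (hF.trans (le_trans (by nlinarith) hr2)) H hH).trans
        (mul_le_mul_of_nonneg_right
          (w_mono (le_max_right _ _) (by linarith) (le_max_right _ _) u) (norm_nonneg _)))
    (by
      rw [(hG _).fderiv]
      refine (ContinuousLinearMap.opNorm_comp_le _ _).trans ?_
      exact (mul_le_of_le_one_right (norm_nonneg _) hIn).trans ((h1 u).1.trans hw))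
    (fun x hx => by
      rw [(hG _).fderiv, (hG _).fderiv, ← ContinuousLinearMap.sub_comp]
      refine (ContinuousLinearMap.opNorm_comp_le _ _).trans ?_
      refine (mul_le_of_le_one_right (norm_nonneg _) hIn).trans ?_
      have e : ‖((u.1, (u.2.1, x)) : ℂ × (L × X)) - u‖ = ‖x - u.2.2‖ := by
        have : ((u.1, (u.2.1, x)) : ℂ × (L × X)) - u = (0, (0, x - u.2.2)) := by
          ext <;> simp
        rw [this]; simp
      have := (h1 u).2 (u.1, (u.2.1, x)) (by rwa [e])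
      rw [e] at this
      exact this.trans (mul_le_mul_of_nonneg_right hw (norm_nonneg _)))
    hr (rad_mul_le (by linarith) (by linarith) (min_le_right _ _) le_rfl u)
  obtain ⟨x, hx, hx'⟩ := key.2.2 (‖F u‖ / rad c (3 * A) u) (pr u.2.2, 0) (by positivity)
    (by rw [div_le_iff₀ hr, ← sq]; exact hF) (by
      rw [Prod.mk_sub_mk, sub_self, Prod.norm_mk, norm_zero, max_eq_right (norm_nonneg _),
        zero_sub, norm_neg, mul_div_cancel₀ _ hr.ne'])
  refine ⟨x, (h.zero _).2 ⟨hu, congrArg Prod.snd hx'⟩, congrArg Prod.fst hx', ?_⟩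
  rwa [le_div_iff₀ hr, mul_comm] at hx

end IFT

theorem IFT_of : S_IFT := by
  refine ⟨fun E _ _ _ E' _ _ _ U pr h => ?_, fun E _ _ _ E' _ _ _ L _ _ _ E'' _ _ _ B U pr F h hJ =>
    IFT.part2 B U pr F h hJ⟩
  obtain ⟨E'', _, _, _, F, hF⟩ := h
  exact IFT.part1 U pr F hF

end

end Pool.Agent.P.MP_daea48_ag
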