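import Pool.Agent.P.MP_daea48_ag.StK

/-! Package `Inst1`: the spread of a presentation and of the transition maps. -/

open Set Filter Topology Metric Polynomial
open scoped ComplexConjugate

namespace Pool.Agent.P.MP_daea48_ag

noncomputable section

open Classical

namespace Inst1

theorem cx1_mul (a b : ℝ[X]) : cx1 (a * b) = cx1 a * cx1 b := Polynomial.map_mul _

/-- The filter of `evF`. -/
def fl {K : Type} [Field K] [Algebra ℝ K] (F : FF K) : Filter (ℂ × ℂ) where
  sets := {s | F.evF fun c => c ∈ s}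
  univ_sets := ⟨1, one_ne_zero, fun _ _ _ => trivial⟩
  sets_of_superset := fun ⟨δ, h0, h⟩ hs => ⟨δ, h0, fun c h1 h2 => hs (h c h1 h2)⟩
  inter_sets := fun ⟨δ, h0, h⟩ ⟨δ', h0', h'⟩ => ⟨δ * δ', mul_ne_zero h0 h0', fun c h1 h2 => by
    rw [cx1_mul, eval_mul] at h2
    exact ⟨h c h1 (left_ne_zero_of_mul h2), h' c h1 (right_ne_zero_of_mul h2)⟩⟩

theorem ev_fl {K : Type} [Field K] [Algebra ℝ K] {F : FF K} {p : ℂ × ℂ → Prop} :
    (∀ᶠ c in fl F, p c) ↔ F.evF p := Iff.rfl

/-- The filter of `evD`. -/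
def fd : Filter ℝ[X] where
  sets := {s | evD fun δ => δ ∈ s}
  univ_sets := ⟨1, one_ne_zero, fun _ _ _ => trivial⟩
  sets_of_superset := fun ⟨δ, h0, h⟩ hs => ⟨δ, h0, fun c h1 h2 => hs (h c h1 h2)⟩
  inter_sets := fun ⟨δ, h0, h⟩ ⟨δ', h0', h'⟩ => ⟨δ * δ', mul_ne_zero h0 h0', fun c h1 h2 =>
    ⟨h c h1 ((dvd_mul_right _ _).trans h2), h' c h1 ((dvd_mul_left _ _).trans h2)⟩⟩

theorem ev_fd {p : ℝ[X] → Prop} : (∀ᶠ δ in fd, p δ) ↔ evD p := Iff.rfl

theorem eval₂_bind {R S σ τ : Type} [CommRing R] [CommRing S] (j : R →+* S) (x : τ → S)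
    (φ : σ → MvPolynomial τ R) (G : MvPolynomial σ R) :
    (MvPolynomial.bind₁ φ G).eval₂ j x = G.eval₂ j (evs j x φ) :=
  MvPolynomial.eval₂Hom_bind₁ j x φ G

theorem eval_bind {σ τ : Type} (x : τ → ℂ) (φ : σ → MvPolynomial τ ℂ) (G : MvPolynomial σ ℂ) :
    MvPolynomial.eval x (MvPolynomial.bind₁ φ G) =
      MvPolynomial.eval (fun s => MvPolynomial.eval x (φ s)) G :=
  MvPolynomial.eval₂Hom_bind₁ (RingHom.id ℂ) x φ G

/-- Derivative of a polynomial along a line. -/
theorem hasDerivAt_line {σ : Type} [Fintype σ] (P : MvPolynomial σ ℂ) (x H : σ → ℂ) :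
    HasDerivAt (fun t : ℂ => MvPolynomial.eval (x + t • H) P)
      (∑ s, MvPolynomial.eval x (MvPolynomial.pderiv s P) * H s) 0 := by
  induction P using MvPolynomial.induction_on with
  | C a => simpa using hasDerivAt_const (0 : ℂ) a
  | add p q hp hq =>
    have h := hp.fun_add hq
    simp only [map_add, add_mul, Finset.sum_add_distrib]
    exact h
  | mul_X p s hp =>
    have h1 : HasDerivAt (fun t : ℂ => x s + t * H s) (H s) 0 := by
      simpa using ((hasDerivAt_id (0 : ℂ)).mul_const (H s)).const_add (x s)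
    have h2 := hp.fun_mul h1
    have e1 : (fun t : ℂ => MvPolynomial.eval (x + t • H) (p * MvPolynomial.X s)) =
        fun t : ℂ => MvPolynomial.eval (x + t • H) p * (x s + t * H s) := by
      funext t; simp
    rw [e1]
    refine h2.congr_deriv ?_
    simp only [Derivation.leibniz, smul_eq_mul, map_add, map_mul, MvPolynomial.eval_X, add_mul,
      Finset.sum_add_distrib, zero_smul, add_zero, zero_mul, Finset.sum_mul]
    rw [add_comm]
    congr 1
    · rw [Finset.sum_eq_single s]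
      · simp
      · intro b _ hb
        simp [MvPolynomial.pderiv_X_of_ne hb.symm]
      · simp
    · exact Finset.sum_congr rfl fun a _ => by ring

section calc1
variable {K : Type} [Field K] [Algebra ℝ K] {F : FF K}

theorem sp_zero {σ : Type} (c : ℂ × ℂ) : F.spP (0 : MvPolynomial σ K) c = 0 := by
  simp [FF.spP]

variable (hS : S_Spr)
include hS

theorem sp_add {σ : Type} (G H : MvPolynomial σ K) :
    ∀ᶠ c in fl F, F.spP (G + H) c = F.spP G c + F.spP H c :=
  (ev_fl.2 ((hS K F).2.2.2.2.2.2.2.2.2.1 σ G H)).mono fun _ h => h.1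

theorem sp_mul {σ : Type} (G H : MvPolynomial σ K) :
    ∀ᶠ c in fl F, F.spP (G * H) c = F.spP G c * F.spP H c :=
  (ev_fl.2 ((hS K F).2.2.2.2.2.2.2.2.2.1 σ G H)).mono fun _ h => h.2

theorem sp_X {σ : Type} (s : σ) :
    ∀ᶠ c in fl F, F.spP (MvPolynomial.X s : MvPolynomial σ K) c = MvPolynomial.X s :=
  (hS K F).2.2.2.2.2.2.2.2.2.2.2.1 σ s

theorem sp_pderiv {σ : Type} (s : σ) (G : MvPolynomial σ K) :
    ∀ᶠ c in fl F, F.spP (MvPolynomial.pderiv s G) c = MvPolynomial.pderiv s (F.spP G c) :=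
  (hS K F).2.2.2.2.2.2.2.2.2.2.2.2.1 σ s G

theorem sp_bind {σ τ : Type} (φ : σ → MvPolynomial τ K) (G : MvPolynomial σ K) :
    ∀ᶠ c in fl F, F.spP (MvPolynomial.bind₁ φ G) c =
      MvPolynomial.bind₁ (fun s => F.spP (φ s) c) (F.spP G c) :=
  (hS K F).2.2.2.2.2.2.2.2.2.2.2.2.2.1 σ τ φ G

theorem sp_one {σ : Type} : ∀ᶠ c in fl F, F.spP (1 : MvPolynomial σ K) c = 1 := by
  have h := ev_fl.2 ((hS K F).2.1 1 1 one_ne_zero)
  filter_upwards [h] with c hc
  have h1 := (hS K F).2.2.2.2.2.2.2.2.2.2.1 σ 1 c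
  have h2 : F.sp 1 c = 1 := by simpa [cx, cx1] using hc
  rw [h2] at h1
  simpa using h1

theorem sp_sub {σ : Type} (G H : MvPolynomial σ K) :
    ∀ᶠ c in fl F, F.spP (G - H) c = F.spP G c - F.spP H c := by
  filter_upwards [sp_add (F := F) hS (G - H) H] with c hc
  rw [sub_add_cancel] at hc
  rw [hc]; ring

theorem sp_sum {σ J : Type} (s : Finset J) (G : J → MvPolynomial σ K) :
    ∀ᶠ c in fl F, F.spP (∑ i ∈ s, G i) c = ∑ i ∈ s, F.spP (G i) c := by
  induction s using Finset.induction_on with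
  | empty => exact Eventually.of_forall fun c => by simp [sp_zero]
  | insert a s ha ih =>
    filter_upwards [ih, sp_add (F := F) hS (G a) (∑ i ∈ s, G i)] with c h1 h2
    rw [Finset.sum_insert ha, Finset.sum_insert ha, h2, h1]

theorem transfer {σ J : Type} [Finite σ] [Finite J] (E : J → MvPolynomial σ K)
    (G H : MvPolynomial σ K)
    (h : ∀ x : σ → AlgebraicClosure K, (∀ i, (E i).eval₂ (algebraMap K _) x = 0) →
      G.eval₂ (algebraMap K _) x = H.eval₂ (algebraMap K _) x) :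
    ∀ᶠ c in fl F, ∀ x : σ → ℂ, (∀ i, MvPolynomial.eval x (F.spP (E i) c) = 0) →
      MvPolynomial.eval x (F.spP G c) = MvPolynomial.eval x (F.spP H c) := by
  have h1 := ev_fl.2 ((hS K F).2.2.2.2.2.2.2.2.2.2.2.2.2.2.2.2.1 σ J E (G - H) fun x hx => by
    rw [MvPolynomial.eval₂_sub, h x hx, sub_self])
  filter_upwards [h1, sp_sub (F := F) hS G H] with c hc h2 x hx
  have := hc x hx
  rwa [h2, map_sub, sub_eq_zero] at this

theorem onCV {p : ℂ × ℂ → Prop} (h : ∀ᶠ c in fl F, p c) :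
    ∀ᶠ δ in fd, ∀ (z : ℂ) (w : ℂ × ℂ), (z, w) ∈ CV (cx F.Q) (cx1 δ) → p (z, w.1) :=
  (ev_fd.2 ((hS K F).2.2.2.2.2.2.1 p h)).mono fun _ h z w hu => h (z, w) hu

theorem tame_ext {σ J : Type} [Fintype σ] [Fintype J] (G : J → MvPolynomial σ K) :
    ∀ᶠ δ in fd, ∃ f : ℂ × ((ℂ × ℂ) × (σ → ℂ)) → J → ℂ, Tame f ∧
      ∀ u : ℂ × ((ℂ × ℂ) × (σ → ℂ)), (u.1, u.2.1) ∈ CV (cx F.Q) (cx1 δ) →
        ∀ i, f u i = MvPolynomial.eval u.2.2 (F.spP (G i) (u.1, u.2.1.1)) := by
  have h := eventually_all.2 fun i =>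
    ev_fd.2 ((hS K F).2.2.2.2.2.2.2.2.2.2.2.2.2.2.2.2.2 σ (G i))
  filter_upwards [h] with δ hδ
  choose f hf hf' using hδ
  exact ⟨fun u i => f i u, Tame.pi hf, fun u hu i => hf' i u hu⟩

/-- The specialised inverse Jacobian identity. -/
theorem jac_id (V : Pres K) {A : V.σ → V.κ → MvPolynomial V.σ K}
    {B : V.σ → V.σ → V.κ → MvPolynomial V.σ K} {A' : V.σ → V.ι → MvPolynomial V.σ K}
    (h : ∀ s s', ∑ k, A s k * MvPolynomial.pderiv s' (V.F k) +
      ∑ a, (if V.fr a = s' then A' s a else 0) =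
        (if s = s' then 1 else 0) + ∑ k, B s s' k * V.F k) :
    ∀ᶠ c in fl F, ∀ s s', ∑ k, F.spP (A s k) c * MvPolynomial.pderiv s' (F.spP (V.F k) c) +
      ∑ a, (if V.fr a = s' then F.spP (A' s a) c else 0) =
        (if s = s' then 1 else 0) + ∑ k, F.spP (B s s' k) c * F.spP (V.F k) c := by
  refine eventually_all.2 fun s => eventually_all.2 fun s' => ?_
  filter_upwards [sp_add (F := F) hS (∑ k, A s k * MvPolynomial.pderiv s' (V.F k))
      (∑ a, (if V.fr a = s' then A' s a else 0)),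
    sp_add (F := F) hS (if s = s' then 1 else 0) (∑ k, B s s' k * V.F k),
    sp_sum (F := F) hS Finset.univ fun k => A s k * MvPolynomial.pderiv s' (V.F k),
    sp_sum (F := F) hS Finset.univ fun a => (if V.fr a = s' then A' s a else 0),
    sp_sum (F := F) hS Finset.univ fun k => B s s' k * V.F k,
    eventually_all.2 fun k => sp_mul (F := F) hS (A s k) (MvPolynomial.pderiv s' (V.F k)),
    eventually_all.2 fun k => sp_mul (F := F) hS (B s s' k) (V.F k),
    eventually_all.2 fun k => sp_pderiv (F := F) hS s' (V.F k),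
    sp_one (F := F) (σ := V.σ) hS] with c h1 h2 h3 h4 h5 h6 h7 h8 h9
  have e1 : ∀ a, F.spP (if V.fr a = s' then A' s a else 0) c =
      if V.fr a = s' then F.spP (A' s a) c else 0 := fun a => by
    split_ifs
    · rfl
    · exact sp_zero c
  have e2 : F.spP (if s = s' then (1 : MvPolynomial V.σ K) else 0) c =
      if s = s' then 1 else 0 := by
    split_ifs
    · exact h9
    · exact sp_zero c
  rw [h s s', h2, h3, h4, h5, e2] at h1
  simp only [h6, h7, h8, e1] at h1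
  exact h1.symm

end calc1

/-- The estimate behind the Jacobian bound. -/
theorem est {σ ι κ : Type} [Fintype σ] [Fintype ι] [Fintype κ] (fr : ι → σ) (a : σ → κ → ℂ)
    (b : σ → σ → κ → ℂ) (a' : σ → ι → ℂ) (d : σ → κ → ℂ) (v : κ → ℂ) (H : σ → ℂ) (M ε : ℝ)
    (h : ∀ s s', ∑ k, a s k * d s' k + ∑ i, (if fr i = s' then a' s i else 0) =
      (if s = s' then 1 else 0) + ∑ k, b s s' k * v k)
    (hH : ∀ i, H (fr i) = 0) (ha : ∀ s k, ‖a s k‖ ≤ M) (hb : ∀ s s' k, ‖b s s' k‖ ≤ M)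
    (hM : 0 ≤ M) (hv : ‖v‖ ≤ ε)
    (hε : (Fintype.card σ * Fintype.card κ : ℝ) * (M * ε) ≤ 1 / 2) :
    ‖H‖ ≤ 2 * Fintype.card κ * M * ‖fun k => ∑ s, d s k * H s‖ := by
  set D : κ → ℂ := fun k => ∑ s, d s k * H s with hD
  have hε0 : 0 ≤ ε := (norm_nonneg v).trans hv
  have key : ∀ s, H s = ∑ k, a s k * D k - ∑ s', ∑ k, b s s' k * v k * H s' := fun s => by
    have h1 : ∑ s', (∑ k, a s k * d s' k + ∑ i, (if fr i = s' then a' s i else 0)) * H s' =
        ∑ s', ((if s = s' then 1 else 0) + ∑ k, b s s' k * v k) * H s' :=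
      Finset.sum_congr rfl fun s' _ => by rw [h s s']
    have h2 : ∑ s', (∑ i, (if fr i = s' then a' s i else 0)) * H s' = 0 := by
      refine Finset.sum_eq_zero fun s' _ => ?_
      rw [Finset.sum_mul]
      refine Finset.sum_eq_zero fun i _ => ?_
      split_ifs with hi
      · rw [← hi, hH, mul_zero]
      · exact zero_mul _
    have h3 : ∑ s', (∑ k, a s k * d s' k) * H s' = ∑ k, a s k * D k := by
      simp only [hD, Finset.sum_mul, Finset.mul_sum, mul_assoc]
      exact Finset.sum_comm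
    simp only [add_mul, Finset.sum_add_distrib] at h1
    rw [h2, h3] at h1
    simp only [ite_mul, one_mul, zero_mul, Finset.sum_ite_eq, Finset.mem_univ, if_true,
      Finset.sum_mul] at h1
    linear_combination -h1
  have bd : ∀ s, ‖H s‖ ≤ Fintype.card κ * M * ‖D‖ + ‖H‖ / 2 := fun s => by
    rw [key s]
    refine (norm_sub_le _ _).trans (add_le_add ?_ ?_)
    · refine (norm_sum_le _ _).trans ?_
      refine (Finset.sum_le_card_nsmul _ _ (M * ‖D‖) fun k _ => ?_).trans ?_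
      · rw [norm_mul]
        exact mul_le_mul (ha s k) (norm_le_pi_norm D k) (norm_nonneg _) hM
      · simp [mul_assoc]
    · refine (norm_sum_le _ _).trans ?_
      refine (Finset.sum_le_card_nsmul _ _ (Fintype.card κ * (M * ε * ‖H‖)) fun s' _ => ?_).trans ?_
      · refine (norm_sum_le _ _).trans ?_
        refine (Finset.sum_le_card_nsmul _ _ (M * ε * ‖H‖) fun k _ => ?_).trans ?_
        · rw [norm_mul, norm_mul]
          exact mul_le_mul (mul_le_mul (hb s s' k) ((norm_le_pi_norm v k).trans hv)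
            (norm_nonneg _) hM) (norm_le_pi_norm H s') (norm_nonneg _) (mul_nonneg hM hε0)
        · simp
      · have := mul_le_mul_of_nonneg_right hε (norm_nonneg H)
        simp only [Finset.card_univ, nsmul_eq_mul]
        nlinarith
  have h0 : 0 ≤ Fintype.card κ * M * ‖D‖ + ‖H‖ / 2 := by positivity
  have := (pi_norm_le_iff_of_nonneg h0).2 bd
  linarith

/-- The fibre derivative of a map that is polynomial on the fibre. -/
theorem fderiv_fib {σ κ : Type} [Fintype σ] [Fintype κ]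
    {f : ℂ × ((ℂ × ℂ) × (σ → ℂ)) → κ → ℂ} (hf : Differentiable ℂ f)
    (u : ℂ × ((ℂ × ℂ) × (σ → ℂ))) (P : κ → MvPolynomial σ ℂ)
    (hP : ∀ x k, f (u.1, (u.2.1, x)) k = MvPolynomial.eval x (P k)) (H : σ → ℂ) :
    fderiv ℂ f u (0, (0, H)) =
      fun k => ∑ s, MvPolynomial.eval u.2.2 (MvPolynomial.pderiv s (P k)) * H s := by
  have h1 : HasDerivAt (fun t : ℂ => u + t • ((0, (0, H)) : ℂ × ((ℂ × ℂ) × (σ → ℂ))))
      (0, (0, H)) 0 := by
    simpa using ((hasDerivAt_id (0 : ℂ)).smul_const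
      ((0, (0, H)) : ℂ × ((ℂ × ℂ) × (σ → ℂ)))).const_add u
  have h2 : HasDerivAt (fun t : ℂ => f (u + t • ((0, (0, H)) : ℂ × ((ℂ × ℂ) × (σ → ℂ)))))
      (fderiv ℂ f u (0, (0, H))) 0 :=
    HasFDerivAt.comp_hasDerivAt_of_eq (0 : ℂ) (hf u).hasFDerivAt h1 (by simp)
  refine h2.unique (hasDerivAt_pi.2 fun k => ?_)
  have e : (fun t : ℂ => f (u + t • ((0, (0, H)) : ℂ × ((ℂ × ℂ) × (σ → ℂ)))) k) =
      fun t : ℂ => MvPolynomial.eval (u.2.2 + t • H) (P k) := by
    funext t
    rw [← hP]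
    congr 1
    ext <;> simp
  rw [e]
  exact hasDerivAt_line (P k) u.2.2 H

theorem part1 (hS : S_Spr) (hN : S_Norm) {K : Type} [Field K] [Algebra ℝ K] (F : FF K)
    (V : Pres K) : ∀ᶠ δ in fd, ∃ f, SprEq F V δ f := by
  obtain ⟨A, B, A', hAB⟩ := hN.2.1 K V
  filter_upwards [onCV hS (jac_id (F := F) hS V hAB), tame_ext (F := F) hS V.F,
    tame_ext (F := F) hS (fun p : V.σ × V.κ => A p.1 p.2),
    tame_ext (F := F) hS (fun p : V.σ × V.σ × V.κ => B p.1 p.2.1 p.2.2)] with δ hid hf ha hb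
  obtain ⟨f, tf, hf⟩ := hf
  obtain ⟨a, ta, ha⟩ := ha
  obtain ⟨b, tb, hb⟩ := hb
  obtain ⟨C, n, hC, hn⟩ := (ta.prodMk tb).bound
  set N : ℝ := Fintype.card V.σ * Fintype.card V.κ with hN'
  have hN0 : 0 ≤ N := by positivity
  have hc : 0 < 1 / (2 * (N + 1) * C) := by positivity
  have jp : ∀ u : ℂ × ((ℂ × ℂ) × (V.σ → ℂ)), (u.1, u.2.1) ∈ CV (cx F.Q) (cx1 δ) →
      ‖f u‖ ≤ rad (1 / (2 * (N + 1) * C)) n u → ∀ H : V.σ → ℂ, prV V H = 0 →
      ‖H‖ ≤ (2 * Fintype.card V.κ * C) * (1 + ‖u‖) ^ n * ‖fderiv ℂ f u (0, (0, H))‖ := by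
    intro u hu hfu H hH
    rw [fderiv_fib tf.1 u (fun k => F.spP (V.F k) (u.1, u.2.1.1))
      (fun x k => hf (u.1, (u.2.1, x)) hu k) H]
    have hp : 0 < (1 + ‖u‖) ^ n := pow_pos (opn_pos u) n
    have := est V.fr (fun s k => a u (s, k)) (fun s s' k => b u (s, s', k))
      (fun s i => MvPolynomial.eval u.2.2 (F.spP (A' s i) (u.1, u.2.1.1)))
      (fun s k => MvPolynomial.eval u.2.2 (MvPolynomial.pderiv s (F.spP (V.F k) (u.1, u.2.1.1))))
      (f u) H (C * (1 + ‖u‖) ^ n) _ (fun s s' => ?_) (fun i => congrFun hH i)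
      (fun s k => (norm_le_pi_norm (a u) _).trans ((norm_fst_le (a u, b u)).trans (hn u)))
      (fun s s' k => (norm_le_pi_norm (b u) _).trans ((norm_snd_le (a u, b u)).trans (hn u)))
      (by positivity) hfu ?_
    · simpa only [mul_assoc] using this
    · have h1 := congrArg (MvPolynomial.eval u.2.2) (hid u.1 u.2.1 hu s s')
      simp only [map_add, map_sum, map_mul, apply_ite (MvPolynomial.eval u.2.2), map_zero,
        map_one] at h1
      simp only [ha u hu, hb u hu, hf u hu]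
      exact h1
    · have e : C * (1 + ‖u‖) ^ n * rad (1 / (2 * (N + 1) * C)) n u = 1 / (2 * (N + 1)) := by
        unfold rad
        field_simp
      rw [e, ← hN', mul_one_div, div_le_div_iff₀ (by positivity) (by positivity)]
      linarith
  have hz : ∀ u, u ∈ F.US V δ ↔ (u.1, u.2.1) ∈ CV (cx F.Q) (cx1 δ) ∧ f u = 0 := fun u =>
    and_congr_right fun hu => by
      simp only [funext_iff, hf u hu, Pi.zero_apply]
  refine ⟨f, ⟨tf, hz, ?_, _, n, fun u hu H hH => jp u ((hz u).1 hu).1 ?_ H hH⟩,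
    ⟨_, _, n, hc, jp⟩, hf⟩
  · simp only [Module.finrank_fintype_fun_eq_card, V.card]
  · rw [((hz u).1 hu).2, norm_zero]
    exact (rad_pos hc _ _).le

section two
variable {K : Type} [Field K] [Algebra ℝ K] {F : FF K} {m : ℕ} {V : Fin (m + 1) → Pres K}
  (D : KU V) (i : Fin (m + 1)) (hS : S_Spr)
include hS

theorem sp_bind_eval {σ τ : Type} (φ : σ → MvPolynomial τ K) (G : MvPolynomial σ K) :
    ∀ᶠ c in fl F, ∀ x : τ → ℂ, MvPolynomial.eval x (F.spP (MvPolynomial.bind₁ φ G) c) =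
      MvPolynomial.eval (fun s => MvPolynomial.eval x (F.spP (φ s) c)) (F.spP G c) := by
  filter_upwards [sp_bind (F := F) hS φ G] with c hc x
  rw [hc, eval_bind]

theorem fw_sp : ∀ᶠ c in fl F, ∀ x : D.U.σ → ℂ,
    (∀ k, MvPolynomial.eval x (F.spP (D.U.F k) c) = 0) → ∀ y : (V i).σ → ℂ,
      (y = fun s => MvPolynomial.eval x (F.spP (D.φ i s) c)) →
      (∀ k, MvPolynomial.eval y (F.spP ((V i).F k) c) = 0) ∧
        MvPolynomial.eval y (F.spP (D.h i) c) ≠ 0 ∧
        ∀ s, MvPolynomial.eval y (F.spP (D.ψ i s) c) =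
          MvPolynomial.eval y (F.spP (D.h i) c) * x s := by
  have t1 := eventually_all.2 fun k => transfer (F := F) hS D.U.F
    (MvPolynomial.bind₁ (D.φ i) ((V i).F k)) 0 fun x hx => by
      rw [eval₂_bind, MvPolynomial.eval₂_zero]
      exact (D.fw i _ _ x hx).1 k
  have t2 := transfer (F := F) hS
    (fun o : Option D.U.κ => o.elim (MvPolynomial.bind₁ (D.φ i) (D.h i)) D.U.F) 1 0
    fun x hx => by
      have h1 := hx none
      simp only [Option.elim, eval₂_bind] at h1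
      exact absurd h1 (D.fw i _ _ x fun k => hx (some k)).2.1
  have t3 := eventually_all.2 fun s => transfer (F := F) hS D.U.F
    (MvPolynomial.bind₁ (D.φ i) (D.ψ i s))
    (MvPolynomial.bind₁ (D.φ i) (D.h i) * MvPolynomial.X s) fun x hx => by
      rw [MvPolynomial.eval₂_mul, eval₂_bind, eval₂_bind, MvPolynomial.eval₂_X]
      exact (D.fw i _ _ x hx).2.2 s
  filter_upwards [t1, t2, t3,
    eventually_all.2 fun k => sp_bind_eval (F := F) hS (D.φ i) ((V i).F k),
    sp_bind_eval (F := F) hS (D.φ i) (D.h i),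
    eventually_all.2 fun s => sp_bind_eval (F := F) hS (D.φ i) (D.ψ i s),
    eventually_all.2 fun s => sp_mul (F := F) hS (MvPolynomial.bind₁ (D.φ i) (D.h i))
      (MvPolynomial.X s),
    eventually_all.2 fun s : D.U.σ => sp_X (F := F) hS s,
    sp_one (F := F) (σ := D.U.σ) hS] with c h1 h2 h3 h4 h5 h6 h7 h8 h9 x hx y hy
  subst hy
  refine ⟨fun k => ?_, fun h0 => ?_, fun s => ?_⟩
  · rw [← h4, h1 k x hx, sp_zero, map_zero]
  · have := h2 x fun o => by
      cases o with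
      | none => exact (h5 x).trans h0
      | some k => exact hx k
    rw [h9, sp_zero] at this
    simp at this
  · rw [← h6, h3 s x hx, h7, map_mul, h5, h8, MvPolynomial.eval_X]

theorem bw_sp : ∀ᶠ c in fl F, ∀ y : (V i).σ → ℂ,
    (∀ k, MvPolynomial.eval y (F.spP ((V i).F k) c) = 0) →
      MvPolynomial.eval y (F.spP (D.h i) c) ≠ 0 → ∀ x : D.U.σ → ℂ,
      (x = fun s => (MvPolynomial.eval y (F.spP (D.h i) c))⁻¹ *
        MvPolynomial.eval y (F.spP (D.ψ i s) c)) →
      (∀ k, MvPolynomial.eval x (F.spP (D.U.F k) c) = 0) ∧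
        ∀ s, MvPolynomial.eval x (F.spP (D.φ i s) c) = y s := by
  set r : (V i).σ → MvPolynomial (Option (V i).σ) K := fun s => MvPolynomial.X (some s) with hr
  set χ : D.U.σ → MvPolynomial (Option (V i).σ) K :=
    fun s => MvPolynomial.X none * MvPolynomial.bind₁ r (D.ψ i s) with hχ
  set E : Option (V i).κ → MvPolynomial (Option (V i).σ) K := fun o =>
    o.elim (MvPolynomial.X none * MvPolynomial.bind₁ r (D.h i) - 1)
      fun k => MvPolynomial.bind₁ r ((V i).F k) with hE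
  have key : ∀ x : Option (V i).σ → AlgebraicClosure K,
      (∀ o, (E o).eval₂ (algebraMap K _) x = 0) →
      D.U.Pt (algebraMap K _) (evs (algebraMap K _) x χ) ∧
        evs (algebraMap K _) (evs (algebraMap K _) x χ) (D.φ i) = fun s => x (some s) := by
    intro x hx
    have er : evs (algebraMap K (AlgebraicClosure K)) x r = fun s => x (some s) := by
      funext s; simp [hr]
    have h1 := hx none
    simp only [hE, Option.elim, MvPolynomial.eval₂_sub, MvPolynomial.eval₂_mul, eval₂_bind, er,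
      MvPolynomial.eval₂_X, MvPolynomial.eval₂_one, sub_eq_zero] at h1
    have h2 : (V i).Pt (algebraMap K (AlgebraicClosure K)) fun s => x (some s) := fun k => by
      have := hx (some k)
      simpa only [hE, Option.elim, eval₂_bind, er] using this
    have h3 := right_ne_zero_of_mul_eq_one h1
    have e : evs (algebraMap K (AlgebraicClosure K)) x χ = fun s =>
        (D.ψ i s).eval₂ (algebraMap K _) (fun s => x (some s)) /
          (D.h i).eval₂ (algebraMap K _) fun s => x (some s) := by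
      funext s
      simp only [hχ, evs, MvPolynomial.eval₂_mul, eval₂_bind, MvPolynomial.eval₂_X]
      rw [eq_div_iff h3]
      change _ * MvPolynomial.eval₂ _ (evs _ x r) _ * _ = _
      rw [er, mul_right_comm, h1, one_mul]
    rw [e]
    exact D.bw i _ _ _ h2 h3
  have t1 := eventually_all.2 fun k => transfer (F := F) hS E
    (MvPolynomial.bind₁ χ (D.U.F k)) 0 fun x hx => by
      rw [eval₂_bind, MvPolynomial.eval₂_zero]
      exact (key x hx).1 k
  have t2 := eventually_all.2 fun s => transfer (F := F) hS E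
    (MvPolynomial.bind₁ χ (D.φ i s)) (MvPolynomial.X (some s)) fun x hx => by
      rw [eval₂_bind, MvPolynomial.eval₂_X]
      exact congrFun (key x hx).2 s
  filter_upwards [t1, t2,
    eventually_all.2 fun k => sp_bind_eval (F := F) hS χ (D.U.F k),
    eventually_all.2 fun s => sp_bind_eval (F := F) hS χ (D.φ i s),
    eventually_all.2 fun k => sp_bind_eval (F := F) hS r ((V i).F k),
    sp_bind_eval (F := F) hS r (D.h i),
    eventually_all.2 fun s => sp_bind_eval (F := F) hS r (D.ψ i s),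
    eventually_all.2 fun s => sp_mul (F := F) hS (MvPolynomial.X none)
      (MvPolynomial.bind₁ r (D.ψ i s)),
    sp_mul (F := F) hS (MvPolynomial.X none) (MvPolynomial.bind₁ r (D.h i)),
    sp_sub (F := F) hS (MvPolynomial.X none * MvPolynomial.bind₁ r (D.h i)) 1,
    eventually_all.2 fun o : Option (V i).σ => sp_X (F := F) hS o,
    sp_one (F := F) (σ := Option (V i).σ) hS]
    with c h1 h2 h3 h4 h5 h6 h7 h8 h9 h10 h11 h12 y hy h0 x hx
  set w : Option (V i).σ → ℂ := fun o => o.elim (MvPolynomial.eval y (F.spP (D.h i) c))⁻¹ y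
    with hw
  have er : (fun s => MvPolynomial.eval w (F.spP (r s) c)) = y := by
    funext s; simp [hr, h11, hw]
  have eχ : (fun s => MvPolynomial.eval w (F.spP (χ s) c)) = x := by
    funext s
    simp only [hχ, hx]
    rw [h8, map_mul, h11, h7, er, MvPolynomial.eval_X]
    rfl
  have hEw : ∀ o, MvPolynomial.eval w (F.spP (E o) c) = 0 := fun o => by
    cases o with
    | none =>
      simp only [hE, Option.elim]
      rw [h10, h9, map_sub, map_mul, h11, h6, er, h12, MvPolynomial.eval_X, map_one, sub_eq_zero]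
      exact inv_mul_cancel₀ h0
    | some k =>
      simp only [hE, Option.elim]
      rw [h5, er, hy]
  refine ⟨fun k => ?_, fun s => ?_⟩
  · rw [← eχ, ← h3, h1 k w hEw, sp_zero, map_zero]
  · rw [← eχ, ← h4, h2 s w hEw, h11, MvPolynomial.eval_X]
    rfl

theorem part2 : ∀ᶠ δ in fd, SprTr F D i δ := by
  filter_upwards [onCV hS (fw_sp (F := F) D i hS), onCV hS (bw_sp (F := F) D i hS),
    tame_ext (F := F) hS (D.φ i), tame_ext (F := F) hS (D.ψ i),
    tame_ext (F := F) hS fun _ : Unit => D.h i] with δ hfw hbw hφ hψ hh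
  obtain ⟨φ, tφ, hφ⟩ := hφ
  obtain ⟨ψ, tψ, hψ⟩ := hψ
  obtain ⟨h, th, hh⟩ := hh
  refine ⟨fun u => (u.2.1, φ u), fun v => (h v () • v.2.1, ψ v), fun v => h v (),
    ⟨Tame.snd'.fst.prodMk tφ, ((th.apply ()).smul Tame.snd'.fst).prodMk tψ, th.apply (),
      fun u hu => ?_, fun v hv h0 => ?_⟩, fun u hu => Prod.ext rfl (funext (hφ u hu.1))⟩
  · obtain ⟨h1, h2, h3⟩ := hfw u.1 u.2.1 hu.1 u.2.2 hu.2 (φ u) (funext (hφ u hu.1))
    have e := hh (u.1, (u.2.1, φ u)) hu.1 ()
    have h2' : h (u.1, (u.2.1, φ u)) () ≠ 0 := by rw [e]; exact h2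
    refine ⟨⟨hu.1, h1⟩, h2', Prod.ext ?_ (funext fun s => ?_)⟩
    · simp only [Prod.smul_fst, smul_smul, inv_mul_cancel₀ h2', one_smul]
    · simp only [Prod.smul_snd, Pi.smul_apply, smul_eq_mul]
      rw [hψ (u.1, (u.2.1, φ u)) hu.1 s, h3 s, ← e, inv_mul_cancel_left₀ h2']
  · have e := hh v hv.1 ()
    have e1 : (h v ())⁻¹ • ((h v () • v.2.1, ψ v) : (ℂ × ℂ) × (D.U.σ → ℂ)) =
        (v.2.1, (h v ())⁻¹ • ψ v) := by
      refine Prod.ext ?_ rfl
      simp only [Prod.smul_fst, smul_smul, inv_mul_cancel₀ h0, one_smul]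
    obtain ⟨h1, h2⟩ := hbw v.1 v.2.1 hv.1 v.2.2 hv.2 (by rw [← e]; exact h0)
      ((h v ())⁻¹ • ψ v) (funext fun s => by
        rw [Pi.smul_apply, smul_eq_mul, e, hψ v hv.1 s])
    simp only [e1]
    refine ⟨⟨hv.1, h1⟩, Prod.ext rfl (funext fun s => ?_)⟩
    exact (hφ (v.1, (v.2.1, (h v ())⁻¹ • ψ v)) hv.1 s).trans (h2 s)

end two

end Inst1

theorem Inst1_of (h1 : S_Spr) (h2 : S_Norm) : S_Inst1 := fun _ _ _ F =>
  ⟨fun V => Inst1.ev_fd.1 (Inst1.part1 h1 h2 F V),
    fun _ _ D i => Inst1.ev_fd.1 (Inst1.part2 D i h1)⟩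

end

end Pool.Agent.P.MP_daea48_ag
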