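import Pool.Agent.P.MP_daea48_ag.StK

/-! Package Inst2: nonempty fibres and the compactness of the chart system. -/

open Set Filter Topology Metric Polynomial
open scoped ComplexConjugate

namespace Pool.Agent.P.MP_daea48_ag

noncomputable section

open Classical

namespace Inst2

theorem cx1_mul (p q : ℝ[X]) : cx1 (p * q) = cx1 p * cx1 q := Polynomial.map_mul _

theorem evD_and {p q : ℝ[X] → Prop} (hp : evD p) (hq : evD q) : evD fun δ => p δ ∧ q δ := by
  obtain ⟨a, ha, h1⟩ := hp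
  obtain ⟨b, hb, h2⟩ := hq
  exact ⟨a * b, mul_ne_zero ha hb, fun δ h0 h =>
    ⟨h1 δ h0 ((dvd_mul_right a b).trans h), h2 δ h0 ((dvd_mul_left b a).trans h)⟩⟩

theorem evD_mono {p q : ℝ[X] → Prop} (hp : evD p) (h : ∀ δ, p δ → q δ) : evD q := by
  obtain ⟨a, ha, h1⟩ := hp
  exact ⟨a, ha, fun δ h0 hd => h δ (h1 δ h0 hd)⟩

variable {K : Type} [Field K] [Algebra ℝ K] {F : FF K}

theorem evF_and {p q : ℂ × ℂ → Prop} (hp : F.evF p) (hq : F.evF q) :
    F.evF fun c => p c ∧ q c := by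
  obtain ⟨a, ha, h1⟩ := hp
  obtain ⟨b, hb, h2⟩ := hq
  refine ⟨a * b, mul_ne_zero ha hb, fun c h0 h => ?_⟩
  rw [cx1_mul, eval_mul] at h
  exact ⟨h1 c h0 (left_ne_zero_of_mul h), h2 c h0 (right_ne_zero_of_mul h)⟩

theorem evF_mono {p q : ℂ × ℂ → Prop} (hp : F.evF p) (h : ∀ c, p c → q c) : F.evF q := by
  obtain ⟨a, ha, h1⟩ := hp
  exact ⟨a, ha, fun c h0 hd => h c (h1 c h0 hd)⟩

theorem evF_of {p : ℂ × ℂ → Prop} (h : ∀ c, p c) : F.evF p :=
  ⟨1, one_ne_zero, fun c _ _ => h c⟩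

theorem spP_zero {σ : Type} (c : ℂ × ℂ) : F.spP (0 : MvPolynomial σ K) c = 0 := by
  simp [FF.spP]

theorem const_spP {σ : Type} {G : MvPolynomial σ K} (h : MvPolynomial.constantCoeff G = 0)
    (c : ℂ × ℂ) : MvPolynomial.eval (0 : σ → ℂ) (F.spP G c) = 0 := by
  rw [MvPolynomial.eval_zero, FF.spP, map_sum]
  refine Finset.sum_eq_zero fun m hm => ?_
  rw [MvPolynomial.constantCoeff_monomial, if_neg]
  rintro rfl
  exact (MvPolynomial.mem_support_iff.1 hm) h

section calculus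
variable (hS : S_Spr) (F)
include hS

theorem spP_one {σ : Type} : F.evF fun c => F.spP (1 : MvPolynomial σ K) c = 1 := by
  obtain ⟨-, h2, -, -, -, -, -, -, -, -, h11, -⟩ := hS K F
  refine evF_mono (h2 1 1 one_ne_zero) fun c hc => ?_
  have h1 : F.sp 1 c = 1 := by simpa [cx, cx1] using hc
  rw [← MvPolynomial.C_1, h11, h1, MvPolynomial.C_1]

theorem spP_add {σ : Type} (G H : MvPolynomial σ K) :
    F.evF fun c => F.spP (G + H) c = F.spP G c + F.spP H c := by
  obtain ⟨-, -, -, -, -, -, -, -, -, h10, -⟩ := hS K F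
  exact evF_mono (h10 σ G H) fun c hc => hc.1

theorem spP_mul {σ : Type} (G H : MvPolynomial σ K) :
    F.evF fun c => F.spP (G * H) c = F.spP G c * F.spP H c := by
  obtain ⟨-, -, -, -, -, -, -, -, -, h10, -⟩ := hS K F
  exact evF_mono (h10 σ G H) fun c hc => hc.2

theorem spP_sub_one {σ : Type} (G : MvPolynomial σ K) :
    F.evF fun c => F.spP (G - 1) c = F.spP G c - 1 := by
  refine evF_mono (evF_and (spP_add F hS (G - 1) 1) (spP_one F hS (σ := σ))) fun c hc => ?_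
  have h := hc.1
  rw [sub_add_cancel, hc.2] at h
  rw [h, add_sub_cancel_right]

theorem spP_X {σ : Type} (s : σ) :
    F.evF fun c => F.spP (MvPolynomial.X s : MvPolynomial σ K) c = MvPolynomial.X s := by
  obtain ⟨-, -, -, -, -, -, -, -, -, -, -, h12, -⟩ := hS K F
  exact h12 σ s

theorem spP_X_pow {σ : Type} (s : σ) (n : ℕ) :
    F.evF fun c => F.spP (MvPolynomial.X s ^ n : MvPolynomial σ K) c = MvPolynomial.X s ^ n := by
  induction n with
  | zero => simpa using spP_one F hS (σ := σ)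
  | succ n ih =>
    refine evF_mono (evF_and (evF_and ih (spP_X F hS s))
      (spP_mul F hS (MvPolynomial.X s ^ n) (MvPolynomial.X s))) fun c hc => ?_
    rw [pow_succ, hc.2, hc.1.1, hc.1.2, pow_succ]

theorem spP_sum {σ ι : Type} (t : Finset ι) (G : ι → MvPolynomial σ K) :
    F.evF fun c => F.spP (∑ i ∈ t, G i) c = ∑ i ∈ t, F.spP (G i) c := by
  induction t using Finset.induction_on with
  | empty => exact evF_of fun c => by simp [spP_zero]
  | insert a t ha ih =>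
    refine evF_mono (evF_and ih (spP_add F hS (G a) (∑ i ∈ t, G i))) fun c hc => ?_
    rw [Finset.sum_insert ha, Finset.sum_insert ha, hc.2, hc.1]

theorem evF_all {J : Type} [Finite J] {p : J → ℂ × ℂ → Prop} (h : ∀ i, F.evF (p i)) :
    F.evF fun c => ∀ i, p i c := by
  obtain ⟨-, -, -, -, h5, -⟩ := hS K F
  exact h5 J p h

theorem spP_bind {σ τ : Type} (φ : σ → MvPolynomial τ K) (G : MvPolynomial σ K) :
    F.evF fun c => ∀ x : τ → ℂ, MvPolynomial.eval x (F.spP (MvPolynomial.bind₁ φ G) c) =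
      MvPolynomial.eval (fun s => MvPolynomial.eval x (F.spP (φ s) c)) (F.spP G c) := by
  obtain ⟨-, -, -, -, -, -, -, -, -, -, -, -, -, h14, -⟩ := hS K F
  refine evF_mono (h14 σ τ φ G) fun c hc x => ?_
  rw [hc]
  exact MvPolynomial.eval₂Hom_bind₁ _ _ _ _

theorem spP_rename {σ τ : Type} [Finite σ] (f : σ → τ) (G : MvPolynomial σ K) :
    F.evF fun c => ∀ x : τ → ℂ, MvPolynomial.eval x (F.spP (MvPolynomial.rename f G) c) =
      MvPolynomial.eval (x ∘ f) (F.spP G c) := by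
  refine evF_mono (evF_and (spP_bind F hS (fun s => MvPolynomial.X (f s)) G)
    (evF_all F hS fun s => spP_X F hS (f s))) fun c hc x => ?_
  have e : MvPolynomial.rename f G = MvPolynomial.bind₁ (fun s => MvPolynomial.X (f s)) G := by
    have : (MvPolynomial.rename f : MvPolynomial σ K →ₐ[K] MvPolynomial τ K) =
        MvPolynomial.bind₁ fun s => MvPolynomial.X (f s) := by
      ext s; simp
    rw [this]
  rw [e, hc.1]
  simp only [hc.2, MvPolynomial.eval_X]
  rfl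

theorem transfer {σ J : Type} [Finite σ] [Finite J] (E : J → MvPolynomial σ K)
    (G : MvPolynomial σ K)
    (h : ∀ x : σ → AlgebraicClosure K, (∀ i, (E i).eval₂ (algebraMap K _) x = 0) →
      G.eval₂ (algebraMap K _) x = 0) :
    F.evF fun c => ∀ x : σ → ℂ, (∀ i, MvPolynomial.eval x (F.spP (E i) c) = 0) →
      MvPolynomial.eval x (F.spP G c) = 0 := by
  obtain ⟨-, -, -, -, -, -, -, -, -, -, -, -, -, -, -, -, h17, -⟩ := hS K F
  exact h17 σ J E G h

theorem toD {p : ℂ × ℂ → Prop} (h : F.evF p) :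
    evD fun δ => ∀ u ∈ CV (cx F.Q) (cx1 δ), p (u.1, u.2.1) := by
  obtain ⟨-, -, -, -, -, -, h7, -⟩ := hS K F
  exact h7 p h

end calculus

/-- A monic polynomial in one variable. -/
def monU {d : ℕ} (c : Fin d → K) : MvPolynomial Unit K :=
  MvPolynomial.X () ^ d + ∑ k : Fin d, MvPolynomial.C (c k) * MvPolynomial.X () ^ (k : ℕ)

theorem mon_root {d : ℕ} (hd : 0 < d) (c : Fin d → ℂ) : ∃ θ, (mon c).eval θ = 0 := by
  have hlt : (∑ k : Fin d, C (c k) * X ^ (k : ℕ) : ℂ[X]).degree < (X ^ d : ℂ[X]).degree := by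
    rw [degree_X_pow]
    exact degree_sum_fin_lt c
  have hdeg : (mon c).degree = d := by
    rw [mon, degree_add_eq_left_of_degree_lt hlt, degree_X_pow]
  refine Complex.exists_root ?_
  rw [hdeg]
  exact_mod_cast hd

variable (F)

theorem spP_monU (hS : S_Spr) {d : ℕ} (c : Fin d → K) :
    F.evF fun c₀ => ∀ θ : ℂ, MvPolynomial.eval (fun _ => θ) (F.spP (monU c) c₀) =
      (mon fun k => F.sp (c k) c₀).eval θ := by
  have h11 : ∀ (a : K) (c₀ : ℂ × ℂ), F.spP (MvPolynomial.C a : MvPolynomial Unit K) c₀ =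
      MvPolynomial.C (F.sp a c₀) := by
    obtain ⟨-, -, -, -, -, -, -, -, -, -, h11, -⟩ := hS K F
    exact h11 Unit
  refine evF_mono (evF_and (evF_and (evF_and
    (spP_add F hS (MvPolynomial.X () ^ d)
      (∑ k : Fin d, MvPolynomial.C (c k) * MvPolynomial.X () ^ (k : ℕ)))
    (spP_sum F hS Finset.univ fun k : Fin d =>
      MvPolynomial.C (c k) * MvPolynomial.X () ^ (k : ℕ)))
    (spP_X_pow F hS () d))
    (evF_all F hS fun k : Fin d => evF_and
      (spP_mul F hS (MvPolynomial.C (c k)) (MvPolynomial.X () ^ (k : ℕ)))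
      (spP_X_pow F hS () (k : ℕ)))) fun c₀ hc θ => ?_
  obtain ⟨⟨⟨h1, h2⟩, h3⟩, h4⟩ := hc
  rw [monU, h1, h2, h3]
  simp only [fun k => (h4 k).1, fun k => (h4 k).2, h11]
  simp [mon, eval_finsetSum]

theorem ne_fib (hS : S_Spr) {m : ℕ} {V : Fin (m + 1) → Pres K} (D : KU V) :
    F.evF fun c₀ => ∃ x : D.U.σ → ℂ, ∀ k, MvPolynomial.eval x (F.spP (D.U.F k) c₀) = 0 := by
  obtain ⟨d, c, Cf, hd, h⟩ := D.ne
  have ht : ∀ k, F.evF fun c₀ => ∀ x : Unit → ℂ,
      (∀ _ : Unit, MvPolynomial.eval x (F.spP (monU c) c₀) = 0) →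
      MvPolynomial.eval x (F.spP (MvPolynomial.bind₁ Cf (D.U.F k)) c₀) = 0 := by
    intro k
    refine transfer F hS (fun _ : Unit => monU c) _ fun x hx => ?_
    have hx0 : x = fun _ => x () := rfl
    have h1 : (mon (algebraMap K (AlgebraicClosure K) ∘ c)).eval (x ()) = 0 := by
      have := hx ()
      simpa [monU, mon, eval_finsetSum, MvPolynomial.eval₂_sum] using this
    have h2 := h _ _ _ h1 k
    rw [hx0]
    exact (MvPolynomial.eval₂Hom_bind₁ _ _ _ _).trans h2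
  refine evF_mono (evF_and (evF_and (evF_all F hS ht) (spP_monU F hS c))
    (evF_all F hS fun k => spP_bind F hS Cf (D.U.F k))) fun c₀ hc => ?_
  obtain ⟨⟨h1, h2⟩, h3⟩ := hc
  obtain ⟨θ, hθ⟩ := mon_root hd fun k => F.sp (c k) c₀
  refine ⟨fun s => MvPolynomial.eval (fun _ => θ) (F.spP (Cf s) c₀), fun k => ?_⟩
  rw [← h3 k]
  exact h1 k _ fun _ => (h2 θ).trans hθ

theorem cpt_fib (hS : S_Spr) {m : ℕ} {V : Fin (m + 1) → Pres K} (D : KU V) (l : ∀ i, (V i).σ) :
    ∃ G : MvPolynomial (Fin (m + 1)) K, MvPolynomial.constantCoeff G = 0 ∧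
      F.evF fun c₀ => ∀ (x : D.U.σ → ℂ) (u : Fin (m + 1) → ℂ),
        (∀ k, MvPolynomial.eval x (F.spP (D.U.F k) c₀) = 0) →
        (∀ i, u i * MvPolynomial.eval x (F.spP (D.φ i (l i)) c₀) = 1) →
        MvPolynomial.eval u (F.spP G c₀) = 1 := by
  obtain ⟨G, hG, h⟩ := D.cpt l
  refine ⟨G, hG, ?_⟩
  have ht := transfer F hS (σ := D.U.σ ⊕ Fin (m + 1)) (J := D.U.κ ⊕ Fin (m + 1))
    (Sum.elim (fun k => MvPolynomial.rename Sum.inl (D.U.F k))
      fun i => MvPolynomial.X (Sum.inr i) * MvPolynomial.rename Sum.inl (D.φ i (l i)) - 1)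
    (MvPolynomial.rename Sum.inr G - 1) (fun x hx => by
      have := h _ (algebraMap K (AlgebraicClosure K)) (x ∘ Sum.inl) (x ∘ Sum.inr)
        (fun k => by simpa [MvPolynomial.eval₂_rename] using hx (Sum.inl k))
        (fun i => by
          have := hx (Sum.inr i)
          simp only [Sum.elim_inr, MvPolynomial.eval₂_sub, MvPolynomial.eval₂_mul,
            MvPolynomial.eval₂_X, MvPolynomial.eval₂_rename, MvPolynomial.eval₂_one] at this
          exact sub_eq_zero.1 this)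
      rw [MvPolynomial.eval₂_sub, MvPolynomial.eval₂_rename, this, MvPolynomial.eval₂_one,
        sub_self])
  refine evF_mono (evF_and (evF_and (evF_and ht (evF_and
    (spP_sub_one F hS (MvPolynomial.rename (Sum.inr : _ → D.U.σ ⊕ Fin (m + 1)) G))
    (spP_rename F hS (Sum.inr : _ → D.U.σ ⊕ Fin (m + 1)) G)))
    (evF_all F hS fun k => spP_rename F hS (Sum.inl : _ → D.U.σ ⊕ Fin (m + 1)) (D.U.F k)))
    (evF_all F hS fun i => evF_and (evF_and
      (spP_sub_one F hS (MvPolynomial.X (Sum.inr i) *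
        MvPolynomial.rename (Sum.inl : _ → D.U.σ ⊕ Fin (m + 1)) (D.φ i (l i))))
      (spP_mul F hS (MvPolynomial.X (Sum.inr i))
        (MvPolynomial.rename (Sum.inl : _ → D.U.σ ⊕ Fin (m + 1)) (D.φ i (l i)))))
      (evF_and (spP_X F hS (Sum.inr i : D.U.σ ⊕ Fin (m + 1)))
        (spP_rename F hS (Sum.inl : _ → D.U.σ ⊕ Fin (m + 1)) (D.φ i (l i))))))
    fun c₀ hc x u hx hu => ?_
  obtain ⟨⟨⟨h1, h2, h3⟩, h4⟩, h5⟩ := hc
  have := h1 (Sum.elim x u) (by
    rintro (k | i)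
    · rw [Sum.elim_inl, h4 k]
      exact hx k
    · obtain ⟨⟨a1, a2⟩, a3, a4⟩ := h5 i
      rw [Sum.elim_inr, a1, a2, a3, map_sub, map_mul, a4, MvPolynomial.eval_X, map_one]
      exact sub_eq_zero.2 (hu i))
  rw [h2, map_sub, h3, map_one] at this
  exact sub_eq_zero.1 this

theorem roots_fin (b : ℂ) : {v | (cx F.Q).evalEval b v = 0}.Finite := by
  have hm : ((cx F.Q).map (evalRingHom b)).Monic := (F.monic.map _).map _
  refine (finite_setOfPred_isRoot hm.ne_zero).subset fun v hv => ?_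
  change ((cx F.Q).map (evalRingHom b)).eval v = 0
  rw [map_evalRingHom_eval]
  exact hv

end Inst2

open Inst2 in
theorem Inst2_of (hS : S_Spr) (h1 : S_Inst1) (_h : S_Itp) : S_Inst2 := by
  intro K _ _ F m V D
  choose G hG0 hG using cpt_fib F hS D
  have hT : evD fun δ => ∀ i, SprTr F D i δ := by
    obtain ⟨-, -, -, -, -, h6, -⟩ := hS K F
    exact h6 _ _ fun i => (h1 K F).2 m V D i
  refine evD_mono (evD_and (evD_and (toD F hS (ne_fib F hS D)) (toD F hS (evF_all F hS hG))) hT)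
    fun δ hδ => ?_
  obtain ⟨⟨a1, a2⟩, a3⟩ := hδ
  refine ⟨fun z c hc => ?_, fun hTC => ?_⟩
  · obtain ⟨x, hx⟩ := a1 (z, c) hc
    exact ⟨x, hc, hx⟩
  choose φ ψ h htr hφ using a3
  refine ⟨fun i =>
    { G := (ℂ × ℂ) × ((V i).σ → ℂ), G' := (V i).ι → ℂ, V := F.US (V i) δ
      pr := prB _ (prV (V i)), T := (hTC i).some, φ := φ i, ψ := ψ i, h := h i, tr := htr i },
    fun b => ?_⟩
  have hev : ∀ᶠ u in 𝓝 (0 : Fin (m + 1) → ℂ), ∀ l, ∀ v ∈ {v | (cx F.Q).evalEval b v = 0},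
      MvPolynomial.eval u (F.spP (G l) (b, v)) ≠ 1 := by
    refine eventually_all.2 fun l => (eventually_all_finite (roots_fin F b)).2 fun v _ => ?_
    refine (MvPolynomial.continuous_eval _).continuousAt.eventually_ne ?_
    rw [const_spP (hG0 l)]
    exact zero_ne_one
  obtain ⟨r, hr, hr'⟩ := Metric.eventually_nhds_iff.1 hev
  obtain ⟨R₀, hR₀⟩ := (roots_fin F b).isBounded.exists_norm_le
  refine ⟨max (max R₀ ‖((cx1 δ).eval b)⁻¹‖) r⁻¹, fun ξ hξ => ?_⟩
  have hξ' : (b, ξ) ∈ F.US D.U δ := hξ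
  by_contra hcon
  push Not at hcon
  have hl : ∀ i, ∃ s, r⁻¹ < ‖MvPolynomial.eval ξ.2 (F.spP (D.φ i s) (b, ξ.1.1))‖ := by
    intro i
    by_contra hn
    push Not at hn
    refine (hcon i).not_ge ?_
    change ‖φ i (b, ξ)‖ ≤ _
    rw [hφ i _ hξ', Prod.norm_def]
    refine max_le_max ?_ ((pi_norm_le_iff_of_nonneg (inv_pos.2 hr).le).2 hn)
    rw [Prod.norm_def]
    refine max_le_max (hR₀ _ hξ'.1.1) ?_
    rw [eq_inv_of_mul_eq_one_left hξ'.1.2]
  choose l hl using hl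
  refine hr' (y := fun i => (MvPolynomial.eval ξ.2 (F.spP (D.φ i (l i)) (b, ξ.1.1)))⁻¹) ?_ l
    ξ.1.1 hξ'.1.1 (a2 (b, ξ.1) hξ'.1 l ξ.2 _ hξ'.2 fun i => inv_mul_cancel₀ ?_)
  · rw [dist_zero_right, pi_norm_lt_iff hr]
    intro i
    rw [norm_inv]
    exact inv_lt_of_inv_lt₀ hr (hl i)
  · exact norm_pos_iff.1 ((inv_pos.2 hr).trans (hl i))

end

end Pool.Agent.P.MP_daea48_ag
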