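import Pool.Agent.P.MP_daea48_ag.Inst33

/-! Instantiation of `Two` from the algebraic data. -/

open Set Filter Topology Metric Polynomial

namespace Pool.Agent.P.MP_daea48_ag

noncomputable section

open Classical Inst3

theorem Inst3_of (h1 : S_Spr) (h2 : S_Inst1) (h3 : S_Itp) : S_Inst3 := by
  intro K _ _ F m V D B T hD
  obtain ⟨iv, hiv⟩ := t_inv h1 F D T.H hD
  have a1 := onCV h1 F (hiv.and ((t_X h1 F D.U.σ).and ((t_ne h1 F B.N_ne).and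
    ((t_ends h1 F B).and ((t_at h1 F B).and ((t_curve h1 F B).and ((t_ND h1 F B).and
    ((t_cover h1 F B).and (t_teeth h1 F T)))))))))
  have a2 := evD_and (ext h1 F fun x : Fin (B.e + 1) × (V 0).σ => B.n x.1 x.2)
    (evD_and (ext h1 F B.d) (evD_and (ext h1 F fun _ : Unit => B.N)
    (evD_and (ext h1 F fun _ : Unit => B.D) (evD_and (ext h1 F B.c) (evD_and (ext h1 F B.mk')
    (evD_and (ext h1 F fun _ : Unit => iv) (evD_and (ext h1 F T.c) (ext h1 F T.τ))))))))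
  have a3 : evD fun δ => Cov (cx F.Q) F.d (cx1 δ) ∧ F.δ₀ ∣ δ := (h1 K F).2.2.2.2.2.2.2.2.1
  refine evD_mono (evD_and a1 (evD_and a2 (evD_and a3 ((h2 K F).2 m V D 0)))) ?_
  rintro δ ⟨hc, ⟨⟨fn, tn, en⟩, ⟨fd, td, ed⟩, ⟨fN, tN, eN⟩, ⟨fD, tD, eD⟩, ⟨fc, tc, ec⟩,
    ⟨fm, tm, em⟩, ⟨fi, ti, ei⟩, ⟨f1, t1, e1⟩, ⟨fτ, tτ, eτ⟩⟩, ⟨hcov, -⟩, φ, ψ, h, tr, hφ⟩ ⟨T₀⟩ ⟨TP⟩
  have hφ' : ∀ z c x, (z, c, x) ∈ F.US D.U δ → φ (z, c, x) = (c, Es F (z, c.1) (D.φ 0) x) :=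
    fun z c x hx => hφ _ hx
  -- the argument of the functions of two points
  let arg : ℂ × ((ℂ × ℂ) × ((V 0).σ → ℂ)) × ((ℂ × ℂ) × ((V 0).σ → ℂ)) →
      ℂ × ((ℂ × ℂ) × ((V 0).σ ⊕ (V 0).σ → ℂ)) := fun x => (x.1, x.2.1.1, Sum.elim x.2.1.2 x.2.2.2)
  have targ : Tame arg := Tame.fst'.prodMk (Tame.snd'.fst.fst.prodMk
    (tame_elim Tame.snd'.fst.snd Tame.snd'.snd.snd))
  have hDne : ∀ z c x y, (z, c, x) ∈ F.US (V 0) δ → (z, c, y) ∈ F.US (V 0) δ →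
      fN (z, c, Sum.elim (((x ∘ (V 0).fr) ∘ D.eι) ∘ D.eι.symm)
        (((y ∘ (V 0).fr) ∘ D.eι) ∘ D.eι.symm)) () ≠ 0 →
      E F (z, c.1) B.D (Sum.elim x y) ≠ 0 := by
    intro z c x y hx hy hN
    refine (hc z c hx.1).2.2.2.2.2.2.1 x y hx.2 hy.2 ?_
    rw [eN _ _ _ hx.1] at hN
    simpa only [Function.comp_assoc, Equiv.self_comp_symm, Function.comp_id, Es] using hN
  refine ⟨{
    U₀ := F.US (V 0) δ
    pr₀ := (cmp D.eι).comp (prB _ (prV (V 0)))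
    lab₀ := labB _ _
    T₀ := trTC T₀ (rx D.eι) _ fun _ => rfl
    φ := φ
    ψ := ψ
    h := h
    tr := tr
    pr_φ := ?_
    lab_φ := ?_
    fin₀ := ?_
    M := F.US B.M δ
    prP := ((cmp fun a => B.eP (Sum.inl (D.eι a))).prod
      (cmp fun a => B.eP (Sum.inr (D.eι a)))).comp (prB _ (prV B.M))
    TP := trTC TP ((rx ((D.eι.sumCongr D.eι).trans B.eP)).trans (spl _ _)) _ fun _ => rfl
    e₁ := cmpL B.j₁
    e₂ := cmpL B.j₂
    ends := ?_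
    e := B.e
    n := fun k p => (fd p k • p.2.1, fun s => fn p (k, s))
    d := fun k p => fd p k
    tn := fun k => ((td.apply k).smul Tame.snd'.fst).prodMk (Tame.pi fun s => tn.apply (k, s))
    td := fun k => td.apply k
    at0 := ?_
    atI := ?_
    curve := ?_
    Nf := fun x => fN (x.1, x.2.1, Sum.elim (x.2.2.1 ∘ D.eι.symm) (x.2.2.2 ∘ D.eι.symm)) ()
    dNf := ((tN.comp (Tame.fst'.prodMk (Tame.snd'.fst.prodMk (tame_elim
      (tame_cmp Tame.snd'.snd.fst _) (tame_cmp Tame.snd'.snd.snd _))))).apply ()).1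
    Nf_ne := ?_
    dd := B.dd
    dd_pos := B.dd_pos
    Pi := fun x => mon (fc (arg x))
    mk' := fun x => (x.1.2.1.1, fm (x.1.1, x.1.2.1.1,
      Sum.elim (arg x.1).2.2 fun b => cond b (fD (arg x.1) ())⁻¹ x.2))
    Pi_cont := fun k => (tame_coeff (tc.comp targ) k).continuous
    mk_cont := ?_
    cover := ?_
    d₁ := T.d₁
    d₁_pos := T.d₁_pos
    Pi₁ := fun u => mon (f1 (u.1, φ u))
    τ := fun x => (x.1.2.1, fτ (x.1.1, x.1.2.1,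
      Sum.elim (φ x.1).2 fun b => cond b (fi x.1 ()) x.2))
    dPi₁ := fun k => (tame_coeff (t1.comp (Tame.fst'.prodMk tr.tφ)) k).1
    dτ := (Tame.fst'.snd.fst.prodMk (tτ.comp (Tame.fst'.fst.prodMk (Tame.fst'.snd.fst.prodMk
      (tame_elim (tr.tφ.comp Tame.fst').snd
        (tame_cnd ((ti.comp Tame.fst').apply ()) Tame.snd')))))).1
    teeth := ?_ }⟩
  · rintro ⟨z, c, x⟩ hu
    rw [hφ' z c x hu]
    funext a
    change E F (z, c.1) (D.φ 0 ((V 0).fr (D.eι a))) x = x (D.U.fr a)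
    rw [D.φ_fr, (hc z c hu.1).2.1]
  · rintro ⟨z, c, x⟩ hu
    rw [hφ' z c x hu]
    rfl
  · intro z
    refine (fin_CV h3 hcov z).subset ?_
    rintro _ ⟨ξ, hξ, rfl⟩
    exact hξ.1
  · rintro ⟨z, c, p⟩ hp
    obtain ⟨b1, b2⟩ := (hc z c hp.1).2.2.2.1 p hp.2
    refine ⟨⟨hp.1, b1⟩, ⟨hp.1, b2⟩, Prod.ext (funext fun a => ?_) (funext fun a => ?_), rfl⟩
    · change p (B.M.fr (B.eP (Sum.inl (D.eι a)))) = p (B.j₁ ((V 0).fr (D.eι a)))
      rw [B.fr₁]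
    · change p (B.M.fr (B.eP (Sum.inr (D.eι a)))) = p (B.j₂ ((V 0).fr (D.eι a)))
      rw [B.fr₂]
  · rintro ⟨z, c, p⟩ hp
    obtain ⟨⟨b1, b2⟩, -⟩ := (hc z c hp.1).2.2.2.2.1 p hp.2
    simp only [ed _ _ _ hp.1, en _ _ _ hp.1]
    exact ⟨b1, Prod.ext rfl (funext b2)⟩
  · rintro ⟨z, c, p⟩ hp
    obtain ⟨-, b1, b2⟩ := (hc z c hp.1).2.2.2.2.1 p hp.2
    simp only [ed _ _ _ hp.1, en _ _ _ hp.1]
    exact ⟨b1, Prod.ext rfl (funext b2)⟩
  · rintro ⟨z, c, p⟩ hp w hw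
    have hd : pw (fun k p => fd p k) (z, c, p) w = ∑ k, E F (z, c.1) (B.d k) p * w ^ (k : ℕ) := by
      simp only [pw, ed _ _ _ hp.1, smul_eq_mul, mul_comm]
      rfl
    have hn : (pw (fun k p => fd p k) (z, c, p) w)⁻¹ •
        pw (fun k p => (fd p k • p.2.1, fun s => fn p (k, s))) (z, c, p) w =
        (c, fun s => (∑ k, E F (z, c.1) (B.n k s) p * w ^ (k : ℕ)) /
          ∑ k, E F (z, c.1) (B.d k) p * w ^ (k : ℕ)) := by
      refine Prod.ext ?_ (funext fun s => ?_)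
      · simp only [pw, smul_eq_mul] at hw
        simp only [pw, Prod.smul_fst, Prod.fst_sum, smul_smul, ← Finset.sum_smul, smul_eq_mul,
          inv_mul_cancel₀ hw, one_smul]
      · rw [hd]
        simp only [pw, Prod.smul_snd, Prod.snd_sum, Pi.smul_apply, Finset.sum_apply, smul_eq_mul,
          en _ _ _ hp.1, div_eq_inv_mul, mul_comm, Es]
    rw [hn]
    rw [hd] at hw
    exact ⟨⟨hp.1, (hc z c hp.1).2.2.2.2.2.1 p w hp.2 hw⟩, rfl⟩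
  · rintro ⟨z, c, x⟩ hu
    obtain ⟨y, hy⟩ := (hc z c hu.1).2.2.1
    refine ⟨(y ∘ Sum.inl) ∘ D.eι, (y ∘ Sum.inr) ∘ D.eι, ?_⟩
    change fN (z, c, _) () ≠ 0
    rw [eN _ _ _ hu.1]
    simpa only [Function.comp_assoc, Equiv.self_comp_symm, Function.comp_id,
      Sum.elim_comp_inl_inr, Es] using hy
  · refine (by fun_prop : Continuous _).continuousOn.prodMk
      (tm.continuous.comp_continuousOn ((by fun_prop : Continuous _).continuousOn.prodMk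
      ((by fun_prop : Continuous _).continuousOn.prodMk (continuousOn_pi.2 fun s => ?_))))
    rcases s with s | _ | _
    · exact ((targ.comp Tame.fst').snd.snd.apply s).continuous.continuousOn
    · exact continuous_snd.continuousOn
    · refine ((tD.comp (targ.comp Tame.fst')).apply ()).continuous.continuousOn.inv₀ ?_
      rintro ⟨⟨z, ⟨c, x⟩, c', y⟩, θ⟩ ⟨⟨b1, b2, b3, b4⟩, -⟩
      obtain rfl : c' = c := b4
      change fD (z, c', Sum.elim x y) () ≠ 0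
      rw [eD _ _ _ b2.1]
      exact hDne z c' x y b2 b3 b1
  · rintro z ⟨c, x⟩ ⟨c', y⟩ b2 b3 b4 b1
    obtain rfl : c' = c := b4
    have hD0 := hDne z c' x y b2 b3 b1
    have H := fun θ => (hc z c' b2.1).2.2.2.2.2.2.2.1 x y _ θ b2.2 b3.2 (inv_mul_cancel₀ hD0)
    simp only [arg, ec _ _ _ b2.1, eD _ _ _ b2.1, em _ _ _ b2.1]
    refine ⟨mon_monic _, mon_deg _, sep_of fun θ hθ => (H θ hθ).1, fun θ hθ => ?_⟩
    obtain ⟨-, d1, d2, d3⟩ := H θ hθ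
    exact ⟨⟨b2.1, d1⟩, Prod.ext rfl d2, Prod.ext rfl d3⟩
  · rintro ⟨z, c, x⟩ hu
    have hV := (tr.fw _ hu).1
    rw [hφ' z c x hu] at hV
    have H := fun w => (hc z c hu.1).2.2.2.2.2.2.2.2 _ _ w hV.2 ((hc z c hu.1).1 x hu.2)
    simp only [hφ' z c x hu, e1 _ _ _ hu.1, ei _ _ _ hu.1, eτ _ _ _ hu.1]
    refine ⟨mon_monic _, mon_deg _, sep_of fun θ hθ => ((H θ).2 hθ).1, (H 0).1, fun θ hθ => ?_⟩
    obtain ⟨-, d1, d2⟩ := (H θ).2 hθ
    exact ⟨⟨hu.1, d1⟩, Prod.ext rfl d2⟩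

end

end Pool.Agent.P.MP_daea48_ag
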