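import Pool.Agent.P.MP_daea48_ag.StK

/-! Transfer of field implications to the spread, through ultrapowers of `ℂ`. -/

open Set Filter Topology Metric Polynomial

namespace Pool.Agent.P.MP_daea48_ag

noncomputable section

open Classical

namespace Inst3

variable {K : Type} [Field K] [Algebra ℝ K]

/-- The filter of `evF`. -/
def flt (F : FF K) : Filter (ℂ × ℂ) where
  sets := {S | F.evF fun c => c ∈ S}
  univ_sets := ⟨1, one_ne_zero, fun _ _ _ => trivial⟩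
  sets_of_superset := by
    rintro S T ⟨δ, h0, h⟩ hST
    exact ⟨δ, h0, fun c h1 h2 => hST (h c h1 h2)⟩
  inter_sets := by
    rintro S T ⟨δ, h0, h⟩ ⟨δ', h0', h'⟩
    refine ⟨δ * δ', mul_ne_zero h0 h0', fun c h1 h2 => ?_⟩
    simp only [cx1, Polynomial.map_mul, eval_mul, ne_eq, mul_eq_zero, not_or] at h2
    exact ⟨h c h1 h2.1, h' c h1 h2.2⟩

theorem evF_iff (F : FF K) (p : ℂ × ℂ → Prop) : F.evF p ↔ ∀ᶠ c in flt F, p c := Iff.rfl

/-- Value of a specialised polynomial. -/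
def E (F : FF K) (c : ℂ × ℂ) {σ : Type} (G : MvPolynomial σ K) (x : σ → ℂ) : ℂ :=
  MvPolynomial.eval x (F.spP G c)

/-- Values of a family. -/
def Es (F : FF K) (c : ℂ × ℂ) {σ τ : Type} (G : τ → MvPolynomial σ K) (x : σ → ℂ) : τ → ℂ :=
  fun t => E F c (G t) x

/-- Complex points of a fibre. -/
def PtC (F : FF K) (c : ℂ × ℂ) (V : Pres K) (x : V.σ → ℂ) : Prop := ∀ k, E F c (V.F k) x = 0

/-- An ultrapower of `ℂ` with the embedding of `K`. -/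
structure UP (F : FF K) (𝒰 : Ultrafilter (ℂ × ℂ)) (Λ : Type) [Field Λ] where
  π : (ℂ × ℂ → ℂ) →+* Λ
  j : K →+* Λ
  eq_iff : ∀ f g, π f = π g ↔ ∀ᶠ c in (𝒰 : Filter (ℂ × ℂ)), f c = g c
  div : ∀ f g, π (fun c => f c / g c) = π f / π g
  jπ : ∀ a, j a = π (F.sp a)

theorem exists_UP (hS : S_Spr) (F : FF K) (𝒰 : Ultrafilter (ℂ × ℂ))
    (h : (𝒰 : Filter (ℂ × ℂ)) ≤ flt F) : Nonempty (UP F 𝒰 (Filter.Germ (𝒰 : Filter (ℂ × ℂ)) ℂ)) := by
  obtain ⟨h1, h2, -⟩ := hS K F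
  have e : ∀ f g : ℂ × ℂ → ℂ, Filter.Germ.coeRingHom (𝒰 : Filter (ℂ × ℂ)) f = Filter.Germ.coeRingHom _ g ↔
      ∀ᶠ c in (𝒰 : Filter (ℂ × ℂ)), f c = g c := fun f g => Filter.Germ.coe_eq
  let j₀ : K →* Filter.Germ (𝒰 : Filter (ℂ × ℂ)) ℂ :=
    { toFun := fun a => Filter.Germ.coeRingHom _ (F.sp a)
      map_one' := by
        rw [← map_one (Filter.Germ.coeRingHom (R := ℂ) (𝒰 : Filter (ℂ × ℂ))), e]
        have := h ((evF_iff F _).1 (h2 1 1 one_ne_zero))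
        filter_upwards [this] with c hc
        simpa [cx, cx1] using hc
      map_mul' := fun a b => by
        rw [← map_mul, e]
        filter_upwards [h ((evF_iff F _).1 (h1 a b))] with c hc using hc.2 }
  refine ⟨⟨Filter.Germ.coeRingHom _, RingHom.mk' j₀ fun a b => ?_, e, fun f g => rfl, fun a => rfl⟩⟩
  change Filter.Germ.coeRingHom _ (F.sp (a + b)) = Filter.Germ.coeRingHom _ (F.sp a) + Filter.Germ.coeRingHom _ (F.sp b)
  rw [← map_add, e]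
  filter_upwards [h ((evF_iff F _).1 (h1 a b))] with c hc using hc.1

theorem transfer (hS : S_Spr) (F : FF K) {X : Type} [Nonempty X] (P : ℂ × ℂ → X → Prop)
    (h : ∀ (𝒰 : Ultrafilter (ℂ × ℂ)) (Λ : Type) [Field Λ] (_ : UP F 𝒰 Λ) (x : ℂ × ℂ → X),
      ∀ᶠ c in (𝒰 : Filter (ℂ × ℂ)), P c (x c)) : ∀ᶠ c in flt F, ∀ x, P c x := by
  refine mem_iff_ultrafilter.2 fun 𝒰 h𝒰 => ?_
  obtain ⟨W⟩ := exists_UP hS F 𝒰 h𝒰
  have := h 𝒰 _ W fun c => Classical.epsilon fun x => ¬ P c x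
  change ∀ᶠ c in (𝒰 : Filter (ℂ × ℂ)), ∀ x, P c x
  filter_upwards [this] with c hc x
  by_contra hx
  exact Classical.epsilon_spec (p := fun x => ¬ P c x) ⟨x, hx⟩ hc

namespace UP
variable {F : FF K} {𝒰 : Ultrafilter (ℂ × ℂ)} {Λ : Type} [Field Λ] (W : UP F 𝒰 Λ)

/-- Germ of a vector. -/
def gm {σ : Type} (x : ℂ × ℂ → σ → ℂ) : σ → Λ := fun s => W.π fun c => x c s

theorem zero_iff (f : ℂ × ℂ → ℂ) : W.π f = 0 ↔ ∀ᶠ c in (𝒰 : Filter (ℂ × ℂ)), f c = 0 := by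
  rw [← map_zero W.π, W.eq_iff]; rfl

theorem one_iff (f : ℂ × ℂ → ℂ) : W.π f = 1 ↔ ∀ᶠ c in (𝒰 : Filter (ℂ × ℂ)), f c = 1 := by
  rw [← map_one W.π, W.eq_iff]; rfl

theorem ne_iff (f : ℂ × ℂ → ℂ) : W.π f ≠ 0 ↔ ∀ᶠ c in (𝒰 : Filter (ℂ × ℂ)), f c ≠ 0 := by
  rw [Ne, zero_iff, ← Ultrafilter.eventually_not]

theorem mul (f g : ℂ × ℂ → ℂ) : W.π f * W.π g = W.π fun c => f c * g c := (map_mul _ _ _).symm

theorem gm_iff {σ : Type} [Finite σ] (x y : ℂ × ℂ → σ → ℂ) :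
    W.gm x = W.gm y ↔ ∀ᶠ c in (𝒰 : Filter (ℂ × ℂ)), x c = y c := by
  simp only [funext_iff, eventually_all, gm, W.eq_iff]

theorem ev {σ : Type} (x : ℂ × ℂ → σ → ℂ) (G : MvPolynomial σ K) :
    G.eval₂ W.j (W.gm x) = W.π fun c => E F c G (x c) := by
  have : (fun c => E F c G (x c)) =
      ∑ m ∈ G.support, F.sp (G.coeff m) * ∏ s ∈ m.support, (fun c => x c s) ^ m s := by
    funext c
    simp [E, FF.spP, MvPolynomial.eval_monomial, Finsupp.prod, Finset.sum_apply]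
  rw [this, MvPolynomial.eval₂_eq]
  simp only [map_sum, map_mul, map_prod, map_pow, W.jπ, gm]

theorem evs {σ τ : Type} (x : ℂ × ℂ → σ → ℂ) (G : τ → MvPolynomial σ K) :
    evs W.j (W.gm x) G = W.gm fun c => Es F c G (x c) := funext fun _ => W.ev x _

theorem pt (V : Pres K) (x : ℂ × ℂ → V.σ → ℂ) :
    V.Pt W.j (W.gm x) ↔ ∀ᶠ c in (𝒰 : Filter (ℂ × ℂ)), PtC F c V (x c) := by
  simp only [Pres.Pt, PtC, W.ev, W.zero_iff, eventually_all]

theorem comp {σ τ : Type} (x : ℂ × ℂ → σ → ℂ) (f : τ → σ) :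
    W.gm x ∘ f = W.gm fun c => x c ∘ f := rfl

theorem elim {σ τ : Type} (x : ℂ × ℂ → σ → ℂ) (y : ℂ × ℂ → τ → ℂ) :
    Sum.elim (W.gm x) (W.gm y) = W.gm fun c => Sum.elim (x c) (y c) := by
  funext s; cases s <;> rfl

theorem cnd (u w : ℂ × ℂ → ℂ) :
    (fun b => cond b (W.π u) (W.π w)) = W.gm fun c b => cond b (u c) (w c) := by
  funext b; cases b <;> rfl

theorem mon_eval {d : ℕ} (a : ℂ × ℂ → Fin d → ℂ) (w : ℂ × ℂ → ℂ) :
    (mon (W.gm a)).eval (W.π w) = W.π fun c => (mon (a c)).eval (w c) := by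
  have : (fun c => (mon (a c)).eval (w c)) = w ^ d + ∑ k : Fin d, (fun c => a c k) * w ^ (k : ℕ) := by
    funext c
    simp [mon, eval_finsetSum, Finset.sum_apply]
  rw [this]
  simp [mon, eval_finsetSum, gm]

theorem mon_eval0 {d : ℕ} (a : ℂ × ℂ → Fin d → ℂ) :
    (mon (W.gm a)).eval 0 = W.π fun c => (mon (a c)).eval 0 := by
  rw [← map_zero W.π]; exact W.mon_eval a 0

theorem mon_der {d : ℕ} (a : ℂ × ℂ → Fin d → ℂ) (w : ℂ × ℂ → ℂ) :
    (derivative (mon (W.gm a))).eval (W.π w) = W.π fun c => (derivative (mon (a c))).eval (w c) := by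
  have : (fun c => (derivative (mon (a c))).eval (w c)) = (d : ℂ × ℂ → ℂ) * w ^ (d - 1) +
      ∑ k : Fin d, (fun c => a c k) * (((k : ℕ) : ℂ × ℂ → ℂ) * w ^ ((k : ℕ) - 1)) := by
    funext c
    simp [mon, eval_finsetSum, Finset.sum_apply, derivative_X_pow]
  rw [this]
  simp [mon, eval_finsetSum, gm, derivative_X_pow]

theorem sum {e : ℕ} (a : Fin e → ℂ × ℂ → ℂ) (w : ℂ × ℂ → ℂ) :
    ∑ k, W.π (a k) * W.π w ^ (k : ℕ) = W.π fun c => ∑ k, a k c * w c ^ (k : ℕ) := by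
  have : (fun c => ∑ k, a k c * w c ^ (k : ℕ)) = ∑ k : Fin e, a k * w ^ (k : ℕ) := by
    funext c
    simp [Finset.sum_apply]
  rw [this]
  simp

end UP

end Inst3

end

end Pool.Agent.P.MP_daea48_ag
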