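import Pool.Agent.P.MP_daea48_ag.Inst31

/-! The transferred properties of the algebraic data. -/

open Set Filter Topology Metric Polynomial

namespace Pool.Agent.P.MP_daea48_ag

noncomputable section

open Classical

namespace Inst3

variable {K : Type} [Field K] [Algebra ℝ K]

theorem t_inv (hS : S_Spr) (F : FF K) {m : ℕ} {V : Fin (m + 1) → Pres K} (D : KU V)
    (H : MvPolynomial (V 0).σ K) (h : D.Inv H) : ∃ u : MvPolynomial D.U.σ K, ∀ᶠ c in flt F,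
      ∀ x, PtC F c D.U x → E F c u x * E F c H (Es F c (D.φ 0) x) = 1 := by
  obtain ⟨u, hu⟩ := h
  refine ⟨u, transfer hS F _ fun 𝒰 Λ _ W x => ?_⟩
  rw [Ultrafilter.eventually_imp, ← W.pt, ← W.one_iff, ← W.mul, ← W.ev, ← W.ev, ← W.evs]
  exact hu Λ W.j _

theorem t_X (hS : S_Spr) (F : FF K) (σ : Type) [Finite σ] :
    ∀ᶠ c in flt F, ∀ (x : σ → ℂ) s, E F c (MvPolynomial.X s) x = x s := by
  refine transfer hS F _ fun 𝒰 Λ _ W x => eventually_all.2 fun s => ?_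
  rw [← W.eq_iff, ← W.ev, MvPolynomial.eval₂_X]
  rfl

theorem t_ne (hS : S_Spr) (F : FF K) {σ : Type} [Finite σ] {N : MvPolynomial σ K} (hN : N ≠ 0) :
    ∀ᶠ c in flt F, ∃ x, E F c N x ≠ 0 := by
  obtain ⟨m, hm⟩ := MvPolynomial.ne_zero_iff.1 hN
  have h : ∀ᶠ c in flt F, ∀ _ : Unit, F.sp (N.coeff m) c ≠ 0 := by
    refine transfer hS F _ fun 𝒰 Λ _ W _ => ?_
    rw [← W.ne_iff, ← W.jπ]
    exact (map_ne_zero W.j).2 hm
  filter_upwards [h] with c hc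
  by_contra! h0
  have h1 : F.spP N c = 0 := MvPolynomial.funext fun x => by simpa [E] using h0 x
  have h2 := congrArg (MvPolynomial.coeff m) h1
  rw [FF.spP, MvPolynomial.coeff_sum] at h2
  simp only [MvPolynomial.coeff_monomial, Finset.sum_ite_eq', MvPolynomial.mem_support_iff,
    MvPolynomial.coeff_zero] at h2
  rw [if_pos hm] at h2
  exact hc () h2

variable {V : Pres K}

theorem t_ends (hS : S_Spr) (F : FF K) (B : KM V) : ∀ᶠ c in flt F,
    ∀ p, PtC F c B.M p → PtC F c V (p ∘ B.j₁) ∧ PtC F c V (p ∘ B.j₂) := by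
  refine transfer hS F _ fun 𝒰 Λ _ W p => ?_
  rw [Ultrafilter.eventually_imp, eventually_and, ← W.pt, ← W.pt, ← W.pt]
  exact B.ends Λ W.j _

theorem t_at (hS : S_Spr) (F : FF K) (B : KM V) : ∀ᶠ c in flt F,
    ∀ p, PtC F c B.M p →
      (E F c (B.d 0) p ≠ 0 ∧ ∀ s, E F c (B.n 0 s) p = E F c (B.d 0) p * p (B.j₁ s)) ∧
      (E F c (B.d (Fin.last B.e)) p ≠ 0 ∧
        ∀ s, E F c (B.n (Fin.last B.e) s) p = E F c (B.d (Fin.last B.e)) p * p (B.j₂ s)) := by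
  refine transfer hS F _ fun 𝒰 Λ _ W p => ?_
  rw [Ultrafilter.eventually_imp, ← W.pt]
  intro hp
  obtain ⟨⟨h1, h2⟩, ⟨h3, h4⟩, -⟩ := B.curve Λ W.j _ hp
  simp only [W.ev] at h1 h2 h3 h4
  refine (((W.ne_iff _).1 h1).and (eventually_all.2 fun s => ?_)).and
    (((W.ne_iff _).1 h3).and (eventually_all.2 fun s => ?_))
  · rw [← W.eq_iff, h2, ← W.mul]; rfl
  · rw [← W.eq_iff, h4, ← W.mul]; rfl

theorem t_curve (hS : S_Spr) (F : FF K) (B : KM V) : ∀ᶠ c in flt F,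
    ∀ (p : B.M.σ → ℂ) (w : ℂ), PtC F c B.M p → ∑ k, E F c (B.d k) p * w ^ (k : ℕ) ≠ 0 →
      PtC F c V fun s => (∑ k, E F c (B.n k s) p * w ^ (k : ℕ)) /
        ∑ k, E F c (B.d k) p * w ^ (k : ℕ) := by
  have := transfer hS F (X := (B.M.σ → ℂ) × ℂ) (fun c x => PtC F c B.M x.1 →
      ∑ k, E F c (B.d k) x.1 * x.2 ^ (k : ℕ) ≠ 0 →
      PtC F c V fun s => (∑ k, E F c (B.n k s) x.1 * x.2 ^ (k : ℕ)) /
        ∑ k, E F c (B.d k) x.1 * x.2 ^ (k : ℕ)) fun 𝒰 Λ _ W x => by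
    rw [Ultrafilter.eventually_imp, Ultrafilter.eventually_imp, ← W.pt, ← W.pt, ← W.ne_iff]
    intro hp hw
    have h := (B.curve Λ W.j _ hp).2.2 (W.π fun c => (x c).2)
    simp only [W.ev, W.sum, ← W.div] at h
    exact h hw
  filter_upwards [this] with c hc p w using hc (p, w)

theorem t_ND (hS : S_Spr) (F : FF K) (B : KM V) : ∀ᶠ c in flt F,
    ∀ x y, PtC F c V x → PtC F c V y → E F c B.N (Sum.elim (x ∘ V.fr) (y ∘ V.fr)) ≠ 0 →
      E F c B.D (Sum.elim x y) ≠ 0 := by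
  have := transfer hS F (X := (V.σ → ℂ) × (V.σ → ℂ)) (fun c x => PtC F c V x.1 → PtC F c V x.2 →
      E F c B.N (Sum.elim (x.1 ∘ V.fr) (x.2 ∘ V.fr)) ≠ 0 → E F c B.D (Sum.elim x.1 x.2) ≠ 0)
      fun 𝒰 Λ _ W x => by
    rw [Ultrafilter.eventually_imp, Ultrafilter.eventually_imp, Ultrafilter.eventually_imp,
      ← W.pt, ← W.pt, ← W.ne_iff, ← W.ne_iff]
    intro h1 h2
    have h := B.ND Λ W.j _ _ h1 h2
    simpa only [W.comp, W.elim, W.ev] using h
  filter_upwards [this] with c hc x y using hc (x, y)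

theorem t_cover (hS : S_Spr) (F : FF K) (B : KM V) : ∀ᶠ c in flt F,
    ∀ x y (u θ : ℂ), PtC F c V x → PtC F c V y → u * E F c B.D (Sum.elim x y) = 1 →
      (mon (Es F c B.c (Sum.elim x y))).eval θ = 0 →
      (derivative (mon (Es F c B.c (Sum.elim x y)))).eval θ ≠ 0 ∧
      PtC F c B.M (Es F c B.mk' (Sum.elim (Sum.elim x y) fun b => cond b u θ)) ∧
      Es F c B.mk' (Sum.elim (Sum.elim x y) fun b => cond b u θ) ∘ B.j₁ = x ∧
      Es F c B.mk' (Sum.elim (Sum.elim x y) fun b => cond b u θ) ∘ B.j₂ = y := by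
  have := transfer hS F (X := (V.σ → ℂ) × (V.σ → ℂ) × ℂ × ℂ) (fun c x => PtC F c V x.1 →
      PtC F c V x.2.1 → x.2.2.1 * E F c B.D (Sum.elim x.1 x.2.1) = 1 →
      (mon (Es F c B.c (Sum.elim x.1 x.2.1))).eval x.2.2.2 = 0 →
      (derivative (mon (Es F c B.c (Sum.elim x.1 x.2.1)))).eval x.2.2.2 ≠ 0 ∧
      PtC F c B.M (Es F c B.mk' (Sum.elim (Sum.elim x.1 x.2.1) fun b => cond b x.2.2.1 x.2.2.2)) ∧
      Es F c B.mk' (Sum.elim (Sum.elim x.1 x.2.1) fun b => cond b x.2.2.1 x.2.2.2) ∘ B.j₁ = x.1 ∧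
      Es F c B.mk' (Sum.elim (Sum.elim x.1 x.2.1) fun b => cond b x.2.2.1 x.2.2.2) ∘ B.j₂ = x.2.1)
      fun 𝒰 Λ _ W x => by
    rw [Ultrafilter.eventually_imp, Ultrafilter.eventually_imp, Ultrafilter.eventually_imp,
      Ultrafilter.eventually_imp, eventually_and, eventually_and, eventually_and,
      ← W.pt, ← W.pt, ← W.pt, ← W.ne_iff, ← W.one_iff, ← W.zero_iff, ← W.gm_iff, ← W.gm_iff]
    intro h1 h2
    have h := B.cover Λ W.j _ _ (W.π fun c => (x c).2.2.1) (W.π fun c => (x c).2.2.2) h1 h2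
    simpa only [W.cnd, W.elim, W.ev, W.evs, W.comp, W.mul, W.mon_eval, W.mon_der] using h
  filter_upwards [this] with c hc x y u θ using hc (x, y, u, θ)

theorem t_teeth (hS : S_Spr) (F : FF K) {B : KM V} (T : KT B) : ∀ᶠ c in flt F,
    ∀ x (u w : ℂ), PtC F c V x → u * E F c T.H x = 1 →
      (mon (Es F c T.c x)).eval 0 ≠ 0 ∧ ((mon (Es F c T.c x)).eval w = 0 →
      (derivative (mon (Es F c T.c x))).eval w ≠ 0 ∧
      PtC F c B.M (Es F c T.τ (Sum.elim x fun b => cond b u w)) ∧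
      Es F c T.τ (Sum.elim x fun b => cond b u w) ∘ B.j₁ = x) := by
  have := transfer hS F (X := (V.σ → ℂ) × ℂ × ℂ) (fun c x => PtC F c V x.1 →
      x.2.1 * E F c T.H x.1 = 1 → (mon (Es F c T.c x.1)).eval 0 ≠ 0 ∧
      ((mon (Es F c T.c x.1)).eval x.2.2 = 0 →
      (derivative (mon (Es F c T.c x.1))).eval x.2.2 ≠ 0 ∧
      PtC F c B.M (Es F c T.τ (Sum.elim x.1 fun b => cond b x.2.1 x.2.2)) ∧
      Es F c T.τ (Sum.elim x.1 fun b => cond b x.2.1 x.2.2) ∘ B.j₁ = x.1))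
      fun 𝒰 Λ _ W x => by
    rw [Ultrafilter.eventually_imp, Ultrafilter.eventually_imp, eventually_and, ← W.ne_iff,
      ← W.one_iff, ← W.pt, Ultrafilter.eventually_imp, eventually_and, eventually_and,
      ← W.pt, ← W.ne_iff, ← W.zero_iff, ← W.gm_iff]
    intro h1 h2
    have h := T.teeth Λ W.j _ (W.π fun c => (x c).2.1) h1 (by simpa only [W.ev, W.mul] using h2)
    have h' := h.2 (W.π fun c => (x c).2.2)
    have h0 := h.1
    simp only [W.cnd, W.elim, W.evs, W.comp, W.mon_eval, W.mon_der, W.mon_eval0] at h0 h'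
    exact ⟨h0, h'⟩
  filter_upwards [this] with c hc x u w using hc (x, u, w)

end Inst3

end

end Pool.Agent.P.MP_daea48_ag
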