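import Pool.Agent.P.MP_daea48_ag.Inst32

/-! Analytic helpers for the instantiation of `Two`. -/

open Set Filter Topology Metric Polynomial

namespace Pool.Agent.P.MP_daea48_ag

noncomputable section

open Classical

namespace Inst3

/-- Transport of tempered charts along a linear isometry of the target. -/
def trTC {E E' E'' : Type} [NormedAddCommGroup E] [NormedSpace ℂ E] [NormedAddCommGroup E']
    [NormedSpace ℂ E'] [NormedAddCommGroup E''] [NormedSpace ℂ E''] {U : Set (ℂ × E)}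
    {pr : E →L[ℂ] E'} (T : TC U pr) (e : E' ≃ₗᵢ[ℂ] E'') (pr' : E →L[ℂ] E'')
    (h : ∀ x, pr' x = e (pr x)) : TC U pr' where
  c := T.c
  A := T.A
  c_pos := T.c_pos
  c_le := T.c_le
  closed := T.closed
  lip := fun u hu u₁ h1 u₂ h2 d1 d2 => by
    refine (T.lip u hu u₁ h1 u₂ h2 d1 d2).trans (le_of_eq ?_)
    simp only [pj, Prod.mk_sub_mk, Prod.norm_def, h, ← map_sub, e.norm_map]
  surj := fun u hu p hp => by
    obtain ⟨u₁, h1, h2, h3⟩ := T.surj u hu (p.1, e.symm p.2) (by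
      refine lt_of_eq_of_lt ?_ hp
      have : p.2 - e (pr u.2) = e (e.symm p.2 - pr u.2) := by simp
      simp only [pj, Prod.norm_def, Prod.fst_sub, Prod.snd_sub, h, this, e.norm_map])
    refine ⟨u₁, h1, h2, ?_⟩
    simp only [pj, Prod.mk.injEq] at h3
    exact Prod.ext h3.1 (by simp [pj, h, h3.2])
  hol := fun γ l h1 h2 h3 => by
    refine T.hol γ l h1 h2 ?_
    have := (((ContinuousLinearMap.id ℂ ℂ).prodMap
      (e.symm.toContinuousLinearEquiv : E'' →L[ℂ] E')).analyticAt _).comp h3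
    refine this.congr (Eventually.of_forall fun x => ?_)
    simp [pj, h]

/-- Reindexing. -/
def rx {a b : Type} [Fintype a] [Fintype b] (e : a ≃ b) : (b → ℂ) ≃ₗᵢ[ℂ] (a → ℂ) :=
  { LinearEquiv.funCongrLeft ℂ ℂ e with
    norm_map' := fun x => e.surjective.pi_norm_comp x }

theorem rx_apply {a b : Type} [Fintype a] [Fintype b] (e : a ≃ b) (x : b → ℂ) :
    rx e x = x ∘ e := rfl

/-- Splitting. -/
def spl (a b : Type) [Fintype a] [Fintype b] : (a ⊕ b → ℂ) ≃ₗᵢ[ℂ] (a → ℂ) × (b → ℂ) :=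
  { LinearEquiv.sumArrowLequivProdArrow a b ℂ ℂ with
    norm_map' := fun x => by
      change ‖(x ∘ Sum.inl, x ∘ Sum.inr)‖ = ‖x‖
      refine le_antisymm (max_le (pi_norm_comp_le x Sum.inl) (pi_norm_comp_le x Sum.inr)) ?_
      refine (pi_norm_le_iff_of_nonneg (norm_nonneg _)).2 fun s => ?_
      cases s with
      | inl s => exact (norm_le_pi_norm (x ∘ Sum.inl) s).trans (le_max_left _ _)
      | inr s => exact (norm_le_pi_norm (x ∘ Sum.inr) s).trans (le_max_right _ _) }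

theorem spl_apply {a b : Type} [Fintype a] [Fintype b] (x : a ⊕ b → ℂ) :
    spl a b x = (x ∘ Sum.inl, x ∘ Sum.inr) := rfl

/-- Composition with a map of indices. -/
def cmp {a b : Type} [Fintype a] [Fintype b] (f : a → b) : (b → ℂ) →L[ℂ] (a → ℂ) :=
  ContinuousLinearMap.pi fun s => ContinuousLinearMap.proj (f s)

/-- Composition with a map of indices, keeping the label. -/
def cmpL {a b : Type} [Fintype a] [Fintype b] (f : a → b) :
    (ℂ × ℂ) × (b → ℂ) →L[ℂ] (ℂ × ℂ) × (a → ℂ) := (ContinuousLinearMap.id ℂ _).prodMap (cmp f)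

theorem cmpL_apply {a b : Type} [Fintype a] [Fintype b] (f : a → b) (x : (ℂ × ℂ) × (b → ℂ)) :
    cmpL f x = (x.1, x.2 ∘ f) := rfl

theorem mon_monic {d : ℕ} (a : Fin d → ℂ) : (mon a).Monic :=
  monic_X_pow_add (degree_sum_fin_lt a)

theorem mon_deg {d : ℕ} (a : Fin d → ℂ) : (mon a).natDegree = d := by
  rw [mon, natDegree_add_eq_left_of_degree_lt, natDegree_X_pow]
  rw [degree_X_pow]
  exact degree_sum_fin_lt a

theorem sep_of {p : ℂ[X]} (h : ∀ θ, p.eval θ = 0 → (derivative p).eval θ ≠ 0) : p.Separable := by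
  refine (isCoprime_iff_aeval_ne_zero_of_isAlgClosed ℂ ℂ p _).2 fun θ => ?_
  by_cases h0 : p.eval θ = 0
  · exact Or.inr (by simpa using h θ h0)
  · exact Or.inl (by simpa using h0)

theorem tame_coeff {X : Type} [NormedAddCommGroup X] [NormedSpace ℂ X] {d : ℕ}
    {a : X → Fin d → ℂ} (ha : Tame a) (k : ℕ) : Tame fun x => (mon (a x)).coeff k := by
  simp only [mon, coeff_add, finsetSum_coeff, coeff_C_mul, coeff_X_pow]
  exact (Tame.const _).add (Tame.sum _ fun i _ => (ha.apply i).mul (Tame.const _))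

theorem tame_elim {X a b : Type} [NormedAddCommGroup X] [NormedSpace ℂ X] [Fintype a] [Fintype b]
    {f : X → a → ℂ} {g : X → b → ℂ} (hf : Tame f) (hg : Tame g) :
    Tame fun x => Sum.elim (f x) (g x) :=
  Tame.pi fun s => by
    cases s with
    | inl s => exact hf.apply s
    | inr s => exact hg.apply s

theorem tame_cmp {X a b : Type} [NormedAddCommGroup X] [NormedSpace ℂ X] [Fintype a] [Fintype b]
    {f : X → b → ℂ} (hf : Tame f) (g : a → b) : Tame fun x => f x ∘ g :=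
  Tame.pi fun s => hf.apply (g s)

theorem tame_cnd {X : Type} [NormedAddCommGroup X] [NormedSpace ℂ X]
    {f g : X → ℂ} (hf : Tame f) (hg : Tame g) : Tame fun x (b : Bool) => cond b (f x) (g x) :=
  Tame.pi fun s => by
    cases s
    · exact hg
    · exact hf

theorem fin_CV (h3 : S_Itp) {Q : ℂ[X][X]} {d : ℕ} {δ : ℂ[X]} (h : Cov Q d δ) (z : ℂ) :
    {c | (z, c) ∈ CV Q δ}.Finite := by
  refine (((h3 Q d δ h).2.2.2.1 z).prod (finite_singleton (δ.eval z)⁻¹)).subset ?_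
  rintro ⟨v, y⟩ ⟨h1, h2⟩
  exact ⟨h1, eq_inv_of_mul_eq_one_left h2⟩

variable {K : Type} [Field K] [Algebra ℝ K]

theorem evD_and {p q : ℝ[X] → Prop} (hp : evD p) (hq : evD q) : evD fun δ => p δ ∧ q δ := by
  obtain ⟨a, ha, h⟩ := hp
  obtain ⟨b, hb, h'⟩ := hq
  exact ⟨a * b, mul_ne_zero ha hb, fun δ h0 hd =>
    ⟨h δ h0 ((dvd_mul_right a b).trans hd), h' δ h0 ((dvd_mul_left b a).trans hd)⟩⟩

theorem evD_mono {p q : ℝ[X] → Prop} (hp : evD p) (h : ∀ δ, p δ → q δ) : evD q := by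
  obtain ⟨a, ha, h'⟩ := hp
  exact ⟨a, ha, fun δ h0 hd => h δ (h' δ h0 hd)⟩

/-- A tame extension of a family of specialised polynomials. -/
def Ext (F : FF K) (δ : ℝ[X]) {σ τ : Type} [Fintype σ] [Fintype τ] (G : τ → MvPolynomial σ K) :
    Prop := ∃ f : ℂ × ((ℂ × ℂ) × (σ → ℂ)) → τ → ℂ, Tame f ∧ ∀ z c x,
      (z, c) ∈ CV (cx F.Q) (cx1 δ) → f (z, c, x) = Es F (z, c.1) G x

theorem ext (hS : S_Spr) (F : FF K) {σ τ : Type} [Fintype σ] [Fintype τ]
    (G : τ → MvPolynomial σ K) : evD fun δ => Ext F δ G := by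
  obtain ⟨-, -, -, -, -, h6, -, -, -, -, -, -, -, -, -, -, -, h18⟩ := hS K F
  refine evD_mono (h6 τ _ fun t => h18 σ (G t)) fun δ h => ?_
  choose f hf hf' using h
  exact ⟨fun u t => f t u, Tame.pi hf, fun z c x hc => funext fun t => hf' t (z, c, x) hc⟩

theorem onCV (hS : S_Spr) (F : FF K) {p : ℂ × ℂ → Prop} (h : ∀ᶠ c in flt F, p c) :
    evD fun δ => ∀ z c, (z, c) ∈ CV (cx F.Q) (cx1 δ) → p (z, c.1) := by
  obtain ⟨-, -, -, -, -, -, h7, -⟩ := hS K F
  exact evD_mono (h7 p h) fun δ h z c hc => h (z, c) hc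

theorem mem_US (F : FF K) (V : Pres K) (δ : ℝ[X]) (z : ℂ) (c : ℂ × ℂ) (x : V.σ → ℂ) :
    (z, c, x) ∈ F.US V δ ↔ (z, c) ∈ CV (cx F.Q) (cx1 δ) ∧ PtC F (z, c.1) V x := Iff.rfl

end Inst3

end

end Pool.Agent.P.MP_daea48_ag
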