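import Pool.Agent.P.MP_daea48_ag.Itp1

/-! Interpolation at the roots. -/

open Set Filter Topology Metric Polynomial
open scoped ComplexConjugate

namespace Pool.Agent.P.MP_daea48_ag

noncomputable section

open Classical

namespace Itp

theorem tame_bd {X Y : Type} [NormedAddCommGroup X] [NormedSpace ℂ X] [NormedAddCommGroup Y]
    [NormedSpace ℂ Y] {g : X → Y} (hg : Tame g) {C₀ : ℝ} (h0 : 0 ≤ C₀) (A₀ : ℕ) :
    ∃ (C : ℝ) (A : ℕ), 1 ≤ C ∧ ∀ t : ℝ, 1 ≤ t → ∀ x, ‖x‖ ≤ C₀ * t ^ A₀ → ‖g x‖ ≤ C * t ^ A := by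
  obtain ⟨C, A, hC, h⟩ := hg.bound
  refine ⟨C * (1 + C₀) ^ A, A₀ * A, one_le_mul_of_one_le_of_one_le hC (one_le_pow₀ (by linarith)),
    fun t ht x hx => (h x).trans ?_⟩
  have h1 : 1 ≤ t ^ A₀ := one_le_pow₀ ht
  rw [mul_assoc, pow_mul, ← mul_pow]
  gcongr
  nlinarith

variable {Q : ℂ[X][X]} {d : ℕ} {δ : ℂ[X]}

theorem root_bd (h : Cov Q d δ) :
    ∃ (C : ℝ) (A : ℕ), 1 ≤ C ∧ ∀ z v, Q.evalEval z v = 0 → ‖v‖ ≤ C * (1 + ‖z‖) ^ A := by
  have t : Tame fun (z : ℂ) (i : Fin d) => (Q.coeff i).eval z :=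
    Tame.pi fun i => Tame.id'.polyEval _
  obtain ⟨C, A, hC, hb⟩ := t.bound
  refine ⟨C + 1, A, by linarith, fun z v hv => ?_⟩
  have h1 := IsRoot.norm_lt_cauchyBound (monic h z).ne_zero ((root_iff z v).2 hv)
  have h2 : cauchyBound (pz Q z) ≤ ‖fun i : Fin d => (Q.coeff i).eval z‖₊ + 1 := by
    rw [cauchyBound, (monic h z).leadingCoeff, nnnorm_one, div_one, deg h]
    gcongr
    refine Finset.sup_le fun i hi => ?_
    simpa using nnnorm_le_pi_nnnorm (fun i : Fin d => (Q.coeff i).eval z) ⟨i, Finset.mem_range.1 hi⟩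
  have h3 : ‖v‖ ≤ ‖fun i : Fin d => (Q.coeff i).eval z‖ + 1 := by exact_mod_cast (h1.le.trans h2)
  have h4 : 1 ≤ (1 + ‖z‖) ^ A := one_le_pow₀ (one_le_opn z)
  have := hb z
  nlinarith

theorem norm_z_le {C : ℝ} {A : ℕ} (hC : 1 ≤ C) {t s : ℝ} (ht : 1 ≤ t) (hs : s ≤ t) :
    s ≤ C * t ^ (A + 1) := by
  have h4 : 1 ≤ t ^ A := one_le_pow₀ ht
  have : 1 ≤ C * t ^ A := one_le_mul_of_one_le_of_one_le hC h4
  rw [pow_succ, ← mul_assoc]
  nlinarith

theorem norm_v_le {C : ℝ} {A : ℕ} (hC : 1 ≤ C) {t s r : ℝ} (hr : 1 ≤ r) (ht : r ≤ t)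
    (hs : s ≤ C * r ^ A) : s ≤ C * t ^ (A + 1) := by
  refine hs.trans ?_
  have : r ^ A ≤ t ^ (A + 1) :=
    (pow_le_pow_left₀ (by linarith) ht A).trans (pow_le_pow_right₀ (hr.trans ht) (Nat.le_succ A))
  gcongr

theorem root_sep (h : Cov Q d δ) : ∃ (c : ℝ) (A : ℕ), 0 < c ∧ ∀ z v v', Q.evalEval z v = 0 →
    Q.evalEval z v' = 0 → v ≠ v' → rad c A z * ‖δ.eval z‖ ≤ ‖v - v'‖ := by
  obtain ⟨C₀, A₀, h0, hb⟩ := root_bd h
  obtain ⟨b, hbz⟩ := bez h
  have t : Tame fun x : ℂ × ℂ × ℂ => b.evalEval x.1 x.2.1 *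
      ∑ l : Fin d, qc Q d (x.1, x.2.2) l * ((l : ℕ) * x.2.1 ^ ((l : ℕ) - 1)) :=
    (Tame.fst'.evalEval Tame.snd'.fst b).mul (Tame.sum _ fun l _ =>
      (((tame_qc Q d).comp (Tame.fst'.prodMk Tame.snd'.snd)).apply l).mul
        ((Tame.const _).mul (Tame.snd'.fst.pow _)))
  obtain ⟨C, A, hC, hg⟩ := tame_bd t (by linarith : 0 ≤ C₀) (A₀ + 1)
  refine ⟨C⁻¹, A, by positivity, fun z v v' hv hv' hne => ?_⟩
  have h1 := hg (1 + ‖z‖) (one_le_opn z) (z, v, v') (max_le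
    (norm_z_le h0 (one_le_opn z) (by simp)) (max_le
      (norm_v_le h0 (one_le_opn z) le_rfl (hb z v hv))
      (norm_v_le h0 (one_le_opn z) le_rfl (hb z v' hv'))))
  have h2 : δ.eval z = (v - v') * (b.evalEval z v *
      ∑ l : Fin d, qc Q d (z, v') l * ((l : ℕ) * v ^ ((l : ℕ) - 1))) := by
    rw [← hbz z v hv, der_eq, der_ne ((root_iff z v').2 hv') ((root_iff z v).2 hv) hne,
      quot_eq h hv']
    simp only [derivative_sum, derivative_C_mul, derivative_X_pow, eval_finsetSum, eval_mul, eval_C,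
      eval_pow, eval_X]
    ring
  have h3 : 0 < C * (1 + ‖z‖) ^ A := by have := opn_pos z; positivity
  rw [h2, norm_mul, rad, div_eq_mul_inv, ← mul_inv, inv_mul_le_iff₀ h3, mul_comm]
  exact mul_le_mul_of_nonneg_right h1 (norm_nonneg _)

theorem near_root (h : Cov Q d δ) (z w : ℂ) (hd : 0 < d) :
    ∃ v, Q.evalEval z v = 0 ∧ ‖w - v‖ ^ d ≤ ‖Q.evalEval z w‖ := by
  have hc : (pz Q z).roots.card = d := by rw [IsAlgClosed.card_roots_eq_natDegree, deg h]
  have hne : (pz Q z).roots.toFinset.Nonempty := by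
    rw [Multiset.toFinset_nonempty, ← Multiset.card_pos, hc]; exact hd
  obtain ⟨v, hv, hmin⟩ := Finset.exists_min_image _ (fun v => ‖w - v‖₊) hne
  refine ⟨v, (mem_iff h z v).1 hv, ?_⟩
  have h1 := Multiset.pow_card_le_prod (s := (pz Q z).roots.map fun v => ‖w - v‖₊) (a := ‖w - v‖₊)
    (fun x hx => by
      obtain ⟨u, hu, rfl⟩ := Multiset.mem_map.1 hx
      exact hmin u (Multiset.mem_toFinset.2 hu))
  rw [Multiset.card_map, hc] at h1
  rw [← map_evalRingHom_eval, (IsAlgClosed.splits (pz Q z)).eval_eq_prod_roots_of_monic (monic h z)]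
  have h2 : ‖((pz Q z).roots.map fun v => w - v).prod‖₊ =
      ((pz Q z).roots.map fun v => ‖w - v‖₊).prod := by
    rw [← nnnormHom_apply, map_multiset_prod, Multiset.map_map]; rfl
  exact_mod_cast h1.trans h2.ge

theorem itp_bd (h : Cov Q d δ) {E : Type} [NormedAddCommGroup E] [NormedSpace ℂ E] :
    ∃ (C : ℝ) (A : ℕ), 1 ≤ C ∧ ∀ (z y : ℂ) (val : ℂ → E) (M : ℝ), 0 ≤ M → y * δ.eval z = 1 →
      (∀ v, Q.evalEval z v = 0 → ‖val v‖ ≤ M) →
      ‖itp Q d z val‖ ≤ C * (1 + ‖z‖ + ‖y‖) ^ A * M := by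
  obtain ⟨C₀, A₀, h0, hb⟩ := root_bd h
  obtain ⟨b, hbz⟩ := bez h
  have t : Tame fun x : ℂ × ℂ × ℂ => (b.evalEval x.1 x.2.1 * x.2.2) • qc Q d (x.1, x.2.1) :=
    ((Tame.fst'.evalEval Tame.snd'.fst b).mul Tame.snd'.snd).smul
      ((tame_qc Q d).comp (Tame.fst'.prodMk Tame.snd'.fst))
  obtain ⟨C, A, hC, hg⟩ := tame_bd t (by linarith : 0 ≤ C₀) (A₀ + 1)
  refine ⟨(d + 1) * C, A, one_le_mul_of_one_le_of_one_le (by simp) hC,
    fun z y val M hM hy hval => ?_⟩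
  have hz := norm_nonneg z
  have hy' := norm_nonneg y
  have ht : 1 ≤ 1 + ‖z‖ + ‖y‖ := by linarith
  refine (pi_norm_le_iff_of_nonneg (by positivity)).2 fun l => ?_
  rw [itp_eq h]
  refine (norm_sum_le _ _).trans ((Finset.sum_le_card_nsmul _ _
    (C * (1 + ‖z‖ + ‖y‖) ^ A * M) fun v hv => ?_).trans ?_)
  · have hv' := (mem_iff h z v).1 hv
    have h1 := hg _ ht (z, v, y) (max_le (norm_z_le h0 ht (by simp only; linarith)) (max_le
      (norm_v_le h0 (one_le_opn z) (by linarith) (hb z v hv'))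
      (norm_z_le h0 ht (by simp only; linarith))))
    have h2 : ((derivative Q).evalEval z v)⁻¹ = b.evalEval z v * y :=
      inv_eq_of_mul_eq_one_left (by rw [mul_right_comm, hbz z v hv', mul_comm, hy])
    rw [norm_smul, div_eq_inv_mul, h2]
    exact mul_le_mul ((norm_le_pi_norm ((b.evalEval z v * y) • qc Q d (z, v)) l).trans h1)
      (hval v hv') (norm_nonneg _) (by positivity)
  · have : ((pz Q z).roots.toFinset.card : ℝ) ≤ d + 1 := by
      have := (Multiset.toFinset_card_le _).trans ((card_roots' (pz Q z)).trans (deg h z).le)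
      exact_mod_cast this.trans (Nat.le_succ d)
    rw [nsmul_eq_mul, mul_assoc (d + 1 : ℝ), mul_assoc (d + 1 : ℝ)]
    gcongr

theorem tame_der (Q : ℂ[X][X]) : Tame fun x : ℂ × ℂ => (derivative Q).evalEval x.1 x.2 :=
  Tame.fst'.evalEval Tame.snd' _

end Itp

open Itp

theorem Itp_of (h1 : S_Root) : S_Itp := by
  intro Q d δ h
  refine ⟨root_bd h, root_sep h, near_root h, fun z => ?_, fun E _ _ _ => ⟨ev_itp h,
    fun z X hz => ev_inj h hz fun v hv => ev_itp h z _ v hz hv, itp_congr h, itp_bd h,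
    itp_conj h⟩, fun κ l hκ hδ => ?_, fun X _ D κ x₀ hx hκ hδ => ?_⟩
  · exact (pz Q z).roots.toFinset.finite_toSet.subset fun v hv => (mem_iff h z v).2 hv
  · obtain ⟨v, hv, he⟩ := h1.1 (fun x => pz Q (κ x)) l d
      (Eventually.of_forall fun x => ⟨monic h _, deg h _⟩)
      (fun k => by
        simpa using diff_an_comp (Tame.id'.polyEval (Q.coeff k)).1 hκ) (sep h hδ)
    simp only [map_evalRingHom_eval] at he
    refine ⟨v, fun i k x => qc Q d (κ x, v i x) k / (derivative Q).evalEval (κ x) (v i x), hv,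
      fun i k => ?_, he.mono fun x hx => ⟨hx.1, hx.2, fun E _ _ _ => itp_enum h _ hx.1 hx.2⟩⟩
    exact (diff_an_comp ((tame_qc Q d).apply k).1 (hκ.prod (hv i))).div
      (diff_an_comp (tame_der Q).1 (hκ.prod (hv i)))
      (der_ne_zero h hδ ((he.self_of_nhds.2 _).2 ⟨i, rfl⟩))
  · obtain ⟨v, hv, he⟩ := h1.2.1 X D (fun x => pz Q (κ x)) x₀ d hx
      (Eventually.of_forall fun x => ⟨monic h _, deg h _⟩)
      (fun k => by
        simpa [Function.comp_def] using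
          (Q.coeff k).continuous.continuousAt.comp_continuousWithinAt hκ) (sep h hδ)
    simp only [map_evalRingHom_eval] at he
    refine ⟨v, fun i k x => qc Q d (κ x, v i x) k / (derivative Q).evalEval (κ x) (v i x), hv,
      fun i k => ?_, he.mono fun x hx => ⟨hx.1, hx.2, fun E _ _ _ => itp_enum h _ hx.1 hx.2⟩⟩
    exact (((tame_qc Q d).apply k).continuous.continuousAt.comp_continuousWithinAt
      (hκ.prodMk (hv i))).div
      ((tame_der Q).continuous.continuousAt.comp_continuousWithinAt (hκ.prodMk (hv i)))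
      (der_ne_zero h hδ (((he.self_of_nhdsWithin hx).2 _).2 ⟨i, rfl⟩))

end

end Pool.Agent.P.MP_daea48_ag
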