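import Pool.Agent.P.MP_daea48_ag.StA

/-! Interpolation at the roots: algebraic part. -/

open Set Filter Topology Metric Polynomial
open scoped ComplexConjugate

namespace Pool.Agent.P.MP_daea48_ag

noncomputable section

open Classical

namespace Itp

/-- The polynomial over `z`. -/
abbrev pz (Q : ℂ[X][X]) (z : ℂ) : ℂ[X] := Q.map (evalRingHom z)

/-- Coefficients of the quotient by `X - v`. -/
def qc (Q : ℂ[X][X]) (d : ℕ) (x : ℂ × ℂ) (l : Fin d) : ℂ :=
  ∑ i ∈ Finset.Icc ((l : ℕ) + 1) d, x.2 ^ (i - (l + 1)) * (Q.coeff i).eval x.1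

theorem tame_qc (Q : ℂ[X][X]) (d : ℕ) : Tame (qc Q d) :=
  Tame.pi fun _ => Tame.sum _ fun _ _ => (Tame.snd'.pow _).mul (Tame.fst'.polyEval _)

theorem der_eq (Q : ℂ[X][X]) (z v : ℂ) :
    (derivative Q).evalEval z v = (derivative (pz Q z)).eval v := by
  rw [derivative_map, map_evalRingHom_eval]

theorem quot_self {p : ℂ[X]} {v : ℂ} (h : p.IsRoot v) :
    (p /ₘ (X - C v)).eval v = (derivative p).eval v := by
  conv_rhs => rw [← mul_divByMonic_eq_iff_isRoot.2 h]
  simp

theorem quot_ne {p : ℂ[X]} {v w : ℂ} (h : p.IsRoot v) (hw : p.IsRoot w) (hne : w ≠ v) :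
    (p /ₘ (X - C v)).eval w = 0 := by
  have := hw
  rw [← mul_divByMonic_eq_iff_isRoot.2 h] at this
  simpa [sub_eq_zero, hne] using this

theorem der_ne {p : ℂ[X]} {v w : ℂ} (h : p.IsRoot v) (hw : p.IsRoot w) (hne : w ≠ v) :
    (derivative p).eval w = (w - v) * (derivative (p /ₘ (X - C v))).eval w := by
  conv_lhs => rw [← mul_divByMonic_eq_iff_isRoot.2 h]
  simp [quot_ne h hw hne]

variable {Q : ℂ[X][X]} {d : ℕ} {δ : ℂ[X]}

theorem monic (h : Cov Q d δ) (z : ℂ) : (pz Q z).Monic := h.monic.map _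

theorem deg (h : Cov Q d δ) (z : ℂ) : (pz Q z).natDegree = d := by
  rw [h.monic.natDegree_map, h.deg]

theorem root_iff (z v : ℂ) : (pz Q z).IsRoot v ↔ Q.evalEval z v = 0 := by
  rw [IsRoot, map_evalRingHom_eval]

theorem mem_iff (h : Cov Q d δ) (z v : ℂ) :
    v ∈ (pz Q z).roots.toFinset ↔ Q.evalEval z v = 0 := by
  rw [Multiset.mem_toFinset, mem_roots (monic h z).ne_zero, root_iff]

theorem coeff_eq (h : Cov Q d δ) (z v : ℂ) (l : Fin d) :
    (pz Q z /ₘ (X - C v)).coeff l = qc Q d (z, v) l := by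
  rw [coeff_divByMonic_X_sub_C, deg h]
  simp [qc]

theorem quot_eq (h : Cov Q d δ) {z v : ℂ} (hv : Q.evalEval z v = 0) :
    pz Q z /ₘ (X - C v) = ∑ l : Fin d, C (qc Q d (z, v) l) * X ^ (l : ℕ) := by
  have hd : 0 < d := by
    rw [← deg h z]
    exact natDegree_pos_iff_degree_pos.2
      (degree_pos_of_root (monic h z).ne_zero ((root_iff z v).2 hv))
  have h1 : (pz Q z /ₘ (X - C v)).natDegree < d := by
    rw [natDegree_divByMonic _ (monic_X_sub_C v), deg h, natDegree_X_sub_C]; omega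
  rw [(pz Q z /ₘ (X - C v)).as_sum_range_C_mul_X_pow' h1, Finset.sum_range]
  simp only [coeff_eq h]

theorem bez (h : Cov Q d δ) : ∃ b : ℂ[X][X], ∀ z v, Q.evalEval z v = 0 →
    b.evalEval z v * (derivative Q).evalEval z v = δ.eval z := by
  obtain ⟨a, b, hab⟩ := h.bez
  refine ⟨b, fun z v hv => ?_⟩
  have := congrArg (evalEval z v) hab
  simpa [evalEval_add, evalEval_mul, hv, evalEval_C] using this

theorem der_ne_zero (h : Cov Q d δ) {z v : ℂ} (hz : δ.eval z ≠ 0) (hv : Q.evalEval z v = 0) :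
    (derivative Q).evalEval z v ≠ 0 := by
  obtain ⟨b, hb⟩ := bez h
  intro h0
  exact hz (by rw [← hb z v hv, h0, mul_zero])

theorem sep (h : Cov Q d δ) {z : ℂ} (hz : δ.eval z ≠ 0) : (pz Q z).Separable := by
  refine (isCoprime_iff_aeval_ne_zero_of_isAlgClosed ℂ ℂ _ _).2 fun θ => ?_
  by_cases h0 : Q.evalEval z θ = 0
  · exact Or.inr (by simpa [der_eq] using der_ne_zero h hz h0)
  · exact Or.inl (by simpa [map_evalRingHom_eval] using h0)

theorem card (h : Cov Q d δ) {z : ℂ} (hz : δ.eval z ≠ 0) : (pz Q z).roots.toFinset.card = d := by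
  rw [Multiset.toFinset_card_of_nodup (nodup_roots (sep h hz)),
    IsAlgClosed.card_roots_eq_natDegree, deg h]

variable {E : Type} [NormedAddCommGroup E] [NormedSpace ℂ E]

theorem itp_eq (h : Cov Q d δ) (z : ℂ) (val : ℂ → E) (l : Fin d) : itp Q d z val l =
    ∑ v ∈ (pz Q z).roots.toFinset, (qc Q d (z, v) l / (derivative Q).evalEval z v) • val v := by
  simp only [itp, coeff_eq h]

theorem ev_itp (h : Cov Q d δ) (z : ℂ) (val : ℂ → E) (v : ℂ) (hz : δ.eval z ≠ 0)
    (hv : Q.evalEval z v = 0) : ev v (itp Q d z val) = val v := by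
  simp only [ev, itp_eq h, Finset.smul_sum, smul_smul]
  rw [Finset.sum_comm]
  simp only [← Finset.sum_smul]
  have key : ∀ w, Q.evalEval z w = 0 → ∑ l : Fin d, v ^ (l : ℕ) *
      (qc Q d (z, w) l / (derivative Q).evalEval z w) =
      (pz Q z /ₘ (X - C w)).eval v / (derivative Q).evalEval z w := by
    intro w hw
    rw [quot_eq h hw, eval_finsetSum, Finset.sum_div]
    refine Finset.sum_congr rfl fun l _ => ?_
    simp only [eval_mul, eval_C, eval_pow, eval_X]; ring
  rw [Finset.sum_eq_single_of_mem v ((mem_iff h z v).2 hv)]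
  · rw [key v hv, quot_self ((root_iff z v).2 hv), ← der_eq, div_self (der_ne_zero h hz hv),
      one_smul]
  · intro w hw hne
    have hw' := (mem_iff h z w).1 hw
    rw [key w hw', quot_ne ((root_iff z w).2 hw') ((root_iff z v).2 hv) hne.symm, zero_div,
      zero_smul]

theorem ev_inj (h : Cov Q d δ) {z : ℂ} (hz : δ.eval z ≠ 0) {X Y : Fin d → E}
    (hXY : ∀ v, Q.evalEval z v = 0 → ev v X = ev v Y) : X = Y := by
  funext l
  refine (SeparatingDual.eq_iff_forall_dual_eq (R := ℂ)).2 fun g => ?_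
  have h0 : ∑ k : Fin d, C (g (X k) - g (Y k)) * Polynomial.X ^ (k : ℕ) = 0 := by
    refine eq_zero_of_degree_lt_of_eval_finset_eq_zero (pz Q z).roots.toFinset ?_ fun v hv => ?_
    · rw [card h hz]; exact degree_sum_fin_lt _
    · have := congrArg g (hXY v ((mem_iff h z v).1 hv))
      simp only [ev, map_sum, map_smul, smul_eq_mul] at this
      simp only [eval_finsetSum, eval_mul, eval_C, eval_pow, eval_X, mul_sub,
        Finset.sum_sub_distrib, mul_comm _ (v ^ _), this, sub_self]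
  have := congrArg (coeff · l) h0
  simp only [finsetSum_coeff, coeff_C_mul_X_pow, Fin.val_inj, Finset.sum_ite_eq, Finset.mem_univ,
    if_true, coeff_zero] at this
  exact sub_eq_zero.1 this

theorem itp_congr (h : Cov Q d δ) (z : ℂ) (val val' : ℂ → E)
    (e : ∀ v, Q.evalEval z v = 0 → val v = val' v) : itp Q d z val = itp Q d z val' := by
  funext l
  exact Finset.sum_congr rfl fun v hv => by rw [e v ((mem_iff h z v).1 hv)]

theorem itp_conj (h : Cov Q d δ) (J : E →L⋆[ℂ] E) (z : ℂ) (val : ℂ → E)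
    (hQ : Q.map (mapRingHom (starRingEnd ℂ)) = Q) :
    itp Q d (conj z) (fun v => J (val (conj v))) = fun l => J (itp Q d z val l) := by
  have hp : pz Q (conj z) = (pz Q z).map (starRingEnd ℂ) := by
    conv_lhs => rw [← hQ]
    ext k
    simp only [coeff_map, coe_mapRingHom, coe_evalRingHom, eval_map, eval₂_hom]
  funext l
  simp only [itp, map_sum, map_smulₛₗ, der_eq]
  symm
  refine Finset.sum_nbij' conj conj (fun v hv => ?_) (fun v hv => ?_) (fun v _ => by simp)
    (fun v _ => by simp) fun v _ => ?_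
  · rw [mem_iff h, ← root_iff] at *
    rw [hp, IsRoot, eval_map, eval₂_hom, hv.eq_zero, map_zero]
  · rw [mem_iff h, ← root_iff] at *
    rw [hp, IsRoot, eval_map, ← Complex.conj_conj v, eval₂_hom, map_eq_zero] at hv
    exact hv
  · change _ = ((pz Q (conj z) /ₘ (X - C (conj v))).coeff l / _) • _
    rw [hp, derivative_map (pz Q z), eval_map (p := derivative (pz Q z)), eval₂_hom, map_div₀,
      ← coeff_map,
      map_divByMonic _ (monic_X_sub_C v), Complex.conj_conj]
    simp

theorem itp_enum (h : Cov Q d δ) (z : ℂ) {v : Fin d → ℂ} (hv : Function.Injective v)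
    (hr : ∀ w, Q.evalEval z w = 0 ↔ ∃ i, v i = w) (val : ℂ → E) (k : Fin d) :
    itp Q d z val k =
      ∑ i, (qc Q d (z, v i) k / (derivative Q).evalEval z (v i)) • val (v i) := by
  have : (pz Q z).roots.toFinset = Finset.univ.image v := by
    ext w; simp only [mem_iff h, hr, Finset.mem_image, Finset.mem_univ, true_and]
  rw [itp_eq h, this, Finset.sum_image fun _ _ _ _ e => hv e]

end Itp

end

end Pool.Agent.P.MP_daea48_ag
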