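import Pool.Agent.P.MP_daea48_ag.StK

/-! Approximation of local points of `U` by a global point. -/

open Set Filter Topology Polynomial

namespace Pool.Agent.P.MP_daea48_ag

namespace KC

variable {K : Type} [Field K] [Algebra ℝ K]

omit [Algebra ℝ K] in
theorem pow_div_mem {O : ValuationSubring K} {π a : K} (hπ : π ∈ O.nonunits) {n m : ℕ}
    (h : π ^ n / a ∈ O) (hm : n ≤ m) : π ^ m / a ∈ O := by
  obtain ⟨c, rfl⟩ := Nat.exists_eq_add_of_le hm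
  have : π ^ (n + c) / a = π ^ n / a * π ^ c := by rw [pow_add]; ring
  rw [this]
  exact O.mul_mem _ _ h (O.pow_mem (O.nonunits_subset hπ) _)

theorem ev_pow (hKv : S_Kv) (hK : PointlessFF K) {O : ValuationSubring K} (hO : IsPlace O) {π : K}
    (h0 : π ≠ 0) (hπ : π ∈ O.nonunits) {a : K} (ha : a ≠ 0) : ∀ᶠ n in atTop, π ^ n / a ∈ O := by
  obtain ⟨n, hn⟩ := (hKv K O hK hO).1 π hπ h0 a ha
  filter_upwards [eventually_ge_atTop n] with m hm using pow_div_mem hπ hn hm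

theorem ball_sub (hKv : S_Kv) (hK : PointlessFF K) {O : ValuationSubring K} (hO : IsPlace O)
    {π : K} (h0 : π ≠ 0) (hπ : π ∈ O.nonunits) {σ : Type} [Finite σ]
    {x : σ → O.valuation.Completion} {N : Set (σ → O.valuation.Completion)} (hN : N ∈ 𝓝 x) :
    ∀ᶠ n in atTop, ∀ y, (∀ s, Cl O (π ^ n) (y s) (x s)) → y ∈ N := by
  obtain ⟨-, -, -, k4, -, k6, -⟩ := hKv K O hK hO
  rw [nhds_pi, Filter.mem_pi] at hN
  obtain ⟨I, -, t, ht, hsub⟩ := hN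
  choose b hb hb' using fun s => k4 (x s) (t s) (ht s)
  have : ∀ᶠ n in atTop, ∀ s, π ^ n / b s ∈ O :=
    eventually_all.2 fun s => ev_pow hKv hK hO h0 hπ (hb s)
  filter_upwards [this] with n hn y hy
  exact hsub fun s _ => hb' s _ (k6 _ _ _ _ (hb s) (hn s) (hy s))

theorem cl_mono (hKv : S_Kv) (hK : PointlessFF K) {O : ValuationSubring K} (hO : IsPlace O)
    {π : K} (h0 : π ≠ 0) (hπ : π ∈ O.nonunits) {n m : ℕ} (hm : n ≤ m)
    {x y : O.valuation.Completion} (h : Cl O (π ^ m) x y) : Cl O (π ^ n) x y := by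
  obtain ⟨-, -, -, -, -, k6, -⟩ := hKv K O hK hO
  refine k6 _ _ _ _ (pow_ne_zero _ h0) (pow_div_mem hπ (n := n) ?_ hm) h
  rw [div_self (pow_ne_zero _ h0)]; exact O.one_mem

variable (F : FF K) {l : ℝ} {p : ℂ} {π : K} {σ : Type}

/-- `ξ` approximates `ζ` at all places over `p`. -/
def Ap (l : ℝ) (p : ℂ) (π : K) (ζ : ∀ O : ValuationSubring K, σ → O.valuation.Completion)
    (n : ℕ) (ξ : σ → K) : Prop :=
  ∀ O, IsPlace O → F.Over l p O → ∀ s, Cl O (π ^ n) (toCpl O (ξ s)) (ζ O s)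

theorem exists_ap (hKv : S_Kv) (h1 : S_Pl1) (h2 : S_Pl2) (hK : PointlessFF K) (hl : 0 < l)
    (hπ : F.Unif l p π) (ζ : ∀ O : ValuationSubring K, σ → O.valuation.Completion) (n : ℕ) :
    ∃ ξ, Ap F l p π ζ n ξ := by
  have key : ∀ (O : ValuationSubring K) s, ∃ a : K, IsPlace O → F.Over l p O →
      Cl O (π ^ n) (toCpl O a) (ζ O s) := by
    intro O s
    by_cases h : IsPlace O ∧ F.Over l p O
    · obtain ⟨-, -, k3, -, -, -, -, -, k9, -⟩ := hKv K O hK h.1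
      have h0 := ((h1 K F l hl).2.2.1 p π O hπ h.2).1
      obtain ⟨a, ha⟩ := k9.mem_nhds (k3 _ (pow_ne_zero n h0) (ζ O s))
      exact ⟨a, fun _ _ => ha⟩
    · exact ⟨0, fun a b => (h ⟨a, b⟩).elim⟩
  choose a ha using key
  choose ξ hξ using fun s => (h2 K F l p π hl hπ).2 (fun O => a O s) n
  refine ⟨ξ, fun O hO hp s => ?_⟩
  obtain ⟨-, -, -, -, k5, -, k7, -⟩ := hKv K O hK hO
  have h0 := ((h1 K F l hl).2.2.1 p π O hπ hp).1
  exact k7 _ _ _ _ ((k5 _ _ _ (pow_ne_zero n h0)).2 (hξ s O hO hp)) (ha O s hO hp)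

theorem ev_over (h2 : S_Pl2) (hl : 0 < l) (hπ : F.Unif l p π) {q : ValuationSubring K → ℕ → Prop}
    (h : ∀ O, IsPlace O → F.Over l p O → ∀ᶠ n in atTop, q O n) :
    ∀ᶠ n in atTop, ∀ O, IsPlace O → F.Over l p O → q O n := by
  have := (eventually_all_finite (h2 K F l p π hl hπ).1 (l := atTop) (p := fun O n => q O n)).2
    fun O hO => h O hO.1 hO.2
  filter_upwards [this] with n hn O a b using hn O ⟨a, b⟩

theorem exists_bd [Finite σ] (hKv : S_Kv) (h1 : S_Pl1) (h2 : S_Pl2) (hK : PointlessFF K)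
    (hl : 0 < l) (hπ : F.Unif l p π) (ζ : ∀ O : ValuationSubring K, σ → O.valuation.Completion) :
    ∃ a : ℕ, ∀ n ξ, Ap F l p π ζ n ξ → ∀ s, F.Bd l p (-a) (ξ s) := by
  obtain ⟨ξ₀, h₀⟩ := exists_ap F hKv h1 h2 hK hl hπ ζ 0
  have : ∀ᶠ a in atTop, ∀ O, IsPlace O → F.Over l p O → ∀ s, π ^ a * ξ₀ s ∈ O := by
    refine ev_over F h2 hl hπ fun O hO hp => eventually_all.2 fun s => ?_
    obtain ⟨h0, hn⟩ := (h1 K F l hl).2.2.1 p π O hπ hp
    by_cases hz : ξ₀ s = 0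
    · simp [hz, O.zero_mem]
    · filter_upwards [ev_pow hKv hK hO h0 hn (inv_ne_zero hz)] with n hn
      simpa [div_eq_mul_inv] using hn
  obtain ⟨a, ha⟩ := this.exists
  refine ⟨a, fun n ξ hξ s => (h1 K F l hl).2.2.2.1 p π _ _ hπ fun O hO hp => ?_⟩
  obtain ⟨h0, hn⟩ := (h1 K F l hl).2.2.1 p π O hπ hp
  obtain ⟨-, -, -, -, k5, -, k7, k8, -⟩ := hKv K O hK hO
  have e1 := cl_mono hKv hK hO h0 hn (Nat.zero_le n) (hξ O hO hp s)
  have e2 := (k5 _ _ _ (pow_ne_zero 0 h0)).1 (k7 _ _ _ _ e1 (k8 _ _ _ (h₀ O hO hp s)))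
  have : ξ s / π ^ (-(a : ℤ)) = π ^ a * ((ξ s - ξ₀ s) / π ^ 0) + π ^ a * ξ₀ s := by
    rw [zpow_neg, zpow_natCast, div_inv_eq_mul]; ring
  rw [this]
  exact O.add_mem _ _ (O.mul_mem _ _ (O.pow_mem (O.nonunits_subset hn) _) e2) (ha O hO hp s)

omit [Algebra ℝ K] in
theorem cont_eval {L : Type} [Field L] [TopologicalSpace L] [IsTopologicalRing L] (j : K →+* L)
    (G : MvPolynomial σ K) : Continuous fun y : σ → L => G.eval₂ j y := by
  simp only [MvPolynomial.eval₂_eq_eval_map]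
  exact MvPolynomial.continuous_eval _

omit [Algebra ℝ K] in
theorem map_eval {L : Type} [Field L] (j : K →+* L) (G : MvPolynomial σ K) (ξ : σ → K) :
    j (MvPolynomial.eval ξ G) = G.eval₂ j fun s => j (ξ s) := by
  rw [← MvPolynomial.eval₂_id, MvPolynomial.eval₂_comp_left]; rfl

theorem ev_small (hKv : S_Kv) (h1 : S_Pl1) (h2 : S_Pl2) (hK : PointlessFF K) (hl : 0 < l)
    (hπ : F.Unif l p π) (U : Pres K) (ζ : ∀ O : ValuationSubring K, U.σ → O.valuation.Completion)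
    (hζ : ∀ O, IsPlace O → U.Pt (toCpl O) (ζ O)) (N : ℕ) :
    ∀ᶠ n in atTop, ∀ ξ, Ap F l p π ζ n ξ → ∀ i, F.Bd l p N (MvPolynomial.eval ξ (U.F i)) := by
  have : ∀ᶠ n in atTop, ∀ O, IsPlace O → F.Over l p O → ∀ i, ∀ y,
      (∀ s, Cl O (π ^ n) (y s) (ζ O s)) →
      y ∈ {y | Cl O (π ^ N) ((U.F i).eval₂ (toCpl O) y) 0} := by
    refine ev_over F h2 hl hπ fun O hO hp => eventually_all.2 fun i => ?_
    obtain ⟨h0, hn⟩ := (h1 K F l hl).2.2.1 p π O hπ hp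
    refine ball_sub hKv hK hO h0 hn ?_
    have := (hKv K O hK hO).2.2.1 _ (pow_ne_zero N h0) ((U.F i).eval₂ (toCpl O) (ζ O))
    have h3 := (cont_eval (toCpl O) (U.F i)).continuousAt.preimage_mem_nhds this
    rw [hζ O hO i] at h3
    exact h3
  filter_upwards [this] with n hn ξ hξ i
  refine (h1 K F l hl).2.2.2.1 p π _ _ hπ fun O hO hp => ?_
  obtain ⟨h0, -⟩ := (h1 K F l hl).2.2.1 p π O hπ hp
  have e := hn O hO hp i _ (hξ O hO hp)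
  rw [← map_eval, ← map_zero (toCpl O)] at e
  simpa using ((hKv K O hK hO).2.2.2.2.1 _ _ _ (pow_ne_zero N h0)).1 e

theorem jet_trans {E : Type} [NormedAddCommGroup E] {k : ℕ} {a b c d : ℂ → E} {p : ℂ}
    (h1 : (fun z => b z - a z) =O[𝓝[≠] p] fun z => (z - p) ^ k)
    (h2 : (fun z => c z - b z) =O[𝓝[≠] p] fun z => (z - p) ^ k) (h3 : ∀ᶠ z in cofinite, c z = d z) :
    (fun z => d z - a z) =O[𝓝[≠] p] fun z => (z - p) ^ k := by
  refine (h2.add h1).congr' ?_ EventuallyEq.rfl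
  filter_upwards [h3.filter_mono (nhdsNE_le_cofinite p)] with z hz
  rw [← hz]; abel

theorem approx (hKv : S_Kv) (h1 : S_Pl1) (h2 : S_Pl2) (hG : S_Germ) (hGl : S_Glob) (hR : S_RatK)
    (hK : PointlessFF K) (U : Pres K) {δ : ℝ[X]} {f : ℂ × ((ℂ × ℂ) × (U.σ → ℂ)) → U.κ → ℂ}
    (hl : 0 < l) (hc : Cov (cx F.Q) F.d (cx1 δ)) (hf : SprEq F U δ f) (hF : FinalOK F U δ l)
    (ζ : ∀ O : ValuationSubring K, U.σ → O.valuation.Completion)
    (hζ : ∀ O, IsPlace O → U.Pt (toCpl O) (ζ O)) (S : Finset (ValuationSubring K))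
    (hS : ∀ O ∈ S, IsPlace O) (N : ∀ O : ValuationSubring K, Set (U.σ → O.valuation.Completion))
    (hN : ∀ O ∈ S, N O ∈ 𝓝 (ζ O)) :
    ∃ ξ, U.Pt (RingHom.id K) ξ ∧ ∀ O ∈ S, (fun s => toCpl O (ξ s)) ∈ N O := by
  classical
  obtain ⟨q1, q2, q3, -, q5⟩ := h1 K F l hl
  choose! pp hpp hov using q1
  choose! π hπ using q2
  choose! a₀ ha₀ using fun p (hp : ‖p‖ ≤ 1) => q5 p (π p) (hπ p hp)
  have e0 : ∀ᶠ n in atTop, ∀ O ∈ S, ∀ y, (∀ s, Cl O (π (pp O) ^ n) (y s) (ζ O s)) → y ∈ N O := by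
    refine (eventually_all_finset S).2 fun O hO => ?_
    obtain ⟨h0, hn⟩ := q3 _ _ O (hπ _ (hpp O (hS O hO))) (hov O (hS O hO))
    exact ball_sub hKv hK (hS O hO) h0 hn (hN O hO)
  obtain ⟨k₀, hk₀⟩ := e0.exists
  set k := k₀ + S.sup fun O => a₀ (pp O) with hk
  have loc : ∀ p : ℂ, ‖p‖ ≤ 1 → ∃ ξ σ', Ap F l p (π p) ζ k₀ ξ ∧ Germ (F.RR l U δ) id σ' p ∧
      Jet k (F.X0 l δ ξ) p σ' ∧ (‖p‖ = 1 → ∀ᶠ z in 𝓝[≠] p, σ' (rfl1 z) = star (σ' z)) := by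
    intro p hp
    obtain ⟨a, ha⟩ := exists_bd F hKv h1 h2 hK hl (hπ p hp) ζ
    obtain ⟨N', hN'⟩ := hG K F U δ l f hl hc hf p a k
    obtain ⟨n, hn, hn'⟩ := ((ev_small F hKv h1 h2 hK hl (hπ p hp) U ζ hζ N').and
      (eventually_ge_atTop k₀)).exists
    obtain ⟨ξ, hξ⟩ := exists_ap F hKv h1 h2 hK hl (hπ p hp) ζ n
    obtain ⟨σ', h⟩ := hN' ξ (ha n ξ hξ) (hn ξ hξ)
    refine ⟨ξ, σ', fun O hO ho s => ?_, h⟩
    obtain ⟨h0, hu⟩ := q3 _ _ O (hπ p hp) ho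
    exact cl_mono hKv hK hO h0 hu hn' (hξ O hO ho s)
  choose! ξp σp hap hge hje hsy using loc
  obtain ⟨Bad, -, hoka, hre, hcr, -⟩ := hF
  obtain ⟨S', hrat, hsym, hjet⟩ := hGl.2.1 _ _ _ _ Bad (Bad ∪ ({0, 1} ∪ S.image pp)) σp k _ _ hoka
    hre hcr Finset.subset_union_left (by simp) (by simp) (fun p _ hp => hge p hp)
    (fun p _ hp => hsy p hp.le hp)
  obtain ⟨ξ, hξ, hX⟩ := hR K F U δ l S' hl hrat hsym
  refine ⟨ξ, hξ, fun O hO => hk₀ O hO _ fun s => ?_⟩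
  have hO' := hS O hO
  have hp := hpp O hO'
  obtain ⟨h0, hu⟩ := q3 _ _ O (hπ _ hp) (hov O hO')
  have hj : Jet k (F.X0 l δ (ξp (pp O))) (pp O) (F.X0 l δ ξ) :=
    jet_trans (hje _ hp) (hjet _ (by simp [Finset.mem_image_of_mem pp hO]) hp) hX
  have e1 := ha₀ _ hp U.σ δ k ξ (ξp (pp O)) O (hov O hO') hj s
  obtain ⟨-, -, -, -, k5, -, k7, -⟩ := hKv K O hK hO'
  refine k7 _ _ _ _ ((k5 _ _ _ (pow_ne_zero k₀ h0)).2 ?_) (hap _ hp O hO' (hov O hO') s)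
  obtain ⟨c, hc'⟩ := Nat.exists_eq_add_of_le (Finset.le_sup (f := fun O => a₀ (pp O)) hO)
  have : (ξ s - ξp (pp O) s) / π (pp O) ^ k₀ =
      (ξ s - ξp (pp O) s) * π (pp O) ^ a₀ (pp O) / π (pp O) ^ k * π (pp O) ^ c := by
    rw [hk, hc', pow_add, pow_add]; field_simp
  rw [this]
  exact O.mul_mem _ _ e1 (O.pow_mem (O.nonunits_subset hu) _)

end KC

end Pool.Agent.P.MP_daea48_ag
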