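import Pool.Agent.P.MP_daea48_ag.KM1

/-! A family of rational curves through two general points. -/

open Set Polynomial

namespace Pool.Agent.P.MP_daea48_ag

noncomputable section

open Classical

namespace KMP

/-- Embed an arbitrary field extension in an extension of the algebraic closure. -/
theorem exists_over {K Λ : Type} [Field K] [Field Λ] (j : K →+* Λ) :
    ∃ (Λ' : Type) (_ : Field Λ') (φ : AlgebraicClosure K →+* Λ') (ι : Λ →+* Λ'),
      φ.comp (algebraMap K _) = ι.comp j := by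
  let _ : Algebra K (AlgebraicClosure Λ) := ((algebraMap Λ (AlgebraicClosure Λ)).comp j).toAlgebra
  let φ : AlgebraicClosure K →ₐ[K] AlgebraicClosure Λ := IsAlgClosed.lift
  refine ⟨AlgebraicClosure Λ, inferInstance, φ, algebraMap Λ _, ?_⟩
  ext a
  exact φ.commutes a

/-- A countable field of definition. -/
theorem exists_small {K L σ τ κ : Type} [Field K] [Field L] [Finite κ] (e : K →+* L)
    (F : κ → MvPolynomial σ K) (d : MvPolynomial τ L) :
    ∃ (k₀ k₁ : Type) (_ : Field k₀) (_ : Field k₁) (_ : Countable k₁) (e₀ : k₀ →+* K)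
      (e₁ : k₁ →+* L) (f : k₀ →+* k₁) (F₀ : κ → MvPolynomial σ k₀) (d₁ : MvPolynomial τ k₁),
      e₁.comp f = e.comp e₀ ∧ (∀ k, MvPolynomial.map e₀ (F₀ k) = F k) ∧
        MvPolynomial.map e₁ d₁ = d := by
  let S : Set L := (d.coeffs : Set L) ∪ ⋃ k, e '' ((F k).coeffs : Set K)
  have hS : S.Finite := (Finset.finite_toSet _).union
    (Set.finite_iUnion fun k => (Finset.finite_toSet _).image _)
  let k₁ := Subfield.closure S
  have hc : Countable k₁ := by
    rw [← Cardinal.mk_le_aleph0_iff]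
    refine (Subfield.cardinalMk_closure_le_max S).trans (max_le ?_ le_rfl)
    exact Cardinal.mk_le_aleph0_iff.2 hS.countable
  let k₀ := k₁.comap e
  have h0 : ∀ k, ∃ G : MvPolynomial σ k₀, MvPolynomial.map k₀.subtype G = F k := by
    intro k
    refine MvPolynomial.mem_range_map_iff_coeffs_subset.2 fun a ha => ⟨⟨a, ?_⟩, rfl⟩
    exact Subfield.subset_closure (Or.inr (Set.mem_iUnion.2 ⟨k, a, ha, rfl⟩))
  have h1 : ∃ G : MvPolynomial τ k₁, MvPolynomial.map k₁.subtype G = d :=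
    MvPolynomial.mem_range_map_iff_coeffs_subset.2 fun a ha =>
      ⟨⟨a, Subfield.subset_closure (Or.inl ha)⟩, rfl⟩
  choose F₀ hF₀ using h0
  obtain ⟨d₁, hd₁⟩ := h1
  exact ⟨k₀, k₁, inferInstance, inferInstance, hc, k₀.subtype, k₁.subtype,
    (e.comp k₀.subtype).codRestrict k₁ (fun a => a.2), F₀, d₁, rfl, hF₀, hd₁⟩

/-- Homogenisation. -/
theorem exists_hom {k σ : Type} [CommRing k] (F : MvPolynomial σ k) :
    ∃ (G : MvPolynomial (Option σ) k) (r : ℕ), ∀ (Λ : Type) [CommRing Λ] (j : k →+* Λ) (t : Λ)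
      (x : σ → Λ), G.eval₂ j (fun o => o.elim t fun s => t * x s) = t ^ r * F.eval₂ j x := by
  induction F using MvPolynomial.induction_on with
  | C a => exact ⟨MvPolynomial.C a, 0, fun Λ _ j t x => by simp⟩
  | add p q hp hq =>
    obtain ⟨G, r, h⟩ := hp
    obtain ⟨G', r', h'⟩ := hq
    refine ⟨G * MvPolynomial.X none ^ r' + G' * MvPolynomial.X none ^ r, r + r',
      fun Λ _ j t x => ?_⟩
    simp only [MvPolynomial.eval₂_add, MvPolynomial.eval₂_mul, MvPolynomial.eval₂_pow,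
      MvPolynomial.eval₂_X, h, h', Option.elim_none]
    ring
  | mul_X p s hp =>
    obtain ⟨G, r, h⟩ := hp
    refine ⟨G * MvPolynomial.X (some s), r + 1, fun Λ _ j t x => ?_⟩
    simp only [MvPolynomial.eval₂_mul, MvPolynomial.eval₂_X, h, Option.elim_some]
    ring

theorem hom_div {k σ Λ : Type} [CommRing k] [Field Λ] {F : MvPolynomial σ k}
    {G : MvPolynomial (Option σ) k} {r : ℕ}
    (h : ∀ (Λ : Type) [CommRing Λ] (j : k →+* Λ) (t : Λ)
      (x : σ → Λ), G.eval₂ j (fun o => o.elim t fun s => t * x s) = t ^ r * F.eval₂ j x)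
    (j : k →+* Λ) (v : Option σ → Λ) (hv : v none ≠ 0) :
    G.eval₂ j v = 0 ↔ F.eval₂ j (fun s => v (some s) / v none) = 0 := by
  have h1 := h Λ j (v none) (fun s => v (some s) / v none)
  have h2 : (fun o : Option σ => o.elim (v none) fun s => v none * (v (some s) / v none)) = v := by
    funext o
    cases o with
    | none => rfl
    | some s => exact mul_div_cancel₀ _ hv
  rw [h2] at h1
  rw [h1, mul_eq_zero, or_iff_right (pow_ne_zero _ hv)]

/-- The substitution `s = w / (1 + w)`. -/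
theorem exists_subst {L : Type} [Field L] (P : L[X]) (e : ℕ) (hP : P.natDegree ≤ e) :
    ∃ c : Fin (e + 1) → L, c 0 = P.eval 0 ∧ c (Fin.last e) = P.eval 1 ∧
      ∀ w, 1 + w ≠ 0 → ∑ k, c k * w ^ (k : ℕ) = (1 + w) ^ e * P.eval (w / (1 + w)) := by
  let Q : L[X] := ∑ i ∈ Finset.range (e + 1), C (P.coeff i) * (X ^ i * (X + C 1) ^ (e - i))
  have hm : ∀ i ∈ Finset.range (e + 1), (X ^ i * (X + C 1) ^ (e - i) : L[X]).Monic ∧
      (X ^ i * (X + C 1) ^ (e - i) : L[X]).natDegree = e := by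
    intro i hi
    have h1 : ((X + C 1) ^ (e - i) : L[X]).Monic := (monic_X_add_C 1).pow _
    refine ⟨(monic_X_pow i).mul h1, ?_⟩
    rw [(monic_X_pow i).natDegree_mul h1, natDegree_X_pow, (monic_X_add_C 1).natDegree_pow,
      natDegree_X_add_C]
    have := Finset.mem_range.1 hi
    omega
  have hQ : Q.natDegree < e + 1 := by
    refine Nat.lt_succ_of_le (natDegree_sum_le_of_forall_le _ _ fun i hi => ?_)
    exact (natDegree_C_mul_le _ _).trans (hm i hi).2.le
  have hP' : P.natDegree < e + 1 := Nat.lt_succ_of_le hP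
  have hev : ∀ w, 1 + w ≠ 0 → Q.eval w = (1 + w) ^ e * P.eval (w / (1 + w)) := by
    intro w hw
    rw [eval_eq_sum_range' hP', Finset.mul_sum, eval_finsetSum]
    refine Finset.sum_congr rfl fun i hi => ?_
    have hi' : i ≤ e := Nat.lt_succ_iff.1 (Finset.mem_range.1 hi)
    obtain ⟨m, rfl⟩ := Nat.exists_eq_add_of_le hi'
    simp only [eval_mul, eval_C, eval_pow, eval_X, eval_add, Nat.add_sub_cancel_left, div_pow]
    rw [add_comm w 1]
    field_simp
    ring
  refine ⟨fun k => Q.coeff k, ?_, ?_, fun w hw => ?_⟩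
  · have := hev 0 (by simp)
    simpa [← coeff_zero_eq_eval_zero] using this
  · rw [eval_eq_sum_range' hP']
    simp only [Q, Fin.val_last, finsetSum_coeff, coeff_C_mul, one_pow]
    refine Finset.sum_congr rfl fun i hi => ?_
    have h1 := (hm i hi).1.coeff_natDegree
    rw [(hm i hi).2] at h1
    rw [h1]
  · rw [← hev w hw, eval_eq_sum_range' hQ, Finset.sum_range]

/-- A polynomial identity in `w` specialises. -/
theorem spz_poly {k Ω Λ τ ρ : Type} [Field k] [Field Ω] [Infinite Ω] [CommRing Λ] {f : k →+* Ω}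
    {ξ : τ → Ω} {j : k →+* Λ} {ξ' : τ → Λ} (h : Spz f ξ j ξ') {e : ℕ} (t : ρ → Fin e → τ)
    (G : MvPolynomial ρ k) (T : Set Ω) (hT : T.Finite)
    (hG : ∀ w, w ∉ T → G.eval₂ f (fun o => ∑ i, ξ (t o i) * w ^ (i : ℕ)) = 0) (w : Λ) :
    G.eval₂ j (fun o => ∑ i, ξ' (t o i) * w ^ (i : ℕ)) = 0 := by
  let Φ : (MvPolynomial τ k)[X] := G.eval₂ (C.comp MvPolynomial.C)
    (fun o => ∑ i, C (MvPolynomial.X (t o i)) * X ^ (i : ℕ))
  have key : ∀ (A : Type) [CommRing A] (g : k →+* A) (x : τ → A) (w : A),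
      (Φ.map (MvPolynomial.eval₂Hom g x)).eval w =
        G.eval₂ g (fun o => ∑ i, x (t o i) * w ^ (i : ℕ)) := by
    intro A _ g x w
    have := MvPolynomial.eval₂_comp_left
      ((evalRingHom w).comp (mapRingHom (MvPolynomial.eval₂Hom g x))) (C.comp MvPolynomial.C)
      (fun o => ∑ i, C (MvPolynomial.X (t o i)) * X ^ (i : ℕ)) G
    refine this.trans ?_
    congr 1
    · ext a; simp
    · funext o
      simp [Polynomial.map_sum, eval_finsetSum]
  have h0 : Φ.map (MvPolynomial.eval₂Hom f ξ) = 0 := by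
    apply Polynomial.eq_zero_of_infinite_isRoot
    refine hT.infinite_compl.mono fun w hw => ?_
    exact (key Ω f ξ w).trans (hG w hw)
  have h1 : Φ.map (MvPolynomial.eval₂Hom j ξ') = 0 := by
    ext n
    have := congrArg (fun P => P.coeff n) h0
    simp only [coeff_map, coeff_zero] at this ⊢
    exact h _ this
  rw [← key, h1, eval_zero]

/-- A pair of points over the algebraic closure that is generic over a countable field. -/
theorem exists_xi (h2 : S_Norm) {K : Type} [Field K] [CharZero K] [Uncountable K] (V : Pres K)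
    (hg : AGeo V) (d : MvPolynomial (V.σ ⊕ V.σ) (AlgebraicClosure K))
    (hd : ∃ x y, V.Pt (algebraMap K (AlgebraicClosure K)) x ∧ V.Pt (algebraMap K _) y ∧
      MvPolynomial.eval (Sum.elim x y) d ≠ 0) :
    ∃ (k : Type) (_ : Field k) (e : k →+* K) (F₀ : V.κ → MvPolynomial V.σ k)
      (ξ : V.σ ⊕ V.σ → AlgebraicClosure K), (∀ i, MvPolynomial.map e (F₀ i) = V.F i) ∧
      (prod2 V).Pt (algebraMap K _) ξ ∧ MvPolynomial.eval ξ d ≠ 0 ∧
      (∀ (Λ : Type) [Field Λ] (j : K →+* Λ) (z : V.σ ⊕ V.σ → Λ), (prod2 V).Pt j z →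
        Spz ((algebraMap K _).comp e) ξ (j.comp e) z) ∧
      ∀ D : MvPolynomial (V.σ ⊕ V.σ) k, D.eval₂ ((algebraMap K _).comp e) ξ ≠ 0 →
        ∃ N : MvPolynomial (V.ι ⊕ V.ι) K, N ≠ 0 ∧
          ∀ (Λ : Type) [Field Λ] (j : K →+* Λ) (z : V.σ ⊕ V.σ → Λ), (prod2 V).Pt j z →
            N.eval₂ j (z ∘ Sum.map V.fr V.fr) ≠ 0 → D.eval₂ (j.comp e) z ≠ 0 := by
  obtain ⟨R, _, _, i, g, hpt, hR⟩ := generic V hg (AlgebraicClosure K)
  have hU : ∀ (Λ : Type) [Field Λ] (j : K →+* Λ) (z : V.σ ⊕ V.σ → Λ), (prod2 V).Pt j z →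
      ∀ G : MvPolynomial (V.σ ⊕ V.σ) K, G.eval₂ (i.comp (algebraMap K _)) g = 0 →
        G.eval₂ j z = 0 := by
    intro Λ _ j z hz G hG
    obtain ⟨Λ', _, φ, ι, hφ⟩ := exists_over j
    have h1 := hR Λ' φ (ι ∘ z) (fun k => by
      rw [hφ]
      exact (MvPolynomial.eval₂_comp_left ι j z _).symm.trans
        ((congrArg ι (hz k)).trans (map_zero ι)))
      (MvPolynomial.map (algebraMap K _) G) (by rw [MvPolynomial.eval₂_map]; exact hG)
    rw [MvPolynomial.eval₂_map, hφ, ← MvPolynomial.eval₂_comp_left] at h1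
    exact (map_eq_zero_iff ι ι.injective).1 h1
  obtain ⟨k₀, k₁, _, _, _, e₀, e₁, f, F₀, d₁, hef, hF₀, hd₁⟩ :=
    exists_small (algebraMap K (AlgebraicClosure K)) V.F d
  have : Uncountable (AlgebraicClosure K) :=
    (algebraMap K (AlgebraicClosure K)).injective.uncountable
  obtain ⟨ξ, hξ⟩ := h2.2.2 k₁ (AlgebraicClosure K) R (V.σ ⊕ V.σ) e₁ (i.comp e₁) g
  have hξ0 : ∀ G : MvPolynomial (V.σ ⊕ V.σ) k₀, G.eval₂ ((algebraMap K _).comp e₀) ξ = 0 ↔
      (MvPolynomial.map e₀ G).eval₂ (i.comp (algebraMap K _)) g = 0 := by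
    intro G
    have := hξ (MvPolynomial.map f G)
    rw [MvPolynomial.eval₂_map, MvPolynomial.eval₂_map, hef, RingHom.comp_assoc, hef] at this
    rw [this, MvPolynomial.eval₂_map, RingHom.comp_assoc]
  refine ⟨k₀, inferInstance, e₀, F₀, ξ, hF₀, ?_, ?_, ?_, ?_⟩
  · have key : ∀ φ : V.σ → V.σ ⊕ V.σ, V.Pt (i.comp (algebraMap K _)) (g ∘ φ) →
        V.Pt (algebraMap K _) (ξ ∘ φ) := by
      intro φ hφ k
      have := (hξ0 (MvPolynomial.rename φ (F₀ k))).2 (by
        rw [MvPolynomial.map_rename, hF₀, MvPolynomial.eval₂_rename]; exact hφ k)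
      rwa [MvPolynomial.eval₂_rename, ← MvPolynomial.eval₂_map, hF₀] at this
    rw [prod2_pt] at hpt ⊢
    exact ⟨key _ hpt.1, key _ hpt.2⟩
  · intro h0
    obtain ⟨x, y, hx, hy, hxy⟩ := hd
    apply hxy
    rw [← hd₁, MvPolynomial.eval_map] at h0
    have h1 := (hξ d₁).1 h0
    rw [← MvPolynomial.eval₂_map, hd₁] at h1
    exact hR _ (RingHom.id _) (Sum.elim x y) ((prod2_pt V _ _).2 ⟨hx, hy⟩) d h1
  · intro Λ _ j z hz G hG
    have := hU Λ j z hz _ ((hξ0 G).1 hG)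
    rwa [MvPolynomial.eval₂_map] at this
  · intro D hD
    obtain ⟨N, G', hN, hNG⟩ : ∃ (N : MvPolynomial (V.ι ⊕ V.ι) K)
        (G' : MvPolynomial (V.σ ⊕ V.σ) K), N ≠ 0 ∧
        (MvPolynomial.map e₀ D).eval₂ (i.comp (algebraMap K _)) g *
          G'.eval₂ (i.comp (algebraMap K _)) g =
          N.eval₂ (i.comp (algebraMap K _)) (g ∘ Sum.map V.fr V.fr) :=
      h2.1 K R (prod2 V) (i.comp (algebraMap K _)) g
        (MvPolynomial.map e₀ D) hpt (fun h => hD ((hξ0 D).2 h))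
    refine ⟨N, hN, fun Λ _ j z hz hNz hDz => hNz ?_⟩
    have := hU Λ j z hz (MvPolynomial.map e₀ D * G' -
      MvPolynomial.rename (Sum.map V.fr V.fr) N) (by
        rw [MvPolynomial.eval₂_sub, MvPolynomial.eval₂_mul, MvPolynomial.eval₂_rename]
        exact sub_eq_zero.2 hNG)
    rw [MvPolynomial.eval₂_sub, MvPolynomial.eval₂_mul, MvPolynomial.eval₂_rename,
      MvPolynomial.eval₂_map, hDz, zero_mul, zero_sub, neg_eq_zero] at this
    exact this

/-- The curve through the generic pair, in the coordinate `w`. -/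
theorem exists_curve {K L : Type} [Field K] [Field L] (V : Pres K) (j : K →+* L) (x y : V.σ → L)
    (Den : L[X]) (Num : V.σ → L[X]) (h0 : Den.eval 0 ≠ 0) (h1 : Den.eval 1 ≠ 0)
    (hN : ∀ s, (Num s).eval 0 = Den.eval 0 * x s ∧ (Num s).eval 1 = Den.eval 1 * y s)
    (hP : ∀ w, Den.eval w ≠ 0 → V.Pt j fun s => (Num s).eval w / Den.eval w) :
    ∃ (e : ℕ) (c : Option V.σ → Fin (e + 1) → L) (T : Set L), T.Finite ∧ c none 0 ≠ 0 ∧
      c none (Fin.last e) ≠ 0 ∧ (∀ s, c (some s) 0 = c none 0 * x s) ∧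
      (∀ s, c (some s) (Fin.last e) = c none (Fin.last e) * y s) ∧
      ∀ w, w ∉ T → ∑ k, c none k * w ^ (k : ℕ) ≠ 0 ∧ V.Pt j fun s =>
        (∑ k, c (some s) k * w ^ (k : ℕ)) / ∑ k, c none k * w ^ (k : ℕ) := by
  let P : Option V.σ → L[X] := fun o => o.elim Den Num
  let e := Finset.univ.sup fun o => (P o).natDegree
  have he : ∀ o, (P o).natDegree ≤ e := fun o =>
    Finset.le_sup (f := fun o => (P o).natDegree) (Finset.mem_univ o)
  choose c hc0 hc1 hcw using fun o => exists_subst (P o) e (he o)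
  have hDen : Den ≠ 0 := by
    rintro rfl; simp at h0
  refine ⟨e, c, {-1} ∪ (fun s => s / (1 - s)) '' {s | Den.IsRoot s},
    (Set.finite_singleton _).union ((Den.finite_setOfPred_isRoot hDen).image _), ?_, ?_, ?_, ?_, ?_⟩
  · rw [hc0]; exact h0
  · rw [hc1]; exact h1
  · intro s; rw [hc0, hc0]; exact (hN s).1
  · intro s; rw [hc1, hc1]; exact (hN s).2
  · intro w hw
    have hw1 : 1 + w ≠ 0 := fun h => hw (Or.inl (by linear_combination h : w = -1))
    have hw2 : Den.eval (w / (1 + w)) ≠ 0 := fun h => hw (Or.inr ⟨_, h, by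
      have : 1 - w / (1 + w) = 1 / (1 + w) := by field_simp; ring
      simp only [this]
      field_simp⟩)
    simp only [hcw _ w hw1]
    refine ⟨mul_ne_zero (pow_ne_zero _ hw1) hw2, ?_⟩
    have := hP _ hw2
    simp only [mul_div_mul_left _ _ (pow_ne_zero e hw1)]
    exact this

end KMP

open KMP in
theorem KM_of (h1 : S_SP) (h2 : S_Norm) : S_KM := by
  intro K _ _ _ V hg hrc
  obtain ⟨d, hd, hrc⟩ := hrc
  obtain ⟨k, _, e₀, F₀, ξ, hF₀, hξ, hdξ, hspz, hN⟩ := exists_xi h2 V hg d hd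
  have hξ' := (prod2_pt V _ _).1 hξ
  obtain ⟨Den, Num, hD0, hD1, hNum, hP⟩ := hrc (ξ ∘ Sum.inl) (ξ ∘ Sum.inr) hξ'.1 hξ'.2
    (by rwa [Sum.elim_comp_inl_inr])
  obtain ⟨e, c, T, hT, hc0, hc1, hcx, hcy, hcw⟩ :=
    exists_curve V _ _ _ Den Num hD0 hD1 hNum hP
  have : CharZero k := e₀.charZero
  obtain ⟨D, dd, a, Cf, hD, hdd, hsp⟩ := h1.1 k (AlgebraicClosure K) (V.σ ⊕ V.σ)
    ((Option V.σ × Fin (e + 1)) ⊕ Bool) ((algebraMap K _).comp e₀) ξ
    (Sum.elim (fun o => c o.1 o.2) fun b => cond b (c none 0)⁻¹ (c none (Fin.last e))⁻¹)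
  obtain ⟨N, hN0, hND⟩ := hN D hD
  have hev : ∀ (Λ : Type) [Field Λ] (j : K →+* Λ) (z : V.σ ⊕ V.σ → Λ),
      evs j z (fun i => MvPolynomial.map e₀ (a i)) = evs (j.comp e₀) z a := by
    intro Λ _ j z
    funext i
    exact MvPolynomial.eval₂_map _ _ _ _
  have hs : ∀ (Λ : Type) [Field Λ] (j : K →+* Λ) (z : V.σ ⊕ V.σ → Λ), (prod2 V).Pt j z →
      (MvPolynomial.map e₀ D).eval₂ j z ≠ 0 →
      ∀ θ, (mon (evs j z fun i => MvPolynomial.map e₀ (a i))).eval θ = 0 →
        (derivative (mon (evs j z fun i => MvPolynomial.map e₀ (a i)))).eval θ ≠ 0 := by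
    intro Λ _ j z hz hDz θ hθ
    rw [hev] at hθ ⊢
    rw [MvPolynomial.eval₂_map] at hDz
    exact (hsp Λ _ z (hspz Λ j z hz) hDz θ hθ).1
  let M := ext (prod2 V) (MvPolynomial.map e₀ D) (fun i => MvPolynomial.map e₀ (a i)) hs
  have hM : ∀ (Λ : Type) [Field Λ] (j : K →+* Λ) (p : (V.σ ⊕ V.σ) ⊕ Bool → Λ), M.Pt j p ↔
      (prod2 V).Pt j (p ∘ Sum.inl) ∧
      p (Sum.inr true) * (MvPolynomial.map e₀ D).eval₂ j (p ∘ Sum.inl) = 1 ∧
      (mon (evs j (p ∘ Sum.inl) fun i => MvPolynomial.map e₀ (a i))).eval (p (Sum.inr false)) = 0 :=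
    fun Λ _ j p => ext_pt (prod2 V) _ _ hs j p
  let q : Option V.σ → Fin (e + 1) → MvPolynomial ((V.σ ⊕ V.σ) ⊕ Bool) K := fun o i =>
    MvPolynomial.X (Sum.inr true) * MvPolynomial.rename
      (fun o : Option (V.σ ⊕ V.σ) => o.elim (Sum.inr false) Sum.inl)
      (MvPolynomial.map e₀ (Cf (Sum.inl (o, i))))
  choose Fh r hFh using fun i => exists_hom (F₀ i)
  have hcurve : ∀ (Λ : Type) [Field Λ] (j : K →+* Λ) (p : (V.σ ⊕ V.σ) ⊕ Bool → Λ), M.Pt j p →
      (((q none 0).eval₂ j p ≠ 0 ∧ ∀ s, (q (some s) 0).eval₂ j p =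
        (q none 0).eval₂ j p * p (Sum.inl (Sum.inl s))) ∧
      ((q none (Fin.last e)).eval₂ j p ≠ 0 ∧ ∀ s, (q (some s) (Fin.last e)).eval₂ j p =
        (q none (Fin.last e)).eval₂ j p * p (Sum.inl (Sum.inr s))) ∧
      ∀ w : Λ, ∑ i, (q none i).eval₂ j p * w ^ (i : ℕ) ≠ 0 →
        V.Pt j fun s => (∑ i, (q (some s) i).eval₂ j p * w ^ (i : ℕ)) /
          ∑ i, (q none i).eval₂ j p * w ^ (i : ℕ)) := by
    intro Λ _ j p hp
    obtain ⟨hz, hu, hθ⟩ := (hM Λ j p).1 hp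
    rw [hev] at hθ
    rw [MvPolynomial.eval₂_map] at hu
    have hDz : D.eval₂ (j.comp e₀) (p ∘ Sum.inl) ≠ 0 := by
      intro h; rw [h] at hu; simp at hu
    obtain ⟨c', hc'⟩ : ∃ c' : (Option V.σ × Fin (e + 1)) ⊕ Bool → Λ, c' = fun s =>
      (Cf s).eval₂ (j.comp e₀) (fun o => o.elim (p (Sum.inr false)) (p ∘ Sum.inl)) /
        D.eval₂ (j.comp e₀) (p ∘ Sum.inl) := ⟨_, rfl⟩
    have hS : Spz ((algebraMap K (AlgebraicClosure K)).comp e₀) (Sum.elim ξ
        (Sum.elim (fun o : Option V.σ × Fin (e + 1) => c o.1 o.2)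
          fun b => cond b (c none 0)⁻¹ (c none (Fin.last e))⁻¹)) (j.comp e₀)
        (Sum.elim (p ∘ Sum.inl) c') := by
      rw [hc']
      exact (hsp Λ _ _ (hspz Λ j _ hz) hDz _ hθ).2
    have hq : ∀ o i, MvPolynomial.eval₂ j p (q o i) = c' (Sum.inl (o, i)) := by
      intro o i
      have h3 : (p ∘ fun o : Option (V.σ ⊕ V.σ) => o.elim (Sum.inr false) Sum.inl) =
          fun o => o.elim (p (Sum.inr false)) (p ∘ Sum.inl) := by
        funext o; cases o <;> rfl
      refine (MvPolynomial.eval₂_mul _ _).trans ?_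
      rw [MvPolynomial.eval₂_X, MvPolynomial.eval₂_rename, MvPolynomial.eval₂_map, h3, hc',
        eq_div_iff hDz]
      linear_combination ((Cf (Sum.inl (o, i))).eval₂ (j.comp e₀)
        (fun o => o.elim (p (Sum.inr false)) (p ∘ Sum.inl))) * hu
    have hne : ∀ (i : Fin (e + 1)) (b : Bool),
        c none i * cond b (c none 0)⁻¹ (c none (Fin.last e))⁻¹ = 1 →
        c' (Sum.inl (none, i)) ≠ 0 := by
      intro i b hb h0
      have := hS (MvPolynomial.X (Sum.inr (Sum.inl (none, i))) *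
        MvPolynomial.X (Sum.inr (Sum.inr b)) - 1) (by simpa [sub_eq_zero] using hb)
      simp [h0] at this
    have hend : ∀ (i : Fin (e + 1)) (s : V.σ) (t : V.σ ⊕ V.σ), c (some s) i = c none i * ξ t →
        c' (Sum.inl (some s, i)) = c' (Sum.inl (none, i)) * p (Sum.inl t) := by
      intro i s t hb
      have := hS (MvPolynomial.X (Sum.inr (Sum.inl (some s, i))) -
        MvPolynomial.X (Sum.inr (Sum.inl (none, i))) * MvPolynomial.X (Sum.inl t))
        (by simpa [sub_eq_zero] using hb)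
      simpa [sub_eq_zero] using this
    simp only [hq]
    refine ⟨⟨hne 0 true (mul_inv_cancel₀ hc0), fun s => hend 0 s _ (hcx s)⟩,
      ⟨hne _ false (mul_inv_cancel₀ hc1), fun s => hend _ s _ (hcy s)⟩, fun w hw i => ?_⟩
    have h5 := spz_poly hS (fun o i => Sum.inr (Sum.inl (o, i))) (Fh i) T hT (fun w hw => by
      rw [hom_div (hFh i) _ _ (hcw w hw).1, ← MvPolynomial.eval₂_map, hF₀]
      exact (hcw w hw).2 i) w
    rw [hom_div (hFh i) _ _ hw, ← MvPolynomial.eval₂_map, hF₀] at h5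
    exact h5
  refine ⟨{
    M := M
    j₁ := fun s => Sum.inl (Sum.inl s)
    j₂ := fun s => Sum.inl (Sum.inr s)
    eP := Equiv.refl _
    fr₁ := fun _ => rfl
    fr₂ := fun _ => rfl
    ends := fun Λ _ j p hp => (prod2_pt V _ _).1 ((hM Λ j p).1 hp).1
    e := e
    n := fun i s => q (some s) i
    d := q none
    curve := hcurve
    D := MvPolynomial.map e₀ D
    N := N
    N_ne := hN0
    D_ne := ⟨_, _, hξ'.1, hξ'.2, by rwa [Sum.elim_comp_inl_inr, MvPolynomial.eval₂_map]⟩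
    ND := ?_
    dd := dd
    dd_pos := hdd
    c := fun i => MvPolynomial.map e₀ (a i)
    mk' := MvPolynomial.X
    cover := ?_ }⟩
  · intro Λ _ j x y hx hy hNz
    rw [MvPolynomial.eval₂_map]
    refine hND Λ j _ ((prod2_pt V _ _).2 ⟨hx, hy⟩) ?_
    rwa [Sum.elim_comp_map]
  · intro Λ _ j x y u θ hx hy hu hθ
    have hz : (prod2 V).Pt j (Sum.elim x y) := (prod2_pt V _ _).2 ⟨hx, hy⟩
    have h3 : evs j (Sum.elim (Sum.elim x y) fun b => cond b u θ)
        (MvPolynomial.X : (V.σ ⊕ V.σ) ⊕ Bool → MvPolynomial _ K) =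
        Sum.elim (Sum.elim x y) fun b => cond b u θ := by
      funext s; exact MvPolynomial.eval₂_X _ _ _
    refine ⟨hs Λ j _ hz (fun h => by rw [h] at hu; simp at hu) θ hθ, ?_, ?_, ?_⟩
    · have h4 := (hM Λ j (Sum.elim (Sum.elim x y) fun b => cond b u θ)).2 ⟨hz, hu, hθ⟩
      rw [← h3] at h4
      exact h4
    · funext s; exact congrFun h3 _
    · funext s; exact congrFun h3 _

end

end Pool.Agent.P.MP_daea48_ag
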