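import Pool.Agent.P.MP_daea48_ag.StK

/-! Presentations of the product and of the family; the generic pair of points. -/

open Set Polynomial
open scoped TensorProduct

namespace Pool.Agent.P.MP_daea48_ag

noncomputable section

open Classical

namespace KMP

section dv
variable {K Λ σ : Type} [CommRing K] [CommRing Λ] [Fintype σ]

/-- Directional derivative of `G` at `x` along `H`. -/
def Dv (j : K →+* Λ) (x H : σ → Λ) (G : MvPolynomial σ K) : Λ :=
  ∑ s, MvPolynomial.eval₂ j x (MvPolynomial.pderiv s G) * H s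

variable (j : K →+* Λ) (x H : σ → Λ)

theorem Dv_C (a : K) : Dv j x H (MvPolynomial.C a) = 0 := by
  simp [Dv]

theorem Dv_X (s : σ) : Dv j x H (MvPolynomial.X s) = H s := by
  unfold Dv
  rw [Finset.sum_eq_single s]
  · simp
  · intro t _ ht
    rw [MvPolynomial.pderiv_X_of_ne (Ne.symm ht)]
    simp
  · simp

theorem Dv_add (G G' : MvPolynomial σ K) : Dv j x H (G + G') = Dv j x H G + Dv j x H G' := by
  simp [Dv, add_mul, Finset.sum_add_distrib]

theorem Dv_sub (G G' : MvPolynomial σ K) : Dv j x H (G - G') = Dv j x H G - Dv j x H G' := by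
  simp [Dv, sub_mul, Finset.sum_sub_distrib]

theorem Dv_one : Dv j x H 1 = 0 := by
  simp [Dv]

theorem Dv_mul (G G' : MvPolynomial σ K) : Dv j x H (G * G') =
    Dv j x H G * G'.eval₂ j x + G.eval₂ j x * Dv j x H G' := by
  simp only [Dv, Derivation.leibniz, smul_eq_mul, MvPolynomial.eval₂_add, MvPolynomial.eval₂_mul,
    Finset.sum_mul, Finset.mul_sum, ← Finset.sum_add_distrib]
  exact Finset.sum_congr rfl fun s _ => by ring

theorem Dv_pow (G : MvPolynomial σ K) (n : ℕ) : Dv j x H (G ^ n) =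
    n * G.eval₂ j x ^ (n - 1) * Dv j x H G := by
  induction n with
  | zero => simp [Dv_one]
  | succ n ih =>
    rw [pow_succ, Dv_mul, ih, MvPolynomial.eval₂_pow]
    cases n with
    | zero => simp
    | succ n => simp only [Nat.add_sub_cancel]; push_cast; ring

theorem Dv_sum {J : Type} (S : Finset J) (G : J → MvPolynomial σ K) :
    Dv j x H (∑ i ∈ S, G i) = ∑ i ∈ S, Dv j x H (G i) := by
  induction S using Finset.induction_on with
  | empty => simp [Dv]
  | insert a S ha ih => rw [Finset.sum_insert ha, Finset.sum_insert ha, Dv_add, ih]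

theorem Dv_rename {τ : Type} [Fintype τ] (φ : τ → σ) (G : MvPolynomial τ K) :
    Dv j x H (MvPolynomial.rename φ G) = Dv j (x ∘ φ) (H ∘ φ) G := by
  induction G using MvPolynomial.induction_on with
  | C a => rw [MvPolynomial.rename_C, Dv_C, Dv_C]
  | add p q hp hq => rw [map_add, Dv_add, Dv_add, hp, hq]
  | mul_X p s hp =>
    rw [map_mul, Dv_mul, Dv_mul, hp, MvPolynomial.rename_X, Dv_X, Dv_X, MvPolynomial.eval₂_rename]
    simp

end dv

/-- The product `V × V`. -/
def prod2 {K : Type} [Field K] (V : Pres K) : Pres K where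
  σ := V.σ ⊕ V.σ
  ι := V.ι ⊕ V.ι
  κ := V.κ ⊕ V.κ
  fr := Sum.map V.fr V.fr
  F := Sum.elim (fun k => MvPolynomial.rename Sum.inl (V.F k))
    (fun k => MvPolynomial.rename Sum.inr (V.F k))
  card := by simp only [Fintype.card_sum, V.card]; ring
  jac := by
    intro Λ _ j x hx H hH hD
    have h1 : H ∘ Sum.inl = 0 := by
      refine V.jac Λ j (x ∘ Sum.inl) (fun k => ?_) _ (fun i => hH (Sum.inl i)) (fun k => ?_)
      · have := hx (Sum.inl k)
        rwa [Sum.elim_inl, MvPolynomial.eval₂_rename] at this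
      · exact (Dv_rename j x H Sum.inl (V.F k)).symm.trans (hD (Sum.inl k))
    have h2 : H ∘ Sum.inr = 0 := by
      refine V.jac Λ j (x ∘ Sum.inr) (fun k => ?_) _ (fun i => hH (Sum.inr i)) (fun k => ?_)
      · have := hx (Sum.inr k)
        rwa [Sum.elim_inr, MvPolynomial.eval₂_rename] at this
      · exact (Dv_rename j x H Sum.inr (V.F k)).symm.trans (hD (Sum.inr k))
    funext s
    cases s with
    | inl s => exact congrFun h1 s
    | inr s => exact congrFun h2 s

theorem prod2_pt {K : Type} [Field K] (V : Pres K) {Λ : Type} [CommRing Λ] (j : K →+* Λ)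
    (z : V.σ ⊕ V.σ → Λ) :
    (prod2 V).Pt j z ↔ V.Pt j (z ∘ Sum.inl) ∧ V.Pt j (z ∘ Sum.inr) := by
  constructor
  · intro h
    refine ⟨fun k => ?_, fun k => ?_⟩
    · exact (MvPolynomial.eval₂_rename j Sum.inl z (V.F k)).symm.trans (h (Sum.inl k))
    · exact (MvPolynomial.eval₂_rename j Sum.inr z (V.F k)).symm.trans (h (Sum.inr k))
  · rintro ⟨h1, h2⟩ k
    cases k with
    | inl k => exact (MvPolynomial.eval₂_rename j Sum.inl z (V.F k)).trans (h1 k)
    | inr k => exact (MvPolynomial.eval₂_rename j Sum.inr z (V.F k)).trans (h2 k)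

/-- The equation of the root. -/
def rootEq {K σ : Type} [CommRing K] {d : ℕ} (a : Fin d → MvPolynomial σ K) :
    MvPolynomial (σ ⊕ Bool) K :=
  MvPolynomial.X (Sum.inr false) ^ d +
    ∑ k : Fin d, MvPolynomial.rename Sum.inl (a k) * MvPolynomial.X (Sum.inr false) ^ (k : ℕ)

theorem rootEq_eval {K σ Λ : Type} [CommRing K] [CommRing Λ] {d : ℕ}
    (a : Fin d → MvPolynomial σ K) (j : K →+* Λ) (p : σ ⊕ Bool → Λ) :
    (rootEq a).eval₂ j p = (mon (evs j (p ∘ Sum.inl) a)).eval (p (Sum.inr false)) := by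
  simp [rootEq, mon, MvPolynomial.eval₂_sum, MvPolynomial.eval₂_rename, eval_finsetSum]

theorem rootEq_Dv {K σ Λ : Type} [CommRing K] [CommRing Λ] [Fintype σ] {d : ℕ}
    (a : Fin d → MvPolynomial σ K) (j : K →+* Λ) (p H : σ ⊕ Bool → Λ) (hH : H ∘ Sum.inl = 0) :
    Dv j p H (rootEq a) =
      (derivative (mon (evs j (p ∘ Sum.inl) a))).eval (p (Sum.inr false)) * H (Sum.inr false) := by
  have h0 : ∀ k, Dv j p H (MvPolynomial.rename Sum.inl (a k)) = 0 := by
    intro k
    rw [Dv_rename, hH]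
    simp [Dv]
  simp only [rootEq, Dv_add, Dv_sum, Dv_mul, Dv_pow, Dv_X, h0, mon, derivative_add,
    derivative_sum, derivative_X_pow, derivative_C_mul, eval_add, eval_finsetSum, eval_mul,
    eval_C, eval_pow, eval_X, MvPolynomial.eval₂_X, MvPolynomial.eval₂_rename, add_mul,
    Finset.sum_mul, zero_mul, zero_add, eval_natCast, map_natCast, mul_assoc]

/-- Adjoin the inverse of `D` and a root of a monic polynomial with simple roots. -/
def ext {K : Type} [Field K] (W : Pres K) (D : MvPolynomial W.σ K) {d : ℕ}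
    (a : Fin d → MvPolynomial W.σ K)
    (hs : ∀ (Λ : Type) [Field Λ] (j : K →+* Λ) (x : W.σ → Λ), W.Pt j x → D.eval₂ j x ≠ 0 →
      ∀ θ, (mon (evs j x a)).eval θ = 0 → (derivative (mon (evs j x a))).eval θ ≠ 0) :
    Pres K where
  σ := W.σ ⊕ Bool
  ι := W.ι
  κ := W.κ ⊕ Bool
  fr := Sum.inl ∘ W.fr
  F := Sum.elim (fun k => MvPolynomial.rename Sum.inl (W.F k))
    (fun b => cond b (MvPolynomial.X (Sum.inr true) * MvPolynomial.rename Sum.inl D - 1)
      (rootEq a))
  card := by simp only [Fintype.card_sum, W.card]; ring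
  jac := by
    intro Λ _ j p hp H hH hD
    have hW : W.Pt j (p ∘ Sum.inl) := fun k =>
      (MvPolynomial.eval₂_rename j Sum.inl p (W.F k)).symm.trans (hp (Sum.inl k))
    have h1 : H ∘ Sum.inl = 0 :=
      W.jac Λ j (p ∘ Sum.inl) hW _ hH fun k =>
        (Dv_rename j p H Sum.inl (W.F k)).symm.trans (hD (Sum.inl k))
    have hu := hp (Sum.inr true)
    simp only [Sum.elim_inr, cond_true, MvPolynomial.eval₂_sub, MvPolynomial.eval₂_mul,
      MvPolynomial.eval₂_X, MvPolynomial.eval₂_rename, MvPolynomial.eval₂_one] at hu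
    have hD0 : D.eval₂ j (p ∘ Sum.inl) ≠ 0 := by
      intro h; rw [h] at hu; simp at hu
    have hθ := hp (Sum.inr false)
    simp only [Sum.elim_inr, cond_false, rootEq_eval] at hθ
    have h2 : Dv j p H (MvPolynomial.X (Sum.inr true) * MvPolynomial.rename Sum.inl D - 1) = 0 :=
      hD (Sum.inr true)
    have h3 : Dv j p H (rootEq a) = 0 := hD (Sum.inr false)
    rw [Dv_sub, Dv_mul, Dv_X, Dv_rename, h1, Dv_one, MvPolynomial.eval₂_rename] at h2
    rw [rootEq_Dv a j p H h1] at h3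
    have h4 : Dv j (p ∘ Sum.inl) 0 D = 0 := by simp [Dv]
    rw [h4, mul_zero, add_zero, sub_zero] at h2
    funext s
    rcases s with s | b
    · exact congrFun h1 s
    · cases b
      · exact (mul_eq_zero.1 h3).resolve_left (hs Λ j _ hW hD0 _ hθ)
      · exact (mul_eq_zero.1 h2).resolve_right hD0

theorem ext_pt {K : Type} [Field K] (W : Pres K) (D : MvPolynomial W.σ K) {d : ℕ}
    (a : Fin d → MvPolynomial W.σ K) (hs) {Λ : Type} [CommRing Λ] (j : K →+* Λ)
    (p : W.σ ⊕ Bool → Λ) :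
    (ext W D a hs).Pt j p ↔ W.Pt j (p ∘ Sum.inl) ∧
      p (Sum.inr true) * D.eval₂ j (p ∘ Sum.inl) = 1 ∧
      (mon (evs j (p ∘ Sum.inl) a)).eval (p (Sum.inr false)) = 0 := by
  have e1 : MvPolynomial.eval₂ j p
      (MvPolynomial.X (Sum.inr true) * MvPolynomial.rename Sum.inl D - 1) =
      p (Sum.inr true) * D.eval₂ j (p ∘ Sum.inl) - 1 := by
    simp only [MvPolynomial.eval₂_sub, MvPolynomial.eval₂_mul,
      MvPolynomial.eval₂_X, MvPolynomial.eval₂_rename, MvPolynomial.eval₂_one]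
  constructor
  · intro h
    refine ⟨fun k => ?_, ?_, ?_⟩
    · exact (MvPolynomial.eval₂_rename j Sum.inl p (W.F k)).symm.trans (h (Sum.inl k))
    · exact sub_eq_zero.1 (e1.symm.trans (h (Sum.inr true)))
    · exact (rootEq_eval a j p).symm.trans (h (Sum.inr false))
  · rintro ⟨h1, h2, h3⟩ k
    rcases k with k | b
    · exact (MvPolynomial.eval₂_rename j Sum.inl p (W.F k)).trans (h1 k)
    · cases b
      · exact (rootEq_eval a j p).trans h3
      · exact e1.trans (sub_eq_zero.2 h2)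

theorem pt_of_mem {K : Type} [Field K] (V : Pres K) {Λ : Type} [CommRing Λ] (j : K →+* Λ)
    (x : V.σ → Λ) (hx : V.Pt j x) (G : MvPolynomial V.σ K) (hG : G ∈ V.I) :
    G.eval₂ j x = 0 := by
  have h : V.I ≤ RingHom.ker (MvPolynomial.eval₂Hom j x) := by
    unfold Pres.I
    rw [Ideal.span_le]
    rintro _ ⟨k, rfl⟩
    exact hx k
  exact h hG

theorem tens_dom (K L A : Type) [Field K] [Field L] [CommRing A] [Algebra K L] [Algebra K A]
    (h : ∀ (Λ : Type) [Field Λ] [Algebra K Λ], IsDomain (Λ ⊗[K] A)) :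
    IsDomain ((L ⊗[K] A) ⊗[K] A) := by
  have := h L
  have := h (FractionRing (L ⊗[K] A))
  let f : (L ⊗[K] A) →ₐ[K] FractionRing (L ⊗[K] A) := IsScalarTower.toAlgHom K _ _
  have hf : Function.Injective f := IsFractionRing.injective (L ⊗[K] A) _
  have hg : Function.Injective (Algebra.TensorProduct.map f (AlgHom.id K A)) :=
    Module.Flat.rTensor_preserves_injective_linearMap (M := A) f.toLinearMap hf
  exact hg.isDomain _

theorem exists_tens (K L A : Type) [Field K] [Field L] [CommRing A] [Algebra K L] [Algebra K A]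
    (h : ∀ (Λ : Type) [Field Λ] [Algebra K Λ], IsDomain (Λ ⊗[K] A)) :
    ∃ (R : Type) (_ : CommRing R) (_ : IsDomain R) (_ : Algebra K R) (i : L →ₐ[K] R)
      (r₁ r₂ : A →ₐ[K] R), ∀ (Λ : Type) [CommRing Λ] [Algebra K Λ] (φ : L →ₐ[K] Λ)
        (e₁ e₂ : A →ₐ[K] Λ), ∃ χ : R →ₐ[K] Λ, (∀ a, χ (i a) = φ a) ∧ (∀ a, χ (r₁ a) = e₁ a) ∧
          ∀ a, χ (r₂ a) = e₂ a :=
  ⟨(L ⊗[K] A) ⊗[K] A, inferInstance, tens_dom K L A h, inferInstance,
    Algebra.TensorProduct.includeLeft.comp Algebra.TensorProduct.includeLeft,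
    Algebra.TensorProduct.includeLeft.comp Algebra.TensorProduct.includeRight,
    Algebra.TensorProduct.includeRight, fun Λ _ _ φ e₁ e₂ =>
    ⟨Algebra.TensorProduct.lift (Algebra.TensorProduct.lift φ e₁ (fun _ _ => Commute.all _ _)) e₂
      (fun _ _ => Commute.all _ _), fun a => by simp, fun a => by simp, fun a => by simp⟩⟩

/-- The generic pair of points over an extension `L`. -/
theorem generic {K : Type} [Field K] (V : Pres K) (hg : AGeo V) (L : Type) [Field L]
    [Algebra K L] :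
    ∃ (R : Type) (_ : CommRing R) (_ : IsDomain R) (i : L →+* R) (g : V.σ ⊕ V.σ → R),
      (prod2 V).Pt (i.comp (algebraMap K L)) g ∧
      ∀ (Λ : Type) [CommRing Λ] (φ : L →+* Λ) (z : V.σ ⊕ V.σ → Λ),
        (prod2 V).Pt (φ.comp (algebraMap K L)) z →
        ∀ G : MvPolynomial (V.σ ⊕ V.σ) L, G.eval₂ i g = 0 → G.eval₂ φ z = 0 := by
  obtain ⟨R, _, _, _, i, r₁, r₂, hR⟩ := exists_tens K L _ hg
  have hi : (i : L →+* R).comp (algebraMap K L) = algebraMap K R := by
    ext a; simp
  have hr : ∀ r : (MvPolynomial V.σ K ⧸ V.I) →ₐ[K] R,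
      V.Pt (algebraMap K R) fun s => r (Ideal.Quotient.mk V.I (MvPolynomial.X s)) := by
    intro r k
    have h : (MvPolynomial.aeval fun s => r (Ideal.Quotient.mk V.I (MvPolynomial.X s)) :
        MvPolynomial V.σ K →ₐ[K] R) = r.comp (Ideal.Quotient.mkₐ K V.I) := by
      apply MvPolynomial.algHom_ext
      intro s
      simp
    have h2 := congrArg (fun φ : MvPolynomial V.σ K →ₐ[K] R => φ (V.F k)) h
    have h3 : Ideal.Quotient.mk V.I (V.F k) = 0 :=
      Ideal.Quotient.eq_zero_iff_mem.2 (Ideal.subset_span ⟨k, rfl⟩)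
    simpa [MvPolynomial.aeval_def, h3] using h2
  refine ⟨R, inferInstance, inferInstance, i, Sum.elim
    (fun s => r₁ (Ideal.Quotient.mk V.I (MvPolynomial.X s)))
    (fun s => r₂ (Ideal.Quotient.mk V.I (MvPolynomial.X s))), ?_, ?_⟩
  · rw [hi, prod2_pt]
    exact ⟨hr r₁, hr r₂⟩
  · intro Λ _ φ z hz G hG
    rw [prod2_pt] at hz
    let _ : Algebra K Λ := (φ.comp (algebraMap K L)).toAlgebra
    let e : ∀ x : V.σ → Λ, V.Pt (φ.comp (algebraMap K L)) x →
        ((MvPolynomial V.σ K ⧸ V.I) →ₐ[K] Λ) := fun x hx =>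
      Ideal.Quotient.liftₐ V.I (MvPolynomial.aeval x)
        (fun G hG => by rw [MvPolynomial.aeval_def]; exact pt_of_mem V _ x hx G hG)
    obtain ⟨χ, h1, h2, h3⟩ := hR Λ { φ with commutes' := fun _ => rfl } (e _ hz.1) (e _ hz.2)
    have h4 := congrArg (χ : R →+* Λ) hG
    rw [MvPolynomial.eval₂_comp_left, map_zero] at h4
    rw [← h4]
    congr 1
    · ext a; exact (h1 a).symm
    · funext s
      cases s with
      | inl s => simp [h2, e]
      | inr s => simp [h3, e]

end KMP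

end

end Pool.Agent.P.MP_daea48_ag
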