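import Pool.Agent.P.MP_daea48_ag.StK

/-! Teeth: a multisection of the family of curves over an open part of the first end. -/

open Set Polynomial
open scoped TensorProduct

namespace Pool.Agent.P.MP_daea48_ag

noncomputable section

open Classical

namespace KTP

theorem map_mon {R S : Type} [CommRing R] [CommRing S] (φ : R →+* S) {d : ℕ} (a : Fin d → R) :
    (mon a).map φ = mon (fun k => φ (a k)) := by
  simp [mon, Polynomial.map_sum]

theorem degree_low {R : Type} [CommRing R] {d : ℕ} (a : Fin d → R) :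
    (∑ k : Fin d, C (a k) * X ^ (k : ℕ) : R[X]).degree < d :=
  degree_sum_fin_lt a

theorem mon_monic {R : Type} [CommRing R] {d : ℕ} (a : Fin d → R) : (mon a).Monic :=
  monic_X_pow_add (degree_low a)

theorem mon_natDegree {R : Type} [CommRing R] [Nontrivial R] {d : ℕ} (a : Fin d → R) :
    (mon a).natDegree = d := by
  have h : (∑ k : Fin d, C (a k) * X ^ (k : ℕ) : R[X]).degree < (X ^ d : R[X]).degree := by
    rw [degree_X_pow]; exact degree_low a
  unfold mon
  rw [natDegree_add_eq_left_of_degree_lt h, natDegree_X_pow]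

theorem mon_coeff {R : Type} [CommRing R] {d : ℕ} (P : R[X]) (hP : P.Monic)
    (hd : P.natDegree = d) : mon (fun k : Fin d => P.coeff k) = P := by
  subst hd
  unfold mon
  rw [Fin.sum_univ_eq_sum_range (fun k => C (P.coeff k) * X ^ k)]
  exact hP.as_sum.symm

theorem pt_of_mem {K : Type} [Field K] (V : Pres K) {Λ : Type} [CommRing Λ] (j : K →+* Λ)
    (x : V.σ → Λ) (hx : V.Pt j x) (G : MvPolynomial V.σ K) (hG : G ∈ V.I) :
    G.eval₂ j x = 0 := by
  have h : V.I ≤ RingHom.ker (MvPolynomial.eval₂Hom j x) := by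
    unfold Pres.I
    rw [Ideal.span_le]
    rintro _ ⟨k, rfl⟩
    exact hx k
  exact h hG

theorem exists_closed (R : Type) [CommRing R] [IsDomain R] :
    ∃ (Ω : Type) (_ : Field Ω) (_ : IsAlgClosed Ω) (ι : R →+* Ω), Function.Injective ι :=
  ⟨AlgebraicClosure (FractionRing R), inferInstance, inferInstance,
    (algebraMap (FractionRing R) _).comp (algebraMap R (FractionRing R)),
    (algebraMap (FractionRing R) _).injective.comp (IsFractionRing.injective R _)⟩

theorem exists_tens (K L A : Type) [Field K] [Field L] [CommRing A] [Algebra K L] [Algebra K A]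
    (h : IsDomain (L ⊗[K] A)) (ev0 : A →ₐ[K] L) :
    ∃ (R : Type) (_ : CommRing R) (_ : IsDomain R) (_ : Algebra K R) (l : L →ₐ[K] R)
      (r : A →ₐ[K] R) (ev : R →ₐ[K] L), Function.Injective r ∧ (∀ a, ev (l a) = a) ∧
      ∀ a, ev (r a) = ev0 a :=
  ⟨L ⊗[K] A, inferInstance, h, inferInstance, Algebra.TensorProduct.includeLeft,
    Algebra.TensorProduct.includeRight,
    Algebra.TensorProduct.lift (AlgHom.id K L) ev0 (fun _ _ => Commute.all _ _),
    Algebra.TensorProduct.includeRight_injective (algebraMap K L).injective,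
    fun a => by simp, fun a => by simp⟩

/-- A generic first point together with a second point where `D` does not vanish. -/
theorem generic {K : Type} [Field K] (V : Pres K) (hg : AGeo V)
    (D : MvPolynomial (V.σ ⊕ V.σ) K)
    (hD : ∃ x y, V.Pt (algebraMap K (AlgebraicClosure K)) x ∧ V.Pt (algebraMap K _) y ∧
      D.eval₂ (algebraMap K _) (Sum.elim x y) ≠ 0) :
    ∃ (Ω : Type) (_ : Field Ω) (_ : IsAlgClosed Ω) (f : K →+* Ω) (g y : V.σ → Ω),
      (∀ G : MvPolynomial V.σ K, G.eval₂ f g = 0 ↔ G ∈ V.I) ∧ V.Pt f y ∧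
      D.eval₂ f (Sum.elim g y) ≠ 0 := by
  obtain ⟨x0, y0, hx0, hy0, hD0⟩ := hD
  let ev0 : (MvPolynomial V.σ K ⧸ V.I) →ₐ[K] AlgebraicClosure K :=
    Ideal.Quotient.liftₐ V.I (MvPolynomial.aeval x0)
      (fun G hG => by rw [MvPolynomial.aeval_def]; exact pt_of_mem V _ x0 hx0 G hG)
  obtain ⟨R, _, _, _, l, r, ev, hr, hl, hr0⟩ := exists_tens K _ _ (hg (AlgebraicClosure K)) ev0
  obtain ⟨Ω, _, _, ι, hι⟩ := exists_closed R
  let gR : V.σ → R := fun s => r (Ideal.Quotient.mk V.I (MvPolynomial.X s))
  let yR : V.σ → R := fun s => l (y0 s)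
  have hgR : ∀ G : MvPolynomial V.σ K,
      G.eval₂ (algebraMap K R) gR = r (Ideal.Quotient.mk V.I G) := by
    intro G
    have h : (MvPolynomial.aeval gR : MvPolynomial V.σ K →ₐ[K] R) =
        r.comp (Ideal.Quotient.mkₐ K V.I) := by
      apply MvPolynomial.algHom_ext
      intro s
      simp [gR]
    have := congrArg (fun φ : MvPolynomial V.σ K →ₐ[K] R => φ G) h
    simpa [MvPolynomial.aeval_def] using this
  have hyR : ∀ G : MvPolynomial V.σ K,
      G.eval₂ (algebraMap K R) yR = l (G.eval₂ (algebraMap K _) y0) := by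
    intro G
    have h : (MvPolynomial.aeval yR : MvPolynomial V.σ K →ₐ[K] R) =
        l.comp (MvPolynomial.aeval y0) := by
      apply MvPolynomial.algHom_ext
      intro s
      simp [yR]
    have := congrArg (fun φ : MvPolynomial V.σ K →ₐ[K] R => φ G) h
    simpa [MvPolynomial.aeval_def] using this
  have hev : ∀ {τ : Type} (z : τ → R) (G : MvPolynomial τ K),
      G.eval₂ (ι.comp (algebraMap K R)) (fun s => ι (z s)) = ι (G.eval₂ (algebraMap K R) z) := by
    intro τ z G
    rw [MvPolynomial.eval₂_comp_left]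
    rfl
  refine ⟨Ω, inferInstance, inferInstance, ι.comp (algebraMap K R), fun s => ι (gR s),
    fun s => ι (yR s), ?_, ?_, ?_⟩
  · intro G
    rw [hev, map_eq_zero_iff ι hι, hgR, ← Ideal.Quotient.eq_zero_iff_mem]
    exact map_eq_zero_iff _ hr
  · intro k
    rw [hev, hyR, hy0 k]
    simp
  · have h1 : (Sum.elim (fun s => ι (gR s)) (fun s => ι (yR s)) : V.σ ⊕ V.σ → Ω) =
        fun s => ι (Sum.elim gR yR s) := by
      funext s; cases s <;> rfl
    rw [h1, hev, map_ne_zero_iff ι hι]
    intro h0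
    apply hD0
    have h : ev.comp (MvPolynomial.aeval (Sum.elim gR yR)) =
        MvPolynomial.aeval (Sum.elim x0 y0) := by
      apply MvPolynomial.algHom_ext
      intro s
      cases s <;> simp [ev0, gR, yR, hl, hr0]
    have h2 := congrArg
      (fun φ : MvPolynomial (V.σ ⊕ V.σ) K →ₐ[K] AlgebraicClosure K => φ D) h
    simp only [AlgHom.comp_apply, MvPolynomial.aeval_def] at h2
    rw [← h2, h0, map_zero]

end KTP

open KTP in
theorem KT_of (h1 : S_SP) : S_KT := by
  intro K _ _ V B hgeo
  obtain ⟨Ω, _, _, f, g, y, hgen, hy, hD⟩ := generic V hgeo B.D B.D_ne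
  have hg : V.Pt f g := fun k => (hgen _).2 (Ideal.subset_span ⟨k, rfl⟩)
  obtain ⟨θ, hθ⟩ : ∃ θ, (mon (evs f (Sum.elim g y) B.c)).eval θ = 0 := by
    apply IsAlgClosed.exists_root
    rw [degree_eq_natDegree (mon_monic _).ne_zero, mon_natDegree]
    exact_mod_cast B.dd_pos.ne'
  obtain ⟨-, hp, hp1, -⟩ := B.cover Ω f g y (B.D.eval₂ f (Sum.elim g y))⁻¹ θ hg hy
    (inv_mul_cancel₀ hD) hθ
  set p := evs f (Sum.elim (Sum.elim g y)
    fun b => cond b (B.D.eval₂ f (Sum.elim g y))⁻¹ θ) B.mk' with hpdef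
  clear_value p
  obtain ⟨D', d, a, Cf, hD', hd, hsp⟩ := h1.1 K Ω V.σ B.M.σ f g p
  have : CharZero Ω := charZero_of_injective_ringHom f.injective
  obtain ⟨n, hn⟩ : ∃ n : ℕ, (mon (evs f g a)).eval (n : Ω) ≠ 0 := by
    by_contra hcon
    push Not at hcon
    apply (mon_monic (evs f g a)).ne_zero
    apply Polynomial.eq_zero_of_infinite_isRoot
    exact Set.infinite_of_injective_forall_mem (f := fun n : ℕ => (n : Ω)) Nat.cast_injective
      hcon
  set PA : (MvPolynomial V.σ K)[X] := mon a with hPA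
  set PA' : (MvPolynomial V.σ K)[X] := PA.comp (X + C (n : MvPolynomial V.σ K)) with hPA'
  have hmon' : PA'.Monic := (mon_monic a).comp_X_add_C _
  have hdeg' : PA'.natDegree = d := by
    rw [hPA', ← taylor_apply, natDegree_taylor, hPA, mon_natDegree]
  set Pn : MvPolynomial V.σ K := PA.eval (n : MvPolynomial V.σ K) with hPn
  have hPx : ∀ (Λ : Type) [Field Λ] (j : K →+* Λ) (x : V.σ → Λ),
      mon (evs j x a) = PA.map (MvPolynomial.eval₂Hom j x) := by
    intro Λ _ j x
    rw [hPA, map_mon]; rfl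
  have hPx' : ∀ (Λ : Type) [Field Λ] (j : K →+* Λ) (x : V.σ → Λ),
      mon (evs j x fun k : Fin d => PA'.coeff k) = (mon (evs j x a)).comp (X + C (n : Λ)) := by
    intro Λ _ j x
    have h : mon (evs j x fun k : Fin d => PA'.coeff k) =
        PA'.map (MvPolynomial.eval₂Hom j x) := by
      conv_rhs => rw [← mon_coeff PA' hmon' hdeg', map_mon]
      rfl
    rw [h, hPx, hPA', map_comp]
    simp
  have hPnx : ∀ (Λ : Type) [Field Λ] (j : K →+* Λ) (x : V.σ → Λ),
      Pn.eval₂ j x = (mon (evs j x a)).eval (n : Λ) := by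
    intro Λ _ j x
    rw [hPx, hPn, ← map_natCast (MvPolynomial.eval₂Hom j x) n, eval_map, eval₂_hom]
    rfl
  refine ⟨⟨D' * Pn, ?_, d, hd, fun k => PA'.coeff k, fun s =>
    MvPolynomial.bind₁ (fun o : Option V.σ => o.elim
      (MvPolynomial.X (Sum.inr false) + (n : MvPolynomial (V.σ ⊕ Bool) K))
      fun t => MvPolynomial.X (Sum.inl t)) (Cf s) * MvPolynomial.X (Sum.inr true) *
      MvPolynomial.rename Sum.inl Pn, ?_⟩⟩
  · intro hmem
    have h := (hgen _).2 hmem
    rw [MvPolynomial.eval₂_mul, hPnx] at h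
    exact mul_ne_zero hD' hn h
  · intro Λ _ j x u hx hu
    rw [MvPolynomial.eval₂_mul] at hu
    have hDx : D'.eval₂ j x ≠ 0 := by
      intro h; rw [h] at hu; simp at hu
    have hPnx0 : Pn.eval₂ j x ≠ 0 := by
      intro h; rw [h] at hu; simp at hu
    have hspz : Spz f g j x := fun G hG => pt_of_mem V j x hx G ((hgen G).1 hG)
    rw [hPx']
    refine ⟨by rw [eval_comp]; simpa [hPnx] using hPnx0, fun w hw => ?_⟩
    have hw' : (mon (evs j x a)).eval (w + n) = 0 := by
      rw [eval_comp] at hw; simpa using hw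
    obtain ⟨hder, hS⟩ := hsp Λ j x hspz hDx (w + n) hw'
    have hq : evs j (Sum.elim x fun b => cond b u w) (fun s =>
        MvPolynomial.bind₁ (fun o : Option V.σ => o.elim
          (MvPolynomial.X (Sum.inr false) + (n : MvPolynomial (V.σ ⊕ Bool) K))
          fun t => MvPolynomial.X (Sum.inl t)) (Cf s) * MvPolynomial.X (Sum.inr true) *
          MvPolynomial.rename Sum.inl Pn) =
        fun s => (Cf s).eval₂ j (fun o => o.elim (w + n) x) / D'.eval₂ j x := by
      funext s
      have e1 : MvPolynomial.eval₂ j (Sum.elim x fun b => cond b u w)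
          (MvPolynomial.bind₁ (fun o : Option V.σ => o.elim
          (MvPolynomial.X (Sum.inr false) + (n : MvPolynomial (V.σ ⊕ Bool) K))
          fun t => MvPolynomial.X (Sum.inl t)) (Cf s)) =
          (Cf s).eval₂ j (fun o => o.elim (w + n) x) := by
        have := MvPolynomial.eval₂Hom_bind₁ j (Sum.elim x fun b => cond b u w)
          (fun o : Option V.σ => o.elim
          (MvPolynomial.X (Sum.inr false) + (n : MvPolynomial (V.σ ⊕ Bool) K))
          fun t => MvPolynomial.X (Sum.inl t)) (Cf s)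
        simp only [MvPolynomial.coe_eval₂Hom] at this
        rw [this]
        congr 1
        funext o
        cases o with
        | none =>
          change MvPolynomial.eval₂Hom j _ (_ + _) = _
          rw [map_add, map_natCast]
          simp
        | some t => simp
      have e2 : MvPolynomial.eval₂ j (Sum.elim x fun b => cond b u w)
          (MvPolynomial.rename Sum.inl Pn) = Pn.eval₂ j x := by
        rw [MvPolynomial.eval₂_rename]; rfl
      simp only [evs]
      rw [MvPolynomial.eval₂_mul, MvPolynomial.eval₂_mul, e1, e2, MvPolynomial.eval₂_X]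
      simp only [Sum.elim_inr, cond_true]
      rw [eq_div_iff hDx]
      linear_combination ((Cf s).eval₂ j (fun o => o.elim (w + n) x)) * hu
    rw [hq]
    refine ⟨?_, ?_, ?_⟩
    · rw [derivative_comp]
      simpa [eval_comp] using hder
    · intro k
      have h := hS (MvPolynomial.rename Sum.inr (B.M.F k)) (by
        rw [MvPolynomial.eval₂_rename]; exact hp k)
      rw [MvPolynomial.eval₂_rename] at h
      exact h
    · funext s
      have h := hS (MvPolynomial.X (Sum.inr (B.j₁ s)) - MvPolynomial.X (Sum.inl s)) (by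
        rw [MvPolynomial.eval₂_sub, MvPolynomial.eval₂_X, MvPolynomial.eval₂_X]
        have := congrFun hp1 s
        simpa [sub_eq_zero] using this)
      rw [MvPolynomial.eval₂_sub, MvPolynomial.eval₂_X, MvPolynomial.eval₂_X, sub_eq_zero] at h
      simpa using h

end

end Pool.Agent.P.MP_daea48_ag
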