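import Pool.Agent.P.MP_daea48_ag.StK

/-! A common principal open set of the charts. -/

open Set

namespace Pool.Agent.P.MP_daea48_ag

noncomputable section

open Classical

namespace KUAux

open MvPolynomial

section hom

variable {K F Λ σ τ : Type} [Field K]

/-- clearing denominators -/
theorem hom (h : MvPolynomial σ K) (ψ : τ → MvPolynomial σ K) (G : MvPolynomial τ K) :
    ∃ (n : ℕ) (G' : MvPolynomial σ K), ∀ (Λ : Type) [CommRing Λ] (j : K →+* Λ) (y : σ → Λ)
      (x : τ → Λ), (∀ s, x s * h.eval₂ j y = (ψ s).eval₂ j y) →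
      G.eval₂ j x * h.eval₂ j y ^ n = G'.eval₂ j y := by
  induction G using MvPolynomial.induction_on with
  | C a => exact ⟨0, C a, fun Λ _ j y x _ => by simp⟩
  | add p q hp hq =>
    obtain ⟨n, p', hp⟩ := hp
    obtain ⟨m, q', hq⟩ := hq
    refine ⟨n + m, p' * h ^ m + q' * h ^ n, fun Λ _ j y x hx => ?_⟩
    rw [eval₂_add, eval₂_add, eval₂_mul, eval₂_mul, eval₂_pow, eval₂_pow, ← hp Λ j y x hx,
      ← hq Λ j y x hx]
    ring
  | mul_X p s hp =>
    obtain ⟨n, p', hp⟩ := hp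
    refine ⟨n + 1, p' * ψ s, fun Λ _ j y x hx => ?_⟩
    rw [eval₂_mul, eval₂_mul, eval₂_X, ← hp Λ j y x hx, ← hx s]
    ring

/-- specialisations extend to fractions whose denominator survives -/
theorem spz_ext [CommRing F] [Field Λ] {f : K →+* F} {g : σ → F} {j : K →+* Λ} {y : σ → Λ}
    (hs : Spz f g j y) (h : MvPolynomial σ K) (ψ : τ → MvPolynomial σ K) {g' : τ → F}
    {x : τ → Λ} (hg : ∀ s, g' s * h.eval₂ f g = (ψ s).eval₂ f g)
    (hx : ∀ s, x s * h.eval₂ j y = (ψ s).eval₂ j y) (h0 : h.eval₂ j y ≠ 0) : Spz f g' j x := by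
  intro G hG
  obtain ⟨n, G', e⟩ := hom h ψ G
  have e1 := e F f g g' hg
  rw [hG, zero_mul] at e1
  have e2 := e Λ j y x hx
  rw [hs G' e1.symm] at e2
  exact (mul_eq_zero.1 e2).resolve_right (pow_ne_zero _ h0)

theorem spz_eq [CommRing F] [CommRing Λ] {f : K →+* F} {g : σ → F} {j : K →+* Λ} {y : σ → Λ}
    (hs : Spz f g j y) {G G' : MvPolynomial σ K} (h : G.eval₂ f g = G'.eval₂ f g) :
    G.eval₂ j y = G'.eval₂ j y := by
  have := hs (G - G') (by rw [eval₂_sub, h, sub_self])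
  rwa [eval₂_sub, sub_eq_zero] at this

theorem ev_bind [CommRing Λ] (j : K →+* Λ) (x : σ → Λ) (φ : τ → MvPolynomial σ K)
    (G : MvPolynomial τ K) : (bind₁ φ G).eval₂ j x = G.eval₂ j (evs j x φ) :=
  eval₂Hom_bind₁ j x φ G

theorem spz_of_pt [CommRing F] [CommRing Λ] {V : Pres K} {f : K →+* F} {g : V.σ → F}
    (hk : ∀ G, eval₂ f g G = 0 → G ∈ V.I) {j : K →+* Λ} {y : V.σ → Λ} (hy : V.Pt j y) :
    Spz f g j y := by
  intro G hG
  have : V.I ≤ RingHom.ker (eval₂Hom j y) := Ideal.span_le.2 (by rintro _ ⟨k, rfl⟩; exact hy k)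
  exact this (hk G hG)

end hom

section loc

variable {K F : Type} [Field K] [Field F]

/-- elements that a power of `t` moves into the range of `e` -/
def locR {R : Type} [CommRing R] (e : R →+* F) (t : R) : Subring F where
  carrier := {x | ∃ (n : ℕ) (P : R), x * e t ^ n = e P}
  mul_mem' := by
    rintro a b ⟨n, P, h⟩ ⟨m, Q, h'⟩
    exact ⟨n + m, P * Q, by rw [map_mul, ← h, ← h']; ring⟩
  one_mem' := ⟨0, 1, by simp⟩
  add_mem' := by
    rintro a b ⟨n, P, h⟩ ⟨m, Q, h'⟩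
    exact ⟨n + m, P * t ^ m + Q * t ^ n, by
      rw [map_add, map_mul, map_mul, map_pow, map_pow, ← h, ← h']; ring⟩
  zero_mem' := ⟨0, 0, by simp⟩
  neg_mem' := by
    rintro a ⟨n, P, h⟩
    exact ⟨n, -P, by rw [map_neg, ← h]; ring⟩

variable {jF : K →+* F} {m : ℕ} {V : Fin (m + 1) → Pres K} {g : ∀ i, (V i).σ → F}

theorem ev_mem {C : Subring F} (h1 : ∀ k, jF k ∈ C) {σ : Type} {x : σ → F} (h2 : ∀ s, x s ∈ C)
    (P : MvPolynomial σ K) : P.eval₂ jF x ∈ C := eval₂_mem (fun _ _ => h1 _) h2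

theorem exists_loc (A : Atlas jF V g) {H : MvPolynomial (V 0).σ K} (hH : H ∉ (V 0).I) :
    ∃ C : Subring F, (∀ i s, g i s ∈ C) ∧ (H.eval₂ jF (g 0))⁻¹ ∈ C ∧
      ∀ i, ∃ t : MvPolynomial (V i).σ K, t.eval₂ jF (g i) ≠ 0 ∧ (t.eval₂ jF (g i))⁻¹ ∈ C ∧
        ∀ x ∈ C, ∃ (n : ℕ) (P : MvPolynomial (V i).σ K),
          x * t.eval₂ jF (g i) ^ n = P.eval₂ jF (g i) := by
  have h0 : H.eval₂ jF (g 0) ≠ 0 := fun h => hH ((A.ker 0 H).1 h)
  have ha : ∀ i, ∃ a : MvPolynomial (V i).σ K, a.eval₂ jF (g i) ≠ 0 ∧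
      ∀ i' s, ∃ P : MvPolynomial (V i).σ K, g i' s * a.eval₂ jF (g i) = P.eval₂ jF (g i) := by
    intro i
    choose p q hq hpq using fun x : Σ i', (V i').σ => A.frac i (g x.1 x.2)
    refine ⟨∏ x, q x, ?_, fun i' s => ⟨p ⟨i', s⟩ * ∏ x ∈ Finset.univ.erase ⟨i', s⟩, q x, ?_⟩⟩
    · rw [eval₂_prod]; exact Finset.prod_ne_zero_iff.2 fun x _ => hq x
    · rw [← Finset.mul_prod_erase _ _ (Finset.mem_univ ⟨i', s⟩), eval₂_mul, eval₂_mul,
        ← hpq ⟨i', s⟩, mul_assoc]
  choose a ha0 ha using ha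
  set w : F := H.eval₂ jF (g 0) * ∏ i, (a i).eval₂ jF (g i) with hw
  have hw0 : w ≠ 0 := mul_ne_zero h0 (Finset.prod_ne_zero_iff.2 fun i _ => ha0 i)
  let C : Subring F := Subring.closure (range jF ∪ {x | ∃ i s, x = g i s} ∪ {w⁻¹})
  have c1 : ∀ k, jF k ∈ C := fun k => Subring.subset_closure (Or.inl (Or.inl ⟨k, rfl⟩))
  have c2 : ∀ i s, g i s ∈ C := fun i s => Subring.subset_closure (Or.inl (Or.inr ⟨i, s, rfl⟩))
  have c3 : w⁻¹ ∈ C := Subring.subset_closure (Or.inr rfl)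
  have c4 : ∀ i, ((a i).eval₂ jF (g i))⁻¹ ∈ C := fun i => by
    have : ((a i).eval₂ jF (g i))⁻¹ = w⁻¹ * (H.eval₂ jF (g 0) *
        ∏ i' ∈ Finset.univ.erase i, (a i').eval₂ jF (g i')) := by
      have := ha0 i
      rw [eq_inv_mul_iff_mul_eq₀ hw0, hw, ← Finset.mul_prod_erase _ _ (Finset.mem_univ i)]
      field_simp
    rw [this]
    exact mul_mem c3 (mul_mem (ev_mem c1 (c2 0) _) (prod_mem fun i' _ => ev_mem c1 (c2 i') _))
  refine ⟨C, c2, ?_, fun i => ?_⟩
  · have : (H.eval₂ jF (g 0))⁻¹ = w⁻¹ * ∏ i, (a i).eval₂ jF (g i) := by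
      rw [eq_inv_mul_iff_mul_eq₀ hw0, hw]
      field_simp
    rw [this]
    exact mul_mem c3 (prod_mem fun i' _ => ev_mem c1 (c2 i') _)
  · have d1 : ∀ t k, jF k ∈ locR (eval₂Hom jF (g i)) t := fun t k => ⟨0, MvPolynomial.C k, by simp⟩
    have d2 : ∀ i' s, g i' s ∈ locR (eval₂Hom jF (g i)) (a i) := fun i' s => by
      obtain ⟨P, hP⟩ := ha i i' s
      exact ⟨1, P, by rw [pow_one]; exact hP⟩
    obtain ⟨n, c, hc⟩ : w ∈ locR (eval₂Hom jF (g i)) (a i) :=
      mul_mem (ev_mem (d1 _) (d2 0) _) (prod_mem fun i' _ => ev_mem (d1 _) (d2 i') _)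
    rw [coe_eval₂Hom] at hc
    have hc0 : c.eval₂ jF (g i) ≠ 0 := hc ▸ mul_ne_zero hw0 (pow_ne_zero _ (ha0 i))
    refine ⟨a i * c, by rw [eval₂_mul]; exact mul_ne_zero (ha0 i) hc0, ?_, ?_⟩
    · rw [eval₂_mul, ← hc, mul_inv, mul_inv, ← inv_pow]
      exact mul_mem (c4 i) (mul_mem c3 (pow_mem (c4 i) _))
    · have : C ≤ locR (eval₂Hom jF (g i)) (a i * c) := by
        refine Subring.closure_le.2 ?_
        rintro x ((⟨k, rfl⟩ | ⟨i', s, rfl⟩) | rfl)
        · exact d1 _ k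
        · obtain ⟨P, hP⟩ := ha i i' s
          refine ⟨1, P * c, ?_⟩
          rw [pow_one, coe_eval₂Hom, eval₂_mul, eval₂_mul, ← hP, mul_assoc]
        · refine ⟨1, a i ^ (n + 1), ?_⟩
          rw [pow_one, coe_eval₂Hom, eval₂_mul, eval₂_pow, ← hc]
          field_simp
          ring
      exact fun x hx => this hx

/-- the inverses of coordinates of all charts generate the unit ideal -/
theorem exists_cpt (A : Atlas jF V g) (l : ∀ i, (V i).σ) (h0 : ∀ i, g i (l i) ≠ 0) :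
    ∃ G : MvPolynomial (Fin (m + 1)) K, constantCoeff G = 0 ∧
      G.eval₂ jF (fun i => (g i (l i))⁻¹) = 1 := by
  let e := eval₂Hom jF fun i => (g i (l i))⁻¹
  let u : Fin (m + 1) → e.range := fun i => e.rangeRestrict (X i)
  by_cases hJ : Ideal.span (range u) = ⊤
  · obtain ⟨r, hr⟩ := Ideal.mem_span_range_iff_exists_fun.1 ((Ideal.eq_top_iff_one _).1 hJ)
    choose P hP using fun i => e.rangeRestrict_surjective (r i)
    refine ⟨∑ i, P i * X i, by simp, ?_⟩
    have : e.rangeRestrict (∑ i, P i * X i) = 1 := by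
      rw [map_sum, ← hr]
      exact Finset.sum_congr rfl fun i _ => by rw [map_mul, hP]
    exact congrArg Subtype.val this
  · exfalso
    obtain ⟨O, h1, h2⟩ := Ideal.image_subset_nonunits_valuationSubring _ hJ
    obtain ⟨i, hi⟩ := A.val O fun k => h1 ⟨MvPolynomial.C k, by simp [e]⟩
    have h3 : (g i (l i))⁻¹ ∈ O.nonunits :=
      h2 ⟨u i, Ideal.subset_span ⟨i, rfl⟩, by simp [u, e]⟩
    exact (O.inv_mem_nonunits_iff.1 h3).elim (h0 i) fun h => h (hi _)

end loc

section pres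

variable {K : Type} [Field K]

/-- the principal open set `h ≠ 0` -/
@[reducible] def opn (V : Pres K) (h : MvPolynomial V.σ K) : Pres K where
  σ := Option V.σ
  ι := V.ι
  κ := Option V.κ
  fr a := some (V.fr a)
  F k := k.elim (X none * rename some h - 1) fun k => rename some (V.F k)
  card := by rw [Fintype.card_option, Fintype.card_option, V.card, add_assoc]
  jac Λ _ j x hx H h1 h2 := by
    have e0 : ∀ p : MvPolynomial V.σ K, pderiv (none : Option V.σ) (rename some p) = 0 := fun p =>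
      pderiv_eq_zero_of_notMem_vars fun h => by
        obtain ⟨i, -, hi⟩ := mem_vars_rename _ _ h
        exact Option.some_ne_none _ hi
    have e1 : H ∘ some = 0 := by
      refine V.jac Λ j (x ∘ some) (fun k => ?_) (H ∘ some) h1 fun k => ?_
      · have := hx (some k)
        rwa [Option.elim_some, eval₂_rename] at this
      · have := h2 (some k)
        rw [Option.elim_some, Fintype.sum_option, e0, eval₂_zero, zero_mul, zero_add] at this
        simp only [pderiv_rename (Option.some_injective _), eval₂_rename] at this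
        exact this
    have e2 : ∀ s, H (some s) = 0 := fun s => congrFun e1 s
    have e3 := h2 none
    have e4 := hx none
    simp only [Option.elim_none, Fintype.sum_option, e2, mul_zero, Finset.sum_const_zero, add_zero,
      map_sub, Derivation.leibniz, e0, pderiv_X_self, Derivation.map_one_eq_zero, smul_eq_mul,
      mul_one, sub_zero, zero_add] at e3
    rw [Option.elim_none, eval₂_sub, eval₂_mul, eval₂_one, sub_eq_zero] at e4
    funext s
    cases s with
    | none => exact (mul_eq_zero.1 e3).resolve_left (right_ne_zero_of_mul_eq_one e4)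
    | some s => exact e2 s

theorem opn_pt {V : Pres K} {h : MvPolynomial V.σ K} {Λ : Type} [CommRing Λ] {j : K →+* Λ}
    {x : Option V.σ → Λ} :
    (opn V h).Pt j x ↔ V.Pt j (x ∘ some) ∧ x none * h.eval₂ j (x ∘ some) = 1 := by
  have e1 : ∀ k, eval₂ j x ((opn V h).F (some k)) = eval₂ j (x ∘ some) (V.F k) := fun k =>
    eval₂_rename _ _ _ _
  have e2 : eval₂ j x ((opn V h).F none) = x none * h.eval₂ j (x ∘ some) - 1 := by
    show eval₂ j x (X none * rename some h - 1) = _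
    rw [eval₂_sub, eval₂_mul, eval₂_one, eval₂_X, eval₂_rename]
  refine ⟨fun hx => ⟨fun k => (e1 k).symm.trans (hx _), sub_eq_zero.1 (e2.symm.trans (hx _))⟩,
    fun hx k => ?_⟩
  cases k with
  | none => exact e2.trans (sub_eq_zero.2 hx.2)
  | some k => exact (e1 k).trans (hx.1 k)

theorem opn_spz {F Λ : Type} [CommRing F] [Field Λ] {V : Pres K} {h : MvPolynomial V.σ K}
    {f : K →+* F} {g : Option V.σ → F} (hk : ∀ G, eval₂ f (g ∘ some) G = 0 → G ∈ V.I)
    (hg : (opn V h).Pt f g) {j : K →+* Λ} {x : Option V.σ → Λ} (hx : (opn V h).Pt j x) :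
    Spz f g j x := by
  rw [opn_pt] at hg hx
  refine spz_ext (spz_of_pt hk hx.1) h (fun o => o.elim 1 fun s => X s * h) (fun o => ?_)
    (fun o => ?_) (right_ne_zero_of_mul_eq_one hx.2)
  · cases o with
    | none => simpa using hg.2
    | some s => simp
  · cases o with
    | none => simpa using hx.2
    | some s => simp

/-- a point over a finite extension -/
theorem exists_ne [CharZero K] (hSP : S_SP) (U : Pres K) {F : Type} [Field F] {f : K →+* F}
    {g : U.σ → F} (hg : U.Pt f g) :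
    ∃ (d : ℕ) (c : Fin d → K) (Cf : U.σ → MvPolynomial Unit K), 0 < d ∧
      ∀ (Λ : Type) [Field Λ] (j : K →+* Λ) (θ : Λ), (mon (j ∘ c)).eval θ = 0 →
        U.Pt j (evs j (fun _ => θ) Cf) := by
  obtain ⟨D, d, a, Cf, hD, hd, h⟩ := hSP.1 K F Empty U.σ f Empty.elim g
  have e : ∀ (Λ : Type) [CommRing Λ] (j : K →+* Λ) (G : MvPolynomial Empty K),
      G.eval₂ j Empty.elim = j (G.coeff 0) := fun Λ _ j G => by
    conv_lhs => rw [eq_C_of_isEmpty G]
    rw [eval₂_C]
  rw [e, map_ne_zero] at hD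
  refine ⟨d, fun k => (a k).coeff 0,
    fun s => MvPolynomial.C (D.coeff 0)⁻¹ * rename (fun _ => ()) (Cf s), hd, fun Λ _ j θ hθ k => ?_⟩
  have h1 := (h Λ j Empty.elim (fun G hG => by
      rw [e, map_eq_zero] at hG
      rw [e, hG, map_zero]) (by rwa [e, map_ne_zero]) θ (by
      convert hθ using 3
      funext k
      exact e Λ j _)).2 (rename Sum.inr (U.F k)) (by rw [eval₂_rename]; exact hg k)
  rw [eval₂_rename] at h1
  convert h1 using 2
  funext s
  simp only [evs, eval₂_mul, eval₂_C, eval₂_rename, Function.comp_apply, Sum.elim_inr, e, map_inv₀]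
  rw [mul_comm, div_eq_mul_inv]
  congr 2
  funext o
  cases o with
  | none => rfl
  | some s => exact s.elim

end pres

end KUAux

open KUAux MvPolynomial in
theorem KU_of (h1 : S_Norm) (h2 : S_SP) : S_KU := by
  intro K F _ _ _ jF m V g A H hH
  obtain ⟨C, c1, c2, c3⟩ := exists_loc A hH
  choose t t0 t1 t2 using c3
  have hk : ∀ i G, eval₂ jF (g i) G = 0 → G ∈ (V i).I := fun i G => (A.ker i G).1
  have hp : ∀ i, (V i).Pt jF (g i) := fun i k => (A.ker i _).2 (Ideal.subset_span ⟨k, rfl⟩)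
  let gU : Option (V 0).σ → F := fun o => o.elim ((t 0).eval₂ jF (g 0))⁻¹ (g 0)
  have hU : (opn (V 0) (t 0)).Pt jF gU := opn_pt.2 ⟨hp 0, inv_mul_cancel₀ (t0 0)⟩
  have spz : ∀ {Λ : Type} [Field Λ] {j : K →+* Λ} {x : Option (V 0).σ → Λ},
      (opn (V 0) (t 0)).Pt j x → Spz jF gU j x := fun hx => opn_spz (hk 0) hU hx
  have hC : ∀ x ∈ C, ∃ P : MvPolynomial (Option (V 0).σ) K, P.eval₂ jF gU = x := fun x hx => by
    obtain ⟨n, P, hP⟩ := t2 0 x hx
    refine ⟨rename some P * X none ^ n, ?_⟩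
    rw [eval₂_mul, eval₂_pow, eval₂_X, eval₂_rename]
    change P.eval₂ jF (g 0) * ((t 0).eval₂ jF (g 0))⁻¹ ^ n = x
    rw [← hP, mul_assoc, ← mul_pow, mul_inv_cancel₀ (t0 0), one_pow, mul_one]
  obtain ⟨φ, hφ, hφ0⟩ : ∃ φ : ∀ i, (V i).σ → MvPolynomial (Option (V 0).σ) K,
      (∀ i s, (φ i s).eval₂ jF gU = g i s) ∧ ∀ s, φ 0 s = X (some s) := by
    choose φ hφ using fun i s => hC _ (c1 i s)
    refine ⟨fun i => Fin.cases (motive := fun i => (V i).σ → MvPolynomial (Option (V 0).σ) K)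
      (fun s => X (some s)) (fun i => φ i.succ) i, fun i => ?_, fun s => rfl⟩
    induction i using Fin.cases with
    | zero => exact fun s => eval₂_X _ _ _
    | succ i => exact fun s => hφ _ s
  have hφ' : ∀ i, evs jF gU (φ i) = g i := fun i => funext (hφ i)
  have hψ : ∀ i, ∃ (h : MvPolynomial (V i).σ K) (ψ : Option (V 0).σ → MvPolynomial (V i).σ K),
      h.eval₂ jF (g i) ≠ 0 ∧ (h.eval₂ jF (g i))⁻¹ ∈ C ∧
        ∀ s, gU s * h.eval₂ jF (g i) = (ψ s).eval₂ jF (g i) := fun i => by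
    have : ∀ s, gU s ∈ C := fun s => by
      cases s with
      | none => exact t1 0
      | some s => exact c1 0 s
    choose n P hP using fun s => t2 i _ (this s)
    refine ⟨t i ^ ∑ s, n s, fun s => P s * t i ^ ∑ s' ∈ Finset.univ.erase s, n s', ?_, ?_,
      fun s => ?_⟩
    · rw [eval₂_pow]; exact pow_ne_zero _ (t0 i)
    · rw [eval₂_pow, ← inv_pow]; exact pow_mem (t1 i) _
    · rw [eval₂_mul, eval₂_pow, eval₂_pow, ← hP,
        ← Finset.add_sum_erase _ _ (Finset.mem_univ s), pow_add, mul_assoc]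
  choose h ψ h0 hinv hψ using hψ
  have inv : ∀ i (G : MvPolynomial (V i).σ K), G.eval₂ jF (g i) ≠ 0 → (G.eval₂ jF (g i))⁻¹ ∈ C →
      ∃ u : MvPolynomial (Option (V 0).σ) K, ∀ (Λ : Type) [Field Λ] (j : K →+* Λ)
        (x : Option (V 0).σ → Λ), (opn (V 0) (t 0)).Pt j x →
        u.eval₂ j x * G.eval₂ j (evs j x (φ i)) = 1 := by
    intro i G a1 a2
    obtain ⟨u, hu⟩ := hC _ a2
    refine ⟨u, fun Λ _ j x hx => ?_⟩
    have := spz_eq (spz hx) (G := u * bind₁ (φ i) G) (G' := 1) (by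
      rw [eval₂_mul, ev_bind, hφ', hu, eval₂_one, inv_mul_cancel₀ a1])
    rwa [eval₂_mul, ev_bind, eval₂_one] at this
  refine ⟨{
    U := opn (V 0) (t 0)
    φ := φ
    ψ := ψ
    h := h
    fw := fun i Λ _ j x hx => ⟨fun k => ?_, ?_, fun s => ?_⟩
    bw := fun i Λ _ j y hy hy0 => ?_
    eι := Equiv.refl _
    φ_fr := fun a => hφ0 _
    dens := fun i => ?_
    cpt := fun l => ?_
    ne := exists_ne h2 _ hU }, fun ξ hξ => ?_, inv 0 H (fun e => hH (hk 0 H e)) c2⟩
  · exact (ev_bind j x (φ i) _).symm.trans (spz hx _ (by rw [ev_bind, hφ']; exact hp i k))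
  · obtain ⟨u, hu⟩ := inv i (h i) (h0 i) (hinv i)
    exact right_ne_zero_of_mul_eq_one (hu Λ j x hx)
  · have := spz_eq (spz hx) (G := bind₁ (φ i) (ψ i s)) (G' := bind₁ (φ i) (h i) * X s) (by
      rw [eval₂_mul, ev_bind, ev_bind, hφ', eval₂_X, ← hψ, mul_comm])
    rwa [eval₂_mul, ev_bind, ev_bind, eval₂_X] at this
  · have hs : Spz jF (Sum.elim gU (g i)) j
        (Sum.elim (fun s => (ψ i s).eval₂ j y / (h i).eval₂ j y) y) := by
      refine spz_ext (spz_of_pt (hk i) hy) (h i) (Sum.elim (ψ i) fun s => X s * h i)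
        (fun s => ?_) (fun s => ?_) hy0
      · cases s with
        | inl s => exact hψ i s
        | inr s => simp
      · cases s with
        | inl s => exact div_mul_cancel₀ _ hy0
        | inr s => simp
    refine ⟨fun k => ?_, funext fun s => ?_⟩
    · have := hs (rename Sum.inl ((opn (V 0) (t 0)).F k)) (by rw [eval₂_rename]; exact hU k)
      rwa [eval₂_rename] at this
    · have := spz_eq hs (G := rename Sum.inl (φ i s)) (G' := X (Sum.inr s)) (by
        rw [eval₂_rename, eval₂_X]; exact hφ i s)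
      rwa [eval₂_rename, eval₂_X] at this
  · obtain ⟨N, G', a1, a2⟩ := h1.1 K F (V i) jF (g i) (h i) (hp i) (h0 i)
    refine ⟨N, a1, fun Λ _ j y hy hN => ?_⟩
    have := spz_eq (spz_of_pt (hk i) hy) (G := h i * G') (G' := rename (V i).fr N) (by
      rw [eval₂_mul, eval₂_rename, a2])
    rw [eval₂_mul, eval₂_rename] at this
    exact left_ne_zero_of_mul (this ▸ hN)
  · by_cases hz : ∀ i, g i (l i) ≠ 0
    · obtain ⟨G, a1, a2⟩ := exists_cpt A l hz
      refine ⟨G, a1, fun Λ _ j x u hx hu => ?_⟩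
      have key : ∀ {R : Type} [CommRing R] (f : K →+* R) (z : Option (V 0).σ → R)
          (v : Fin (m + 1) → R), (∀ i, v i * (φ i (l i)).eval₂ f z = 1) → ∀ i,
          v i * (∏ i, φ i (l i)).eval₂ f z =
            (∏ i' ∈ Finset.univ.erase i, φ i' (l i')).eval₂ f z := by
        intro R _ f z v hv i
        rw [← Finset.mul_prod_erase _ _ (Finset.mem_univ i), eval₂_mul, ← mul_assoc, hv, one_mul]
      have hs : Spz jF (fun i => (g i (l i))⁻¹) j u :=
        spz_ext (spz hx) (∏ i, φ i (l i)) (fun i => ∏ i' ∈ Finset.univ.erase i, φ i' (l i'))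
          (key jF gU _ fun i => by rw [hφ, inv_mul_cancel₀ (hz i)]) (key j x u hu) (by
            rw [eval₂_prod]
            exact Finset.prod_ne_zero_iff.2 fun i _ => right_ne_zero_of_mul_eq_one (hu i))
      have := spz_eq hs (G := G) (G' := 1) (by rw [a2, eval₂_one])
      rwa [eval₂_one] at this
    · push Not at hz
      obtain ⟨i, hi⟩ := hz
      refine ⟨0, map_zero _, fun Λ _ j x u hx hu => ?_⟩
      exact absurd (spz hx (φ i (l i)) ((hφ i _).trans hi)) (right_ne_zero_of_mul_eq_one (hu i))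
  · let e := eval₂Hom jF gU
    have hker : RingHom.ker e.rangeRestrict ≤ RingHom.ker (eval₂Hom (RingHom.id K) ξ) :=
      fun G hG => spz hξ G (congrArg Subtype.val hG)
    have hχ := e.rangeRestrict.liftOfSurjective_comp_apply e.rangeRestrict_surjective ⟨_, hker⟩
    refine ⟨e.range, e.rangeRestrict.liftOfSurjective e.rangeRestrict_surjective ⟨_, hker⟩,
      fun k => ⟨⟨MvPolynomial.C k, eval₂_C _ _ _⟩, ?_⟩, fun i s => ⟨⟨φ i s, hφ i s⟩, ?_⟩⟩
    · have e1 := hχ (MvPolynomial.C k)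
      rw [eval₂Hom_C] at e1
      convert e1 using 2
      · exact Subtype.ext (eval₂_C _ _ _).symm
      · rfl
    · convert hχ (φ i s) using 2
      · exact Subtype.ext (hφ i s).symm
      · rfl

end

end Pool.Agent.P.MP_daea48_ag
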