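import Pool.Agent.P.MP_daea48_ag.KC

/-! The theorem in coordinates. -/

open Set Filter Topology Polynomial

namespace Pool.Agent.P.MP_daea48_ag

namespace KA

variable {K : Type} [Field K] [Algebra ℝ K] (F : FF K)

theorem evD_and {p q : ℝ[X] → Prop} (hp : evD p) (hq : evD q) : evD fun δ => p δ ∧ q δ := by
  obtain ⟨a, ha, h1⟩ := hp
  obtain ⟨b, hb, h2⟩ := hq
  exact ⟨a * b, mul_ne_zero ha hb, fun δ h0 h =>
    ⟨h1 δ h0 (dvd_of_mul_right_dvd h), h2 δ h0 (dvd_of_mul_left_dvd h)⟩⟩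

theorem evD_exists {p : ℝ[X] → Prop} (hp : evD p) : ∃ δ, p δ := by
  obtain ⟨a, ha, h1⟩ := hp
  exact ⟨a, h1 a ha dvd_rfl⟩

theorem setup (hSpr : S_Spr) (hI1 : S_Inst1) (hI2 : S_Inst2) (hI3 : S_Inst3) (hIFT : S_IFT)
    (hAPS : S_APS) (hTooth : S_Tooth) (hComb : S_Comb) (hLoc : S_Loc) (hFill : S_Fill)
    (hFinal : S_Final) (hGHS : S_GHS) (hUnw : S_Unw) {m : ℕ} {V : Fin (m + 1) → Pres K}
    (D : KU V) (B : KM (V 0)) (T : KT B) (hinv : D.Inv T.H) :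
    ∃ δ l f, 0 < l ∧ Cov (cx F.Q) F.d (cx1 δ) ∧ SprEq F D.U δ f ∧ FinalOK F D.U δ l ∧
      ∀ (L : Type) [Field L] (j : K →+* L) (I : L), I ^ 2 = -1 → ∃ i η, (V i).Pt j η := by
  obtain ⟨-, -, -, -, -, s6, -, -, s9, -⟩ := hSpr K F
  obtain ⟨δ, ⟨hc, hδ⟩, ⟨f, hf⟩, hV, ⟨fM, hM⟩, ⟨hne, hch⟩, h2, hu⟩ := evD_exists (evD_and s9
    (evD_and ((hI1 K F).1 D.U) (evD_and (s6 _ _ fun i => (hI1 K F).1 (V i))
    (evD_and ((hI1 K F).1 B.M) (evD_and (hI2 K F m V D) (evD_and (hI3 K F m V D B T hinv)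
    (hUnw K F m V D)))))))
  have fa : ∀ (W : Pres K) g, SprEq F W δ g →
      HasFAPS (CV (cx F.Q) (cx1 δ)) (F.US W δ) (prV W) := fun W g hg =>
    ⟨_, inferInstance, inferInstance, inferInstance, g, hg.1⟩
  have ap : ∀ (W : Pres K) g, SprEq F W δ g → HasAPS (F.US W δ) (prB _ (prV W)) := fun W g hg =>
    hAPS.1 _ _ _ _ _ _ (hAPS.2.1 _ _ _ hc) (fa W g hg)
  have tc : ∀ (W : Pres K) g, SprEq F W δ g → Nonempty (TC (F.US W δ) (prB _ (prV W))) :=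
    fun W g hg => hIFT.1 _ _ _ _ (ap W g hg)
  have tV : ∀ i, Nonempty (TC (F.US (V i) δ) (prB _ (prV (V i)))) := fun i =>
    (hV i).elim fun g hg => tc _ g hg
  obtain ⟨ch, hcpt⟩ := hch tV
  obtain ⟨Tw⟩ := h2 (tV 0) (tc _ fM hM)
  obtain ⟨TU⟩ := tc _ f hf
  obtain ⟨hb, hconn⟩ := hLoc _ _ _ _ _ _ _ _ TU Tw
  have hbr := hb (hComb _ _ _ _ _ _ _ _ Tw (hTooth _ _ _ _ _ _ _ _ Tw))
  have hfill := hFill _ _ _ _ _ _ _ _ Tw _ ch (ap _ f hf) hcpt hbr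
  obtain ⟨l, hl, hF⟩ := hFinal K F D.U δ hc hδ (fa _ f hf) hbr hconn hfill hne
  refine ⟨δ, l, f, hl, hc, hf, hF, hu l hl ?_⟩
  obtain ⟨Bad, -, hoka, -, -, hg⟩ := hF
  exact hGHS _ _ _ _ Bad hoka hg

theorem lift (hKv : S_Kv) (hK : PointlessFF K) {m : ℕ} {V : Fin (m + 1) → Pres K} (D : KU V)
    {O : ValuationSubring K} (hO : IsPlace O) {i : Fin (m + 1)}
    {η : (V i).σ → O.valuation.Completion} (hη : (V i).Pt (toCpl O) η)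
    {N : Set ((V i).σ → O.valuation.Completion)} (hN : N ∈ 𝓝 η) :
    ∃ ζ, D.U.Pt (toCpl O) ζ ∧ {y | evs (toCpl O) y (D.φ i) ∈ N} ∈ 𝓝 ζ := by
  obtain ⟨M, hM, hd⟩ := D.dens i
  obtain ⟨η', h1, h2, h3⟩ := (hKv K O hK hO).2.2.2.2.2.2.2.2.2 (V i) M η hM hη (interior N)
    (interior_mem_nhds.2 hN)
  obtain ⟨h4, h5⟩ := D.bw i _ (toCpl O) η' h2 (hd _ _ _ h2 h3)
  refine ⟨_, h4, ?_⟩
  have hc : Continuous fun y => evs (toCpl O) y (D.φ i) :=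
    continuous_pi fun s => KC.cont_eval _ _
  refine hc.continuousAt.preimage_mem_nhds ?_
  rw [h5]
  exact mem_interior_iff_mem_nhds.1 h1

end KA

theorem K_of (hFF : S_FF) (hKM : S_KM) (hKT : S_KT) (hKU : S_KU) (hSpr : S_Spr) (hI1 : S_Inst1)
    (hI2 : S_Inst2) (hI3 : S_Inst3) (hIFT : S_IFT) (hAPS : S_APS) (hTooth : S_Tooth)
    (hComb : S_Comb) (hLoc : S_Loc) (hFill : S_Fill) (hFinal : S_Final) (hGHS : S_GHS)
    (hUnw : S_Unw) (hKv : S_Kv) (h1 : S_Pl1) (h2 : S_Pl2) (hG : S_Germ) (hGl : S_Glob)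
    (hR : S_RatK) : S_K := by
  classical
  intro K 𝓕 _ _ _ jF m V g hK hA hrc S hS i η N hη
  have : CharZero K := charZero_of_injective_algebraMap (algebraMap ℝ K).injective
  have : Uncountable K := (algebraMap ℝ K).injective.uncountable
  obtain ⟨F⟩ := hFF K hK
  obtain ⟨B⟩ := hKM K (V 0) hA.geo hrc
  obtain ⟨T⟩ := hKT K (V 0) B hA.geo
  obtain ⟨D, hlink, hinv⟩ := hKU K 𝓕 jF m V g hA T.H T.H_ne
  obtain ⟨δ, l, f, hl, hc, hf, hF, hpt⟩ := KA.setup F hSpr hI1 hI2 hI3 hIFT hAPS hTooth hComb hLoc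
    hFill hFinal hGHS hUnw D B T hinv
  have key : ∀ O : ValuationSubring K, ∃ (ζ : D.U.σ → O.valuation.Completion)
      (M : Set (D.U.σ → O.valuation.Completion)), (IsPlace O → D.U.Pt (toCpl O) ζ) ∧ M ∈ 𝓝 ζ ∧
      ∀ h : O ∈ S, ∀ y ∈ M, evs (toCpl O) y (D.φ (i ⟨O, h⟩)) ∈ N ⟨O, h⟩ := by
    intro O
    by_cases h : O ∈ S
    · obtain ⟨ζ, h3, h4⟩ := KA.lift hKv hK D (hS O h) (hη ⟨O, h⟩).1 (hη ⟨O, h⟩).2
      exact ⟨ζ, _, fun _ => h3, h4, fun _ y hy => hy⟩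
    · by_cases hO : IsPlace O
      · obtain ⟨I, hI⟩ := (hKv K O hK hO).2.1
        obtain ⟨i', η', h'⟩ := hpt _ (toCpl O) I hI
        obtain ⟨ζ, h3, -⟩ := KA.lift hKv hK D hO h' univ_mem
        exact ⟨ζ, univ, fun _ => h3, univ_mem, fun a => (h a).elim⟩
      · exact ⟨0, univ, fun a => (hO a).elim, univ_mem, fun a => (h a).elim⟩
  choose ζ M hζ hM hMN using key
  obtain ⟨ξ, hξ, hx⟩ := KC.approx F hKv h1 h2 hG hGl hR hK D.U hl hc hf hF ζ hζ S hS M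
    fun O _ => hM O
  refine ⟨_, hlink ξ hξ, fun v => ?_⟩
  have := hMN v.1 v.2 _ (hx v.1 v.2)
  convert this using 2 with s
  exact KC.map_eval _ _ _

end Pool.Agent.P.MP_daea48_ag
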