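import Pool.Agent.P.MP_daea48_ag.StK

/-! Completions of a function field at a place. -/

open Set Filter Topology Polynomial

namespace Pool.Agent.P.MP_daea48_ag

namespace Kv

section Alg

variable {K : Type} [Field K] [Algebra ℝ K] {O : ValuationSubring K}

theorem v_const (hO : IsPlace O) {r : ℝ} (hr : r ≠ 0) : O.valuation (algebraMap ℝ K r) = 1 := by
  have h1 := (O.valuation_le_one_iff _).mpr (hO.2 r)
  have h2 := (O.valuation_le_one_iff _).mpr (hO.2 r⁻¹)
  rw [map_inv₀, map_inv₀] at h2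
  have h3 : O.valuation (algebraMap ℝ K r) ≠ 0 := by simpa using hr
  exact le_antisymm h1 ((inv_le_one₀ (zero_lt_iff.mpr h3)).mp h2)

theorem aeval_mem (hO : IsPlace O) {x : K} (hx : x ∈ O) (P : ℝ[X]) : aeval x P ∈ O := by
  induction P using Polynomial.induction_on' with
  | add p q hp hq => rw [map_add]; exact add_mem hp hq
  | monomial n a => rw [aeval_monomial]; exact mul_mem (hO.2 a) (pow_mem hx n)

theorem v_aeval (hO : IsPlace O) {y : K} (hy : O.valuation y < 1) {P : ℝ[X]} (hP : P ≠ 0) :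
    ∃ n : ℕ, O.valuation (aeval y P) = O.valuation y ^ n := by
  obtain ⟨Q, h1, h2⟩ := exists_eq_pow_rootMultiplicity_mul_and_not_dvd P hP 0
  refine ⟨P.rootMultiplicity 0, ?_⟩
  rw [map_zero, sub_zero] at h1 h2
  obtain ⟨Q', h3⟩ := X_dvd_sub_C (p := Q)
  have h4 : O.valuation (aeval y Q) = 1 := by
    rw [sub_eq_iff_eq_add'.mp h3, map_add, map_mul, aeval_X, aeval_C,
      Valuation.map_add_eq_of_lt_left, v_const hO (mt X_dvd_iff.mpr h2)]
    rw [v_const hO (mt X_dvd_iff.mpr h2), map_mul]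
    exact mul_lt_one_of_lt_of_le hy ((O.valuation_le_one_iff _).mpr
      (aeval_mem hO ((O.valuation_le_one_iff _).mp hy.le) Q'))
  conv_lhs => rw [h1, map_mul, map_pow, aeval_X, map_mul, h4, mul_one, map_pow]

theorem ex_poly (hK : PointlessFF K) (hO : IsPlace O) {z a : K} (hz : z ∈ O)
    (ht : Transcendental ℝ z) (ha : a ∈ O) (h0 : a ≠ 0) :
    ∃ P : ℝ[X], P ≠ 0 ∧ O.valuation (aeval z P) ≤ O.valuation a := by
  have hb : IsTranscendenceBasis ℝ fun _ : Unit => z :=
    (algebraicIndependent_unique_type_iff.mpr ht).isTranscendenceBasis_of_trdeg_le_of_finite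
      (by simp [hK.2.1])
  obtain ⟨t, ht, r, hr, e⟩ := (hb.isAlgebraic.1 a).exists_nonzero_eq_adjoin_mul
    (mem_nonZeroDivisors_of_ne_zero h0)
  have hA : ∀ r : Algebra.adjoin ℝ (range fun _ : Unit => z), ∃ P : ℝ[X], aeval z P = r := by
    rintro ⟨r, hr⟩
    rw [range_const, Algebra.adjoin_singleton_eq_range_aeval] at hr
    exact hr
  have htO : t ∈ O := by
    clear e
    induction ht using Algebra.adjoin_induction with
    | mem x hx => rw [hx]; exact ha
    | algebraMap r =>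
      obtain ⟨P, hP⟩ := hA r
      exact (hP ▸ aeval_mem hO hz P : (r : K) ∈ O)
    | add x y _ _ hx hy => exact add_mem hx hy
    | mul x y _ _ hx hy => exact mul_mem hx hy
  obtain ⟨P, hP⟩ := hA r
  refine ⟨P, ?_, ?_⟩
  · rintro rfl
    exact hr (Subtype.ext (by simpa using hP.symm))
  · rw [hP, show (r : K) = a * t from e.symm, map_mul]
    exact mul_le_of_le_one_right' ((O.valuation_le_one_iff _).mpr htO)

theorem arch (hK : PointlessFF K) (hO : IsPlace O) {y a : K} (hy : O.valuation y < 1) (hy0 : y ≠ 0)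
    (ha : a ≠ 0) : ∃ N : ℕ, O.valuation y ^ N ≤ O.valuation a := by
  by_cases h : a ∈ O
  · have ht : Transcendental ℝ y := by
      rintro ⟨P, hP, e⟩
      obtain ⟨n, hn⟩ := v_aeval hO hy hP
      rw [e, map_zero] at hn
      exact pow_ne_zero n (by simpa using hy0) hn.symm
    obtain ⟨P, hP, h1⟩ := ex_poly hK hO ((O.valuation_le_one_iff _).mp hy.le) ht h ha
    obtain ⟨n, hn⟩ := v_aeval hO hy hP
    exact ⟨n, hn ▸ h1⟩
  · exact ⟨0, by simpa using (not_le.mp (mt (O.valuation_le_one_iff _).mp h)).le⟩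

theorem ex_small (hO : IsPlace O) : ∃ y : K, y ≠ 0 ∧ O.valuation y < 1 := by
  obtain ⟨a, ha⟩ : ∃ a, a ∉ O := by
    by_contra h
    push Not at h
    exact hO.1 (eq_top_iff.mpr fun a _ => h a)
  exact ⟨a⁻¹, inv_ne_zero fun h => ha (h ▸ O.zero_mem),
    O.mem_nonunits_iff.mp (O.inv_mem_nonunits_iff.mpr (Or.inr ha))⟩

theorem ex_sq (hO : IsPlace O) {x : K} (hx : x ∈ O)
    (hr : ∀ r : ℝ, ¬ O.valuation (x - algebraMap ℝ K r) < 1) (P : ℝ[X]) :
    P ≠ 0 → O.valuation (aeval x P) < 1 → ∃ w : K, O.valuation (w ^ 2 + 1) < 1 := by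
  induction hn : P.natDegree using Nat.strong_induction_on generalizing P with
  | _ n ih =>
  intro hP h
  have key : ∀ f Q : ℝ[X], P = f * Q → 0 < f.natDegree → O.valuation (aeval x f) < 1 ∨
      ∃ w : K, O.valuation (w ^ 2 + 1) < 1 := fun f Q e hf => by
    have hQ : Q ≠ 0 := right_ne_zero_of_mul (e ▸ hP)
    by_cases h1 : O.valuation (aeval x Q) < 1
    · refine Or.inr (ih _ ?_ Q rfl hQ h1)
      rw [← hn, e, natDegree_mul (left_ne_zero_of_mul (e ▸ hP)) hQ]
      omega
    · rw [e, map_mul, map_mul, le_antisymm ((O.valuation_le_one_iff _).mpr (aeval_mem hO hx Q))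
        (not_lt.mp h1), mul_one] at h
      exact Or.inl h
  rcases Nat.eq_zero_or_pos P.natDegree with h0 | h0
  · rw [eq_C_of_natDegree_eq_zero h0] at h hP
    rw [aeval_C, v_const hO (by simpa using hP)] at h
    exact absurd h (lt_irrefl _)
  obtain ⟨z, hz⟩ := IsAlgClosed.exists_aeval_eq_zero ℂ P (natDegree_pos_iff_degree_pos.mp h0).ne'
  by_cases hi : z.im = 0
  · obtain ⟨Q, e⟩ : X - C z.re ∣ P := by
      rw [dvd_iff_isRoot, IsRoot.def, ← Complex.ofReal_eq_zero, ← hz]
      conv_rhs => rw [show z = algebraMap ℝ ℂ z.re from Complex.ext rfl (by simpa using hi)]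
      rw [aeval_algebraMap_apply, coe_aeval_eq_eval]
      rfl
    refine (key _ Q e (by simp)).resolve_left ?_
    simpa using hr z.re
  · obtain ⟨Q, e⟩ := P.quadratic_dvd_of_aeval_eq_zero_im_ne_zero hz hi
    refine (key _ Q e ?_).elim (fun h1 => ?_) id
    · rw [show (X ^ 2 - C (2 * z.re) * X + C (‖z‖ ^ 2) : ℝ[X]).natDegree = 2 by compute_degree!]
      exact two_pos
    · refine ⟨(x - algebraMap ℝ K z.re) / algebraMap ℝ K z.im, ?_⟩
      have h2 : algebraMap ℝ K z.im ≠ 0 := by simpa using hi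
      have h3 : ((x - algebraMap ℝ K z.re) / algebraMap ℝ K z.im) ^ 2 + 1 =
          aeval x (X ^ 2 - C (2 * z.re) * X + C (‖z‖ ^ 2) : ℝ[X]) / algebraMap ℝ K z.im ^ 2 := by
        rw [Complex.sq_norm, Complex.normSq_apply]
        simp only [map_add, map_sub, map_mul, map_pow, aeval_X, aeval_C, map_ofNat]
        field_simp
        ring
      rwa [h3, map_div₀, map_pow O.valuation, v_const hO hi, one_pow, div_one]

theorem ex_I (hK : PointlessFF K) (hO : IsPlace O) : ∃ w : K, O.valuation (w ^ 2 + 1) < 1 := by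
  obtain ⟨x, hx, hr⟩ : ∃ x ∈ O, ∀ r : ℝ, ¬ O.valuation (x - algebraMap ℝ K r) < 1 := by
    by_contra h
    push Not at h
    exact hK.2.2 O hO fun x hx => (h x hx).imp fun r hr => O.mem_nonunits_iff.mpr hr
  by_cases ht : IsAlgebraic ℝ x
  · obtain ⟨P, hP, e⟩ := ht
    exact ex_sq hO hx hr P hP (by simp [e])
  · obtain ⟨y, h0, hy⟩ := ex_small hO
    obtain ⟨P, hP, h⟩ := ex_poly hK hO hx ht ((O.valuation_le_one_iff _).mp hy.le) h0
    exact ex_sq hO hx hr P hP (h.trans_lt hy)

theorem rank (hK : PointlessFF K) (hO : IsPlace O) : MulArchimedean O.ValueGroup where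
  arch x y hy := by
    obtain ⟨a, rfl⟩ := O.valuation_surjective x
    obtain ⟨b, rfl⟩ := O.valuation_surjective y
    have hb : b ≠ 0 := by rintro rfl; simp at hy
    rcases eq_or_ne a 0 with rfl | ha
    · exact ⟨0, by simp⟩
    obtain ⟨N, hN⟩ := arch hK hO (y := b⁻¹) (by rw [map_inv₀]; exact inv_lt_one_of_one_lt₀ hy)
      (inv_ne_zero hb) (inv_ne_zero ha)
    rw [map_inv₀, map_inv₀, inv_pow, inv_le_inv₀ (pow_pos (zero_lt_one.trans hy) _)
      (zero_lt_iff.mpr (by simpa using ha))] at hN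
    exact ⟨N, hN⟩

end Alg

section Normed

variable {L : Type} [NontriviallyNormedField L] [CompleteSpace L]

theorem ex_sqrt [IsUltrametricDist L] (h2 : ‖(2 : L)‖ = 1) {w : L} (hw : ‖w ^ 2 + 1‖ < 1) :
    ∃ I : L, I ^ 2 = -1 := by
  set ε := w ^ 2 + 1 with hε
  have h0 : (2 : L) ≠ 0 := norm_ne_zero_iff.mp (by rw [h2]; exact one_ne_zero)
  have hs : MapsTo (fun t : L => -(ε + t ^ 2) / 2) (Metric.closedBall 0 ‖ε‖)
      (Metric.closedBall 0 ‖ε‖) := fun t ht => by
    rw [mem_closedBall_zero_iff] at ht ⊢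
    rw [norm_div, h2, div_one, norm_neg]
    refine (IsUltrametricDist.norm_add_le_max _ _).trans (max_le le_rfl ?_)
    rw [norm_pow]
    nlinarith [norm_nonneg t]
  have hc : ContractingWith ‖ε‖₊ (hs.restrict _ _ _) := by
    refine ⟨hw, LipschitzWith.of_dist_le_mul fun s t => ?_⟩
    rw [Subtype.dist_eq, Subtype.dist_eq, dist_eq_norm, dist_eq_norm]
    change ‖-(ε + s.1 ^ 2) / 2 - -(ε + t.1 ^ 2) / 2‖ ≤ ‖ε‖ * _
    rw [show -(ε + s.1 ^ 2) / 2 - -(ε + t.1 ^ 2) / 2 = -((s.1 + t.1) * (s.1 - t.1)) / 2 by ring,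
      norm_div, h2, div_one, norm_neg, norm_mul]
    exact mul_le_mul_of_nonneg_right ((IsUltrametricDist.norm_add_le_max _ _).trans
      (max_le (mem_closedBall_zero_iff.mp s.2) (mem_closedBall_zero_iff.mp t.2))) (norm_nonneg _)
  obtain ⟨t, ht, hf, -⟩ := hc.exists_fixedPoint' Metric.isClosed_closedBall.isComplete hs
    (Metric.mem_closedBall_self (norm_nonneg _)) (edist_ne_top _ _)
  have h1 : -(ε + t ^ 2) = t * 2 := (div_eq_iff h0).mp hf
  have h3 : 1 + t ≠ 0 := fun h => by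
    rw [mem_closedBall_zero_iff, eq_neg_of_add_eq_zero_right h, norm_neg, norm_one] at ht
    exact absurd hw (not_lt.mpr ht)
  refine ⟨w / (1 + t), ?_⟩
  rw [div_pow, div_eq_iff (pow_ne_zero 2 h3)]
  linear_combination -h1 - hε

omit [CompleteSpace L] in
theorem strict {K σ : Type} [Field K] [Fintype σ] (j : K →+* L) (η : σ → L)
    (G : MvPolynomial σ K) : HasStrictFDerivAt (fun x => G.eval₂ j x)
      (∑ s, (MvPolynomial.pderiv s G).eval₂ j η • (ContinuousLinearMap.proj s : (σ → L) →L[L] L))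
      η := by
  classical
  induction G using MvPolynomial.induction_on with
  | C a =>
    simp only [MvPolynomial.eval₂_C]
    refine (hasStrictFDerivAt_const (j a) η).congr_fderiv ?_
    ext H
    simp
  | add p q hp hq =>
    simp only [MvPolynomial.eval₂_add]
    refine (hp.fun_add hq).congr_fderiv ?_
    ext H
    simp [add_mul, Finset.sum_add_distrib]
  | mul_X p s hp =>
    have := hp.fun_mul (hasStrictFDerivAt_apply (𝕜 := L) s η)
    simp only [MvPolynomial.eval₂_mul, MvPolynomial.eval₂_X]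
    refine this.congr_fderiv ?_
    ext H
    simp [MvPolynomial.pderiv_X, Pi.single_apply, add_mul, Finset.sum_add_distrib,
      apply_ite (MvPolynomial.eval₂ j η), Finset.mul_sum, mul_assoc]

theorem dens {K : Type} [Field K] (j : K →+* L) (V : Pres K) (N : MvPolynomial V.ι K)
    (η : V.σ → L) (hN : N ≠ 0) (hη : V.Pt j η) {𝒩 : Set (V.σ → L)} (h𝒩 : 𝒩 ∈ 𝓝 η) :
    ∃ η' ∈ 𝒩, V.Pt j η' ∧ N.eval₂ j (η' ∘ V.fr) ≠ 0 := by
  have h1 := (hasStrictFDerivAt_pi.mpr fun i => hasStrictFDerivAt_apply (𝕜 := L) (V.fr i) η).prodMk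
    (hasStrictFDerivAt_pi.mpr fun k => strict j η (V.F k))
  have h2 := h1.map_nhds_eq_of_surj (by
    rw [LinearMap.range_eq_top, ← LinearMap.injective_iff_surjective_of_finrank_eq_finrank
      (by simp [V.card]), injective_iff_map_eq_zero]
    intro H hH
    rw [Prod.ext_iff] at hH
    exact V.jac L j η hη H (fun i => congrFun hH.1 i) fun k => by simpa using congrFun hH.2 k)
  have h3 := image_mem_map (m := fun x : V.σ → L =>
    (fun i => x (V.fr i), fun k => (V.F k).eval₂ j x)) h𝒩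
  rw [h2, funext hη] at h3
  obtain ⟨I, -, t, ht, h4⟩ := mem_pi.mp (nhds_pi (a := fun i => η (V.fr i)) ▸
    (Continuous.prodMk_left fun _ : V.κ => (0 : L)).continuousAt.preimage_mem_nhds h3)
  by_contra hn
  push Not at hn
  refine hN (MvPolynomial.map_injective j j.injective (MvPolynomial.funext_set t
    (fun i => infinite_of_mem_nhds _ (ht i)) fun x hx => ?_))
  obtain ⟨y, hy, e⟩ := h4 (fun i _ => hx i trivial : x ∈ I.pi t)
  rw [Prod.ext_iff] at e
  have e1 : y ∘ V.fr = x := e.1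
  rw [map_zero, map_zero, MvPolynomial.eval_map, ← e1]
  exact hn y hy fun k => congrFun e.2 k

end Normed

theorem v_toCpl {K : Type} [Field K] (O : ValuationSubring K) (a : K) :
    Valued.v (toCpl O a) = O.valuation a :=
  Valued.valuedCompletion_apply (WithVal.toVal O.valuation a)

end Kv

open Kv in
theorem Kv_of : S_Kv := by
  intro K _ _ O hK hO
  obtain ⟨y, hy0, hy⟩ := ex_small hO
  have := rank hK hO
  have : (Valued.v : Valuation O.valuation.Completion O.ValueGroup).IsNontrivial :=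
    ⟨toCpl O y, by rw [v_toCpl]; exact ⟨by simpa using hy0, hy.ne⟩⟩
  obtain ⟨_⟩ := (Valuation.nonempty_rankOne_iff_mulArchimedean
    (v := (Valued.v : Valuation O.valuation.Completion O.ValueGroup))).mpr
    (MulArchimedean.comap MonoidWithZeroHom.ValueGroup₀.embedding.toMonoidHom
      MonoidWithZeroHom.ValueGroup₀.embedding_strictMono)
  let := Valued.toNontriviallyNormedField O.valuation.Completion O.ValueGroup
  have hC : ∀ b x y, Cl O b x y ↔ ‖x - y‖ ≤ ‖toCpl O b‖ := fun b x y =>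
    Valued.toNormedField.norm_le_iff.symm
  refine ⟨fun y hy h0 a ha => ?_, ?_, fun b hb x => ?_, fun x N hN => ?_, fun b a a' hb => ?_,
    fun b b' x y hb h1 h2 => h2.trans ?_, fun b x y z h1 h2 => ?_, fun b x y h => ?_, ?_,
    fun V N η h1 h2 𝒩 h3 => dens (toCpl O) V N η h1 h2 h3⟩
  · obtain ⟨N, hN⟩ := arch hK hO (O.mem_nonunits_iff.mp hy) h0 ha
    refine ⟨N, (O.valuation_le_one_iff _).mp ?_⟩
    rwa [map_div₀, map_pow, div_le_one₀ (zero_lt_iff.mpr (by simpa using ha))]
  · obtain ⟨w, hw⟩ := ex_I hK hO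
    refine ex_sqrt (w := toCpl O w) ?_ (Valued.toNormedField.norm_lt_one_iff.mpr ?_)
    · have h2 : Valued.v (2 : O.valuation.Completion) = 1 := by
        rw [← map_ofNat (toCpl O) 2, v_toCpl, ← map_ofNat (algebraMap ℝ K) 2,
          v_const hO two_ne_zero]
      exact le_antisymm (Valued.toNormedField.norm_le_one_iff.mpr h2.le)
        (Valued.toNormedField.one_le_norm_iff.mpr h2.ge)
    · rwa [← map_pow, ← map_one (toCpl O), ← map_add, v_toCpl]
  · simp only [hC, ← dist_eq_norm]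
    exact Metric.closedBall_mem_nhds x (norm_pos_iff.mpr ((_root_.map_ne_zero _).mpr hb))
  · obtain ⟨ε, hε, h⟩ := Metric.mem_nhds_iff.mp hN
    obtain ⟨n, hn⟩ := exists_pow_lt_of_lt_one hε
      (Valued.toNormedField.norm_lt_one_iff.mpr ((v_toCpl O y).trans_lt hy))
    refine ⟨y ^ n, pow_ne_zero n hy0, fun z hz => h ?_⟩
    rw [hC, map_pow, norm_pow] at hz
    exact mem_ball_iff_norm.mpr (hz.trans_lt hn)
  · rw [Cl, ← map_sub, v_toCpl, v_toCpl, ← O.valuation_le_one_iff, map_div₀,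
      div_le_one₀ (zero_lt_iff.mpr (by simpa using hb))]
  · rwa [v_toCpl, v_toCpl, ← div_le_one₀ (zero_lt_iff.mpr (by simpa using hb)), ← map_div₀,
      O.valuation_le_one_iff]
  · rw [Cl, ← sub_add_sub_cancel x y z]
    exact Valuation.map_add_le _ h1 h2
  · rwa [Cl, Valuation.map_sub_swap]
  · exact UniformSpace.Completion.denseRange_coe.comp (WithVal.toVal_surjective _).denseRange
      (UniformSpace.Completion.continuous_coe _)

end Pool.Agent.P.MP_daea48_ag
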