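import Pool.Agent.P.MP_daea48_ag.StA

/-! Laurent splitting on an annulus. -/

open Set Filter Topology Metric MeasureTheory

namespace Pool.Agent.P.MP_daea48_ag

namespace LS

variable {Y : Type} [NormedAddCommGroup Y] [NormedSpace ℂ Y] [CompleteSpace Y]

/-- A bounded family of holomorphic maps has a holomorphic integral. -/
theorem param_int {F : ℂ → ℝ → Y} {l : ℂ} {ε K a b : ℝ} (hε : 0 < ε)
    (hd : ∀ t, DifferentiableOn ℂ (fun x => F x t) (ball l ε))
    (hc : ∀ x ∈ ball l ε, Continuous (F x))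
    (hK : ∀ x ∈ ball l ε, ∀ t, ‖F x t‖ ≤ K) :
    AnalyticAt ℂ (fun x => ∫ t in a..b, F x t) l := by
  refine DifferentiableOn.analyticAt (s := ball l (ε / 2)) (fun x0 hx0 => ?_)
    (ball_mem_nhds _ (half_pos hε))
  have hsub : ∀ x ∈ ball l (ε / 2), ball x (ε / 2) ⊆ ball l ε := fun x hx =>
    ball_subset_ball' (by have := mem_ball.1 hx; linarith)
  have hsub' : ball l (ε / 2) ⊆ ball l ε := ball_subset_ball (half_le_self hε.le)
  have hder : ∀ t, ∀ x ∈ ball l (ε / 2),
      HasDerivAt (fun x => F x t) (deriv (fun x => F x t) x) x := fun t x hx =>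
    ((hd t).differentiableAt (isOpen_ball.mem_nhds (hsub' hx))).hasDerivAt
  have key := intervalIntegral.hasDerivAt_integral_of_dominated_loc_of_deriv_le (μ := volume)
    (a := a) (b := b) (F := F) (F' := fun x t => deriv (fun x => F x t) x) (x₀ := x0)
    (s := ball l (ε / 2)) (bound := fun _ => 2 * K / (ε / 2)) (isOpen_ball.mem_nhds hx0)
    ?_ ((hc x0 (hsub' hx0)).intervalIntegrable _ _) ?_ ?_ intervalIntegrable_const
    (Eventually.of_forall fun t _ x hx => hder t x hx)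
  · exact key.2.differentiableAt.differentiableWithinAt
  · filter_upwards [isOpen_ball.mem_nhds (hsub' hx0)] with x hx
    exact (hc x hx).aestronglyMeasurable
  · classical
    refine aestronglyMeasurable_of_tendsto_ae (𝓝[≠] x0)
      (f := fun i t => if i ∈ ball l ε then slope (fun x => F x t) x0 i else 0) (fun i => ?_)
      (Eventually.of_forall fun t => ?_)
    · by_cases hi : i ∈ ball l ε
      · simp only [hi, if_true, slope_def_module]
        exact (((hc i hi).sub (hc x0 (hsub' hx0))).const_smul _).aestronglyMeasurable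
      · simp only [hi, if_false]
        exact aestronglyMeasurable_const
    · refine (hder t x0 hx0).tendsto_slope.congr' ?_
      filter_upwards [nhdsWithin_le_nhds (isOpen_ball.mem_nhds (hsub' hx0))] with i hi
      rw [if_pos hi]
  · refine Eventually.of_forall fun t _ x hx => ?_
    refine Complex.norm_deriv_le_div_of_mapsTo_ball ((hd t).mono (hsub x hx)) (fun z hz => ?_)
      (half_pos hε)
    rw [mem_closedBall, dist_eq_norm]
    linarith [norm_sub_le (F z t) (F x t), hK z (hsub x hx hz) t, hK x (hsub' hx) t]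

/-- The same for circle integrals. -/
theorem param_circ {G : ℂ → ℂ → Y} {l : ℂ} {ε K σ : ℝ} (hε : 0 < ε) (hσ : 0 ≤ σ)
    (hd : ∀ ζ ∈ sphere (0 : ℂ) σ, DifferentiableOn ℂ (fun x => G x ζ) (ball l ε))
    (hc : ∀ x ∈ ball l ε, ContinuousOn (G x) (sphere 0 σ))
    (hK : ∀ x ∈ ball l ε, ∀ ζ ∈ sphere (0 : ℂ) σ, ‖G x ζ‖ ≤ K) :
    AnalyticAt ℂ (fun x => ∮ ζ in C(0, σ), G x ζ) l := by
  unfold circleIntegral
  refine param_int (K := σ * K) hε (fun t => ?_) (fun x hx => ?_) (fun x hx t => ?_)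
  · exact (hd _ (circleMap_mem_sphere 0 hσ t)).const_smul _
  · simp only [deriv_circleMap]
    exact ((continuous_circleMap 0 σ).mul continuous_const).smul
      ((hc x hx).comp_continuous (continuous_circleMap 0 σ) (circleMap_mem_sphere 0 hσ))
  · rw [norm_smul, deriv_circleMap, norm_mul, Complex.norm_I, mul_one, norm_circleMap_zero,
      abs_of_nonneg hσ]
    exact mul_le_mul_of_nonneg_left (hK x hx _ (circleMap_mem_sphere 0 hσ t)) hσ

theorem isOpen_ann (r s : ℝ) : IsOpen (ann r s) :=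
  (isOpen_lt continuous_const continuous_norm).inter (isOpen_lt continuous_norm continuous_const)

theorem sphere_sub {r s σ : ℝ} (h1 : r < σ) (h2 : σ < s) : sphere (0 : ℂ) σ ⊆ ann r s :=
  fun z hz => by
    have : ‖z‖ = σ := by simpa using hz
    exact ⟨this ▸ h1, this ▸ h2⟩

theorem dist_sphere {σ : ℝ} {ζ z : ℂ} (hζ : ζ ∈ sphere (0 : ℂ) σ) : |‖z‖ - σ| ≤ ‖ζ - z‖ := by
  have : ‖ζ‖ = σ := by simpa using hζ
  rw [← this, norm_sub_rev]
  exact abs_norm_sub_norm_le z ζ

theorem ne_of_sphere {σ : ℝ} {ζ z : ℂ} (hζ : ζ ∈ sphere (0 : ℂ) σ) (hz : ‖z‖ ≠ σ) :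
    ζ - z ≠ 0 := fun h => by
  have := dist_sphere (z := z) hζ
  rw [h, norm_zero] at this
  exact hz (sub_eq_zero.1 (abs_nonpos_iff.1 this))

omit [CompleteSpace Y] in
theorem kern_cont {σ : ℝ} {f : ℂ → Y} {z : ℂ} (hf : ContinuousOn f (sphere 0 σ)) (hz : ‖z‖ ≠ σ) :
    ContinuousOn (fun ζ => (ζ - z)⁻¹ • f ζ) (sphere 0 σ) :=
  ((continuousOn_id.sub continuousOn_const).inv₀ fun _ h => ne_of_sphere h hz).smul hf

omit [CompleteSpace Y] in
theorem kern_bound {σ δ M : ℝ} {y : Y} {ζ z : ℂ} (hδ : 0 < δ) (hζ : ζ ∈ sphere (0 : ℂ) σ)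
    (hz : δ ≤ |‖z‖ - σ|) (hy : ‖y‖ ≤ M) : ‖(ζ - z)⁻¹ • y‖ ≤ δ⁻¹ * M := by
  rw [norm_smul, norm_inv]
  exact mul_le_mul (inv_anti₀ hδ (hz.trans (dist_sphere hζ))) hy (norm_nonneg _)
    (inv_pos.2 hδ).le

omit [CompleteSpace Y] in
theorem cauchy_bound {σ δ M : ℝ} {f : ℂ → Y} {z : ℂ} (hσ : 0 ≤ σ) (hδ : 0 < δ)
    (hf : ∀ ζ ∈ sphere (0 : ℂ) σ, ‖f ζ‖ ≤ M) (hz : δ ≤ |‖z‖ - σ|) :
    ‖cauchy σ f z‖ ≤ σ * (δ⁻¹ * M) :=
  circleIntegral.norm_two_pi_i_inv_smul_integral_le_of_norm_le_const hσ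
    fun ζ hζ => kern_bound hδ hζ hz (hf ζ hζ)

omit [CompleteSpace Y] in
theorem cauchy_sub {σ : ℝ} {f g : ℂ → Y} {z : ℂ} (hσ : 0 ≤ σ) (hf : ContinuousOn f (sphere 0 σ))
    (hg : ContinuousOn g (sphere 0 σ)) (hz : ‖z‖ ≠ σ) :
    cauchy σ (fun x => f x - g x) z = cauchy σ f z - cauchy σ g z := by
  unfold cauchy
  rw [← smul_sub, ← circleIntegral.integral_sub ((kern_cont hf hz).circleIntegrable hσ)
    ((kern_cont hg hz).circleIntegrable hσ)]
  simp only [smul_sub]

omit [CompleteSpace Y] in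
theorem cauchy_congr {σ : ℝ} {f g : ℂ → Y} (z : ℂ) (hσ : 0 ≤ σ) (h : EqOn f g (sphere 0 σ)) :
    cauchy σ f z = cauchy σ g z := by
  unfold cauchy
  rw [circleIntegral.integral_congr hσ (g := fun ζ => (ζ - z)⁻¹ • g ζ)
    fun ζ hζ => by simp only [h hζ]]

/-- The Cauchy formula on an annulus. -/
theorem cauchy_ann {r s a b : ℝ} {f : ℂ → Y} {z : ℂ} (hr : 0 < r) (ha : r < a) (hb : b < s)
    (hf : DifferentiableOn ℂ f (ann r s)) (h1 : a < ‖z‖) (h2 : ‖z‖ < b) :
    cauchy b f z = f z + cauchy a f z := by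
  have hz : z ∈ ann r s := ⟨ha.trans h1, h2.trans hb⟩
  have hab : a < b := h1.trans h2
  have ha0 : 0 < a := hr.trans ha
  have hg : DifferentiableOn ℂ (dslope f z) (ann r s) :=
    (Complex.differentiableOn_dslope ((isOpen_ann r s).mem_nhds hz)).2 hf
  have hsub : closedBall (0 : ℂ) b \ ball 0 a ⊆ ann r s := fun w hw => by
    have h3 : ‖w‖ ≤ b := by simpa using hw.1
    have h4 : a ≤ ‖w‖ := by simpa using hw.2
    exact ⟨ha.trans_le h4, h3.trans_lt hb⟩
  have key := Complex.circleIntegral_eq_of_differentiable_on_annulus_off_countable (c := 0)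
    ha0 hab.le (f := dslope f z) countable_empty (hg.continuousOn.mono hsub)
    fun w hw => hg.differentiableAt ((isOpen_ann r s).mem_nhds (hsub
      ⟨ball_subset_closedBall hw.1.1, fun h => hw.1.2 (ball_subset_closedBall h)⟩))
  have split : ∀ σ, r < σ → σ < s → ‖z‖ ≠ σ → (∮ ζ in C(0, σ), dslope f z ζ) =
      (∮ ζ in C(0, σ), (ζ - z)⁻¹ • f ζ) - (∮ ζ in C(0, σ), (ζ - z)⁻¹) • f z := by
    intro σ h3 h4 h5
    have h0 : 0 ≤ σ := (hr.trans h3).le
    rw [← circleIntegral.integral_smul_const, ← circleIntegral.integral_sub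
      ((kern_cont (hf.continuousOn.mono (sphere_sub h3 h4)) h5).circleIntegrable h0)
      ((kern_cont (f := fun _ => f z) continuousOn_const h5).circleIntegrable h0)]
    refine circleIntegral.integral_congr h0 fun ζ hζ => ?_
    rw [dslope_of_ne _ (sub_ne_zero.1 (ne_of_sphere hζ h5)), slope_def_module, smul_sub]
  rw [split b (ha.trans hab) hb h2.ne, split a ha (hab.trans hb) h1.ne',
    circleIntegral.integral_sub_inv_of_mem_ball (by simpa using h2)] at key
  have h0 : (∮ ζ in C(0, a), (ζ - z)⁻¹) = 0 := by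
    have hne : ∀ w ∈ closedBall (0 : ℂ) a, w - z ≠ 0 := fun w hw h => by
      have h3 : ‖w‖ ≤ a := by simpa using hw
      rw [sub_eq_zero.1 h] at h3
      linarith
    refine DiffContOnCl.circleIntegral_eq_zero ha0.le (DifferentiableOn.diffContOnCl ?_)
    rw [closure_ball _ ha0.ne']
    exact (differentiableOn_id.sub_const z).inv hne
  rw [h0, zero_smul, sub_zero, sub_eq_iff_eq_add] at key
  unfold cauchy
  rw [key, smul_add, smul_smul, inv_mul_cancel₀ Complex.two_pi_I_ne_zero, one_smul, add_comm]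

section param

variable {X : Type} [NormedAddCommGroup X] [NormedSpace ℂ X] [CompleteSpace X] {D : Set X}
  {f : X × ℂ → Y} {r s M : ℝ}

omit [CompleteSpace Y] [CompleteSpace X] in
theorem slice_diff (hf : AC (D ×ˢ ann r s) f) {x : X} (hx : x ∈ D) :
    DifferentiableOn ℂ (fun z => f (x, z)) (ann r s) := fun z hz =>
  (hf (fun w => (x, w)) z (analyticAt_const.prod analyticAt_id)
    (((isOpen_ann r s).eventually_mem hz).mono fun _ h => ⟨hx, h⟩)).differentiableAt
      |>.differentiableWithinAt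

/-- Cauchy integrals are analytic along analytic curves that miss the circle. -/
theorem cauchy_an (hr : 0 < r) (hf : AC (D ×ˢ ann r s) f) (hM : ∀ x ∈ D ×ˢ ann r s, ‖f x‖ ≤ M)
    {σ : ℝ} (h1 : r < σ) (h2 : σ < s) {γ : ℂ → X × ℂ} {l : ℂ} (hγ : AnalyticAt ℂ γ l)
    (hD : ∀ᶠ x in 𝓝 l, (γ x).1 ∈ D) (hl : ‖(γ l).2‖ ≠ σ) :
    AnalyticAt ℂ (fun x => cauchy σ (fun z => f ((γ x).1, z)) (γ x).2) l := by
  have hδ : 0 < |‖(γ l).2‖ - σ| / 2 := half_pos (abs_pos.2 (sub_ne_zero.2 hl))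
  have hcont : ContinuousAt (fun x => |‖(γ x).2‖ - σ|) l :=
    (hγ.continuousAt.snd.norm.sub continuousAt_const).abs
  have hfar : ∀ᶠ x in 𝓝 l, |‖(γ l).2‖ - σ| / 2 < |‖(γ x).2‖ - σ| :=
    hcont.eventually (lt_mem_nhds (by linarith))
  obtain ⟨ε, hε, h⟩ := Metric.eventually_nhds_iff_ball.1
    (hγ.eventually_analyticAt.and (hD.eventually_nhds.and hfar))
  have hne : ∀ x ∈ ball l ε, ‖(γ x).2‖ ≠ σ := fun x hx h0 => by
    have := (h x hx).2.2
    rw [h0, sub_self, abs_zero] at this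
    linarith
  unfold cauchy
  refine analyticAt_const.smul (param_circ (K := (|‖(γ l).2‖ - σ| / 2)⁻¹ * M) hε (hr.trans h1).le
    (fun ζ hζ x hx => ?_) (fun x hx => ?_) (fun x hx ζ hζ => ?_))
  · have a1 : AnalyticAt ℂ (fun x => (γ x).1) x := analyticAt_fst.comp (h x hx).1
    have a2 : AnalyticAt ℂ (fun x => (γ x).2) x := analyticAt_snd.comp (h x hx).1
    have a3 := hf (fun x => ((γ x).1, ζ)) x (a1.prod analyticAt_const)
      ((h x hx).2.1.mono fun _ hy => ⟨hy, sphere_sub h1 h2 hζ⟩)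
    exact (((analyticAt_const.sub a2).inv (ne_of_sphere hζ (hne x hx))).smul a3).differentiableAt
      |>.differentiableWithinAt
  · exact kern_cont ((slice_diff hf (h x hx).2.1.self_of_nhds).continuousOn.mono
      (sphere_sub h1 h2)) (hne x hx)
  · exact kern_bound hδ hζ (h x hx).2.2.le
      (hM _ ⟨(h x hx).2.1.self_of_nhds, sphere_sub h1 h2 hζ⟩)

end param

theorem Pp_in {r s : ℝ} {f : ℂ → Y} {z : ℂ} (hr : 0 < r) (hrs : r < s)
    (hf : DifferentiableOn ℂ f (ann r s)) (hz : ‖z‖ < (r + 3 * s) / 4) :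
    Pp r s f z = cauchy ((r + 3 * s) / 4) f z := by
  unfold Pp
  split_ifs with h
  · rfl
  · exact (cauchy_ann hr (by linarith) (by linarith) hf (by linarith) hz).symm

theorem Pm_out {r s : ℝ} {f : ℂ → Y} {z : ℂ} (hr : 0 < r) (hrs : r < s)
    (hf : DifferentiableOn ℂ f (ann r s)) (hz : (3 * r + s) / 4 < ‖z‖) :
    Pm r s f z = -cauchy ((3 * r + s) / 4) f z := by
  unfold Pm
  split_ifs with h
  · rfl
  · rw [cauchy_ann (a := (3 * r + s) / 4) hr (by linarith) (by linarith) hf hz (by linarith)]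
    abel

section param

variable {X : Type} [NormedAddCommGroup X] [NormedSpace ℂ X] [CompleteSpace X] {D : Set X}
  {f : X × ℂ → Y} {r s M : ℝ}

theorem ac_Pp (hr : 0 < r) (hrs : r < s) (hf : AC (D ×ˢ ann r s) f)
    (hM : ∀ x ∈ D ×ˢ ann r s, ‖f x‖ ≤ M) :
    AC (D ×ˢ ball 0 s) (fun x : X × ℂ => Pp r s (fun z => f (x.1, z)) x.2) := by
  intro γ l hγ hD
  have hD1 : ∀ᶠ x in 𝓝 l, (γ x).1 ∈ D := hD.mono fun _ h => h.1
  have hc : ContinuousAt (fun x => ‖(γ x).2‖) l := hγ.continuousAt.snd.norm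
  by_cases h : ‖(γ l).2‖ < (r + 3 * s) / 4
  · refine (cauchy_an hr hf hM (σ := (r + 3 * s) / 4) (by linarith) (by linarith) hγ hD1
      h.ne).congr ?_
    filter_upwards [hD1, hc.eventually (gt_mem_nhds h)] with x h1 h2
    exact (Pp_in hr hrs (slice_diff hf h1) h2).symm
  · have h' : (r + s) / 2 < ‖(γ l).2‖ := by linarith
    have h3 : ∀ᶠ x in 𝓝 l, (r + s) / 2 < ‖(γ x).2‖ := hc.eventually (lt_mem_nhds h')
    have h4 : ∀ᶠ x in 𝓝 l, γ x ∈ D ×ˢ ann r s := by
      filter_upwards [hD, h3] with x h1 h2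
      exact ⟨h1.1, by linarith, by simpa using h1.2⟩
    refine ((hf γ l hγ h4).add (cauchy_an hr hf hM (σ := (3 * r + s) / 4) (by linarith)
      (by linarith) hγ hD1 (by linarith))).congr ?_
    filter_upwards [h3] with x h1
    simp only [Pp, if_neg (not_le.2 h1), Pi.add_apply]

theorem ac_Pm (hr : 0 < r) (hrs : r < s) (hf : AC (D ×ˢ ann r s) f)
    (hM : ∀ x ∈ D ×ˢ ann r s, ‖f x‖ ≤ M) :
    AC (D ×ˢ {z | r < ‖z‖}) (fun x : X × ℂ => Pm r s (fun z => f (x.1, z)) x.2) := by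
  intro γ l hγ hD
  have hD1 : ∀ᶠ x in 𝓝 l, (γ x).1 ∈ D := hD.mono fun _ h => h.1
  have hc : ContinuousAt (fun x => ‖(γ x).2‖) l := hγ.continuousAt.snd.norm
  by_cases h : (3 * r + s) / 4 < ‖(γ l).2‖
  · refine (cauchy_an hr hf hM (σ := (3 * r + s) / 4) (by linarith) (by linarith) hγ hD1
      h.ne').neg.congr ?_
    filter_upwards [hD1, hc.eventually (lt_mem_nhds h)] with x h1 h2
    exact (Pm_out hr hrs (slice_diff hf h1) h2).symm
  · have h' : ‖(γ l).2‖ < (r + s) / 2 := by linarith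
    have h3 : ∀ᶠ x in 𝓝 l, ‖(γ x).2‖ < (r + s) / 2 := hc.eventually (gt_mem_nhds h')
    have h4 : ∀ᶠ x in 𝓝 l, γ x ∈ D ×ˢ ann r s := by
      filter_upwards [hD, h3] with x h1 h2
      exact ⟨h1.1, h1.2, by linarith⟩
    refine ((hf γ l hγ h4).sub (cauchy_an hr hf hM (σ := (r + 3 * s) / 4) (by linarith)
      (by linarith) hγ hD1 (by linarith))).congr ?_
    filter_upwards [h3] with x h1
    simp only [Pm, if_neg (not_le.2 h1), Pi.sub_apply]

end param

theorem ac_of_diff {r s : ℝ} {f : ℂ → Y} (hf : DifferentiableOn ℂ f (ann r s)) :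
    AC ((univ : Set ℂ) ×ˢ ann r s) fun x : ℂ × ℂ => f x.2 :=
  (AC.of_diffOn (isOpen_ann r s) hf).comp (AC.id' _).snd fun _ h => h.2

end LS

open LS in
theorem LS_of : S_LS := by
  intro Y _ _ _ r s hr hrs
  have hδ : 0 < (s - r) / 4 := by linarith
  have hs : 0 < s := hr.trans hrs
  have p1 : r < (r + 3 * s) / 4 := by linarith
  have p2 : (r + 3 * s) / 4 < s := by linarith
  have m1 : r < (3 * r + s) / 4 := by linarith
  have m2 : (3 * r + s) / 4 < s := by linarith
  refine ⟨1 + s * ((s - r) / 4)⁻¹, by positivity, fun f M hf hM => ?_,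
    fun f g hf hg z => ?_, fun f g h z => ?_,
    fun X _ _ _ D f M hf hM => ⟨ac_Pp hr hrs hf hM, ac_Pm hr hrs hf hM⟩⟩
  · have hM' : ∀ x ∈ (univ : Set ℂ) ×ˢ ann r s, ‖f x.2‖ ≤ M := fun x hx => hM _ hx.2
    have hM0 : 0 ≤ M := by
      refine (norm_nonneg _).trans (hM (((r + s) / 2 : ℝ) : ℂ) ?_)
      constructor <;> rw [Complex.norm_real, Real.norm_eq_abs, abs_of_pos (by linarith)] <;>
        linarith
    have hb : ∀ σ, r < σ → σ < s → ∀ z : ℂ, (s - r) / 4 ≤ |‖z‖ - σ| →
        ‖cauchy σ f z‖ ≤ s * ((s - r) / 4)⁻¹ * M := fun σ h1 h2 z hz => by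
      refine (cauchy_bound (hr.trans h1).le hδ (fun ζ hζ => hM ζ (sphere_sub h1 h2 hζ)) hz).trans ?_
      rw [mul_assoc]
      gcongr
    refine ⟨fun z hz => ?_, fun z hz => ?_, fun z hz => ?_, fun z hz => ?_, fun z hz => ?_⟩
    · exact ac_Pp hr hrs (ac_of_diff hf) hM' (fun w => ((0 : ℂ), w)) z
        (analyticAt_const.prod analyticAt_id)
        ((isOpen_ball.eventually_mem hz).mono fun _ h => ⟨mem_univ _, h⟩)
    · exact ac_Pm hr hrs (ac_of_diff hf) hM' (fun w => ((0 : ℂ), w)) z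
        (analyticAt_const.prod analyticAt_id)
        (((isOpen_lt continuous_const continuous_norm).eventually_mem hz).mono
          fun _ h => ⟨mem_univ _, h⟩)
    · by_cases h : (r + s) / 2 ≤ ‖z‖
      · by_cases h' : ‖z‖ ≤ (r + s) / 2
        · simp only [Pp, Pm, if_pos h, if_pos h']
          rw [cauchy_ann hr m1 p2 hf (by linarith) (by linarith)]
          abel
        · simp only [Pp, Pm, if_pos h, if_neg h']
          abel
      · simp only [Pp, Pm, if_neg h, if_pos (not_le.1 h).le]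
        abel
    · have hz' : ‖z‖ < s := by simpa using hz
      unfold Pp
      split_ifs with h
      · have := hb _ p1 p2 z (by rw [abs_sub_comm]; exact le_trans (by linarith) (le_abs_self _))
        linarith
      · have := hb _ m1 m2 z (le_trans (by linarith) (le_abs_self _))
        have h2 := hM z ⟨by linarith, hz'⟩
        linarith [norm_add_le (f z) (cauchy ((3 * r + s) / 4) f z)]
    · unfold Pm
      split_ifs with h
      · have := hb _ m1 m2 z (le_trans (by linarith) (le_abs_self _))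
        rw [norm_neg]
        linarith
      · have := hb _ p1 p2 z (by rw [abs_sub_comm]; exact le_trans (by linarith) (le_abs_self _))
        have h2 := hM z ⟨hz, by linarith⟩
        linarith [norm_sub_le (f z) (cauchy ((r + 3 * s) / 4) f z)]
  · have cp : ‖z‖ ≤ (r + s) / 2 → _ := fun h => cauchy_sub (z := z) (hr.trans p1).le
      (hf.mono (sphere_sub p1 p2)) (hg.mono (sphere_sub p1 p2)) (by linarith)
    have cm : (r + s) / 2 ≤ ‖z‖ → _ := fun h => cauchy_sub (z := z) (hr.trans m1).le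
      (hf.mono (sphere_sub m1 m2)) (hg.mono (sphere_sub m1 m2)) (by linarith)
    constructor
    · intro _
      unfold Pp
      split_ifs with h
      · exact cp h
      · rw [cm (not_le.1 h).le]
        beta_reduce
        abel
    · intro _
      unfold Pm
      split_ifs with h
      · rw [cm h]
        abel
      · rw [cp (not_le.1 h).le]
        beta_reduce
        abel
  · have cp := cauchy_congr z (hr.trans p1).le (h.mono (sphere_sub p1 p2))
    have cm := cauchy_congr z (hr.trans m1).le (h.mono (sphere_sub m1 m2))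
    constructor
    · intro hz
      unfold Pp
      split_ifs with h1
      · exact cp
      · rw [cm, h ⟨by linarith, hz⟩]
    · intro hz
      unfold Pm
      split_ifs with h1
      · rw [cm]
      · rw [cp, h ⟨hz, by linarith⟩]

end Pool.Agent.P.MP_daea48_ag
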