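import Pool.Agent.P.MP_daea48_ag.Lim2

/-! Package Lim: degeneration of the elliptic curve. -/

open Set Filter Topology Metric Polynomial

namespace Pool.Agent.P.MP_daea48_ag

namespace Lim

noncomputable section

open Classical

/-- A path from `e₀` to `0` which avoids the zeros of `D`. -/
theorem exists_path {e₀ : ℝ} (h0 : 0 < e₀) (h1 : e₀ < 1 / 8) {D : ℂ[X]} (hD : D.eval (e₀ : ℂ) ≠ 0) :
    ∃ ε : ℝ → ℂ, Continuous ε ∧ ε 0 = e₀ ∧ (∀ s, ‖ε s‖ < 1) ∧ (∀ s, D.eval (ε s) ≠ 0) ∧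
      Tendsto (fun n : ℕ => ε n) atTop (𝓝 0) := by
  have hD0 : D ≠ 0 := fun h => hD (by simp [h])
  obtain ⟨μ, hμ, hμ'⟩ := (Set.Ioo_infinite (zero_lt_one' ℝ)).exists_notMem_finite
    ((finite_setOfPred_isRoot hD0).image fun z : ℂ => z.im / (z.re * (1 - z.re / e₀)))
  set σ : ℝ → ℝ := fun s => (1 + s ^ 2)⁻¹ with hσ
  have hp : ∀ s : ℝ, 0 < 1 + s ^ 2 := fun s => by positivity
  have hσc : Continuous σ := Continuous.inv₀ (by fun_prop) fun s => (hp s).ne'
  have hσ0 : ∀ s, 0 < σ s := fun s => inv_pos.2 (hp s)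
  have hσ1 : ∀ s, σ s ≤ 1 := fun s => inv_le_one_of_one_le₀ (by nlinarith [sq_nonneg s])
  set Γ : ℝ → ℂ := fun x => ((e₀ * x : ℝ) : ℂ) + ((μ * (e₀ * x * (1 - x)) : ℝ) : ℂ) * Complex.I
    with hΓ
  have hΓc : Continuous Γ := by rw [hΓ]; fun_prop
  refine ⟨fun s => Γ (σ s), hΓc.comp hσc, by simp [hΓ, hσ], fun s => ?_, fun s h => ?_, ?_⟩
  · refine (norm_add_le _ _).trans_lt ?_
    have a := hσ0 s
    have b := hσ1 s
    have c : 0 ≤ e₀ * σ s * (1 - σ s) := mul_nonneg (by positivity) (by linarith)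
    rw [norm_mul, Complex.norm_I, Complex.norm_real, Complex.norm_real,
      Real.norm_of_nonneg (by positivity), Real.norm_of_nonneg (mul_nonneg hμ.1.le c), mul_one]
    have d : e₀ * σ s ≤ e₀ := by nlinarith
    have e : e₀ * σ s * (1 - σ s) ≤ e₀ := by nlinarith [mul_pos h0 a]
    nlinarith [hμ.1, hμ.2]
  · by_cases hs : σ s = 1
    · apply hD
      simpa [hΓ, hs] using h
    · refine hμ' ⟨_, h, ?_⟩
      have a := hσ0 s
      have b : 1 - σ s ≠ 0 := fun h => hs (by linarith)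
      simp only [hΓ, Complex.add_im, Complex.ofReal_im, Complex.mul_im, Complex.ofReal_re,
        Complex.I_im, Complex.I_re, Complex.add_re, Complex.mul_re, mul_one, mul_zero,
        add_zero, zero_add, sub_zero]
      rw [mul_div_cancel_left₀ _ h0.ne']
      field_simp
  · have a : Tendsto (fun n : ℕ => σ n) atTop (𝓝 0) := by
      refine tendsto_inv_atTop_zero.comp (tendsto_atTop_add_const_left _ _ ?_)
      exact (tendsto_pow_atTop two_ne_zero).comp tendsto_natCast_atTop_atTop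
    have b := (hΓc.tendsto 0).comp a
    rw [show Γ 0 = 0 by simp [hΓ]] at b
    exact b

theorem continuous_evalEval {X : Type} [TopologicalSpace X] {f g : X → ℂ} (hf : Continuous f)
    (hg : Continuous g) (Q : ℂ[X][X]) : Continuous fun x => Q.evalEval (f x) (g x) :=
  (Tame.evalEval (Tame.fst' (X := ℂ) (Y := ℂ)) Tame.snd' Q).continuous.comp (hf.prodMk hg)

theorem continuous_eval3 {Z : Type} [TopologicalSpace Z] {f g t : Z → ℂ} (hf : Continuous f)
    (hg : Continuous g) (ht : Continuous t) (P : ℂ[X][X][X]) :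
    Continuous fun x => (P.map (evalEvalRingHom (f x) (g x))).eval (t x) := by
  simp only [eval_map, eval₂_eq_sum_range]
  exact continuous_finsetSum _ fun k _ => (continuous_evalEval hf hg _).mul (ht.pow _)

theorem separable_of_cov {Q : ℂ[X][X]} {d : ℕ} {D : ℂ[X]} (h : Cov Q d D) {ε : ℂ}
    (hε : D.eval ε ≠ 0) : (Q.map (evalRingHom ε)).Separable := by
  obtain ⟨a, b, e⟩ := h.bez
  have e' := congrArg (Polynomial.map (evalRingHom ε)) e
  simp only [Polynomial.map_add, Polynomial.map_mul, map_C, coe_evalRingHom] at e'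
  refine ⟨C (D.eval ε)⁻¹ * a.map (evalRingHom ε), C (D.eval ε)⁻¹ * b.map (evalRingHom ε), ?_⟩
  rw [derivative_map, mul_assoc, mul_assoc, ← mul_add, e', ← C_mul, inv_mul_cancel₀ hε, C_1]

theorem exists_lift (hR : S_Root) {Q : ℂ[X][X]} {d : ℕ} {D : ℂ[X]} (h : Cov Q d D) {ε : ℝ → ℂ}
    (hε : Continuous ε) (hD : ∀ s, D.eval (ε s) ≠ 0) {θ₀ : ℂ} (h0 : Q.evalEval (ε 0) θ₀ = 0) :
    ∃ θ : ℝ → ℂ, Continuous θ ∧ θ 0 = θ₀ ∧ ∀ s, Q.evalEval (ε s) (θ s) = 0 := by
  obtain ⟨θ, h1, h2, h3⟩ := (hR.2.2 (fun s => Q.map (evalRingHom (ε s))) d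
    (fun s => ⟨h.monic.map _, by rw [h.monic.natDegree_map, h.deg], separable_of_cov h (hD s)⟩)
    (fun k => by
      simp only [coeff_map, coe_evalRingHom]
      exact (Q.coeff k).continuous.comp hε)).1 0 θ₀ (by rw [map_evalRingHom_eval]; exact h0)
  exact ⟨θ, h1, h2, fun s => by rw [← map_evalRingHom_eval]; exact h3 s⟩

theorem ringHom_eq (ε θ : ℂ) :
    (aevalAeval ε θ : ℂ[X][X] →ₐ[ℂ] ℂ).toRingHom = evalEvalRingHom ε θ :=
  RingHom.ext fun q => congrFun (coe_aevalAeval_eq_evalEval ε θ) q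

end

end Lim

open Lim in
theorem Lim_of (hSPP : S_SPP) (hM : S_Mero) (hR : S_Root) (_hI : S_IFT) (hF : S_FC2) : S_Lim := by
  classical
  intro E _ _ _ E' _ _ _ U pr m ch b 𝓕 g hAPS hC hS hB hA hE
  obtain ⟨E'', _, _, _, F, hF'⟩ := hAPS
  set e := Module.finBasis ℂ E
  have hf : Tame fun ξ : E => F (b, ξ) := hF'.tame.comp ((Tame.const b).prodMk Tame.id')
  have hmem : ∀ ξ, ξ ∈ fib U b ↔ F (b, ξ) = 0 := fun ξ => hF'.zero (b, ξ)
  obtain ⟨J, _, H, hH⟩ := equations hM e hf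
  have hE' : ∀ ε : ℝ, 0 < ε → ε < 1 / 8 → ∃ (p : Option (Fin (Module.finrank ℂ E) ⊕
      Fin (Module.finrank ℂ E)) → ℂ[X]) (r : ℝ), p none ≠ 0 ∧
      (∀ t v : ℂ, v ^ 2 = t * (t - 1) * (t - ε) → (p none).eval t ≠ 0 → xi e p t v ∈ fib U b) ∧
      ε < r ∧ r < 1 ∧ (∀ t : ℂ, ‖t‖ = r → (p none).eval t ≠ 0) ∧
      (LN 𝓕 (fun s => xi e p (circ r s) (vbr ε (circ r s))) → LN 𝓕 g) := by
    intro ε h1 h2
    obtain ⟨Den, N₀, N₁, r, a1, a2, a3, a4, a5, a6, a7⟩ := hE ε h1 h2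
    choose p₀ p₁ hp using fun j => a2 (LinearMap.toContinuousLinearMap (e.coord j))
    have e0 : N₀ = vec e p₀ := funext fun t => by
      simp only [vec, ← (hp _ t).1]
      exact (e.sum_repr _).symm
    have e1 : N₁ = vec e p₁ := funext fun t => by
      simp only [vec, ← (hp _ t).2]
      exact (e.sum_repr _).symm
    subst e0 e1
    exact ⟨fun o => o.elim Den (Sum.elim p₀ p₁), r, a1, a3, a4, a5, a6, a7⟩
  choose! p r hp using hE'
  obtain ⟨_, ⟨e₀, he₀, rfl⟩, Q, d, D, P, θ₀, hQ, -, hD₀, hθ₀, hp₀, hP⟩ :=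
    hSPP.1 _ J H ((fun x : ℝ => (x : ℂ)) '' Ioo 0 (1 / 8)) (fun ε => p ε.re) none
      (fun h => by
        have h1 := (Set.countable_of_injective_of_countable_image
          Complex.ofReal_injective.injOn h)
        have h2 := (h1.dense_compl ℝ).inter_open_nonempty _ isOpen_Ioo
          (Set.nonempty_Ioo.2 (show (0 : ℝ) < 1 / 8 by norm_num))
        simp at h2)
      (by
        rintro _ ⟨ε, hε, rfl⟩
        obtain ⟨a1, a2, -⟩ := hp ε hε.1 hε.2
        simp only [Complex.ofReal_re]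
        exact ⟨a1, (hH ε _ a1).1 fun t v h1 h2 => (hmem _).1 (a2 t v h1 h2)⟩)
  simp only [Complex.ofReal_re] at hp₀
  obtain ⟨ε, hεc, hε0, hε1, hεD, hεl⟩ := exists_path he₀.1 he₀.2 hD₀
  obtain ⟨θ, hθc, hθ0, hθ⟩ := exists_lift hR hQ hεc hεD (θ₀ := θ₀) (by rw [hε0]; exact hθ₀)
  set q : ℝ → Option (Fin (Module.finrank ℂ E) ⊕ Fin (Module.finrank ℂ E)) → ℂ[X] :=
    fun s a => C (D.eval (ε s))⁻¹ * (P a).map (evalEvalRingHom (ε s) (θ s)) with hq
  have hq0 : q 0 = p e₀ := funext fun a => by simp only [hq, hε0, hθ0, hp₀ a]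
  have hP' := fun s => hP ℂ (ε s) (θ s) (by rw [coe_aevalAeval_eq_evalEval]; exact hθ s)
    (by rw [coe_aeval_eq_eval]; exact hεD s)
  simp only [ringHom_eq, coe_aeval_eq_eval] at hP'
  have hqn : ∀ s, q s none ≠ 0 := fun s =>
    mul_ne_zero (C_ne_zero.2 (inv_ne_zero (hεD s))) (hP' s).1
  have hqY : ∀ s t, t ≠ 0 → (q s none).eval t ≠ 0 → xi e (q s) t (vbr (ε s) t) ∈ fib U b :=
    fun s t h1 h2 => (hmem _).2 ((hH (ε s) (q s) (hqn s)).2 (hP' s).2 t _ (vbr_sq h1) h2)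
  have hqc : ∀ a, Continuous fun x : ℝ × ℂ => (q x.1 a).eval x.2 := fun a => by
    simp only [hq, eval_mul, eval_C]
    exact ((D.continuous.comp (hεc.comp continuous_fst)).inv₀ fun x => hεD _).mul
      (continuous_eval3 (hεc.comp continuous_fst) (hθc.comp continuous_fst) continuous_snd _)
  have hqd : ∀ s a, (q s a).natDegree ≤ ∑ a, (P a).natDegree := fun s a =>
    (natDegree_C_mul_le _ _).trans (natDegree_map_le.trans
      (Finset.single_le_sum (f := fun a => (P a).natDegree) (fun _ _ => Nat.zero_le _)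
        (Finset.mem_univ a)))
  obtain ⟨i, x, hx, hlim⟩ := core ch b hC hεl (fun n => q n none) (fun n => hqn n)
    (fun n t => xi e (q n) t (vbr (ε n) t))
    (fun n t h1 _ h3 => hqY n t (norm_pos_iff.1 ((norm_nonneg _).trans_lt h1)) h3)
    (fun i => by
      obtain ⟨N, hN⟩ := tame_split hM e (f := fun ξ => (ch i).φ (b, ξ))
        ((ch i).tr.tφ.comp ((Tame.const b).prodMk Tame.id')) (∑ a, (P a).natDegree)
      refine ⟨N, fun n => ?_⟩
      obtain ⟨w, h1, h2, h3⟩ := hN (ε n) (q n) (hqd n) (hqn n)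
      exact ⟨w, h1, h2, fun t a _ c => h3 t (norm_pos_iff.1 ((norm_nonneg _).trans_lt a)) c⟩)
  obtain ⟨η, hη, hball⟩ := hB i x hx
  obtain ⟨ρ, n, h1, h2, h3⟩ := hlim η hη
  have hρ : 0 < ρ := (norm_nonneg _).trans_lt h1
  have hv : ∀ (u : Fin (Module.finrank ℂ E) → Option (Fin (Module.finrank ℂ E) ⊕
      Fin (Module.finrank ℂ E))), Continuous fun x : ℝ × ℂ => vec e (fun j => q x.1 (u j)) x.2 :=
    fun u => continuous_finsetSum _ fun j _ => (hqc _).smul continuous_const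
  have hvd : ∀ (u : Fin (Module.finrank ℂ E) → ℂ[X]), Differentiable ℂ (vec e u) :=
    fun u => Differentiable.fun_sum fun j _ => (u j).differentiable.smul_const _
  have hc := continuous_circ ρ
  have hLn : LN 𝓕 fun τ => xi e (q n) (circ ρ τ) (vbr (ε n) (circ ρ τ)) := by
    refine hball _ ⟨⟨fun τ _ => ContinuousAt.continuousWithinAt ?_, fun τ _ => ?_⟩, ?_⟩
      fun τ _ => (h3 _ (norm_circ hρ.le τ)).2
    · have hγ : Continuous fun τ : ℝ => ((n : ℝ), circ ρ τ) := by fun_prop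
      refine ((((hqc none).comp hγ).continuousAt).inv₀ (h3 _ (norm_circ hρ.le τ)).1).smul
        (((hv _).comp hγ).continuousAt.add (ContinuousAt.smul ?_ ((hv _).comp hγ).continuousAt))
      exact continuousAt_vbr continuousAt_const hc.continuousAt
        (by rw [norm_circ hρ.le]; exact h1) (by rw [norm_circ hρ.le]; exact h2)
    · exact hqY _ _ (norm_pos_iff.1 (by rw [norm_circ hρ.le]; exact hρ))
        (h3 _ (norm_circ hρ.le τ)).1
    · simp only [circ_zero_one]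
  obtain ⟨-, -, a3, a4, a5, a6⟩ := hp e₀ he₀.1 he₀.2
  apply a6
  have key := deform hF hS hA hεc hε1 (den := fun s => q s none) hqn (hqc none)
    (N₀ := fun s => vec e fun j => q s (some (.inl j)))
    (N₁ := fun s => vec e fun j => q s (some (.inr j))) (hv _) (hv _) (fun s => hvd _)
    (fun s => hvd _) hqY (s := n) (s' := 0) (ρ := ρ) (ρ' := r e₀)
    ⟨h1, h2, fun t ht => (h3 t ht).1⟩
    ⟨by rw [hε0, Complex.norm_real, Real.norm_of_nonneg he₀.1.le]; exact a3, a4,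
      by rw [hq0]; exact a5⟩ hLn
  rw [hq0, hε0] at key
  exact key

end Pool.Agent.P.MP_daea48_ag
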