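import Pool.Agent.P.MP_daea48_ag.StK

/-! Package Lim, part 1: the branch `vbr`, coefficient vectors, the limit argument. -/

open Set Filter Topology Metric Polynomial

namespace Pool.Agent.P.MP_daea48_ag

namespace Lim

noncomputable section

open Classical

theorem slit1 {t : ℂ} (h : ‖t‖ < 1) : 1 - t ∈ Complex.slitPlane := by
  left
  have := (Complex.re_le_norm t).trans_lt h
  simp only [Complex.sub_re, Complex.one_re]
  linarith

theorem slit2 {ε t : ℂ} (h : ‖ε‖ < ‖t‖) : 1 - ε / t ∈ Complex.slitPlane := by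
  apply slit1
  have : 0 < ‖t‖ := (norm_nonneg ε).trans_lt h
  rw [norm_div, div_lt_one this]
  exact h

theorem half_sq (x : ℂ) : (x ^ (1 / 2 : ℂ)) ^ 2 = x := by
  simp

theorem vbr_sq {ε t : ℂ} (h : t ≠ 0) : vbr ε t ^ 2 = t * (t - 1) * (t - ε) := by
  unfold vbr
  rw [mul_pow, mul_pow, mul_pow, half_sq, half_sq, Complex.I_sq]
  field_simp
  ring

theorem analyticAt_vbr {ε t : ℂ} (h1 : ‖ε‖ < ‖t‖) (h2 : ‖t‖ < 1) : AnalyticAt ℂ (vbr ε) t := by
  have ht : t ≠ 0 := norm_pos_iff.1 ((norm_nonneg ε).trans_lt h1)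
  unfold vbr
  refine ((analyticAt_const.mul analyticAt_id).mul ?_).mul ?_
  · exact (analyticAt_const.sub analyticAt_id).cpow analyticAt_const (slit1 h2)
  · exact (analyticAt_const.sub (analyticAt_const.div analyticAt_id ht)).cpow analyticAt_const
      (slit2 h1)

theorem continuousAt_vbr {X : Type} [TopologicalSpace X] {ε t : X → ℂ} {x : X}
    (hε : ContinuousAt ε x) (ht : ContinuousAt t x) (h1 : ‖ε x‖ < ‖t x‖) (h2 : ‖t x‖ < 1) :
    ContinuousAt (fun y => vbr (ε y) (t y)) x := by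
  have h0 : t x ≠ 0 := norm_pos_iff.1 ((norm_nonneg _).trans_lt h1)
  unfold vbr
  refine ((continuousAt_const.mul ht).mul ?_).mul ?_
  · exact (continuousAt_const.sub ht).cpow continuousAt_const (slit1 h2)
  · exact (continuousAt_const.sub (hε.div ht h0)).cpow continuousAt_const (slit2 h1)

theorem analyticAt_vbr_zero : AnalyticAt ℂ (vbr 0) 0 := by
  have : vbr 0 = fun t => Complex.I * t * (1 - t) ^ (1 / 2 : ℂ) := by
    funext t; simp [vbr]
  rw [this]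
  refine (analyticAt_const.mul analyticAt_id).mul ?_
  exact (analyticAt_const.sub analyticAt_id).cpow analyticAt_const (slit1 (by simp))

/-- A property holding near `0` holds at a point outside a given countable set. -/
theorem exists_generic {S : Set ℂ} (hS : S.Countable) {p : ℂ → Prop} (hp : ∀ᶠ t in 𝓝[≠] 0, p t) :
    ∃ t, t ≠ 0 ∧ t ∉ S ∧ p t := by
  rw [eventually_nhdsWithin_iff] at hp
  obtain ⟨O, hO, hO1, hO2⟩ := _root_.eventually_nhds_iff.1 hp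
  obtain ⟨t, ht, ht'⟩ := ((hS.insert 0).dense_compl ℂ).inter_open_nonempty O hO1 ⟨0, hO2⟩
  simp only [mem_compl_iff, mem_insert_iff, not_or] at ht'
  exact ⟨t, ht'.1, ht'.2, hO t ht ht'.1⟩

theorem infinite_of_ev {p : ℂ → Prop} (hp : ∀ᶠ t in 𝓝[≠] 0, p t) : {t | p t}.Infinite := by
  intro h
  obtain ⟨t, -, h1, h2⟩ := exists_generic h.countable hp
  exact h1 h2

theorem ev_ne_zero {q : ℂ[X]} (hq : q ≠ 0) : ∀ᶠ t in 𝓝[≠] (0 : ℂ), q.eval t ≠ 0 := by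
  have h : AnalyticAt ℂ (fun t => q.eval t) 0 := q.differentiable.analyticAt 0
  rcases h.eventually_eq_zero_or_eventually_ne_zero with h1 | h1
  · exact absurd (q.eq_zero_of_infinite_isRoot (infinite_of_ev (h1.filter_mono nhdsWithin_le_nhds)))
      hq
  · exact h1

theorem parity {p₀ p₁ : ℂ[X]} (h : ∀ᶠ t in 𝓝[≠] (0 : ℂ), p₀.eval t + vbr 0 t * p₁.eval t = 0) :
    p₀ = 0 ∧ p₁ = 0 := by
  have e : p₀ ^ 2 = X ^ 2 * (X - C 1) * p₁ ^ 2 := by
    apply eq_of_infinite_eval_eq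
    apply infinite_of_ev
    filter_upwards [h, self_mem_nhdsWithin] with t h1 h2
    have h3 := vbr_sq (ε := 0) (t := t) h2
    have h4 : p₀.eval t = -(vbr 0 t * p₁.eval t) := eq_neg_of_add_eq_zero_left h1
    simp only [eval_pow, eval_mul, eval_X, eval_sub, eval_C]
    rw [h4, neg_sq, mul_pow, h3]
    ring
  have h1 : p₁ = 0 := by
    by_contra h1
    have := congrArg natDegree e
    rw [natDegree_mul (mul_ne_zero (pow_ne_zero _ X_ne_zero) (X_sub_C_ne_zero 1))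
      (pow_ne_zero _ h1), natDegree_mul (pow_ne_zero _ X_ne_zero) (X_sub_C_ne_zero 1),
      natDegree_pow, natDegree_pow, natDegree_pow, natDegree_X, natDegree_X_sub_C] at this
    omega
  refine ⟨?_, h1⟩
  rw [h1] at e
  simpa using e

/-- The polynomial with a given coefficient vector. -/
def pol {N : ℕ} (a : Fin N → ℂ) : ℂ[X] := ∑ k : Fin N, monomial k (a k)

theorem eval_pol {N : ℕ} (a : Fin N → ℂ) (t : ℂ) : (pol a).eval t = ev t a := by
  simp [pol, ev, eval_finsetSum, mul_comm]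

theorem pol_eq_zero {N : ℕ} {a : Fin N → ℂ} (h : pol a = 0) : a = 0 := by
  funext k
  have := congrArg (fun q => coeff q k) h
  simp only [pol, finsetSum_coeff, coeff_monomial, Fin.val_inj, coeff_zero] at this
  simpa using this

section
variable {G : Type} [NormedAddCommGroup G] [NormedSpace ℂ G]

theorem clm_ev {N : ℕ} (ℓ : G →L[ℂ] ℂ) (m : Fin N → G) (t : ℂ) :
    ℓ (ev t m) = ev t fun k => ℓ (m k) := by
  simp [ev, map_sum]

theorem ev_smul {N : ℕ} (c : ℂ) (m : Fin N → G) (t : ℂ) : ev t (c • m) = c • ev t m := by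
  simp only [ev, Finset.smul_sum, Pi.smul_apply]
  exact Finset.sum_congr rfl fun k _ => smul_comm _ _ _

theorem continuous_ev {N : ℕ} {X : Type} [TopologicalSpace X] {t : X → ℂ} {m : X → Fin N → G}
    (ht : Continuous t) (hm : Continuous m) : Continuous fun x => ev (t x) (m x) := by
  unfold ev
  fun_prop

theorem analyticAt_ev {N : ℕ} (m : Fin N → G) (t₀ : ℂ) : AnalyticAt ℂ (fun t => ev t m) t₀ := by
  unfold ev
  exact Finset.analyticAt_fun_sum _ fun k _ => (analyticAt_id.pow _).smul analyticAt_const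

/-- The numerator `m₀ + v m₁`. -/
def nu {N : ℕ} (w : (Fin N → ℂ) × (Fin N → G) × (Fin N → G)) (ε t : ℂ) : G :=
  ev t w.2.1 + vbr ε t • ev t w.2.2

theorem nu_smul {N : ℕ} (c : ℂ) (w : (Fin N → ℂ) × (Fin N → G) × (Fin N → G)) (ε t : ℂ) :
    nu (c • w) ε t = c • nu w ε t := by
  simp only [nu, Prod.smul_snd, Prod.smul_fst, ev_smul, smul_add]
  rw [smul_comm]

theorem continuousAt_nu {N : ℕ} {w : (Fin N → ℂ) × (Fin N → G) × (Fin N → G)} {t : ℂ}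
    (h1 : t ≠ 0) (h2 : ‖t‖ < 1) :
    ContinuousAt (fun z : (((Fin N → ℂ) × (Fin N → G) × (Fin N → G)) × ℂ) × ℂ =>
      nu z.1.1 z.1.2 z.2) ((w, 0), t) := by
  unfold nu
  refine (continuous_ev (by fun_prop) (by fun_prop)).continuousAt.add (ContinuousAt.smul ?_
    (continuous_ev (by fun_prop) (by fun_prop)).continuousAt)
  exact continuousAt_vbr (by fun_prop) (by fun_prop) (by simpa using h1) h2

theorem analyticAt_nu {N : ℕ} (w : (Fin N → ℂ) × (Fin N → G) × (Fin N → G)) :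
    AnalyticAt ℂ (fun t => nu w 0 t) 0 :=
  (analyticAt_ev _ _).add (analyticAt_vbr_zero.smul (analyticAt_ev _ _))

theorem nu_ne_zero {N : ℕ} {w : (Fin N → ℂ) × (Fin N → G) × (Fin N → G)} (hw : w.2 ≠ 0) :
    ∀ᶠ t in 𝓝[≠] (0 : ℂ), nu w 0 t ≠ 0 := by
  rcases (analyticAt_nu w).eventually_eq_zero_or_eventually_ne_zero with h | h
  · exfalso
    apply hw
    have key : ∀ ℓ : G →L[ℂ] ℂ, (fun k => ℓ (w.2.1 k)) = 0 ∧ (fun k => ℓ (w.2.2 k)) = 0 := by
      intro ℓ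
      have := parity (p₀ := pol fun k => ℓ (w.2.1 k)) (p₁ := pol fun k => ℓ (w.2.2 k)) (by
        filter_upwards [h.filter_mono nhdsWithin_le_nhds] with t ht
        have := congrArg ℓ ht
        rw [nu, map_add, map_smul, clm_ev, clm_ev, map_zero] at this
        rw [eval_pol, eval_pol]
        exact this)
      exact ⟨pol_eq_zero this.1, pol_eq_zero this.2⟩
    refine Prod.ext (funext fun k => ?_) (funext fun k => ?_)
    · exact SeparatingDual.eq_zero_of_forall_dual_eq_zero (R := ℂ) fun ℓ => congrFun (key ℓ).1 k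
    · exact SeparatingDual.eq_zero_of_forall_dual_eq_zero (R := ℂ) fun ℓ => congrFun (key ℓ).2 k
  · exact h

/-- The limit map has a pole or a limit at `0`. -/
theorem dich0 {N : ℕ} {w : (Fin N → ℂ) × (Fin N → G) × (Fin N → G)} (hw : w ≠ 0) :
    (∀ R : ℝ, ∀ᶠ t in 𝓝[≠] (0 : ℂ), R * ‖ev t w.1‖ < ‖nu w 0 t‖) ∨
      ∃ x, ∀ η > 0, ∀ᶠ t in 𝓝[≠] (0 : ℂ), ev t w.1 ≠ 0 ∧ ‖(ev t w.1)⁻¹ • nu w 0 t - x‖ < η := by
  by_cases hd : w.1 = 0
  · left
    intro R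
    have h2 : w.2 ≠ 0 := fun h => hw (Prod.ext hd h)
    filter_upwards [nu_ne_zero h2] with t ht
    simpa [hd, ev] using ht
  · have h1 : ∀ᶠ t in 𝓝[≠] (0 : ℂ), ev t w.1 ≠ 0 := by
      simpa only [eval_pol] using ev_ne_zero (q := pol w.1) fun h => hd (pol_eq_zero h)
    have hm : MeromorphicAt (fun t => (ev t w.1)⁻¹ • nu w 0 t) 0 :=
      (analyticAt_ev w.1 0).meromorphicAt.inv.smul (analyticAt_nu w).meromorphicAt
    rcases lt_or_ge (meromorphicOrderAt (fun t => (ev t w.1)⁻¹ • nu w 0 t) 0) 0 with ho | ho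
    · left
      intro R
      have := (tendsto_norm_atTop_iff_cobounded.2
        (tendsto_cobounded_of_meromorphicOrderAt_neg ho)).eventually_gt_atTop R
      filter_upwards [this, h1] with t ht ht'
      rw [norm_smul, norm_inv, inv_mul_eq_div, lt_div_iff₀ (norm_pos_iff.2 ht')] at ht
      exact ht
    · right
      obtain ⟨x, hx⟩ := tendsto_nhds_of_meromorphicOrderAt_nonneg hm ho
      refine ⟨x, fun η hη => h1.and ?_⟩
      have := hx.eventually (ball_mem_nhds x hη)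
      simpa only [mem_ball, dist_eq_norm] using this

/-- The dichotomy for one chart. -/
theorem dich [FiniteDimensional ℂ G] (𝒰 : Ultrafilter ℕ) {ε : ℕ → ℂ} (hε : Tendsto ε 𝒰 (𝓝 0))
    (good : ℕ → ℂ → Prop) (ψ : ℕ → ℂ → G) {N : ℕ}
    (w : ℕ → (Fin N → ℂ) × (Fin N → G) × (Fin N → G)) (hw : ∀ n, w n ≠ 0)
    (hg : ∀ n t, ev t (w n).1 ≠ 0 → good n t)
    (hψ : ∀ n t, ‖ε n‖ < ‖t‖ → ‖t‖ < 1 → good n t → ev t (w n).1 • ψ n t = nu (w n) (ε n) t) :
    (∀ R : ℝ, ∀ᶠ t in 𝓝[≠] (0 : ℂ), ∀ᶠ n in 𝒰, good n t → R < ‖ψ n t‖) ∨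
      ∃ x, ∀ η > 0, ∃ ρ, 0 < ρ ∧ ρ < 1 ∧ ∀ᶠ n in 𝒰, ‖ε n‖ < ρ ∧
        ∀ t, ‖t‖ = ρ → good n t ∧ ‖ψ n t - x‖ < η := by
  set u : ℕ → (Fin N → ℂ) × (Fin N → G) × (Fin N → G) := fun n => ((‖w n‖ : ℂ))⁻¹ • w n with hu
  have hc : ∀ n, ((‖w n‖ : ℂ))⁻¹ ≠ 0 := fun n => by simpa using hw n
  have hu1 : ∀ n, u n ∈ sphere (0 : (Fin N → ℂ) × (Fin N → G) × (Fin N → G)) 1 := fun n => by
    simp [hu, norm_smul, hw n]
  have hg' : ∀ n t, ev t (u n).1 ≠ 0 → good n t := fun n t h => hg n t fun h0 => h (by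
    simp only [hu, Prod.smul_fst, ev_smul, h0, smul_zero])
  have hψ' : ∀ n t, ‖ε n‖ < ‖t‖ → ‖t‖ < 1 → good n t →
      ev t (u n).1 • ψ n t = nu (u n) (ε n) t := fun n t h1 h2 h3 => by
    simp only [hu, Prod.smul_fst, ev_smul, nu_smul, ← hψ n t h1 h2 h3, smul_smul, smul_eq_mul]
  obtain ⟨W, hW, hlim⟩ := (isCompact_sphere (0 : (Fin N → ℂ) × (Fin N → G) × (Fin N → G))
    1).ultrafilter_le_nhds' (𝒰.map u) (by
      rw [Ultrafilter.mem_map]; exact Eventually.of_forall hu1)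
  have hlim' : Tendsto (fun n => (u n, ε n)) 𝒰 (𝓝 (W, 0)) := Tendsto.prodMk_nhds hlim hε
  have hW0 : W ≠ 0 := by
    rintro rfl
    simp at hW
  have h1 : ∀ᶠ t in 𝓝[≠] (0 : ℂ), ‖t‖ < 1 :=
    (continuous_norm.continuousAt.eventually (gt_mem_nhds (by simp))).filter_mono nhdsWithin_le_nhds
  have hev : Continuous fun z : (((Fin N → ℂ) × (Fin N → G) × (Fin N → G)) × ℂ) × ℂ =>
      ev z.2 z.1.1.1 := continuous_ev (by fun_prop) (by fun_prop)
  rcases dich0 hW0 with h | ⟨x, h⟩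
  · left
    intro R
    filter_upwards [h R, h1, self_mem_nhdsWithin] with t ht ht1 ht0
    have h2 : ∀ᶠ z : (((Fin N → ℂ) × (Fin N → G) × (Fin N → G)) × ℂ) × ℂ in 𝓝 ((W, 0), t),
        R * ‖ev z.2 z.1.1.1‖ < ‖nu z.1.1 z.1.2 z.2‖ :=
      ContinuousAt.eventually_lt (continuousAt_const.mul hev.continuousAt.norm)
        (continuousAt_nu ht0 ht1).norm ht
    have h3 := (hlim'.prodMk_nhds (tendsto_const_nhds (x := t))).eventually h2
    have h4 := hε.norm.eventually (gt_mem_nhds (show ‖(0 : ℂ)‖ < ‖t‖ by simpa using ht0))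
    filter_upwards [h3, h4] with n hn hn' hgd
    rw [← hψ' n t hn' ht1 hgd, norm_smul, mul_comm] at hn
    exact lt_of_mul_lt_mul_left hn (norm_nonneg _)
  · right
    refine ⟨x, fun η hη => ?_⟩
    obtain ⟨δ, hδ, h2⟩ := Metric.eventually_nhds_iff.1
      (eventually_nhdsWithin_iff.1 ((h η hη).and h1))
    have hρ : ∀ t : ℂ, ‖t‖ = δ / 2 → t ≠ 0 ∧ (ev t W.1 ≠ 0 ∧
        ‖(ev t W.1)⁻¹ • nu W 0 t - x‖ < η) ∧ ‖t‖ < 1 := fun t ht => by
      have h0 : t ≠ 0 := norm_pos_iff.1 (by linarith)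
      exact ⟨h0, h2 (by simp; linarith) h0⟩
    have hρ1 : δ / 2 < 1 := by
      have h3 : ‖((δ / 2 : ℝ) : ℂ)‖ = δ / 2 := by
        rw [Complex.norm_real, Real.norm_of_nonneg (by linarith)]
      exact h3 ▸ (hρ _ h3).2.2
    refine ⟨δ / 2, by linarith, hρ1, ?_⟩
    have h3 : ∀ᶠ z : ((Fin N → ℂ) × (Fin N → G) × (Fin N → G)) × ℂ in 𝓝 (W, 0),
        ∀ t ∈ sphere (0 : ℂ) (δ / 2), ev t z.1.1 ≠ 0 ∧ ‖(ev t z.1.1)⁻¹ • nu z.1 z.2 t - x‖ < η := by
      apply (isCompact_sphere (0 : ℂ) (δ / 2)).eventually_forall_of_forall_eventually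
      intro t ht
      obtain ⟨h4, ⟨h5, h6⟩, h7⟩ := hρ t (by simpa using ht)
      refine (hev.continuousAt.eventually_ne h5).and ?_
      exact ContinuousAt.eventually_lt ((((hev.continuousAt.inv₀ h5).smul
        (continuousAt_nu h4 h7)).sub continuousAt_const).norm) continuousAt_const h6
    have h4 := hε.norm.eventually (gt_mem_nhds (show ‖(0 : ℂ)‖ < δ / 2 by simpa using hδ))
    filter_upwards [hlim'.eventually h3, h4] with n hn hn'
    refine ⟨hn', fun t ht => ?_⟩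
    obtain ⟨h5, h6⟩ := hn t (by simpa using ht)
    have h7 := hg' n t h5
    refine ⟨h7, ?_⟩
    rw [← hψ' n t (ht ▸ hn') (ht ▸ hρ1) h7, smul_smul, inv_mul_cancel₀ h5, one_smul] at h6
    exact h6

end

/-- The limit argument. -/
theorem core {E : Type} [NormedAddCommGroup E] [NormedSpace ℂ E] {U : Set (ℂ × E)} {m : ℕ}
    (ch : Fin m → Chart U) (b : ℂ) (hC : Cpt U ch) {ε : ℕ → ℂ} (hε : Tendsto ε atTop (𝓝 0))
    (den : ℕ → ℂ[X]) (hden : ∀ n, den n ≠ 0) (ξ : ℕ → ℂ → E)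
    (hξ : ∀ n t, ‖ε n‖ < ‖t‖ → ‖t‖ < 1 → (den n).eval t ≠ 0 → ξ n t ∈ fib U b)
    (hφ : ∀ i, ∃ N, ∀ n, ∃ w : (Fin N → ℂ) × (Fin N → (ch i).G) × (Fin N → (ch i).G), w ≠ 0 ∧
      (∀ t, ev t w.1 ≠ 0 → (den n).eval t ≠ 0) ∧
      ∀ t, ‖ε n‖ < ‖t‖ → ‖t‖ < 1 → (den n).eval t ≠ 0 →
        ev t w.1 • (ch i).φ (b, ξ n t) = nu w (ε n) t) :
    ∃ i x, (b, x) ∈ (ch i).V ∧ ∀ η > 0, ∃ ρ n, ‖ε n‖ < ρ ∧ ρ < 1 ∧
      ∀ t, ‖t‖ = ρ → (den n).eval t ≠ 0 ∧ ‖(ch i).φ (b, ξ n t) - x‖ < η := by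
  set 𝒰 : Ultrafilter ℕ := Ultrafilter.of atTop
  have hε' : Tendsto ε 𝒰 (𝓝 0) := hε.mono_left (Ultrafilter.of_le _)
  choose N w hw1 hw2 hw3 using hφ
  have hd := fun i => dich 𝒰 hε' (fun n t => (den n).eval t ≠ 0)
    (fun n t => (ch i).φ (b, ξ n t)) (w i) (hw1 i) (hw2 i) (hw3 i)
  by_cases hb : ∀ i, ∀ R : ℝ, ∀ᶠ t in 𝓝[≠] (0 : ℂ), ∀ᶠ n in 𝒰, (den n).eval t ≠ 0 →
      R < ‖(ch i).φ (b, ξ n t)‖
  · exfalso
    obtain ⟨R, hR⟩ := hC b
    have hS : (⋃ n, {t : ℂ | (den n).IsRoot t}).Countable :=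
      countable_iUnion fun n => (finite_setOfPred_isRoot (hden n)).countable
    have h1 : ∀ᶠ t in 𝓝[≠] (0 : ℂ), ‖t‖ < 1 :=
      (continuous_norm.continuousAt.eventually (gt_mem_nhds (by simp))).filter_mono
        nhdsWithin_le_nhds
    obtain ⟨t, ht0, htS, ht1, ht⟩ := exists_generic hS
      (h1.and (eventually_all.2 fun i => hb i R))
    have h4 := hε'.norm.eventually (gt_mem_nhds (show ‖(0 : ℂ)‖ < ‖t‖ by simpa using ht0))
    obtain ⟨n, hn1, hn2⟩ := (h4.and (eventually_all.2 ht)).exists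
    have h5 : (den n).eval t ≠ 0 := fun h => htS (mem_iUnion.2 ⟨n, h⟩)
    obtain ⟨i, hi⟩ := hR _ (hξ n t hn1 ht1 h5)
    exact absurd (hn2 i h5) (not_lt.2 hi)
  · obtain ⟨i, hi⟩ := not_forall.1 hb
    obtain ⟨x, hx⟩ := (hd i).resolve_left hi
    have key : ∀ η > 0, ∃ ρ n, ‖ε n‖ < ρ ∧ ρ < 1 ∧
        ∀ t, ‖t‖ = ρ → (den n).eval t ≠ 0 ∧ ‖(ch i).φ (b, ξ n t) - x‖ < η := fun η hη => by
      obtain ⟨ρ, -, h2, h3⟩ := hx η hη
      obtain ⟨n, h4, h5⟩ := h3.exists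
      exact ⟨ρ, n, h4, h2, h5⟩
    refine ⟨i, x, ?_, key⟩
    rw [← (ch i).T.closed.closure_eq, Metric.mem_closure_iff]
    intro η hη
    obtain ⟨ρ, n, h1, h2, h3⟩ := key η hη
    have h4 : ‖(ρ : ℂ)‖ = ρ := by
      rw [Complex.norm_real, Real.norm_of_nonneg ((norm_nonneg _).trans h1.le)]
    obtain ⟨h5, h6⟩ := h3 _ h4
    refine ⟨(b, (ch i).φ (b, ξ n ρ)), ((ch i).tr.fw (b, ξ n ρ)
      (hξ n ρ (h4.symm ▸ h1) (h4.symm ▸ h2) h5)).1, ?_⟩
    rw [dist_comm, Prod.dist_eq, dist_self, dist_eq_norm]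
    exact max_lt hη h6

end

end Lim

end Pool.Agent.P.MP_daea48_ag
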