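import Pool.Agent.P.MP_daea48_ag.Lim1

/-! Package Lim, part 2: reduction modulo the curve, deformation of the curve. -/

open Set Filter Topology Metric Polynomial

namespace Pool.Agent.P.MP_daea48_ag

namespace Lim

noncomputable section

open Classical

/-- Homogenisation and reduction modulo `v² = t (t - 1) (t - ε)`. -/
theorem split {τ : Type} (G : MvPolynomial τ ℂ) : ∃ D₀ : ℕ, ∀ D, D₀ ≤ D →
    ∃ A B : MvPolynomial (Option (τ ⊕ τ) ⊕ Bool) ℂ, ∀ (y : Option (τ ⊕ τ) → ℂ) (ε t v : ℂ),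
      v ^ 2 = t * (t - 1) * (t - ε) → y none ≠ 0 →
      y none ^ D * MvPolynomial.eval
        (fun j => (y none)⁻¹ * (y (some (.inl j)) + v * y (some (.inr j)))) G =
      MvPolynomial.eval (Sum.elim y fun b => cond b ε t) A +
        v * MvPolynomial.eval (Sum.elim y fun b => cond b ε t) B := by
  induction G using MvPolynomial.induction_on with
  | C a =>
    exact ⟨0, fun D _ => ⟨MvPolynomial.X (.inl none) ^ D * MvPolynomial.C a, 0,
      fun y ε t v _ _ => by simp⟩⟩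
  | add p q hp hq =>
    obtain ⟨D₁, h₁⟩ := hp
    obtain ⟨D₂, h₂⟩ := hq
    refine ⟨max D₁ D₂, fun D hD => ?_⟩
    obtain ⟨A₁, B₁, e₁⟩ := h₁ D (le_of_max_le_left hD)
    obtain ⟨A₂, B₂, e₂⟩ := h₂ D (le_of_max_le_right hD)
    refine ⟨A₁ + A₂, B₁ + B₂, fun y ε t v hv hy => ?_⟩
    simp only [map_add, mul_add (y none ^ D), e₁ y ε t v hv hy, e₂ y ε t v hv hy]
    ring
  | mul_X p j hp =>
    obtain ⟨D₁, h₁⟩ := hp
    refine ⟨D₁ + 1, fun D hD => ?_⟩
    obtain ⟨D', rfl⟩ : ∃ D', D = D' + 1 := ⟨D - 1, by omega⟩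
    obtain ⟨A, B, e⟩ := h₁ D' (by omega)
    refine ⟨A * MvPolynomial.X (.inl (some (.inl j))) + MvPolynomial.X (.inr false) *
      (MvPolynomial.X (.inr false) - 1) * (MvPolynomial.X (.inr false) - MvPolynomial.X (.inr true))
        * B * MvPolynomial.X (.inl (some (.inr j))),
      A * MvPolynomial.X (.inl (some (.inr j))) + B * MvPolynomial.X (.inl (some (.inl j))),
      fun y ε t v hv hy => ?_⟩
    have e' := e y ε t v hv hy
    simp only [map_add, map_mul, map_sub, map_one, MvPolynomial.eval_X, Sum.elim_inl, Sum.elim_inr,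
      cond_true, cond_false, ← hv]
    have : ∀ a : ℂ, y none ^ (D' + 1) * (a * ((y none)⁻¹ *
        (y (some (.inl j)) + v * y (some (.inr j))))) =
        (y none ^ D' * a) * (y (some (.inl j)) + v * y (some (.inr j))) := fun a => by
      field_simp
      ring
    rw [this, e']
    ring

theorem eval_aeval {σ : Type} (p : σ → ℂ[X]) (ε t : ℂ) (A : MvPolynomial (σ ⊕ Bool) ℂ) :
    (MvPolynomial.aeval (Sum.elim p fun b => cond b (C ε) X) A).eval t =
      MvPolynomial.eval (Sum.elim (fun s => (p s).eval t) fun b => cond b ε t) A := by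
  induction A using MvPolynomial.induction_on with
  | C a => simp
  | add p q hp hq => simp [hp, hq]
  | mul_X q j hq =>
    simp only [map_mul, eval_mul, hq, MvPolynomial.aeval_X, MvPolynomial.eval_X]
    rcases j with j | j
    · simp
    · cases j <;> simp

theorem ev_coeff {q : ℂ[X]} {N : ℕ} (h : q.natDegree < N) (t : ℂ) :
    ev t (fun k : Fin N => q.coeff k) = q.eval t := by
  rw [eval_eq_sum_range' h, ev, ← Fin.sum_univ_eq_sum_range (fun k => q.coeff k * t ^ k)]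
  simp [mul_comm]

section
variable {E : Type} [NormedAddCommGroup E] [NormedSpace ℂ E]

/-- The vector with polynomial coordinates. -/
def vec {n : ℕ} (e : Fin n → E) (p : Fin n → ℂ[X]) (t : ℂ) : E := ∑ j, (p j).eval t • e j

/-- The point of the fibre. -/
def xi {n : ℕ} (e : Fin n → E) (p : Option (Fin n ⊕ Fin n) → ℂ[X]) (t v : ℂ) : E :=
  ((p none).eval t)⁻¹ • (vec e (fun j => p (some (.inl j))) t + v • vec e (fun j => p (some (.inr j))) t)

theorem xi_eq {n : ℕ} (e : Fin n → E) (p : Option (Fin n ⊕ Fin n) → ℂ[X]) (t v : ℂ) :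
    xi e p t v = ∑ j, (((p none).eval t)⁻¹ *
      ((p (some (.inl j))).eval t + v * (p (some (.inr j))).eval t)) • e j := by
  simp only [xi, vec, Finset.smul_sum, ← Finset.sum_add_distrib, smul_smul, ← add_smul]

theorem ev_sum {G : Type} [NormedAddCommGroup G] [NormedSpace ℂ G] {k N : ℕ} (w : Fin k → G)
    (a : Fin k → ℂ[X]) (h : ∀ j, (a j).natDegree < N) (t : ℂ) :
    ev t (fun l : Fin N => ∑ j, (a j).coeff l • w j) = ∑ j, (a j).eval t • w j := by
  simp only [← ev_coeff (h _), ev, Finset.smul_sum, Finset.sum_smul, smul_smul, smul_eq_mul]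
  exact Finset.sum_comm

/-- Coordinates of a tame map are polynomial. -/
theorem tame_coord (hM : S_Mero) {G : Type} [NormedAddCommGroup G] [NormedSpace ℂ G]
    [FiniteDimensional ℂ G] {n k : ℕ} (e : Fin n → E) (w : Module.Basis (Fin k) ℂ G) {f : E → G}
    (hf : Tame f) : ∃ P : Fin k → MvPolynomial (Fin n) ℂ, ∀ x : Fin n → ℂ,
      f (∑ j, x j • e j) = ∑ l, MvPolynomial.eval x (P l) • w l := by
  have h1 : Tame fun x : Fin n → ℂ => ∑ j, x j • e j :=
    Tame.sum _ fun j _ => (Tame.id'.apply j).smul (Tame.const _)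
  have h2 : ∀ l, ∃ P : MvPolynomial (Fin n) ℂ, ∀ x : Fin n → ℂ,
      w.coord l (f (∑ j, x j • e j)) = MvPolynomial.eval x P := fun l =>
    hM.2.2.1 (Fin n) _ ((Tame.clm (LinearMap.toContinuousLinearMap (w.coord l))).comp (hf.comp h1))
  choose P hP using h2
  refine ⟨P, fun x => ?_⟩
  simp only [← hP, Module.Basis.coord_apply]
  exact (w.sum_repr _).symm

/-- A tame map along the curve, with bounded degrees. -/
theorem tame_split (hM : S_Mero) {G : Type} [NormedAddCommGroup G] [NormedSpace ℂ G]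
    [FiniteDimensional ℂ G] {n : ℕ} (e : Fin n → E) {f : E → G} (hf : Tame f) (N₀ : ℕ) :
    ∃ N, ∀ (ε : ℂ) (p : Option (Fin n ⊕ Fin n) → ℂ[X]), (∀ s, (p s).natDegree ≤ N₀) → p none ≠ 0 →
      ∃ w : (Fin N → ℂ) × (Fin N → G) × (Fin N → G), w ≠ 0 ∧
        (∀ t, ev t w.1 ≠ 0 → (p none).eval t ≠ 0) ∧
        ∀ t, t ≠ 0 → (p none).eval t ≠ 0 → ev t w.1 • f (xi e p t (vbr ε t)) = nu w ε t := by
  set w := Module.finBasis ℂ G
  obtain ⟨P, hP⟩ := tame_coord hM e w hf
  choose D₀ hD using fun l => split (P l)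
  set D := ∑ l, D₀ l + 1 with hDdef
  choose A B hAB using fun l => hD l D
    ((Finset.single_le_sum (fun _ _ => Nat.zero_le _) (Finset.mem_univ l)).trans (Nat.le_succ _))
  set M := ∑ l, ((A l).totalDegree + (B l).totalDegree) with hMdef
  refine ⟨(D + M) * (N₀ + 1) + 1, fun ε p hp hp0 => ?_⟩
  have hdeg : ∀ H : MvPolynomial (Option (Fin n ⊕ Fin n) ⊕ Bool) ℂ, H.totalDegree ≤ M →
      (MvPolynomial.aeval (Sum.elim p fun b => cond b (C ε) X) H).natDegree <
        (D + M) * (N₀ + 1) + 1 := fun H hH => by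
    refine Nat.lt_succ_of_le (MvPolynomial.aeval_natDegree_le H (hH.trans (Nat.le_add_left _ _)) _
      fun s => ?_)
    rcases s with s | s
    · exact (hp s).trans (Nat.le_succ _)
    · cases s <;> simp
  have hA : ∀ l, (A l).totalDegree ≤ M := fun l => (Nat.le_add_right _ _).trans
    (Finset.single_le_sum (f := fun l => (A l).totalDegree + (B l).totalDegree)
      (fun _ _ => Nat.zero_le _) (Finset.mem_univ l))
  have hB : ∀ l, (B l).totalDegree ≤ M := fun l => (Nat.le_add_left _ _).trans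
    (Finset.single_le_sum (f := fun l => (A l).totalDegree + (B l).totalDegree)
      (fun _ _ => Nat.zero_le _) (Finset.mem_univ l))
  have hd : (p none ^ D).natDegree < (D + M) * (N₀ + 1) + 1 := by
    rw [natDegree_pow]
    have := hp none
    nlinarith [Nat.zero_le (M * (N₀ + 1))]
  refine ⟨(fun k => (p none ^ D).coeff k,
    fun k => ∑ l, (MvPolynomial.aeval (Sum.elim p fun b => cond b (C ε) X) (A l)).coeff k • w l,
    fun k => ∑ l, (MvPolynomial.aeval (Sum.elim p fun b => cond b (C ε) X) (B l)).coeff k • w l),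
    fun h => ?_, fun t ht => ?_, fun t ht0 ht => ?_⟩
  · have := congrFun (congrArg Prod.fst h) ⟨_, hd⟩
    exact pow_ne_zero D hp0 (leadingCoeff_eq_zero.1 this)
  · intro h
    apply ht
    exact (ev_coeff hd t).trans (by rw [eval_pow, h, zero_pow (Nat.succ_ne_zero _)])
  · simp only [nu, ev_coeff hd, ev_sum _ _ (fun l => hdeg _ (hA l)),
      ev_sum _ _ (fun l => hdeg _ (hB l)), eval_aeval, xi_eq, hP, Finset.smul_sum, smul_smul,
      ← Finset.sum_add_distrib, ← add_smul, eval_pow]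
    refine Finset.sum_congr rfl fun l _ => ?_
    rw [← hAB l (fun s => (p s).eval t) ε t (vbr ε t) (vbr_sq ht0) ht]

/-- Polynomial equations for maps from the curve to the zero set of a tame map. -/
theorem equations (hM : S_Mero) {G : Type} [NormedAddCommGroup G] [NormedSpace ℂ G]
    [FiniteDimensional ℂ G] {n : ℕ} (e : Fin n → E) {f : E → G} (hf : Tame f) :
    ∃ (J : Type) (_ : Finite J) (H : J → MvPolynomial (Option (Fin n ⊕ Fin n) ⊕ Bool) ℂ),
      ∀ (ε : ℂ) (p : Option (Fin n ⊕ Fin n) → ℂ[X]), p none ≠ 0 →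
        ((∀ t v : ℂ, v ^ 2 = t * (t - 1) * (t - ε) → (p none).eval t ≠ 0 → f (xi e p t v) = 0) ↔
          ∀ i, MvPolynomial.aeval (Sum.elim p fun b => cond b (C ε) X) (H i) = 0) := by
  set w := Module.finBasis ℂ G
  obtain ⟨P, hP⟩ := tame_coord hM e w hf
  choose D₀ hD using fun l => split (P l)
  choose A B hAB using fun l => hD l (D₀ l) le_rfl
  refine ⟨_ ⊕ _, inferInstance, Sum.elim A B, fun ε p hp => ⟨fun h => ?_, fun h t v hv ht => ?_⟩⟩
  · have key : ∀ l t v, v ^ 2 = t * (t - 1) * (t - ε) → (p none).eval t ≠ 0 →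
        (MvPolynomial.aeval (Sum.elim p fun b => cond b (C ε) X) (A l)).eval t +
          v * (MvPolynomial.aeval (Sum.elim p fun b => cond b (C ε) X) (B l)).eval t = 0 := by
      intro l t v hv ht
      have h1 := h t v hv ht
      rw [xi_eq, hP] at h1
      have h2 := Fintype.linearIndependent_iff.1 w.linearIndependent _ h1 l
      rw [eval_aeval, eval_aeval, ← hAB l (fun s => (p s).eval t) ε t v hv ht, h2, mul_zero]
    have hq : p none * (X * (X - C 1) * (X - C ε)) ≠ 0 :=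
      mul_ne_zero hp (mul_ne_zero (mul_ne_zero X_ne_zero (X_sub_C_ne_zero _)) (X_sub_C_ne_zero _))
    have key2 : ∀ l, ∀ᶠ t in 𝓝[≠] (0 : ℂ),
        (MvPolynomial.aeval (Sum.elim p fun b => cond b (C ε) X) (A l)).eval t = 0 ∧
          (MvPolynomial.aeval (Sum.elim p fun b => cond b (C ε) X) (B l)).eval t = 0 := by
      intro l
      filter_upwards [ev_ne_zero hq, self_mem_nhdsWithin] with t ht ht0
      simp only [eval_mul, eval_X, eval_sub, eval_C] at ht
      have hv := vbr_sq (ε := ε) ht0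
      have hv0 : vbr ε t ≠ 0 := fun h0 => right_ne_zero_of_mul ht (by rw [← hv, h0]; simp)
      have h1 := key l t _ hv (left_ne_zero_of_mul ht)
      have h2 := key l t (-vbr ε t) (by rw [neg_sq, hv]) (left_ne_zero_of_mul ht)
      have h3 : (MvPolynomial.aeval (Sum.elim p fun b => cond b (C ε) X) (A l)).eval t = 0 := by
        linear_combination (h1 + h2) / 2
      rw [h3, zero_add] at h1
      exact ⟨h3, (mul_eq_zero.1 h1).resolve_left hv0⟩
    rintro (l | l)
    · exact eq_zero_of_infinite_isRoot _ (infinite_of_ev ((key2 l).mono fun t ht => ht.1))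
    · exact eq_zero_of_infinite_isRoot _ (infinite_of_ev ((key2 l).mono fun t ht => ht.2))
  · rw [xi_eq, hP]
    refine Finset.sum_eq_zero fun l _ => ?_
    have h1 := hAB l (fun s => (p s).eval t) ε t v hv ht
    have h2 := h (.inl l)
    have h3 := h (.inr l)
    simp only [Sum.elim_inl, Sum.elim_inr] at h2 h3
    rw [← eval_aeval, ← eval_aeval, h2, h3] at h1
    simp only [eval_zero, mul_zero, add_zero, mul_eq_zero, pow_eq_zero_iff', ht, false_and,
      false_or] at h1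
    rw [h1, zero_smul]

theorem norm_circ {r : ℝ} (hr : 0 ≤ r) (s : ℝ) : ‖circ r s‖ = r := by
  have : (2 * Real.pi * Complex.I * s : ℂ) = ((2 * Real.pi * s : ℝ) : ℂ) * Complex.I := by
    push_cast; ring
  rw [circ, norm_mul, this, Complex.norm_exp_ofReal_mul_I, Complex.norm_real, Real.norm_of_nonneg hr,
    mul_one]

theorem continuous_circ (r : ℝ) : Continuous (circ r) := by
  unfold circ
  fun_prop

theorem circ_zero_one (r : ℝ) : circ r 0 = circ r 1 := by
  simp [circ, Complex.exp_two_pi_mul_I]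

theorem exists_radius {q : ℂ[X]} (hq : q ≠ 0) {a : ℝ} (ha : a < 1) :
    ∃ ρ, a < ρ ∧ ρ < 1 ∧ ∀ t : ℂ, ‖t‖ = ρ → q.eval t ≠ 0 := by
  obtain ⟨ρ, h1, h2⟩ := (Set.Ioo_infinite ha).exists_notMem_finite
    ((finite_setOfPred_isRoot hq).image fun z : ℂ => ‖z‖)
  exact ⟨ρ, h1.1, h1.2, fun t ht h => h2 ⟨t, h, ht⟩⟩

/-- Fillability of the vanishing cycle does not depend on the member of the family. -/
theorem deform [FiniteDimensional ℂ E] (hF : S_FC2) {Y : Set E} {𝓕 : (ℝ × ℝ → E) → Prop}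
    (hS : FillSys Y 𝓕) (hA : AnnOK Y 𝓕) {ε : ℝ → ℂ} (hε : Continuous ε) (hε1 : ∀ s, ‖ε s‖ < 1)
    {den : ℝ → ℂ[X]} (hden : ∀ s, den s ≠ 0)
    (hdc : Continuous fun x : ℝ × ℂ => (den x.1).eval x.2) {N₀ N₁ : ℝ → ℂ → E}
    (h0c : Continuous fun x : ℝ × ℂ => N₀ x.1 x.2) (h1c : Continuous fun x : ℝ × ℂ => N₁ x.1 x.2)
    (h0d : ∀ s, Differentiable ℂ (N₀ s)) (h1d : ∀ s, Differentiable ℂ (N₁ s))
    (hY : ∀ s t, t ≠ 0 → (den s).eval t ≠ 0 →
      ((den s).eval t)⁻¹ • (N₀ s t + vbr (ε s) t • N₁ s t) ∈ Y)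
    {s s' ρ ρ' : ℝ} (h1 : ‖ε s‖ < ρ ∧ ρ < 1 ∧ ∀ t : ℂ, ‖t‖ = ρ → (den s).eval t ≠ 0)
    (h2 : ‖ε s'‖ < ρ' ∧ ρ' < 1 ∧ ∀ t : ℂ, ‖t‖ = ρ' → (den s').eval t ≠ 0)
    (h : LN 𝓕 fun τ => ((den s).eval (circ ρ τ))⁻¹ •
      (N₀ s (circ ρ τ) + vbr (ε s) (circ ρ τ) • N₁ s (circ ρ τ))) :
    LN 𝓕 fun τ => ((den s').eval (circ ρ' τ))⁻¹ •
      (N₀ s' (circ ρ' τ) + vbr (ε s') (circ ρ' τ) • N₁ s' (circ ρ' τ)) := by
  set ξ : ℝ → ℂ → E := fun s t => ((den s).eval t)⁻¹ • (N₀ s t + vbr (ε s) t • N₁ s t) with hξ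
  set Adm : ℝ → ℝ → Prop := fun s ρ =>
    ‖ε s‖ < ρ ∧ ρ < 1 ∧ ∀ t : ℂ, ‖t‖ = ρ → (den s).eval t ≠ 0 with hAdm
  have hnum : ∀ s t, ‖ε s‖ < ‖t‖ → ‖t‖ < 1 →
      AnalyticAt ℂ (fun t => N₀ s t + vbr (ε s) t • N₁ s t) t := fun s t a b =>
    ((h0d s).analyticAt t).add ((analyticAt_vbr a b).smul ((h1d s).analyticAt t))
  have rad : ∀ s ρ ρ', Adm s ρ → Adm s ρ' → ρ ≤ ρ' →
      (LN 𝓕 (fun τ => ξ s (circ ρ τ)) ↔ LN 𝓕 (fun τ => ξ s (circ ρ' τ))) := by
    intro s ρ ρ' a b c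
    refine hA (ξ s) ρ ρ' ((norm_nonneg _).trans_lt a.1) c (fun t ht => ⟨?_, ?_⟩) fun t ht => ?_
    · exact ((den s).differentiable.analyticAt t).meromorphicAt.inv.smul
        (hnum s t (a.1.trans_le ht.1) (ht.2.trans_lt b.2.1)).meromorphicAt
    · have h3 : (den s * X) ≠ 0 := mul_ne_zero (hden s) X_ne_zero
      rcases ((den s * X).differentiable.analyticAt t).eventually_eq_zero_or_eventually_ne_zero
        with h4 | h4
      · exact absurd (eq_zero_of_infinite_isRoot _ (infinite_of_mem_nhds t h4)) h3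
      · filter_upwards [h4] with x hx
        rw [eval_mul, eval_X] at hx
        exact hY s x (right_ne_zero_of_mul hx) (left_ne_zero_of_mul hx)
    · have h3 : (den s).eval t ≠ 0 := ht.elim (a.2.2 t) (b.2.2 t)
      have h4 : ‖ε s‖ < ‖t‖ := by rcases ht with ht | ht <;> rw [ht]; exacts [a.1, b.1]
      have h5 : ‖t‖ < 1 := by rcases ht with ht | ht <;> rw [ht]; exacts [a.2.1, b.2.1]
      exact (((den s).differentiable.analyticAt t).inv h3).smul (hnum s t h4 h5)
  have rad' : ∀ s ρ ρ', Adm s ρ → Adm s ρ' →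
      LN 𝓕 (fun τ => ξ s (circ ρ τ)) → LN 𝓕 (fun τ => ξ s (circ ρ' τ)) := by
    intro s ρ ρ' a b
    rcases le_total ρ ρ' with c | c
    · exact (rad s ρ ρ' a b c).1
    · exact (rad s ρ' ρ b a c).2
  have mov : ∀ s s' ρ, (∀ μ ∈ Icc (0 : ℝ) 1, Adm (s + μ * (s' - s)) ρ) →
      LN 𝓕 (fun τ => ξ s (circ ρ τ)) → LN 𝓕 (fun τ => ξ s' (circ ρ τ)) := by
    intro s s' ρ a b
    have hρ : 0 < ρ := (norm_nonneg _).trans_lt (a 0 (by simp)).1
    have hc := continuous_circ ρ
    have hγ : Continuous fun x : ℝ × ℝ => (s + x.1 * (s' - s), circ ρ x.2) := by fun_prop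
    have := (hF E Y 𝓕 hS).1 (fun x => ξ (s + x.1 * (s' - s)) (circ ρ x.2)) (fun x hx => ?_)
      (fun x hx => ?_) (fun μ _ => by simp only [circ_zero_one]) (by simpa using b)
    · simpa using this
    · refine ContinuousAt.continuousWithinAt ?_
      have a' := a x.1 hx.1
      refine (((hdc.comp hγ).continuousAt).inv₀ (a'.2.2 _ (norm_circ hρ.le _))).smul
        ((h0c.comp hγ).continuousAt.add (ContinuousAt.smul ?_ (h1c.comp hγ).continuousAt))
      exact continuousAt_vbr (ε := fun x : ℝ × ℝ => ε (s + x.1 * (s' - s)))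
        (t := fun x : ℝ × ℝ => circ ρ x.2) (by fun_prop) (by fun_prop)
        (by rw [norm_circ hρ.le]; exact a'.1) (by rw [norm_circ hρ.le]; exact a'.2.1)
    · exact hY _ _ (norm_pos_iff.1 (by rw [norm_circ hρ.le]; exact hρ))
        ((a x.1 hx.1).2.2 _ (norm_circ hρ.le _))
  set L : ℝ → Prop := fun s => ∃ ρ, Adm s ρ ∧ LN 𝓕 (fun τ => ξ s (circ ρ τ)) with hL
  have lc : IsLocallyConstant L := by
    rw [IsLocallyConstant.iff_eventually_eq]
    intro s₀
    obtain ⟨ρ, hρ⟩ : ∃ ρ, Adm s₀ ρ := exists_radius (hden s₀) (hε1 s₀)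
    have h3 : ∀ᶠ s in 𝓝 s₀, Adm s ρ := by
      have h4 : ∀ᶠ s in 𝓝 s₀, ∀ t ∈ sphere (0 : ℂ) ρ, (den s).eval t ≠ 0 :=
        (isCompact_sphere (0 : ℂ) ρ).eventually_forall_of_forall_eventually fun t ht =>
          hdc.continuousAt.eventually_ne (hρ.2.2 t (by simpa using ht))
      filter_upwards [h4, hε.norm.continuousAt.eventually (gt_mem_nhds hρ.1)] with s h5 h6
      exact ⟨h6, hρ.2.1, fun t ht => h5 t (by simpa using ht)⟩
    obtain ⟨δ, hδ, h4⟩ := Metric.eventually_nhds_iff_ball.1 h3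
    have h5 : ∀ s ∈ ball s₀ δ, ∀ s' ∈ ball s₀ δ, L s → L s' := by
      rintro s hs s' hs' ⟨ρ₁, a, b⟩
      refine ⟨ρ, h4 s' hs', mov s s' ρ (fun μ hμ => h4 _ ?_) (rad' s ρ₁ ρ a (h4 s hs) b)⟩
      simpa using (convex_ball s₀ δ).add_smul_sub_mem hs hs' hμ
    filter_upwards [ball_mem_nhds s₀ hδ] with s hs
    exact propext ⟨h5 s hs s₀ (mem_ball_self hδ), h5 s₀ (mem_ball_self hδ) s hs⟩
  have h3 : L s' := lc.apply_eq_of_preconnectedSpace s s' ▸ ⟨ρ, h1, h⟩
  obtain ⟨ρ₁, a, b⟩ := h3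
  exact rad' s' ρ₁ ρ' a h2 b

end

end

end Lim

end Pool.Agent.P.MP_daea48_ag
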