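import Pool.Agent.P.MP_daea48_ag.StA

/-! Package `Loc`: from the chart `U₀` to `U`; connectedness of the fibres. -/

open Set Filter Topology Metric Polynomial

namespace Pool.Agent.P.MP_daea48_ag

noncomputable section

namespace Loc

section
variable {E E' L E₀ EP : Type} [NormedAddCommGroup E] [NormedSpace ℂ E] [FiniteDimensional ℂ E]
  [NormedAddCommGroup E'] [NormedSpace ℂ E'] [FiniteDimensional ℂ E']
  [NormedAddCommGroup L] [NormedSpace ℂ L] [FiniteDimensional ℂ L]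
  [NormedAddCommGroup E₀] [NormedSpace ℂ E₀] [FiniteDimensional ℂ E₀]
  [NormedAddCommGroup EP] [NormedSpace ℂ EP] [FiniteDimensional ℂ EP]
  {U : Set (ℂ × E)} {pr : E →L[ℂ] E'} {lab : E →L[ℂ] L}

omit [FiniteDimensional ℂ E] [FiniteDimensional ℂ E₀] in
/-- Uniform continuity of the inverse chart near a compact set. -/
theorem unif {V : Set (ℂ × E₀)} {φ : ℂ × E → E₀} {ψ : ℂ × E₀ → E} {h : ℂ × E₀ → ℂ}
    (tr : Tr U V φ ψ h) {K : Set (ℂ × E)} (hKU : K ⊆ U) (hK : IsCompact K) {η₀ : ℝ}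
    (hη : 0 < η₀) : ∃ δ > 0, ∀ u ∈ K, ∀ ξ : E₀, ‖ξ - φ u‖ < δ →
      h (u.1, ξ) ≠ 0 ∧ ‖(h (u.1, ξ))⁻¹ • ψ (u.1, ξ) - u.2‖ < η₀ := by
  have key : ∀ᶠ a in 𝓝 (0 : E₀), ∀ u ∈ K, h (u.1, φ u + a) ≠ 0 ∧
      ‖(h (u.1, φ u + a))⁻¹ • ψ (u.1, φ u + a) - u.2‖ < η₀ := by
    refine hK.eventually_forall_of_forall_eventually fun u hu => ?_
    obtain ⟨_, h2, h3⟩ := tr.fw u (hKU hu)
    have c0 : Continuous fun x : E₀ × (ℂ × E) => ((x.2.1, φ x.2 + x.1) : ℂ × E₀) :=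
      (continuous_fst.comp continuous_snd).prodMk
        ((tr.tφ.continuous.comp continuous_snd).add continuous_fst)
    have c1 : Continuous fun x : E₀ × (ℂ × E) => h (x.2.1, φ x.2 + x.1) :=
      tr.th.continuous.comp c0
    have c2 : Continuous fun x : E₀ × (ℂ × E) => ψ (x.2.1, φ x.2 + x.1) :=
      tr.tψ.continuous.comp c0
    have e1 : h (((0 : E₀), u).2.1, φ ((0 : E₀), u).2 + ((0 : E₀), u).1) ≠ 0 := by simpa using h2
    have c3 : ContinuousAt (fun x : E₀ × (ℂ × E) =>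
        ‖(h (x.2.1, φ x.2 + x.1))⁻¹ • ψ (x.2.1, φ x.2 + x.1) - x.2.2‖) ((0 : E₀), u) :=
      (((c1.continuousAt.inv₀ e1).smul c2.continuousAt).sub
        (continuous_snd.comp continuous_snd).continuousAt).norm
    refine (c1.continuousAt.eventually_ne e1).and (c3.eventually_lt continuousAt_const ?_)
    simpa [h3] using hη
  obtain ⟨δ, hδ, hb⟩ := Metric.eventually_nhds_iff.1 key
  refine ⟨δ, hδ, fun u hu ξ hξ => ?_⟩
  have := hb (y := ξ - φ u) (by simpa using hξ) u hu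
  simpa using this

omit [FiniteDimensional ℂ E'] [FiniteDimensional ℂ L] [FiniteDimensional ℂ EP] in
theorem br (D : Two E₀ EP U pr lab) (hB : BrG U D.U₀ D.pr₀ D.lab₀ D.φ D.φ) : Br U pr lab := by
  intro K hKU hK η₀ hη₀
  obtain ⟨δ, hδ, hu⟩ := unif D.tr hKU hK hη₀
  obtain ⟨ε, hε, h1⟩ := hB K hKU hK δ hδ
  refine ⟨ε, hε, fun η hη => ?_⟩
  obtain ⟨w₀, hw, Ψ, Reg, B⟩ := h1 η hη
  refine ⟨w₀, hw, fun x => (D.h (x.1.1, Ψ x))⁻¹ • D.ψ (x.1.1, Ψ x),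
    Reg ∩ {x | D.h (x.1.1, Ψ x) ≠ 0}, ?_⟩
  have hac : AC (brD K E' ε) fun x : (ℂ × E) × E' × E' × ℂ => x.1.1 := (AC.id' _).fst.fst
  have back : ∀ x ∈ brD K E' ε, x ∈ Reg → D.h (x.1.1, Ψ x) ≠ 0 →
      (x.1.1, (D.h (x.1.1, Ψ x))⁻¹ • D.ψ (x.1.1, Ψ x)) ∈ U ∧
      pr ((D.h (x.1.1, Ψ x))⁻¹ • D.ψ (x.1.1, Ψ x)) = D.pr₀ (Ψ x) ∧
      lab ((D.h (x.1.1, Ψ x))⁻¹ • D.ψ (x.1.1, Ψ x)) = D.lab₀ (Ψ x) := by
    intro x hx hR hh
    obtain ⟨a1, a2⟩ := D.tr.bw (x.1.1, Ψ x) (B.mem x hx hR).1 hh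
    refine ⟨a1, ?_, ?_⟩
    · have := D.pr_φ _ a1
      rw [a2] at this; exact this.symm
    · have := D.lab_φ _ a1
      rw [a2] at this; exact this.symm
  refine ⟨(B.mf.prod_left hac).div D.tr.th D.tr.tψ, fun x hx hR => ?_, fun x hx hw => ?_,
    fun x hx hw => ?_⟩
  · obtain ⟨a1, _, a3⟩ := back x hx hR.1 hR.2
    exact ⟨a1, a3.trans ((B.mem x hx hR.1).2.trans (D.lab_φ _ (hKU hx.1)))⟩
  · obtain ⟨b1, b2, b3⟩ := B.near0 x hx hw
    obtain ⟨c1, c2⟩ := hu x.1 hx.1 (Ψ x) b2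
    refine ⟨⟨b1, c1⟩, c2, ?_⟩
    rw [(back x hx b1 c1).2.1, ← D.pr_φ _ (hKU hx.1)]; exact b3
  · obtain ⟨b1, b2, b3⟩ := B.nearI x hx hw
    obtain ⟨c1, c2⟩ := hu x.1 hx.1 (Ψ x) b2
    refine ⟨⟨b1, c1⟩, c2, ?_⟩
    rw [(back x hx b1 c1).2.1, ← D.pr_φ _ (hKU hx.1)]; exact b3

omit [FiniteDimensional ℂ E] [FiniteDimensional ℂ E'] [FiniteDimensional ℂ L]
  [FiniteDimensional ℂ E₀] [FiniteDimensional ℂ EP] in
theorem fin_lab (D : Two E₀ EP U pr lab) (z : ℂ) : (lab '' fib U z).Finite := by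
  refine (D.fin₀ z).subset ?_
  rintro _ ⟨ξ, hξ, rfl⟩
  exact ⟨D.φ (z, ξ), (D.tr.fw _ hξ).1, D.lab_φ _ hξ⟩

omit [FiniteDimensional ℂ E] [FiniteDimensional ℂ E'] [FiniteDimensional ℂ L] in
/-- Moving inside a fibre. -/
theorem move (T : TC U pr) {z : ℂ} (hf : (lab '' fib U z).Finite) {ξ : E} (hξ : (z, ξ) ∈ U)
    {x : E'} (hx : ‖x - pr ξ‖ < T.rho (z, ξ) ^ 2) :
    ∃ ζ, pr ζ = x ∧ JoinedIn {ζ | (z, ζ) ∈ U ∧ lab ζ = lab ξ} ξ ζ := by
  have hn : ∀ t ∈ Icc (0 : ℝ) 1, ‖pr ξ + t • (x - pr ξ) - pr ξ‖ < T.rho (z, ξ) ^ 2 := by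
    intro t ht
    have : ‖t • (x - pr ξ)‖ ≤ ‖x - pr ξ‖ := by
      rw [norm_smul, Real.norm_eq_abs, abs_of_nonneg ht.1]
      exact mul_le_of_le_one_left (norm_nonneg _) ht.2
    simpa using this.trans_lt hx
  have hd : ∀ t ∈ Icc (0 : ℝ) 1, ‖((z, pr ξ + t • (x - pr ξ)) : ℂ × E') - pj pr (z, ξ)‖ <
      T.rho (z, ξ) ^ 2 := fun t ht => by simpa using hn t ht
  have hc : ContinuousOn (fun t : ℝ => T.ex (z, ξ) (z, pr ξ + t • (x - pr ξ))) (Icc 0 1) :=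
    T.continuousOn_ex_comp (u := fun _ => (z, ξ)) (p := fun t : ℝ => (z, pr ξ + t • (x - pr ξ)))
      continuousOn_const (by fun_prop) fun t ht => ⟨hξ, hd t ht⟩
  have hp : IsPathConnected
      ((fun t : ℝ => T.ex (z, ξ) (z, pr ξ + t • (x - pr ξ))) '' Icc 0 1) :=
    ((convex_Icc (0 : ℝ) 1).isPathConnected ⟨0, by simp⟩).image' hc
  refine ⟨T.ex (z, ξ) (z, pr ξ + (1 : ℝ) • (x - pr ξ)), ?_, ?_⟩
  · rw [T.pr_ex hξ (hd 1 (by simp))]; simp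
  · refine (hp.joinedIn ξ ⟨0, by simp, ?_⟩ _ ⟨1, by simp, rfl⟩).mono ?_
    · have := T.ex_self hξ
      simpa using this
    · rintro _ ⟨t, ht, rfl⟩
      exact ⟨T.ex_mem hξ (hd t ht), T.ex_lab hξ lab.continuous.continuousOn hf (hn t ht)⟩

/-- An entire function that is not zero does not vanish on a ball. -/
theorem exists_ne {X : Type} [NormedAddCommGroup X] [NormedSpace ℂ X] {f : X → ℂ}
    (hf : Differentiable ℂ f) {q : X} (hq : f q ≠ 0) (p : X) {O : Set X} (hO : O ∈ 𝓝 p) :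
    ∃ x ∈ O, f x ≠ 0 := by
  by_contra hne
  push Not at hne
  have hg : Differentiable ℂ fun l : ℂ => f (p + l • (q - p)) := hf.comp (by fun_prop)
  have h0 : (fun l : ℂ => f (p + l • (q - p))) =ᶠ[𝓝 0] 0 := by
    have c : ContinuousAt (fun l : ℂ => p + l • (q - p)) 0 := by fun_prop
    have : ∀ᶠ l in 𝓝 (0 : ℂ), p + l • (q - p) ∈ O := c.eventually (by simpa using hO)
    exact this.mono fun l hl => hne _ hl
  have han : AnalyticOnNhd ℂ (fun l : ℂ => f (p + l • (q - p))) univ :=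
    fun l _ => hg.analyticAt l
  have := han.eqOn_zero_of_preconnected_of_eventuallyEq_zero isPreconnected_univ (mem_univ 0) h0
    (mem_univ 1)
  exact hq (by simpa using this)

/-- Homogeneous form of `pw`. -/
def hw {X Y : Type} [NormedAddCommGroup Y] [NormedSpace ℂ Y] {e : ℕ} (n : Fin (e + 1) → X → Y)
    (u : X) (s : ℂ) : Y := ∑ k : Fin (e + 1), (s ^ (k : ℕ) * (1 - s) ^ (e - k)) • n k u

section hw
variable {X Y : Type} [NormedAddCommGroup Y] [NormedSpace ℂ Y] {e : ℕ} (n : Fin (e + 1) → X → Y)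
  (u : X)

theorem hw_zero : hw n u 0 = n 0 u := by
  unfold hw
  rw [Finset.sum_eq_single 0]
  · simp
  · intro k _ hk
    have : (k : ℕ) ≠ 0 := fun h => hk (Fin.ext h)
    simp [this]
  · simp

theorem hw_one : hw n u 1 = n (Fin.last e) u := by
  unfold hw
  rw [Finset.sum_eq_single (Fin.last e)]
  · simp
  · intro k _ hk
    have h1 : (k : ℕ) ≠ e := fun h => hk (Fin.ext (by simpa using h))
    have h2 := k.2
    have : e - (k : ℕ) ≠ 0 := by omega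
    simp [this]
  · simp

theorem hw_eq {s : ℂ} (hs : s ≠ 1) : hw n u s = (1 - s) ^ e • pw n u (s / (1 - s)) := by
  have h1 : (1 - s) ≠ 0 := sub_ne_zero.2 hs.symm
  unfold hw pw
  rw [Finset.smul_sum]
  refine Finset.sum_congr rfl fun k _ => ?_
  rw [smul_smul]
  congr 1
  have h2 : (k : ℕ) ≤ e := Nat.lt_succ_iff.1 k.2
  have h3 : (1 - s) ^ e = (1 - s) ^ (e - (k : ℕ)) * (1 - s) ^ (k : ℕ) := by
    rw [← pow_add, Nat.sub_add_cancel h2]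
  rw [div_pow, h3]
  field_simp

theorem hw_diff : Differentiable ℂ (hw n u) := by
  unfold hw
  fun_prop

end hw

omit [FiniteDimensional ℂ E'] [FiniteDimensional ℂ L] [FiniteDimensional ℂ EP] in
/-- Two points of `U` on one rational curve are joined. -/
theorem join_curve (D : Two E₀ EP U pr lab) {z : ℂ} {ζ₁ ζ₂ : E} (h1 : (z, ζ₁) ∈ U)
    (h2 : (z, ζ₂) ∈ U) {q : EP} (hq : (z, q) ∈ D.M) (e1 : D.e₁ q = D.φ (z, ζ₁))
    (e2 : D.e₂ q = D.φ (z, ζ₂)) : JoinedIn {ζ | (z, ζ) ∈ U ∧ lab ζ = lab ζ₁} ζ₁ ζ₂ := by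
  set p : ℂ × EP := (z, q) with hp
  set γ : ℂ → E₀ := fun s => (hw D.d p s)⁻¹ • hw D.n p s with hγ
  obtain ⟨a1, a2⟩ := D.at0 p hq
  obtain ⟨b1, b2⟩ := D.atI p hq
  obtain ⟨_, m2, _, m4⟩ := D.ends p hq
  have g0 : γ 0 = D.e₁ q := by
    simp only [hγ, hw_zero]
    rw [a2, smul_smul, inv_mul_cancel₀ a1, one_smul]
  have g1 : γ 1 = D.e₂ q := by
    simp only [hγ, hw_one]
    rw [b2, smul_smul, inv_mul_cancel₀ b1, one_smul]
  have hl : D.lab₀ (D.e₁ q) = lab ζ₁ := by rw [e1]; exact D.lab_φ _ h1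
  have hmem : ∀ s, hw D.d p s ≠ 0 → (z, γ s) ∈ D.U₀ ∧ D.lab₀ (γ s) = lab ζ₁ := by
    intro s hs
    by_cases h : s = 1
    · subst h
      rw [g1]; exact ⟨m2, m4.trans hl⟩
    · have h' : (1 - s) ^ D.e ≠ 0 := pow_ne_zero _ (sub_ne_zero.2 (Ne.symm h))
      have hd : pw D.d p (s / (1 - s)) ≠ 0 := by
        intro h0
        apply hs
        rw [hw_eq _ _ h, h0, smul_zero]
      have e : γ s = (pw D.d p (s / (1 - s)))⁻¹ • pw D.n p (s / (1 - s)) := by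
        simp only [hγ]
        rw [hw_eq _ _ h, hw_eq _ _ h, smul_smul, smul_eq_mul]
        congr 1
        field_simp
      obtain ⟨c1, c2⟩ := D.curve p hq _ hd
      rw [e]; exact ⟨c1, c2.trans hl⟩
  have mf0 : MF univ {s | hw D.d p s ≠ 0} γ :=
    MF.quot (AC.of_diff (hw_diff D.n p) univ) (AC.of_diff (hw_diff D.d p) univ)
  have mf := (mf0.prod_left (AC.const univ z)).div D.tr.th D.tr.tψ
  set Reg : Set ℂ := {s | hw D.d p s ≠ 0} ∩ {s | D.h (z, γ s) ≠ 0} with hReg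
  set Ψ : ℂ → E := fun s => (D.h (z, γ s))⁻¹ • D.ψ (z, γ s) with hΨ
  obtain ⟨_, f2, f3⟩ := D.tr.fw _ h1
  obtain ⟨_, f5, f6⟩ := D.tr.fw _ h2
  have r0 : (0 : ℂ) ∈ Reg := ⟨by simpa [hw_zero] using a1, by simpa [g0, e1] using f2⟩
  have r1 : (1 : ℂ) ∈ Reg := ⟨by simpa [hw_one] using b1, by simpa [g1, e2] using f5⟩
  have hpun : ∀ l : ℂ, ∀ᶠ x in 𝓝[≠] l, x ∈ Reg := fun l =>
    (mf.conn isOpen_univ isPreconnected_univ (γ := fun x => x) (fun _ _ => analyticAt_id)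
      (mapsTo_univ _ _) (mem_univ 0) r0 (mem_univ l)).1
  have hcount : (Regᶜ).Countable := by
    have : Regᶜ = ⋃ m : ℕ, {x ∈ closedBall (0 : ℂ) m | ¬ x ∈ Reg} := by
      ext x
      simp only [mem_compl_iff, mem_iUnion, mem_ofPred_eq, mem_closedBall_zero_iff]
      obtain ⟨m, hm⟩ := exists_nat_ge ‖x‖
      exact ⟨fun h => ⟨m, hm, h⟩, fun ⟨_, _, h⟩ => h⟩
    rw [this]
    exact countable_iUnion fun m =>
      (finite_of_punctured (isCompact_closedBall _ _) fun x _ => hpun x).countable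
  have hpc : IsPathConnected Reg := by
    have := hcount.isPathConnected_compl_of_one_lt_rank (by rw [Complex.rank_real_complex]; simp)
    rwa [compl_compl] at this
  have hc : ContinuousOn Ψ Reg := fun l hl =>
    (mf.an (fun x => x) l analyticAt_id (by simp) hl).2.continuousAt.continuousWithinAt
  have p0 : Ψ 0 = ζ₁ := by simp only [hΨ, g0, e1]; exact f3
  have p1 : Ψ 1 = ζ₂ := by simp only [hΨ, g1, e2]; exact f6
  refine ((hpc.image' hc).joinedIn ζ₁ ⟨0, r0, p0⟩ ζ₂ ⟨1, r1, p1⟩).mono ?_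
  rintro _ ⟨s, hs, rfl⟩
  obtain ⟨c1, c2⟩ := hmem s hs.1
  obtain ⟨d1, d2⟩ := D.tr.bw (z, γ s) c1 hs.2
  refine ⟨d1, ?_⟩
  have := D.lab_φ _ d1
  rw [d2] at this
  exact this.symm.trans c2

omit [FiniteDimensional ℂ E'] [FiniteDimensional ℂ L] [FiniteDimensional ℂ EP] in
theorem conn (T : TC U pr) (D : Two E₀ EP U pr lab) : Conn U lab := by
  intro z ξ₁ ξ₂ h1 h2 hl
  have hf := fin_lab D z
  obtain ⟨y₁, y₂, hy⟩ := D.Nf_ne (z, D.φ (z, ξ₁)) (D.tr.fw _ h1).1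
  rw [D.lab_φ _ h1] at hy
  have hd : Differentiable ℂ fun x : E' × E' => D.Nf (z, lab ξ₁, x.1, x.2) :=
    D.dNf.comp (by fun_prop)
  obtain ⟨x, hx, hN⟩ := exists_ne hd (q := (y₁, y₂)) hy (pr ξ₁, pr ξ₂)
    (prod_mem_nhds (ball_mem_nhds _ (pow_pos (T.rho_pos (z, ξ₁)) 2))
      (ball_mem_nhds _ (pow_pos (T.rho_pos (z, ξ₂)) 2)))
  obtain ⟨ζ₁, p1, j1⟩ := move T hf h1 (x := x.1) (by simpa [dist_eq_norm] using hx.1)
  obtain ⟨ζ₂, p2, j2⟩ := move T hf h2 (x := x.2) (by simpa [dist_eq_norm] using hx.2)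
  rw [← hl] at j2
  obtain ⟨u1, l1⟩ := j1.target_mem
  obtain ⟨u2, l2⟩ := j2.target_mem
  have k1 := D.lab_φ _ u1
  have k2 := D.lab_φ _ u2
  obtain ⟨c1, c2, _, c4⟩ := D.cover z (D.φ (z, ζ₁)) (D.φ (z, ζ₂)) (D.tr.fw _ u1).1
    (D.tr.fw _ u2).1 (by rw [k1, k2]; exact l2.trans l1.symm)
    (by rw [k1, D.pr_φ _ u1, D.pr_φ _ u2]; simpa [l1, p1, p2] using hN)
  obtain ⟨θ, hθ⟩ := IsAlgClosed.exists_root (D.Pi (z, D.φ (z, ζ₁), D.φ (z, ζ₂)))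
    (degree_pos_of_ne_zero_of_nonunit c1.ne_zero fun hu => by
      have := natDegree_eq_zero_of_isUnit hu
      have := D.dd_pos
      omega).ne'
  obtain ⟨m, e1, e2⟩ := c4 θ hθ
  have j3 := join_curve D u1 u2 m e1 e2
  rw [l1] at j3
  exact (j1.trans j3).trans j2.symm

end

end Loc

theorem Loc_of : S_Loc := fun _ _ _ _ _ _ _ _ _ _ _ _ _ _ _ _ _ _ _ _ _ _ _ T D =>
  ⟨Loc.br D, Loc.conn T D⟩

end

end Pool.Agent.P.MP_daea48_ag
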