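import Pool.Agent.P.MP_daea48_ag.StA

/-! Package M1: moving along a continuous section, stability of the standard conditions. -/

open Set Filter Topology Metric Polynomial Asymptotics
open scoped ComplexConjugate

namespace Pool.Agent.P.MP_daea48_ag

noncomputable section

open Classical

namespace M1

theorem real_ind {W : ℝ → Prop} {a b : ℝ} (hab : a ≤ b)
    (h : ∀ t₀ ∈ Icc a b, ∃ δ > 0, ∀ t ∈ Icc a b, ∀ t' ∈ Icc a b, |t - t₀| < δ → |t' - t₀| < δ →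
      t < t' → W t → W t') (ha : W a) : W b := by
  set A : Set ℝ := {t | t ∈ Icc a b ∧ W t} with hA
  have hne : A.Nonempty := ⟨a, ⟨le_rfl, hab⟩, ha⟩
  have hbd : BddAbove A := ⟨b, fun t ht => ht.1.2⟩
  have h1 : a ≤ sSup A := le_csSup hbd ⟨⟨le_rfl, hab⟩, ha⟩
  have h2 : sSup A ≤ b := csSup_le hne fun t ht => ht.1.2
  obtain ⟨δ, hδ, hs⟩ := h (sSup A) ⟨h1, h2⟩
  obtain ⟨t, ht, hlt⟩ := exists_lt_of_lt_csSup hne (show sSup A - δ < sSup A by linarith)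
  have hts : t ≤ sSup A := le_csSup hbd ht
  set t' := min b (sSup A + δ / 2) with ht'
  have h3 : sSup A ≤ t' := le_min h2 (by linarith)
  have h4 : t' ≤ b := min_le_left _ _
  have h5 : t' ≤ sSup A + δ / 2 := min_le_right _ _
  have hW : W t' := by
    rcases (hts.trans h3).eq_or_lt with e | hl
    · rw [← e]; exact ht.2
    · exact hs t ht.1 t' ⟨h1.trans h3, h4⟩ (abs_lt.2 ⟨by linarith, by linarith⟩)
        (abs_lt.2 ⟨by linarith, by linarith⟩) hl ht.2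
  have h6 : t' ≤ sSup A := le_csSup hbd ⟨⟨h1.trans h3, h4⟩, hW⟩
  have h7 : t' = b := by
    rcases min_choice b (sSup A + δ / 2) with e | e
    · exact e
    · rw [← ht'] at e; linarith
  rwa [h7] at hW

theorem isCompact_cann (r s : ℝ) : IsCompact (cann r s) := by
  have : cann r s = closedBall (0 : ℂ) s ∩ {z | r ≤ ‖z‖} := by
    ext z; simp [cann, and_comm]
  rw [this]
  exact (isCompact_closedBall _ _).inter_right (isClosed_le continuous_const continuous_norm)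

variable {E : Type} [NormedAddCommGroup E] [NormedSpace ℂ E]

theorem stable_mono {r r' : ℝ} {𝒞 : (ℂ → E) → Prop} (h : r ≤ r') (hs : Stable r 𝒞) :
    Stable r' 𝒞 := by
  intro S hS hm
  obtain ⟨q, hq, H⟩ := hs S hS (hm.mono_set (closedBall_subset_closedBall h))
  exact ⟨q, hq, fun S' h' => H S' fun z hz => h' z (closedBall_subset_closedBall h hz)⟩

theorem poly_bound (q : ℂ[X]) (r : ℝ) : ∃ M : ℝ, 1 ≤ M ∧ ∀ z ∈ closedBall (0 : ℂ) r, ‖q.eval z‖ ≤ M := by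
  obtain ⟨M, hM⟩ := (isCompact_closedBall (0 : ℂ) r).exists_bound_of_continuousOn
    (f := fun z => q.eval z) q.continuous.continuousOn
  exact ⟨max 1 M, le_max_left _ _, fun z hz => (hM z hz).trans (le_max_right _ _)⟩

theorem stable_and {r : ℝ} {𝒞 𝒞' : (ℂ → E) → Prop} (h : Stable r 𝒞) (h' : Stable r 𝒞') :
    Stable r fun S => 𝒞 S ∧ 𝒞' S := by
  intro S hS hm
  obtain ⟨q, hq, H⟩ := h S hS.1 hm
  obtain ⟨q', hq', H'⟩ := h' S hS.2 hm
  obtain ⟨M, hM1, hM⟩ := poly_bound q r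
  obtain ⟨M', hM1', hM'⟩ := poly_bound q' r
  have hp : (0 : ℝ) < M * M' := by positivity
  have hc : ((M * M' : ℝ) : ℂ)⁻¹ ≠ 0 := inv_ne_zero (by exact_mod_cast hp.ne')
  have key : ∀ z, ‖(C ((M * M' : ℝ) : ℂ)⁻¹ * q * q').eval z‖
      = ‖q.eval z‖ * ‖q'.eval z‖ / (M * M') := by
    intro z
    rw [eval_mul, eval_mul, eval_C, norm_mul, norm_mul, norm_inv, Complex.norm_real,
      Real.norm_of_nonneg hp.le]
    field_simp
  refine ⟨C ((M * M' : ℝ) : ℂ)⁻¹ * q * q', mul_ne_zero (mul_ne_zero (C_ne_zero.2 hc) hq) hq',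
    fun S' hS' => ⟨H S' fun z hz ha => ⟨(hS' z hz ha).1, (hS' z hz ha).2.trans ?_⟩,
      H' S' fun z hz ha => ⟨(hS' z hz ha).1, (hS' z hz ha).2.trans ?_⟩⟩⟩
  · rw [key, div_le_iff₀ hp]
    refine mul_le_mul_of_nonneg_left ((hM' z hz).trans ?_) (norm_nonneg _)
    nlinarith
  · rw [key, div_le_iff₀ hp, mul_comm]
    refine mul_le_mul_of_nonneg_left ((hM z hz).trans ?_) (norm_nonneg _)
    nlinarith

theorem stable_jet [CompleteSpace E] (r : ℝ) (k : ℕ) (P : Finset ℂ) (σ : ℂ → ℂ → E) :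
    Stable r fun S => ∀ p ∈ P, ‖p‖ < r → Jet k (σ p) p S := by
  intro S hS hm
  refine ⟨∏ p ∈ P, (X - C p) ^ k,
    Finset.prod_ne_zero_iff.2 fun p _ => pow_ne_zero _ (X_sub_C_ne_zero p), ?_⟩
  intro S' hS' p hp hpr
  have hb : ball (0 : ℂ) r ∈ 𝓝 p := isOpen_ball.mem_nhds (by simpa using hpr)
  have h1 : ∀ᶠ z in 𝓝[≠] p, ‖S' z - S z‖ ≤ ‖(∏ p ∈ P, (X - C p) ^ k : ℂ[X]).eval z‖ := by
    filter_upwards [(hm p (by simpa using hpr.le)).eventually_analyticAt,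
      mem_nhdsWithin_of_mem_nhds hb] with z hz hzb
    exact (hS' z (ball_subset_closedBall hzb) hz).2
  have h2 : (fun z => (∏ p ∈ P, (X - C p) ^ k : ℂ[X]).eval z) =O[𝓝[≠] p]
      fun z => (z - p) ^ k := by
    have e : ∀ z, (∏ p ∈ P, (X - C p) ^ k : ℂ[X]).eval z
        = (z - p) ^ k * (∏ p ∈ P.erase p, (X - C p) ^ k : ℂ[X]).eval z := by
      intro z
      rw [← Finset.mul_prod_erase P _ hp, eval_mul]
      simp
    simp only [e]
    have h3 : (fun z => (∏ p ∈ P.erase p, (X - C p) ^ k : ℂ[X]).eval z) =O[𝓝[≠] p]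
        fun _ => (1 : ℂ) :=
      (((∏ p ∈ P.erase p, (X - C p) ^ k : ℂ[X]).continuous.tendsto p).mono_left
        nhdsWithin_le_nhds).isBigO_one ℂ
    simpa using (isBigO_refl (fun z : ℂ => (z - p) ^ k) (𝓝[≠] p)).mul h3
  have h4 : (fun z => S' z - S z) =O[𝓝[≠] p] fun z => (z - p) ^ k :=
    (IsBigO.of_bound' h1).trans h2
  have h5 := h4.add (hS p hp hpr)
  simpa [Jet] using h5

theorem stable_near {r η : ℝ} {γ : ℂ → E} (hr : 0 < r) (hγ : ContinuousOn γ (sphere 0 r)) :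
    Stable r fun S => ∀ z ∈ sphere (0 : ℂ) r, AnalyticAt ℂ S z ∧ ‖S z - γ z‖ < η := by
  intro S hS _
  have hc : ContinuousOn (fun z => ‖S z - γ z‖) (sphere 0 r) :=
    (ContinuousOn.sub (fun z hz => (hS z hz).1.continuousAt.continuousWithinAt) hγ).norm
  obtain ⟨z₀, hz₀, hmax⟩ := (isCompact_sphere (0 : ℂ) r).exists_isMaxOn
    (NormedSpace.sphere_nonempty.2 hr.le) hc
  have hm := (hS z₀ hz₀).2
  set c : ℝ := (η - ‖S z₀ - γ z₀‖) / 2 with hcdef
  have hc0 : 0 < c := by rw [hcdef]; linarith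
  refine ⟨C (c : ℂ), C_ne_zero.2 (by exact_mod_cast hc0.ne'), fun S' hS' z hz => ?_⟩
  obtain ⟨h1, h2⟩ := hS' z (sphere_subset_closedBall hz) (hS z hz).1
  refine ⟨h1, ?_⟩
  rw [eval_C, Complex.norm_real, Real.norm_of_nonneg hc0.le] at h2
  have h3 : ‖S z - γ z‖ ≤ ‖S z₀ - γ z₀‖ := hmax hz
  have h4 := norm_sub_le_norm_sub_add_norm_sub (S' z) (S z) (γ z)
  linarith

/-- An estimate on a circle persists on nearby circles. -/
theorem near_circle {D : Set ℂ} (hD : IsCompact D) {f : ℂ → ℝ} (hf : ContinuousOn f D) {t₀ c : ℝ}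
    (h : ∀ z ∈ D, ‖z‖ = t₀ → f z < c) : ∃ δ > 0, ∀ z ∈ D, |‖z‖ - t₀| < δ → f z < c := by
  set B : Set ℂ := D ∩ f ⁻¹' Ici c with hB
  have hBc : IsCompact B :=
    hD.of_isClosed_subset (hf.preimage_isClosed_of_isClosed hD.isClosed isClosed_Ici)
      inter_subset_left
  rcases B.eq_empty_or_nonempty with e | hne
  · refine ⟨1, one_pos, fun z hz _ => ?_⟩
    by_contra hn
    have : z ∈ B := ⟨hz, not_lt.1 hn⟩
    rw [e] at this
    exact this
  · obtain ⟨z₀, hz₀, hmin⟩ := hBc.exists_isMinOn hne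
      (f := fun z => |‖z‖ - t₀|) (by fun_prop)
    refine ⟨|‖z₀‖ - t₀|, abs_pos.2 fun e => ?_, fun z hz hlt => ?_⟩
    · exact absurd (h z₀ hz₀.1 (sub_eq_zero.1 e)) (not_lt.2 hz₀.2)
    · by_contra hn
      exact absurd (hmin (show z ∈ B from ⟨hz, not_lt.1 hn⟩)) (not_le.2 hlt)

end M1

open M1 in
theorem M1_of (hStep : S_Step) (hAp : S_Ap) : S_M1 := by
  refine ⟨?_, fun E _ _ _ => ⟨fun r r' 𝒞 h hs => stable_mono h hs,
    fun r 𝒞 𝒞' h h' => stable_and h h', fun r k P σ => stable_jet r k P σ,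
    fun r η γ hr hγ => stable_near hr hγ⟩⟩
  intro E _ _ _ E' _ _ _ L _ _ _ U pr T lab hBr 𝒞 r r' S hr hrr' hst hS hR η hη
  have hG : IsCompact ((fun z => (z, S z)) '' cann r r') :=
    (isCompact_cann r r').image_of_continuousOn (continuousOn_id.prodMk hS.1)
  obtain ⟨K, hKU, hKc, hK⟩ := compact_nhd T.closed hG.isBounded
  obtain ⟨ε, hε, hstep⟩ := hStep E E' L U pr T lab hBr K hKU hKc
  set e : ℝ := min η (min ε 1) with he
  have he0 : 0 < e := lt_min hη (lt_min hε one_pos)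
  have he1 : e ≤ η := min_le_left _ _
  have he2 : e ≤ ε := (min_le_right _ _).trans (min_le_left _ _)
  have he3 : e ≤ 1 := (min_le_right _ _).trans (min_le_right _ _)
  suffices H : ∃ R > r', ∃ S₀, Sec U S₀ (ball 0 R) ∧ 𝒞 S₀ ∧
      ∀ z ∈ sphere (0 : ℂ) r', AnalyticAt ℂ S₀ z ∧ ‖S₀ z - S z‖ < e / 2 by
    obtain ⟨R, hR', S₀, h1, h2, h3⟩ := H
    exact ⟨R, hR', S₀, h1, h2, fun z hz => ⟨(h3 z hz).1, by linarith [(h3 z hz).2]⟩⟩
  refine real_ind (W := fun t => ∃ R > t, ∃ S₀, Sec U S₀ (ball 0 R) ∧ 𝒞 S₀ ∧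
      ∀ z ∈ sphere (0 : ℂ) t, AnalyticAt ℂ S₀ z ∧ ‖S₀ z - S z‖ < e / 2) hrr' ?_
    (hR (e / 2) (half_pos he0))
  intro t₀ ht₀
  have hsub : ∀ t ∈ Icc r r', ∀ z ∈ sphere (0 : ℂ) t, z ∈ cann r r' := fun t ht z hz => by
    rw [mem_sphere_zero_iff_norm] at hz
    exact ⟨hz ▸ ht.1, hz ▸ ht.2⟩
  obtain ⟨δ, St, hδ, hδt, hsec, han, hcl, -, -⟩ := hAp E E' U pr T t₀ ∅ S (fun _ => S) 0 0 False
    (hr.trans_le ht₀.1) (by simp)
    ⟨hS.1.mono fun z hz => hsub t₀ ht₀ z hz.1, fun z hz => hS.2 z (hsub t₀ ht₀ z hz.1)⟩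
    (by simp) (by simp) 0 (e / 8) (by linarith)
  have han' : ∀ z ∈ ann (t₀ - δ) (t₀ + δ), AnalyticAt ℂ St z := fun z hz => han z hz (by simp)
  have hDc : IsCompact (cann r r' ∩ cann (t₀ - δ / 2) (t₀ + δ / 2)) :=
    (isCompact_cann _ _).inter (isCompact_cann _ _)
  obtain ⟨δ', hδ', hnear⟩ := near_circle hDc (f := fun z => ‖St z - S z‖) (t₀ := t₀) (c := e / 4)
    (ContinuousOn.sub (fun z hz => (han' z ⟨by linarith [hz.2.1], by linarith [hz.2.2]⟩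
      ).continuousAt.continuousWithinAt) (hS.1.mono inter_subset_left)).norm
    (fun z _ hz => by
      have := hcl z ⟨mem_sphere_zero_iff_norm.2 hz, by simp⟩
      simp only [pow_zero, mul_one] at this
      linarith)
  have hnear' : ∀ t ∈ Icc r r', |t - t₀| < min δ' (δ / 2) → ∀ z ∈ sphere (0 : ℂ) t,
      z ∈ ann (t₀ - δ) (t₀ + δ) ∧ ‖St z - S z‖ < e / 4 := fun t ht hlt z hz => by
    have h1 := abs_lt.1 (hlt.trans_le (min_le_right _ _))
    have h2 := hlt.trans_le (min_le_left _ _)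
    have hz' := mem_sphere_zero_iff_norm.1 hz
    refine ⟨⟨by linarith [h1.1], by linarith [h1.2]⟩, hnear z ⟨hsub t ht z hz,
      ⟨by linarith [h1.1], by linarith [h1.2]⟩⟩ (by rwa [hz'])⟩
  refine ⟨min δ' (δ / 2), lt_min hδ' (half_pos hδ), ?_⟩
  rintro t ht t' ht' hlt hlt' htt' ⟨R, hRt, S₀, h1, h2, h3⟩
  have a1 := abs_lt.1 (hlt.trans_le (min_le_right _ _))
  have a2 := abs_lt.1 (hlt'.trans_le (min_le_right _ _))
  have hyp : ∀ z ∈ sphere (0 : ℂ) t, AnalyticAt ℂ S₀ z ∧ AnalyticAt ℂ St z ∧ (z, S₀ z) ∈ K ∧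
      ‖St z - S₀ z‖ < ε := fun z hz => by
    obtain ⟨b1, b2⟩ := h3 z hz
    obtain ⟨b3, b4⟩ := hnear' t ht hlt z hz
    have hzR : z ∈ ball (0 : ℂ) R := by
      rw [mem_ball_zero_iff, mem_sphere_zero_iff_norm.1 hz]; exact hRt
    have hU : (z, S₀ z) ∈ U := T.mem_of_germ (κ := id) continuousAt_id (h1 z hzR) b1.continuousAt
    refine ⟨b1, han' z b3, hK (z, S z) ⟨z, hsub t ht z hz, rfl⟩ _ hU ?_, ?_⟩
    · simp only [Prod.mk_sub_mk, sub_self, Prod.norm_mk, norm_zero]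
      exact max_le zero_le_one (by linarith)
    · have := norm_sub_le_norm_sub_add_norm_sub (St z) (S z) (S₀ z)
      rw [norm_sub_rev (S z)] at this
      linarith
  have hq : (0 : ℝ) < e / 8 := by linarith
  obtain ⟨S₂, c1, c2, c3⟩ := (hstep 𝒞 t R (t₀ - δ) S₀ St (by linarith) (by linarith) hRt
    (stable_mono ht.1 hst) h1 h2 hyp).1 (t₀ + δ) t' (t₀ + 3 * δ / 4) (C ((e / 8 : ℝ) : ℂ)) htt'
    (by linarith) (by linarith) (C_ne_zero.2 (by exact_mod_cast hq.ne')) hsec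
  refine ⟨t₀ + 3 * δ / 4, by linarith, S₂, c1, c2, fun z hz => ?_⟩
  obtain ⟨b3, b4⟩ := hnear' t' ht' hlt' z hz
  have hz' := mem_sphere_zero_iff_norm.1 hz
  obtain ⟨d1, d2⟩ := c3 z hz'.ge (by linarith) (han' z b3)
  rw [eval_C, Complex.norm_real, Real.norm_of_nonneg hq.le] at d2
  refine ⟨d1, ?_⟩
  have := norm_sub_le_norm_sub_add_norm_sub (S₂ z) (St z) (S z)
  linarith

end

end Pool.Agent.P.MP_daea48_ag
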