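import Pool.Agent.P.MP_daea48_ag.StA

/-! Package M3: moving along a continuous section with poles. -/

open Set Filter Topology Metric Polynomial Asymptotics

namespace Pool.Agent.P.MP_daea48_ag

noncomputable section

open Classical

namespace M3

theorem exists_cann {O : Set ℂ} {t : ℝ} (h : ∀ x : ℂ, ‖x‖ = t → O ∈ 𝓝 x) :
    ∃ d > 0, ∀ z : ℂ, t - d ≤ ‖z‖ → ‖z‖ ≤ t + d → z ∈ O := by
  have hF : IsCompact (closedBall (0 : ℂ) (t + 1) \ interior O) :=
    (isCompact_closedBall _ _).diff isOpen_interior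
  have h1 : ((fun z : ℂ => ‖z‖) '' (closedBall (0 : ℂ) (t + 1) \ interior O))ᶜ ∈ 𝓝 t := by
    refine (hF.image continuous_norm).isClosed.isOpen_compl.mem_nhds ?_
    rintro ⟨x, hx, hxt⟩
    exact hx.2 (mem_interior_iff_mem_nhds.2 (h x hxt))
  obtain ⟨d, hd, hsub⟩ := Metric.nhds_basis_closedBall.mem_iff.1 h1
  refine ⟨min d 1, lt_min hd one_pos, fun z h1 h2 => ?_⟩
  by_contra hz
  have a1 := min_le_left d 1
  have a2 := min_le_right d 1
  refine hsub (a := ‖z‖) ?_ ⟨z, ⟨?_, fun hi => hz (interior_subset hi)⟩, rfl⟩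
  · rw [mem_closedBall, Real.dist_eq, abs_le]; constructor <;> linarith
  · rw [mem_closedBall, dist_zero_right]; linarith

theorem isCompact_cann (r s : ℝ) : IsCompact (cann r s) := by
  have : cann r s = closedBall 0 s \ ball 0 r := by
    ext z; simp [cann, and_comm]
  rw [this]
  exact (isCompact_closedBall _ _).diff isOpen_ball

theorem cann_mem_nhds {r s : ℝ} {z : ℂ} (h1 : r < ‖z‖) (h2 : ‖z‖ < s) : cann r s ∈ 𝓝 z := by
  filter_upwards [continuous_norm.continuousAt.eventually (lt_mem_nhds h1),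
    continuous_norm.continuousAt.eventually (gt_mem_nhds h2)] with x a b using ⟨a.le, b.le⟩

theorem prod_isBigO {P : Finset ℂ} {p : ℂ} (hp : p ∈ P) {k k' : ℕ} (hk : k ≤ k') :
    (fun z => ‖∏ p ∈ P, (z - p)‖ ^ k') =O[𝓝[≠] p] fun z => (z - p) ^ k := by
  obtain ⟨j, rfl⟩ := Nat.exists_eq_add_of_le hk
  have hg : Continuous fun z : ℂ => (z - p) ^ j * (∏ x ∈ P.erase p, (z - x)) ^ (k + j) := by
    fun_prop
  have h1 := (isBigO_refl (fun z : ℂ => (z - p) ^ k) (𝓝[≠] p)).mul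
    ((hg.continuousAt (x := p)).isBigO_one ℂ |>.mono nhdsWithin_le_nhds)
  simp only [mul_one] at h1
  refine h1.norm_left.congr_left fun z => ?_
  rw [← norm_pow, ← Finset.mul_prod_erase P _ hp, mul_pow, pow_add (z - p), mul_assoc]

variable {E E' : Type} [NormedAddCommGroup E] [NormedSpace ℂ E] [NormedAddCommGroup E']
  [NormedSpace ℂ E'] {U : Set (ℂ × E)} {pr : E →L[ℂ] E'}

theorem reach_congr {𝒞 : (ℂ → E) → Prop} {r : ℝ} {γ γ' : ℂ → E} (h : Reach U 𝒞 r γ)
    (e : EqOn γ γ' (sphere 0 r)) : Reach U 𝒞 r γ' := fun η hη => by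
  obtain ⟨R, hR, S, h1, h2, h3⟩ := h η hη
  exact ⟨R, hR, S, h1, h2, fun z hz => e hz ▸ h3 z hz⟩

theorem reach_mono {𝒞 𝒞' : (ℂ → E) → Prop} {r : ℝ} {γ : ℂ → E} (h : Reach U 𝒞 r γ)
    (e : ∀ S, 𝒞 S → 𝒞' S) : Reach U 𝒞' r γ := fun η hη => by
  obtain ⟨R, hR, S, h1, h2, h3⟩ := h η hη
  exact ⟨R, hR, S, h1, e S h2, h3⟩

omit [NormedSpace ℂ E] in
theorem csec_mono {S : ℂ → E} {D D' : Set ℂ} (h : CSec U S D) (e : D' ⊆ D) : CSec U S D' :=
  ⟨h.1.mono e, fun z hz => h.2 z (e hz)⟩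

/-- A section with finitely many poles on a compact set is bounded after clearing the poles. -/
theorem exists_bound {K : Set ℂ} (hK : IsCompact K) {S : ℂ → E} {P : Finset ℂ}
    (hP : ∀ p ∈ P, MeromorphicAt S p) (hS : ContinuousOn S (K \ P)) :
    ∃ (n : ℕ) (C : ℝ), ∀ z ∈ K, ‖∏ p ∈ P, (z - p)‖ ^ n * ‖S z‖ ≤ C := by
  choose! n hn using hP
  have hc : ContinuousOn (fun z => (∏ p ∈ P, (z - p)) ^ P.sup n • S z) K := by
    intro z hz
    by_cases hzP : z ∈ P
    · obtain ⟨j, hj⟩ := Nat.exists_eq_add_of_le (Finset.le_sup (f := n) hzP)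
      have hg : Continuous fun x : ℂ => (x - z) ^ j * (∏ p ∈ P.erase z, (x - p)) ^ P.sup n := by
        fun_prop
      have := (hg.continuousAt (x := z)).smul (hn z hzP).continuousAt
      refine ContinuousAt.continuousWithinAt (this.congr (Eventually.of_forall fun x => ?_))
      simp only [Pi.smul_apply', smul_smul]
      rw [← Finset.mul_prod_erase P _ hzP, mul_pow]
      congr 1
      generalize (∏ p ∈ P.erase z, (x - p)) ^ P.sup n = y
      rw [hj]; ring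
    · have h1 : ContinuousWithinAt S K z := by
        refine (hS z ⟨hz, hzP⟩).mono_of_mem_nhdsWithin ?_
        exact inter_mem_nhdsWithin _ (P.finite_toSet.isClosed.isOpen_compl.mem_nhds hzP)
      exact ContinuousWithinAt.smul (by fun_prop) h1
  obtain ⟨C, hC⟩ := hK.exists_bound_of_continuousOn hc
  exact ⟨P.sup n, C, fun z hz => by simpa [norm_smul] using hC z hz⟩

theorem rho_lower (T : TC U pr) {K : Set ℂ} (hK : IsCompact K) {S : ℂ → E} {P : Finset ℂ}
    (hP : ∀ p ∈ P, MeromorphicAt S p) (hS : ContinuousOn S (K \ P)) :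
    ∃ (m : ℕ) (c : ℝ), 0 < c ∧ ∀ z ∈ K, c * ‖∏ p ∈ P, (z - p)‖ ^ m ≤ T.rho (z, S z) ^ 2 := by
  obtain ⟨n, C, hC⟩ := exists_bound hK hP hS
  obtain ⟨C₁, hC₁⟩ := hK.exists_bound_of_continuousOn
    (f := fun z => ‖∏ p ∈ P, (z - p)‖ ^ n * (1 + ‖z‖)) (by fun_prop)
  set D := max (C₁ + C) 1 with hD
  have hD0 : 0 < D := lt_of_lt_of_le one_pos (le_max_right _ _)
  refine ⟨n * T.A * 2, (T.c / D ^ T.A) ^ 2, by have := T.c_pos; positivity, fun z hz => ?_⟩
  have h1 : ‖∏ p ∈ P, (z - p)‖ ^ n * (1 + ‖((z, S z) : ℂ × E)‖) ≤ D := by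
    have a1 : ‖((z, S z) : ℂ × E)‖ ≤ ‖z‖ + ‖S z‖ := by
      rw [Prod.norm_mk]
      exact max_le (by simp) (by simp)
    have a2 := (le_abs_self _).trans (hC₁ z hz)
    have a3 := hC z hz
    have a4 : 0 ≤ ‖∏ p ∈ P, (z - p)‖ ^ n := by positivity
    refine le_trans ?_ (le_max_left _ _)
    nlinarith
  have h2 : T.c / D ^ T.A * ‖∏ p ∈ P, (z - p)‖ ^ (n * T.A) ≤ T.rho (z, S z) := by
    have a0 := opn_pos ((z, S z) : ℂ × E)
    unfold TC.rho rad
    rw [div_mul_eq_mul_div, div_le_div_iff₀ (by positivity) (by positivity), mul_assoc, pow_mul,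
      ← mul_pow]
    have := T.c_pos
    gcongr
  rw [pow_mul, ← mul_pow]
  have := T.c_pos
  gcongr

/-- Interpolation between two close continuous sections. -/
theorem exists_swap (T : TC U pr) {D : Set ℂ} {S S' : ℂ → E} (h : CSec U S D) (h' : CSec U S' D)
    (hc : ∀ z ∈ D, (1 + ‖pr‖) * ‖S' z - S z‖ < T.rho (z, S z) ^ 2) {l : ℂ → ℝ}
    (hl : ContinuousOn l D) (hl1 : ∀ z ∈ D, |l z| ≤ 1) :
    ∃ G, CSec U G D ∧ ∀ z ∈ D, (l z = 0 → G z = S z) ∧ (l z = 1 → G z = S' z) := by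
  have hd : ∀ z ∈ D, ‖((z, pr (S z) + l z • pr (S' z - S z)) : ℂ × E') - pj pr (z, S z)‖ <
      T.rho (z, S z) ^ 2 := fun z hz => by
    have a1 : ‖l z • pr (S' z - S z)‖ ≤ ‖pr‖ * ‖S' z - S z‖ := by
      rw [norm_smul, Real.norm_eq_abs]
      exact (mul_le_of_le_one_left (norm_nonneg _) (hl1 z hz)).trans (pr.le_opNorm _)
    have a2 := hc z hz
    have a3 := norm_nonneg (S' z - S z)
    simp only [pj_mk, Prod.mk_sub_mk, sub_self, add_sub_cancel_left, Prod.norm_mk, norm_zero,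
      norm_nonneg, sup_of_le_right]
    nlinarith
  refine ⟨fun z => T.ex (z, S z) (z, pr (S z) + l z • pr (S' z - S z)),
    ⟨T.continuousOn_ex_comp (continuousOn_id.prodMk h.1) (continuousOn_id.prodMk
      ((pr.continuous.comp_continuousOn h.1).add
        (hl.smul (pr.continuous.comp_continuousOn (h'.1.sub h.1))))) fun z hz => ⟨h.2 z hz, hd z hz⟩,
      fun z hz => T.ex_mem (h.2 z hz) (hd z hz)⟩, fun z hz => ⟨fun e => ?_, fun e => ?_⟩⟩
  · simp only [e, zero_smul, add_zero]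
    exact T.ex_self (h.2 z hz)
  · refine T.ex_unique (h.2 z hz) (h'.2 z hz) ?_ (by simp [e])
    have a2 := hc z hz
    have a3 := norm_nonneg (S' z - S z)
    have a4 := norm_nonneg pr
    have a5 := T.rho_sq_le (z, S z)
    simp only [Prod.mk_sub_mk, sub_self, Prod.norm_mk, norm_zero, norm_nonneg, sup_of_le_right]
    nlinarith

theorem stable_jets [FiniteDimensional ℂ E] (h1 : S_M1) {𝒞 : (ℂ → E) → Prop} {r b : ℝ}
    (hrb : r ≤ b) (hs : Stable r 𝒞) (k : ℕ) (S : ℂ → E) {P : Finset ℂ} (hP : ∀ p ∈ P, ‖p‖ < b) :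
    Stable b fun S' => 𝒞 S' ∧ ∀ p ∈ P, Jet k S p S' := by
  obtain ⟨a1, a2, a3, -⟩ := h1.2 E
  have := a2 b _ _ (a1 r b 𝒞 hrb hs) (a3 b k P fun _ => S)
  convert this using 4 with S' p
  exact ⟨fun h hp _ => h hp, fun h hp => h hp (hP p hp)⟩

/-- Crossing one circle of poles along an analytic section. -/
theorem step [FiniteDimensional ℂ E] [FiniteDimensional ℂ E'] (h2 : S_Step) {L : Type}
    [NormedAddCommGroup L] [NormedSpace ℂ L] [FiniteDimensional ℂ L] (T : TC U pr)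
    {lab : E →L[ℂ] L} (hB : Br U pr lab) {𝒞 : (ℂ → E) → Prop} {ra a b rb : ℝ} {S : ℂ → E}
    {P : Finset ℂ} (k : ℕ) (h0 : 0 < ra) (h1 : ra < a) (h3 : b < rb)
    (hs : Stable a 𝒞) (hS : Sec U S (ann ra rb))
    (hA : ∀ z ∈ ann ra rb, z ∉ P → AnalyticAt ℂ S z) {t : ℝ} (hat : a < t) (htb : t < b)
    (hP : ∀ p ∈ P, ‖p‖ = t) (h : Reach U 𝒞 a S) :
    Reach U (fun S' => 𝒞 S' ∧ ∀ p ∈ P, Jet k S p S') b S := by
  intro η hη
  have hAa : ∀ z ∈ sphere (0 : ℂ) a, AnalyticAt ℂ S z := fun z hz => by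
    rw [mem_sphere_zero_iff_norm] at hz
    exact hA z ⟨by linarith, by linarith⟩ fun hp => by linarith [hP z hp]
  have hK0 : IsCompact ((fun z => (z, S z)) '' sphere (0 : ℂ) a) :=
    (isCompact_sphere _ _).image_of_continuousOn
      (continuousOn_id.prodMk fun z hz => (hAa z hz).continuousAt.continuousWithinAt)
  obtain ⟨K, hKU, hK, hK'⟩ := compact_nhd T.closed hK0.isBounded
  obtain ⟨ε, hε, H⟩ := h2 E E' L U pr T lab hB K hKU hK
  obtain ⟨R₀, hR₀, S₀, s1, s2, s3⟩ := h (min ε 1) (lt_min hε one_pos)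
  obtain ⟨M, hM⟩ := (isCompact_sphere (0 : ℂ) b).exists_bound_of_continuousOn
    (f := fun z => (∏ p ∈ P, (z - p)) ^ k) (by fun_prop)
  have hM0 : 0 < |M| + 1 := by positivity
  set c : ℝ := η / (|M| + 1) with hc
  have hc0 : 0 < c := div_pos hη hM0
  have hq : ∀ z, ‖(C (c : ℂ) * (∏ p ∈ P, (X - C p)) ^ k).eval z‖ = c * ‖∏ p ∈ P, (z - p)‖ ^ k := by
    intro z
    simp [eval_prod, abs_of_pos hc0]
  obtain ⟨S₂, t1, t2, t3⟩ := (H 𝒞 a R₀ ra S₀ S h0 h1 hR₀ hs s1 s2 fun z hz => by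
    obtain ⟨a1, a2⟩ := s3 z hz
    refine ⟨a1, hAa z hz, hK' _ ⟨z, hz, rfl⟩ _ (T.mem_of_germ continuousAt_id (s1 z ?_)
      a1.continuousAt) ?_, ?_⟩
    · rw [mem_sphere_zero_iff_norm] at hz
      rw [mem_ball_zero_iff]; linarith
    · simpa using a2.le.trans (min_le_right _ _)
    · rw [norm_sub_rev]; exact a2.trans_le (min_le_left _ _)).1 rb ((a + t) / 2) ((b + rb) / 2)
    (C (c : ℂ) * (∏ p ∈ P, (X - C p)) ^ k) (by linarith) (by linarith) (by linarith)
    (mul_ne_zero (by simpa using hc0.ne') (pow_ne_zero _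
      (Finset.prod_ne_zero_iff.2 fun p _ => X_sub_C_ne_zero p))) hS
  refine ⟨(b + rb) / 2, by linarith, S₂, t1, ⟨t2, fun p hp => ?_⟩, fun z hz => ?_⟩
  · refine IsBigO.trans (IsBigO.of_bound c ?_) (prod_isBigO hp le_rfl)
    have e := hP p hp
    have n1 : ∀ᶠ z in 𝓝[≠] p, z ∉ P := by
      have : ((P : Set ℂ) \ {p})ᶜ ∈ 𝓝 p :=
        (P.finite_toSet.sdiff).isClosed.isOpen_compl.mem_nhds fun h => h.2 rfl
      filter_upwards [nhdsWithin_le_nhds this, self_mem_nhdsWithin] with z z1 z2 z3 using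
        z1 ⟨z3, z2⟩
    filter_upwards [n1, nhdsWithin_le_nhds (cann_mem_nhds (r := (a + t) / 2) (s := b) (z := p)
      (by linarith) (by linarith))] with z z1 z2
    have := (t3 z z2.1 (by linarith [z2.2]) (hA z ⟨by linarith [z2.1], by linarith [z2.2]⟩ z1)).2
    rwa [hq, ← Real.norm_of_nonneg (r := ‖∏ p ∈ P, (z - p)‖ ^ k) (by positivity)] at this
  · have e := mem_sphere_zero_iff_norm.1 hz
    obtain ⟨a1, a2⟩ := t3 z (by linarith) (by linarith)
      (hA z ⟨by linarith, by linarith⟩ fun hp => by linarith [hP z hp])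
    refine ⟨a1, a2.trans_lt ?_⟩
    have a3 := (hM z hz).trans (le_abs_self M)
    rw [norm_pow] at a3
    rw [hq, hc, div_mul_eq_mul_div, div_lt_iff₀ hM0]
    nlinarith

/-- Crossing one circle of poles. -/
theorem cross [FiniteDimensional ℂ E] [FiniteDimensional ℂ E'] (h1 : S_M1) (h2 : S_Step)
    (h3 : S_Ap) {L : Type} [NormedAddCommGroup L] [NormedSpace ℂ L] [FiniteDimensional ℂ L]
    (T : TC U pr) {lab : E →L[ℂ] L} (hB : Br U pr lab) {𝒞 : (ℂ → E) → Prop} {r t r' : ℝ}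
    {S : ℂ → E} {P : Finset ℂ} (k : ℕ) (h0 : 0 < r) (hrt : r < t) (htr : t < r')
    (hs : Stable r 𝒞) (hP : ∀ p ∈ P, ‖p‖ = t ∧ Germ U id S p) (hS : CSec U S (cann r r' \ P))
    (h : Reach U 𝒞 r S) : Reach U (fun S' => 𝒞 S' ∧ ∀ p ∈ P, Jet k S p S') r' S := by
  obtain ⟨m, c, hc, hm⟩ := rho_lower T (isCompact_cann r r') (fun p hp => (hP p hp).2.1) hS.1
  obtain ⟨M, hM⟩ := (isCompact_cann r r').exists_bound_of_continuousOn
    (f := fun z => (∏ p ∈ P, (z - p)) ^ k) (by fun_prop)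
  have hM0 : 0 < (1 + ‖pr‖) * (|M| + 1) := by positivity
  obtain ⟨δ, St, hδ, hδt, s1, s2, s3, s4, -⟩ := h3 E E' U pr T t P S (fun _ => S) 0 0 False
    (by linarith) (fun p hp => (hP p hp).1)
    (csec_mono hS fun z hz => ⟨by
      have := mem_sphere_zero_iff_norm.1 hz.1
      exact ⟨by linarith, by linarith⟩, hz.2⟩)
    (fun p hp => ⟨(hP p hp).2, Eventually.of_forall fun _ => rfl⟩) False.elim (m + k)
    (c / ((1 + ‖pr‖) * (|M| + 1))) (div_pos hc hM0)
  have key : ∀ z ∈ cann r r', z ∉ P →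
      ‖St z - S z‖ ≤ c / ((1 + ‖pr‖) * (|M| + 1)) * ‖∏ p ∈ P, (z - p)‖ ^ (m + k) →
      (1 + ‖pr‖) * ‖St z - S z‖ < T.rho (z, S z) ^ 2 := by
    intro z z1 z2 z3
    refine lt_of_lt_of_le ?_ (hm z z1)
    have a1 := (hM z z1).trans (le_abs_self M)
    rw [norm_pow] at a1
    have a2 : 0 < ‖∏ p ∈ P, (z - p)‖ ^ m := pow_pos (norm_pos_iff.2
      (Finset.prod_ne_zero_iff.2 fun p hp => sub_ne_zero.2 fun e : z = p => z2 (e ▸ hp))) m
    have a3 : 0 < 1 + ‖pr‖ := by positivity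
    have a4 : 0 < |M| + 1 := by positivity
    calc (1 + ‖pr‖) * ‖St z - S z‖
        ≤ (1 + ‖pr‖) * (c / ((1 + ‖pr‖) * (|M| + 1)) * ‖∏ p ∈ P, (z - p)‖ ^ (m + k)) := by gcongr
      _ = c * ‖∏ p ∈ P, (z - p)‖ ^ m * (‖∏ p ∈ P, (z - p)‖ ^ k / (|M| + 1)) := by
          rw [pow_add]; field_simp
      _ < c * ‖∏ p ∈ P, (z - p)‖ ^ m * 1 := by
          gcongr
          rw [div_lt_one a4]; linarith
      _ = _ := mul_one _
  obtain ⟨d₀, hd₀, hO⟩ := exists_cann (t := t)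
    (O := {z | z ∉ P → (1 + ‖pr‖) * ‖St z - S z‖ < T.rho (z, S z) ^ 2}) fun x hx => by
    have n0 := cann_mem_nhds (r := r) (s := r') (z := x) (by linarith) (by linarith)
    by_cases hxP : x ∈ P
    · filter_upwards [n0, eventually_nhdsWithin_iff.1 (s4 x hxP)] with z z1 z2 z3
      exact key z z1 z3 (z2 fun e => z3 (e ▸ hxP))
    · have n1 : (P : Set ℂ)ᶜ ∈ 𝓝 x := P.finite_toSet.isClosed.isOpen_compl.mem_nhds hxP
      have c1 : ContinuousAt S x := hS.1.continuousAt (inter_mem n0 n1)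
      have c2 := (s2 x ⟨by linarith, by linarith⟩ hxP).continuousAt
      have c3 : ContinuousAt (fun z => T.rho (z, S z) ^ 2) x :=
        (T.continuous_rho.continuousAt.comp (continuousAt_id.prodMk c1)).pow 2
      have := ContinuousAt.eventually_lt (continuousAt_const.mul (c2.sub c1).norm) c3
        (key x (mem_of_mem_nhds n0) hxP (s3 x ⟨mem_sphere_zero_iff_norm.2 hx, hxP⟩))
      filter_upwards [this] with z z1 _ using z1
  obtain ⟨d, hd, d1, d2, d3, d4⟩ : ∃ d > 0, 2 * d ≤ d₀ ∧ 2 * d < δ ∧ r ≤ t - 2 * d ∧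
      t + 2 * d ≤ r' := by
    refine ⟨min (min d₀ δ) (min (t - r) (r' - t)) / 3, by
      have : 0 < t - r := by linarith
      have : 0 < r' - t := by linarith
      positivity, ?_⟩
    have b1 := min_le_left (min d₀ δ) (min (t - r) (r' - t))
    have b2 := min_le_right (min d₀ δ) (min (t - r) (r' - t))
    have b3 := min_le_left d₀ δ
    have b4 := min_le_right d₀ δ
    have b5 := min_le_left (t - r) (r' - t)
    have b6 := min_le_right (t - r) (r' - t)
    refine ⟨by linarith, by linarith, by linarith, by linarith⟩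
  have mv := h1.1 E E' L U pr T lab hB
  have mono := (h1.2 E).1
  have notP : ∀ z : ℂ, ‖z‖ ≠ t → z ∉ P := fun z hz hp => hz (hP z hp).1
  have cS : ∀ a b, r ≤ a → b ≤ r' → (b < t ∨ t < a) → CSec U S (cann a b) :=
    fun a b ha hb hab => csec_mono hS fun z hz => ⟨⟨ha.trans hz.1, hz.2.trans hb⟩,
      notP z fun e => by rcases hab with hab | hab <;> linarith [hz.1, hz.2]⟩
  have cT : ∀ a b, t - δ < a → b < t + δ → (b < t ∨ t < a) → CSec U St (cann a b) := by
    intro a b ha hb hab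
    have hz : ∀ z ∈ cann a b, z ∈ ann (t - δ) (t + δ) ∧ AnalyticAt ℂ St z := fun z hz => by
      have z1 : z ∈ ann (t - δ) (t + δ) := ⟨by linarith [hz.1], by linarith [hz.2]⟩
      exact ⟨z1, s2 z z1 (notP z fun e => by
        rcases hab with hab | hab <;> linarith [hz.1, hz.2])⟩
    exact ⟨fun z h => (hz z h).2.continuousAt.continuousWithinAt,
      fun z h => T.mem_of_germ continuousAt_id (s1 z (hz z h).1) (hz z h).2.continuousAt⟩
  obtain ⟨G₁, g1, g2⟩ := exists_swap T (cS (t - 2 * d) (t - d) d3 (by linarith) (by left; linarith))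
    (cT _ _ (by linarith) (by linarith) (by left; linarith))
    (fun z hz => hO z (by linarith [hz.1]) (by linarith [hz.2])
      (notP z fun e => by linarith [hz.2]))
    (l := fun z => (‖z‖ - (t - 2 * d)) / d) (by fun_prop) fun z hz => by
      rw [abs_div, abs_of_pos hd, div_le_one hd, abs_le]
      constructor <;> linarith [hz.1, hz.2]
  obtain ⟨G₂, g3, g4⟩ := exists_swap T (cS (t + d) (t + 2 * d) (by linarith) d4 (by right; linarith))
    (cT _ _ (by linarith) (by linarith) (by right; linarith))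
    (fun z hz => hO z (by linarith [hz.1]) (by linarith [hz.2])
      (notP z fun e => by linarith [hz.1]))
    (l := fun z => (t + 2 * d - ‖z‖) / d) (by fun_prop) fun z hz => by
      rw [abs_div, abs_of_pos hd, div_le_one hd, abs_le]
      constructor <;> linarith [hz.1, hz.2]
  have r1 := mv 𝒞 r (t - 2 * d) S h0 d3 hs (cS _ _ le_rfl (by linarith) (by left; linarith)) h
  have r2 : Reach U 𝒞 (t - 2 * d) G₁ := reach_congr r1 fun z hz => by
    have e := mem_sphere_zero_iff_norm.1 hz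
    exact ((g2 z ⟨by linarith, by linarith⟩).1 (by rw [e]; simp)).symm
  have r3 := mv 𝒞 _ (t - d) G₁ (by linarith) (by linarith) (mono _ _ _ d3 hs) g1 r2
  have r4 : Reach U 𝒞 (t - d) St := reach_congr r3 fun z hz => by
    have e := mem_sphere_zero_iff_norm.1 hz
    exact (g2 z ⟨by linarith, by linarith⟩).2 (by rw [e]; field_simp; ring)
  have r5 := step h2 T hB k (ra := t - δ) (b := t + d) (rb := t + δ) (by linarith) (by linarith)
    (by linarith) (mono _ _ _ (by linarith) hs) s1 s2 (t := t) (by linarith)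
    (by linarith) (fun p hp => (hP p hp).1) r4
  have r6 : Reach U (fun S' => 𝒞 S' ∧ ∀ p ∈ P, Jet k S p S') (t + d) G₂ := by
    refine reach_congr (reach_mono r5 fun S' hS' => ⟨hS'.1, fun p hp => ?_⟩) fun z hz => ?_
    · have j1 : (fun z => St z - S z) =O[𝓝[≠] p] fun z => (z - p) ^ k := by
        refine IsBigO.trans (IsBigO.of_bound (c / ((1 + ‖pr‖) * (|M| + 1))) ?_)
          (prod_isBigO hp (Nat.le_add_left k m))
        filter_upwards [s4 p hp] with z z1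
        rwa [Real.norm_of_nonneg (by positivity)]
      exact ((hS'.2 p hp).add j1).congr_left fun z => by simp
    · have e := mem_sphere_zero_iff_norm.1 hz
      exact ((g4 z ⟨by linarith, by linarith⟩).2 (by rw [e]; field_simp; ring)).symm
  have st : ∀ b, t < b → Stable b fun S' => 𝒞 S' ∧ ∀ p ∈ P, Jet k S p S' := fun b hb =>
    stable_jets h1 (by linarith) hs k S fun p hp => by linarith [(hP p hp).1]
  have r7 := mv _ _ (t + 2 * d) G₂ (by linarith) (by linarith) (st _ (by linarith)) g3 r6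
  have r8 : Reach U (fun S' => 𝒞 S' ∧ ∀ p ∈ P, Jet k S p S') (t + 2 * d) S :=
    reach_congr r7 fun z hz => by
      have e := mem_sphere_zero_iff_norm.1 hz
      exact (g4 z ⟨by linarith, by linarith⟩).1 (by rw [e]; simp)
  exact mv _ _ r' S (by linarith) d4 (st _ (by linarith))
    (cS _ _ (by linarith) le_rfl (by right; linarith)) r8

end M3

open M3 in
theorem M3_of (h1 : S_M1) (h2 : S_Step) (h3 : S_Ap) : S_M3 := by
  intro E _ _ _ E' _ _ _ L _ _ _ U pr T lab hB 𝒞 r r' S P k h0 hrr hs hP hS h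
  induction hn : P.card using Nat.strong_induction_on generalizing P r' with
  | _ n ih =>
  rcases P.eq_empty_or_nonempty with rfl | hne
  · exact reach_mono (h1.1 E E' L U pr T lab hB 𝒞 r r' S h0 hrr hs (by simpa using hS) h)
      fun S' hS' => ⟨hS', by simp⟩
  obtain ⟨p₀, hp₀, hmax⟩ := P.exists_max_image (fun p => ‖p‖) hne
  set P' := P.filter fun p => ‖p‖ ≠ ‖p₀‖ with hP'
  obtain ⟨r₁, a1, a2, a3⟩ : ∃ r₁, r ≤ r₁ ∧ r₁ < ‖p₀‖ ∧ ∀ p ∈ P', ‖p‖ < r₁ := by
    have : ∀ᶠ s in 𝓝[<] ‖p₀‖, r ≤ s ∧ s < ‖p₀‖ ∧ ∀ p ∈ P', ‖p‖ < s := by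
      refine Eventually.and (nhdsWithin_le_nhds (le_mem_nhds (hP p₀ hp₀).1.1))
        (Eventually.and self_mem_nhdsWithin ((eventually_all_finset _).2 fun p hp => ?_))
      rw [hP', Finset.mem_filter] at hp
      exact nhdsWithin_le_nhds (lt_mem_nhds (lt_of_le_of_ne (hmax p hp.1) hp.2))
    exact this.exists
  have a4 := (hP p₀ hp₀).1.2
  have hcard : P'.card < n := by
    rw [← hn]
    exact Finset.card_lt_card (Finset.filter_ssubset.2 ⟨p₀, hp₀, by simp⟩)
  have r1 := ih _ hcard r₁ P' a1 (fun p hp => by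
      have hp' := (Finset.mem_filter.1 hp).1
      exact ⟨⟨(hP p hp').1.1, a3 p hp⟩, (hP p hp').2⟩)
    (csec_mono hS fun z hz => ⟨⟨hz.1.1, by linarith [hz.1.2]⟩, fun hp => hz.2
      (Finset.mem_filter.2 ⟨hp, fun e => by linarith [hz.1.2]⟩)⟩) rfl
  have r2 := cross h1 h2 h3 T hB (P := P.filter fun p => ‖p‖ = ‖p₀‖) k (by linarith) a2 a4
    (stable_jets h1 a1 hs k S a3)
    (fun p hp => ⟨(Finset.mem_filter.1 hp).2, (hP p (Finset.mem_filter.1 hp).1).2⟩)
    (csec_mono hS fun z hz => ⟨⟨a1.trans hz.1.1, hz.1.2⟩, fun hp => hz.2 (Finset.mem_filter.2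
      ⟨hp, by_contra fun e => (a3 z (Finset.mem_filter.2 ⟨hp, e⟩)).not_ge hz.1.1⟩)⟩) r1
  refine reach_mono r2 fun S' hS' => ⟨hS'.1.1, fun p hp => ?_⟩
  by_cases e : ‖p‖ = ‖p₀‖
  · exact hS'.2 p (Finset.mem_filter.2 ⟨hp, e⟩)
  · exact hS'.1.2 p (Finset.mem_filter.2 ⟨hp, e⟩)

end

end Pool.Agent.P.MP_daea48_ag
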