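import Pool.Agent.P.MP_daea48_ag.StA

/-! Package `Mero`: rational functions, polynomial growth, Laurent approximation. -/

open Set Filter Topology Metric Polynomial Asymptotics
open scoped ComplexConjugate

namespace Pool.Agent.P.MP_daea48_ag

noncomputable section

open Classical

namespace Mero

/-- An entire function of polynomial growth is a polynomial. -/
theorem poly (A : ℕ) : ∀ (f : ℂ → ℂ) (C : ℝ), Differentiable ℂ f →
    (∀ T, ‖f T‖ ≤ C * (1 + ‖T‖) ^ A) → ∃ p : ℂ[X], p.natDegree ≤ A ∧ ∀ T, f T = p.eval T := by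
  induction A with
  | zero =>
    intro f C hf hb
    obtain ⟨c, hc⟩ := hf.exists_const_forall_eq_of_bounded
      (isBounded_iff_forall_norm_le.2 ⟨C, by rintro _ ⟨T, rfl⟩; simpa using hb T⟩)
    exact ⟨Polynomial.C c, by simp, fun T => by simp [hc T]⟩
  | succ A ih =>
    intro f C hf hb
    have hg : Differentiable ℂ (dslope f 0) := by
      rw [← differentiableOn_univ, Complex.differentiableOn_dslope univ_mem]
      exact hf.differentiableOn
    obtain ⟨M, hM⟩ := (isCompact_closedBall (0 : ℂ) 1).exists_bound_of_continuousOn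
      hg.continuous.continuousOn
    have hC : 0 ≤ C := by simpa using (norm_nonneg _).trans (hb 0)
    have hM0 : 0 ≤ M := (norm_nonneg _).trans (hM 0 (by simp))
    have he : ∀ T, f T = f 0 + T * dslope f 0 T := fun T => by
      have := sub_smul_dslope f 0 T
      simp only [sub_zero, smul_eq_mul] at this
      rw [this]; ring
    obtain ⟨p, hp, hp'⟩ := ih (dslope f 0) (M + 2 * C + ‖f 0‖) hg (fun T => by
      have h1 : (1 : ℝ) ≤ (1 + ‖T‖) ^ A := one_le_pow₀ (one_le_opn T)
      have h0 := norm_nonneg (f 0)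
      by_cases hT : ‖T‖ ≤ 1
      · have := hM T (by simpa using hT)
        nlinarith
      · push Not at hT
        have h2 : ‖T‖ * ‖dslope f 0 T‖ ≤ C * (1 + ‖T‖) ^ (A + 1) + ‖f 0‖ := by
          rw [← norm_mul]
          have : T * dslope f 0 T = f T - f 0 := by rw [he T]; ring
          rw [this]
          linarith [norm_sub_le (f T) (f 0), hb T]
        have h3 : C * (1 + ‖T‖) ^ (A + 1) ≤ ‖T‖ * (2 * C * (1 + ‖T‖) ^ A) := by
          rw [pow_succ]
          have : 0 ≤ C * (1 + ‖T‖) ^ A := by positivity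
          nlinarith
        have h4 : ‖T‖ * ‖dslope f 0 T‖ ≤ ‖T‖ * ((M + 2 * C + ‖f 0‖) * (1 + ‖T‖) ^ A) := by
          have h5 : ‖f 0‖ ≤ ‖T‖ * (‖f 0‖ * (1 + ‖T‖) ^ A) := by
            calc ‖f 0‖ = 1 * (‖f 0‖ * 1) := by ring
              _ ≤ _ := by gcongr
          have h6 : 0 ≤ ‖T‖ * (M * (1 + ‖T‖) ^ A) := by positivity
          nlinarith
        exact le_of_mul_le_mul_left h4 (by linarith))
    refine ⟨Polynomial.C (f 0) + X * p, ?_, fun T => by rw [he T, hp' T]; simp⟩
    refine (natDegree_add_le _ _).trans (max_le (by simp) ?_)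
    refine natDegree_mul_le.trans ?_
    have := natDegree_X_le (R := ℂ)
    omega

/-- Lagrange formula for entire maps of polynomial growth. -/
theorem lagr {Y : Type} [NormedAddCommGroup Y] [NormedSpace ℂ Y] (f : ℂ → Y) (C : ℝ) (A : ℕ)
    (hf : Differentiable ℂ f) (hb : ∀ T, ‖f T‖ ≤ C * (1 + ‖T‖) ^ A) (T : ℂ) :
    f T = ∑ k ∈ Finset.range (A + 1),
      (Lagrange.basis (Finset.range (A + 1)) (fun n : ℕ => (n : ℂ)) k).eval T • f k := by
  rw [SeparatingDual.eq_iff_forall_dual_eq (R := ℂ)]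
  intro ℓ
  obtain ⟨p, hp, hp'⟩ := poly A (fun T => ℓ (f T)) (‖ℓ‖ * C) (ℓ.differentiable.comp hf) (fun T => by
    calc ‖ℓ (f T)‖ ≤ ‖ℓ‖ * ‖f T‖ := ℓ.le_opNorm _
      _ ≤ ‖ℓ‖ * (C * (1 + ‖T‖) ^ A) := by gcongr; exact hb T
      _ = _ := by ring)
  have hd : p.degree < (Finset.range (A + 1)).card := by
    rw [Finset.card_range]
    exact degree_le_natDegree.trans_lt (by exact_mod_cast Nat.lt_succ_of_le hp)
  have := Lagrange.eq_interpolate (v := fun n : ℕ => (n : ℂ))
    (fun a _ b _ h => Nat.cast_injective (R := ℂ) h) hd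
  rw [hp' T, this, Lagrange.interpolate_apply, eval_finsetSum, map_sum]
  refine Finset.sum_congr rfl fun k _ => ?_
  rw [eval_mul, eval_C, map_smul, smul_eq_mul, ← hp' k, mul_comm]

/-- Rational functions. -/
theorem rat {Y : Type} [NormedAddCommGroup Y] [NormedSpace ℂ Y] [FiniteDimensional ℂ Y]
    (S : ℂ → Y) (h : MeromorphicOn S univ) (hI : MeromorphicAt (fun z => S z⁻¹) 0) :
    ∃ Den : ℂ[X], Den ≠ 0 ∧ ∀ ℓ : Y →L[ℂ] ℂ, ∃ Num : ℂ[X],
      ∀ᶠ z in cofinite, Den.eval z * ℓ (S z) = Num.eval z := by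
  obtain ⟨D, j, hD, hb⟩ := mero_bound hI
  have h1 := hb.and hI.eventually_analyticAt
  rw [eventually_nhdsWithin_iff, Metric.eventually_nhds_iff] at h1
  obtain ⟨ε, hε, h1⟩ := h1
  have h2 : ∀ z : ℂ, ε⁻¹ < ‖z‖ → ‖S z‖ ≤ D * ‖z‖ ^ j ∧ AnalyticAt ℂ S z := by
    intro z hz
    have hz0 : 0 < ‖z‖ := (inv_pos.2 hε).trans hz
    have hz1 : z ≠ 0 := norm_pos_iff.1 hz0
    obtain ⟨h3, h4⟩ := h1 (y := z⁻¹) (by
      rw [dist_zero_right, norm_inv]; exact inv_lt_of_inv_lt₀ hε hz) (by simpa using hz1)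
    refine ⟨by simpa [div_eq_mul_inv] using h3, ?_⟩
    have h5 := AnalyticAt.comp (g := fun z => S z⁻¹) (f := fun x : ℂ => x⁻¹) h4
      (analyticAt_inv hz1)
    simpa [Function.comp_def] using h5
  have hfin := finite_sing (isCompact_closedBall (0 : ℂ) ε⁻¹) (h.mono_set (subset_univ _))
  set P := hfin.toFinset with hP
  have hPm : ∀ z, z ∉ P → AnalyticAt ℂ S z := fun z hz => by
    by_contra h3
    refine hz ?_
    simp only [hP, Set.Finite.mem_toFinset, mem_ofPred_eq, mem_closedBall, dist_zero_right]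
    refine ⟨?_, h3⟩
    by_contra h4
    exact h3 (h2 z (not_le.1 h4)).2
  choose n hn using fun p => h p (mem_univ p)
  set q : ℂ[X] := ∏ p ∈ P, (X - C p) ^ n p with hq
  have hF : Differentiable ℂ fun z => q.eval z • S z := by
    intro x
    by_cases hxP : x ∈ P
    · have e : (fun z => q.eval z • S z) = fun z =>
          (∏ p ∈ P.erase x, (X - C p) ^ n p).eval z • ((z - x) ^ n x • S z) := by
        funext z
        rw [hq, ← Finset.prod_erase_mul _ _ hxP, eval_mul, smul_smul]; simp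
      rw [e]
      exact (Polynomial.differentiableAt _).smul (hn x).differentiableAt
    · exact q.differentiableAt.smul (hPm x hxP).differentiableAt
  obtain ⟨M, hM⟩ := (isCompact_closedBall (0 : ℂ) ε⁻¹).exists_bound_of_continuousOn
    hF.continuous.continuousOn
  obtain ⟨C', B, hC', hq'⟩ := (Tame.id'.polyEval q : Tame fun z : ℂ => q.eval z).bound
  have hM0 : 0 ≤ M := (norm_nonneg _).trans (hM 0 (by simpa using hε.le))
  have hG : ∀ z, ‖q.eval z • S z‖ ≤ (M + C' * D) * (1 + ‖z‖) ^ (B + j) := by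
    intro z
    have h3 : (1 : ℝ) ≤ (1 + ‖z‖) ^ (B + j) := one_le_pow₀ (one_le_opn z)
    have h0 : 0 ≤ C' * D := by positivity
    by_cases hz : ‖z‖ ≤ ε⁻¹
    · have := hM z (by simpa using hz)
      nlinarith
    · have h4 := (h2 z (not_le.1 hz)).1
      have h5 : ‖z‖ ^ j ≤ (1 + ‖z‖) ^ j := by gcongr; linarith
      rw [norm_smul]
      calc ‖q.eval z‖ * ‖S z‖ ≤ (C' * (1 + ‖z‖) ^ B) * (D * (1 + ‖z‖) ^ j) := by
            gcongr
            · exact hq' z
            · exact h4.trans (by gcongr)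
        _ = (C' * D) * (1 + ‖z‖) ^ (B + j) := by rw [pow_add]; ring
        _ ≤ _ := by gcongr; linarith
  refine ⟨q, Finset.prod_ne_zero_iff.2 fun p _ => pow_ne_zero _ (X_sub_C_ne_zero p), fun ℓ => ?_⟩
  obtain ⟨p, -, hp⟩ := poly (B + j) (fun z => ℓ (q.eval z • S z)) (‖ℓ‖ * (M + C' * D))
    (ℓ.differentiable.comp hF) (fun z => by
      calc ‖ℓ (q.eval z • S z)‖ ≤ ‖ℓ‖ * ‖q.eval z • S z‖ := ℓ.le_opNorm _
        _ ≤ ‖ℓ‖ * ((M + C' * D) * (1 + ‖z‖) ^ (B + j)) := by gcongr; exact hG z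
        _ = _ := by ring)
  exact ⟨p, Eventually.of_forall fun z => by rw [← hp z, map_smul, smul_eq_mul]⟩

/-- Tame functions of finitely many variables are polynomials. -/
theorem mv {σ : Type} [Fintype σ] (s : Finset σ) : ∀ f : (σ → ℂ) → ℂ, Tame f →
    (∀ x y, (∀ i ∈ s, x i = y i) → f x = f y) →
    ∃ G : MvPolynomial σ ℂ, ∀ x, f x = MvPolynomial.eval x G := by
  induction s using Finset.induction_on with
  | empty =>
    intro f _ h
    exact ⟨MvPolynomial.C (f 0), fun x => by simpa using h x 0 (by simp)⟩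
  | insert a s ha ih =>
    intro f hf h
    obtain ⟨C, A, hC, hb⟩ := hf.bound
    have ht : ∀ c : ℂ, Tame fun x : σ → ℂ => f (Function.update x a c) := fun c => by
      refine hf.comp (Tame.pi fun i => ?_)
      by_cases hi : i = a
      · subst hi; simpa using Tame.const (X := σ → ℂ) c
      · simpa [Function.update_of_ne hi] using (Tame.id' (X := σ → ℂ)).apply i
    choose G hG using fun c : ℂ => ih _ (ht c) (fun x y hxy => h _ _ fun i hi => by
      rcases Finset.mem_insert.1 hi with rfl | hi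
      · simp
      · have : i ≠ a := fun e => ha (e ▸ hi)
        simp [Function.update_of_ne this, hxy i hi])
    refine ⟨∑ k ∈ Finset.range (A + 1), Polynomial.aeval (MvPolynomial.X a)
      (Lagrange.basis (Finset.range (A + 1)) (fun n : ℕ => (n : ℂ)) k) * G k, fun x => ?_⟩
    have hd : Differentiable ℂ fun T : ℂ => Function.update x a T := by
      rw [differentiable_pi]
      intro i
      by_cases hi : i = a
      · subst hi; simp
      · simp [Function.update_of_ne hi]
    have key := lagr (fun T => f (Function.update x a T)) (C * (1 + ‖x‖) ^ A) A (hf.1.comp hd)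
      (fun T => by
        have h1 : ‖Function.update x a T‖ ≤ ‖x‖ + ‖T‖ := by
          refine (pi_norm_le_iff_of_nonneg (by positivity)).2 fun i => ?_
          by_cases hi : i = a
          · subst hi; simp
          · rw [Function.update_of_ne hi]
            linarith [norm_le_pi_norm x i, norm_nonneg T]
        have h2 : 1 + ‖Function.update x a T‖ ≤ (1 + ‖x‖) * (1 + ‖T‖) := by
          nlinarith [norm_nonneg x, norm_nonneg T]
        calc ‖f (Function.update x a T)‖ ≤ C * (1 + ‖Function.update x a T‖) ^ A := hb _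
          _ ≤ C * ((1 + ‖x‖) * (1 + ‖T‖)) ^ A := by gcongr
          _ = _ := by rw [mul_pow]; ring) (x a)
    rw [Function.update_eq_self] at key
    rw [key, map_sum]
    refine Finset.sum_congr rfl fun k _ => ?_
    rw [map_mul, ← hG, smul_eq_mul]
    congr 1
    have := Polynomial.aeval_algHom_apply (MvPolynomial.aeval (R := ℂ) x) (MvPolynomial.X a)
      (Lagrange.basis (Finset.range (A + 1)) (fun n : ℕ => (n : ℂ)) k)
    simp only [MvPolynomial.aeval_X, Polynomial.coe_aeval_eq_eval, MvPolynomial.aeval_eq_eval]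
      at this
    exact this

/-- Restrictions to the circle of functions analytic off the origin. -/
def alg (r : ℝ) (hr : 0 < r) : StarSubalgebra ℂ C(sphere (0 : ℂ) r, ℂ) where
  carrier := {φ | ∃ L : ℂ → ℂ, AnalyticOnNhd ℂ L {z | z ≠ 0} ∧ ∀ z, φ z = L z}
  mul_mem' := by
    rintro φ ψ ⟨L, hL, h⟩ ⟨L', hL', h'⟩
    exact ⟨fun z => L z * L' z, hL.mul hL', fun z => by simp [h, h']⟩
  add_mem' := by
    rintro φ ψ ⟨L, hL, h⟩ ⟨L', hL', h'⟩
    exact ⟨fun z => L z + L' z, hL.add hL', fun z => by simp [h, h']⟩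
  algebraMap_mem' := fun c => ⟨fun _ => c, analyticOnNhd_const, fun z => by simp⟩
  star_mem' := by
    rintro φ ⟨L, hL, h⟩
    refine ⟨fun z => (starL ℂ (A := ℂ)).toContinuousLinearMap (L ((r : ℂ) ^ 2 * rfl1 z)),
      fun z hz => ?_, fun z => ?_⟩
    · have h0 : rfl1 z ≠ 0 := inv_ne_zero (by simpa using hz)
      have hr' : (r : ℂ) ≠ 0 := by exact_mod_cast hr.ne'
      refine analyticAt_rfl1 _ (f := fun w => L ((r : ℂ) ^ 2 * w)) hz ?_
      exact AnalyticAt.comp (g := L) (f := fun w => (r : ℂ) ^ 2 * w)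
        (hL _ (mul_ne_zero (pow_ne_zero _ hr') h0)) (by fun_prop)
    · have hz : ‖(z : ℂ)‖ = r := by simp
      have h0 : (z : ℂ) ≠ 0 := by
        intro e; rw [e, norm_zero] at hz; exact hr.ne hz
      have h1 : conj (z : ℂ) ≠ 0 := by simpa using h0
      have e : (r : ℂ) ^ 2 * rfl1 z = z := by
        unfold rfl1
        field_simp
        rw [Complex.conj_mul', hz]
      simp [e, h]

theorem approx1 (g : ℂ → ℂ) {r η : ℝ} (hr : 0 < r) (hη : 0 < η) (hg : ContinuousOn g (sphere 0 r)) :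
    ∃ L : ℂ → ℂ, AnalyticOnNhd ℂ L {z | z ≠ 0} ∧ ∀ z ∈ sphere (0 : ℂ) r, ‖L z - g z‖ < η := by
  have hs : (alg r hr).SeparatesPoints := by
    intro x y hxy
    refine ⟨_, ⟨⟨Subtype.val, continuous_subtype_val⟩, ⟨id, analyticOnNhd_id, fun z => rfl⟩, rfl⟩,
      fun e => hxy (Subtype.ext e)⟩
  have ht := ContinuousMap.starSubalgebra_topologicalClosure_eq_top_of_separatesPoints _ hs
  have hm : (⟨_, hg.domRestrict⟩ : C(sphere (0 : ℂ) r, ℂ)) ∈
      closure ((alg r hr : Set C(sphere (0 : ℂ) r, ℂ))) := by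
    rw [← StarSubalgebra.topologicalClosure_coe, ht]; trivial
  obtain ⟨φ, ⟨L, hL, h⟩, hd⟩ := Metric.mem_closure_iff.1 hm η hη
  refine ⟨L, hL, fun z hz => ?_⟩
  have := (ContinuousMap.dist_lt_iff hη).1 hd ⟨z, hz⟩
  rw [h, dist_comm, dist_eq_norm] at this
  exact this

theorem approx {Y : Type} [NormedAddCommGroup Y] [NormedSpace ℂ Y] [FiniteDimensional ℂ Y]
    (g : ℂ → Y) {r η : ℝ} (hr : 0 < r) (hη : 0 < η) (hg : ContinuousOn g (sphere 0 r)) :
    ∃ L : ℂ → Y, AnalyticOnNhd ℂ L {z | z ≠ 0} ∧ ∀ z ∈ sphere (0 : ℂ) r, ‖L z - g z‖ < η := by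
  let b := Module.finBasis ℂ Y
  set N : ℝ := ∑ i, ‖b i‖ + 1 with hN
  have hN0 : 0 < N := by positivity
  choose L hL h using fun i => approx1 (fun z => b.coord i (g z)) hr (div_pos hη hN0)
    ((b.coord i).continuous_of_finiteDimensional.comp_continuousOn hg)
  refine ⟨fun z => ∑ i, L i z • b i, fun z hz =>
    Finset.analyticAt_fun_sum _ fun i _ => (hL i z hz).smul analyticAt_const, fun z hz => ?_⟩
  have e : ∑ i, L i z • b i - g z = ∑ i, (L i z - b.coord i (g z)) • b i := by
    conv_lhs => rw [← b.sum_repr (g z)]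
    simp [sub_smul]
  rw [e]
  calc ‖∑ i, (L i z - b.coord i (g z)) • b i‖ ≤ ∑ i, η / N * ‖b i‖ := by
        refine norm_sum_le_of_le _ fun i _ => ?_
        rw [norm_smul]
        gcongr
        exact (h i z hz).le
    _ = η / N * (N - 1) := by rw [← Finset.mul_sum, hN]; ring
    _ < η := by
        rw [div_mul_eq_mul_div, div_lt_iff₀ hN0]; nlinarith

end Mero

theorem Mero_of : S_Mero :=
  ⟨fun _ _ _ _ S h hI => Mero.rat S h hI, fun _ _ _ _ f C A hf hb => Mero.lagr f C A hf hb,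
    fun _ _ f hf => Mero.mv Finset.univ f hf fun x y h => by
      rw [show x = y from funext fun i => h i (Finset.mem_univ i)],
    fun _ _ _ _ g _ _ hr hη hg => Mero.approx g hr hη hg⟩

end

end Pool.Agent.P.MP_daea48_ag
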