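import Pool.Agent.P.MP_daea48_ag.StK

/-! Package Norm: norms to the free coordinates, inverse Jacobians, generic points. -/

open Set Cardinal

namespace Pool.Agent.P.MP_daea48_ag

noncomputable section

open Classical

namespace Norm

/-- Part 2: a left inverse of the Jacobian matrix modulo the equations. -/
theorem part2 (K : Type) [Field K] (V : Pres K) : ∃ (A : V.σ → V.κ → MvPolynomial V.σ K)
    (B : V.σ → V.σ → V.κ → MvPolynomial V.σ K) (A' : V.σ → V.ι → MvPolynomial V.σ K), ∀ s s',
      ∑ k, A s k * MvPolynomial.pderiv s' (V.F k) + ∑ a, (if V.fr a = s' then A' s a else 0) =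
        (if s = s' then 1 else 0) + ∑ k, B s s' k * V.F k := by
  have hc : Fintype.card V.σ = Fintype.card (V.κ ⊕ V.ι) := by
    rw [Fintype.card_sum, V.card, add_comm]
  obtain e : V.σ ≃ V.κ ⊕ V.ι := Fintype.equivOfCardEq hc
  let J : V.κ ⊕ V.ι → V.σ → MvPolynomial V.σ K := fun r s' =>
    Sum.elim (fun k => MvPolynomial.pderiv s' (V.F k)) (fun a => if V.fr a = s' then 1 else 0) r
  let M : Matrix V.σ V.σ (MvPolynomial V.σ K) := Matrix.of fun r s' => J (e r) s'
  have htop : V.I ⊔ Ideal.span {M.det} = ⊤ := by
    by_contra hne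
    obtain ⟨m, hm, hle⟩ := Ideal.exists_le_maximal _ hne
    let : Field (MvPolynomial V.σ K ⧸ m) := Ideal.Quotient.field m
    let q : MvPolynomial V.σ K →+* MvPolynomial V.σ K ⧸ m := Ideal.Quotient.mk m
    have hq : ∀ G, MvPolynomial.eval₂ (q.comp MvPolynomial.C) (fun s => q (MvPolynomial.X s)) G
        = q G := by
      intro G
      have : MvPolynomial.eval₂Hom (q.comp MvPolynomial.C) (fun s => q (MvPolynomial.X s)) = q := by
        apply MvPolynomial.ringHom_ext <;> intro <;> simp
      exact DFunLike.congr_fun this G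
    have hdet : (q.mapMatrix M).det = 0 := by
      rw [← RingHom.map_det]
      exact Ideal.Quotient.eq_zero_iff_mem.2
        (hle (Ideal.mem_sup_right (Ideal.mem_span_singleton_self _)))
    obtain ⟨H, hH0, hH⟩ := Matrix.exists_mulVec_eq_zero_iff.2 hdet
    have hrow : ∀ r, ∑ s, q (J r s) * H s = 0 := by
      intro r
      have := congrFun hH (e.symm r)
      simpa [Matrix.mulVec, dotProduct, M] using this
    apply hH0
    refine V.jac _ (q.comp MvPolynomial.C) (fun s => q (MvPolynomial.X s)) ?_ H ?_ ?_
    · intro k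
      rw [hq]
      exact Ideal.Quotient.eq_zero_iff_mem.2
        (hle (Ideal.mem_sup_left (Ideal.subset_span ⟨k, rfl⟩)))
    · intro a
      have := hrow (Sum.inr a)
      simpa [J, apply_ite q] using this
    · intro k
      have := hrow (Sum.inl k)
      simpa only [hq, J, Sum.elim_inl] using this
  have h1 : (1 : MvPolynomial V.σ K) ∈ V.I ⊔ Ideal.span {M.det} := htop ▸ Submodule.mem_top
  obtain ⟨i, hi, t, ht, hit⟩ := Submodule.mem_sup.1 h1
  obtain ⟨u, rfl⟩ := Ideal.mem_span_singleton'.1 ht
  obtain ⟨c, rfl⟩ := Ideal.mem_span_range_iff_exists_fun.1 hi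
  refine ⟨fun s k => u * M.adjugate s (e.symm (Sum.inl k)),
    fun s s' k => if s = s' then -c k else 0,
    fun s a => u * M.adjugate s (e.symm (Sum.inr a)), fun s s' => ?_⟩
  have h2 : ∑ r, M.adjugate s r * M r s' = if s = s' then M.det else 0 := by
    have := congrFun (congrFun (Matrix.adjugate_mul M) s) s'
    simpa [Matrix.mul_apply, Matrix.one_apply] using this
  rw [← e.symm.sum_comp, Fintype.sum_sum_type] at h2
  have h3 : ∑ k, u * M.adjugate s (e.symm (Sum.inl k)) * MvPolynomial.pderiv s' (V.F k) +
      ∑ a, (if V.fr a = s' then u * M.adjugate s (e.symm (Sum.inr a)) else 0) =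
      u * (if s = s' then M.det else 0) := by
    rw [← h2, mul_add, Finset.mul_sum, Finset.mul_sum]
    congr 1
    · refine Finset.sum_congr rfl fun k _ => ?_
      simp [M, J, mul_assoc]
    · refine Finset.sum_congr rfl fun a _ => ?_
      by_cases h : V.fr a = s' <;> simp [M, J, h]
  rw [h3]
  by_cases h : s = s'
  · simp only [h, if_true, neg_mul, Finset.sum_neg_distrib]
    linear_combination hit
  · simp [h]

/-- Chain rule for a derivation composed with an evaluation map. -/
theorem der_ev {σ K A S M : Type} [Fintype σ] [CommRing K] [CommRing A] [CommRing S] [Algebra A S]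
    [AddCommGroup M] [Module A M] [Module S M] (D : Derivation A S M)
    (ev : MvPolynomial σ K →+* S) (h0 : ∀ a, D (ev (MvPolynomial.C a)) = 0)
    (G : MvPolynomial σ K) :
    D (ev G) = ∑ s, ev (MvPolynomial.pderiv s G) • D (ev (MvPolynomial.X s)) := by
  induction G using MvPolynomial.induction_on with
  | C a => simp [h0]
  | add p q hp hq => simp [hp, hq, add_smul, Finset.sum_add_distrib]
  | mul_X p i hp =>
    have : ∀ s, ev (MvPolynomial.pderiv s (p * MvPolynomial.X i)) • D (ev (MvPolynomial.X s)) =
        ev (MvPolynomial.X i) • (ev (MvPolynomial.pderiv s p) • D (ev (MvPolynomial.X s))) +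
          (if i = s then ev p • D (ev (MvPolynomial.X s)) else 0) := by
      intro s
      rw [Derivation.leibniz, MvPolynomial.pderiv_X]
      by_cases h : i = s
      · subst h
        simp [add_smul, mul_smul, add_comm]
      · simp [h, mul_smul]
    rw [Finset.sum_congr rfl fun s _ => this s, Finset.sum_add_distrib, ← Finset.smul_sum, ← hp,
      map_mul, Derivation.leibniz, Finset.sum_ite_eq]
    simp [add_comm]

/-- Part 1 for a quotient of the polynomial ring. -/
theorem part1_surj (K S : Type) [Field K] [CommRing S] [IsDomain S] (V : Pres K)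
    (ev : MvPolynomial V.σ K →+* S) (hs : Function.Surjective ev) (hF : ∀ k, ev (V.F k) = 0)
    (G : MvPolynomial V.σ K) (hG : ev G ≠ 0) :
    ∃ (N : MvPolynomial V.ι K) (G' : MvPolynomial V.σ K), N ≠ 0 ∧
      ev G * ev G' = ev (MvPolynomial.rename V.fr N) := by
  let ψ : MvPolynomial V.ι K →+* S := ev.comp (MvPolynomial.rename V.fr).toRingHom
  by_cases hinj : Function.Injective ψ
  swap
  · rw [injective_iff_map_eq_zero] at hinj
    push Not at hinj
    obtain ⟨N, hN, hN0⟩ := hinj
    exact ⟨N, 0, hN0, by rw [map_zero, mul_zero]; exact hN.symm⟩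
  let : Algebra (MvPolynomial V.ι K) S := ψ.toAlgebra
  have hψ : ∀ N, algebraMap (MvPolynomial V.ι K) S N = ev (MvPolynomial.rename V.fr N) :=
    fun _ => rfl
  have : FaithfulSMul (MvPolynomial V.ι K) S := (faithfulSMul_iff_algebraMap_injective _ _).2 hinj
  have hunr : Algebra.FormallyUnramified (MvPolynomial V.ι K) S := by
    let D := KaehlerDifferential.D (MvPolynomial V.ι K) S
    have h0 : ∀ a, D (ev (MvPolynomial.C a)) = 0 := by
      intro a
      have := D.map_algebraMap (MvPolynomial.C a)
      rwa [hψ, MvPolynomial.rename_C] at this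
    have hfr : ∀ a, D (ev (MvPolynomial.X (V.fr a))) = 0 := by
      intro a
      have := D.map_algebraMap (MvPolynomial.X a)
      rwa [hψ, MvPolynomial.rename_X] at this
    obtain ⟨A, B, A', hA⟩ := part2 K V
    have hX : ∀ s, D (ev (MvPolynomial.X s)) = 0 := by
      intro s
      have e1 : D (ev (MvPolynomial.X s)) = ∑ s', ev (∑ k, A s k * MvPolynomial.pderiv s' (V.F k) +
          ∑ a, (if V.fr a = s' then A' s a else 0)) • D (ev (MvPolynomial.X s')) := by
        simp only [hA, map_add, map_sum, map_mul, hF, mul_zero, Finset.sum_const_zero, add_zero,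
          apply_ite ev, map_one, map_zero, ite_smul, one_smul, zero_smul, Finset.sum_ite_eq,
          Finset.mem_univ, if_true]
      have e2 : ∀ k, ∑ s', ev (MvPolynomial.pderiv s' (V.F k)) • D (ev (MvPolynomial.X s')) = 0 := by
        intro k
        rw [← der_ev D ev h0, hF, map_zero]
      rw [e1]
      simp only [map_add, map_sum, map_mul, add_smul, Finset.sum_smul, Finset.sum_add_distrib,
        mul_smul]
      rw [Finset.sum_comm, Finset.sum_comm (f := fun s' a => ev (if V.fr a = s' then A' s a else 0) •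
        D (ev (MvPolynomial.X s')))]
      rw [Finset.sum_eq_zero, Finset.sum_eq_zero, add_zero]
      · intro a _
        simp [apply_ite ev, ite_smul, hfr]
      · intro k _
        rw [← Finset.smul_sum, e2, smul_zero]
    have hD : ∀ x, D x = 0 := by
      intro x
      obtain ⟨G, rfl⟩ := hs x
      rw [der_ev D ev h0]
      simp [hX]
    refine ⟨subsingleton_of_forall_eq 0 fun x => ?_⟩
    have hx : x ∈ Submodule.span S (range D) := by
      rw [KaehlerDifferential.span_range_derivation]; trivial
    have : Submodule.span S (range D) = ⊥ := by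
      rw [Submodule.span_eq_bot]
      rintro _ ⟨y, rfl⟩
      exact hD y
    rw [this] at hx
    exact hx
  have hft : Algebra.FiniteType (MvPolynomial V.ι K) S := by
    refine Algebra.FiniteType.of_surjective
      (MvPolynomial.aeval (R := MvPolynomial V.ι K) fun s => ev (MvPolynomial.X s)) fun x => ?_
    obtain ⟨G, rfl⟩ := hs x
    refine ⟨MvPolynomial.map MvPolynomial.C G, ?_⟩
    have : ((MvPolynomial.aeval (R := MvPolynomial V.ι K)
        fun s => ev (MvPolynomial.X s)).toRingHom.comp (MvPolynomial.map MvPolynomial.C)) = ev := by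
      apply MvPolynomial.ringHom_ext
      · intro a
        simp [hψ]
      · intro s
        simp
    exact DFunLike.congr_fun this G
  let k := FractionRing (MvPolynomial V.ι K)
  let L := FractionRing S
  let : Algebra k L := FractionRing.liftAlgebra _ _
  have : IsScalarTower (MvPolynomial V.ι K) k L := FractionRing.isScalarTower_liftAlgebra _ _
  have : Algebra.FormallyUnramified (MvPolynomial V.ι K) L := inferInstance
  have : Algebra.EssFiniteType (MvPolynomial V.ι K) L := inferInstance
  have : Algebra.FormallyUnramified k L :=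
    Algebra.FormallyUnramified.of_restrictScalars (MvPolynomial V.ι K) k L
  have : Algebra.EssFiniteType k L := Algebra.EssFiniteType.of_comp (MvPolynomial V.ι K) k L
  have : Algebra.IsSeparable k L := Algebra.FormallyUnramified.isSeparable k L
  have : Algebra.IsAlgebraic (MvPolynomial V.ι K) L :=
    (IsFractionRing.comap_isAlgebraic_iff (K := k)).2 inferInstance
  have halg : IsAlgebraic (MvPolynomial V.ι K) (ev G) :=
    (isAlgebraic_algebraMap_iff (IsFractionRing.injective S L)).1
      (Algebra.IsAlgebraic.isAlgebraic (algebraMap S L (ev G)))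
  obtain ⟨N, hN, t, ht⟩ := halg.exists_nonzero_dvd (mem_nonZeroDivisors_of_ne_zero hG)
  obtain ⟨G', rfl⟩ := hs t
  exact ⟨N, G', hN, by rw [← ht, hψ]⟩

/-- Part 1. -/
theorem part1 (K R : Type) [Field K] [CommRing R] [IsDomain R] (V : Pres K) (j : K →+* R)
    (g : V.σ → R) (G : MvPolynomial V.σ K) (hg : V.Pt j g) (hG : G.eval₂ j g ≠ 0) :
    ∃ (N : MvPolynomial V.ι K) (G' : MvPolynomial V.σ K), N ≠ 0 ∧
      G.eval₂ j g * G'.eval₂ j g = N.eval₂ j (g ∘ V.fr) := by
  let ev := MvPolynomial.eval₂Hom j g
  obtain ⟨N, G', hN, h⟩ := part1_surj K ev.range V ev.rangeRestrict ev.rangeRestrict_surjective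
    (fun k => Subtype.ext (hg k)) G (fun h => hG (congrArg Subtype.val h))
  refine ⟨N, G', hN, ?_⟩
  have := congrArg Subtype.val h
  rw [← MvPolynomial.eval₂_rename]
  exact this

/-- A countable field extension embeds in an uncountable algebraically closed extension. -/
theorem embed (k L Ω : Type) [Field k] [Field L] [Countable L] [Field Ω] [IsAlgClosed Ω]
    [Uncountable Ω] [Algebra k L] [Algebra k Ω] : Nonempty (L →ₐ[k] Ω) := by
  have : Countable k := (algebraMap k L).injective.countable
  obtain ⟨s, hs⟩ := exists_isTranscendenceBasis k L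
  obtain ⟨t, ht⟩ := exists_isTranscendenceBasis k Ω
  have hc : #Ω = #t := IsAlgClosed.cardinal_eq_cardinal_transcendence_basis_of_aleph0_lt' _ ht
    (mk_le_aleph0) (aleph0_lt_mk)
  have hle : #s ≤ #t := by
    rw [← hc]
    exact mk_le_aleph0.trans aleph0_lt_mk.le
  obtain ⟨e⟩ := (Cardinal.le_def _ _).1 hle
  have hw : AlgebraicIndependent k (fun i : s => (e i : Ω)) := ht.1.comp e e.injective
  let A := Algebra.adjoin k (range (Subtype.val : s → L))
  let φ : A →ₐ[k] Ω := (MvPolynomial.aeval fun i : s => (e i : Ω)).comp hs.1.aevalEquiv.symm.toAlgHom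
  have hφ : Function.Injective φ :=
    (algebraicIndependent_iff_injective_aeval.1 hw).comp hs.1.aevalEquiv.symm.injective
  let : Algebra A Ω := φ.toRingHom.toAlgebra
  have : FaithfulSMul A Ω := (faithfulSMul_iff_algebraMap_injective _ _).2 hφ
  have : Algebra.IsAlgebraic A L := hs.isAlgebraic
  have : IsScalarTower k A Ω := IsScalarTower.of_algebraMap_eq fun x => (φ.commutes x).symm
  exact ⟨(IsAlgClosed.lift : L →ₐ[A] Ω).restrictScalars k⟩

/-- Part 3. -/
theorem part3 (k Ω R σ : Type) [Field k] [Countable k] [Field Ω] [IsAlgClosed Ω] [Uncountable Ω]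
    [CommRing R] [IsDomain R] [Finite σ] (f : k →+* Ω) (j : k →+* R) (g : σ → R) :
    ∃ ξ : σ → Ω, ∀ G : MvPolynomial σ k, G.eval₂ f ξ = 0 ↔ G.eval₂ j g = 0 := by
  let ev := MvPolynomial.eval₂Hom j g
  let S := ev.range
  have : Countable (MvPolynomial σ k) := by
    rw [← mk_le_aleph0_iff]
    exact MvPolynomial.cardinalMk_le_max.trans
      (max_le (max_le mk_le_aleph0 mk_le_aleph0) le_rfl)
  have : Countable S := ev.rangeRestrict_surjective.countable
  let L := FractionRing S
  have : Countable L := by
    have : Function.Surjective fun p : S × nonZeroDivisors S => IsLocalization.mk' L p.1 p.2 := by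
      intro x
      obtain ⟨⟨a, b⟩, rfl⟩ := IsLocalization.mk'_surjective (nonZeroDivisors S) x
      exact ⟨(a, b), rfl⟩
    exact this.countable
  let ι : MvPolynomial σ k →+* L := (algebraMap S L).comp ev.rangeRestrict
  let : Algebra k L := (ι.comp MvPolynomial.C).toAlgebra
  let : Algebra k Ω := f.toAlgebra
  obtain ⟨φ⟩ := embed k L Ω
  refine ⟨fun s => φ (ι (MvPolynomial.X s)), fun G => ?_⟩
  have h1 : MvPolynomial.eval₂Hom f (fun s => φ (ι (MvPolynomial.X s))) = φ.toRingHom.comp ι := by
    apply MvPolynomial.ringHom_ext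
    · intro a
      rw [MvPolynomial.coe_eval₂Hom, MvPolynomial.eval₂_C]
      exact (φ.commutes a).symm
    · intro s
      simp
  have h2 : G.eval₂ f (fun s => φ (ι (MvPolynomial.X s))) = φ (ι G) := DFunLike.congr_fun h1 G
  rw [h2, map_eq_zero_iff φ φ.toRingHom.injective]
  change algebraMap S L (ev.rangeRestrict G) = 0 ↔ _
  rw [map_eq_zero_iff _ (IsFractionRing.injective S L), Subtype.ext_iff]
  rfl

end Norm

theorem Norm_of : S_Norm :=
  ⟨fun K R _ _ _ _ V j g G hg hG => Norm.part1 K R V j g G hg hG, fun K _ V => Norm.part2 K V,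
    fun k Ω R σ _ _ _ _ _ _ _ _ f j g => Norm.part3 k Ω R σ f j g⟩

end

end Pool.Agent.P.MP_daea48_ag
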