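import Pool.Agent.P.MP_daea48_ag.StA

/-! Package P2: the two boundary loops of a meromorphic annulus in a fibre are equivalent. -/

open Set Filter Topology Metric

namespace Pool.Agent.P.MP_daea48_ag

noncomputable section

open Classical

namespace P2

theorem raff_closedBall (c : ℝ × ℝ) {a : ℝ} (ha : 0 < a) :
    raff c a a '' closedBall 0 1 ⊆ closedBall c a := by
  rintro _ ⟨q, hq, rfl⟩
  rw [mem_closedBall, dist_zero_right, Prod.norm_def, max_le_iff, Real.norm_eq_abs,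
    Real.norm_eq_abs] at hq
  rw [mem_closedBall, Prod.dist_eq, max_le_iff, Real.dist_eq, Real.dist_eq]
  simp only [raff, add_sub_cancel_left, abs_mul, abs_of_pos ha]
  exact ⟨by nlinarith [hq.1], by nlinarith [hq.2]⟩

theorem raff_ball (c : ℝ × ℝ) {a : ℝ} (ha : 0 < a) :
    raff c a a '' ball 0 1 = ball c a := by
  ext x
  constructor
  · rintro ⟨q, hq, rfl⟩
    rw [mem_ball, dist_zero_right, Prod.norm_def, max_lt_iff, Real.norm_eq_abs,
      Real.norm_eq_abs] at hq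
    rw [mem_ball, Prod.dist_eq, max_lt_iff, Real.dist_eq, Real.dist_eq]
    simp only [raff, add_sub_cancel_left, abs_mul, abs_of_pos ha]
    exact ⟨by nlinarith [hq.1], by nlinarith [hq.2]⟩
  · intro hx
    rw [mem_ball, Prod.dist_eq, max_lt_iff, Real.dist_eq, Real.dist_eq] at hx
    refine ⟨((x.1 - c.1) / a, (x.2 - c.2) / a), ?_, ?_⟩
    · rw [mem_ball, dist_zero_right, Prod.norm_def, max_lt_iff, Real.norm_eq_abs,
        Real.norm_eq_abs]
      simp only [abs_div, abs_of_pos ha, div_lt_one ha]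
      exact hx
    · ext
      · simp only [raff]; field_simp; ring
      · simp only [raff]; field_simp; ring

theorem dist_raff (c : ℝ × ℝ) {a : ℝ} (ha : 0 < a) {q : ℝ × ℝ} (hq : q ∈ bd) :
    dist (raff c a a q) c = a := by
  have h1 : ‖q‖ = 1 := by simpa [bd] using hq
  rw [Prod.norm_def, Real.norm_eq_abs, Real.norm_eq_abs] at h1
  rw [Prod.dist_eq, Real.dist_eq, Real.dist_eq]
  simp only [raff, add_sub_cancel_left, abs_mul, abs_of_pos ha]
  rw [← mul_max_of_nonneg _ _ ha.le, h1, mul_one]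

theorem continuous_raff (c : ℝ × ℝ) (a b : ℝ) : Continuous (raff c a b) := by
  unfold raff; fun_prop

variable {E : Type} [NormedAddCommGroup E] [NormedSpace ℂ E]

omit [NormedSpace ℂ E] in
/-- Gluing around finitely many interior points. -/
theorem glue_points {Y : Set E} {𝓕 : (ℝ × ℝ → E) → Prop} (hF : FillSys Y 𝓕) (H : ℝ × ℝ → E)
    (P : Set (ℝ × ℝ)) (hP : P.Finite) (hPb : P ⊆ ball 0 1)
    (hc : ContinuousOn H (closedBall 0 1 \ P)) (hm : MapsTo H (closedBall 0 1 \ P) Y)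
    (hl : ∀ p ∈ P, ∀ᶠ a in 𝓝[>] (0 : ℝ), 𝓕 fun q => H (raff p a a q)) : 𝓕 H := by
  have e1 : ∀ᶠ a in 𝓝[>] (0 : ℝ), ∀ p ∈ P, 𝓕 fun q => H (raff p a a q) :=
    (eventually_all_finite hP).2 hl
  have e2 : ∀ᶠ a in 𝓝[>] (0 : ℝ), ∀ p ∈ P, a < 1 - ‖p‖ := by
    refine (eventually_all_finite hP).2 fun p hp => nhdsWithin_le_nhds ?_
    have : ‖p‖ < 1 := by simpa using hPb hp
    exact gt_mem_nhds (by linarith)
  have e3 : ∀ᶠ a in 𝓝[>] (0 : ℝ), ∀ p ∈ P, ∀ p' ∈ P, p ≠ p' → a < dist p p' / 2 := by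
    refine (eventually_all_finite hP).2 fun p hp => (eventually_all_finite hP).2 fun p' hp' => ?_
    by_cases h : p = p'
    · exact Eventually.of_forall fun a h' => absurd h h'
    · have : 0 < dist p p' / 2 := by have := dist_pos.2 h; linarith
      exact nhdsWithin_le_nhds ((gt_mem_nhds this).mono fun a ha _ => ha)
  obtain ⟨a, ⟨⟨h1, h2⟩, h3⟩, ha⟩ := (((e1.and e2).and e3).and self_mem_nhdsWithin).exists
  have ha : 0 < a := ha
  set c : Fin hP.toFinset.card → ℝ × ℝ := fun j => (hP.toFinset.equivFin.symm j : ℝ × ℝ) with hcdef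
  have hcP : ∀ j, c j ∈ P := fun j => hP.mem_toFinset.1 (hP.toFinset.equivFin.symm j).2
  have hcs : ∀ p ∈ P, ∃ j, c j = p := fun p hp =>
    ⟨hP.toFinset.equivFin ⟨p, hP.mem_toFinset.2 hp⟩, by simp [hcdef]⟩
  have hsub : closedBall (0 : ℝ × ℝ) 1 \ ⋃ j, raff (c j) a a '' ball 0 1 ⊆ closedBall 0 1 \ P := by
    rintro x ⟨hx, hx'⟩
    refine ⟨hx, fun hxP => hx' ?_⟩
    obtain ⟨j, rfl⟩ := hcs x hxP
    exact mem_iUnion.2 ⟨j, by rw [raff_ball _ ha]; exact mem_ball_self ha⟩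
  refine hF.glue _ c (fun _ => a) (fun _ => a) H (fun j => ⟨ha, ha, ?_⟩) ?_ (hc.mono hsub)
    (hm.mono_left hsub) fun j => h1 _ (hcP j)
  · refine (raff_closedBall _ ha).trans (closedBall_subset_closedBall' ?_)
    have := h2 _ (hcP j)
    rw [dist_zero_right]; linarith
  · intro i j hij
    simp only [raff_ball _ ha]
    refine ball_disjoint_ball ?_
    have : c i ≠ c j := fun h => hij (hP.toFinset.equivFin.symm.injective (Subtype.ext h))
    have := h3 _ (hcP i) _ (hcP j) this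
    linarith

/-- At a meromorphic point some chart has a limit. -/
theorem exists_limit [FiniteDimensional ℂ E] {U : Set (ℂ × E)} {m : ℕ} {ch : Fin m → Chart U}
    {b : ℂ} (hC : Cpt U ch) {ξ : ℂ → E} {t : ℂ} (hξ : MeromorphicAt ξ t)
    (hY : ∀ᶠ x in 𝓝[≠] t, ξ x ∈ fib U b) :
    ∃ i x, (b, x) ∈ (ch i).V ∧ Tendsto (fun z => (ch i).φ (b, ξ z)) (𝓝[≠] t) (𝓝 x) := by
  have hm : ∀ i, MeromorphicAt (fun z => (ch i).φ (b, ξ z)) t := fun i =>
    ((ch i).tr.tφ.comp ((Tame.const b).prodMk Tame.id')).mero hξ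
  obtain ⟨R, hR⟩ := hC b
  by_cases h : ∃ i, 0 ≤ meromorphicOrderAt (fun z => (ch i).φ (b, ξ z)) t
  · obtain ⟨i, hi⟩ := h
    obtain ⟨x, hx⟩ := tendsto_nhds_of_meromorphicOrderAt_nonneg (hm i) hi
    refine ⟨i, x, ?_, hx⟩
    exact (ch i).T.closed.mem_of_tendsto (tendsto_const_nhds.prodMk_nhds hx)
      (hY.mono fun z hz => ((ch i).tr.fw _ hz).1)
  · exfalso
    push Not at h
    have : ∀ᶠ z in 𝓝[≠] t, ∀ i, R < ‖(ch i).φ (b, ξ z)‖ := eventually_all.2 fun i =>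
      (tendsto_norm_atTop_iff_cobounded.2
        (tendsto_cobounded_of_meromorphicOrderAt_neg (h i))).eventually (eventually_gt_atTop R)
    obtain ⟨z, h1, h2⟩ := (this.and hY).exists
    obtain ⟨i, hi⟩ := hR _ h2
    exact absurd (h1 i) (not_lt.2 hi)

theorem norm_circ {r : ℝ} (hr : 0 ≤ r) (t : ℝ) : ‖circ r t‖ = r := by
  have : (2 * Real.pi * Complex.I * t : ℂ) = ((2 * Real.pi * t : ℝ) : ℂ) * Complex.I := by
    push_cast; ring
  rw [circ, norm_mul, this, Complex.norm_exp_ofReal_mul_I, Complex.norm_real, Real.norm_eq_abs,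
    abs_of_nonneg hr, mul_one]

theorem circ_add_one (r t : ℝ) : circ r (t + 1) = circ r t := by
  unfold circ
  congr 1
  rw [show (2 * Real.pi * Complex.I * ((t + 1 : ℝ) : ℂ) : ℂ) =
    2 * Real.pi * Complex.I * t + 2 * Real.pi * Complex.I by push_cast; ring,
    Complex.exp_add, Complex.exp_two_pi_mul_I, mul_one]

theorem continuous_circ : Continuous fun x : ℝ × ℝ => circ x.1 x.2 := by
  unfold circ; fun_prop

theorem circ_inj {r r' s s' : ℝ} (hr : 0 < r) (hr' : 0 < r') (h : circ r s = circ r' s')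
    (hs : |s - s'| < 1) : r = r' ∧ s = s' := by
  have h1 : r = r' := by rw [← norm_circ hr.le s, h, norm_circ hr'.le]
  subst h1
  refine ⟨rfl, ?_⟩
  have h2 := mul_left_cancel₀ (by exact_mod_cast hr.ne' : (r : ℂ) ≠ 0) h
  obtain ⟨n, hn⟩ := Complex.exp_eq_exp_iff_exists_int.1 h2
  have h3 : ((s - s' : ℝ) : ℂ) = n := by
    have h4 : (2 * Real.pi * Complex.I : ℂ) ≠ 0 := Complex.two_pi_I_ne_zero
    apply mul_left_cancel₀ h4
    push_cast
    linear_combination hn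
  have h5 : s - s' = n := by exact_mod_cast h3
  rw [h5] at hs
  have : |n| < 1 := by exact_mod_cast hs
  have : n = 0 := by rw [abs_lt] at this; omega
  subst this
  simpa [sub_eq_zero] using h5

/-- Rotating the starting point of a circle. -/
theorem rotate [FiniteDimensional ℂ E] (h : S_FC2) {Y : Set E} {𝓕 : (ℝ × ℝ → E) → Prop}
    (hF : FillSys Y 𝓕) {ξ : ℂ → E} {r : ℝ} (hr : 0 < r)
    (hξ : ∀ t, ‖t‖ = r → AnalyticAt ℂ ξ t ∧ ξ t ∈ Y) (s s' : ℝ)
    (hl : LN 𝓕 fun t => ξ (circ r (t + s))) : LN 𝓕 fun t => ξ (circ r (t + s')) := by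
  have := (h E Y 𝓕 hF).1 (fun x => ξ (circ r (x.2 + (s + x.1 * (s' - s))))) ?_ ?_ ?_ ?_
  · simpa using this
  · refine Continuous.continuousOn (continuous_iff_continuousAt.2 fun x => ?_)
    refine ContinuousAt.comp (g := ξ) (hξ _ (norm_circ hr.le _)).1.continuousAt ?_
    exact (continuous_circ.comp (f := fun x : ℝ × ℝ => (r, x.2 + (s + x.1 * (s' - s))))
      (by fun_prop)).continuousAt
  · exact fun x _ => (hξ _ (norm_circ hr.le _)).2
  · intro μ _
    simp only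
    rw [add_comm 1, circ_add_one, zero_add]
  · simpa using hl

end P2

open P2 in
theorem P2_of (h_FC2 : S_FC2) : S_P2 := by
  intro E _ _ _ U m ch b 𝓕 hU hC hF hS hB ξ r₁ r₂ h1 h12 hξ han
  rcases h12.eq_or_lt with rfl | h12
  · exact Iff.rfl
  have hYc : IsClosed (fib U b) := hU.preimage (f := fun ξ : E => (b, ξ)) (by fun_prop)
  have hY : ∀ t ∈ cann r₁ r₂, AnalyticAt ℂ ξ t → ξ t ∈ fib U b := fun t ht ha =>
    hYc.mem_of_tendsto (ha.continuousAt.mono_left nhdsWithin_le_nhds) (hξ t ht).2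
  have hK : IsCompact (cann r₁ r₂) := by
    refine (isCompact_closedBall (0 : ℂ) r₂).of_isClosed_subset ?_ fun z hz => by simpa using hz.2
    exact (isClosed_le continuous_const continuous_norm).inter
      (isClosed_le continuous_norm continuous_const)
  have hS' := finite_sing hK fun t ht => (hξ t ht).1
  -- a good ray
  obtain ⟨s₀, hs₀⟩ : ∃ s₀ : ℝ, ∀ ρ ∈ Icc r₁ r₂, AnalyticAt ℂ ξ (circ ρ s₀) := by
    have hfin : {s ∈ Ico (0 : ℝ) 1 | ∃ ρ ∈ Icc r₁ r₂, ¬ AnalyticAt ℂ ξ (circ ρ s)}.Finite := by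
      refine (hS'.biUnion (t := fun t => {s ∈ Ico (0 : ℝ) 1 | ∃ ρ, 0 < ρ ∧ circ ρ s = t})
        fun t _ => Set.Subsingleton.finite ?_).subset ?_
      · rintro s ⟨hs, ρ, hρ, e⟩ s' ⟨hs', ρ', hρ', e'⟩
        refine (circ_inj hρ hρ' (e.trans e'.symm) ?_).2
        rw [abs_lt]; constructor <;> linarith [hs.1, hs.2, hs'.1, hs'.2]
      · rintro s ⟨hs, ρ, hρ, e⟩
        have hρ0 : 0 < ρ := h1.trans_le hρ.1
        refine mem_iUnion₂.2 ⟨circ ρ s, ⟨?_, e⟩, hs, ρ, hρ0, rfl⟩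
        rw [cann, mem_ofPred_eq, norm_circ hρ0.le]; exact hρ
    obtain ⟨s, hs, hs'⟩ := (Set.Ico_infinite (zero_lt_one' ℝ)).exists_notMem_finite hfin
    refine ⟨s, fun ρ hρ => ?_⟩
    by_contra hn
    exact hs' ⟨hs, ρ, hρ, hn⟩
  set ρ : ℝ → ℝ := fun y => r₁ + (r₂ - r₁) * ((y + 1) / 2) with hρ
  have hρm : ∀ y, |y| ≤ 1 → ρ y ∈ Icc r₁ r₂ := fun y hy => by
    rw [abs_le] at hy
    simp only [hρ]
    constructor <;> nlinarith [hy.1, hy.2]
  set e : ℝ × ℝ → ℂ := fun p => circ (ρ p.2) ((p.1 + 1) / 2 + s₀) with he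
  have hec : Continuous e :=
    continuous_circ.comp (f := fun p : ℝ × ℝ => (ρ p.2, (p.1 + 1) / 2 + s₀)) (by
      simp only [hρ]; fun_prop)
  have hcb : ∀ p ∈ closedBall (0 : ℝ × ℝ) 1, |p.1| ≤ 1 ∧ |p.2| ≤ 1 := fun p hp => by
    rwa [mem_closedBall, dist_zero_right, Prod.norm_def, max_le_iff, Real.norm_eq_abs,
      Real.norm_eq_abs] at hp
  have hen : ∀ p ∈ closedBall (0 : ℝ × ℝ) 1, ‖e p‖ = ρ p.2 := fun p hp =>
    norm_circ (h1.le.trans (hρm _ (hcb p hp).2).1) _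
  have hem : ∀ p ∈ closedBall (0 : ℝ × ℝ) 1, e p ∈ cann r₁ r₂ := fun p hp => by
    rw [cann, mem_ofPred_eq, hen p hp]; exact hρm _ (hcb p hp).2
  set P : Set (ℝ × ℝ) := {p ∈ closedBall (0 : ℝ × ℝ) 1 | ¬ AnalyticAt ℂ ξ (e p)} with hP
  have hPb : P ⊆ ball 0 1 := by
    rintro p ⟨hp, hn⟩
    obtain ⟨a1, a2⟩ := hcb p hp
    rw [mem_ball, dist_zero_right, Prod.norm_def, max_lt_iff, Real.norm_eq_abs, Real.norm_eq_abs]
    refine ⟨lt_of_le_of_ne a1 fun h => hn ?_, lt_of_le_of_ne a2 fun h => hn (han _ ?_)⟩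
    · rcases (abs_eq zero_le_one).1 h with h | h
      · have : (p.1 + 1) / 2 + s₀ = s₀ + 1 := by rw [h]; ring
        simp only [he]
        rw [this, circ_add_one]; exact hs₀ _ (hρm _ a2)
      · have : (p.1 + 1) / 2 + s₀ = s₀ := by rw [h]; ring
        simp only [he]
        rw [this]; exact hs₀ _ (hρm _ a2)
    · rw [hen p hp]
      rcases (abs_eq zero_le_one).1 h with h | h
      · right; simp only [hρ, h]; ring
      · left; simp only [hρ, h]; ring
  have hPf : P.Finite := by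
    refine Set.Finite.of_injOn (f := e) (t := {z ∈ cann r₁ r₂ | ¬ AnalyticAt ℂ ξ z})
      (fun p hp => ⟨hem p hp.1, hp.2⟩) (fun p hp q hq h => ?_) hS'
    have a := hPb hp
    have a' := hPb hq
    rw [mem_ball, dist_zero_right, Prod.norm_def, max_lt_iff, Real.norm_eq_abs, Real.norm_eq_abs,
      abs_lt] at a a'
    obtain ⟨b1, b2⟩ := circ_inj (h1.trans_le (hρm _ a.2.le).1) (h1.trans_le (hρm _ a'.2.le).1) h
      (by rw [abs_lt]; constructor <;> linarith [a.1.1, a.1.2, a'.1.1, a'.1.2])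
    refine Prod.ext (by linarith) ?_
    simp only [hρ] at b1
    have : (r₂ - r₁) * ((p.2 + 1) / 2) = (r₂ - r₁) * ((q.2 + 1) / 2) := by linarith
    have := mul_left_cancel₀ (sub_pos.2 h12).ne' this
    linarith
  have hHa : ∀ p ∈ closedBall (0 : ℝ × ℝ) 1 \ P, AnalyticAt ℂ ξ (e p) := fun p hp => by
    by_contra hn; exact hp.2 ⟨hp.1, hn⟩
  have hHc : ContinuousOn (fun p => ξ (e p)) (closedBall (0 : ℝ × ℝ) 1 \ P) := fun p hp =>
    (ContinuousAt.comp (g := ξ) (hHa p hp).continuousAt hec.continuousAt).continuousWithinAt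
  have hHm : MapsTo (fun p => ξ (e p)) (closedBall (0 : ℝ × ℝ) 1 \ P) (fib U b) := fun p hp =>
    hY _ (hem p hp.1) (hHa p hp)
  have hfill : 𝓕 fun p => ξ (e p) := by
    refine glue_points hF _ P hPf hPb hHc hHm fun p hp => ?_
    obtain ⟨i, x, hx, hlim⟩ := exists_limit hC (hξ _ (hem p hp.1)).1 (hξ _ (hem p hp.1)).2
    obtain ⟨η, hη, hball⟩ := hB i x hx
    have k1 : ∀ᶠ q in 𝓝[≠] p, q ∈ closedBall (0 : ℝ × ℝ) 1 \ P := by
      have a1 : ∀ᶠ q in 𝓝 p, q ∈ closedBall (0 : ℝ × ℝ) 1 :=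
        mem_of_superset (isOpen_ball.mem_nhds (hPb hp)) ball_subset_closedBall
      have a2 : ∀ᶠ q in 𝓝 p, q ∉ P \ {p} :=
        (hPf.subset sdiff_subset).isClosed.isOpen_compl.mem_nhds fun h => h.2 rfl
      filter_upwards [nhdsWithin_le_nhds a1, nhdsWithin_le_nhds a2, self_mem_nhdsWithin] with
        q b1 b2 b3
      exact ⟨b1, fun h => b2 ⟨h, b3⟩⟩
    have k2 : Tendsto e (𝓝[≠] p) (𝓝[≠] (e p)) :=
      tendsto_nhdsWithin_iff.2 ⟨hec.continuousAt.mono_left nhdsWithin_le_nhds,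
        k1.mono fun q hq h => hp.2 (by rw [← show e q = e p from h]; exact hHa q hq)⟩
    have k3 : ∀ᶠ q in 𝓝[≠] p, ‖(ch i).φ (b, ξ (e q)) - x‖ < η := by
      have := (hlim.comp k2).eventually (ball_mem_nhds x hη)
      exact this.mono fun q hq => by simpa [dist_eq_norm] using hq
    obtain ⟨δ, hδ, hk⟩ := Metric.eventually_nhds_iff.1 (eventually_nhdsWithin_iff.1 (k1.and k3))
    filter_upwards [nhdsWithin_le_nhds (gt_mem_nhds hδ), self_mem_nhdsWithin] with a ha ha0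
    have ha0 : 0 < a := ha0
    have hq : ∀ q ∈ bd, raff p a a q ∈ closedBall (0 : ℝ × ℝ) 1 \ P ∧
        ‖(ch i).φ (b, ξ (e (raff p a a q))) - x‖ < η := fun q hq => by
      refine hk (by rw [dist_raff p ha0 hq]; exact ha) fun h => ?_
      have := dist_raff p ha0 hq
      rw [show raff p a a q = p from h, dist_self] at this
      exact ha0.ne this
    refine (h_FC2 E _ 𝓕 hF).2.2.2.2.2 {y | ‖(ch i).φ (b, y) - x‖ < η}
      (fun α hα hm => hball α hα fun t ht => hm ht) _ ⟨?_, fun q hq' => hHm (hq q hq').1⟩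
      fun q hq' => (hq q hq').2
    exact hHc.comp (continuous_raff p a a).continuousOn fun q hq' => (hq q hq').1
  have hbd : bd ⊆ closedBall (0 : ℝ × ℝ) 1 \ P := fun q hq =>
    ⟨sphere_subset_closedBall hq, fun h => by
      have a := hPb h
      have a' : ‖q‖ = 1 := by simpa [bd] using hq
      rw [mem_ball, dist_zero_right, a'] at a
      exact lt_irrefl _ a⟩
  obtain ⟨g1, g2⟩ := (h_FC2 E _ 𝓕 hF).2.2.2.1 (fun p => ξ (e p)) ⟨hHc.mono hbd, hHm.mono_left hbd⟩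
    (fun t _ => by
      simp only [he]
      rw [show ((1 : ℝ) + 1) / 2 + s₀ = ((-1 : ℝ) + 1) / 2 + s₀ + 1 by ring, circ_add_one]) hfill
  have e1 : (fun t : ℝ => ξ (e (2 * t - 1, -1))) = fun t => ξ (circ r₁ (t + s₀)) := by
    funext t; simp only [he, hρ]; congr 2 <;> ring
  have e2 : (fun t : ℝ => ξ (e (2 * t - 1, 1))) = fun t => ξ (circ r₂ (t + s₀)) := by
    funext t; simp only [he, hρ]; congr 2 <;> ring
  rw [e1, e2] at g1 g2
  have c1 : ∀ t, ‖t‖ = r₁ → AnalyticAt ℂ ξ t ∧ ξ t ∈ fib U b := fun t ht =>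
    ⟨han t (Or.inl ht), hY t ⟨ht.ge, ht.le.trans h12.le⟩ (han t (Or.inl ht))⟩
  have c2 : ∀ t, ‖t‖ = r₂ → AnalyticAt ℂ ξ t ∧ ξ t ∈ fib U b := fun t ht =>
    ⟨han t (Or.inr ht), hY t ⟨h12.le.trans ht.ge, ht.le⟩ (han t (Or.inr ht))⟩
  constructor
  · intro h
    have := rotate h_FC2 hF (h1.trans h12) c2 s₀ 0
      (g1 (rotate h_FC2 hF h1 c1 0 s₀ (by simpa using h)))
    simpa using this
  · intro h
    have := rotate h_FC2 hF h1 c1 s₀ 0
      (g2 hS (rotate h_FC2 hF (h1.trans h12) c2 0 s₀ (by simpa using h)))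
    simpa using this

end

end Pool.Agent.P.MP_daea48_ag
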