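import Pool.Agent.P.MP_daea48_ag.PF1

/-! Continuous sections over a circle with prescribed germs. -/

open Set Filter Topology Metric Polynomial Asymptotics
open scoped ComplexConjugate

namespace Pool.Agent.P.MP_daea48_ag

noncomputable section

namespace PF

variable {E E' : Type} [NormedAddCommGroup E] [NormedSpace ℂ E] [NormedAddCommGroup E']
  [NormedSpace ℂ E'] {U : Set (ℂ × E)} {pr : E →L[ℂ] E'}

/-- A section over a set of parameters, with prescribed germs at the points over `P`. -/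
structure Good (U : Set (ℂ × E)) (κ : ℝ → ℂ) (P : Finset ℂ) (σ : ℂ → ℂ → E) (R : E → Prop)
    (g : ℝ → E) (A : Set ℝ) : Prop where
  cont : ContinuousOn g (A \ κ ⁻¹' P)
  mem : ∀ θ ∈ A \ κ ⁻¹' P, (κ θ, g θ) ∈ U ∧ R (g θ)
  germ : ∀ θ₁, κ θ₁ ∈ P → ∀ᶠ θ in 𝓝[≠] θ₁, θ ∈ A → g θ = σ (κ θ₁) (κ θ)

variable {κ : ℝ → ℂ} {P : Finset ℂ} {σ : ℂ → ℂ → E} {R : E → Prop}

omit [NormedSpace ℂ E] in
theorem Good.mono {g : ℝ → E} {A A' : Set ℝ} (h : Good U κ P σ R g A) (hA : A' ⊆ A) :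
    Good U κ P σ R g A' :=
  ⟨h.cont.mono (sdiff_subset_sdiff_left hA), fun θ hθ => h.mem θ (sdiff_subset_sdiff_left hA hθ),
    fun θ₁ h1 => (h.germ θ₁ h1).mono fun _ h2 h3 => h2 (hA h3)⟩

theorem ev_notMem {A : Set ℝ} (hA : IsClosed A) {θ₁ : ℝ} (h : θ₁ ∉ A) :
    ∀ᶠ θ in 𝓝[≠] θ₁, θ ∉ A :=
  nhdsWithin_le_nhds (hA.isOpen_compl.mem_nhds h)

omit [NormedSpace ℂ E] in
theorem Good.paste {g g' : ℝ → E} {a t t' : ℝ} (h : Good U κ P σ R g (Icc a t))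
    (h' : Good U κ P σ R g' (Icc t t')) (e : κ t ∉ P → g t = g' t) :
    Good U κ P σ R (fun θ => if θ ≤ t then g θ else g' θ) (Icc a t') := by
  have e1 : ∀ θ ∈ Icc a t \ κ ⁻¹' P, (if θ ≤ t then g θ else g' θ) = g θ :=
    fun θ hθ => if_pos hθ.1.2
  have e2 : ∀ θ ∈ Icc t t' \ κ ⁻¹' P, (if θ ≤ t then g θ else g' θ) = g' θ := fun θ hθ => by
    split_ifs with h1
    · obtain rfl : θ = t := le_antisymm h1 hθ.1.1
      exact e hθ.2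
    · rfl
  have sub : Icc a t' \ κ ⁻¹' P ⊆ (Icc a t \ κ ⁻¹' P) ∪ (Icc t t' \ κ ⁻¹' P) := fun θ hθ =>
    (le_total θ t).imp (fun h1 => ⟨⟨hθ.1.1, h1⟩, hθ.2⟩) fun h1 => ⟨⟨h1, hθ.1.2⟩, hθ.2⟩
  have cw : ∀ {b c : ℝ} {f : ℝ → E}, ContinuousOn f (Icc b c \ κ ⁻¹' P) →
      (∀ θ ∈ Icc b c \ κ ⁻¹' P, (if θ ≤ t then g θ else g' θ) = f θ) → ∀ θ, κ θ ∉ P →
      ContinuousWithinAt (fun θ => if θ ≤ t then g θ else g' θ) (Icc b c \ κ ⁻¹' P) θ := by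
    intro b c f hf he θ hθ
    by_cases h1 : θ ∈ Icc b c
    · exact (hf.congr he) θ ⟨h1, hθ⟩
    · exact continuousWithinAt_of_notMem_closure fun h2 =>
        h1 (closure_minimal sdiff_subset isClosed_Icc h2)
  refine ⟨fun θ hθ => ((cw h.cont e1 θ hθ.2).union (cw h'.cont e2 θ hθ.2)).mono sub,
    fun θ hθ => ?_, fun θ₁ h1 => ?_⟩
  · rcases sub hθ with h1 | h1
    · rw [e1 θ h1]; exact h.mem θ h1
    · rw [e2 θ h1]; exact h'.mem θ h1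
  · filter_upwards [h.germ θ₁ h1, h'.germ θ₁ h1] with θ h2 h3 h4
    split_ifs with h5
    · exact h2 ⟨h4.1, h5⟩
    · exact h3 ⟨(not_le.1 h5).le, h4.2⟩

theorem ev_good (hκ : ∀ t c, ∀ᶠ θ in 𝓝[≠] t, κ θ ≠ c) (t : ℝ) : ∀ᶠ θ in 𝓝[≠] t, κ θ ∉ P := by
  have := (Filter.eventually_all_finset P).2 fun c _ => hκ t c
  exact this.mono fun θ h1 h2 => h1 _ h2 rfl

theorem loc_sec (T : TC U pr) (hκ : Continuous κ) (t : ℝ) (ξ : E) :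
    ∀ᶠ θ in 𝓝 t, ‖((κ θ, pr ξ) : ℂ × E') - pj pr (κ t, ξ)‖ < T.rho (κ t, ξ) ^ 2 := by
  refine ContinuousAt.eventually_lt (f := fun θ => ‖((κ θ, pr ξ) : ℂ × E') - pj pr (κ t, ξ)‖)
    (g := fun _ => T.rho (κ t, ξ) ^ 2) (by fun_prop) continuousAt_const ?_
  simpa using pow_pos (T.rho_pos (κ t, ξ)) 2

variable {J : E →L⋆[ℂ] E} {J' : E' →L⋆[ℂ] E'} {re : Prop}

/-- The local section through a point. -/
theorem good_loc (T : TC U pr) (hκ : Continuous κ) (hre : re → RealStr U pr J J' ∧ ∀ θ, ‖κ θ‖ = 1)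
    {t : ℝ} {ξ : E} (hξ : (κ t, ξ) ∈ U) (hr : re → J ξ = ξ) {A : Set ℝ} (hA : IsClosed A)
    (h1 : ∀ θ ∈ A, κ θ ∉ P)
    (h2 : ∀ θ ∈ A, ‖((κ θ, pr ξ) : ℂ × E') - pj pr (κ t, ξ)‖ < T.rho (κ t, ξ) ^ 2) :
    Good U κ P σ (fun x => re → J x = x) (fun θ => T.ex (κ t, ξ) (κ θ, pr ξ)) A := by
  refine ⟨T.continuousOn_ex_comp continuousOn_const (by fun_prop) fun θ hθ => ⟨hξ, h2 θ hθ.1⟩,
    fun θ hθ => ⟨T.ex_mem hξ (h2 θ hθ.1), fun h => ?_⟩,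
    fun θ₁ h => (ev_notMem hA fun h3 => h1 _ h3 h).mono fun θ h4 h5 => absurd h5 h4⟩
  exact ex_real T (hre h).1 hξ ((hre h).2 θ) (hr h) (by rw [← (hre h).1.comm, hr h]) (h2 θ hθ.1)

/-- A section near any parameter. -/
theorem model [CompleteSpace E] (T : TC U pr) (hκ : Continuous κ)
    (hκ' : ∀ t c, ∀ᶠ θ in 𝓝[≠] t, κ θ ≠ c) (hre : re → RealStr U pr J J' ∧ ∀ θ, ‖κ θ‖ = 1)
    (hσ : ∀ p ∈ P, Germ U id (σ p) p)
    (hσ' : re → ∀ p ∈ P, ∀ᶠ z in 𝓝[≠] p, σ p (rfl1 z) = J (σ p z))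
    (hne : ∀ θ, κ θ ∉ P → ∃ ξ, (κ θ, ξ) ∈ U ∧ (re → J ξ = ξ)) (t₀ : ℝ) :
    ∃ δ > 0, ∃ m, ∀ t t', t₀ - δ < t → t' < t₀ + δ →
      Good U κ P σ (fun x => re → J x = x) m (Icc t t') := by
  have sub : ∀ {δ t t' θ : ℝ}, t₀ - δ < t → t' < t₀ + δ → θ ∈ Icc t t' → dist θ t₀ < δ :=
    fun h1 h2 h3 => by
      rw [Real.dist_eq, abs_lt]; constructor <;> linarith [h3.1, h3.2]
  have e0 := ev_good (P := P) hκ' t₀
  by_cases h0 : κ t₀ ∈ P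
  · have td : Tendsto κ (𝓝[≠] t₀) (𝓝[≠] (κ t₀)) :=
      tendsto_nhdsWithin_iff.2 ⟨hκ.continuousAt.mono_left nhdsWithin_le_nhds, hκ' t₀ _⟩
    have e1 := td.eventually (hσ _ h0).1.eventually_analyticAt
    have e2 := td.eventually (hσ _ h0).2
    have e3 : ∀ᶠ θ in 𝓝[≠] t₀, re → J (σ (κ t₀) (κ θ)) = σ (κ t₀) (κ θ) := by
      by_cases h : re
      · filter_upwards [td.eventually (hσ' h _ h0)] with θ h1 _
        rw [← h1, rfl1_of_norm_one ((hre h).2 θ)]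
      · exact Eventually.of_forall fun _ h1 => absurd h1 h
    obtain ⟨δ, hδ, hδ'⟩ := Metric.mem_nhdsWithin_iff.1 (e0.and (e1.and (e2.and e3)))
    refine ⟨δ, hδ, fun θ => σ (κ t₀) (κ θ), fun t t' h1 h2 => ?_⟩
    have k : ∀ θ ∈ Icc t t' \ κ ⁻¹' P, θ ∈ ball t₀ δ ∩ {t₀}ᶜ := fun θ hθ =>
      ⟨sub h1 h2 hθ.1, fun h3 => hθ.2 (by rw [mem_singleton_iff.1 h3]; exact h0)⟩
    refine ⟨fun θ hθ => ((hδ' (k θ hθ)).2.1.continuousAt.comp hκ.continuousAt).continuousWithinAt,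
      fun θ hθ => (hδ' (k θ hθ)).2.2, fun θ₁ h3 => ?_⟩
    by_cases h4 : θ₁ = t₀
    · subst h4; exact Eventually.of_forall fun _ _ => rfl
    · exact (ev_notMem isClosed_Icc fun h5 => (hδ' ⟨sub h1 h2 h5, h4⟩).1 h3).mono
        fun θ h5 h6 => absurd h6 h5
  · obtain ⟨ξ, hξ, hr⟩ := hne t₀ h0
    have e1 : ∀ᶠ θ in 𝓝 t₀, κ θ ∉ P := by
      rw [← nhdsNE_sup_pure, eventually_sup]; exact ⟨e0, h0⟩
    obtain ⟨δ, hδ, hδ'⟩ := Metric.eventually_nhds_iff.1 (e1.and (loc_sec T hκ t₀ ξ))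
    exact ⟨δ, hδ, _, fun t t' h1 h2 => good_loc T hκ hre hξ hr isClosed_Icc
      (fun θ hθ => (hδ' (sub h1 h2 hθ)).1) fun θ hθ => (hδ' (sub h1 h2 hθ)).2⟩

/-- Changing the initial value of a section. -/
theorem splice (T : TC U pr) (hκ : Continuous κ) (hκ' : ∀ t c, ∀ᶠ θ in 𝓝[≠] t, κ θ ≠ c)
    (hre : re → RealStr U pr J J' ∧ ∀ θ, ‖κ θ‖ = 1) {t t' : ℝ} (htt : t < t') (h0 : κ t ∉ P)
    {m : ℝ → E} (hm : Good U κ P σ (fun x => re → J x = x) m (Icc t t')) {ξ : E}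
    (hj : JoinedIn {x | (κ t, x) ∈ U ∧ (re → J x = x)} ξ (m t)) :
    ∃ q, Good U κ P σ (fun x => re → J x = x) q (Icc t t') ∧ q t = ξ := by
  have hξ := hj.source_mem
  have e1 : ∀ᶠ θ in 𝓝 t, κ θ ∉ P := by
    rw [← nhdsNE_sup_pure, eventually_sup]; exact ⟨ev_good hκ' t, h0⟩
  obtain ⟨η, hη, hη'⟩ := Metric.eventually_nhds_iff.1 (e1.and (loc_sec T hκ t ξ))
  set D := Icc t (min t' (t + η / 2)) with hD
  have dD : ∀ θ ∈ D, dist θ t < η := fun θ hθ => by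
    have := hθ.2.trans (min_le_right _ _)
    rw [Real.dist_eq, abs_lt]; constructor <;> linarith [hθ.1]
  have DP : ∀ θ ∈ D, κ θ ∉ P := fun θ hθ => (hη' (dD θ hθ)).1
  have DI : ∀ θ ∈ D, θ ∈ Icc t t' \ κ ⁻¹' P := fun θ hθ =>
    ⟨⟨hθ.1, hθ.2.trans (min_le_left _ _)⟩, DP θ hθ⟩
  have g0 := good_loc (σ := σ) T hκ hre hξ.1 hξ.2 (A := D) isClosed_Icc DP
    fun θ hθ => (hη' (dD θ hθ)).2
  obtain ⟨γ, hγ⟩ := hj
  have hc : ∀ τ ∈ Icc (0 : ℝ) 1, (κ t, γ.extend τ) ∈ U ∧ (re → J (γ.extend τ) = γ.extend τ) :=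
    fun τ hτ => by rw [Path.extend_apply γ hτ]; exact hγ _
  have tD : t ∈ D := ⟨le_rfl, le_min htt.le (by linarith)⟩
  obtain ⟨δ, hδ, C, c1, c2, c3, c4⟩ := family T hκ (c := γ.extend) tD
    ⟨γ.continuous_extend.continuousOn, fun τ hτ => (hc τ hτ).1⟩
    (g0.cont.mono fun θ hθ => ⟨hθ, DP θ hθ⟩) (fun θ hθ => (g0.mem θ ⟨hθ, DP θ hθ⟩).1)
    (hm.cont.mono DI) (fun θ hθ => (hm.mem θ (DI θ hθ)).1)
    (by rw [Path.extend_zero]; exact T.ex_self (u := (κ t, ξ)) hξ.1) (by rw [Path.extend_one])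
  obtain ⟨h, hh, h1, h2, h3⟩ : ∃ h > 0, t + h ≤ t' ∧ h ≤ η / 2 ∧ h < δ :=
    ⟨min (t' - t) (min (η / 2) (δ / 2)), lt_min (by linarith) (lt_min (by linarith) (by linarith)),
      by linarith [min_le_left (t' - t) (min (η / 2) (δ / 2))],
      (min_le_right _ _).trans (min_le_left _ _),
      ((min_le_right _ _).trans (min_le_right _ _)).trans_lt (by linarith)⟩
  have a1 : ∀ θ ∈ Icc t (t + h), θ ∈ D ∩ ball t δ := fun θ hθ =>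
    ⟨⟨hθ.1, le_min (hθ.2.trans h1) (by linarith [hθ.2])⟩, by
      rw [mem_ball, Real.dist_eq, abs_lt]; constructor <;> linarith [hθ.1, hθ.2]⟩
  have a2 : ∀ θ ∈ Icc t (t + h), (θ - t) / h ∈ Icc (0 : ℝ) 1 := fun θ hθ =>
    ⟨div_nonneg (by linarith [hθ.1]) hh.le, (div_le_one hh).2 (by linarith [hθ.2])⟩
  have g1 : Good U κ P σ (fun x => re → J x = x) (fun θ => C (θ, (θ - t) / h)) (Icc t (t + h)) := by
    refine ⟨c1.comp (f := fun θ : ℝ => (θ, (θ - t) / h)) (by fun_prop)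
      fun θ hθ => ⟨a1 θ hθ.1, a2 θ hθ.1⟩,
      fun θ hθ => ⟨(c3 θ (a1 θ hθ.1)).2.2 _ (a2 θ hθ.1), fun r => ?_⟩,
      fun θ₁ h4 => (ev_notMem isClosed_Icc fun h5 => DP _ (a1 _ h5).1 h4).mono
        fun θ h5 h6 => absurd h6 h5⟩
    have hD' := (a1 θ hθ.1).1
    exact c4 J J' (hre r).1 (fun τ hτ => (hc τ hτ).2 r) θ (a1 θ hθ.1) ((hre r).2 θ)
      ((g0.mem θ ⟨hD', DP θ hD'⟩).2 r) ((hm.mem θ (DI θ hD')).2 r) _ (a2 θ hθ.1)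
  refine ⟨_, g1.paste (hm.mono (Icc_subset_Icc_left (by linarith))) fun _ => ?_, ?_⟩
  · rw [add_sub_cancel_left, div_self hh.ne']
    exact (c3 _ (a1 _ ⟨by linarith, le_rfl⟩)).2.1
  · simp only [if_pos (show t ≤ t + h by linarith), sub_self, zero_div]
    rw [c2 0 ⟨le_rfl, zero_le_one⟩, Path.extend_zero]

/-- A section over a whole interval. -/
theorem good_all [CompleteSpace E] (T : TC U pr) (hκ : Continuous κ)
    (hκ' : ∀ t c, ∀ᶠ θ in 𝓝[≠] t, κ θ ≠ c) (hre : re → RealStr U pr J J' ∧ ∀ θ, ‖κ θ‖ = 1)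
    (hσ : ∀ p ∈ P, Germ U id (σ p) p)
    (hσ' : re → ∀ p ∈ P, ∀ᶠ z in 𝓝[≠] p, σ p (rfl1 z) = J (σ p z))
    (hne : ∀ θ, κ θ ∉ P → (∃ ξ, (κ θ, ξ) ∈ U ∧ (re → J ξ = ξ)) ∧
      ∀ ξ₁ ξ₂, (κ θ, ξ₁) ∈ U → (re → J ξ₁ = ξ₁) → (κ θ, ξ₂) ∈ U → (re → J ξ₂ = ξ₂) →
        JoinedIn {ξ | (κ θ, ξ) ∈ U ∧ (re → J ξ = ξ)} ξ₁ ξ₂) {a b : ℝ} (hab : a ≤ b) :
    ∃ g, Good U κ P σ (fun x => re → J x = x) g (Icc a b) := by
  refine real_ind (W := fun t => ∃ g, Good U κ P σ (fun x => re → J x = x) g (Icc a t)) hab ?_ ?_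
  · intro t₀ _
    obtain ⟨δ, hδ, m, hm⟩ := model T hκ hκ' hre hσ hσ' (fun θ h => (hne θ h).1) t₀
    refine ⟨δ, hδ, fun t t' h1 h2 h3 h4 ⟨g, hg⟩ => ?_⟩
    have hm' := hm t t' h3 h4
    by_cases h0 : κ t ∈ P
    · exact ⟨_, hg.paste hm' fun h => absurd h0 h⟩
    · have b1 := hg.mem t ⟨⟨h1, le_rfl⟩, h0⟩
      have b2 := hm'.mem t ⟨⟨le_rfl, h2.le⟩, h0⟩
      obtain ⟨q, hq, hq'⟩ := splice T hκ hκ' hre h2 h0 hm' ((hne t h0).2 _ _ b1.1 b1.2 b2.1 b2.2)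
      exact ⟨_, hg.paste hq fun _ => hq'.symm⟩
  · obtain ⟨δ, hδ, m, hm⟩ := model T hκ hκ' hre hσ hσ' (fun θ h => (hne θ h).1) a
    exact ⟨m, hm a a (by linarith) (by linarith)⟩

theorem circle [CompleteSpace E] (T : TC U pr) {r : ℝ} (hr : 0 < r) (hP : P.Nonempty)
    (h1 : ∀ p ∈ P, ‖p‖ = r ∧ Germ U id (σ p) p)
    (h2 : re → r = 1 ∧ RealStr U pr J J' ∧ ∀ p ∈ P, ∀ᶠ z in 𝓝[≠] p, σ p (rfl1 z) = J (σ p z))
    (h3 : ∀ z ∈ sphere (0 : ℂ) r \ P, (∃ ξ, (z, ξ) ∈ U ∧ (re → J ξ = ξ)) ∧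
      ∀ ξ₁ ξ₂, (z, ξ₁) ∈ U → (re → J ξ₁ = ξ₁) → (z, ξ₂) ∈ U → (re → J ξ₂ = ξ₂) →
        JoinedIn {ξ | (z, ξ) ∈ U ∧ (re → J ξ = ξ)} ξ₁ ξ₂) :
    ∃ γ, CSec U γ (sphere 0 r \ P) ∧ (∀ p ∈ P, ∀ᶠ z in 𝓝[sphere 0 r \ {p}] p, γ z = σ p z) ∧
      (re → ∀ z ∈ sphere (0 : ℂ) r \ P, J (γ z) = γ z) := by
  obtain ⟨p₀, hp₀⟩ := hP
  have n0 := (h1 p₀ hp₀).1
  have z0 : p₀ ≠ 0 := by rintro rfl; simp at n0; linarith
  set κ : ℝ → ℂ := fun θ => -p₀ * Complex.exp (θ * Complex.I) with hκd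
  have hκ : Continuous κ := by rw [hκd]; fun_prop
  have nκ : ∀ θ, ‖κ θ‖ = r := fun θ => by
    simp only [hκd, norm_mul, norm_neg, Complex.norm_exp_ofReal_mul_I, mul_one, n0]
  have hκ' : ∀ t c, ∀ᶠ θ in 𝓝[≠] t, κ θ ≠ c := fun t c => by
    have : HasDerivAt κ (-p₀ * (Complex.exp (t * Complex.I) * (1 * Complex.I))) t :=
      ((((hasDerivAt_id (t : ℂ)).mul_const Complex.I).cexp).const_mul (-p₀)).comp_ofReal
    exact this.eventually_ne (by simp [z0, Complex.exp_ne_zero])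
  obtain ⟨g, hg⟩ := good_all (J := J) (J' := J') (re := re) T hκ hκ'
    (fun h => ⟨(h2 h).2.1, fun θ => (nκ θ).trans (h2 h).1⟩) (fun p hp => (h1 p hp).2)
    (fun h => (h2 h).2.2) (fun θ h => h3 _ ⟨mem_sphere_zero_iff_norm.2 (nκ θ), h⟩)
    (a := -Real.pi) (b := Real.pi) (by linarith [Real.pi_pos])
  set φ : ℂ → ℝ := fun z => Complex.arg (z / -p₀) with hφ
  have n1 : ∀ z ∈ sphere (0 : ℂ) r, ‖z / -p₀‖ = 1 := fun z hz => by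
    rw [norm_div, norm_neg, n0, mem_sphere_zero_iff_norm.1 hz, div_self hr.ne']
  have kφ : ∀ z ∈ sphere (0 : ℂ) r, κ (φ z) = z := fun z hz => by
    have := Complex.norm_mul_exp_arg_mul_I (z / -p₀)
    rw [n1 z hz, Complex.ofReal_one, one_mul] at this
    simp only [hκd, hφ, this]
    field_simp
  have φI : ∀ z, φ z ∈ Icc (-Real.pi) Real.pi := fun z =>
    ⟨(Complex.neg_pi_lt_arg _).le, Complex.arg_le_pi _⟩
  have φm : ∀ z ∈ sphere (0 : ℂ) r \ P, φ z ∈ Icc (-Real.pi) Real.pi \ κ ⁻¹' P := fun z hz =>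
    ⟨φI z, fun h => hz.2 (by rwa [mem_preimage, kφ z hz.1] at h)⟩
  have φc : ∀ z ∈ sphere (0 : ℂ) r \ P, ContinuousAt φ z := fun z hz => by
    refine (Complex.continuousAt_arg ?_).comp (f := fun z => z / -p₀) (by fun_prop)
    refine Complex.mem_slitPlane_iff_arg.2 ⟨fun h => hz.2 ?_, fun h => ?_⟩
    · have h4 := kφ z hz.1
      simp only [hφ, h, hκd, Complex.exp_pi_mul_I] at h4
      have : z = p₀ := by rw [← h4]; ring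
      rw [this]; exact hp₀
    · have := n1 z hz.1
      rw [h] at this; simp at this
  refine ⟨fun z => g (φ z), ⟨hg.cont.comp (fun z hz => (φc z hz).continuousWithinAt) φm,
    fun z hz => ?_⟩, fun p hp => ?_, fun h z hz => (hg.mem _ (φm z hz)).2 h⟩
  · have := (hg.mem _ (φm z hz)).1
    rwa [kφ z hz.1] at this
  · have key : ∀ᶠ z in 𝓝 p, ∀ θ ∈ Icc (-Real.pi) Real.pi,
        θ ∈ Icc (-Real.pi) Real.pi → κ θ = z → z ≠ p → g θ = σ p z := by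
      refine isCompact_Icc.eventually_forall_of_forall_eventually fun θ₁ _ => ?_
      by_cases h4 : κ θ₁ = p
      · have h5 := hg.germ θ₁ (h4 ▸ hp)
        rw [eventually_nhdsWithin_iff] at h5
        filter_upwards [continuousAt_snd.eventually h5] with x hx h6 h7 h8
        rw [hx (fun h9 => h8 (by rw [← h7, mem_singleton_iff.1 h9, h4])) h6, h4, h7]
      · have : ∀ᶠ x : ℂ × ℝ in 𝓝 (p, θ₁), κ x.2 ≠ x.1 :=
          ContinuousAt.eventually_ne (g := fun x : ℂ × ℝ => κ x.2 - x.1) (y := 0) (by fun_prop)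
            (sub_ne_zero.2 h4) |>.mono fun x hx => sub_ne_zero.1 hx
        exact this.mono fun x hx _ h7 => absurd h7 hx
    filter_upwards [nhdsWithin_le_nhds key, self_mem_nhdsWithin] with z hz hz'
    exact hz _ (φI z) (φI z) (kφ z hz'.1) hz'.2

end PF

theorem PF_of : S_PF := by
  intro E _ _ _ E' _ _ _ U pr T
  refine ⟨fun b c D s₀ s₁ hb hc h0 h1 e0 e1 => ?_, fun r γ hr hγ => PF.radial T hr hγ,
    fun r P σ J J' re hr hP h1 h2 h3 => PF.circle T hr hP h1 h2 h3⟩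
  obtain ⟨δ, hδ, C, c1, c2, c3, c4⟩ :=
    PF.family T (κ := id) continuous_id hb hc h0.1 h0.2 h1.1 h1.2 e0 e1
  exact ⟨δ, hδ, C, c1, c2, c3, fun J J' hJ _ hc' => c4 J J' hJ hc'⟩

end

end Pool.Agent.P.MP_daea48_ag
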