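import Pool.Agent.P.MP_daea48_ag.StA

/-! Families of paths in the fibres; radial extension. -/

open Set Filter Topology Metric Polynomial Asymptotics
open scoped ComplexConjugate

namespace Pool.Agent.P.MP_daea48_ag

noncomputable section

namespace PF

variable {E E' : Type} [NormedAddCommGroup E] [NormedSpace ℂ E] [NormedAddCommGroup E']
  [NormedSpace ℂ E'] {U : Set (ℂ × E)} {pr : E →L[ℂ] E'}

theorem convex_bound {a b : E'} {r t : ℝ} (ht : t ∈ Icc (0 : ℝ) 1) (ha : ‖a‖ < r) (hb : ‖b‖ < r) :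
    ‖((1 - t : ℝ) : ℂ) • a + (t : ℂ) • b‖ < r := by
  refine (norm_add_le _ _).trans_lt ?_
  rw [norm_smul, norm_smul, Complex.norm_real, Complex.norm_real, Real.norm_of_nonneg ht.1,
    Real.norm_of_nonneg (by linarith [ht.2])]
  have hm : max ‖a‖ ‖b‖ < r := max_lt ha hb
  nlinarith [le_max_left ‖a‖ ‖b‖, le_max_right ‖a‖ ‖b‖, ht.1, ht.2]

/-- A point given by `ex` from real data is real. -/
theorem ex_real (T : TC U pr) {J : E →L⋆[ℂ] E} {J' : E' →L⋆[ℂ] E'} (hJ : RealStr U pr J J')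
    {b z : ℂ} {ξ : E} {x : E'} (hu : (b, ξ) ∈ U) (hz : ‖z‖ = 1) (hξ : J ξ = ξ) (hx : J' x = x)
    (hp : ‖((z, x) : ℂ × E') - pj pr (b, ξ)‖ < T.rho (b, ξ) ^ 2) :
    J (T.ex (b, ξ) (z, x)) = T.ex (b, ξ) (z, x) := by
  obtain ⟨h1, h2, h3⟩ := T.ex_spec hu hp
  have hz0 : z ≠ 0 := by rintro rfl; simp at hz
  have h4 := hJ.mem z _ hz0 h1
  rw [rfl1_of_norm_one hz] at h4
  refine (T.ex_unique hu h4 ?_ ?_).symm
  · refine lt_of_le_of_lt (le_of_eq ?_) h2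
    simp only [Prod.mk_sub_mk, Prod.norm_mk]
    congr 1
    rw [← hJ.norm (T.ex (b, ξ) (z, x) - ξ), map_sub, hξ]
  · rw [hJ.comm, h3, hx]

/-- A path in a fibre extends to a family of paths between two sections. -/
theorem family (T : TC U pr) {X : Type} [MetricSpace X] {κ : X → ℂ} (hκ : Continuous κ) {b : X}
    {c : ℝ → E} {D : Set X} {s₀ s₁ : X → E} (hb : b ∈ D) (hc : PathIn (fib U (κ b)) c)
    (h0 : ContinuousOn s₀ D) (m0 : ∀ z ∈ D, (κ z, s₀ z) ∈ U)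
    (h1 : ContinuousOn s₁ D) (m1 : ∀ z ∈ D, (κ z, s₁ z) ∈ U) (e0 : s₀ b = c 0) (e1 : s₁ b = c 1) :
    ∃ δ > 0, ∃ C : X × ℝ → E, ContinuousOn C ((D ∩ ball b δ) ×ˢ Icc 0 1) ∧
      (∀ t ∈ Icc (0 : ℝ) 1, C (b, t) = c t) ∧
      (∀ z ∈ D ∩ ball b δ, C (z, 0) = s₀ z ∧ C (z, 1) = s₁ z ∧
        ∀ t ∈ Icc (0 : ℝ) 1, (κ z, C (z, t)) ∈ U) ∧
      ∀ J J', RealStr U pr J J' → (∀ t ∈ Icc (0 : ℝ) 1, J (c t) = c t) →
        ∀ z ∈ D ∩ ball b δ, ‖κ z‖ = 1 → J (s₀ z) = s₀ z → J (s₁ z) = s₁ z →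
          ∀ t ∈ Icc (0 : ℝ) 1, J (C (z, t)) = C (z, t) := by
  have hK : IsCompact ((fun t => ((κ b, c t) : ℂ × E)) '' Icc 0 1) :=
    isCompact_Icc.image_of_continuousOn (continuousOn_const.prodMk hc.1)
  obtain ⟨r, hr, hr'⟩ := T.rho_lower hK.isBounded
  have hr1 : ∀ t ∈ Icc (0 : ℝ) 1, r ≤ T.rho (κ b, c t) := fun t ht => hr' _ ⟨t, ht, rfl⟩
  have hr2 : 0 < r ^ 2 := by positivity
  have lim : ∀ {Y : Type} [NormedAddCommGroup Y] {f : X → Y} {ε : ℝ}, 0 < ε →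
      ContinuousWithinAt f D b → ∀ᶠ z in 𝓝[D] b, ‖f z - f b‖ < ε := fun hε hf => by
    have := Metric.tendsto_nhds.1 hf _ hε
    simpa only [dist_eq_norm] using this
  have c0 := h0 b hb
  have c1 := h1 b hb
  have ck : ContinuousWithinAt κ D b := hκ.continuousWithinAt
  have ev := ((lim hr2 ck).and ((lim hr2 (pr.continuous.continuousAt.comp_continuousWithinAt c0)).and
    (lim hr2 (pr.continuous.continuousAt.comp_continuousWithinAt c1)))).and
      ((lim hr (ck.prodMk c0)).and (lim hr (ck.prodMk c1)))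
  obtain ⟨δ, hδ, hδ'⟩ := Metric.mem_nhdsWithin_iff.1 ev
  set p : X × ℝ → E' := fun x => pr (c x.2) + (((1 - x.2 : ℝ) : ℂ) • (pr (s₀ x.1) - pr (s₀ b)) +
    (x.2 : ℂ) • (pr (s₁ x.1) - pr (s₁ b))) with hp
  have key : ∀ z ∈ D ∩ ball b δ, ∀ t ∈ Icc (0 : ℝ) 1,
      ‖((κ z, p (z, t)) : ℂ × E') - pj pr (κ b, c t)‖ < T.rho (κ b, c t) ^ 2 := by
    intro z hz t ht
    obtain ⟨⟨a1, a2, a3⟩, -⟩ := hδ' ⟨hz.2, hz.1⟩
    have : r ^ 2 ≤ T.rho (κ b, c t) ^ 2 := pow_le_pow_left₀ hr.le (hr1 t ht) 2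
    refine lt_of_lt_of_le ?_ this
    simp only [pj_mk, Prod.mk_sub_mk, Prod.norm_mk, hp, add_sub_cancel_left]
    exact max_lt a1 (convex_bound ht a2 a3)
  have z0 : (0 : ℝ) ∈ Icc (0 : ℝ) 1 := ⟨le_rfl, zero_le_one⟩
  have z1 : (1 : ℝ) ∈ Icc (0 : ℝ) 1 := ⟨zero_le_one, le_rfl⟩
  refine ⟨δ, hδ, fun x => T.ex (κ b, c x.2) (κ x.1, p x), ?_, ?_, ?_, ?_⟩
  · have cc : ContinuousOn (fun x : X × ℝ => c x.2) ((D ∩ ball b δ) ×ˢ Icc 0 1) :=
      hc.1.comp continuousOn_snd fun x hx => hx.2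
    have cs0 : ContinuousOn (fun x : X × ℝ => s₀ x.1) ((D ∩ ball b δ) ×ˢ Icc 0 1) :=
      h0.comp continuousOn_fst fun x hx => hx.1.1
    have cs1 : ContinuousOn (fun x : X × ℝ => s₁ x.1) ((D ∩ ball b δ) ×ˢ Icc 0 1) :=
      h1.comp continuousOn_fst fun x hx => hx.1.1
    refine T.continuousOn_ex_comp (continuousOn_const.prodMk cc)
      ((hκ.comp continuous_fst).continuousOn.prodMk ?_) fun x hx => ⟨hc.2 hx.2, key _ hx.1 _ hx.2⟩
    refine (pr.continuous.comp_continuousOn cc).add (ContinuousOn.add ?_ ?_)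
    · exact ContinuousOn.smul (by fun_prop)
        ((pr.continuous.comp_continuousOn cs0).sub continuousOn_const)
    · exact ContinuousOn.smul (by fun_prop)
        ((pr.continuous.comp_continuousOn cs1).sub continuousOn_const)
  · intro t ht
    have : p (b, t) = pr (c t) := by simp [hp]
    simp only [this]
    exact T.ex_self (u := (κ b, c t)) (hc.2 ht)
  · intro z hz
    obtain ⟨-, a4, a5⟩ := hδ' ⟨hz.2, hz.1⟩
    refine ⟨T.ex_unique (hc.2 z0) (m0 z hz.1) ?_ ?_, T.ex_unique (hc.2 z1) (m1 z hz.1) ?_ ?_,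
      fun t ht => T.ex_mem (hc.2 ht) (key z hz t ht)⟩
    · rw [← e0]; exact a4.trans_le (e0 ▸ hr1 0 z0)
    · simp [hp, e0]
    · rw [← e1]; exact a5.trans_le (e1 ▸ hr1 1 z1)
    · simp [hp, e1]
  · intro J J' hJ hJc z hz hz1 j0 j1 t ht
    refine ex_real T hJ (hc.2 ht) hz1 (hJc t ht) ?_ (key z hz t ht)
    have q : ∀ x, J x = x → J' (pr x) = pr x := fun x hx => by rw [← hJ.comm, hx]
    have sm : ∀ (a : ℝ) (x : E'), J' ((a : ℂ) • x) = (a : ℂ) • J' x := fun a x => by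
      rw [ContinuousLinearMap.map_smulₛₗ, Complex.conj_ofReal]
    simp only [hp]
    rw [map_add, map_add, sm, sm, map_sub, map_sub, q _ (hJc t ht), q _ j0, q _ j1,
      q _ (e0 ▸ hJc 0 z0), q _ (e1 ▸ hJc 1 z1)]

/-- Radial extension of a section over a circle. -/
theorem radial (T : TC U pr) {r : ℝ} {γ : ℂ → E} (hr : 0 < r) (hγ : CSec U γ (sphere 0 r)) :
    ∃ δ > 0, ∃ S, δ < r ∧ CSec U S (cann (r - δ) (r + δ)) ∧ EqOn S γ (sphere 0 r) := by
  have hK : IsCompact ((fun z => ((z, γ z) : ℂ × E)) '' sphere 0 r) :=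
    (isCompact_sphere 0 r).image_of_continuousOn (continuousOn_id.prodMk hγ.1)
  obtain ⟨ρ, hρ, hρ'⟩ := T.rho_lower hK.isBounded
  set δ := min (ρ ^ 2) r / 2 with hδ
  have hm : 0 < min (ρ ^ 2) r := lt_min (by positivity) hr
  have d1 : δ < ρ ^ 2 := by rw [hδ]; linarith [min_le_left (ρ ^ 2) r]
  have d2 : δ < r := by rw [hδ]; linarith [min_le_right (ρ ^ 2) r]
  set π : ℂ → ℂ := fun z => ((r / ‖z‖ : ℝ) : ℂ) * z with hπ
  have pos : ∀ z ∈ cann (r - δ) (r + δ), 0 < ‖z‖ := fun z hz => by linarith [hz.1]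
  have pm : ∀ z ∈ cann (r - δ) (r + δ), π z ∈ sphere (0 : ℂ) r := fun z hz => by
    have := pos z hz
    rw [mem_sphere_zero_iff_norm, hπ]
    simp only [norm_mul, Complex.norm_real]
    rw [Real.norm_of_nonneg (by positivity)]
    field_simp
  have pc : ContinuousOn π (cann (r - δ) (r + δ)) :=
    (Complex.continuous_ofReal.comp_continuousOn
      (continuousOn_const.div continuous_norm.continuousOn fun z hz => (pos z hz).ne')).mul
      continuousOn_id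
  have key : ∀ z ∈ cann (r - δ) (r + δ), ‖((z, pr (γ (π z))) : ℂ × E') - pj pr (π z, γ (π z))‖ <
      T.rho (π z, γ (π z)) ^ 2 := fun z hz => by
    have h1 : ρ ^ 2 ≤ T.rho (π z, γ (π z)) ^ 2 :=
      pow_le_pow_left₀ hρ.le (hρ' _ ⟨π z, pm z hz, rfl⟩) 2
    have h0 := pos z hz
    have h2 : ‖z - π z‖ = |‖z‖ - r| := by
      have : z - π z = (((‖z‖ - r) / ‖z‖ : ℝ) : ℂ) * z := by
        have : (‖z‖ : ℂ) ≠ 0 := by exact_mod_cast h0.ne'
        rw [hπ]; push_cast; field_simp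
      rw [this, norm_mul, Complex.norm_real, Real.norm_eq_abs, abs_div, abs_of_pos h0]
      field_simp
    have h3 : |‖z‖ - r| ≤ δ := abs_le.2 ⟨by linarith [hz.1], by linarith [hz.2]⟩
    simp only [pj_mk, Prod.mk_sub_mk, sub_self, Prod.norm_mk, norm_zero]
    exact max_lt (by linarith) (by linarith)
  have gc : ContinuousOn (fun z => γ (π z)) (cann (r - δ) (r + δ)) := hγ.1.comp pc pm
  refine ⟨δ, by positivity, fun z => T.ex (π z, γ (π z)) (z, pr (γ (π z))), d2, ⟨?_, ?_⟩, ?_⟩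
  · exact T.continuousOn_ex_comp (pc.prodMk gc)
      (continuousOn_id.prodMk (pr.continuous.comp_continuousOn gc))
      fun z hz => ⟨hγ.2 _ (pm z hz), key z hz⟩
  · exact fun z hz => T.ex_mem (hγ.2 _ (pm z hz)) (key z hz)
  · intro z hz
    have : π z = z := by
      rw [hπ]; simp only [mem_sphere_zero_iff_norm.1 hz, div_self hr.ne']; simp
    simp only [this]
    exact T.ex_self (u := (z, γ z)) (hγ.2 z hz)

/-- Real induction. -/
theorem real_ind {W : ℝ → Prop} {a b : ℝ} (hab : a ≤ b)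
    (h : ∀ t₀ ∈ Icc a b, ∃ δ > 0, ∀ t t', a ≤ t → t < t' → t₀ - δ < t → t' < t₀ + δ → W t → W t')
    (ha : W a) : W b := by
  set S := {t | t ∈ Icc a b ∧ W t} with hS
  have hne : S.Nonempty := ⟨a, ⟨le_rfl, hab⟩, ha⟩
  have hbd : BddAbove S := ⟨b, fun t ht => ht.1.2⟩
  have h1 : a ≤ sSup S := le_csSup hbd ⟨⟨le_rfl, hab⟩, ha⟩
  have h2 : sSup S ≤ b := csSup_le hne fun t ht => ht.1.2
  obtain ⟨δ, hδ, hW⟩ := h _ ⟨h1, h2⟩
  obtain ⟨t, ht, ht'⟩ := exists_lt_of_lt_csSup hne (show sSup S - δ < sSup S by linarith)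
  have h3 : t ≤ sSup S := le_csSup hbd ht
  rcases ht.1.2.eq_or_lt with rfl | hlt
  · exact ht.2
  have h4 : W (min b (sSup S + δ / 2)) :=
    hW t _ ht.1.1 (lt_min hlt (by linarith)) ht' ((min_le_right _ _).trans_lt (by linarith)) ht.2
  have h5 : min b (sSup S + δ / 2) ≤ sSup S :=
    le_csSup hbd ⟨⟨le_min hab (by linarith), min_le_left _ _⟩, h4⟩
  rcases le_total b (sSup S + δ / 2) with h6 | h6
  · rwa [min_eq_left h6] at h4
  · rw [min_eq_right h6] at h5; linarith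

end PF

end

end Pool.Agent.P.MP_daea48_ag
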