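import Pool.Agent.P.MP_daea48_ag.Pl11

/-! Places of the function field and bounded functions on the branches over a point. -/

open Set Filter Topology Metric Polynomial
open scoped ComplexConjugate

namespace Pool.Agent.P.MP_daea48_ag

namespace Pl1

noncomputable section

open Classical

variable {K : Type} [Field K] [Algebra ℝ K] (F : FF K)

/-- The branches of the curve over a punctured neighbourhood of `p`. -/
def br (l : ℝ) (p : ℂ) : Filter (ℂ × ℂ) :=
  comap Prod.fst (𝓝[≠] p) ⊓ 𝓟 {c | (cx F.Q).evalEval (zt l c.1) c.2 = 0}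

theorem br_iff {l : ℝ} {p : ℂ} {P : ℂ × ℂ → Prop} : (∀ᶠ c in br F l p, P c) ↔
    ∀ᶠ z in 𝓝[≠] p, ∀ T₀, (cx F.Q).evalEval (zt l z) T₀ = 0 → P (z, T₀) := by
  rw [br, eventually_inf_principal, eventually_comap]
  refine eventually_congr (Eventually.of_forall fun z => ⟨fun h T₀ hT => h (z, T₀) rfl hT, ?_⟩)
  rintro h ⟨z', T₀⟩ rfl hT
  exact h T₀ hT

theorem br_fst {l : ℝ} {p : ℂ} {P : ℂ → Prop} (h : ∀ᶠ z in 𝓝[≠] p, P z) :
    ∀ᶠ c in br F l p, P c.1 :=
  (br_iff F).mpr (h.mono fun _ hz _ _ => hz)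

theorem br_ev {l : ℝ} (hl : 0 < l) (p : ℂ) {P : ℂ × ℂ → Prop} (h : F.evF P) :
    ∀ᶠ c in br F l p, P (zt l c.1, c.2) := by
  obtain ⟨δ, hδ, h⟩ := h
  refine (br_iff F).mpr ((ev_ne hl p hδ).mono fun z hz T₀ hT => h _ hT ?_)
  rwa [cx1_eval]

/-- The value of `a` on the branches. -/
def vl (l : ℝ) (a : K) (c : ℂ × ℂ) : ℂ := F.sp a (zt l c.1, c.2)

section
variable (h1 : S_Spr) {l : ℝ} (hl : 0 < l) (p : ℂ)
include h1 hl

theorem vl_add (a b : K) : ∀ᶠ c in br F l p, vl F l (a + b) c = vl F l a c + vl F l b c :=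
  (br_ev F hl p ((h1 K F).1 a b)).mono fun _ h => h.1

theorem vl_mul (a b : K) : ∀ᶠ c in br F l p, vl F l (a * b) c = vl F l a c * vl F l b c :=
  (br_ev F hl p ((h1 K F).1 a b)).mono fun _ h => h.2

theorem vl_rat (A s : ℝ[X]) (hs : s ≠ 0) :
    ∀ᶠ c in br F l p, vl F l (aeval F.t A / aeval F.t s) c = rf l A s c.1 := by
  refine (br_ev F hl p ((h1 K F).2.1 (C A) s hs)).mono fun c h => ?_
  simpa [cx, rf, cx1, vl, evalEval_C] using h

theorem vl_one : ∀ᶠ c in br F l p, vl F l 1 c = 1 :=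
  (vl_rat F h1 hl p 1 1 one_ne_zero).mono fun c h => by simpa [rf_eq] using h

theorem vl_zero : ∀ᶠ c in br F l p, vl F l 0 c = 0 :=
  (vl_rat F h1 hl p 0 1 one_ne_zero).mono fun c h => by simpa [rf_eq] using h

theorem vl_neg (a : K) : ∀ᶠ c in br F l p, vl F l (-a) c = -vl F l a c := by
  filter_upwards [vl_add F h1 hl p a (-a), vl_zero F h1 hl p] with c h2 h3
  rw [add_neg_cancel, h3] at h2
  linear_combination -h2

theorem vl_pow (a : K) (n : ℕ) : ∀ᶠ c in br F l p, vl F l (a ^ n) c = vl F l a c ^ n := by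
  induction n with
  | zero => simpa using vl_one F h1 hl p
  | succ n ih =>
    filter_upwards [ih, vl_mul F h1 hl p (a ^ n) a] with c h2 h3
    rw [pow_succ, h3, h2, pow_succ]

theorem vl_sum (n : ℕ) (a : ℕ → K) : ∀ᶠ c in br F l p,
    vl F l (∑ j ∈ Finset.range n, a j) c = ∑ j ∈ Finset.range n, vl F l (a j) c := by
  induction n with
  | zero => simpa using vl_zero F h1 hl p
  | succ n ih =>
    filter_upwards [ih, vl_add F h1 hl p (∑ j ∈ Finset.range n, a j) (a n)] with c h2 h3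
    rw [Finset.sum_range_succ, h3, h2, Finset.sum_range_succ]

end

/-- The ring of elements bounded on the branches. -/
def bR (h1 : S_Spr) {l : ℝ} (hl : 0 < l) (p : ℂ) : Subring K where
  carrier := {a | ∃ C : ℝ, ∀ᶠ c in br F l p, ‖vl F l a c‖ ≤ C}
  mul_mem' := by
    rintro a b ⟨C, hC⟩ ⟨D, hD⟩
    refine ⟨C * D, ?_⟩
    filter_upwards [hC, hD, vl_mul F h1 hl p a b] with c h2 h3 h4
    rw [h4, norm_mul]
    exact mul_le_mul h2 h3 (norm_nonneg _) ((norm_nonneg _).trans h2)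
  one_mem' := ⟨1, (vl_one F h1 hl p).mono fun c h => by simp [h]⟩
  add_mem' := by
    rintro a b ⟨C, hC⟩ ⟨D, hD⟩
    refine ⟨C + D, ?_⟩
    filter_upwards [hC, hD, vl_add F h1 hl p a b] with c h2 h3 h4
    rw [h4]
    exact (norm_add_le _ _).trans (add_le_add h2 h3)
  zero_mem' := ⟨0, (vl_zero F h1 hl p).mono fun c h => by simp [h]⟩
  neg_mem' := by
    rintro a ⟨C, hC⟩
    refine ⟨C, ?_⟩
    filter_upwards [hC, vl_neg F h1 hl p a] with c h2 h3
    rwa [h3, norm_neg]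

theorem root_bound (n : ℕ) (y : ℂ) (a : ℕ → ℂ) (C : ℕ → ℝ) (ha : ∀ j < n, ‖a j‖ ≤ C j)
    (h : y ^ n + ∑ j ∈ Finset.range n, a j * y ^ j = 0) :
    ‖y‖ ≤ 1 + ∑ j ∈ Finset.range n, |C j| := by
  have h0 : 0 ≤ ∑ j ∈ Finset.range n, |C j| := Finset.sum_nonneg fun j _ => abs_nonneg _
  by_contra hy
  push Not at hy
  have hy1 : 1 ≤ ‖y‖ := by linarith
  rcases n with _ | n
  · simp at h
  have h2 : ‖y‖ ^ (n + 1) ≤ (∑ j ∈ Finset.range (n + 1), |C j|) * ‖y‖ ^ n := by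
    rw [← norm_pow, eq_neg_of_add_eq_zero_left h, norm_neg, Finset.sum_mul]
    refine (norm_sum_le _ _).trans (Finset.sum_le_sum fun j hj => ?_)
    have hj' := Finset.mem_range.mp hj
    rw [norm_mul, norm_pow]
    exact mul_le_mul ((ha j hj').trans (le_abs_self _))
      (pow_le_pow_right₀ hy1 (Nat.lt_succ_iff.mp hj')) (by positivity) (abs_nonneg _)
  rw [pow_succ'] at h2
  have h3 : 0 < ‖y‖ ^ n := by positivity
  have := le_of_mul_le_mul_right h2 h3
  linarith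

theorem bR_closed (h1 : S_Spr) {l : ℝ} (hl : 0 < l) (p : ℂ) :
    IsIntegrallyClosedIn (bR F h1 hl p) K := by
  refine Subring.isIntegrallyClosedIn_iff.mpr ?_
  rintro x ⟨P, hP, hx⟩
  rw [eval₂_eq_sum_range, Finset.sum_range_succ, hP.coeff_natDegree, map_one, one_mul,
    add_comm] at hx
  choose C hC using fun j => (P.coeff j).2
  refine ⟨1 + ∑ j ∈ Finset.range P.natDegree, |C j|, ?_⟩
  have h2 : ∀ᶠ c in br F l p, ∀ j ∈ Finset.range P.natDegree, ‖vl F l (P.coeff j) c‖ ≤ C j ∧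
      vl F l (P.coeff j * x ^ j) c = vl F l (P.coeff j) c * vl F l x c ^ j := by
    refine (Finset.eventually_all _).mpr fun j _ => ?_
    filter_upwards [hC j, vl_mul F h1 hl p (P.coeff j) (x ^ j), vl_pow F h1 hl p x j] with c a b d
    exact ⟨a, by rw [b, d]⟩
  filter_upwards [h2, vl_zero F h1 hl p, vl_pow F h1 hl p x P.natDegree,
    vl_add F h1 hl p (x ^ P.natDegree) (∑ j ∈ Finset.range P.natDegree, P.coeff j * x ^ j),
    vl_sum F h1 hl p P.natDegree fun j => P.coeff j * x ^ j] with c a b d e f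
  refine root_bound _ _ (fun j => vl F l (P.coeff j) c) C
    (fun j hj => (a j (Finset.mem_range.mpr hj)).1) ?_
  have hx' : x ^ P.natDegree + ∑ j ∈ Finset.range P.natDegree, (P.coeff j : K) * x ^ j = 0 := hx
  rw [hx', b, d, f, Finset.sum_congr rfl fun j hj => (a j hj).2] at e
  exact e.symm

theorem part4 (h1 : S_Spr) {l : ℝ} (hl : 0 < l) {p : ℂ} {π : K} (n : ℤ) (a : K)
    (hπ : F.Unif l p π) (h : ∀ O, IsPlace O → F.Over l p O → a / π ^ n ∈ O) : F.Bd l p n a := by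
  have hmem : ∀ A s : ℝ[X], s ≠ 0 → Bdd l p A s → aeval F.t A / aeval F.t s ∈ bR F h1 hl p := by
    rintro A s hs ⟨C, hC⟩
    refine ⟨C, ?_⟩
    filter_upwards [br_fst F hC, vl_rat F h1 hl p A s hs] with c h2 h3
    rwa [h3]
  have hb : a / π ^ n ∈ bR F h1 hl p := by
    by_contra hb
    have := bR_closed F h1 hl p
    obtain ⟨O, hO, hO'⟩ := Subring.exists_le_valuationSubring_of_isIntegrallyClosedIn hb
    have h2 : O ≠ ⊤ := fun h0 => hO' (h0 ▸ trivial)
    refine hO' (h O ⟨h2, fun r => ?_⟩ (over_of F O h2 fun A s hs hA => hO (hmem A s hs hA)))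
    have := hO (hmem (C r) 1 one_ne_zero ⟨‖r‖, Eventually.of_forall fun z => by simp [rf_eq]⟩)
    simpa using this
  obtain ⟨A, s, hA, hs, rfl, c, hc, C, hb'⟩ := hπ
  obtain ⟨D, hD⟩ := hb
  have hπ0 : aeval F.t A / aeval F.t s ≠ 0 := div_ne_zero (t_ne F hA) (t_ne F hs)
  have hpow : ∃ E : ℝ, ∀ᶠ c in br F l p,
      ‖vl F l ((aeval F.t A / aeval F.t s) ^ n) c‖ ≤ E * ‖c.1 - p‖ ^ n := by
    rcases n with n | n
    · refine ⟨C ^ n, ?_⟩
      filter_upwards [br_fst F hb', vl_rat F h1 hl p A s hs,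
        vl_pow F h1 hl p (aeval F.t A / aeval F.t s) n] with c h2 h3 h4
      simp only [Int.ofNat_eq_natCast, zpow_natCast]
      rw [h4, h3, norm_pow, ← mul_pow]
      exact pow_le_pow_left₀ (norm_nonneg _) h2.2 _
    · refine ⟨c⁻¹ ^ (n + 1), ?_⟩
      filter_upwards [br_fst F hb', vl_rat F h1 hl p s A hA,
        vl_pow F h1 hl p (aeval F.t s / aeval F.t A) (n + 1),
        br_fst F (l := l) (P := fun z => z ≠ p) self_mem_nhdsWithin] with x h2 h3 h4 h5
      rw [zpow_negSucc, zpow_negSucc, ← inv_pow, inv_div, h4, h3, norm_pow, ← inv_pow, ← mul_pow]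
      refine pow_le_pow_left₀ (norm_nonneg _) ?_ _
      have h6 : 0 < ‖x.1 - p‖ := norm_pos_iff.mpr (sub_ne_zero.mpr h5)
      rw [rf, ← inv_div, norm_inv, ← mul_inv]
      exact inv_anti₀ (mul_pos hc h6) h2.1
  obtain ⟨E, hE⟩ := hpow
  refine ⟨D * E, (br_iff F (P := fun c => ‖vl F l a c‖ ≤ D * E * ‖c.1 - p‖ ^ n)).mp ?_⟩
  filter_upwards [hD, hE, vl_mul F h1 hl p (a / (aeval F.t A / aeval F.t s) ^ n)
    ((aeval F.t A / aeval F.t s) ^ n)] with x h2 h3 h4
  rw [div_mul_cancel₀ _ (zpow_ne_zero n hπ0)] at h4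
  rw [h4, norm_mul, mul_assoc]
  exact mul_le_mul h2 h3 (norm_nonneg _) ((norm_nonneg _).trans h2)

theorem zt_bd (l : ℝ) (p : ℂ) : ∃ B : ℝ, ∀ᶠ z in 𝓝[≠] p, ‖z - p‖ * ‖zt l z‖ ≤ B := by
  have key : ∀ g : ℂ → ℂ, ContinuousAt g p → (∀ᶠ z in 𝓝[≠] p, (z - p) * zt l z = g z) →
      ∃ B : ℝ, ∀ᶠ z in 𝓝[≠] p, ‖z - p‖ * ‖zt l z‖ ≤ B := by
    intro g hg h
    refine ⟨‖g p‖ + 1, ?_⟩
    filter_upwards [h, (hg.norm.tendsto.mono_left nhdsWithin_le_nhds).eventually
      (ge_mem_nhds (lt_add_one _))] with z h2 h3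
    rwa [← norm_mul, h2]
  by_cases hp : p = 1
  · subst hp
    refine key (fun z => -(Complex.I * l * (1 + z))) (by fun_prop) ?_
    filter_upwards [self_mem_nhdsWithin] with z hz
    have h1z : 1 - z ≠ 0 := sub_ne_zero.mpr (Ne.symm hz)
    rw [zt]
    field_simp
    ring
  · exact key _ ((continuousAt_id.sub continuousAt_const).mul (zt_cont l hp))
      (Eventually.of_forall fun z => rfl)

theorem part5 {l : ℝ} (hl : 0 < l) {p : ℂ} {π : K} (hπ : F.Unif l p π) : ∃ a₀ : ℕ,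
    ∀ (σ : Type) [Fintype σ] (δ : ℝ[X]) (k : ℕ) (ξ ξ' : σ → K) O,
    F.Over l p O → Jet k (F.X0 l δ ξ') p (F.X0 l δ ξ) → ∀ s, (ξ s - ξ' s) * π ^ a₀ / π ^ k ∈ O := by
  set e := ∑ j ∈ Finset.range F.d, (F.Q.coeff j).natDegree with he
  refine ⟨e * F.d, fun σ _ δ k ξ ξ' O hO hJ x => ?_⟩
  have hπO : π ∈ O := O.nonunits_subset (part3 F hπ hO).2
  obtain ⟨A, s, hA, hs, hπ', c, hc, C, hb⟩ := hπ
  have hR : ∀ r : ℝ, algebraMap ℝ K r ∈ O := fun r => by
    simpa using (hO (Polynomial.C r) 1 one_ne_zero).mpr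
      ⟨‖r‖, Eventually.of_forall fun z => by simp [cx1]⟩
  have hπt : π * F.t ∈ O := by
    obtain ⟨B, hB⟩ := zt_bd l p
    have := (hO (A * X) s hs).mpr ⟨|C| * B, by
      filter_upwards [hb, hB] with z h2 h3
      rw [cx1_eval, cx1_eval] at h2 ⊢
      rw [map_mul, aeval_X, mul_div_right_comm, norm_mul]
      calc _ ≤ |C| * ‖z - p‖ * ‖zt l z‖ := by
            have := le_abs_self C
            gcongr
            exact h2.2.trans (by gcongr)
        _ ≤ |C| * B := by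
            rw [mul_assoc]
            gcongr⟩
    rwa [map_mul, aeval_X, mul_div_right_comm, ← hπ'] at this
  have hq : ∀ (q : ℝ[X]) (m : ℕ), q.natDegree ≤ m → π ^ m * aeval F.t q ∈ O := by
    intro q m hm
    rw [aeval_eq_sum_range, Finset.mul_sum]
    refine sum_mem fun j hj => ?_
    obtain ⟨i, rfl⟩ := Nat.exists_eq_add_of_le
      ((Nat.lt_succ_iff.mp (Finset.mem_range.mp hj)).trans hm)
    have := O.mul_mem _ _ (hR (q.coeff j)) (O.mul_mem _ _ (pow_mem hπt j) (pow_mem hπO i))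
    convert this using 1
    rw [Algebra.smul_def]
    ring
  have hT : π ^ e * F.T ∈ O := by
    refine mem_of_eq O _ F.d (fun j => π ^ (e * (F.d - j)) * aeval F.t (F.Q.coeff j))
      (fun j hj => hq _ _ ?_) ?_
    · calc _ ≤ e := Finset.single_le_sum (f := fun j => (F.Q.coeff j).natDegree)
            (fun _ _ => Nat.zero_le _) (Finset.mem_range.mpr hj)
        _ ≤ e * (F.d - j) := Nat.le_mul_of_pos_right _ (by omega)
    · have h2 := congrArg (fun y => (π ^ e) ^ F.d * y) (Q_eq F)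
      simp only [mul_zero, mul_add, Finset.mul_sum] at h2
      rw [← h2, mul_pow]
      congr 1
      refine Finset.sum_congr rfl fun j hj => ?_
      obtain ⟨i, hi⟩ := Nat.exists_eq_add_of_le (Finset.mem_range.mp hj).le
      rw [hi, Nat.add_sub_cancel_left]
      ring
  obtain ⟨d1, r1⟩ := rep_eq F (ξ x)
  obtain ⟨d2, r2⟩ := rep_eq F (ξ' x)
  rw [r1, r2, ← Finset.sum_sub_distrib, Finset.sum_mul, Finset.sum_div]
  refine sum_mem fun j hj => ?_
  have hj' := Finset.mem_range.mp hj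
  set N := (F.num (ξ x)).coeff j
  set N' := (F.num (ξ' x)).coeff j
  set D := F.den (ξ x)
  set D' := F.den (ξ' x)
  have h3 : aeval F.t ((N * D' - N' * D) * s ^ k) / aeval F.t (D * D' * A ^ k) ∈ O := by
    refine (hO _ _ (mul_ne_zero (mul_ne_zero d1 d2) (pow_ne_zero _ hA))).mpr ?_
    obtain ⟨M, hM0, hM⟩ := hJ.exists_pos
    refine ⟨M * c⁻¹ ^ k, ?_⟩
    filter_upwards [hM.bound, hb, ev_ne hl p d1, ev_ne hl p d2, ev_ne hl p hA, ev_ne hl p hs,
      self_mem_nhdsWithin] with z h4 h5 h6 h7 h8 h9 h10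
    have h11 : ‖F.cf j (ξ x) (zt l z) - F.cf j (ξ' x) (zt l z)‖ ≤ M * ‖z - p‖ ^ k := by
      rw [norm_pow] at h4
      refine le_trans ?_ h4
      exact ((norm_le_pi_norm ((F.X0 l δ ξ z - F.X0 l δ ξ' z).2.1 ⟨j, hj'⟩) x).trans
        (norm_le_pi_norm _ _)).trans ((norm_fst_le _).trans (norm_snd_le _))
    have h12 : 0 < ‖z - p‖ := norm_pos_iff.mpr (sub_ne_zero.mpr h10)
    have h13 : (cx1 ((N * D' - N' * D) * s ^ k)).eval (zt l z) / (cx1 (D * D' * A ^ k)).eval (zt l z) =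
        (F.cf j (ξ x) (zt l z) - F.cf j (ξ' x) (zt l z)) *
          ((cx1 A).eval (zt l z) / (cx1 s).eval (zt l z))⁻¹ ^ k := by
      have e1 : F.cf j (ξ x) (zt l z) = aeval (zt l z) N / aeval (zt l z) D := rf_eq l N D z
      have e2 : F.cf j (ξ' x) (zt l z) = aeval (zt l z) N' / aeval (zt l z) D' := rf_eq l N' D' z
      simp only [e1, e2, cx1_eval, map_mul, map_sub, map_pow, inv_div, div_pow]
      field_simp
    rw [h13, norm_mul, norm_pow, norm_inv]
    calc _ ≤ M * ‖z - p‖ ^ k * (c * ‖z - p‖)⁻¹ ^ k := by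
          gcongr
          exact h5.1
      _ = M * c⁻¹ ^ k := by
          rw [mul_inv, mul_pow, inv_pow ‖z - p‖]
          field_simp
  obtain ⟨i, hi⟩ := Nat.exists_eq_add_of_le hj'.le
  have h4 := O.mul_mem _ _ h3 (O.mul_mem _ _ (pow_mem hT j) (pow_mem hπO (e * i)))
  have := t_ne F d1
  have := t_ne F d2
  have := t_ne F hA
  have := t_ne F hs
  convert h4 using 1
  rw [hi, mul_add, pow_add, mul_pow, ← pow_mul]
  generalize π ^ (e * j) = u
  generalize π ^ (e * i) = v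
  simp only [hπ', map_mul, map_sub, map_pow, div_pow]
  field_simp

end

end Pl1

theorem Pl1_of (h1 : S_Spr) : S_Pl1 := fun _ _ _ F _ hl =>
  ⟨Pl1.part1 F hl, fun p _ => Pl1.part2 F hl p, fun _ _ _ => Pl1.part3 F,
    fun _ _ n a => Pl1.part4 F h1 hl n a, fun _ _ => Pl1.part5 F hl⟩

end Pool.Agent.P.MP_daea48_ag
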