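import Pool.Agent.P.MP_daea48_ag.StK

/-! Places of the function field: rational functions of `t` near a point of the `z`-disc. -/

open Set Filter Topology Metric Polynomial
open scoped ComplexConjugate

namespace Pool.Agent.P.MP_daea48_ag

namespace Pl1

noncomputable section

open Classical

/-- `A / s` as a function of `z`. -/
def rf (l : ℝ) (A s : ℝ[X]) (z : ℂ) : ℂ := (cx1 A).eval (zt l z) / (cx1 s).eval (zt l z)

/-- Bounded near `p`. -/
def Bdd (l : ℝ) (p : ℂ) (A s : ℝ[X]) : Prop := ∃ C : ℝ, ∀ᶠ z in 𝓝[≠] p, ‖rf l A s z‖ ≤ C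

theorem cx1_eval (q : ℝ[X]) (w : ℂ) : (cx1 q).eval w = aeval w q := by
  simp [cx1, eval_map_algebraMap]

theorem rf_eq (l : ℝ) (A s : ℝ[X]) (z : ℂ) : rf l A s z = aeval (zt l z) A / aeval (zt l z) s := by
  simp [rf, cx1_eval]

theorem zt_tendsto {l : ℝ} (hl : 0 < l) : Tendsto (zt l) cofinite cofinite := by
  refine Tendsto.cofinite_of_finite_preimage_singleton fun w => ?_
  refine Set.Finite.subset (Set.toFinite {1, (w - Complex.I * l) / (w + Complex.I * l)}) ?_
  intro z hz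
  simp only [mem_preimage, mem_singleton_iff] at hz
  by_cases h1 : z = 1
  · exact Or.inl h1
  right
  have h2 : (1 - z) ≠ 0 := sub_ne_zero.mpr (Ne.symm h1)
  have hl' : (l : ℂ) ≠ 0 := by exact_mod_cast hl.ne'
  rw [zt, div_eq_iff h2] at hz
  have h3 : w + Complex.I * l ≠ 0 := by
    intro h
    have : (2 * Complex.I * l : ℂ) = 0 := by linear_combination hz + (1 - z) * h
    simp [hl'] at this
  rw [mem_singleton_iff, eq_div_iff h3]
  linear_combination hz

theorem ev_ne {l : ℝ} (hl : 0 < l) (p : ℂ) {s : ℝ[X]} (hs : s ≠ 0) :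
    ∀ᶠ z in 𝓝[≠] p, aeval (zt l z) s ≠ 0 := by
  have h1 : cx1 s ≠ 0 := by
    simpa [cx1] using hs
  have h2 := (zt_tendsto hl).eventually (eventually_cofinite_not_isRoot h1)
  refine (h2.filter_mono (nhdsNE_le_cofinite p)).mono fun z hz => ?_
  rwa [IsRoot.def, cx1_eval] at hz

theorem mero_aeval (l : ℝ) (p : ℂ) (A : ℝ[X]) : MeromorphicAt (fun z => aeval (zt l z) A) p := by
  have hz : MeromorphicAt (zt l) p := by
    unfold zt
    fun_prop
  induction A using Polynomial.induction_on' with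
  | add a b ha hb => simpa using ha.fun_add hb
  | monomial n a =>
    simp only [aeval_monomial]
    exact (MeromorphicAt.const _ _).fun_mul (hz.fun_pow n)

theorem mero_rf (l : ℝ) (p : ℂ) (A s : ℝ[X]) : MeromorphicAt (rf l A s) p := by
  have : rf l A s = fun z => aeval (zt l z) A / aeval (zt l z) s := funext (rf_eq l A s)
  rw [this]
  exact (mero_aeval l p A).fun_div (mero_aeval l p s)

theorem bdd_of_tendsto {l : ℝ} {p : ℂ} {A s : ℝ[X]} {c : ℂ}
    (h : Tendsto (rf l A s) (𝓝[≠] p) (𝓝 c)) : Bdd l p A s :=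
  ⟨‖c‖ + 1, (h.norm.eventually (ge_mem_nhds (lt_add_one _)))⟩

theorem bdd_of_ord {l : ℝ} {p : ℂ} {A s : ℝ[X]} (h : 0 ≤ meromorphicOrderAt (rf l A s) p) :
    Bdd l p A s := by
  obtain ⟨c, hc⟩ := tendsto_nhds_of_meromorphicOrderAt_nonneg (mero_rf l p A s) h
  exact bdd_of_tendsto hc

/-- An unbounded function dominates every other one after taking powers. -/
theorem bdd_pow {l : ℝ} {p : ℂ} {A s : ℝ[X]} (h : ¬ Bdd l p A s) (B u : ℝ[X]) :
    ∃ k : ℕ, Bdd l p (B * s ^ k) (u * A ^ k) := by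
  have h1 : meromorphicOrderAt (rf l A s) p < 0 := not_le.mp fun h' => h (bdd_of_ord h')
  have key : ∀ k : ℕ, rf l (B * s ^ k) (u * A ^ k) = rf l B u * (rf l A s)⁻¹ ^ k := by
    intro k
    funext z
    simp only [rf_eq, map_mul, map_pow, Pi.mul_apply, Pi.pow_apply, Pi.inv_apply, inv_div, div_pow,
      mul_div_mul_comm]
  have ord : ∀ k : ℕ, meromorphicOrderAt (rf l (B * s ^ k) (u * A ^ k)) p =
      meromorphicOrderAt (rf l B u) p + k * -meromorphicOrderAt (rf l A s) p := by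
    intro k
    rw [key, meromorphicOrderAt_mul (mero_rf l p B u) ((mero_rf l p A s).inv.pow k),
      meromorphicOrderAt_pow (mero_rf l p A s).inv, meromorphicOrderAt_inv]
  obtain ⟨m, hm⟩ := WithTop.ne_top_iff_exists.mp h1.ne_top
  rw [← hm] at h1 ord
  have h2 : m < 0 := by exact_mod_cast h1
  by_cases ht : meromorphicOrderAt (rf l B u) p = ⊤
  · refine ⟨0, bdd_of_ord ?_⟩
    rw [ord, ht]
    simp
  obtain ⟨n, hn⟩ := WithTop.ne_top_iff_exists.mp ht
  refine ⟨n.natAbs, bdd_of_ord ?_⟩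
  rw [ord, ← hn]
  have h3 : (0 : ℤ) ≤ n + (n.natAbs : ℤ) * -m := by
    have : |n| * 1 ≤ |n| * -m := mul_le_mul_of_nonneg_left (by omega) (abs_nonneg n)
    have := neg_abs_le n
    rw [Int.natCast_natAbs]
    linarith
  have h4 : ((n.natAbs : ℕ) : WithTop ℤ) = (((n.natAbs : ℕ) : ℤ) : WithTop ℤ) :=
    (WithTop.coe_natCast _).symm
  rw [h4]
  exact_mod_cast h3

variable {K : Type} [Field K]

/-- Valuation subrings are integrally closed, in coordinates. -/
theorem mem_of_eq (O : ValuationSubring K) (x : K) (d : ℕ) (c : ℕ → K) (hc : ∀ j < d, c j ∈ O)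
    (h : x ^ d + ∑ j ∈ Finset.range d, c j * x ^ j = 0) : x ∈ O := by
  by_contra hx
  have hx0 : x ≠ 0 := fun h0 => hx (h0 ▸ O.zero_mem)
  have hu : x⁻¹ ∈ O := (O.mem_or_inv_mem x).resolve_left hx
  rcases d with _ | d
  · simp at h
  apply hx
  have : x = -∑ j ∈ Finset.range (d + 1), c j * x⁻¹ ^ (d - j) := by
    have h2 : ∑ j ∈ Finset.range (d + 1), c j * x⁻¹ ^ (d - j) =
        (∑ j ∈ Finset.range (d + 1), c j * x ^ j) * x⁻¹ ^ d := by
      rw [Finset.sum_mul]
      refine Finset.sum_congr rfl fun j hj => ?_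
      obtain ⟨e, he⟩ := Nat.exists_eq_add_of_le (Nat.lt_succ_iff.mp (Finset.mem_range.mp hj))
      rw [he, Nat.add_sub_cancel_left, pow_add, inv_pow, inv_pow]
      field_simp
    rw [h2, eq_neg_of_add_eq_zero_right h, inv_pow]
    field_simp
    ring
  rw [this]
  exact O.neg_mem _ (sum_mem fun j hj =>
    O.mul_mem _ _ (hc j (Finset.mem_range.mp hj)) (pow_mem hu _))

variable [Algebra ℝ K] (F : FF K)

theorem aevalAeval_eq (A : ℝ[X][X]) (n : ℕ) (hn : A.natDegree < n) :
    aevalAeval F.t F.T A = ∑ j ∈ Finset.range n, aeval F.t (A.coeff j) * F.T ^ j := by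
  conv_lhs => rw [A.as_sum_range' n hn]
  simp [← C_mul_X_pow_eq_monomial]

theorem t_ne {s : ℝ[X]} (hs : s ≠ 0) : aeval F.t s ≠ 0 := by
  intro h
  have h1 : F.Q ∣ C s := (F.ker _).mp (by simpa using h)
  have h2 := natDegree_le_of_dvd h1 (by simpa using hs)
  have := F.pos
  simp at h2
  omega

theorem Q_eq : F.T ^ F.d + ∑ j ∈ Finset.range F.d, aeval F.t (F.Q.coeff j) * F.T ^ j = 0 := by
  have h := (F.ker F.Q).mpr dvd_rfl
  rw [aevalAeval_eq F _ _ (Nat.lt_succ_self _), Finset.sum_range_succ, F.monic.coeff_natDegree,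
    map_one, one_mul, add_comm] at h
  exact h

theorem rep_eq (a : K) : F.den a ≠ 0 ∧
    a = ∑ j ∈ Finset.range F.d, aeval F.t ((F.num a).coeff j) / aeval F.t (F.den a) * F.T ^ j := by
  obtain ⟨h1, h2, h3⟩ := (F.rep a).choose_spec
  refine ⟨h1, ?_⟩
  have h4 : (F.num a).natDegree < F.d := by
    by_cases h0 : F.num a = 0
    · rw [h0]
      exact F.pos
    · exact natDegree_lt_natDegree h0 h2
  have h5 : a * aeval F.t (F.den a) = aevalAeval F.t F.T (F.num a) := h3
  rw [aevalAeval_eq F _ _ h4] at h5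
  have h6 : aeval F.t (F.den a) ≠ 0 := t_ne F h1
  refine (eq_div_of_mul_eq h6 h5).trans ?_
  rw [Finset.sum_div]
  exact Finset.sum_congr rfl fun j _ => by ring

/-- A valuation subring containing all rational functions of `t` is everything. -/
theorem eq_top (O : ValuationSubring K)
    (h : ∀ B u : ℝ[X], u ≠ 0 → aeval F.t B / aeval F.t u ∈ O) : O = ⊤ := by
  have hT : F.T ∈ O := mem_of_eq O F.T F.d _ (fun j _ => by simpa using h (F.Q.coeff j) 1 one_ne_zero)
    (Q_eq F)
  refine eq_top_iff.mpr fun a _ => ?_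
  rw [(rep_eq F a).2]
  exact sum_mem fun j _ => O.mul_mem _ _ (h _ _ (rep_eq F a).1) (pow_mem hT _)

/-- A proper valuation subring containing the bounded functions lies over `p`. -/
theorem over_of {l : ℝ} {p : ℂ} (O : ValuationSubring K) (hO : O ≠ ⊤)
    (h : ∀ A s : ℝ[X], s ≠ 0 → Bdd l p A s → aeval F.t A / aeval F.t s ∈ O) : F.Over l p O := by
  intro A s hs
  refine ⟨fun hA => ?_, h A s hs⟩
  by_contra hb
  have hA0 : A ≠ 0 := by
    rintro rfl
    exact hb ⟨0, Eventually.of_forall fun z => by simp [cx1]⟩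
  refine hO (eq_top F O fun B u hu => ?_)
  obtain ⟨k, hk⟩ := bdd_pow (l := l) (p := p) hb B u
  have h1 := O.mul_mem _ _ (h _ _ (mul_ne_zero hu (pow_ne_zero _ hA0)) hk) (pow_mem hA k)
  have h2 := t_ne F hA0
  have h3 := t_ne F hs
  have h4 := t_ne F hu
  convert h1 using 1
  simp only [map_mul, map_pow, div_pow]
  field_simp

theorem aeval_mem (O : ValuationSubring K) (hR : ∀ r : ℝ, algebraMap ℝ K r ∈ O) {x : K}
    (hx : x ∈ O) (q : ℝ[X]) : aeval x q ∈ O := by
  rw [aeval_eq_sum_range]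
  exact sum_mem fun j _ => by
    rw [Algebra.smul_def]
    exact O.mul_mem _ _ (hR _) (pow_mem hx _)

theorem zt_cont (l : ℝ) {p : ℂ} (hp : p ≠ 1) : ContinuousAt (zt l) p := by
  unfold zt
  have : 1 - p ≠ 0 := sub_ne_zero.mpr hp.symm
  fun_prop (disch := assumption)

theorem zt_inf {l : ℝ} (hl : 0 < l) : Tendsto (zt l) (𝓝[≠] 1) (Bornology.cobounded ℂ) := by
  have hl' : (l : ℂ) ≠ 0 := by exact_mod_cast hl.ne'
  have h1 : Tendsto (fun z : ℂ => (1 - z) / (Complex.I * l * (1 + z))) (𝓝[≠] 1) (𝓝[≠] 0) := by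
    have h2 : ContinuousAt (fun z : ℂ => (1 - z) / (Complex.I * l * (1 + z))) 1 := by
      have : Complex.I * l * (1 + 1) ≠ 0 := by simp [hl']
      fun_prop (disch := assumption)
    refine tendsto_nhdsWithin_iff.mpr ⟨?_, ?_⟩
    · simpa using h2.tendsto.mono_left nhdsWithin_le_nhds
    · have h3 : ∀ᶠ z : ℂ in 𝓝[≠] 1, z ≠ -1 :=
        nhdsWithin_le_nhds (eventually_ne_nhds (by norm_num))
      filter_upwards [h3, self_mem_nhdsWithin] with z hz hz1
      have h4 : 1 + z ≠ 0 := fun h => hz (by linear_combination h)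
      have h5 : 1 - z ≠ 0 := sub_ne_zero.mpr (Ne.symm hz1)
      simp [hl', h4, h5]
  refine (tendsto_inv₀_nhdsNE_zero.comp h1).congr fun z => ?_
  simp [zt]

theorem part1_inf {l : ℝ} (hl : 0 < l) (O : ValuationSubring K) (hO : IsPlace O) (ht : F.t ∉ O) :
    F.Over l 1 O := by
  refine over_of F O hO.1 fun A s hs ⟨C, hC⟩ => ?_
  by_cases hA : A = 0
  · simp [hA]
  have hdeg : A.natDegree ≤ s.natDegree := by
    by_contra hlt
    have h1 : (cx1 s).degree < (cx1 A).degree := by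
      simp only [cx1, degree_map]
      exact degree_lt_degree (not_le.mp hlt)
    have h2 := (isLittleO_cobounded_of_degree_lt h1).comp_tendsto (zt_inf hl)
    have hC0 : 0 < |C| + 1 := by positivity
    have h3 := h2.def (c := 1 / (2 * (|C| + 1))) (by positivity)
    obtain ⟨z, hz1, hz2, hz3⟩ := (hC.and (h3.and (ev_ne hl 1 hs))).exists
    simp only [Function.comp, cx1_eval] at hz2
    rw [rf_eq, norm_div, div_le_iff₀ (norm_pos_iff.mpr hz3)] at hz1
    have h4 := norm_pos_iff.mpr hz3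
    have h5 : C * ‖aeval (zt l z) s‖ ≤ (|C| + 1) * ‖aeval (zt l z) s‖ := by
      have := le_abs_self C
      gcongr
      linarith
    rw [one_div, inv_mul_eq_div, le_div_iff₀ (by positivity)] at hz2
    nlinarith
  have : O.valuation.IsTrivialOn ℝ := ⟨fun r hr => by
    have h1 := (O.valuation_le_one_iff _).mpr (hO.2 r)
    have h2 := (O.valuation_le_one_iff _).mpr (hO.2 r⁻¹)
    have h3 : O.valuation (algebraMap ℝ K r) ≠ 0 := by simpa using hr
    rw [map_inv₀, map_inv₀, inv_le_one₀ (zero_lt_iff.mpr h3)] at h2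
    exact le_antisymm h1 h2⟩
  have h1 : 1 < O.valuation F.t := not_le.mp fun h => ht ((O.valuation_le_one_iff _).mp h)
  rw [← O.valuation_le_one_iff, map_div₀,
    valuation_aeval_eq_valuation_X_pow_natDegree_of_one_lt_valuation_X _ h1 hA,
    valuation_aeval_eq_valuation_X_pow_natDegree_of_one_lt_valuation_X _ h1 hs,
    div_le_one₀ (pow_pos (zero_lt_one.trans h1) _)]
  exact pow_le_pow_right₀ h1.le hdeg

theorem part1_fin {l : ℝ} (hl : 0 < l) (O : ValuationSubring K) (hO : IsPlace O) (ht : F.t ∈ O) :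
    ∃ p, ‖p‖ ≤ 1 ∧ F.Over l p O := by
  let φ : ℝ[X] →+* O := (aeval F.t : ℝ[X] →ₐ[ℝ] K).toRingHom.codRestrict O.toSubring
    (aeval_mem O hO.2 ht)
  let P : Ideal ℝ[X] := (IsLocalRing.maximalIdeal O).comap φ
  have hP : ∀ s, s ∈ P ↔ aeval F.t s ∈ O.nonunits := fun s => (O.coe_mem_nonunits_iff (a := φ s)).symm
  have hu : ∀ A s : ℝ[X], s ∉ P → aeval F.t A / aeval F.t s ∈ O := by
    intro A s hs
    rw [hP, O.mem_nonunits_iff_or, not_or, not_not] at hs
    rw [div_eq_mul_inv]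
    exact O.mul_mem _ _ (aeval_mem O hO.2 ht A) hs.2
  have hP0 : P ≠ ⊥ := fun h => hO.1 (eq_top F O fun B u hu0 => hu B u (by simpa [h] using hu0))
  obtain ⟨q, hq⟩ : ∃ q, P = Ideal.span {q} := ⟨_, (Ideal.span_singleton_generator P).symm⟩
  have hq0 : q ≠ 0 := fun h => hP0 (by simp [hq, h])
  have hqp : Prime q := (Ideal.span_singleton_prime hq0).mp (hq ▸ Ideal.comap_isPrime φ _)
  obtain ⟨t₀, ht₀, him⟩ : ∃ t₀ : ℂ, aeval t₀ q = 0 ∧ 0 ≤ t₀.im := by
    obtain ⟨w, hw⟩ := IsAlgClosed.exists_aeval_eq_zero ℂ q hqp.irreducible.degree_pos.ne'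
    rcases le_total 0 w.im with h | h
    · exact ⟨w, hw, h⟩
    · refine ⟨conj w, ?_, by simpa using h⟩
      rw [Polynomial.aeval_conj, hw, map_zero]
  have hdvd : ∀ A : ℝ[X], aeval t₀ A = 0 → q ∣ A := by
    intro A hA
    refine (hqp.irreducible.isCoprime_or_dvd A).resolve_left fun ⟨a, b, hab⟩ => ?_
    have := congrArg (aeval t₀) hab
    simp [hA, ht₀] at this
  have hl' : (l : ℂ) ≠ 0 := by exact_mod_cast hl.ne'
  have hden : t₀ + Complex.I * l ≠ 0 := by
    intro h
    have := congrArg Complex.im h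
    simp at this
    linarith
  set p : ℂ := (t₀ - Complex.I * l) / (t₀ + Complex.I * l) with hp
  have h1p : 1 - p = 2 * Complex.I * l / (t₀ + Complex.I * l) := by
    rw [hp]
    field_simp
    ring
  have hp1 : p ≠ 1 := by
    intro h
    rw [h, sub_self, eq_comm] at h1p
    simp [hl', hden] at h1p
  have hzt : zt l p = t₀ := by
    rw [zt, h1p, hp]
    have := Complex.I_ne_zero
    field_simp
    ring
  refine ⟨p, ?_, over_of F O hO.1 ?_⟩
  · rw [hp, norm_div, div_le_one (norm_pos_iff.mpr hden), ← sq_le_sq₀ (norm_nonneg _) (norm_nonneg _),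
      Complex.sq_norm, Complex.sq_norm, Complex.normSq_apply, Complex.normSq_apply]
    simp
    nlinarith
  have hlim : ∀ A : ℝ[X], Tendsto (fun z => aeval (zt l z) A) (𝓝[≠] p) (𝓝 (aeval t₀ A)) := by
    intro A
    have := ((Polynomial.continuous_aeval (A := ℂ) A).continuousAt.comp (zt_cont l hp1)).tendsto
    rw [Function.comp_apply, hzt] at this
    exact this.mono_left nhdsWithin_le_nhds
  intro A s
  induction hn : s.natDegree using Nat.strong_induction_on generalizing A s with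
  | _ n ih =>
  intro hs ⟨C, hC⟩
  by_cases hsP : s ∈ P
  swap
  · exact hu A s hsP
  rw [hq, Ideal.mem_span_singleton] at hsP
  obtain ⟨s', rfl⟩ := hsP
  have hs' : s' ≠ 0 := right_ne_zero_of_mul hs
  have hA : aeval t₀ A = 0 := by
    have h1 : Tendsto (fun z => C * ‖aeval (zt l z) (q * s')‖) (𝓝[≠] p) (𝓝 0) := by
      simpa [ht₀] using (hlim (q * s')).norm.const_mul C
    have h2 := le_of_tendsto_of_tendsto (hlim A).norm h1 (by
      filter_upwards [hC, ev_ne hl p hs] with z hz hz'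
      rwa [rf_eq, norm_div, div_le_iff₀ (norm_pos_iff.mpr hz')] at hz)
    exact norm_le_zero_iff.mp h2
  obtain ⟨A', rfl⟩ := hdvd A hA
  have hlt : s'.natDegree < n := by
    rw [← hn, natDegree_mul hq0 hs']
    have := hqp.irreducible.natDegree_pos
    omega
  have h3 := ih _ hlt A' s' rfl hs' ⟨C, by
    filter_upwards [hC, ev_ne hl p hq0] with z hz hz'
    rwa [rf_eq, map_mul, map_mul, mul_div_mul_left _ _ hz', ← rf_eq] at hz⟩
  rwa [map_mul, map_mul, mul_div_mul_left _ _ (t_ne F hq0)]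

theorem part1 {l : ℝ} (hl : 0 < l) (O : ValuationSubring K) (hO : IsPlace O) :
    ∃ p, ‖p‖ ≤ 1 ∧ F.Over l p O := by
  by_cases ht : F.t ∈ O
  · exact part1_fin F hl O hO ht
  · exact ⟨1, by simp, part1_inf F hl O hO ht⟩

theorem simple_zero {f g : ℂ → ℂ} {p : ℂ} (h : ∀ᶠ z in 𝓝[≠] p, f z = (z - p) * g z)
    (hg : ContinuousAt g p) (h0 : g p ≠ 0) : ∃ c > 0, ∃ C : ℝ,
      ∀ᶠ z in 𝓝[≠] p, c * ‖z - p‖ ≤ ‖f z‖ ∧ ‖f z‖ ≤ C * ‖z - p‖ := by
  have h1 := norm_pos_iff.mpr h0
  have h2 : Tendsto (fun z => ‖g z‖) (𝓝[≠] p) (𝓝 ‖g p‖) :=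
    hg.norm.tendsto.mono_left nhdsWithin_le_nhds
  refine ⟨‖g p‖ / 2, by positivity, ‖g p‖ + 1, ?_⟩
  filter_upwards [h, h2.eventually (le_mem_nhds (half_lt_self h1)),
    h2.eventually (ge_mem_nhds (lt_add_one _))] with z hz h3 h4
  rw [hz, norm_mul, mul_comm ‖z - p‖]
  constructor <;> gcongr

theorem part2 {l : ℝ} (hl : 0 < l) (p : ℂ) : ∃ π, F.Unif l p π := by
  have hl' : (l : ℂ) ≠ 0 := by exact_mod_cast hl.ne'
  have hI := Complex.I_ne_zero
  by_cases hp : p = 1
  · subst hp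
    refine ⟨_, 1, X, one_ne_zero, X_ne_zero, rfl, simple_zero
      (g := fun z => -1 / (Complex.I * l * (1 + z))) (Eventually.of_forall fun z => ?_) ?_ ?_⟩
    · simp only [cx1_eval, map_one, aeval_X, zt, one_div, inv_div]
      ring
    · have : Complex.I * l * (1 + 1) ≠ 0 := by simp [hl']
      fun_prop (disch := assumption)
    · simp [hl']
  have h1p : 1 - p ≠ 0 := sub_ne_zero.mpr (Ne.symm hp)
  have hev : ∀ᶠ z in 𝓝[≠] p, zt l z - zt l p = (z - p) * (2 * Complex.I * l / ((1 - z) * (1 - p))) := by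
    filter_upwards [nhdsWithin_le_nhds (eventually_ne_nhds hp)] with z hz
    have h1z : 1 - z ≠ 0 := sub_ne_zero.mpr (Ne.symm hz)
    simp only [zt]
    field_simp
    ring
  have hc : ContinuousAt (fun z => 2 * Complex.I * l / ((1 - z) * (1 - p))) p := by
    have := mul_ne_zero h1p h1p
    fun_prop (disch := assumption)
  have h0 : 2 * Complex.I * l / ((1 - p) * (1 - p)) ≠ 0 := by simp [hl', h1p]
  by_cases him : (zt l p).im = 0
  · refine ⟨_, X - C (zt l p).re, 1, X_sub_C_ne_zero _, one_ne_zero, rfl,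
      simple_zero (hev.mono fun z hz => ?_) hc h0⟩
    have : ((zt l p).re : ℂ) = zt l p := Complex.ext (by simp) (by simp [him])
    simp only [cx1_eval, map_one, div_one, map_sub, aeval_X, aeval_C, Complex.coe_algebraMap, this, hz]
  · refine ⟨_, X ^ 2 - C (2 * (zt l p).re) * X + C (‖zt l p‖ ^ 2), 1, ?_, one_ne_zero, rfl,
      simple_zero (g := fun z => 2 * Complex.I * l / ((1 - z) * (1 - p)) * (zt l z - conj (zt l p)))
        (hev.mono fun z hz => ?_) (hc.mul ((zt_cont l hp).sub continuousAt_const))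
        (mul_ne_zero h0 ?_)⟩
    · intro h
      have := congrArg (fun q : ℝ[X] => q.coeff 2) h
      simp [-map_pow] at this
    · have h1 := Complex.add_conj (zt l p)
      have h2 := Complex.mul_conj' (zt l p)
      simp only [cx1_eval, map_one, div_one, map_sub, map_add, map_mul, map_pow, aeval_X, aeval_C,
        Complex.coe_algebraMap]
      rw [← mul_assoc, ← hz]
      push_cast at h1 ⊢
      linear_combination (zt l z) * h1 - h2
    · intro h
      have := congrArg Complex.im h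
      simp at this
      exact him this

theorem part3 {l : ℝ} {p : ℂ} {π : K} {O : ValuationSubring K} (hπ : F.Unif l p π)
    (hO : F.Over l p O) : π ≠ 0 ∧ π ∈ O.nonunits := by
  obtain ⟨A, s, hA, hs, rfl, c, hc, C, h⟩ := hπ
  refine ⟨div_ne_zero (t_ne F hA) (t_ne F hs), O.mem_nonunits_iff_or.mpr (Or.inr fun h1 => ?_)⟩
  rw [inv_div] at h1
  obtain ⟨D, hD⟩ := (hO s A hA).mp h1
  have h2 : Tendsto (fun z => |D| * (C * ‖z - p‖)) (𝓝[≠] p) (𝓝 (|D| * (C * ‖p - p‖))) :=
    (Continuous.tendsto (by fun_prop) p).mono_left nhdsWithin_le_nhds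
  have h3 := ge_of_tendsto (b := 1) h2 (by
    filter_upwards [h, hD, self_mem_nhdsWithin] with z hz hz' hzp
    have h4 : 0 < ‖z - p‖ := norm_pos_iff.mpr (sub_ne_zero.mpr hzp)
    have h5 := (mul_pos hc h4).trans_le hz.1
    rw [← inv_div, norm_inv, inv_le_iff_one_le_mul₀ h5] at hz'
    refine hz'.trans ?_
    exact (mul_le_mul_of_nonneg_right (le_abs_self D) h5.le).trans
      (mul_le_mul_of_nonneg_left hz.2 (abs_nonneg D)))
  simp at h3
  linarith

end

end Pl1

end Pool.Agent.P.MP_daea48_ag
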