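import Pool.Agent.P.MP_daea48_ag.StK

/-! Package Pl2: finitely many places over a point, and approximation at them. -/

open Set Filter Topology Polynomial IsDedekindDomain

namespace Pool.Agent.P.MP_daea48_ag

namespace Pl2

/-- A valuation ring containing the coefficients contains every integral element. -/
theorem mem_of_int {R K : Type} [CommRing R] [Field K] (f : R →+* K) (O : ValuationSubring K)
    (h : ∀ r, f r ∈ O) (x : K) (hx : f.IsIntegralElem x) : x ∈ O := by
  obtain ⟨P, hP, h0⟩ := hx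
  let g : R →+* O := f.codRestrict O h
  have hi : IsIntegral O x := by
    refine ⟨P.map g, hP.map g, ?_⟩
    rw [eval₂_map]
    exact h0
  obtain ⟨y, hy⟩ := IsIntegrallyClosed.isIntegral_iff.mp hi
  rw [← hy]
  exact y.2

section dedekind
variable {A K : Type} [CommRing A] [IsDedekindDomain A] [Field K] [Algebra A K]
  [IsFractionRing A K]

theorem exists_v (π : A) (hπ : π ≠ 0) (O : ValuationSubring K) (hA : ∀ a : A, algebraMap A K a ∈ O)
    (hO : algebraMap A K π ∈ O.nonunits) :
    ∃ v : HeightOneSpectrum A, π ∈ v.asIdeal ∧ O = (v.valuation K).valuationSubring := by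
  let f : A →+* O := (algebraMap A K).codRestrict O hA
  have hm : ∀ a : A, a ∈ Ideal.comap f (IsLocalRing.maximalIdeal O) ↔
      algebraMap A K a ∈ O.nonunits := by
    intro a
    rw [Ideal.mem_comap, ← ValuationSubring.coe_mem_nonunits_iff]
    rfl
  have hπ' : algebraMap A K π ≠ 0 := by simpa using hπ
  let v : HeightOneSpectrum A := ⟨Ideal.comap f (IsLocalRing.maximalIdeal O), inferInstance, by
    intro h
    have := (hm π).2 hO
    rw [h] at this
    exact hπ (by simpa using this)⟩
  refine ⟨v, (hm π).2 hO, ?_⟩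
  rw [← v.valuationSubringAtPrime_eq_valuationSubring]
  symm
  apply ValuationSubring.eq_of_le_of_ne_top
  · rintro x ⟨a, s, hs, rfl⟩
    refine O.mul_mem _ _ (hA a) ?_
    have h1 : algebraMap A K s ∉ O.nonunits := fun h => hs ((hm s).2 h)
    rw [ValuationSubring.mem_nonunits_iff_or] at h1
    push Not at h1
    simpa using h1.2
  · rintro rfl
    rw [ValuationSubring.mem_nonunits_iff_or] at hO
    rcases hO with h | h
    · exact hπ' h
    · exact h (ValuationSubring.mem_top _)

theorem core (π : A) (hπ : π ≠ 0) :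
    {O : ValuationSubring K | (∀ a : A, algebraMap A K a ∈ O) ∧
      algebraMap A K π ∈ O.nonunits}.Finite ∧
    ∀ (x : ValuationSubring K → K) (N : ℕ), ∃ a, ∀ O : ValuationSubring K,
      (∀ a : A, algebraMap A K a ∈ O) → algebraMap A K π ∈ O.nonunits →
        (a - x O) / (algebraMap A K π) ^ N ∈ O := by
  classical
  have hfin : {v : HeightOneSpectrum A | v.asIdeal ∣ Ideal.span {π}}.Finite :=
    Ideal.finite_factors (by simpa using hπ)
  refine ⟨(hfin.image fun v => (v.valuation K).valuationSubring).subset ?_, fun x N => ?_⟩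
  · rintro O ⟨h1, h2⟩
    obtain ⟨v, hv, rfl⟩ := exists_v π hπ O h1 h2
    exact ⟨v, Ideal.dvd_span_singleton.2 hv, rfl⟩
  · obtain ⟨b, hb⟩ := IsLocalization.exist_integer_multiples (nonZeroDivisors A) hfin.toFinset
      (fun v => x (v.valuation K).valuationSubring)
    choose r hr using hb
    have hb0 : (b : A) ≠ 0 := nonZeroDivisors.coe_ne_zero b
    have hc : (b : A) * π ^ N ≠ 0 := mul_ne_zero hb0 (pow_ne_zero _ hπ)
    obtain ⟨y, hy⟩ := IsDedekindDomain.exists_forall_sub_mem_ideal (s := hfin.toFinset)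
      (fun v : HeightOneSpectrum A => v.asIdeal)
      (fun v => (Associates.mk v.asIdeal).count
        (Associates.mk (Ideal.span {(b : A) * π ^ N} : Ideal A)).factors)
      (fun v _ => v.prime) (fun v _ w _ h h' => h (HeightOneSpectrum.ext h'))
      (fun v => r v.1 v.2)
    refine ⟨algebraMap A K y / algebraMap A K b, fun O h1 h2 => ?_⟩
    obtain ⟨v, hv, rfl⟩ := exists_v π hπ O h1 h2
    have hvs : v ∈ hfin.toFinset := by
      rw [Set.Finite.mem_toFinset]
      exact Ideal.dvd_span_singleton.2 hv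
    have h3 := hy v hvs
    rw [← v.intValuation_le_pow_iff_mem, ← v.intValuation_if_neg hc] at h3
    have hbK : algebraMap A K b ≠ 0 := by simp
    have hπK : algebraMap A K π ≠ 0 := by simpa using hπ
    have h4 : (algebraMap A K y / algebraMap A K b - x (v.valuation K).valuationSubring) /
        (algebraMap A K π) ^ N =
        algebraMap A K (y - r v hvs) / algebraMap A K ((b : A) * π ^ N) := by
      rw [map_sub, hr v hvs, map_mul, map_pow, Algebra.smul_def]
      field_simp
    rw [h4, Valuation.mem_valuationSubring_iff, map_div₀]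
    have h5 := v.valuation_of_algebraMap (K := K) (y - r v hvs)
    have h6 := v.valuation_of_algebraMap (K := K) ((b : A) * π ^ N)
    rw [Algebra.cast] at h5 h6
    rw [h5, h6]
    exact div_le_one_of_le₀ h3 zero_le

end dedekind

variable {K : Type} [Field K] [Algebra ℝ K]

theorem t_ne (F : FF K) {s : ℝ[X]} (hs : s ≠ 0) : aeval F.t s ≠ 0 := by
  intro h
  have h1 : F.Q ∣ C s := (F.ker (C s)).1 (by simpa using h)
  have h2 := natDegree_le_of_dvd h1 (by simpa using hs)
  rw [natDegree_C] at h2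
  exact absurd F.pos (by omega)

/-- A uniformiser is a nonzero nonunit. -/
theorem nonunit (F : FF K) {l : ℝ} {p : ℂ} {π : K} (hπ : F.Unif l p π) {O : ValuationSubring K}
    (hO : F.Over l p O) : π ≠ 0 ∧ π⁻¹ ∉ O := by
  obtain ⟨A, s, hA, hs, rfl, c, hc, C₀, hb⟩ := hπ
  refine ⟨div_ne_zero (t_ne F hA) (t_ne F hs), fun h => ?_⟩
  rw [inv_div] at h
  obtain ⟨C₁, h1⟩ := (hO s A hA).1 h
  have h2 : Tendsto (fun z : ℂ => C₀ * ‖z - p‖ * C₁) (𝓝[≠] p) (𝓝 (C₀ * ‖p - p‖ * C₁)) :=
    tendsto_nhdsWithin_of_tendsto_nhds (Continuous.tendsto (by fun_prop) p)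
  rw [sub_self, norm_zero, mul_zero, zero_mul] at h2
  have h3 := h2.eventually (gt_mem_nhds zero_lt_one)
  obtain ⟨z, ⟨⟨hz1, hz2⟩, hz3, hz4⟩, hz5⟩ :=
    ((hb.and (h1.and h3)).and self_mem_nhdsWithin).exists
  have hzp : 0 < ‖z - p‖ := norm_pos_iff.2 (sub_ne_zero.2 hz5)
  have hq : (cx1 A).eval (zt l z) / (cx1 s).eval (zt l z) ≠ 0 := by
    intro h0
    rw [h0, norm_zero] at hz1
    exact absurd (mul_pos hc hzp) (not_lt.2 hz1)
  have h6 : ‖(cx1 A).eval (zt l z) / (cx1 s).eval (zt l z)‖ *
      ‖(cx1 s).eval (zt l z) / (cx1 A).eval (zt l z)‖ = 1 := by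
    rw [← norm_mul, ← inv_div ((cx1 A).eval (zt l z)), mul_inv_cancel₀ hq, norm_one]
  have h7 := mul_le_mul hz2 hz3 (norm_nonneg _) ((norm_nonneg _).trans hz2)
  linarith

theorem eval₂_eq (t T : K) (A : ℝ[X][X]) :
    eval₂ (aeval t : ℝ[X] →ₐ[ℝ] K).toRingHom T A = aevalAeval t T A := by
  induction A using Polynomial.induction_on' with
  | add p q hp hq => rw [eval₂_add, map_add, hp, hq]
  | monomial n a =>
    rw [eval₂_monomial, ← C_mul_X_pow_eq_monomial, map_mul, map_pow, aevalAeval_C, aevalAeval_Y]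
    rfl

/-- `K` is finite over every subfield `L` over which `t` is integral. -/
theorem finite_of (F : FF K) (L : Type) [Field L] [Algebra ℝ L] [Algebra L K]
    [IsScalarTower ℝ L K] (ht : IsIntegral L F.t) : FiniteDimensional L K := by
  have hR : ∀ r : ℝ, algebraMap ℝ K r = algebraMap L K (algebraMap ℝ L r) := fun r =>
    IsScalarTower.algebraMap_apply ℝ L K r
  have hsub : ∀ (B : Subalgebra L K), F.t ∈ B → ∀ s : ℝ[X], aeval F.t s ∈ B := by
    intro B hB s
    induction s using Polynomial.induction_on' with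
    | add p q hp hq => rw [map_add]; exact B.add_mem hp hq
    | monomial n a =>
      rw [aeval_monomial, hR]
      exact B.mul_mem (B.algebraMap_mem _) (B.pow_mem hB n)
  have hT : IsIntegral L F.T := by
    let B := integralClosure L K
    let g : ℝ[X] →+* B := (aeval F.t : ℝ[X] →ₐ[ℝ] K).toRingHom.codRestrict B (hsub B ht)
    have h1 : IsIntegral B F.T := by
      refine ⟨F.Q.map g, F.monic.map g, ?_⟩
      rw [eval₂_map]
      have h2 := (F.ker F.Q).2 dvd_rfl
      rw [← h2, ← eval₂_eq]
      rfl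
    exact isIntegral_trans F.T h1
  have h2 : IntermediateField.adjoin L {F.t, F.T} = ⊤ := by
    rw [eq_top_iff]
    intro a _
    obtain ⟨⟨s, A⟩, hs, -, ha⟩ := F.rep a
    let B := IntermediateField.adjoin L {F.t, F.T}
    have h3 : F.t ∈ B := IntermediateField.subset_adjoin _ _ (by simp)
    have h4 : F.T ∈ B := IntermediateField.subset_adjoin _ _ (by simp)
    have h5 : ∀ A : ℝ[X][X], aevalAeval F.t F.T A ∈ B := by
      intro A
      induction A using Polynomial.induction_on' with
      | add p q hp hq => rw [map_add]; exact B.add_mem hp hq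
      | monomial n a =>
        rw [← C_mul_X_pow_eq_monomial, map_mul, map_pow]
        refine B.mul_mem ?_ (pow_mem (by simpa using h4) n)
        simpa using hsub B.toSubalgebra h3 a
    have h6 : a = aevalAeval F.t F.T A / aeval F.t s := by
      rw [eq_div_iff (t_ne F hs)]; exact ha
    rw [h6]
    exact B.div_mem (h5 A) (hsub B.toSubalgebra h3 s)
  have h3 : FiniteDimensional L (IntermediateField.adjoin L {F.t, F.T}) :=
    IntermediateField.finiteDimensional_adjoin (by
      intro x hx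
      rcases hx with rfl | rfl
      · exact ht
      · exact hT)
  rw [h2] at h3
  exact IntermediateField.topEquiv.toLinearEquiv.finiteDimensional

/-- Places at which a transcendental rational function of `t` vanishes. -/
theorem main (F : FF K) (A s : ℝ[X]) (hs : s ≠ 0) (π : K) (hπ : π = aeval F.t A / aeval F.t s)
    (htr : Transcendental ℝ π) :
    {O : ValuationSubring K | (∀ r : ℝ, algebraMap ℝ K r ∈ O) ∧ π ∈ O.nonunits}.Finite ∧
    ∀ (x : ValuationSubring K → K) (N : ℕ), ∃ a, ∀ O : ValuationSubring K,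
      (∀ r : ℝ, algebraMap ℝ K r ∈ O) → π ∈ O.nonunits → (a - x O) / π ^ N ∈ O := by
  let : Algebra ℝ[X] K := (aeval π : ℝ[X] →ₐ[ℝ] K).toRingHom.toAlgebra
  have hmap : ∀ q : ℝ[X], algebraMap ℝ[X] K q = aeval π q := fun _ => rfl
  have : IsScalarTower ℝ ℝ[X] K := IsScalarTower.of_algebraMap_eq fun r => by
    rw [hmap]; simp
  have : FaithfulSMul ℝ[X] K := (faithfulSMul_iff_algebraMap_injective _ _).2
    (transcendental_iff_injective.1 htr)
  let : Algebra (FractionRing ℝ[X]) K := FractionRing.liftAlgebra _ _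
  have : IsScalarTower ℝ (FractionRing ℝ[X]) K := IsScalarTower.of_algebraMap_eq fun r => by
    rw [IsScalarTower.algebraMap_apply ℝ ℝ[X] (FractionRing ℝ[X]),
      ← IsScalarTower.algebraMap_apply ℝ[X] (FractionRing ℝ[X]) K,
      ← IsScalarTower.algebraMap_apply]
  have halg : IsAlgebraic ℝ[X] F.t := by
    refine ⟨s.map (C : ℝ →+* ℝ[X]) * C X - A.map (C : ℝ →+* ℝ[X]), ?_, ?_⟩
    · intro h
      have h1 := congrArg (fun q : ℝ[X][X] => (q.coeff s.natDegree).coeff 1) h
      simp [coeff_mul_C, coeff_C] at h1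
      exact hs h1
    · have h1 : ∀ q : ℝ[X], aeval F.t (q.map (C : ℝ →+* ℝ[X])) = aeval F.t q := fun q =>
        aeval_map_algebraMap ℝ[X] F.t q
      rw [map_sub, map_mul, h1, h1, aeval_C, hmap, aeval_X, hπ,
        mul_div_cancel₀ _ (t_ne F hs), sub_self]
  have ht : IsIntegral (FractionRing ℝ[X]) F.t :=
    (halg.extendScalars (IsFractionRing.injective ℝ[X] (FractionRing ℝ[X]))).isIntegral
  have : FiniteDimensional (FractionRing ℝ[X]) K := finite_of F _ ht
  have : IsDedekindDomain (integralClosure ℝ[X] K) :=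
    integralClosure.isDedekindDomain ℝ[X] (FractionRing ℝ[X]) K
  have : IsFractionRing (integralClosure ℝ[X] K) K :=
    integralClosure.isFractionRing_of_finite_extension (FractionRing ℝ[X]) K
  let π' : integralClosure ℝ[X] K := algebraMap ℝ[X] _ X
  have hπ' : algebraMap (integralClosure ℝ[X] K) K π' = π := by
    change algebraMap ℝ[X] K X = π
    rw [hmap, aeval_X]
  have hπ0 : π' ≠ 0 := by
    intro h
    rw [h, map_zero] at hπ'
    exact htr (hπ' ▸ isAlgebraic_zero)
  have hsub : ∀ O : ValuationSubring K, (∀ r : ℝ, algebraMap ℝ K r ∈ O) → π ∈ O.nonunits →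
      ∀ a : integralClosure ℝ[X] K, algebraMap _ K a ∈ O := by
    intro O h1 h2 a
    refine mem_of_int (algebraMap ℝ[X] K) O (fun q => ?_) _ a.2
    rw [hmap]
    induction q using Polynomial.induction_on' with
    | add p q hp hq => rw [map_add]; exact O.add_mem _ _ hp hq
    | monomial n a =>
      rw [aeval_monomial]
      exact O.mul_mem _ _ (h1 a) (pow_mem (O.nonunits_subset h2) n)
  obtain ⟨h1, h2⟩ := core (K := K) π' hπ0
  rw [hπ'] at h1 h2
  refine ⟨h1.subset fun O hO => ⟨hsub O hO.1 hO.2, hO.2⟩, fun x N => ?_⟩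
  obtain ⟨a, ha⟩ := h2 x N
  exact ⟨a, fun O h3 h4 => ha O (hsub O h3 h4) h4⟩

end Pl2

theorem Pl2_of : S_Pl2 := by
  intro K _ _ F l p π _ hπ
  by_cases hex : ∃ O, IsPlace O ∧ F.Over l p O
  · obtain ⟨O₀, h0, h0'⟩ := hex
    have htr : Transcendental ℝ π := by
      intro h
      exact (Pl2.nonunit F hπ h0').2
        (Pl2.mem_of_int (algebraMap ℝ K) O₀ h0.2 _ h.inv.isIntegral)
    have hnu : ∀ O, F.Over l p O → π ∈ O.nonunits := fun O hO =>
      (ValuationSubring.mem_nonunits_iff_or O).2 (Or.inr (Pl2.nonunit F hπ hO).2)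
    obtain ⟨A, s, -, hs, hπe, -⟩ := hπ
    obtain ⟨h1, h2⟩ := Pl2.main F A s hs π hπe htr
    refine ⟨h1.subset fun O hO => ⟨hO.1.2, hnu O hO.2⟩, fun x N => ?_⟩
    obtain ⟨a, ha⟩ := h2 x N
    exact ⟨a, fun O h3 h4 => ha O h3.2 (hnu O h4)⟩
  · refine ⟨Set.finite_empty.subset fun O hO => hex ⟨O, hO⟩, fun x N => ⟨0, fun O h3 h4 => ?_⟩⟩
    exact absurd ⟨O, h3, h4⟩ hex

end Pool.Agent.P.MP_daea48_ag
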