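import Pool.Agent.P.MP_daea48_ag.Pow2

/-! Package `Pow`: a power of every loop is fillable. -/

open Set Filter Topology Metric Polynomial

namespace Pool.Agent.P.MP_daea48_ag

noncomputable section

namespace Pow

section
variable {E E' L E₀ EP : Type} [NormedAddCommGroup E] [NormedSpace ℂ E] [FiniteDimensional ℂ E]
  [NormedAddCommGroup E'] [NormedSpace ℂ E'] [FiniteDimensional ℂ E']
  [NormedAddCommGroup L] [NormedSpace ℂ L]
  [NormedAddCommGroup E₀] [NormedSpace ℂ E₀] [FiniteDimensional ℂ E₀]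
  [NormedAddCommGroup EP] [NormedSpace ℂ EP] [FiniteDimensional ℂ EP]
  {U : Set (ℂ × E)} {pr : E →L[ℂ] E'} {lab : E →L[ℂ] L}

omit [FiniteDimensional ℂ E] [FiniteDimensional ℂ E'] in
/-- Uniform chart radius along a periodic map. -/
theorem rho_per (T : TC U pr) (b : ℂ) {α : ℝ → E} (hα : Continuous α) {k : ℝ} (hk : 0 < k)
    (hp : Function.Periodic α k) : ∃ ρ > 0, ∀ s, ρ ≤ T.rho (b, α s) := by
  have hp' : Function.Periodic (fun s => ((b, α s) : ℂ × E)) k := fun s => by simp only [hp s]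
  obtain ⟨ρ, hρ, h⟩ := T.rho_lower (hp'.isBounded_of_continuous hk.ne' (by fun_prop))
  exact ⟨ρ, hρ, fun s => h _ ⟨s, rfl⟩⟩

omit [FiniteDimensional ℂ E] [FiniteDimensional ℂ E₀] [FiniteDimensional ℂ EP] in
/-- A periodic family of curves from a fixed point to a loop close to `α`. -/
theorem lift (h4 : S_Mero) (h5 : S_Root) (T : TC U pr) (D : Two E₀ EP U pr lab) {b : ℂ}
    {α : ℝ → E} (hα : Continuous α) (hp : Function.Periodic α 1) (hU : ∀ t, (b, α t) ∈ U)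
    {ε₀ : ℝ} (hε₀ : 0 < ε₀) :
    ∃ (x₁ : E) (A : ℝ → E) (x' : E') (a : ℂ → E') (q : ℝ → EP) (k : ℕ), 0 < k ∧ (b, x₁) ∈ U ∧
      ‖x₁ - α 0‖ < ε₀ ∧ (∀ s, (b, A s) ∈ U ∧ ‖A s - α s‖ < ε₀) ∧ Differentiable ℂ a ∧
      Function.Periodic a 1 ∧ Continuous q ∧ Function.Periodic q k ∧
      ∀ s, (b, q s) ∈ D.M ∧ D.e₁ (q s) = D.φ (b, x₁) ∧ D.e₂ (q s) = D.φ (b, A s) ∧
        D.prP (q s) = (x', a s) := by
  have hfin : (lab '' fib U b).Finite := by
    refine (D.fin₀ b).subset ?_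
    rintro _ ⟨ξ, hξ, rfl⟩
    exact ⟨D.φ (b, ξ), (D.tr.fw _ hξ).1, D.lab_φ _ hξ⟩
  have hlab : ∀ s, lab (α s) = lab (α 0) := fun s =>
    isPreconnected_univ.constant_of_mapsTo hfin.isDiscrete
      (lab.continuous.comp hα).continuousOn (fun t _ => ⟨α t, hU t, rfl⟩) (mem_univ s) (mem_univ 0)
  obtain ⟨ρ, hρ, hρα⟩ := rho_per T b hα one_pos hp
  obtain ⟨y₁, y₂, hy⟩ := D.Nf_ne (b, D.φ (b, α 0)) (D.tr.fw _ (hU 0)).1
  simp only [D.lab_φ _ (hU 0)] at hy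
  obtain ⟨x', a, da, pa, hx', ha, hN⟩ := approx h4 (g := fun s => pr (α s))
    (pr.continuous.comp hα) (fun s => by simp only [hp s])
    (N := fun y => D.Nf (b, lab (α 0), y)) (D.dNf.comp (by fun_prop)) (y := (y₁, y₂)) hy
    (ε := min (ρ ^ 2) (ρ * ε₀)) (by positivity)
  have key : ∀ (s : ℝ) (x : E'), ‖x - pr (α s)‖ < min (ρ ^ 2) (ρ * ε₀) →
      ‖((b, x) : ℂ × E') - pj pr (b, α s)‖ < T.rho (b, α s) ^ 2 ∧
      (b, T.ex (b, α s) (b, x)) ∈ U ∧ ‖T.ex (b, α s) (b, x) - α s‖ < ε₀ ∧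
      D.pr₀ (D.φ (b, T.ex (b, α s) (b, x))) = x ∧
      D.lab₀ (D.φ (b, T.ex (b, α s) (b, x))) = lab (α 0) := by
    intro s x hx
    have h1 : ‖x - pr (α s)‖ < T.rho (b, α s) ^ 2 :=
      (hx.trans_le (min_le_left _ _)).trans_le (pow_le_pow_left₀ hρ.le (hρα s) 2)
    have h2 : ‖((b, x) : ℂ × E') - pj pr (b, α s)‖ < T.rho (b, α s) ^ 2 := by simpa using h1
    have h3 : (b, T.ex (b, α s) (b, x)) ∈ U := T.ex_mem (hU s) h2
    refine ⟨h2, h3, ?_, ?_, ?_⟩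
    · have h4 := T.ex_dist' (hU s) h2
      have h5 : ‖((b, x) : ℂ × E') - pj pr (b, α s)‖ = ‖x - pr (α s)‖ := by simp
      have h6 := hx.trans_le (min_le_right _ _)
      have h7 : ρ * ‖T.ex (b, α s) (b, x) - α s‖ ≤
          T.rho (b, α s) * ‖T.ex (b, α s) (b, x) - α s‖ :=
        mul_le_mul_of_nonneg_right (hρα s) (norm_nonneg _)
      exact lt_of_mul_lt_mul_left (a := ρ) (by simp only at h4; linarith) hρ.le
    · rw [D.pr_φ _ h3]; exact T.pr_ex (hU s) h2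
    · rw [D.lab_φ _ h3, ← hlab s]
      exact T.ex_lab (hU s) lab.continuous.continuousOn hfin h1
  set x₁ : E := T.ex (b, α 0) (b, x') with hx₁
  set A : ℝ → E := fun s => T.ex (b, α s) (b, a s) with hA
  obtain ⟨-, m1, n1, r1, l1⟩ := key 0 x' hx'
  have cA : Continuous A := by
    rw [← continuousOn_univ]
    have := da.continuous
    exact T.continuousOn_ex_comp (u := fun s => (b, α s)) (p := fun s : ℝ => (b, a s))
      (by fun_prop) (by fun_prop) fun s _ => ⟨hU s, (key s _ (ha s)).1⟩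
  have pA : Function.Periodic A 1 := fun s => by
    have : a ((s + 1 : ℝ) : ℂ) = a s := by rw [← pa s]; congr 1; push_cast; ring
    simp only [hA, hp s, this]
  set X : ℝ → ℂ × E₀ × E₀ := fun s => (b, D.φ (b, x₁), D.φ (b, A s)) with hX
  have cX : Continuous X := by
    have := D.tr.tφ.continuous
    simp only [hX]; fun_prop
  have pX : Function.Periodic X 1 := fun s => by simp only [hX, pA s]
  have hgood : ∀ s, D.Nf (b, D.lab₀ (D.φ (b, x₁)), D.pr₀ (D.φ (b, x₁)), D.pr₀ (D.φ (b, A s))) ≠ 0 ∧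
      (b, D.φ (b, x₁)) ∈ D.U₀ ∧ (b, D.φ (b, A s)) ∈ D.U₀ ∧
      D.lab₀ (D.φ (b, A s)) = D.lab₀ (D.φ (b, x₁)) := fun s => by
    obtain ⟨-, m2, -, r2, l2⟩ := key s _ (ha s)
    refine ⟨?_, (D.tr.fw _ m1).1, (D.tr.fw _ m2).1, l2.trans l1.symm⟩
    rw [l1, r1, r2]; exact hN s
  have hcov := fun s => D.cover b _ _ (hgood s).2.1 (hgood s).2.2.1 (hgood s).2.2.2 (hgood s).1
  obtain ⟨θ, k, hk, cθ, pθ, hθ⟩ := root_period h5 (c := fun s => D.Pi (X s)) D.dd_pos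
    (fun s => ⟨(hcov s).1, (hcov s).2.1, (hcov s).2.2.1⟩)
    (fun j => (D.Pi_cont j).comp cX) (fun s => by simp only [pX s])
  refine ⟨x₁, A, x', a, fun s => D.mk' (X s, θ s), k, hk, m1, n1,
    fun s => ⟨(key s _ (ha s)).2.1, (key s _ (ha s)).2.2.1⟩, da, pa, ?_, fun s => ?_, fun s => ?_⟩
  · exact D.mk_cont.comp_continuous (cX.prodMk cθ) fun s => ⟨hgood s, mem_univ _⟩
  · have : X (s + k) = X s := by simpa using pX.nat_mul k s
    simp only [this, pθ s]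
  · obtain ⟨a1, a2, a3⟩ := (hcov s).2.2.2 (θ s) (hθ s)
    refine ⟨a1, a2, a3, ?_⟩
    have := (D.ends _ a1).2.2.1
    simp only at this
    rw [this, a2, a3, r1, (key s _ (ha s)).2.2.2.1]

theorem aff_re (s₀ k δ : ℝ) (q : ℝ × ℝ) :
    (aff ((s₀ + k / 2 : ℝ) : ℂ) (k / 2) δ q).re = s₀ + k * ((q.1 + 1) / 2) := by
  simp [aff]; ring

theorem aff_im (s₀ k δ : ℝ) (q : ℝ × ℝ) :
    (aff ((s₀ + k / 2 : ℝ) : ℂ) (k / 2) δ q).im = δ * q.2 := by
  simp [aff]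

theorem continuous_aff (τ₀ : ℂ) (a b : ℝ) : Continuous (aff τ₀ a b) := by
  unfold aff; fun_prop

omit [FiniteDimensional ℂ E] [FiniteDimensional ℂ E'] in
/-- Analytic continuation of the family to a strip. -/
theorem strip_ext (T : TC U pr) {b : ℂ} {q : ℝ → E} {k : ℕ} (hk : 0 < k) (cq : Continuous q)
    (pq : Function.Periodic q k) {a : ℂ → E'} (da : Differentiable ℂ a)
    (pa : Function.Periodic a 1) (hq : ∀ s, (b, q s) ∈ U ∧ pr (q s) = a s)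
    [CompleteSpace E'] {η : ℝ} (hη : 0 < η) :
    ∃ δ > 0, ∃ p : ℂ → E, Function.Periodic p k ∧ ∀ τ : ℂ, |τ.im| < δ →
      AnalyticAt ℂ p τ ∧ (b, p τ) ∈ U ∧ ‖p τ - q τ.re‖ < η := by
  obtain ⟨ρ, hρ, hρq⟩ := rho_per T b cq (Nat.cast_pos.2 hk) pq
  obtain ⟨δ, hδ, hs⟩ := strip da.continuous pa (ε := min (ρ ^ 2) (ρ * η)) (by positivity)
  refine ⟨δ, hδ, fun τ => T.ex (b, q τ.re) (b, a τ), fun τ => ?_, fun τ hτ => ?_⟩
  · have e1 : a (τ + k) = a τ := by simpa using pa.nat_mul k τ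
    have e2 : q (τ + k).re = q τ.re := by simpa using pq τ.re
    simp only [e1, e2]
  · have h0 : ‖((b, a τ) : ℂ × E') - pj pr (b, q τ.re)‖ = ‖a τ - a τ.re‖ := by
      simp [(hq τ.re).2]
    have h1 : ‖((b, a τ) : ℂ × E') - pj pr (b, q τ.re)‖ < T.rho (b, q τ.re) ^ 2 := by
      rw [h0]
      exact ((hs τ hτ).trans_le (min_le_left _ _)).trans_le (pow_le_pow_left₀ hρ.le (hρq _) 2)
    refine ⟨T.analyticAt_ex (u := fun τ : ℂ => (b, q τ.re)) (p := fun τ => (b, a τ))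
      (by fun_prop) (analyticAt_const.prod (da.analyticAt τ)) h1
      (Eventually.of_forall fun τ => (hq _).1), T.ex_mem (hq _).1 h1, ?_⟩
    have h4 := T.ex_dist' (hq τ.re).1 h1
    have h6 := (hs τ hτ).trans_le (min_le_right _ _)
    have h7 : ρ * ‖T.ex (b, q τ.re) (b, a τ) - q τ.re‖ ≤
        T.rho (b, q τ.re) * ‖T.ex (b, q τ.re) (b, a τ) - q τ.re‖ :=
      mul_le_mul_of_nonneg_right (hρq _) (norm_nonneg _)
    exact lt_of_mul_lt_mul_left (a := ρ) (by simp only at h4; linarith) hρ.le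

/-- The periodic parameter on the curve: small on the bottom, large on the top. -/
theorem exists_w {δ η : ℝ} (hδ : 0 < δ) (hη : 0 < η) : ∃ w : ℂ → ℂ, Differentiable ℂ w ∧
    Function.Periodic w 1 ∧ (∀ τ, w τ ≠ 0) ∧ (∀ τ : ℂ, τ.im = -δ → ‖w τ‖ < η) ∧
    ∀ τ : ℂ, τ.im = δ → ‖(w τ)⁻¹‖ < η := by
  have hc : Real.exp (-(2 * Real.pi * δ)) < 1 :=
    Real.exp_lt_one_iff.2 (by have := Real.pi_pos; nlinarith)
  obtain ⟨m, hm⟩ := exists_pow_lt_of_lt_one hη hc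
  refine ⟨fun τ => Complex.exp (-(2 * Real.pi * Complex.I * τ)) ^ m, by fun_prop, fun τ => ?_,
    fun τ => pow_ne_zero _ (Complex.exp_ne_zero _), fun τ hτ => ?_, fun τ hτ => ?_⟩
  · simp only
    rw [mul_add, mul_one, neg_add, Complex.exp_add, Complex.exp_neg (2 * Real.pi * Complex.I),
      Complex.exp_two_pi_mul_I, inv_one, mul_one]
  · have e : (-(2 * Real.pi * Complex.I * τ)).re = -(2 * Real.pi * δ) := by simp [hτ]
    rw [norm_pow, Complex.norm_exp, e]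
    exact hm
  · have e : (- -(2 * Real.pi * Complex.I * τ)).re = -(2 * Real.pi * δ) := by simp [hτ]
    rw [← inv_pow, ← Complex.exp_neg, norm_pow, Complex.norm_exp, e]
    exact hm

/-- The annulus swept out by the curves. -/
theorem annulus (h1 : S_AF) (h2 : S_Sim) (h3 : S_FC2) (T : TC U pr) (D : Two E₀ EP U pr lab)
    {κ : ℂ → ℂ} {β : ℂ} (hκ : AnalyticAt ℂ κ β) {x₁ : E} {A : ℝ → E} {x' : E'} {a : ℂ → E'}
    {q : ℝ → EP} {k : ℕ} (hk : 0 < k) (hx₁ : (κ β, x₁) ∈ U) (hA : ∀ s, (κ β, A s) ∈ U)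
    (da : Differentiable ℂ a) (pa : Function.Periodic a 1) (cq : Continuous q)
    (pq : Function.Periodic q k)
    (hq : ∀ s, (κ β, q s) ∈ D.M ∧ D.e₁ (q s) = D.φ (κ β, x₁) ∧ D.e₂ (q s) = D.φ (κ β, A s) ∧
      D.prP (q s) = (x', a s)) {ε : ℝ} (hε : 0 < ε) :
    ∃ (s₀ : ℝ) (B Tp : ℝ → E), Loop (fib U (κ β)) B ∧ Loop (fib U (κ β)) Tp ∧
      (∀ t ∈ Icc (0 : ℝ) 1, ‖B t - x₁‖ < ε ∧ ‖Tp t - A (s₀ + k * t)‖ < ε) ∧
      (LN (SFill U κ β) B → LN (SFill U κ β) Tp) := by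
  set b := κ β with hb
  have hk' : (0 : ℝ) < k := Nat.cast_pos.2 hk
  obtain ⟨η₁, hη₁, n1⟩ := near D.tr.tψ D.tr.th D.tn D.td b (ξ := fun _ => D.φ (b, x₁)) hk' cq pq
    (fun s => ⟨(D.at0 _ (hq s).1).1, by rw [(D.at0 _ (hq s).1).2, (hq s).2.1],
      (D.tr.fw _ hx₁).2.1⟩) hε
  obtain ⟨η₂, hη₂, n2⟩ := near D.tr.tψ D.tr.th (n := fun j => D.n (Fin.rev j))
    (d := fun j => D.d (Fin.rev j)) (fun _ => D.tn _) (fun _ => D.td _) b
    (ξ := fun s => D.φ (b, A s)) hk' cq pq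
    (fun s => by
      simp only [Fin.rev_zero]
      exact ⟨(D.atI _ (hq s).1).1, by rw [(D.atI _ (hq s).1).2, (hq s).2.2.1],
        (D.tr.fw _ (hA s)).2.1⟩) hε
  obtain ⟨δ₀, hδ₀, p, pp, hp⟩ := strip_ext D.TP hk cq pq (a := fun τ => (x', a τ))
    ((differentiable_const _).prodMk da) (fun τ => by simp only [pa τ])
    (fun s => ⟨(hq s).1, (hq s).2.2.2⟩) (lt_min hη₁ hη₂)
  set δ := δ₀ / 2 with hδdef
  have hδ : 0 < δ := by positivity
  have hδ1 : δ < δ₀ := by linarith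
  obtain ⟨w, dw, pw1, w0, wb, wt⟩ := exists_w hδ (lt_min hη₁ hη₂)
  set Ψ : (ℂ × EP) × ℂ → E := fun x => Ph D.ψ D.h D.n D.d (x.1, w x.2) with hΨ
  set O : Set ((ℂ × EP) × ℂ) := (fun x : (ℂ × EP) × ℂ => (x.1, w x.2)) ⁻¹' Og D.h D.n D.d with hO
  have dW : Differentiable ℂ fun x : (ℂ × EP) × ℂ => (x.1, w x.2) :=
    differentiable_fst.prodMk (dw.comp differentiable_snd)
  have oO : IsOpen O := (isOpen_Og D.tr.th D.tn D.td).preimage dW.continuous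
  have mf : MF (D.M ×ˢ univ) O Ψ :=
    (mf_Ph D.tr.tψ D.tr.th D.tn D.td univ).comp (AC.of_diff dW _) (mapsTo_univ _ _)
  have cΨ : ContinuousOn Ψ O :=
    (contOn_Ph D.tr.tψ D.tr.th D.tn D.td).comp dW.continuous.continuousOn fun x hx => hx
  have mΨ : ∀ x ∈ (D.M ×ˢ univ) ∩ O, (x.1.1, Ψ x) ∈ U := fun x hx =>
    (D.tr.bw (x.1.1, Rq D.n D.d (x.1, w x.2)) (D.curve x.1 hx.1.1 (w x.2) hx.2.1).1 hx.2.2).1
  have bot : ∀ τ : ℂ, τ.im = -δ → ((b, p τ), τ) ∈ O ∧ ‖Ψ ((b, p τ), τ) - x₁‖ < ε := fun τ hτ => by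
    have := n1 τ.re (p τ) (w τ)
      ((hp τ (by rw [hτ, abs_neg, abs_of_pos hδ]; exact hδ1)).2.2.trans_le (min_le_left _ _))
      ((wb τ hτ).trans_le (min_le_left _ _))
    have e := (D.tr.fw _ hx₁).2.2
    simp only at e
    rwa [e] at this
  have top : ∀ τ : ℂ, τ.im = δ → ((b, p τ), τ) ∈ O ∧ ‖Ψ ((b, p τ), τ) - A τ.re‖ < ε :=
    fun τ hτ => by
    have := n2 τ.re (p τ) (w τ)⁻¹
      ((hp τ (by rw [hτ, abs_of_pos hδ]; exact hδ1)).2.2.trans_le (min_le_right _ _))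
      ((wt τ hτ).trans_le (min_le_right _ _))
    have e := (D.tr.fw _ (hA τ.re)).2.2
    simp only at e
    rw [e, Ph_rev _ (w0 τ)] at this
    exact ⟨Og_rev _ (w0 τ) this.1, this.2⟩
  -- the bad points are isolated
  have hV : IsOpen {τ : ℂ | |τ.im| < δ₀} := isOpen_lt (by fun_prop) continuous_const
  have hVc : IsPreconnected {τ : ℂ | |τ.im| < δ₀} := by
    have : {τ : ℂ | |τ.im| < δ₀} = {τ : ℂ | -δ₀ < τ.im} ∩ {τ : ℂ | τ.im < δ₀} := by
      ext τ; simp [abs_lt]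
    rw [this]
    exact ((convex_halfSpace_im_gt _).inter (convex_halfSpace_im_lt _)).isPreconnected
  have hfin : {τ ∈ (Icc (0 : ℝ) 1 ×ℂ Icc (-δ) δ) | ¬ (((b, p τ), τ) : (ℂ × EP) × ℂ) ∈ O}.Finite :=
    finite_of_punctured (isCompact_Icc.reProdIm isCompact_Icc) fun τ hτ =>
      (mf.conn hV hVc (γ := fun τ => ((b, p τ), τ))
        (fun l hl => (analyticAt_const.prod (hp l hl).1).prod analyticAt_id)
        (fun l hl => ⟨(hp l hl).2.1, mem_univ _⟩) (l₀ := δ * Complex.I)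
        (by simpa [abs_of_pos hδ] using hδ1) (top _ (by simp)).1
        ((abs_le.2 hτ.2).trans_lt hδ1)).1
  obtain ⟨s₀, hs₀, hs₀n⟩ := (Icc_infinite (zero_lt_one (α := ℝ))).exists_notMem_finite
    (hfin.image Complex.re)
  have side : ∀ τ : ℂ, τ.re = s₀ → |τ.im| ≤ δ → ((b, p τ), τ) ∈ O := fun τ h1 h2 => by
    by_contra h
    exact hs₀n ⟨τ, ⟨⟨by simpa [h1] using hs₀, abs_le.1 h2⟩, h⟩, h1⟩
  have pwk : ∀ τ, w (τ + k) = w τ := fun τ => by simpa using pw1.nat_mul k τ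
  set τ₀ : ℂ := ((s₀ + k / 2 : ℝ) : ℂ) with hτ₀
  have shift : ∀ t : ℝ, aff τ₀ (k / 2) δ (1, t) = aff τ₀ (k / 2) δ (-1, t) + k := fun t => by
    simp only [aff]; push_cast; ring
  have him : ∀ r ∈ closedBall (0 : ℝ × ℝ) 1, |(aff τ₀ (k / 2) δ r).im| ≤ δ := fun r hr => by
    rw [aff_im, abs_mul, abs_of_pos hδ]
    exact mul_le_of_le_one_right hδ.le (bd_abs hr).2
  have hrect : ∀ τ ∈ rect τ₀ (k / 2) δ, |τ.im| < δ₀ := by
    rintro τ ⟨r, hr, rfl⟩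
    exact (him r hr).trans_lt hδ1
  have hbd : ∀ r ∈ bd, ((b, p (aff τ₀ (k / 2) δ r)), aff τ₀ (k / 2) δ r) ∈ O := by
    rintro ⟨r₁, r₂⟩ hr
    have hr' := sphere_subset_closedBall hr
    have left : ((b, p (aff τ₀ (k / 2) δ (-1, r₂))), aff τ₀ (k / 2) δ (-1, r₂)) ∈ O := by
      refine side _ (by rw [aff_re]; simp) ?_
      rw [aff_im, abs_mul, abs_of_pos hδ]
      exact mul_le_of_le_one_right hδ.le (bd_abs hr').2
    rcases bd_cases hr with h | h | h | h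
    · simp only at h; rw [h]; exact left
    · simp only at h
      rw [h, shift]
      simpa only [hO, mem_preimage, pp _, pwk] using left
    · exact (bot _ (by rw [aff_im, h]; ring)).1
    · exact (top _ (by rw [aff_im, h]; ring)).1
  set G : ℝ × ℝ → E := fun r => Ψ ((b, p (aff τ₀ (k / 2) δ r)), aff τ₀ (k / 2) δ r) with hG
  have cp : ContinuousOn p (rect τ₀ (k / 2) δ) := fun τ hτ =>
    (hp τ (hrect τ hτ)).1.continuousAt.continuousWithinAt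
  have fG : SFill U κ β G :=
    h1 E E' EP (E' × E') U pr T D.M D.prP D.TP κ β τ₀ (k / 2) δ p Ψ O hκ (by positivity) hδ cp
      (fun τ hτ => (hp τ (hrect τ (image_mono ball_subset_closedBall hτ))).1)
      (fun τ hτ => (hp τ (hrect τ hτ)).2.1) oO mf (cΨ.mono inter_subset_right) mΨ hbd
  have bG : BdMap (fib U b) G := by
    have c1 := continuous_aff τ₀ (k / 2) δ
    have c2 : ContinuousOn (fun r => p (aff τ₀ (k / 2) δ r)) bd :=
      cp.comp c1.continuousOn fun r hr => ⟨r, sphere_subset_closedBall hr, rfl⟩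
    refine ⟨cΨ.comp ((continuousOn_const.prodMk c2).prodMk c1.continuousOn) hbd, fun r hr => ?_⟩
    exact mΨ _ ⟨⟨(hp _ (hrect _ ⟨r, sphere_subset_closedBall hr, rfl⟩)).2.1, mem_univ _⟩, hbd r hr⟩
  have pG : ∀ t : ℝ, G (-1, t) = G (1, t) := fun t => by
    simp only [hG, hΨ, shift, pp _, pwk]
  have hsys := (h2 E E' U pr T κ β hκ).2
  refine ⟨s₀, fun t => G (2 * t - 1, -1), fun t => G (2 * t - 1, 1), ⟨⟨?_, ?_⟩, ?_⟩, ⟨⟨?_, ?_⟩, ?_⟩,
    fun t _ => ⟨?_, ?_⟩,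
    ((h3 E (fib U b) (SFill U κ β) hsys).2.2.2.1 G bG (fun t _ => pG t) fG).1⟩
  · exact bG.1.comp (by fun_prop) fun t ht => mem_bd_bot ht
  · exact fun t ht => bG.2 (mem_bd_bot ht)
  · simp only; rw [show (2 * 0 - 1 : ℝ) = -1 by norm_num, show (2 * 1 - 1 : ℝ) = 1 by norm_num, pG]
  · exact bG.1.comp (by fun_prop) fun t ht => mem_bd_top ht
  · exact fun t ht => bG.2 (mem_bd_top ht)
  · simp only; rw [show (2 * 0 - 1 : ℝ) = -1 by norm_num, show (2 * 1 - 1 : ℝ) = 1 by norm_num, pG]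
  · exact (bot _ (by rw [aff_im]; ring)).2
  · have := (top (aff τ₀ (k / 2) δ (2 * t - 1, 1)) (by rw [aff_im]; ring)).2
    rwa [aff_re, show ((2 * t - 1, 1) : ℝ × ℝ).1 = 2 * t - 1 from rfl,
      show (2 * t - 1 + 1) / 2 = t by ring] at this

end

end Pow

open _root_.Pool.Agent.P.MP_daea48_ag.Pow in
theorem Pow_of (h1 : S_AF) (h2 : S_Sim) (h3 : S_FC2) (h4 : S_Mero) (h5 : S_Root) : S_Pow := by
  intro E _ _ _ E' _ _ _ L _ _ _ E₀ _ _ _ EP _ _ _ U pr lab T D κ β hκ α hα hp hU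
  have hsys := (h2 E E' U pr T κ β hκ).2
  obtain ⟨F1, F2, -⟩ := h3 E (fib U (κ β)) (SFill U κ β) hsys
  obtain ⟨ρ, hρ, hρα⟩ := rho_per T (κ β) hα one_pos hp
  have hN : 0 < ‖pr‖ + 1 := by positivity
  set ε := min ρ (ρ ^ 2 / (‖pr‖ + 1)) / 2 with hεdef
  have hε : 0 < ε := by positivity
  have small : ∀ (s : ℝ) (y : E), ‖y - α s‖ < 2 * ε → ‖y - α s‖ < T.rho (κ β, α s) ∧
      ‖pr y - pr (α s)‖ < T.rho (κ β, α s) ^ 2 := fun s y hy => by
    have e : 2 * ε = min ρ (ρ ^ 2 / (‖pr‖ + 1)) := by rw [hεdef]; ring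
    rw [e, lt_min_iff, lt_div_iff₀ hN] at hy
    refine ⟨hy.1.trans_le (hρα s), lt_of_lt_of_le ?_ (pow_le_pow_left₀ hρ.le (hρα s) 2)⟩
    rw [← map_sub]
    nlinarith [pr.le_opNorm (y - α s), norm_nonneg (y - α s)]
  obtain ⟨x₁, A, x', a, q, k, hk, hx₁, dx₁, hA, da, pa, cq, pq, hq⟩ :=
    lift h4 h5 T D hα hp hU hε
  obtain ⟨s₀, B, Tp, lB, lT, hc, hBT⟩ := annulus h1 h2 h3 T D hκ hk hx₁ (fun s => (hA s).1) da pa
    cq pq hq hε
  have pk : ∀ s, α (s + k) = α s := fun s => by simpa using hp.nat_mul k s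
  have a1 : LN (SFill U κ β) B :=
    (close T hsys F1 (α := fun _ => α 0) ⟨⟨continuousOn_const, fun _ _ => hU 0⟩, rfl⟩ lB
      fun t ht => small 0 _ (by
        linarith [norm_sub_le_norm_sub_add_norm_sub (B t) x₁ (α 0), (hc t ht).1])).1
      (F2 _ (hU 0))
  have a2 : LN (SFill U κ β) fun t => α (s₀ + k * t) :=
    (close T hsys F1 (α := fun t => α (s₀ + k * t))
      ⟨⟨by fun_prop, fun _ _ => hU _⟩, by simp [pk]⟩ lT
      fun t ht => small _ _ (by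
        linarith [norm_sub_le_norm_sub_add_norm_sub (Tp t) (A (s₀ + k * t)) (α (s₀ + k * t)),
          (hc t ht).2, (hA (s₀ + k * t)).2])).2 (hBT a1)
  refine ⟨k, hk, ?_⟩
  have := F1 (fun x => α ((1 - x.1) * s₀ + k * x.2)) (by fun_prop) (fun _ _ => hU _)
    (fun μ _ => by simp [pk]) (by simpa using a2)
  simpa using this

end

end Pool.Agent.P.MP_daea48_ag
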