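import Pool.Agent.P.MP_daea48_ag.StA

/-! Package `Pow`, part 1: periodic approximation, periodic roots, close loops. -/

open Set Filter Topology Metric Polynomial

namespace Pool.Agent.P.MP_daea48_ag

noncomputable section

namespace Pow

theorem bd_abs {p : ℝ × ℝ} (hp : p ∈ closedBall (0 : ℝ × ℝ) 1) : |p.1| ≤ 1 ∧ |p.2| ≤ 1 := by
  have h1 : ‖p‖ ≤ 1 := by simpa using hp
  exact ⟨(norm_fst_le p).trans h1, (norm_snd_le p).trans h1⟩

theorem bd_mem {p : ℝ × ℝ} (hp : p ∈ bd) : (p.1 + 1) / 2 ∈ Icc (0 : ℝ) 1 := by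
  have h2 := (bd_abs (sphere_subset_closedBall hp)).1
  rw [abs_le] at h2
  constructor <;> linarith [h2.1, h2.2]

theorem bd_cases {p : ℝ × ℝ} (hp : p ∈ bd) : p.1 = -1 ∨ p.1 = 1 ∨ p.2 = -1 ∨ p.2 = 1 := by
  have h1 : ‖p‖ = 1 := by simpa [bd] using hp
  rw [Prod.norm_def, Real.norm_eq_abs, Real.norm_eq_abs] at h1
  rcases max_cases |p.1| |p.2| with h | h
  · have : |p.1| = 1 := h.1.symm.trans h1
    rcases (abs_eq zero_le_one).1 this with h2 | h2 <;> simp [h2]
  · have : |p.2| = 1 := h.1.symm.trans h1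
    rcases (abs_eq zero_le_one).1 this with h2 | h2 <;> simp [h2]

theorem mem_bd_bot {t : ℝ} (ht : t ∈ Icc (0 : ℝ) 1) : ((2 * t - 1, -1) : ℝ × ℝ) ∈ bd := by
  have : |2 * t - 1| ≤ 1 := abs_le.2 ⟨by linarith [ht.1], by linarith [ht.2]⟩
  simpa [bd, Prod.norm_def] using this

theorem mem_bd_top {t : ℝ} (ht : t ∈ Icc (0 : ℝ) 1) : ((2 * t - 1, 1) : ℝ × ℝ) ∈ bd := by
  have : |2 * t - 1| ≤ 1 := abs_le.2 ⟨by linarith [ht.1], by linarith [ht.2]⟩
  simpa [bd, Prod.norm_def] using this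

/-- Tube lemma for periodic families. -/
theorem tube {X : Type} [NormedAddCommGroup X] {P : X → ℝ → Prop} {k : ℝ} (hk : 0 < k)
    (hper : ∀ x, Function.Periodic (P x) k)
    (h : ∀ s, ∀ᶠ z : X × ℝ in 𝓝 ((0 : X), s), P z.1 z.2) :
    ∃ η > 0, ∀ x, ‖x‖ < η → ∀ s, P x s := by
  have key := (isCompact_Icc (a := (0 : ℝ)) (b := k)).eventually_forall_of_forall_eventually
    (x₀ := (0 : X)) (P := P) fun s _ => h s
  obtain ⟨η, hη, hb⟩ := Metric.eventually_nhds_iff.1 key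
  refine ⟨η, hη, fun x hx s => ?_⟩
  obtain ⟨y, hy, e⟩ := (hper x).exists_mem_Ico₀ hk s
  rw [e]
  exact hb (by simpa using hx) y (Ico_subset_Icc_self hy)

/-- A periodic function descends to the unit circle. -/
theorem circle_fun {Y : Type} [TopologicalSpace Y] {g : ℝ → Y} (hg : Continuous g)
    (hp : Function.Periodic g 1) :
    ∃ G : ℂ → Y, ContinuousOn G (sphere 0 1) ∧
      ∀ s : ℝ, G (Complex.exp (2 * Real.pi * Complex.I * s)) = g s := by
  have hpi : (2 * Real.pi) ≠ 0 := by positivity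
  have key : ∀ x y : ℝ, (x : Real.Angle) = y → g (x / (2 * Real.pi)) = g (y / (2 * Real.pi)) := by
    intro x y h
    obtain ⟨k, hk⟩ := Real.Angle.angle_eq_iff_two_pi_dvd_sub.1 h
    have : x / (2 * Real.pi) = y / (2 * Real.pi) + k * 1 := by
      field_simp; linarith
    rw [this, hp.int_mul k]
  refine ⟨fun z => g (Complex.arg z / (2 * Real.pi)), fun z₀ hz₀ => ?_, fun s => ?_⟩
  · have h0 : z₀ ≠ 0 := by
      rintro rfl; simp at hz₀
    have h1 : ContinuousAt (fun z => g ((Complex.arg (z / z₀) + Complex.arg z₀) / (2 * Real.pi)))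
        z₀ := by
      have h2 : ContinuousAt (fun z : ℂ => Complex.arg (z / z₀)) z₀ :=
        ContinuousAt.comp (g := Complex.arg) (f := fun z : ℂ => z / z₀)
          (Complex.continuousAt_arg (by simp [h0])) (by fun_prop)
      exact hg.continuousAt.comp ((h2.add continuousAt_const).div_const _)
    refine (h1.congr ?_).continuousWithinAt
    filter_upwards [isOpen_ne.mem_nhds h0] with z hz
    refine key _ _ ?_
    rw [Real.Angle.coe_add, Complex.arg_div_coe_angle hz h0, sub_add_cancel]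
  · have e : (2 * Real.pi * Complex.I * s : ℂ) = ((2 * Real.pi * s : ℝ) : ℂ) * Complex.I := by
      push_cast; ring
    have := key (Complex.arg (Complex.exp (2 * Real.pi * Complex.I * s))) (2 * Real.pi * s) (by
      rw [e, Complex.arg_exp_mul_I, Real.Angle.coe_toIocMod])
    refine this.trans ?_
    congr 1
    field_simp

/-- An entire function that is not zero does not vanish on a ball. -/
theorem exists_ne {X : Type} [NormedAddCommGroup X] [NormedSpace ℂ X] {f : X → ℂ}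
    (hf : Differentiable ℂ f) {q : X} (hq : f q ≠ 0) (p : X) {O : Set X} (hO : O ∈ 𝓝 p) :
    ∃ x ∈ O, f x ≠ 0 := by
  by_contra hne
  push Not at hne
  have hg : Differentiable ℂ fun l : ℂ => f (p + l • (q - p)) := hf.comp (by fun_prop)
  have h0 : (fun l : ℂ => f (p + l • (q - p))) =ᶠ[𝓝 0] 0 := by
    have c : ContinuousAt (fun l : ℂ => p + l • (q - p)) 0 := by fun_prop
    have : ∀ᶠ l in 𝓝 (0 : ℂ), p + l • (q - p) ∈ O := c.eventually (by simpa using hO)
    exact this.mono fun l hl => hne _ hl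
  have han : AnalyticOnNhd ℂ (fun l : ℂ => f (p + l • (q - p))) univ :=
    fun l _ => hg.analyticAt l
  have := han.eqOn_zero_of_preconnected_of_eventuallyEq_zero isPreconnected_univ (mem_univ 0) h0
    (mem_univ 1)
  exact hq (by simpa using this)

/-- Moving off the real axis changes a continuous periodic function little. -/
theorem strip {Y : Type} [NormedAddCommGroup Y] {a : ℂ → Y} (ha : Continuous a)
    (hp : Function.Periodic a 1) {ε : ℝ} (hε : 0 < ε) :
    ∃ δ > 0, ∀ τ : ℂ, |τ.im| < δ → ‖a τ - a τ.re‖ < ε := by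
  obtain ⟨δ, hδ, h⟩ := tube (X := ℝ) (P := fun σ s => ‖a (s + σ * Complex.I) - a s‖ < ε) one_pos
    (fun σ s => by
      have e1 : a (((s + 1 : ℝ) : ℂ) + σ * Complex.I) = a (s + σ * Complex.I) := by
        rw [← hp (s + σ * Complex.I)]; congr 1; push_cast; ring
      have e2 : a ((s + 1 : ℝ) : ℂ) = a s := by
        rw [← hp s]; congr 1; push_cast; ring
      simp only [e1, e2])
    (fun s => by
      have c : Continuous fun z : ℝ × ℝ => ‖a (z.2 + z.1 * Complex.I) - a z.2‖ := by fun_prop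
      exact c.continuousAt.eventually_lt continuousAt_const (by simpa using hε))
  refine ⟨δ, hδ, fun τ hτ => ?_⟩
  have := h τ.im hτ τ.re
  rwa [Complex.re_add_im] at this

/-- Entire periodic approximation in general position. -/
theorem approx (h4 : S_Mero) {E' : Type} [NormedAddCommGroup E'] [NormedSpace ℂ E']
    [FiniteDimensional ℂ E'] {g : ℝ → E'} (hg : Continuous g) (hp : Function.Periodic g 1)
    {N : E' × E' → ℂ} (hN : Differentiable ℂ N) {y : E' × E'} (hy : N y ≠ 0) {ε : ℝ}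
    (hε : 0 < ε) :
    ∃ (x₁ : E') (a : ℂ → E'), Differentiable ℂ a ∧ Function.Periodic a 1 ∧ ‖x₁ - g 0‖ < ε ∧
      (∀ s : ℝ, ‖a s - g s‖ < ε) ∧ ∀ s : ℝ, N (x₁, a s) ≠ 0 := by
  obtain ⟨G, hG, hGg⟩ := circle_fun hg hp
  obtain ⟨L, hL, hLG⟩ := h4.2.2.2 E' G 1 (ε / 3) one_pos (by positivity) hG
  set a₀ : ℂ → E' := fun τ => L (Complex.exp (2 * Real.pi * Complex.I * τ)) with ha₀
  have d0 : Differentiable ℂ a₀ := fun τ =>
    DifferentiableAt.comp (g := L) (f := fun τ : ℂ => Complex.exp (2 * Real.pi * Complex.I * τ)) τ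
      (hL _ (Complex.exp_ne_zero _)).differentiableAt (by fun_prop)
  have p0 : Function.Periodic a₀ 1 := fun τ => by
    simp only [ha₀]
    rw [mul_add, mul_one, Complex.exp_add, Complex.exp_two_pi_mul_I, mul_one]
  have c0 : ∀ s : ℝ, ‖a₀ s - g s‖ < ε / 3 := fun s => by
    rw [← hGg s]
    refine hLG _ ?_
    have e : (2 * Real.pi * Complex.I * s : ℂ) = ((2 * Real.pi * s : ℝ) : ℂ) * Complex.I := by
      push_cast; ring
    rw [mem_sphere_zero_iff_norm, e, Complex.norm_exp_ofReal_mul_I]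
  obtain ⟨x, hx, hNx⟩ := exists_ne hN hy (g 0, a₀ 0) (ball_mem_nhds _ (show 0 < ε / 3 by positivity))
  rw [mem_ball, dist_eq_norm] at hx
  have hx1 : ‖x.1 - g 0‖ < ε / 3 := (norm_fst_le (x - (g 0, a₀ 0))).trans_lt hx
  have hx2 : ‖x.2 - a₀ 0‖ < ε / 3 := (norm_snd_le (x - (g 0, a₀ 0))).trans_lt hx
  set f : ℂ → ℂ := fun τ => N (x.1, a₀ τ + (x.2 - a₀ 0)) with hf
  have df : Differentiable ℂ f := hN.comp ((differentiable_const _).prodMk (d0.add_const _))
  have f0 : f 0 ≠ 0 := by simpa [hf] using hNx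
  have hfin : {τ ∈ closedBall (0 : ℂ) 2 | ¬ f τ ≠ 0}.Finite :=
    finite_of_punctured (isCompact_closedBall _ _) fun z _ => by
      have han : AnalyticOnNhd ℂ f univ := fun l _ => df.analyticAt l
      rcases (han z (mem_univ _)).eventually_eq_zero_or_eventually_ne_zero with h1 | h1
      · exact absurd (han.eqOn_zero_of_preconnected_of_eventuallyEq_zero isPreconnected_univ
          (mem_univ z) h1 (mem_univ 0)) f0
      · exact h1
  obtain ⟨δ, hδ, hs⟩ := strip d0.continuous p0 (show 0 < ε / 3 by positivity)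
  obtain ⟨σ, hσ, hσn⟩ := (Ioo_infinite (lt_min hδ one_pos)).exists_notMem_finite
    (hfin.image Complex.im)
  have hσ1 : σ < δ := hσ.2.trans_le (min_le_left _ _)
  have hσ2 : σ < 1 := hσ.2.trans_le (min_le_right _ _)
  have pa : Function.Periodic (fun τ : ℂ => a₀ (τ + σ * Complex.I) + (x.2 - a₀ 0)) 1 := fun τ => by
    simp only
    rw [← p0 (τ + σ * Complex.I)]; congr 2; ring
  refine ⟨x.1, fun τ => a₀ (τ + σ * Complex.I) + (x.2 - a₀ 0),
    (d0.comp (by fun_prop)).add_const _, pa, by linarith, fun s => ?_, fun s => ?_⟩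
  · have h1 := hs (s + σ * Complex.I) (by simpa [abs_of_pos hσ.1] using hσ1)
    simp only [Complex.add_re, Complex.ofReal_re, Complex.mul_re, Complex.I_re, mul_zero,
      Complex.ofReal_im, Complex.I_im, mul_one, sub_self, add_zero] at h1
    have e : a₀ (s + σ * Complex.I) + (x.2 - a₀ 0) - g s =
        (a₀ (s + σ * Complex.I) - a₀ s) + (x.2 - a₀ 0) + (a₀ s - g s) := by abel
    simp only
    rw [e]
    linarith [norm_add₃_le (a := a₀ (s + σ * Complex.I) - a₀ s) (b := x.2 - a₀ 0)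
      (c := a₀ s - g s), c0 s]
  · have pr' : Function.Periodic (fun s : ℝ => f (s + σ * Complex.I)) 1 := fun s => by
      simp only [hf]
      rw [← p0 (s + σ * Complex.I)]; congr 4; push_cast; ring
    obtain ⟨t, ht, e⟩ := pr'.exists_mem_Ico₀ one_pos s
    change f (s + σ * Complex.I) ≠ 0
    rw [e]
    by_contra h0
    refine hσn ⟨t + σ * Complex.I, ⟨?_, fun h => h h0⟩, by simp⟩
    rw [mem_closedBall_zero_iff]
    refine (norm_add_le _ _).trans ?_
    rw [norm_mul, Complex.norm_I, Complex.norm_real, Complex.norm_real, Real.norm_eq_abs,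
      Real.norm_eq_abs, abs_of_nonneg ht.1, abs_of_pos hσ.1]
    linarith [ht.2]

/-- A periodic family of separable polynomials has a periodic root. -/
theorem root_period (h5 : S_Root) {c : ℝ → ℂ[X]} {d : ℕ} (hd : 0 < d)
    (hc : ∀ s, (c s).Monic ∧ (c s).natDegree = d ∧ (c s).Separable)
    (hcont : ∀ k, Continuous fun s => (c s).coeff k) (hp : Function.Periodic c 1) :
    ∃ (θ : ℝ → ℂ) (k : ℕ), 0 < k ∧ Continuous θ ∧ Function.Periodic θ k ∧
      ∀ s, (c s).eval (θ s) = 0 := by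
  obtain ⟨hex, hun⟩ := h5.2.2 c d hc hcont
  obtain ⟨θ₀, h0⟩ := Complex.exists_root (f := c 0)
    (natDegree_pos_iff_degree_pos.1 (by rw [(hc 0).2.1]; exact hd))
  obtain ⟨θ, hθ, -, hr⟩ := hex 0 θ₀ h0
  have hcn : ∀ (n : ℕ) (s : ℝ), c (s + n) = c s := fun n s => by
    simpa using hp.nat_mul n s
  obtain ⟨m, n, hmn, e⟩ := (finite_setOfPred_isRoot (hc 0).1.ne_zero).exists_lt_map_eq_of_forall_mem
    (f := fun n : ℕ => θ n) fun n => by
      have := hr n
      have e := hcn n 0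
      rw [zero_add] at e
      rwa [e] at this
  refine ⟨θ, n - m, Nat.sub_pos_of_lt hmn, hθ, fun s => ?_, hr⟩
  have := hun θ (fun s => θ (s + (n - m : ℕ))) hθ (hθ.comp (by fun_prop)) hr
    (fun s => by rw [← hcn (n - m) s]; exact hr _) m (by
      refine e.trans ?_
      rw [Nat.cast_sub hmn.le]; congr 1; ring)
  exact (congrFun this s).symm

section
variable {E E' : Type} [NormedAddCommGroup E] [NormedSpace ℂ E] [NormedAddCommGroup E']
  [NormedSpace ℂ E'] {U : Set (ℂ × E)} {pr : E →L[ℂ] E'}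

omit [NormedSpace ℂ E] in
theorem LN_congr {Y : Set E} {𝓕 : (ℝ × ℝ → E) → Prop} (hsys : FillSys Y 𝓕) {α γ : ℝ → E}
    (e : ∀ t ∈ Icc (0 : ℝ) 1, α t = γ t) (h : LN 𝓕 α) : LN 𝓕 γ := by
  refine hsys.congr _ _ (fun p hp => ?_) h
  unfold two
  split_ifs
  · exact e 0 (by simp)
  · exact e _ (bd_mem hp)

/-- Close loops in a fibre are freely homotopic. -/
theorem close (T : TC U pr) {b : ℂ} {𝓕 : (ℝ × ℝ → E) → Prop} (hsys : FillSys (fib U b) 𝓕)
    (hF : ∀ H : ℝ × ℝ → E, ContinuousOn H (Icc 0 1 ×ˢ Icc 0 1) →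
      MapsTo H (Icc 0 1 ×ˢ Icc 0 1) (fib U b) → (∀ μ ∈ Icc (0 : ℝ) 1, H (μ, 0) = H (μ, 1)) →
      LN 𝓕 (fun t => H (0, t)) → LN 𝓕 (fun t => H (1, t)))
    {α γ : ℝ → E} (hα : Loop (fib U b) α) (hγ : Loop (fib U b) γ)
    (hc : ∀ t ∈ Icc (0 : ℝ) 1, ‖γ t - α t‖ < T.rho (b, α t) ∧
      ‖pr (γ t) - pr (α t)‖ < T.rho (b, α t) ^ 2) : LN 𝓕 α ↔ LN 𝓕 γ := by
  set K : ℝ × ℝ → E := fun x =>
    T.ex (b, α x.2) (b, pr (α x.2) + (x.1 : ℂ) • (pr (γ x.2) - pr (α x.2))) with hK
  have hd : ∀ x ∈ Icc (0 : ℝ) 1 ×ˢ Icc (0 : ℝ) 1, (b, α x.2) ∈ U ∧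
      ‖((b, pr (α x.2) + (x.1 : ℂ) • (pr (γ x.2) - pr (α x.2))) : ℂ × E') - pj pr (b, α x.2)‖ <
        T.rho (b, α x.2) ^ 2 := fun x hx => by
    refine ⟨hα.1.2 hx.2, ?_⟩
    have : ‖(x.1 : ℂ) • (pr (γ x.2) - pr (α x.2))‖ ≤ ‖pr (γ x.2) - pr (α x.2)‖ := by
      rw [norm_smul, Complex.norm_real, Real.norm_eq_abs, abs_of_nonneg hx.1.1]
      exact mul_le_of_le_one_left (norm_nonneg _) hx.1.2
    simpa using this.trans_lt (hc _ hx.2).2
  have c1 : ContinuousOn (fun x : ℝ × ℝ => α x.2) (Icc 0 1 ×ˢ Icc 0 1) :=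
    hα.1.1.comp continuousOn_snd fun x hx => hx.2
  have c2 : ContinuousOn (fun x : ℝ × ℝ => γ x.2) (Icc 0 1 ×ˢ Icc 0 1) :=
    hγ.1.1.comp continuousOn_snd fun x hx => hx.2
  have cK : ContinuousOn K (Icc 0 1 ×ˢ Icc 0 1) :=
    T.continuousOn_ex_comp (continuousOn_const.prodMk c1)
      (continuousOn_const.prodMk ((pr.continuous.comp_continuousOn c1).add
        (ContinuousOn.smul (by fun_prop)
          ((pr.continuous.comp_continuousOn c2).sub (pr.continuous.comp_continuousOn c1))))) hd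
  have mK : MapsTo K (Icc 0 1 ×ˢ Icc 0 1) (fib U b) := fun x hx => T.ex_mem (hd x hx).1 (hd x hx).2
  have pK : ∀ μ, K (μ, 0) = K (μ, 1) := fun μ => by simp only [hK, hα.2, hγ.2]
  have e0 : ∀ t ∈ Icc (0 : ℝ) 1, K (0, t) = α t := fun t ht => by
    have := T.ex_self (u := (b, α t)) (hα.1.2 ht)
    simpa [hK] using this
  have e1 : ∀ t ∈ Icc (0 : ℝ) 1, K (1, t) = γ t := fun t ht => by
    refine T.ex_unique (hα.1.2 ht) (z := b) (hγ.1.2 ht) (by simpa using (hc t ht).1) (by simp)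
  constructor
  · intro h
    exact LN_congr hsys e1 (hF K cK mK (fun μ _ => pK μ)
      (LN_congr hsys (fun t ht => (e0 t ht).symm) h))
  · intro h
    have m : MapsTo (fun x : ℝ × ℝ => ((1 - x.1, x.2) : ℝ × ℝ)) (Icc 0 1 ×ˢ Icc 0 1)
        (Icc 0 1 ×ˢ Icc 0 1) := fun x hx =>
      ⟨⟨by linarith [hx.1.2], by linarith [hx.1.1]⟩, hx.2⟩
    refine LN_congr hsys (fun t ht => ?_) (hF (fun x => K (1 - x.1, x.2))
      (cK.comp (by fun_prop) m) (mK.comp m) (fun μ _ => pK _)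
      (LN_congr hsys (fun t ht => ?_) h))
    · simpa using e0 t ht
    · simpa using (e1 t ht).symm

end

end Pow

end

end Pool.Agent.P.MP_daea48_ag
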