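import Pool.Agent.P.MP_daea48_ag.Pow1

/-! Package `Pow`, part 2: the family of rational curves as a meromorphic family. -/

open Set Filter Topology Metric Polynomial

namespace Pool.Agent.P.MP_daea48_ag

noncomputable section

namespace Pow

section pw
variable {X Y : Type} [NormedAddCommGroup Y] [NormedSpace ℂ Y] {e : ℕ}

theorem pw_zero (n : Fin (e + 1) → X → Y) (u : X) : pw n u 0 = n 0 u := by
  unfold pw
  rw [Finset.sum_eq_single 0]
  · simp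
  · intro k _ hk
    have : (k : ℕ) ≠ 0 := fun h => hk (Fin.ext h)
    simp [this]
  · simp

theorem pw_rev (n : Fin (e + 1) → X → Y) (u : X) {w : ℂ} (hw : w ≠ 0) :
    pw (fun k => n (Fin.rev k)) u w⁻¹ = (w ^ e)⁻¹ • pw n u w := by
  unfold pw
  rw [Finset.smul_sum, ← Equiv.sum_comp Fin.revPerm]
  refine Finset.sum_congr rfl fun k _ => ?_
  rw [smul_smul]
  have h2 : (k : ℕ) ≤ e := Nat.lt_succ_iff.1 k.2
  have h3 : w ^ e = w ^ (e - (k : ℕ)) * w ^ (k : ℕ) := by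
    rw [← pow_add, Nat.sub_add_cancel h2]
  simp only [Fin.revPerm_apply, Fin.rev_rev, Fin.val_rev, Nat.add_sub_add_right]
  congr 1
  rw [h3, inv_pow]
  field_simp

theorem pw_diff [NormedAddCommGroup X] [NormedSpace ℂ X] {n : Fin (e + 1) → X → Y}
    (hn : ∀ k, Tame (n k)) : Differentiable ℂ fun x : X × ℂ => pw n x.1 x.2 := by
  unfold pw
  exact Differentiable.fun_sum fun k _ =>
    (differentiable_snd.pow _).smul ((hn k).1.comp differentiable_fst)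

end pw

section
variable {E E₀ EP : Type} [NormedAddCommGroup E] [NormedSpace ℂ E]
  [NormedAddCommGroup E₀] [NormedSpace ℂ E₀] [NormedAddCommGroup EP] [NormedSpace ℂ EP] {e : ℕ}

/-- The point of the curve. -/
def Rq (n : Fin (e + 1) → ℂ × EP → E₀) (d : Fin (e + 1) → ℂ × EP → ℂ) (x : (ℂ × EP) × ℂ) : E₀ :=
  (pw d x.1 x.2)⁻¹ • pw n x.1 x.2

/-- The point of the curve in the original coordinates. -/
def Ph (ψ : ℂ × E₀ → E) (h : ℂ × E₀ → ℂ) (n : Fin (e + 1) → ℂ × EP → E₀)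
    (d : Fin (e + 1) → ℂ × EP → ℂ) (x : (ℂ × EP) × ℂ) : E :=
  (h (x.1.1, Rq n d x))⁻¹ • ψ (x.1.1, Rq n d x)

/-- The regular locus. -/
def Og (h : ℂ × E₀ → ℂ) (n : Fin (e + 1) → ℂ × EP → E₀) (d : Fin (e + 1) → ℂ × EP → ℂ) :
    Set ((ℂ × EP) × ℂ) := {x | pw d x.1 x.2 ≠ 0} ∩ {x | h (x.1.1, Rq n d x) ≠ 0}

variable {ψ : ℂ × E₀ → E} {h : ℂ × E₀ → ℂ} {n : Fin (e + 1) → ℂ × EP → E₀}
  {d : Fin (e + 1) → ℂ × EP → ℂ}

theorem contOn_Rq (tn : ∀ k, Tame (n k)) (td : ∀ k, Tame (d k)) :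
    ContinuousOn (fun x : (ℂ × EP) × ℂ => ((x.1.1, Rq n d x) : ℂ × E₀)) {x | pw d x.1 x.2 ≠ 0} :=
  ContinuousOn.prodMk (by fun_prop)
    (((pw_diff td).continuous.continuousOn.inv₀ fun _ hx => hx).smul
      (pw_diff tn).continuous.continuousOn)

theorem isOpen_Og (th : Tame h) (tn : ∀ k, Tame (n k)) (td : ∀ k, Tame (d k)) :
    IsOpen (Og h n d) :=
  (th.continuous.comp_continuousOn (contOn_Rq tn td)).isOpen_inter_preimage
    (isOpen_ne_fun (pw_diff td).continuous continuous_const) (isOpen_ne (x := (0 : ℂ)))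

theorem contOn_Ph (tψ : Tame ψ) (th : Tame h) (tn : ∀ k, Tame (n k)) (td : ∀ k, Tame (d k)) :
    ContinuousOn (Ph ψ h n d) (Og h n d) :=
  (((th.continuous.comp_continuousOn (contOn_Rq tn td)).mono inter_subset_left).inv₀
    fun _ hx => hx.2).smul
      ((tψ.continuous.comp_continuousOn (contOn_Rq tn td)).mono inter_subset_left)

theorem mf_Ph [FiniteDimensional ℂ E] [FiniteDimensional ℂ E₀] [FiniteDimensional ℂ EP]
    (tψ : Tame ψ) (th : Tame h) (tn : ∀ k, Tame (n k)) (td : ∀ k, Tame (d k))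
    (D : Set ((ℂ × EP) × ℂ)) : MF D (Og h n d) (Ph ψ h n d) :=
  ((MF.quot (AC.of_diff (pw_diff tn) D) (AC.of_diff (pw_diff td) D)).prod_left
    (f := fun x : (ℂ × EP) × ℂ => x.1.1) (AC.id' D).fst.fst).div th tψ

omit [NormedSpace ℂ EP] [NormedAddCommGroup EP] in
theorem Rq_rev (u : ℂ × EP) {w : ℂ} (hw : w ≠ 0) :
    Rq (fun k => n (Fin.rev k)) (fun k => d (Fin.rev k)) (u, w⁻¹) = Rq n d (u, w) := by
  have := pow_ne_zero e hw
  simp only [Rq, pw_rev _ _ hw, smul_eq_mul, smul_smul]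
  congr 1
  rw [mul_inv, inv_inv]
  field_simp

omit [NormedSpace ℂ EP] [NormedAddCommGroup EP] in
theorem Og_rev (u : ℂ × EP) {w : ℂ} (hw : w ≠ 0)
    (hm : (u, w⁻¹) ∈ Og h (fun k => n (Fin.rev k)) (fun k => d (Fin.rev k))) :
    (u, w) ∈ Og h n d := by
  obtain ⟨h1, h2⟩ := hm
  refine ⟨fun h3 => h1 ?_, ?_⟩
  · simp only at h3 ⊢
    rw [pw_rev _ _ hw, h3, smul_zero]
  · simpa only [mem_ofPred_eq, Rq_rev u hw] using h2

omit [NormedSpace ℂ EP] [NormedAddCommGroup EP] in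
theorem Ph_rev (u : ℂ × EP) {w : ℂ} (hw : w ≠ 0) :
    Ph ψ h (fun k => n (Fin.rev k)) (fun k => d (Fin.rev k)) (u, w⁻¹) = Ph ψ h n d (u, w) := by
  simp only [Ph, Rq_rev u hw]

omit [NormedSpace ℂ EP] [NormedAddCommGroup EP] in
theorem Rq_zero {u : ℂ × EP} {ξ : E₀} (h1 : d 0 u ≠ 0) (h2 : n 0 u = d 0 u • ξ) :
    Rq n d (u, 0) = ξ := by
  simp only [Rq, pw_zero]
  rw [h2, smul_smul, inv_mul_cancel₀ h1, one_smul]

/-- Uniform estimate near the parameter value zero. -/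
theorem near (tψ : Tame ψ) (th : Tame h) (tn : ∀ k, Tame (n k)) (td : ∀ k, Tame (d k)) (b : ℂ)
    {K : ℝ → EP} {ξ : ℝ → E₀} {k : ℝ} (hk : 0 < k) (hK : Continuous K)
    (pK : Function.Periodic K k)
    (h1 : ∀ s, d 0 (b, K s) ≠ 0 ∧ n 0 (b, K s) = d 0 (b, K s) • ξ s ∧ h (b, ξ s) ≠ 0)
    {ε : ℝ} (hε : 0 < ε) : ∃ η > 0, ∀ (s : ℝ) (p : EP) (w : ℂ), ‖p - K s‖ < η → ‖w‖ < η →
      ((b, p), w) ∈ Og h n d ∧ ‖Ph ψ h n d ((b, p), w) - (h (b, ξ s))⁻¹ • ψ (b, ξ s)‖ < ε := by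
  have e0 : ∀ s, Rq n d ((b, K s), 0) = ξ s := fun s => Rq_zero (h1 s).1 (h1 s).2.1
  have m0 : ∀ s, (((b, K s), 0) : (ℂ × EP) × ℂ) ∈ Og h n d := fun s =>
    ⟨by simpa [pw_zero] using (h1 s).1, by simpa [e0] using (h1 s).2.2⟩
  have hc : ∀ s, ContinuousAt (Ph ψ h n d) ((b, K s), 0) := fun s =>
    (contOn_Ph tψ th tn td).continuousAt ((isOpen_Og th tn td).mem_nhds (m0 s))
  obtain ⟨η, hη, hb⟩ := tube (X := EP × ℂ) (P := fun x s => ((b, K s + x.1), x.2) ∈ Og h n d ∧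
      ‖Ph ψ h n d ((b, K s + x.1), x.2) - Ph ψ h n d ((b, K s), 0)‖ < ε) hk
    (fun x s => by simp only [pK s])
    (fun s => by
      have c1 : Continuous fun z : (EP × ℂ) × ℝ =>
          (((b, K z.2 + z.1.1), z.1.2) : (ℂ × EP) × ℂ) := by fun_prop
      have c2 : Continuous fun z : (EP × ℂ) × ℝ => (((b, K z.2), 0) : (ℂ × EP) × ℂ) := by
        fun_prop
      have a1 : ContinuousAt (fun z : (EP × ℂ) × ℝ => Ph ψ h n d ((b, K z.2 + z.1.1), z.1.2))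
          (0, s) := ContinuousAt.comp_of_eq (hc s) c1.continuousAt (by simp)
      have a2 : ContinuousAt (fun z : (EP × ℂ) × ℝ => Ph ψ h n d ((b, K z.2), 0)) (0, s) :=
        ContinuousAt.comp_of_eq (hc s) c2.continuousAt rfl
      refine Filter.Eventually.and (c1.continuousAt.eventually
        ((isOpen_Og th tn td).mem_nhds (by simpa using m0 s))) ?_
      exact (a1.sub a2).norm.eventually_lt continuousAt_const (by simpa using hε))
  refine ⟨η, hη, fun s p w hp hw => ?_⟩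
  have := hb (p - K s, w) (by rw [Prod.norm_def]; exact max_lt hp hw) s
  simp only [add_sub_cancel] at this
  refine ⟨this.1, ?_⟩
  have e1 : Ph ψ h n d ((b, K s), 0) = (h (b, ξ s))⁻¹ • ψ (b, ξ s) := by simp only [Ph, e0]
  rw [← e1]; exact this.2

end

end Pow

end

end Pool.Agent.P.MP_daea48_ag
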