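import Pool.Agent.P.MP_daea48_ag.StK

/-! Symmetric rational sections of the final system come from points over `K`. -/

open Set Filter Topology Polynomial
open scoped ComplexConjugate

namespace Pool.Agent.P.MP_daea48_ag

namespace RatK

/-- `z` as a function of `t`. -/
noncomputable def tz (l : ℝ) (t : ℂ) : ℂ := (t - Complex.I * l) / (t + Complex.I * l)

theorem tendsto_cof {φ ψ : ℂ → ℂ} (a : ℂ) (h : ∀ t, t ≠ a → φ (ψ t) = t) :
    Tendsto ψ cofinite cofinite := by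
  intro A hA
  rw [mem_map, mem_cofinite]
  rw [mem_cofinite] at hA
  refine ((hA.image φ).insert a).subset fun t ht => ?_
  by_cases h1 : t = a
  · exact Or.inl h1
  · exact Or.inr ⟨ψ t, ht, h t h1⟩

theorem Il_ne {l : ℝ} (hl : 0 < l) : Complex.I * (l : ℂ) ≠ 0 :=
  mul_ne_zero Complex.I_ne_zero (Complex.ofReal_ne_zero.2 hl.ne')

theorem zt_tz {l : ℝ} (hl : 0 < l) (t : ℂ) (ht : t ≠ -(Complex.I * l)) : zt l (tz l t) = t := by
  have h0 := Il_ne hl
  have h1 : t + Complex.I * l ≠ 0 := fun h => ht (eq_neg_of_add_eq_zero_left h)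
  have h2 : 1 - tz l t = 2 * (Complex.I * l) / (t + Complex.I * l) := by
    unfold tz; field_simp; ring
  have h3 : 1 + tz l t = 2 * t / (t + Complex.I * l) := by
    unfold tz; field_simp; ring
  unfold zt
  rw [h2, h3]
  generalize Complex.I * (l : ℂ) = c at h0 h1 ⊢
  field_simp

theorem tz_zt {l : ℝ} (hl : 0 < l) (z : ℂ) (hz : z ≠ 1) : tz l (zt l z) = z := by
  have h0 := Il_ne hl
  have h1 : 1 - z ≠ 0 := sub_ne_zero.2 hz.symm
  have h2 : zt l z - Complex.I * l = 2 * (Complex.I * l) * z / (1 - z) := by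
    unfold zt; field_simp; ring
  have h3 : zt l z + Complex.I * l = 2 * (Complex.I * l) / (1 - z) := by
    unfold zt; field_simp; ring
  unfold tz
  rw [h2, h3]
  generalize Complex.I * (l : ℂ) = c at h0 ⊢
  field_simp

theorem tz_cof {l : ℝ} (hl : 0 < l) : Tendsto (tz l) cofinite cofinite :=
  tendsto_cof _ (zt_tz hl)

theorem zt_cof {l : ℝ} (hl : 0 < l) : Tendsto (zt l) cofinite cofinite :=
  tendsto_cof _ (tz_zt hl)

theorem tz_conj (l : ℝ) (t : ℂ) : tz l (conj t) = rfl1 (tz l t) := by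
  simp only [tz, rfl1, map_div₀, map_sub, map_add, map_mul, Complex.conj_I, Complex.conj_ofReal,
    inv_div]
  congr 1 <;> ring

theorem ev_ne {P : ℂ[X]} (hP : P ≠ 0) : ∀ᶠ t in cofinite, P.eval t ≠ 0 := by
  rw [eventually_cofinite]
  by_contra h
  exact hP (eq_zero_of_infinite_isRoot P (by simpa [IsRoot.def] using h))

theorem eq_of_ev {P R : ℂ[X]} (h : ∀ᶠ t in cofinite, P.eval t = R.eval t) : P = R := by
  by_contra hne
  obtain ⟨t, h1, h2⟩ := (h.and (ev_ne (sub_ne_zero.2 hne))).exists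
  exact h2 (by rw [eval_sub, h1, sub_self])

/-- Rational functions up to finitely many values. -/
def IsRat (g : ℂ → ℂ) : Prop :=
  ∃ P R : ℂ[X], R ≠ 0 ∧ ∀ᶠ t in cofinite, R.eval t * g t = P.eval t

theorem isRat_poly {g : ℂ → ℂ} (hg : IsRat g) (N : ℂ[X]) : IsRat fun t => N.eval (g t) := by
  obtain ⟨P, R, hR, h⟩ := hg
  induction N using Polynomial.induction_on with
  | C a => exact ⟨C a, 1, one_ne_zero, Eventually.of_forall fun t => by simp⟩
  | add p q hp hq =>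
    obtain ⟨P1, R1, a1, b1⟩ := hp
    obtain ⟨P2, R2, a2, b2⟩ := hq
    refine ⟨R2 * P1 + R1 * P2, R1 * R2, mul_ne_zero a1 a2, ?_⟩
    filter_upwards [b1, b2] with t e1 e2
    simp only [eval_add, eval_mul] at e1 e2 ⊢
    rw [← e1, ← e2]; ring
  | monomial n a hp =>
    obtain ⟨P1, R1, a1, b1⟩ := hp
    refine ⟨P1 * P, R1 * R, mul_ne_zero a1 hR, ?_⟩
    filter_upwards [b1, h] with t e1 e2
    simp only [eval_mul, eval_C, eval_pow, eval_X] at e1 ⊢
    rw [← e1, ← e2]; ring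

theorem isRat_div {a b g : ℂ → ℂ} (ha : IsRat a) (hb : IsRat b)
    (h0 : ∀ᶠ t in cofinite, b t ≠ 0) (h : ∀ᶠ t in cofinite, b t * g t = a t) : IsRat g := by
  obtain ⟨P1, R1, a1, b1⟩ := ha
  obtain ⟨P2, R2, a2, b2⟩ := hb
  have hP : P2 ≠ 0 := by
    rintro rfl
    obtain ⟨t, ⟨h1, h2⟩, h3⟩ := ((b2.and h0).and (ev_ne a2)).exists
    exact mul_ne_zero h3 h2 (by simpa using h1)
  refine ⟨R2 * P1, P2 * R1, mul_ne_zero hP a1, ?_⟩
  filter_upwards [b1, b2, h] with t e1 e2 e3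
  simp only [eval_mul]
  rw [← e1, ← e2, ← e3]; ring

theorem isRat_tz (l : ℝ) : IsRat (tz l) := by
  refine ⟨X - C (Complex.I * l), X + C (Complex.I * l), X_add_C_ne_zero _, ?_⟩
  filter_upwards [ev_ne (X_add_C_ne_zero (Complex.I * (l : ℂ)))] with t ht
  simp only [eval_add, eval_X, eval_C, eval_sub] at ht ⊢
  unfold tz
  field_simp

theorem eval_conj (P : ℂ[X]) (t : ℂ) :
    (P.map (starRingEnd ℂ)).eval (conj t) = conj (P.eval t) := by
  rw [eval_map, eval₂_at_apply]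

theorem real_of_conj {M : ℂ[X]} (h : M.map (starRingEnd ℂ) = M) : ∃ A : ℝ[X], cx1 A = M := by
  refine (mem_lifts (f := algebraMap ℝ ℂ) M).1 ((lifts_iff_coeff_lifts M).2 fun n => ?_)
  have h1 : conj (M.coeff n) = M.coeff n := by
    conv_rhs => rw [← h]
    rw [coeff_map]
  exact ⟨(M.coeff n).re, Complex.conj_eq_iff_re.1 h1⟩

theorem conj_cof : Tendsto (fun t : ℂ => conj t) cofinite cofinite :=
  (starRingEnd ℂ).injective.tendsto_cofinite

theorem cx1_ne {s : ℝ[X]} (hs : s ≠ 0) : cx1 s ≠ 0 :=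
  (Polynomial.map_ne_zero_iff (algebraMap ℝ ℂ).injective).2 hs

theorem real_rat {g : ℂ → ℂ} (hg : IsRat g) (hc : ∀ᶠ t in cofinite, g (conj t) = conj (g t)) :
    ∃ A s : ℝ[X], s ≠ 0 ∧ ∀ᶠ t in cofinite, (cx1 s).eval t * g t = (cx1 A).eval t := by
  obtain ⟨P, R, hR, h⟩ := hg
  have hcc : ∀ N : ℂ[X], (N.map (starRingEnd ℂ)).map (starRingEnd ℂ) = N := fun N => by
    rw [Polynomial.map_map]
    have : (starRingEnd ℂ).comp (starRingEnd ℂ) = RingHom.id ℂ := by
      ext1 x; simp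
    rw [this, Polynomial.map_id]
  have hR' : R.map (starRingEnd ℂ) ≠ 0 :=
    (Polynomial.map_ne_zero_iff (starRingEnd ℂ).injective).2 hR
  have hs : (R * R.map (starRingEnd ℂ)).map (starRingEnd ℂ) = R * R.map (starRingEnd ℂ) := by
    rw [Polynomial.map_mul, hcc, mul_comm]
  have h1 : ∀ᶠ t in cofinite,
      (R * R.map (starRingEnd ℂ)).eval t * g t = (P * R.map (starRingEnd ℂ)).eval t := by
    filter_upwards [h] with t e
    simp only [eval_mul]
    rw [← e]; ring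
  have hM : (P * R.map (starRingEnd ℂ)).map (starRingEnd ℂ) = P * R.map (starRingEnd ℂ) := by
    apply eq_of_ev
    filter_upwards [h1, conj_cof.eventually h1, conj_cof.eventually hc] with t e1 e2 e3
    have e4 := eval_conj (P * R.map (starRingEnd ℂ)) (conj t)
    have e5 := eval_conj (R * R.map (starRingEnd ℂ)) (conj t)
    rw [Complex.conj_conj] at e3 e4 e5
    rw [hs] at e5
    rw [e4, ← e2, map_mul, ← e5, ← e3, e1]
  obtain ⟨A, hA⟩ := real_of_conj hM
  obtain ⟨s, hs'⟩ := real_of_conj hs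
  refine ⟨A, s, ?_, by rw [hA, hs']; exact h1⟩
  rintro rfl
  exact mul_ne_zero hR hR' (by rw [← hs']; simp [cx1])

theorem common {J : Type} [Fintype J] (g : J → ℂ → ℂ)
    (h : ∀ j, ∃ A s : ℝ[X], s ≠ 0 ∧ ∀ᶠ t in cofinite, (cx1 s).eval t * g j t = (cx1 A).eval t) :
    ∃ (A : J → ℝ[X]) (s : ℝ[X]), s ≠ 0 ∧
      ∀ᶠ t in cofinite, ∀ j, g j t = (cx1 (A j)).eval t / (cx1 s).eval t := by
  classical
  choose A s hs h using h
  have hne : ∏ j, s j ≠ 0 := Finset.prod_ne_zero_iff.2 fun j _ => hs j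
  refine ⟨fun j => A j * ∏ i ∈ Finset.univ.erase j, s i, ∏ j, s j, hne, ?_⟩
  filter_upwards [eventually_all.2 h, ev_ne (cx1_ne hne)] with t e1 e2 j
  rw [eq_div_iff e2, ← Finset.mul_prod_erase _ _ (Finset.mem_univ j)]
  have e3 := e1 j
  simp only [cx1, Polynomial.map_mul, eval_mul] at e3 ⊢
  rw [← e3]; ring

variable {K : Type} [Field K] [Algebra ℝ K] (F : FF K)

theorem aeval_ne {s : ℝ[X]} (hs : s ≠ 0) : aeval F.t s ≠ 0 := by
  intro h
  have h1 : F.Q ∣ C s := (F.ker _).1 (by rw [aevalAeval_C, h])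
  have h2 := natDegree_le_of_dvd h1 (C_ne_zero.2 hs)
  rw [natDegree_C] at h2
  exact absurd F.pos (not_lt.2 h2)

theorem cf_eq (A : ℝ[X][X]) (s : ℝ[X]) (hs : s ≠ 0) (hA : A.degree < F.Q.degree) :
    ∀ᶠ t in cofinite, ∀ i, F.cf i (aevalAeval F.t F.T A / aeval F.t s) t =
      (cx1 (A.coeff i)).eval t / (cx1 s).eval t := by
  set a := aevalAeval F.t F.T A / aeval F.t s with ha
  obtain ⟨h1, h2, h3⟩ : F.den a ≠ 0 ∧ (F.num a).degree < F.Q.degree ∧
    a * aeval F.t (F.den a) = aevalAeval F.t F.T (F.num a) := (F.rep a).choose_spec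
  have h4 : F.Q ∣ C s * F.num a - C (F.den a) * A := by
    refine (F.ker _).1 ?_
    rw [map_sub, map_mul, map_mul, aevalAeval_C, aevalAeval_C, ← h3, ha]
    have := aeval_ne F hs
    field_simp
    ring
  have h5 : C s * F.num a - C (F.den a) * A = 0 := by
    refine eq_zero_of_dvd_of_degree_lt h4 ((degree_sub_le _ _).trans_lt (max_lt ?_ ?_))
    · rw [← smul_eq_C_mul]; exact (degree_smul_le _ _).trans_lt h2
    · rw [← smul_eq_C_mul]; exact (degree_smul_le _ _).trans_lt hA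
  filter_upwards [ev_ne (cx1_ne h1), ev_ne (cx1_ne hs)] with t e1 e2 i
  have h6 : s * (F.num a).coeff i = F.den a * A.coeff i := by
    have := congrArg (fun p => coeff p i) (sub_eq_zero.1 h5)
    simpa only [coeff_C_mul] using this
  have h7 := congrArg (fun p => (cx1 p).eval t) h6
  simp only [cx1, Polynomial.map_mul, eval_mul] at h7
  unfold FF.cf
  rw [div_eq_div_iff e1 e2]
  simp only [cx1]
  linear_combination h7

theorem coeff_sum {d : ℕ} (A : Fin d → ℝ[X]) (i : Fin d) :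
    (∑ k : Fin d, C (A k) * X ^ (k : ℕ) : ℝ[X][X]).coeff i = A i := by
  rw [finsetSum_coeff, Finset.sum_eq_single i]
  · simp
  · intro k _ hk
    rw [coeff_C_mul, coeff_X_pow, if_neg (fun h => hk (Fin.ext h.symm)), mul_zero]
  · simp

end RatK

open RatK in
theorem RatK_of (h1 : S_Spr) (h2 : S_Mero) : S_RatK := by
  intro K _ _ F V δ l S hl ⟨hm, hi, hU⟩ hs
  obtain ⟨-, -, s3, s4, -, -, -, s8, -, -, -, -, -, -, s15, -⟩ := h1 K F
  obtain ⟨Den, hD, hN⟩ := h2.1 _ S hm hi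
  have hr : ∀ j : Fin F.d × V.σ, ∃ A s : ℝ[X], s ≠ 0 ∧ ∀ᶠ t in cofinite,
      (cx1 s).eval t * (S (tz l t)).2.1 j.1 j.2 = (cx1 A).eval t := by
    intro j
    obtain ⟨Num, hNum⟩ := hN ((ContinuousLinearMap.proj j.2).comp
      ((ContinuousLinearMap.proj j.1).comp ((ContinuousLinearMap.fst ℂ _ _).comp
        (ContinuousLinearMap.snd ℂ ℂ ((Fin F.d → V.σ → ℂ) × ℂ)))))
    refine real_rat (g := fun t => (S (tz l t)).2.1 j.1 j.2)
      (isRat_div (isRat_poly (isRat_tz l) Num) (isRat_poly (isRat_tz l) Den)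
        ((tz_cof hl).eventually (ev_ne hD)) ((tz_cof hl).eventually hNum)) ?_
    filter_upwards [(tz_cof hl).eventually hs] with t e
    rw [tz_conj, e]
    rfl
  obtain ⟨A, s, hs0, hA⟩ := common (fun (j : Fin F.d × V.σ) t => (S (tz l t)).2.1 j.1 j.2) hr
  set ξ : V.σ → K := fun a =>
    aevalAeval F.t F.T (∑ k : Fin F.d, C (A (k, a)) * X ^ (k : ℕ) : ℝ[X][X]) / aeval F.t s with hξ
  have hcf : ∀ᶠ t in cofinite, ∀ (a : V.σ) (i : Fin F.d),
      F.cf i (ξ a) t = (S (tz l t)).2.1 i a := by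
    have : ∀ a : V.σ, ∀ᶠ t in cofinite, ∀ i : ℕ, F.cf i (ξ a) t =
        (cx1 ((∑ k : Fin F.d, C (A (k, a)) * X ^ (k : ℕ) : ℝ[X][X]).coeff i)).eval t /
          (cx1 s).eval t := fun a => by
      refine cf_eq F _ s hs0 ((degree_sum_fin_lt _).trans_le ?_)
      rw [degree_eq_natDegree F.monic.ne_zero]
      exact le_rfl
    filter_upwards [eventually_all.2 this, hA] with t e1 e2 a i
    rw [e1 a i, coeff_sum (fun k => A (k, a)) i, e2 (i, a)]
  have h1z : ∀ z, z ≠ 1 → (z, S z) ∈ F.RR l V δ → (S z).1 = zt l z := by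
    intro z hz hz'
    have e : (S z).1 * (1 - z) = Complex.I * l * (1 + z) := hz'.1
    unfold zt
    rw [eq_div_iff (sub_ne_zero.2 hz.symm), e]
  have hne1 : ∀ᶠ z : ℂ in cofinite, z ≠ 1 := eventually_cofinite_ne 1
  refine ⟨ξ, fun k => ?_, ?_⟩
  · show MvPolynomial.eval ξ (V.F k) = 0
    refine s3 _ ((s8 _).1 ?_)
    filter_upwards [(s8 _).2 (s15 _ ξ (V.F k)), hcf, (tz_cof hl).eventually hU,
      (tz_cof hl).eventually hne1, eventually_cofinite_ne (-(Complex.I * l))]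
      with t e1 e2 e3 e4 e5 T hT
    have e6 : (S (tz l t)).1 = t := by rw [h1z _ e4 e3, zt_tz hl t e5]
    have e7 := (e3.2.2 T (by simpa only [e6] using hT)).2 k
    simp only [e6] at e7
    rw [e1 T hT, ← e7]
    congr 2
    funext a
    rw [(s4 (ξ a) (t, T)).2]
    simp only [ev, Finset.sum_apply, Pi.smul_apply, smul_eq_mul, e2]
  · filter_upwards [(zt_cof hl).eventually hcf, hU, hne1] with z e1 e2 e3
    have e4 := h1z z e3 e2
    have e5 : (S z).2.2 * (cx1 δ).eval (S z).1 = 1 := e2.2.1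
    rw [tz_zt hl z e3] at e1
    refine Prod.ext e4 (Prod.ext ?_ ?_)
    · funext i a
      exact (e1 a i).symm
    · rw [e4] at e5
      exact eq_inv_of_mul_eq_one_left e5

end Pool.Agent.P.MP_daea48_ag
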