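import Pool.Agent.Results.MP_daea48_ag.WeakApprox

/-! The case of the empty set of places of weak approximation: rationally connected varieties over
the function field of a real curve without real points have a rational point. -/

open CategoryTheory AlgebraicGeometry Pool.Agent.P.MP_daea48_ag

namespace Pool.Agent.P.MP_daea48_ag.RatPointCor

theorem ratPoint (C : Scheme.{0}) [IsIntegral C] (c : C ⟶ Spec (CommRingCat.of ℝ))
    [SmoothOfRelativeDimension 1 c] [IsProper c] [GeometricallyIntegral c]
    (hC : IsEmpty (Pts c (RingHom.id ℝ)))
    (X : Scheme.{0}) (s : X ⟶ Spec (CommRingCat.of C.functionField))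
    [Smooth s] [IsProper s] [GeometricallyIntegral s] (hX : RatConn s) :
    Nonempty (Pts s (RingHom.id C.functionField)) := by
  obtain ⟨O, -, hd⟩ :=
    Pool.Agent.Results.MP_daea48_ag.WeakApprox.result C c hC X s hX ∅ (by simp)
  exact hd.nonempty_iff.2 ⟨fun v => absurd v.2 (Finset.notMem_empty _)⟩

end Pool.Agent.P.MP_daea48_ag.RatPointCor
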