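import Pool.Agent.P.MP_daea48_ag.StA

/-! Branches of roots of families of monic separable polynomials. -/

open Set Filter Topology Metric Polynomial

namespace Pool.Agent.P.MP_daea48_ag

noncomputable section

open Classical

namespace Root

theorem pow_le_prod (a : ℂ) {ε : ℝ} (hε : 0 ≤ ε) (s : Multiset ℂ) (h : ∀ w ∈ s, ε ≤ ‖w - a‖) :
    ε ^ Multiset.card s ≤ ‖(s.map fun w => a - w).prod‖ := by
  induction s using Multiset.induction_on with
  | empty => simp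
  | cons w s ih =>
    rw [Multiset.card_cons, Multiset.map_cons, Multiset.prod_cons, norm_mul, pow_succ']
    have h1 : ε ≤ ‖a - w‖ := by
      rw [norm_sub_rev]; exact h w (Multiset.mem_cons_self _ _)
    exact mul_le_mul h1 (ih fun u hu => h u (Multiset.mem_cons_of_mem hu)) (pow_nonneg hε _)
      (norm_nonneg _)

theorem near_root {q : ℂ[X]} (hq : q.Monic) {d : ℕ} (hd : q.natDegree = d) (a : ℂ) {ε : ℝ}
    (hε : 0 < ε) (h : ‖q.eval a‖ < ε ^ d) : ∃ w, q.eval w = 0 ∧ ‖w - a‖ < ε := by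
  by_contra hne
  push Not at hne
  have h1 := (IsAlgClosed.splits q).eval_eq_prod_roots_of_monic hq a
  have h2 := pow_le_prod a hε.le q.roots fun w hw =>
    hne w ((mem_roots hq.ne_zero).1 hw)
  rw [IsAlgClosed.card_roots_eq_natDegree, hd, ← h1] at h2
  exact absurd h (not_lt.2 h2)

theorem enum_roots {p : ℂ[X]} (hp : p.Monic) {d : ℕ} (hd : p.natDegree = d) (hs : p.Separable) :
    ∃ r : Fin d → ℂ, Function.Injective r ∧ ∀ i, p.eval (r i) = 0 := by
  have hc : p.roots.toFinset.card = d := by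
    rw [Multiset.toFinset_card_of_nodup (nodup_roots hs), IsAlgClosed.card_roots_eq_natDegree, hd]
  let e := Finset.equivFinOfCardEq hc
  refine ⟨fun i => (e.symm i : ℂ), fun i j hij => e.symm.injective (Subtype.ext hij), fun i => ?_⟩
  have := (e.symm i).2
  rw [Multiset.mem_toFinset] at this
  exact (mem_roots hp.ne_zero).1 this

theorem image_eq {q : ℂ[X]} (hq : q.Monic) {d : ℕ} (hd : q.natDegree = d) {u : Fin d → ℂ}
    (hu : Function.Injective u) (hr : ∀ i, q.eval (u i) = 0) :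
    Finset.univ.image u = q.roots.toFinset := by
  refine Finset.eq_of_subset_of_card_le (fun w hw => ?_) ?_
  · obtain ⟨i, -, rfl⟩ := Finset.mem_image.1 hw
    exact Multiset.mem_toFinset.2 ((mem_roots hq.ne_zero).2 (hr i))
  · rw [Finset.card_image_of_injective _ hu, Finset.card_univ, Fintype.card_fin]
    exact (Multiset.toFinset_card_le _).trans
      (by rw [IsAlgClosed.card_roots_eq_natDegree, hd])

theorem all_roots {q : ℂ[X]} (hq : q.Monic) {d : ℕ} (hd : q.natDegree = d) {u : Fin d → ℂ}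
    (hu : Function.Injective u) (hr : ∀ i, q.eval (u i) = 0) (w : ℂ) :
    q.eval w = 0 ↔ ∃ i, u i = w := by
  refine ⟨fun hw => ?_, fun ⟨i, hi⟩ => hi ▸ hr i⟩
  have : w ∈ Finset.univ.image u := by
    rw [image_eq hq hd hu hr]
    exact Multiset.mem_toFinset.2 ((mem_roots hq.ne_zero).2 hw)
  obtain ⟨i, -, hi⟩ := Finset.mem_image.1 this
  exact ⟨i, hi⟩

theorem sep_of_inj {q : ℂ[X]} (hq : q.Monic) {d : ℕ} (hd : q.natDegree = d) {u : Fin d → ℂ}
    (hu : Function.Injective u) (hr : ∀ i, q.eval (u i) = 0) : q.Separable := by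
  rw [← nodup_roots_iff_of_splits hq.ne_zero (IsAlgClosed.splits q),
    ← Multiset.toFinset_card_eq_card_iff_nodup, ← image_eq hq hd hu hr,
    Finset.card_image_of_injective _ hu, Finset.card_univ, Fintype.card_fin,
    IsAlgClosed.card_roots_eq_natDegree, hd]

theorem tendsto_eval {X : Type} {F : Filter X} {c : X → ℂ[X]} {p : ℂ[X]} {d : ℕ}
    (hc : ∀ᶠ x in F, (c x).natDegree = d) (hp : p.natDegree = d)
    (hk : ∀ k ≤ d, Tendsto (fun x => (c x).coeff k) F (𝓝 (p.coeff k))) (a : ℂ) :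
    Tendsto (fun x => (c x).eval a) F (𝓝 (p.eval a)) := by
  have h1 : Tendsto (fun x => ∑ k ∈ Finset.range (d + 1), (c x).coeff k * a ^ k) F
      (𝓝 (∑ k ∈ Finset.range (d + 1), p.coeff k * a ^ k)) :=
    tendsto_finsetSum _ fun k hk' =>
      (hk k (Nat.lt_succ_iff.1 (Finset.mem_range.1 hk'))).mul_const _
  rw [eval_eq_sum_range, hp]
  refine h1.congr' (hc.mono fun x hx => ?_)
  beta_reduce
  rw [eval_eq_sum_range, hx]

/-- The root in the disc of radius `ρ` around `a`. -/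
def br (ρ : ℝ) (a : ℂ) (q : ℂ[X]) : ℂ :=
  if h : ∃ w, q.eval w = 0 ∧ ‖w - a‖ < ρ then h.choose else a

/-- Every disc contains a root. -/
def Good {d : ℕ} (ρ : ℝ) (r : Fin d → ℂ) (q : ℂ[X]) : Prop :=
  q.Monic ∧ q.natDegree = d ∧ ∀ i, ∃ w, q.eval w = 0 ∧ ‖w - r i‖ < ρ

/-- The discs are disjoint. -/
def Apart {d : ℕ} (ρ : ℝ) (r : Fin d → ℂ) : Prop :=
  ∀ i j w, ‖w - r i‖ < ρ → ‖w - r j‖ < ρ → i = j

theorem exists_apart {d : ℕ} {r : Fin d → ℂ} (hr : Function.Injective r) :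
    ∃ ρ > 0, Apart ρ r := by
  have h1 : ∀ᶠ ρ in 𝓝[>] (0 : ℝ), ∀ p : Fin d × Fin d, p.1 ≠ p.2 → 2 * ρ < ‖r p.1 - r p.2‖ := by
    refine eventually_all.2 fun p => ?_
    by_cases hp : p.1 = p.2
    · exact Eventually.of_forall fun _ h => absurd hp h
    · have h0 : 0 < ‖r p.1 - r p.2‖ := norm_pos_iff.2 (sub_ne_zero.2 fun h => hp (hr h))
      have h2 : ∀ᶠ ρ in 𝓝 (0 : ℝ), ρ < ‖r p.1 - r p.2‖ / 2 := eventually_lt_nhds (by positivity)
      exact (h2.filter_mono nhdsWithin_le_nhds).mono fun ρ hρ _ => by linarith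
  obtain ⟨ρ, hρ, h0⟩ := (h1.and self_mem_nhdsWithin).exists
  refine ⟨ρ, h0, fun i j w hi hj => ?_⟩
  by_contra hij
  have h3 := hρ (i, j) hij
  have h4 : ‖r i - r j‖ ≤ ‖w - r i‖ + ‖w - r j‖ := by
    have : r i - r j = (w - r j) - (w - r i) := by ring
    rw [this, add_comm]
    exact norm_sub_le _ _
  simp only at h3
  linarith

variable {d : ℕ} {ρ : ℝ} {r : Fin d → ℂ}

theorem Good.spec {q : ℂ[X]} (h : Good ρ r q) (i : Fin d) :
    q.eval (br ρ (r i) q) = 0 ∧ ‖br ρ (r i) q - r i‖ < ρ := by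
  unfold br
  rw [dif_pos (h.2.2 i)]
  exact (h.2.2 i).choose_spec

theorem Good.inj {q : ℂ[X]} (h : Good ρ r q) (hA : Apart ρ r) :
    Function.Injective fun i => br ρ (r i) q := fun i j hij => by
  have hij' : br ρ (r i) q = br ρ (r j) q := hij
  exact hA i j _ (h.spec i).2 (hij' ▸ (h.spec j).2)

theorem Good.roots {q : ℂ[X]} (h : Good ρ r q) (hA : Apart ρ r) (w : ℂ) :
    q.eval w = 0 ↔ ∃ i, br ρ (r i) q = w :=
  all_roots h.1 h.2.1 (h.inj hA) (fun i => (h.spec i).1) w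

theorem Good.uniq {q : ℂ[X]} (h : Good ρ r q) (hA : Apart ρ r) {w : ℂ} {i : Fin d}
    (hw : q.eval w = 0) (hi : ‖w - r i‖ < ρ) : br ρ (r i) q = w := by
  obtain ⟨j, hj⟩ := (h.roots hA w).1 hw
  have : i = j := hA i j w hi (hj ▸ (h.spec j).2)
  rw [this, hj]

theorem Good.sep {q : ℂ[X]} (h : Good ρ r q) (hA : Apart ρ r) : q.Separable :=
  sep_of_inj h.1 h.2.1 (h.inj hA) fun i => (h.spec i).1

theorem Good.near {X : Type} {F : Filter X} {c : X → ℂ[X]} {p : ℂ[X]} (h : Good ρ r p)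
    (hc : ∀ᶠ x in F, (c x).Monic ∧ (c x).natDegree = d)
    (hk : ∀ k ≤ d, Tendsto (fun x => (c x).coeff k) F (𝓝 (p.coeff k))) (i : Fin d) {ε : ℝ}
    (hε : 0 < ε) :
    ∀ᶠ x in F, ∃ w, (c x).eval w = 0 ∧ ‖w - br ρ (r i) p‖ < ε ∧ ‖w - r i‖ < ρ := by
  have hs := h.spec i
  set a := br ρ (r i) p
  set ε' := min ε (ρ - ‖a - r i‖) with hε'
  have hpos : 0 < ε' := lt_min hε (by linarith [hs.2])
  have h1 := (tendsto_eval (hc.mono fun x hx => hx.2) h.2.1 hk a).norm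
  rw [hs.1, norm_zero] at h1
  filter_upwards [hc, h1.eventually (eventually_lt_nhds (pow_pos hpos d))] with x hx h2
  obtain ⟨w, hw, hw'⟩ := near_root hx.1 hx.2 a hpos h2
  refine ⟨w, hw, hw'.trans_le (min_le_left _ _), ?_⟩
  have h3 : ‖w - r i‖ ≤ ‖w - a‖ + ‖a - r i‖ := norm_sub_le_norm_sub_add_norm_sub _ _ _
  have h4 : ε' ≤ ρ - ‖a - r i‖ := min_le_right _ _
  linarith

theorem Good.eventually {X : Type} {F : Filter X} {c : X → ℂ[X]} {p : ℂ[X]} (h : Good ρ r p)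
    (hc : ∀ᶠ x in F, (c x).Monic ∧ (c x).natDegree = d)
    (hk : ∀ k ≤ d, Tendsto (fun x => (c x).coeff k) F (𝓝 (p.coeff k))) :
    ∀ᶠ x in F, Good ρ r (c x) := by
  filter_upwards [hc, eventually_all.2 fun i => h.near hc hk i one_pos] with x hx h1
  refine ⟨hx.1, hx.2, fun i => ?_⟩
  obtain ⟨w, hw, -, hw'⟩ := h1 i
  exact ⟨w, hw, hw'⟩

theorem Good.tendsto {X : Type} {F : Filter X} {c : X → ℂ[X]} {p : ℂ[X]} (h : Good ρ r p)
    (hA : Apart ρ r) (hc : ∀ᶠ x in F, (c x).Monic ∧ (c x).natDegree = d)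
    (hk : ∀ k ≤ d, Tendsto (fun x => (c x).coeff k) F (𝓝 (p.coeff k))) (i : Fin d) :
    Tendsto (fun x => br ρ (r i) (c x)) F (𝓝 (br ρ (r i) p)) := by
  refine Metric.tendsto_nhds.2 fun ε hε => ?_
  filter_upwards [h.eventually hc hk, h.near hc hk i hε] with x hx ⟨w, hw, h1, h2⟩
  rw [hx.uniq hA hw h2, dist_eq_norm]
  exact h1

theorem exists_good {p : ℂ[X]} (hp : p.Monic) (hd : p.natDegree = d) (hs : p.Separable) :
    ∃ (ρ : ℝ) (r : Fin d → ℂ), Apart ρ r ∧ Good ρ r p := by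
  obtain ⟨r, hr, hr0⟩ := enum_roots hp hd hs
  obtain ⟨ρ, hρ, hA⟩ := exists_apart hr
  exact ⟨ρ, r, hA, hp, hd, fun i => ⟨r i, hr0 i, by simpa using hρ⟩⟩

/-- Implicit differentiation. -/
theorem differentiableAt_root {c : ℂ → ℂ[X]} {l : ℂ} {v : ℂ → ℂ}
    (hc : ∀ᶠ x in 𝓝 l, (c x).natDegree = d ∧ (c x).eval (v x) = 0)
    (hk : ∀ k ≤ d, DifferentiableAt ℂ (fun x => (c x).coeff k) l) (hs : (c l).Separable)
    (hv : ContinuousAt v l) : DifferentiableAt ℂ v l := by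
  have hl := hc.self_of_nhds
  obtain ⟨g, hg⟩ : X - C (v l) ∣ c l := dvd_iff_isRoot.2 hl.2
  have hg0 : g.eval (v l) ≠ 0 := by
    have h1 := hs.eval₂_derivative_ne_zero (RingHom.id ℂ) (x := v l) (by simpa using hl.2)
    rw [hg] at h1
    simpa using h1
  have hgv : Tendsto (fun x => g.eval (v x)) (𝓝 l) (𝓝 (g.eval (v l))) :=
    (g.continuous.tendsto _).comp hv
  have h2 : Tendsto (fun x => -(∑ k ∈ Finset.range (d + 1),
        slope (fun x => (c x).coeff k) l x * v x ^ k) / g.eval (v x)) (𝓝[≠] l)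
      (𝓝 (-(∑ k ∈ Finset.range (d + 1), deriv (fun x => (c x).coeff k) l * v l ^ k) /
        g.eval (v l))) := by
    refine Tendsto.div (Tendsto.neg (tendsto_finsetSum _ fun k hk' => Tendsto.mul ?_ ?_))
      (hgv.mono_left nhdsWithin_le_nhds) hg0
    · exact hasDerivAt_iff_tendsto_slope.1
        (hk k (Nat.lt_succ_iff.1 (Finset.mem_range.1 hk'))).hasDerivAt
    · exact (hv.tendsto.pow k).mono_left nhdsWithin_le_nhds
  refine (hasDerivAt_iff_tendsto_slope.2 (h2.congr' ?_)).differentiableAt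
  filter_upwards [hc.filter_mono nhdsWithin_le_nhds,
    (hgv.eventually_ne hg0).filter_mono nhdsWithin_le_nhds, self_mem_nhdsWithin] with x hx h0 hxl
  have hxl' : x - l ≠ 0 := sub_ne_zero.2 hxl
  have e1 : ∑ k ∈ Finset.range (d + 1), (c x).coeff k * v x ^ k = 0 := by
    rw [← hx.2, eval_eq_sum_range, hx.1]
  have e2 : ∑ k ∈ Finset.range (d + 1), (c l).coeff k * v x ^ k = (v x - v l) * g.eval (v x) := by
    have : (c l).eval (v x) = (v x - v l) * g.eval (v x) := by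
      conv_lhs => rw [hg]
      simp
    rw [← this, eval_eq_sum_range, hl.1]
  have e3 : ∑ k ∈ Finset.range (d + 1), slope (fun x => (c x).coeff k) l x * v x ^ k =
      (x - l)⁻¹ * (∑ k ∈ Finset.range (d + 1), (c x).coeff k * v x ^ k -
        ∑ k ∈ Finset.range (d + 1), (c l).coeff k * v x ^ k) := by
    rw [← Finset.sum_sub_distrib, Finset.mul_sum]
    refine Finset.sum_congr rfl fun k _ => ?_
    rw [slope_def_field, div_eq_inv_mul]
    ring
  rw [e3, e1, e2, slope_def_field]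
  field_simp
  ring

theorem part2 (X : Type) [TopologicalSpace X] (D : Set X) (c : X → ℂ[X]) (x₀ : X) (d : ℕ)
    (hx₀ : x₀ ∈ D) (hc : ∀ᶠ x in 𝓝[D] x₀, (c x).Monic ∧ (c x).natDegree = d)
    (hk : ∀ k, ContinuousWithinAt (fun x => (c x).coeff k) D x₀) (hs : (c x₀).Separable) :
    ∃ v : Fin d → X → ℂ, (∀ i, ContinuousWithinAt (v i) D x₀) ∧ ∀ᶠ x in 𝓝[D] x₀,
      Function.Injective (fun i => v i x) ∧ ∀ w, (c x).eval w = 0 ↔ ∃ i, v i x = w := by
  have h0 := hc.self_of_nhdsWithin hx₀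
  obtain ⟨ρ, r, hA, hG⟩ := exists_good h0.1 h0.2 hs
  refine ⟨fun i x => br ρ (r i) (c x), fun i => hG.tendsto hA hc (fun k _ => hk k) i, ?_⟩
  exact (hG.eventually hc fun k _ => hk k).mono fun x hx => ⟨hx.inj hA, hx.roots hA⟩

theorem part1 (c : ℂ → ℂ[X]) (l : ℂ) (d : ℕ)
    (hc : ∀ᶠ x in 𝓝 l, (c x).Monic ∧ (c x).natDegree = d)
    (hk : ∀ k, AnalyticAt ℂ (fun x => (c x).coeff k) l) (hs : (c l).Separable) :
    ∃ v : Fin d → ℂ → ℂ, (∀ i, AnalyticAt ℂ (v i) l) ∧ ∀ᶠ x in 𝓝 l,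
      Function.Injective (fun i => v i x) ∧ ∀ w, (c x).eval w = 0 ↔ ∃ i, v i x = w := by
  have h0 := hc.self_of_nhds
  obtain ⟨ρ, r, hA, hG⟩ := exists_good h0.1 h0.2 hs
  have hE := hG.eventually hc fun k _ => (hk k).continuousAt
  refine ⟨fun i x => br ρ (r i) (c x), fun i => ?_,
    hE.mono fun x hx => ⟨hx.inj hA, hx.roots hA⟩⟩
  rw [Complex.analyticAt_iff_eventually_differentiableAt]
  have hk' : ∀ᶠ x in 𝓝 l, ∀ k ∈ Finset.range (d + 1), AnalyticAt ℂ (fun x => (c x).coeff k) x :=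
    (Finset.eventually_all _).2 fun k _ => (hk k).eventually_analyticAt
  filter_upwards [hE.eventually_nhds, hk'] with x hx hx'
  have hx0 := hx.self_of_nhds
  have hd : ∀ k ≤ d, AnalyticAt ℂ (fun x => (c x).coeff k) x := fun k hk =>
    hx' k (Finset.mem_range.2 (Nat.lt_succ_of_le hk))
  exact differentiableAt_root (c := c) (d := d) (hx.mono fun y hy => ⟨hy.2.1, (hy.spec i).1⟩)
    (fun k hk => (hd k hk).differentiableAt) (hx0.sep hA)
    (hx0.tendsto hA (hx.mono fun y hy => ⟨hy.1, hy.2.1⟩) (fun k hk => (hd k hk).continuousAt) i)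

/-- Continuous branches on an open neighbourhood. -/
theorem branches {c : ℝ → ℂ[X]} (hc : ∀ s, (c s).Monic ∧ (c s).natDegree = d ∧ (c s).Separable)
    (hk : ∀ k, Continuous fun s => (c s).coeff k) (s₁ : ℝ) :
    ∃ (V : Set ℝ) (v : Fin d → ℝ → ℂ), s₁ ∈ V ∧ IsOpen V ∧ ∀ s ∈ V,
      (∀ i, ContinuousAt (v i) s) ∧ Function.Injective (fun i => v i s) ∧
        ∀ w, (c s).eval w = 0 ↔ ∃ i, v i s = w := by
  obtain ⟨ρ, r, hA, hG⟩ := exists_good (hc s₁).1 (hc s₁).2.1 (hc s₁).2.2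
  have hm : ∀ s : ℝ, ∀ᶠ x in 𝓝 s, (c x).Monic ∧ (c x).natDegree = d := fun s =>
    Eventually.of_forall fun x => ⟨(hc x).1, (hc x).2.1⟩
  refine ⟨{s | Good ρ r (c s)}, fun i s => br ρ (r i) (c s), hG, ?_, fun s hs =>
    ⟨fun i => Good.tendsto hs hA (hm s) (fun k _ => (hk k).continuousAt) i, Good.inj hs hA,
      Good.roots hs hA⟩⟩
  exact isOpen_iff_mem_nhds.2 fun s hs =>
    Good.eventually hs (hm s) fun k _ => (hk k).continuousAt

theorem unique_lift {c : ℝ → ℂ[X]} (hc : ∀ s, (c s).Monic ∧ (c s).natDegree = d ∧ (c s).Separable)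
    (hk : ∀ k, Continuous fun s => (c s).coeff k) (θ θ' : ℝ → ℂ) (hθ : Continuous θ)
    (hθ' : Continuous θ') (h : ∀ s, (c s).eval (θ s) = 0) (h' : ∀ s, (c s).eval (θ' s) = 0)
    (s₀ : ℝ) (h₀ : θ s₀ = θ' s₀) : θ = θ' := by
  have hcl : IsClopen {s | θ s = θ' s} := by
    refine ⟨isClosed_eq hθ hθ', isOpen_iff_mem_nhds.2 fun s₁ hs₁ => ?_⟩
    obtain ⟨V, v, hV, hVo, hv⟩ := branches hc hk s₁
    obtain ⟨i, hi⟩ := ((hv s₁ hV).2.2 _).1 (h s₁)
    have key : ∀ η : ℝ → ℂ, Continuous η → (∀ s, (c s).eval (η s) = 0) → v i s₁ = η s₁ →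
        ∀ᶠ s in 𝓝 s₁, η s = v i s := by
      intro η hη hr hi
      have h1 : ∀ᶠ s in 𝓝 s₁, ∀ j, j ≠ i → v j s ≠ η s := by
        refine eventually_all.2 fun j => ?_
        by_cases hj : j = i
        · exact Eventually.of_forall fun _ h => absurd hj h
        · have hne : v j s₁ - η s₁ ≠ 0 := by
            rw [← hi]
            exact sub_ne_zero.2 fun h => hj ((hv s₁ hV).2.1 h)
          exact ((((hv s₁ hV).1 j).sub hη.continuousAt).eventually_ne hne).mono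
            fun s hs _ => sub_ne_zero.1 hs
      filter_upwards [h1, hVo.mem_nhds hV] with s h1 h2
      obtain ⟨j, hj⟩ := ((hv s h2).2.2 _).1 (hr s)
      by_cases hji : j = i
      · rw [← hj, hji]
      · exact absurd hj (h1 j hji)
    filter_upwards [key θ hθ h hi, key θ' hθ' h' (hi.trans hs₁)] with s h1 h2
    exact h1.trans h2.symm
  have := hcl.eq_univ ⟨s₀, h₀⟩
  funext s
  have hs : s ∈ {s | θ s = θ' s} := this ▸ mem_univ s
  exact hs

theorem covering {c : ℝ → ℂ[X]} (hc : ∀ s, (c s).Monic ∧ (c s).natDegree = d ∧ (c s).Separable)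
    (hk : ∀ k, Continuous fun s => (c s).coeff k) :
    IsCoveringMap fun e : {p : ℝ × ℂ // (c p.1).eval p.2 = 0} => e.1.1 := by
  intro s₁
  obtain ⟨V, v, hV, hVo, hv⟩ := branches hc hk s₁
  set f : {p : ℝ × ℂ // (c p.1).eval p.2 = 0} → ℝ := fun e => e.1.1 with hf
  have hfc : Continuous f := continuous_fst.comp continuous_subtype_val
  refine IsEvenlyCovered.to_isEvenlyCovered_preimage (I := Fin d)
    ⟨inferInstance, V, hV, hVo, hVo.preimage hfc, ?_⟩
  have hidx : ∀ e : f ⁻¹' V, ∃ i, v i e.1.1.1 = e.1.1.2 := fun e =>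
    ((hv _ e.2).2.2 _).1 e.1.2
  choose idx hidx using hidx
  have hvc : ∀ i, Continuous fun s : V => v i s := fun i =>
    continuous_iff_continuousAt.2 fun s =>
      ((hv s s.2).1 i).comp continuous_subtype_val.continuousAt
  have hp : Continuous fun e : f ⁻¹' V => (⟨f e.1, e.2⟩ : V) :=
    (hfc.comp continuous_subtype_val).subtype_mk _
  refine ⟨{
    toFun := fun e => (⟨f e.1, e.2⟩, idx e)
    invFun := fun x => ⟨⟨(x.1.1, v x.2 x.1.1), ((hv _ x.1.2).2.2 _).2 ⟨x.2, rfl⟩⟩, x.1.2⟩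
    left_inv := fun e => Subtype.ext (Subtype.ext (Prod.ext rfl (hidx e)))
    right_inv := fun x => Prod.ext rfl ((hv _ x.1.2).2.1 (hidx _))
    continuous_toFun := hp.prodMk ?_
    continuous_invFun := ?_ }, fun _ => rfl⟩
  · refine continuous_iff_isClosed.2 fun S _ => ?_
    have : idx ⁻¹' S = ⋃ i ∈ S, {e : f ⁻¹' V | v i e.1.1.1 = e.1.1.2} := by
      ext e
      simp only [mem_preimage, mem_iUnion, exists_prop]
      refine ⟨fun h => ⟨_, h, hidx e⟩, fun ⟨i, hi, he⟩ => ?_⟩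
      have : idx e = i := (hv _ e.2).2.1 ((hidx e).trans (Eq.symm he))
      rwa [this]
    rw [this]
    exact (toFinite S).isClosed_biUnion fun i _ => isClosed_eq ((hvc i).comp hp)
      (continuous_snd.comp (continuous_subtype_val.comp continuous_subtype_val))
  · refine Continuous.subtype_mk (Continuous.subtype_mk
      ((continuous_subtype_val.comp continuous_fst).prodMk ?_) _) _
    exact continuous_prod_of_discrete_right.2 fun i => hvc i

theorem exists_lift {c : ℝ → ℂ[X]} (hc : ∀ s, (c s).Monic ∧ (c s).natDegree = d ∧ (c s).Separable)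
    (hk : ∀ k, Continuous fun s => (c s).coeff k) (s₀ : ℝ) (θ₀ : ℂ) (h₀ : (c s₀).eval θ₀ = 0) :
    ∃ θ : ℝ → ℂ, Continuous θ ∧ θ s₀ = θ₀ ∧ ∀ s, (c s).eval (θ s) = 0 := by
  obtain ⟨F, ⟨hF0, hF⟩, -⟩ := (covering hc hk).existsUnique_continuousMap_lifts
    (ContinuousMap.id ℝ) s₀ ⟨(s₀, θ₀), h₀⟩ rfl
  refine ⟨fun s => (F s).1.2, continuous_snd.comp (continuous_subtype_val.comp F.continuous),
    by simp only [hF0], fun s => ?_⟩
  have h1 : (F s).1.1 = s := congrFun hF s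
  have h2 := (F s).2
  rwa [h1] at h2

end Root

theorem Root_of : S_Root :=
  ⟨Root.part1, Root.part2, fun _ _ hc hk =>
    ⟨Root.exists_lift hc hk, Root.unique_lift hc hk⟩⟩

end

end Pool.Agent.P.MP_daea48_ag
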