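import Pool.Agent.P.MP_daea48_ag.SP1

/-! Package SP: primitive element and specialisation. -/

open Polynomial

namespace Pool.Agent.P.MP_daea48_ag

namespace SP

section one

variable {k σ τ A : Type} [Field k] [CommRing A]

theorem map_eq_mon {Λ : Type} [CommRing Λ] {P : A[X]} (hP : P.Monic) (χ : A →+* Λ) :
    mon (fun i : Fin P.natDegree => χ (P.coeff i)) = P.map χ := by
  conv_rhs => rw [hP.as_sum]
  rw [Polynomial.map_add, Polynomial.map_pow, map_X, Polynomial.map_sum, mon, Finset.sum_range]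
  simp only [Polynomial.map_mul, map_C, Polynomial.map_pow, map_X]

theorem exists_lift (π : MvPolynomial σ k →+* A) (hπ : Function.Surjective π) (q : A[X]) :
    ∃ H : MvPolynomial (Option σ) k, ∀ (Λ : Type) [CommRing Λ] (j : k →+* Λ) (ξ : σ → Λ)
      (χ : A →+* Λ), (∀ g, χ (π g) = g.eval₂ j ξ) → ∀ θ,
        H.eval₂ j (fun o => o.elim θ ξ) = q.eval₂ χ θ := by
  induction q using Polynomial.induction_on' with
  | add p q hp hq =>
    obtain ⟨H, hH⟩ := hp
    obtain ⟨H', hH'⟩ := hq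
    exact ⟨H + H', fun Λ _ j ξ χ h θ => by
      rw [MvPolynomial.eval₂_add, eval₂_add, hH Λ j ξ χ h, hH' Λ j ξ χ h]⟩
  | monomial n a =>
    obtain ⟨g, rfl⟩ := hπ a
    refine ⟨MvPolynomial.rename some g * MvPolynomial.X none ^ n, fun Λ _ j ξ χ h θ => ?_⟩
    rw [MvPolynomial.eval₂_mul, MvPolynomial.eval₂_pow, MvPolynomial.eval₂_X,
      MvPolynomial.eval₂_rename, eval₂_monomial, h]
    rfl

theorem exists_curry (π : MvPolynomial σ k →+* A) (G : MvPolynomial (σ ⊕ τ) k) :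
    ∃ G' : MvPolynomial τ A, ∀ (Λ : Type) [CommRing Λ] (j : k →+* Λ) (ξ : σ → Λ)
      (χ : A →+* Λ), (∀ g, χ (π g) = g.eval₂ j ξ) → ∀ c : τ → Λ,
        G'.eval₂ χ c = G.eval₂ j (Sum.elim ξ c) := by
  induction G using MvPolynomial.induction_on with
  | C a =>
    exact ⟨MvPolynomial.C (π (MvPolynomial.C a)), fun Λ _ j ξ χ h c => by
      rw [MvPolynomial.eval₂_C, h, MvPolynomial.eval₂_C, MvPolynomial.eval₂_C]⟩
  | add p q hp hq =>
    obtain ⟨H, hH⟩ := hp
    obtain ⟨H', hH'⟩ := hq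
    exact ⟨H + H', fun Λ _ j ξ χ h c => by
      rw [MvPolynomial.eval₂_add, MvPolynomial.eval₂_add, hH Λ j ξ χ h, hH' Λ j ξ χ h]⟩
  | mul_X p s hp =>
    obtain ⟨H, hH⟩ := hp
    rcases s with s | s
    · exact ⟨H * MvPolynomial.C (π (MvPolynomial.X s)), fun Λ _ j ξ χ h c => by
        rw [MvPolynomial.eval₂_mul, MvPolynomial.eval₂_mul, hH Λ j ξ χ h, MvPolynomial.eval₂_C, h,
          MvPolynomial.eval₂_X, MvPolynomial.eval₂_X, Sum.elim_inl]⟩
    · exact ⟨H * MvPolynomial.X s, fun Λ _ j ξ χ h c => by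
        rw [MvPolynomial.eval₂_mul, MvPolynomial.eval₂_mul, hH Λ j ξ χ h,
          MvPolynomial.eval₂_X, MvPolynomial.eval₂_X, Sum.elim_inr]⟩

end one

theorem part1 (k Ω σ τ : Type) [Field k] [CharZero k] [Field Ω] [Finite τ] (f : k →+* Ω)
    (ξ : σ → Ω) (c : τ → Ω) : ∃ (D : MvPolynomial σ k) (d : ℕ) (a : Fin d → MvPolynomial σ k)
      (Cf : τ → MvPolynomial (Option σ) k), D.eval₂ f ξ ≠ 0 ∧ 0 < d ∧
      ∀ (Λ : Type) [Field Λ] (j : k →+* Λ) (ξ' : σ → Λ), Spz f ξ j ξ' → D.eval₂ j ξ' ≠ 0 →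
        ∀ θ, (mon (evs j ξ' a)).eval θ = 0 → (derivative (mon (evs j ξ' a))).eval θ ≠ 0 ∧
          Spz f (Sum.elim ξ c) j (Sum.elim ξ' fun s =>
            (Cf s).eval₂ j (fun o => o.elim θ ξ') / D.eval₂ j ξ') := by
  let e : MvPolynomial σ k →+* Ω := MvPolynomial.eval₂Hom f ξ
  have : (RingHom.ker e).IsPrime := RingHom.ker_isPrime e
  let π := Ideal.Quotient.mk (RingHom.ker e)
  have hπ : Function.Surjective π := Ideal.Quotient.mk_surjective
  have : CharZero (MvPolynomial σ k ⧸ RingHom.ker e) :=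
    charZero_of_injective_algebraMap (algebraMap k _).injective
  obtain ⟨L, _, ι, c', P, D, Cf, θ₀, H, hL⟩ :=
    exists_data_any (RingHom.kerLift e) (RingHom.kerLift_injective e) c
  have hφ : ∀ g, RingHom.kerLift e (π g) = g.eval₂ f ξ := fun g => RingHom.kerLift_mk e g
  obtain ⟨D', rfl⟩ := hπ D
  choose a ha using fun i : Fin P.natDegree => hπ (P.coeff i)
  choose Cf' hCf' using fun s => exists_lift π hπ (Cf s)
  refine ⟨D', P.natDegree, a, Cf', fun h => H.ne (RingHom.kerLift_injective e ?_), H.pos,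
    fun Λ _ j ξ' hs hD θ hθ => ?_⟩
  · rw [hφ, h, map_zero]
  let χ : (MvPolynomial σ k ⧸ RingHom.ker e) →+* Λ :=
    Ideal.Quotient.lift _ (MvPolynomial.eval₂Hom j ξ') fun g hg => hs g hg
  have hχ : ∀ g, χ (π g) = g.eval₂ j ξ' := fun g => rfl
  have hm : mon (evs j ξ' a) = P.map χ := by
    rw [← map_eq_mon H.monic χ]
    congr 1
    funext i
    rw [← ha, hχ]
  rw [hm, eval_map] at hθ
  rw [← hχ] at hD
  refine ⟨?_, fun G hG => ?_⟩
  · rw [hm, derivative_map, eval_map]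
    exact H.der_ne hθ hD
  · obtain ⟨G', hG'⟩ := exists_curry π G
    rw [← hG' Ω f ξ _ hφ] at hG
    have h1 := H.spec hθ hD G' (hL G' hG)
    rw [hG' Λ j ξ' χ hχ] at h1
    simpa only [hCf' _ Λ j ξ' χ hχ, hχ] using h1

theorem inj_of_transcendental {k L : Type} [Field k] [Field L] [Algebra k L] (S : Subalgebra k L)
    {ε : L} (h : Transcendental S ε) : Function.Injective (eval₂RingHom S.toSubring.subtype ε) := by
  refine (injective_iff_map_eq_zero _).2 fun p hp => ?_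
  by_contra h0
  exact h ⟨p, h0, hp⟩

theorem alg_of_le {k L A : Type} [Field k] [Field L] [Algebra k L] [CommRing A] (ι : A →+* L)
    (S : Subalgebra k L) (hle : ∀ w ∈ S, w ∈ ι.range) {z : L} (hz : IsAlgebraic S z) :
    ∃ p : A[X], p ≠ 0 ∧ p.eval₂ ι z = 0 := by
  obtain ⟨p, hp, hz⟩ := hz
  obtain ⟨q, hq⟩ : p.map (algebraMap S L) ∈ lifts ι := by
    rw [lifts_iff_coeff_lifts]
    intro n
    rw [coeff_map]
    exact hle _ (p.coeff n).2
  rw [coe_mapRingHom] at hq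
  refine ⟨q, fun h => ?_, ?_⟩
  · rw [h, Polynomial.map_zero] at hq
    exact (Polynomial.map_ne_zero_iff Subtype.val_injective).2 hp hq.symm
  · rw [← eval_map, hq, eval_map, ← aeval_def, hz]

theorem adjoin_le {k L : Type} [Field k] [Field L] [Algebra k L] (S : Subalgebra k L) (ε : L)
    (t : Set L) (ht : ∀ w ∈ t, w = ε ∨ w ∈ S) :
    ∀ w ∈ Algebra.adjoin k t, w ∈ (eval₂RingHom S.toSubring.subtype ε).range := by
  intro w hw
  induction hw using Algebra.adjoin_induction with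
  | mem w hw =>
    rcases ht w hw with h | h
    · exact ⟨X, by rw [h, coe_eval₂RingHom, eval₂_X]⟩
    · exact ⟨C ⟨w, h⟩, by rw [coe_eval₂RingHom, eval₂_C]; rfl⟩
  | algebraMap r => exact ⟨C ⟨_, S.algebraMap_mem r⟩, by rw [coe_eval₂RingHom, eval₂_C]; rfl⟩
  | add a b _ _ ha hb => exact add_mem ha hb
  | mul a b _ _ ha hb => exact mul_mem ha hb

theorem exists_base' {k L : Type} [Field k] [Field L] [Algebra k L] {ε : L}
    (h : Transcendental k ε) :
    ∃ (S : Subalgebra k L) (t : Set L), Transcendental S ε ∧ (∀ w ∈ t, w = ε ∨ w ∈ S) ∧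
      ∀ z : L, IsAlgebraic (Algebra.adjoin k t) z := by
  have hind : AlgebraicIndepOn k id ({ε} : Set L) :=
    (algebraicIndependent_singleton_iff (x := fun i : ({ε} : Set L) => id (i : L)) ⟨ε, rfl⟩).2 h
  obtain ⟨t, ht, hb⟩ := exists_isTranscendenceBasis_superset hind
  have h0 : ε ∈ t := ht rfl
  refine ⟨_, _, hb.1.transcendental_adjoin (s := {⟨ε, h0⟩}ᶜ) (i := ⟨ε, h0⟩) fun h => h rfl, ?_,
    fun z => hb.isAlgebraic.isAlgebraic z⟩
  rintro _ ⟨w, rfl⟩
  by_cases h : w = ⟨ε, h0⟩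
  · exact Or.inl (by rw [h])
  · exact Or.inr (Algebra.subset_adjoin ⟨w, h, rfl⟩)

/-- A point of an uncountable set that is transcendental over a ring of constants, such that all
elements are algebraic over the ring it generates. -/
theorem exists_base {L : Type} [Field L] (T : Set L) (hT : T.Countable) (𝓔 : Set L)
    (h𝓔 : ¬ 𝓔.Countable) :
    ∃ ε₀ ∈ 𝓔, ∃ R : Subring L, T ⊆ R ∧ Function.Injective (eval₂RingHom R.subtype ε₀) ∧
      ∀ z, ∃ p : R[X][X], p ≠ 0 ∧ p.eval₂ (eval₂RingHom R.subtype ε₀) z = 0 := by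
  have : Countable (Subfield.closure T) := by
    rw [← Cardinal.mk_le_aleph0_iff]
    exact (Subfield.cardinalMk_closure_le_max T).trans
      (max_le (Cardinal.le_aleph0_iff_set_countable.2 hT) le_rfl)
  obtain ⟨ε₀, hε, htr⟩ : ∃ ε₀ ∈ 𝓔, Transcendental (Subfield.closure T) ε₀ := by
    by_contra h
    push Not at h
    exact h𝓔 ((Algebraic.countable (Subfield.closure T) L).mono fun ε hε => not_not.1 (h ε hε))
  obtain ⟨S, t, h1, h2, h3⟩ := exists_base' htr
  exact ⟨ε₀, hε, S.toSubring, fun z hz => S.algebraMap_mem ⟨z, Subfield.subset_closure hz⟩,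
    inj_of_transcendental S h1, fun z => alg_of_le _ _ (adjoin_le S ε₀ t h2) (h3 z)⟩

theorem aevalAeval_map {R Λ : Type} [CommRing R] [CommRing Λ] [Algebra ℂ Λ] (i : R →+* ℂ)
    (ε θ : Λ) (p : R[X][X]) : aevalAeval ε θ (p.map (mapRingHom i)) =
      p.eval₂ (eval₂RingHom ((algebraMap ℂ Λ).comp i) ε) θ := by
  induction p using Polynomial.induction_on' with
  | add p q hp hq => rw [Polynomial.map_add, map_add, hp, hq, eval₂_add]
  | monomial n a =>
    rw [Polynomial.map_monomial, eval₂_monomial, ← C_mul_X_pow_eq_monomial, map_mul, map_pow,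
      aevalAeval_C, aevalAeval_Y, coe_mapRingHom, aeval_def, eval₂_map, coe_eval₂RingHom]

theorem exists_curry' {R σ : Type} [CommRing R] (G : MvPolynomial (Option σ) R) :
    ∃ G' : MvPolynomial σ R[X], ∀ (Λ : Type) [CommRing Λ] (j : R →+* Λ) (ε : Λ) (c : σ → Λ),
      G'.eval₂ (eval₂RingHom j ε) c = G.eval₂ j fun o => o.elim ε c := by
  refine ⟨MvPolynomial.eval₂Hom (MvPolynomial.C.comp C)
    (fun o => o.elim (MvPolynomial.C X) MvPolynomial.X) G, fun Λ _ j ε c => ?_⟩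
  induction G using MvPolynomial.induction_on with
  | C a => simp
  | add p q hp hq => rw [map_add, MvPolynomial.eval₂_add, MvPolynomial.eval₂_add, hp, hq]
  | mul_X p s hp =>
    rw [map_mul, MvPolynomial.eval₂_mul, MvPolynomial.eval₂_mul, hp]
    rcases s with _ | s <;> simp

theorem part2 (σ J : Type) [Finite σ] [Finite J] (G : J → MvPolynomial (Option σ) ℂ) (𝓔 : Set ℂ)
    (x : ℂ → σ → ℂ) (h𝓔 : ¬ 𝓔.Countable)
    (hx : ∀ ε ∈ 𝓔, ∀ i, MvPolynomial.eval (fun o => o.elim ε (x ε)) (G i) = 0) :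
    ∃ ε₀ ∈ 𝓔, ∃ (Q : ℂ[X][X]) (d : ℕ) (D : ℂ[X]) (Cf : σ → ℂ[X][X]) (θ₀ : ℂ), Cov Q d D ∧ 0 < d ∧
      D.eval ε₀ ≠ 0 ∧ Q.evalEval ε₀ θ₀ = 0 ∧
      (∀ s, x ε₀ s = (Cf s).evalEval ε₀ θ₀ / D.eval ε₀) ∧
      ∀ (Λ : Type) [Field Λ] [Algebra ℂ Λ] (ε θ : Λ), aevalAeval ε θ Q = 0 → aeval ε D ≠ 0 →
        ∀ i, MvPolynomial.aeval (fun o => o.elim ε fun s => aevalAeval ε θ (Cf s) / aeval ε D)
          (G i) = 0 := by
  obtain ⟨ε₀, hε, R, hT, hinj, halg⟩ := exists_base (⋃ i, ((G i).coeffs : Set ℂ))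
    (Set.countable_iUnion fun i => (G i).coeffs.countable_toSet) 𝓔 h𝓔
  have hG : ∀ i, ∃ G₁ : MvPolynomial (Option σ) R, MvPolynomial.map R.subtype G₁ = G i :=
    fun i => MvPolynomial.mem_range_map_iff_coeffs_subset.2 fun z hz =>
      ⟨⟨z, hT (Set.mem_iUnion.2 ⟨i, hz⟩)⟩, rfl⟩
  choose G₁ hG₁ using hG
  obtain ⟨P, D, Cf, θ₀, H⟩ := exists_data_alg _ hinj (x ε₀) fun s => halg _
  have hsub : (algebraMap ℂ ℂ).comp R.subtype = R.subtype := rfl
  have hev : ∀ p : R[X][X], (p.map (mapRingHom R.subtype)).evalEval ε₀ θ₀ =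
      p.eval₂ (eval₂RingHom R.subtype ε₀) θ₀ := fun p => by
    rw [← coe_aevalAeval_eq_evalEval, aevalAeval_map, hsub]
  have hD : (D.map R.subtype).eval ε₀ = eval₂RingHom R.subtype ε₀ D := eval_map _ _
  have hD0 : (D.map R.subtype).eval ε₀ ≠ 0 := by
    rw [hD]
    exact fun h => H.ne (hinj (by rw [h, map_zero]))
  refine ⟨ε₀, hε, P.map (mapRingHom R.subtype), P.natDegree, D.map R.subtype,
    fun s => (Cf s).map (mapRingHom R.subtype), θ₀,
    ⟨H.monic.map _, H.monic.natDegree_map _, fun h => hD0 (by rw [h, eval_zero]), ?_⟩, H.pos, hD0,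
    ?_, fun s => ?_, fun Λ _ _ ε θ hθ hDε i => ?_⟩
  · obtain ⟨u, v, h⟩ := H.bez
    refine ⟨u.map (mapRingHom R.subtype), v.map (mapRingHom R.subtype), ?_⟩
    rw [derivative_map, ← Polynomial.map_mul, ← Polynomial.map_mul, ← Polynomial.map_add, h, map_C,
      coe_mapRingHom]
  · rw [hev, H.root]
  · rw [hev, H.rep, ← hD, mul_div_cancel_left₀ _ hD0]
  · obtain ⟨G', hG'⟩ := exists_curry' (G₁ i)
    have hDε' : aeval ε (D.map R.subtype) =
        eval₂RingHom ((algebraMap ℂ Λ).comp R.subtype) ε D := by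
      rw [aeval_def, eval₂_map, coe_eval₂RingHom]
    rw [aevalAeval_map] at hθ
    rw [hDε'] at hDε
    have h0 : G'.eval₂ (eval₂RingHom R.subtype ε₀) (x ε₀) = 0 := by
      rw [hG', ← hx ε₀ hε i, ← hG₁, MvPolynomial.eval_map]
    have h1 := H.spec hθ hDε G' h0
    rw [hG'] at h1
    rw [← hG₁, MvPolynomial.aeval_def, MvPolynomial.eval₂_map]
    simpa only [aevalAeval_map, hDε'] using h1

end SP

theorem SP_of : S_SP :=
  ⟨fun k Ω σ τ _ _ _ _ _ f ξ c => SP.part1 k Ω σ τ f ξ c,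
    fun σ J _ _ G 𝓔 x h hx => SP.part2 σ J G 𝓔 x h hx⟩

end Pool.Agent.P.MP_daea48_ag
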