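import Pool.Agent.P.MP_daea48_ag.StK

/-! Primitive elements over a domain, and specialisation. -/

open Polynomial

namespace Pool.Agent.P.MP_daea48_ag.SP

/-- Common denominator for finitely many polynomials over the fraction field. -/
theorem exists_den {A F ι : Type} [CommRing A] [IsDomain A] [Field F] [Algebra A F]
    [IsFractionRing A F] [Finite ι] (q : ι → F[X]) :
    ∃ (D : A) (Q : ι → A[X]), D ≠ 0 ∧
      ∀ i, (Q i).map (algebraMap A F) = C (algebraMap A F D) * q i := by
  classical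
  have := Fintype.ofFinite ι
  choose b hb hq using fun i => IsLocalization.integerNormalization_spec (nonZeroDivisors A) (q i)
  refine ⟨∏ i, b i, fun i => C (∏ j ∈ Finset.univ.erase i, b j) *
    IsLocalization.integerNormalization (nonZeroDivisors A) (q i),
    Finset.prod_ne_zero_iff.2 fun i _ => nonZeroDivisors.ne_zero (hb i), fun i => ?_⟩
  rw [Polynomial.map_mul, map_C, hq, ← Finset.prod_erase_mul _ _ (Finset.mem_univ i), map_mul,
    C_mul, mul_assoc, ← IsScalarTower.algebraMap_smul F (b i), smul_eq_C_mul]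

/-- A primitive element whose minimal polynomial has coefficients in the domain. -/
theorem exists_prim {A F L τ : Type} [CommRing A] [IsDomain A] [Field F] [CharZero F] [Algebra A F]
    [IsFractionRing A F] [Field L] [Algebra F L] [Finite τ] (c : τ → L)
    (hc : ∀ s, IsIntegral F (c s)) :
    ∃ (θ : L) (P : A[X]), IsIntegral F θ ∧ P.Monic ∧ P.map (algebraMap A F) = minpoly F θ ∧
      ∀ s, ∃ q : F[X], aeval θ q = c s := by
  let E := IntermediateField.adjoin F (Set.range c)
  have : FiniteDimensional F E :=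
    IntermediateField.finiteDimensional_adjoin (by rintro _ ⟨s, rfl⟩; exact hc s)
  obtain ⟨α, hα⟩ := Field.exists_primitive_element F E
  have hint : IsIntegral F α := Algebra.IsIntegral.isIntegral α
  have hint' : IsIntegral F (α : L) := hint.map E.val
  let m := minpoly F (α : L)
  have hm : m.Monic := minpoly.monic hint'
  let b : A := IsLocalization.commonDenom (nonZeroDivisors A) m.support m.coeff
  have hb : algebraMap A F b ≠ 0 := IsFractionRing.to_map_ne_zero_of_mem_nonZeroDivisors
    (IsLocalization.commonDenom (nonZeroDivisors A) m.support m.coeff).2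
  obtain ⟨P, hP, -, hPm⟩ := lifts_and_natDegree_eq_and_monic
    (IsLocalization.scaleRoots_commonDenom_mem_lifts (nonZeroDivisors A) m
      (by rw [hm.leadingCoeff]; exact one_mem _)) ((monic_scaleRoots_iff _).2 hm)
  refine ⟨algebraMap A F b • (α : L), P, hint'.smul _, hPm, ?_, fun s => ?_⟩
  · rw [IsIntegrallyClosed.minpoly_smul hb hint']
    exact hP
  · have h1 : (⟨c s, IntermediateField.subset_adjoin F _ ⟨s, rfl⟩⟩ : E) ∈
        (IntermediateField.adjoin F {α}).toSubalgebra := by rw [hα]; trivial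
    rw [IntermediateField.adjoin_simple_toSubalgebra_of_isAlgebraic hint.isAlgebraic,
      Algebra.adjoin_singleton_eq_range_aeval] at h1
    obtain ⟨q, hq⟩ := h1
    refine ⟨q.comp (C (algebraMap A F b)⁻¹ * X), ?_⟩
    rw [aeval_comp, map_mul, aeval_C, aeval_X, ← Algebra.smul_def, smul_smul, inv_mul_cancel₀ hb,
      one_smul]
    have h2 := congrArg E.val hq
    rw [AlgHom.toRingHom_eq_coe, RingHom.coe_coe, ← aeval_algHom_apply] at h2
    exact h2

/-- The data of a primitive element. -/
structure Prim {A L τ : Type} [CommRing A] [Field L] (ι : A →+* L) (c : τ → L) (P : A[X]) (D : A)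
    (Cf : τ → A[X]) (θ : L) : Prop where
  monic : P.Monic
  pos : 0 < P.natDegree
  ne : D ≠ 0
  ker : ∀ Q : A[X], Q.eval₂ ι θ = 0 ↔ P ∣ Q
  rep : ∀ s, (Cf s).eval₂ ι θ = ι D * c s
  bez : ∃ u v : A[X], u * P + v * derivative P = C D

theorem exists_data {A F L τ : Type} [CommRing A] [IsDomain A] [Field F] [CharZero F] [Algebra A F]
    [IsFractionRing A F] [Field L] [Algebra F L] [Finite τ] (c : τ → L)
    (hc : ∀ s, IsIntegral F (c s)) :
    ∃ P D Cf θ, Prim ((algebraMap F L).comp (algebraMap A F)) c P D Cf θ := by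
  obtain ⟨θ, P, hθ, hP, hm, hq⟩ := exists_prim (A := A) c hc
  choose q hq using hq
  have hinj : Function.Injective (algebraMap A F) := IsFractionRing.injective A F
  obtain ⟨u, v, huv⟩ : (minpoly F θ).Separable := (minpoly.irreducible hθ).separable
  obtain ⟨D, Q, hD, hQ⟩ := exists_den (A := A) (Sum.elim q fun b : Bool => cond b u v)
  have hev : ∀ p : A[X], p.eval₂ ((algebraMap F L).comp (algebraMap A F)) θ =
      aeval θ (p.map (algebraMap A F)) := fun p => by rw [aeval_def, eval₂_map]
  refine ⟨P, D, fun s => Q (Sum.inl s), θ, hP, ?_, hD, fun p => ?_, fun s => ?_,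
    Q (Sum.inr true), Q (Sum.inr false), ?_⟩
  · rw [← hP.natDegree_map (algebraMap A F), hm]
    exact minpoly.natDegree_pos hθ
  · rw [hev, ← map_dvd_map _ hinj hP, hm, minpoly.dvd_iff]
  · rw [hev, hQ, map_mul, aeval_C, Sum.elim_inl, hq]
    rfl
  · apply map_injective _ hinj
    rw [Polynomial.map_add, Polynomial.map_mul, Polynomial.map_mul, hQ, hQ, ← derivative_map, hm,
      map_C, mul_assoc, mul_assoc, ← mul_add]
    simp only [Sum.elim_inr, cond_true, cond_false]
    rw [huv, mul_one]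

namespace Prim

variable {A L τ Λ : Type} [CommRing A] [Field L] [Field Λ] {ι : A →+* L} {c : τ → L} {P : A[X]}
  {D : A} {Cf : τ → A[X]} {θ₀ : L}

theorem root (H : Prim ι c P D Cf θ₀) : P.eval₂ ι θ₀ = 0 := (H.ker P).2 dvd_rfl

theorem der_ne (H : Prim ι c P D Cf θ₀) {χ : A →+* Λ} {θ : Λ} (hθ : P.eval₂ χ θ = 0)
    (hD : χ D ≠ 0) : (derivative P).eval₂ χ θ ≠ 0 := by
  obtain ⟨u, v, h⟩ := H.bez
  intro h0
  have h1 := congrArg (eval₂ χ θ) h
  rw [eval₂_add, eval₂_mul, eval₂_mul, hθ, h0, eval₂_C, mul_zero, mul_zero, add_zero] at h1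
  exact hD h1.symm

/-- Relations specialise. -/
theorem spec (H : Prim ι c P D Cf θ₀) {χ : A →+* Λ} {θ : Λ} (hθ : P.eval₂ χ θ = 0)
    (hD : χ D ≠ 0) (G : MvPolynomial τ A) (hG : G.eval₂ ι c = 0) :
    G.eval₂ χ (fun s => (Cf s).eval₂ χ θ / χ D) = 0 := by
  have key : ∀ G : MvPolynomial τ A, ∃ (N : ℕ) (Q : A[X]),
      Q.eval₂ ι θ₀ = ι D ^ N * G.eval₂ ι c ∧
      Q.eval₂ χ θ = χ D ^ N * G.eval₂ χ (fun s => (Cf s).eval₂ χ θ / χ D) := by
    intro G
    induction G using MvPolynomial.induction_on with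
    | C a => exact ⟨0, C a, by simp, by simp⟩
    | add p q hp hq =>
      obtain ⟨N, Q, h1, h2⟩ := hp
      obtain ⟨N', Q', h1', h2'⟩ := hq
      refine ⟨N + N', C D ^ N' * Q + C D ^ N * Q', ?_, ?_⟩
      · rw [eval₂_add, eval₂_mul, eval₂_mul, eval₂_pow, eval₂_pow, eval₂_C, h1, h1',
          MvPolynomial.eval₂_add]
        ring
      · rw [eval₂_add, eval₂_mul, eval₂_mul, eval₂_pow, eval₂_pow, eval₂_C, h2, h2',
          MvPolynomial.eval₂_add]
        ring
    | mul_X p s hp =>
      obtain ⟨N, Q, h1, h2⟩ := hp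
      refine ⟨N + 1, Q * Cf s, ?_, ?_⟩
      · rw [eval₂_mul, h1, H.rep, MvPolynomial.eval₂_mul, MvPolynomial.eval₂_X]
        ring
      · rw [eval₂_mul, h2, MvPolynomial.eval₂_mul, MvPolynomial.eval₂_X]
        field_simp
        ring
  obtain ⟨N, Q, h1, h2⟩ := key G
  rw [hG, mul_zero, H.ker] at h1
  obtain ⟨w, rfl⟩ := h1
  rw [eval₂_mul, hθ, zero_mul] at h2
  exact (mul_eq_zero.1 h2.symm).resolve_left (pow_ne_zero _ hD)

end Prim

/-- Algebraic elements over a domain inside a field. -/
theorem exists_data_alg {A L τ : Type} [CommRing A] [IsDomain A] [CharZero A] [Field L] [Finite τ]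
    (ι : A →+* L) (hι : Function.Injective ι) (c : τ → L)
    (hc : ∀ s, ∃ p : A[X], p ≠ 0 ∧ p.eval₂ ι (c s) = 0) : ∃ P D Cf θ, Prim ι c P D Cf θ := by
  let F := FractionRing A
  have : CharZero F := IsFractionRing.charZero_of_isFractionRing A
  let _ : Algebra F L := (IsFractionRing.lift hι : F →+* L).toAlgebra
  have hcomp : (algebraMap F L).comp (algebraMap A F) = ι :=
    RingHom.ext fun a => IsFractionRing.lift_algebraMap hι a
  rw [← hcomp]
  refine exists_data c fun s => IsAlgebraic.isIntegral ?_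
  obtain ⟨p, hp, h0⟩ := hc s
  refine ⟨p.map (algebraMap A F),
    (Polynomial.map_ne_zero_iff (IsFractionRing.injective A F)).2 hp, ?_⟩
  rw [aeval_def, eval₂_map, hcomp, h0]

/-- Arbitrary elements: pass to a closed point of the generic fibre. -/
theorem exists_data_any {A Ω τ : Type} [CommRing A] [IsDomain A] [CharZero A] [Field Ω] [Finite τ]
    (φ : A →+* Ω) (hφ : Function.Injective φ) (c : τ → Ω) :
    ∃ (L : Type) (_ : Field L) (ι : A →+* L) (c' : τ → L) (P : A[X]) (D : A) (Cf : τ → A[X])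
      (θ : L), Prim ι c' P D Cf θ ∧
        ∀ G : MvPolynomial τ A, G.eval₂ φ c = 0 → G.eval₂ ι c' = 0 := by
  let F := FractionRing A
  have : CharZero F := IsFractionRing.charZero_of_isFractionRing A
  let ψ : F →+* Ω := IsFractionRing.lift hφ
  have hcomp : ψ.comp (algebraMap A F) = φ :=
    RingHom.ext fun a => IsFractionRing.lift_algebraMap hφ a
  obtain ⟨m, hm, hle⟩ := Ideal.exists_le_maximal _
    (RingHom.ker_ne_top (MvPolynomial.eval₂Hom ψ c))
  let _ := Ideal.Quotient.field m
  have := finite_of_finite_type_of_isJacobsonRing F (MvPolynomial τ F ⧸ m)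
  obtain ⟨P, D, Cf, θ, H⟩ := exists_data (A := A) (F := F)
    (fun s => Ideal.Quotient.mk m (MvPolynomial.X s)) fun s => Algebra.IsIntegral.isIntegral _
  refine ⟨_, _, _, _, P, D, Cf, θ, H, fun G hG => ?_⟩
  have h1 : MvPolynomial.map (algebraMap A F) G ∈ m := hle (by
    rw [RingHom.mem_ker, MvPolynomial.coe_eval₂Hom, MvPolynomial.eval₂_map, hcomp, hG])
  rw [← MvPolynomial.eval₂_map, ← Ideal.Quotient.eq_zero_iff_mem.2 h1]
  generalize MvPolynomial.map (algebraMap A F) G = G'
  induction G' using MvPolynomial.induction_on with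
  | C a => rw [MvPolynomial.eval₂_C]; rfl
  | add p q hp hq => rw [MvPolynomial.eval₂_add, hp, hq, map_add]
  | mul_X p s hp => rw [MvPolynomial.eval₂_mul, hp, MvPolynomial.eval₂_X, map_mul]

end Pool.Agent.P.MP_daea48_ag.SP
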