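import Pool.Agent.P.MP_daea48_ag.SPP1

/-! Families of polynomial solutions; formal branches of plane curves. -/

open Polynomial

namespace Pool.Agent.P.MP_daea48_ag

noncomputable section

open Classical

namespace SPP

/-- The universal evaluation of `G` at polynomials of degree at most `n`. -/
def univ {σ : Type} (n : ℕ) (G : MvPolynomial (σ ⊕ Bool) ℂ) :
    (MvPolynomial (Option (Option (σ × Fin (n + 1)))) ℂ)[X] :=
  MvPolynomial.aeval (Sum.elim
    (fun s => ∑ j : Fin (n + 1), C (MvPolynomial.X (some (some (s, j)))) * X ^ (j : ℕ))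
    fun b => cond b (C (MvPolynomial.X none)) X) G

theorem univ_map {σ : Type} (n : ℕ) (G : MvPolynomial (σ ⊕ Bool) ℂ) {Λ : Type} [CommRing Λ]
    [Algebra ℂ Λ] (w : Option (Option (σ × Fin (n + 1))) → Λ) :
    (univ n G).map (MvPolynomial.aeval w : _ →ₐ[ℂ] Λ).toRingHom = MvPolynomial.aeval (Sum.elim
      (fun s => ∑ j : Fin (n + 1), C (w (some (some (s, j)))) * X ^ (j : ℕ))
      fun b => cond b (C (w none)) X : σ ⊕ Bool → Λ[X]) G := by
  have e : (univ n G).map (MvPolynomial.aeval w : _ →ₐ[ℂ] Λ).toRingHom =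
      Polynomial.mapAlgHom (MvPolynomial.aeval w : _ →ₐ[ℂ] Λ) (univ n G) := rfl
  rw [e, univ, ← AlgHom.comp_apply, MvPolynomial.comp_aeval]
  congr 2
  funext o
  rcases o with s | b
  · simp
  · cases b <;> simp

theorem sum_coeff {Λ : Type} [CommRing Λ] (n : ℕ) (q : Λ[X]) (h : q.natDegree ≤ n) :
    ∑ j : Fin (n + 1), C (q.coeff j) * X ^ (j : ℕ) = q := by
  rw [Fin.sum_univ_eq_sum_range (fun j => C (q.coeff j) * X ^ j) (n + 1)]
  exact (q.as_sum_range_C_mul_X_pow' (Nat.lt_succ_of_le h)).symm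

theorem coeff_sum_fin {Λ : Type} [CommRing Λ] (n : ℕ) (c : Fin (n + 1) → Λ) (m : Fin (n + 1)) :
    (∑ j : Fin (n + 1), C (c j) * X ^ (j : ℕ)).coeff m = c m := by
  rw [finsetSum_coeff, Finset.sum_eq_single m]
  · simp
  · intro b _ hb
    rw [coeff_C_mul_X_pow, if_neg]
    exact fun h => hb (Fin.ext h.symm)
  · simp

theorem exists_uncountable {𝓔 : Set ℂ} (h : ¬ 𝓔.Countable) (φ : ℂ → ℕ × ℕ) :
    ∃ a, ¬ {ε | ε ∈ 𝓔 ∧ φ ε = a}.Countable := by
  by_contra hc
  push Not at hc
  apply h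
  refine (Set.countable_iUnion hc).mono fun ε hε => Set.mem_iUnion.2 ⟨φ ε, ?_⟩
  exact ⟨hε, rfl⟩

end SPP

open SPP in
theorem SPP_of (h1 : S_SP) : S_SPP := by
  refine ⟨?_, branch⟩
  intro σ J _ _ G 𝓔 p s₀ h𝓔 hp
  have := Fintype.ofFinite σ
  obtain ⟨⟨n, m⟩, hnm⟩ := exists_uncountable h𝓔 fun ε =>
    (Finset.univ.sup fun s => (p ε s).natDegree, (p ε s₀).natDegree)
  set 𝓔' := {ε | ε ∈ 𝓔 ∧ ((Finset.univ.sup fun s => (p ε s).natDegree, (p ε s₀).natDegree) :
    ℕ × ℕ) = (n, m)} with h𝓔'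
  have hdeg : ∀ ε ∈ 𝓔', ∀ s, (p ε s).natDegree ≤ n := by
    intro ε hε s
    rw [← (Prod.mk.inj hε.2).1]
    exact Finset.le_sup (f := fun s => (p ε s).natDegree) (Finset.mem_univ s)
  have hm : ∀ ε ∈ 𝓔', (p ε s₀).natDegree = m := fun ε hε => (Prod.mk.inj hε.2).2
  have hmn : m < n + 1 := by
    obtain ⟨ε, hε⟩ : 𝓔'.Nonempty := by
      by_contra hne
      rw [Set.not_nonempty_iff_eq_empty] at hne
      exact hnm (by rw [hne]; exact Set.countable_empty)
    rw [← hm ε hε]
    exact Nat.lt_succ_of_le (hdeg ε hε s₀)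
  let m' : Fin (n + 1) := ⟨m, hmn⟩
  let G' : Option (Σ i : J, Fin ((univ n (G i)).natDegree + 1)) →
      MvPolynomial (Option (Option (σ × Fin (n + 1)))) ℂ := fun o => o.elim
    (MvPolynomial.X (some none) * MvPolynomial.X (some (some (s₀, m'))) - 1)
    fun a => (univ n (G a.1)).coeff a.2
  let x : ℂ → Option (σ × Fin (n + 1)) → ℂ := fun ε o => o.elim ((p ε s₀).coeff m)⁻¹
    fun a => (p ε a.1).coeff a.2
  obtain ⟨ε₀, hε₀, Q, d, D, Cf, θ₀, hcov, hd, hD, hQ, hx, hΛ⟩ := h1.2 _ _ G' 𝓔' x hnm (by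
    intro ε hε o
    rcases o with _ | ⟨i, k⟩
    · have : (p ε s₀).coeff m ≠ 0 := by
        rw [← hm ε hε]
        exact leadingCoeff_ne_zero.2 (hp ε hε.1).1
      simp only [G', x, m', Option.elim, map_sub, map_mul, MvPolynomial.eval_X, map_one]
      rw [inv_mul_cancel₀ this, sub_self]
    · have e := univ_map n (G i) (Λ := ℂ) (fun o => o.elim ε (x ε))
      have e2 : (fun s => ∑ j : Fin (n + 1), C (x ε (some (s, j))) * X ^ (j : ℕ)) = p ε := by
        funext s
        exact sum_coeff n (p ε s) (hdeg ε hε s)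
      simp only [Option.elim] at e
      rw [e2, (hp ε hε.1).2 i] at e
      have e3 := congrArg (fun q => q.coeff k) e
      simp only [coeff_map, coeff_zero] at e3
      rw [← MvPolynomial.coe_aeval_eq_eval]
      exact e3)
  refine ⟨ε₀, hε₀.1, Q, d, D, fun s => ∑ j : Fin (n + 1), C (Cf (some (s, j))) * X ^ (j : ℕ),
    θ₀, hcov, hd, hD, hQ, ?_, ?_⟩
  · intro s
    rw [← sum_coeff n (p ε₀ s) (hdeg ε₀ hε₀ s), Polynomial.map_sum, Finset.mul_sum]
    refine Finset.sum_congr rfl fun j _ => ?_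
    have := hx (some (s, j))
    simp only [x, Option.elim] at this
    rw [this, Polynomial.map_mul, Polynomial.map_pow, map_C, map_X, ← mul_assoc, ← C_mul,
      div_eq_inv_mul]
    rfl
  · intro Λ _ _ ε θ hq hd'
    have hall := hΛ Λ ε θ hq hd'
    have hmap : ∀ s, (∑ j : Fin (n + 1), C (Cf (some (s, j))) * X ^ (j : ℕ) : ℂ[X][X][X]).map
        (aevalAeval ε θ : ℂ[X][X] →ₐ[ℂ] Λ).toRingHom =
        ∑ j : Fin (n + 1), C (aevalAeval ε θ (Cf (some (s, j)))) * X ^ (j : ℕ) := by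
      intro s
      rw [Polynomial.map_sum]
      refine Finset.sum_congr rfl fun j _ => ?_
      rw [Polynomial.map_mul, Polynomial.map_pow, map_C, map_X]
      rfl
    constructor
    · intro h0
      have h2 := hall none
      simp only [G', Option.elim, map_sub, map_mul, MvPolynomial.aeval_X, map_one] at h2
      have h3 := congrArg (fun q => q.coeff m') ((hmap s₀).symm.trans h0)
      simp only [coeff_zero] at h3
      rw [coeff_sum_fin n (fun j => aevalAeval ε θ (Cf (some (s₀, j)))) m'] at h3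
      rw [h3, zero_div, mul_zero, zero_sub, neg_eq_zero] at h2
      exact one_ne_zero h2
    · intro i
      have e := univ_map n (G i) (Λ := Λ)
        (fun o => o.elim ε fun s => aevalAeval ε θ (Cf s) / aeval ε D)
      simp only [Option.elim] at e
      have e2 : (fun s => C (aeval ε D)⁻¹ * (∑ j : Fin (n + 1), C (Cf (some (s, j))) *
          X ^ (j : ℕ) : ℂ[X][X][X]).map (aevalAeval ε θ : ℂ[X][X] →ₐ[ℂ] Λ).toRingHom) =
          fun s => ∑ j : Fin (n + 1), C (aevalAeval ε θ (Cf (some (s, j))) / aeval ε D) *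
            X ^ (j : ℕ) := by
        funext s
        rw [hmap, Finset.mul_sum]
        refine Finset.sum_congr rfl fun j _ => ?_
        rw [← mul_assoc, ← C_mul, div_eq_inv_mul]
      rw [e2, ← e]
      ext k
      rw [coeff_map, coeff_zero]
      by_cases hk : k < (univ n (G i)).natDegree + 1
      · exact hall (some ⟨i, ⟨k, hk⟩⟩)
      · rw [coeff_eq_zero_of_natDegree_lt (by omega), map_zero]

end

end Pool.Agent.P.MP_daea48_ag
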