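import Pool.Agent.P.MP_daea48_ag.StK

/-! Formal branches of plane curves. -/

open Polynomial

namespace Pool.Agent.P.MP_daea48_ag

namespace SPP

noncomputable section

open Classical

section expand

variable {O : Type} [CommRing O] [Algebra ℂ O] (π : O)

/-- `f` is the expansion of `x` in powers of `π`. -/
def Rel (x : O) (f : PowerSeries ℂ) : Prop :=
  ∀ n : ℕ, ∃ q : ℂ[X], π ^ n ∣ x - aeval π q ∧ PowerSeries.X ^ n ∣ f - (q : PowerSeries ℂ)

variable {π}

theorem Rel.add {x y : O} {f g : PowerSeries ℂ} (h : Rel π x f) (h' : Rel π y g) :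
    Rel π (x + y) (f + g) := by
  intro n
  obtain ⟨q, h1, h2⟩ := h n
  obtain ⟨r, h3, h4⟩ := h' n
  refine ⟨q + r, ?_, ?_⟩
  · have : x + y - aeval π (q + r) = (x - aeval π q) + (y - aeval π r) := by
      rw [map_add]; ring
    rw [this]; exact dvd_add h1 h3
  · have : f + g - ((q + r : ℂ[X]) : PowerSeries ℂ) = (f - q) + (g - r) := by
      rw [Polynomial.coe_add]; ring
    rw [this]; exact dvd_add h2 h4

theorem Rel.mul {x y : O} {f g : PowerSeries ℂ} (h : Rel π x f) (h' : Rel π y g) :
    Rel π (x * y) (f * g) := by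
  intro n
  obtain ⟨q, h1, h2⟩ := h n
  obtain ⟨r, h3, h4⟩ := h' n
  refine ⟨q * r, ?_, ?_⟩
  · have : x * y - aeval π (q * r) = (x - aeval π q) * y + aeval π q * (y - aeval π r) := by
      rw [map_mul]; ring
    rw [this]; exact dvd_add (h1.mul_right _) (h3.mul_left _)
  · have : f * g - ((q * r : ℂ[X]) : PowerSeries ℂ) = (f - q) * g + q * (g - r) := by
      rw [Polynomial.coe_mul]; ring
    rw [this]; exact dvd_add (h2.mul_right _) (h4.mul_left _)

theorem Rel.const (c : ℂ) : Rel π (algebraMap ℂ O c) (algebraMap ℂ (PowerSeries ℂ) c) := by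
  intro n
  refine ⟨C c, ?_, ?_⟩
  · simp
  · rw [Polynomial.coe_C]
    have : algebraMap ℂ (PowerSeries ℂ) c = PowerSeries.C c := rfl
    rw [this, sub_self]; exact dvd_zero _

theorem Rel.pow {x : O} {f : PowerSeries ℂ} (h : Rel π x f) (k : ℕ) :
    Rel π (x ^ k) (f ^ k) := by
  induction k with
  | zero =>
    have := Rel.const (π := π) 1
    simpa using this
  | succ k ih => rw [pow_succ, pow_succ]; exact ih.mul h

theorem Rel.aeval1 {x : O} {f : PowerSeries ℂ} (h : Rel π x f) (p : ℂ[X]) :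
    Rel π (aeval x p) (aeval f p) := by
  induction p using Polynomial.induction_on' with
  | add p q hp hq => rw [map_add, map_add]; exact hp.add hq
  | monomial n a => rw [aeval_monomial, aeval_monomial]; exact (Rel.const a).mul (h.pow n)

theorem Rel.aeval2 {x y : O} {f g : PowerSeries ℂ} (h : Rel π x f) (h' : Rel π y g)
    (p : ℂ[X][X]) : Rel π (aevalAeval x y p) (aevalAeval f g p) := by
  induction p using Polynomial.induction_on' with
  | add p q hp hq => rw [map_add, map_add]; exact hp.add hq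
  | monomial n a =>
    rw [← C_mul_X_pow_eq_monomial, map_mul, map_mul, map_pow, map_pow, aevalAeval_C, aevalAeval_C,
      aevalAeval_Y, aevalAeval_Y]
    exact (h.aeval1 a).mul (h'.pow n)

theorem const_eq_zero (hu : ¬ IsUnit π) {c : ℂ} (h : π ∣ algebraMap ℂ O c) : c = 0 := by
  by_contra hc
  exact hu (isUnit_of_dvd_unit h ((IsUnit.mk0 c hc).map _))

theorem dvd_of_dvd_aeval [IsDomain O] (h0 : π ≠ 0) (hu : ¬ IsUnit π) (n : ℕ) :
    ∀ q : ℂ[X], π ^ n ∣ aeval π q → X ^ n ∣ q := by
  induction n with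
  | zero => intro q _; simp
  | succ n ih =>
    intro q hq
    have e : q = X * q.divX + C (q.coeff 0) := (X_mul_divX_add q).symm
    have e' : aeval π q = π * aeval π q.divX + algebraMap ℂ O (q.coeff 0) := by
      conv_lhs => rw [e, map_add, map_mul, aeval_X, aeval_C]
    have h1 : π ∣ algebraMap ℂ O (q.coeff 0) := by
      have h2 : π ∣ aeval π q := (dvd_pow_self π n.succ_ne_zero).trans hq
      rw [e'] at h2
      exact (dvd_add_right (dvd_mul_right _ _)).1 h2
    have h3 := const_eq_zero hu h1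
    rw [h3, map_zero, add_zero] at e' e
    rw [e', pow_succ', mul_dvd_mul_iff_left h0] at hq
    rw [e, pow_succ']
    exact mul_dvd_mul_left _ (ih _ hq)

theorem Rel.eq_zero [IsDomain O] (h0 : π ≠ 0) (hu : ¬ IsUnit π) {f : PowerSeries ℂ}
    (h : Rel π 0 f) : f = 0 := by
  ext n
  obtain ⟨q, h1, h2⟩ := h (n + 1)
  rw [zero_sub, dvd_neg] at h1
  obtain ⟨r, hr⟩ := dvd_of_dvd_aeval h0 hu _ q h1
  have h3 : PowerSeries.X ^ (n + 1) ∣ (q : PowerSeries ℂ) :=
    ⟨(r : PowerSeries ℂ), by rw [hr, Polynomial.coe_mul, Polynomial.coe_pow, Polynomial.coe_X]⟩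
  have h4 : PowerSeries.X ^ (n + 1) ∣ f := by
    have := dvd_add h2 h3
    rwa [sub_add_cancel] at this
  rw [PowerSeries.X_pow_dvd_iff] at h4
  rw [h4 n (Nat.lt_succ_self n), map_zero]

theorem exists_rel (h : ∀ x : O, ∃ c : ℂ, π ∣ x - algebraMap ℂ O c) (x : O) :
    ∃ f, Rel π x f := by
  choose a ha using h
  choose nx hnx using ha
  refine ⟨PowerSeries.mk fun n => a (nx^[n] x), fun n => ?_⟩
  induction n generalizing x with
  | zero => exact ⟨0, by simp, by simp⟩
  | succ n ih =>
    obtain ⟨q, h1, h2⟩ := ih (nx x)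
    refine ⟨C (a x) + X * q, ?_, ?_⟩
    · have : x - aeval π (C (a x) + X * q) = π * (nx x - aeval π q) := by
        rw [map_add, map_mul, aeval_C, aeval_X, ← sub_sub, hnx]; ring
      rw [this, pow_succ']
      exact mul_dvd_mul_left _ h1
    · have e : (PowerSeries.mk fun n => a (nx^[n] x)) = PowerSeries.C (a x) +
          PowerSeries.X * PowerSeries.mk fun n => a (nx^[n] (nx x)) := by
        ext k
        cases k with
        | zero => simp
        | succ k => simp [PowerSeries.coeff_succ_X_mul]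
      have : (PowerSeries.mk fun n => a (nx^[n] x)) - ((C (a x) + X * q : ℂ[X]) : PowerSeries ℂ) =
          PowerSeries.X * ((PowerSeries.mk fun n => a (nx^[n] (nx x))) - (q : PowerSeries ℂ)) := by
        rw [e, Polynomial.coe_add, Polynomial.coe_mul, Polynomial.coe_C, Polynomial.coe_X]; ring
      rw [this, pow_succ']
      exact mul_dvd_mul_left _ h2

theorem Rel.constantCoeff (hu : ¬ IsUnit π) {x : O} {f : PowerSeries ℂ} (h : Rel π x f)
    (hx : π ∣ x) : PowerSeries.constantCoeff f = 0 := by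
  obtain ⟨q, h1, h2⟩ := h 1
  rw [pow_one] at h1 h2
  have e : q = X * q.divX + C (q.coeff 0) := (X_mul_divX_add q).symm
  have e' : aeval π q = π * aeval π q.divX + algebraMap ℂ O (q.coeff 0) := by
    conv_lhs => rw [e, map_add, map_mul, aeval_X, aeval_C]
  have h3 : π ∣ aeval π q := by
    have := dvd_sub hx h1
    rwa [sub_sub_cancel] at this
  rw [e'] at h3
  have h4 := const_eq_zero hu ((dvd_add_right (dvd_mul_right _ _)).1 h3)
  rw [PowerSeries.X_dvd_iff, map_sub, Polynomial.constantCoeff_coe, h4, sub_zero] at h2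
  exact h2

theorem Rel.pow_dvd {x : O} (h : Rel π x 0) (n : ℕ) : π ^ n ∣ x := by
  obtain ⟨q, h1, h2⟩ := h n
  rw [zero_sub, dvd_neg, PowerSeries.X_pow_dvd_iff] at h2
  have h3 : X ^ n ∣ q := by
    rw [Polynomial.X_pow_dvd_iff]
    intro d hd
    have := h2 d hd
    rwa [Polynomial.coeff_coe] at this
  obtain ⟨r, hr⟩ := h3
  have h4 : π ^ n ∣ aeval π q := ⟨aeval π r, by rw [hr, map_mul, map_pow, aeval_X]⟩
  have := dvd_add h1 h4
  rwa [sub_add_cancel] at this

end expand

/-- A branch from a discrete valuation ring with residue field `ℂ`. -/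
theorem branch_of_dvr {O : Type} [CommRing O] [IsDomain O] [IsDiscreteValuationRing O]
    [Algebra ℂ O] (h : ∀ x : O, ∃ c : ℂ, x - algebraMap ℂ O c ∈ IsLocalRing.maximalIdeal O)
    (x y : O) (hx0 : x ≠ 0) (hx : x ∈ IsLocalRing.maximalIdeal O) (Q : ℂ[X][X])
    (hQ : aevalAeval x y Q = 0) : ∃ ε θ : PowerSeries ℂ, ε ≠ 0 ∧
      PowerSeries.constantCoeff ε = 0 ∧ aevalAeval ε θ Q = 0 := by
  obtain ⟨π, hπ⟩ := IsDiscreteValuationRing.exists_irreducible O
  have hm := hπ.maximalIdeal_eq
  rw [hm] at h hx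
  simp only [Ideal.mem_span_singleton] at h hx
  obtain ⟨ε, hε⟩ := exists_rel h x
  obtain ⟨θ, hθ⟩ := exists_rel h y
  refine ⟨ε, θ, ?_, hε.constantCoeff hπ.not_isUnit hx, ?_⟩
  · rintro rfl
    obtain ⟨n, r, hr, e⟩ := WfDvdMonoid.max_power_factor hx0 hπ
    have h1 := hε.pow_dvd (n + 1)
    rw [e, pow_succ, mul_dvd_mul_iff_left (pow_ne_zero n hπ.ne_zero)] at h1
    exact hr h1
  · have := hε.aeval2 hθ Q
    rw [hQ] at this
    exact this.eq_zero hπ.ne_zero hπ.not_isUnit

/-- A branch from a Dedekind domain integral over the polynomial ring. -/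
theorem branch_of_dedekind {B : Type} [CommRing B] [IsDedekindDomain B] [Algebra ℂ B]
    [Algebra ℂ[X] B] [IsScalarTower ℂ ℂ[X] B] [Algebra.IsIntegral ℂ[X] B]
    (hinj : Function.Injective (algebraMap ℂ[X] B)) (y : B) (Q : ℂ[X][X])
    (hQ : aeval y Q = 0) : ∃ ε θ : PowerSeries ℂ, ε ≠ 0 ∧
      PowerSeries.constantCoeff ε = 0 ∧ aevalAeval ε θ Q = 0 := by
  have hmax : (Ideal.span {(X : ℂ[X])}).IsMaximal :=
    PrincipalIdealRing.isMaximal_of_irreducible irreducible_X
  obtain ⟨m, hm, hover⟩ := Ideal.exists_ideal_over_maximal_of_isIntegral (S := B)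
    (Ideal.span {(X : ℂ[X])}) (by
      rw [(RingHom.injective_iff_ker_eq_bot _).1 hinj]; exact bot_le)
  set x : B := algebraMap ℂ[X] B X with hxdef
  have hxm : x ∈ m := by
    rw [hxdef, ← Ideal.mem_comap, hover]; exact Ideal.mem_span_singleton_self _
  have hx0 : x ≠ 0 := fun h => X_ne_zero (R := ℂ) (hinj (by rw [map_zero]; exact h))
  have hm0 : m ≠ ⊥ := fun h => hx0 (by rw [h] at hxm; exact hxm)
  have halg : ∀ p : ℂ[X], algebraMap ℂ[X] B p = aeval x p := by
    intro p
    have : (IsScalarTower.toAlgHom ℂ ℂ[X] B) = aeval x := by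
      apply Polynomial.algHom_ext
      simp [hxdef]
    exact DFunLike.congr_fun this p
  -- residue field
  have hres : ∀ b : B, ∃ c : ℂ, b - algebraMap ℂ B c ∈ m := by
    intro b
    have : Algebra.IsIntegral ℂ (B ⧸ m) := by
      constructor
      intro z
      obtain ⟨b, rfl⟩ := Ideal.Quotient.mk_surjective z
      obtain ⟨P, hP, hb⟩ := Algebra.IsIntegral.isIntegral (R := ℂ[X]) b
      refine ⟨P.map (evalRingHom 0), hP.map _, ?_⟩
      rw [eval₂_map]
      have e : (algebraMap ℂ (B ⧸ m)).comp (evalRingHom 0) =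
          (Ideal.Quotient.mk m).comp (algebraMap ℂ[X] B) := by
        apply Polynomial.ringHom_ext
        · intro a
          simp only [RingHom.comp_apply, coe_evalRingHom, eval_C, halg, aeval_C]
          rfl
        · simp only [RingHom.comp_apply, coe_evalRingHom, eval_X, map_zero]
          exact (Ideal.Quotient.eq_zero_iff_mem.2 hxm).symm
      rw [e, ← hom_eval₂, hb, map_zero]
    obtain ⟨c, hc⟩ := (IsAlgClosed.algebraMap_bijective_of_isIntegral (k := ℂ)
      (K := B ⧸ m)).2 (Ideal.Quotient.mk m b)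
    refine ⟨c, ?_⟩
    rw [← Ideal.Quotient.eq_zero_iff_mem, map_sub, ← hc]
    exact sub_eq_zero.2 rfl
  have := IsLocalization.AtPrime.isDiscreteValuationRing_of_dedekind_domain B hm0
    (Localization.AtPrime m)
  have hinj' : Function.Injective (algebraMap B (Localization.AtPrime m)) :=
    IsLocalization.injective _ m.primeCompl_le_nonZeroDivisors
  refine branch_of_dvr (O := Localization.AtPrime m) ?_ (algebraMap B _ x) (algebraMap B _ y)
    (fun h => hx0 (hinj' (by rw [map_zero]; exact h)))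
    ((IsLocalization.AtPrime.to_map_mem_maximal_iff _ m x).2 hxm) Q ?_
  · intro z
    obtain ⟨⟨b, s⟩, rfl⟩ := IsLocalization.mk'_surjective m.primeCompl z
    obtain ⟨β, hβ⟩ := hres b
    obtain ⟨γ, hγ⟩ := hres s
    have hγ0 : γ ≠ 0 := by
      rintro rfl
      rw [map_zero, sub_zero] at hγ
      exact s.2 hγ
    refine ⟨β / γ, ?_⟩
    have e : IsLocalization.mk' (Localization.AtPrime m) b s -
        algebraMap ℂ (Localization.AtPrime m) (β / γ) =
        IsLocalization.mk' (Localization.AtPrime m) (b - algebraMap ℂ B (β / γ) * s) s := by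
      rw [IsScalarTower.algebraMap_apply ℂ B (Localization.AtPrime m),
        IsLocalization.eq_mk'_iff_mul_eq, sub_mul, IsLocalization.mk'_spec, map_sub, map_mul]
    simp only
    rw [e, IsLocalization.AtPrime.mk'_mem_maximal_iff (Localization.AtPrime m) m]
    have e2 : b - algebraMap ℂ B (β / γ) * s =
        (b - algebraMap ℂ B β) - algebraMap ℂ B (β / γ) * (s - algebraMap ℂ B γ) := by
      rw [mul_sub, ← map_mul, div_mul_cancel₀ _ hγ0]; ring
    rw [e2]
    exact m.sub_mem hβ (m.mul_mem_left _ hγ)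
  · have e1 : (IsScalarTower.toAlgHom ℂ B (Localization.AtPrime m)).comp (aevalAeval x y) =
        aevalAeval (algebraMap B _ x) (algebraMap B _ y) := by
      apply Polynomial.algHom_ext'
      · apply Polynomial.algHom_ext
        simp
      · simp
    have e2 : ∀ P : ℂ[X][X], aevalAeval x y P = aeval y P := by
      intro P
      induction P using Polynomial.induction_on' with
      | add p q hp hq => rw [map_add, map_add, hp, hq]
      | monomial n a =>
        rw [aeval_monomial, ← C_mul_X_pow_eq_monomial, map_mul, map_pow, aevalAeval_C,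
          aevalAeval_Y, halg]
    rw [← e1, AlgHom.comp_apply, e2, hQ, map_zero]

/-- Every monic plane curve has a formal branch over the origin. -/
theorem branch (Q : ℂ[X][X]) (hQ : Q.Monic) (hd : 0 < Q.natDegree) :
    ∃ ε θ : PowerSeries ℂ, ε ≠ 0 ∧ PowerSeries.constantCoeff ε = 0 ∧ aevalAeval ε θ Q = 0 := by
  let K := FractionRing ℂ[X]
  let L := (Q.map (algebraMap ℂ[X] K)).SplittingField
  have hdeg : (Q.map (algebraMap ℂ[X] K)).degree ≠ 0 := by
    rw [hQ.degree_map]
    exact (natDegree_pos_iff_degree_pos.1 hd).ne'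
  have hsp := SplittingField.splits (Q.map (algebraMap ℂ[X] K))
  obtain ⟨y, hy⟩ := hsp.exists_eval_eq_zero (by rwa [degree_map])
  have hy' : aeval y Q = 0 := by
    rw [eval_map, eval₂_map, ← IsScalarTower.algebraMap_eq] at hy
    exact hy
  have : IsDedekindDomain (integralClosure ℂ[X] L) := integralClosure.isDedekindDomain ℂ[X] K L
  have hinjL : Function.Injective (algebraMap ℂ[X] L) := by
    rw [IsScalarTower.algebraMap_eq ℂ[X] K L]
    exact (algebraMap K L).injective.comp (IsFractionRing.injective ℂ[X] K)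
  let _ : Algebra ℂ (integralClosure ℂ[X] L) :=
    ((algebraMap ℂ[X] (integralClosure ℂ[X] L)).comp (algebraMap ℂ ℂ[X])).toAlgebra
  have : IsScalarTower ℂ ℂ[X] (integralClosure ℂ[X] L) := IsScalarTower.of_algebraMap_eq' rfl
  refine branch_of_dedekind (B := integralClosure ℂ[X] L) ?_ ⟨y, ⟨Q, hQ, hy'⟩⟩ Q ?_
  · intro a b hab
    exact hinjL (congrArg Subtype.val hab)
  · apply Subtype.val_injective
    have := aeval_algHom_apply (integralClosure ℂ[X] L).val ⟨y, ⟨Q, hQ, hy'⟩⟩ Q
    exact this.symm.trans hy'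

end

end SPP

end Pool.Agent.P.MP_daea48_ag
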