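import Pool.Agent.P.MP_daea48_ag.Sim1

/-! Collars and gluing of fillings. -/

open Set Filter Topology Metric

namespace Pool.Agent.P.MP_daea48_ag

namespace Sim

noncomputable section

open Classical

variable {E E' : Type} [NormedAddCommGroup E] [NormedSpace ℂ E] [NormedAddCommGroup E']
  [NormedSpace ℂ E'] {U : Set (ℂ × E)} {pr : E →L[ℂ] E'} (T : TC U pr) {κ : ℂ → ℂ} {β : ℂ}

theorem rho_low {K : Set E} (hK : IsCompact K) (w : ℂ) :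
    ∃ r > 0, r ≤ 1 ∧ ∀ ξ ∈ K, r ≤ T.rho (w, ξ) := by
  obtain ⟨r, hr, h⟩ := T.rho_lower (isCompact_singleton.prod hK (s := {w})).isBounded
  exact ⟨min r 1, lt_min hr one_pos, min_le_right _ _, fun ξ hξ =>
    (min_le_left _ _).trans (h _ ⟨rfl, hξ⟩)⟩

theorem kappa_near (hκ : ContinuousAt κ β) {ε : ℝ} (hε : 0 < ε) :
    ∃ δ > 0, ∀ ζ ∈ ball β δ, ‖κ ζ - κ β‖ < ε := by
  obtain ⟨δ, hδ, h⟩ := Metric.continuousAt_iff.1 hκ ε hε
  exact ⟨δ, hδ, fun ζ hζ => by rw [← dist_eq_norm]; exact h hζ⟩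

theorem near (hκ : ContinuousAt κ β) {K : Set E} (hK : IsCompact K) :
    ∃ η > 0, ∃ δ > 0, ∀ ξ₀ ∈ K, ∀ ζ ∈ ball β δ, ∀ ξ, ‖ξ - ξ₀‖ < η →
      ‖((κ ζ, pr ξ) : ℂ × E') - pj pr (κ β, ξ₀)‖ < T.rho (κ β, ξ₀) ^ 2 ∧
      ‖((κ ζ, ξ) : ℂ × E) - (κ β, ξ₀)‖ < T.rho (κ β, ξ₀) := by
  obtain ⟨r, hr, hr1, h⟩ := rho_low T hK (κ β)
  have hn := norm_nonneg pr
  obtain ⟨δ, hδ, h'⟩ := kappa_near hκ (pow_pos hr 2)
  refine ⟨r ^ 2 / (‖pr‖ + 1), by positivity, δ, hδ, fun ξ₀ h0 ζ hζ ξ hξ => ?_⟩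
  have h1 := h ξ₀ h0
  have h2 : r ^ 2 ≤ T.rho (κ β, ξ₀) ^ 2 := by gcongr
  have h3 := h' ζ hζ
  rw [lt_div_iff₀ (by positivity)] at hξ
  have h4 := norm_nonneg (ξ - ξ₀)
  have h5 : r ^ 2 ≤ r := by nlinarith
  constructor
  · rw [pj_mk, Prod.mk_sub_mk, Prod.norm_mk, max_lt_iff, ← map_sub]
    have := pr.le_opNorm (ξ - ξ₀)
    exact ⟨h3.trans_le h2, by nlinarith⟩
  · rw [Prod.mk_sub_mk, Prod.norm_mk, max_lt_iff]
    exact ⟨by linarith, by nlinarith⟩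

theorem near2 (hκ : ContinuousAt κ β) {K : Set E} (hK : IsCompact K)
    (hKU : ∀ ξ ∈ K, (κ β, ξ) ∈ U) {η : ℝ} (hη : 0 < η) :
    ∃ δ > 0, ∀ ξ₀ ∈ K, ∀ ζ ∈ ball β δ,
      ‖((κ ζ, pr ξ₀) : ℂ × E') - pj pr (κ β, ξ₀)‖ < T.rho (κ β, ξ₀) ^ 2 ∧
      ‖T.ex (κ β, ξ₀) (κ ζ, pr ξ₀) - ξ₀‖ < η := by
  obtain ⟨r, hr, hr1, h⟩ := rho_low T hK (κ β)
  obtain ⟨δ, hδ, h'⟩ := kappa_near hκ (lt_min (pow_pos hr 2) (mul_pos hr hη))
  refine ⟨δ, hδ, fun ξ₀ h0 ζ hζ => ?_⟩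
  have h1 := h ξ₀ h0
  have h2 : r ^ 2 ≤ T.rho (κ β, ξ₀) ^ 2 := by gcongr
  obtain ⟨h3, h4⟩ := lt_min_iff.1 (h' ζ hζ)
  have e : ‖((κ ζ, pr ξ₀) : ℂ × E') - pj pr (κ β, ξ₀)‖ = ‖κ ζ - κ β‖ := by simp
  have h5 : ‖((κ ζ, pr ξ₀) : ℂ × E') - pj pr (κ β, ξ₀)‖ < T.rho (κ β, ξ₀) ^ 2 := by
    rw [e]; exact h3.trans_le h2
  refine ⟨h5, ?_⟩
  have h6 := T.ex_dist' (hKU ξ₀ h0) h5
  rw [e] at h6
  simp only at h6
  have h7 := norm_nonneg (T.ex (κ β, ξ₀) (κ ζ, pr ξ₀) - ξ₀)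
  by_contra h8
  have h9 := not_lt.1 h8
  nlinarith

/-- Collar parameter. -/
def mu (ζ₀ : ℂ) (a b a' b' : ℝ) (ζ : ℂ) : ℝ :=
  max ((|(ζ - ζ₀).re| - a') / (a - a')) ((|(ζ - ζ₀).im| - b') / (b - b'))

/-- Collar projection. -/
def pp (ζ₀ : ℂ) (a b a' b' : ℝ) (ζ : ℂ) : ℝ × ℝ :=
  ((ζ - ζ₀).re / (a' + mu ζ₀ a b a' b' ζ * (a - a')),
    (ζ - ζ₀).im / (b' + mu ζ₀ a b a' b' ζ * (b - b')))

theorem continuous_mu (ζ₀ : ℂ) (a b a' b' : ℝ) : Continuous (mu ζ₀ a b a' b') := by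
  unfold mu; fun_prop

section collar
variable {ζ₀ : ℂ} {a b a' b' : ℝ} (ha' : 0 < a') (hb' : 0 < b') (ha : a' < a) (hb : b' < b)
include ha' hb' ha hb

theorem mu_mem {ζ : ℂ} (h : ζ ∈ rect ζ₀ a b \ orect ζ₀ a' b') :
    0 ≤ mu ζ₀ a b a' b' ζ ∧ mu ζ₀ a b a' b' ζ ≤ 1 := by
  obtain ⟨h1, h2⟩ := h
  rw [mem_rect _ (ha'.trans ha) (hb'.trans hb)] at h1
  rw [mem_orect _ ha' hb', not_and_or, not_lt, not_lt] at h2
  have e1 := sub_pos.2 ha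
  have e2 := sub_pos.2 hb
  constructor
  · rcases h2 with h2 | h2
    · exact le_max_of_le_left (div_nonneg (sub_nonneg.2 h2) e1.le)
    · exact le_max_of_le_right (div_nonneg (sub_nonneg.2 h2) e2.le)
  · exact max_le ((div_le_one e1).2 (by linarith [h1.1])) ((div_le_one e2).2 (by linarith [h1.2]))

theorem pp_mem {ζ : ℂ} (h : ζ ∈ rect ζ₀ a b \ orect ζ₀ a' b') : pp ζ₀ a b a' b' ζ ∈ bd := by
  obtain ⟨h0, -⟩ := mu_mem ha' hb' ha hb h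
  have e1 := sub_pos.2 ha
  have e2 := sub_pos.2 hb
  have d1 : 0 < a' + mu ζ₀ a b a' b' ζ * (a - a') := by positivity
  have d2 : 0 < b' + mu ζ₀ a b a' b' ζ * (b - b') := by positivity
  have l1 : (|(ζ - ζ₀).re| - a') / (a - a') ≤ mu ζ₀ a b a' b' ζ := le_max_left _ _
  have l2 : (|(ζ - ζ₀).im| - b') / (b - b') ≤ mu ζ₀ a b a' b' ζ := le_max_right _ _
  rw [div_le_iff₀ e1] at l1
  rw [div_le_iff₀ e2] at l2
  rw [bd, mem_sphere_zero_iff_norm, Prod.norm_def]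
  simp only [pp, Real.norm_eq_abs, abs_div, abs_of_pos d1, abs_of_pos d2]
  have k1 : |(ζ - ζ₀).re| / (a' + mu ζ₀ a b a' b' ζ * (a - a')) ≤ 1 :=
    (div_le_one d1).2 (by linarith)
  have k2 : |(ζ - ζ₀).im| / (b' + mu ζ₀ a b a' b' ζ * (b - b')) ≤ 1 :=
    (div_le_one d2).2 (by linarith)
  refine le_antisymm (max_le k1 k2) ?_
  rcases max_choice ((|(ζ - ζ₀).re| - a') / (a - a')) ((|(ζ - ζ₀).im| - b') / (b - b')) with m | m
  · have m' : mu ζ₀ a b a' b' ζ = (|(ζ - ζ₀).re| - a') / (a - a') := m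
    rw [eq_div_iff e1.ne'] at m'
    exact le_max_of_le_left ((one_le_div d1).2 (by linarith))
  · have m' : mu ζ₀ a b a' b' ζ = (|(ζ - ζ₀).im| - b') / (b - b') := m
    rw [eq_div_iff e2.ne'] at m'
    exact le_max_of_le_right ((one_le_div d2).2 (by linarith))

theorem continuousOn_pp : ContinuousOn (pp ζ₀ a b a' b') (rect ζ₀ a b \ orect ζ₀ a' b') := by
  have e1 := sub_pos.2 ha
  have e2 := sub_pos.2 hb
  have hm := continuous_mu ζ₀ a b a' b'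
  refine ContinuousOn.prodMk (ContinuousOn.div (by fun_prop) (by fun_prop) fun ζ h => ?_)
    (ContinuousOn.div (by fun_prop) (by fun_prop) fun ζ h => ?_)
  · have := (mu_mem ha' hb' ha hb h).1
    positivity
  · have := (mu_mem ha' hb' ha hb h).1
    positivity

omit ha' hb' ha hb in
theorem bd_cases {q : ℝ × ℝ} (hq : q ∈ bd) : |q.1| ≤ 1 ∧ |q.2| ≤ 1 ∧ (|q.1| = 1 ∨ |q.2| = 1) := by
  rw [bd, mem_sphere_zero_iff_norm, Prod.norm_def, Real.norm_eq_abs, Real.norm_eq_abs] at hq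
  refine ⟨hq ▸ le_max_left _ _, hq ▸ le_max_right _ _, ?_⟩
  rcases max_choice |q.1| |q.2| with m | m
  · exact Or.inl (m.symm.trans hq)
  · exact Or.inr (m.symm.trans hq)

theorem mu_in {q : ℝ × ℝ} (hq : q ∈ bd) : mu ζ₀ a b a' b' (aff ζ₀ a' b' q) = 0 ∧
    pp ζ₀ a b a' b' (aff ζ₀ a' b' q) = q := by
  have e1 := sub_pos.2 ha
  have e2 := sub_pos.2 hb
  obtain ⟨h1, h2, h3⟩ := bd_cases hq
  have m : mu ζ₀ a b a' b' (aff ζ₀ a' b' q) = 0 := by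
    rw [mu, aff_re, aff_im, abs_mul, abs_mul, abs_of_pos ha', abs_of_pos hb']
    have k1 : (a' * |q.1| - a') / (a - a') ≤ 0 := div_nonpos_of_nonpos_of_nonneg (by nlinarith) e1.le
    have k2 : (b' * |q.2| - b') / (b - b') ≤ 0 := div_nonpos_of_nonpos_of_nonneg (by nlinarith) e2.le
    refine le_antisymm (max_le k1 k2) ?_
    rcases h3 with h3 | h3
    · exact le_max_of_le_left (by rw [h3]; simp)
    · exact le_max_of_le_right (by rw [h3]; simp)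
  refine ⟨m, ?_⟩
  rw [pp, m, aff_re, aff_im]
  ext <;> simp only [zero_mul, add_zero] <;> field_simp

theorem mu_out {q : ℝ × ℝ} (hq : q ∈ bd) : mu ζ₀ a b a' b' (aff ζ₀ a b q) = 1 ∧
    pp ζ₀ a b a' b' (aff ζ₀ a b q) = q := by
  have e1 := sub_pos.2 ha
  have e2 := sub_pos.2 hb
  have f1 := ha'.trans ha
  have f2 := hb'.trans hb
  obtain ⟨h1, h2, h3⟩ := bd_cases hq
  have m : mu ζ₀ a b a' b' (aff ζ₀ a b q) = 1 := by
    rw [mu, aff_re, aff_im, abs_mul, abs_mul, abs_of_pos f1, abs_of_pos f2]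
    have k1 : (a * |q.1| - a') / (a - a') ≤ 1 := (div_le_one e1).2 (by nlinarith)
    have k2 : (b * |q.2| - b') / (b - b') ≤ 1 := (div_le_one e2).2 (by nlinarith)
    refine le_antisymm (max_le k1 k2) ?_
    rcases h3 with h3 | h3
    · exact le_max_of_le_left (by rw [h3, mul_one, div_self e1.ne'])
    · exact le_max_of_le_right (by rw [h3, mul_one, div_self e2.ne'])
  refine ⟨m, ?_⟩
  rw [pp, m, aff_re, aff_im]
  ext <;> simp only [one_mul, add_sub_cancel] <;> field_simp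

end collar

theorem isCompact_bd : IsCompact bd := isCompact_sphere _ _

include T in
theorem part1 (hκ : AnalyticAt ℂ κ β) (F : ℝ × ℝ → E) (a₀ b₀ : ℝ) (ha₀ : 0 < a₀) (hb₀ : 0 < b₀)
    (hF : BdMap (fib U (κ β)) F) (hA : AFill U κ β F a₀ b₀) : SFill U κ β F := by
  obtain ⟨η, hη, δ₁, hδ₁, hn⟩ := near T hκ.continuousAt (isCompact_bd.image_of_continuousOn hF.1)
  obtain ⟨δ₂, hδ₂, hA⟩ := hA η hη
  obtain ⟨δ₃, hδ₃, hκc⟩ := Metric.eventually_nhds_iff_ball.1 hκ.eventually_continuousAt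
  refine ⟨η, hη, min δ₁ (min δ₂ δ₃), lt_min hδ₁ (lt_min hδ₂ hδ₃),
    fun ζ₀ a b ha hb hR σ hσ hσU => ?_⟩
  have R1 : rect ζ₀ a b ⊆ ball β δ₁ := hR.trans (ball_subset_ball (min_le_left _ _))
  have R2 : rect ζ₀ a b ⊆ ball β δ₂ :=
    hR.trans (ball_subset_ball ((min_le_right _ _).trans (min_le_left _ _)))
  have R3 : rect ζ₀ a b ⊆ ball β δ₃ :=
    hR.trans (ball_subset_ball ((min_le_right _ _).trans (min_le_right _ _)))
  obtain ⟨t, ht, hta, htb⟩ : ∃ t > 0, t * a₀ < a ∧ t * b₀ < b := by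
    have p1 := div_pos ha ha₀
    have p2 := div_pos hb hb₀
    refine ⟨min (a / a₀) (b / b₀) / 2, half_pos (lt_min p1 p2), ?_, ?_⟩
    · rw [← lt_div_iff₀ ha₀]
      linarith [min_le_left (a / a₀) (b / b₀), lt_min p1 p2]
    · rw [← lt_div_iff₀ hb₀]
      linarith [min_le_right (a / a₀) (b / b₀), lt_min p1 p2]
  have ha' := mul_pos ht ha₀
  have hb' := mul_pos ht hb₀
  set a' := t * a₀
  set b' := t * b₀
  have hsub : rect ζ₀ a' b' ⊆ rect ζ₀ a b := fun ζ hζ => by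
    rw [mem_rect _ ha' hb'] at hζ
    rw [mem_rect _ ha hb]
    exact ⟨hζ.1.trans hta.le, hζ.2.trans htb.le⟩
  obtain ⟨S, hS, hSF⟩ := hA ζ₀ t ht (hsub.trans R2)
  have hH : Holes ζ₀ a b (fun _ : Unit => ζ₀) (fun _ => a') (fun _ => b') :=
    ⟨ha, hb, fun _ => ha', fun _ => hb', fun _ => hsub, Subsingleton.pairwise⟩
  obtain ⟨P, hP, hSc, hSU⟩ := id hS
  have hbd : ∀ q ∈ bd, aff ζ₀ a' b' q ∈ rect ζ₀ a' b' \ P := fun q hq =>
    ⟨bd_mem _ _ _ hq, fun h => bd_notMem _ ha' hb' hq (hP _ h).1⟩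
  let p := pp ζ₀ a b a' b'
  let μ := mu ζ₀ a b a' b'
  let ξ : ℂ → E := fun ζ => (1 - μ ζ) • S (aff ζ₀ a' b' (p ζ)) + μ ζ • σ (p ζ)
  have hp : ContinuousOn p (rect ζ₀ a b \ orect ζ₀ a' b') := continuousOn_pp ha' hb' hta htb
  have hpm : MapsTo p (rect ζ₀ a b \ orect ζ₀ a' b') bd := fun ζ h => pp_mem ha' hb' hta htb h
  have hμ : Continuous μ := continuous_mu _ _ _ _ _
  have hξ : ContinuousOn ξ (rect ζ₀ a b \ orect ζ₀ a' b') := by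
    refine ((continuous_const.sub hμ).continuousOn.smul ?_).add
      (hμ.continuousOn.smul (hσ.comp hp hpm))
    exact (hSc.comp (continuous_aff _ _ _).continuousOn hbd).comp hp hpm
  have hξF : ∀ ζ ∈ rect ζ₀ a b \ orect ζ₀ a' b', ‖ξ ζ - F (p ζ)‖ < η := fun ζ h => by
    obtain ⟨m0, m1⟩ := mu_mem ha' hb' hta htb h
    rw [← mem_ball_iff_norm]
    exact convex_ball (F (p ζ)) η (mem_ball_iff_norm.2 (hSF _ (hpm h)))
      (mem_ball_iff_norm.2 (hσU _ (hpm h)).2) (sub_nonneg.2 m1) m0 (sub_add_cancel _ _)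
  have hdom : ∀ ζ ∈ rect ζ₀ a b \ orect ζ₀ a' b', ((κ β, F (p ζ)) : ℂ × E) ∈ U ∧
      ‖((κ ζ, pr (ξ ζ)) : ℂ × E') - pj pr (κ β, F (p ζ))‖ < T.rho (κ β, F (p ζ)) ^ 2 :=
    fun ζ h => ⟨hF.2 (hpm h), (hn _ (mem_image_of_mem F (hpm h)) ζ (R1 h.1) _ (hξF ζ h)).1⟩
  have hU1 : (⋃ _ : Unit, orect ζ₀ a' b') = orect ζ₀ a' b' := iUnion_const _
  obtain ⟨S', h1, h2⟩ := paste (U := U) (κ := κ) hH
    (G := fun ζ => T.ex (κ β, F (p ζ)) (κ ζ, pr (ξ ζ))) (S := fun _ => S)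
    (by
      rw [hU1]
      exact T.continuousOn_ex_comp (continuousOn_const.prodMk (hF.1.comp hp hpm))
        (ContinuousOn.prodMk (fun ζ h => (hκc ζ (R3 h.1)).continuousWithinAt)
          (pr.continuous.comp_continuousOn hξ)) hdom)
    (by
      rw [hU1]
      exact fun ζ h => T.ex_mem (hdom ζ h).1 (hdom ζ h).2)
    (fun _ => hS)
    (fun _ q hq => by
      obtain ⟨m, e⟩ := mu_in (ζ₀ := ζ₀) ha' hb' hta htb hq
      have e' : ξ (aff ζ₀ a' b' q) = S (aff ζ₀ a' b' q) := by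
        simp only [ξ, μ, p, m, e, sub_zero, one_smul, zero_smul, add_zero]
      simp only [p, e, e']
      exact (T.ex_unique (hF.2 hq) (hSU _ (hbd q hq))
        (hn _ (mem_image_of_mem F hq) _ (R1 (hsub (bd_mem _ _ _ hq))) _ (hSF q hq)).2 rfl).symm)
  refine ⟨S', h1, fun q hq => ?_⟩
  rw [h2 q hq]
  obtain ⟨m, e⟩ := mu_out (ζ₀ := ζ₀) ha' hb' hta htb hq
  have e' : ξ (aff ζ₀ a b q) = σ q := by
    simp only [ξ, μ, p, m, e, sub_self, one_smul, zero_smul, zero_add]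
  simp only [p, e, e']
  exact T.ex_unique (hF.2 hq) (hσU q hq).1
    (hn _ (mem_image_of_mem F hq) _ (R1 (bd_mem _ _ _ hq)) _ (hσU q hq).2).2 rfl

theorem img_raff (ζ₀ : ℂ) (t : ℝ) (c : ℝ × ℝ) (a b : ℝ) (s : Set (ℝ × ℝ)) :
    aff (aff ζ₀ t t c) (t * a) (t * b) '' s = aff ζ₀ t t '' (raff c a b '' s) := by
  rw [image_image]
  exact image_congr fun p _ => aff_raff _ _ _ _ _ _

section glue
variable {n : ℕ} {c : Fin n → ℝ × ℝ} {a b : Fin n → ℝ}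

theorem holes_of
    (h1 : ∀ j, 0 < a j ∧ 0 < b j ∧ raff (c j) (a j) (b j) '' closedBall 0 1 ⊆ closedBall 0 1)
    (h2 : Pairwise fun i j => Disjoint (raff (c i) (a i) (b i) '' ball 0 1)
      (raff (c j) (a j) (b j) '' ball 0 1)) (ζ₀ : ℂ) {t : ℝ} (ht : 0 < t) :
    Holes ζ₀ t t (fun j => aff ζ₀ t t (c j)) (fun j => t * a j) (fun j => t * b j) := by
  refine ⟨ht, ht, fun j => mul_pos ht (h1 j).1, fun j => mul_pos ht (h1 j).2.1, fun j => ?_,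
    fun i j hij => ?_⟩
  · rw [rect, img_raff]
    exact image_mono (h1 j).2.2
  · simp only [orect, img_raff]
    exact disjoint_image_of_injective (affH ζ₀ ht ht).injective (h2 hij)

theorem mem_K (ζ₀ : ℂ) {t : ℝ} (ht : 0 < t) (ζ : ℂ) :
    ζ ∈ rect ζ₀ t t \ ⋃ j, orect (aff ζ₀ t t (c j)) (t * a j) (t * b j) ↔
      iaff ζ₀ t t ζ ∈ closedBall 0 1 \ ⋃ j, raff (c j) (a j) (b j) '' ball 0 1 := by
  simp only [rect, orect, img_raff, Set.mem_sdiff, mem_iUnion, mem_img ζ₀ ht ht]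

include T in
theorem glue (hκ : AnalyticAt ℂ κ β) (H : ℝ × ℝ → E)
    (h1 : ∀ j, 0 < a j ∧ 0 < b j ∧ raff (c j) (a j) (b j) '' closedBall 0 1 ⊆ closedBall 0 1)
    (h2 : Pairwise fun i j => Disjoint (raff (c i) (a i) (b i) '' ball 0 1)
      (raff (c j) (a j) (b j) '' ball 0 1))
    (h3 : ContinuousOn H (closedBall 0 1 \ ⋃ j, raff (c j) (a j) (b j) '' ball 0 1))
    (h4 : MapsTo H (closedBall 0 1 \ ⋃ j, raff (c j) (a j) (b j) '' ball 0 1) (fib U (κ β)))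
    (h5 : ∀ j, SFill U κ β fun p => H (raff (c j) (a j) (b j) p)) : SFill U κ β H := by
  set K := closedBall (0 : ℝ × ℝ) 1 \ ⋃ j, raff (c j) (a j) (b j) '' ball 0 1 with hK
  have hH0 := holes_of h1 h2 0 one_pos
  have hKe : K = aff 0 1 1 ⁻¹'
      (rect 0 1 1 \ ⋃ j, orect (aff 0 1 1 (c j)) (1 * a j) (1 * b j)) := by
    ext q
    rw [mem_preimage, mem_K 0 one_pos, iaff_aff 0 one_pos one_pos]
  have hKc : IsCompact K := by
    refine (isCompact_closedBall (0 : ℝ × ℝ) 1).of_isClosed_subset ?_ sdiff_subset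
    rw [hKe]
    exact ((isClosed_rect _ one_pos one_pos).sdiff
      (isOpen_iUnion fun i => isOpen_orect _ (hH0.hα i) (hH0.hγ i))).preimage
      (continuous_aff _ _ _)
  have hbK : bd ⊆ K := fun q hq => by
    rw [hKe]
    exact hH0.out_bd hq
  refine part1 T hκ H 1 1 one_pos one_pos ⟨h3.mono hbK, h4.mono_left hbK⟩ fun η hη => ?_
  choose η' hη' δ' hδ' h5 using h5
  obtain ⟨η₁, ⟨e1, e2⟩, e3⟩ : ∃ x : ℝ, (x < η ∧ ∀ j, x < η' j) ∧ 0 < x :=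
    (((eventually_lt_nhds hη).and (eventually_all.2 fun j => eventually_lt_nhds (hη' j))).filter_mono
      (nhdsWithin_le_nhds (s := Ioi 0))).and self_mem_nhdsWithin |>.exists
  obtain ⟨δ₁, hδ₁, hn⟩ := near2 T hκ.continuousAt (hKc.image_of_continuousOn h3)
    (by rintro _ ⟨q, hq, rfl⟩; exact h4 hq) e3
  obtain ⟨δ₃, hδ₃, hκc⟩ := Metric.eventually_nhds_iff_ball.1 hκ.eventually_continuousAt
  obtain ⟨δ, ⟨⟨d1, d3⟩, d2⟩, d0⟩ : ∃ x : ℝ, ((x < δ₁ ∧ x < δ₃) ∧ ∀ j, x < δ' j) ∧ 0 < x :=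
    ((((eventually_lt_nhds hδ₁).and (eventually_lt_nhds hδ₃)).and
      (eventually_all.2 fun j => eventually_lt_nhds (hδ' j))).filter_mono
      (nhdsWithin_le_nhds (s := Ioi 0))).and self_mem_nhdsWithin |>.exists
  refine ⟨δ, d0, fun ζ₀ t ht hR => ?_⟩
  rw [mul_one] at hR ⊢
  have hH := holes_of h1 h2 ζ₀ ht
  let D := rect ζ₀ t t \ ⋃ j, orect (aff ζ₀ t t (c j)) (t * a j) (t * b j)
  let G : ℂ → E := fun ζ => T.ex (κ β, H (iaff ζ₀ t t ζ)) (κ ζ, pr (H (iaff ζ₀ t t ζ)))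
  have hq : MapsTo (iaff ζ₀ t t) D K := fun ζ h => (mem_K ζ₀ ht ζ).1 h
  have hn' : ∀ ζ ∈ D, ‖((κ ζ, pr (H (iaff ζ₀ t t ζ))) : ℂ × E') -
      pj pr (κ β, H (iaff ζ₀ t t ζ))‖ < T.rho (κ β, H (iaff ζ₀ t t ζ)) ^ 2 ∧
      ‖G ζ - H (iaff ζ₀ t t ζ)‖ < η₁ := fun ζ h =>
    hn _ (mem_image_of_mem H (hq h)) ζ (ball_subset_ball d1.le (hR h.1))
  have hc : ContinuousOn (fun ζ => H (iaff ζ₀ t t ζ)) D :=
    h3.comp (continuous_iaff _ _ _).continuousOn hq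
  have hG : ContinuousOn G D :=
    T.continuousOn_ex_comp (continuousOn_const.prodMk hc)
      (ContinuousOn.prodMk
        (fun ζ h => (hκc ζ (ball_subset_ball d3.le (hR h.1))).continuousWithinAt)
        (pr.continuous.comp_continuousOn hc)) fun ζ h => ⟨h4 (hq h), (hn' ζ h).1⟩
  have hGU : ∀ ζ ∈ D, (κ ζ, G ζ) ∈ U := fun ζ h => T.ex_mem (h4 (hq h)) (hn' ζ h).1
  have hS : ∀ j, ∃ S, Filled U κ (aff ζ₀ t t (c j)) (t * a j) (t * b j) S ∧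
      ∀ p ∈ bd, S (aff (aff ζ₀ t t (c j)) (t * a j) (t * b j) p) =
        G (aff (aff ζ₀ t t (c j)) (t * a j) (t * b j) p) := fun j =>
    h5 j _ _ _ (hH.hα j) (hH.hγ j) (((hH.sub j).trans hR).trans (ball_subset_ball (d2 j).le))
      (fun p => G (aff (aff ζ₀ t t (c j)) (t * a j) (t * b j) p))
      (hG.comp (continuous_aff _ _ _).continuousOn fun p hp => hH.hole_bd j hp) fun p hp => by
        refine ⟨hGU _ (hH.hole_bd j hp), ?_⟩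
        have := (hn' _ (hH.hole_bd j hp)).2
        rw [aff_raff, iaff_aff ζ₀ ht ht] at this
        rw [aff_raff]
        exact this.trans (e2 j)
  choose S hS hSb using hS
  obtain ⟨S', k1, k2⟩ := paste hH hG hGU hS hSb
  refine ⟨S', k1, fun p hp => ?_⟩
  have := (hn' _ (hH.out_bd hp)).2
  rw [iaff_aff ζ₀ ht ht] at this
  rw [k2 p hp]
  exact this.trans e1

end glue

end

end Sim

theorem Sim_of : S_Sim := by
  intro E _ _ _ E' _ _ _ U pr T κ β hκ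
  refine ⟨Sim.part1 T hκ, ?_, fun n c a b H => Sim.glue T hκ H⟩
  rintro F F' hF ⟨η, hη, δ, hδ, h⟩
  refine ⟨η, hη, δ, hδ, fun ζ₀ a b ha hb hR σ hσ hσU => h ζ₀ a b ha hb hR σ hσ fun p hp => ?_⟩
  rw [hF hp]
  exact hσU p hp

end Pool.Agent.P.MP_daea48_ag
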