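import Pool.Agent.P.MP_daea48_ag.StA

/-! Rectangles and pasting of fillings. -/

open Set Filter Topology Metric

namespace Pool.Agent.P.MP_daea48_ag.Sim

noncomputable section

open Classical

/-- Inverse of `aff`. -/
def iaff (ζ₀ : ℂ) (a b : ℝ) (ζ : ℂ) : ℝ × ℝ := ((ζ - ζ₀).re / a, (ζ - ζ₀).im / b)

/-- Open rectangle. -/
def orect (ζ₀ : ℂ) (a b : ℝ) : Set ℂ := aff ζ₀ a b '' ball 0 1

theorem aff_re (ζ₀ : ℂ) (a b : ℝ) (p : ℝ × ℝ) : (aff ζ₀ a b p - ζ₀).re = a * p.1 := by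
  simp [aff]

theorem aff_im (ζ₀ : ℂ) (a b : ℝ) (p : ℝ × ℝ) : (aff ζ₀ a b p - ζ₀).im = b * p.2 := by
  simp [aff]

theorem iaff_aff (ζ₀ : ℂ) {a b : ℝ} (ha : 0 < a) (hb : 0 < b) (p : ℝ × ℝ) :
    iaff ζ₀ a b (aff ζ₀ a b p) = p := by
  unfold iaff
  rw [aff_re, aff_im]
  ext <;> simp only <;> field_simp

theorem aff_iaff (ζ₀ : ℂ) {a b : ℝ} (ha : 0 < a) (hb : 0 < b) (ζ : ℂ) :
    aff ζ₀ a b (iaff ζ₀ a b ζ) = ζ := by
  have h1 : a * ((ζ - ζ₀).re / a) = (ζ - ζ₀).re := by field_simp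
  have h2 : b * ((ζ - ζ₀).im / b) = (ζ - ζ₀).im := by field_simp
  unfold aff iaff
  simp only
  rw [h1, h2, add_assoc, Complex.re_add_im]
  ring

theorem continuous_aff (ζ₀ : ℂ) (a b : ℝ) : Continuous (aff ζ₀ a b) := by
  unfold aff; fun_prop

theorem continuous_iaff (ζ₀ : ℂ) (a b : ℝ) : Continuous (iaff ζ₀ a b) := by
  unfold iaff; fun_prop

/-- `aff` as a homeomorphism. -/
def affH (ζ₀ : ℂ) {a b : ℝ} (ha : 0 < a) (hb : 0 < b) : ℝ × ℝ ≃ₜ ℂ where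
  toFun := aff ζ₀ a b
  invFun := iaff ζ₀ a b
  left_inv := iaff_aff ζ₀ ha hb
  right_inv := aff_iaff ζ₀ ha hb
  continuous_toFun := continuous_aff _ _ _
  continuous_invFun := continuous_iaff _ _ _

theorem mem_img (ζ₀ : ℂ) {a b : ℝ} (ha : 0 < a) (hb : 0 < b) {s : Set (ℝ × ℝ)} {ζ : ℂ} :
    ζ ∈ aff ζ₀ a b '' s ↔ iaff ζ₀ a b ζ ∈ s :=
  ⟨by rintro ⟨p, hp, rfl⟩; rwa [iaff_aff ζ₀ ha hb], fun h => ⟨_, h, aff_iaff ζ₀ ha hb ζ⟩⟩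

theorem interior_rect (ζ₀ : ℂ) {a b : ℝ} (ha : 0 < a) (hb : 0 < b) :
    interior (rect ζ₀ a b) = orect ζ₀ a b := by
  have := (affH ζ₀ ha hb).image_interior (closedBall 0 1)
  rw [interior_closedBall _ one_ne_zero] at this
  exact this.symm

theorem closure_orect (ζ₀ : ℂ) {a b : ℝ} (ha : 0 < a) (hb : 0 < b) :
    closure (orect ζ₀ a b) = rect ζ₀ a b := by
  have := (affH ζ₀ ha hb).image_closure (ball 0 1)
  rw [closure_ball _ one_ne_zero] at this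
  exact this.symm

theorem isOpen_orect (ζ₀ : ℂ) {a b : ℝ} (ha : 0 < a) (hb : 0 < b) : IsOpen (orect ζ₀ a b) := by
  rw [← interior_rect ζ₀ ha hb]; exact isOpen_interior

theorem isClosed_rect (ζ₀ : ℂ) {a b : ℝ} (ha : 0 < a) (hb : 0 < b) : IsClosed (rect ζ₀ a b) := by
  rw [← closure_orect ζ₀ ha hb]; exact isClosed_closure

theorem orect_sub (ζ₀ : ℂ) (a b : ℝ) : orect ζ₀ a b ⊆ rect ζ₀ a b :=
  image_mono ball_subset_closedBall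

theorem bd_mem (ζ₀ : ℂ) (a b : ℝ) {p : ℝ × ℝ} (hp : p ∈ bd) : aff ζ₀ a b p ∈ rect ζ₀ a b :=
  mem_image_of_mem _ (sphere_subset_closedBall hp)

theorem bd_notMem (ζ₀ : ℂ) {a b : ℝ} (ha : 0 < a) (hb : 0 < b) {p : ℝ × ℝ} (hp : p ∈ bd) :
    aff ζ₀ a b p ∉ orect ζ₀ a b := by
  rw [orect, mem_img ζ₀ ha hb, iaff_aff ζ₀ ha hb]
  intro h
  exact (mem_ball.1 h).ne (mem_sphere.1 hp)

theorem exists_bd (ζ₀ : ℂ) {a b : ℝ} {ζ : ℂ} (h1 : ζ ∈ rect ζ₀ a b) (h2 : ζ ∉ orect ζ₀ a b) :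
    ∃ p ∈ bd, aff ζ₀ a b p = ζ := by
  obtain ⟨p, hp, rfl⟩ := h1
  refine ⟨p, ?_, rfl⟩
  rw [bd, ← closedBall_sdiff_ball]
  exact ⟨hp, fun h => h2 (mem_image_of_mem _ h)⟩

theorem mem_rect (ζ₀ : ℂ) {a b : ℝ} (ha : 0 < a) (hb : 0 < b) {ζ : ℂ} :
    ζ ∈ rect ζ₀ a b ↔ |(ζ - ζ₀).re| ≤ a ∧ |(ζ - ζ₀).im| ≤ b := by
  rw [rect, mem_img ζ₀ ha hb, mem_closedBall_zero_iff, Prod.norm_def, max_le_iff]
  simp only [iaff, Real.norm_eq_abs, abs_div, abs_of_pos ha, abs_of_pos hb, div_le_one ha,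
    div_le_one hb]

theorem mem_orect (ζ₀ : ℂ) {a b : ℝ} (ha : 0 < a) (hb : 0 < b) {ζ : ℂ} :
    ζ ∈ orect ζ₀ a b ↔ |(ζ - ζ₀).re| < a ∧ |(ζ - ζ₀).im| < b := by
  rw [orect, mem_img ζ₀ ha hb, mem_ball_zero_iff, Prod.norm_def, max_lt_iff]
  simp only [iaff, Real.norm_eq_abs, abs_div, abs_of_pos ha, abs_of_pos hb, div_lt_one ha,
    div_lt_one hb]

theorem aff_raff (ζ₀ : ℂ) (t : ℝ) (c : ℝ × ℝ) (a b : ℝ) (p : ℝ × ℝ) :
    aff (aff ζ₀ t t c) (t * a) (t * b) p = aff ζ₀ t t (raff c a b p) := by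
  simp only [aff, raff]
  push_cast
  ring

/-- A finite family of holes in a rectangle. -/
structure Holes {J : Type} (ζ₀ : ℂ) (a b : ℝ) (z : J → ℂ) (α γ : J → ℝ) : Prop where
  ha : 0 < a
  hb : 0 < b
  hα : ∀ j, 0 < α j
  hγ : ∀ j, 0 < γ j
  sub : ∀ j, rect (z j) (α j) (γ j) ⊆ rect ζ₀ a b
  disj : Pairwise fun i j => Disjoint (orect (z i) (α i) (γ i)) (orect (z j) (α j) (γ j))

namespace Holes
variable {J : Type} {ζ₀ : ℂ} {a b : ℝ} {z : J → ℂ} {α γ : J → ℝ} (h : Holes ζ₀ a b z α γ)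
include h

theorem osub (j : J) : orect (z j) (α j) (γ j) ⊆ orect ζ₀ a b := by
  rw [← interior_rect _ h.ha h.hb, ← interior_rect _ (h.hα j) (h.hγ j)]
  exact interior_mono (h.sub j)

theorem eq_of_mem {i j : J} {ζ : ℂ} (hi : ζ ∈ orect (z i) (α i) (γ i))
    (hj : ζ ∈ rect (z j) (α j) (γ j)) : i = j := by
  by_contra hij
  have := (h.disj hij).closure_right (isOpen_orect _ (h.hα i) (h.hγ i))
  rw [closure_orect _ (h.hα j) (h.hγ j)] at this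
  exact disjoint_left.1 this hi hj

theorem hole_bd (j : J) {p : ℝ × ℝ} (hp : p ∈ bd) :
    aff (z j) (α j) (γ j) p ∈ rect ζ₀ a b \ ⋃ i, orect (z i) (α i) (γ i) := by
  refine ⟨h.sub j (bd_mem _ _ _ hp), fun hm => ?_⟩
  obtain ⟨i, hi⟩ := mem_iUnion.1 hm
  obtain rfl := h.eq_of_mem hi (bd_mem _ _ _ hp)
  exact bd_notMem _ (h.hα i) (h.hγ i) hp hi

theorem out_bd {p : ℝ × ℝ} (hp : p ∈ bd) :
    aff ζ₀ a b p ∈ rect ζ₀ a b \ ⋃ i, orect (z i) (α i) (γ i) := by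
  refine ⟨bd_mem _ _ _ hp, fun hm => ?_⟩
  obtain ⟨i, hi⟩ := mem_iUnion.1 hm
  exact bd_notMem _ h.ha h.hb hp (h.osub i hi)

end Holes

theorem cwa_closed {E : Type} [TopologicalSpace E] {S : ℂ → E} {s P : Set ℂ} (hs : IsClosed s)
    (h : ContinuousOn S (s \ P)) {x : ℂ} (hx : x ∉ P) : ContinuousWithinAt S (s \ P) x := by
  by_cases h1 : x ∈ s
  · exact h x ⟨h1, hx⟩
  · exact continuousWithinAt_of_notMem_closure fun h2 =>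
      h1 (hs.closure_subset (closure_mono sdiff_subset h2))

variable {E : Type} [NormedAddCommGroup E] [NormedSpace ℂ E] {U : Set (ℂ × E)} {κ : ℂ → ℂ}

theorem paste {J : Type} [Finite J] {ζ₀ : ℂ} {a b : ℝ} {z : J → ℂ} {α γ : J → ℝ}
    (h : Holes ζ₀ a b z α γ) {G : ℂ → E}
    (hG : ContinuousOn G (rect ζ₀ a b \ ⋃ i, orect (z i) (α i) (γ i)))
    (hGU : ∀ ζ ∈ rect ζ₀ a b \ ⋃ i, orect (z i) (α i) (γ i), (κ ζ, G ζ) ∈ U)
    {S : J → ℂ → E} (hS : ∀ j, Filled U κ (z j) (α j) (γ j) (S j))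
    (hb : ∀ j, ∀ p ∈ bd, S j (aff (z j) (α j) (γ j) p) = G (aff (z j) (α j) (γ j) p)) :
    ∃ S', Filled U κ ζ₀ a b S' ∧ ∀ p ∈ bd, S' (aff ζ₀ a b p) = G (aff ζ₀ a b p) := by
  have := Fintype.ofFinite J
  choose P hP hSc hSU using hS
  let S' : ℂ → E := fun ζ =>
    if hζ : ∃ j, ζ ∈ orect (z j) (α j) (γ j) then S hζ.choose ζ else G ζ
  have e1 : ∀ ζ, ζ ∉ ⋃ i, orect (z i) (α i) (γ i) → S' ζ = G ζ := fun ζ hζ =>
    dif_neg fun hh => hζ (mem_iUnion.2 hh)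
  have e2 : ∀ j, ∀ ζ ∈ rect (z j) (α j) (γ j), S' ζ = S j ζ := fun j ζ hζ => by
    by_cases hh : ∃ i, ζ ∈ orect (z i) (α i) (γ i)
    · have := h.eq_of_mem hh.choose_spec hζ
      simp only [S', dif_pos hh, this]
    · obtain ⟨p, hp, rfl⟩ := exists_bd _ hζ fun h' => hh ⟨j, h'⟩
      rw [e1 _ fun h' => hh (mem_iUnion.1 h'), hb j p hp]
  let Q : Finset ℂ := Finset.univ.biUnion P
  have hQ : ∀ j, (P j : Set ℂ) ⊆ Q := fun j x hx =>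
    Finset.mem_coe.2 (Finset.mem_biUnion.2 ⟨j, Finset.mem_univ j, hx⟩)
  refine ⟨S', ⟨Q, fun p hp => ?_, fun x hx => ?_, fun ζ hζ => ?_⟩,
    fun p hp => e1 _ (h.out_bd hp).2⟩
  · obtain ⟨j, -, hj⟩ := Finset.mem_biUnion.1 hp
    obtain ⟨h1, h2, h3⟩ := hP j p hj
    have h4 : S j =ᶠ[𝓝[≠] p] S' := by
      filter_upwards [nhdsWithin_le_nhds ((isOpen_orect _ (h.hα j) (h.hγ j)).mem_nhds h1)]
        with x hx
      exact (e2 j x (orect_sub _ _ _ hx)).symm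
    refine ⟨h.osub j h1, h2.congr h4, ?_⟩
    filter_upwards [h3, h4] with x hx1 hx2
    rwa [← hx2]
  · have hA : ContinuousWithinAt S' ((rect ζ₀ a b \ ⋃ i, orect (z i) (α i) (γ i)) \ Q) x := by
      refine cwa_closed ((isClosed_rect _ h.ha h.hb).sdiff
        (isOpen_iUnion fun i => isOpen_orect _ (h.hα i) (h.hγ i))) ?_ hx.2
      exact (hG.mono sdiff_subset).congr fun y hy => e1 y hy.1.2
    have hB : ContinuousWithinAt S' (⋃ j, rect (z j) (α j) (γ j) \ Q) x := by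
      rw [ContinuousWithinAt, nhdsWithin_iUnion, tendsto_iSup]
      intro j
      refine cwa_closed (isClosed_rect _ (h.hα j) (h.hγ j)) ?_ hx.2
      exact ((hSc j).mono (sdiff_subset_sdiff_right (hQ j))).congr fun y hy => e2 j y hy.1
    refine (hA.union hB).mono fun y hy => ?_
    by_cases hh : y ∈ ⋃ i, orect (z i) (α i) (γ i)
    · obtain ⟨i, hi⟩ := mem_iUnion.1 hh
      exact Or.inr (mem_iUnion.2 ⟨i, orect_sub _ _ _ hi, hy.2⟩)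
    · exact Or.inl ⟨⟨hy.1, hh⟩, hy.2⟩
  · by_cases hh : ζ ∈ ⋃ i, orect (z i) (α i) (γ i)
    · obtain ⟨i, hi⟩ := mem_iUnion.1 hh
      rw [e2 i ζ (orect_sub _ _ _ hi)]
      exact hSU i ζ ⟨orect_sub _ _ _ hi, fun h' => hζ.2 (hQ i h')⟩
    · rw [e1 ζ hh]
      exact hGU ζ ⟨hζ.1, hh⟩

end

end Pool.Agent.P.MP_daea48_ag.Sim
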