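import Pool.Agent.P.MP_daea48_ag.Spr1

/-! The specialisation calculus. -/

open Set Filter Topology Polynomial
open scoped ComplexConjugate

namespace Pool.Agent.P.MP_daea48_ag

namespace Spr

noncomputable section

open Classical

variable {K : Type} [Field K] [Algebra ℝ K] (F : FF K) {σ τ : Type}

theorem coeff_spP (G : MvPolynomial σ K) (c : ℂ × ℂ) (m : σ →₀ ℕ) :
    (F.spP G c).coeff m = F.sp (G.coeff m) c := by
  rw [FF.spP, MvPolynomial.coeff_sum]
  simp only [MvPolynomial.coeff_monomial]
  rw [Finset.sum_ite_eq']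
  split_ifs with h
  · rfl
  · rw [MvPolynomial.notMem_support_iff.1 h, sp_zero]

theorem spP_monomial (m : σ →₀ ℕ) (a : K) (c : ℂ × ℂ) :
    F.spP (MvPolynomial.monomial m a) c = MvPolynomial.monomial m (F.sp a c) := by
  ext n
  rw [coeff_spP, MvPolynomial.coeff_monomial, MvPolynomial.coeff_monomial]
  split_ifs
  · rfl
  · exact sp_zero F c

theorem spP_C (a : K) (c : ℂ × ℂ) :
    F.spP (MvPolynomial.C a : MvPolynomial σ K) c = MvPolynomial.C (F.sp a c) :=
  spP_monomial F 0 a c

theorem spP_zero (c : ℂ × ℂ) : F.spP (0 : MvPolynomial σ K) c = 0 := by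
  simp [FF.spP]

theorem spP_add (G H : MvPolynomial σ K) :
    ∀ᶠ c in fil F, F.spP (G + H) c = F.spP G c + F.spP H c := by
  have h : ∀ᶠ c in fil F, ∀ m ∈ G.support,
      F.sp (G.coeff m + H.coeff m) c = F.sp (G.coeff m) c + F.sp (H.coeff m) c :=
    (eventually_all_finset _).2 fun m _ => sp_add F _ _
  filter_upwards [h] with c hc
  ext m
  rw [MvPolynomial.coeff_add, coeff_spP, coeff_spP, coeff_spP, MvPolynomial.coeff_add]
  by_cases hm : m ∈ G.support
  · exact hc m hm
  · rw [MvPolynomial.notMem_support_iff.1 hm, sp_zero, zero_add, zero_add]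

theorem spP_mul (G H : MvPolynomial σ K) :
    ∀ᶠ c in fil F, F.spP (G * H) c = F.spP G c * F.spP H c := by
  induction G using MvPolynomial.induction_on' with
  | monomial m a =>
    induction H using MvPolynomial.induction_on' with
    | monomial n b =>
      filter_upwards [sp_mul F a b] with c hc
      rw [MvPolynomial.monomial_mul, spP_monomial, spP_monomial, spP_monomial,
        MvPolynomial.monomial_mul, hc]
    | add p q hp hq =>
      filter_upwards [hp, hq, spP_add F p q,
        spP_add F (MvPolynomial.monomial m a * p) (MvPolynomial.monomial m a * q)]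
        with c h1 h2 h3 h4
      rw [mul_add, h4, h1, h2, h3, mul_add]
  | add p q hp hq =>
    filter_upwards [hp, hq, spP_add F p q, spP_add F (p * H) (q * H)] with c h1 h2 h3 h4
    rw [add_mul, h4, h1, h2, h3, add_mul]

theorem spP_X (s : σ) :
    ∀ᶠ c in fil F, F.spP (MvPolynomial.X s : MvPolynomial σ K) c = MvPolynomial.X s := by
  filter_upwards [sp_one F] with c hc
  rw [MvPolynomial.X, spP_monomial, hc, MvPolynomial.X]

theorem spP_one : ∀ᶠ c in fil F, F.spP (1 : MvPolynomial σ K) c = 1 := by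
  filter_upwards [sp_one F] with c hc
  rw [← MvPolynomial.C_1, spP_C, hc, MvPolynomial.C_1]

theorem spP_pow (G : MvPolynomial σ K) (n : ℕ) :
    ∀ᶠ c in fil F, F.spP (G ^ n) c = F.spP G c ^ n := by
  induction n with
  | zero => simpa using spP_one F
  | succ n ih =>
    filter_upwards [ih, spP_mul F (G ^ n) G] with c h1 h2
    rw [pow_succ, h2, h1, pow_succ]

theorem spP_sum {J : Type} (s : Finset J) (G : J → MvPolynomial σ K) :
    ∀ᶠ c in fil F, F.spP (∑ i ∈ s, G i) c = ∑ i ∈ s, F.spP (G i) c := by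
  induction s using Finset.induction_on with
  | empty => simpa using Eventually.of_forall (spP_zero F)
  | insert a s ha ih =>
    filter_upwards [ih, spP_add F (G a) (∑ i ∈ s, G i)] with c h1 h2
    rw [Finset.sum_insert ha, Finset.sum_insert ha, h2, h1]

theorem spP_pderiv (s : σ) (G : MvPolynomial σ K) : ∀ᶠ c in fil F,
    F.spP (MvPolynomial.pderiv s G) c = MvPolynomial.pderiv s (F.spP G c) := by
  induction G using MvPolynomial.induction_on with
  | C a =>
    refine Eventually.of_forall fun c => ?_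
    rw [MvPolynomial.pderiv_C, spP_C, MvPolynomial.pderiv_C, spP_zero]
  | add p q hp hq =>
    filter_upwards [hp, hq, spP_add F p q,
      spP_add F (MvPolynomial.pderiv s p) (MvPolynomial.pderiv s q)] with c h1 h2 h3 h4
    rw [map_add, h4, h1, h2, h3, map_add]
  | mul_X p i hp =>
    have hX : ∀ᶠ c in fil F, F.spP (MvPolynomial.pderiv s (MvPolynomial.X i : MvPolynomial σ K)) c =
        MvPolynomial.pderiv s (MvPolynomial.X i) := by
      by_cases h : i = s
      · subst h
        simpa using spP_one F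
      · rw [MvPolynomial.pderiv_X_of_ne h, MvPolynomial.pderiv_X_of_ne h]
        exact Eventually.of_forall (spP_zero F)
    filter_upwards [hp, hX, spP_mul F p (MvPolynomial.X i), spP_X F i,
      spP_mul F (MvPolynomial.pderiv s p) (MvPolynomial.X i),
      spP_mul F p (MvPolynomial.pderiv s (MvPolynomial.X i)),
      spP_add F (MvPolynomial.pderiv s p * MvPolynomial.X i)
        (p * MvPolynomial.pderiv s (MvPolynomial.X i))] with c h1 h2 h3 h4 h5 h6 h7
    rw [MvPolynomial.pderiv_mul, h7, h5, h6, h3, h4, h1, h2, MvPolynomial.pderiv_mul]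

theorem spP_bind (φ : σ → MvPolynomial τ K) (G : MvPolynomial σ K) : ∀ᶠ c in fil F,
    F.spP (MvPolynomial.bind₁ φ G) c =
      MvPolynomial.bind₁ (fun s => F.spP (φ s) c) (F.spP G c) := by
  induction G using MvPolynomial.induction_on with
  | C a =>
    refine Eventually.of_forall fun c => ?_
    rw [MvPolynomial.bind₁_C_right, spP_C, spP_C, MvPolynomial.bind₁_C_right]
  | add p q hp hq =>
    filter_upwards [hp, hq, spP_add F p q,
      spP_add F (MvPolynomial.bind₁ φ p) (MvPolynomial.bind₁ φ q)] with c h1 h2 h3 h4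
    rw [map_add, h4, h1, h2, h3, map_add]
  | mul_X p i hp =>
    filter_upwards [hp, spP_mul F p (MvPolynomial.X i), spP_X F i,
      spP_mul F (MvPolynomial.bind₁ φ p) (φ i)] with c h1 h2 h3 h4
    rw [map_mul, MvPolynomial.bind₁_X_right, h4, h2, h3, h1, map_mul, MvPolynomial.bind₁_X_right]

theorem spP_eval (ξ : σ → K) (G : MvPolynomial σ K) : ∀ᶠ c in fil F,
    F.sp (MvPolynomial.eval ξ G) c = MvPolynomial.eval (fun s => F.sp (ξ s) c) (F.spP G c) := by
  induction G using MvPolynomial.induction_on with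
  | C a =>
    refine Eventually.of_forall fun c => ?_
    rw [MvPolynomial.eval_C, spP_C, MvPolynomial.eval_C]
  | add p q hp hq =>
    filter_upwards [hp, hq, spP_add F p q,
      sp_add F (MvPolynomial.eval ξ p) (MvPolynomial.eval ξ q)] with c h1 h2 h3 h4
    rw [map_add, h4, h1, h2, h3, map_add]
  | mul_X p i hp =>
    filter_upwards [hp, spP_mul F p (MvPolynomial.X i), spP_X F i,
      sp_mul F (MvPolynomial.eval ξ p) (ξ i)] with c h1 h2 h3 h4
    rw [map_mul, MvPolynomial.eval_X, h4, h2, h3, h1, map_mul, MvPolynomial.eval_X]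

theorem eval_spP (G : MvPolynomial σ K) (c : ℂ × ℂ) (x : σ → ℂ) :
    MvPolynomial.eval x (F.spP G c) =
      ∑ m ∈ G.support, F.sp (G.coeff m) c * MvPolynomial.eval x (MvPolynomial.monomial m 1) := by
  rw [FF.spP, map_sum]
  refine Finset.sum_congr rfl fun m _ => ?_
  rw [MvPolynomial.eval_monomial, MvPolynomial.eval_monomial, one_mul]

theorem spP_conj (G : MvPolynomial σ K) (c : ℂ × ℂ) (x : σ → ℂ) :
    MvPolynomial.eval (fun s => conj (x s)) (F.spP G (conj c.1, conj c.2)) =
      conj (MvPolynomial.eval x (F.spP G c)) := by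
  rw [eval_spP, eval_spP, map_sum]
  refine Finset.sum_congr rfl fun m _ => ?_
  rw [map_mul, sp_conj, MvPolynomial.eval_monomial, MvPolynomial.eval_monomial, one_mul, one_mul,
    Finsupp.prod, Finsupp.prod, map_prod]
  simp only [map_pow]

theorem transfer {J : Type} [Finite σ] [Finite J] (E : J → MvPolynomial σ K)
    (G : MvPolynomial σ K)
    (h : ∀ x : σ → AlgebraicClosure K, (∀ i, (E i).eval₂ (algebraMap K _) x = 0) →
      G.eval₂ (algebraMap K _) x = 0) :
    ∀ᶠ c in fil F, ∀ x : σ → ℂ, (∀ i, MvPolynomial.eval x (F.spP (E i) c) = 0) →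
      MvPolynomial.eval x (F.spP G c) = 0 := by
  have := Fintype.ofFinite J
  have h1 : G ∈ (Ideal.span (range E)).radical := by
    rw [← MvPolynomial.vanishingIdeal_zeroLocus_eq_radical (K := AlgebraicClosure K),
      MvPolynomial.zeroLocus_span, MvPolynomial.mem_vanishingIdeal_iff]
    intro x hx
    rw [MvPolynomial.aeval_def]
    exact h x fun i => by rw [← MvPolynomial.aeval_def]; exact hx _ (mem_range_self i)
  obtain ⟨N, hN⟩ := h1
  obtain ⟨a, ha⟩ := Ideal.mem_span_range_iff_exists_fun.1 hN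
  have h2 : ∀ᶠ c in fil F, ∀ i, F.spP (a i * E i) c = F.spP (a i) c * F.spP (E i) c :=
    eventually_all.2 fun i => spP_mul F _ _
  filter_upwards [h2, spP_pow F G N, spP_sum F Finset.univ fun i => a i * E i] with c h3 h4 h5 x hx
  rw [ha, h4] at h5
  have h6 := congrArg (MvPolynomial.eval x) h5
  rw [map_pow, map_sum, Finset.sum_eq_zero fun i _ => by rw [h3, map_mul, hx, mul_zero]] at h6
  exact pow_eq_zero_iff'.1 h6 |>.1

theorem spP_tame [Fintype σ] (G : MvPolynomial σ K) : evD fun δ =>
    ∃ f : ℂ × ((ℂ × ℂ) × (σ → ℂ)) → ℂ, Tame f ∧ ∀ u : ℂ × ((ℂ × ℂ) × (σ → ℂ)),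
      (u.1, u.2.1) ∈ CV (cx F.Q) (cx1 δ) →
        f u = MvPolynomial.eval u.2.2 (F.spP G (u.1, u.2.1.1)) := by
  obtain ⟨s, hs, h⟩ := evD_all _ fun m : G.support => sp_tame F (G.coeff m)
  refine ⟨s, hs, fun δ hδ hd => ?_⟩
  choose g hg h using h δ hδ hd
  refine ⟨fun u => ∑ m : G.support, g m (u.1, u.2.1) *
    MvPolynomial.eval u.2.2 (MvPolynomial.monomial m.1 1), ?_, fun u hu => ?_⟩
  · refine Tame.sum _ fun m _ => ((hg m).comp (Tame.fst'.prodMk Tame.snd'.fst)).mul ?_
    exact Tame.mvEval (fun s => Tame.snd'.snd.apply s) _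
  · rw [eval_spP, ← Finset.sum_coe_sort]
    exact Finset.sum_congr rfl fun m _ => by rw [h m _ hu]

end

end Spr

open Spr in
theorem Spr_of : S_Spr := by
  intro K _ _ F
  refine ⟨fun a b => (evF_iff F _).2 ((sp_add F a b).and (sp_mul F a b)),
    fun A s hs => (evF_iff F _).2 (sp_div F A hs),
    fun a h => sp_inj F ((evF_iff F _).1 h),
    fun a c => ⟨sp_conj F a c, sp_sum F a c⟩,
    fun J _ p h => (evF_iff F _).2 (eventually_all.2 fun i => (evF_iff F _).1 (h i)),
    fun J _ p h => evD_all p h, item7 F, item8 F, item9 F,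
    fun σ G H => (evF_iff F _).2 ((spP_add F G H).and (spP_mul F G H)),
    fun σ a c => spP_C F a c,
    fun σ s => (evF_iff F _).2 (spP_X F s),
    fun σ s G => (evF_iff F _).2 (spP_pderiv F s G),
    fun σ τ φ G => (evF_iff F _).2 (spP_bind F φ G),
    fun σ ξ G => (evF_iff F _).2 (spP_eval F ξ G),
    fun σ G c x => spP_conj F G c x,
    fun σ J _ _ E G h => (evF_iff F _).2 (transfer F E G h),
    fun σ _ G => spP_tame F G⟩

end Pool.Agent.P.MP_daea48_ag
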