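import Pool.Agent.P.MP_daea48_ag.StK

/-! The specialisation calculus, scalar part. -/

open Set Filter Topology Polynomial
open scoped ComplexConjugate

namespace Pool.Agent.P.MP_daea48_ag.Spr

noncomputable section

open Classical

/-- Evaluation at a complex point. -/
def ev (c : ℂ × ℂ) : ℝ[X][X] →+* ℂ :=
  (evalEvalRingHom c.1 c.2).comp (mapRingHom (mapRingHom (algebraMap ℝ ℂ)))

/-- Evaluation at a complex point. -/
def ev1 (z : ℂ) : ℝ[X] →+* ℂ := (evalRingHom z).comp (mapRingHom (algebraMap ℝ ℂ))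

theorem ev_eq (c : ℂ × ℂ) (A : ℝ[X][X]) : (cx A).evalEval c.1 c.2 = ev c A := rfl

theorem ev1_eq (z : ℂ) (s : ℝ[X]) : (cx1 s).eval z = ev1 z s := rfl

theorem ev_C (c : ℂ × ℂ) (s : ℝ[X]) : ev c (C s) = ev1 c.1 s := by
  rw [← ev_eq, ← ev1_eq]
  simp [cx, cx1, evalEval_C]

theorem ev_X (c : ℂ × ℂ) : ev c X = c.2 := by
  rw [← ev_eq]
  simp [cx]

theorem ev1_conj (z : ℂ) (s : ℝ[X]) : ev1 (conj z) s = conj (ev1 z s) := by
  have : ev1 (conj z) = (starRingEnd ℂ).comp (ev1 z) := by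
    apply Polynomial.ringHom_ext
    · intro a
      simp [ev1]
    · simp [ev1]
  rw [this]; rfl

theorem ev_conj (c : ℂ × ℂ) (A : ℝ[X][X]) : ev (conj c.1, conj c.2) A = conj (ev c A) := by
  have : ev (conj c.1, conj c.2) = (starRingEnd ℂ).comp (ev c) := by
    apply Polynomial.ringHom_ext
    · intro a
      rw [RingHom.comp_apply, ev_C, ev_C, ev1_conj]
    · rw [RingHom.comp_apply, ev_X, ev_X]
  rw [this]; rfl

theorem ev_eq_eval (c : ℂ × ℂ) (A : ℝ[X][X]) : ev c A = (A.map (ev1 c.1)).eval c.2 := by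
  have : ev c = (evalRingHom c.2).comp (mapRingHom (ev1 c.1)) := by
    apply Polynomial.ringHom_ext
    · intro a
      rw [ev_C]; simp
    · rw [ev_X]; simp
  rw [this]; rfl

theorem cx1_ne {s : ℝ[X]} (hs : s ≠ 0) : cx1 s ≠ 0 :=
  (Polynomial.map_ne_zero_iff (algebraMap ℝ ℂ).injective).2 hs

theorem ev1_cof {s : ℝ[X]} (hs : s ≠ 0) : ∀ᶠ z in cofinite, ev1 z s ≠ 0 := by
  rw [eventually_cofinite]
  refine ((cx1 s).roots.toFinset.finite_toSet).subset fun z hz => ?_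
  simp only [ne_eq, not_not, mem_ofPred_eq] at hz
  simpa [cx1_ne hs, ev1_eq] using hz

theorem eq_zero_of_cof {s : ℝ[X]} (hs : ∀ᶠ z in cofinite, ev1 z s = 0) : s = 0 := by
  by_contra h
  have := ((ev1_cof h).and hs).exists
  obtain ⟨z, h1, h2⟩ := this
  exact h1 h2

theorem exists_vanish {S : Set ℂ} (hS : S.Finite) :
    ∃ s : ℝ[X], s ≠ 0 ∧ ∀ z ∈ S, ev1 z s = 0 := by
  refine ⟨∏ z ∈ hS.toFinset, minpoly ℝ z, ?_, fun z hz => ?_⟩
  · exact Finset.prod_ne_zero_iff.2 fun z _ => minpoly.ne_zero (Algebra.IsIntegral.isIntegral z)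
  · rw [map_prod]
    refine Finset.prod_eq_zero (hS.mem_toFinset.2 hz) ?_
    have := minpoly.aeval ℝ z
    rwa [aeval_def, ← eval_map] at this

variable {K : Type} [Field K] [Algebra ℝ K] (F : FF K)

/-- The filter of points of the curve outside finitely many fibres. -/
def fil : Filter (ℂ × ℂ) := comap Prod.fst cofinite ⊓ 𝓟 {c | ev c F.Q = 0}

theorem fil_iff (p : ℂ × ℂ → Prop) :
    (∀ᶠ c in fil F, p c) ↔ ∀ᶠ t in cofinite, ∀ T, (cx F.Q).evalEval t T = 0 → p (t, T) := by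
  rw [fil, eventually_inf_principal, eventually_comap]
  refine eventually_congr (Eventually.of_forall fun t => ⟨fun h T hT => h (t, T) rfl hT, ?_⟩)
  rintro h ⟨t', T⟩ rfl hT
  exact h T hT

theorem item8 (p : ℂ × ℂ → Prop) :
    (∀ᶠ t in cofinite, ∀ T, (cx F.Q).evalEval t T = 0 → p (t, T)) ↔ F.evF p := by
  constructor
  · intro h
    obtain ⟨s, hs, h'⟩ := exists_vanish (eventually_cofinite.1 h)
    refine ⟨s, hs, fun c hc hs' => ?_⟩
    by_contra hp
    exact hs' (h' c.1 fun h'' => hp (h'' c.2 hc))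
  · rintro ⟨s, hs, h⟩
    filter_upwards [ev1_cof hs] with t ht T hT
    exact h (t, T) hT ht

theorem evF_iff (p : ℂ × ℂ → Prop) : F.evF p ↔ ∀ᶠ c in fil F, p c := by
  rw [fil_iff, item8]

theorem fil_Q : ∀ᶠ c in fil F, ev c F.Q = 0 :=
  (fil_iff F _).2 (Eventually.of_forall fun _ _ h => h)

theorem fil_ne {s : ℝ[X]} (hs : s ≠ 0) : ∀ᶠ c in fil F, ev1 c.1 s ≠ 0 :=
  (fil_iff F _).2 ((ev1_cof hs).mono fun _ h _ _ => h)

theorem den_ne (a : K) : F.den a ≠ 0 := (F.rep a).choose_spec.1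

theorem num_deg (a : K) : (F.num a).degree < F.Q.degree := (F.rep a).choose_spec.2.1

theorem mul_den (a : K) : a * aeval F.t (F.den a) = aevalAeval F.t F.T (F.num a) :=
  (F.rep a).choose_spec.2.2

theorem eq_zero_of_dvd {A : ℝ[X][X]} (h : F.Q ∣ A) (hA : A.degree < F.Q.degree) : A = 0 :=
  Polynomial.eq_zero_of_dvd_of_degree_lt h hA

theorem aeval_ne {s : ℝ[X]} (hs : s ≠ 0) : aeval F.t s ≠ 0 := by
  intro h
  have h1 : F.Q ∣ C s := (F.ker _).1 (by rw [aevalAeval_C, h])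
  have h2 := eq_zero_of_dvd F h1 (lt_of_le_of_lt degree_C_le (natDegree_pos_iff_degree_pos.1 F.pos))
  exact hs (C_eq_zero.1 h2)

theorem sp_eq (a : K) (c : ℂ × ℂ) : F.sp a c = ev c (F.num a) / ev1 c.1 (F.den a) := rfl

theorem num_zero : F.num 0 = 0 :=
  eq_zero_of_dvd F ((F.ker _).1 (by rw [← mul_den, zero_mul])) (num_deg F 0)

theorem sp_zero (c : ℂ × ℂ) : F.sp 0 c = 0 := by
  rw [sp_eq, num_zero, map_zero, zero_div]

theorem sp_of_mul {a : K} {A : ℝ[X][X]} {s : ℝ[X]} (hs : s ≠ 0)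
    (h : a * aeval F.t s = aevalAeval F.t F.T A) :
    ∀ᶠ c in fil F, F.sp a c = ev c A / ev1 c.1 s := by
  have h1 : F.Q ∣ F.num a * C s - A * C (F.den a) := by
    rw [← F.ker, map_sub, map_mul, map_mul, aevalAeval_C, aevalAeval_C, ← h, ← mul_den]
    ring
  obtain ⟨B, hB⟩ := h1
  filter_upwards [fil_Q F, fil_ne F hs, fil_ne F (den_ne F a)] with c hc h2 h3
  have := congrArg (ev c) hB
  rw [map_sub, map_mul, map_mul, map_mul, hc, zero_mul, ev_C, ev_C, sub_eq_zero] at this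
  rw [sp_eq, div_eq_div_iff h3 h2, this]

theorem sp_div (A : ℝ[X][X]) {s : ℝ[X]} (hs : s ≠ 0) :
    ∀ᶠ c in fil F, F.sp (aevalAeval F.t F.T A / aeval F.t s) c = ev c A / ev1 c.1 s :=
  sp_of_mul F hs (div_mul_cancel₀ _ (aeval_ne F hs))

theorem sp_add (a b : K) : ∀ᶠ c in fil F, F.sp (a + b) c = F.sp a c + F.sp b c := by
  have h : (a + b) * aeval F.t (F.den a * F.den b) =
      aevalAeval F.t F.T (F.num a * C (F.den b) + F.num b * C (F.den a)) := by
    rw [map_add, map_mul, map_mul, map_mul, aevalAeval_C, aevalAeval_C, ← mul_den, ← mul_den]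
    ring
  filter_upwards [sp_of_mul F (mul_ne_zero (den_ne F a) (den_ne F b)) h, fil_ne F (den_ne F a),
    fil_ne F (den_ne F b)] with c hc h1 h2
  rw [hc, sp_eq, sp_eq, map_add, map_mul, map_mul, map_mul, ev_C, ev_C]
  field_simp

theorem sp_mul (a b : K) : ∀ᶠ c in fil F, F.sp (a * b) c = F.sp a c * F.sp b c := by
  have h : (a * b) * aeval F.t (F.den a * F.den b) =
      aevalAeval F.t F.T (F.num a * F.num b) := by
    rw [map_mul, map_mul, ← mul_den, ← mul_den]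
    ring
  filter_upwards [sp_of_mul F (mul_ne_zero (den_ne F a) (den_ne F b)) h] with c hc
  rw [hc, sp_eq, sp_eq, map_mul, map_mul, mul_div_mul_comm]

theorem sp_one : ∀ᶠ c in fil F, F.sp 1 c = 1 := by
  have h : (1 : K) * aeval F.t (1 : ℝ[X]) = aevalAeval F.t F.T (1 : ℝ[X][X]) := by simp
  filter_upwards [sp_of_mul F one_ne_zero h] with c hc
  simpa using hc

theorem sp_conj (a : K) (c : ℂ × ℂ) : F.sp a (conj c.1, conj c.2) = conj (F.sp a c) := by
  rw [sp_eq, sp_eq, ev_conj, ev1_conj, map_div₀]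

theorem num_natDeg (a : K) : (F.num a).natDegree < F.d := by
  by_cases h : F.num a = 0
  · rw [h]; exact F.pos
  · exact natDegree_lt_natDegree h (num_deg F a)

theorem sp_sum (a : K) (c : ℂ × ℂ) :
    F.sp a c = ∑ l : Fin F.d, c.2 ^ (l : ℕ) * F.cf l a c.1 := by
  rw [sp_eq, ev_eq_eval, eval_eq_sum_range' (lt_of_le_of_lt natDegree_map_le (num_natDeg F a)),
    Finset.sum_range, Finset.sum_div]
  refine Finset.sum_congr rfl fun l _ => ?_
  rw [FF.cf, ev1_eq, ev1_eq, coeff_map]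
  ring

theorem sep {z : ℂ} (hz : ev1 z F.δ₀ ≠ 0) : (F.Q.map (ev1 z)).Separable := by
  obtain ⟨a, b, h⟩ := F.bez
  have := congrArg (Polynomial.map (ev1 z)) h
  rw [Polynomial.map_add, Polynomial.map_mul, Polynomial.map_mul, map_C, ← derivative_map] at this
  refine ⟨C (ev1 z F.δ₀)⁻¹ * a.map (ev1 z), C (ev1 z F.δ₀)⁻¹ * b.map (ev1 z), ?_⟩
  rw [mul_assoc, mul_assoc, ← mul_add, this, ← C_mul, inv_mul_cancel₀ hz, C_1]

theorem map_zero_of_roots {z : ℂ} (hz : ev1 z F.δ₀ ≠ 0) {A : ℝ[X][X]} (hA : A.natDegree < F.d)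
    (h : ∀ T, ev (z, T) F.Q = 0 → ev (z, T) A = 0) : A.map (ev1 z) = 0 := by
  have hm : (F.Q.map (ev1 z)).Monic := F.monic.map _
  have hd : (F.Q.map (ev1 z)).natDegree = F.d := F.monic.natDegree_map _
  have hc : (F.Q.map (ev1 z)).roots.toFinset.card = F.d := by
    rw [Multiset.toFinset_card_of_nodup (nodup_roots (sep F hz)), ← hd]
    exact (IsAlgClosed.splits _).natDegree_eq_card_roots.symm
  refine eq_zero_of_natDegree_lt_card_of_eval_eq_zero' _ (F.Q.map (ev1 z)).roots.toFinset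
    (fun T hT => ?_) ?_
  · rw [Multiset.mem_toFinset, mem_roots hm.ne_zero] at hT
    have := h T (by rw [ev_eq_eval]; exact hT)
    rwa [ev_eq_eval] at this
  · rw [hc]
    exact lt_of_le_of_lt natDegree_map_le hA

theorem sp_inj {a : K} (h : ∀ᶠ c in fil F, F.sp a c = 0) : a = 0 := by
  have h1 : F.num a = 0 := by
    ext1 n
    apply eq_zero_of_cof
    filter_upwards [(fil_iff F _).1 h, ev1_cof F.δ₀_ne, ev1_cof (den_ne F a)] with z hz h0 h2
    have := map_zero_of_roots F h0 (num_natDeg F a) fun T hT => by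
      have := hz T hT
      rw [sp_eq, div_eq_zero_iff] at this
      exact this.resolve_right h2
    have := congrArg (fun q => coeff q n) this
    simpa using this
  have := mul_den F a
  rw [h1, map_zero] at this
  exact (mul_eq_zero.1 this).resolve_right (aeval_ne F (den_ne F a))

theorem evD_all {J : Type} [Finite J] (p : J → ℝ[X] → Prop) (h : ∀ i, evD (p i)) :
    evD fun δ => ∀ i, p i δ := by
  have := Fintype.ofFinite J
  choose s hs h using h
  exact ⟨∏ i, s i, Finset.prod_ne_zero_iff.2 fun i _ => hs i, fun δ hδ hd i =>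
    h i δ hδ ((Finset.dvd_prod_of_mem s (Finset.mem_univ i)).trans hd)⟩

theorem item7 (p : ℂ × ℂ → Prop) (h : F.evF p) :
    evD fun δ => ∀ u ∈ CV (cx F.Q) (cx1 δ), p (u.1, u.2.1) := by
  obtain ⟨s, hs, h⟩ := h
  refine ⟨s, hs, ?_⟩
  rintro δ - ⟨e, rfl⟩ u ⟨h1, h2⟩
  refine h (u.1, u.2.1) h1 fun h3 => ?_
  rw [ev1_eq] at h2 h3
  rw [map_mul, h3] at h2
  simp at h2

theorem item9 : evD fun δ => Cov (cx F.Q) F.d (cx1 δ) ∧ F.δ₀ ∣ δ := by
  refine ⟨F.δ₀, F.δ₀_ne, fun δ hδ hd => ⟨⟨F.monic.map _, F.monic.natDegree_map _, cx1_ne hδ, ?_⟩,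
    hd⟩⟩
  obtain ⟨e, rfl⟩ := hd
  obtain ⟨a, b, h⟩ := F.bez
  refine ⟨cx (a * C e), cx (b * C e), ?_⟩
  have h' : a * C e * F.Q + b * C e * derivative F.Q = C (F.δ₀ * e) := by
    rw [C_mul, ← h]; ring
  have := congrArg cx h'
  simp only [cx, Polynomial.map_add, Polynomial.map_mul, map_C, derivative_map] at this ⊢
  simpa [cx1] using this

theorem sp_tame (a : K) : evD fun δ => ∃ g : ℂ × (ℂ × ℂ) → ℂ, Tame g ∧
    ∀ u ∈ CV (cx F.Q) (cx1 δ), g u = F.sp a (u.1, u.2.1) := by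
  refine ⟨F.den a, den_ne F a, ?_⟩
  rintro δ - ⟨e, rfl⟩
  refine ⟨fun u => (cx (F.num a)).evalEval u.1 u.2.1 * ((cx1 e).eval u.1 * u.2.2), ?_, ?_⟩
  · exact (Tame.evalEval Tame.fst' Tame.snd'.fst _).mul
      ((Tame.polyEval Tame.fst' _).mul Tame.snd'.snd)
  · rintro u ⟨-, h2⟩
    rw [ev1_eq, map_mul] at h2
    have h3 : (ev1 u.1 (F.den a))⁻¹ = ev1 u.1 e * u.2.2 := by
      apply inv_eq_of_mul_eq_one_right
      rw [← h2]; ring
    rw [sp_eq, div_eq_mul_inv]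
    simp only
    rw [h3]
    rfl

end

end Pool.Agent.P.MP_daea48_ag.Spr
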