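import Pool.Agent.P.MP_daea48_ag.DefsK

/-! Statements of the packages, analytic layer. Each `S_x` is proved in its own file. -/

open Set Filter Topology Metric Polynomial Asymptotics
open scoped ComplexConjugate

namespace Pool.Agent.P.MP_daea48_ag

noncomputable section

open Classical

/-! ### Libraries -/

/-- Laurent splitting. -/
def S_LS : Prop := ∀ (Y : Type) [NormedAddCommGroup Y] [NormedSpace ℂ Y]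
    [FiniteDimensional ℂ Y] (r s : ℝ), 0 < r → r < s → ∃ C : ℝ, 0 < C ∧
  (∀ (f : ℂ → Y) (M : ℝ), DifferentiableOn ℂ f (ann r s) → (∀ z ∈ ann r s, ‖f z‖ ≤ M) →
    AnalyticOnNhd ℂ (Pp r s f) (ball 0 s) ∧ AnalyticOnNhd ℂ (Pm r s f) {z | r < ‖z‖} ∧
    (∀ z ∈ ann r s, Pp r s f z + Pm r s f z = f z) ∧
    (∀ z ∈ ball (0 : ℂ) s, ‖Pp r s f z‖ ≤ C * M) ∧ (∀ z, r < ‖z‖ → ‖Pm r s f z‖ ≤ C * M)) ∧
  (∀ f g : ℂ → Y, ContinuousOn f (ann r s) → ContinuousOn g (ann r s) → ∀ z,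
    (‖z‖ < s → Pp r s (fun x => f x - g x) z = Pp r s f z - Pp r s g z) ∧
    (r < ‖z‖ → Pm r s (fun x => f x - g x) z = Pm r s f z - Pm r s g z)) ∧
  (∀ f g : ℂ → Y, EqOn f g (ann r s) → ∀ z,
    (‖z‖ < s → Pp r s f z = Pp r s g z) ∧ (r < ‖z‖ → Pm r s f z = Pm r s g z)) ∧
  (∀ (X : Type) [NormedAddCommGroup X] [NormedSpace ℂ X]
    [FiniteDimensional ℂ X] (D : Set X) (f : X × ℂ → Y) (M : ℝ), AC (D ×ˢ ann r s) f →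
    (∀ x ∈ D ×ˢ ann r s, ‖f x‖ ≤ M) →
    AC (D ×ˢ ball 0 s) (fun x : X × ℂ => Pp r s (fun z => f (x.1, z)) x.2) ∧
    AC (D ×ˢ {z | r < ‖z‖}) (fun x : X × ℂ => Pm r s (fun z => f (x.1, z)) x.2))

/-- Meromorphic on the sphere means rational; entire of polynomial growth means polynomial. -/
def S_Mero : Prop :=
  (∀ (Y : Type) [NormedAddCommGroup Y] [NormedSpace ℂ Y]
    [FiniteDimensional ℂ Y] (S : ℂ → Y), MeromorphicOn S univ → MeromorphicAt (fun z => S z⁻¹) 0 →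
    ∃ Den : ℂ[X], Den ≠ 0 ∧ ∀ ℓ : Y →L[ℂ] ℂ, ∃ Num : ℂ[X],
      ∀ᶠ z in cofinite, Den.eval z * ℓ (S z) = Num.eval z) ∧
  (∀ (Y : Type) [NormedAddCommGroup Y] [NormedSpace ℂ Y]
    [FiniteDimensional ℂ Y] (f : ℂ → Y) (C : ℝ) (A : ℕ), Differentiable ℂ f → (∀ T, ‖f T‖ ≤ C * (1 + ‖T‖) ^ A) →
    ∀ T, f T = ∑ k ∈ Finset.range (A + 1),
      (Lagrange.basis (Finset.range (A + 1)) (fun n : ℕ => (n : ℂ)) k).eval T • f k) ∧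
  (∀ (σ : Type) [Fintype σ] (f : (σ → ℂ) → ℂ), Tame f →
    ∃ G : MvPolynomial σ ℂ, ∀ x, f x = MvPolynomial.eval x G) ∧
  (∀ (Y : Type) [NormedAddCommGroup Y] [NormedSpace ℂ Y]
    [FiniteDimensional ℂ Y] (g : ℂ → Y) (r η : ℝ), 0 < r → 0 < η → ContinuousOn g (sphere 0 r) →
    ∃ L : ℂ → Y, AnalyticOnNhd ℂ L {z | z ≠ 0} ∧ ∀ z ∈ sphere (0 : ℂ) r, ‖L z - g z‖ < η)

/-- Branches of roots. -/
def S_Root : Prop :=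
  (∀ (c : ℂ → ℂ[X]) (l : ℂ) (d : ℕ), (∀ᶠ x in 𝓝 l, (c x).Monic ∧ (c x).natDegree = d) →
    (∀ k, AnalyticAt ℂ (fun x => (c x).coeff k) l) → (c l).Separable →
    ∃ v : Fin d → ℂ → ℂ, (∀ i, AnalyticAt ℂ (v i) l) ∧ ∀ᶠ x in 𝓝 l,
      Function.Injective (fun i => v i x) ∧ ∀ w, (c x).eval w = 0 ↔ ∃ i, v i x = w) ∧
  (∀ (X : Type) [TopologicalSpace X] (D : Set X) (c : X → ℂ[X]) (x₀ : X) (d : ℕ), x₀ ∈ D →
    (∀ᶠ x in 𝓝[D] x₀, (c x).Monic ∧ (c x).natDegree = d) →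
    (∀ k, ContinuousWithinAt (fun x => (c x).coeff k) D x₀) → (c x₀).Separable →
    ∃ v : Fin d → X → ℂ, (∀ i, ContinuousWithinAt (v i) D x₀) ∧ ∀ᶠ x in 𝓝[D] x₀,
      Function.Injective (fun i => v i x) ∧ ∀ w, (c x).eval w = 0 ↔ ∃ i, v i x = w) ∧
  (∀ (c : ℝ → ℂ[X]) (d : ℕ), (∀ s, (c s).Monic ∧ (c s).natDegree = d ∧ (c s).Separable) →
    (∀ k, Continuous fun s => (c s).coeff k) →
    (∀ s₀ θ₀, (c s₀).eval θ₀ = 0 →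
      ∃ θ : ℝ → ℂ, Continuous θ ∧ θ s₀ = θ₀ ∧ ∀ s, (c s).eval (θ s) = 0) ∧
    ∀ θ θ' : ℝ → ℂ, Continuous θ → Continuous θ' → (∀ s, (c s).eval (θ s) = 0) →
      (∀ s, (c s).eval (θ' s) = 0) → ∀ s₀, θ s₀ = θ' s₀ → θ = θ')

/-- Interpolation at the roots. -/
def S_Itp : Prop := ∀ (Q : ℂ[X][X]) (d : ℕ) (δ : ℂ[X]), Cov Q d δ →
  (∃ (C : ℝ) (A : ℕ), 1 ≤ C ∧ ∀ z v, Q.evalEval z v = 0 → ‖v‖ ≤ C * (1 + ‖z‖) ^ A) ∧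
  (∃ (c : ℝ) (A : ℕ), 0 < c ∧ ∀ z v v', Q.evalEval z v = 0 → Q.evalEval z v' = 0 → v ≠ v' →
    rad c A z * ‖δ.eval z‖ ≤ ‖v - v'‖) ∧
  (∀ z w, 0 < d → ∃ v, Q.evalEval z v = 0 ∧ ‖w - v‖ ^ d ≤ ‖Q.evalEval z w‖) ∧
  (∀ z, {v | Q.evalEval z v = 0}.Finite) ∧
  (∀ (E : Type) [NormedAddCommGroup E] [NormedSpace ℂ E]
    [FiniteDimensional ℂ E],
    (∀ z (val : ℂ → E) v, δ.eval z ≠ 0 → Q.evalEval z v = 0 → ev v (itp Q d z val) = val v) ∧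
    (∀ z (X : Fin d → E), δ.eval z ≠ 0 → itp Q d z (fun v => ev v X) = X) ∧
    (∀ z (val val' : ℂ → E), (∀ v, Q.evalEval z v = 0 → val v = val' v) →
      itp Q d z val = itp Q d z val') ∧
    (∃ (C : ℝ) (A : ℕ), 1 ≤ C ∧ ∀ (z y : ℂ) (val : ℂ → E) (M : ℝ), 0 ≤ M → y * δ.eval z = 1 →
      (∀ v, Q.evalEval z v = 0 → ‖val v‖ ≤ M) →
      ‖itp Q d z val‖ ≤ C * (1 + ‖z‖ + ‖y‖) ^ A * M) ∧
    (∀ (J : E →L⋆[ℂ] E) z (val : ℂ → E), Q.map (mapRingHom (starRingEnd ℂ)) = Q →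
      itp Q d (conj z) (fun v => J (val (conj v))) = fun l => J (itp Q d z val l))) ∧
  (∀ (κ : ℂ → ℂ) (l : ℂ), AnalyticAt ℂ κ l → δ.eval (κ l) ≠ 0 →
    ∃ (v : Fin d → ℂ → ℂ) (co : Fin d → Fin d → ℂ → ℂ), (∀ i, AnalyticAt ℂ (v i) l) ∧
      (∀ i k, AnalyticAt ℂ (co i k) l) ∧ ∀ᶠ x in 𝓝 l, Function.Injective (fun i => v i x) ∧
        (∀ w, Q.evalEval (κ x) w = 0 ↔ ∃ i, v i x = w) ∧
        ∀ (E : Type) [NormedAddCommGroup E] [NormedSpace ℂ E]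
    [FiniteDimensional ℂ E] (val : ℂ → E) k, itp Q d (κ x) val k = ∑ i, co i k x • val (v i x)) ∧
  (∀ (X : Type) [TopologicalSpace X] (D : Set X) (κ : X → ℂ) (x₀ : X), x₀ ∈ D →
    ContinuousWithinAt κ D x₀ → δ.eval (κ x₀) ≠ 0 →
    ∃ (v : Fin d → X → ℂ) (co : Fin d → Fin d → X → ℂ), (∀ i, ContinuousWithinAt (v i) D x₀) ∧
      (∀ i k, ContinuousWithinAt (co i k) D x₀) ∧
      ∀ᶠ x in 𝓝[D] x₀, Function.Injective (fun i => v i x) ∧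
        (∀ w, Q.evalEval (κ x) w = 0 ↔ ∃ i, v i x = w) ∧
        ∀ (E : Type) [NormedAddCommGroup E] [NormedSpace ℂ E]
    [FiniteDimensional ℂ E] (val : ℂ → E) k, itp Q d (κ x) val k = ∑ i, co i k x • val (v i x))

/-- Quantitative implicit function theorem. -/
def S_IFT : Prop :=
  (∀ (E : Type) [NormedAddCommGroup E] [NormedSpace ℂ E]
    [FiniteDimensional ℂ E] (E' : Type) [NormedAddCommGroup E'] [NormedSpace ℂ E']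
    [FiniteDimensional ℂ E'] (U : Set (ℂ × E)) (pr : E →L[ℂ] E'), HasAPS U pr → Nonempty (TC U pr)) ∧
  (∀ (E : Type) [NormedAddCommGroup E] [NormedSpace ℂ E]
    [FiniteDimensional ℂ E] (E' : Type) [NormedAddCommGroup E'] [NormedSpace ℂ E']
    [FiniteDimensional ℂ E'] (L : Type) [NormedAddCommGroup L] [NormedSpace ℂ L]
    [FiniteDimensional ℂ L] (E'' : Type) [NormedAddCommGroup E''] [NormedSpace ℂ E'']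
    [FiniteDimensional ℂ E''] (B : Set (ℂ × L)) (U : Set (ℂ × (L × E))) (pr : E →L[ℂ] E')
    (F : ℂ × (L × E) → E''), FAPS B U pr F → JacP B pr F → Newt B U pr F)

/-- Presentations of the derived systems. -/
def S_APS : Prop :=
  (∀ (E : Type) [NormedAddCommGroup E] [NormedSpace ℂ E]
    [FiniteDimensional ℂ E] (E' : Type) [NormedAddCommGroup E'] [NormedSpace ℂ E']
    [FiniteDimensional ℂ E'] (L : Type) [NormedAddCommGroup L] [NormedSpace ℂ L]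
    [FiniteDimensional ℂ L] (B : Set (ℂ × L)) (U : Set (ℂ × (L × E))) (pr : E →L[ℂ] E'),
    HasAPS B (pr0 L) → HasFAPS B U pr → HasAPS U (prB L pr)) ∧
  (∀ Q d δ, Cov Q d δ → HasAPS (CV Q δ) (pr0 (ℂ × ℂ))) ∧
  (∀ l : ℝ, 0 < l → HasAPS (MB l) (pr0 ℂ)) ∧
  (∀ (E : Type) [NormedAddCommGroup E] [NormedSpace ℂ E]
    [FiniteDimensional ℂ E] (E' : Type) [NormedAddCommGroup E'] [NormedSpace ℂ E']
    [FiniteDimensional ℂ E'] (L : Type) [NormedAddCommGroup L] [NormedSpace ℂ L]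
    [FiniteDimensional ℂ L] (B : Set (ℂ × L)) (m : ℂ × L → ℂ) (U : Set (ℂ × E)) (pr : E →L[ℂ] E'),
    Tame m → HasAPS U pr → HasFAPS B (BU B m U) pr) ∧
  (∀ (E : Type) [NormedAddCommGroup E] [NormedSpace ℂ E]
    [FiniteDimensional ℂ E] (E' : Type) [NormedAddCommGroup E'] [NormedSpace ℂ E']
    [FiniteDimensional ℂ E'] Q d δ (U : Set (ℂ × ((ℂ × ℂ) × E))) (pr : E →L[ℂ] E'), Cov Q d δ →
    HasFAPS (CV Q δ) U pr → HasAPS (WU Q d δ U) (prW d pr))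

/-! ### Bridges -/

/-- The family of curves through two points is a bridge. -/
def S_Tooth : Prop := ∀ (E : Type) [NormedAddCommGroup E] [NormedSpace ℂ E]
    [FiniteDimensional ℂ E] (E' : Type) [NormedAddCommGroup E'] [NormedSpace ℂ E']
    [FiniteDimensional ℂ E'] (L : Type) [NormedAddCommGroup L] [NormedSpace ℂ L]
    [FiniteDimensional ℂ L] (E₀ : Type) [NormedAddCommGroup E₀] [NormedSpace ℂ E₀]
    [FiniteDimensional ℂ E₀] (EP : Type) [NormedAddCommGroup EP] [NormedSpace ℂ EP]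
    [FiniteDimensional ℂ EP] (U : Set (ℂ × E)) (pr : E →L[ℂ] E')
  (lab : E →L[ℂ] L) (D : Two E₀ EP U pr lab),
    BrG D.M D.U₀ D.pr₀ D.lab₀ (fun p => D.e₁ p.2) (fun p => D.e₂ p.2)

/-- Smoothing of combs. -/
def S_Comb : Prop := ∀ (E : Type) [NormedAddCommGroup E] [NormedSpace ℂ E]
    [FiniteDimensional ℂ E] (E' : Type) [NormedAddCommGroup E'] [NormedSpace ℂ E']
    [FiniteDimensional ℂ E'] (L : Type) [NormedAddCommGroup L] [NormedSpace ℂ L]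
    [FiniteDimensional ℂ L] (E₀ : Type) [NormedAddCommGroup E₀] [NormedSpace ℂ E₀]
    [FiniteDimensional ℂ E₀] (EP : Type) [NormedAddCommGroup EP] [NormedSpace ℂ EP]
    [FiniteDimensional ℂ EP] (U : Set (ℂ × E)) (pr : E →L[ℂ] E')
  (lab : E →L[ℂ] L) (D : Two E₀ EP U pr lab),
    BrG D.M D.U₀ D.pr₀ D.lab₀ (fun p => D.e₁ p.2) (fun p => D.e₂ p.2) →
    BrG U D.U₀ D.pr₀ D.lab₀ D.φ D.φ

/-- From the chart `U₀` to `U`; connectedness of the fibres. -/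
def S_Loc : Prop := ∀ (E : Type) [NormedAddCommGroup E] [NormedSpace ℂ E]
    [FiniteDimensional ℂ E] (E' : Type) [NormedAddCommGroup E'] [NormedSpace ℂ E']
    [FiniteDimensional ℂ E'] (L : Type) [NormedAddCommGroup L] [NormedSpace ℂ L]
    [FiniteDimensional ℂ L] (E₀ : Type) [NormedAddCommGroup E₀] [NormedSpace ℂ E₀]
    [FiniteDimensional ℂ E₀] (EP : Type) [NormedAddCommGroup EP] [NormedSpace ℂ EP]
    [FiniteDimensional ℂ EP] (U : Set (ℂ × E)) (pr : E →L[ℂ] E')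
  (lab : E →L[ℂ] L) (_ : TC U pr) (D : Two E₀ EP U pr lab),
    (BrG U D.U₀ D.pr₀ D.lab₀ D.φ D.φ → Br U pr lab) ∧ Conn U lab

/-- Bridges for base changes and Weil restrictions. -/
def S_BrW : Prop :=
  (∀ (E : Type) [NormedAddCommGroup E] [NormedSpace ℂ E]
    [FiniteDimensional ℂ E] (E' : Type) [NormedAddCommGroup E'] [NormedSpace ℂ E']
    [FiniteDimensional ℂ E'] (L : Type) [NormedAddCommGroup L] [NormedSpace ℂ L]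
    [FiniteDimensional ℂ L] (L' : Type) [NormedAddCommGroup L'] [NormedSpace ℂ L']
    [FiniteDimensional ℂ L'] (B : Set (ℂ × L)) (m : ℂ × L → ℂ) (U : Set (ℂ × E))
    (pr : E →L[ℂ] E') (lab : E →L[ℂ] L'), Differentiable ℂ m → Br U pr lab →
    Br (BU B m U) (prB L pr) (labB L E) ∧ Br (BU B m U) (prB L pr) (lab0 _)) ∧
  (∀ (E : Type) [NormedAddCommGroup E] [NormedSpace ℂ E]
    [FiniteDimensional ℂ E] (E' : Type) [NormedAddCommGroup E'] [NormedSpace ℂ E']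
    [FiniteDimensional ℂ E'] Q d δ (U : Set (ℂ × ((ℂ × ℂ) × E))) (pr : E →L[ℂ] E'), Cov Q d δ →
    OnCV Q δ U → Br U (prB _ pr) (labB _ E) → Br (WU Q d δ U) (prW d pr) (lab0 _))

/-- Connectedness, nonemptiness and germs for base changes and Weil restrictions. -/
def S_ConnW : Prop :=
  (∀ (E : Type) [NormedAddCommGroup E] [NormedSpace ℂ E]
    [FiniteDimensional ℂ E] (L : Type) [NormedAddCommGroup L] [NormedSpace ℂ L]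
    [FiniteDimensional ℂ L] (B : Set (ℂ × L)) (m : ℂ × L → ℂ) (U : Set (ℂ × E)), Conn U (lab0 E) →
    Conn (BU B m U) (labB L E) ∧
    ((∀ z a a', (z, a) ∈ B → (z, a') ∈ B → a = a') → Conn (BU B m U) (lab0 _))) ∧
  (∀ (E : Type) [NormedAddCommGroup E] [NormedSpace ℂ E]
    [FiniteDimensional ℂ E] Q d δ (U : Set (ℂ × ((ℂ × ℂ) × E))), Cov Q d δ →
    (Conn U (labB _ E) → Conn (WU Q d δ U) (lab0 _)) ∧
    (∀ z, δ.eval z ≠ 0 → (∀ v, Q.evalEval z v = 0 → ∃ ξ, (z, ((v, (δ.eval z)⁻¹), ξ)) ∈ U) →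
      ∃ ξ, (z, ξ) ∈ WU Q d δ U) ∧
    (∀ (J : E →L⋆[ℂ] E) (t : ℝ), (∀ x, J (J x) = x) → Q.map (mapRingHom (starRingEnd ℂ)) = Q →
      δ.map (starRingEnd ℂ) = δ → δ.eval (t : ℂ) ≠ 0 → (∀ T : ℝ, Q.evalEval (t : ℂ) (T : ℂ) ≠ 0) →
      (∀ z T y ξ, (z, ((T, y), ξ)) ∈ U → (conj z, ((conj T, conj y), J ξ)) ∈ U) →
      Conn U (labB _ E) → NECV Q δ U →
      (∃ ξ, ((t : ℂ), ξ) ∈ WU Q d δ U ∧ ((fun l => J (ξ.1 l)), conj ξ.2) = ξ) ∧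
      ∀ ξ₁ ξ₂, ((t : ℂ), ξ₁) ∈ WU Q d δ U → ((fun l => J (ξ₁.1 l)), conj ξ₁.2) = ξ₁ →
        ((t : ℂ), ξ₂) ∈ WU Q d δ U → ((fun l => J (ξ₂.1 l)), conj ξ₂.2) = ξ₂ →
        JoinedIn {ξ | ((t : ℂ), ξ) ∈ WU Q d δ U ∧ ((fun l => J (ξ.1 l)), conj ξ.2) = ξ} ξ₁ ξ₂) ∧
    (∀ (κ : ℂ → ℂ) (p : ℂ) (val : ℂ → ℂ → E) (C : ℝ) (a : ℕ), MeromorphicAt κ p →
      (∀ᶠ z₀ in 𝓝[≠] p, δ.eval (κ z₀) ≠ 0 ∧
        (∀ v : ℂ → ℂ, AnalyticAt ℂ v z₀ → (∀ᶠ z in 𝓝 z₀, Q.evalEval (κ z) (v z) = 0) →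
          AnalyticAt ℂ (fun z => val z (v z)) z₀) ∧
        ∀ v, Q.evalEval (κ z₀) v = 0 → (κ z₀, ((v, (δ.eval (κ z₀))⁻¹), val z₀ v)) ∈ U ∧
          ‖val z₀ v‖ ≤ C / ‖z₀ - p‖ ^ a) →
      Germ (WU Q d δ U) κ (fun z => (itp Q d (κ z) (val z), (δ.eval (κ z))⁻¹)) p))

/-! ### The Oka principle -/

/-- Gluing along a circle. -/
def S_G : Prop := ∀ (E : Type) [NormedAddCommGroup E] [NormedSpace ℂ E]
    [FiniteDimensional ℂ E] (E' : Type) [NormedAddCommGroup E'] [NormedSpace ℂ E']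
    [FiniteDimensional ℂ E'] (L : Type) [NormedAddCommGroup L] [NormedSpace ℂ L]
    [FiniteDimensional ℂ L] (U : Set (ℂ × E)) (pr : E →L[ℂ] E') (T : TC U pr)
  (lab : E →L[ℂ] L), Br U pr lab → ∀ K ⊆ U, IsCompact K → ∃ ε > 0,
  ∀ (s δ : ℝ) (Ω : Set ℂ) (S₀ S₁ : ℂ → E) (ω₀ ω₁ : ℂ → ℂ) (Λ : (ℂ → E') → ℂ → E') (CΛ c : ℝ),
    0 < δ → δ < s → IsOpen Ω → ball 0 (s + δ) ⊆ Ω →
    Sec U S₀ (ball 0 (s + δ)) → Sec U S₁ (Ω ∩ {z | s - δ < ‖z‖}) →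
    (∀ z ∈ ann (s - δ) (s + δ), AnalyticAt ℂ S₀ z ∧ AnalyticAt ℂ S₁ z ∧ (z, S₀ z) ∈ K ∧
      ‖S₁ z - S₀ z‖ < ε) →
    Differentiable ℂ ω₀ → AnalyticOnNhd ℂ ω₁ {z | z ≠ 0} → 0 < c →
    (∀ z ∈ ann (s - δ) (s + δ), c ≤ ‖ω₀ z‖ ∧ c ≤ ‖ω₁ z‖) →
    (∀ z ∈ ball (0 : ℂ) (s + δ), AnalyticAt ℂ S₀ z → ‖ω₀ z‖ ≤ T.rho (z, S₀ z) ^ 2) →
    (∀ z ∈ Ω, s - δ < ‖z‖ → AnalyticAt ℂ S₁ z → ‖ω₁ z‖ ≤ T.rho (z, S₁ z) ^ 2) →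
    (∀ β β', AnalyticOnNhd ℂ β {z | s + δ / 2 < ‖z‖} → AnalyticOnNhd ℂ β' {z | s + δ / 2 < ‖z‖} →
      ∀ z ∈ Ω, s - δ < ‖z‖ → Λ (fun x => β x - β' x) z = Λ β z - Λ β' z) →
    (∀ β, AnalyticOnNhd ℂ β {z | s + δ / 2 < ‖z‖} →
      AnalyticOnNhd ℂ (Λ β) (Ω ∩ {z | s - δ < ‖z‖})) →
    (∀ β (M : ℝ), AnalyticOnNhd ℂ β {z | s + δ / 2 < ‖z‖} →
      (∀ z, s + δ / 2 < ‖z‖ → ‖β z‖ ≤ M * ‖ω₁ z‖) →
      ∀ z ∈ Ω, s - δ < ‖z‖ → ‖Λ β z‖ ≤ CΛ * M * ‖ω₁ z‖) →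
    ∀ η > 0, ∃ (S : ℂ → E) (β : ℂ → E'), Sec U S Ω ∧
      (∀ z ∈ ball (0 : ℂ) (s - δ / 2), AnalyticAt ℂ S₀ z →
        AnalyticAt ℂ S z ∧ T.rho (z, S₀ z) * ‖S z - S₀ z‖ ≤ η * ‖ω₀ z‖) ∧
      (∀ z ∈ Ω, s + δ / 2 < ‖z‖ → AnalyticAt ℂ S₁ z →
        AnalyticAt ℂ S z ∧ T.rho (z, S₁ z) * ‖S z - S₁ z‖ ≤ η * ‖ω₁ z‖ ∧
        pr (S z) = pr (S₁ z) + β z + Λ β z)

/-- One gluing step: to a larger disc, to the sphere, to the mirror image. -/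
def S_Step : Prop := ∀ (E : Type) [NormedAddCommGroup E] [NormedSpace ℂ E]
    [FiniteDimensional ℂ E] (E' : Type) [NormedAddCommGroup E'] [NormedSpace ℂ E']
    [FiniteDimensional ℂ E'] (L : Type) [NormedAddCommGroup L] [NormedSpace ℂ L]
    [FiniteDimensional ℂ L] (U : Set (ℂ × E)) (pr : E →L[ℂ] E') (_ : TC U pr)
  (lab : E →L[ℂ] L), Br U pr lab → ∀ K ⊆ U, IsCompact K → ∃ ε > 0,
  ∀ (𝒞 : (ℂ → E) → Prop) (r R₀ ra : ℝ) (S₀ S₁ : ℂ → E), 0 < ra → ra < r → r < R₀ → Stable r 𝒞 →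
    Sec U S₀ (ball 0 R₀) → 𝒞 S₀ →
    (∀ z ∈ sphere (0 : ℂ) r, AnalyticAt ℂ S₀ z ∧ AnalyticAt ℂ S₁ z ∧ (z, S₀ z) ∈ K ∧
      ‖S₁ z - S₀ z‖ < ε) →
    (∀ (rb r'' R : ℝ) (q : ℂ[X]), r < r'' → r'' < R → R < rb → q ≠ 0 → Sec U S₁ (ann ra rb) →
      ∃ S, Sec U S (ball 0 R) ∧ 𝒞 S ∧ ∀ z, r'' ≤ ‖z‖ → ‖z‖ < R → AnalyticAt ℂ S₁ z →
        AnalyticAt ℂ S z ∧ ‖S z - S₁ z‖ ≤ ‖q.eval z‖) ∧
    (Sec U S₁ {z | ra < ‖z‖} → Germ U (fun z => z⁻¹) (fun z => S₁ z⁻¹) 0 → ∃ S, Rat U S ∧ 𝒞 S) ∧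
    (∀ (J : E →L⋆[ℂ] E) (J' : E' →L⋆[ℂ] E') (P : Finset ℂ) (k : ℕ), RealStr U pr J J' → r < 1 →
      (∀ p ∈ P, ‖p‖ = 1) → Sec U S₁ (ann ra ra⁻¹) →
      (∀ z ∈ ann ra ra⁻¹, z ∉ P → AnalyticAt ℂ S₁ z ∧ S₁ (rfl1 z) = J (S₁ z)) →
      ∃ r'' S, r < r'' ∧ r'' < 1 ∧ Sec U S (ball 0 r''⁻¹) ∧ 𝒞 S ∧ (∀ p ∈ P, Jet k S₁ p S) ∧
        ∀ z ∈ ann r'' r''⁻¹, z ∉ P → S (rfl1 z) = J (S z))

/-- Holomorphic approximation of a continuous section over a circle, with poles. -/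
def S_Ap : Prop := ∀ (E : Type) [NormedAddCommGroup E] [NormedSpace ℂ E]
    [FiniteDimensional ℂ E] (E' : Type) [NormedAddCommGroup E'] [NormedSpace ℂ E']
    [FiniteDimensional ℂ E'] (U : Set (ℂ × E)) (pr : E →L[ℂ] E') (_ : TC U pr)
  (r : ℝ) (P : Finset ℂ) (γ : ℂ → E) (σ : ℂ → ℂ → E) (J : E →L⋆[ℂ] E) (J' : E' →L⋆[ℂ] E')
  (re : Prop), 0 < r → (∀ p ∈ P, ‖p‖ = r) → CSec U γ (sphere 0 r \ P) →
    (∀ p ∈ P, Germ U id (σ p) p ∧ ∀ᶠ z in 𝓝[sphere 0 r \ {p}] p, γ z = σ p z) →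
    (re → r = 1 ∧ RealStr U pr J J' ∧ (∀ z ∈ sphere (0 : ℂ) r \ P, J (γ z) = γ z) ∧
      ∀ p ∈ P, ∀ᶠ z in 𝓝[≠] p, σ p (rfl1 z) = J (σ p z)) →
    ∀ (k : ℕ) (η : ℝ), 0 < η → ∃ (δ : ℝ) (S : ℂ → E), 0 < δ ∧ δ < r ∧
      Sec U S (ann (r - δ) (r + δ)) ∧ (∀ z ∈ ann (r - δ) (r + δ), z ∉ P → AnalyticAt ℂ S z) ∧
      (∀ z ∈ sphere (0 : ℂ) r \ P, ‖S z - γ z‖ ≤ η * ‖∏ p ∈ P, (z - p)‖ ^ k) ∧
      (∀ p ∈ P, ∀ᶠ z in 𝓝[≠] p, ‖S z - σ p z‖ ≤ η * ‖∏ p ∈ P, (z - p)‖ ^ k) ∧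
      (re → ∀ z ∈ ann (r - δ) (r + δ), z ∉ P → rfl1 z ∈ ann (r - δ) (r + δ) →
        S (rfl1 z) = J (S z))

/-- Moving along a continuous section. Stability of the standard conditions. -/
def S_M1 : Prop :=
  (∀ (E : Type) [NormedAddCommGroup E] [NormedSpace ℂ E]
    [FiniteDimensional ℂ E] (E' : Type) [NormedAddCommGroup E'] [NormedSpace ℂ E']
    [FiniteDimensional ℂ E'] (L : Type) [NormedAddCommGroup L] [NormedSpace ℂ L]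
    [FiniteDimensional ℂ L] (U : Set (ℂ × E)) (pr : E →L[ℂ] E') (_ : TC U pr) (lab : E →L[ℂ] L),
    Br U pr lab → ∀ (𝒞 : (ℂ → E) → Prop) (r r' : ℝ) (S : ℂ → E), 0 < r → r ≤ r' → Stable r 𝒞 →
      CSec U S (cann r r') → Reach U 𝒞 r S → Reach U 𝒞 r' S) ∧
  (∀ (E : Type) [NormedAddCommGroup E] [NormedSpace ℂ E]
    [FiniteDimensional ℂ E], (∀ r r' (𝒞 : (ℂ → E) → Prop), r ≤ r' → Stable r 𝒞 → Stable r' 𝒞) ∧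
    (∀ r (𝒞 𝒞' : (ℂ → E) → Prop), Stable r 𝒞 → Stable r 𝒞' → Stable r fun S => 𝒞 S ∧ 𝒞' S) ∧
    (∀ r k (P : Finset ℂ) (σ : ℂ → ℂ → E), Stable r fun S => ∀ p ∈ P, ‖p‖ < r → Jet k (σ p) p S) ∧
    (∀ (r η : ℝ) (γ : ℂ → E), 0 < r → ContinuousOn γ (sphere 0 r) →
      Stable r fun S => ∀ z ∈ sphere (0 : ℂ) r, AnalyticAt ℂ S z ∧ ‖S z - γ z‖ < η))

/-- Moving along a continuous section with poles. -/
def S_M3 : Prop := ∀ (E : Type) [NormedAddCommGroup E] [NormedSpace ℂ E]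
    [FiniteDimensional ℂ E] (E' : Type) [NormedAddCommGroup E'] [NormedSpace ℂ E']
    [FiniteDimensional ℂ E'] (L : Type) [NormedAddCommGroup L] [NormedSpace ℂ L]
    [FiniteDimensional ℂ L] (U : Set (ℂ × E)) (pr : E →L[ℂ] E') (_ : TC U pr)
  (lab : E →L[ℂ] L), Br U pr lab →
    ∀ (𝒞 : (ℂ → E) → Prop) (r r' : ℝ) (S : ℂ → E) (P : Finset ℂ) (k : ℕ), 0 < r → r ≤ r' →
      Stable r 𝒞 → (∀ p ∈ P, p ∈ ann r r' ∧ Germ U id S p) → CSec U S (cann r r' \ P) →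
      Reach U 𝒞 r S → Reach U (fun S' => 𝒞 S' ∧ ∀ p ∈ P, Jet k S p S') r' S

/-- Families of paths in nearby fibres; radial extension; sections over circles. -/
def S_PF : Prop := ∀ (E : Type) [NormedAddCommGroup E] [NormedSpace ℂ E]
    [FiniteDimensional ℂ E] (E' : Type) [NormedAddCommGroup E'] [NormedSpace ℂ E']
    [FiniteDimensional ℂ E'] (U : Set (ℂ × E)) (pr : E →L[ℂ] E') (_ : TC U pr),
  (∀ (b : ℂ) (c : ℝ → E) (D : Set ℂ) (s₀ s₁ : ℂ → E), b ∈ D → PathIn (fib U b) c → CSec U s₀ D →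
    CSec U s₁ D → s₀ b = c 0 → s₁ b = c 1 →
    ∃ δ > 0, ∃ C : ℂ × ℝ → E, ContinuousOn C ((D ∩ ball b δ) ×ˢ Icc 0 1) ∧
      (∀ t ∈ Icc (0 : ℝ) 1, C (b, t) = c t) ∧
      (∀ z ∈ D ∩ ball b δ, C (z, 0) = s₀ z ∧ C (z, 1) = s₁ z ∧
        ∀ t ∈ Icc (0 : ℝ) 1, (z, C (z, t)) ∈ U) ∧
      ∀ J J', RealStr U pr J J' → ‖b‖ = 1 → (∀ t ∈ Icc (0 : ℝ) 1, J (c t) = c t) →
        ∀ z ∈ D ∩ ball b δ, ‖z‖ = 1 → J (s₀ z) = s₀ z → J (s₁ z) = s₁ z →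
          ∀ t ∈ Icc (0 : ℝ) 1, J (C (z, t)) = C (z, t)) ∧
  (∀ (r : ℝ) (γ : ℂ → E), 0 < r → CSec U γ (sphere 0 r) →
    ∃ δ > 0, ∃ S, δ < r ∧ CSec U S (cann (r - δ) (r + δ)) ∧ EqOn S γ (sphere 0 r)) ∧
  (∀ (r : ℝ) (P : Finset ℂ) (σ : ℂ → ℂ → E) (J : E →L⋆[ℂ] E) (J' : E' →L⋆[ℂ] E') (re : Prop),
    0 < r → P.Nonempty → (∀ p ∈ P, ‖p‖ = r ∧ Germ U id (σ p) p) →
    (re → r = 1 ∧ RealStr U pr J J' ∧ ∀ p ∈ P, ∀ᶠ z in 𝓝[≠] p, σ p (rfl1 z) = J (σ p z)) →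
    (∀ z ∈ sphere (0 : ℂ) r \ P, (∃ ξ, (z, ξ) ∈ U ∧ (re → J ξ = ξ)) ∧
      ∀ ξ₁ ξ₂, (z, ξ₁) ∈ U → (re → J ξ₁ = ξ₁) → (z, ξ₂) ∈ U → (re → J ξ₂ = ξ₂) →
        JoinedIn {ξ | (z, ξ) ∈ U ∧ (re → J ξ = ξ)} ξ₁ ξ₂) →
    ∃ γ, CSec U γ (sphere 0 r \ P) ∧ (∀ p ∈ P, ∀ᶠ z in 𝓝[sphere 0 r \ {p}] p, γ z = σ p z) ∧
      (re → ∀ z ∈ sphere (0 : ℂ) r \ P, J (γ z) = γ z))

/-- Two continuous sections near a circle are joined by a section with poles. -/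
def S_C2 : Prop := ∀ (E : Type) [NormedAddCommGroup E] [NormedSpace ℂ E]
    [FiniteDimensional ℂ E] (E' : Type) [NormedAddCommGroup E'] [NormedSpace ℂ E']
    [FiniteDimensional ℂ E'] (U : Set (ℂ × E)) (pr : E →L[ℂ] E') (_ : TC U pr),
  Conn U (lab0 E) → FillAll U → ∀ (s s₁ : ℝ) (S₀ S₁ : ℂ → E), 0 < s → s < s₁ →
    CSec U S₀ (cann s s₁) → CSec U S₁ (cann s s₁) →
    ∃ (s' : ℝ) (P : Finset ℂ) (S : ℂ → E), s < s' ∧ s' < s₁ ∧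
      (∀ p ∈ P, p ∈ ann s s' ∧ Germ U id S p) ∧ CSec U S (cann s s' \ P) ∧
      EqOn S S₀ (sphere 0 s) ∧ EqOn S S₁ (sphere 0 s')

/-- Every continuous section over a good circle is reached. -/
def S_Sweep : Prop := ∀ (E : Type) [NormedAddCommGroup E] [NormedSpace ℂ E]
    [FiniteDimensional ℂ E] (E' : Type) [NormedAddCommGroup E'] [NormedSpace ℂ E']
    [FiniteDimensional ℂ E'] (U : Set (ℂ × E)) (pr : E →L[ℂ] E') (Bad P : Finset ℂ)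
  (σ : ℂ → ℂ → E) (k : ℕ) (r : ℝ) (γ : ℂ → E), Oka U pr Bad → Bad ⊆ P → 0 ∈ P → 0 < r →
    (∀ p ∈ P, ‖p‖ ≠ r ∧ (‖p‖ < r → Germ U id (σ p) p)) → CSec U γ (sphere 0 r) →
    Reach U (fun S => ∀ p ∈ P, ‖p‖ < r → Jet k (σ p) p S) r γ

/-- The three global theorems. -/
def S_Glob : Prop :=
  (∀ (E : Type) [NormedAddCommGroup E] [NormedSpace ℂ E]
    [FiniteDimensional ℂ E] (E' : Type) [NormedAddCommGroup E'] [NormedSpace ℂ E']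
    [FiniteDimensional ℂ E'] (U : Set (ℂ × E)) (pr : E →L[ℂ] E') (Bad : Finset ℂ), Oka U pr Bad →
    (∀ p ∈ Bad, ∃ σ, Germ U id σ p) → (∃ σ, Germ U (fun z => z⁻¹) σ 0) → ∃ S, Rat U S) ∧
  (∀ (E : Type) [NormedAddCommGroup E] [NormedSpace ℂ E]
    [FiniteDimensional ℂ E] (E' : Type) [NormedAddCommGroup E'] [NormedSpace ℂ E']
    [FiniteDimensional ℂ E'] (U : Set (ℂ × E)) (pr : E →L[ℂ] E') (Bad P : Finset ℂ) (σ : ℂ → ℂ → E) (k : ℕ)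
    (J : E →L⋆[ℂ] E) (J' : E' →L⋆[ℂ] E'), Oka U pr Bad → RealStr U pr J J' → ConnRe U J Bad →
    Bad ⊆ P → 0 ∈ P → 1 ∈ P → (∀ p ∈ P, ‖p‖ ≤ 1 → Germ U id (σ p) p) →
    (∀ p ∈ P, ‖p‖ = 1 → ∀ᶠ z in 𝓝[≠] p, σ p (rfl1 z) = J (σ p z)) →
    ∃ S, Rat U S ∧ (∀ᶠ z in cofinite, S (rfl1 z) = J (S z)) ∧
      ∀ p ∈ P, ‖p‖ ≤ 1 → Jet k (σ p) p S) ∧
  (∀ (E : Type) [NormedAddCommGroup E] [NormedSpace ℂ E]
    [FiniteDimensional ℂ E] (E' : Type) [NormedAddCommGroup E'] [NormedSpace ℂ E']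
    [FiniteDimensional ℂ E'] (L : Type) [NormedAddCommGroup L] [NormedSpace ℂ L]
    [FiniteDimensional ℂ L] (U : Set (ℂ × E)) (pr : E →L[ℂ] E') (_ : TC U pr) (lab : E →L[ℂ] L)
    (P : Finset ℂ) (S₀ : ℂ → E) (r η : ℝ), Br U pr lab → 0 ∈ P → CSec U S₀ (P : Set ℂ)ᶜ →
    (∀ p ∈ P, ‖p‖ ≠ r ∧ Germ U id S₀ p) → Germ U (fun z => z⁻¹) (fun z => S₀ z⁻¹) 0 →
    0 < r → 0 < η →
    ∃ S, Rat U S ∧ ∀ z ∈ sphere (0 : ℂ) r, AnalyticAt ℂ S z ∧ ‖S z - S₀ z‖ < η)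

/-! ### Filling -/

/-- Collars and gluing of fillings. -/
def S_Sim : Prop := ∀ (E : Type) [NormedAddCommGroup E] [NormedSpace ℂ E]
    [FiniteDimensional ℂ E] (E' : Type) [NormedAddCommGroup E'] [NormedSpace ℂ E']
    [FiniteDimensional ℂ E'] (U : Set (ℂ × E)) (pr : E →L[ℂ] E') (_ : TC U pr)
  (κ : ℂ → ℂ) (β : ℂ), AnalyticAt ℂ κ β →
    (∀ F (a₀ b₀ : ℝ), 0 < a₀ → 0 < b₀ → BdMap (fib U (κ β)) F → AFill U κ β F a₀ b₀ →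
      SFill U κ β F) ∧ FillSys (fib U (κ β)) (SFill U κ β)

/-- Path calculus, part 1. -/
def S_FC1 : Prop := ∀ (E : Type) [NormedAddCommGroup E] [NormedSpace ℂ E]
    [FiniteDimensional ℂ E] (Y : Set E),
  (∀ (Z : Type) [NormedAddCommGroup Z] [NormedSpace ℝ Z] (D : Set Z) (f : Z → E) (a b : ℝ → Z),
    Convex ℝ D → ContinuousOn f D → MapsTo f D Y → ContinuousOn a (Icc 0 1) →
    ContinuousOn b (Icc 0 1) → MapsTo a (Icc 0 1) D → MapsTo b (Icc 0 1) D → a 0 = b 0 →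
    a 1 = b 1 → Hom Y (fun t => f (a t)) (fun t => f (b t))) ∧
  (∀ α β : ℝ → E, PathIn Y α → PathIn Y β → α 1 = β 0 → PathIn Y (cat α β)) ∧
  ∀ 𝓕 : (ℝ × ℝ → E) → Prop, FillSys Y 𝓕 →
    (∀ Φ : ℝ × (ℝ × ℝ) → E, ContinuousOn Φ (Icc 0 1 ×ˢ bd) → MapsTo Φ (Icc 0 1 ×ˢ bd) Y →
      𝓕 (fun p => Φ (0, p)) → 𝓕 (fun p => Φ (1, p))) ∧
    (∀ α β, Hom Y α β → Rel Y 𝓕 α β) ∧
    (∀ α β γ, Rel Y 𝓕 α β → Rel Y 𝓕 β γ → Rel Y 𝓕 α γ) ∧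
    (∀ α β α' β', Rel Y 𝓕 α β → Rel Y 𝓕 α' β' → α 1 = α' 0 → Rel Y 𝓕 (cat α α') (cat β β')) ∧
    (∀ F, BdMap Y F → (𝓕 F ↔ Rel Y 𝓕
      (cat (fun t => F (2 * t - 1, -1)) (fun t => F (1, 2 * t - 1)))
      (cat (fun t => F (-1, 2 * t - 1)) (fun t => F (2 * t - 1, 1)))))

/-- Path calculus, part 2. -/
def S_FC2 : Prop := ∀ (E : Type) [NormedAddCommGroup E] [NormedSpace ℂ E]
    [FiniteDimensional ℂ E] (Y : Set E) (𝓕 : (ℝ × ℝ → E) → Prop), FillSys Y 𝓕 →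
  (∀ H : ℝ × ℝ → E, ContinuousOn H (Icc 0 1 ×ˢ Icc 0 1) → MapsTo H (Icc 0 1 ×ˢ Icc 0 1) Y →
    (∀ μ ∈ Icc (0 : ℝ) 1, H (μ, 0) = H (μ, 1)) →
    LN 𝓕 (fun t => H (0, t)) → LN 𝓕 (fun t => H (1, t))) ∧
  (∀ x ∈ Y, LN 𝓕 fun _ => x) ∧
  (∀ α β, Loop Y α → Loop Y β → α 0 = β 0 → LN 𝓕 α → LN 𝓕 β → LN 𝓕 (cat α β)) ∧
  (∀ G, BdMap Y G → (∀ t ∈ Icc (-1 : ℝ) 1, G (-1, t) = G (1, t)) → 𝓕 G →
    (LN 𝓕 (fun t => G (2 * t - 1, -1)) → LN 𝓕 (fun t => G (2 * t - 1, 1))) ∧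
    (Sym Y 𝓕 → LN 𝓕 (fun t => G (2 * t - 1, 1)) → LN 𝓕 (fun t => G (2 * t - 1, -1)))) ∧
  ((∀ α : ℝ → E, Continuous α → Function.Periodic α 1 → (∀ t, α t ∈ Y) →
    ∃ k : ℕ, 0 < k ∧ LN 𝓕 fun t => α (k * t)) → Sym Y 𝓕) ∧
  (∀ O : Set E, (∀ α, Loop Y α → MapsTo α (Icc 0 1) O → LN 𝓕 α) →
    ∀ F, BdMap Y F → MapsTo F bd O → 𝓕 F)

/-- Path calculus, part 3: contraction along complex lines. -/
def S_FC3 : Prop := ∀ (E : Type) [NormedAddCommGroup E] [NormedSpace ℂ E]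
    [FiniteDimensional ℂ E] (Y : Set E) (𝓕 : (ℝ × ℝ → E) → Prop), FillSys Y 𝓕 → Sym Y 𝓕 →
  ∀ (G : ℝ × ℂ → E) (hh : ℝ × ℂ → ℂ) (y₀ : E), ContinuousOn hh (Icc 0 1 ×ˢ ball 0 3) →
    ContinuousOn G {x ∈ Icc (0 : ℝ) 1 ×ˢ ball (0 : ℂ) 3 | hh x ≠ 0} →
    MapsTo G {x ∈ Icc (0 : ℝ) 1 ×ˢ ball (0 : ℂ) 3 | hh x ≠ 0} Y →
    (∀ t ∈ Icc (0 : ℝ) 1, {τ ∈ closedBall (0 : ℂ) 2 | hh (t, τ) = 0}.Finite ∧ hh (t, 0) ≠ 0 ∧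
      hh (t, 1) ≠ 0 ∧ G (t, 0) = y₀) →
    (∀ τ ∈ ball (0 : ℂ) 3, hh (0, τ) ≠ 0 ∧ hh (1, τ) ≠ 0 ∧ G (0, τ) = y₀ ∧ G (1, τ) = y₀) →
    (∀ t ∈ Icc (0 : ℝ) 1, ∀ (c b : ℝ), 0 < b → |c| + b ≤ 1 / 2 →
      (∀ q ∈ bd, hh (t, aff (1 / 2 + c * Complex.I) (1 / 2) b q) ≠ 0) →
      𝓕 fun q => G (t, aff (1 / 2 + c * Complex.I) (1 / 2) b q)) →
    LN 𝓕 fun t => G (t, 1)

/-- A meromorphic rectangle in a fibre deforms to local sections. -/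
def S_AF : Prop := ∀ (E : Type) [NormedAddCommGroup E] [NormedSpace ℂ E]
    [FiniteDimensional ℂ E] (E' : Type) [NormedAddCommGroup E'] [NormedSpace ℂ E']
    [FiniteDimensional ℂ E'] (G : Type) [NormedAddCommGroup G] [NormedSpace ℂ G]
    [FiniteDimensional ℂ G] (G' : Type) [NormedAddCommGroup G'] [NormedSpace ℂ G']
    [FiniteDimensional ℂ G'] (U : Set (ℂ × E)) (pr : E →L[ℂ] E') (_ : TC U pr)
  (A : Set (ℂ × G)) (prA : G →L[ℂ] G') (_ : TC A prA) (κ : ℂ → ℂ) (β τ₀ : ℂ) (a b : ℝ)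
  (p : ℂ → G) (Ψ : (ℂ × G) × ℂ → E) (O : Set ((ℂ × G) × ℂ)), AnalyticAt ℂ κ β → 0 < a → 0 < b →
    ContinuousOn p (rect τ₀ a b) → (∀ τ ∈ aff τ₀ a b '' ball 0 1, AnalyticAt ℂ p τ) →
    (∀ τ ∈ rect τ₀ a b, (κ β, p τ) ∈ A) → IsOpen O → MF (A ×ˢ univ) O Ψ →
    ContinuousOn Ψ ((A ×ˢ univ) ∩ O) → (∀ x ∈ (A ×ˢ univ) ∩ O, (x.1.1, Ψ x) ∈ U) →
    (∀ q ∈ bd, ((κ β, p (aff τ₀ a b q)), aff τ₀ a b q) ∈ O) →
    SFill U κ β fun q => Ψ ((κ β, p (aff τ₀ a b q)), aff τ₀ a b q)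

/-- A power of every loop is fillable. -/
def S_Pow : Prop := ∀ (E : Type) [NormedAddCommGroup E] [NormedSpace ℂ E]
    [FiniteDimensional ℂ E] (E' : Type) [NormedAddCommGroup E'] [NormedSpace ℂ E']
    [FiniteDimensional ℂ E'] (L : Type) [NormedAddCommGroup L] [NormedSpace ℂ L]
    [FiniteDimensional ℂ L] (E₀ : Type) [NormedAddCommGroup E₀] [NormedSpace ℂ E₀]
    [FiniteDimensional ℂ E₀] (EP : Type) [NormedAddCommGroup EP] [NormedSpace ℂ EP]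
    [FiniteDimensional ℂ EP] (U : Set (ℂ × E)) (pr : E →L[ℂ] E')
  (lab : E →L[ℂ] L) (_ : TC U pr) (_ : Two E₀ EP U pr lab) (κ : ℂ → ℂ) (β : ℂ),
    AnalyticAt ℂ κ β → ∀ α : ℝ → E, Continuous α → Function.Periodic α 1 →
      (∀ t, α t ∈ fib U (κ β)) → ∃ k : ℕ, 0 < k ∧ LN (SFill U κ β) fun t => α (k * t)

/-- Loops in a small ball of a chart are fillable. -/
def BallOK {E : Type} [NormedAddCommGroup E] [NormedSpace ℂ E] {U : Set (ℂ × E)} (c : Chart U) (b : ℂ) (𝓕 : (ℝ × ℝ → E) → Prop) : Prop :=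
  ∀ x, (b, x) ∈ c.V → ∃ η > 0, ∀ α, Loop (fib U b) α →
    (∀ t ∈ Icc (0 : ℝ) 1, ‖c.φ (b, α t) - x‖ < η) → LN 𝓕 α

def S_Ball : Prop := ∀ (E : Type) [NormedAddCommGroup E] [NormedSpace ℂ E]
    [FiniteDimensional ℂ E] (E' : Type) [NormedAddCommGroup E'] [NormedSpace ℂ E']
    [FiniteDimensional ℂ E'] (U : Set (ℂ × E)) (pr : E →L[ℂ] E') (_ : TC U pr)
  (c : Chart U) (κ : ℂ → ℂ) (β : ℂ), AnalyticAt ℂ κ β → Sym (fib U (κ β)) (SFill U κ β) →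
    BallOK c (κ β) (SFill U κ β)

/-- The two boundary loops of a meromorphic annulus in a fibre are equivalent. -/
def AnnOK {E : Type} [NormedAddCommGroup E] [NormedSpace ℂ E] (Y : Set E) (𝓕 : (ℝ × ℝ → E) → Prop) : Prop :=
  ∀ (ξ : ℂ → E) (r₁ r₂ : ℝ), 0 < r₁ → r₁ ≤ r₂ →
    (∀ t ∈ cann r₁ r₂, MeromorphicAt ξ t ∧ ∀ᶠ x in 𝓝[≠] t, ξ x ∈ Y) →
    (∀ t, ‖t‖ = r₁ ∨ ‖t‖ = r₂ → AnalyticAt ℂ ξ t) →
    (LN 𝓕 (fun t => ξ (circ r₁ t)) ↔ LN 𝓕 (fun t => ξ (circ r₂ t)))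

def S_P2 : Prop := ∀ (E : Type) [NormedAddCommGroup E] [NormedSpace ℂ E]
    [FiniteDimensional ℂ E] (U : Set (ℂ × E)) (m : ℕ) (ch : Fin m → Chart U) (b : ℂ)
  (𝓕 : (ℝ × ℝ → E) → Prop), IsClosed U → Cpt U ch → FillSys (fib U b) 𝓕 → Sym (fib U b) 𝓕 →
    (∀ i, BallOK (ch i) b 𝓕) → AnnOK (fib U b) 𝓕

/-- The branch `i t √(1 - t) √(1 - ε / t)` of `v² = t (t - 1) (t - ε)`. -/
def vbr (ε t : ℂ) : ℂ := Complex.I * t * (1 - t) ^ (1 / 2 : ℂ) * (1 - ε / t) ^ (1 / 2 : ℂ)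

/-- A rational map from the elliptic curve `v² = t (t - 1) (t - ε)` to `Y` whose restriction to
the vanishing cycle controls the loop `g`. -/
def EllMap {E : Type} [NormedAddCommGroup E] [NormedSpace ℂ E] (Y : Set E) (𝓕 : (ℝ × ℝ → E) → Prop) (g : ℝ → E) (ε : ℝ) : Prop :=
  ∃ (Den : ℂ[X]) (N₀ N₁ : ℂ → E) (r : ℝ), Den ≠ 0 ∧
    (∀ ℓ : E →L[ℂ] ℂ, ∃ p₀ p₁ : ℂ[X], ∀ t, ℓ (N₀ t) = p₀.eval t ∧ ℓ (N₁ t) = p₁.eval t) ∧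
    (∀ t v : ℂ, v ^ 2 = t * (t - 1) * (t - ε) → Den.eval t ≠ 0 →
      (Den.eval t)⁻¹ • (N₀ t + v • N₁ t) ∈ Y) ∧
    ε < r ∧ r < 1 ∧ (∀ t : ℂ, ‖t‖ = r → Den.eval t ≠ 0) ∧
    (LN 𝓕 (fun s => (Den.eval (circ r s))⁻¹ • (N₀ (circ r s) + vbr ε (circ r s) • N₁ (circ r s))) →
      LN 𝓕 g)

def S_Ell : Prop := ∀ (E : Type) [NormedAddCommGroup E] [NormedSpace ℂ E]
    [FiniteDimensional ℂ E] (E' : Type) [NormedAddCommGroup E'] [NormedSpace ℂ E']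
    [FiniteDimensional ℂ E'] (L : Type) [NormedAddCommGroup L] [NormedSpace ℂ L]
    [FiniteDimensional ℂ L] (U : Set (ℂ × E)) (pr : E →L[ℂ] E') (lab : E →L[ℂ] L)
  (b : ℂ) (𝓕 : (ℝ × ℝ → E) → Prop) (g : ℝ → E) (ε : ℝ), HasAPS U pr → Br U pr lab →
    FillSys (fib U b) 𝓕 → Loop (fib U b) g → 0 < ε → ε < 1 / 8 → EllMap (fib U b) 𝓕 g ε

/-- Degeneration of the elliptic curve. -/
def S_Lim : Prop := ∀ (E : Type) [NormedAddCommGroup E] [NormedSpace ℂ E]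
    [FiniteDimensional ℂ E] (E' : Type) [NormedAddCommGroup E'] [NormedSpace ℂ E']
    [FiniteDimensional ℂ E'] (U : Set (ℂ × E)) (pr : E →L[ℂ] E') (m : ℕ)
  (ch : Fin m → Chart U) (b : ℂ) (𝓕 : (ℝ × ℝ → E) → Prop) (g : ℝ → E), HasAPS U pr → Cpt U ch →
    FillSys (fib U b) 𝓕 → (∀ i, BallOK (ch i) b 𝓕) → AnnOK (fib U b) 𝓕 →
    (∀ ε : ℝ, 0 < ε → ε < 1 / 8 → EllMap (fib U b) 𝓕 g ε) → LN 𝓕 g

/-- Filling for base changes and Weil restrictions. -/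
def S_FillW : Prop :=
  (∀ (E : Type) [NormedAddCommGroup E] [NormedSpace ℂ E]
    [FiniteDimensional ℂ E] (L : Type) [NormedAddCommGroup L] [NormedSpace ℂ L]
    [FiniteDimensional ℂ L] (B : Set (ℂ × L)) (_ : TC B (pr0 L)) (m : ℂ × L → ℂ) (U : Set (ℂ × E)),
    Differentiable ℂ m → FillAll U → FillAll (BU B m U)) ∧
  (∀ (E : Type) [NormedAddCommGroup E] [NormedSpace ℂ E]
    [FiniteDimensional ℂ E] (E' : Type) [NormedAddCommGroup E'] [NormedSpace ℂ E']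
    [FiniteDimensional ℂ E'] Q d δ (U : Set (ℂ × ((ℂ × ℂ) × E))) (pr : E →L[ℂ] E') (_ : TC U (prB _ pr))
    (_ : TC (WU Q d δ U) (prW d pr)), Cov Q d δ → OnCV Q δ U → FillAll U → FillAll (WU Q d δ U))

/-! ### Sections after a degenerating cover -/

/-- The degenerating cover. -/
def Qe (Q : ℂ[X][X]) (q : ℂ[X]) (ε : ℂ) : ℂ[X][X] :=
  scaleRoots Q (C ε) + C (if Q.natDegree = 1 then 0 else q) * X

/-- Analytic part. -/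
def S_GHS1 : Prop := ∀ (E : Type) [NormedAddCommGroup E] [NormedSpace ℂ E]
    [FiniteDimensional ℂ E] (E' : Type) [NormedAddCommGroup E'] [NormedSpace ℂ E']
    [FiniteDimensional ℂ E'] (U : Set (ℂ × E)) (pr : E →L[ℂ] E') (Bad : Finset ℂ)
  (Q : ℂ[X][X]) (d : ℕ) (D : ℂ[X]) (Cf : ℂ × ℂ → E), Oka U pr Bad →
    (∃ σ, Germ U (fun z => z⁻¹) σ 0) → Cov Q d D → 0 < d → Tame Cf →
    (∀ z W, D.eval z ≠ 0 → Q.evalEval z W = 0 → (z, (D.eval z)⁻¹ • Cf (z, W)) ∈ U) →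
    ∃ q : ℂ[X], q ≠ 0 ∧ ∀ᶠ ε in cofinite, ∃ δ S, Cov (Qe Q q ε) d δ ∧
      Rat (WU (Qe Q q ε) d δ (BU (CV (Qe Q q ε) δ) Prod.fst U)) S

/-- A point of the system over Laurent series. -/
def GHS {E : Type} [NormedAddCommGroup E] [NormedSpace ℂ E] (U : Set (ℂ × E)) : Prop :=
  ∀ (L : Type) [Field L] [Algebra ℂ L] (z : L), Transcendental ℂ z →
    ∃ x, LPt U (algebraMap L (LaurentSeries L) z) x

def S_GHS : Prop := ∀ (E : Type) [NormedAddCommGroup E] [NormedSpace ℂ E]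
    [FiniteDimensional ℂ E] (E' : Type) [NormedAddCommGroup E'] [NormedSpace ℂ E']
    [FiniteDimensional ℂ E'] (U : Set (ℂ × E)) (pr : E →L[ℂ] E') (Bad : Finset ℂ),
  Oka U pr Bad → (∃ σ, Germ U (fun z => z⁻¹) σ 0) → GHS U

end

end Pool.Agent.P.MP_daea48_ag
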