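import Pool.Agent.P.MP_daea48_ag.StA

/-! Statements of the packages, algebraic layer. -/

open Set Filter Topology Metric Polynomial CategoryTheory AlgebraicGeometry
open scoped ComplexConjugate

namespace Pool.Agent.P.MP_daea48_ag

noncomputable section

open Classical

/-! ### Spreading out -/

/-- `ξ'` is a specialisation of `ξ` over `k`. -/
def Spz {k Ω Λ σ : Type} [Field k] [CommRing Ω] [CommRing Λ] (f : k →+* Ω) (ξ : σ → Ω)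
    (j : k →+* Λ) (ξ' : σ → Λ) : Prop :=
  ∀ G : MvPolynomial σ k, G.eval₂ f ξ = 0 → G.eval₂ j ξ' = 0

/-- Primitive element and specialisation: generic points, and one-parameter families. -/
def S_SP : Prop :=
  (∀ (k Ω σ τ : Type) [Field k] [CharZero k] [Field Ω] [Finite σ] [Finite τ] (f : k →+* Ω)
    (ξ : σ → Ω) (c : τ → Ω), ∃ (D : MvPolynomial σ k) (d : ℕ) (a : Fin d → MvPolynomial σ k)
      (Cf : τ → MvPolynomial (Option σ) k), D.eval₂ f ξ ≠ 0 ∧ 0 < d ∧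
      ∀ (Λ : Type) [Field Λ] (j : k →+* Λ) (ξ' : σ → Λ), Spz f ξ j ξ' → D.eval₂ j ξ' ≠ 0 →
        ∀ θ, (mon (evs j ξ' a)).eval θ = 0 → (derivative (mon (evs j ξ' a))).eval θ ≠ 0 ∧
          Spz f (Sum.elim ξ c) j (Sum.elim ξ' fun s =>
            (Cf s).eval₂ j (fun o => o.elim θ ξ') / D.eval₂ j ξ')) ∧
  (∀ (σ J : Type) [Finite σ] [Finite J] (G : J → MvPolynomial (Option σ) ℂ) (𝓔 : Set ℂ)
    (x : ℂ → σ → ℂ), ¬ 𝓔.Countable →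
    (∀ ε ∈ 𝓔, ∀ i, MvPolynomial.eval (fun o => o.elim ε (x ε)) (G i) = 0) →
    ∃ ε₀ ∈ 𝓔, ∃ (Q : ℂ[X][X]) (d : ℕ) (D : ℂ[X]) (Cf : σ → ℂ[X][X]) (θ₀ : ℂ), Cov Q d D ∧ 0 < d ∧
      D.eval ε₀ ≠ 0 ∧ Q.evalEval ε₀ θ₀ = 0 ∧
      (∀ s, x ε₀ s = (Cf s).evalEval ε₀ θ₀ / D.eval ε₀) ∧
      ∀ (Λ : Type) [Field Λ] [Algebra ℂ Λ] (ε θ : Λ), aevalAeval ε θ Q = 0 → aeval ε D ≠ 0 →
        ∀ i, MvPolynomial.aeval (fun o => o.elim ε fun s => aevalAeval ε θ (Cf s) / aeval ε D)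
          (G i) = 0)

/-- Families of polynomial solutions; formal branches of plane curves. -/
def S_SPP : Prop :=
  (∀ (σ J : Type) [Finite σ] [Finite J] (G : J → MvPolynomial (σ ⊕ Bool) ℂ) (𝓔 : Set ℂ)
    (p : ℂ → σ → ℂ[X]) (s₀ : σ), ¬ 𝓔.Countable →
    (∀ ε ∈ 𝓔, p ε s₀ ≠ 0 ∧
      ∀ i, MvPolynomial.aeval (Sum.elim (p ε) fun b => cond b (C ε) X) (G i) = 0) →
    ∃ ε₀ ∈ 𝓔, ∃ (Q : ℂ[X][X]) (d : ℕ) (D : ℂ[X]) (P : σ → ℂ[X][X][X]) (θ₀ : ℂ), Cov Q d D ∧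
      0 < d ∧ D.eval ε₀ ≠ 0 ∧ Q.evalEval ε₀ θ₀ = 0 ∧
      (∀ s, p ε₀ s = C (D.eval ε₀)⁻¹ * (P s).map (evalEvalRingHom ε₀ θ₀)) ∧
      ∀ (Λ : Type) [Field Λ] [Algebra ℂ Λ] (ε θ : Λ), aevalAeval ε θ Q = 0 → aeval ε D ≠ 0 →
        (P s₀).map (aevalAeval ε θ : ℂ[X][X] →ₐ[ℂ] Λ).toRingHom ≠ 0 ∧
        ∀ i, MvPolynomial.aeval (Sum.elim
          (fun s => C (aeval ε D)⁻¹ * (P s).map (aevalAeval ε θ : ℂ[X][X] →ₐ[ℂ] Λ).toRingHom)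
          fun b => cond b (C ε) X : σ ⊕ Bool → Λ[X]) (G i) = 0) ∧
  (∀ Q : ℂ[X][X], Q.Monic → 0 < Q.natDegree → ∃ ε θ : PowerSeries ℂ, ε ≠ 0 ∧
    PowerSeries.constantCoeff ε = 0 ∧ aevalAeval ε θ Q = 0)

/-- Norms to the free coordinates, inverse Jacobians, generic points. -/
def S_Norm : Prop :=
  (∀ (K R : Type) [Field K] [CharZero K] [CommRing R] [IsDomain R] (V : Pres K) (j : K →+* R)
    (g : V.σ → R) (G : MvPolynomial V.σ K), V.Pt j g → G.eval₂ j g ≠ 0 →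
    ∃ (N : MvPolynomial V.ι K) (G' : MvPolynomial V.σ K), N ≠ 0 ∧
      G.eval₂ j g * G'.eval₂ j g = N.eval₂ j (g ∘ V.fr)) ∧
  (∀ (K : Type) [Field K] (V : Pres K), ∃ (A : V.σ → V.κ → MvPolynomial V.σ K)
    (B : V.σ → V.σ → V.κ → MvPolynomial V.σ K) (A' : V.σ → V.ι → MvPolynomial V.σ K), ∀ s s',
      ∑ k, A s k * MvPolynomial.pderiv s' (V.F k) + ∑ a, (if V.fr a = s' then A' s a else 0) =
        (if s = s' then 1 else 0) + ∑ k, B s s' k * V.F k) ∧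
  (∀ (k Ω R σ : Type) [Field k] [Countable k] [Field Ω] [IsAlgClosed Ω] [Uncountable Ω]
    [CommRing R] [IsDomain R] [Finite σ] (f : k →+* Ω) (j : k →+* R) (g : σ → R),
    ∃ ξ : σ → Ω, ∀ G : MvPolynomial σ k, G.eval₂ f ξ = 0 ↔ G.eval₂ j g = 0)

/-! ### From the scheme to coordinates -/

def S_Cover : Prop := ∀ (K : Type) [Field K] (X : Scheme.{0}) (s : X ⟶ Spec (CommRingCat.of K))
  [Smooth s] [QuasiCompact s] [Nonempty X], Nonempty (SCover s)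

def S_AtlasA : Prop := ∀ (K : Type) [Field K] (X : Scheme.{0}) [IsIntegral X]
  (s : X ⟶ Spec (CommRingCat.of K)) [IsProper s] [GeometricallyIntegral s] (c : SCover s),
    Atlas c.jF c.V c.g

def S_AtlasB : Prop := ∀ (K : Type) [Field K] (X : Scheme.{0})
  (s : X ⟶ Spec (CommRingCat.of K)) [Smooth s] [GeometricallyIntegral s] (c : SCover s),
    RatConn s → ARc (c.V 0)

def S_AtlasC : Prop := ∀ (K : Type) [Field K] [Algebra ℝ K] (X : Scheme.{0}) [IsIntegral X]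
  (s : X ⟶ Spec (CommRingCat.of K)) [IsSeparated s] (c : SCover s),
    ThmK c.jF c.g → Nonempty (Pts s (RingHom.id K)) ∧ WeakApprox s

/-! ### Algebraic data -/

def S_KU : Prop := ∀ (K 𝓕 : Type) [Field K] [CharZero K] [Field 𝓕] (jF : K →+* 𝓕) (m : ℕ)
  (V : Fin (m + 1) → Pres K) (g : ∀ i, (V i).σ → 𝓕), Atlas jF V g →
    ∀ H, H ∉ (V 0).I → ∃ D : KU V, D.Link jF g ∧ D.Inv H

def S_KM : Prop := ∀ (K : Type) [Field K] [CharZero K] [Uncountable K] (V : Pres K), AGeo V →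
  ARc V → Nonempty (KM V)

def S_KT : Prop := ∀ (K : Type) [Field K] [CharZero K] (V : Pres K) (B : KM V), AGeo V →
  Nonempty (KT B)

def S_FF : Prop := ∀ (K : Type) [Field K] [Algebra ℝ K], PointlessFF K → Nonempty (FF K)

/-- The specialisation calculus. -/
def S_Spr : Prop := ∀ (K : Type) [Field K] [Algebra ℝ K] (F : FF K),
  (∀ a b, F.evF fun c => F.sp (a + b) c = F.sp a c + F.sp b c ∧ F.sp (a * b) c = F.sp a c * F.sp b c) ∧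
  (∀ (A : ℝ[X][X]) (s : ℝ[X]), s ≠ 0 → F.evF fun c =>
    F.sp (aevalAeval F.t F.T A / aeval F.t s) c = (cx A).evalEval c.1 c.2 / (cx1 s).eval c.1) ∧
  (∀ a, (F.evF fun c => F.sp a c = 0) → a = 0) ∧
  (∀ a c, F.sp a (conj c.1, conj c.2) = conj (F.sp a c) ∧
    F.sp a c = ∑ l : Fin F.d, c.2 ^ (l : ℕ) * F.cf l a c.1) ∧
  (∀ (J : Type) [Finite J] (p : J → ℂ × ℂ → Prop), (∀ i, F.evF (p i)) → F.evF fun c => ∀ i, p i c) ∧
  (∀ (J : Type) [Finite J] (p : J → ℝ[X] → Prop), (∀ i, evD (p i)) → evD fun δ => ∀ i, p i δ) ∧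
  (∀ p, F.evF p → evD fun δ => ∀ u ∈ CV (cx F.Q) (cx1 δ), p (u.1, u.2.1)) ∧
  (∀ p, (∀ᶠ t in cofinite, ∀ T, (cx F.Q).evalEval t T = 0 → p (t, T)) ↔ F.evF p) ∧
  (evD fun δ => Cov (cx F.Q) F.d (cx1 δ) ∧ F.δ₀ ∣ δ) ∧
  (∀ (σ : Type) (G H : MvPolynomial σ K), F.evF fun c =>
    F.spP (G + H) c = F.spP G c + F.spP H c ∧ F.spP (G * H) c = F.spP G c * F.spP H c) ∧
  (∀ (σ : Type) (a : K) (c : ℂ × ℂ), F.spP (MvPolynomial.C a : MvPolynomial σ K) c =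
    MvPolynomial.C (F.sp a c)) ∧
  (∀ (σ : Type) (s : σ), F.evF fun c => F.spP (MvPolynomial.X s : MvPolynomial σ K) c =
    MvPolynomial.X s) ∧
  (∀ (σ : Type) (s : σ) (G : MvPolynomial σ K), F.evF fun c =>
    F.spP (MvPolynomial.pderiv s G) c = MvPolynomial.pderiv s (F.spP G c)) ∧
  (∀ (σ τ : Type) (φ : σ → MvPolynomial τ K) (G : MvPolynomial σ K), F.evF fun c =>
    F.spP (MvPolynomial.bind₁ φ G) c = MvPolynomial.bind₁ (fun s => F.spP (φ s) c) (F.spP G c)) ∧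
  (∀ (σ : Type) (ξ : σ → K) (G : MvPolynomial σ K), F.evF fun c =>
    F.sp (MvPolynomial.eval ξ G) c = MvPolynomial.eval (fun s => F.sp (ξ s) c) (F.spP G c)) ∧
  (∀ (σ : Type) (G : MvPolynomial σ K) (c : ℂ × ℂ) (x : σ → ℂ),
    MvPolynomial.eval (fun s => conj (x s)) (F.spP G (conj c.1, conj c.2)) =
      conj (MvPolynomial.eval x (F.spP G c))) ∧
  (∀ (σ J : Type) [Finite σ] [Finite J] (E : J → MvPolynomial σ K) (G : MvPolynomial σ K),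
    (∀ x : σ → AlgebraicClosure K, (∀ i, (E i).eval₂ (algebraMap K _) x = 0) →
      G.eval₂ (algebraMap K _) x = 0) →
    F.evF fun c => ∀ x : σ → ℂ, (∀ i, MvPolynomial.eval x (F.spP (E i) c) = 0) →
      MvPolynomial.eval x (F.spP G c) = 0) ∧
  (∀ (σ : Type) [Fintype σ] (G : MvPolynomial σ K), evD fun δ =>
    ∃ f : ℂ × ((ℂ × ℂ) × (σ → ℂ)) → ℂ, Tame f ∧ ∀ u : ℂ × ((ℂ × ℂ) × (σ → ℂ)),
      (u.1, u.2.1) ∈ CV (cx F.Q) (cx1 δ) → f u = MvPolynomial.eval u.2.2 (F.spP G (u.1, u.2.1.1)))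

/-- The equations of the spread as a tame map. -/
def SprEq {K : Type} [Field K] [Algebra ℝ K] (F : FF K) (V : Pres K) (δ : ℝ[X])
    (f : ℂ × ((ℂ × ℂ) × (V.σ → ℂ)) → V.κ → ℂ) : Prop :=
  FAPS (CV (cx F.Q) (cx1 δ)) (F.US V δ) (prV V) f ∧ JacP (CV (cx F.Q) (cx1 δ)) (prV V) f ∧
    ∀ u : ℂ × ((ℂ × ℂ) × (V.σ → ℂ)), (u.1, u.2.1) ∈ CV (cx F.Q) (cx1 δ) →
      ∀ k, f u k = MvPolynomial.eval u.2.2 (F.spP (V.F k) (u.1, u.2.1.1))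

/-- Spread of the transition maps. -/
def SprTr {K : Type} [Field K] [Algebra ℝ K] (F : FF K) {m : ℕ} {V : Fin (m + 1) → Pres K}
    (D : KU V) (i : Fin (m + 1)) (δ : ℝ[X]) : Prop :=
  ∃ φ ψ h, Tr (F.US D.U δ) (F.US (V i) δ) φ ψ h ∧ ∀ u ∈ F.US D.U δ,
    φ u = (u.2.1, fun s => MvPolynomial.eval u.2.2 (F.spP (D.φ i s) (u.1, u.2.1.1)))

def S_Inst1 : Prop := ∀ (K : Type) [Field K] [Algebra ℝ K] (F : FF K),
  (∀ V : Pres K, evD fun δ => ∃ f, SprEq F V δ f) ∧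
  ∀ (m : ℕ) (V : Fin (m + 1) → Pres K) (D : KU V) (i : Fin (m + 1)), evD (SprTr F D i)

def S_Inst2 : Prop := ∀ (K : Type) [Field K] [Algebra ℝ K] (F : FF K) (m : ℕ)
  (V : Fin (m + 1) → Pres K) (D : KU V), evD fun δ => NECV (cx F.Q) (cx1 δ) (F.US D.U δ) ∧
    ((∀ i, Nonempty (TC (F.US (V i) δ) (prB _ (prV (V i))))) →
      ∃ ch : Fin (m + 1) → Chart (F.US D.U δ), Cpt (F.US D.U δ) ch)

def S_Inst3 : Prop := ∀ (K : Type) [Field K] [Algebra ℝ K] (F : FF K) (m : ℕ)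
  (V : Fin (m + 1) → Pres K) (D : KU V) (B : KM (V 0)) (T : KT B), D.Inv T.H → evD fun δ =>
    Nonempty (TC (F.US (V 0) δ) (prB _ (prV (V 0)))) →
    Nonempty (TC (F.US B.M δ) (prB _ (prV B.M))) →
    Nonempty (Two ((ℂ × ℂ) × ((V 0).σ → ℂ)) ((ℂ × ℂ) × (B.M.σ → ℂ)) (F.US D.U δ)
      (prB _ (prV D.U)) (labB _ _))

/-- The properties of the final system. -/
def FinalOK {K : Type} [Field K] [Algebra ℝ K] (F : FF K) (V : Pres K) (δ : ℝ[X]) (l : ℝ) :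
    Prop := ∃ Bad : Finset ℂ, 1 ∈ Bad ∧
  Oka (F.RR l V δ) (prB _ (prW F.d (prV V))) Bad ∧
  RealStr (F.RR l V δ) (prB _ (prW F.d (prV V))) (stL _) (stL _) ∧
  ConnRe (F.RR l V δ) (stL _) Bad ∧ ∃ σ, Germ (F.RR l V δ) (fun z => z⁻¹) σ 0

/-- From the system over the curve to the final system. -/
def S_Final : Prop := ∀ (K : Type) [Field K] [Algebra ℝ K] (F : FF K) (V : Pres K) (δ : ℝ[X]),
  Cov (cx F.Q) F.d (cx1 δ) → F.δ₀ ∣ δ → HasFAPS (CV (cx F.Q) (cx1 δ)) (F.US V δ) (prV V) →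
  Br (F.US V δ) (prB _ (prV V)) (labB _ _) → Conn (F.US V δ) (labB _ _) → FillAll (F.US V δ) →
  NECV (cx F.Q) (cx1 δ) (F.US V δ) → ∃ l > 0, FinalOK F V δ l

/-- All loops are fillable. -/
def S_Fill : Prop := ∀ (E : Type) [NormedAddCommGroup E] [NormedSpace ℂ E]
    [FiniteDimensional ℂ E] (E' : Type) [NormedAddCommGroup E'] [NormedSpace ℂ E']
    [FiniteDimensional ℂ E'] (L : Type) [NormedAddCommGroup L] [NormedSpace ℂ L]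
    [FiniteDimensional ℂ L] (E₀ : Type) [NormedAddCommGroup E₀] [NormedSpace ℂ E₀]
    [FiniteDimensional ℂ E₀] (EP : Type) [NormedAddCommGroup EP] [NormedSpace ℂ EP]
    [FiniteDimensional ℂ EP] (U : Set (ℂ × E)) (pr : E →L[ℂ] E')
  (lab : E →L[ℂ] L) (_ : Two E₀ EP U pr lab) (m : ℕ) (ch : Fin m → Chart U), HasAPS U pr →
    Cpt U ch → Br U pr lab → FillAll U

/-! ### Places -/

def S_Pl1 : Prop := ∀ (K : Type) [Field K] [Algebra ℝ K] (F : FF K) (l : ℝ), 0 < l →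
  (∀ O, IsPlace O → ∃ p, ‖p‖ ≤ 1 ∧ F.Over l p O) ∧
  (∀ p, ‖p‖ ≤ 1 → ∃ π, F.Unif l p π) ∧
  (∀ p π O, F.Unif l p π → F.Over l p O → π ≠ 0 ∧ π ∈ O.nonunits) ∧
  (∀ p π (n : ℤ) a, F.Unif l p π → (∀ O, IsPlace O → F.Over l p O → a / π ^ n ∈ O) →
    F.Bd l p n a) ∧
  (∀ p π, F.Unif l p π → ∃ a₀ : ℕ, ∀ (σ : Type) [Fintype σ] (δ : ℝ[X]) (k : ℕ) (ξ ξ' : σ → K) O,
    F.Over l p O → Jet k (F.X0 l δ ξ') p (F.X0 l δ ξ) → ∀ s, (ξ s - ξ' s) * π ^ a₀ / π ^ k ∈ O)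

def S_Pl2 : Prop := ∀ (K : Type) [Field K] [Algebra ℝ K] (F : FF K) (l : ℝ) (p : ℂ) (π : K),
  0 < l → F.Unif l p π → {O | IsPlace O ∧ F.Over l p O}.Finite ∧
    ∀ (x : ValuationSubring K → K) (N : ℕ), ∃ a, ∀ O, IsPlace O → F.Over l p O →
      (a - x O) / π ^ N ∈ O

/-- Completions. -/
def S_Kv : Prop := ∀ (K : Type) [Field K] [Algebra ℝ K] (O : ValuationSubring K), PointlessFF K →
  IsPlace O →
  (∀ y ∈ O.nonunits, y ≠ 0 → ∀ a : K, a ≠ 0 → ∃ N : ℕ, y ^ N / a ∈ O) ∧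
  (∃ I : O.valuation.Completion, I ^ 2 = -1) ∧
  (∀ b, b ≠ 0 → ∀ x, {y | Cl O b y x} ∈ 𝓝 x) ∧
  (∀ (x : O.valuation.Completion), ∀ N ∈ 𝓝 x, ∃ b, b ≠ 0 ∧ ∀ y, Cl O b y x → y ∈ N) ∧
  (∀ b a a', b ≠ 0 → (Cl O b (toCpl O a) (toCpl O a') ↔ (a - a') / b ∈ O)) ∧
  (∀ b b' x y, b' ≠ 0 → b / b' ∈ O → Cl O b x y → Cl O b' x y) ∧
  (∀ b x y z, Cl O b x y → Cl O b y z → Cl O b x z) ∧
  (∀ b x y, Cl O b x y → Cl O b y x) ∧
  DenseRange (toCpl O) ∧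
  ∀ (V : Pres K) (N : MvPolynomial V.ι K) (η : V.σ → O.valuation.Completion), N ≠ 0 →
    V.Pt (toCpl O) η → ∀ 𝒩 ∈ 𝓝 η, ∃ η' ∈ 𝒩, V.Pt (toCpl O) η' ∧
      N.eval₂ (toCpl O) (η' ∘ V.fr) ≠ 0

/-- Approximate solutions give germs of sections; symmetric rational sections give points. -/
def S_Germ : Prop := ∀ (K : Type) [Field K] [Algebra ℝ K] (F : FF K) (V : Pres K) (δ : ℝ[X])
  (l : ℝ) (f : ℂ × ((ℂ × ℂ) × (V.σ → ℂ)) → V.κ → ℂ), 0 < l → Cov (cx F.Q) F.d (cx1 δ) →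
    SprEq F V δ f → ∀ (p : ℂ) (a k : ℕ), ∃ N : ℕ, ∀ ξ : V.σ → K,
      (∀ s, F.Bd l p (-a) (ξ s)) → (∀ i, F.Bd l p N (MvPolynomial.eval ξ (V.F i))) →
      ∃ σ, Germ (F.RR l V δ) id σ p ∧ Jet k (F.X0 l δ ξ) p σ ∧
        (‖p‖ = 1 → ∀ᶠ z in 𝓝[≠] p, σ (rfl1 z) = star (σ z))

def S_RatK : Prop := ∀ (K : Type) [Field K] [Algebra ℝ K] (F : FF K) (V : Pres K) (δ : ℝ[X])
  (l : ℝ) (S : ℂ → ℂ × ((Fin F.d → V.σ → ℂ) × ℂ)), 0 < l → Rat (F.RR l V δ) S →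
    (∀ᶠ z in cofinite, S (rfl1 z) = star (S z)) →
    ∃ ξ : V.σ → K, V.Pt (RingHom.id K) ξ ∧ ∀ᶠ z in cofinite, S z = F.X0 l δ ξ z

/-- A point over every extension containing a square root of `-1`. -/
def S_Unw : Prop := ∀ (K : Type) [Field K] [Algebra ℝ K] (F : FF K) (m : ℕ)
  (V : Fin (m + 1) → Pres K) (D : KU V), evD fun δ => ∀ l : ℝ, 0 < l → GHS (F.RR l D.U δ) →
    ∀ (L : Type) [Field L] (j : K →+* L) (I : L), I ^ 2 = -1 → ∃ i η, (V i).Pt j η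

/-- The theorem in coordinates. -/
def S_K : Prop := ∀ (K 𝓕 : Type) [Field K] [Algebra ℝ K] [Field 𝓕] (jF : K →+* 𝓕) (m : ℕ)
  (V : Fin (m + 1) → Pres K) (g : ∀ i, (V i).σ → 𝓕), PointlessFF K → Atlas jF V g → ARc (V 0) →
    ThmK jF g

end

end Pool.Agent.P.MP_daea48_ag
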