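import Pool.Agent.P.MP_daea48_ag.Step1

/-! One gluing step: to a larger disc, to the sphere, to the mirror image. -/

open Set Filter Topology Metric Polynomial Asymptotics
open scoped ComplexConjugate

namespace Pool.Agent.P.MP_daea48_ag

noncomputable section

open Classical

namespace Step

variable {E E' : Type} [NormedAddCommGroup E] [NormedSpace ℂ E] [FiniteDimensional ℂ E]
  [NormedAddCommGroup E'] [NormedSpace ℂ E'] {U : Set (ℂ × E)} {pr : E →L[ℂ] E'}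

theorem part1 {T : TC U pr} {S₁ : ℂ → E} {𝒞 : (ℂ → E) → Prop} {r ra : ℝ} (hc : Cores T S₁ 𝒞 r)
    (hra : ra < r) (rb r'' R : ℝ) (q : ℂ[X]) (h1 : r < r'') (h2 : r'' < R) (h3 : R < rb)
    (hq : q ≠ 0) (hS₁ : Sec U S₁ (ann ra rb)) :
    ∃ S, Sec U S (ball 0 R) ∧ 𝒞 S ∧ ∀ z, r'' ≤ ‖z‖ → ‖z‖ < R → AnalyticAt ℂ S₁ z →
      AnalyticAt ℂ S z ∧ ‖S z - S₁ z‖ ≤ ‖q.eval z‖ := by
  obtain ⟨W, hW, -, hWb⟩ := weight T (isCompact_cann r R) (S := S₁)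
    (fun z hz => (hS₁ z ⟨hra.trans_le hz.1, hz.2.trans_lt h3⟩).1) hq
  obtain ⟨s, δ, hδ, a1, a2, a3, hcore⟩ := hc r'' h1 W hW
  obtain ⟨S, β, hS, hC, hout⟩ := hcore (ball 0 R) (fun z => W.eval z) (fun _ _ => 0) 0 isOpen_ball
    (ball_subset_ball (by linarith))
    (fun z hz => hS₁ z ⟨by linarith [show s - δ < ‖z‖ from hz.2],
      (mem_ball_zero_iff.1 hz.1).trans h3⟩)
    (fun z _ => W.differentiable.analyticAt z) a3
    (fun z hz hz' ha => (hWb z ⟨by linarith, (mem_ball_zero_iff.1 hz).le⟩ ha).1)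
    (fun _ _ _ _ _ _ _ => by simp) (fun _ _ _ _ => analyticAt_const)
    (fun _ _ _ _ _ _ _ => by simp) 1 one_pos le_rfl
  refine ⟨S, hS, hC, fun z b1 b2 ha => ?_⟩
  obtain ⟨h4, h5, -⟩ := hout z (mem_ball_zero_iff.2 b2) (by linarith) ha
  refine ⟨h4, le_of_mul_le_mul_left (h5.trans ?_) (T.rho_pos (z, S₁ z))⟩
  rw [one_mul]
  exact (hWb z ⟨by linarith, b2.le⟩ ha).2

theorem far {p : ℂ → Prop} (h : ∀ᶠ z in 𝓝[≠] (0 : ℂ), p z) : ∃ R : ℝ, ∀ z, R ≤ ‖z‖ → p z⁻¹ := by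
  obtain ⟨R, -, hR⟩ := hasBasis_cobounded_norm.eventually_iff.1 (tendsto_inv₀_cobounded'.eventually h)
  exact ⟨R, fun z hz => hR hz⟩

theorem near (R : ℝ) : ∀ᶠ z in 𝓝[≠] (0 : ℂ), R ≤ ‖z⁻¹‖ :=
  (tendsto_inv₀_nhdsNE_zero (α := ℂ)).eventually (p := fun x => R ≤ ‖x‖)
    (eventually_cobounded_le_norm R)

theorem part2 {T : TC U pr} {S₁ : ℂ → E} {𝒞 : (ℂ → E) → Prop} {r ra : ℝ} (hc : Cores T S₁ 𝒞 r)
    (hr : 0 < r) (hra : ra < r) (hS₁ : Sec U S₁ {z | ra < ‖z‖})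
    (hg : Germ U (fun z => z⁻¹) (fun z => S₁ z⁻¹) 0) : ∃ S, Rat U S ∧ 𝒞 S := by
  obtain ⟨C, n, hC1, hbd⟩ := mero_bound hg.1
  obtain ⟨R₂, hR₂⟩ := far (hbd.and hg.1.eventually_analyticAt)
  set R₁ : ℝ := max R₂ 1 with hR₁
  have hfar : ∀ z : ℂ, R₁ ≤ ‖z‖ → AnalyticAt ℂ S₁ z ∧ ‖S₁ z‖ ≤ C * ‖z‖ ^ n := by
    intro z hz
    obtain ⟨h1, h2⟩ := hR₂ z ((le_max_left _ _).trans hz)
    have hz1 : 1 ≤ ‖z‖ := (le_max_right _ _).trans hz
    have hz0 : z ≠ 0 := by rintro rfl; norm_num at hz1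
    constructor
    · have := AnalyticAt.comp (g := fun z => S₁ z⁻¹) (f := fun x : ℂ => x⁻¹) h2 (analyticAt_inv hz0)
      simpa [Function.comp_def] using this
    · simpa [div_eq_mul_inv] using h1
  obtain ⟨W, hW, -, hWb⟩ := weight T (isCompact_cann r R₁) (S := S₁)
    (fun z hz => (hS₁ z (hra.trans_le hz.1)).1) one_ne_zero
  obtain ⟨Cw, N, hCw, hN⟩ := (Tame.id'.polyEval W).bound
  have hc0 := T.c_pos
  set j : ℕ := N + (n + 1) * (2 * T.A) with hj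
  set C₂ : ℝ := Cw * 2 ^ N * (2 + C) ^ (2 * T.A) / T.c ^ 2 with hC₂
  have hC₂0 : 0 < C₂ := by positivity
  have hfar2 : ∀ z : ℂ, R₁ ≤ ‖z‖ → ‖W.eval z‖ ≤ C₂ * ‖z‖ ^ j * T.rho (z, S₁ z) ^ 2 := by
    intro z hz
    have hz1 : 1 ≤ ‖z‖ := (le_max_right _ _).trans hz
    have h1 := (hfar z hz).2
    have h2 : 1 + ‖((z, S₁ z) : ℂ × E)‖ ≤ (2 + C) * ‖z‖ ^ (n + 1) := by
      have b1 : (1 : ℝ) ≤ ‖z‖ ^ (n + 1) := one_le_pow₀ hz1
      have b2 : ‖z‖ ≤ ‖z‖ ^ (n + 1) := le_self_pow₀ hz1 n.succ_ne_zero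
      have b3 : C * ‖z‖ ^ n ≤ C * ‖z‖ ^ (n + 1) := by gcongr; exact n.le_succ
      have b4 : ‖((z, S₁ z) : ℂ × E)‖ ≤ ‖z‖ + ‖S₁ z‖ := by
        rw [Prod.norm_mk]
        exact max_le (by linarith [norm_nonneg (S₁ z)]) (by linarith [norm_nonneg z])
      linarith
    have hopn := opn_pos ((z, S₁ z) : ℂ × E)
    have e : T.rho (z, S₁ z) ^ 2 = T.c ^ 2 / (1 + ‖((z, S₁ z) : ℂ × E)‖) ^ (2 * T.A) := by
      rw [TC.rho, rad, div_pow, ← pow_mul, mul_comm T.A 2]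
    rw [e, ← mul_div_assoc, le_div_iff₀ (by positivity)]
    calc ‖W.eval z‖ * (1 + ‖((z, S₁ z) : ℂ × E)‖) ^ (2 * T.A)
        ≤ (Cw * (2 * ‖z‖) ^ N) * ((2 + C) * ‖z‖ ^ (n + 1)) ^ (2 * T.A) := by
          gcongr
          refine (hN z).trans ?_
          gcongr
          linarith
      _ = _ := by
          rw [hC₂, hj, mul_pow, mul_pow, ← pow_mul, pow_add]
          field_simp
  set c₁ : ℝ := min (r ^ j) C₂⁻¹ with hc₁
  have hc₁0 : 0 < c₁ := lt_min (by positivity) (by positivity)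
  have hnorm : ∀ z : ℂ, ‖(c₁ : ℂ) * W.eval z / z ^ j‖ = c₁ * ‖W.eval z‖ / ‖z‖ ^ j := by
    intro z
    rw [norm_div, norm_mul, norm_pow, Complex.norm_real, Real.norm_eq_abs, abs_of_pos hc₁0]
  have hωb : ∀ z : ℂ, r ≤ ‖z‖ → AnalyticAt ℂ S₁ z →
      ‖(c₁ : ℂ) * W.eval z / z ^ j‖ ≤ T.rho (z, S₁ z) ^ 2 := by
    intro z hz ha
    have hz0 : 0 < ‖z‖ := hr.trans_le hz
    rw [hnorm, div_le_iff₀ (by positivity)]
    rcases le_total ‖z‖ R₁ with h | h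
    · calc c₁ * ‖W.eval z‖ ≤ ‖z‖ ^ j * T.rho (z, S₁ z) ^ 2 := by
            gcongr
            · exact (min_le_left _ _).trans (by gcongr)
            · exact (hWb z ⟨hz, h⟩ ha).1
        _ = _ := mul_comm _ _
    · calc c₁ * ‖W.eval z‖ ≤ C₂⁻¹ * (C₂ * ‖z‖ ^ j * T.rho (z, S₁ z) ^ 2) := by
            gcongr
            · exact min_le_right _ _
            · exact hfar2 z h
        _ = _ := by field_simp
  obtain ⟨s, δ, hδ, a1, -, a3, hcore⟩ := hc (r + 1) (lt_add_one r) W hW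
  obtain ⟨S, β, hS, hC, hout⟩ := hcore univ (fun z => (c₁ : ℂ) * W.eval z / z ^ j) (fun _ _ => 0) 0
    isOpen_univ (subset_univ _)
    (fun z hz => hS₁ z (show ra < ‖z‖ by linarith [show s - δ < ‖z‖ from hz.2]))
    (fun z hz => (analyticAt_const.mul (W.differentiable.analyticAt z)).div
      (analyticAt_id.pow j) (pow_ne_zero _ hz))
    (fun z hz => div_ne_zero (mul_ne_zero (by exact_mod_cast hc₁0.ne') (a3 z hz))
      (pow_ne_zero _ (norm_pos_iff.1 (by linarith [hz.1]))))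
    (fun z _ hz ha => hωb z (by linarith) ha)
    (fun _ _ _ _ _ _ _ => by simp) (fun _ _ _ _ => analyticAt_const)
    (fun _ _ _ _ _ _ _ => by simp) 1 one_pos le_rfl
  have hfar3 : ∀ z : ℂ, max R₁ (s + δ) ≤ ‖z‖ →
      AnalyticAt ℂ S₁ z ∧ AnalyticAt ℂ S z ∧ ‖S z - S₁ z‖ ≤ 1 := by
    intro z hz
    have b1 := (le_max_left _ _).trans hz
    have b2 := (le_max_right _ _).trans hz
    have ha := (hfar z b1).1
    obtain ⟨h4, h5, -⟩ := hout z (mem_univ z) (by linarith) ha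
    refine ⟨ha, h4, le_of_mul_le_mul_left (h5.trans ?_) (T.rho_pos (z, S₁ z))⟩
    rw [one_mul, mul_one]
    exact (hωb z (by linarith) ha).trans (T.rho_sq_le _)
  refine ⟨S, ⟨fun z hz => (hS z hz).1, ?_, ?_⟩, hC⟩
  · have : MeromorphicAt (fun z => S z⁻¹ - S₁ z⁻¹) 0 := by
      refine mero_of_bound (C := 1) (j := 0) ?_
      filter_upwards [near (max R₁ (s + δ)), self_mem_nhdsWithin] with z hz hz0
      obtain ⟨b1, b2, b3⟩ := hfar3 _ hz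
      refine ⟨?_, by simpa using b3⟩
      exact (AnalyticAt.comp (g := fun x => S x - S₁ x) (f := fun x : ℂ => x⁻¹) (b2.sub b1)
        (analyticAt_inv hz0)).differentiableAt
    exact (this.add hg.1).congr (Eventually.of_forall fun z => by simp)
  · have hfin := finite_of_punctured (isCompact_closedBall (0 : ℂ) (max R₁ (s + δ)))
      (p := fun z => (z, S z) ∈ U) fun x _ => (hS x (mem_univ x)).2
    refine hfin.subset fun z hz => ⟨?_, hz⟩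
    by_contra h
    rw [mem_closedBall_zero_iff, not_le] at h
    exact hz (T.mem_of_germ continuousAt_id (hS z (mem_univ z)) (hfar3 z h.le).2.1.continuousAt)

theorem norm_rfl1_sub {z a : ℂ} (hz : z ≠ 0) (ha : ‖a‖ = 1) : ‖rfl1 z - a‖ * ‖z‖ = ‖z - a‖ := by
  have h1 : conj z ≠ 0 := by simpa using hz
  have h2 : a * conj a = 1 := by rw [Complex.mul_conj', ha]; simp
  have e : (rfl1 z - a) * conj z = - a * conj (z - a) := by
    rw [rfl1, sub_mul, inv_mul_cancel₀ h1, map_sub, mul_sub, neg_mul a (conj a), h2]; ring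
  have := congrArg norm e
  rwa [norm_mul, norm_mul, norm_neg, ha, one_mul, Complex.norm_conj, Complex.norm_conj] at this

theorem norm_eval_rfl1 {W : ℂ[X]} (hW : W ≠ 0) (h : ∀ z, W.eval z = 0 → ‖z‖ = 1) :
    ∃ N : ℕ, ∀ z, z ≠ 0 → ‖W.eval (rfl1 z)‖ * ‖z‖ ^ N = ‖W.eval z‖ := by
  refine ⟨W.roots.card, fun z hz => ?_⟩
  have key : ∀ m : Multiset ℂ, (∀ a ∈ m, ‖a‖ = 1) →
      ‖(m.map (rfl1 z - ·)).prod‖ * ‖z‖ ^ m.card = ‖(m.map (z - ·)).prod‖ := by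
    intro m
    induction m using Multiset.induction_on with
    | empty => simp
    | cons a m ih =>
      intro hm
      rw [Multiset.map_cons, Multiset.map_cons, Multiset.prod_cons, Multiset.prod_cons,
        Multiset.card_cons, norm_mul, norm_mul, ← ih fun b hb => hm b (Multiset.mem_cons_of_mem hb),
        ← norm_rfl1_sub hz (hm a (Multiset.mem_cons_self _ _))]
      ring
  rw [(IsAlgClosed.splits W).eval_eq_prod_roots, (IsAlgClosed.splits W).eval_eq_prod_roots z,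
    norm_mul, norm_mul, mul_assoc, key _ fun a ha => h a ((mem_roots hW).1 ha)]

theorem part3 [FiniteDimensional ℂ E'] {T : TC U pr} {S₁ : ℂ → E} {𝒞 : (ℂ → E) → Prop} {r ra : ℝ}
    (hc : Cores T S₁ 𝒞 r) (hra0 : 0 < ra) (hra : ra < r) (J : E →L⋆[ℂ] E) (J' : E' →L⋆[ℂ] E')
    (P : Finset ℂ) (k : ℕ) (hJ : RealStr U pr J J') (hr1 : r < 1) (hP : ∀ p ∈ P, ‖p‖ = 1)
    (hS₁ : Sec U S₁ (ann ra ra⁻¹))
    (hsym : ∀ z ∈ ann ra ra⁻¹, z ∉ P → AnalyticAt ℂ S₁ z ∧ S₁ (rfl1 z) = J (S₁ z)) :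
    ∃ r'' S, r < r'' ∧ r'' < 1 ∧ Sec U S (ball 0 r''⁻¹) ∧ 𝒞 S ∧ (∀ p ∈ P, Jet k S₁ p S) ∧
      ∀ z ∈ ann r'' r''⁻¹, z ∉ P → S (rfl1 z) = J (S z) := by
  have hr : 0 < r := hra0.trans hra
  have hsub : cann r r⁻¹ ⊆ ann ra ra⁻¹ := fun z hz =>
    ⟨hra.trans_le hz.1, hz.2.trans_lt (inv_strictAnti₀ hra0 hra)⟩
  set q₀ : ℂ[X] := ∏ p ∈ P, (X - C p) ^ k with hq₀
  have hq₀0 : q₀ ≠ 0 := Finset.prod_ne_zero_iff.2 fun p _ => pow_ne_zero _ (X_sub_C_ne_zero p)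
  obtain ⟨W, hW, hWz, hWb⟩ := weight T (isCompact_cann r r⁻¹) (S := S₁)
    (fun z hz => (hS₁ z (hsub hz)).1) hq₀0
  obtain ⟨N, hN⟩ := norm_eval_rfl1 hW (by
    intro z hz
    rcases hWz z hz with h | h
    · rw [hq₀, eval_prod, Finset.prod_eq_zero_iff] at h
      obtain ⟨p, hp, h0⟩ := h
      simp only [eval_pow, eval_sub, eval_X, eval_C] at h0
      rw [sub_eq_zero.1 (pow_eq_zero_iff (by rintro h; simp [h] at h0) |>.1 h0)]
      exact hP p hp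
    · by_contra h1
      exact h.2 (hsym z (hsub h.1) fun hp => h1 (hP z hp)).1)
  obtain ⟨s, δ, hδ, a1, a2, a3, hcore⟩ := hc 1 hr1 W hW
  set r'' : ℝ := s + δ / 2 with hr''
  have b1 : r < r'' := by linarith
  have b2 : r'' < 1 := by linarith
  have b0 : 0 < r'' := hr.trans b1
  have b3 : 1 < r''⁻¹ := (one_lt_inv₀ b0).2 b2
  have b4 : r''⁻¹ < r⁻¹ := inv_strictAnti₀ hr b1
  have hK : ∀ z ∈ ball (0 : ℂ) r''⁻¹, r ≤ ‖z‖ → z ∈ cann r r⁻¹ := fun z hz hz' =>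
    ⟨hz', ((mem_ball_zero_iff.1 hz).trans b4).le⟩
  have hrf : ∀ z ∈ ball (0 : ℂ) r''⁻¹, r ≤ ‖z‖ → r'' < ‖rfl1 z‖ := fun z hz hz' => by
    rw [norm_rfl1]
    exact (lt_inv_comm₀ b0 (hr.trans_le hz')).2 (mem_ball_zero_iff.1 hz)
  set κ : ℝ := (1 + r⁻¹) ^ T.A with hκ
  have hκ1 : 1 ≤ κ := one_le_pow₀ (by linarith [inv_pos.2 hr])
  have hκ0 : 0 < κ := by positivity
  have hη1 : (2 * κ)⁻¹ < 1 := inv_lt_one_of_one_lt₀ (by linarith)
  obtain ⟨S, β, hS, hC, hout⟩ := hcore (ball 0 r''⁻¹) (fun z => W.eval z)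
    (fun β z => J' (β (rfl1 z))) (r⁻¹ ^ N) isOpen_ball (ball_subset_ball (by linarith))
    (fun z hz => hS₁ z (hsub (hK z hz.1 (by linarith [show s - δ < ‖z‖ from hz.2]))))
    (fun z _ => W.differentiable.analyticAt z) a3
    (fun z hz hz' ha => (hWb z (hK z hz (by linarith)) ha).1)
    (fun _ _ _ _ _ _ _ => map_sub _ _ _)
    (fun β hβ z hz => by
      have h1 : r ≤ ‖z‖ := by linarith [show s - δ < ‖z‖ from hz.2]
      exact analyticAt_rfl1 J' (norm_pos_iff.1 (hr.trans_le h1)) (hβ _ (hrf z hz.1 h1)))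
    (fun β M _ hM z hz hz' => by
      have h1 : r ≤ ‖z‖ := by linarith
      have h2 := hM _ (hrf z hz h1)
      have h3 : 0 ≤ M * ‖W.eval (rfl1 z)‖ := (norm_nonneg _).trans h2
      have h4 : 1 ≤ (r⁻¹ * ‖z‖) ^ N := one_le_pow₀ (by rw [inv_mul_eq_div, one_le_div hr]; exact h1)
      rw [hJ.norm', ← hN z (norm_pos_iff.1 (hr.trans_le h1))]
      calc ‖β (rfl1 z)‖ ≤ (r⁻¹ * ‖z‖) ^ N * (M * ‖W.eval (rfl1 z)‖) :=
            h2.trans (le_mul_of_one_le_left h3 h4)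
        _ = _ := by rw [mul_pow]; ring)
    (2 * κ)⁻¹ (by positivity) hη1.le
  refine ⟨r'', S, b1, b2, hS, hC, fun p hp => ?_, fun z hz hzP => ?_⟩
  · have h1 : ∀ᶠ z in 𝓝[≠] p, ‖S z - S₁ z‖ ≤ 1 * ‖q₀.eval z‖ := by
      have h2 : ∀ᶠ z in 𝓝 p, z ∈ ball (0 : ℂ) r''⁻¹ :=
        isOpen_ball.mem_nhds (by rw [mem_ball_zero_iff, hP p hp]; exact b3)
      have h3 : ∀ᶠ z in 𝓝 p, r'' < ‖z‖ :=
        ContinuousAt.eventually_lt continuousAt_const continuous_norm.continuousAt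
          (by rw [hP p hp]; exact b2)
      have h4 := (hS₁ p (hsub ⟨by rw [hP p hp]; exact hr1.le,
        by rw [hP p hp]; exact (b3.trans b4).le⟩)).1.eventually_analyticAt
      filter_upwards [nhdsWithin_le_nhds h2, nhdsWithin_le_nhds h3, h4] with z c1 c2 c3
      obtain ⟨-, h5, -⟩ := hout z c1 c2 c3
      rw [one_mul]
      refine le_of_mul_le_mul_left (h5.trans ?_) (T.rho_pos (z, S₁ z))
      exact (mul_le_of_le_one_left (norm_nonneg _) hη1.le).trans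
        (hWb z (hK z c1 (b1.trans c2).le) c3).2
    refine (IsBigO.of_bound 1 h1).trans ?_
    have e : (fun z => q₀.eval z) = fun z => (∏ x ∈ P.erase p, (X - C x) ^ k).eval z * (z - p) ^ k := by
      funext z
      rw [hq₀, ← Finset.prod_erase_mul _ _ hp, eval_mul]; simp
    rw [e]
    have h6 : (fun z => (∏ x ∈ P.erase p, (X - C x) ^ k).eval z) =O[𝓝[≠] p] fun _ => (1 : ℂ) :=
      ((Polynomial.continuous _).continuousAt.tendsto.mono_left nhdsWithin_le_nhds).isBigO_one ℂ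
    simpa using h6.mul (isBigO_refl (fun z => (z - p) ^ k) (𝓝[≠] p))
  · have hz1 : z ∈ ball (0 : ℂ) r''⁻¹ := mem_ball_zero_iff.2 hz.2
    have hzr : r ≤ ‖z‖ := (b1.trans hz.1).le
    have hzn : 0 < ‖z‖ := hr.trans_le hzr
    have hz0 : z ≠ 0 := norm_pos_iff.1 hzn
    have hw2 : r'' < ‖rfl1 z‖ := hrf z hz1 hzr
    have hw1 : rfl1 z ∈ ball (0 : ℂ) r''⁻¹ := by
      rw [mem_ball_zero_iff, norm_rfl1]
      exact inv_strictAnti₀ b0 hz.1
    have hwr : r ≤ ‖rfl1 z‖ := (b1.trans hw2).le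
    have hwP : rfl1 z ∉ P := fun h => hzP (by
      rw [← rfl1_rfl1 z, rfl1_of_norm_one (hP _ h)]; exact h)
    obtain ⟨ha, hs⟩ := hsym z (hsub (hK z hz1 hzr)) hzP
    obtain ⟨ha', -⟩ := hsym _ (hsub (hK _ hw1 hwr)) hwP
    obtain ⟨c1, c2, c3⟩ := hout z hz1 hz.1 ha
    obtain ⟨d1, d2, d3⟩ := hout _ hw1 hw2 ha'
    have hu : (rfl1 z, S₁ (rfl1 z)) ∈ U :=
      T.mem_of_germ continuousAt_id (hS₁ _ (hsub (hK _ hw1 hwr))) ha'.continuousAt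
    have hu1 : (rfl1 z, S (rfl1 z)) ∈ U := T.mem_of_germ continuousAt_id (hS _ hw1) d1.continuousAt
    have hu2 : (rfl1 z, J (S z)) ∈ U :=
      hJ.mem z _ hz0 (T.mem_of_germ continuousAt_id (hS _ hz1) c1.continuousAt)
    have hsmall : ∀ x ∈ ball (0 : ℂ) r''⁻¹, r ≤ ‖x‖ → AnalyticAt ℂ S₁ x →
        T.rho (x, S₁ x) * ‖S x - S₁ x‖ ≤ (2 * κ)⁻¹ * ‖W.eval x‖ →
        ‖S x - S₁ x‖ ≤ (2 * κ)⁻¹ * T.rho (x, S₁ x) := by
      intro x h1 h2 h3 h4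
      refine le_of_mul_le_mul_left (h4.trans ?_) (T.rho_pos (x, S₁ x))
      calc (2 * κ)⁻¹ * ‖W.eval x‖ ≤ (2 * κ)⁻¹ * T.rho (x, S₁ x) ^ 2 := by
            gcongr
            exact (hWb x (hK x h1 h2) h3).1
        _ = _ := by ring
    have hρ := T.rho_pos (rfl1 z, S₁ (rfl1 z))
    have hcmp : T.rho (z, S₁ z) ≤ κ * T.rho (rfl1 z, S₁ (rfl1 z)) := by
      have e1 := opn_pos ((z, S₁ z) : ℂ × E)
      have e2 := opn_pos ((rfl1 z, S₁ (rfl1 z)) : ℂ × E)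
      have e3 : 1 + ‖((rfl1 z, S₁ (rfl1 z)) : ℂ × E)‖ ≤ (1 + r⁻¹) * (1 + ‖((z, S₁ z) : ℂ × E)‖) := by
        have e4 : ‖((rfl1 z, S₁ (rfl1 z)) : ℂ × E)‖ ≤ r⁻¹ + ‖((z, S₁ z) : ℂ × E)‖ := by
          rw [Prod.norm_mk]
          refine max_le ?_ ?_
          · rw [norm_rfl1]
            linarith [inv_anti₀ hr hzr, norm_nonneg ((z, S₁ z) : ℂ × E)]
          · rw [hs, hJ.norm]
            linarith [inv_pos.2 hr, norm_snd_le ((z, S₁ z) : ℂ × E)]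
        nlinarith [mul_nonneg (inv_pos.2 hr).le (norm_nonneg ((z, S₁ z) : ℂ × E))]
      have hc0 := T.c_pos
      rw [TC.rho, TC.rho, rad, rad, ← mul_div_assoc, div_le_div_iff₀ (by positivity) (by positivity),
        hκ]
      calc T.c * (1 + ‖((rfl1 z, S₁ (rfl1 z)) : ℂ × E)‖) ^ T.A
          ≤ T.c * ((1 + r⁻¹) * (1 + ‖((z, S₁ z) : ℂ × E)‖)) ^ T.A := by gcongr
        _ = _ := by rw [mul_pow]; ring
    have key := T.inj hu hu1 hu2 (by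
        rw [Prod.mk_sub_mk, sub_self, Prod.norm_mk, norm_zero, max_eq_right (norm_nonneg _)]
        exact (hsmall _ hw1 hwr ha' d2).trans_lt (mul_lt_of_lt_one_left hρ hη1))
      (by
        rw [Prod.mk_sub_mk, sub_self, Prod.norm_mk, norm_zero, max_eq_right (norm_nonneg _)]
        calc ‖J (S z) - S₁ (rfl1 z)‖ = ‖S z - S₁ z‖ := by rw [hs, ← map_sub, hJ.norm]
          _ ≤ (2 * κ)⁻¹ * T.rho (z, S₁ z) := hsmall z hz1 hzr ha c2
          _ ≤ (2 * κ)⁻¹ * (κ * T.rho (rfl1 z, S₁ (rfl1 z))) := by gcongr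
          _ = T.rho (rfl1 z, S₁ (rfl1 z)) / 2 := by field_simp
          _ < _ := half_lt_self hρ)
      (by
        rw [pj_mk, pj_mk, d3, hJ.comm, c3, hs, hJ.comm, map_add, map_add, hJ.inv', rfl1_rfl1]
        congr 1
        abel)
    exact congrArg Prod.snd key

end Step

open Step in
theorem Step_of (h1 : S_G) : S_Step := by
  intro E _ _ _ E' _ _ _ L _ _ _ U pr T lab hbr K _ hK
  obtain ⟨ε, hε, h⟩ := cores h1 T lab hbr hK
  refine ⟨ε, hε, fun 𝒞 r R₀ ra S₀ S₁ hra0 hra hrR hst hS₀ hC hsph => ?_⟩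
  have hc := h 𝒞 r R₀ S₀ S₁ (hra0.trans hra) hrR hst hS₀ hC hsph
  exact ⟨part1 hc hra, part2 hc (hra0.trans hra) hra, part3 hc hra0 hra⟩

end

end Pool.Agent.P.MP_daea48_ag
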