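import Pool.Agent.P.MP_daea48_ag.StA

/-! One gluing step: weights, thin annuli, the common core. -/

open Set Filter Topology Metric Polynomial Asymptotics
open scoped ComplexConjugate

namespace Pool.Agent.P.MP_daea48_ag

noncomputable section

open Classical

namespace Step

theorem isCompact_cann (a b : ℝ) : IsCompact (cann a b) := by
  have : cann a b = {z : ℂ | a ≤ ‖z‖} ∩ closedBall 0 b := by
    ext z; simp [cann]
  rw [this]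
  exact (isCompact_closedBall _ _).inter_left (isClosed_le continuous_const continuous_norm)

/-- An open condition along a circle holds on a thin annulus. -/
theorem sphere_thick {r : ℝ} {p : ℂ → Prop} (h : ∀ z₀ ∈ sphere (0 : ℂ) r, ∀ᶠ z in 𝓝 z₀, p z) :
    ∃ t > r, ∀ z, r ≤ ‖z‖ → ‖z‖ < t → p z := by
  set F := cann r (r + 1) ∩ (interior {z | p z})ᶜ with hF
  have hFc : IsCompact F := (isCompact_cann _ _).inter_right isOpen_interior.isClosed_compl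
  rcases F.eq_empty_or_nonempty with h0 | h0
  · refine ⟨r + 1, lt_add_one r, fun z h1 h2 => ?_⟩
    by_contra hp
    have : z ∈ F := ⟨⟨h1, h2.le⟩, fun h3 => hp (interior_subset h3)⟩
    rw [h0] at this
    exact this
  · obtain ⟨w, hw, hmin⟩ := hFc.exists_isMinOn h0 continuous_norm.continuousOn
    refine ⟨‖w‖, lt_of_le_of_ne hw.1.1 fun e => hw.2 ?_, fun z h1 h2 => ?_⟩
    · exact mem_interior_iff_mem_nhds.2 (h w (by simp [← e]))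
    · by_contra hp
      have : z ∈ F := ⟨⟨h1, h2.le.trans hw.1.2⟩, fun h3 => hp (interior_subset h3)⟩
      exact absurd (hmin this) (not_le.2 h2)

/-- A thin annulus free of zeros. -/
theorem exists_thin {r t : ℝ} (h : r < t) {W : ℂ[X]} (hW : W ≠ 0) :
    ∃ s δ : ℝ, 0 < δ ∧ r < s - δ ∧ s + δ < t ∧ ∀ z ∈ cann (s - δ) (s + δ), W.eval z ≠ 0 := by
  have hf : ((fun z : ℂ => ‖z‖) '' {z | W.IsRoot z}).Finite := (W.finite_setOfPred_isRoot hW).image _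
  obtain ⟨s, hs, hs'⟩ := ((Set.Ioo_infinite h).sdiff hf).nonempty
  have ho : IsOpen (Ioo r t \ (fun z : ℂ => ‖z‖) '' {z | W.IsRoot z}) :=
    isOpen_Ioo.sdiff hf.isClosed
  obtain ⟨δ, hδ, hb⟩ := nhds_basis_closedBall.mem_iff.1 (ho.mem_nhds ⟨hs, hs'⟩)
  rw [Real.closedBall_eq_Icc] at hb
  refine ⟨s, δ, hδ, (hb ⟨le_rfl, by linarith⟩).1.1, (hb ⟨by linarith, le_rfl⟩).1.2,
    fun z hz h0 => (hb hz).2 ⟨z, h0, rfl⟩⟩

theorem exists_lower {K : Set ℂ} (hK : IsCompact K) {f : ℂ → ℂ} (hf : ContinuousOn f K)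
    (h0 : ∀ z ∈ K, f z ≠ 0) : ∃ c > 0, ∀ z ∈ K, c ≤ ‖f z‖ := by
  rcases K.eq_empty_or_nonempty with h | h
  · exact ⟨1, one_pos, by simp [h]⟩
  · obtain ⟨w, hw, hmin⟩ := hK.exists_isMinOn h hf.norm
    exact ⟨‖f w‖, norm_pos_iff.2 (h0 w hw), fun z hz => hmin hz⟩

variable {E E' : Type} [NormedAddCommGroup E] [NormedSpace ℂ E] [FiniteDimensional ℂ E]
  [NormedAddCommGroup E'] [NormedSpace ℂ E'] {U : Set (ℂ × E)} {pr : E →L[ℂ] E'}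

/-- A polynomial weight below the square of the chart radius. -/
theorem weight (T : TC U pr) {K : Set ℂ} (hK : IsCompact K) {S : ℂ → E} (hS : MeromorphicOn S K)
    {q₀ : ℂ[X]} (hq₀ : q₀ ≠ 0) : ∃ W : ℂ[X], W ≠ 0 ∧
      (∀ z, W.eval z = 0 → q₀.eval z = 0 ∨ (z ∈ K ∧ ¬ AnalyticAt ℂ S z)) ∧
      ∀ z ∈ K, AnalyticAt ℂ S z → ‖W.eval z‖ ≤ T.rho (z, S z) ^ 2 ∧
        ‖W.eval z‖ ≤ T.rho (z, S z) * ‖q₀.eval z‖ := by
  obtain ⟨q, C, hq, hz, hC⟩ := exists_weight hK hS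
  obtain ⟨B, hB⟩ := hK.exists_bound_of_continuousOn (f := fun z => ‖q.eval z‖ * (1 + ‖z‖))
    (by fun_prop)
  obtain ⟨B₀, hB₀⟩ := hK.exists_bound_of_continuousOn (f := fun z => q₀.eval z)
    q₀.continuous.continuousOn
  set C' : ℝ := |B| + |C| + 1 with hC'
  set B' : ℝ := |B₀| + 1 with hB'
  have hC'0 : 0 < C' := by positivity
  have hB'1 : 1 ≤ B' := by linarith [abs_nonneg B₀]
  have hB'0 : 0 < B' := by positivity
  have hc := T.c_pos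
  set a : ℝ := T.c ^ 2 / (C' ^ (2 * T.A) * B') with ha
  have ha0 : 0 < a := by positivity
  refine ⟨Polynomial.C (a : ℂ) * q ^ (2 * T.A) * q₀, ?_, ?_, ?_⟩
  · exact mul_ne_zero (mul_ne_zero (C_ne_zero.2 (by exact_mod_cast ha0.ne')) (pow_ne_zero _ hq)) hq₀
  · intro z h0
    rw [eval_mul, eval_mul, eval_C, eval_pow, mul_eq_zero, mul_eq_zero] at h0
    rcases h0 with (h0 | h0) | h0
    · exact absurd (by exact_mod_cast h0) ha0.ne'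
    · exact Or.inr (hz z (pow_eq_zero_iff (by rintro h; simp [h] at h0) |>.1 h0))
    · exact Or.inl h0
  · intro z hzK han
    have h1 : ‖q.eval z‖ * (1 + ‖((z, S z) : ℂ × E)‖) ≤ C' := by
      have h2 : ‖((z, S z) : ℂ × E)‖ ≤ ‖z‖ + ‖S z‖ := by
        rw [Prod.norm_mk]
        exact max_le (by linarith [norm_nonneg (S z)]) (by linarith [norm_nonneg z])
      have h3 := hB z hzK
      have h4 := hC z hzK han
      rw [Real.norm_eq_abs] at h3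
      calc ‖q.eval z‖ * (1 + ‖((z, S z) : ℂ × E)‖) ≤ ‖q.eval z‖ * (1 + (‖z‖ + ‖S z‖)) := by gcongr
        _ = ‖q.eval z‖ * (1 + ‖z‖) + ‖q.eval z‖ * ‖S z‖ := by ring
        _ ≤ C' := by
          linarith [le_abs_self B, le_abs_self C, le_abs_self (‖q.eval z‖ * (1 + ‖z‖))]
    have hopn := opn_pos ((z, S z) : ℂ × E)
    have h5 : T.c ^ 2 / C' ^ (2 * T.A) * ‖q.eval z‖ ^ (2 * T.A) ≤ T.rho (z, S z) ^ 2 := by
      have e : T.rho (z, S z) ^ 2 = T.c ^ 2 / (1 + ‖((z, S z) : ℂ × E)‖) ^ (2 * T.A) := by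
        rw [TC.rho, rad, div_pow, ← pow_mul, mul_comm T.A 2]
      rw [e, le_div_iff₀ (by positivity), div_mul_eq_mul_div, div_mul_eq_mul_div,
        div_le_iff₀ (by positivity), mul_assoc, ← mul_pow]
      gcongr
    have h6 : ‖q₀.eval z‖ ≤ B' := by linarith [hB₀ z hzK, le_abs_self B₀]
    have e : ‖(Polynomial.C (a : ℂ) * q ^ (2 * T.A) * q₀).eval z‖ =
        T.c ^ 2 / C' ^ (2 * T.A) * ‖q.eval z‖ ^ (2 * T.A) * (‖q₀.eval z‖ / B') := by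
      rw [eval_mul, eval_mul, eval_C, eval_pow, norm_mul, norm_mul, norm_pow, Complex.norm_real,
        Real.norm_eq_abs, abs_of_pos ha0, ha]
      field_simp
    have hr := T.rho_pos (z, S z)
    rw [e]
    constructor
    · calc _ ≤ T.rho (z, S z) ^ 2 * 1 := by
            gcongr
            exact (div_le_one hB'0).2 h6
        _ = _ := mul_one _
    · calc _ ≤ T.rho (z, S z) * ‖q₀.eval z‖ := by
            gcongr
            · exact h5.trans (T.rho_sq_le _)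
            · exact div_le_self (norm_nonneg _) hB'1

/-- The gluing theorem with the inner side already treated. -/
def Core (T : TC U pr) (S₁ : ℂ → E) (𝒞 : (ℂ → E) → Prop) (s δ : ℝ) : Prop :=
  ∀ (Ω : Set ℂ) (ω₁ : ℂ → ℂ) (Λ : (ℂ → E') → ℂ → E') (CΛ : ℝ), IsOpen Ω → ball 0 (s + δ) ⊆ Ω →
    Sec U S₁ (Ω ∩ {z | s - δ < ‖z‖}) → AnalyticOnNhd ℂ ω₁ {z | z ≠ 0} →
    (∀ z ∈ cann (s - δ) (s + δ), ω₁ z ≠ 0) →
    (∀ z ∈ Ω, s - δ < ‖z‖ → AnalyticAt ℂ S₁ z → ‖ω₁ z‖ ≤ T.rho (z, S₁ z) ^ 2) →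
    (∀ β β', AnalyticOnNhd ℂ β {z | s + δ / 2 < ‖z‖} → AnalyticOnNhd ℂ β' {z | s + δ / 2 < ‖z‖} →
      ∀ z ∈ Ω, s - δ < ‖z‖ → Λ (fun x => β x - β' x) z = Λ β z - Λ β' z) →
    (∀ β, AnalyticOnNhd ℂ β {z | s + δ / 2 < ‖z‖} →
      AnalyticOnNhd ℂ (Λ β) (Ω ∩ {z | s - δ < ‖z‖})) →
    (∀ β (M : ℝ), AnalyticOnNhd ℂ β {z | s + δ / 2 < ‖z‖} →
      (∀ z, s + δ / 2 < ‖z‖ → ‖β z‖ ≤ M * ‖ω₁ z‖) →
      ∀ z ∈ Ω, s - δ < ‖z‖ → ‖Λ β z‖ ≤ CΛ * M * ‖ω₁ z‖) →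
    ∀ η > 0, η ≤ 1 → ∃ (S : ℂ → E) (β : ℂ → E'), Sec U S Ω ∧ 𝒞 S ∧
      ∀ z ∈ Ω, s + δ / 2 < ‖z‖ → AnalyticAt ℂ S₁ z →
        AnalyticAt ℂ S z ∧ T.rho (z, S₁ z) * ‖S z - S₁ z‖ ≤ η * ‖ω₁ z‖ ∧
        pr (S z) = pr (S₁ z) + β z + Λ β z

/-- `Core` on thin annuli close to the circle of radius `r`. -/
def Cores (T : TC U pr) (S₁ : ℂ → E) (𝒞 : (ℂ → E) → Prop) (r : ℝ) : Prop :=
  ∀ t > r, ∀ W : ℂ[X], W ≠ 0 → ∃ s δ : ℝ, 0 < δ ∧ r < s - δ ∧ s + δ < t ∧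
    (∀ z ∈ cann (s - δ) (s + δ), W.eval z ≠ 0) ∧ Core T S₁ 𝒞 s δ

theorem cores (hG : S_G) [FiniteDimensional ℂ E'] {L : Type} [NormedAddCommGroup L]
    [NormedSpace ℂ L] [FiniteDimensional ℂ L] (T : TC U pr) (lab : E →L[ℂ] L) (hbr : Br U pr lab)
    {K : Set (ℂ × E)} (hK : IsCompact K) : ∃ ε > 0,
    ∀ (𝒞 : (ℂ → E) → Prop) (r R₀ : ℝ) (S₀ S₁ : ℂ → E), 0 < r → r < R₀ → Stable r 𝒞 →
      Sec U S₀ (ball 0 R₀) → 𝒞 S₀ →
      (∀ z ∈ sphere (0 : ℂ) r, AnalyticAt ℂ S₀ z ∧ AnalyticAt ℂ S₁ z ∧ (z, S₀ z) ∈ K ∧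
        ‖S₁ z - S₀ z‖ < ε) → Cores T S₁ 𝒞 r := by
  obtain ⟨K₁, hK₁U, hK₁, hnear⟩ := compact_nhd T.closed hK.isBounded
  obtain ⟨ε, hε, hG⟩ := hG E E' L U pr T lab hbr K₁ hK₁U hK₁
  refine ⟨ε, hε, fun 𝒞 r R₀ S₀ S₁ hr hrR hst hS₀ hC hsph t ht W hW => ?_⟩
  obtain ⟨t₁, ht₁, hthin⟩ := sphere_thick (r := r) (p := fun z => AnalyticAt ℂ S₀ z ∧
      AnalyticAt ℂ S₁ z ∧ (z, S₀ z) ∈ K₁ ∧ ‖S₁ z - S₀ z‖ < ε) (by
    intro z₀ hz₀
    obtain ⟨h1, h2, h3, h4⟩ := hsph z₀ hz₀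
    have h5 : ∀ᶠ z in 𝓝 z₀, z ∈ ball (0 : ℂ) R₀ := isOpen_ball.mem_nhds (by
      rw [mem_sphere_zero_iff_norm] at hz₀
      rw [mem_ball_zero_iff, hz₀]; exact hrR)
    have h6 : ∀ᶠ z in 𝓝 z₀, ‖((z, S₀ z) : ℂ × E) - (z₀, S₀ z₀)‖ < 1 :=
      ContinuousAt.eventually_lt
        ((continuousAt_id.prodMk h1.continuousAt).sub continuousAt_const).norm continuousAt_const
        (by simp)
    have h7 : ∀ᶠ z in 𝓝 z₀, ‖S₁ z - S₀ z‖ < ε :=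
      ContinuousAt.eventually_lt (h2.continuousAt.sub h1.continuousAt).norm continuousAt_const h4
    filter_upwards [h1.eventually_analyticAt, h2.eventually_analyticAt, h5, h6, h7] with z a1 a2
      a3 a4 a5
    exact ⟨a1, a2, hnear _ h3 _ (T.mem_of_germ continuousAt_id (hS₀ z a3) a1.continuousAt) a4.le,
      a5⟩)
  obtain ⟨q₀, hq₀, hstab⟩ := hst S₀ hC fun z hz => (hS₀ z (closedBall_subset_ball hrR hz)).1
  obtain ⟨R₁, hR₁, hR₁'⟩ := exists_between hrR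
  obtain ⟨W₀, hW₀, -, hW₀b⟩ := weight T (isCompact_closedBall (0 : ℂ) R₁) (S := S₀)
    (fun z hz => (hS₀ z (closedBall_subset_ball hR₁' hz)).1) hq₀
  obtain ⟨s, δ, hδ, h1, h2, h3⟩ := exists_thin (r := r) (t := min t (min t₁ R₁))
    (lt_min ht (lt_min ht₁ hR₁)) (mul_ne_zero hW hW₀)
  have h2a : s + δ < t := h2.trans_le (min_le_left _ _)
  have h2b : s + δ < t₁ := h2.trans_le ((min_le_right _ _).trans (min_le_left _ _))
  have h2c : s + δ < R₁ := h2.trans_le ((min_le_right _ _).trans (min_le_right _ _))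
  refine ⟨s, δ, hδ, h1, h2a, fun z hz h0 => h3 z hz (by rw [eval_mul, h0, zero_mul]), ?_⟩
  intro Ω ω₁ Λ CΛ hΩ hb hS₁ hω hω0 hωb hΛ1 hΛ2 hΛ3 η hη hη1
  obtain ⟨c₀, hc₀, hl₀⟩ := exists_lower (isCompact_cann (s - δ) (s + δ)) (f := fun z => W₀.eval z)
    W₀.continuous.continuousOn fun z hz h0 => h3 z hz (by rw [eval_mul, h0, mul_zero])
  obtain ⟨c₁, hc₁, hl₁⟩ := exists_lower (isCompact_cann (s - δ) (s + δ)) (f := ω₁)
    (fun z hz => (hω z (by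
      rintro rfl
      have := hz.1
      rw [norm_zero] at this
      linarith)).continuousAt.continuousWithinAt) hω0
  obtain ⟨S, β, hS, hin, hout⟩ := hG s δ Ω S₀ S₁ (fun z => W₀.eval z) ω₁ Λ CΛ (min c₀ c₁) hδ
    (by linarith) hΩ hb (fun z hz => hS₀ z (ball_subset_ball (by linarith) hz)) hS₁
    (fun z hz => hthin z (by linarith [hz.1]) (by linarith [hz.2])) W₀.differentiable hω
    (lt_min hc₀ hc₁) (fun z hz => ⟨(min_le_left _ _).trans (hl₀ z ⟨hz.1.le, hz.2.le⟩),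
      (min_le_right _ _).trans (hl₁ z ⟨hz.1.le, hz.2.le⟩)⟩)
    (fun z hz ha => (hW₀b z (ball_subset_closedBall (ball_subset_ball h2c.le hz)) ha).1) hωb hΛ1
    hΛ2 hΛ3 η hη
  refine ⟨S, β, hS, hstab S fun z hz ha => ?_, hout⟩
  obtain ⟨h4, h5⟩ := hin z (closedBall_subset_ball (by linarith) hz) ha
  refine ⟨h4, le_of_mul_le_mul_left (h5.trans ?_) (T.rho_pos (z, S₀ z))⟩
  exact (mul_le_of_le_one_left (norm_nonneg _) hη1).trans
    (hW₀b z (closedBall_subset_closedBall hR₁.le hz) ha).2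

end Step

end

end Pool.Agent.P.MP_daea48_ag
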