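import Mathlib

/-! Definitions used by the statements handed in for MP_daea48_ag. -/

open CategoryTheory CategoryTheory.Limits AlgebraicGeometry Polynomial

namespace Pool.Agent.P.MP_daea48_ag

noncomputable section

/-- The places of `K` over `ℝ`: valuation rings `O` with `ℝ ⊆ O ⊊ K`. For `K = ℝ(C)` these are
the local rings of the closed points of `C`. -/
def IsPlace {K : Type} [Field K] [Algebra ℝ K] (O : ValuationSubring K) : Prop :=
  O ≠ ⊤ ∧ ∀ r : ℝ, algebraMap ℝ K r ∈ O

/-- The residue field of `O` is `ℝ` (the closed point is a real point). -/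
def RealResidue {K : Type} [Field K] [Algebra ℝ K] (O : ValuationSubring K) : Prop :=
  ∀ x ∈ O, ∃ r : ℝ, x - algebraMap ℝ K r ∈ O.nonunits

/-- `K` is a function field in one variable over `ℝ` without real place. -/
def PointlessFF (K : Type) [Field K] [Algebra ℝ K] : Prop :=
  (⊤ : IntermediateField ℝ K).FG ∧ Algebra.trdeg ℝ K = 1 ∧
    ∀ O : ValuationSubring K, IsPlace O → ¬ RealResidue O

/-- The map from `K` to its completion `K_v` at the place `O`. -/
def toCpl {K : Type} [Field K] (O : ValuationSubring K) : K →+* O.valuation.Completion :=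
  UniformSpace.Completion.coeRingHom.comp (WithVal.equiv O.valuation).symm.toRingHom

/-- `Spec` of a ring homomorphism. -/
def spc {A B : Type} [CommRing A] [CommRing B] (f : A →+* B) :
    Spec (CommRingCat.of B) ⟶ Spec (CommRingCat.of A) :=
  Spec.map (CommRingCat.ofHom f)

/-- `X(L)`: the `L`-points of the `K`-scheme `s : X ⟶ Spec K`, for an extension `ι : K → L`. -/
def Pts {K L : Type} [Field K] [Field L] {X : Scheme.{0}} (s : X ⟶ Spec (CommRingCat.of K))
    (ι : K →+* L) : Type :=
  {x : Spec (CommRingCat.of L) ⟶ X // x ≫ s = spc ι}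

/-- The value in `L` of a function `f` on an open `V` at an `L`-point lying in `V`. -/
def value {X : Scheme.{0}} {L : Type} [Field L] (x : Spec (CommRingCat.of L) ⟶ X) (V : X.Opens)
    (h : ⊤ ≤ x ⁻¹ᵁ V) (f : Γ(X, V)) : L :=
  (x.appLE V ⊤ h ≫ (Scheme.ΓSpecIso (CommRingCat.of L)).hom).hom f

/-- The topology on `X(L)` induced by a topology on `L`: generated by the sets of points of `V`
at which `f ∈ Γ(X, V)` takes its value in an open set `O ⊆ L`. -/
instance {K L : Type} [Field K] [Field L] {X : Scheme.{0}} (s : X ⟶ Spec (CommRingCat.of K))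
    (ι : K →+* L) [TopologicalSpace L] : TopologicalSpace (Pts s ι) :=
  TopologicalSpace.generateFrom {T | ∃ (V : X.Opens) (f : Γ(X, V)) (O : Set L), IsOpen O ∧
    T = {x : Pts s ι | ∃ h : ⊤ ≤ x.1 ⁻¹ᵁ V, value x.1 V h f ∈ O}}

/-- The map `X(K) → X(L)`. -/
def Pts.res {K L : Type} [Field K] [Field L] {X : Scheme.{0}} {s : X ⟶ Spec (CommRingCat.of K)}
    (x : Pts s (RingHom.id K)) (ι : K →+* L) : Pts s ι :=
  ⟨spc ι ≫ x.1, by rw [Category.assoc, x.2]; simp [spc]⟩

/-- The `L`-point with components `x`, `y` of the base change to `L` of `X ×_K X`. -/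
def pair {K L : Type} [Field K] [Field L] {X : Scheme.{0}} {s : X ⟶ Spec (CommRingCat.of K)}
    {ι : K →+* L} (x y : Pts s ι) :
    Spec (CommRingCat.of L) ⟶ pullback (pullback.fst s s ≫ s) (spc ι) :=
  pullback.lift (pullback.lift x.1 y.1 (x.2.trans y.2.symm)) (𝟙 _) (by
    rw [pullback.lift_fst_assoc, x.2, Category.id_comp])

/-- Two general points of `X_{K̄}` lie on a rational curve: there is a nonempty open
`W ⊆ (X ×_K X) ×_K K̄` such that every pair of `K̄`-points `x`, `y` in `W` has `x = g 0` and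
`y = g 1` for a `K`-morphism `g : 𝔸¹_{K̄} ⟶ X`. -/
def RatConn {K : Type} [Field K] {X : Scheme.{0}} (s : X ⟶ Spec (CommRingCat.of K)) : Prop :=
  ∃ W : (pullback (pullback.fst s s ≫ s) (spc (algebraMap K (AlgebraicClosure K)))).Opens,
    W ≠ ⊥ ∧ ∀ x y : Pts s (algebraMap K (AlgebraicClosure K)), ⊤ ≤ pair x y ⁻¹ᵁ W →
      ∃ g : Spec (CommRingCat.of (AlgebraicClosure K)[X]) ⟶ X,
        g ≫ s = spc (C.comp (algebraMap K (AlgebraicClosure K))) ∧
        spc (evalRingHom 0) ≫ g = x.1 ∧ spc (evalRingHom 1) ≫ g = y.1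

/-- Weak approximation: `X(K)` is dense in `∏_{v ∈ S} X(K_v)` for every finite set `S` of
places. -/
def WeakApprox {K : Type} [Field K] [Algebra ℝ K] {X : Scheme.{0}}
    (s : X ⟶ Spec (CommRingCat.of K)) : Prop :=
  ∀ S : Finset (ValuationSubring K), (∀ O ∈ S, IsPlace O) →
    DenseRange fun (x : Pts s (RingHom.id K)) (v : S) => x.res (toCpl v.1)

end

end Pool.Agent.P.MP_daea48_ag
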