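import Pool.Agent.P.MP_daea48_ag.Stm

/-! Weak approximation over the function field of a curve, places being closed points. -/

open CategoryTheory AlgebraicGeometry

namespace Pool.Agent.P.MP_daea48_ag

noncomputable section

/-- The local ring of `C` at the point `v`, as a subring of the function field. -/
def locRing {C : Scheme.{0}} [IsIntegral C] (v : C) : Subring C.functionField :=
  (algebraMap (C.presheaf.stalk v) C.functionField).range

/-- Weak approximation over `K`, the function field of the curve `C`: for every finite set `S`
of closed points of `C`, the local rings `O v` at the points `v` of `S` are valuation rings of `K`,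
and `X(K)` is dense in the product of the `X(K_v)`, where `K_v` is the completion of `K` for the
valuation with ring `O v`. -/
def WeakApproxC (C : Scheme.{0}) [IsIntegral C] {X : Scheme.{0}}
    (s : X ⟶ Spec (CommRingCat.of C.functionField)) : Prop :=
  ∀ S : Finset C, (∀ v ∈ S, IsClosed ({v} : Set C)) →
    ∃ O : S → ValuationSubring C.functionField, (∀ v, (O v).toSubring = locRing v.1) ∧
      DenseRange fun (x : Pts s (RingHom.id C.functionField)) (v : S) => x.res (toCpl (O v))

end

end Pool.Agent.P.MP_daea48_ag
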