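import Pool.Agent.P.MP_daea48_ag.StA

/-! Every continuous section over a good circle is reached. -/

open Set Filter Topology Metric Polynomial Asymptotics

namespace Pool.Agent.P.MP_daea48_ag

namespace Sweep

/-- Real induction. -/
theorem real_ind {W : ℝ → Prop} {a b : ℝ} (hab : a ≤ b)
    (h : ∀ t₀ ∈ Icc a b, ∃ δ > 0, ∀ t t', a ≤ t → t < t' → t' ≤ b → t₀ - δ ≤ t → t' ≤ t₀ + δ →
      W t → W t') (ha : W a) : W b := by
  set S : Set ℝ := {t | t ∈ Icc a b ∧ W t} with hS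
  have hne : S.Nonempty := ⟨a, ⟨le_rfl, hab⟩, ha⟩
  have hbd : BddAbove S := ⟨b, fun t ht => ht.1.2⟩
  have hc : sSup S ∈ Icc a b :=
    ⟨le_csSup hbd ⟨⟨le_rfl, hab⟩, ha⟩, csSup_le hne fun t ht => ht.1.2⟩
  obtain ⟨δ, hδ, hW⟩ := h _ hc
  obtain ⟨t, ht, hlt⟩ := exists_lt_of_lt_csSup hne (show sSup S - δ < sSup S by linarith)
  have htc : t ≤ sSup S := le_csSup hbd ht
  rcases eq_or_lt_of_le ht.1.2 with e | hl
  · rw [← e]; exact ht.2
  have h1 : t < min b (sSup S + δ) := lt_min hl (by linarith)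
  have h2 : W (min b (sSup S + δ)) :=
    hW t _ ht.1.1 h1 (min_le_left _ _) hlt.le (min_le_right _ _) ht.2
  have h3 : min b (sSup S + δ) ≤ sSup S :=
    le_csSup hbd ⟨⟨ht.1.1.trans h1.le, min_le_left _ _⟩, h2⟩
  rcases le_total b (sSup S + δ) with h4 | h4
  · rwa [min_eq_left h4] at h2
  · rw [min_eq_right h4] at h3; linarith

variable {E : Type} [NormedAddCommGroup E] [NormedSpace ℂ E] [FiniteDimensional ℂ E]
  {E' : Type} [NormedAddCommGroup E'] [NormedSpace ℂ E'] [FiniteDimensional ℂ E']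
  {U : Set (ℂ × E)} {pr : E →L[ℂ] E'} {Bad : Finset ℂ}

omit [FiniteDimensional ℂ E] in
theorem reach_congr {𝒞 : (ℂ → E) → Prop} {r : ℝ} {γ γ' : ℂ → E} (e : EqOn γ γ' (sphere 0 r))
    (h : Reach U 𝒞 r γ) : Reach U 𝒞 r γ' := fun η hη => by
  obtain ⟨R, hR, S, h1, h2, h3⟩ := h η hη
  exact ⟨R, hR, S, h1, h2, fun z hz => ⟨(h3 z hz).1, e hz ▸ (h3 z hz).2⟩⟩

omit [FiniteDimensional ℂ E] in
theorem reach_mono {𝒞 𝒞' : (ℂ → E) → Prop} {r : ℝ} {γ : ℂ → E} (e : ∀ S, 𝒞 S → 𝒞' S)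
    (h : Reach U 𝒞 r γ) : Reach U 𝒞' r γ := fun η hη => by
  obtain ⟨R, hR, S, h1, h2, h3⟩ := h η hη
  exact ⟨R, hR, S, h1, e S h2, h3⟩

omit [FiniteDimensional ℂ E] [NormedSpace ℂ E] in
theorem csec_mono {S : ℂ → E} {D D' : Set ℂ} (h : CSec U S D) (hD : D' ⊆ D) : CSec U S D' :=
  ⟨h.1.mono hD, fun z hz => h.2 z (hD hz)⟩

theorem cann_mono {a b a' b' : ℝ} (ha : a ≤ a') (hb : b' ≤ b) : cann a' b' ⊆ cann a b :=
  fun _ hz => ⟨ha.trans hz.1, hz.2.trans hb⟩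

theorem sphere_sub {a b t : ℝ} (ha : a ≤ t) (hb : t ≤ b) : sphere (0 : ℂ) t ⊆ cann a b :=
  fun z hz => by
    rw [mem_sphere_zero_iff_norm] at hz
    exact ⟨hz ▸ ha, hz ▸ hb⟩

/-- Sections over a circle with prescribed germs. -/
theorem circle_sec (hPF : S_PF) (T : TC U pr) (hO : Oka U pr Bad) {t : ℝ} (ht : 0 < t)
    {Q : Finset ℂ} (hQ : Q.Nonempty) {σ : ℂ → ℂ → E} (hσ : ∀ p ∈ Q, ‖p‖ = t ∧ Germ U id (σ p) p)
    (hB : ∀ z ∈ sphere (0 : ℂ) t \ Q, z ∉ Bad) :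
    ∃ γ, CSec U γ (sphere 0 t \ Q) ∧ ∀ p ∈ Q, ∀ᶠ z in 𝓝[sphere 0 t \ {p}] p, γ z = σ p z := by
  obtain ⟨γ, h1, h2, -⟩ := (hPF E E' U pr T).2.2 t Q σ 0 0 False ht hQ hσ False.elim
    fun z hz => ⟨(hO.ne z (hB z hz)).imp fun ξ hξ => ⟨hξ, False.elim⟩,
      fun ξ₁ ξ₂ a _ b _ => (hO.conn z ξ₁ ξ₂ a b rfl).mono fun ξ hξ => ⟨hξ.1, False.elim⟩⟩
  exact ⟨γ, h1, h2⟩

/-- A good circle carries a continuous section. -/
theorem exists_sec (hPF : S_PF) (T : TC U pr) (hO : Oka U pr Bad) {t : ℝ} (ht : 0 < t)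
    (hB : ∀ z ∈ sphere (0 : ℂ) t, z ∉ Bad) : ∃ g, CSec U g (sphere 0 t) := by
  classical
  have hn : ‖(t : ℂ)‖ = t := by rw [Complex.norm_real, Real.norm_eq_abs, abs_of_pos ht]
  obtain ⟨ξ, hξ⟩ := hO.ne t (hB _ (mem_sphere_zero_iff_norm.2 hn))
  obtain ⟨a1, a2, a3⟩ := T.exists_local (κ := id) (β := (t : ℂ)) analyticAt_id hξ
  set s : ℂ → E := fun z => T.ex (id (t : ℂ), ξ) (id z, pr ξ) with hs
  have hg : Germ U id s t :=
    ⟨a1.meromorphicAt, (a3.mono fun z hz => hz.1).filter_mono nhdsWithin_le_nhds⟩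
  obtain ⟨γ, h1, h2⟩ := circle_sec hPF T hO ht (Q := {(t : ℂ)}) (Finset.singleton_nonempty _)
    (σ := fun _ => s) (fun p hp => by rw [Finset.mem_singleton.1 hp]; exact ⟨hn, hg⟩)
    fun z hz => hB z hz.1
  have h3 := h2 _ (Finset.mem_singleton_self _)
  rw [Finset.coe_singleton] at h1
  refine ⟨fun z => if z = t then s z else γ z, fun z hz => ?_, fun z hz => ?_⟩
  · by_cases e : z = t
    · subst e
      refine (a1.continuousAt.continuousWithinAt (s := sphere 0 t)).congr_of_eventuallyEq ?_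
        (if_pos rfl)
      rw [eventually_nhdsWithin_iff] at h3
      refine eventually_nhdsWithin_iff.2 (h3.mono fun z hz hz' => ?_)
      by_cases e : z = t
      · exact if_pos e
      · exact (if_neg e).trans (hz ⟨hz', e⟩)
    · have h4 : ContinuousWithinAt γ (sphere 0 t) z := by
        refine (h1.1 z ⟨hz, e⟩).mono_of_mem_nhdsWithin ?_
        rw [Set.sdiff_eq]
        exact inter_mem_nhdsWithin _ (isOpen_compl_singleton.mem_nhds e)
      refine h4.congr_of_eventuallyEq ?_ (if_neg e)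
      exact (Filter.Eventually.mono (isOpen_compl_singleton.mem_nhds e)
        fun x hx => if_neg hx).filter_mono nhdsWithin_le_nhds
  · by_cases e : z = t
    · subst e
      simp only [if_true]
      exact a3.self_of_nhds.1
    · simp only [if_neg e]
      exact h1.2 z ⟨hz, e⟩

/-- Switching to another continuous section. -/
theorem step (hPF : S_PF) (hC2 : S_C2) (hM1 : S_M1) (hM3 : S_M3) (T : TC U pr)
    (hO : Oka U pr Bad) {𝒞 : (ℂ → E) → Prop} {s s₁ : ℝ} (hs : 0 < s) (hs₁ : s < s₁)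
    (hC : Stable s 𝒞) {g S₁ : ℂ → E} (hg : CSec U g (sphere 0 s)) (hR : Reach U 𝒞 s g)
    (h₁ : CSec U S₁ (cann s s₁)) : Reach U 𝒞 s₁ S₁ := by
  obtain ⟨δ, hδ, S₀, -, h₀, e₀⟩ := (hPF E E' U pr T).2.1 s g hs hg
  obtain ⟨s', Q, S, a1, a2, a3, a4, a5, a6⟩ := hC2 E E' U pr T hO.conn hO.fill s
    (min (s + δ) s₁) S₀ S₁ hs (lt_min (by linarith) hs₁)
    (csec_mono h₀ (cann_mono (by linarith) (min_le_left _ _)))
    (csec_mono h₁ (cann_mono le_rfl (min_le_right _ _)))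
  have b1 : Reach U 𝒞 s S := reach_congr (fun z hz => ((a5 hz).trans (e₀ hz)).symm) hR
  have b2 := hM3 E E' ℂ U pr T (lab0 E) hO.br 𝒞 s s' S Q 0 hs a1.le hC a3 a4 b1
  have b3 : Reach U 𝒞 s' S₁ := reach_congr a6 (reach_mono (fun _ h => h.1) b2)
  have a7 : s' ≤ s₁ := a2.le.trans (min_le_right _ _)
  exact hM1.1 E E' ℂ U pr T (lab0 E) hO.br 𝒞 s' s₁ S₁ (hs.trans a1) a7
    ((hM1.2 E).1 s s' 𝒞 a1.le hC) (csec_mono h₁ (cann_mono a1.le le_rfl)) b3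

/-- Transport across an annulus without bad points. -/
theorem transport (hPF : S_PF) (hC2 : S_C2) (hM1 : S_M1) (hM3 : S_M3) (T : TC U pr)
    (hO : Oka U pr Bad) {𝒞 : (ℂ → E) → Prop} {s r : ℝ} (hs : 0 < s) (hr : s < r)
    (hC : Stable s 𝒞) {g₀ g : ℂ → E} (hg₀ : CSec U g₀ (sphere 0 s)) (hR : Reach U 𝒞 s g₀)
    (hB : ∀ z ∈ cann s r, z ∉ Bad) (hg : CSec U g (sphere 0 r)) : Reach U 𝒞 r g := by
  have key : ∀ b, s ≤ b → b ≤ r → ∃ g, CSec U g (sphere 0 b) ∧ Reach U 𝒞 b g := by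
    intro b hb hb'
    refine real_ind (W := fun t => ∃ g, CSec U g (sphere 0 t) ∧ Reach U 𝒞 t g) hb ?_ ⟨g₀, hg₀, hR⟩
    intro t₀ ht₀
    have h0 : 0 < t₀ := hs.trans_le ht₀.1
    obtain ⟨g', hg'⟩ := exists_sec hPF T hO h0
      fun z hz => hB z (sphere_sub ht₀.1 (ht₀.2.trans hb') hz)
    obtain ⟨δ, hδ, S, -, hS, -⟩ := (hPF E E' U pr T).2.1 t₀ g' h0 hg'
    refine ⟨δ, hδ, fun t t' c1 c2 _ c4 c5 ⟨gt, d1, d2⟩ => ⟨S, csec_mono hS
      (sphere_sub (by linarith) c5), ?_⟩⟩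
    exact step hPF hC2 hM1 hM3 T hO (hs.trans_le c1) c2 ((hM1.2 E).1 s t 𝒞 c1 hC) d1 d2
      (csec_mono hS (cann_mono c4 c5))
  obtain ⟨δ, hδ, S, -, hS, e⟩ := (hPF E E' U pr T).2.1 r g (hs.trans hr) hg
  have h1 : max s (r - δ) < r := max_lt hr (by linarith)
  obtain ⟨gt, d1, d2⟩ := key (max s (r - δ)) (le_max_left _ _) h1.le
  exact reach_congr e (step hPF hC2 hM1 hM3 T hO (hs.trans_le (le_max_left _ _)) h1
    ((hM1.2 E).1 s _ 𝒞 (le_max_left _ _) hC) d1 d2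
    (csec_mono hS (cann_mono (le_max_right _ _) (by linarith))))

/-- A germ at the origin reaches small circles. -/
theorem start {σ : ℂ → E} (hσ : Germ U id σ 0) {r : ℝ} (hr : 0 < r) :
    ∃ s, 0 < s ∧ s < r ∧ CSec U σ (sphere 0 s) ∧
      ∀ 𝒞 : (ℂ → E) → Prop, 𝒞 σ → Reach U 𝒞 s σ := by
  have h1 := hσ.1.eventually_analyticAt.and hσ.2
  rw [eventually_nhdsWithin_iff, Metric.eventually_nhds_iff] at h1
  obtain ⟨ρ, hρ, h1⟩ := h1
  have h2 : ∀ z : ℂ, ‖z‖ < ρ → z ≠ 0 → AnalyticAt ℂ σ z ∧ (z, σ z) ∈ U := fun z a b =>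
    h1 (by simpa using a) b
  have hs : 0 < min ρ r / 2 := half_pos (lt_min hρ hr)
  have hs1 : min ρ r / 2 < ρ := (half_lt_self (lt_min hρ hr)).trans_le (min_le_left _ _)
  have hs2 : min ρ r / 2 < r := (half_lt_self (lt_min hρ hr)).trans_le (min_le_right _ _)
  have h3 : ∀ z ∈ sphere (0 : ℂ) (min ρ r / 2), AnalyticAt ℂ σ z ∧ (z, σ z) ∈ U := fun z hz => by
    rw [mem_sphere_zero_iff_norm] at hz
    exact h2 z (hz ▸ hs1) (norm_pos_iff.1 (hz ▸ hs))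
  refine ⟨_, hs, hs2, ⟨fun z hz => (h3 z hz).1.continuousAt.continuousWithinAt,
    fun z hz => (h3 z hz).2⟩, fun 𝒞 hC η hη => ⟨ρ, hs1, σ, fun p hp => ?_, hC,
      fun z hz => ⟨(h3 z hz).1, by simpa using hη⟩⟩⟩
  by_cases e : p = 0
  · rw [e]; exact hσ
  refine ⟨(h2 p (by simpa using hp) e).1.meromorphicAt, ?_⟩
  have h4 : ∀ᶠ z in 𝓝 p, z ∈ ball (0 : ℂ) ρ ∧ z ≠ 0 :=
    (isOpen_ball.eventually_mem hp).and (isOpen_ne.eventually_mem e)
  exact (h4.mono fun z hz => (h2 z (by simpa using hz.1) hz.2).2).filter_mono nhdsWithin_le_nhds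

omit [FiniteDimensional ℂ E] [NormedSpace ℂ E] in
theorem jet_of_prod {Q : Finset ℂ} {p : ℂ} (hp : p ∈ Q) {k : ℕ} {S σ : ℂ → E}
    (h : ∀ᶠ z in 𝓝[≠] p, ‖S z - σ z‖ ≤ 1 * ‖∏ q ∈ Q, (z - q)‖ ^ k) : Jet k σ p S := by
  classical
  have h1 : (fun z => ∏ q ∈ Q.erase p, (z - q)) =O[𝓝[≠] p] fun _ => (1 : ℂ) :=
    (Tendsto.mono_left (f := fun z : ℂ => ∏ q ∈ Q.erase p, (z - q))
      (Continuous.tendsto (by fun_prop) p) nhdsWithin_le_nhds).isBigO_one ℂ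
  have h2 : (fun z => ∏ q ∈ Q, (z - q)) =O[𝓝[≠] p] fun z => z - p := by
    have := (isBigO_refl (fun z : ℂ => z - p) (𝓝[≠] p)).mul h1
    refine this.congr (fun z => ?_) fun z => mul_one _
    exact Finset.mul_prod_erase Q (fun q => z - q) hp
  refine IsBigO.trans (IsBigO.of_bound 1 ?_) (h2.pow k)
  simpa only [norm_pow] using h

omit [FiniteDimensional ℂ E] [NormedSpace ℂ E] in
theorem jet_trans {p : ℂ} {k : ℕ} {S S' σ : ℂ → E} (h : Jet k σ p S) (h' : Jet k S p S') :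
    Jet k σ p S' := by
  have := IsBigO.add h' h
  exact this.congr_left fun z => sub_add_sub_cancel _ _ _

end Sweep

open Sweep in
theorem Sweep_of (hIFT : S_IFT) (hPF : S_PF) (hAp : S_Ap) (hC2 : S_C2) (hM1 : S_M1)
    (hM3 : S_M3) : S_Sweep := by
  classical
  intro E _ _ _ E' _ _ _ U pr Bad P σ k r γ hO hBP h0
  obtain ⟨T⟩ := hIFT.1 E E' U pr hO.aps
  induction hn : (P.filter fun p => ‖p‖ < r).card using Nat.strong_induction_on
    generalizing r γ with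
  | _ n ih =>
  intro hr hP hγ
  obtain ⟨p₀, hp₀, hmax⟩ := (P.filter fun p => ‖p‖ < r).exists_max_image (fun p => ‖p‖)
    ⟨0, Finset.mem_filter.2 ⟨h0, by simpa using hr⟩⟩
  rw [Finset.mem_filter] at hp₀
  have hle : ∀ p ∈ P, ‖p‖ < r → ‖p‖ ≤ ‖p₀‖ := fun p a b => hmax p (Finset.mem_filter.2 ⟨a, b⟩)
  suffices h : ∃ s g, ‖p₀‖ < s ∧ s < r ∧ CSec U g (sphere 0 s) ∧
      Reach U (fun S => ∀ p ∈ P, ‖p‖ < s → Jet k (σ p) p S) s g by
    obtain ⟨s, g, a1, a2, a3, a4⟩ := h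
    refine reach_mono (fun S hS p hp hpr => hS p hp ((hle p hp hpr).trans_lt a1))
      (transport hPF hC2 hM1 hM3 T hO ((norm_nonneg _).trans_lt a1) a2
        ((hM1.2 E).2.2.1 s k P σ) a3 a4 (fun z hz hb => ?_) hγ)
    have := hle z (hBP hb) (lt_of_le_of_ne hz.2 (hP z (hBP hb)).1)
    linarith [hz.1]
  rcases eq_or_lt_of_le (norm_nonneg p₀) with e | ht
  · obtain ⟨s, a1, a2, a3, a4⟩ := start ((hP 0 h0).2 (by simpa using hr)) hr
    refine ⟨s, σ 0, e ▸ a1, a2, a3, a4 _ fun p hp hps => ?_⟩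
    have : p = 0 := norm_le_zero_iff.1 (e ▸ hle p hp (hps.trans a2))
    subst this
    simpa only [Jet, sub_self] using isBigO_zero _ _
  set t := ‖p₀‖ with htd
  set Q := P.filter fun p => ‖p‖ = t with hQ
  have hQm : ∀ p, p ∈ Q ↔ p ∈ P ∧ ‖p‖ = t := fun p => Finset.mem_filter
  have hQg : ∀ p ∈ Q, ‖p‖ = t ∧ Germ U id (σ p) p := fun p hp =>
    ⟨((hQm p).1 hp).2, (hP p ((hQm p).1 hp).1).2 (((hQm p).1 hp).2 ▸ hp₀.2)⟩
  obtain ⟨γt, b1, b2⟩ := circle_sec hPF T hO ht (Q := Q) ⟨p₀, (hQm _).2 ⟨hp₀.1, rfl⟩⟩ hQg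
    fun z hz hb => hz.2 ((hQm z).2 ⟨hBP hb, mem_sphere_zero_iff_norm.1 hz.1⟩)
  obtain ⟨δ, S, hδ, hδt, c1, c2, -, c4, -⟩ := hAp E E' U pr T t Q γt σ 0 0 False ht
    (fun p hp => (hQg p hp).1) b1 (fun p hp => ⟨(hQg p hp).2, b2 p hp⟩) False.elim k 1 one_pos
  have hev : ∀ᶠ d in 𝓝[>] (0 : ℝ), d < δ ∧ d < r - t ∧ ∀ p ∈ P, ‖p‖ < t → d < t - ‖p‖ := by
    refine Eventually.filter_mono nhdsWithin_le_nhds ((eventually_lt_nhds hδ).and
      ((eventually_lt_nhds (sub_pos.2 hp₀.2)).and ((eventually_all_finset P).2 fun p _ => ?_)))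
    by_cases hp : ‖p‖ < t
    · exact (eventually_lt_nhds (sub_pos.2 hp)).mono fun d hd _ => hd
    · exact Eventually.of_forall fun d hd => (hp hd).elim
  obtain ⟨d, ⟨d1, d2, d3⟩, hd⟩ := (hev.and self_mem_nhdsWithin).exists
  have hd : 0 < d := hd
  have hsub : cann (t - d) (t + d) ⊆ ann (t - δ) (t + δ) := fun z hz =>
    ⟨by linarith [hz.1], by linarith [hz.2]⟩
  have hS : CSec U S (cann (t - d) (t + d) \ Q) :=
    ⟨fun z hz => (c2 z (hsub hz.1) hz.2).continuousAt.continuousWithinAt, fun z hz =>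
      T.mem_of_germ (κ := id) continuousAt_id (c1 z (hsub hz.1))
        (c2 z (hsub hz.1) hz.2).continuousAt⟩
  have hsp : ∀ s, t - d ≤ s → s ≤ t + d → s ≠ t → CSec U S (sphere 0 s) := fun s a b c =>
    csec_mono hS fun z hz => ⟨sphere_sub a b hz, fun hq =>
      c ((mem_sphere_zero_iff_norm.1 hz).symm.trans ((hQm z).1 hq).2)⟩
  have hcard : (P.filter fun p => ‖p‖ < t - d).card < n := by
    rw [← hn]
    refine Finset.card_lt_card ⟨fun p hp => ?_, fun h => ?_⟩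
    · rw [Finset.mem_filter] at hp ⊢
      exact ⟨hp.1, by linarith [hp.2, hp₀.2]⟩
    · have := (Finset.mem_filter.1 (h (Finset.mem_filter.2 hp₀))).2
      linarith
  have e1 := ih _ hcard (t - d) S rfl (by linarith)
    (fun p hp => ⟨fun h => by linarith [d3 p hp (by linarith)],
      fun h => (hP p hp).2 (by linarith [hp₀.2])⟩)
    (hsp _ le_rfl (by linarith) (by linarith))
  have e2 := hM3 E E' ℂ U pr T (lab0 E) hO.br _ (t - d) (t + d) S Q k (by linarith) (by linarith)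
    ((hM1.2 E).2.2.1 (t - d) k P σ)
    (fun p hp => by
      have h1 : p ∈ ann (t - d) (t + d) := ⟨by linarith [(hQg p hp).1], by linarith [(hQg p hp).1]⟩
      exact ⟨h1, c1 p (hsub ⟨h1.1.le, h1.2.le⟩)⟩) hS e1
  refine ⟨t + d, S, by linarith, by linarith, hsp _ (by linarith) le_rfl (by linarith),
    reach_mono (fun S' hS' p hp hps => ?_) e2⟩
  rcases eq_or_lt_of_le (hle p hp (by linarith)) with h | h
  · have hq := (hQm p).2 ⟨hp, h⟩
    exact jet_trans (jet_of_prod hq (c4 p hq)) (hS'.2 p hq)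
  · exact hS'.1 p hp (by linarith [d3 p hp h])

end Pool.Agent.P.MP_daea48_ag
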