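import Pool.Agent.P.MP_daea48_ag.StA

/-! The family of curves through two points is a bridge. -/

open Set Filter Topology Metric Polynomial Asymptotics

namespace Pool.Agent.P.MP_daea48_ag

noncomputable section

namespace Tooth

variable {X Y : Type} [NormedAddCommGroup X] [NormedSpace ℂ X] [NormedAddCommGroup Y]
  [NormedSpace ℂ Y]

theorem pw_diff {e : ℕ} {n : Fin (e + 1) → X → Y} (hn : ∀ k, Differentiable ℂ (n k)) :
    Differentiable ℂ fun x : X × ℂ => pw n x.1 x.2 := by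
  unfold pw
  refine Differentiable.fun_sum fun k _ => ?_
  exact (differentiable_snd.pow _).smul ((hn k).comp differentiable_fst)

omit [NormedAddCommGroup X] [NormedSpace ℂ X] in
theorem pw_zero {e : ℕ} (n : Fin (e + 1) → X → Y) (p : X) : pw n p 0 = n 0 p := by
  simp [pw, Fin.sum_univ_succ]

omit [NormedAddCommGroup X] [NormedSpace ℂ X] in
theorem pw_rev {e : ℕ} (n : Fin (e + 1) → X → Y) (p : X) {w : ℂ} (hw : w ≠ 0) :
    pw n p w = w ^ e • pw (fun k => n (Fin.rev k)) p w⁻¹ := by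
  unfold pw
  rw [Finset.smul_sum, ← Equiv.sum_comp Fin.revPerm]
  refine Finset.sum_congr rfl fun k _ => ?_
  have hk : (k : ℕ) ≤ e := Nat.lt_succ_iff.mp k.2
  have h1 : ((Fin.rev k : Fin (e + 1)) : ℕ) = e - k := by rw [Fin.val_rev]; omega
  rw [Fin.revPerm_apply, smul_smul, h1, pow_sub₀ _ hw hk, inv_pow]

/-- uniform convergence at the origin -/
theorem unif {e : ℕ} {n : Fin (e + 1) → X → Y} {d : Fin (e + 1) → X → ℂ} {H : X → Y}
    (hn : ∀ k, Differentiable ℂ (n k)) (hd : ∀ k, Differentiable ℂ (d k)) (hH : Continuous H)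
    {K : Set X} (hK : IsCompact K) (h0 : ∀ p ∈ K, d 0 p ≠ 0 ∧ n 0 p = d 0 p • H p) {η : ℝ}
    (hη : 0 < η) : ∃ δ > 0, ∀ v : ℂ, ‖v‖ < δ → ∀ p ∈ K,
      pw d p v ≠ 0 ∧ ‖(pw d p v)⁻¹ • pw n p v - H p‖ < η := by
  have c1 : Continuous fun z : ℂ × X => pw d z.2 z.1 :=
    (pw_diff hd).continuous.comp continuous_swap
  have c2 : Continuous fun z : ℂ × X => pw n z.2 z.1 :=
    (pw_diff hn).continuous.comp continuous_swap
  have := hK.eventually_forall_of_forall_eventually (x₀ := (0 : ℂ))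
    (P := fun v p => pw d p v ≠ 0 ∧ ‖(pw d p v)⁻¹ • pw n p v - H p‖ < η) fun p hp => by
      have h1 : pw d p 0 ≠ 0 := by rw [pw_zero]; exact (h0 p hp).1
      refine (c1.continuousAt.eventually_ne h1).and ?_
      refine ContinuousAt.eventually_lt
        ((((c1.continuousAt.inv₀ h1).smul c2.continuousAt).sub
          (hH.comp continuous_snd).continuousAt).norm) continuousAt_const ?_
      simp only [pw_zero]
      rw [(h0 p hp).2, inv_smul_smul₀ (h0 p hp).1]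
      simpa using hη
  obtain ⟨δ, hδ, h⟩ := Metric.eventually_nhds_iff.mp this
  exact ⟨δ, hδ, fun v hv => h (by simpa using hv)⟩

/-- uniform convergence at infinity -/
theorem unifI {e : ℕ} {n : Fin (e + 1) → X → Y} {d : Fin (e + 1) → X → ℂ} {H : X → Y}
    (hn : ∀ k, Differentiable ℂ (n k)) (hd : ∀ k, Differentiable ℂ (d k)) (hH : Continuous H)
    {K : Set X} (hK : IsCompact K)
    (h0 : ∀ p ∈ K, d (Fin.last e) p ≠ 0 ∧ n (Fin.last e) p = d (Fin.last e) p • H p) {η : ℝ}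
    (hη : 0 < η) : ∃ δ > 0, ∀ w : ℂ, δ⁻¹ < ‖w‖ → ∀ p ∈ K,
      pw d p w ≠ 0 ∧ ‖(pw d p w)⁻¹ • pw n p w - H p‖ < η := by
  obtain ⟨δ, hδ, h⟩ := unif (n := fun k => n (Fin.rev k)) (d := fun k => d (Fin.rev k))
    (fun k => hn _) (fun k => hd _) hH hK (by simpa using h0) hη
  refine ⟨δ, hδ, fun w hw p hp => ?_⟩
  have h1 : 0 < ‖w‖ := (inv_pos.mpr hδ).trans hw
  have h2 : w ≠ 0 := norm_pos_iff.mp h1
  obtain ⟨h3, h4⟩ := h w⁻¹ (by rw [norm_inv]; exact inv_lt_of_inv_lt₀ hδ hw) p hp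
  have h5 : w ^ e ≠ 0 := pow_ne_zero _ h2
  rw [pw_rev d p h2, pw_rev n p h2, smul_eq_mul]
  refine ⟨mul_ne_zero h5 h3, ?_⟩
  rwa [smul_smul, mul_inv_rev, mul_assoc, inv_mul_cancel₀ h5, mul_one]

theorem close {Z : Type} [NormedAddCommGroup Z] [NormedSpace ℂ Z] (f : X →L[ℂ] Y)
    (pr : Y →L[ℂ] Z) {y : Y} {ξ ξ' : X} {a : Z} {η₀ η η' C s : ℝ} (h1 : ‖y - f ξ'‖ < η')
    (h2 : η' ≤ η₀ / 2) (h3 : η' ≤ η / (‖pr‖ + 1)) (h4 : ‖ξ' - ξ‖ ≤ s) (h5 : ‖f‖ ≤ C)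
    (h6 : C * s ≤ η₀ / 2) (h7 : pr (f ξ') = pr (f ξ) + a) :
    ‖y - f ξ‖ < η₀ ∧ ‖pr y - pr (f ξ) - a‖ < η := by
  constructor
  · have e1 : ‖f ξ' - f ξ‖ ≤ C * s := by
      rw [← map_sub]
      exact (f.le_opNorm _).trans (mul_le_mul h5 h4 (norm_nonneg _) ((norm_nonneg _).trans h5))
    have := norm_sub_le_norm_sub_add_norm_sub y (f ξ') (f ξ)
    linarith
  · have e1 : pr y - pr (f ξ) - a = pr (y - f ξ') := by rw [map_sub, h7]; abel
    rw [e1]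
    have e2 := pr.le_opNorm (y - f ξ')
    have e3 : 0 < ‖pr‖ + 1 := by positivity
    rw [le_div_iff₀ e3] at h3
    nlinarith [norm_nonneg pr, norm_nonneg (y - f ξ')]

end Tooth

open Tooth in
theorem Tooth_of : S_Tooth := by
  intro E _ _ _ E' _ _ _ L _ _ _ E₀ _ _ _ EP _ _ _ U pr lab D K hKM hK η₀ hη₀
  obtain ⟨r, hr, hrK⟩ := D.TP.rho_lower hK.isBounded
  obtain ⟨K', hK'M, hK', hKK'⟩ := compact_nhd D.TP.closed hK.isBounded
  set C : ℝ := ‖D.e₁‖ + ‖D.e₂‖ + 1 with hC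
  have hC0 : 0 < C := by positivity
  set ε : ℝ := min (r ^ 2) (r * (η₀ / 2 / C)) with hε
  refine ⟨ε, by positivity, fun η hη => ?_⟩
  set η' : ℝ := min (η₀ / 2) (η / (‖D.pr₀‖ + 1)) with hη'
  have hη'0 : 0 < η' := by positivity
  obtain ⟨δ₁, hδ₁, h₁⟩ := unif (H := fun p => D.e₁ p.2) (fun k => (D.tn k).1) (fun k => (D.td k).1)
    (by fun_prop) hK' (fun p hp => D.at0 p (hK'M hp)) hη'0
  obtain ⟨δ₂, hδ₂, h₂⟩ := unifI (H := fun p => D.e₂ p.2) (fun k => (D.tn k).1)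
    (fun k => (D.td k).1) (by fun_prop) hK' (fun p hp => D.atI p (hK'M hp)) hη'0
  let q : (ℂ × EP) × E' × E' × ℂ → ℂ × (E' × E') :=
    fun x => (x.1.1, D.prP x.1.2 + (x.2.1, x.2.2.1))
  let P : (ℂ × EP) × E' × E' × ℂ → ℂ × EP := fun x => (x.1.1, D.TP.ex x.1 (q x))
  have hq : ∀ x ∈ brD K E' ε, ‖q x - pj D.prP x.1‖ < ε := by
    rintro x ⟨-, ha, hb, -⟩
    have e1 : q x - pj D.prP x.1 = (0, (x.2.1, x.2.2.1)) := by simp [q, pj]
    rw [e1]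
    simp only [Prod.norm_mk, norm_zero, max_lt_iff]
    have ha' : ‖x.2.1‖ < ε := by simpa using ha
    exact ⟨(norm_nonneg _).trans_lt ha', ha', by simpa using hb⟩
  have hdom : ∀ x ∈ brD K E' ε, ‖q x - pj D.prP x.1‖ < D.TP.rho x.1 ^ 2 := fun x hx =>
    ((hq x hx).trans_le (min_le_left _ _)).trans_le (pow_le_pow_left₀ hr.le (hrK _ hx.1) 2)
  have hPM : ∀ x ∈ brD K E' ε, P x ∈ D.M := fun x hx => D.TP.ex_mem (hKM hx.1) (hdom x hx)
  have hPK : ∀ x ∈ brD K E' ε, P x ∈ K' := fun x hx =>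
    hKK' _ hx.1 _ (hPM x hx)
      ((D.TP.ex_spec (hKM hx.1) (hdom x hx)).2.1.le.trans (D.TP.rho_le_one _))
  have hs : ∀ x ∈ brD K E' ε, ‖(P x).2 - x.1.2‖ ≤ η₀ / 2 / C := fun x hx => by
    have e1 := (D.TP.ex_dist' (hKM hx.1) (hdom x hx)).trans
      ((hq x hx).le.trans (min_le_right _ _))
    have e2 := mul_le_mul_of_nonneg_right (hrK _ hx.1) (norm_nonneg ((P x).2 - x.1.2))
    exact le_of_mul_le_mul_left (e2.trans e1) hr
  have hCs : C * (η₀ / 2 / C) ≤ η₀ / 2 := by rw [mul_div_cancel₀ _ hC0.ne']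
  have hpr : ∀ x ∈ brD K E' ε, D.pr₀ (D.e₁ (P x).2) = D.pr₀ (D.e₁ x.1.2) + x.2.1 ∧
      D.pr₀ (D.e₂ (P x).2) = D.pr₀ (D.e₂ x.1.2) + x.2.2.1 := fun x hx => by
    have e1 : D.prP (P x).2 = D.prP x.1.2 + (x.2.1, x.2.2.1) :=
      D.TP.pr_ex (hKM hx.1) (hdom x hx)
    rw [(D.ends _ (hPM x hx)).2.2.1, (D.ends _ (hKM hx.1)).2.2.1] at e1
    exact ⟨congrArg Prod.fst e1, congrArg Prod.snd e1⟩
  have hlab : ∀ x ∈ brD K E' ε, D.lab₀ (D.e₁ (P x).2) = D.lab₀ (D.e₁ x.1.2) := fun x hx => by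
    refine D.TP.ex_lab (lab := fun ξ => D.lab₀ (D.e₁ ξ)) (z := x.1.1) (ξ := x.1.2) (hKM hx.1)
      (Continuous.continuousOn (by fun_prop)) ((D.fin₀ x.1.1).subset ?_) ?_
    · rintro _ ⟨ξ, hξ, rfl⟩
      exact ⟨D.e₁ ξ, (D.ends _ hξ).1, rfl⟩
    · exact (norm_snd_le (q x - pj D.prP x.1)).trans_lt (hdom x hx)
  have hAC : AC (brD K E' ε) fun x => (P x, x.2.2.2) := by
    have a1 : AC (brD K E' ε) fun x : (ℂ × EP) × E' × E' × ℂ => (x.1, q x) :=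
      AC.of_diff (by fun_prop) _
    have a2 := D.TP.ac_ex.comp a1 fun x hx => ⟨hKM hx.1, hdom x hx⟩
    exact ((AC.id' _).fst.fst.prodMk a2).prodMk (AC.id' _).snd.snd.snd
  refine ⟨min δ₁ δ₂, lt_min hδ₁ hδ₂,
    fun x => (pw D.d (P x) x.2.2.2)⁻¹ • pw D.n (P x) x.2.2.2, {x | pw D.d (P x) x.2.2.2 ≠ 0},
    MF.quot ((AC.of_diff (pw_diff fun k => (D.tn k).1) univ).comp hAC (mapsTo_univ _ _))
      ((AC.of_diff (pw_diff fun k => (D.td k).1) univ).comp hAC (mapsTo_univ _ _)),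
    fun x hx hR => ?_, fun x hx hw => ?_, fun x hx hw => ?_⟩
  · obtain ⟨e1, e2⟩ := D.curve _ (hPM x hx) _ hR
    exact ⟨e1, e2.trans (hlab x hx)⟩
  · obtain ⟨e1, e2⟩ := h₁ _ (hw.trans_le (min_le_left _ _)) _ (hPK x hx)
    exact ⟨e1, close D.e₁ D.pr₀ e2 (min_le_left _ _) (min_le_right _ _) (hs x hx)
      (by linarith [norm_nonneg D.e₂]) hCs (hpr x hx).1⟩
  · obtain ⟨e1, e2⟩ := h₂ _ ((inv_anti₀ (lt_min hδ₁ hδ₂) (min_le_right _ _)).trans_lt hw) _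
      (hPK x hx)
    exact ⟨e1, close D.e₂ D.pr₀ e2 (min_le_left _ _) (min_le_right _ _) (hs x hx)
      (by linarith [norm_nonneg D.e₁]) hCs (hpr x hx).2⟩

end

end Pool.Agent.P.MP_daea48_ag
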