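import Pool.Agent.P.MP_daea48_ag.StK

/-! From a point of the final system over Laurent series to a point over the field. -/

open Set Filter Topology Polynomial

namespace Pool.Agent.P.MP_daea48_ag

namespace Unw

/-- `LPt` with an arbitrary finite index type. -/
theorem lpt_fin {E : Type} [NormedAddCommGroup E] [NormedSpace ℂ E] {U : Set (ℂ × E)} {Λ : Type}
    [CommRing Λ] [Algebra ℂ Λ] {z : Λ} {x : (E →L[ℂ] ℂ) → Λ} (hx : LPt U z x) {J : Type}
    [Fintype J] (ℓ : J → (E →L[ℂ] ℂ)) (G : MvPolynomial (Option J) ℂ)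
    (h : ∀ u ∈ U, MvPolynomial.aeval (fun o : Option J => o.elim u.1 fun i => ℓ i u.2) G = 0) :
    MvPolynomial.aeval (fun o : Option J => o.elim z fun i => x (ℓ i)) G = 0 := by
  set e := Fintype.equivFin J
  have h1 := hx _ (fun i => ℓ (e.symm i)) (MvPolynomial.rename (Option.map e) G) fun u hu => by
    rw [← MvPolynomial.coe_aeval_eq_eval]
    show MvPolynomial.aeval _ _ = 0
    rw [MvPolynomial.aeval_rename, ← h u hu]
    congr 2
    funext o
    cases o <;> simp
  rw [MvPolynomial.aeval_rename] at h1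
  rw [← h1]
  congr 2
  funext o
  cases o <;> simp

variable {K : Type} [Field K] [Algebra ℝ K] (F : FF K)

theorem aeval_ne {s : ℝ[X]} (hs : s ≠ 0) : aeval F.t s ≠ 0 := by
  intro h
  have h1 : F.Q ∣ C s := (F.ker _).1 (by rw [aevalAeval_C, h])
  have h2 := natDegree_le_of_dvd h1 (C_ne_zero.2 hs)
  rw [natDegree_C] at h2
  exact absurd F.pos (not_lt.2 h2)

theorem evF_and {p q : ℂ × ℂ → Prop} (hp : F.evF p) (hq : F.evF q) :
    F.evF fun c => p c ∧ q c := by
  obtain ⟨a, ha, h1⟩ := hp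
  obtain ⟨b, hb, h2⟩ := hq
  refine ⟨a * b, mul_ne_zero ha hb, fun c hc h => ?_⟩
  simp only [cx1, Polynomial.map_mul, eval_mul, mul_ne_zero_iff] at h
  exact ⟨h1 c hc h.1, h2 c hc h.2⟩

theorem evF_mono {p q : ℂ × ℂ → Prop} (hp : F.evF p) (h : ∀ c, p c → q c) : F.evF q := by
  obtain ⟨a, ha, h1⟩ := hp
  exact ⟨a, ha, fun c hc h' => h c (h1 c hc h')⟩

theorem evF_true {p : ℂ × ℂ → Prop} (h : ∀ c, p c) : F.evF p :=
  ⟨1, one_ne_zero, fun c _ _ => h c⟩

theorem spP_sum {σ ι : Type}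
    (hadd : ∀ G H : MvPolynomial σ K, F.evF fun c => F.spP (G + H) c = F.spP G c + F.spP H c)
    (S : Finset ι) (g : ι → MvPolynomial σ K) :
    F.evF fun c => F.spP (∑ i ∈ S, g i) c = ∑ i ∈ S, F.spP (g i) c := by
  classical
  induction S using Finset.induction_on with
  | empty => exact evF_true F fun c => by simp [FF.spP]
  | insert a S ha ih =>
    refine evF_mono F (evF_and F ih (hadd (g a) (∑ i ∈ S, g i))) fun c h => ?_
    rw [Finset.sum_insert ha, Finset.sum_insert ha, h.2, h.1]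

/-- A relation of degree less than `d` at all roots is trivial. -/
theorem roots_zero (t : ℂ) (ht : (cx1 F.δ₀).eval t ≠ 0) (c : Fin F.d → ℂ)
    (h : ∀ v, (cx F.Q).evalEval t v = 0 → ∑ i : Fin F.d, v ^ (i : ℕ) * c i = 0) : c = 0 := by
  classical
  set P : ℂ[X] := (cx F.Q).map (evalRingHom t) with hP
  have hm : P.Monic := (F.monic.map _).map _
  have hd : P.natDegree = F.d := by
    rw [hP, cx, (F.monic.map _).natDegree_map, F.monic.natDegree_map]; rfl
  have hs : P.Separable := by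
    obtain ⟨a, b, hab⟩ := F.bez
    have h1 := congrArg (fun A => (cx A).map (evalRingHom t)) hab
    simp only [cx, Polynomial.map_add, Polynomial.map_mul, map_C, ← derivative_map,
      coe_mapRingHom, coe_evalRingHom] at h1
    have h2 : (cx a).map (evalRingHom t) * P + (cx b).map (evalRingHom t) * derivative P =
        C ((cx1 F.δ₀).eval t) := h1
    refine ⟨C ((cx1 F.δ₀).eval t)⁻¹ * (cx a).map (evalRingHom t),
      C ((cx1 F.δ₀).eval t)⁻¹ * (cx b).map (evalRingHom t), ?_⟩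
    rw [mul_assoc, mul_assoc, ← mul_add, h2, ← C_mul, inv_mul_cancel₀ ht, C_1]
  have hc : P.roots.toFinset.card = F.d := by
    rw [Multiset.toFinset_card_of_nodup (nodup_roots hs), IsAlgClosed.card_roots_eq_natDegree, hd]
  set e := (Finset.equivFinOfCardEq hc).symm
  refine Matrix.eq_zero_of_forall_index_sum_pow_mul_eq_zero (f := fun i => (e i : ℂ))
    (Subtype.val_injective.comp e.injective) fun j => h _ ?_
  have h3 := (e j).2
  rw [Multiset.mem_toFinset, mem_roots hm.ne_zero, IsRoot.def] at h3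
  exact (map_evalRingHom_eval _ _ _).symm.trans h3

/-- A polynomial in `t` and further variables. -/
noncomputable def Wp {τ : Type} (S : Finset (τ →₀ ℕ)) (b : (τ →₀ ℕ) → ℝ[X]) :
    MvPolynomial (Option (Option τ)) ℂ :=
  ∑ m ∈ S, aeval (MvPolynomial.X (some none)) (cx1 (b m)) *
    ∏ a ∈ m.support, MvPolynomial.X (some (some a)) ^ m a

theorem aeval_Wp {τ Λ : Type} [CommRing Λ] [Algebra ℂ Λ] (S : Finset (τ →₀ ℕ))
    (b : (τ →₀ ℕ) → ℝ[X]) (w : Option (Option τ) → Λ) :
    MvPolynomial.aeval w (Wp S b) = ∑ m ∈ S, aeval (w (some none)) (cx1 (b m)) *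
      ∏ a ∈ m.support, w (some (some a)) ^ m a := by
  simp only [Wp, map_sum, map_mul, map_prod, map_pow, MvPolynomial.aeval_X, ← aeval_algHom_apply]

theorem aeval_cx1 {Λ : Type} [Field Λ] [Algebra ℂ Λ] (J : K →+* Λ)
    (hJ : ∀ r : ℝ, J (algebraMap ℝ K r) = algebraMap ℂ Λ r) (a : K) (b : ℝ[X]) :
    aeval (J a) (cx1 b) = J (aeval a b) := by
  induction b using Polynomial.induction_on' with
  | add p q hp hq => simp only [cx1, Polynomial.map_add, map_add] at hp hq ⊢; rw [hp, hq]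
  | monomial n r => simp [cx1, aeval_monomial, hJ]

theorem aevalAeval_sum (A : ℝ[X][X]) (hA : A.degree < F.Q.degree) :
    aevalAeval F.t F.T A = ∑ i : Fin F.d, F.T ^ (i : ℕ) * aeval F.t (A.coeff i) := by
  have h1 : A.natDegree < F.d := by
    by_cases h : A = 0
    · rw [h, natDegree_zero]; exact F.pos
    · exact natDegree_lt_natDegree h hA
  conv_lhs => rw [A.as_sum_range' _ h1, ← Fin.sum_univ_eq_sum_range (fun i => monomial i (A.coeff i))]
  rw [map_sum]
  refine Finset.sum_congr rfl fun i _ => ?_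
  rw [← C_mul_X_pow_eq_monomial, map_mul, map_pow, aevalAeval_C, aevalAeval_Y, mul_comm]

/-- Relations on the fibres pass to the point. -/
theorem rel {τ E : Type} [Fintype τ] [NormedAddCommGroup E] [NormedSpace ℂ E] {U : Set (ℂ × E)}
    {Λ : Type} [Field Λ] [Algebra ℂ Λ] {z : Λ} {x : (E →L[ℂ] ℂ) → Λ} (hx : LPt U z x)
    (J : K →+* Λ) (hJ : ∀ r : ℝ, J (algebraMap ℝ K r) = algebraMap ℂ Λ r)
    (ℓ : Option τ → (E →L[ℂ] ℂ)) (ht : x (ℓ none) = J F.t)
    (s4 : ∀ a (c : ℂ × ℂ), F.sp a c = ∑ l : Fin F.d, c.2 ^ (l : ℕ) * F.cf l a c.1)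
    (H : MvPolynomial τ K) (δ₁ : ℝ[X]) (hδ : δ₁ ≠ 0)
    (h : ∀ u ∈ U, (cx1 δ₁).eval (ℓ none u.2) ≠ 0 → ∀ v, (cx F.Q).evalEval (ℓ none u.2) v = 0 →
      MvPolynomial.eval (fun a => ℓ (some a) u.2) (F.spP H (ℓ none u.2, v)) = 0) :
    H.eval₂ J (fun a => x (ℓ (some a))) = 0 := by
  classical
  have hden : ∀ a, F.den a ≠ 0 ∧ (F.num a).degree < F.Q.degree ∧
    a * aeval F.t (F.den a) = aevalAeval F.t F.T (F.num a) := fun a => (F.rep a).choose_spec
  set e : ℝ[X] := ∏ m ∈ H.support, F.den (H.coeff m) with he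
  set em : (τ →₀ ℕ) → ℝ[X] := fun m => ∏ m' ∈ H.support.erase m, F.den (H.coeff m') with hem
  have hee : ∀ m ∈ H.support, F.den (H.coeff m) * em m = e := fun m hm =>
    Finset.mul_prod_erase H.support (fun m => F.den (H.coeff m)) hm
  have he0 : e ≠ 0 := Finset.prod_ne_zero_iff.2 fun m _ => (hden _).1
  set δ' : ℝ[X] := δ₁ * F.δ₀ * e with hδ'
  have hδ0 : δ' ≠ 0 := mul_ne_zero (mul_ne_zero hδ F.δ₀_ne) he0
  have key : ∀ i : Fin F.d, ∑ m ∈ H.support, J (aeval F.t (δ' * em m * (F.num (H.coeff m)).coeff i)) *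
      ∏ a ∈ m.support, x (ℓ (some a)) ^ m a = 0 := by
    intro i
    have h1 := lpt_fin hx ℓ (Wp H.support fun m => δ' * em m * (F.num (H.coeff m)).coeff i) ?_
    · rw [aeval_Wp] at h1
      simp only [Option.elim, ht, aeval_cx1 J hJ] at h1
      exact h1
    intro u hu
    rw [aeval_Wp]
    simp only [Option.elim, coe_aeval_eq_eval]
    set t := ℓ none u.2 with htt
    by_cases h0 : (cx1 δ').eval t = 0
    · refine Finset.sum_eq_zero fun m _ => ?_
      simp only [cx1, Polynomial.map_mul, eval_mul] at h0 ⊢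
      rw [h0]; ring
    have h2 : (cx1 δ₁).eval t ≠ 0 ∧ (cx1 F.δ₀).eval t ≠ 0 ∧ (cx1 e).eval t ≠ 0 := by
      simp only [hδ', cx1, Polynomial.map_mul, eval_mul, mul_eq_zero, not_or] at h0
      exact ⟨h0.1.1, h0.1.2, h0.2⟩
    have h3 := roots_zero F t h2.2.1 (fun i => ∑ m ∈ H.support, F.cf i (H.coeff m) t *
      ∏ a ∈ m.support, ℓ (some a) u.2 ^ m a) fun v hv => by
        have h4 := h u hu h2.1 v hv
        simp only [FF.spP, map_sum, MvPolynomial.eval_monomial, s4, Finsupp.prod] at h4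
        rw [← h4, Finset.sum_comm]
        refine Finset.sum_congr rfl fun i _ => ?_
        rw [Finset.mul_sum]
        exact Finset.sum_congr rfl fun m _ => by ring
    have h5 : ∑ m ∈ H.support, F.cf i (H.coeff m) t *
      ∏ a ∈ m.support, ℓ (some a) u.2 ^ m a = 0 := congrFun h3 i
    rw [← mul_zero ((cx1 δ').eval t * (cx1 e).eval t), ← h5, Finset.mul_sum]
    refine Finset.sum_congr rfl fun m hm => ?_
    have h6 : (cx1 (F.den (H.coeff m))).eval t * (cx1 (em m)).eval t = (cx1 e).eval t := by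
      rw [← hee m hm]; simp only [cx1, Polynomial.map_mul, eval_mul]
    have h7 : (cx1 (F.den (H.coeff m))).eval t ≠ 0 := fun h => h2.2.2 (by rw [← h6, h, zero_mul])
    have h8 : (cx1 (δ' * em m * (F.num (H.coeff m)).coeff i)).eval t = (cx1 δ').eval t *
        (cx1 (em m)).eval t * (cx1 ((F.num (H.coeff m)).coeff i)).eval t := by
      simp only [cx1, Polynomial.map_mul, eval_mul]
    rw [h8, ← h6, FF.cf]
    field_simp
  have h9 : J (aeval F.t (δ' * e)) * H.eval₂ J (fun a => x (ℓ (some a))) =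
      ∑ i : Fin F.d, J F.T ^ (i : ℕ) * ∑ m ∈ H.support,
        J (aeval F.t (δ' * em m * (F.num (H.coeff m)).coeff i)) *
          ∏ a ∈ m.support, x (ℓ (some a)) ^ m a := by
    simp only [Finset.mul_sum]
    rw [Finset.sum_comm, MvPolynomial.eval₂_eq, Finset.mul_sum]
    refine Finset.sum_congr rfl fun m hm => ?_
    simp only [← mul_assoc]
    rw [← Finset.sum_mul]
    congr 1
    simp only [← map_pow, ← map_mul, ← map_sum]
    congr 1
    have h10 := (hden (H.coeff m)).2.2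
    rw [aevalAeval_sum F _ (hden _).2.1] at h10
    rw [← hee m hm]
    simp only [map_mul]
    rw [show aeval F.t δ' * (aeval F.t (F.den (H.coeff m)) * aeval F.t (em m)) * H.coeff m =
      aeval F.t δ' * aeval F.t (em m) * (H.coeff m * aeval F.t (F.den (H.coeff m))) by ring,
      h10, Finset.mul_sum]
    exact Finset.sum_congr rfl fun i _ => by ring
  simp only [key, mul_zero, Finset.sum_const_zero] at h9
  exact (mul_eq_zero.1 h9).resolve_left
    ((map_ne_zero J).2 (aeval_ne F (mul_ne_zero hδ0 he0)))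

/-- The coordinate functionals of the final system. -/
noncomputable def co (d : ℕ) (σ : Type) [Fintype σ] :
    Option (Fin d × σ) → (ℂ × ((Fin d → σ → ℂ) × ℂ) →L[ℂ] ℂ)
  | none => ContinuousLinearMap.fst ℂ _ _
  | some a => (ContinuousLinearMap.proj a.2).comp ((ContinuousLinearMap.proj a.1).comp
      ((ContinuousLinearMap.fst ℂ _ _).comp (ContinuousLinearMap.snd ℂ ℂ ((Fin d → σ → ℂ) × ℂ))))

/-- A point of the final system gives a point of the variety. -/
theorem wpt (hS : S_Spr) (V : Pres K) (δ : ℝ[X]) (l : ℝ) {Λ : Type} [Field Λ] [Algebra ℂ Λ]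
    {z : Λ} {x} (hx : LPt (F.RR l V δ) z x) (J : K →+* Λ)
    (hJ : ∀ r : ℝ, J (algebraMap ℝ K r) = algebraMap ℂ Λ r) (hz : z ≠ 1)
    (hzt : J F.t * (1 - z) = algebraMap ℂ Λ (Complex.I * l) * (1 + z)) :
    V.Pt J fun s => ∑ i : Fin F.d, J F.T ^ (i : ℕ) * x (co F.d V.σ (some (i, s))) := by
  obtain ⟨-, s2, -, s4, s5, -, -, -, -, s10, s11, s12, -, s14, -⟩ := hS K F
  have ht : x (co F.d V.σ none) = J F.t := by
    have h1 := lpt_fin hx (co F.d V.σ) (MvPolynomial.X (some none) * (1 - MvPolynomial.X none) -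
      MvPolynomial.C (Complex.I * l) * (1 + MvPolynomial.X none)) fun u hu => by
        have e : u.2.1 * (1 - u.1) = Complex.I * l * (1 + u.1) := hu.1
        simp only [map_sub, map_mul, map_add, map_one, MvPolynomial.aeval_X, MvPolynomial.aeval_C,
          Option.elim, Algebra.algebraMap_self, RingHom.id_apply]
        exact sub_eq_zero.2 e
    simp only [map_sub, map_add, map_one, MvPolynomial.aeval_X, MvPolynomial.aeval_C,
      Option.elim, map_mul (MvPolynomial.aeval _)] at h1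
    exact mul_right_cancel₀ (sub_ne_zero.2 hz.symm) ((sub_eq_zero.1 h1).trans hzt.symm)
  intro k
  set φ : V.σ → MvPolynomial (Fin F.d × V.σ) K := fun s =>
    ∑ i : Fin F.d, MvPolynomial.C (F.T ^ (i : ℕ)) * MvPolynomial.X (i, s) with hφ
  have hT : ∀ i : ℕ, F.evF fun c => F.sp (F.T ^ i) c = c.2 ^ i := fun i => by
    refine evF_mono F (s2 (X ^ i) 1 one_ne_zero) fun c h => ?_
    simpa [cx, cx1, aevalAeval_Y] using h
  have hφ' : F.evF fun c => ∀ s, F.spP (φ s) c =
      ∑ i : Fin F.d, MvPolynomial.C (c.2 ^ (i : ℕ)) * MvPolynomial.X (i, s) := by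
    refine s5 _ _ fun s => ?_
    refine evF_mono F (evF_and F (spP_sum F (fun G H => evF_mono F (s10 _ G H) fun _ h => h.1)
      Finset.univ fun i : Fin F.d => MvPolynomial.C (F.T ^ (i : ℕ)) * MvPolynomial.X (i, s))
      (s5 (Fin F.d) _ fun i => evF_and F (evF_and F (s10 _ (MvPolynomial.C (F.T ^ (i : ℕ)))
        (MvPolynomial.X (i, s))) (s12 _ (i, s))) (hT i))) fun c h => ?_
    rw [hφ, h.1]
    refine Finset.sum_congr rfl fun i _ => ?_
    rw [(h.2 i).1.1.2, (h.2 i).1.2, s11, (h.2 i).2]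
  obtain ⟨δ₁, hδ, h1⟩ := evF_and F hφ' (s14 _ _ φ (V.F k))
  have h2 := rel F hx J hJ (co F.d V.σ) ht (fun a c => (s4 a c).2)
    (MvPolynomial.bind₁ φ (V.F k)) δ₁ hδ fun u hu h v hv => by
      have h3 := h1 (u.2.1, v) hv h
      have h4 := (hu.2.2 v hv).2 k
      show MvPolynomial.eval _ (F.spP _ (u.2.1, v)) = 0
      rw [h3.2, ← MvPolynomial.coe_aeval_eq_eval]
      show MvPolynomial.aeval _ _ = 0
      rw [MvPolynomial.aeval_bind₁, ← h4]
      show _ = MvPolynomial.aeval _ _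
      congr 2
      funext s
      rw [h3.1 s]
      simp [ev, co]
  rw [← MvPolynomial.coe_eval₂Hom, MvPolynomial.eval₂Hom_bind₁] at h2
  rw [← h2, ← MvPolynomial.coe_eval₂Hom]
  congr 2
  funext s
  simp [hφ]

omit [Algebra ℝ K] in
/-- From Laurent series to constants. -/
theorem desc {m : ℕ} {V : Fin (m + 1) → Pres K} (D : KU V) {L : Type} [Field L] (j : K →+* L)
    (ξ : D.U.σ → LaurentSeries L)
    (hξ : D.U.Pt ((algebraMap (PowerSeries L) (LaurentSeries L)).comp (PowerSeries.C.comp j)) ξ) :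
    ∃ i η, (V i).Pt j η := by
  set ι := algebraMap (PowerSeries L) (LaurentSeries L) with hι
  have hinj : Function.Injective ι := IsFractionRing.injective _ _
  have hcc : PowerSeries.constantCoeff.comp (PowerSeries.C.comp j) = j := by
    ext a; simp
  have hev : ∀ {σ : Type} (p : σ → PowerSeries L) (G : MvPolynomial σ K) (a : PowerSeries L),
      G.eval₂ (ι.comp (PowerSeries.C.comp j)) (ι ∘ p) = ι a →
      G.eval₂ j (PowerSeries.constantCoeff ∘ p) = PowerSeries.constantCoeff a := by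
    intro σ p G a h
    rw [← MvPolynomial.eval₂_comp_left] at h
    rw [← hinj h, MvPolynomial.eval₂_comp_left, hcc]
  by_cases h : ∃ i, ∀ s, ∃ p, ι p = (D.φ i s).eval₂ (ι.comp (PowerSeries.C.comp j)) ξ
  · obtain ⟨i, hi⟩ := h
    choose p hp using hi
    refine ⟨i, PowerSeries.constantCoeff ∘ p, fun k => ?_⟩
    have h1 := (D.fw i _ _ ξ hξ).1 k
    have h2 : evs (ι.comp (PowerSeries.C.comp j)) ξ (D.φ i) = ι ∘ p := funext fun s => (hp s).symm
    rw [h2] at h1
    simpa using hev p _ 0 (by rw [h1, map_zero])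
  · push Not at h
    choose l hl using h
    obtain ⟨G, hG, hG1⟩ := D.cpt l
    have h1 : ∀ i, ∃ p, PowerSeries.constantCoeff p = 0 ∧
        ι p * (D.φ i (l i)).eval₂ (ι.comp (PowerSeries.C.comp j)) ξ = 1 := by
      intro i
      set y := (D.φ i (l i)).eval₂ (ι.comp (PowerSeries.C.comp j)) ξ with hy
      have hy0 : y ≠ 0 := fun h => hl i 0 (by rw [map_zero]; exact h.symm)
      obtain ⟨p, hp⟩ | ⟨p, hp⟩ := ValuationRing.isInteger_or_isInteger (PowerSeries L) y
      · exact absurd hp (hl i p)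
      have h2 : ι p * y = 1 := by rw [hι, hp, inv_mul_cancel₀ hy0]
      refine ⟨p, ?_, h2⟩
      by_contra h3
      obtain ⟨q, hq⟩ := (PowerSeries.isUnit_iff_constantCoeff.2 (Ne.isUnit h3)).exists_left_inv
      refine hl i q ?_
      rw [← mul_one (ι q), ← h2, ← mul_assoc, ← map_mul, hq, map_one, one_mul]
    choose p hp0 hp using h1
    have h4 := hev p G 1 (by rw [map_one]; exact hG1 _ _ ξ (ι ∘ p) hξ hp)
    have h5 : PowerSeries.constantCoeff ∘ p = fun _ => 0 := funext hp0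
    rw [h5, MvPolynomial.eval₂_zero'_apply, hG, map_zero, map_one] at h4
    exact absurd h4 zero_ne_one

/-- `t` is not a constant. -/
theorem t_ne {Λ : Type} [Field Λ] [Algebra ℂ Λ] (J : K →+* Λ)
    (hJ : ∀ r : ℝ, J (algebraMap ℝ K r) = algebraMap ℂ Λ r) (w : ℂ) :
    J F.t ≠ algebraMap ℂ Λ w := by
  intro h
  have hw : IsIntegral ℝ w := Algebra.IsIntegral.isIntegral w
  refine (map_ne_zero J).2 (aeval_ne F (minpoly.ne_zero hw)) ?_
  rw [← aeval_cx1 J hJ, h, aeval_algebraMap_apply, cx1, aeval_map_algebraMap, minpoly.aeval,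
    map_zero]

end Unw

open Unw in
theorem Unw_of (h1 : S_Spr) : S_Unw := by
  intro K _ _ F m V D
  refine ⟨1, one_ne_zero, fun δ _ _ l hl hG L _ j I hI => ?_⟩
  let _ : Algebra ℝ L := (j.comp (algebraMap ℝ K)).toAlgebra
  let _ : Algebra ℂ L := (Complex.liftAux I (by rw [← sq, hI])).toRingHom.toAlgebra
  have hj : ∀ r : ℝ, j (algebraMap ℝ K r) = algebraMap ℂ L r := fun r =>
    ((Complex.liftAux I (by rw [← sq, hI])).commutes r).symm
  set c : ℂ := Complex.I * l with hc
  have hc0 : c ≠ 0 := mul_ne_zero Complex.I_ne_zero (Complex.ofReal_ne_zero.2 hl.ne')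
  have hc1 : algebraMap ℂ L c ≠ 0 := (_root_.map_ne_zero _).2 hc0
  have h2 : (2 : L) ≠ 0 := by
    have := (map_ne_zero (algebraMap ℂ L)).2 (two_ne_zero (α := ℂ))
    rwa [map_ofNat] at this
  have hd : j F.t + algebraMap ℂ L c ≠ 0 := fun h =>
    t_ne F j hj (-c) (by rw [map_neg]; exact eq_neg_of_add_eq_zero_left h)
  set z : L := (j F.t - algebraMap ℂ L c) / (j F.t + algebraMap ℂ L c) with hz
  have hzt : j F.t * (1 - z) = algebraMap ℂ L c * (1 + z) := by
    rw [hz]; field_simp; ring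
  have hz1 : z ≠ 1 := by
    intro h
    rw [h, sub_self, mul_zero] at hzt
    exact mul_ne_zero hc1 (by rw [one_add_one_eq_two]; exact h2) hzt.symm
  have htr : Transcendental ℂ z := by
    intro h
    obtain ⟨w, hw⟩ := minpoly.mem_range_of_degree_eq_one ℂ z
      (IsAlgClosed.degree_eq_one_of_irreducible ℂ (minpoly.irreducible h.isIntegral))
    refine t_ne F j hj (c * (1 + w) / (1 - w)) ?_
    rw [map_div₀, map_mul, map_add, map_sub, map_one, hw, eq_div_iff (sub_ne_zero.2 hz1.symm), hzt]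
  obtain ⟨x, hx⟩ := hG L z htr
  set ι := algebraMap (PowerSeries L) (LaurentSeries L) with hι
  have hC : ∀ w : ℂ, algebraMap ℂ (LaurentSeries L) w = ι (PowerSeries.C (algebraMap ℂ L w)) := by
    intro w
    rw [HahnSeries.algebraMap_apply', PowerSeries.algebraMap_apply]
    rfl
  have hL : algebraMap L (LaurentSeries L) z = (ι.comp PowerSeries.C) z := rfl
  refine desc D j _ (wpt F h1 D.U δ l hx (ι.comp (PowerSeries.C.comp j)) (fun r => ?_) ?_ ?_)
  · rw [hC, ← hj]; rfl
  · rw [hL, ← map_one (ι.comp PowerSeries.C)]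
    exact fun h => hz1 ((ι.comp PowerSeries.C).injective h)
  · have h3 := congrArg (ι.comp PowerSeries.C) hzt
    rw [map_mul, map_mul, map_sub, map_add, map_one] at h3
    rw [hL, hC]
    exact h3

end Pool.Agent.P.MP_daea48_ag
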