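import Pool.Agent.P.MP_daea48_ag.LS
import Pool.Agent.P.MP_daea48_ag.Mero
import Pool.Agent.P.MP_daea48_ag.Root
import Pool.Agent.P.MP_daea48_ag.Itp
import Pool.Agent.P.MP_daea48_ag.IFT
import Pool.Agent.P.MP_daea48_ag.APS
import Pool.Agent.P.MP_daea48_ag.Tooth
import Pool.Agent.P.MP_daea48_ag.Comb
import Pool.Agent.P.MP_daea48_ag.Loc
import Pool.Agent.P.MP_daea48_ag.BrW
import Pool.Agent.P.MP_daea48_ag.ConnW
import Pool.Agent.P.MP_daea48_ag.G
import Pool.Agent.P.MP_daea48_ag.Step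
import Pool.Agent.P.MP_daea48_ag.Ap
import Pool.Agent.P.MP_daea48_ag.M1
import Pool.Agent.P.MP_daea48_ag.M3
import Pool.Agent.P.MP_daea48_ag.PF
import Pool.Agent.P.MP_daea48_ag.C2
import Pool.Agent.P.MP_daea48_ag.Sweep
import Pool.Agent.P.MP_daea48_ag.Glob
import Pool.Agent.P.MP_daea48_ag.Sim
import Pool.Agent.P.MP_daea48_ag.FC1
import Pool.Agent.P.MP_daea48_ag.FC2
import Pool.Agent.P.MP_daea48_ag.FC3
import Pool.Agent.P.MP_daea48_ag.AF
import Pool.Agent.P.MP_daea48_ag.Pow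
import Pool.Agent.P.MP_daea48_ag.Ball
import Pool.Agent.P.MP_daea48_ag.P2
import Pool.Agent.P.MP_daea48_ag.Ell
import Pool.Agent.P.MP_daea48_ag.SP
import Pool.Agent.P.MP_daea48_ag.SPP
import Pool.Agent.P.MP_daea48_ag.Lim
import Pool.Agent.P.MP_daea48_ag.FillW
import Pool.Agent.P.MP_daea48_ag.GHS1
import Pool.Agent.P.MP_daea48_ag.GHS
import Pool.Agent.P.MP_daea48_ag.Norm
import Pool.Agent.P.MP_daea48_ag.Cover
import Pool.Agent.P.MP_daea48_ag.AtlasA
import Pool.Agent.P.MP_daea48_ag.AtlasB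
import Pool.Agent.P.MP_daea48_ag.AtlasC
import Pool.Agent.P.MP_daea48_ag.KU
import Pool.Agent.P.MP_daea48_ag.KM
import Pool.Agent.P.MP_daea48_ag.KT
import Pool.Agent.P.MP_daea48_ag.FF
import Pool.Agent.P.MP_daea48_ag.Spr
import Pool.Agent.P.MP_daea48_ag.Inst1
import Pool.Agent.P.MP_daea48_ag.Inst2
import Pool.Agent.P.MP_daea48_ag.Inst3
import Pool.Agent.P.MP_daea48_ag.Final
import Pool.Agent.P.MP_daea48_ag.Fill
import Pool.Agent.P.MP_daea48_ag.Pl1
import Pool.Agent.P.MP_daea48_ag.Pl2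
import Pool.Agent.P.MP_daea48_ag.Kv
import Pool.Agent.P.MP_daea48_ag.Germ
import Pool.Agent.P.MP_daea48_ag.RatK
import Pool.Agent.P.MP_daea48_ag.Unw
import Pool.Agent.P.MP_daea48_ag.Kmain
import Pool.Agent.P.MP_daea48_ag.Curve

/-! Assembly of the packages. -/

open CategoryTheory AlgebraicGeometry

namespace Pool.Agent.P.MP_daea48_ag

namespace Top

theorem hLS : S_LS :=
  LS_of

theorem hMero : S_Mero :=
  Mero_of

theorem hRoot : S_Root :=
  Root_of

theorem hItp : S_Itp :=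
  Itp_of hRoot

theorem hIFT : S_IFT :=
  IFT_of

theorem hAPS : S_APS :=
  APS_of hMero hItp

theorem hTooth : S_Tooth :=
  Tooth_of

theorem hComb : S_Comb :=
  Comb_of hLS hRoot

theorem hLoc : S_Loc :=
  Loc_of

theorem hBrW : S_BrW :=
  BrW_of hItp

theorem hConnW : S_ConnW :=
  ConnW_of hItp

theorem hG : S_G :=
  G_of hLS

theorem hStep : S_Step :=
  Step_of hG

theorem hAp : S_Ap :=
  Ap_of hMero

theorem hM1 : S_M1 :=
  M1_of hStep hAp

theorem hM3 : S_M3 :=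
  M3_of hM1 hStep hAp

theorem hPF : S_PF :=
  PF_of

theorem hC2 : S_C2 :=
  C2_of hPF

theorem hSweep : S_Sweep :=
  Sweep_of hIFT hPF hAp hC2 hM1 hM3

theorem hGlob : S_Glob :=
  Glob_of hIFT hSweep hStep hM1 hM3 hPF hAp

theorem hSim : S_Sim :=
  Sim_of

theorem hFC1 : S_FC1 :=
  FC1_of

theorem hFC2 : S_FC2 :=
  FC2_of hFC1

theorem hFC3 : S_FC3 :=
  FC3_of hFC1 hFC2

theorem hAF : S_AF :=
  AF_of hSim

theorem hPow : S_Pow :=
  Pow_of hAF hSim hFC2 hMero hRoot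

theorem hBall : S_Ball :=
  Ball_of hAF hSim hFC3

theorem hP2 : S_P2 :=
  P2_of hFC2

theorem hEll : S_Ell :=
  Ell_of hGlob hAPS hIFT hBrW hItp hMero hFC2

theorem hSP : S_SP :=
  SP_of

theorem hSPP : S_SPP :=
  SPP_of hSP

theorem hLim : S_Lim :=
  Lim_of hSPP hMero hRoot hIFT hFC2

theorem hFillW : S_FillW :=
  FillW_of hSim hFC2 hItp

theorem hGHS1 : S_GHS1 :=
  GHS1_of hGlob hAPS hIFT hBrW hConnW hFillW hItp

theorem hGHS : S_GHS :=
  GHS_of hGHS1 hSP hSPP hMero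

theorem hNorm : S_Norm :=
  Norm_of

theorem hCover : S_Cover :=
  Cover_of

theorem hAtlasA : S_AtlasA :=
  AtlasA_of

theorem hAtlasB : S_AtlasB :=
  AtlasB_of

theorem hAtlasC : S_AtlasC :=
  AtlasC_of

theorem hKU : S_KU :=
  KU_of hNorm hSP

theorem hKM : S_KM :=
  KM_of hSP hNorm

theorem hKT : S_KT :=
  KT_of hSP

theorem hFF : S_FF :=
  FF_of

theorem hSpr : S_Spr :=
  Spr_of

theorem hInst1 : S_Inst1 :=
  Inst1_of hSpr hNorm

theorem hInst2 : S_Inst2 :=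
  Inst2_of hSpr hInst1 hItp

theorem hInst3 : S_Inst3 :=
  Inst3_of hSpr hInst1 hItp

theorem hFinal : S_Final :=
  Final_of hAPS hIFT hBrW hConnW hFillW hSpr

theorem hFill : S_Fill :=
  Fill_of hIFT hSim hFC2 hPow hBall hP2 hEll hLim

theorem hPl1 : S_Pl1 :=
  Pl1_of hSpr

theorem hPl2 : S_Pl2 :=
  Pl2_of

theorem hKv : S_Kv :=
  Kv_of

theorem hGerm : S_Germ :=
  Germ_of hSpr hIFT hAPS hConnW hItp

theorem hRatK : S_RatK :=
  RatK_of hSpr hMero

theorem hUnw : S_Unw :=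
  Unw_of hSpr

theorem hK : S_K :=
  K_of hFF hKM hKT hKU hSpr hInst1 hInst2 hInst3 hIFT hAPS hTooth hComb hLoc hFill hFinal hGHS hUnw hKv hPl1 hPl2 hGerm hGlob hRatK

/-- The theorem over a function field without real place. -/
theorem main (K : Type) [Field K] [Algebra ℝ K] (hP : PointlessFF K) (X : Scheme.{0})
    (s : X ⟶ Spec (CommRingCat.of K)) [Smooth s] [IsProper s] [GeometricallyIntegral s]
    (h : RatConn s) : Nonempty (Pts s (RingHom.id K)) ∧ WeakApprox s := by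
  have : IsIntegral X := GeometricallyIntegral.isIntegral_of_subsingleton s
  obtain ⟨c⟩ := hCover K X s
  exact hAtlasC K X s c (hK K _ c.jF c.m c.V c.g hP (hAtlasA K X s c) (hAtlasB K X s c h))

end Top

end Pool.Agent.P.MP_daea48_ag
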